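import Pool.Agent.H24.LS.Base

/-!
# A0: block A, definitions; calculus of Lipschitz equivalence of germs

* `lip_symm`: `g y = f (h' y)` for `y` near `0`: `h'` is continuous at `0`, `h' 0 = 0`, so `f (h' y) = g (h (h' y)) = g y`.
* `lip_trans`: compose, on a smaller ball (`‖h x‖ ≤ |K| ‖x‖ < r2` for `‖x‖ < r`); inverse identities hold near `0` by continuity.
* `lip_of_linear`: a continuous (real-)linear equivalence is Lipschitz with Lipschitz inverse.
* `lip_add`: `(h p.1, p.2)` (sup norm on the product).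
* `lip_congr`: identity map.
* `lip_of_strict`: inverse function theorem: `HasStrictFDerivAt.toOpenPartialHomeomorph`/`localInverse`; both `h` and the local inverse
  are strictly differentiable at `0`, hence Lipschitz on a ball (`HasStrictFDerivAt.exists_lipschitzOnWith`); take the
  larger constant and the smaller radius; `eventually_left_inverse`, `eventually_right_inverse`.
-/

open Filter Topology Metric

namespace H24.LS

/-- analytic germ at `0` with value `0`, derivative `0` and isolated critical point -/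
structure Grm {E : Type*} [NormedAddCommGroup E] [NormedSpace ℂ E] (f : E → ℂ) : Prop where
  an : AnalyticAt ℂ f 0
  f0 : f 0 = 0
  f1 : fderiv ℂ f 0 = 0
  iso : ∀ᶠ x in 𝓝[≠] (0 : E), fderiv ℂ f x ≠ 0

/-- corank of the Hessian at `0` -/
noncomputable def crk {E : Type*} [NormedAddCommGroup E] [NormedSpace ℂ E] (f : E → ℂ) : ℕ :=
  Module.finrank ℂ (LinearMap.ker (fderiv ℂ (fderiv ℂ f) 0).toLinearMap)

/-- stabilisation `f(x) + z_1^2 + ... + z_d^2` -/
def stb {E : Type*} (d : ℕ) (f : E → ℂ) (p : E × (Fin d → ℂ)) : ℂ := f p.1 + ∑ i, p.2 i ^ 2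

/-- a Lipschitz map fixing the origin tends to zero at zero -/
theorem A0_tendsto {E E' : Type*} [NormedAddCommGroup E] [NormedAddCommGroup E'] {h : E → E'}
    {K r : ℝ} (hr : 0 < r) (h0 : h 0 = 0)
    (hl : ∀ x ∈ ball (0 : E) r, ∀ y ∈ ball (0 : E) r, ‖h x - h y‖ ≤ K * ‖x - y‖) :
    Tendsto h (𝓝 0) (𝓝 0) := by
  have h1 : ∀ᶠ x in 𝓝 (0 : E), ‖h x‖ ≤ K * ‖x‖ := by
    filter_upwards [ball_mem_nhds (0 : E) hr] with x hx
    have := hl x hx 0 (mem_ball_self hr)
    rwa [h0, sub_zero, sub_zero] at this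
  have h2 : Tendsto (fun x : E => K * ‖x‖) (𝓝 0) (𝓝 0) := by
    have := (tendsto_norm_zero (E := E)).const_mul K
    rwa [mul_zero] at this
  exact squeeze_zero_norm' h1 h2

/-- the constant can be taken at least one -/
theorem A0_norm {E E' : Type*} [NormedAddCommGroup E] [NormedAddCommGroup E'] {f : E → ℂ}
    {g : E' → ℂ} (h : LipEquiv f g) :
    ∃ (h : E → E') (h' : E' → E) (K : ℝ) (r : ℝ), 1 ≤ K ∧ 0 < r ∧ h 0 = 0 ∧ h' 0 = 0 ∧
    (∀ x ∈ ball (0 : E) r, ∀ y ∈ ball (0 : E) r, ‖h x - h y‖ ≤ K * ‖x - y‖) ∧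
    (∀ x ∈ ball (0 : E') r, ∀ y ∈ ball (0 : E') r, ‖h' x - h' y‖ ≤ K * ‖x - y‖) ∧
    (∀ᶠ x in 𝓝 (0 : E), h' (h x) = x) ∧ (∀ᶠ y in 𝓝 (0 : E'), h (h' y) = y) ∧
    (∀ᶠ x in 𝓝 (0 : E), f x = g (h x)) := by
  obtain ⟨h, h', K, r, hr, h0, h0', hl, hl', e1, e2, e3⟩ := h
  refine ⟨h, h', max K 1, r, le_max_right _ _, hr, h0, h0', fun x hx y hy => ?_,
    fun x hx y hy => ?_, e1, e2, e3⟩
  · exact (hl x hx y hy).trans (mul_le_mul_of_nonneg_right (le_max_left _ _) (norm_nonneg _))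
  · exact (hl' x hx y hy).trans (mul_le_mul_of_nonneg_right (le_max_left _ _) (norm_nonneg _))

theorem lip_refl {E : Type*} [NormedAddCommGroup E] (f : E → ℂ) : LipEquiv f f :=
  ⟨id, id, 1, 1, one_pos, rfl, rfl, fun x _ y _ => by simp, fun x _ y _ => by simp,
    Eventually.of_forall fun _ => rfl, Eventually.of_forall fun _ => rfl,
    Eventually.of_forall fun _ => rfl⟩

theorem lip_symm {E E' : Type*} [NormedAddCommGroup E] [NormedAddCommGroup E']
    {f : E → ℂ} {g : E' → ℂ} (h : LipEquiv f g) : LipEquiv g f := by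
  obtain ⟨h, h', K, r, hr, h0, h0', hl, hl', e1, e2, e3⟩ := h
  refine ⟨h', h, K, r, hr, h0', h0, hl', hl, e2, e1, ?_⟩
  filter_upwards [(A0_tendsto hr h0' hl').eventually e3, e2] with y h1 h2
  rw [h1, h2]

theorem lip_trans {E E' E'' : Type*} [NormedAddCommGroup E] [NormedAddCommGroup E']
    [NormedAddCommGroup E''] {f : E → ℂ} {g : E' → ℂ} {k : E'' → ℂ}
    (h1 : LipEquiv f g) (h2 : LipEquiv g k) : LipEquiv f k := by
  obtain ⟨h, h', K, r, hK, hr, h0, h0', hl, hl', e1, e2, e3⟩ := A0_norm h1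
  obtain ⟨j, j', L, s, hL, hs, j0, j0', jl, jl', d1, d2, d3⟩ := A0_norm h2
  have hK0 : 0 < K := by linarith
  have hL0 : 0 < L := by linarith
  have hKL : 1 ≤ K * L := by nlinarith
  set ρ : ℝ := min r s / (K * L) with hρ
  have hρ0 : 0 < ρ := by positivity
  have hm : 0 < min r s := by positivity
  have hρK : K * ρ ≤ min r s := by
    rw [hρ]
    have : K * (min r s / (K * L)) = min r s / L := by field_simp
    rw [this]
    exact div_le_self hm.le hL
  have hρL : L * ρ ≤ min r s := by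
    rw [hρ]
    have : L * (min r s / (K * L)) = min r s / K := by field_simp
    rw [this]
    exact div_le_self hm.le hK
  have hρ1 : ρ ≤ min r s := div_le_self hm.le hKL
  have hρr : ρ ≤ r := hρ1.trans (min_le_left _ _)
  have hρs : ρ ≤ s := hρ1.trans (min_le_right _ _)
  have m1 : ∀ x ∈ ball (0 : E) ρ, h x ∈ ball (0 : E') s := by
    intro x hx
    have hx' : ‖x‖ < ρ := by simpa using hx
    have h3 := hl x (ball_subset_ball hρr hx) 0 (mem_ball_self hr)
    rw [h0, sub_zero, sub_zero] at h3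
    rw [mem_ball_zero_iff]
    calc ‖h x‖ ≤ K * ‖x‖ := h3
      _ < K * ρ := mul_lt_mul_of_pos_left hx' hK0
      _ ≤ s := hρK.trans (min_le_right _ _)
  have m2 : ∀ x ∈ ball (0 : E'') ρ, j' x ∈ ball (0 : E') r := by
    intro x hx
    have hx' : ‖x‖ < ρ := by simpa using hx
    have h3 := jl' x (ball_subset_ball hρs hx) 0 (mem_ball_self hs)
    rw [j0', sub_zero, sub_zero] at h3
    rw [mem_ball_zero_iff]
    calc ‖j' x‖ ≤ L * ‖x‖ := h3
      _ < L * ρ := mul_lt_mul_of_pos_left hx' hL0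
      _ ≤ r := hρL.trans (min_le_left _ _)
  have t1 := A0_tendsto hr h0 hl
  have t2 := A0_tendsto hs j0' jl'
  refine ⟨fun x => j (h x), fun z => h' (j' z), K * L, ρ, hρ0, by simp [h0, j0],
    by simp [h0', j0'], fun x hx y hy => ?_, fun x hx y hy => ?_, ?_, ?_, ?_⟩
  · calc ‖j (h x) - j (h y)‖ ≤ L * ‖h x - h y‖ := jl _ (m1 x hx) _ (m1 y hy)
      _ ≤ L * (K * ‖x - y‖) := mul_le_mul_of_nonneg_left
          (hl x (ball_subset_ball hρr hx) y (ball_subset_ball hρr hy)) hL0.le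
      _ = _ := by ring
  · calc ‖h' (j' x) - h' (j' y)‖ ≤ K * ‖j' x - j' y‖ := hl' _ (m2 x hx) _ (m2 y hy)
      _ ≤ K * (L * ‖x - y‖) := mul_le_mul_of_nonneg_left
          (jl' x (ball_subset_ball hρs hx) y (ball_subset_ball hρs hy)) hK0.le
      _ = _ := by ring
  · filter_upwards [t1.eventually d1, e1] with x h3 h4
    rw [h3, h4]
  · filter_upwards [t2.eventually e2, d2] with x h3 h4
    rw [h3, h4]
  · filter_upwards [t1.eventually d3, e3] with x h3 h4
    rw [h4, h3]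

theorem lip_of_linear {E E' : Type*} [NormedAddCommGroup E] [NormedSpace ℝ E]
    [NormedAddCommGroup E'] [NormedSpace ℝ E'] (e : E ≃L[ℝ] E') (f : E → ℂ) (g : E' → ℂ)
    (h : ∀ x, f x = g (e x)) : LipEquiv f g := by
  refine ⟨e, e.symm, max ‖(e : E →L[ℝ] E')‖ ‖(e.symm : E' →L[ℝ] E)‖, 1, one_pos, map_zero e,
    map_zero e.symm, fun x _ y _ => ?_, fun x _ y _ => ?_, Eventually.of_forall fun x => by simp,
    Eventually.of_forall fun y => by simp, Eventually.of_forall h⟩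
  · rw [← map_sub]
    refine ((e : E →L[ℝ] E').le_opNorm (x - y)).trans ?_
    exact mul_le_mul_of_nonneg_right (le_max_left _ _) (norm_nonneg _)
  · rw [← map_sub]
    refine ((e.symm : E' →L[ℝ] E).le_opNorm (x - y)).trans ?_
    exact mul_le_mul_of_nonneg_right (le_max_right _ _) (norm_nonneg _)

theorem lip_add {E E' Z : Type*} [NormedAddCommGroup E] [NormedAddCommGroup E']
    [NormedAddCommGroup Z] {f : E → ℂ} {g : E' → ℂ} (h : LipEquiv f g) (q : Z → ℂ) :
    LipEquiv (fun p : E × Z => f p.1 + q p.2) (fun p : E' × Z => g p.1 + q p.2) := by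
  obtain ⟨h, h', K, r, hK, hr, h0, h0', hl, hl', e1, e2, e3⟩ := A0_norm h
  have b1 : ∀ p ∈ ball (0 : E × Z) r, p.1 ∈ ball (0 : E) r := by
    intro p hp
    rw [mem_ball_zero_iff] at hp ⊢
    exact (norm_fst_le p).trans_lt hp
  have b2 : ∀ p ∈ ball (0 : E' × Z) r, p.1 ∈ ball (0 : E') r := by
    intro p hp
    rw [mem_ball_zero_iff] at hp ⊢
    exact (norm_fst_le p).trans_lt hp
  have t1 : Tendsto (fun p : E × Z => p.1) (𝓝 0) (𝓝 0) := continuous_fst.tendsto 0
  have t2 : Tendsto (fun p : E' × Z => p.1) (𝓝 0) (𝓝 0) := continuous_fst.tendsto 0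
  refine ⟨fun p => (h p.1, p.2), fun p => (h' p.1, p.2), K, r, hr, by simp [h0], by simp [h0'],
    fun p hp q hq => ?_, fun p hp q hq => ?_, ?_, ?_, ?_⟩
  · rw [Prod.mk_sub_mk, Prod.norm_def]
    refine max_le ?_ ?_
    · refine (hl _ (b1 p hp) _ (b1 q hq)).trans ?_
      exact mul_le_mul_of_nonneg_left (norm_fst_le (p - q)) (by linarith)
    · have h3 : ‖p.2 - q.2‖ ≤ ‖p - q‖ := norm_snd_le (p - q)
      calc ‖p.2 - q.2‖ ≤ 1 * ‖p - q‖ := by rw [one_mul]; exact h3
        _ ≤ _ := mul_le_mul_of_nonneg_right hK (norm_nonneg _)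
  · rw [Prod.mk_sub_mk, Prod.norm_def]
    refine max_le ?_ ?_
    · refine (hl' _ (b2 p hp) _ (b2 q hq)).trans ?_
      exact mul_le_mul_of_nonneg_left (norm_fst_le (p - q)) (by linarith)
    · have h3 : ‖p.2 - q.2‖ ≤ ‖p - q‖ := norm_snd_le (p - q)
      calc ‖p.2 - q.2‖ ≤ 1 * ‖p - q‖ := by rw [one_mul]; exact h3
        _ ≤ _ := mul_le_mul_of_nonneg_right hK (norm_nonneg _)
  · filter_upwards [t1.eventually e1] with p hp
    rw [hp]
  · filter_upwards [t2.eventually e2] with p hp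
    rw [hp]
  · filter_upwards [t1.eventually e3] with p hp
    rw [hp]

theorem lip_congr {E : Type*} [NormedAddCommGroup E] {f f' : E → ℂ}
    (h : ∀ᶠ x in 𝓝 (0 : E), f x = f' x) : LipEquiv f f' :=
  ⟨id, id, 1, 1, one_pos, rfl, rfl, fun x _ y _ => by simp, fun x _ y _ => by simp,
    Eventually.of_forall fun _ => rfl, Eventually.of_forall fun _ => rfl, h⟩

theorem lip_of_strict {E E' : Type*} [NormedAddCommGroup E] [NormedSpace ℝ E] [CompleteSpace E]
    [NormedAddCommGroup E'] [NormedSpace ℝ E'] [CompleteSpace E'] (h : E → E') (h' : E ≃L[ℝ] E')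
    (hd : HasStrictFDerivAt h (h' : E →L[ℝ] E') 0) (h0 : h 0 = 0) (f : E → ℂ) (g : E' → ℂ)
    (hfg : ∀ᶠ x in 𝓝 (0 : E), f x = g (h x)) : LipEquiv f g := by
  have hi := hd.to_localInverse
  have hL0 : hd.localInverse h h' 0 0 = 0 := by
    have := hd.localInverse_apply_image
    rwa [h0] at this
  have e1 := hd.eventually_left_inverse
  have e2 := hd.eventually_right_inverse
  rw [h0] at hi e2
  obtain ⟨K, s, hs, hK⟩ := hd.exists_lipschitzOnWith
  obtain ⟨K', s', hs', hK'⟩ := hi.exists_lipschitzOnWith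
  obtain ⟨r, hr, hrs⟩ := Metric.mem_nhds_iff.1 hs
  obtain ⟨r', hr', hrs'⟩ := Metric.mem_nhds_iff.1 hs'
  refine ⟨h, hd.localInverse h h' 0, max K K', min r r', lt_min hr hr', h0, hL0,
    fun x hx y hy => ?_, fun x hx y hy => ?_, e1, e2, hfg⟩
  · have h3 := hK.dist_le_mul x (hrs (ball_subset_ball (min_le_left _ _) hx)) y
      (hrs (ball_subset_ball (min_le_left _ _) hy))
    rw [dist_eq_norm, dist_eq_norm] at h3
    exact h3.trans (mul_le_mul_of_nonneg_right (le_max_left _ _) (norm_nonneg _))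
  · have h3 := hK'.dist_le_mul x (hrs' (ball_subset_ball (min_le_right _ _) hx)) y
      (hrs' (ball_subset_ball (min_le_right _ _) hy))
    rw [dist_eq_norm, dist_eq_norm] at h3
    exact h3.trans (mul_le_mul_of_nonneg_right (le_max_right _ _) (norm_nonneg _))

/-- `(E × (Fin d → ℂ)) × (Fin m → ℂ)` to `E × (Fin (d + m) → ℂ)` -/
theorem lip_stb_stb {E : Type*} [NormedAddCommGroup E] [NormedSpace ℂ E] (f : E → ℂ) (d m : ℕ) :
    LipEquiv (stb m (stb d f)) (stb (d + m) f) := by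
  refine ⟨fun p => (p.1.1, Fin.append p.1.2 p.2),
    fun q => ((q.1, fun i => q.2 (Fin.castAdd m i)), fun i => q.2 (Fin.natAdd d i)), 1, 1,
    one_pos, ?_, ?_, fun p _ q _ => ?_, fun p _ q _ => ?_, ?_, ?_, ?_⟩
  · refine Prod.ext rfl (funext fun i => ?_)
    refine Fin.addCases (fun i => ?_) (fun i => ?_) i
    · simp
    · simp
  · rfl
  · rw [one_mul, Prod.mk_sub_mk, Prod.norm_def]
    have a1 : ‖p.1.1 - q.1.1‖ ≤ ‖p - q‖ :=
      (norm_fst_le (p.1 - q.1)).trans (norm_fst_le (p - q))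
    have a2 : ‖p.1.2 - q.1.2‖ ≤ ‖p - q‖ :=
      (norm_snd_le (p.1 - q.1)).trans (norm_fst_le (p - q))
    have a3 : ‖p.2 - q.2‖ ≤ ‖p - q‖ := norm_snd_le (p - q)
    refine max_le a1 ?_
    rw [pi_norm_le_iff_of_nonneg (norm_nonneg _)]
    intro i
    refine Fin.addCases (fun i => ?_) (fun i => ?_) i
    · simp only [Pi.sub_apply, Fin.append_left]
      exact (norm_le_pi_norm (p.1.2 - q.1.2) i).trans a2
    · simp only [Pi.sub_apply, Fin.append_right]
      exact (norm_le_pi_norm (p.2 - q.2) i).trans a3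
  · have a1 : ‖p.1 - q.1‖ ≤ ‖p - q‖ := norm_fst_le (p - q)
    have a2 : ‖p.2 - q.2‖ ≤ ‖p - q‖ := norm_snd_le (p - q)
    rw [one_mul, Prod.mk_sub_mk, Prod.mk_sub_mk, Prod.norm_def, Prod.norm_def]
    refine max_le (max_le a1 ?_) ?_
    · rw [pi_norm_le_iff_of_nonneg (norm_nonneg _)]
      exact fun i => (norm_le_pi_norm (p.2 - q.2) _).trans a2
    · rw [pi_norm_le_iff_of_nonneg (norm_nonneg _)]
      exact fun i => (norm_le_pi_norm (p.2 - q.2) _).trans a2
  · refine Eventually.of_forall fun p => ?_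
    simp
  · refine Eventually.of_forall fun q => Prod.ext rfl (funext fun i => ?_)
    refine Fin.addCases (fun i => ?_) (fun i => ?_) i
    · simp
    · simp
  · refine Eventually.of_forall fun p => ?_
    simp only [stb, Fin.sum_univ_add, Fin.append_left, Fin.append_right]
    ring

theorem lip_stb {E E' : Type*} [NormedAddCommGroup E] [NormedAddCommGroup E']
    {f : E → ℂ} {g : E' → ℂ} (h : LipEquiv f g) (d : ℕ) : LipEquiv (stb d f) (stb d g) :=
  lip_add h (fun z : Fin d → ℂ => ∑ i, z i ^ 2)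

end H24.LS
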