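import Pool.Agent.H24.LS.A0

/-!
# A1: Lipschitz maps and slopes; coarse equivalence from stable Lipschitz equivalence

* `slope_le`: for `ε > 0` and `q` near `p`: `‖Φ q - Φ p‖ = ‖Ψ (H q) - Ψ (H p)‖ ≤ (‖fderiv Ψ (H p)‖ + ε) ‖H q - H p‖
  ≤ (‖fderiv Ψ (H p)‖ + ε) K ‖q - p‖` (`H` is continuous at `p`, so `H q` is near `H p`).  For a vector `w`, `q = p + s w`, `s → 0`:
  `‖fderiv Φ p w‖ ≤ (..) K ‖w‖`; let `ε → 0`.
* `stb_fderiv`: derivative of `stb m f` at `(x,z)` is `(u,w) ↦ fderiv f x u + Σ 2 z_i w_i`; its norm is `≥ ‖fderiv f x‖`, `≥ ‖z‖` (take `w = e_i`: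
  `2‖z_i‖`), and for `z = 0` it is `≤ ‖fderiv f x‖`.
* `coarse_of_stable`: `H, H'` = the Lipschitz germs, `K ≥ 1`.  `A x = (H (x,0)).1`, `B x' = (H' (x',0)).1`.  Choose `ρ` small so that
  all the points below lie in the good balls (`H, H'` Lipschitz and mutually inverse, `f+Q = (g+Q) ∘ H`, `g+Q = (f+Q) ∘ H'`, `f, g`
  differentiable).
  Apply `slope_le` to `Φ = g + Q`, `Ψ = f + Q`, map `H'`, at the point `H (x,0) = (A x, z')`, `H' (A x, z') = (x,0)`: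
  `max ‖fderiv g (A x)‖ ‖z'‖ ≤ ‖fderiv (g+Q) (A x, z')‖ ≤ K ‖fderiv (f+Q) (x,0)‖ ≤ K ‖fderiv f x‖`.
  `f x = (f+Q)(x,0) = g (A x) + Q z'`, `‖Q z'‖ ≤ m' ‖z'‖^2 ≤ m' K^2 ‖fderiv f x‖^2`.
  `‖B (A x) - x‖ = ‖(H' (A x, 0)).1 - (H' (A x, z')).1‖ ≤ K ‖z'‖ ≤ K^2 ‖fderiv f x‖`.  Symmetric for `B`.  `L = max (m + m' + 1) K^2`-like.
-/

open Filter Topology Metric

namespace H24.LS

theorem slope_le {E E' : Type*} [NormedAddCommGroup E] [NormedSpace ℂ E]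
    [NormedAddCommGroup E'] [NormedSpace ℂ E'] (Φ : E → ℂ) (Ψ : E' → ℂ) (H : E → E') (K r : ℝ)
    (p : E) (hK : 0 ≤ K) (hr : 0 < r) (hH : ∀ q ∈ ball p r, ‖H q - H p‖ ≤ K * ‖q - p‖)
    (hΦ : DifferentiableAt ℂ Φ p) (hΨ : DifferentiableAt ℂ Ψ (H p))
    (h : ∀ᶠ q in 𝓝 p, Φ q = Ψ (H q)) : ‖fderiv ℂ Φ p‖ ≤ K * ‖fderiv ℂ Ψ (H p)‖ := by
  have hp : Φ p = Ψ (H p) := h.self_of_nhds
  have hHc : ContinuousAt H p := by
    rw [Metric.continuousAt_iff]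
    intro ε hε
    refine ⟨min r (ε / (K + 1)), lt_min hr (by positivity), fun q hq => ?_⟩
    rw [dist_eq_norm] at hq ⊢
    have h1 := hH q (by rw [mem_ball, dist_eq_norm]; exact hq.trans_le (min_le_left _ _))
    have h2 : ‖q - p‖ < ε / (K + 1) := hq.trans_le (min_le_right _ _)
    rw [lt_div_iff₀ (by linarith)] at h2
    have h3 := norm_nonneg (q - p)
    nlinarith
  have key : ∀ ε : ℝ, 0 < ε → ‖fderiv ℂ Φ p‖ ≤ ε + (‖fderiv ℂ Ψ (H p)‖ + ε) * K := by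
    intro ε hε
    have h1 := (hasFDerivAt_iff_isLittleO.1 hΦ.hasFDerivAt).def hε
    have h2 := hHc.eventually ((hasFDerivAt_iff_isLittleO.1 hΨ.hasFDerivAt).def hε)
    have h3 : ∀ᶠ q in 𝓝 p, ‖H q - H p‖ ≤ K * ‖q - p‖ := by
      filter_upwards [ball_mem_nhds p hr] with q hq using hH q hq
    have h4 : ∀ᶠ q in 𝓝 p, ‖fderiv ℂ Φ p (q - p)‖ ≤
        (ε + (‖fderiv ℂ Ψ (H p)‖ + ε) * K) * ‖q - p‖ := by
      filter_upwards [h1, h2, h3, h] with q a1 a2 a3 a4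
      have b1 : fderiv ℂ Φ p (q - p) = fderiv ℂ Ψ (H p) (H q - H p) +
          (Ψ (H q) - Ψ (H p) - fderiv ℂ Ψ (H p) (H q - H p)) -
          (Φ q - Φ p - fderiv ℂ Φ p (q - p)) := by
        rw [a4, hp]; ring
      rw [b1]
      have b2 := (fderiv ℂ Ψ (H p)).le_opNorm (H q - H p)
      have b3 := norm_nonneg (fderiv ℂ Ψ (H p))
      calc _ ≤ ‖fderiv ℂ Ψ (H p) (H q - H p)‖ +
            ‖Ψ (H q) - Ψ (H p) - fderiv ℂ Ψ (H p) (H q - H p)‖ +
            ‖Φ q - Φ p - fderiv ℂ Φ p (q - p)‖ :=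
            (norm_sub_le _ _).trans (add_le_add_left (norm_add_le _ _) _)
        _ ≤ ‖fderiv ℂ Ψ (H p)‖ * ‖H q - H p‖ + ε * ‖H q - H p‖ + ε * ‖q - p‖ :=
            add_le_add (add_le_add b2 a2) a1
        _ = (‖fderiv ℂ Ψ (H p)‖ + ε) * ‖H q - H p‖ + ε * ‖q - p‖ := by ring
        _ ≤ (‖fderiv ℂ Ψ (H p)‖ + ε) * (K * ‖q - p‖) + ε * ‖q - p‖ :=
            add_le_add_left (mul_le_mul_of_nonneg_left a3 (by positivity)) _
        _ = _ := by ring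
    apply ContinuousLinearMap.opNorm_le_of_nhds_zero (by positivity)
    have h5 : Tendsto (fun x : E => p + x) (𝓝 0) (𝓝 p) := by
      have : ContinuousAt (fun x : E => p + x) 0 := by fun_prop
      simpa [ContinuousAt] using this
    filter_upwards [h5.eventually h4] with x hx
    simpa using hx
  refine le_of_forall_pos_le_add fun ε hε => ?_
  have h1 := key (ε / (1 + K)) (by positivity)
  have h2 : ε / (1 + K) + (‖fderiv ℂ Ψ (H p)‖ + ε / (1 + K)) * K =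
      K * ‖fderiv ℂ Ψ (H p)‖ + ε := by
    field_simp
    ring
  linarith

theorem stb_fderiv {E : Type*} [NormedAddCommGroup E] [NormedSpace ℂ E] (f : E → ℂ) (m : ℕ)
    (x : E) (z : Fin m → ℂ) (hf : DifferentiableAt ℂ f x) :
    DifferentiableAt ℂ (stb m f) (x, z) ∧
    ‖fderiv ℂ f x‖ ≤ ‖fderiv ℂ (stb m f) (x, z)‖ ∧ ‖z‖ ≤ ‖fderiv ℂ (stb m f) (x, z)‖ ∧
    (z = 0 → ‖fderiv ℂ (stb m f) (x, z)‖ ≤ ‖fderiv ℂ f x‖) := by
  have hQ : HasFDerivAt (stb m f) ((fderiv ℂ f x).comp (ContinuousLinearMap.fst ℂ E (Fin m → ℂ)) +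
      ∑ i, (2 * z i) • (ContinuousLinearMap.proj (R := ℂ) (φ := fun _ : Fin m => ℂ) i).comp
        (ContinuousLinearMap.snd ℂ E (Fin m → ℂ))) (x, z) := by
    have h1 : HasFDerivAt (fun p : E × (Fin m → ℂ) => f p.1)
        ((fderiv ℂ f x).comp (ContinuousLinearMap.fst ℂ E (Fin m → ℂ))) (x, z) := by
      have : HasFDerivAt f (fderiv ℂ f x) ((x, z) : E × (Fin m → ℂ)).1 := hf.hasFDerivAt
      exact this.comp (x, z) hasFDerivAt_fst
    have h2 : ∀ i : Fin m, HasFDerivAt (fun p : E × (Fin m → ℂ) => p.2 i ^ 2)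
        ((2 * z i) • (ContinuousLinearMap.proj (R := ℂ) (φ := fun _ : Fin m => ℂ) i).comp
        (ContinuousLinearMap.snd ℂ E (Fin m → ℂ))) (x, z) := by
      intro i
      have h3 : HasFDerivAt (fun p : E × (Fin m → ℂ) => p.2 i)
          ((ContinuousLinearMap.proj (R := ℂ) (φ := fun _ : Fin m => ℂ) i).comp
          (ContinuousLinearMap.snd ℂ E (Fin m → ℂ))) (x, z) :=
        ((ContinuousLinearMap.proj (R := ℂ) (φ := fun _ : Fin m => ℂ) i).comp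
          (ContinuousLinearMap.snd ℂ E (Fin m → ℂ))).hasFDerivAt
      have h4 : HasDerivAt (fun t : ℂ => t ^ 2) (2 * z i) (((x, z) : E × (Fin m → ℂ)).2 i) := by
        have := hasDerivAt_pow 2 (z i)
        simpa using this
      exact h4.comp_hasFDerivAt (x, z) h3
    have h5 := h1.add (HasFDerivAt.fun_sum fun i (_ : i ∈ Finset.univ) => h2 i)
    exact h5
  have hfd := hQ.fderiv
  have happ : ∀ (u : E) (w : Fin m → ℂ), fderiv ℂ (stb m f) (x, z) (u, w) =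
      fderiv ℂ f x u + ∑ i, 2 * z i * w i := by
    intro u w
    rw [hfd]
    simp
  refine ⟨hQ.differentiableAt, ?_, ?_, ?_⟩
  · refine ContinuousLinearMap.opNorm_le_bound _ (norm_nonneg _) fun u => ?_
    have h1 := (fderiv ℂ (stb m f) (x, z)).le_opNorm (u, 0)
    rw [happ] at h1
    have h2 : ‖((u, 0) : E × (Fin m → ℂ))‖ = ‖u‖ := by simp [Prod.norm_def]
    rw [h2] at h1
    simpa using h1
  · rw [pi_norm_le_iff_of_nonneg (norm_nonneg _)]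
    intro i
    have h1 := (fderiv ℂ (stb m f) (x, z)).le_opNorm (0, Pi.single i 1)
    rw [happ] at h1
    have h2 : ‖((0, Pi.single i 1) : E × (Fin m → ℂ))‖ = 1 := by
      have : ‖(Pi.single i 1 : Fin m → ℂ)‖ = 1 := by
        rw [Pi.norm_single]; simp
      rw [Prod.norm_def, this]; simp
    have h3 : ∑ j, 2 * z j * (Pi.single i (1 : ℂ) : Fin m → ℂ) j = 2 * z i := by
      rw [Finset.sum_eq_single i]
      · simp
      · intro j _ hj
        rw [Pi.single_eq_of_ne hj, mul_zero]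
      · intro hi
        exact absurd (Finset.mem_univ i) hi
    rw [h2, h3, map_zero, zero_add, mul_one, norm_mul] at h1
    have h4 : ‖(2 : ℂ)‖ = 2 := by simp
    rw [h4] at h1
    have := norm_nonneg (z i)
    linarith
  · intro hz
    refine ContinuousLinearMap.opNorm_le_bound _ (norm_nonneg _) fun v => ?_
    obtain ⟨u, w⟩ := v
    rw [happ, hz]
    have h1 := (fderiv ℂ f x).le_opNorm u
    have h2 : ‖u‖ ≤ ‖((u, w) : E × (Fin m → ℂ))‖ := norm_fst_le (u, w)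
    have h3 := mul_le_mul_of_nonneg_left h2 (norm_nonneg (fderiv ℂ f x))
    simp only [Pi.zero_apply, mul_zero, zero_mul, Finset.sum_const_zero, add_zero]
    linarith

private theorem A1_Q {m : ℕ} (z : Fin m → ℂ) : ‖∑ i, z i ^ 2‖ ≤ m * ‖z‖ ^ 2 := by
  calc ‖∑ i, z i ^ 2‖ ≤ ∑ i : Fin m, ‖z i ^ 2‖ := norm_sum_le _ _
    _ ≤ ∑ _i : Fin m, ‖z‖ ^ 2 := by
        apply Finset.sum_le_sum
        intro i _
        rw [norm_pow]
        exact pow_le_pow_left₀ (norm_nonneg _) (norm_le_pi_norm z i) 2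
    _ = m * ‖z‖ ^ 2 := by simp

private theorem A1_half {E E' : Type*} [NormedAddCommGroup E] [NormedSpace ℂ E]
    [NormedAddCommGroup E'] [NormedSpace ℂ E'] {f : E → ℂ} {g : E' → ℂ} {m m' : ℕ}
    {H : E × (Fin m → ℂ) → E' × (Fin m' → ℂ)} {H' : E' × (Fin m' → ℂ) → E × (Fin m → ℂ)} {K r : ℝ}
    (hK : 1 ≤ K) (hr : 0 < r) (H0 : H 0 = 0)
    (lH : ∀ x ∈ ball (0 : E × (Fin m → ℂ)) r, ∀ y ∈ ball (0 : E × (Fin m → ℂ)) r,
      ‖H x - H y‖ ≤ K * ‖x - y‖)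
    (lH' : ∀ x ∈ ball (0 : E' × (Fin m' → ℂ)) r, ∀ y ∈ ball (0 : E' × (Fin m' → ℂ)) r,
      ‖H' x - H' y‖ ≤ K * ‖x - y‖)
    (hl : ∀ x ∈ ball (0 : E × (Fin m → ℂ)) r, H' (H x) = x)
    (he : ∀ x ∈ ball (0 : E × (Fin m → ℂ)) r, stb m f x = stb m' g (H x))
    (he' : ∀ y ∈ ball (0 : E' × (Fin m' → ℂ)) r, stb m' g y = stb m f (H' y))
    (df : ∀ x ∈ ball (0 : E) r, DifferentiableAt ℂ f x)
    (dg : ∀ x ∈ ball (0 : E') r, DifferentiableAt ℂ g x) {x : E} (hx : x ∈ ball (0 : E) (r / (2 * K))) :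
    ‖f x - g (H (x, 0)).1‖ ≤ m' * K ^ 2 * ‖fderiv ℂ f x‖ ^ 2 ∧
    ‖fderiv ℂ g (H (x, 0)).1‖ ≤ K * ‖fderiv ℂ f x‖ ∧
    ‖(H' ((H (x, 0)).1, 0)).1 - x‖ ≤ K ^ 2 * ‖fderiv ℂ f x‖ := by
  have hK0 : 0 < K := by linarith
  have hx1 : ‖x‖ < r / (2 * K) := by simpa using hx
  have hn : ∀ y : E, ‖((y, 0) : E × (Fin m → ℂ))‖ = ‖y‖ := fun y => by simp [Prod.norm_def]
  have hxr : ‖x‖ < r := hx1.trans_le (div_le_self hr.le (by linarith))
  have hxp : ((x, 0) : E × (Fin m → ℂ)) ∈ ball (0 : E × (Fin m → ℂ)) r := by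
    rw [mem_ball_zero_iff, hn]; exact hxr
  have h0r : (0 : E × (Fin m → ℂ)) ∈ ball (0 : E × (Fin m → ℂ)) r := mem_ball_self hr
  have hHn : ‖H (x, 0)‖ ≤ K * ‖x‖ := by
    have := lH _ hxp _ h0r
    rwa [H0, sub_zero, sub_zero, hn] at this
  have hHr : ‖H (x, 0)‖ < r := by
    rw [lt_div_iff₀ (by positivity)] at hx1
    have := norm_nonneg x
    nlinarith
  have hHb : H (x, 0) ∈ ball (0 : E' × (Fin m' → ℂ)) r := by
    rw [mem_ball_zero_iff]; exact hHr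
  have hAr : ‖(H (x, 0)).1‖ < r := (norm_fst_le _).trans_lt hHr
  have hdf := df x (by rw [mem_ball_zero_iff]; exact hxr)
  have hdg := dg (H (x, 0)).1 (by rw [mem_ball_zero_iff]; exact hAr)
  obtain ⟨sf1, sf2, sf3, sf4⟩ := stb_fderiv f m x 0 hdf
  obtain ⟨sg1, sg2, sg3, sg4⟩ := stb_fderiv g m' (H (x, 0)).1 (H (x, 0)).2 hdg
  obtain ⟨ρ, hρ, hρb⟩ := Metric.isOpen_iff.1 isOpen_ball _ hHb
  have hslope : ‖fderiv ℂ (stb m' g) (H (x, 0))‖ ≤ K * ‖fderiv ℂ (stb m f) (H' (H (x, 0)))‖ := by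
    refine slope_le (stb m' g) (stb m f) H' K ρ (H (x, 0)) hK0.le hρ
      (fun q hq => lH' q (hρb hq) _ hHb) sg1 ?_ ?_
    · rw [hl _ hxp]; exact sf1
    · filter_upwards [isOpen_ball.mem_nhds hHb] with q hq using he' q hq
  rw [hl _ hxp] at hslope
  have hslope2 : ‖fderiv ℂ (stb m' g) (H (x, 0))‖ ≤ K * ‖fderiv ℂ f x‖ :=
    hslope.trans (mul_le_mul_of_nonneg_left (sf4 rfl) hK0.le)
  have hz : ‖(H (x, 0)).2‖ ≤ K * ‖fderiv ℂ f x‖ := sg3.trans hslope2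
  refine ⟨?_, sg2.trans hslope2, ?_⟩
  · have h1 := he _ hxp
    have h2 : stb m f (x, 0) = f x := by simp [stb]
    rw [h2] at h1
    have h3 : f x - g (H (x, 0)).1 = ∑ i, (H (x, 0)).2 i ^ 2 := by
      rw [h1]; unfold stb; ring
    rw [h3]
    calc _ ≤ m' * ‖(H (x, 0)).2‖ ^ 2 := A1_Q _
      _ ≤ m' * (K * ‖fderiv ℂ f x‖) ^ 2 :=
          mul_le_mul_of_nonneg_left (pow_le_pow_left₀ (norm_nonneg _) hz 2) (by positivity)
      _ = _ := by ring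
  · have hA0 : (((H (x, 0)).1, 0) : E' × (Fin m' → ℂ)) ∈ ball (0 : E' × (Fin m' → ℂ)) r := by
      rw [mem_ball_zero_iff]
      have : ‖(((H (x, 0)).1, 0) : E' × (Fin m' → ℂ))‖ = ‖(H (x, 0)).1‖ := by simp [Prod.norm_def]
      rw [this]; exact hAr
    have h2 := lH' _ hA0 _ hHb
    have h3 : ‖(((H (x, 0)).1, 0) : E' × (Fin m' → ℂ)) - H (x, 0)‖ = ‖(H (x, 0)).2‖ := by
      rw [Prod.norm_def]
      simp
    rw [h3] at h2
    have h4 : ‖(H' ((H (x, 0)).1, 0)).1 - x‖ ≤ ‖H' ((H (x, 0)).1, 0) - H' (H (x, 0))‖ := by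
      have h5 : (H' ((H (x, 0)).1, 0)).1 - x = (H' ((H (x, 0)).1, 0) - H' (H (x, 0))).1 := by
        rw [Prod.fst_sub, hl _ hxp]
      rw [h5]
      exact norm_fst_le (H' ((H (x, 0)).1, 0) - H' (H (x, 0)))
    calc _ ≤ K * ‖(H (x, 0)).2‖ := h4.trans h2
      _ ≤ K * (K * ‖fderiv ℂ f x‖) := mul_le_mul_of_nonneg_left hz hK0.le
      _ = _ := by ring

private theorem A1_lip {E E' : Type*} [NormedAddCommGroup E] [NormedAddCommGroup E'] {m m' : ℕ}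
    {H : E × (Fin m → ℂ) → E' × (Fin m' → ℂ)} {K r : ℝ} (hK : 1 ≤ K) (hr : 0 < r)
    (lH : ∀ x ∈ ball (0 : E × (Fin m → ℂ)) r, ∀ y ∈ ball (0 : E × (Fin m → ℂ)) r,
      ‖H x - H y‖ ≤ K * ‖x - y‖) {p q : E} (hp : p ∈ ball (0 : E) (r / (2 * K)))
    (hq : q ∈ ball (0 : E) (r / (2 * K))) : ‖(H (p, 0)).1 - (H (q, 0)).1‖ ≤ K * ‖p - q‖ := by
  have hn : ∀ y : E, ‖((y, 0) : E × (Fin m → ℂ))‖ = ‖y‖ := fun y => by simp [Prod.norm_def]
  have hb : ∀ y ∈ ball (0 : E) (r / (2 * K)), ((y, 0) : E × (Fin m → ℂ)) ∈ ball 0 r := by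
    intro y hy
    rw [mem_ball_zero_iff] at hy ⊢
    rw [hn]
    exact hy.trans_le (div_le_self hr.le (by linarith))
  have h1 := lH _ (hb p hp) _ (hb q hq)
  have h2 : ((p, 0) : E × (Fin m → ℂ)) - (q, 0) = (p - q, 0) := by
    rw [Prod.mk_sub_mk, sub_zero]
  rw [h2, hn] at h1
  exact (norm_fst_le (H (p, 0) - H (q, 0))).trans h1

theorem coarse_of_stable {E E' : Type*} [NormedAddCommGroup E] [NormedSpace ℂ E]
    [NormedAddCommGroup E'] [NormedSpace ℂ E'] (f : E → ℂ) (g : E' → ℂ)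
    (hf : AnalyticAt ℂ f 0) (hg : AnalyticAt ℂ g 0) (m m' : ℕ)
    (h : LipEquiv (stb m f) (stb m' g)) :
    ∃ (A : E → E') (B : E' → E) (L ρ : ℝ), Coarse f g A B L ρ := by
  obtain ⟨H, H', K0, r0, hr0, H0, H0', lH, lH', hl, hr, he⟩ := h
  set K : ℝ := max K0 1 with hKdef
  have hK : 1 ≤ K := le_max_right _ _
  have hK0 : 0 < K := by linarith
  have lH1 : ∀ x ∈ ball (0 : E × (Fin m → ℂ)) r0, ∀ y ∈ ball (0 : E × (Fin m → ℂ)) r0,
      ‖H x - H y‖ ≤ K * ‖x - y‖ := fun x hx y hy =>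
    (lH x hx y hy).trans (mul_le_mul_of_nonneg_right (le_max_left _ _) (norm_nonneg _))
  have lH1' : ∀ x ∈ ball (0 : E' × (Fin m' → ℂ)) r0, ∀ y ∈ ball (0 : E' × (Fin m' → ℂ)) r0,
      ‖H' x - H' y‖ ≤ K * ‖x - y‖ := fun x hx y hy =>
    (lH' x hx y hy).trans (mul_le_mul_of_nonneg_right (le_max_left _ _) (norm_nonneg _))
  obtain ⟨r1, hr1, h1⟩ := Metric.eventually_nhds_iff_ball.1 (hl.and he)
  obtain ⟨r2, hr2, h2⟩ := Metric.eventually_nhds_iff_ball.1 hr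
  obtain ⟨r3, hr3, h3⟩ := Metric.eventually_nhds_iff_ball.1 hf.eventually_analyticAt
  obtain ⟨r4, hr4, h4⟩ := Metric.eventually_nhds_iff_ball.1 hg.eventually_analyticAt
  set R : ℝ := min r0 (min r1 (min r2 (min r3 r4))) / K with hR
  have hR0 : 0 < R := by positivity
  have hRK : R * K = min r0 (min r1 (min r2 (min r3 r4))) := div_mul_cancel₀ _ hK0.ne'
  have hRle : R ≤ min r0 (min r1 (min r2 (min r3 r4))) := by
    rw [← hRK]
    exact le_mul_of_one_le_right hR0.le hK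
  have le0 : R ≤ r0 := hRle.trans (min_le_left _ _)
  have le1 : R ≤ r1 := hRle.trans ((min_le_right _ _).trans (min_le_left _ _))
  have le2 : R ≤ r2 := hRle.trans ((min_le_right _ _).trans ((min_le_right _ _).trans
    (min_le_left _ _)))
  have le3 : R ≤ r3 := hRle.trans ((min_le_right _ _).trans ((min_le_right _ _).trans
    ((min_le_right _ _).trans (min_le_left _ _))))
  have le4 : R ≤ r4 := hRle.trans ((min_le_right _ _).trans ((min_le_right _ _).trans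
    ((min_le_right _ _).trans (min_le_right _ _))))
  have leK : R * K ≤ r1 := by
    rw [hRK]; exact (min_le_right _ _).trans (min_le_left _ _)
  have lH2 : ∀ x ∈ ball (0 : E × (Fin m → ℂ)) R, ∀ y ∈ ball (0 : E × (Fin m → ℂ)) R,
      ‖H x - H y‖ ≤ K * ‖x - y‖ := fun x hx y hy =>
    lH1 x (ball_subset_ball le0 hx) y (ball_subset_ball le0 hy)
  have lH2' : ∀ x ∈ ball (0 : E' × (Fin m' → ℂ)) R, ∀ y ∈ ball (0 : E' × (Fin m' → ℂ)) R,
      ‖H' x - H' y‖ ≤ K * ‖x - y‖ := fun x hx y hy =>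
    lH1' x (ball_subset_ball le0 hx) y (ball_subset_ball le0 hy)
  have hl2 : ∀ x ∈ ball (0 : E × (Fin m → ℂ)) R, H' (H x) = x := fun x hx =>
    (h1 x (ball_subset_ball le1 hx)).1
  have he2 : ∀ x ∈ ball (0 : E × (Fin m → ℂ)) R, stb m f x = stb m' g (H x) := fun x hx =>
    (h1 x (ball_subset_ball le1 hx)).2
  have hr2' : ∀ x ∈ ball (0 : E' × (Fin m' → ℂ)) R, H (H' x) = x := fun x hx =>
    h2 x (ball_subset_ball le2 hx)
  have he2' : ∀ y ∈ ball (0 : E' × (Fin m' → ℂ)) R, stb m' g y = stb m f (H' y) := by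
    intro y hy
    have hyR : ‖y‖ < R := by simpa using hy
    have h5 := lH2' y hy 0 (mem_ball_self hR0)
    rw [H0', sub_zero, sub_zero] at h5
    have h6 : ‖H' y‖ < r1 := by nlinarith
    have h7 := (h1 (H' y) (by rw [mem_ball_zero_iff]; exact h6)).2
    rw [h7, hr2' y hy]
  have df : ∀ x ∈ ball (0 : E) R, DifferentiableAt ℂ f x := fun x hx =>
    (h3 x (ball_subset_ball le3 hx)).differentiableAt
  have dg : ∀ x ∈ ball (0 : E') R, DifferentiableAt ℂ g x := fun x hx =>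
    (h4 x (ball_subset_ball le4 hx)).differentiableAt
  have hKK : K ≤ K ^ 2 := by nlinarith
  have hL1 : K ≤ (m + m' + 1) * K ^ 2 := by
    have : (0 : ℝ) ≤ (m + m') * K ^ 2 := by positivity
    linarith
  have hL2 : K ^ 2 ≤ (m + m' + 1) * K ^ 2 := by
    have : (0 : ℝ) ≤ (m + m') * K ^ 2 := by positivity
    linarith
  have hL3 : m * K ^ 2 ≤ (m + m' + 1) * K ^ 2 := by
    have : (0 : ℝ) ≤ (m' + 1) * K ^ 2 := by positivity
    linarith
  have hL4 : m' * K ^ 2 ≤ (m + m' + 1) * K ^ 2 := by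
    have : (0 : ℝ) ≤ (m + 1) * K ^ 2 := by positivity
    linarith
  have e1 : ((0 : E), (0 : Fin m → ℂ)) = 0 := rfl
  have e2 : ((0 : E'), (0 : Fin m' → ℂ)) = 0 := rfl
  refine ⟨fun x => (H (x, 0)).1, fun x => (H' (x, 0)).1, (m + m' + 1) * K ^ 2, R / (2 * K),
    ⟨hK.trans hL1, by positivity, ?_, ?_, ?_, ?_, ?_, ?_, ?_, ?_, ?_, ?_⟩⟩
  · simp only [e1, H0, Prod.fst_zero]
  · simp only [e2, H0', Prod.fst_zero]
  · intro p hp q hq
    exact (A1_lip hK hR0 lH2 hp hq).trans (mul_le_mul_of_nonneg_right hL1 (norm_nonneg _))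
  · intro p hp q hq
    exact (A1_lip hK hR0 lH2' hp hq).trans (mul_le_mul_of_nonneg_right hL1 (norm_nonneg _))
  · intro p hp
    exact (A1_half hK hR0 H0 lH2 lH2' hl2 he2 he2' df dg hp).1.trans
      (mul_le_mul_of_nonneg_right hL4 (by positivity))
  · intro p hp
    exact (A1_half hK hR0 H0' lH2' lH2 hr2' he2' he2 dg df hp).1.trans
      (mul_le_mul_of_nonneg_right hL3 (by positivity))
  · intro p hp
    exact (A1_half hK hR0 H0 lH2 lH2' hl2 he2 he2' df dg hp).2.1.trans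
      (mul_le_mul_of_nonneg_right hL1 (norm_nonneg _))
  · intro p hp
    exact (A1_half hK hR0 H0' lH2' lH2 hr2' he2' he2 dg df hp).2.1.trans
      (mul_le_mul_of_nonneg_right hL1 (norm_nonneg _))
  · intro p hp
    exact (A1_half hK hR0 H0 lH2 lH2' hl2 he2 he2' df dg hp).2.2.trans
      (mul_le_mul_of_nonneg_right hL2 (norm_nonneg _))
  · intro p hp
    exact (A1_half hK hR0 H0' lH2' lH2 hr2' he2' he2 dg df hp).2.2.trans
      (mul_le_mul_of_nonneg_right hL2 (norm_nonneg _))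

end H24.LS
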