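import Pool.Agent.H24.LS.A0

/-!
# A3: the number of variables is determined

`‖fderiv f x‖ ≤ C ‖x‖^2`... (`fderiv ℂ f` is analytic, vanishes with its derivative at `0`, so it is `o(‖x‖)`, which suffices).
Blow up: for `x : Fin c → ℂ` the sequence `j • A (x/j)` (`j ≥ 1` large) is bounded by `L ‖x‖`; let `A0 x` be its limit along
`Filter.hyperfilter ℕ` (compactness of closed balls; `IsCompact.ultrafilter_le_nhds`); same for `B0`.  `A0`, `B0` are `L`-Lipschitz.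
`B0 (A0 x) = x`: `‖j B (A0 x/j) - x‖ ≤ j ‖B (A0 x/j) - B (A (x/j))‖ + j ‖B (A (x/j)) - x/j‖
≤ L ‖A0 x - j A (x/j)‖ + j L ‖fderiv f (x/j)‖`, the first tends to `0` along the ultrafilter, the second because
`‖fderiv f y‖ = o(‖y‖)`.  Similarly `A0 (B0 y) = y`.
So `A0` is a bijection, Lipschitz with Lipschitz inverse: `dimH` of `univ` in `Fin c → ℂ` equals that in `Fin c' → ℂ`
(`LipschitzWith.dimH_image_le`, `A0 '' univ = univ`, both directions); `Real.dimH_univ_eq_finrank`: real dimensions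
`2 c = 2 c'` (`finrank_real_of_complex`, `Module.finrank_fin_fun`).
-/

open Filter Topology Metric

namespace H24.LS

/-- rescaling -/
noncomputable def A3_a {E E' : Type*} [NormedAddCommGroup E] [NormedSpace ℂ E]
    [NormedAddCommGroup E'] [NormedSpace ℂ E'] (A : E → E') (j : ℕ) (x : E) : E' :=
  (j : ℂ) • A ((j : ℂ)⁻¹ • x)

section
variable {E E' : Type*} [NormedAddCommGroup E] [NormedSpace ℂ E]
    [NormedAddCommGroup E'] [NormedSpace ℂ E']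

theorem A3_small (x : E) : Tendsto (fun j : ℕ => ((j : ℂ)⁻¹ • x)) atTop (𝓝 0) := by
  have h1 : Tendsto (fun j : ℕ => ((j : ℂ)⁻¹)) atTop (𝓝 0) := tendsto_inv_atTop_nhds_zero_nat
  have h2 := h1.smul_const x
  rwa [zero_smul] at h2

theorem A3_ball {ρ : ℝ} (hρ : 0 < ρ) (x : E) :
    ∀ᶠ j : ℕ in atTop, 0 < j ∧ ((j : ℂ)⁻¹ • x) ∈ ball (0 : E) ρ := by
  filter_upwards [(A3_small x).eventually (ball_mem_nhds _ hρ), eventually_gt_atTop 0] with j h1 h2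
  exact ⟨h2, h1⟩

theorem A3_lip {A : E → E'} {L ρ : ℝ}
    (lipA : ∀ p ∈ ball (0 : E) ρ, ∀ q ∈ ball (0 : E) ρ, ‖A p - A q‖ ≤ L * ‖p - q‖) {j : ℕ}
    (hj : 0 < j) {x y : E} (hx : ((j : ℂ)⁻¹ • x) ∈ ball (0 : E) ρ)
    (hy : ((j : ℂ)⁻¹ • y) ∈ ball (0 : E) ρ) : ‖A3_a A j x - A3_a A j y‖ ≤ L * ‖x - y‖ := by
  have h1 := lipA _ hx _ hy
  have hj' : (0 : ℝ) < j := by exact_mod_cast hj
  unfold A3_a
  rw [← smul_sub, norm_smul, Complex.norm_natCast]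
  rw [← smul_sub, norm_smul, norm_inv, Complex.norm_natCast] at h1
  calc (j : ℝ) * ‖A ((j : ℂ)⁻¹ • x) - A ((j : ℂ)⁻¹ • y)‖ ≤ j * (L * ((j : ℝ)⁻¹ * ‖x - y‖)) :=
        mul_le_mul_of_nonneg_left h1 hj'.le
    _ = L * ‖x - y‖ := by field_simp

theorem A3_lim [ProperSpace E'] {A : E → E'} {L ρ : ℝ} (hρ : 0 < ρ) (A0 : A 0 = 0)
    (lipA : ∀ p ∈ ball (0 : E) ρ, ∀ q ∈ ball (0 : E) ρ, ‖A p - A q‖ ≤ L * ‖p - q‖) :
    ∃ T : E → E', (∀ x, Tendsto (fun j : ℕ => A3_a A j x) (hyperfilter ℕ) (𝓝 (T x))) ∧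
      ∀ x y, ‖T x - T y‖ ≤ L * ‖x - y‖ := by
  have hU : (hyperfilter ℕ : Filter ℕ) ≤ atTop := Nat.hyperfilter_le_atTop
  have h1 : ∀ x, ∃ z, Tendsto (fun j : ℕ => A3_a A j x) (hyperfilter ℕ) (𝓝 z) := by
    intro x
    have hK : IsCompact (closedBall (0 : E') (L * ‖x‖)) := isCompact_closedBall _ _
    have h2 : ((hyperfilter ℕ).map (fun j : ℕ => A3_a A j x) : Filter E') ≤
        𝓟 (closedBall (0 : E') (L * ‖x‖)) := by
      rw [le_principal_iff]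
      show ∀ᶠ j : ℕ in (hyperfilter ℕ : Filter ℕ), A3_a A j x ∈ closedBall (0 : E') (L * ‖x‖)
      filter_upwards [hU (A3_ball hρ x)] with j hj
      have h3 := A3_lip lipA hj.1 hj.2 (y := 0) (by rw [smul_zero]; exact mem_ball_self hρ)
      have h4 : A3_a A j 0 = 0 := by
        unfold A3_a
        rw [smul_zero, A0, smul_zero]
      rw [h4, sub_zero, sub_zero] at h3
      rw [mem_closedBall_zero_iff]
      exact h3
    obtain ⟨z, -, hz⟩ := hK.ultrafilter_le_nhds _ h2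
    exact ⟨z, hz⟩
  choose T hT using h1
  refine ⟨T, hT, fun x y => ?_⟩
  have h2 := ((hT x).sub (hT y)).norm
  refine le_of_tendsto h2 ?_
  filter_upwards [hU (A3_ball hρ x), hU (A3_ball hρ y)] with j hx hy
  exact A3_lip lipA hx.1 hx.2 hy.2

theorem A3_o {g : E' → ℂ} (hg : AnalyticAt ℂ g 0) (g1 : fderiv ℂ g 0 = 0)
    (g2 : fderiv ℂ (fderiv ℂ g) 0 = 0) (y : E') :
    Tendsto (fun j : ℕ => (j : ℝ) * ‖fderiv ℂ g ((j : ℂ)⁻¹ • y)‖) atTop (𝓝 0) := by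
  have hd : HasFDerivAt (fderiv ℂ g) (0 : E' →L[ℂ] (E' →L[ℂ] ℂ)) 0 := by
    rw [← g2]
    exact hg.fderiv.differentiableAt.hasFDerivAt
  have ho := hd.isLittleO
  simp only [g1, sub_zero, ContinuousLinearMap.zero_apply] at ho
  rw [Metric.tendsto_atTop']
  intro ε hε
  have hc : 0 < ε / (2 * (‖y‖ + 1)) := by positivity
  have h1 := (A3_small y).eventually (ho.bound hc)
  obtain ⟨N, hN⟩ := eventually_atTop.1 (h1.and (eventually_gt_atTop 0))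
  refine ⟨N, fun j hj => ?_⟩
  obtain ⟨h2, h3⟩ := hN j hj.le
  have hj' : (0 : ℝ) < j := by exact_mod_cast h3
  rw [norm_smul, norm_inv, Complex.norm_natCast] at h2
  rw [dist_zero_right, Real.norm_of_nonneg (by positivity)]
  calc (j : ℝ) * ‖fderiv ℂ g ((j : ℂ)⁻¹ • y)‖ ≤
        j * (ε / (2 * (‖y‖ + 1)) * ((j : ℝ)⁻¹ * ‖y‖)) := mul_le_mul_of_nonneg_left h2 hj'.le
    _ = ε / 2 * (‖y‖ / (‖y‖ + 1)) := by field_simp
    _ ≤ ε / 2 * 1 := by
        apply mul_le_mul_of_nonneg_left _ (by positivity)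
        rw [div_le_one (by positivity)]
        linarith
    _ < ε := by linarith

theorem A3_inv {f : E → ℂ} {g : E' → ℂ} (hg : AnalyticAt ℂ g 0) (g1 : fderiv ℂ g 0 = 0)
    (g2 : fderiv ℂ (fderiv ℂ g) 0 = 0) {A : E → E'} {B : E' → E} {L ρ : ℝ}
    (h : Coarse f g A B L ρ) {T : E → E'} {S : E' → E}
    (hT : ∀ x, Tendsto (fun j : ℕ => A3_a A j x) (hyperfilter ℕ) (𝓝 (T x)))
    (hS : ∀ x, Tendsto (fun j : ℕ => A3_a B j x) (hyperfilter ℕ) (𝓝 (S x))) (y : E') :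
    T (S y) = y := by
  have hU : (hyperfilter ℕ : Filter ℕ) ≤ atTop := Nat.hyperfilter_le_atTop
  have hL : 0 < L := lt_of_lt_of_le one_pos h.hL
  have key : Tendsto (fun j : ℕ => ‖A3_a A j (S y) - y‖) (hyperfilter ℕ) (𝓝 0) := by
    have h1 : Tendsto (fun j : ℕ => L * ‖S y - A3_a B j y‖ +
        L * ((j : ℝ) * ‖fderiv ℂ g ((j : ℂ)⁻¹ • y)‖)) (hyperfilter ℕ) (𝓝 0) := by
      have h2 := (((tendsto_const_nhds (x := S y)).sub (hS y)).norm).const_mul L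
      have h3 := ((A3_o hg g1 g2 y).mono_left hU).const_mul L
      have h4 := h2.add h3
      simpa using h4
    refine squeeze_zero' (Eventually.of_forall fun _ => norm_nonneg _) ?_ h1
    have hBs : ∀ᶠ j : ℕ in atTop, B ((j : ℂ)⁻¹ • y) ∈ ball (0 : E) ρ := by
      filter_upwards [A3_ball h.hρ y, A3_ball (div_pos h.hρ hL) y] with j hj hj2
      have h5 := h.lipB _ hj.2 0 (mem_ball_self h.hρ)
      rw [h.B0, sub_zero, sub_zero] at h5
      have h6 := mem_ball_zero_iff.1 hj2.2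
      rw [lt_div_iff₀ hL] at h6
      rw [mem_ball_zero_iff]
      linarith
    filter_upwards [hU (A3_ball h.hρ y), hU (A3_ball h.hρ (S y)), hU hBs] with j h1 h2 h3
    have hj' : (0 : ℝ) < j := by exact_mod_cast h1.1
    have hjc : (j : ℂ) ≠ 0 := by exact_mod_cast h1.1.ne'
    have e1 : ((j : ℂ)⁻¹ • A3_a B j y) = B ((j : ℂ)⁻¹ • y) := by
      unfold A3_a
      rw [smul_smul, inv_mul_cancel₀ hjc, one_smul]
    have h4 : ‖A3_a A j (S y) - A3_a A j (A3_a B j y)‖ ≤ L * ‖S y - A3_a B j y‖ :=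
      A3_lip h.lipA h1.1 h2.2 (by rw [e1]; exact h3)
    have h5 : ‖A3_a A j (A3_a B j y) - y‖ ≤ L * ((j : ℝ) * ‖fderiv ℂ g ((j : ℂ)⁻¹ • y)‖) := by
      have e2 : A3_a A j (A3_a B j y) - y = (j : ℂ) • (A (B ((j : ℂ)⁻¹ • y)) - (j : ℂ)⁻¹ • y) := by
        rw [A3_a, e1, smul_sub, smul_smul, mul_inv_cancel₀ hjc, one_smul]
      rw [e2, norm_smul, Complex.norm_natCast]
      calc (j : ℝ) * ‖A (B ((j : ℂ)⁻¹ • y)) - (j : ℂ)⁻¹ • y‖
          ≤ j * (L * ‖fderiv ℂ g ((j : ℂ)⁻¹ • y)‖) :=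
            mul_le_mul_of_nonneg_left (h.AB _ h1.2) hj'.le
        _ = _ := by ring
    calc ‖A3_a A j (S y) - y‖ = ‖(A3_a A j (S y) - A3_a A j (A3_a B j y)) +
          (A3_a A j (A3_a B j y) - y)‖ := by congr 1; abel
      _ ≤ _ := norm_add_le _ _
      _ ≤ _ := add_le_add h4 h5
  have h6 := ((hT (S y)).sub_const y).norm
  have h7 := tendsto_nhds_unique h6 key
  exact sub_eq_zero.1 (norm_eq_zero.1 h7)

theorem A3_symm {f : E → ℂ} {g : E' → ℂ} {A : E → E'} {B : E' → E}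
    {L ρ : ℝ} (h : Coarse f g A B L ρ) : Coarse g f B A L ρ where
  hL := h.hL
  hρ := h.hρ
  A0 := h.B0
  B0 := h.A0
  lipA := h.lipB
  lipB := h.lipA
  fA := h.gB
  gB := h.fA
  dA := h.dB
  dB := h.dA
  BA := h.AB
  AB := h.BA

end

theorem A3_le {c c' : ℕ} (f : (Fin c → ℂ) → ℂ) (g : (Fin c' → ℂ) → ℂ)
    (hg : AnalyticAt ℂ g 0) (g1 : fderiv ℂ g 0 = 0) (g2 : fderiv ℂ (fderiv ℂ g) 0 = 0)
    {A : (Fin c → ℂ) → (Fin c' → ℂ)} {B : (Fin c' → ℂ) → (Fin c → ℂ)} {L ρ : ℝ}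
    (h : Coarse f g A B L ρ) : c' ≤ c := by
  obtain ⟨T, hT, hTL⟩ := A3_lim h.hρ h.A0 h.lipA
  obtain ⟨S, hS, -⟩ := A3_lim h.hρ h.B0 h.lipB
  have hL : 0 ≤ L := zero_le_one.trans h.hL
  have hlip : LipschitzWith L.toNNReal T := by
    refine LipschitzWith.of_dist_le_mul fun x y => ?_
    rw [dist_eq_norm, dist_eq_norm, Real.coe_toNNReal L hL]
    exact hTL x y
  have hsurj : T '' Set.univ = Set.univ := by
    rw [Set.image_univ, Set.range_eq_univ]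
    exact fun y => ⟨S y, A3_inv hg g1 g2 h hT hS y⟩
  have h1 := hlip.dimH_image_le Set.univ
  rw [hsurj, Real.dimH_univ_eq_finrank, Real.dimH_univ_eq_finrank] at h1
  have h2 : ∀ n : ℕ, Module.finrank ℝ (Fin n → ℂ) = 2 * n := by
    intro n
    rw [finrank_real_of_complex, Module.finrank_fin_fun]
  rw [h2, h2] at h1
  have h3 : 2 * c' ≤ 2 * c := by exact_mod_cast h1
  omega

theorem corank_eq {c c' : ℕ} (f : (Fin c → ℂ) → ℂ) (g : (Fin c' → ℂ) → ℂ)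
    (hf : AnalyticAt ℂ f 0) (hg : AnalyticAt ℂ g 0) (f1 : fderiv ℂ f 0 = 0)
    (g1 : fderiv ℂ g 0 = 0) (f2 : fderiv ℂ (fderiv ℂ f) 0 = 0) (g2 : fderiv ℂ (fderiv ℂ g) 0 = 0)
    {A : (Fin c → ℂ) → (Fin c' → ℂ)} {B : (Fin c' → ℂ) → (Fin c → ℂ)} {L ρ : ℝ}
    (h : Coarse f g A B L ρ) : c = c' :=
  le_antisymm (A3_le g f hf f1 f2 (A3_symm h)) (A3_le f g hg g1 g2 h)

end H24.LS
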