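import Pool.Agent.H24.LS.A0

/-!
# A4a: the critical point of `z ↦ f (x, z)`

`fz p = fderiv ℂ f p (0,1)` is analytic at `0`, `fz 0 = 0`, `∂_z fz (0) = fderiv (fderiv f) 0 (0,1) (0,1) ≠ 0`.
Inverse function theorem for `Φ (x,z) = (x, fz (x,z))` over `ℂ` with smoothness `ω` (`AnalyticAt.contDiffAt`,
`ContDiffAt.toOpenPartialHomeomorph`, `ContDiffAt.to_localInverse`; `E × ℂ` is complete): `ζ x = (Φ⁻¹ (x, 0)).2`.
-/

open Filter Topology Metric

namespace H24.LS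

theorem impl_zero {E : Type*} [NormedAddCommGroup E] [NormedSpace ℂ E] [FiniteDimensional ℂ E]
    (f : E × ℂ → ℂ) (hf : AnalyticAt ℂ f 0) (f1 : fderiv ℂ f 0 = 0)
    (hz : fderiv ℂ (fderiv ℂ f) 0 (0, 1) (0, 1) ≠ 0) :
    ∃ ζ : E → ℂ, AnalyticAt ℂ ζ 0 ∧ ζ 0 = 0 ∧
      ∀ᶠ x in 𝓝 (0 : E), fderiv ℂ f (x, ζ x) (0, 1) = 0 := by
  haveI : CompleteSpace E := FiniteDimensional.complete ℂ E
  haveI : CompleteSpace (E × ℂ) := inferInstance
  set fz : E × ℂ → ℂ := fun p => fderiv ℂ f p (0, 1) with hfz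
  have hA1 : AnalyticAt ℂ (fderiv ℂ f) 0 := hf.fderiv
  have hA : AnalyticAt ℂ fz 0 :=
    ((ContinuousLinearMap.apply ℂ ℂ ((0 : E), (1 : ℂ))).analyticAt _).comp hA1
  have hfz0 : fz 0 = 0 := by simp [hfz, f1]
  -- derivative of fz
  have hD1 : HasFDerivAt (fderiv ℂ f) (fderiv ℂ (fderiv ℂ f) 0) 0 :=
    hA1.differentiableAt.hasFDerivAt
  have hD : HasFDerivAt fz
      ((ContinuousLinearMap.apply ℂ ℂ ((0 : E), (1 : ℂ))).comp (fderiv ℂ (fderiv ℂ f) 0)) 0 :=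
    ((ContinuousLinearMap.apply ℂ ℂ ((0 : E), (1 : ℂ))).hasFDerivAt).comp _ hD1
  set L : E × ℂ →L[ℂ] ℂ :=
    (ContinuousLinearMap.apply ℂ ℂ ((0 : E), (1 : ℂ))).comp (fderiv ℂ (fderiv ℂ f) 0) with hL
  have hLz : L (0, 1) ≠ 0 := by simpa [hL] using hz
  set a : ℂ := L (0, 1) with ha
  have hLsplit : ∀ (x : E) (z : ℂ), L (x, z) = L (x, 0) + z * a := by
    intro x z
    have : ((x, z) : E × ℂ) = (x, 0) + z • ((0 : E), (1 : ℂ)) := by simp
    rw [this, map_add, map_smul, smul_eq_mul]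
  -- the linear equivalence
  let T : (E × ℂ) ≃L[ℂ] (E × ℂ) := ContinuousLinearEquiv.equivOfInverse
    ((ContinuousLinearMap.fst ℂ E ℂ).prod L)
    ((ContinuousLinearMap.fst ℂ E ℂ).prod
      (a⁻¹ • (ContinuousLinearMap.snd ℂ E ℂ - L.comp ((ContinuousLinearMap.inl ℂ E ℂ).comp
        (ContinuousLinearMap.fst ℂ E ℂ)))))
    (by
      rintro ⟨x, z⟩
      simp only [ContinuousLinearMap.prod_apply, ContinuousLinearMap.coe_fst',
        ContinuousLinearMap.smul_apply, ContinuousLinearMap.sub_apply,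
        ContinuousLinearMap.coe_snd', ContinuousLinearMap.comp_apply,
        ContinuousLinearMap.inl_apply, smul_eq_mul]
      rw [hLsplit x z]
      ext
      · rfl
      · simp only [add_sub_cancel_left]
        field_simp)
    (by
      rintro ⟨x, w⟩
      simp only [ContinuousLinearMap.prod_apply, ContinuousLinearMap.coe_fst',
        ContinuousLinearMap.smul_apply, ContinuousLinearMap.sub_apply,
        ContinuousLinearMap.coe_snd', ContinuousLinearMap.comp_apply,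
        ContinuousLinearMap.inl_apply, smul_eq_mul]
      rw [hLsplit x _]
      ext
      · rfl
      · simp only
        field_simp
        ring)
  let Φ : E × ℂ → E × ℂ := fun p => (p.1, fz p)
  have hΦA : AnalyticAt ℂ Φ 0 := analyticAt_fst.prod hA
  have hΦC : ContDiffAt ℂ (⊤ : WithTop ℕ∞) Φ 0 := hΦA.contDiffAt
  have hΦD : HasFDerivAt Φ (T : (E × ℂ) →L[ℂ] (E × ℂ)) 0 := by
    have : HasFDerivAt Φ ((ContinuousLinearMap.fst ℂ E ℂ).prod L) 0 :=
      hasFDerivAt_fst.prodMk hD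
    exact this
  have hn : (⊤ : WithTop ℕ∞) ≠ 0 := by simp
  have hΦ0 : Φ 0 = 0 := by
    simp only [Φ, hfz0]; rfl
  set Ψ := hΦC.localInverse hΦD hn with hΨ
  have hΨC : ContDiffAt ℂ (⊤ : WithTop ℕ∞) Ψ 0 := by
    have := hΦC.to_localInverse hΦD hn
    rwa [hΦ0] at this
  have hΨ0 : Ψ 0 = 0 := by
    have := hΦC.localInverse_apply_image hΦD hn
    rwa [hΦ0] at this
  have hright : ∀ᶠ y in 𝓝 (0 : E × ℂ), Φ (Ψ y) = y := by
    have := (hΦC.hasStrictFDerivAt' hΦD hn).eventually_right_inverse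
    rw [hΦ0] at this
    exact this
  have hi : ContDiffAt ℂ (⊤ : WithTop ℕ∞) (fun x : E => ((x, 0) : E × ℂ)) 0 :=
    contDiffAt_id.prodMk contDiffAt_const
  have hζC : ContDiffAt ℂ (⊤ : WithTop ℕ∞) (fun x : E => (Ψ (x, 0)).2) 0 := by
    have h1 : ContDiffAt ℂ (⊤ : WithTop ℕ∞) (Ψ ∘ fun x : E => ((x, 0) : E × ℂ)) 0 :=
      ContDiffAt.comp (0 : E) (by exact hΨC) hi
    exact h1.snd
  refine ⟨fun x => (Ψ (x, 0)).2, ?_, ?_, ?_⟩
  · exact hζC.analyticAt
  · show (Ψ ((0 : E), (0 : ℂ))).2 = 0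
    have : ((0 : E), (0 : ℂ)) = (0 : E × ℂ) := rfl
    rw [this, hΨ0]; rfl
  · have hcont : Tendsto (fun x : E => ((x, 0) : E × ℂ)) (𝓝 0) (𝓝 0) := by
      have : Continuous (fun x : E => ((x, 0) : E × ℂ)) := by fun_prop
      exact this.tendsto' 0 0 rfl
    filter_upwards [hcont.eventually hright] with x hx
    have h1 : (Ψ (x, 0)).1 = x := congrArg Prod.fst hx
    have h2 : fz (Ψ (x, 0)) = 0 := congrArg Prod.snd hx
    have h3 : ((x, (Ψ (x, 0)).2) : E × ℂ) = Ψ (x, 0) := by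
      ext
      · exact h1.symm
      · rfl
    rw [h3]
    exact h2

end H24.LS
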