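import Pool.Agent.H24.LS.A0

/-!
# A4b: `f (x,z) = f (x, ζ x) + (S (x,z))^2` with `S` strictly differentiable

`w (x,z) = ∫_0^1 (1-s) fzz (x, ζ x + s (z - ζ x)) ds`, `fzz p = fderiv (fderiv f) p (0,1) (0,1)`.  Taylor's formula with integral
remainder in the complex variable `z` (apply the one variable formula to `s ↦ f (x, ζ + s (z - ζ))`, `s ∈ [0,1]`; its first
derivative at `s = 0` is `(z - ζ) fz (x, ζ x) = 0`): `f (x,z) = f (x, ζ x) + (z - ζ x)^2 w (x,z)` near `0`.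
`w 0 = fzz 0/2 ≠ 0`.  `w` is `C^1` (over `ℝ` or `ℂ`) near `0`: the integrand is analytic near the compact set `{0} × [0,1]`;
differentiate under the integral sign (`hasFDerivAt_integral_of_dominated_of_fderiv_le`) and continuity of the derivative
(`intervalIntegral.continuous_parametric..`), `hasStrictFDerivAt_of_hasFDerivAt_of_continuousAt`.
(Any other proof of the existence of such a `w` is fine, e.g. with `dslope` and Cauchy integrals.)
`S (x,z) = (z - ζ x) * a * (w/w0)^{1/2}` with `a^2 = w0 = w 0`, principal power near `1`.  `S 0 = 0`; its derivative at `0` is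
`(u, s) ↦ a (s - ζ' u)`: nonzero on `(0,1)`.
-/

open Filter Topology Metric

namespace H24.LS

private theorem A4b_strict {G : Type*} [NormedAddCommGroup G] [NormedSpace ℂ G] {u v : G → ℂ}
    {u' : G →L[ℂ] ℂ} (hu : HasStrictFDerivAt u u' 0) (hu0 : u 0 = 0) {K : NNReal} {t : Set G}
    (ht : t ∈ 𝓝 (0 : G)) (hv : LipschitzOnWith K v t) :
    HasStrictFDerivAt (fun p => u p * v p) (v 0 • u') 0 := by
  rw [hasStrictFDerivAt_iff_isLittleO]
  have hvc : ContinuousAt v 0 := hv.continuousOn.continuousAt ht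
  have huc : ContinuousAt u 0 := hu.continuousAt
  have hO := hu.isLittleO
  have t1 : Tendsto (fun p : G × G => p.1) (𝓝 (0, 0)) (𝓝 0) := continuous_fst.tendsto (0, 0)
  have t2 : Tendsto (fun p : G × G => p.2) (𝓝 (0, 0)) (𝓝 0) := continuous_snd.tendsto (0, 0)
  have h1 : (fun p : G × G => v p.1 * (u p.1 - u p.2 - u' (p.1 - p.2))) =o[𝓝 (0, 0)]
      fun p => (1 : ℝ) * ‖p.1 - p.2‖ := by
    refine Asymptotics.IsBigO.mul_isLittleO ?_ hO.norm_right
    exact (hvc.tendsto.comp t1).isBigO_one ℝ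
  have h2 : (fun p : G × G => (v p.1 - v 0) * u' (p.1 - p.2)) =o[𝓝 (0, 0)]
      fun p => (1 : ℝ) * ‖p.1 - p.2‖ := by
    refine Asymptotics.IsLittleO.mul_isBigO ?_ ?_
    · rw [Asymptotics.isLittleO_one_iff]
      have := (hvc.tendsto.comp t1).sub_const (v 0)
      rwa [sub_self] at this
    · exact (u'.isBigO_comp _ _).norm_right
  have h3 : (fun p : G × G => u p.2 * (v p.1 - v p.2)) =o[𝓝 (0, 0)]
      fun p => (1 : ℝ) * ‖p.1 - p.2‖ := by
    refine Asymptotics.IsLittleO.mul_isBigO ?_ ?_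
    · rw [Asymptotics.isLittleO_one_iff]
      have := huc.tendsto.comp t2
      rwa [hu0] at this
    · refine Asymptotics.IsBigO.of_bound K ?_
      filter_upwards [prod_mem_nhds ht ht] with p hp
      rw [norm_norm]
      have := hv.dist_le_mul p.1 hp.1 p.2 hp.2
      rwa [dist_eq_norm, dist_eq_norm] at this
  have h4 := (h1.add h2).add h3
  simp only [one_mul] at h4
  have h5 := h4.norm_right.of_norm_right
  refine (Asymptotics.isLittleO_norm_right.1 h4).congr_left fun p => ?_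
  simp only [smul_apply, smul_eq_mul]
  ring

/-- Taylor's formula along the segment from `c` to `p` -/
private theorem A4b_taylor {G : Type*} [NormedAddCommGroup G] [NormedSpace ℂ G] {f : G → ℂ}
    {c p e : G} {δ : ℂ} {r : ℝ} (hf : ∀ q ∈ ball (0 : G) r, AnalyticAt ℂ f q)
    (hc : c ∈ ball (0 : G) r) (hp : p ∈ ball (0 : G) r) (he : p - c = δ • e)
    (h0 : fderiv ℂ f c e = 0) :
    f p = f c + δ ^ 2 * ∫ t in (0:ℝ)..1, ((1 - t : ℝ) : ℂ) *
      fderiv ℂ (fderiv ℂ f) (c + t • (p - c)) e e := by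
  have hseg : ∀ t ∈ Set.Icc (0:ℝ) 1, c + t • (p - c) ∈ ball (0 : G) r := by
    intro t ht
    have := (convex_ball (0 : G) r).add_smul_sub_mem hc hp ht
    exact this
  have hγ : ∀ t : ℝ, HasDerivAt (fun t : ℝ => c + t • (p - c)) (p - c) t := by
    intro t
    have := ((hasDerivAt_id t).smul_const (p - c)).const_add c
    simpa using this
  have hd1 : ∀ t ∈ Set.Icc (0:ℝ) 1, HasDerivAt (fun t : ℝ => f (c + t • (p - c)))
      (fderiv ℂ f (c + t • (p - c)) (p - c)) t := by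
    intro t ht
    have h1 := ((hf _ (hseg t ht)).differentiableAt.hasFDerivAt).restrictScalars ℝ
    have := h1.comp_hasDerivAt t (hγ t)
    exact this
  have hd2 : ∀ t ∈ Set.Icc (0:ℝ) 1, HasDerivAt (fun t : ℝ => fderiv ℂ f (c + t • (p - c)) (p - c))
      (fderiv ℂ (fderiv ℂ f) (c + t • (p - c)) (p - c) (p - c)) t := by
    intro t ht
    have h1 := ((hf _ (hseg t ht)).fderiv.differentiableAt.hasFDerivAt).restrictScalars ℝ
    have h2 := h1.comp_hasDerivAt t (hγ t)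
    have h3 : HasDerivAt (fun t : ℝ => fderiv ℂ f (c + t • (p - c)))
      (fderiv ℂ (fderiv ℂ f) (c + t • (p - c)) (p - c)) t := h2
    have h4 := ((ContinuousLinearMap.apply ℂ ℂ (p - c)).restrictScalars ℝ).hasFDerivAt.comp_hasDerivAt t h3
    exact h4
  have hd3 : ∀ t ∈ Set.uIcc (0:ℝ) 1, HasDerivAt (fun t : ℝ => f (c + t • (p - c)) +
      ((1 - t : ℝ) : ℂ) * fderiv ℂ f (c + t • (p - c)) (p - c))
      (δ ^ 2 * (((1 - t : ℝ) : ℂ) * fderiv ℂ (fderiv ℂ f) (c + t • (p - c)) e e)) t := by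
    intro t ht
    rw [Set.uIcc_of_le zero_le_one] at ht
    have h1 : HasDerivAt (fun t : ℝ => ((1 - t : ℝ) : ℂ)) (-1) t := by
      have := ((hasDerivAt_id t).const_sub 1).ofReal_comp
      simpa using this
    have h2 := (hd1 t ht).add (h1.mul (hd2 t ht))
    refine h2.congr_deriv ?_
    rw [he]
    simp only [map_smul, smul_apply, smul_eq_mul]
    ring
  have hcont : ContinuousOn (fun t : ℝ => δ ^ 2 * (((1 - t : ℝ) : ℂ) *
      fderiv ℂ (fderiv ℂ f) (c + t • (p - c)) e e)) (Set.uIcc (0:ℝ) 1) := by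
    rw [Set.uIcc_of_le zero_le_one]
    intro t ht
    have h1 : ContinuousAt (fun t : ℝ => fderiv ℂ (fderiv ℂ f) (c + t • (p - c))) t :=
      ContinuousAt.comp (f := fun t : ℝ => c + t • (p - c)) (hf _ (hseg t ht)).fderiv.fderiv.continuousAt
        (hγ t).continuousAt
    have h2 : ContinuousAt (fun t : ℝ => fderiv ℂ (fderiv ℂ f) (c + t • (p - c)) e e) t :=
      (h1.clm_apply continuousAt_const).clm_apply continuousAt_const
    refine (ContinuousAt.mul continuousAt_const (ContinuousAt.mul ?_ h2)).continuousWithinAt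
    fun_prop
  have h5 := intervalIntegral.integral_eq_sub_of_hasDerivAt hd3 hcont.intervalIntegrable
  rw [intervalIntegral.integral_const_mul] at h5
  rw [h5]
  have h6 : fderiv ℂ f c (p - c) = 0 := by
    rw [he, map_smul, h0, smul_zero]
  simp only [one_smul, zero_smul, add_zero, sub_self, Complex.ofReal_zero, zero_mul, sub_zero,
    h6, mul_zero, add_sub_cancel]

theorem square_part {E : Type*} [NormedAddCommGroup E] [NormedSpace ℂ E] [FiniteDimensional ℂ E]
    (f : E × ℂ → ℂ) (hf : AnalyticAt ℂ f 0)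
    (hz : fderiv ℂ (fderiv ℂ f) 0 (0, 1) (0, 1) ≠ 0) (ζ : E → ℂ) (hζ : AnalyticAt ℂ ζ 0)
    (hζ0 : ζ 0 = 0) (hcr : ∀ᶠ x in 𝓝 (0 : E), fderiv ℂ f (x, ζ x) (0, 1) = 0) :
    ∃ (S : E × ℂ → ℂ) (S' : E × ℂ →L[ℂ] ℂ), HasStrictFDerivAt S S' 0 ∧ S 0 = 0 ∧ S' (0, 1) ≠ 0 ∧
      ∀ᶠ p in 𝓝 (0 : E × ℂ), f p = f (p.1, ζ p.1) + S p ^ 2 := by
  set e : E × ℂ := (0, 1) with he
  let F2 : E × ℂ → ℂ := fun q => fderiv ℂ (fderiv ℂ f) q e e
  have hF2 : ContDiffAt ℂ 1 F2 0 :=
    (hf.fderiv.fderiv.contDiffAt.clm_apply contDiffAt_const).clm_apply contDiffAt_const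
  let c : E × ℂ → E × ℂ := fun p => (p.1, ζ p.1)
  have hc0 : c 0 = 0 := by
    simp only [c, Prod.fst_zero, hζ0]
    rfl
  have hcd : ContDiffAt ℂ 1 c 0 := by
    refine contDiffAt_fst.prodMk ?_
    exact ContDiffAt.comp (0 : E × ℂ) (g := ζ) hζ.contDiffAt contDiffAt_fst
  obtain ⟨K1, t1, ht1, hK1⟩ := hcd.exists_lipschitzOnWith
  obtain ⟨K2, t2, ht2, hK2⟩ := hF2.exists_lipschitzOnWith
  have hev : ∀ᶠ q in 𝓝 (0 : E × ℂ), AnalyticAt ℂ f q ∧ q ∈ t2 :=
    hf.eventually_analyticAt.and ht2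
  obtain ⟨r, hr, hball⟩ := Metric.eventually_nhds_iff_ball.1 hev
  have hev2 : ∀ᶠ p in 𝓝 (0 : E × ℂ), p ∈ ball (0 : E × ℂ) r ∧ c p ∈ ball (0 : E × ℂ) r ∧ p ∈ t1 ∧
      fderiv ℂ f (c p) e = 0 := by
    have k1 : ∀ᶠ p in 𝓝 (0 : E × ℂ), p ∈ ball (0 : E × ℂ) r := ball_mem_nhds _ hr
    have k2 : ∀ᶠ p in 𝓝 (0 : E × ℂ), c p ∈ ball (0 : E × ℂ) r := by
      have : Tendsto c (𝓝 0) (𝓝 (c 0)) := hcd.continuousAt
      rw [hc0] at this
      exact this (ball_mem_nhds _ hr)
    have k3 : ∀ᶠ p in 𝓝 (0 : E × ℂ), fderiv ℂ f (c p) e = 0 := by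
      have : Tendsto (fun p : E × ℂ => p.1) (𝓝 0) (𝓝 0) := continuous_fst.tendsto (0 : E × ℂ)
      exact this.eventually hcr
    filter_upwards [k1, k2, ht1, k3] with p h1 h2 h3 h4
    exact ⟨h1, h2, h3, h4⟩
  obtain ⟨r', hr', hball'⟩ := Metric.eventually_nhds_iff_ball.1 hev2
  let γ : E × ℂ → ℝ → E × ℂ := fun p t => c p + t • (p - c p)
  have hγb : ∀ p ∈ ball (0 : E × ℂ) r', ∀ t ∈ Set.Icc (0:ℝ) 1, γ p t ∈ ball (0 : E × ℂ) r := by
    intro p hp t ht
    exact (convex_ball (0 : E × ℂ) r).add_smul_sub_mem (hball' p hp).2.1 (hball' p hp).1 ht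
  let W : E × ℂ → ℂ := fun p => ∫ t in (0:ℝ)..1, ((1 - t : ℝ) : ℂ) * F2 (γ p t)
  have hint : ∀ p ∈ ball (0 : E × ℂ) r',
      IntervalIntegrable (fun t : ℝ => ((1 - t : ℝ) : ℂ) * F2 (γ p t)) MeasureTheory.volume 0 1 := by
    intro p hp
    apply ContinuousOn.intervalIntegrable
    rw [Set.uIcc_of_le zero_le_one]
    intro t ht
    have hγc : Continuous (γ p) := by
      simp only [γ]
      fun_prop
    have h1 : ContinuousAt (fun t : ℝ => fderiv ℂ (fderiv ℂ f) (γ p t)) t :=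
      ContinuousAt.comp (f := γ p) (hball _ (hγb p hp t ht)).1.fderiv.fderiv.continuousAt
        hγc.continuousAt
    have h2 : ContinuousAt (fun t : ℝ => F2 (γ p t)) t :=
      (h1.clm_apply continuousAt_const).clm_apply continuousAt_const
    refine (ContinuousAt.mul ?_ h2).continuousWithinAt
    fun_prop
  have hWlip : LipschitzOnWith (K2 * (K1 + 1)) W (ball (0 : E × ℂ) r') := by
    refine LipschitzOnWith.of_dist_le_mul fun p hp q hq => ?_
    rw [dist_eq_norm, dist_eq_norm]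
    simp only [W]
    rw [← intervalIntegral.integral_sub (hint p hp) (hint q hq)]
    have hbd : ∀ t ∈ Set.uIoc (0:ℝ) 1, ‖((1 - t : ℝ) : ℂ) * F2 (γ p t) -
        ((1 - t : ℝ) : ℂ) * F2 (γ q t)‖ ≤ ((K2 * (K1 + 1) : NNReal) : ℝ) * ‖p - q‖ := by
      intro t ht
      rw [Set.uIoc_of_le zero_le_one] at ht
      have ht' : t ∈ Set.Icc (0:ℝ) 1 := ⟨ht.1.le, ht.2⟩
      have h1 : dist (F2 (γ p t)) (F2 (γ q t)) ≤ K2 * dist (γ p t) (γ q t) :=
        hK2.dist_le_mul _ (hball _ (hγb p hp t ht')).2 _ (hball _ (hγb q hq t ht')).2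
      have h2 : dist (c p) (c q) ≤ K1 * dist p q :=
        hK1.dist_le_mul _ (hball' p hp).2.2.1 _ (hball' q hq).2.2.1
      rw [dist_eq_norm, dist_eq_norm] at h1 h2
      have h3 : γ p t - γ q t = (1 - t) • (c p - c q) + t • (p - q) := by
        simp only [γ]
        module
      have h4 : ‖γ p t - γ q t‖ ≤ (K1 + 1) * ‖p - q‖ := by
        rw [h3]
        refine (norm_add_le _ _).trans ?_
        rw [norm_smul, norm_smul, Real.norm_eq_abs, Real.norm_eq_abs, abs_of_nonneg ht'.1,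
          abs_of_nonneg (sub_nonneg.2 ht'.2)]
        have e1 : (1 - t) * ‖c p - c q‖ ≤ 1 * (K1 * ‖p - q‖) :=
          mul_le_mul (by linarith [ht'.1]) h2 (norm_nonneg _) zero_le_one
        have e2 : t * ‖p - q‖ ≤ 1 * ‖p - q‖ := mul_le_mul_of_nonneg_right ht'.2 (norm_nonneg _)
        linarith
      rw [← mul_sub, norm_mul, Complex.norm_real, Real.norm_eq_abs,
        abs_of_nonneg (sub_nonneg.2 ht'.2)]
      push_cast
      calc (1 - t) * ‖F2 (γ p t) - F2 (γ q t)‖ ≤ 1 * (K2 * ((K1 + 1) * ‖p - q‖)) := by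
            refine mul_le_mul (by linarith [ht'.1]) (h1.trans ?_) (norm_nonneg _) zero_le_one
            exact mul_le_mul_of_nonneg_left h4 K2.2
        _ = K2 * (K1 + 1) * ‖p - q‖ := by ring
    have := intervalIntegral.norm_integral_le_of_norm_le_const hbd
    simpa using this
  have hW0 : W 0 = F2 0 / 2 := by
    have h1 : ∀ t : ℝ, γ 0 t = 0 := by
      intro t
      simp only [γ]
      rw [hc0, sub_zero, smul_zero, add_zero]
    simp only [W, h1]
    rw [intervalIntegral.integral_mul_const, intervalIntegral.integral_ofReal]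
    have h2 : ∫ t in (0:ℝ)..1, (1 - t) = 1 / 2 := by
      rw [intervalIntegral.integral_sub (by simp) (by simp)]
      simp
      norm_num
    rw [h2]
    push_cast
    ring
  have hW0' : W 0 ≠ 0 := by
    rw [hW0]
    exact div_ne_zero hz two_ne_zero
  obtain ⟨a, ha⟩ := IsAlgClosed.exists_pow_nat_eq (W 0) (n := 2) two_pos
  have ha0 : a ≠ 0 := by
    rintro rfl
    apply hW0'
    rw [← ha]
    norm_num
  let R : ℂ → ℂ := fun w => a * Complex.exp (Complex.log (w / W 0) / 2)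
  have hRd : ContDiffAt ℂ 1 R (W 0) := by
    refine contDiffAt_const.mul (ContDiffAt.cexp (ContDiffAt.div_const ?_ _))
    refine AnalyticAt.contDiffAt (AnalyticAt.clog (f := fun w => w / W 0)
      (analyticAt_id.div analyticAt_const hW0') ?_)
    rw [div_self hW0']
    exact Complex.one_mem_slitPlane
  have hRsq : ∀ w, w ≠ 0 → R w ^ 2 = w := by
    intro w hw
    simp only [R]
    rw [mul_pow, ha, ← Complex.exp_nat_mul]
    have : ((2:ℕ) : ℂ) * (Complex.log (w / W 0) / 2) = Complex.log (w / W 0) := by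
      push_cast
      ring
    rw [this, Complex.exp_log (div_ne_zero hw hW0')]
    field_simp
  have hR0 : R (W 0) = a := by
    simp only [R]
    rw [div_self hW0', Complex.log_one, zero_div, Complex.exp_zero, mul_one]
  obtain ⟨K3, t3, ht3, hK3⟩ := hRd.exists_lipschitzOnWith
  have hWc : ContinuousAt W 0 := hWlip.continuousOn.continuousAt (ball_mem_nhds _ hr')
  let V : E × ℂ → ℂ := fun p => R (W p)
  have hVs : ball (0 : E × ℂ) r' ∩ W ⁻¹' t3 ∈ 𝓝 (0 : E × ℂ) :=
    Filter.inter_mem (ball_mem_nhds _ hr') (hWc ht3)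
  have hV : LipschitzOnWith (K3 * (K2 * (K1 + 1))) V (ball (0 : E × ℂ) r' ∩ W ⁻¹' t3) :=
    hK3.comp (hWlip.mono Set.inter_subset_left) fun p hp => hp.2
  let u : E × ℂ → ℂ := fun p => p.2 - ζ p.1
  have hu : HasStrictFDerivAt u (ContinuousLinearMap.snd ℂ E ℂ -
      (fderiv ℂ ζ 0).comp (ContinuousLinearMap.fst ℂ E ℂ)) 0 := by
    refine hasStrictFDerivAt_snd.sub ?_
    exact HasStrictFDerivAt.comp (0 : E × ℂ) (g := ζ) hζ.hasStrictFDerivAt hasStrictFDerivAt_fst
  have hu0 : u 0 = 0 := by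
    simp only [u, Prod.fst_zero, Prod.snd_zero, hζ0, sub_zero]
  refine ⟨fun p => u p * V p, _, A4b_strict hu hu0 hVs hV, ?_, ?_, ?_⟩
  · show u 0 * V 0 = 0
    rw [hu0, zero_mul]
  · have : V 0 = a := hR0
    rw [this, he]
    simp [ha0]
  · have k1 : ∀ᶠ p in 𝓝 (0 : E × ℂ), p ∈ ball (0 : E × ℂ) r' := ball_mem_nhds _ hr'
    have k2 : ∀ᶠ p in 𝓝 (0 : E × ℂ), W p ≠ 0 := hWc.eventually_ne hW0'
    filter_upwards [k1, k2] with p h1 h2
    obtain ⟨m1, m2, m3, m4⟩ := hball' p h1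
    have hδ : p - c p = (u p) • e := by
      simp only [c, u, he]
      ext
      · simp
      · simp
    have h3 := A4b_taylor (fun q hq => (hball q hq).1) m2 m1 hδ m4
    rw [h3, mul_pow]
    have : V p ^ 2 = W p := hRsq _ h2
    rw [this]

end H24.LS
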