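import Pool.Agent.H24.LS.A0

/-!
# A4c: the reduced germ `g x = f (x, ζ x)`

* `g` is analytic at `0` (composition; `(0, ζ 0) = 0`), `g 0 = f 0 = 0`.
* `fderiv g x u = fderiv f (x, ζ x) (u, ζ' u) = fderiv f (x, ζ x) (u, 0)` for `x` near `0` (as `fderiv f (x, ζ x) (0,1) = 0`).  So
  `fderiv g 0 = 0`; and if `fderiv g x = 0` then `fderiv f (x, ζ x) = 0`, hence `(x, ζ x) = 0` by `iso` (for `x` near `0`), `x = 0`.
* Hessian: let `B = fderiv (fderiv f) 0` (symmetric: `f` is analytic), `ζ' = fderiv ζ 0`.  Differentiating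
  `fderiv f (x, ζ x) (0,1) = 0` at `0`: `B (v, ζ' v) (0,1) = 0`.  Differentiating `fderiv g x u = fderiv f (x, ζ x) (u, 0)`:
  `fderiv (fderiv g) 0 v u = B (v, ζ' v) (u, 0)`.
  So `v ∈ ker Hess g` iff `B (v, ζ' v) = 0`; and `(v, s) ∈ ker B` implies `B (0, s - ζ' v) (0,1) = 0`, so `s = ζ' v` by `hz`.  Hence
  `v ↦ (v, ζ' v)` is a linear equivalence of the kernels (`LinearEquiv.finrank_eq`).
-/

open Filter Topology Metric

namespace H24.LS

theorem reduced_germ {E : Type*} [NormedAddCommGroup E] [NormedSpace ℂ E] [FiniteDimensional ℂ E]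
    (f : E × ℂ → ℂ) (hf : Grm f)
    (hz : fderiv ℂ (fderiv ℂ f) 0 (0, 1) (0, 1) ≠ 0) (ζ : E → ℂ) (hζ : AnalyticAt ℂ ζ 0)
    (hζ0 : ζ 0 = 0) (hcr : ∀ᶠ x in 𝓝 (0 : E), fderiv ℂ f (x, ζ x) (0, 1) = 0) :
    Grm (fun x => f (x, ζ x)) ∧ crk (fun x => f (x, ζ x)) = crk f := by
  set j : E → E × ℂ := fun x => (x, ζ x) with hj
  set g : E → ℂ := fun x => f (x, ζ x) with hg
  have hj0 : j 0 = 0 := by
    simp only [hj, hζ0]
    rfl
  have hjan : AnalyticAt ℂ j 0 := analyticAt_id.prod hζ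
  have hfj : AnalyticAt ℂ f (j 0) := by rw [hj0]; exact hf.an
  have hgan : AnalyticAt ℂ g 0 := hfj.comp hjan
  have hjt : Tendsto j (𝓝 0) (𝓝 0) := by
    have := hjan.continuousAt.tendsto
    rwa [hj0] at this
  have e1 : ∀ᶠ x in 𝓝 (0:E), DifferentiableAt ℂ f (j x) :=
    hjt.eventually (hf.an.eventually_analyticAt.mono fun p hp => hp.differentiableAt)
  have e2 : ∀ᶠ x in 𝓝 (0:E), DifferentiableAt ℂ ζ x :=
    hζ.eventually_analyticAt.mono fun p hp => hp.differentiableAt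
  have hinl : ∀ (L : E × ℂ →L[ℂ] ℂ), L (0, 1) = 0 → ∀ u s, L (u, s) = L (u, 0) := by
    intro L hL u s
    have h1 : ((u, s) : E × ℂ) = (u, 0) + s • ((0 : E), (1:ℂ)) := by
      ext
      · simp
      · simp
    rw [h1, map_add, map_smul, hL, smul_zero, add_zero]
  have hev : ∀ᶠ x in 𝓝 (0:E), fderiv ℂ g x =
      (fderiv ℂ f (j x)).comp (ContinuousLinearMap.inl ℂ E ℂ) := by
    filter_upwards [e1, e2, hcr] with x h1 h2 h3
    have h4 : HasFDerivAt j ((ContinuousLinearMap.id ℂ E).prod (fderiv ℂ ζ x)) x :=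
      (hasFDerivAt_id x).prodMk h2.hasFDerivAt
    have h5 : HasFDerivAt g ((fderiv ℂ f (j x)).comp
        ((ContinuousLinearMap.id ℂ E).prod (fderiv ℂ ζ x))) x := h1.hasFDerivAt.comp x h4
    rw [h5.fderiv]
    ext u
    exact hinl _ h3 u _
  have hg1 : fderiv ℂ g 0 = 0 := by
    rw [hev.self_of_nhds, hj0, hf.f1, ContinuousLinearMap.zero_comp]
  have hgrm : Grm g := by
    refine ⟨hgan, ?_, hg1, ?_⟩
    · have h1 : g 0 = f (j 0) := rfl
      rw [h1, hj0, hf.f0]
    · have h1 : Tendsto j (𝓝[≠] (0:E)) (𝓝[≠] (0:E × ℂ)) := by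
        refine tendsto_nhdsWithin_iff.2 ⟨hjt.mono_left nhdsWithin_le_nhds, ?_⟩
        filter_upwards [self_mem_nhdsWithin] with x hx h0
        exact hx (congrArg Prod.fst h0)
      filter_upwards [h1.eventually hf.iso, nhdsWithin_le_nhds hev, nhdsWithin_le_nhds hcr]
        with x h2 h3 h4 h5
      apply h2
      rw [h3] at h5
      ext p
      · have := congrArg (fun L : E →L[ℂ] ℂ => L p) h5
        exact this
      · simpa using h4
  refine ⟨hgrm, ?_⟩
  -- the Hessians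
  set B := fderiv ℂ (fderiv ℂ f) 0 with hB
  set ζ' := fderiv ℂ ζ 0 with hζ'
  have hjd : HasFDerivAt j ((ContinuousLinearMap.id ℂ E).prod ζ') 0 :=
    (hasFDerivAt_id (0:E)).prodMk hζ.differentiableAt.hasFDerivAt
  have hfd : HasFDerivAt (fderiv ℂ f) B (j 0) := by
    rw [hj0]
    exact hf.an.fderiv.differentiableAt.hasFDerivAt
  have hcomp : HasFDerivAt (fun x => fderiv ℂ f (j x))
      (B.comp ((ContinuousLinearMap.id ℂ E).prod ζ')) 0 := hfd.comp (0:E) hjd
  have hHess : ∀ v u, fderiv ℂ (fderiv ℂ g) 0 v u = B (v, ζ' v) (u, 0) := by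
    intro v u
    have h1 : fderiv ℂ g =ᶠ[𝓝 0] fun x =>
        ((ContinuousLinearMap.compL ℂ E (E × ℂ) ℂ).flip (ContinuousLinearMap.inl ℂ E ℂ))
          (fderiv ℂ f (j x)) := hev
    have h2 := ((ContinuousLinearMap.compL ℂ E (E × ℂ) ℂ).flip
      (ContinuousLinearMap.inl ℂ E ℂ)).hasFDerivAt.comp (0:E) hcomp
    rw [h1.fderiv_eq]
    have h3 : fderiv ℂ (fun x => ((ContinuousLinearMap.compL ℂ E (E × ℂ) ℂ).flip
        (ContinuousLinearMap.inl ℂ E ℂ)) (fderiv ℂ f (j x))) 0 = _ := h2.fderiv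
    rw [h3]
    rfl
  have hB01 : ∀ v, B (v, ζ' v) (0, 1) = 0 := by
    intro v
    have h1 := (ContinuousLinearMap.apply ℂ ℂ ((0:E), (1:ℂ))).hasFDerivAt.comp (0:E) hcomp
    have h2 : (fun x => fderiv ℂ f (j x) ((0:E), (1:ℂ))) =ᶠ[𝓝 0] fun _ => (0:ℂ) := hcr
    have h3 : HasFDerivAt (fun x => fderiv ℂ f (j x) ((0:E), (1:ℂ))) (0 : E →L[ℂ] ℂ) 0 :=
      (hasFDerivAt_const (0:ℂ) (0:E)).congr_of_eventuallyEq h2
    have h4 := h1.unique h3
    exact congrArg (fun L : E →L[ℂ] ℂ => L v) h4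
  have hker : ∀ v, fderiv ℂ (fderiv ℂ g) 0 v = 0 ↔ B (v, ζ' v) = 0 := by
    intro v
    constructor
    · intro h
      ext p
      · have h1 := hHess v p
        rw [h] at h1
        exact h1.symm
      · simpa using hB01 v
    · intro h
      ext u
      rw [hHess, h]
      rfl
  have hker2 : ∀ v s, B (v, s) = 0 → s = ζ' v := by
    intro v s h
    have h1 : ((v, s) : E × ℂ) = (v, ζ' v) + (s - ζ' v) • ((0:E), (1:ℂ)) := by
      ext
      · simp
      · simp
    have h2 := congrArg (fun L : E × ℂ →L[ℂ] ℂ => L (0, 1)) h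
    rw [h1] at h2
    simp only [map_add, map_smul, add_apply, smul_apply, hB01, zero_add, smul_eq_mul, zero_apply]
      at h2
    exact sub_eq_zero.1 ((mul_eq_zero.1 h2).resolve_right hz)
  unfold crk
  refine LinearEquiv.finrank_eq
    { toFun := fun v => ⟨((v : E), ζ' v), (hker v).1 v.2⟩
      map_add' := fun v w => Subtype.ext (by
        ext
        · rfl
        · exact map_add ζ' _ _)
      map_smul' := fun c v => Subtype.ext (by
        ext
        · rfl
        · exact map_smul ζ' _ _)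
      invFun := fun q => ⟨q.1.1, by
        have h1 : B q.1 = 0 := q.2
        have h2 := hker2 q.1.1 q.1.2 h1
        refine (hker _).2 ?_
        rw [← h2]
        exact h1⟩
      left_inv := fun v => rfl
      right_inv := fun q => Subtype.ext (by
        have h1 : B q.1 = 0 := q.2
        have h2 := hker2 q.1.1 q.1.2 h1
        ext
        · rfl
        · exact h2.symm) }

end H24.LS
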