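import Pool.Agent.H24.LS.A0
import Pool.Agent.H24.LS.A4a
import Pool.Agent.H24.LS.A4b
import Pool.Agent.H24.LS.A4c

/-!
# A4: splitting off one variable

`ζ` from `impl_zero`, `g x = f (x, ζ x)`, `S` from `square_part`; `h (x,z) = (x, S (x,z))` is strictly differentiable at `0` with
invertible derivative `(u,s) ↦ (u, S' (u,s))` (`S' (0,1) ≠ 0`); `f = (g p.1 + p.2^2) ∘ h`; `lip_of_strict` (restrict scalars to `ℝ`).
-/

open Filter Topology Metric

namespace H24.LS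

theorem split_one {E : Type*} [NormedAddCommGroup E] [NormedSpace ℂ E] [FiniteDimensional ℂ E]
    (f : E × ℂ → ℂ) (hf : Grm f) (hz : fderiv ℂ (fderiv ℂ f) 0 (0, 1) (0, 1) ≠ 0) :
    ∃ g : E → ℂ, Grm g ∧ crk g = crk f ∧ LipEquiv f (fun p : E × ℂ => g p.1 + p.2 ^ 2) := by
  obtain ⟨ζ, hζ, hζ0, hcr⟩ := impl_zero f hf.an hf.f1 hz
  obtain ⟨h1, h2⟩ := reduced_germ f hf hz ζ hζ hζ0 hcr
  obtain ⟨S, S', hS, hS0, hS1, hfS⟩ := square_part f hf.an hz ζ hζ hζ0 hcr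
  refine ⟨fun x => f (x, ζ x), h1, h2, ?_⟩
  have : CompleteSpace E := FiniteDimensional.complete ℂ E
  set c : ℂ := S' (0, 1) with hc
  let A : E × ℂ →L[ℂ] E × ℂ := (ContinuousLinearMap.fst ℂ E ℂ).prod S'
  let B : E × ℂ →L[ℂ] E × ℂ := (ContinuousLinearMap.fst ℂ E ℂ).prod
    (c⁻¹ • (ContinuousLinearMap.snd ℂ E ℂ -
      S'.comp ((ContinuousLinearMap.inl ℂ E ℂ).comp (ContinuousLinearMap.fst ℂ E ℂ))))
  have hsplit : ∀ (u : E) (s : ℂ), S' (u, s) = S' (u, 0) + s * c := by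
    intro u s
    have : ((u, s) : E × ℂ) = (u, 0) + s • (0, 1) := by
      ext <;> simp
    rw [this, map_add, map_smul, smul_eq_mul]
  have hl : Function.LeftInverse B A := by
    rintro ⟨u, s⟩
    show (u, c⁻¹ * (S' (u, s) - S' (u, 0))) = (u, s)
    rw [hsplit u s]
    congr 1
    field_simp
    ring
  have hr : Function.RightInverse B A := by
    rintro ⟨u, t⟩
    show (u, S' (u, c⁻¹ * (t - S' (u, 0)))) = (u, t)
    rw [hsplit u (c⁻¹ * (t - S' (u, 0)))]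
    congr 1
    field_simp
    ring
  let e : (E × ℂ) ≃L[ℂ] (E × ℂ) := ContinuousLinearEquiv.equivOfInverse A B hl hr
  have hd : HasStrictFDerivAt (fun p : E × ℂ => (p.1, S p)) A 0 :=
    hasStrictFDerivAt_fst.prodMk hS
  have hd' : HasStrictFDerivAt (fun p : E × ℂ => (p.1, S p))
      ((e.restrictScalars ℝ : (E × ℂ) ≃L[ℝ] (E × ℂ)) : E × ℂ →L[ℝ] E × ℂ) 0 :=
    hd.restrictScalars ℝ
  refine lip_of_strict (fun p : E × ℂ => (p.1, S p)) (e.restrictScalars ℝ) hd' ?_ f _ ?_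
  · show ((0 : E × ℂ).1, S 0) = 0
    rw [hS0]
    rfl
  · filter_upwards [hfS] with p hp
    exact hp

end H24.LS
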