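import Pool.Agent.H24.LS.A0

/-!
# A5a: linear changes of coordinates

* `exists_equiv`: complete `v` to a basis: e.g. `Basis.extend`/a linear functional `l` with `l v = 1` and `Fin (n+1) → ℂ = ker l ⊕ ℂ v`,
  `finrank (ker l) = n`, `ker l ≃ (Fin n → ℂ)`; finite dimensional linear equivalences are continuous
  (`LinearEquiv.toContinuousLinearEquiv`).
* `hess_symm`: `second_derivative_symmetric` / `ContDiffAt.isSymmSndFDerivAt`.
* `exists_nonisotropic`: if `B ≠ 0` choose `u, v` with `B u v ≠ 0`; if `B u u = B v v = 0` then `B (u+v) (u+v) = 2 B u v ≠ 0`.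
* `grm_comp`: chain rule; `fderiv (f ∘ e) x = (fderiv f (e x)) ∘ e`;
  `fderiv (fderiv (f ∘ e)) 0 u v = fderiv (fderiv f) 0 (e u) (e v)`.
* `crk_comp`: `e` maps the kernel of the Hessian of `f ∘ e` isomorphically onto that of `f`.
-/

open Filter Topology Metric

namespace H24.LS

theorem exists_equiv (n : ℕ) (v : Fin (n + 1) → ℂ) (hv : v ≠ 0) :
    ∃ e : ((Fin n → ℂ) × ℂ) ≃L[ℂ] (Fin (n + 1) → ℂ), e (0, 1) = v := by
  have hfin : Module.finrank ℂ ((Fin n → ℂ) × ℂ) = Module.finrank ℂ (Fin (n + 1) → ℂ) := by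
    simp
  let e0 : ((Fin n → ℂ) × ℂ) ≃L[ℂ] (Fin (n + 1) → ℂ) := ContinuousLinearEquiv.ofFinrankEq hfin
  have h0 : e0 (0, 1) ≠ 0 := by
    rw [Ne, e0.map_eq_zero_iff]
    intro h
    have := congrArg Prod.snd h
    simp at this
  obtain ⟨A, hA⟩ := SeparatingDual.exists_continuousLinearEquiv_apply_eq (R := ℂ) h0 hv
  exact ⟨e0.trans A, hA⟩

theorem hess_symm {E : Type*} [NormedAddCommGroup E] [NormedSpace ℂ E] [FiniteDimensional ℂ E]
    (f : E → ℂ) (hf : AnalyticAt ℂ f 0) (u v : E) :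
    fderiv ℂ (fderiv ℂ f) 0 u v = fderiv ℂ (fderiv ℂ f) 0 v u :=
  (ContDiffAt.isSymmSndFDerivAt_of_omega hf.contDiffAt) u v

theorem exists_nonisotropic {E : Type*} [NormedAddCommGroup E] [NormedSpace ℂ E]
    [FiniteDimensional ℂ E] (f : E → ℂ) (hf : AnalyticAt ℂ f 0)
    (h : fderiv ℂ (fderiv ℂ f) 0 ≠ 0) : ∃ v : E, fderiv ℂ (fderiv ℂ f) 0 v v ≠ 0 := by
  by_contra hno
  push Not at hno
  apply h
  ext u v
  have h1 := hno (u + v)
  simp only [map_add, add_apply] at h1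
  rw [hno u, hno v, hess_symm f hf v u, zero_add, add_zero] at h1
  have h2 : (2:ℂ) * fderiv ℂ (fderiv ℂ f) 0 u v = 0 := by linear_combination h1
  simpa using h2

theorem A5a_fderiv {E E' : Type*} [NormedAddCommGroup E] [NormedSpace ℂ E]
    [NormedAddCommGroup E'] [NormedSpace ℂ E'] (f : E' → ℂ) (e : E ≃L[ℂ] E') (x : E) :
    fderiv ℂ (fun x => f (e x)) x = (fderiv ℂ f (e x)).comp (e : E →L[ℂ] E') :=
  e.comp_right_fderiv (f := f) (x := x)

theorem hess_comp {E E' : Type*} [NormedAddCommGroup E] [NormedSpace ℂ E] [FiniteDimensional ℂ E]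
    [NormedAddCommGroup E'] [NormedSpace ℂ E'] [FiniteDimensional ℂ E'] (f : E' → ℂ)
    (hf : AnalyticAt ℂ f 0) (e : E ≃L[ℂ] E') (u v : E) :
    fderiv ℂ (fderiv ℂ (fun x => f (e x))) 0 u v = fderiv ℂ (fderiv ℂ f) 0 (e u) (e v) := by
  have h1 : fderiv ℂ (fun x => f (e x)) =
      fun x => ((ContinuousLinearMap.compL ℂ E E' ℂ).flip (e : E →L[ℂ] E')) (fderiv ℂ f (e x)) := by
    funext x
    rw [A5a_fderiv]
    rfl
  have hd : DifferentiableAt ℂ (fderiv ℂ f) (e 0) := by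
    rw [map_zero]
    exact hf.fderiv.differentiableAt
  have h2 : HasFDerivAt (fun x => fderiv ℂ f (e x))
      ((fderiv ℂ (fderiv ℂ f) (e 0)).comp (e : E →L[ℂ] E')) 0 :=
    hd.hasFDerivAt.comp (0 : E) e.hasFDerivAt
  have h3 := ((ContinuousLinearMap.compL ℂ E E' ℂ).flip (e : E →L[ℂ] E')).hasFDerivAt.comp
    (0 : E) h2
  have h4 : fderiv ℂ (fderiv ℂ (fun x => f (e x))) 0 =
      ((ContinuousLinearMap.compL ℂ E E' ℂ).flip (e : E →L[ℂ] E')).comp
        ((fderiv ℂ (fderiv ℂ f) (e 0)).comp (e : E →L[ℂ] E')) := by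
    rw [h1]
    exact h3.fderiv
  rw [h4, map_zero]
  rfl

theorem grm_comp {E E' : Type*} [NormedAddCommGroup E] [NormedSpace ℂ E] [FiniteDimensional ℂ E]
    [NormedAddCommGroup E'] [NormedSpace ℂ E'] [FiniteDimensional ℂ E'] (f : E' → ℂ)
    (hf : Grm f) (e : E ≃L[ℂ] E') : Grm (fun x => f (e x)) ∧ crk (fun x => f (e x)) = crk f := by
  refine ⟨⟨?_, ?_, ?_, ?_⟩, ?_⟩
  · have h1 : AnalyticAt ℂ f (e 0) := by rw [map_zero]; exact hf.an
    exact h1.comp ((e : E →L[ℂ] E').analyticAt 0)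
  · simp only [map_zero, hf.f0]
  · rw [A5a_fderiv, map_zero, hf.f1, ContinuousLinearMap.zero_comp]
  · have h1 : Tendsto e (𝓝[≠] (0:E)) (𝓝[≠] (0:E')) := by
      have h2 := e.continuous.continuousAt.tendsto (x := (0:E))
      rw [map_zero] at h2
      refine tendsto_nhdsWithin_iff.2 ⟨h2.mono_left nhdsWithin_le_nhds, ?_⟩
      filter_upwards [self_mem_nhdsWithin] with x hx
      rw [Set.mem_compl_iff, Set.mem_singleton_iff, e.map_eq_zero_iff]
      exact hx
    filter_upwards [h1.eventually hf.iso] with x hx h0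
    apply hx
    rw [A5a_fderiv] at h0
    ext w
    have := congrArg (fun L : E →L[ℂ] ℂ => L (e.symm w)) h0
    simpa using this
  · unfold crk
    rw [← LinearEquiv.finrank_map_eq e.toLinearEquiv
      (LinearMap.ker (fderiv ℂ (fderiv ℂ (fun x => f (e x))) 0).toLinearMap)]
    have hk : Submodule.map (e.toLinearEquiv : E →ₗ[ℂ] E')
        (LinearMap.ker (fderiv ℂ (fderiv ℂ (fun x => f (e x))) 0).toLinearMap) =
        LinearMap.ker (fderiv ℂ (fderiv ℂ f) 0).toLinearMap := by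
      ext y
      constructor
      · rintro ⟨x, hx, rfl⟩
        rw [LinearMap.mem_ker]
        have hx' : fderiv ℂ (fderiv ℂ (fun x => f (e x))) 0 x = 0 := hx
        change fderiv ℂ (fderiv ℂ f) 0 (e x) = 0
        ext w
        have h1 := hess_comp f hf.an e x (e.symm w)
        rw [hx', e.apply_symm_apply] at h1
        rw [← h1]
        rfl
      · intro hy
        have hy' : fderiv ℂ (fderiv ℂ f) 0 y = 0 := hy
        refine ⟨e.symm y, ?_, e.apply_symm_apply y⟩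
        change fderiv ℂ (fderiv ℂ (fun x => f (e x))) 0 (e.symm y) = 0
        ext w
        rw [hess_comp f hf.an e, e.apply_symm_apply, hy']
        rfl
    rw [hk]

end H24.LS
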