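import Pool.Agent.H24.LS.A0
import Pool.Agent.H24.LS.A4
import Pool.Agent.H24.LS.A5a

/-!
# A5: the splitting lemma

Induction on `n`.
* If `fderiv (fderiv f) 0 = 0` (in particular if `n = 0`): `c = n`, `d = 0`, `g = f` (`crk f = n`; `f ~ stb 0 f` by the linear equivalence
  `x ↦ (x, 0)`).
* Otherwise `n = n' + 1`: `v` from `exists_nonisotropic`, `e` from `exists_equiv`, `f' = f ∘ e` on `(Fin n' → ℂ) × ℂ`, `Grm f'`, `crk f' = crk f`,
  `fderiv (fderiv f') 0 (0,1) (0,1) = B v v ≠ 0` (`hess_comp`).  `split_one`: `f' ~ g' + z^2`, `g'` on `Fin n' → ℂ`, `crk g' = crk f`.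
  Induction: `g' ~ stb d' g`, `c + d' = n'`.  So `f ~ f' ~ g' + z^2 ~ stb d' g + z^2 ~ stb (d'+1) g` (`lip_add`, `lip_stb_stb` with
  `m = 1`, `Fin 1 → ℂ ≃ ℂ`).
-/

open Filter Topology Metric

namespace H24.LS

theorem A5_zero {E : Type*} [NormedAddCommGroup E] (f : E → ℂ) : LipEquiv f (stb 0 f) := by
  refine ⟨fun x => (x, 0), fun p => p.1, 1, 1, one_pos, rfl, rfl, fun x _ y _ => ?_,
    fun p _ q _ => ?_, Eventually.of_forall fun _ => rfl, Eventually.of_forall fun p => ?_,
    Eventually.of_forall fun x => ?_⟩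
  · rw [Prod.mk_sub_mk, sub_zero, Prod.norm_def, one_mul]
    refine max_le le_rfl ?_
    show ‖(0 : Fin 0 → ℂ)‖ ≤ _
    rw [norm_zero]
    exact norm_nonneg _
  · rw [one_mul]
    exact norm_fst_le (p - q)
  · exact Prod.ext rfl (Subsingleton.elim _ _)
  · simp [stb]

theorem A5_one {E : Type*} [NormedAddCommGroup E] (f : E → ℂ) :
    LipEquiv (fun p : E × ℂ => f p.1 + p.2 ^ 2) (stb 1 f) := by
  refine ⟨fun p => (p.1, fun _ => p.2), fun q => (q.1, q.2 0), 1, 1, one_pos, rfl, rfl,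
    fun p _ q _ => ?_, fun p _ q _ => ?_, Eventually.of_forall fun _ => rfl,
    Eventually.of_forall fun q => ?_, Eventually.of_forall fun p => ?_⟩
  · rw [Prod.mk_sub_mk, Prod.norm_def, one_mul]
    refine max_le (norm_fst_le (p - q)) ?_
    rw [pi_norm_le_iff_of_nonneg (norm_nonneg _)]
    intro i
    exact norm_snd_le (p - q)
  · rw [Prod.mk_sub_mk, Prod.norm_def, one_mul]
    refine max_le (norm_fst_le (p - q)) ?_
    exact (norm_le_pi_norm (p.2 - q.2) 0).trans (norm_snd_le (p - q))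
  · refine Prod.ext rfl (funext fun i => ?_)
    rw [Subsingleton.elim i 0]
  · simp [stb]

theorem split_full (n : ℕ) : ∀ f : (Fin n → ℂ) → ℂ, Grm f →
    ∃ (c d : ℕ) (g : (Fin c → ℂ) → ℂ), c + d = n ∧ c = crk f ∧ Grm g ∧
      fderiv ℂ (fderiv ℂ g) 0 = 0 ∧ LipEquiv f (stb d g) := by
  induction n with
  | zero =>
    intro f hf
    have h : fderiv ℂ (fderiv ℂ f) 0 = 0 := by
      refine ContinuousLinearMap.ext fun u => ?_
      rw [Subsingleton.elim u 0, map_zero, map_zero]
    refine ⟨0, 0, f, rfl, ?_, hf, h, A5_zero f⟩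
    unfold crk
    exact (Module.finrank_zero_of_subsingleton).symm
  | succ n ih =>
    intro f hf
    by_cases h : fderiv ℂ (fderiv ℂ f) 0 = 0
    · refine ⟨n + 1, 0, f, rfl, ?_, hf, h, A5_zero f⟩
      unfold crk
      rw [h]
      have h1 : LinearMap.ker
          (0 : (Fin (n + 1) → ℂ) →L[ℂ] (Fin (n + 1) → ℂ) →L[ℂ] ℂ).toLinearMap = ⊤ := by
        ext x
        simp
      rw [h1, finrank_top]
      simp
    · obtain ⟨v, hv⟩ := exists_nonisotropic f hf.an h
      have hv0 : v ≠ 0 := by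
        rintro rfl
        exact hv (by simp)
      obtain ⟨e, he⟩ := exists_equiv n v hv0
      obtain ⟨k1, k2⟩ := grm_comp f hf e
      have k3 : fderiv ℂ (fderiv ℂ (fun x => f (e x))) 0 (0, 1) (0, 1) ≠ 0 := by
        rw [hess_comp f hf.an e, he]
        exact hv
      obtain ⟨g', hg1, hg2, hg3⟩ := split_one (fun x => f (e x)) k1 k3
      obtain ⟨c, d, g, h1, h2, h3, h4, h5⟩ := ih g' hg1
      refine ⟨c, d + 1, g, by omega, by rw [h2, hg2, k2], h3, h4, ?_⟩
      let e' : (Fin (n + 1) → ℂ) ≃L[ℝ] ((Fin n → ℂ) × ℂ) :=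
        { toLinearEquiv := e.symm.toLinearEquiv.restrictScalars ℝ
          continuous_toFun := e.symm.continuous
          continuous_invFun := e.continuous }
      have l0 : ∀ x, f x = (fun x : (Fin n → ℂ) × ℂ => f (e x)) (e' x) := fun x => by
        show f x = f (e (e.symm x))
        rw [e.apply_symm_apply]
      have l1 : LipEquiv f (fun x : (Fin n → ℂ) × ℂ => f (e x)) := by
        apply lip_of_linear e'
        exact l0
      have l2 := lip_add h5 (fun z : ℂ => z ^ 2)
      exact lip_trans (lip_trans (lip_trans (lip_trans l1 hg3) l2) (A5_one (stb d g)))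
        (lip_stb_stb g d 1)

end H24.LS
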