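import Pool.Agent.H24.LS.R0

/-!
# R0a: invariance of `Coarse`, `Iso`, `LipEquiv` under linear changes of coordinates

* `coarse_equiv`: let `M ≥ 1` bound the norms of `l, l.symm, l', l'.symm` (as continuous linear maps), `L' = M^2 L`,
  `ρ' = ρ / M`.  `ContinuousLinearEquiv.comp_right_fderiv`: `fderiv (f ∘ l) p = (fderiv f (l p)).comp l` (no hypothesis), so
  `‖fderiv (f ∘ l) p‖ ≤ M ‖fderiv f (l p)‖`, and `fderiv f (l p) = (fderiv (f ∘ l) p).comp l.symm`, so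
  `‖fderiv f (l p)‖ ≤ M ‖fderiv (f ∘ l) p‖`.  If `‖p‖ < ρ'` then `‖l p‖ < ρ`.
  `lipA`: `M L M`.  `fA`: `f (l p) - g (l' (l'.symm (A (l p)))) = f (l p) - g (A (l p))`, `≤ L ‖fderiv f (l p)‖^2 ≤ L M^2 ‖..‖^2`.
  `dA`: `‖fderiv (g ∘ l') (l'.symm (A (l p)))‖ ≤ M ‖fderiv g (A (l p))‖ ≤ M L ‖fderiv f (l p)‖ ≤ M^2 L ‖fderiv (f ∘ l) p‖`.
  `BA`: `l.symm (B (A (l p))) - p = l.symm (B (A (l p)) - l p)`, `≤ M L ‖fderiv f (l p)‖ ≤ M^2 L ‖fderiv (f ∘ l) p‖`.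
* `iso_equiv`: `fderiv (f ∘ l) p = (fderiv f (l p)).comp l ≠ 0` if `fderiv f (l p) ≠ 0` (compose with `l.symm`), and `l` maps
  punctured neighbourhoods of `0` to punctured neighbourhoods of `0`.
* `lipEquiv_of_equiv`: if `(h, h', K, r)` are the data for `f ∘ l`, `g ∘ l'`, take `l' ∘ h ∘ l.symm`, `l ∘ h' ∘ l'.symm`,
  `M^2 |K|`, `r / M`; eventual statements: pull back by the continuous `l.symm`, `l'.symm`.
-/

open Filter Topology Metric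

namespace H24.LS

section

variable {E E' E1 E1' : Type*} [NormedAddCommGroup E] [NormedSpace ℂ E]
    [NormedAddCommGroup E'] [NormedSpace ℂ E'] [NormedAddCommGroup E1] [NormedSpace ℂ E1]
    [NormedAddCommGroup E1'] [NormedSpace ℂ E1']

theorem R0a_fderiv (f : E → ℂ) (l : E1 ≃L[ℂ] E) (p : E1) :
    fderiv ℂ (fun p => f (l p)) p = (fderiv ℂ f (l p)).comp (l : E1 →L[ℂ] E) :=
  l.comp_right_fderiv (f := f)

theorem R0a_le (f : E → ℂ) (l : E1 ≃L[ℂ] E) {M : ℝ} (h : ‖(l : E1 →L[ℂ] E)‖ ≤ M) (p : E1) :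
    ‖fderiv ℂ (fun p => f (l p)) p‖ ≤ M * ‖fderiv ℂ f (l p)‖ := by
  rw [R0a_fderiv]
  refine (ContinuousLinearMap.opNorm_comp_le _ _).trans ?_
  rw [mul_comm]
  exact mul_le_mul_of_nonneg_right h (norm_nonneg _)

theorem R0a_ge (f : E → ℂ) (l : E1 ≃L[ℂ] E) {M : ℝ} (h : ‖(l.symm : E →L[ℂ] E1)‖ ≤ M) (p : E1) :
    ‖fderiv ℂ f (l p)‖ ≤ M * ‖fderiv ℂ (fun p => f (l p)) p‖ := by
  have e : fderiv ℂ f (l p) =
      (fderiv ℂ (fun p => f (l p)) p).comp (l.symm : E →L[ℂ] E1) := by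
    rw [R0a_fderiv]
    ext x
    simp
  rw [e]
  refine (ContinuousLinearMap.opNorm_comp_le _ _).trans ?_
  rw [mul_comm]
  exact mul_le_mul_of_nonneg_right h (norm_nonneg _)

theorem R0a_app {F F' : Type*} [NormedAddCommGroup F] [NormedSpace ℂ F] [NormedAddCommGroup F']
    [NormedSpace ℂ F'] (l : F ≃L[ℂ] F') {M : ℝ} (h : ‖(l : F →L[ℂ] F')‖ ≤ M) (p : F) :
    ‖l p‖ ≤ M * ‖p‖ :=
  ((l : F →L[ℂ] F').le_opNorm p).trans (mul_le_mul_of_nonneg_right h (norm_nonneg _))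

theorem R0a_ball {F F' : Type*} [NormedAddCommGroup F] [NormedSpace ℂ F] [NormedAddCommGroup F']
    [NormedSpace ℂ F'] (l : F ≃L[ℂ] F') {M ρ : ℝ} (hM : 1 ≤ M) (h : ‖(l : F →L[ℂ] F')‖ ≤ M)
    {p : F} (hp : p ∈ ball (0 : F) (ρ / M)) : l p ∈ ball (0 : F') ρ := by
  rw [mem_ball_zero_iff] at hp ⊢
  have h1 := R0a_app l h p
  have h2 : ‖p‖ * M < ρ := by rwa [lt_div_iff₀ (by linarith)] at hp
  linarith

theorem R0a_half {f : E → ℂ} {g : E' → ℂ} {A : E → E'} {B : E' → E}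
    {L ρ M : ℝ} (h : Coarse f g A B L ρ) (l : E1 ≃L[ℂ] E) (l' : E1' ≃L[ℂ] E') (hM : 1 ≤ M)
    (h1 : ‖(l : E1 →L[ℂ] E)‖ ≤ M) (h2 : ‖(l.symm : E →L[ℂ] E1)‖ ≤ M)
    (h3 : ‖(l' : E1' →L[ℂ] E')‖ ≤ M) (h4 : ‖(l'.symm : E' →L[ℂ] E1')‖ ≤ M) :
    (∀ p ∈ ball (0 : E1) (ρ / M), ∀ q ∈ ball (0 : E1) (ρ / M),
      ‖l'.symm (A (l p)) - l'.symm (A (l q))‖ ≤ M ^ 2 * L * ‖p - q‖) ∧
    (∀ p ∈ ball (0 : E1) (ρ / M), ‖f (l p) - g (l' (l'.symm (A (l p))))‖ ≤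
      M ^ 2 * L * ‖fderiv ℂ (fun p => f (l p)) p‖ ^ 2) ∧
    (∀ p ∈ ball (0 : E1) (ρ / M), ‖fderiv ℂ (fun q => g (l' q)) (l'.symm (A (l p)))‖ ≤
      M ^ 2 * L * ‖fderiv ℂ (fun p => f (l p)) p‖) ∧
    (∀ p ∈ ball (0 : E1) (ρ / M), ‖l.symm (B (l' (l'.symm (A (l p))))) - p‖ ≤
      M ^ 2 * L * ‖fderiv ℂ (fun p => f (l p)) p‖) := by
  have hL := h.hL
  refine ⟨fun p hp q hq => ?_, fun p hp => ?_, fun p hp => ?_, fun p hp => ?_⟩
  · have e1 := h.lipA _ (R0a_ball l hM h1 hp) _ (R0a_ball l hM h1 hq)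
    have e2 := R0a_app l'.symm h4 (A (l p) - A (l q))
    have e3 := R0a_app l h1 (p - q)
    rw [map_sub] at e2 e3
    calc ‖l'.symm (A (l p)) - l'.symm (A (l q))‖ ≤ M * ‖A (l p) - A (l q)‖ := e2
      _ ≤ M * (L * ‖l p - l q‖) := mul_le_mul_of_nonneg_left e1 (by linarith)
      _ ≤ M * (L * (M * ‖p - q‖)) := by
          refine mul_le_mul_of_nonneg_left (mul_le_mul_of_nonneg_left e3 (by linarith))
            (by linarith)
      _ = M ^ 2 * L * ‖p - q‖ := by ring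
  · rw [l'.apply_symm_apply]
    have e1 := h.fA _ (R0a_ball l hM h1 hp)
    have e2 := R0a_ge f l h2 p
    have e3 : ‖fderiv ℂ f (l p)‖ ^ 2 ≤ (M * ‖fderiv ℂ (fun p => f (l p)) p‖) ^ 2 :=
      pow_le_pow_left₀ (norm_nonneg _) e2 2
    calc ‖f (l p) - g (A (l p))‖ ≤ L * ‖fderiv ℂ f (l p)‖ ^ 2 := e1
      _ ≤ L * (M * ‖fderiv ℂ (fun p => f (l p)) p‖) ^ 2 :=
          mul_le_mul_of_nonneg_left e3 (by linarith)
      _ = M ^ 2 * L * ‖fderiv ℂ (fun p => f (l p)) p‖ ^ 2 := by ring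
  · have e1 := R0a_le g l' h3 (l'.symm (A (l p)))
    rw [l'.apply_symm_apply] at e1
    have e2 := h.dA _ (R0a_ball l hM h1 hp)
    have e3 := R0a_ge f l h2 p
    calc ‖fderiv ℂ (fun q => g (l' q)) (l'.symm (A (l p)))‖ ≤ M * ‖fderiv ℂ g (A (l p))‖ := e1
      _ ≤ M * (L * ‖fderiv ℂ f (l p)‖) := mul_le_mul_of_nonneg_left e2 (by linarith)
      _ ≤ M * (L * (M * ‖fderiv ℂ (fun p => f (l p)) p‖)) := by
          refine mul_le_mul_of_nonneg_left (mul_le_mul_of_nonneg_left e3 (by linarith))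
            (by linarith)
      _ = M ^ 2 * L * ‖fderiv ℂ (fun p => f (l p)) p‖ := by ring
  · rw [l'.apply_symm_apply]
    have e1 := h.BA _ (R0a_ball l hM h1 hp)
    have e2 := R0a_app l.symm h2 (B (A (l p)) - l p)
    rw [map_sub, l.symm_apply_apply] at e2
    have e3 := R0a_ge f l h2 p
    calc ‖l.symm (B (A (l p))) - p‖ ≤ M * ‖B (A (l p)) - l p‖ := e2
      _ ≤ M * (L * ‖fderiv ℂ f (l p)‖) := mul_le_mul_of_nonneg_left e1 (by linarith)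
      _ ≤ M * (L * (M * ‖fderiv ℂ (fun p => f (l p)) p‖)) := by
          refine mul_le_mul_of_nonneg_left (mul_le_mul_of_nonneg_left e3 (by linarith))
            (by linarith)
      _ = M ^ 2 * L * ‖fderiv ℂ (fun p => f (l p)) p‖ := by ring

end

theorem coarse_equiv {E E' E1 E1' : Type*} [NormedAddCommGroup E] [NormedSpace ℂ E]
    [NormedAddCommGroup E'] [NormedSpace ℂ E'] [NormedAddCommGroup E1] [NormedSpace ℂ E1]
    [NormedAddCommGroup E1'] [NormedSpace ℂ E1']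
    {f : E → ℂ} {g : E' → ℂ} {A : E → E'} {B : E' → E}
    {L ρ : ℝ} (h : Coarse f g A B L ρ) (l : E1 ≃L[ℂ] E) (l' : E1' ≃L[ℂ] E') :
    ∃ L' ρ' : ℝ, Coarse (fun p => f (l p)) (fun p => g (l' p)) (fun p => l'.symm (A (l p)))
      (fun p => l.symm (B (l' p))) L' ρ' := by
  obtain ⟨M, hM, h1, h2, h3, h4⟩ : ∃ M : ℝ, 1 ≤ M ∧ ‖(l : E1 →L[ℂ] E)‖ ≤ M ∧
      ‖(l.symm : E →L[ℂ] E1)‖ ≤ M ∧ ‖(l' : E1' →L[ℂ] E')‖ ≤ M ∧
      ‖(l'.symm : E' →L[ℂ] E1')‖ ≤ M := by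
    refine ⟨1 + ‖(l : E1 →L[ℂ] E)‖ + ‖(l.symm : E →L[ℂ] E1)‖ + ‖(l' : E1' →L[ℂ] E')‖ +
      ‖(l'.symm : E' →L[ℂ] E1')‖, ?_, ?_, ?_, ?_, ?_⟩ <;>
    linarith [norm_nonneg (l : E1 →L[ℂ] E), norm_nonneg (l.symm : E →L[ℂ] E1),
      norm_nonneg (l' : E1' →L[ℂ] E'), norm_nonneg (l'.symm : E' →L[ℂ] E1')]
  obtain ⟨a1, a2, a3, a4⟩ := R0a_half h l l' hM h1 h2 h3 h4
  obtain ⟨b1, b2, b3, b4⟩ := R0a_half (coarse_symm h) l' l hM h3 h4 h1 h2
  refine ⟨M ^ 2 * L, ρ / M, ?_⟩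
  have hL := h.hL
  refine
    { hL := ?_
      hρ := div_pos h.hρ (by linarith)
      A0 := by simp [h.A0]
      B0 := by simp [h.B0]
      lipA := a1
      lipB := b1
      fA := a2
      gB := b2
      dA := a3
      dB := b3
      BA := a4
      AB := b4 }
  nlinarith [mul_le_mul hM hM (by norm_num) (by linarith)]

theorem iso_equiv {f : ℂ × ℂ → ℂ} (h : Iso f) (l : (ℂ × ℂ) ≃L[ℂ] (ℂ × ℂ)) :
    Iso (fun p => f (l p)) := by
  have hl : Tendsto l (𝓝[≠] (0 : ℂ × ℂ)) (𝓝[≠] (0 : ℂ × ℂ)) := by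
    apply tendsto_nhdsWithin_of_tendsto_nhds_of_eventually_within
    · have := l.continuous.tendsto 0
      rw [map_zero] at this
      exact this.mono_left nhdsWithin_le_nhds
    · filter_upwards [self_mem_nhdsWithin] with p hp h0
      have h1 : p ≠ 0 := hp
      have h2 : l p = 0 := h0
      exact h1 ((map_eq_zero_iff l l.injective).1 h2)
  have h1 : ∀ᶠ p in 𝓝[≠] (0 : ℂ × ℂ), fderiv ℂ f (l p) ≠ 0 := hl.eventually h
  refine h1.mono fun p hp h0 => hp ?_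
  have h2 := R0a_ge f l (le_refl _) p
  rw [h0, norm_zero, mul_zero] at h2
  exact norm_le_zero_iff.1 h2

theorem lipEquiv_of_equiv {E E' E1 E1' : Type*} [NormedAddCommGroup E] [NormedSpace ℂ E]
    [NormedAddCommGroup E'] [NormedSpace ℂ E'] [NormedAddCommGroup E1] [NormedSpace ℂ E1]
    [NormedAddCommGroup E1'] [NormedSpace ℂ E1'] {f : E → ℂ} {g : E' → ℂ}
    (l : E1 ≃L[ℂ] E) (l' : E1' ≃L[ℂ] E') (h : LipEquiv (fun p => f (l p)) (fun p => g (l' p))) :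
    LipEquiv f g := by
  obtain ⟨u, u', K, r, hr, hu0, hu0', hlip, hlip', hinv, hinv', hfg⟩ := h
  obtain ⟨M, hM, h1, h2, h3, h4⟩ : ∃ M : ℝ, 1 ≤ M ∧ ‖(l : E1 →L[ℂ] E)‖ ≤ M ∧
      ‖(l.symm : E →L[ℂ] E1)‖ ≤ M ∧ ‖(l' : E1' →L[ℂ] E')‖ ≤ M ∧
      ‖(l'.symm : E' →L[ℂ] E1')‖ ≤ M := by
    refine ⟨1 + ‖(l : E1 →L[ℂ] E)‖ + ‖(l.symm : E →L[ℂ] E1)‖ + ‖(l' : E1' →L[ℂ] E')‖ +
      ‖(l'.symm : E' →L[ℂ] E1')‖, ?_, ?_, ?_, ?_, ?_⟩ <;>
    linarith [norm_nonneg (l : E1 →L[ℂ] E), norm_nonneg (l.symm : E →L[ℂ] E1),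
      norm_nonneg (l' : E1' →L[ℂ] E'), norm_nonneg (l'.symm : E' →L[ℂ] E1')]
  have hls : Tendsto l.symm (𝓝 (0 : E)) (𝓝 (0 : E1)) := by
    have := l.symm.continuous.tendsto 0
    rwa [map_zero] at this
  have hls' : Tendsto l'.symm (𝓝 (0 : E')) (𝓝 (0 : E1')) := by
    have := l'.symm.continuous.tendsto 0
    rwa [map_zero] at this
  refine ⟨fun x => l' (u (l.symm x)), fun y => l (u' (l'.symm y)), M ^ 2 * |K|, r / M,
    div_pos hr (by linarith), by simp [hu0], by simp [hu0'], ?_, ?_, ?_, ?_, ?_⟩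
  · intro x hx y hy
    have e1 := hlip _ (R0a_ball l.symm hM h2 hx) _ (R0a_ball l.symm hM h2 hy)
    have e2 := R0a_app l' h3 (u (l.symm x) - u (l.symm y))
    have e3 := R0a_app l.symm h2 (x - y)
    rw [map_sub] at e2 e3
    calc ‖l' (u (l.symm x)) - l' (u (l.symm y))‖ ≤ M * ‖u (l.symm x) - u (l.symm y)‖ := e2
      _ ≤ M * (|K| * ‖l.symm x - l.symm y‖) := by
          refine mul_le_mul_of_nonneg_left (e1.trans ?_) (by linarith)
          exact mul_le_mul_of_nonneg_right (le_abs_self K) (norm_nonneg _)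
      _ ≤ M * (|K| * (M * ‖x - y‖)) := by
          refine mul_le_mul_of_nonneg_left (mul_le_mul_of_nonneg_left e3 (abs_nonneg _))
            (by linarith)
      _ = M ^ 2 * |K| * ‖x - y‖ := by ring
  · intro x hx y hy
    have e1 := hlip' _ (R0a_ball l'.symm hM h4 hx) _ (R0a_ball l'.symm hM h4 hy)
    have e2 := R0a_app l h1 (u' (l'.symm x) - u' (l'.symm y))
    have e3 := R0a_app l'.symm h4 (x - y)
    rw [map_sub] at e2 e3
    calc ‖l (u' (l'.symm x)) - l (u' (l'.symm y))‖ ≤ M * ‖u' (l'.symm x) - u' (l'.symm y)‖ := e2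
      _ ≤ M * (|K| * ‖l'.symm x - l'.symm y‖) := by
          refine mul_le_mul_of_nonneg_left (e1.trans ?_) (by linarith)
          exact mul_le_mul_of_nonneg_right (le_abs_self K) (norm_nonneg _)
      _ ≤ M * (|K| * (M * ‖x - y‖)) := by
          refine mul_le_mul_of_nonneg_left (mul_le_mul_of_nonneg_left e3 (abs_nonneg _))
            (by linarith)
      _ = M ^ 2 * |K| * ‖x - y‖ := by ring
  · refine (hls.eventually hinv).mono fun x hx => ?_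
    show l (u' (l'.symm (l' (u (l.symm x))))) = x
    rw [l'.symm_apply_apply, hx, l.apply_symm_apply]
  · refine (hls'.eventually hinv').mono fun y hy => ?_
    show l' (u (l.symm (l (u' (l'.symm y))))) = y
    rw [l.symm_apply_apply, hy, l'.apply_symm_apply]
  · refine (hls.eventually hfg).mono fun x hx => ?_
    have hx' : f (l (l.symm x)) = g (l' (u (l.symm x))) := hx
    rw [l.apply_symm_apply] at hx'
    exact hx'

end H24.LS
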