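import Pool.Agent.H24.LS.A0
import Pool.Agent.H24.LS.R0a

/-!
# A6a: one variable

* `one_form`: `f` is analytic at `0`, not identically `0` near `0` (isolated critical point), `f 0 = 0`, so `f x = x^a φ(x)`, `φ 0 ≠ 0`, `a ≥ 1`
  (`AnalyticAt.exists_eventuallyEq_pow_smul_nonzero_iff`), `a ≥ 3` as the first two derivatives vanish.  `h x = x s φ(x)^{1/a}`-like:
  `h x = x * s * (φ x/φ 0)^{1/a}`, `s^a = φ 0`, strictly differentiable at `0` with derivative `s ≠ 0`, `f x = (h x)^a`; so `f ~ x^a`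
  (`lip_of_strict`).  `f' x = x^(a-1) (a φ + x φ')`: `c1 ‖x‖^(a-1) ≤ ‖f' x‖ ≤ c2 ‖x‖^(a-1)` near `0`.
* `one_dim`: for `a, b` of `f, g`: `fderiv f` has small Lipschitz constant near `0` (it is analytic with derivative `0` at `0`), so
  `‖fderiv f x‖ ≤ ‖fderiv f (B (A x))‖ + ε ‖B (A x) - x‖ ≤ L ‖fderiv g (A x)‖ + ε L ‖fderiv f x‖`, `‖fderiv f x‖ ≤ 2 L ‖fderiv g (A x)‖`
  `≤ C ‖A x‖^(b-1) ≤ C' ‖x‖^(b-1)`, hence `a - 1 ≥ b - 1`.  Symmetric (`coarse_symm` in R0a/R0): `a = b`.  `f ~ x^a ~ g`.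
-/

open Filter Topology Metric

namespace H24.LS

/-- the factorisation `f x = x^a φ x` and its derivative -/
theorem A6a_factor (f : ℂ → ℂ) (hf : Grm f) (f2 : fderiv ℂ (fderiv ℂ f) 0 = 0) :
    ∃ (a : ℕ) (φ : ℂ → ℂ), 3 ≤ a ∧ AnalyticAt ℂ φ 0 ∧ φ 0 ≠ 0 ∧
      (∀ᶠ x in 𝓝 (0 : ℂ), f x = x ^ a * φ x) ∧
      (∀ᶠ x in 𝓝 (0 : ℂ), deriv f x = x ^ (a - 1) * (a * φ x + x * deriv φ x)) := by
  have hnz : ¬ ∀ᶠ x in 𝓝 (0 : ℂ), f x = 0 := by
    intro h0
    have h1 : ∀ᶠ x in 𝓝 (0 : ℂ), fderiv ℂ f x = 0 := by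
      filter_upwards [h0.eventually_nhds] with x hx
      have : f =ᶠ[𝓝 x] fun _ => (0 : ℂ) := hx
      rw [this.fderiv_eq]
      simp
    have h2 : ∀ᶠ x in 𝓝[≠] (0 : ℂ), False := by
      filter_upwards [hf.iso, h1.filter_mono nhdsWithin_le_nhds] with x hx hx'
      exact hx hx'
    exact (h2.exists).elim fun _ h => h
  obtain ⟨n, φ, hφ, hφ0, hfφ⟩ := hf.an.exists_eventuallyEq_pow_smul_nonzero_iff.mpr hnz
  have hfφ' : ∀ᶠ x in 𝓝 (0 : ℂ), f x = x ^ n * φ x := by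
    filter_upwards [hfφ] with x hx
    rw [hx]; simp
  have hn0 : n ≠ 0 := by
    rintro rfl
    have := hfφ'.self_of_nhds
    rw [hf.f0] at this
    simp at this
    first | exact hφ0 this | exact hφ0 this.symm
  have hder : ∀ᶠ x in 𝓝 (0 : ℂ), deriv f x = x ^ (n - 1) * (n * φ x + x * deriv φ x) := by
    filter_upwards [hfφ'.eventually_nhds, hφ.eventually_analyticAt] with x hx hφx
    have e : f =ᶠ[𝓝 x] fun x => x ^ n * φ x := hx
    rw [e.deriv_eq]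
    have h1 : HasDerivAt (fun x : ℂ => x ^ n * φ x)
        ((n : ℂ) * x ^ (n - 1) * φ x + x ^ n * deriv φ x) x :=
      (hasDerivAt_pow n x).mul hφx.differentiableAt.hasDerivAt
    rw [h1.deriv]
    obtain ⟨m, rfl⟩ := Nat.exists_eq_succ_of_ne_zero hn0
    simp only [Nat.succ_eq_add_one, Nat.add_sub_cancel]
    ring
  have hd0 : deriv f 0 = 0 := by
    have : deriv f 0 = fderiv ℂ f 0 1 := rfl
    rw [this, hf.f1]; rfl
  have hdd0 : deriv (deriv f) 0 = 0 := by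
    have hdiff : DifferentiableAt ℂ (fderiv ℂ f) 0 := hf.an.fderiv.differentiableAt
    have h1 : HasFDerivAt (fderiv ℂ f) (fderiv ℂ (fderiv ℂ f) 0) 0 := hdiff.hasFDerivAt
    rw [f2] at h1
    have h2 : HasFDerivAt (fun x => fderiv ℂ f x 1)
        ((ContinuousLinearMap.apply ℂ ℂ (1 : ℂ)).comp (0 : ℂ →L[ℂ] (ℂ →L[ℂ] ℂ))) 0 :=
      (ContinuousLinearMap.apply ℂ ℂ (1 : ℂ)).hasFDerivAt.comp (0 : ℂ) h1
    have h3 := h2.hasDerivAt
    have h4 : (fun x => fderiv ℂ f x 1) = deriv f := by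
      funext x; rfl
    rw [h4] at h3
    rw [h3.deriv]
    simp
  have hn1 : n ≠ 1 := by
    rintro rfl
    have := hder.self_of_nhds
    rw [hd0] at this
    simp at this
    first | exact hφ0 this | exact hφ0 this.symm
  have hn2 : n ≠ 2 := by
    rintro rfl
    have e : deriv f =ᶠ[𝓝 0] fun x => x * ((2 : ℂ) * φ x + x * deriv φ x) := by
      filter_upwards [hder] with x hx
      rw [hx]; norm_num
    have hdφ : DifferentiableAt ℂ (deriv φ) 0 := hφ.deriv.differentiableAt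
    have h1 : HasDerivAt (fun x : ℂ => x * ((2 : ℂ) * φ x + x * deriv φ x))
        (1 * ((2 : ℂ) * φ 0 + 0 * deriv φ 0) +
          0 * (2 * deriv φ 0 + (1 * deriv φ 0 + 0 * deriv (deriv φ) 0))) 0 := by
      have ha : HasDerivAt (fun x : ℂ => (2 : ℂ) * φ x) (2 * deriv φ 0) 0 :=
        hφ.differentiableAt.hasDerivAt.const_mul 2
      have hb : HasDerivAt (fun x : ℂ => x * deriv φ x)
          (1 * deriv φ 0 + 0 * deriv (deriv φ) 0) 0 :=
        (hasDerivAt_id (0 : ℂ)).mul hdφ.hasDerivAt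
      exact (hasDerivAt_id (0 : ℂ)).mul (ha.add hb)
    have h2 := e.deriv_eq
    rw [hdd0, h1.deriv] at h2
    simp at h2
    first | exact hφ0 h2 | exact hφ0 h2.symm
  exact ⟨n, φ, by omega, hφ, hφ0, hfφ', hder⟩

theorem one_form (f : ℂ → ℂ) (hf : Grm f) (f2 : fderiv ℂ (fderiv ℂ f) 0 = 0) :
    ∃ a : ℕ, 3 ≤ a ∧ LipEquiv f (fun x : ℂ => x ^ a) ∧
      ∃ c1 > (0 : ℝ), ∃ c2 > (0 : ℝ), ∀ᶠ x in 𝓝 (0 : ℂ),
        c1 * ‖x‖ ^ (a - 1) ≤ ‖fderiv ℂ f x‖ ∧ ‖fderiv ℂ f x‖ ≤ c2 * ‖x‖ ^ (a - 1) := by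
  obtain ⟨a, φ, ha, hφ, hφ0, hfφ, hder⟩ := A6a_factor f hf f2
  have ha0 : a ≠ 0 := by omega
  have haC : (a : ℂ) ≠ 0 := by exact_mod_cast ha0
  refine ⟨a, ha, ?_, ?_⟩
  · obtain ⟨s, hs⟩ : ∃ s : ℂ, s ^ a = φ 0 := IsAlgClosed.exists_pow_nat_eq (φ 0) (by omega)
    have hs0 : s ≠ 0 := by
      rintro rfl
      rw [zero_pow ha0] at hs
      exact hφ0 hs.symm
    set u : ℂ → ℂ := fun x => (φ x / φ 0) ^ ((a : ℂ)⁻¹) with hu
    have hu0 : u 0 = 1 := by
      simp only [hu]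
      rw [div_self hφ0, Complex.one_cpow]
    have huan : AnalyticAt ℂ u 0 := by
      have h1 : AnalyticAt ℂ (fun x => φ x / φ 0) 0 := hφ.div analyticAt_const hφ0
      refine h1.cpow analyticAt_const ?_
      rw [div_self hφ0]
      exact Complex.one_mem_slitPlane
    have hupow : ∀ x, u x ^ a = φ x / φ 0 := fun x => Complex.cpow_nat_inv_pow _ ha0
    have hstr : HasStrictDerivAt (fun x : ℂ => x * (s * u x)) (1 * (s * u 0) + 0 * (s * deriv u 0)) 0 := by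
      have h1 : HasStrictDerivAt u (deriv u 0) 0 := huan.hasStrictDerivAt
      exact (hasStrictDerivAt_id (0 : ℂ)).mul (h1.const_mul s)
    have hstr' : HasStrictDerivAt (fun x : ℂ => x * (s * u x)) s 0 := by
      convert hstr using 1
      rw [hu0]; ring
    let e : ℂ ≃L[ℂ] ℂ := ContinuousLinearEquiv.unitsEquivAut ℂ (Units.mk0 s hs0)
    let e' : ℂ ≃L[ℝ] ℂ := e.restrictScalars ℝ
    have hstr2 : HasStrictFDerivAt (fun x : ℂ => x * (s * u x)) (e' : ℂ →L[ℝ] ℂ) 0 := by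
      have h1 : HasStrictFDerivAt (fun x : ℂ => x * (s * u x)) (e : ℂ →L[ℂ] ℂ) 0 := by
        have h2 := hstr'.hasStrictFDerivAt
        have h3 : (e : ℂ →L[ℂ] ℂ) = ContinuousLinearMap.toSpanSingleton ℂ s := by
          ext
          simp [e]
        rw [h3]
        exact h2
      exact h1.restrictScalars ℝ
    refine lip_of_strict (fun x : ℂ => x * (s * u x)) e' hstr2 (by simp) f (fun x : ℂ => x ^ a) ?_
    filter_upwards [hfφ] with x hx
    rw [hx, mul_pow, mul_pow, hs, hupow]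
    field_simp
  · have hcont : ContinuousAt (fun x : ℂ => ‖(a : ℂ) * φ x + x * deriv φ x‖) 0 := by
      have h1 : ContinuousAt (deriv φ) 0 := hφ.deriv.continuousAt
      exact ((continuousAt_const.mul hφ.continuousAt).add (continuousAt_id.mul h1)).norm
    have hv : 0 < ‖(a : ℂ) * φ 0 + 0 * deriv φ 0‖ := by
      rw [zero_mul, add_zero]
      exact norm_pos_iff.mpr (mul_ne_zero haC hφ0)
    set v : ℝ := ‖(a : ℂ) * φ 0 + 0 * deriv φ 0‖ with hvdef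
    refine ⟨v / 2, by positivity, 2 * v, by positivity, ?_⟩
    have h1 : ∀ᶠ x in 𝓝 (0 : ℂ), v / 2 < ‖(a : ℂ) * φ x + x * deriv φ x‖ :=
      hcont.eventually (lt_mem_nhds (by simpa [hvdef] using half_lt_self hv))
    have h2 : ∀ᶠ x in 𝓝 (0 : ℂ), ‖(a : ℂ) * φ x + x * deriv φ x‖ < 2 * v :=
      hcont.eventually (gt_mem_nhds (by
        have : v < 2 * v := by linarith
        simpa [hvdef] using this))
    filter_upwards [hder, h1, h2] with x hx hx1 hx2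
    rw [← norm_deriv_eq_norm_fderiv, hx, norm_mul, norm_pow]
    have hp : 0 ≤ ‖x‖ ^ (a - 1) := by positivity
    constructor
    · rw [mul_comm]
      exact mul_le_mul_of_nonneg_left hx1.le hp
    · rw [mul_comm (2 * v)]
      exact mul_le_mul_of_nonneg_left hx2.le hp

/-- exponent comparison -/
theorem A6a_le (f g : ℂ → ℂ) (hf : Grm f) (f2 : fderiv ℂ (fderiv ℂ f) 0 = 0)
    {A B : ℂ → ℂ} {L ρ : ℝ} (h : Coarse f g A B L ρ) {a b : ℕ} (ha : 3 ≤ a) (hb : 3 ≤ b)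
    {c1 c2 : ℝ} (hc1 : 0 < c1) (hc2 : 0 < c2)
    (h1 : ∀ᶠ x in 𝓝 (0 : ℂ), c1 * ‖x‖ ^ (a - 1) ≤ ‖fderiv ℂ f x‖)
    (h2 : ∀ᶠ x in 𝓝 (0 : ℂ), ‖fderiv ℂ g x‖ ≤ c2 * ‖x‖ ^ (b - 1)) : b ≤ a := by
  by_contra hlt
  rw [not_le] at hlt
  have hL := h.hL
  have hL0 : 0 < L := lt_of_lt_of_le one_pos hL
  have hρ := h.hρ
  -- small Lipschitz constant
  have hstr : HasStrictFDerivAt (fderiv ℂ f) (0 : ℂ →L[ℂ] (ℂ →L[ℂ] ℂ)) 0 := by
    have := hf.an.fderiv.hasStrictFDerivAt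
    rwa [f2] at this
  have hε : (0 : NNReal) < ⟨1 / (2 * L), by positivity⟩ := by
    rw [← NNReal.coe_pos]
    show (0 : ℝ) < 1 / (2 * L)
    positivity
  have hlip : ∃ δ > (0 : ℝ), ∀ x ∈ ball (0 : ℂ) δ, ∀ y ∈ ball (0 : ℂ) δ,
      ‖fderiv ℂ f x - fderiv ℂ f y‖ ≤ 1 / (2 * L) * ‖x - y‖ := by
    obtain ⟨s, hs, hsl⟩ := hstr.approximates_deriv_on_nhds (c := ⟨1 / (2 * L), by positivity⟩) (Or.inr hε)
    obtain ⟨δ, hδ, hδs⟩ := Metric.mem_nhds_iff.mp hs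
    refine ⟨δ, hδ, fun x hx y hy => ?_⟩
    have := hsl x (hδs hx) y (hδs hy)
    rw [zero_apply, sub_zero] at this
    exact this
  obtain ⟨δ, hδ, hlip⟩ := hlip
  obtain ⟨r1, hr1, h1'⟩ := Metric.eventually_nhds_iff.mp h1
  obtain ⟨r2, hr2, h2'⟩ := Metric.eventually_nhds_iff.mp h2
  -- the inequality c1 ‖x‖^(a-1) ≤ C ‖x‖^(b-1)
  have key : ∀ x : ℂ, ‖x‖ < ρ → ‖x‖ < ρ / L → ‖x‖ < δ → ‖x‖ < δ / (L * L) → ‖x‖ < r1 →
      ‖x‖ < r2 / L → c1 * ‖x‖ ^ (a - 1) ≤ 2 * L * (c2 * (L * ‖x‖) ^ (b - 1)) := by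
    intro x x1 x2 x3 x4 x5 x6
    have mx : x ∈ ball (0 : ℂ) ρ := by simpa using x1
    have m0 : (0 : ℂ) ∈ ball (0 : ℂ) ρ := by simpa using hρ
    have hA : ‖A x‖ ≤ L * ‖x‖ := by
      have := h.lipA x mx 0 m0
      simpa [h.A0] using this
    have mA : A x ∈ ball (0 : ℂ) ρ := by
      rw [mem_ball_zero_iff]
      refine lt_of_le_of_lt hA ?_
      rw [lt_div_iff₀ hL0] at x2
      linarith
    have hB : ‖B (A x)‖ ≤ L * (L * ‖x‖) := by
      have := h.lipB (A x) mA 0 m0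
      simp only [h.B0, sub_zero] at this
      exact this.trans (mul_le_mul_of_nonneg_left hA hL0.le)
    have mB : B (A x) ∈ ball (0 : ℂ) δ := by
      rw [mem_ball_zero_iff]
      refine lt_of_le_of_lt hB ?_
      rw [lt_div_iff₀ (by positivity)] at x4
      nlinarith
    have mx' : x ∈ ball (0 : ℂ) δ := by simpa using x3
    have e1 := hlip x mx' (B (A x)) mB
    have e2 := h.BA x mx
    have e3 := h.dB (A x) mA
    have e4 : ‖fderiv ℂ f x‖ ≤ ‖fderiv ℂ f (B (A x))‖ + ‖fderiv ℂ f x - fderiv ℂ f (B (A x))‖ := by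
      have := norm_add_le (fderiv ℂ f (B (A x))) (fderiv ℂ f x - fderiv ℂ f (B (A x)))
      rwa [add_sub_cancel] at this
    have e5 : ‖x - B (A x)‖ ≤ L * ‖fderiv ℂ f x‖ := by
      rw [norm_sub_rev]; exact e2
    have e6 : 1 / (2 * L) * ‖x - B (A x)‖ ≤ ‖fderiv ℂ f x‖ / 2 := by
      calc 1 / (2 * L) * ‖x - B (A x)‖ ≤ 1 / (2 * L) * (L * ‖fderiv ℂ f x‖) :=
            mul_le_mul_of_nonneg_left e5 (by positivity)
        _ = ‖fderiv ℂ f x‖ / 2 := by field_simp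
    have e7 : ‖fderiv ℂ f x‖ ≤ 2 * (L * ‖fderiv ℂ g (A x)‖) := by linarith
    have e8 : ‖fderiv ℂ g (A x)‖ ≤ c2 * ‖A x‖ ^ (b - 1) := by
      apply h2'
      rw [dist_zero_right]
      refine lt_of_le_of_lt hA ?_
      rw [lt_div_iff₀ hL0] at x6
      linarith
    have e9 : ‖A x‖ ^ (b - 1) ≤ (L * ‖x‖) ^ (b - 1) :=
      pow_le_pow_left₀ (norm_nonneg _) hA _
    have e10 : c1 * ‖x‖ ^ (a - 1) ≤ ‖fderiv ℂ f x‖ := h1' (by rw [dist_zero_right]; exact x5)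
    calc c1 * ‖x‖ ^ (a - 1) ≤ ‖fderiv ℂ f x‖ := e10
      _ ≤ 2 * (L * ‖fderiv ℂ g (A x)‖) := e7
      _ ≤ 2 * (L * (c2 * (L * ‖x‖) ^ (b - 1))) := by
        have := mul_le_mul_of_nonneg_left e9 hc2.le
        have := e8.trans this
        gcongr
      _ = _ := by ring
  set D : ℝ := 2 * L * (c2 * L ^ (b - 1)) with hD
  have hDpos : 0 < D := by positivity
  -- pick a small real x
  set t : ℝ := min (min (min (ρ / 2) (ρ / L / 2)) (min (δ / 2) (δ / (L * L) / 2)))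
      (min (min (r1 / 2) (r2 / L / 2)) (min (1 / 2) (c1 / D / 2))) with ht
  have htpos : 0 < t := by
    rw [ht]
    refine lt_min (lt_min (lt_min ?_ ?_) (lt_min ?_ ?_)) (lt_min (lt_min ?_ ?_) (lt_min ?_ ?_)) <;>
      positivity
  have t1 : t ≤ ρ / 2 := by
    rw [ht]; exact (min_le_left _ _).trans ((min_le_left _ _).trans (min_le_left _ _))
  have t2 : t ≤ ρ / L / 2 := by
    rw [ht]; exact (min_le_left _ _).trans ((min_le_left _ _).trans (min_le_right _ _))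
  have t3 : t ≤ δ / 2 := by
    rw [ht]; exact (min_le_left _ _).trans ((min_le_right _ _).trans (min_le_left _ _))
  have t4 : t ≤ δ / (L * L) / 2 := by
    rw [ht]; exact (min_le_left _ _).trans ((min_le_right _ _).trans (min_le_right _ _))
  have t5 : t ≤ r1 / 2 := by
    rw [ht]; exact (min_le_right _ _).trans ((min_le_left _ _).trans (min_le_left _ _))
  have t6 : t ≤ r2 / L / 2 := by
    rw [ht]; exact (min_le_right _ _).trans ((min_le_left _ _).trans (min_le_right _ _))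
  have t7 : t ≤ 1 / 2 := by
    rw [ht]; exact (min_le_right _ _).trans ((min_le_right _ _).trans (min_le_left _ _))
  have t8 : t ≤ c1 / D / 2 := by
    rw [ht]; exact (min_le_right _ _).trans ((min_le_right _ _).trans (min_le_right _ _))
  have p2 : 0 < ρ / L := by positivity
  have p4 : 0 < δ / (L * L) := by positivity
  have p6 : 0 < r2 / L := by positivity
  have p8 : 0 < c1 / D := by positivity
  have hk := key (t : ℂ)
  have hnt : ‖(t : ℂ)‖ = t := by simp [abs_of_pos htpos]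
  rw [hnt] at hk
  have hk' := hk (by linarith) (by linarith) (by linarith) (by linarith) (by linarith) (by linarith)
  have e1 : 2 * L * (c2 * (L * t) ^ (b - 1)) = D * t ^ (b - 1) := by
    rw [hD, mul_pow]; ring
  rw [e1] at hk'
  obtain ⟨k, hkk⟩ : ∃ k, b - 1 = (a - 1) + (k + 1) := ⟨b - a - 1, by omega⟩
  rw [hkk, pow_add] at hk'
  have hpa : 0 < t ^ (a - 1) := by positivity
  have e2 : c1 ≤ D * t ^ (k + 1) := by
    have : c1 * t ^ (a - 1) ≤ (D * t ^ (k + 1)) * t ^ (a - 1) := by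
      calc _ ≤ _ := hk'
        _ = _ := by ring
    exact le_of_mul_le_mul_right this hpa
  have e3 : t ^ (k + 1) ≤ t := by
    calc t ^ (k + 1) ≤ t ^ 1 := pow_le_pow_of_le_one htpos.le (by linarith) (by omega)
      _ = t := pow_one t
  have e4 : D * t ^ (k + 1) ≤ D * (c1 / D / 2) := by
    exact mul_le_mul_of_nonneg_left (e3.trans t8) hDpos.le
  have e5 : D * (c1 / D / 2) = c1 / 2 := by field_simp
  linarith

theorem one_dim (f g : ℂ → ℂ) (hf : Grm f) (hg : Grm g) (f2 : fderiv ℂ (fderiv ℂ f) 0 = 0)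
    (g2 : fderiv ℂ (fderiv ℂ g) 0 = 0) {A B : ℂ → ℂ} {L ρ : ℝ} (h : Coarse f g A B L ρ) :
    LipEquiv f g := by
  obtain ⟨a, ha, hfa, c1, hc1, c2, hc2, hfc⟩ := one_form f hf f2
  obtain ⟨b, hb, hgb, d1, hd1, d2, hd2, hgc⟩ := one_form g hg g2
  have h' : Coarse g f B A L ρ :=
    { hL := h.hL, hρ := h.hρ, A0 := h.B0, B0 := h.A0, lipA := h.lipB, lipB := h.lipA, fA := h.gB,
      gB := h.fA, dA := h.dB, dB := h.dA, BA := h.AB, AB := h.BA }
  have hba : b ≤ a := A6a_le f g hf f2 h ha hb hc1 hd2 (hfc.mono fun x hx => hx.1)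
    (hgc.mono fun x hx => hx.2)
  have hab : a ≤ b := A6a_le g f hg g2 h' hb ha hd1 hc2 (hgc.mono fun x hx => hx.1)
    (hfc.mono fun x hx => hx.2)
  have : a = b := le_antisymm hab hba
  subst this
  exact lip_trans hfa (lip_symm hgb)

end H24.LS
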