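import Pool.Agent.H24.LS.A0
import Pool.Agent.H24.LS.A1
import Pool.Agent.H24.LS.A3
import Pool.Agent.H24.LS.A5
import Pool.Agent.H24.LS.A5a
import Pool.Agent.H24.LS.A6a
import Pool.Agent.H24.LS.R0a

/-!
# A7: reduction of the theorem to the planar case (assembly; proved here)
-/

open Filter Topology Metric

namespace H24.LS

/-- the planar theorem (interface I1) -/
def PlanarStmt : Prop := ∀ (f g : ℂ × ℂ → ℂ), Grm f → Grm g →
  fderiv ℂ (fderiv ℂ f) 0 = 0 → fderiv ℂ (fderiv ℂ g) 0 = 0 →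
  ∀ (A B : ℂ × ℂ → ℂ × ℂ) (L ρ : ℝ), Coarse f g A B L ρ → LipEquiv f g

theorem hess_zero_comp {E E' : Type*} [NormedAddCommGroup E] [NormedSpace ℂ E]
    [FiniteDimensional ℂ E] [NormedAddCommGroup E'] [NormedSpace ℂ E'] [FiniteDimensional ℂ E']
    (f : E' → ℂ) (hf : AnalyticAt ℂ f 0) (e : E ≃L[ℂ] E') (h : fderiv ℂ (fderiv ℂ f) 0 = 0) :
    fderiv ℂ (fderiv ℂ (fun x => f (e x))) 0 = 0 := by
  ext u v
  rw [hess_comp f hf e u v, h]
  simp

theorem low_dim (hPM : PlanarStmt) (c : ℕ) (hc : c ≤ 2) (f g : (Fin c → ℂ) → ℂ) (hf : Grm f)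
    (hg : Grm g) (f2 : fderiv ℂ (fderiv ℂ f) 0 = 0) (g2 : fderiv ℂ (fderiv ℂ g) 0 = 0)
    {A B : (Fin c → ℂ) → (Fin c → ℂ)} {L ρ : ℝ} (h : Coarse f g A B L ρ) : LipEquiv f g := by
  obtain hc | hc | hc : c = 0 ∨ c = 1 ∨ c = 2 := by omega
  · subst hc
    refine lip_congr (Eventually.of_forall fun x => ?_)
    have hx : x = 0 := Subsingleton.elim _ _
    rw [hx, hf.f0, hg.f0]
  · subst hc
    let e : ℂ ≃L[ℂ] (Fin 1 → ℂ) := (ContinuousLinearEquiv.funUnique (Fin 1) ℂ ℂ).symm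
    obtain ⟨L', ρ', h'⟩ := coarse_equiv h e e
    exact lipEquiv_of_equiv e e (one_dim _ _ (grm_comp f hf e).1 (grm_comp g hg e).1
      (hess_zero_comp f hf.an e f2) (hess_zero_comp g hg.an e g2) h')
  · subst hc
    let e : (ℂ × ℂ) ≃L[ℂ] (Fin 2 → ℂ) := (ContinuousLinearEquiv.finTwoArrow ℂ ℂ).symm
    obtain ⟨L', ρ', h'⟩ := coarse_equiv h e e
    exact lipEquiv_of_equiv e e (hPM _ _ (grm_comp f hf e).1 (grm_comp g hg e).1
      (hess_zero_comp f hf.an e f2) (hess_zero_comp g hg.an e g2) _ _ _ _ h')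

theorem main_of (hPM : PlanarStmt) (n m : ℕ) (f g : (Fin n → ℂ) → ℂ) (hf : Grm f) (hg : Grm g)
    (hcor : crk f ≤ 2) (h : LipEquiv (stb m f) (stb m g)) : LipEquiv f g := by
  obtain ⟨c, d, f1, hcd, hc, gf1, f12, ef⟩ := split_full n f hf
  obtain ⟨c', d', g1, hcd', hc', gg1, g12, eg⟩ := split_full n g hg
  have h1 : LipEquiv (stb (d + m) f1) (stb (d' + m) g1) := by
    have a1 := lip_trans (lip_stb ef m) (lip_stb_stb f1 d m)
    have a2 := lip_trans (lip_stb eg m) (lip_stb_stb g1 d' m)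
    exact lip_trans (lip_symm a1) (lip_trans h a2)
  obtain ⟨A, B, L, ρ, hco⟩ := coarse_of_stable f1 g1 gf1.an gg1.an _ _ h1
  have hcc := corank_eq f1 g1 gf1.an gg1.an gf1.f1 gg1.f1 f12 g12 hco
  subst hcc
  obtain rfl : d = d' := by omega
  have h2 : LipEquiv f1 g1 := low_dim hPM c (by omega) f1 g1 gf1 gg1 f12 g12 hco
  exact lip_trans ef (lip_trans (lip_stb h2 d) (lip_symm eg))

end H24.LS
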