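import Pool.Agent.H24.LS.R0

/-!
# R9b: factorisation of a binary form

* `binary_form`.  Let `v1` with `M (fun _ => v1) ≠ 0` (`v1 ≠ 0` since `k ≥ 1`), `v2` linearly independent of `v1` (`(1,0)` or `(0,1)`), `l (x, y) = x v1 + y v2`
  (a linear equivalence).  `MultilinearMap.map_add_univ` and `map_smul_univ` (or `map_piecewise_smul`):
  `M (fun _ => x v1 + y v2) = Σ_{s ⊆ Fin k} x^{#s} y^{k - #s} M (s.piecewise v1 v2)`.  Let `Q ∈ ℂ[T]`, `Q = Σ_s C (M (s.piecewise v1 v2)) T^{#s}`; its degree is
  `k` and its leading coefficient is `c = M (fun _ => v1) ≠ 0` (only `s = univ` has `#s = k`).  `Q` splits: `Q = c ∏_{a ∈ roots} (T - a)`,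
  `card roots = k` (`IsAlgClosed.splits`, `Polynomial.Splits.eq_prod_roots`).  Let `r` be the number of distinct roots, `X : Fin r → ℂ` an enumeration of
  `Q.roots.toFinset` (`Finset.equivFin`), `κ j = Q.roots.count (X j)`; `Q(T) = c ∏_j (T - X j)^κ j` (`Finset.prod_multiset_map_count`), `Σ κ = k`
  (`Multiset.toFinset_sum_count_eq`).  For `y ≠ 0`: `M (l (x,y)) = y^k Q(x/y) = c ∏ (x - X j y)^κ j`; for `y = 0`: `x^k c`
  (both sides are polynomial in `y`; or directly).  `r > 0` since `k ≥ 1`.
-/

open Filter Topology Metric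

namespace H24.LS

theorem R9b_exp {k : ℕ} (M : ContinuousMultilinearMap ℂ (fun _ : Fin k => ℂ × ℂ) ℂ)
    (v1 v2 : ℂ × ℂ) (x y : ℂ) :
    M (fun _ => x • v1 + y • v2) = ∑ s : Finset (Fin k), x ^ s.card * y ^ (k - s.card) *
      M (s.piecewise (fun _ => v1) (fun _ => v2)) := by
  have h := M.map_add_univ (fun _ => x • v1) (fun _ => y • v2)
  have h0 : ((fun _ : Fin k => x • v1) + fun _ => y • v2) = fun _ => x • v1 + y • v2 := rfl
  rw [h0] at h
  rw [h]
  refine Finset.sum_congr rfl fun s _ => ?_
  have h1 : s.piecewise (fun _ : Fin k => x • v1) (fun _ => y • v2) =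
      fun i => (if i ∈ s then x else y) • (s.piecewise (fun _ => v1) (fun _ => v2) : Fin k → ℂ × ℂ) i := by
    funext i
    by_cases hi : i ∈ s <;> simp [Finset.piecewise, hi]
  rw [h1, M.map_smul_univ, smul_eq_mul]
  congr 1
  rw [Finset.prod_ite, Finset.prod_const, Finset.prod_const]
  have h2 : (Finset.univ.filter fun i => i ∈ s) = s := by ext; simp
  have h3 : (Finset.univ.filter fun i => i ∉ s).card = k - s.card := by
    have : (Finset.univ.filter fun i => i ∉ s) = sᶜ := by ext; simp
    rw [this, Finset.card_compl, Fintype.card_fin]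
  rw [h2, h3]

theorem binary_form {k : ℕ} (hk : 1 ≤ k)
    (M : ContinuousMultilinearMap ℂ (fun _ : Fin k => ℂ × ℂ) ℂ) (hM : ∃ v, M (fun _ => v) ≠ 0) :
    ∃ (l : (ℂ × ℂ) ≃L[ℂ] (ℂ × ℂ)) (r : ℕ) (κ : Fin r → ℕ) (c : ℂ) (X : Fin r → ℂ),
      0 < r ∧ c ≠ 0 ∧ Function.Injective X ∧ (∀ j, 1 ≤ κ j) ∧ ∑ j, κ j = k ∧
        ∀ p, M (fun _ => l p) = form κ c X p := by
  obtain ⟨v1, hv1⟩ := hM
  have hv0 : v1 ≠ 0 := by
    rintro rfl
    exact hv1 (M.map_coord_zero (⟨0, hk⟩ : Fin k) rfl)
  set D : ℂ := v1.1 * (starRingEnd ℂ) v1.1 + v1.2 * (starRingEnd ℂ) v1.2 with hD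
  have hD0 : D ≠ 0 := by
    intro h
    rw [hD, Complex.mul_conj, Complex.mul_conj, ← Complex.ofReal_add, Complex.ofReal_eq_zero] at h
    have h1 := Complex.normSq_nonneg v1.1
    have h2 := Complex.normSq_nonneg v1.2
    have h3 : Complex.normSq v1.1 = 0 := by linarith
    have h4 : Complex.normSq v1.2 = 0 := by linarith
    exact hv0 (Prod.ext (Complex.normSq_eq_zero.1 h3) (Complex.normSq_eq_zero.1 h4))
  set v2 : ℂ × ℂ := (-(starRingEnd ℂ) v1.2, (starRingEnd ℂ) v1.1) with hv2
  let l0 : (ℂ × ℂ) ≃ₗ[ℂ] (ℂ × ℂ) :=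
    { toFun := fun p => p.1 • v1 + p.2 • v2
      invFun := fun q => (((starRingEnd ℂ) v1.1 * q.1 + (starRingEnd ℂ) v1.2 * q.2) / D,
        (v1.1 * q.2 - v1.2 * q.1) / D)
      map_add' := fun p q => by
        simp only [Prod.fst_add, Prod.snd_add, add_smul]
        abel
      map_smul' := fun t p => by
        simp only [Prod.smul_fst, Prod.smul_snd, smul_add, smul_smul, smul_eq_mul, RingHom.id_apply]
      left_inv := fun p => by
        ext
        · simp only [Prod.fst_add, Prod.snd_add, Prod.smul_fst, Prod.smul_snd, smul_eq_mul, hv2]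
          rw [div_eq_iff hD0, hD]
          ring
        · simp only [Prod.fst_add, Prod.snd_add, Prod.smul_fst, Prod.smul_snd, smul_eq_mul, hv2]
          rw [div_eq_iff hD0, hD]
          ring
      right_inv := fun q => by
        ext
        · simp only [Prod.fst_add, Prod.smul_fst, smul_eq_mul, hv2]
          rw [div_mul_eq_mul_div, div_mul_eq_mul_div, ← add_div, div_eq_iff hD0, hD]
          ring
        · simp only [Prod.snd_add, Prod.smul_snd, smul_eq_mul, hv2]
          rw [div_mul_eq_mul_div, div_mul_eq_mul_div, ← add_div, div_eq_iff hD0, hD]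
          ring }
  set c : ℂ := M (fun _ => v1) with hc
  set m : Finset (Fin k) → ℂ := fun s => M (s.piecewise (fun _ => v1) (fun _ => v2)) with hm
  have hmu : m Finset.univ = c := by
    rw [hm, hc]
    simp only [Finset.piecewise_univ]
  set Q : Polynomial ℂ := ∑ s : Finset (Fin k), Polynomial.C (m s) * Polynomial.X ^ s.card with hQ
  have hcard : ∀ s : Finset (Fin k), s.card ≤ k := fun s => by
    simpa using Finset.card_le_univ s
  have hcu : ∀ s : Finset (Fin k), s.card = k → s = Finset.univ := fun s hs => by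
    rw [← Finset.card_eq_iff_eq_univ, hs, Fintype.card_fin]
  have hQd : Q.natDegree ≤ k := by
    refine Polynomial.natDegree_sum_le_of_forall_le _ _ fun s _ => ?_
    exact (Polynomial.natDegree_C_mul_X_pow_le _ _).trans (hcard s)
  have hQc : Q.coeff k = c := by
    rw [hQ, Polynomial.finsetSum_coeff]
    rw [Finset.sum_eq_single Finset.univ]
    · rw [Polynomial.coeff_C_mul_X_pow, if_pos (by simp), hmu]
    · intro s _ hs
      rw [Polynomial.coeff_C_mul_X_pow, if_neg]
      intro h
      exact hs (hcu s h.symm)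
    · intro h
      exact absurd (Finset.mem_univ _) h
  have hQn : Q.natDegree = k := by
    refine le_antisymm hQd (Polynomial.le_natDegree_of_ne_zero ?_)
    rw [hQc]
    exact hv1
  have hQl : Q.leadingCoeff = c := by rw [Polynomial.leadingCoeff, hQn, hQc]
  have hQ0 : Q ≠ 0 := by
    intro h
    rw [h, Polynomial.coeff_zero] at hQc
    exact hv1 hQc.symm
  have hsplit : Q.Splits := IsAlgClosed.splits Q
  have hprod := hsplit.eq_prod_roots
  have hrc : Q.roots.card = k := by rw [← hsplit.natDegree_eq_card_roots, hQn]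
  set S := Q.roots.toFinset with hS
  set e : S ≃ Fin S.card := S.equivFin with he
  set Y : Fin S.card → ℂ := fun j => (e.symm j : ℂ) with hY
  have hsumS : ∀ F : ℂ → ℕ, ∑ j, F (Y j) = ∑ a ∈ S, F a := by
    intro F
    rw [← Finset.sum_coe_sort S F]
    exact Equiv.sum_comp e.symm (fun a : S => F a)
  have hprodS : ∀ F : ℂ → ℂ, ∏ j, F (Y j) = ∏ a ∈ S, F a := by
    intro F
    rw [← Finset.prod_coe_sort S F]
    exact Equiv.prod_comp e.symm (fun a : S => F a)
  have hkap : ∑ j, Q.roots.count (Y j) = k := by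
    rw [hsumS (fun a => Q.roots.count a), hS, Multiset.toFinset_sum_count_eq, hrc]
  have heval : ∀ T : ℂ, Q.eval T = c * ∏ j, (T - Y j) ^ Q.roots.count (Y j) := by
    intro T
    rw [hprodS (fun a => (T - a) ^ Q.roots.count a), hS]
    conv_lhs => rw [hprod]
    rw [Polynomial.eval_mul, Polynomial.eval_C, hQl, Polynomial.eval_multiset_prod,
      Multiset.map_map, Finset.prod_multiset_map_count]
    simp
  have hevalsum : ∀ T : ℂ, Q.eval T = ∑ s : Finset (Fin k), m s * T ^ s.card := by
    intro T
    rw [hQ, Polynomial.eval_finsetSum]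
    simp
  refine ⟨l0.toContinuousLinearEquiv, S.card, fun j => Q.roots.count (Y j), c, Y, ?_, hv1, ?_, ?_,
    hkap, ?_⟩
  · by_contra h
    have h0 : S.card = 0 := by omega
    have h1 : ∑ j, Q.roots.count (Y j) = 0 := by
      rw [hsumS (fun a => Q.roots.count a), Finset.card_eq_zero.1 h0, Finset.sum_empty]
    omega
  · intro i j hij
    exact e.symm.injective (Subtype.ext hij)
  · intro j
    have h1 : Y j ∈ Q.roots := Multiset.mem_toFinset.1 (e.symm j).2
    exact Multiset.one_le_count_iff_mem.2 h1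
  · rintro ⟨x, y⟩
    have h1 : M (fun _ => l0.toContinuousLinearEquiv (x, y)) =
        ∑ s : Finset (Fin k), x ^ s.card * y ^ (k - s.card) * m s := R9b_exp M v1 v2 x y
    rw [h1]
    unfold form
    simp only
    by_cases hy : y = 0
    · subst hy
      rw [Finset.sum_eq_single Finset.univ]
      · rw [hmu, Finset.card_univ, Fintype.card_fin, Nat.sub_self, pow_zero, mul_one]
        have h2 : ∏ j, (x - Y j * 0) ^ Q.roots.count (Y j) = x ^ k := by
          simp only [mul_zero, sub_zero]
          rw [Finset.prod_pow_eq_pow_sum, hkap]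
        rw [h2, mul_comm]
      · intro s _ hs
        have h2 : k - s.card ≠ 0 := by
          intro h
          exact hs (hcu s (le_antisymm (hcard s) (by omega)))
        rw [zero_pow h2, mul_zero, zero_mul]
      · intro h
        exact absurd (Finset.mem_univ _) h
    · have h2 : ∑ s : Finset (Fin k), x ^ s.card * y ^ (k - s.card) * m s =
          y ^ k * Q.eval (x / y) := by
        rw [hevalsum, Finset.mul_sum]
        refine Finset.sum_congr rfl fun s _ => ?_
        have h3 : y ^ k = y ^ (k - s.card) * y ^ s.card := by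
          rw [← pow_add, Nat.sub_add_cancel (hcard s)]
        have h5 : y ^ s.card * (x ^ s.card / y ^ s.card) = x ^ s.card :=
          mul_div_cancel₀ _ (pow_ne_zero _ hy)
        rw [h3, div_pow]
        calc x ^ s.card * y ^ (k - s.card) * m s
            = m s * y ^ (k - s.card) * (y ^ s.card * (x ^ s.card / y ^ s.card)) := by
              rw [h5]; ring
          _ = _ := by ring
      rw [h2, heval]
      have h4 : y ^ k = ∏ j, y ^ Q.roots.count (Y j) := by
        rw [Finset.prod_pow_eq_pow_sum, hkap]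
      rw [mul_left_comm, h4, ← Finset.prod_mul_distrib]
      congr 1
      refine Finset.prod_congr rfl fun j _ => ?_
      rw [← mul_pow]
      congr 1
      rw [mul_sub, mul_div_cancel₀ x hy, mul_comm y]

end H24.LS
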