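import Pool.Agent.H24.LS.R9a
import Pool.Agent.H24.LS.R9b

/-!
# R9: existence of the normal form

* `nform_exists`: `Iso f` implies `f` is not eventually `0` (`𝓝[≠] 0` is not `⊥` in `ℂ × ℂ`; the derivative of an eventually zero function is
  eventually zero).  `princ_part`, `princ_order`, `binary_form`; then
  `‖f (l p) - form κ c X p‖ = ‖f (l p) - M (fun _ => l p)‖ ≤ C ‖l p‖^(k+1) ≤ C ‖l‖^(k+1) ‖p‖^(k+1)`; `f ∘ l` is analytic.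
-/

open Filter Topology Metric

namespace H24.LS

theorem nform_exists {f : ℂ × ℂ → ℂ} (hf : AnalyticAt ℂ f 0) (f0 : f 0 = 0)
    (f1 : fderiv ℂ f 0 = 0) (f2 : fderiv ℂ (fderiv ℂ f) 0 = 0) (isoF : Iso f) :
    ∃ (l : (ℂ × ℂ) ≃L[ℂ] (ℂ × ℂ)) (r : ℕ) (κ : Fin r → ℕ) (c : ℂ) (X : Fin r → ℂ),
      NForm κ c X (fun p => f (l p)) ∧ 3 ≤ ∑ j, κ j := by
  have hne : ¬ ∀ᶠ p in 𝓝 (0 : ℂ × ℂ), f p = 0 := by
    intro h
    have h1 : ∀ᶠ p in 𝓝 (0 : ℂ × ℂ), fderiv ℂ f p = 0 := by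
      filter_upwards [h.eventually_nhds] with p hp
      have h2 : f =ᶠ[𝓝 p] fun _ => (0 : ℂ) := hp
      rw [h2.fderiv_eq]
      simp
    have h2 : ∀ᶠ p in 𝓝[≠] (0 : ℂ × ℂ), fderiv ℂ f p = 0 := h1.filter_mono nhdsWithin_le_nhds
    have h3 : (𝓝[≠] (0 : ℂ × ℂ)).NeBot := Module.punctured_nhds_neBot ℂ (ℂ × ℂ) 0
    obtain ⟨p, hp1, hp2⟩ := (h2.and isoF).exists
    exact hp2 hp1
  obtain ⟨k, M, hM, hb⟩ := princ_part hf hne
  have hk := princ_order hf f0 f1 f2 M hM hb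
  obtain ⟨C, hC, δ, hδ, hb⟩ := hb
  obtain ⟨l, r, κ, c, X, hr, hc, hX, hκ, hsum, hform⟩ := binary_form (by omega) M hM
  refine ⟨l, r, κ, c, X, ⟨?_, hr, hc, hX, hκ, ?_⟩, by omega⟩
  · have h1 : AnalyticAt ℂ f (l 0) := by rw [map_zero]; exact hf
    exact h1.fun_comp ((l : (ℂ × ℂ) →L[ℂ] (ℂ × ℂ)).analyticAt 0)
  · set L : ℝ := ‖(l : (ℂ × ℂ) →L[ℂ] (ℂ × ℂ))‖ + 1 with hL
    have hL0 : 0 < L := by positivity
    refine ⟨C * L ^ (k + 1), by positivity, δ / L, by positivity, fun p hp => ?_⟩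
    have h1 : ‖l p‖ ≤ L * ‖p‖ := by
      have h2 := (l : (ℂ × ℂ) →L[ℂ] (ℂ × ℂ)).le_opNorm p
      have h3 : ‖(l : (ℂ × ℂ) →L[ℂ] (ℂ × ℂ))‖ * ‖p‖ ≤ L * ‖p‖ :=
        mul_le_mul_of_nonneg_right (by linarith) (norm_nonneg _)
      exact h2.trans h3
    have h4 : ‖l p‖ < δ := by
      rw [lt_div_iff₀ hL0] at hp
      linarith
    have h5 := hb (l p) h4
    rw [hform p] at h5
    refine h5.trans ?_
    rw [hsum, mul_assoc, ← mul_pow]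
    exact mul_le_mul_of_nonneg_left (pow_le_pow_left₀ (norm_nonneg _) h1 _) hC.le

end H24.LS
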