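import Pool.Agent.H24.LS.Base

/-!
# Z8: a bi-Lipschitz map that is `C^1` off the origin is a homeomorphism germ

At `p ≠ 0` the derivative of `H` is injective (`‖DH w‖ ≥ κ0‖w‖` from the lower bound), hence invertible (finite dimension),
so `H` is open at `p` (`HasStrictFDerivAt.map_nhds_eq_of_equiv` or the inverse function theorem).
Let `V = {q | 0 < ‖q‖ < κ0 ρ/2}`.  `I = V ∩ H '' (ball 0 ρ \ {0})` is open; it is closed in `V`: if `H p_n → q ∈ V` then
`‖p_n‖ ≤ ‖H p_n‖/κ0`, `(p_n)` is Cauchy (lower bound), `p_n → p`, `‖p‖ ≤ ρ/2`, `p ≠ 0` as `q ≠ 0`, `H p = q`.  It is nonempty (`H p`, `p` small).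
`V` is preconnected: the image of the connected set `{0}ᶜ` (`isConnected_compl_singleton_of_one_lt_rank`, real rank of `ℂ × ℂ` is
`4`) under the continuous map `q ↦ (r/(1 + ‖q‖)) • q`, `r = κ0 ρ/2`, which maps onto `V`.  So `V ⊆ H '' (ball 0 ρ)`.
`H'` = inverse on `ball 0 r` (`Function.invFunOn`), `H' 0 = 0`, `κ0⁻¹`-Lipschitz there; `H' (H p) = p` for `p` near `0` by injectivity.
-/

open Filter Topology Metric Asymptotics

namespace H24.LS

private theorem Z8_annulus {r : ℝ} (hr : 0 < r) :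
    IsPreconnected {q : ℂ × ℂ | 0 < ‖q‖ ∧ ‖q‖ < r} := by
  have hrank : 1 < Module.rank ℝ (ℂ × ℂ) := by
    rw [← Module.finrank_eq_rank]
    have : Module.finrank ℝ (ℂ × ℂ) = 4 := by
      rw [Module.finrank_prod, Complex.finrank_real_complex]
    rw [this]
    norm_num
  have hconn := isConnected_compl_singleton_of_one_lt_rank hrank (0 : ℂ × ℂ)
  have hcont : Continuous (fun q : ℂ × ℂ => (r / (1 + ‖q‖)) • q) := by
    refine Continuous.smul (Continuous.div continuous_const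
      (continuous_const.add continuous_norm) fun q => ?_) continuous_id
    have := norm_nonneg q
    exact (by linarith : (0 : ℝ) < 1 + ‖q‖).ne'
  have him : (fun q : ℂ × ℂ => (r / (1 + ‖q‖)) • q) '' {0}ᶜ =
      {q : ℂ × ℂ | 0 < ‖q‖ ∧ ‖q‖ < r} := by
    ext v
    constructor
    · rintro ⟨q, hq, rfl⟩
      have hq' : 0 < ‖q‖ := norm_pos_iff.2 hq
      have h1 : 0 < 1 + ‖q‖ := by linarith
      simp only [Set.mem_ofPred_eq, norm_smul, Real.norm_eq_abs, abs_of_pos (div_pos hr h1)]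
      refine ⟨by positivity, ?_⟩
      rw [div_mul_eq_mul_div, div_lt_iff₀ h1]
      nlinarith
    · rintro ⟨h1, h2⟩
      have h3 : 0 < r - ‖v‖ := by linarith
      refine ⟨(r - ‖v‖)⁻¹ • v, ?_, ?_⟩
      · simp only [Set.mem_compl_iff, Set.mem_singleton_iff]
        exact smul_ne_zero (inv_ne_zero h3.ne') (norm_pos_iff.1 h1)
      · simp only [norm_smul, norm_inv, Real.norm_eq_abs, abs_of_pos h3]
        rw [smul_smul]
        have : r / (1 + (r - ‖v‖)⁻¹ * ‖v‖) * (r - ‖v‖)⁻¹ = 1 := by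
          have h4 : 1 + (r - ‖v‖)⁻¹ * ‖v‖ = r / (r - ‖v‖) := by
            field_simp
            ring
          rw [h4]
          field_simp
        rw [this, one_smul]
  rw [← him]
  exact hconn.isPreconnected.image _ hcont.continuousOn

theorem lip_inverse (f g : ℂ × ℂ → ℂ) (H : ℂ × ℂ → ℂ × ℂ) (ρ κ0 L0 : ℝ) (hρ : 0 < ρ)
    (hκ : 0 < κ0) (hL : 0 < L0) (H0 : H 0 = 0)
    (hd : ∀ p : ℂ × ℂ, 0 < ‖p‖ → ‖p‖ < ρ → ContDiffAt ℝ 1 H p)
    (hfg : ∀ p ∈ ball (0 : ℂ × ℂ) ρ, f p = g (H p))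
    (hb : ∀ p ∈ ball (0 : ℂ × ℂ) ρ, ∀ q ∈ ball (0 : ℂ × ℂ) ρ,
      κ0 * ‖p - q‖ ≤ ‖H p - H q‖ ∧ ‖H p - H q‖ ≤ L0 * ‖p - q‖) :
    LipEquiv f g := by
  classical
  have h0 : (0 : ℂ × ℂ) ∈ ball (0 : ℂ × ℂ) ρ := mem_ball_self hρ
  have hnorm : ∀ p ∈ ball (0 : ℂ × ℂ) ρ, κ0 * ‖p‖ ≤ ‖H p‖ ∧ ‖H p‖ ≤ L0 * ‖p‖ := by
    intro p hp
    have := hb p hp 0 h0
    rwa [H0, sub_zero, sub_zero] at this
  have hinj : ∀ p ∈ ball (0 : ℂ × ℂ) ρ, ∀ q ∈ ball (0 : ℂ × ℂ) ρ, H p = H q → p = q := by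
    intro p hp q hq h
    have h1 := (hb p hp q hq).1
    rw [h, sub_self, norm_zero] at h1
    have h2 : ‖p - q‖ ≤ 0 := by
      by_contra hc
      push Not at hc
      have := mul_pos hκ hc
      linarith
    exact sub_eq_zero.1 (norm_le_zero_iff.1 h2)
  -- step A
  have hopen : ∀ p : ℂ × ℂ, 0 < ‖p‖ → ‖p‖ < ρ → Filter.map H (𝓝 p) = 𝓝 (H p) := by
    intro p hp hpρ
    have hs : HasStrictFDerivAt H (fderiv ℝ H p) p :=
      (hd p hp hpρ).hasStrictFDerivAt one_ne_zero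
    have hpb : p ∈ ball (0 : ℂ × ℂ) ρ := mem_ball_zero_iff.2 hpρ
    have hinjL : Function.Injective (fderiv ℝ H p : ℂ × ℂ →ₗ[ℝ] ℂ × ℂ) := by
      rw [← LinearMap.ker_eq_bot, LinearMap.ker_eq_bot']
      intro w hw
      by_contra hw0
      have hw' : fderiv ℝ H p w = 0 := hw
      have hlo := hs.hasFDerivAt.isLittleO
      have hev := hlo.def (half_pos hκ)
      have hball : ∀ᶠ x in 𝓝 p, x ∈ ball (0 : ℂ × ℂ) ρ := isOpen_ball.mem_nhds hpb
      have htend : Tendsto (fun t : ℝ => p + t • w) (𝓝[>] 0) (𝓝 p) := by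
        have : Continuous (fun t : ℝ => p + t • w) := by fun_prop
        have h1 := this.tendsto 0
        rw [zero_smul, add_zero] at h1
        exact h1.mono_left nhdsWithin_le_nhds
      have hall := (htend.eventually (hev.and hball)).and
        (self_mem_nhdsWithin (a := (0 : ℝ)) (s := Set.Ioi 0))
      obtain ⟨t, ⟨h1, h2⟩, ht⟩ := hall.exists
      have ht0 : 0 < t := ht
      have e1 : p + t • w - p = t • w := by abel
      rw [e1, map_smul, hw', smul_zero, sub_zero] at h1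
      have h3 := (hb _ h2 _ hpb).1
      rw [e1] at h3
      have h4 : 0 < ‖t • w‖ := norm_pos_iff.2 (smul_ne_zero ht0.ne' hw0)
      nlinarith
    have hsurj : Function.Surjective (fderiv ℝ H p : ℂ × ℂ →ₗ[ℝ] ℂ × ℂ) :=
      LinearMap.injective_iff_surjective.1 hinjL
    exact hs.map_nhds_eq_of_surj (LinearMap.range_eq_top.2 hsurj)
  -- step B
  set r : ℝ := κ0 * ρ / 2 with hr
  have hr0 : 0 < r := by positivity
  set u : Set (ℂ × ℂ) := H '' {p | 0 < ‖p‖ ∧ ‖p‖ < ρ} with hu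
  have huo : IsOpen u := by
    rw [isOpen_iff_mem_nhds]
    rintro _ ⟨p, ⟨hp1, hp2⟩, rfl⟩
    rw [← hopen p hp1 hp2]
    apply Filter.image_mem_map
    have ho : IsOpen {p : ℂ × ℂ | 0 < ‖p‖ ∧ ‖p‖ < ρ} :=
      (isOpen_lt continuous_const continuous_norm).inter (isOpen_lt continuous_norm continuous_const)
    exact ho.mem_nhds ⟨hp1, hp2⟩
  have hHc : ContinuousOn H (ball (0 : ℂ × ℂ) ρ) := by
    rw [Metric.continuousOn_iff]
    intro p hp ε hε
    refine ⟨ε / L0, by positivity, fun q hq hqp => ?_⟩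
    have h1 := (hb q hq p hp).2
    rw [dist_eq_norm] at hqp ⊢
    rw [lt_div_iff₀ hL] at hqp
    nlinarith
  have hVu : {q : ℂ × ℂ | 0 < ‖q‖ ∧ ‖q‖ < r} ⊆ u := by
    refine (Z8_annulus hr0).subset_of_closure_inter_subset huo ?_ ?_
    · set t : ℝ := min (ρ / 2) (r / (2 * L0)) with ht
      have ht0 : 0 < t := lt_min (by positivity) (by positivity)
      have ht1 : t ≤ ρ / 2 := min_le_left _ _
      have ht2 : t ≤ r / (2 * L0) := min_le_right _ _
      have hnt : ‖((t : ℂ), (0 : ℂ))‖ = t := by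
        rw [Prod.norm_def, norm_zero, Complex.norm_real, Real.norm_eq_abs, abs_of_pos ht0]
        exact max_eq_left ht0.le
      have hmem : ((t : ℂ), (0 : ℂ)) ∈ ball (0 : ℂ × ℂ) ρ := by
        rw [mem_ball_zero_iff, hnt]
        linarith
      obtain ⟨h1, h2⟩ := hnorm _ hmem
      rw [hnt] at h1 h2
      refine ⟨H ((t : ℂ), (0 : ℂ)), ⟨?_, ?_⟩, ⟨((t : ℂ), (0 : ℂ)), ⟨by rw [hnt]; exact ht0, by
        rw [hnt]; linarith⟩, rfl⟩⟩
      · have := mul_pos hκ ht0
        linarith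
      · have h3 : L0 * t ≤ L0 * (r / (2 * L0)) := mul_le_mul_of_nonneg_left ht2 hL.le
        have h4 : L0 * (r / (2 * L0)) = r / 2 := by
          field_simp
        linarith
    · rintro q ⟨hq1, hq2⟩
      have hK : IsClosed (H '' closedBall (0 : ℂ × ℂ) (ρ / 2)) := by
        refine IsCompact.isClosed ((isCompact_closedBall _ _).image_of_continuousOn
          (hHc.mono ?_))
        intro x hx
        rw [mem_closedBall_zero_iff] at hx
        rw [mem_ball_zero_iff]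
        linarith
      have hVo : IsOpen {q : ℂ × ℂ | ‖q‖ < r} := isOpen_lt continuous_norm continuous_const
      have hcl : q ∈ closure (H '' closedBall (0 : ℂ × ℂ) (ρ / 2)) := by
        have h1 : q ∈ closure ({q : ℂ × ℂ | ‖q‖ < r} ∩ u) :=
          hVo.inter_closure ⟨hq2.2, hq1⟩
        refine closure_mono ?_ h1
        rintro _ ⟨hx1, p, ⟨hp1, hp2⟩, rfl⟩
        refine ⟨p, ?_, rfl⟩
        rw [mem_closedBall_zero_iff]
        have h2 := (hnorm p (mem_ball_zero_iff.2 hp2)).1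
        have h3 : ‖H p‖ < r := hx1
        have h4 : κ0 * ‖p‖ < κ0 * (ρ / 2) := by
          rw [hr] at h3
          linarith
        exact (lt_of_mul_lt_mul_left h4 hκ.le).le
      rw [hK.closure_eq] at hcl
      obtain ⟨p, hp, rfl⟩ := hcl
      rw [mem_closedBall_zero_iff] at hp
      refine ⟨p, ⟨?_, by linarith⟩, rfl⟩
      rw [norm_pos_iff]
      rintro rfl
      have := hq2.1
      rw [H0, norm_zero] at this
      exact lt_irrefl _ this
  have hex : ∀ q ∈ ball (0 : ℂ × ℂ) r, ∃ p ∈ ball (0 : ℂ × ℂ) ρ, H p = q := by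
    intro q hq
    rw [mem_ball_zero_iff] at hq
    rcases (norm_nonneg q).eq_or_lt with h | h
    · exact ⟨0, h0, by rw [H0]; exact (norm_eq_zero.1 h.symm).symm⟩
    · obtain ⟨p, hp, hpq⟩ := hVu ⟨h, hq⟩
      exact ⟨p, mem_ball_zero_iff.2 hp.2, hpq⟩
  -- step C
  choose! H' hH'1 hH'2 using hex
  have h0r : (0 : ℂ × ℂ) ∈ ball (0 : ℂ × ℂ) r := mem_ball_self hr0
  refine ⟨H, H', max L0 κ0⁻¹, min ρ r, lt_min hρ hr0, H0, ?_, ?_, ?_, ?_, ?_, ?_⟩
  · exact hinj _ (hH'1 0 h0r) 0 h0 (by rw [hH'2 0 h0r, H0])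
  · intro x hx y hy
    refine ((hb x (ball_subset_ball (min_le_left _ _) hx) y
      (ball_subset_ball (min_le_left _ _) hy)).2).trans ?_
    exact mul_le_mul_of_nonneg_right (le_max_left _ _) (norm_nonneg _)
  · intro x hx y hy
    have hx' := ball_subset_ball (min_le_right ρ r) hx
    have hy' := ball_subset_ball (min_le_right ρ r) hy
    have h1 := (hb _ (hH'1 x hx') _ (hH'1 y hy')).1
    rw [hH'2 x hx', hH'2 y hy'] at h1
    have h2 : ‖H' x - H' y‖ ≤ κ0⁻¹ * ‖x - y‖ := by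
      rw [inv_mul_eq_div, le_div_iff₀ hκ]
      linarith
    exact h2.trans (mul_le_mul_of_nonneg_right (le_max_right _ _) (norm_nonneg _))
  · have hHt : ∀ᶠ x in 𝓝 (0 : ℂ × ℂ), H x ∈ ball (0 : ℂ × ℂ) r := by
      have hc : ContinuousAt H 0 := hHc.continuousAt (isOpen_ball.mem_nhds h0)
      have : ball (0 : ℂ × ℂ) r ∈ 𝓝 (H 0) := by
        rw [H0]
        exact ball_mem_nhds _ hr0
      exact hc this
    filter_upwards [hHt, isOpen_ball.mem_nhds h0] with x hx1 hx2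
    exact hinj _ (hH'1 _ hx1) x hx2 (hH'2 _ hx1)
  · filter_upwards [isOpen_ball.mem_nhds h0r] with y hy
    exact hH'2 y hy
  · filter_upwards [isOpen_ball.mem_nhds h0] with x hx
    exact hfg x hx

end H24.LS
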