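import Pool.Agent.H24.LS.Z7
import Pool.Agent.H24.LS.Z8

/-!
# Z_main: the gluing theorem (interface I4), assembled from Z7 and Z8
-/

open Filter Topology Metric Asymptotics

namespace H24.LS

theorem glue_main {r : ℕ} {κ : Fin r → ℕ} {c c' : ℂ} {X X' β ω : Fin r → ℂ}
    {f g : ℂ × ℂ → ℂ} (hf : NForm κ c X f) (hg : NForm κ c' X' g) (hk : 3 ≤ ∑ j, κ j)
    (hM : Mor κ c c' X X' β ω)
    (hch : ∀ j, 2 ≤ κ j → ∃ (N : ℕ) (u : ℂ) (cc : ℕ) (m : Fin cc → ℕ) (b : Fin cc → ℝ)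
      (γ v Γ η : Fin cc → ℂ → ℂ) (a : Fin cc → ℂ) (D : Fin cc → ℕ),
      CFa (fun p => f (p.1 + X j * p.2, p.2))
        (Gn (fun p => g (p.1 + X' j * p.2, p.2)) (β j * ω j) (ω j))
        (∑ i, κ i) (κ j - 1) N u cc m b γ v Γ η a D) :
    LipEquiv f g := by
  obtain ⟨φ, ψ, hφ⟩ := hM
  obtain ⟨ρ, hρ, κ0, hκ0, L0, hL0, H, H0, hd, hfg, hb⟩ := bilip hf hg hk hφ hch
  exact lip_inverse f g H ρ κ0 L0 hρ hκ0 hL0 H0 hd hfg hb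

end H24.LS
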