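import Pool.Agent.H24.LS.R8
import Pool.Agent.H24.LS.R9
import Pool.Agent.H24.LS.R0a
import Pool.Agent.H24.LS.Z_main

/-!
# PM: the planar theorem from the normal form, the root level matching and the gluing theorem
-/

open Filter Topology Metric

namespace H24.LS

theorem planar_main (f g : ℂ × ℂ → ℂ) (hf : AnalyticAt ℂ f 0)
    (hg : AnalyticAt ℂ g 0) (f0 : f 0 = 0) (g0 : g 0 = 0) (f1 : fderiv ℂ f 0 = 0)
    (g1 : fderiv ℂ g 0 = 0) (f2 : fderiv ℂ (fderiv ℂ f) 0 = 0)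
    (g2 : fderiv ℂ (fderiv ℂ g) 0 = 0) (isoF : Iso f) (isoG : Iso g)
    {A B : ℂ × ℂ → ℂ × ℂ} {L ρ : ℝ} (hco : Coarse f g A B L ρ) : LipEquiv f g := by
  obtain ⟨l, r, κ, c, X, hF, hk⟩ := nform_exists hf f0 f1 f2 isoF
  obtain ⟨l', r', κ', c', X', hG, hk'⟩ := nform_exists hg g0 g1 g2 isoG
  obtain ⟨L', ρ', hco'⟩ := coarse_equiv hco l l'
  obtain ⟨X'', β, ω, hG', hM, hch⟩ :=
    root_main hF hG (iso_equiv isoF l) (iso_equiv isoG l') hk hk' hco'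
  exact lipEquiv_of_equiv l l' (glue_main hF hG' hk hM hch)

end H24.LS
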