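import Pool.Agent.H24.LS.A7
import Pool.Agent.H24.LS.PM

/-!
# A8: the planar statement (from PM)
-/

open Filter Topology Metric

namespace H24.LS

theorem planar : PlanarStmt := fun f g hf hg f2 g2 _ _ _ _ hco =>
  planar_main f g hf.an hg.an hf.f0 hg.f0 hf.f1 hg.f1 f2 g2 hf.iso hg.iso hco

end H24.LS
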