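import Pool.Agent.H24.LS.Base

/-!
# B0: germs in normal form with respect to their principal part; derivative estimate

* `fderiv_bound`: if `h` is analytic at `0` and `‖h p‖ ≤ C ‖p‖^(m+1)` near `0` then
  `‖fderiv ℂ h p‖ ≤ C' ‖p‖^m` near `0`.
  Proof: for `p ≠ 0` small and a vector `v`, `‖v‖ = 1`, apply the one variable Cauchy estimate
  `Complex.norm_deriv_le_of_forall_mem_sphere_norm_le` to `s ↦ h (p + s v)` on the circle
  `‖s‖ = ‖p‖`: there `‖h‖ ≤ C (2‖p‖)^(m+1)`, so `‖fderiv h p v‖ ≤ 2^(m+1) C ‖p‖^m`.  At `p = 0`: by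
  continuity of `fderiv ℂ h` (analytic) if `m ≥ 1` the value is `0`, if `m = 0` just take the constant
  larger than `‖fderiv ℂ h 0‖`.
* `NForm.fd`: derivative version of the normal form (apply `fderiv_bound` to `f - form`).
-/

open Filter Topology Metric

namespace H24.LS

/-- `f` is analytic with principal part the binary form `c ∏ (x - X_j y)^{κ_j}` -/
structure NForm {r : ℕ} (κ : Fin r → ℕ) (c : ℂ) (X : Fin r → ℂ) (f : ℂ × ℂ → ℂ) : Prop where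
  an : AnalyticAt ℂ f 0
  hr : 0 < r
  hc : c ≠ 0
  hX : Function.Injective X
  hκ : ∀ j, 1 ≤ κ j
  bd : ∃ C > (0 : ℝ), ∃ δ > (0 : ℝ), ∀ p : ℂ × ℂ, ‖p‖ < δ →
    ‖f p - form κ c X p‖ ≤ C * ‖p‖ ^ (∑ j, κ j + 1)

private theorem B0_core {E : Type*} [NormedAddCommGroup E] [NormedSpace ℂ E] {h : E → ℂ} {m : ℕ}
    {C : ℝ} (hC : 0 ≤ C) {p : E} (hp : p ≠ 0)
    (hd : ∀ q : E, ‖q‖ ≤ 2 * ‖p‖ → DifferentiableAt ℂ h q)
    (hb : ∀ q : E, ‖q‖ ≤ 2 * ‖p‖ → ‖h q‖ ≤ C * ‖q‖ ^ (m + 1)) :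
    ‖fderiv ℂ h p‖ ≤ C * 2 ^ (m + 1) * ‖p‖ ^ m := by
  have hp0 : 0 < ‖p‖ := norm_pos_iff.2 hp
  apply ContinuousLinearMap.opNorm_le_bound _ (by positivity)
  intro v
  by_cases hv : v = 0
  · simp [hv]
  have hv0 : 0 < ‖v‖ := norm_pos_iff.2 hv
  set R : ℝ := ‖p‖ / ‖v‖ with hR
  have hR0 : 0 < R := by positivity
  have hn : ∀ s : ℂ, ‖s‖ ≤ R → ‖p + s • v‖ ≤ 2 * ‖p‖ := by
    intro s hs
    calc ‖p + s • v‖ ≤ ‖p‖ + ‖s‖ * ‖v‖ := (norm_add_le _ _).trans (by rw [norm_smul])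
      _ ≤ ‖p‖ + R * ‖v‖ := by
        have := mul_le_mul_of_nonneg_right hs hv0.le
        linarith
      _ = 2 * ‖p‖ := by rw [hR]; field_simp; ring
  have hder : ∀ s : ℂ, HasDerivAt (fun s : ℂ => p + s • v) v s := by
    intro s
    have := ((hasDerivAt_id s).smul_const v).const_add p
    rw [one_smul] at this
    exact this
  have h1 : HasDerivAt (fun s : ℂ => h (p + s • v)) (fderiv ℂ h p v) 0 := by
    have h2 : HasFDerivAt h (fderiv ℂ h p) (p + (0 : ℂ) • v) := by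
      rw [zero_smul, add_zero]
      exact (hd p (by linarith)).hasFDerivAt
    exact h2.comp_hasDerivAt 0 (hder 0)
  have h3 := Complex.norm_deriv_le_of_forall_mem_sphere_norm_le (c := (0 : ℂ)) (R := R)
    (C := C * (2 * ‖p‖) ^ (m + 1)) (f := fun s : ℂ => h (p + s • v)) hR0 (by
      apply DifferentiableOn.diffContOnCl
      rw [closure_ball _ hR0.ne']
      intro s hs
      have hs' : ‖s‖ ≤ R := by simpa using hs
      exact ((hd _ (hn s hs')).comp s (hder s).differentiableAt).differentiableWithinAt)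
    (fun s hs => by
      have hs' : ‖s‖ ≤ R := by
        have : ‖s‖ = R := by simpa using hs
        exact this.le
      refine (hb _ (hn s hs')).trans (mul_le_mul_of_nonneg_left ?_ hC)
      exact pow_le_pow_left₀ (norm_nonneg _) (hn s hs') _)
  rw [h1.deriv] at h3
  refine h3.trans (le_of_eq ?_)
  rw [hR, mul_pow, pow_succ ‖p‖ m]
  field_simp

private theorem B0_zero {E : Type*} [NormedAddCommGroup E] [NormedSpace ℂ E] {h : E → ℂ} {m : ℕ}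
    {C δ : ℝ} (hδ : 0 < δ) (hb : ∀ q : E, ‖q‖ < δ → ‖h q‖ ≤ C * ‖q‖ ^ (m + 1)) :
    ‖fderiv ℂ h 0‖ ≤ (‖fderiv ℂ h 0‖ + 1) * ‖(0 : E)‖ ^ m := by
  rcases Nat.eq_zero_or_pos m with hm | hm
  · rw [hm, pow_zero]; linarith
  · have h1 : h =O[𝓝 (0 : E)] fun x => ‖x - 0‖ ^ (m + 1) := by
      apply Asymptotics.IsBigO.of_bound C
      filter_upwards [ball_mem_nhds (0 : E) hδ] with x hx
      have hx' : ‖x‖ < δ := by simpa using hx
      rw [sub_zero, Real.norm_eq_abs, abs_of_nonneg (by positivity)]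
      exact hb x hx'
    have h2 : HasFDerivAt h (0 : E →L[ℂ] ℂ) 0 := h1.hasFDerivAt (by omega)
    rw [h2.fderiv, norm_zero]
    positivity

theorem fderiv_bound {E : Type*} [NormedAddCommGroup E] [NormedSpace ℂ E] (h : E → ℂ)
    (han : AnalyticAt ℂ h 0) (m : ℕ) (C δ : ℝ) (hδ : 0 < δ)
    (hb : ∀ p : E, ‖p‖ < δ → ‖h p‖ ≤ C * ‖p‖ ^ (m + 1)) :
    ∃ C' > (0 : ℝ), ∃ δ' > (0 : ℝ), ∀ p : E, ‖p‖ < δ' → ‖fderiv ℂ h p‖ ≤ C' * ‖p‖ ^ m := by
  obtain ⟨δ1, hδ1, hd⟩ := Metric.eventually_nhds_iff.1 han.eventually_analyticAt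
  refine ⟨|C| * 2 ^ (m + 1) + (‖fderiv ℂ h 0‖ + 1), by positivity, min δ δ1 / 2, by positivity, ?_⟩
  intro p hp
  have hp1 : 2 * ‖p‖ < δ := by linarith [min_le_left δ δ1]
  have hp2 : 2 * ‖p‖ < δ1 := by linarith [min_le_right δ δ1]
  by_cases h0 : p = 0
  · rw [h0]
    have h1 := B0_zero hδ hb
    have h2 : 0 ≤ |C| * 2 ^ (m + 1) * ‖(0 : E)‖ ^ m := by positivity
    linarith
  · have h1 := B0_core (h := h) (m := m) (abs_nonneg C) h0
      (fun q hq => (hd (by rw [dist_zero_right]; linarith)).differentiableAt)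
      (fun q hq => (hb q (by linarith)).trans (mul_le_mul_of_nonneg_right (le_abs_self C)
        (by positivity)))
    have h2 : 0 ≤ (‖fderiv ℂ h 0‖ + 1) * ‖p‖ ^ m := by positivity
    linarith

private theorem B0_form_an {r : ℕ} (κ : Fin r → ℕ) (c : ℂ) (X : Fin r → ℂ) (p : ℂ × ℂ) :
    AnalyticAt ℂ (form κ c X) p := by
  have h : AnalyticAt ℂ (fun p : ℂ × ℂ => c * ∏ j, (p.1 - X j * p.2) ^ κ j) p := by
    apply AnalyticAt.mul analyticAt_const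
    apply Finset.analyticAt_fun_prod
    intro j _
    exact (analyticAt_fst.sub (analyticAt_const.mul analyticAt_snd)).pow (κ j)
  exact h

theorem NForm.fd {r : ℕ} {κ : Fin r → ℕ} {c : ℂ} {X : Fin r → ℂ} {f : ℂ × ℂ → ℂ}
    (hf : NForm κ c X f) :
    ∃ C > (0 : ℝ), ∃ δ > (0 : ℝ), ∀ p : ℂ × ℂ, ‖p‖ < δ →
      ‖fderiv ℂ f p - fderiv ℂ (form κ c X) p‖ ≤ C * ‖p‖ ^ (∑ j, κ j) := by
  obtain ⟨C, hC, δ, hδ, hb⟩ := hf.bd
  obtain ⟨C', hC', δ', hδ', hb'⟩ := fderiv_bound (fun p => f p - form κ c X p)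
    (hf.an.sub (B0_form_an κ c X 0)) (∑ j, κ j) C δ hδ hb
  obtain ⟨δ1, hδ1, hd⟩ := Metric.eventually_nhds_iff.1 hf.an.eventually_analyticAt
  refine ⟨C', hC', min δ' δ1, by positivity, fun p hp => ?_⟩
  have h1 := hb' p (hp.trans_le (min_le_left _ _))
  have h2 : DifferentiableAt ℂ f p :=
    (hd (by rw [dist_zero_right]; exact hp.trans_le (min_le_right _ _))).differentiableAt
  have h3 : fderiv ℂ (fun p => f p - form κ c X p) p = fderiv ℂ f p - fderiv ℂ (form κ c X) p :=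
    (h2.hasFDerivAt.sub (B0_form_an κ c X p).differentiableAt.hasFDerivAt).fderiv
  rw [h3] at h1
  exact h1

/-- size of a form and of its derivative -/
theorem form_bound {r : ℕ} (κ : Fin r → ℕ) (hr : 0 < r) (hκ : ∀ j, 1 ≤ κ j) (c : ℂ)
    (X : Fin r → ℂ) :
    ∃ C > (0 : ℝ), ∀ p : ℂ × ℂ, ‖form κ c X p‖ ≤ C * ‖p‖ ^ (∑ j, κ j) ∧
      ‖fderiv ℂ (form κ c X) p‖ ≤ C * ‖p‖ ^ (∑ j, κ j - 1) := by
  have hd : 1 ≤ ∑ j, κ j := by
    have h1 := Finset.single_le_sum (f := κ) (fun i _ => Nat.zero_le _) (Finset.mem_univ (⟨0, hr⟩ : Fin r))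
    exact (hκ ⟨0, hr⟩).trans h1
  set C0 : ℝ := ‖c‖ * ∏ j, (1 + ‖X j‖) ^ κ j with hC0
  have hC0' : 0 ≤ C0 := by positivity
  have hb : ∀ p : ℂ × ℂ, ‖form κ c X p‖ ≤ C0 * ‖p‖ ^ (∑ j, κ j) := by
    intro p
    unfold form
    rw [norm_mul, norm_prod]
    have h1 : ∏ j, ‖(p.1 - X j * p.2) ^ κ j‖ ≤ ∏ j, ((1 + ‖X j‖) ^ κ j * ‖p‖ ^ κ j) := by
      apply Finset.prod_le_prod
      · intro j _; exact norm_nonneg _
      · intro j _
        rw [norm_pow, ← mul_pow]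
        apply pow_le_pow_left₀ (norm_nonneg _)
        calc ‖p.1 - X j * p.2‖ ≤ ‖p.1‖ + ‖X j‖ * ‖p.2‖ :=
              (norm_sub_le _ _).trans (by rw [norm_mul])
          _ ≤ ‖p‖ + ‖X j‖ * ‖p‖ := by
              have h2 := norm_fst_le p
              have h3 := mul_le_mul_of_nonneg_left (norm_snd_le p) (norm_nonneg (X j))
              linarith
          _ = (1 + ‖X j‖) * ‖p‖ := by ring
    rw [Finset.prod_mul_distrib, Finset.prod_pow_eq_pow_sum] at h1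
    calc ‖c‖ * ∏ j, ‖(p.1 - X j * p.2) ^ κ j‖ ≤
        ‖c‖ * ((∏ j, (1 + ‖X j‖) ^ κ j) * ‖p‖ ^ (∑ j, κ j)) :=
          mul_le_mul_of_nonneg_left h1 (norm_nonneg _)
      _ = C0 * ‖p‖ ^ (∑ j, κ j) := by rw [hC0]; ring
  obtain ⟨m, hm⟩ : ∃ m, ∑ j, κ j = m + 1 := ⟨∑ j, κ j - 1, by omega⟩
  rw [hm] at hb ⊢
  rw [Nat.add_sub_cancel]
  refine ⟨C0 + C0 * 2 ^ (m + 1) + (‖fderiv ℂ (form κ c X) 0‖ + 1), by positivity, fun p => ⟨?_, ?_⟩⟩
  · refine (hb p).trans (mul_le_mul_of_nonneg_right ?_ (by positivity))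
    have h1 : 0 ≤ C0 * 2 ^ (m + 1) := by positivity
    have h2 := norm_nonneg (fderiv ℂ (form κ c X) 0)
    linarith
  · by_cases h0 : p = 0
    · rw [h0]
      have h1 := B0_zero (h := form κ c X) (m := m) (C := C0) one_pos (fun q _ => hb q)
      have h2 : 0 ≤ (C0 + C0 * 2 ^ (m + 1)) * ‖(0 : ℂ × ℂ)‖ ^ m := by positivity
      linarith
    · have h1 := B0_core (h := form κ c X) (m := m) hC0' h0
        (fun q _ => (B0_form_an κ c X q).differentiableAt) (fun q _ => hb q)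
      have h2 : 0 ≤ (C0 + (‖fderiv ℂ (form κ c X) 0‖ + 1)) * ‖p‖ ^ m := by positivity
      linarith

end H24.LS
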