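import Mathlib

/-!
# MP_816883_ag : Lipschitz splitting lemma in corank <= 2  (project MP_816883_LS, PI helper24)

Definitions used by the statement and by all modules.  Do not change this file.
-/

open Filter Topology Metric

namespace H24.LS

/-- Lipschitz equivalence of germs at `0`: there is a germ of bi-Lipschitz homeomorphism `h`
(with Lipschitz inverse germ `h'`) such that `f = g o h`. -/
def LipEquiv {E E' : Type*} [NormedAddCommGroup E] [NormedAddCommGroup E']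
    (f : E → ℂ) (g : E' → ℂ) : Prop :=
  ∃ (h : E → E') (h' : E' → E) (K : ℝ) (r : ℝ), 0 < r ∧ h 0 = 0 ∧ h' 0 = 0 ∧
    (∀ x ∈ ball (0 : E) r, ∀ y ∈ ball (0 : E) r, ‖h x - h y‖ ≤ K * ‖x - y‖) ∧
    (∀ x ∈ ball (0 : E') r, ∀ y ∈ ball (0 : E') r, ‖h' x - h' y‖ ≤ K * ‖x - y‖) ∧
    (∀ᶠ x in 𝓝 (0 : E), h' (h x) = x) ∧ (∀ᶠ y in 𝓝 (0 : E'), h (h' y) = y) ∧
    (∀ᶠ x in 𝓝 (0 : E), f x = g (h x))

/-- partial derivatives of a function of two complex variables -/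
noncomputable def dx (F : ℂ × ℂ → ℂ) (p : ℂ × ℂ) : ℂ := fderiv ℂ F p (1, 0)
noncomputable def dy (F : ℂ × ℂ → ℂ) (p : ℂ × ℂ) : ℂ := fderiv ℂ F p (0, 1)

/-- coarse equivalence: what remains of a stable Lipschitz equivalence after forgetting the
quadratic variables. -/
structure Coarse {E E' : Type*} [NormedAddCommGroup E] [NormedSpace ℂ E]
    [NormedAddCommGroup E'] [NormedSpace ℂ E']
    (f : E → ℂ) (g : E' → ℂ) (A : E → E') (B : E' → E) (L ρ : ℝ) : Prop where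
  hL : 1 ≤ L
  hρ : 0 < ρ
  A0 : A 0 = 0
  B0 : B 0 = 0
  lipA : ∀ p ∈ ball (0 : E) ρ, ∀ q ∈ ball (0 : E) ρ, ‖A p - A q‖ ≤ L * ‖p - q‖
  lipB : ∀ p ∈ ball (0 : E') ρ, ∀ q ∈ ball (0 : E') ρ, ‖B p - B q‖ ≤ L * ‖p - q‖
  fA : ∀ p ∈ ball (0 : E) ρ, ‖f p - g (A p)‖ ≤ L * ‖fderiv ℂ f p‖ ^ 2
  gB : ∀ q ∈ ball (0 : E') ρ, ‖g q - f (B q)‖ ≤ L * ‖fderiv ℂ g q‖ ^ 2
  dA : ∀ p ∈ ball (0 : E) ρ, ‖fderiv ℂ g (A p)‖ ≤ L * ‖fderiv ℂ f p‖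
  dB : ∀ q ∈ ball (0 : E') ρ, ‖fderiv ℂ f (B q)‖ ≤ L * ‖fderiv ℂ g q‖
  BA : ∀ p ∈ ball (0 : E) ρ, ‖B (A p) - p‖ ≤ L * ‖fderiv ℂ f p‖
  AB : ∀ q ∈ ball (0 : E') ρ, ‖A (B q) - q‖ ≤ L * ‖fderiv ℂ g q‖

/-- binary form with roots `X j` (lines `x = X j * y`) of multiplicity `κ j` -/
noncomputable def form {r : ℕ} (κ : Fin r → ℕ) (c : ℂ) (X : Fin r → ℂ) (p : ℂ × ℂ) : ℂ :=
  c * ∏ j, (p.1 - X j * p.2) ^ κ j

/-- equivariant bi-Lipschitz equivalence of two binary forms with marking `(β, ω)` at the lines -/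
structure IsMor {r : ℕ} (κ : Fin r → ℕ) (c c' : ℂ) (X X' β ω : Fin r → ℂ)
    (φ ψ : ℂ × ℂ → ℂ × ℂ) : Prop where
  hom : ∀ (a : ℂ) (p : ℂ × ℂ), φ (a • p) = a • φ p
  hom' : ∀ (a : ℂ) (p : ℂ × ℂ), ψ (a • p) = a • ψ p
  left : ∀ p, ψ (φ p) = p
  right : ∀ p, φ (ψ p) = p
  smooth : ∀ p, p ≠ 0 → ContDiffAt ℝ 1 φ p
  smooth' : ∀ p, p ≠ 0 → ContDiffAt ℝ 1 ψ p
  eqf : ∀ p, form κ c X p = form κ c' X' (φ p)
  hβ : ∀ j, β j ≠ 0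
  hω : ∀ j, ω j ≠ 0
  near : ∀ j, ∃ δ > 0, ∃ u : ℂ → ℂ, DifferentiableOn ℂ u (ball (X j) δ) ∧ u (X j) = ω j ∧
    ∀ x y : ℂ, y ≠ 0 → ‖x - X j * y‖ < δ * ‖y‖ →
      φ (x, y) = (u (x / y) * (X' j * y + β j * (x - X j * y)), u (x / y) * y)

/-- marked equivalence of forms -/
def Mor {r : ℕ} (κ : Fin r → ℕ) (c c' : ℂ) (X X' β ω : Fin r → ℂ) : Prop :=
  ∃ φ ψ : ℂ × ℂ → ℂ × ℂ, IsMor κ c c' X X' β ω φ ψ

end H24.LS
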