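import Pool.Agent.H24.LS.Base

/-!
# C0: the class `Hol` of functions of two complex variables

Mathlib has no theorem that differentiable implies analytic for two complex variables; all modules of block C
only use complex differentiability near a point.
-/

open Filter Topology Metric

namespace H24.LS

/-- complex differentiable (jointly) near `p` -/
def Hol (ψ : ℂ × ℂ → ℂ) (p : ℂ × ℂ) : Prop := ∀ᶠ q in 𝓝 p, DifferentiableAt ℂ ψ q

/-- conclusion of the Newton-Puiseux theorem for `ψ` at `(x0, 0)`: after the substitution `t ↦ t^N` the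
function `ψ` is a unit (close to the constant `u`) times `∏ (X - χ_l t)`. -/
def Pui (ψ : ℂ × ℂ → ℂ) (x0 : ℂ) (n : ℕ) : Prop :=
  ∃ (N : ℕ) (χ : Fin n → ℂ → ℂ) (u : ℂ), 1 ≤ N ∧ u ≠ 0 ∧
    (∀ l, AnalyticAt ℂ (χ l) 0 ∧ χ l 0 = x0) ∧
    ∀ ε > (0 : ℝ), ∃ δ > (0 : ℝ), ∀ X t : ℂ, ‖X - x0‖ < δ → ‖t‖ < δ →
      ‖ψ (X, t ^ N) - u * ∏ l, (X - χ l t)‖ ≤ ε * ∏ l, ‖X - χ l t‖

end H24.LS
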