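import Pool.Agent.H24.LS.C0

/-!
# C1: basic properties of `Hol`

* `Hol.pderiv`: the partial derivative in the first variable is again `Hol`.
  Proof.  Let `ψ` be differentiable on `ball p1 (3r) ×ˢ ball p2 (3r)`.  For `‖q1 - p1‖ < r`:
  `∂_X ψ (q1, q2) = (2πi)⁻¹ ∮_{|ξ - p1| = 2r} ψ(ξ, q2)/(ξ - q1)^2 dξ`
  (`DiffContOnCl.deriv_eq_smul_circleIntegral` gives it at the centre; for other points use
  `Complex.two_pi_I_inv_smul_circleIntegral_sub_sq_inv_smul_of_differentiable` or circle of radius `r`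
  around `q1`: `∮_{|ζ| = r} ψ(q1 + ζ, q2)/ζ^2 dζ`, which is often more convenient since the integrand
  `q ↦ ψ(q1 + ζ, q2)/ζ^2` is differentiable in `q` and the circle is fixed).
  Differentiate under the integral sign: `hasFDerivAt_integral_of_dominated_of_fderiv_le`
  (for the interval integral version `intervalIntegral.hasFDerivAt_integral_of_dominated_of_fderiv_le`);
  the derivative `fderiv ψ` is bounded on a compact subpolydisc: in the two coordinate directions by
  the one variable Cauchy estimate (`Complex.norm_deriv_le_of_forall_mem_sphere_norm_le`), `ψ`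
  being continuous hence bounded; measurability: `measurable_fderiv_with_param`-type lemma or: the
  derivative is a limit of difference quotients that are continuous in the parameter.
* `Hol.contDiffAt`: `ψ` is `C^1` over `ℂ`: both partial derivatives are continuous near `p`
  (`Hol.pderiv` and its mirror image), and `fderiv ψ q (a, b) = a ∂_1 ψ q + b ∂_2 ψ q`.
* `Hol.analytic_slice`: `t ↦ ψ (f t, g t)` is analytic at `t0` if `f, g` are.
* `AnalyticAt.hol`: analytic implies `Hol`.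
-/

open Filter Topology Metric

namespace H24.LS

theorem Hol.of_analyticAt {ψ : ℂ × ℂ → ℂ} {p : ℂ × ℂ} (h : AnalyticAt ℂ ψ p) : Hol ψ p := by
  unfold Hol
  filter_upwards [h.eventually_analyticAt] with q hq
  exact hq.differentiableAt

/-- Cauchy estimate -/
private theorem C1_bound {ψ : ℂ × ℂ → ℂ} {q : ℂ × ℂ} {ρ M : ℝ} (hρ : 0 < ρ)
    (hd : ∀ z ∈ closedBall q ρ, DifferentiableAt ℂ ψ z) (hM : ∀ z ∈ closedBall q ρ, ‖ψ z‖ ≤ M) :
    ‖fderiv ℂ ψ q‖ ≤ M / ρ := by
  have hM0 : 0 ≤ M := (norm_nonneg _).trans (hM q (mem_closedBall_self hρ.le))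
  refine ContinuousLinearMap.opNorm_le_bound _ (by positivity) fun v => ?_
  by_cases hv : v = 0
  · simp [hv]
  have hv0 : 0 < ‖v‖ := norm_pos_iff.2 hv
  have hmem : ∀ s : ℂ, s ∈ closedBall (0 : ℂ) (ρ / ‖v‖) → q + s • v ∈ closedBall q ρ := by
    intro s hs
    rw [mem_closedBall_iff_norm, sub_zero, le_div_iff₀ hv0] at hs
    rw [mem_closedBall_iff_norm, add_sub_cancel_left, norm_smul]
    exact hs
  have hder : ∀ s : ℂ, s ∈ closedBall (0 : ℂ) (ρ / ‖v‖) →
      HasDerivAt (fun s : ℂ => ψ (q + s • v)) (fderiv ℂ ψ (q + s • v) v) s := by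
    intro s hs
    have h1 := (hd _ (hmem s hs)).hasFDerivAt
    have h2 : HasDerivAt (fun s : ℂ => q + s • v) v s := by
      simpa using ((hasDerivAt_id s).smul_const v).const_add q
    exact h1.comp_hasDerivAt s h2
  have h1 : ‖deriv (fun s : ℂ => ψ (q + s • v)) 0‖ ≤ M / (ρ / ‖v‖) := by
    refine Complex.norm_deriv_le_of_forall_mem_sphere_norm_le (by positivity) ?_ ?_
    · refine DifferentiableOn.diffContOnCl ?_
      intro s hs
      exact (hder s (closure_ball_subset_closedBall hs)).differentiableAt.differentiableWithinAt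
    · intro s hs
      exact hM _ (hmem s (sphere_subset_closedBall hs))
  have h0 : (0 : ℂ) ∈ closedBall (0 : ℂ) (ρ / ‖v‖) := mem_closedBall_self (by positivity)
  rw [(hder 0 h0).deriv, zero_smul, add_zero] at h1
  calc ‖fderiv ℂ ψ q v‖ ≤ M / (ρ / ‖v‖) := h1
    _ = M / ρ * ‖v‖ := by field_simp

/-- the shift by a point of the circle in the first coordinate -/
private noncomputable def C1_w (r θ : ℝ) : ℂ × ℂ := (circleMap 0 r θ, 0)

private theorem C1_w_norm {r : ℝ} (hr : 0 < r) (θ : ℝ) : ‖C1_w r θ‖ = r := by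
  simp [C1_w, Prod.norm_def, abs_of_pos hr, hr.le]

private theorem C1_w_cont (r : ℝ) : Continuous (C1_w r) := by
  unfold C1_w
  exact (continuous_circleMap 0 r).prodMk continuous_const

private noncomputable def C1_K (r θ : ℝ) : ℂ :=
  circleMap 0 r θ * Complex.I * (1 / circleMap 0 r θ ^ 2)

private theorem C1_K_cont {r : ℝ} (hr : 0 < r) : Continuous (C1_K r) := by
  unfold C1_K
  refine ((continuous_circleMap 0 r).mul continuous_const).mul (Continuous.div continuous_const
    ((continuous_circleMap 0 r).pow 2) fun θ => pow_ne_zero 2 ?_)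
  exact circleMap_ne_center hr.ne'

private theorem C1_formula {ψ : ℂ × ℂ → ℂ} {q : ℂ × ℂ} {r : ℝ} (hr : 0 < r)
    (hd : ∀ z ∈ closedBall q r, DifferentiableAt ℂ ψ z) :
    deriv (fun X => ψ (X, q.2)) q.1 =
      (2 * Real.pi * Complex.I)⁻¹ * ∫ θ in (0 : ℝ)..2 * Real.pi, C1_K r θ * ψ (q + C1_w r θ) := by
  have h1 : DifferentiableOn ℂ (fun X => ψ (X, q.2)) (closedBall q.1 r) := by
    intro X hX
    have h2 : DifferentiableAt ℂ ψ (X, q.2) := by
      apply hd
      rw [mem_closedBall, Prod.dist_eq]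
      simp only [dist_self]
      exact max_le (mem_closedBall.1 hX) hr.le
    have h3 : DifferentiableAt ℂ (fun X : ℂ => (X, q.2)) X := by fun_prop
    exact (DifferentiableAt.comp X h2 h3).differentiableWithinAt
  have h2 := h1.deriv_eq_smul_circleIntegral hr
  have h3 : (2 * Real.pi * Complex.I : ℂ) ≠ 0 := Complex.two_pi_I_ne_zero
  rw [eq_inv_mul_iff_mul_eq₀ h3, ← smul_eq_mul, ← h2]
  unfold circleIntegral
  refine intervalIntegral.integral_congr fun θ _ => ?_
  simp only [deriv_circleMap, smul_eq_mul, C1_K, C1_w]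
  have h4 : circleMap q.1 r θ = q.1 + circleMap 0 r θ := by simp [circleMap]
  have h5 : (q.1 + circleMap 0 r θ, q.2) = q + (circleMap 0 r θ, 0) := by
    ext <;> simp
  rw [h4, add_sub_cancel_left, h5]
  ring

theorem Hol.pderiv {ψ : ℂ × ℂ → ℂ} {p : ℂ × ℂ} (h : Hol ψ p) :
    Hol (fun q => deriv (fun X => ψ (X, q.2)) q.1) p := by
  obtain ⟨ε, hε, hball⟩ := Metric.eventually_nhds_iff_ball.1 h
  set r : ℝ := ε / 4 with hrdef
  have hr : 0 < r := by positivity
  have hd : ∀ z ∈ closedBall p (3 * r), DifferentiableAt ℂ ψ z := by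
    intro z hz
    apply hball
    rw [mem_ball]
    rw [mem_closedBall] at hz
    linarith
  have hcont : ContinuousOn ψ (closedBall p (3 * r)) := fun z hz =>
    (hd z hz).continuousAt.continuousWithinAt
  obtain ⟨M, hM⟩ := (isCompact_closedBall p (3 * r)).exists_bound_of_continuousOn hcont
  have hsub : ∀ q ∈ ball p r, closedBall q (2 * r) ⊆ closedBall p (3 * r) := by
    intro q hq
    refine closedBall_subset_closedBall' ?_
    have := mem_ball.1 hq
    linarith
  have hsub2 : ∀ q ∈ ball p r, ∀ θ, closedBall (q + C1_w r θ) r ⊆ closedBall p (3 * r) := by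
    intro q hq θ
    have h1 : closedBall (q + C1_w r θ) r ⊆ closedBall q (2 * r) := by
      refine closedBall_subset_closedBall' ?_
      rw [dist_self_add_left, C1_w_norm hr]
      linarith
    exact h1.trans (hsub q hq)
  have hmem : ∀ q ∈ ball p r, ∀ θ, q + C1_w r θ ∈ closedBall p (3 * r) := fun q hq θ =>
    hsub2 q hq θ (mem_closedBall_self hr.le)
  have hFc : ∀ q ∈ ball p r, Continuous (fun θ => C1_K r θ * ψ (q + C1_w r θ)) := by
    intro q hq
    refine (C1_K_cont hr).mul ?_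
    exact hcont.comp_continuous (continuous_const.add (C1_w_cont r)) (hmem q hq)
  unfold Hol
  filter_upwards [ball_mem_nhds p hr] with q0 hq0
  have hnhds : ball p r ∈ 𝓝 q0 := isOpen_ball.mem_nhds hq0
  have hKn : ∀ θ, ‖C1_K r θ‖ = r⁻¹ := by
    intro θ
    simp only [C1_K, norm_mul, norm_div, norm_pow, norm_circleMap_zero, Complex.norm_I, norm_one,
      abs_of_pos hr]
    field_simp
  have key : HasFDerivAt (fun q => ∫ θ in (0 : ℝ)..2 * Real.pi, C1_K r θ * ψ (q + C1_w r θ))
      (∫ θ in (0 : ℝ)..2 * Real.pi, C1_K r θ • fderiv ℂ ψ (q0 + C1_w r θ)) q0 := by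
    refine intervalIntegral.hasFDerivAt_integral_of_dominated_of_fderiv_le
      (F := fun q θ => C1_K r θ * ψ (q + C1_w r θ))
      (F' := fun q θ => C1_K r θ • fderiv ℂ ψ (q + C1_w r θ))
      (bound := fun _ => r⁻¹ * (M / r)) hnhds ?_ ?_ ?_ ?_ ?_ ?_
    · filter_upwards [hnhds] with q hq
      exact (hFc q hq).aestronglyMeasurable
    · exact (hFc q0 hq0).intervalIntegrable _ _
    · have h1 : Measurable (fun θ => fderiv ℂ ψ (q0 + C1_w r θ)) :=
        (measurable_fderiv ℂ ψ).comp (continuous_const.add (C1_w_cont r)).measurable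
      exact ((C1_K_cont hr).measurable.smul h1).aestronglyMeasurable
    · refine Eventually.of_forall fun θ _ q hq => ?_
      rw [norm_smul, hKn]
      have h1 : ‖fderiv ℂ ψ (q + C1_w r θ)‖ ≤ M / r :=
        C1_bound hr (fun z hz => hd z (hsub2 q hq θ hz)) (fun z hz => hM z (hsub2 q hq θ hz))
      gcongr
    · exact intervalIntegrable_const
    · refine Eventually.of_forall fun θ _ q hq => ?_
      have h1 := (hd _ (hmem q hq θ)).hasFDerivAt
      have h2 : HasFDerivAt (fun q : ℂ × ℂ => q + C1_w r θ) (ContinuousLinearMap.id ℂ (ℂ × ℂ)) q :=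
        (hasFDerivAt_id q).add_const _
      have h3 := h1.comp q h2
      rw [ContinuousLinearMap.comp_id] at h3
      exact h3.const_mul _
  have h1 : DifferentiableAt ℂ (fun q => (2 * Real.pi * Complex.I)⁻¹ *
      ∫ θ in (0 : ℝ)..2 * Real.pi, C1_K r θ * ψ (q + C1_w r θ)) q0 :=
    key.differentiableAt.const_mul _
  refine h1.congr_of_eventuallyEq ?_
  filter_upwards [hnhds] with q hq
  refine C1_formula hr fun z hz => hd z (hsub q hq ?_)
  exact closedBall_subset_closedBall (by linarith) hz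

theorem Hol.pderiv' {ψ : ℂ × ℂ → ℂ} {p : ℂ × ℂ} (h : Hol ψ p) :
    Hol (fun q => deriv (fun Y => ψ (q.1, Y)) q.2) p := by
  have hsw : Differentiable ℂ (fun q : ℂ × ℂ => (q.2, q.1)) := by fun_prop
  have hsc : ∀ p : ℂ × ℂ, Tendsto (fun q : ℂ × ℂ => (q.2, q.1)) (𝓝 p) (𝓝 (p.2, p.1)) := fun p =>
    hsw.continuous.tendsto p
  have h1 : Hol (fun q => ψ (q.2, q.1)) (p.2, p.1) := by
    unfold Hol at h ⊢
    filter_upwards [(hsc (p.2, p.1)).eventually h] with q hq
    exact DifferentiableAt.comp q hq (hsw q)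
  have h2 := h1.pderiv
  unfold Hol at h2 ⊢
  filter_upwards [(hsc p).eventually h2] with q hq
  exact DifferentiableAt.comp q hq (hsw q)

theorem Hol.contDiffAt {ψ : ℂ × ℂ → ℂ} {p : ℂ × ℂ} (h : Hol ψ p) : ContDiffAt ℂ 1 ψ p := by
  have h1 := h.pderiv
  have h2 := h.pderiv'
  unfold Hol at h h1 h2
  rw [contDiffAt_one_iff]
  have hu := (h.and h1).and h2
  refine ⟨fun q => (ContinuousLinearMap.fst ℂ ℂ ℂ).smulRight (deriv (fun X => ψ (X, q.2)) q.1) +
    (ContinuousLinearMap.snd ℂ ℂ ℂ).smulRight (deriv (fun Y => ψ (q.1, Y)) q.2), _, hu, ?_, ?_⟩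
  · intro q hq
    obtain ⟨⟨_, hq1⟩, hq2⟩ := hq
    refine ContinuousAt.continuousWithinAt ?_
    refine ContinuousAt.add ?_ ?_
    · exact ((ContinuousLinearMap.smulRightL ℂ (ℂ × ℂ) ℂ
        (ContinuousLinearMap.fst ℂ ℂ ℂ)).continuous.continuousAt).comp hq1.continuousAt
    · exact ((ContinuousLinearMap.smulRightL ℂ (ℂ × ℂ) ℂ
        (ContinuousLinearMap.snd ℂ ℂ ℂ)).continuous.continuousAt).comp hq2.continuousAt
  · intro q hq
    obtain ⟨⟨hq0, _⟩, _⟩ := hq
    have h3 := hq0.hasFDerivAt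
    have h4 : HasDerivAt (fun X => ψ (X, q.2)) (fderiv ℂ ψ q (1, 0)) q.1 := by
      have h5 : HasDerivAt (fun X : ℂ => (X, q.2)) ((1 : ℂ), (0 : ℂ)) q.1 :=
        (hasDerivAt_id q.1).prodMk (hasDerivAt_const _ _)
      exact HasFDerivAt.comp_hasDerivAt q.1 h3 h5
    have h5 : HasDerivAt (fun Y => ψ (q.1, Y)) (fderiv ℂ ψ q (0, 1)) q.2 := by
      have h5 : HasDerivAt (fun Y : ℂ => (q.1, Y)) ((0 : ℂ), (1 : ℂ)) q.2 :=
        (hasDerivAt_const _ _).prodMk (hasDerivAt_id q.2)
      exact HasFDerivAt.comp_hasDerivAt q.2 h3 h5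
    have h6 : fderiv ℂ ψ q = (ContinuousLinearMap.fst ℂ ℂ ℂ).smulRight
        (deriv (fun X => ψ (X, q.2)) q.1) +
        (ContinuousLinearMap.snd ℂ ℂ ℂ).smulRight (deriv (fun Y => ψ (q.1, Y)) q.2) := by
      rw [h4.deriv, h5.deriv]
      ext <;> simp
    beta_reduce
    rw [← h6]
    exact h3

theorem Hol.analytic_comp {ψ : ℂ × ℂ → ℂ} {t0 : ℂ} {f g : ℂ → ℂ} (h : Hol ψ (f t0, g t0))
    (hf : AnalyticAt ℂ f t0) (hg : AnalyticAt ℂ g t0) :
    AnalyticAt ℂ (fun t => ψ (f t, g t)) t0 := by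
  rw [Complex.analyticAt_iff_eventually_differentiableAt]
  have h1 : Tendsto (fun t => (f t, g t)) (𝓝 t0) (𝓝 (f t0, g t0)) :=
    (hf.continuousAt.prodMk hg.continuousAt).tendsto
  filter_upwards [h1.eventually h, hf.eventually_analyticAt, hg.eventually_analyticAt]
    with t ht hft hgt
  exact DifferentiableAt.comp t ht (hft.differentiableAt.prodMk hgt.differentiableAt)

end H24.LS
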