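import Pool.Agent.H24.LS.C0
import Pool.Agent.H24.LS.C1

/-!
# C2: division by a power of the second (resp. first) variable

`hol_div`: if `ψ` is `Hol` at `(a, 0)` and `‖ψ (X, t)‖ ≤ C ‖t‖^m` near `(a,0)` then `ψ = t^m ψ1` with
`ψ1` `Hol` at `(a, 0)`.

Proof.  Induction on `m`; it suffices to do `m = 1` (if `‖ψ‖ ≤ C ‖t‖^{m+1}`, `ψ = t ψ1` then
`‖ψ1‖ ≤ C ‖t‖^m` for `t ≠ 0` and by continuity also for `t = 0`; for `m = 0` the claim is empty).
`m = 1`: let `ψ` be differentiable on `ball a (3r) ×ˢ ball 0 (3r)`; `ψ(X,0) = 0`.  For `‖t‖ < r` put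
`ψ1 (X,t) = (2πi)⁻¹ ∮_{|σ| = 2r} ψ(X,σ)/(σ (σ - t)) dσ`.  It is differentiable in `(X,t)` (under the
integral sign, as in C1: the integrand is jointly differentiable in `(X,t)` with bounded
derivative).  For `t ≠ 0`: `1/(σ(σ-t)) = (1/t)(1/(σ-t) - 1/σ)`, so by Cauchy's formula
`ψ1 (X,t) = (ψ(X,t) - ψ(X,0))/t`, i.e. `t ψ1 = ψ`; for `t = 0` both sides of `ψ = t ψ1` are `0`.

`hol_div'`: same for the first variable (apply `hol_div` to `ψ ∘ Prod.swap`).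

`hol_expand`: Taylor expansion in the first variable with holomorphic remainder: apply `hol_div'` with
`m = 1` repeatedly: `ψ(X,t) = ψ(0,t) + X ψ1(X,t)`, etc.
-/

open Filter Topology Metric

namespace H24.LS

/-- the map `(x, t) ↦ (x, s t)` -/
private noncomputable def C2_lin (s : ℝ) : ℂ × ℂ →L[ℂ] ℂ × ℂ :=
  (ContinuousLinearMap.inl ℂ ℂ ℂ).comp (ContinuousLinearMap.fst ℂ ℂ ℂ) +
    (s : ℂ) • (ContinuousLinearMap.inr ℂ ℂ ℂ).comp (ContinuousLinearMap.snd ℂ ℂ ℂ)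

private theorem C2_lin_apply (s : ℝ) (q : ℂ × ℂ) : C2_lin s q = (q.1, (s : ℂ) * q.2) := by
  simp [C2_lin]

private theorem C2_lin_norm {s : ℝ} (h0 : 0 ≤ s) (h1 : s ≤ 1) : ‖C2_lin s‖ ≤ 1 := by
  refine ContinuousLinearMap.opNorm_le_bound _ zero_le_one fun q => ?_
  rw [C2_lin_apply, one_mul, Prod.norm_mk]
  refine max_le (norm_fst_le q) ?_
  rw [norm_mul, Complex.norm_real, Real.norm_of_nonneg h0]
  calc s * ‖q.2‖ ≤ 1 * ‖q.2‖ := mul_le_mul_of_nonneg_right h1 (norm_nonneg _)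
    _ ≤ ‖q‖ := by rw [one_mul]; exact norm_snd_le q

private theorem C2_lin_cont : Continuous C2_lin := by
  unfold C2_lin
  fun_prop

private theorem C2_div1 {ψ : ℂ × ℂ → ℂ} {a : ℂ} (h : Hol ψ (a, 0))
    (h0 : ∀ᶠ q in 𝓝 ((a, 0) : ℂ × ℂ), ψ (q.1, 0) = 0) :
    ∃ ψ1 : ℂ × ℂ → ℂ, Hol ψ1 (a, 0) ∧ ∀ᶠ q in 𝓝 ((a, 0) : ℂ × ℂ), ψ q = q.2 * ψ1 q := by
  set p : ℂ × ℂ := (a, 0) with hp
  set D : ℂ × ℂ → ℂ := fun q => deriv (fun Y => ψ (q.1, Y)) q.2 with hD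
  have hDh : Hol D p := h.pderiv'
  have E2 : ∀ᶠ q in 𝓝 p, ContDiffAt ℂ 1 D q := by
    have h1 : ∀ᶠ q in 𝓝 p, ∀ᶠ q' in 𝓝 q, DifferentiableAt ℂ D q' :=
      eventually_eventually_nhds.2 hDh
    exact h1.mono fun q hq => Hol.contDiffAt hq
  have E3 : ∀ᶠ q in 𝓝 p, ‖fderiv ℂ D q‖ < ‖fderiv ℂ D p‖ + 1 := by
    have h1 : ContinuousAt (fderiv ℂ D) p := (Hol.contDiffAt hDh).continuousAt_fderiv one_ne_zero
    exact h1.norm.eventually_lt_const (lt_add_one _)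
  obtain ⟨δ, hδ, hball⟩ := Metric.eventually_nhds_iff_ball.1 ((h.and E2).and (E3.and h0))
  set M : ℝ := ‖fderiv ℂ D p‖ + 1 with hM
  have hmem : ∀ q ∈ ball p δ, ∀ s : ℝ, 0 ≤ s → s ≤ 1 → (q.1, (s : ℂ) * q.2) ∈ ball p δ := by
    intro q hq s hs0 hs1
    rw [mem_ball, hp, Prod.dist_eq] at hq ⊢
    simp only at hq ⊢
    refine lt_of_le_of_lt (max_le_max le_rfl ?_) hq
    rw [dist_zero_right, dist_zero_right, norm_mul, Complex.norm_real, Real.norm_of_nonneg hs0]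
    exact mul_le_of_le_one_left (norm_nonneg _) hs1
  -- continuity of the integrand
  have hcs : Continuous fun s : ℝ => ((s : ℂ)) := Complex.continuous_ofReal
  have hcont : ∀ q ∈ ball p δ, ContinuousOn (fun s : ℝ => D (q.1, (s : ℂ) * q.2)) (Set.Icc 0 1) := by
    intro q hq s hs
    have h1 : ContinuousAt D (q.1, (s : ℂ) * q.2) :=
      (hball _ (hmem q hq s hs.1 hs.2)).1.2.continuousAt
    have h2 : ContinuousAt (fun s : ℝ => (q.1, (s : ℂ) * q.2)) s := by fun_prop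
    exact (ContinuousAt.comp (f := fun s : ℝ => (q.1, (s : ℂ) * q.2)) h1 h2).continuousWithinAt
  set F' : ℂ × ℂ → ℝ → (ℂ × ℂ →L[ℂ] ℂ) := fun q s =>
    (fderiv ℂ D (q.1, (s : ℂ) * q.2)).comp (C2_lin s) with hF'
  have hcont' : ∀ q ∈ ball p δ, ContinuousOn (F' q) (Set.Icc 0 1) := by
    intro q hq s hs
    have h1 : ContinuousAt (fderiv ℂ D) (q.1, (s : ℂ) * q.2) :=
      (hball _ (hmem q hq s hs.1 hs.2)).1.2.continuousAt_fderiv one_ne_zero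
    have h2 : ContinuousAt (fun s : ℝ => (q.1, (s : ℂ) * q.2)) s := by fun_prop
    have h3 : ContinuousAt (fun s : ℝ => fderiv ℂ D (q.1, (s : ℂ) * q.2)) s :=
      ContinuousAt.comp (f := fun s : ℝ => (q.1, (s : ℂ) * q.2)) h1 h2
    exact (h3.clm_comp C2_lin_cont.continuousAt).continuousWithinAt
  have hsub : Set.uIoc (0 : ℝ) 1 ⊆ Set.Icc 0 1 := by
    rw [Set.uIoc_of_le zero_le_one]
    exact Set.Ioc_subset_Icc_self
  have hint : ∀ q ∈ ball p δ, IntervalIntegrable (fun s : ℝ => D (q.1, (s : ℂ) * q.2))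
      MeasureTheory.volume 0 1 := by
    intro q hq
    refine ContinuousOn.intervalIntegrable ?_
    rw [Set.uIcc_of_le zero_le_one]
    exact hcont q hq
  refine ⟨fun q => ∫ s in (0 : ℝ)..1, D (q.1, (s : ℂ) * q.2), ?_, ?_⟩
  · -- differentiability
    have hev : ∀ᶠ q in 𝓝 p, q ∈ ball p δ := isOpen_ball.mem_nhds (mem_ball_self hδ)
    refine hev.mono fun q0 hq0 => ?_
    have key := intervalIntegral.hasFDerivAt_integral_of_dominated_of_fderiv_le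
      (𝕜 := ℂ) (μ := MeasureTheory.volume) (a := 0) (b := 1)
      (F := fun (q : ℂ × ℂ) (s : ℝ) => D (q.1, (s : ℂ) * q.2)) (F' := F') (x₀ := q0)
      (s := ball p δ) (bound := fun _ => M) (isOpen_ball.mem_nhds hq0) ?_ (hint q0 hq0) ?_ ?_ ?_ ?_
    · exact key.differentiableAt
    · filter_upwards [isOpen_ball.mem_nhds hq0] with q hq
      exact ((hcont q hq).mono hsub).aestronglyMeasurable measurableSet_uIoc
    · exact ((hcont' q0 hq0).mono hsub).aestronglyMeasurable measurableSet_uIoc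
    · refine Filter.Eventually.of_forall fun s hs q hq => ?_
      have hs' := hsub hs
      have h1 : ‖fderiv ℂ D (q.1, (s : ℂ) * q.2)‖ ≤ M := (hball _ (hmem q hq s hs'.1 hs'.2)).2.1.le
      calc ‖F' q s‖ ≤ ‖fderiv ℂ D (q.1, (s : ℂ) * q.2)‖ * ‖C2_lin s‖ :=
            ContinuousLinearMap.opNorm_comp_le _ _
        _ ≤ M * 1 := mul_le_mul h1 (C2_lin_norm hs'.1 hs'.2) (norm_nonneg _)
            ((norm_nonneg _).trans h1)
        _ = M := mul_one _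
    · exact intervalIntegrable_const
    · refine Filter.Eventually.of_forall fun s hs q hq => ?_
      have hs' := hsub hs
      have h1 : HasFDerivAt D (fderiv ℂ D (q.1, (s : ℂ) * q.2)) (C2_lin s q) := by
        rw [C2_lin_apply]
        exact ((hball _ (hmem q hq s hs'.1 hs'.2)).1.2.differentiableAt one_ne_zero).hasFDerivAt
      have h2 := h1.comp q (C2_lin s).hasFDerivAt
      have h3 : (D ∘ fun q => C2_lin s q) = fun q : ℂ × ℂ => D (q.1, (s : ℂ) * q.2) := by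
        funext q
        simp only [Function.comp, C2_lin_apply]
      have h4 : (D ∘ ⇑(C2_lin s)) = fun q : ℂ × ℂ => D (q.1, (s : ℂ) * q.2) := h3
      rw [h4] at h2
      exact h2
  · -- the equation
    have hev : ∀ᶠ q in 𝓝 p, q ∈ ball p δ := isOpen_ball.mem_nhds (mem_ball_self hδ)
    refine hev.mono fun q hq => ?_
    have hderiv : ∀ s ∈ Set.uIcc (0 : ℝ) 1, HasDerivAt (fun s : ℝ => ψ (q.1, (s : ℂ) * q.2))
        (D (q.1, (s : ℂ) * q.2) * q.2) s := by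
      intro s hs
      rw [Set.uIcc_of_le zero_le_one] at hs
      have h1 : DifferentiableAt ℂ ψ (q.1, (s : ℂ) * q.2) := (hball _ (hmem q hq s hs.1 hs.2)).1.1
      have h2 : DifferentiableAt ℂ (fun Y => ψ (q.1, Y)) ((s : ℂ) * q.2) :=
        DifferentiableAt.comp ((s : ℂ) * q.2) (g := ψ) (f := fun Y => (q.1, Y)) h1 (by fun_prop)
      have h3 : HasDerivAt (fun Y => ψ (q.1, Y)) (D (q.1, (s : ℂ) * q.2)) ((s : ℂ) * q.2) :=
        h2.hasDerivAt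
      have h4 : HasDerivAt (fun z : ℂ => z * q.2) q.2 (s : ℂ) := by
        simpa using (hasDerivAt_id (s : ℂ)).mul_const q.2
      have h5 := HasDerivAt.comp (s : ℂ) h3 h4
      exact h5.comp_ofReal
    have hii : IntervalIntegrable (fun s : ℝ => D (q.1, (s : ℂ) * q.2) * q.2)
        MeasureTheory.volume 0 1 := (hint q hq).mul_const q.2
    have h6 := intervalIntegral.integral_eq_sub_of_hasDerivAt hderiv hii
    rw [intervalIntegral.integral_mul_const] at h6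
    have h7 : ψ (q.1, 0) = 0 := (hball q hq).2.2
    simp only [Complex.ofReal_one, one_mul, Complex.ofReal_zero, zero_mul] at h6
    rw [h7, sub_zero] at h6
    rw [mul_comm]
    exact h6.symm

private theorem C2_swap {ψ : ℂ × ℂ → ℂ} {a b : ℂ} (h : Hol ψ (a, b)) :
    Hol (fun q => ψ q.swap) (b, a) := by
  have h1 : Tendsto (Prod.swap : ℂ × ℂ → ℂ × ℂ) (𝓝 (b, a)) (𝓝 (a, b)) :=
    (continuous_swap.tendsto ((b, a) : ℂ × ℂ))
  have h2 := h1.eventually h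
  refine h2.mono fun q hq => ?_
  exact DifferentiableAt.comp q (g := ψ) (f := Prod.swap) hq (by
    have : (Prod.swap : ℂ × ℂ → ℂ × ℂ) = fun q => (q.2, q.1) := rfl
    rw [this]
    fun_prop)

private theorem C2_div1' {ψ : ℂ × ℂ → ℂ} {a : ℂ} (h : Hol ψ (0, a))
    (h0 : ∀ᶠ q in 𝓝 ((0, a) : ℂ × ℂ), ψ (0, q.2) = 0) :
    ∃ ψ1 : ℂ × ℂ → ℂ, Hol ψ1 (0, a) ∧ ∀ᶠ q in 𝓝 ((0, a) : ℂ × ℂ), ψ q = q.1 * ψ1 q := by
  have ht : Tendsto (Prod.swap : ℂ × ℂ → ℂ × ℂ) (𝓝 (a, 0)) (𝓝 (0, a)) :=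
    (continuous_swap.tendsto ((a, 0) : ℂ × ℂ))
  have ht' : Tendsto (Prod.swap : ℂ × ℂ → ℂ × ℂ) (𝓝 (0, a)) (𝓝 (a, 0)) :=
    (continuous_swap.tendsto ((0, a) : ℂ × ℂ))
  obtain ⟨ψ1, h1, h2⟩ := C2_div1 (C2_swap h) (ht.eventually h0)
  exact ⟨fun q => ψ1 q.swap, C2_swap h1, ht'.eventually h2⟩

theorem hol_div {ψ : ℂ × ℂ → ℂ} {a : ℂ} (h : Hol ψ (a, 0)) (m : ℕ) (C : ℝ)
    (hb : ∀ᶠ q in 𝓝 ((a, 0) : ℂ × ℂ), ‖ψ q‖ ≤ C * ‖q.2‖ ^ m) :
    ∃ ψ1 : ℂ × ℂ → ℂ, Hol ψ1 (a, 0) ∧ ∀ᶠ q in 𝓝 ((a, 0) : ℂ × ℂ), ψ q = q.2 ^ m * ψ1 q := by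
  induction m generalizing ψ with
  | zero => exact ⟨ψ, h, Filter.Eventually.of_forall fun q => by rw [pow_zero, one_mul]⟩
  | succ m ih =>
    have h0 : ∀ᶠ q in 𝓝 ((a, 0) : ℂ × ℂ), ψ (q.1, 0) = 0 := by
      have ht : Tendsto (fun q : ℂ × ℂ => (q.1, (0 : ℂ))) (𝓝 (a, 0)) (𝓝 (a, 0)) := by
        have hc : Continuous fun q : ℂ × ℂ => (q.1, (0 : ℂ)) := by fun_prop
        exact hc.tendsto ((a, 0) : ℂ × ℂ)
      refine (ht.eventually hb).mono fun q hq => ?_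
      simp only [norm_zero, ne_eq, Nat.add_eq_zero_iff, one_ne_zero, and_false, not_false_eq_true,
        zero_pow, mul_zero] at hq
      exact norm_le_zero_iff.1 hq
    obtain ⟨ψ1, h1, h2⟩ := C2_div1 h h0
    have h3 : ∀ᶠ q in 𝓝 ((a, 0) : ℂ × ℂ), ‖ψ1 q‖ ≤ C * ‖q.2‖ ^ m := by
      obtain ⟨δ, hδ, hball⟩ := Metric.eventually_nhds_iff_ball.1 ((h1.and h2).and hb)
      have hne : ∀ q ∈ ball ((a, 0) : ℂ × ℂ) δ, q.2 ≠ 0 → ‖ψ1 q‖ ≤ C * ‖q.2‖ ^ m := by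
        intro q hq hq2
        have h4 := (hball q hq).2
        rw [(hball q hq).1.2, norm_mul, pow_succ, ← mul_assoc, mul_comm (‖q.2‖)] at h4
        exact le_of_mul_le_mul_right h4 (norm_pos_iff.2 hq2)
      refine Metric.eventually_nhds_iff_ball.2 ⟨δ, hδ, fun q hq => ?_⟩
      by_cases hq2 : q.2 = 0
      · have hq' : (q.1, (0 : ℂ)) = q := by rw [← hq2]
        have hc1 : Tendsto (fun t : ℂ => (q.1, t)) (𝓝[≠] 0) (𝓝 q) := by
          have hc : Continuous fun t : ℂ => (q.1, t) := by fun_prop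
          have := (hc.tendsto 0).mono_left (nhdsWithin_le_nhds (s := {0}ᶜ))
          rwa [hq'] at this
        have hl : Tendsto (fun t : ℂ => ‖ψ1 (q.1, t)‖) (𝓝[≠] 0) (𝓝 ‖ψ1 q‖) :=
          ((hball q hq).1.1.continuousAt.tendsto.comp hc1).norm
        have hr : Tendsto (fun t : ℂ => C * ‖t‖ ^ m) (𝓝[≠] 0) (𝓝 (C * ‖q.2‖ ^ m)) := by
          have hc : Continuous fun t : ℂ => C * ‖t‖ ^ m := by fun_prop
          rw [hq2]
          exact (hc.tendsto 0).mono_left nhdsWithin_le_nhds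
        refine le_of_tendsto_of_tendsto hl hr ?_
        have he := hc1.eventually (isOpen_ball.mem_nhds hq)
        filter_upwards [he, self_mem_nhdsWithin] with t ht ht0
        exact hne (q.1, t) ht ht0
      · exact hne q hq hq2
    obtain ⟨ψ2, h5, h6⟩ := ih h1 h3
    refine ⟨ψ2, h5, ?_⟩
    filter_upwards [h2, h6] with q hq hq'
    rw [hq, hq']
    ring

theorem hol_div' {ψ : ℂ × ℂ → ℂ} {a : ℂ} (h : Hol ψ (0, a)) (m : ℕ) (C : ℝ)
    (hb : ∀ᶠ q in 𝓝 ((0, a) : ℂ × ℂ), ‖ψ q‖ ≤ C * ‖q.1‖ ^ m) :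
    ∃ ψ1 : ℂ × ℂ → ℂ, Hol ψ1 (0, a) ∧ ∀ᶠ q in 𝓝 ((0, a) : ℂ × ℂ), ψ q = q.1 ^ m * ψ1 q := by
  have ht : Tendsto (Prod.swap : ℂ × ℂ → ℂ × ℂ) (𝓝 (a, 0)) (𝓝 (0, a)) :=
    (continuous_swap.tendsto ((a, 0) : ℂ × ℂ))
  have ht' : Tendsto (Prod.swap : ℂ × ℂ → ℂ × ℂ) (𝓝 (0, a)) (𝓝 (a, 0)) :=
    (continuous_swap.tendsto ((0, a) : ℂ × ℂ))
  obtain ⟨ψ1, h1, h2⟩ := hol_div (C2_swap h) m C (ht.eventually hb)
  exact ⟨fun q => ψ1 q.swap, C2_swap h1, ht'.eventually h2⟩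

theorem hol_expand {ψ : ℂ × ℂ → ℂ} (h : Hol ψ (0, 0)) (n : ℕ) :
    ∃ (c : ℕ → ℂ → ℂ) (R : ℂ × ℂ → ℂ), (∀ i, AnalyticAt ℂ (c i) 0) ∧ Hol R (0, 0) ∧
      ∀ᶠ q in 𝓝 ((0, 0) : ℂ × ℂ),
        ψ q = (∑ i ∈ Finset.range (n + 1), c i q.2 * q.1 ^ i) + q.1 ^ (n + 1) * R q := by
  have step : ∀ {φ : ℂ × ℂ → ℂ}, Hol φ (0, 0) → AnalyticAt ℂ (fun t => φ (0, t)) 0 ∧
      ∃ R : ℂ × ℂ → ℂ, Hol R (0, 0) ∧ ∀ᶠ q in 𝓝 ((0, 0) : ℂ × ℂ),
        φ q = φ (0, q.2) + q.1 * R q := by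
    intro φ hφ
    have ha : AnalyticAt ℂ (fun t => φ (0, t)) 0 :=
      Hol.analytic_comp (f := fun _ => 0) (g := fun t => t) hφ analyticAt_const analyticAt_id
    refine ⟨ha, ?_⟩
    have hc : Tendsto (fun q : ℂ × ℂ => ((0 : ℂ), q.2)) (𝓝 (0, 0)) (𝓝 (0, 0)) := by
      have hc : Continuous fun q : ℂ × ℂ => ((0 : ℂ), q.2) := by fun_prop
      exact hc.tendsto ((0, 0) : ℂ × ℂ)
    have h1 : Hol (fun q => φ q - φ (0, q.2)) (0, 0) := by
      have h2 := hc.eventually hφ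
      filter_upwards [hφ, h2] with q hq hq'
      exact hq.sub (DifferentiableAt.comp q (g := φ) (f := fun q : ℂ × ℂ => ((0 : ℂ), q.2)) hq'
        (by fun_prop))
    obtain ⟨R, hR, hR'⟩ := C2_div1' h1 (Filter.Eventually.of_forall fun q => sub_self _)
    refine ⟨R, hR, hR'.mono fun q hq => ?_⟩
    rw [← hq]
    ring
  induction n with
  | zero =>
    obtain ⟨h1, R, hR, hR'⟩ := step h
    refine ⟨fun _ t => ψ (0, t), R, fun _ => h1, hR, hR'.mono fun q hq => ?_⟩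
    rw [hq]
    simp
  | succ n ih =>
    obtain ⟨c, R, hc, hR, hq⟩ := ih
    obtain ⟨h1, R', hR', hq'⟩ := step hR
    refine ⟨fun i => if i = n + 1 then fun t => R (0, t) else c i, R', ?_, hR', ?_⟩
    · intro i
      by_cases hi : i = n + 1
      · simp only [if_pos hi]
        exact h1
      · simp only [if_neg hi]
        exact hc i
    · filter_upwards [hq, hq'] with q h2 h3
      rw [Finset.sum_range_succ, h2]
      have h4 : ∀ i ∈ Finset.range (n + 1),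
          (if i = n + 1 then fun t => R (0, t) else c i) q.2 * q.1 ^ i = c i q.2 * q.1 ^ i := by
        intro i hi
        rw [if_neg (by rw [Finset.mem_range] at hi; omega)]
      rw [Finset.sum_congr rfl h4, if_pos rfl]
      conv_lhs => rw [h3]
      ring

end H24.LS
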