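import Pool.Agent.H24.LS.C0
import Pool.Agent.H24.LS.C1
import Pool.Agent.H24.LS.C2

/-!
# C3: the Tschirnhausen shift

If `ψ` is `Hol` at `(x0,0)` and `ψ(·,0)` has a zero of order exactly `n ≥ 1` at `x0`, there is an analytic
`c(t)`, `c(0) = x0`, such that in the expansion of `ψ(c(t) + X, t)` in powers of `X` up to order `n`
the coefficient of `X^(n-1)` vanishes identically, the coefficient of `X^n` is nonzero at `t = 0`
and the coefficients of `X^i`, `i < n`, vanish at `t = 0`.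

Proof.  Let `D(X,t) = ∂_X^{n-1} ψ(X,t)` (iterate `Hol.pderiv`), `Hol` at `(x0,0)`.  `D(x0,0) = 0`
and `∂_X D(x0,0) = ∂_X^n ψ(x0,0) ≠ 0` by the order condition.  `D` is `C^1`
(`Hol.contDiffAt`), so by the implicit function theorem (`ContDiffAt` / `HasStrictFDerivAt`
version for `ℂ × ℂ → ℂ`) there is `c` with `D(c(t),t) = 0`, `c(0) = x0`, `C^1` over `ℂ` near `0`,
hence analytic at `0` (one variable).  Put `ψ1(X,t) = ψ(c(t)+X,t)`, `Hol` at `(0,0)` (composition).
Expand by `hol_expand`: `ψ1 = Σ_{i ≤ n} c_i(t) X^i + X^{n+1} R`.  Taking `n-1` derivatives in `X` at `X = 0`: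
`(n-1)! c_{n-1}(t) = ∂_X^{n-1} ψ1(0,t) = D(c(t),t) = 0`.  At `t = 0`: `ψ(x0 + X, 0) = X^n w(X)`,
`w(0) ≠ 0`, so `c_i(0) = 0` for `i < n`, `c_n(0) = w(0) ≠ 0` (uniqueness of Taylor coefficients).
(For `n = 1`: `D = ψ`, and `c_0 ≡ 0`.)
-/

open Filter Topology Metric

namespace H24.LS

/-- partial derivative in the first variable -/
noncomputable def C3_pd (ψ : ℂ × ℂ → ℂ) : ℂ × ℂ → ℂ :=
  fun q => deriv (fun X => ψ (X, q.2)) q.1

theorem C3_pd_hol {ψ : ℂ × ℂ → ℂ} {p : ℂ × ℂ} (h : Hol ψ p) (k : ℕ) : Hol (C3_pd^[k] ψ) p := by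
  induction k with
  | zero => exact h
  | succ k ih => rw [Function.iterate_succ_apply']; exact ih.pderiv

theorem C3_pd_eq (ψ : ℂ × ℂ → ℂ) (k : ℕ) (X t : ℂ) :
    (C3_pd^[k] ψ) (X, t) = (deriv^[k] (fun X => ψ (X, t))) X := by
  induction k generalizing X with
  | zero => rfl
  | succ k ih =>
    rw [Function.iterate_succ_apply', Function.iterate_succ_apply']
    show deriv (fun Y => (C3_pd^[k] ψ) (Y, t)) X = deriv (deriv^[k] fun X => ψ (X, t)) X
    congr 1
    funext Y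
    exact ih Y

/-- iterated derivatives at `0` of a function with a finite expansion -/
theorem C3_coeff (k : ℕ) : ∀ (n : ℕ) (a : ℕ → ℂ) (r g : ℂ → ℂ), k ≤ n → AnalyticAt ℂ r 0 →
    (∀ᶠ X in 𝓝 (0 : ℂ), g X = (∑ i ∈ Finset.range (n + 1), a i * X ^ i) + X ^ (n + 1) * r X) →
    (deriv^[k] g) 0 = (k.factorial : ℂ) * a k := by
  induction k with
  | zero =>
    intro n a r g _ _ h
    have := h.self_of_nhds
    rw [Finset.sum_range_succ'] at this
    simp at this
    simpa using this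
  | succ k ih =>
    intro n a r g hk hr h
    obtain ⟨m, rfl⟩ : ∃ m, n = m + 1 := ⟨n - 1, by omega⟩
    rw [Function.iterate_succ_apply]
    have key := ih m (fun i => ((i : ℂ) + 1) * a (i + 1))
      (fun X => ((m : ℂ) + 2) * r X + X * deriv r X) (deriv g) (by omega)
      ((analyticAt_const.mul hr).add (analyticAt_id.mul hr.deriv)) ?_
    · rw [key, Nat.factorial_succ]
      push_cast
      ring
    · filter_upwards [h.eventually_nhds, hr.eventually_analyticAt] with X hX hrX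
      have hX' : g =ᶠ[𝓝 X] fun X => (∑ i ∈ Finset.range (m + 1 + 1), a i * X ^ i)
        + X ^ (m + 1 + 1) * r X := hX
      rw [hX'.deriv_eq]
      have h1 : HasDerivAt (fun X : ℂ => ∑ i ∈ Finset.range (m + 1 + 1), a i * X ^ i)
          (∑ i ∈ Finset.range (m + 1 + 1), a i * ((i : ℂ) * X ^ (i - 1))) X :=
        HasDerivAt.fun_sum fun i _ => (hasDerivAt_pow i X).const_mul (a i)
      have h2 : HasDerivAt (fun X : ℂ => X ^ (m + 1 + 1) * r X)
          (((m + 1 + 1 : ℕ) : ℂ) * X ^ (m + 1 + 1 - 1) * r X + X ^ (m + 1 + 1) * deriv r X) X :=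
        (hasDerivAt_pow (m + 1 + 1) X).mul hrX.differentiableAt.hasDerivAt
      have h3 : HasDerivAt (fun X : ℂ => (∑ i ∈ Finset.range (m + 1 + 1), a i * X ^ i)
        + X ^ (m + 1 + 1) * r X) _ X := h1.add h2
      rw [h3.deriv, Finset.sum_range_succ']
      have h4 : ∀ i ∈ Finset.range (m + 1), a (i + 1) * (((i + 1 : ℕ) : ℂ) * X ^ (i + 1 - 1))
          = ((i : ℂ) + 1) * a (i + 1) * X ^ i := by
        intro i _
        rw [Nat.add_sub_cancel]
        push_cast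
        ring
      rw [Finset.sum_congr rfl h4]
      simp only [Nat.add_sub_cancel]
      push_cast
      ring

/-- uniqueness of the coefficients up to order `n` -/
theorem C3_unique (n : ℕ) : ∀ (a : ℕ → ℂ) (v : ℂ → ℂ), ContinuousAt v 0 →
    (∀ᶠ X in 𝓝[≠] (0 : ℂ), ∑ i ∈ Finset.range (n + 1), a i * X ^ i = X ^ n * v X) →
    (∀ i, i < n → a i = 0) ∧ a n = v 0 := by
  induction n with
  | zero =>
    intro a v hv h
    refine ⟨fun i hi => absurd hi (by omega), ?_⟩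
    have h1 : Tendsto v (𝓝[≠] 0) (𝓝 (v 0)) := hv.tendsto.mono_left nhdsWithin_le_nhds
    have h2 : Tendsto v (𝓝[≠] 0) (𝓝 (a 0)) := by
      refine tendsto_const_nhds.congr' ?_
      filter_upwards [h] with X hX
      simpa using hX
    exact tendsto_nhds_unique h2 h1
  | succ n ih =>
    intro a v hv h
    have h1 : Tendsto v (𝓝[≠] 0) (𝓝 (v 0)) := hv.tendsto.mono_left nhdsWithin_le_nhds
    have ha0 : a 0 = 0 := by
      have h2 : Tendsto (fun X : ℂ => ∑ i ∈ Finset.range (n + 1 + 1), a i * X ^ i) (𝓝[≠] 0)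
          (𝓝 (a 0)) := by
        have hc : Continuous (fun X : ℂ => ∑ i ∈ Finset.range (n + 1 + 1), a i * X ^ i) := by
          fun_prop
        have h3 := (hc.tendsto 0).mono_left (nhdsWithin_le_nhds (s := {0}ᶜ))
        rw [Finset.sum_range_succ'] at h3
        simpa using h3
      have h4 : Tendsto (fun X : ℂ => X ^ (n + 1) * v X) (𝓝[≠] 0) (𝓝 0) := by
        have hc : Continuous (fun X : ℂ => X ^ (n + 1)) := by fun_prop
        have h5 := ((hc.tendsto 0).mono_left (nhdsWithin_le_nhds (s := {0}ᶜ))).mul h1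
        simpa using h5
      exact tendsto_nhds_unique (h2.congr' h) h4
    have h6 := ih (fun i => a (i + 1)) v hv (by
      filter_upwards [h, self_mem_nhdsWithin] with X hX hX0
      rw [Finset.sum_range_succ', ha0] at hX
      simp only [pow_zero, zero_mul, add_zero] at hX
      have hX0' : X ≠ 0 := hX0
      apply mul_left_cancel₀ hX0'
      rw [Finset.mul_sum]
      calc ∑ i ∈ Finset.range (n + 1), X * (a (i + 1) * X ^ i)
          = ∑ i ∈ Finset.range (n + 1), a (i + 1) * X ^ (i + 1) := by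
            refine Finset.sum_congr rfl fun i _ => ?_
            ring
        _ = X ^ (n + 1) * v X := hX
        _ = X * (X ^ n * v X) := by ring)
    refine ⟨fun i hi => ?_, h6.2⟩
    rcases i with _ | i
    · exact ha0
    · exact h6.1 i (by omega)

/-- shifting the first variable -/
theorem C3_shiftHol {ψ : ℂ × ℂ → ℂ} {x0 : ℂ} (h : Hol ψ (x0, 0)) {s : ℂ → ℂ}
    (hs : AnalyticAt ℂ s 0) (hs0 : s 0 = x0) : Hol (fun q => ψ (s q.2 + q.1, q.2)) (0, 0) := by
  unfold Hol at *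
  have hc : Tendsto (fun q : ℂ × ℂ => (s q.2 + q.1, q.2)) (𝓝 (0, 0)) (𝓝 (x0, 0)) := by
    have h0 : ContinuousAt (fun q : ℂ × ℂ => s q.2) (0, 0) :=
      ContinuousAt.comp (g := s) (f := fun q : ℂ × ℂ => q.2) hs.continuousAt
        continuous_snd.continuousAt
    have h1 : ContinuousAt (fun q : ℂ × ℂ => (s q.2 + q.1, q.2)) (0, 0) :=
      (h0.add continuous_fst.continuousAt).prodMk continuous_snd.continuousAt
    have := h1.tendsto
    simpa [hs0] using this
  have hs' : ∀ᶠ q : ℂ × ℂ in 𝓝 (0, 0), AnalyticAt ℂ s q.2 :=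
    (continuous_snd.tendsto ((0, 0) : ℂ × ℂ)).eventually hs.eventually_analyticAt
  filter_upwards [hc.eventually h, hs'] with q hq hsq
  have h3 : DifferentiableAt ℂ (fun q : ℂ × ℂ => s q.2) q :=
    DifferentiableAt.comp q (g := s) (f := fun q : ℂ × ℂ => q.2) hsq.differentiableAt
      differentiableAt_snd
  have h2 : DifferentiableAt ℂ (fun q : ℂ × ℂ => (s q.2 + q.1, q.2)) q := by fun_prop
  exact DifferentiableAt.comp q (g := ψ) (f := fun q : ℂ × ℂ => (s q.2 + q.1, q.2)) hq h2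

/-- coefficients of slices -/
theorem C3_slice {g R : ℂ × ℂ → ℂ} {c : ℕ → ℂ → ℂ} {n : ℕ} (hR : Hol R (0, 0))
    (h : ∀ᶠ q in 𝓝 ((0, 0) : ℂ × ℂ),
      g q = (∑ i ∈ Finset.range (n + 1), c i q.2 * q.1 ^ i) + q.1 ^ (n + 1) * R q)
    {k : ℕ} (hk : k ≤ n) :
    ∀ᶠ t in 𝓝 (0 : ℂ), (deriv^[k] fun X => g (X, t)) 0 = (k.factorial : ℂ) * c k t := by
  have h1 : Tendsto (fun t : ℂ => ((0 : ℂ), t)) (𝓝 0) (𝓝 (0, 0)) := by
    have hc : Continuous fun t : ℂ => ((0 : ℂ), t) := by fun_prop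
    exact hc.tendsto 0
  have h2 := h1.eventually (eventually_eventually_nhds.2 (h.and hR))
  filter_upwards [h2] with t ht
  have h3 : Tendsto (fun X : ℂ => (X, t)) (𝓝 0) (𝓝 (0, t)) := by
    have hc : Continuous fun X : ℂ => (X, t) := by fun_prop
    exact hc.tendsto 0
  have h4 := h3.eventually ht
  refine C3_coeff k n (fun i => c i t) (fun X => R (X, t)) _ hk ?_ ?_
  · rw [Complex.analyticAt_iff_eventually_differentiableAt]
    filter_upwards [h4] with X hX
    exact DifferentiableAt.comp X (g := R) (f := fun X : ℂ => (X, t)) hX.2 (by fun_prop)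
  · filter_upwards [h4] with X hX
    exact hX.1

/-- order of the slice at `t = 0` -/
theorem C3_order {ψ R : ℂ × ℂ → ℂ} {x0 : ℂ} {c : ℕ → ℂ → ℂ} {n : ℕ} {s : ℂ → ℂ} (hs0 : s 0 = x0)
    (hR : Hol R (0, 0))
    (h : ∀ᶠ q in 𝓝 ((0, 0) : ℂ × ℂ), ψ (s q.2 + q.1, q.2) =
      (∑ i ∈ Finset.range (n + 1), c i q.2 * q.1 ^ i) + q.1 ^ (n + 1) * R q)
    (w : ℂ → ℂ) (hw : ContinuousAt w x0)
    (hord : ∀ᶠ X in 𝓝 x0, ψ (X, 0) = (X - x0) ^ n * w X) :
    (∀ i, i < n → c i 0 = 0) ∧ c n 0 = w x0 := by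
  have h3 : Tendsto (fun X : ℂ => (X, (0 : ℂ))) (𝓝 0) (𝓝 (0, 0)) := by
    have hc : Continuous fun X : ℂ => (X, (0 : ℂ)) := by fun_prop
    exact hc.tendsto 0
  have h4 : Tendsto (fun X : ℂ => x0 + X) (𝓝 0) (𝓝 x0) := by
    have hc : Continuous fun X : ℂ => x0 + X := by fun_prop
    simpa using hc.tendsto 0
  have hw' : ContinuousAt (fun X : ℂ => w (x0 + X)) 0 := by
    have : Tendsto (fun X : ℂ => w (x0 + X)) (𝓝 0) (𝓝 (w x0)) := hw.tendsto.comp h4
    unfold ContinuousAt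
    simpa using this
  have hR' : ContinuousAt (fun X : ℂ => R (X, 0)) 0 := by
    have hRc : ContinuousAt R (0, 0) := (hR.self_of_nhds).continuousAt
    exact ContinuousAt.comp (g := R) (f := fun X : ℂ => (X, (0 : ℂ))) hRc (by fun_prop)
  have key := C3_unique n (fun i => c i 0) (fun X => w (x0 + X) - X * R (X, 0))
    (hw'.sub (continuousAt_id.mul hR')) ?_
  · refine ⟨key.1, ?_⟩
    have := key.2
    simpa using this
  · refine Filter.Eventually.filter_mono nhdsWithin_le_nhds ?_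
    filter_upwards [h3.eventually h, h4.eventually hord] with X h5 h6
    simp only [hs0] at h5
    rw [h6] at h5
    have : X ^ n * (w (x0 + X) - X * R (X, 0)) = (x0 + X - x0) ^ n * w (x0 + X)
        - X ^ (n + 1) * R (X, 0) := by
      rw [add_sub_cancel_left]; ring
    rw [this, h5]
    ring

theorem C3_iter_shift (f : ℂ → ℂ) (k : ℕ) (a x : ℂ) :
    (deriv^[k] fun X => f (a + X)) x = (deriv^[k] f) (a + x) := by
  have h := iteratedDeriv_comp_const_add k f a
  rw [iteratedDeriv_eq_iterate, iteratedDeriv_eq_iterate] at h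
  exact congrFun h x

/-- the implicit function -/
theorem C3_implicit {D : ℂ × ℂ → ℂ} {x0 : ℂ} (h : Hol D (x0, 0)) (h0 : D (x0, 0) = 0)
    (h1 : deriv (fun X => D (X, 0)) x0 ≠ 0) :
    ∃ s : ℂ → ℂ, AnalyticAt ℂ s 0 ∧ s 0 = x0 ∧ ∀ᶠ t in 𝓝 (0 : ℂ), D (s t, t) = 0 := by
  have hsw : Hol (fun q : ℂ × ℂ => D (q.2, q.1)) (0, x0) := by
    unfold Hol at h ⊢
    have hc : Tendsto (fun q : ℂ × ℂ => (q.2, q.1)) (𝓝 (0, x0)) (𝓝 (x0, 0)) := by
      have hc : Continuous fun q : ℂ × ℂ => (q.2, q.1) := by fun_prop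
      exact hc.tendsto ((0, x0) : ℂ × ℂ)
    filter_upwards [hc.eventually h] with q hq
    exact DifferentiableAt.comp q (g := D) (f := fun q : ℂ × ℂ => (q.2, q.1)) hq (by fun_prop)
  have hcd : ContDiffAt ℂ 1 (fun q : ℂ × ℂ => D (q.2, q.1)) (0, x0) := hsw.contDiffAt
  have hd : DifferentiableAt ℂ (fun q : ℂ × ℂ => D (q.2, q.1)) (0, x0) := hsw.self_of_nhds
  set G : ℂ × ℂ → ℂ := fun q => D (q.2, q.1) with hG
  have hfd : fderiv ℂ G (0, x0) (0, 1) = deriv (fun X => D (X, 0)) x0 := by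
    have h5 : HasDerivAt (fun Y : ℂ => ((0 : ℂ), Y)) ((0 : ℂ), (1 : ℂ)) x0 :=
      (hasDerivAt_const _ _).prodMk (hasDerivAt_id x0)
    have h6 : HasDerivAt (fun Y => G (0, Y)) (fderiv ℂ G (0, x0) (0, 1)) x0 :=
      HasFDerivAt.comp_hasDerivAt (l := G) x0 hd.hasFDerivAt h5
    exact h6.deriv.symm
  have hinv : (fderiv ℂ G (0, x0) ∘L .inr ℂ ℂ ℂ).IsInvertible := by
    refine ⟨ContinuousLinearEquiv.unitsEquivAut ℂ (Units.mk0 _ h1), ?_⟩
    ext
    simp [hfd]
  refine ⟨hcd.implicitFunction one_ne_zero hinv, ?_, ?_, ?_⟩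
  · have h2 := hcd.contDiffAt_implicitFunction one_ne_zero hinv
    rw [Complex.analyticAt_iff_eventually_differentiableAt]
    have h3 : ∀ᶠ t in 𝓝 (0 : ℂ), ContDiffAt ℂ 1 (hcd.implicitFunction one_ne_zero hinv) t :=
      h2.eventually (by simp)
    exact h3.mono fun t ht => ht.differentiableAt one_ne_zero
  · exact hcd.implicitFunction_apply_self one_ne_zero hinv
  · have h2 := hcd.eventually_apply_implicitFunction one_ne_zero hinv
    filter_upwards [h2] with t ht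
    simp only [hG] at ht
    rw [h0] at ht
    exact ht

theorem shift_exists {ψ : ℂ × ℂ → ℂ} {x0 : ℂ} (h : Hol ψ (x0, 0)) (n : ℕ) (hn : 1 ≤ n)
    (w : ℂ → ℂ) (hw : ContinuousAt w x0) (hw0 : w x0 ≠ 0)
    (hord : ∀ᶠ X in 𝓝 x0, ψ (X, 0) = (X - x0) ^ n * w X) :
    ∃ (s : ℂ → ℂ) (c : ℕ → ℂ → ℂ) (R : ℂ × ℂ → ℂ), AnalyticAt ℂ s 0 ∧ s 0 = x0 ∧
      (∀ i, AnalyticAt ℂ (c i) 0) ∧ Hol R (0, 0) ∧
      (∀ᶠ q in 𝓝 ((0, 0) : ℂ × ℂ), ψ (s q.2 + q.1, q.2) =
        (∑ i ∈ Finset.range (n + 1), c i q.2 * q.1 ^ i) + q.1 ^ (n + 1) * R q) ∧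
      (∀ t, c (n - 1) t = 0) ∧ c n 0 = w x0 ∧ ∀ i, i < n → c i 0 = 0 := by
  -- first expansion, at `x0`
  obtain ⟨a, R0, -, hR0, hexp0⟩ := hol_expand (C3_shiftHol h (s := fun _ => x0) analyticAt_const rfl) n
  have ho0 := C3_order (s := fun _ => x0) rfl hR0 hexp0 w hw hord
  set D : ℂ × ℂ → ℂ := C3_pd^[n - 1] ψ with hD
  have hDH : Hol D (x0, 0) := C3_pd_hol h _
  have hval : ∀ k, k ≤ n → (deriv^[k] fun X => ψ (X, 0)) x0 = (k.factorial : ℂ) * a k 0 := by
    intro k hk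
    have h1 := (C3_slice hR0 hexp0 hk).self_of_nhds
    rw [C3_iter_shift (fun X => ψ (X, 0)), add_zero] at h1
    exact h1
  have hD0 : D (x0, 0) = 0 := by
    rw [hD, C3_pd_eq, hval (n - 1) (by omega), ho0.1 (n - 1) (by omega), mul_zero]
  have hD1 : deriv (fun X => D (X, 0)) x0 ≠ 0 := by
    have h1 : (fun X => D (X, 0)) = deriv^[n - 1] (fun X => ψ (X, 0)) := by
      funext X
      rw [hD, C3_pd_eq]
    rw [h1]
    have h2 : deriv (deriv^[n - 1] fun X => ψ (X, 0)) x0 = (deriv^[n] fun X => ψ (X, 0)) x0 := by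
      rw [← Function.iterate_succ_apply' deriv (n - 1), Nat.succ_eq_add_one,
        Nat.sub_add_cancel hn]
    rw [h2, hval n le_rfl, ho0.2]
    exact mul_ne_zero (by exact_mod_cast n.factorial_ne_zero) hw0
  obtain ⟨s, hs, hs0, hsD⟩ := C3_implicit hDH hD0 hD1
  -- second expansion, at `s t`
  obtain ⟨c, R, hc, hR, hexp⟩ := hol_expand (C3_shiftHol h hs hs0) n
  have ho := C3_order hs0 hR hexp w hw hord
  have hvan : ∀ᶠ t in 𝓝 (0 : ℂ), c (n - 1) t = 0 := by
    filter_upwards [C3_slice hR hexp (k := n - 1) (by omega), hsD] with t h1 h2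
    rw [C3_iter_shift (fun X => ψ (X, t)), add_zero, ← C3_pd_eq, ← hD, h2] at h1
    rcases mul_eq_zero.1 h1.symm with h3 | h3
    · exact absurd h3 (by exact_mod_cast (n - 1).factorial_ne_zero)
    · exact h3
  refine ⟨s, fun i => if i = n - 1 then fun _ => 0 else c i, R, hs, hs0, ?_, hR, ?_, ?_, ?_, ?_⟩
  · intro i
    by_cases hi : i = n - 1
    · simp only [if_pos hi]; exact analyticAt_const
    · simp only [if_neg hi]; exact hc i
  · have h1 : ∀ᶠ q : ℂ × ℂ in 𝓝 (0, 0), c (n - 1) q.2 = 0 :=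
      (continuous_snd.tendsto ((0, 0) : ℂ × ℂ)).eventually hvan
    filter_upwards [hexp, h1] with q h2 h3
    rw [h2]
    congr 1
    refine Finset.sum_congr rfl fun i _ => ?_
    by_cases hi : i = n - 1
    · rw [if_pos hi, hi, h3]
    · rw [if_neg hi]
  · intro t
    simp
  · have hne : n ≠ n - 1 := by omega
    simp only [if_neg hne]
    exact ho.2
  · intro i hi
    by_cases hi' : i = n - 1
    · simp only [if_pos hi']
    · simp only [if_neg hi']; exact ho.1 i hi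

end H24.LS
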