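import Pool.Agent.H24.LS.C0
import Pool.Agent.H24.LS.C1

/-!
# C4: the Newton step

Data: `ψ1(X,t) = Σ_{i ≤ n} c_i(t) X^i + X^{n+1} R(X,t)` near `(0,0)`, `c_i` analytic, `c_i(0) = 0` for
`i < n`, `c_n(0) ≠ 0`, `c_{n-1} ≡ 0`, and some `c_i` (`i < n`) is not identically `0` near `0`.
Result: `p, q ≥ 1`, a function `ψ2` and a polynomial `h` of degree `n`, all of whose roots have
multiplicity `< n`, with `ψ1(τ^p Z, τ^q) = τ^{n p} ψ2(Z, τ)` near `(Z0, 0)` for every `Z0`,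
`ψ2` is `Hol` at every `(Z0, 0)`, `ψ2(Z,0) = h(Z)`, leading coefficient of `h` = `c_n(0)`.

Proof.  For `i < n` with `c_i ≢ 0` write `c_i(t) = t^{e_i} g_i(t)`, `g_i(0) ≠ 0`, `e_i ≥ 1`
(`AnalyticAt.exists_eventuallyEq_pow_smul_nonzero_iff` / `analyticOrderAt`).  Let
`θ = min e_i/(n-i) = p/q > 0` (`p = e_{i0}`, `q = n - i0` for a minimising `i0`; no need to reduce the
fraction).  Then `q e_i ≥ p (n-i)` for all such `i`, with equality for `i0`.  Put
`ψ2(Z,τ) = Σ_{i<n, c_i ≢ 0} τ^{q e_i - p(n-i)} g_i(τ^q) Z^i + c_n(τ^q) Z^n + τ^p Z^{n+1} R(τ^p Z, τ^q)`.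
It is `Hol` at every `(Z0,0)`.  `h(Z) = ψ2(Z,0) = c_n(0) Z^n + Σ_{i < n-1} h_i Z^i` with `h_{i0} ≠ 0`
(`i0 ≤ n-2` as `c_{n-1} ≡ 0`).  If a root `ζ` had multiplicity `n`, then `h = c_n(0) (Z - ζ)^n`, the
coefficient of `Z^{n-1}` is `-n c_n(0) ζ = 0`, so `ζ = 0` and `h = c_n(0) Z^n`, contradicting
`h_{i0} ≠ 0`.
-/

open Filter Topology Metric

namespace H24.LS

private theorem C4_mult (n i0 : ℕ) (hi0 : i0 < n) (b : ℕ → ℂ) (hb : b n ≠ 0) (hb1 : b (n - 1) = 0)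
    (hbi : b i0 ≠ 0) (h : Polynomial ℂ)
    (hh : h = ∑ i ∈ Finset.range (n + 1), Polynomial.C (b i) * Polynomial.X ^ i) :
    h.natDegree = n ∧ h.leadingCoeff = b n ∧ ∀ Z0, h.rootMultiplicity Z0 < n := by
  have hco : ∀ m, h.coeff m = if m ∈ Finset.range (n + 1) then b m else 0 := by
    intro m
    rw [hh, Polynomial.finsetSum_coeff]
    simp only [Polynomial.coeff_C_mul_X_pow]
    rw [Finset.sum_ite_eq]
  have hcn : h.coeff n = b n := by
    rw [hco, if_pos (by simp)]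
  have hdeg : h.natDegree = n := by
    refine Polynomial.natDegree_eq_of_le_of_coeff_ne_zero ?_ (by rw [hcn]; exact hb)
    rw [Polynomial.natDegree_le_iff_coeff_eq_zero]
    intro m hm
    rw [hco, if_neg]
    simp only [Finset.mem_range]
    omega
  have hlead : h.leadingCoeff = b n := by
    rw [Polynomial.leadingCoeff, hdeg, hcn]
  have hne : h ≠ 0 := by
    rintro rfl
    rw [Polynomial.coeff_zero] at hcn
    exact hb hcn.symm
  refine ⟨hdeg, hlead, ?_⟩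
  intro Z0
  by_contra hlt
  push Not at hlt
  have hdvd : (Polynomial.X - Polynomial.C Z0) ^ n ∣ h :=
    (Polynomial.le_rootMultiplicity_iff hne).1 hlt
  obtain ⟨k, hk⟩ := hdvd
  have hmon : ((Polynomial.X - Polynomial.C Z0) ^ n : Polynomial ℂ).Monic :=
    (Polynomial.monic_X_sub_C Z0).pow n
  have hk0 : k ≠ 0 := by
    rintro rfl
    rw [mul_zero] at hk
    exact hne hk
  have hkd : k.natDegree = 0 := by
    have h1 := hmon.natDegree_mul' hk0
    rw [← hk, hdeg, Polynomial.natDegree_pow, Polynomial.natDegree_X_sub_C, mul_one] at h1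
    omega
  obtain ⟨a, rfl⟩ : ∃ a, k = Polynomial.C a := ⟨_, Polynomial.eq_C_of_natDegree_eq_zero hkd⟩
  have ha : a ≠ 0 := by
    rintro rfl
    simp at hk0
  have h2 : h.coeff (n - 1) = 0 := by
    rw [hco, if_pos (by simp only [Finset.mem_range]; omega), hb1]
  have hXp : ∀ j, ((Polynomial.X - Polynomial.C Z0) ^ n : Polynomial ℂ).coeff j =
      (-Z0) ^ (n - j) * (n.choose j : ℂ) := by
    intro j
    rw [sub_eq_add_neg, ← Polynomial.C_neg, Polynomial.coeff_X_add_C_pow]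
  rw [hk, Polynomial.coeff_mul_C, hXp] at h2
  have h3 : n - (n - 1) = 1 := by omega
  rw [h3, pow_one] at h2
  have h4 : (n.choose (n - 1) : ℂ) ≠ 0 := by
    have : 0 < n.choose (n - 1) := Nat.choose_pos (by omega)
    exact_mod_cast this.ne'
  have hZ : Z0 = 0 := by
    have := (mul_eq_zero.1 h2).resolve_right ha
    have := (mul_eq_zero.1 this).resolve_right h4
    exact neg_eq_zero.1 this
  have h5 : h.coeff i0 = b i0 := by
    rw [hco, if_pos (by simp only [Finset.mem_range]; omega)]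
  rw [hk, Polynomial.coeff_mul_C, hXp, hZ, neg_zero,
    zero_pow (by omega), zero_mul, zero_mul] at h5
  exact hbi h5.symm

private theorem C4_fac (c : ℂ → ℂ) (hc : AnalyticAt ℂ c 0) :
    ∃ (e : ℕ) (g : ℂ → ℂ), AnalyticAt ℂ g 0 ∧ (∀ᶠ t in 𝓝 (0 : ℂ), c t = t ^ e * g t) ∧
      ((¬ ∀ᶠ t in 𝓝 (0 : ℂ), c t = 0) → g 0 ≠ 0) ∧ ((∀ᶠ t in 𝓝 (0 : ℂ), c t = 0) → g = 0) := by
  by_cases h : ∀ᶠ t in 𝓝 (0 : ℂ), c t = 0
  · refine ⟨0, 0, analyticAt_const, ?_, fun h' => absurd h h', fun _ => rfl⟩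
    filter_upwards [h] with t ht
    simp [ht]
  · obtain ⟨e, g, hg, hg0, hcg⟩ := hc.exists_eventuallyEq_pow_smul_nonzero_iff.2 h
    refine ⟨e, g, hg, ?_, fun _ => hg0, fun h' => absurd h' h⟩
    filter_upwards [hcg] with t ht
    simpa using ht

theorem newton_step (n : ℕ) (hn : 1 ≤ n) (ψ1 : ℂ × ℂ → ℂ) (c : ℕ → ℂ → ℂ) (R : ℂ × ℂ → ℂ)
    (hc : ∀ i, AnalyticAt ℂ (c i) 0) (hR : Hol R (0, 0))
    (hψ : ∀ᶠ q in 𝓝 ((0, 0) : ℂ × ℂ), ψ1 q =
        (∑ i ∈ Finset.range (n + 1), c i q.2 * q.1 ^ i) + q.1 ^ (n + 1) * R q)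
    (h1 : ∀ t, c (n - 1) t = 0) (hn0 : c n 0 ≠ 0) (h0 : ∀ i, i < n → c i 0 = 0)
    (hne : ∃ i, i < n ∧ ¬ ∀ᶠ t in 𝓝 (0 : ℂ), c i t = 0) :
    ∃ (p q : ℕ) (ψ2 : ℂ × ℂ → ℂ) (h : Polynomial ℂ), 1 ≤ p ∧ 1 ≤ q ∧
      (∀ Z0 : ℂ, Hol ψ2 (Z0, 0)) ∧
      (∀ Z0 : ℂ, ∀ᶠ z in 𝓝 ((Z0, 0) : ℂ × ℂ),
        ψ1 (z.2 ^ p * z.1, z.2 ^ q) = z.2 ^ (n * p) * ψ2 z) ∧
      (∀ Z, ψ2 (Z, 0) = h.eval Z) ∧ h.natDegree = n ∧ h.leadingCoeff = c n 0 ∧
      ∀ Z0, h.rootMultiplicity Z0 < n := by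
  classical
  choose e g hg hcg hg0 hgz using fun i => C4_fac (c i) (hc i)
  have hSne : ((Finset.range n).filter (fun i => ¬ ∀ᶠ t in 𝓝 (0 : ℂ), c i t = 0)).Nonempty := by
    obtain ⟨i, hi, hi2⟩ := hne
    exact ⟨i, by simp only [Finset.mem_filter, Finset.mem_range]; exact ⟨hi, hi2⟩⟩
  obtain ⟨i0, hi0, hmin⟩ := Finset.exists_min_image _ (fun i => (e i : ℚ) / ((n : ℚ) - i)) hSne
  rw [Finset.mem_filter, Finset.mem_range] at hi0
  obtain ⟨hi0n, hi0P⟩ := hi0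
  have hkey : ∀ i, i < n → (¬ ∀ᶠ t in 𝓝 (0 : ℂ), c i t = 0) →
      e i0 * (n - i) ≤ (n - i0) * e i := by
    intro i hi hP
    have h2 := hmin i (by rw [Finset.mem_filter, Finset.mem_range]; exact ⟨hi, hP⟩)
    have h3 : (0 : ℚ) < (n : ℚ) - i := by
      have : (i : ℚ) < n := by exact_mod_cast hi
      linarith
    have h4 : (0 : ℚ) < (n : ℚ) - i0 := by
      have : (i0 : ℚ) < n := by exact_mod_cast hi0n
      linarith
    rw [div_le_div_iff₀ h4 h3] at h2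
    have h5 : ((e i0 * (n - i) : ℕ) : ℚ) ≤ (((n - i0) * e i : ℕ) : ℚ) := by
      push_cast [Nat.cast_sub hi.le, Nat.cast_sub hi0n.le]
      linarith
    exact_mod_cast h5
  have hp : 1 ≤ e i0 := by
    by_contra hcon
    have he : e i0 = 0 := by omega
    have h2 := (hcg i0).self_of_nhds
    rw [he, pow_zero, one_mul, h0 i0 hi0n] at h2
    exact hg0 i0 hi0P h2.symm
  have hq : 1 ≤ n - i0 := by omega
  set p := e i0 with hpdef
  set q := n - i0 with hqdef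
  set k : ℕ → ℕ := fun i => q * e i - p * (n - i) with hk
  set m : ℂ × ℂ → ℂ × ℂ := fun z => (z.2 ^ p * z.1, z.2 ^ q) with hm
  have hmc : Continuous m := by
    rw [hm]
    fun_prop
  have hmd : Differentiable ℂ m := by
    rw [hm]
    fun_prop
  have hm0 : ∀ Z0 : ℂ, m (Z0, 0) = (0, 0) := by
    intro Z0
    simp only [hm]
    rw [zero_pow (by omega), zero_pow (by omega), zero_mul]
  have hmt : ∀ Z0 : ℂ, Tendsto m (𝓝 (Z0, 0)) (𝓝 (0, 0)) := by
    intro Z0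
    have := hmc.tendsto (Z0, 0)
    rwa [hm0] at this
  have hqt : ∀ Z0 : ℂ, Tendsto (fun z : ℂ × ℂ => z.2 ^ q) (𝓝 (Z0, 0)) (𝓝 0) := by
    intro Z0
    have h2 : Continuous (fun z : ℂ × ℂ => z.2 ^ q) := by fun_prop
    have := h2.tendsto (Z0, 0)
    simpa [zero_pow (show q ≠ 0 by omega)] using this
  set ψ2 : ℂ × ℂ → ℂ := fun z => (∑ i ∈ Finset.range n, z.2 ^ k i * g i (z.2 ^ q) * z.1 ^ i) +
    c n (z.2 ^ q) * z.1 ^ n + z.2 ^ p * z.1 ^ (n + 1) * R (m z) with hψ2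
  set b : ℕ → ℂ := fun i => if i = n then c n 0 else 0 ^ k i * g i 0 with hb
  set h : Polynomial ℂ := ∑ i ∈ Finset.range (n + 1), Polynomial.C (b i) * Polynomial.X ^ i with hh
  have hbn : b n = c n 0 := by simp [hb]
  have hgn1 : g (n - 1) = 0 := hgz (n - 1) (Eventually.of_forall h1)
  have hb1 : b (n - 1) = 0 := by
    simp only [hb]
    rw [if_neg (by omega), hgn1]
    simp
  have hbi : b i0 ≠ 0 := by
    simp only [hb, hk]
    rw [if_neg (by omega)]
    have h2 : q * e i0 - p * (n - i0) = 0 := by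
      rw [← hpdef, ← hqdef, mul_comm, Nat.sub_self]
    rw [h2, pow_zero, one_mul]
    exact hg0 i0 hi0P
  obtain ⟨hdeg, hlead, hmult⟩ := C4_mult n i0 hi0n b (by rw [hbn]; exact hn0) hb1 hbi h hh
  refine ⟨p, q, ψ2, h, hp, hq, ?_, ?_, ?_, hdeg, by rw [hlead, hbn], hmult⟩
  · intro Z0
    have hRd : ∀ᶠ z in 𝓝 ((Z0, 0) : ℂ × ℂ), DifferentiableAt ℂ R (m z) := (hmt Z0).eventually hR
    have hgd : ∀ᶠ z in 𝓝 ((Z0, 0) : ℂ × ℂ), ∀ i ∈ Finset.range n,
        DifferentiableAt ℂ (g i) (z.2 ^ q) := by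
      rw [Filter.eventually_all_finset]
      intro i _
      refine (hqt Z0).eventually ?_
      filter_upwards [(hg i).eventually_analyticAt] with t ht
      exact ht.differentiableAt
    have hcd : ∀ᶠ z in 𝓝 ((Z0, 0) : ℂ × ℂ), DifferentiableAt ℂ (c n) (z.2 ^ q) := by
      refine (hqt Z0).eventually ?_
      filter_upwards [(hc n).eventually_analyticAt] with t ht
      exact ht.differentiableAt
    unfold Hol
    filter_upwards [hRd, hgd, hcd] with z hz1 hz2 hz3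
    have hzq : DifferentiableAt ℂ (fun z : ℂ × ℂ => z.2 ^ q) z := by fun_prop
    refine ((DifferentiableAt.fun_sum fun i hi => ?_).add ?_).add ?_
    · refine (DifferentiableAt.mul ?_ ?_).mul ?_
      · fun_prop
      · exact (hz2 i hi).comp z hzq
      · fun_prop
    · exact ((hz3.comp z hzq).mul (by fun_prop))
    · exact (DifferentiableAt.mul (by fun_prop) (by fun_prop)).mul (hz1.comp z (hmd z))
  · intro Z0
    have hz1 := (hmt Z0).eventually hψ
    have hz2 : ∀ᶠ z in 𝓝 ((Z0, 0) : ℂ × ℂ), ∀ i ∈ Finset.range n,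
        c i (z.2 ^ q) = (z.2 ^ q) ^ e i * g i (z.2 ^ q) := by
      rw [Filter.eventually_all_finset]
      intro i _
      exact (hqt Z0).eventually (hcg i)
    filter_upwards [hz1, hz2] with z h2 h3
    have h4 : ψ1 (z.2 ^ p * z.1, z.2 ^ q) = ψ1 (m z) := rfl
    rw [h4, h2, Finset.sum_range_succ]
    simp only [hψ2, mul_add, Finset.mul_sum]
    have h5 : ∑ i ∈ Finset.range n, c i (m z).2 * (m z).1 ^ i =
        ∑ i ∈ Finset.range n, z.2 ^ (n * p) * (z.2 ^ k i * g i (z.2 ^ q) * z.1 ^ i) := by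
      refine Finset.sum_congr rfl fun i hi => ?_
      have hin := Finset.mem_range.1 hi
      simp only [hm]
      rw [h3 i hi]
      by_cases hP : ∀ᶠ t in 𝓝 (0 : ℂ), c i t = 0
      · rw [hgz i hP]
        simp
      · have h6 := hkey i hin hP
        have h7 : q * e i + p * i = n * p + k i := by
          simp only [hk]
          have h8 : p * (n - i) + p * i = n * p := by
            rw [← mul_add, Nat.sub_add_cancel hin.le, mul_comm]
          omega
        calc (z.2 ^ q) ^ e i * g i (z.2 ^ q) * (z.2 ^ p * z.1) ^ i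
            = z.2 ^ (q * e i + p * i) * g i (z.2 ^ q) * z.1 ^ i := by
              rw [pow_add, pow_mul, pow_mul, mul_pow]
              ring
          _ = z.2 ^ (n * p) * (z.2 ^ k i * g i (z.2 ^ q) * z.1 ^ i) := by
              rw [h7, pow_add]
              ring
    rw [h5]
    simp only [hm]
    ring
  · intro Z
    simp only [hψ2, hh]
    rw [Polynomial.eval_finsetSum, Finset.sum_range_succ, zero_pow (show q ≠ 0 by omega),
      zero_pow (show p ≠ 0 by omega), zero_mul, zero_mul, add_zero]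
    simp only [Polynomial.eval_mul, Polynomial.eval_C, Polynomial.eval_pow, Polynomial.eval_X, hbn]
    congr 1
    refine Finset.sum_congr rfl fun i hi => ?_
    have hin := Finset.mem_range.1 hi
    simp only [hb]
    rw [if_neg (by omega)]

end H24.LS
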