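import Pool.Agent.H24.LS.C0

/-!
# C5: maximum principle with a finite exceptional set

If `W` is holomorphic near the closed disc except at finitely many points of the open disc, near
which it is bounded, and `‖W‖ ≤ M` on the boundary circle, then `‖W‖ ≤ M` on the disc off the
exceptional points.

Proof.  Removable singularities one point at a time (induction on the finite set `S`, or
directly: `Complex.differentiableOn_update_limUnder_of_bddAbove` gives for one point the extended
function), then `Complex.norm_le_of_forall_mem_frontier_norm_le`.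
-/

open Filter Topology Metric

namespace H24.LS

theorem max_principle_finite (ρ : ℝ) (hρ : 0 < ρ) (S : Finset ℂ) (W : ℂ → ℂ) (M : ℝ)
    (hS : ∀ z ∈ S, ‖z‖ < ρ)
    (hd : ∀ z, ‖z‖ ≤ ρ → z ∉ S → DifferentiableAt ℂ W z)
    (hb : ∀ z ∈ S, ∃ B : ℝ, ∀ᶠ w in 𝓝[≠] z, ‖W w‖ ≤ B)
    (hM : ∀ z, ‖z‖ = ρ → ‖W z‖ ≤ M) :
    ∀ z, ‖z‖ ≤ ρ → z ∉ S → ‖W z‖ ≤ M := by
  classical
  induction S using Finset.induction_on generalizing W with
  | empty =>
    intro z hz _
    have hcl : closure (ball (0 : ℂ) ρ) = closedBall 0 ρ := closure_ball _ hρ.ne'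
    have hfr : frontier (ball (0 : ℂ) ρ) = sphere 0 ρ := frontier_ball _ hρ.ne'
    refine Complex.norm_le_of_forall_mem_frontier_norm_le (U := ball (0 : ℂ) ρ) isBounded_ball
      ?_ ?_ ?_
    · refine DifferentiableOn.diffContOnCl ?_
      intro w hw
      rw [hcl, mem_closedBall_zero_iff] at hw
      exact (hd w hw (Finset.notMem_empty _)).differentiableWithinAt
    · intro w hw
      rw [hfr, mem_sphere_zero_iff_norm] at hw
      exact hM w hw
    · rw [hcl, mem_closedBall_zero_iff]
      exact hz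
  | insert s S hs ih =>
    intro z hz hzS
    obtain ⟨B, hB⟩ := hb s (Finset.mem_insert_self _ _)
    have hsρ := hS s (Finset.mem_insert_self _ _)
    have hev : ∀ᶠ w in 𝓝[≠] s, ‖w‖ ≤ ρ ∧ w ∉ insert s S ∧ ‖W w‖ ≤ B := by
      have h1 : ∀ᶠ w in 𝓝[≠] s, ‖w‖ ≤ ρ := by
        have h2 : ∀ᶠ w in 𝓝 s, ‖w‖ < ρ := continuous_norm.continuousAt.eventually (gt_mem_nhds hsρ)
        exact (h2.filter_mono nhdsWithin_le_nhds).mono fun w hw => hw.le
      have h3 : ∀ᶠ w in 𝓝[≠] s, w ∉ S := by
        have h4 : (↑S : Set ℂ)ᶜ ∈ 𝓝 s := S.finite_toSet.isClosed.isOpen_compl.mem_nhds hs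
        filter_upwards [nhdsWithin_le_nhds h4] with w hw
        exact hw
      have h5 : ∀ᶠ w in 𝓝[≠] s, w ≠ s := self_mem_nhdsWithin
      filter_upwards [h1, h3, h5, hB] with w a b c d
      refine ⟨a, ?_, d⟩
      rw [Finset.mem_insert]
      push Not
      exact ⟨c, b⟩
    obtain ⟨T, hT, hTs⟩ : ∃ T ∈ 𝓝 s, ∀ w ∈ T, w ≠ s → ‖w‖ ≤ ρ ∧ w ∉ insert s S ∧ ‖W w‖ ≤ B := by
      rw [eventually_nhdsWithin_iff] at hev
      exact ⟨_, hev, fun w hw hne => hw hne⟩
    set W' : ℂ → ℂ := Function.update W s (limUnder (𝓝[≠] s) W) with hW'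
    have hW'd : DifferentiableOn ℂ W' T := by
      refine Complex.differentiableOn_update_limUnder_of_bddAbove hT ?_ ?_
      · intro w hw
        obtain ⟨h1, h2, h3⟩ := hTs w hw.1 hw.2
        exact (hd w h1 h2).differentiableWithinAt
      · refine ⟨B, ?_⟩
        rintro _ ⟨w, hw, rfl⟩
        exact (hTs w hw.1 hw.2).2.2
    have hW's : DifferentiableAt ℂ W' s := hW'd.differentiableAt hT
    have heq : ∀ w, w ≠ s → W' =ᶠ[𝓝 w] W := by
      intro w hw
      filter_upwards [isOpen_ne.mem_nhds hw] with v hv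
      rw [hW', Function.update_of_ne hv]
    have hzs : z ≠ s := fun h => hzS (h ▸ Finset.mem_insert_self _ _)
    have key := ih W' (fun w hw => hS w (Finset.mem_insert_of_mem hw)) ?_ ?_ ?_ z hz
      (fun h => hzS (Finset.mem_insert_of_mem h))
    · rwa [(heq z hzs).eq_of_nhds] at key
    · intro w hw hwS
      by_cases hws : w = s
      · rw [hws]
        exact hW's
      · refine DifferentiableAt.congr_of_eventuallyEq (hd w hw ?_) (heq w hws)
        rw [Finset.mem_insert]
        push Not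
        exact ⟨hws, hwS⟩
    · intro w hw
      have hws : w ≠ s := fun h => hs (h ▸ hw)
      obtain ⟨B', hB'⟩ := hb w (Finset.mem_insert_of_mem hw)
      refine ⟨B', ?_⟩
      filter_upwards [hB', nhdsWithin_le_nhds (heq w hws)] with v h1 h2
      rw [h2]
      exact h1
    · intro w hw
      have hws : w ≠ s := fun h => by
        rw [h] at hw
        exact hsρ.ne hw
      rw [(heq w hws).eq_of_nhds]
      exact hM w hw

end H24.LS
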