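import Pool.Agent.H24.LS.C0
import Pool.Agent.H24.LS.C1
import Pool.Agent.H24.LS.C5

/-!
# C6: from the factorisations at the roots of `h` to the factorisation of `ψ1`

Data: `ψ1` is `Hol` at `(0,0)`, `ψ1(X,0) = X^n w(X)`, `w(0) ≠ 0`;
`ψ1(τ^p Z, τ^q) = τ^{np} ψ2(Z,τ)` near every `(Z0,0)`; `ψ2(Z,0) = h(Z)`, `deg h = n`; and for every root
`ζ` of `h` (multiplicity `m_ζ`) the Puiseux conclusion `Pui ψ2 ζ m_ζ` holds.
Then `Pui ψ1 0 n`.

Proof.  Let `N_ζ, χ_{ζ,l} (l < m_ζ), u_ζ` be the data at the root `ζ`, `M = ∏_ζ N_ζ`, `N = q M`; the `n`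
functions (indexed by `Fin n` through a bijection with `Σ ζ, Fin m_ζ`, `Σ m_ζ = n` since `ℂ` is
algebraically closed: `h.roots.card = n`)
`X_{ζ,l}(σ) = σ^{pM} χ_{ζ,l}(σ^{M/N_ζ})` are analytic and vanish at `0` (`p M ≥ 1`).
Let `u = w(0)`.  Given `ε`, choose `ρ > 0` such that `ψ1` is differentiable near
`closedBall 0 ρ ×ˢ closedBall 0 ρ`, `w ≠ 0`, `|w(X) - u| ≤ ε/2` on `closedBall 0 ρ` (`w` extended
holomorphically: `w(X) = ψ1(X,0)/X^n`; it is continuous at `0` by hypothesis).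
For `σ ≠ 0` small let `W_σ(X) = ψ1(X,σ^N)/∏ (X - X_{ζ,l}(σ)) - w(X)`, `S` = set of the roots
`X_{ζ,l}(σ)` and `0`.  All roots are in `ball 0 ρ` for small `σ`.
Boundedness near a root `X* = σ^{pM} Z*`, `Z* = χ_{ζ,l}(σ^{M/N_ζ})`: by `Pui ψ2 ζ` with `ε = 1` (for `σ`
small, `Z` near `Z*`): `‖ψ2(Z,σ^M)‖ ≤ (‖u_ζ‖ + 1) ∏_l ‖Z - χ_{ζ,l}‖`, and for the roots of the other
`ζ'` we have `‖Z - χ_{ζ',l}‖ ≥ c > 0`; since
`ψ1(X,σ^N) = σ^{npM} ψ2(Z,σ^M)` and `∏ (X - X_{ζ,l}) = σ^{npM} ∏ (Z - χ)`, the quotient is bounded near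
`X*`.  (The relation between `ψ1` and `ψ2` holds for `(Z, τ)` near `(ζ, 0)`, so for `σ` small enough it
holds in a fixed neighbourhood of `ζ`, finitely many `ζ`.)
At `X = 0` (if it is not one of the roots) `w` is bounded and the quotient is continuous.
On `‖X‖ = ρ`: `W_σ → 0` uniformly as `σ → 0` (continuity of the quotient in `(X,σ)` on the compact circle,
value `ψ1(X,0)/X^n = w(X)` at `σ = 0`).  By C5, `‖W_σ‖ ≤ ε/2` on the disc for `‖σ‖ < δ`, off `S`.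
Hence `‖ψ1(X,σ^N) - u ∏ (X - X_{ζ,l})‖ ≤ ε ∏ ‖X - X_{ζ,l}‖` for `‖X‖ < ρ`, `0 < ‖σ‖ < δ`, off the roots;
at the roots by continuity.  `σ = 0`: `ψ1(X,0) = X^n w(X)`.
-/

open Filter Topology Metric

namespace H24.LS

/-- away from the roots there is nothing to prove -/
private theorem C6_pui_zero (ψ2 : ℂ × ℂ → ℂ) (h : Polynomial ℂ) (hψ2 : ∀ Z0 : ℂ, Hol ψ2 (Z0, 0))
    (h2 : ∀ Z, ψ2 (Z, 0) = h.eval Z) (Z0 : ℂ) (hr : ¬ h.IsRoot Z0) : Pui ψ2 Z0 0 := by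
  refine ⟨1, Fin.elim0, h.eval Z0, le_rfl, hr, fun l => l.elim0, ?_⟩
  intro ε hε
  have hc : ContinuousAt ψ2 (Z0, 0) := (hψ2 Z0).self_of_nhds.continuousAt
  obtain ⟨δ, hδ, hb⟩ := Metric.continuousAt_iff.1 hc ε hε
  refine ⟨δ, hδ, fun X t hX ht => ?_⟩
  have h1 : dist (X, t) (Z0, (0 : ℂ)) < δ := by
    rw [Prod.dist_eq]
    simp only [dist_eq_norm, sub_zero]
    exact max_lt hX ht
  have h3 := hb h1
  rw [h2, dist_eq_norm] at h3
  simp only [Finset.univ_eq_empty, Finset.prod_empty, mul_one, pow_one]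
  exact h3.le

/-- the estimate of `ψ1` near a root by the product, for a fixed parameter -/
private theorem C6_bound {ι : Type} [Fintype ι] {m n p q : ℕ} (ψ1 ψ2 : ℂ × ℂ → ℂ)
    (hcard : Fintype.card ι = n) (Z : ι → ℂ) (z : Fin m → ℂ) (rest : ℂ → ℂ)
    (hprod : ∀ x, ∏ i, (x - Z i) = (∏ l, (x - z l)) * rest x) (hrest : Continuous rest)
    (a τ Z0 u : ℂ) (ha : a = τ ^ p) (ha0 : a ≠ 0) (h0 : rest Z0 ≠ 0)
    (hrel : ∀ᶠ w in 𝓝 ((Z0, τ) : ℂ × ℂ), ψ1 (w.2 ^ p * w.1, w.2 ^ q) = w.2 ^ (n * p) * ψ2 w)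
    (hest : ∀ᶠ x in 𝓝 Z0, ‖ψ2 (x, τ) - u * ∏ l, (x - z l)‖ ≤ 1 * ∏ l, ‖x - z l‖) :
    ∃ B : ℝ, 0 ≤ B ∧ ∀ᶠ X in 𝓝 (a * Z0),
      ‖ψ1 (X, τ ^ q)‖ ≤ B * ‖∏ i, (X - a * Z i)‖ := by
  set c := ‖rest Z0‖ / 2 with hc
  have hc0 : 0 < c := by
    have : 0 < ‖rest Z0‖ := norm_pos_iff.2 h0
    positivity
  have e1 : ∀ᶠ x in 𝓝 Z0, c < ‖rest x‖ := by
    have : ContinuousAt (fun x => ‖rest x‖) Z0 := hrest.continuousAt.norm
    apply this.eventually_const_lt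
    have : 0 < ‖rest Z0‖ := norm_pos_iff.2 h0
    rw [hc]
    linarith
  have e2 : ∀ᶠ x in 𝓝 Z0, ψ1 (τ ^ p * x, τ ^ q) = τ ^ (n * p) * ψ2 (x, τ) := by
    have hcont : ContinuousAt (fun x : ℂ => ((x, τ) : ℂ × ℂ)) Z0 := by fun_prop
    exact hcont.eventually hrel
  refine ⟨(‖u‖ + 1) / c, by positivity, ?_⟩
  have hdiv : Tendsto (fun X : ℂ => X / a) (𝓝 (a * Z0)) (𝓝 Z0) := by
    have : ContinuousAt (fun X : ℂ => X / a) (a * Z0) := by fun_prop
    have h2 := this.tendsto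
    rwa [mul_div_cancel_left₀ _ ha0] at h2
  filter_upwards [hdiv.eventually (e1.and (e2.and hest))] with X hX
  obtain ⟨h1, h2, h3⟩ := hX
  set x := X / a with hx
  have hXa : X = a * x := by rw [hx, mul_div_cancel₀ _ ha0]
  have hp1 : ∏ i, (X - a * Z i) = a ^ n * ∏ i, (x - Z i) := by
    rw [← hcard, ← Fintype.card_fin (Fintype.card ι)]
    have : ∏ i, (X - a * Z i) = ∏ i : ι, (a * (x - Z i)) := by
      apply Finset.prod_congr rfl
      intro i _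
      rw [hXa]
      ring
    rw [this, Finset.prod_mul_distrib, Finset.prod_const, Finset.card_univ, Fintype.card_fin]
  have h4 : ‖ψ2 (x, τ)‖ ≤ (‖u‖ + 1) * ‖∏ l, (x - z l)‖ := by
    have h5 : ‖ψ2 (x, τ)‖ ≤ ‖ψ2 (x, τ) - u * ∏ l, (x - z l)‖ + ‖u * ∏ l, (x - z l)‖ := by
      have := norm_add_le (ψ2 (x, τ) - u * ∏ l, (x - z l)) (u * ∏ l, (x - z l))
      simpa using this
    rw [norm_mul] at h5
    rw [one_mul, ← norm_prod] at h3
    linarith
  have h6 : ψ1 (X, τ ^ q) = a ^ n * ψ2 (x, τ) := by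
    rw [hXa, ha, h2]
    congr 1
    rw [← pow_mul, mul_comm]
  rw [h6, hp1, hprod, norm_mul, norm_mul, norm_mul]
  have h7 : (0:ℝ) ≤ ‖a ^ n‖ := norm_nonneg _
  have h8 : ‖ψ2 (x, τ)‖ ≤ (‖u‖ + 1) / c * (‖∏ l, (x - z l)‖ * ‖rest x‖) := by
    calc ‖ψ2 (x, τ)‖ ≤ (‖u‖ + 1) * ‖∏ l, (x - z l)‖ := h4
      _ = (‖u‖ + 1) / c * (‖∏ l, (x - z l)‖ * c) := by field_simp
      _ ≤ (‖u‖ + 1) / c * (‖∏ l, (x - z l)‖ * ‖rest x‖) := by gcongr
  calc ‖a ^ n‖ * ‖ψ2 (x, τ)‖ ≤ ‖a ^ n‖ * ((‖u‖ + 1) / c * (‖∏ l, (x - z l)‖ * ‖rest x‖)) := by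
        gcongr
    _ = (‖u‖ + 1) / c * (‖a ^ n‖ * (‖∏ l, (x - z l)‖ * ‖rest x‖)) := by ring

/-- The final estimate for a fixed value of the parameter. -/
private theorem C6_final {ι : Type} [Fintype ι] {n : ℕ}
    (f g w : ℂ → ℂ) (X : ι → ℂ) {ρ ε : ℝ} (hρ : 0 < ρ) (hε : 0 < ε)
    (hf : ∀ z, ‖z‖ ≤ ρ → DifferentiableAt ℂ f z) (hg : ∀ z, ‖z‖ ≤ ρ → DifferentiableAt ℂ g z)
    (hgw : ∀ z, ‖z‖ ≤ ρ → g z = z ^ n * w z)
    (hwε : ∀ z, ‖z‖ ≤ ρ → ‖w z - w 0‖ ≤ ε / 2)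
    (hX : ∀ i, ‖X i‖ < ρ)
    (hb : ∀ i, ∃ B : ℝ, 0 ≤ B ∧ ∀ᶠ z in 𝓝 (X i), ‖f z‖ ≤ B * ‖∏ i, (z - X i)‖)
    (hs : ∀ z, ‖z‖ = ρ → ‖f z / ∏ i, (z - X i) - g z / z ^ n‖ ≤ ε / 2) :
    ∀ z, ‖z‖ < ρ → ‖f z - w 0 * ∏ i, (z - X i)‖ ≤ ε * ∏ i, ‖z - X i‖ := by
  classical
  set S : Finset ℂ := insert 0 (Finset.univ.image X) with hS
  set W : ℂ → ℂ := fun z => f z / ∏ i, (z - X i) - g z / z ^ n with hW
  have hmemS : ∀ z, z ∉ S → z ≠ 0 ∧ ∀ i, z ≠ X i := by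
    intro z hz
    rw [hS, Finset.mem_insert, Finset.mem_image] at hz
    push Not at hz
    exact ⟨hz.1, fun i h => hz.2 i (Finset.mem_univ _) h.symm⟩
  have hprod0 : ∀ z, z ∉ S → ∏ i, (z - X i) ≠ 0 := by
    intro z hz
    rw [Finset.prod_ne_zero_iff]
    intro i _
    exact sub_ne_zero.2 ((hmemS z hz).2 i)
  have key : ∀ z, ‖z‖ ≤ ρ → z ∉ S → ‖W z‖ ≤ ε / 2 := by
    apply max_principle_finite ρ hρ S W (ε / 2)
    · intro z hz
      rw [hS, Finset.mem_insert, Finset.mem_image] at hz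
      rcases hz with rfl | ⟨i, _, rfl⟩
      · simpa using hρ
      · exact hX i
    · intro z hz hzS
      refine DifferentiableAt.sub ?_ ?_
      · refine (hf z hz).div ?_ (hprod0 z hzS)
        apply DifferentiableAt.fun_finsetProd
        intro i _
        fun_prop
      · exact (hg z hz).div (by fun_prop) (pow_ne_zero _ (hmemS z hzS).1)
    · intro z hzS
      have hz : ‖z‖ < ρ := by
        rw [hS, Finset.mem_insert, Finset.mem_image] at hzS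
        rcases hzS with rfl | ⟨i, _, rfl⟩
        · simpa using hρ
        · exact hX i
      -- first term
      obtain ⟨B1, hB1⟩ : ∃ B1 : ℝ, ∀ᶠ y in 𝓝[≠] z, ‖f y / ∏ i, (y - X i)‖ ≤ B1 := by
        by_cases hzX : ∃ i, z = X i
        · obtain ⟨i, rfl⟩ := hzX
          obtain ⟨B, hB0, hB⟩ := hb i
          refine ⟨B, (eventually_nhdsWithin_of_eventually_nhds hB).mono fun y hy => ?_⟩
          rw [norm_div]
          exact div_le_of_le_mul₀ (norm_nonneg _) hB0 hy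
        · push Not at hzX
          have hc : ContinuousAt (fun y => ‖f y / ∏ i, (y - X i)‖) z := by
            apply ContinuousAt.norm
            apply ContinuousAt.div (hf z hz.le).continuousAt
            · exact tendsto_finsetProd _ fun i _ => by
                have : ContinuousAt (fun y : ℂ => y - X i) z := by fun_prop
                exact this
            · rw [Finset.prod_ne_zero_iff]
              intro i _
              exact sub_ne_zero.2 (hzX i)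
          refine ⟨‖f z / ∏ i, (z - X i)‖ + 1, ?_⟩
          apply eventually_nhdsWithin_of_eventually_nhds
          exact (hc.eventually_lt_const (lt_add_one _)).mono fun y hy => hy.le
      -- second term
      obtain ⟨B2, hB2⟩ : ∃ B2 : ℝ, ∀ᶠ y in 𝓝[≠] z, ‖g y / y ^ n‖ ≤ B2 := by
        refine ⟨‖w 0‖ + ε / 2, ?_⟩
        have h1 : ∀ᶠ y in 𝓝 z, ‖y‖ < ρ :=
          (continuous_norm.continuousAt).eventually_lt_const hz
        apply eventually_nhdsWithin_of_eventually_nhds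
        filter_upwards [h1] with y hy
        have h2 : ‖w y‖ ≤ ‖w 0‖ + ε / 2 := by
          have h3 := hwε y hy.le
          have h4 : ‖w y‖ ≤ ‖w y - w 0‖ + ‖w 0‖ := by
            have := norm_add_le (w y - w 0) (w 0)
            simpa using this
          linarith
        rw [hgw y hy.le, norm_div, norm_mul]
        apply div_le_of_le_mul₀ (norm_nonneg _) (by positivity)
        rw [mul_comm]
        gcongr
      refine ⟨B1 + B2, ?_⟩
      filter_upwards [hB1, hB2] with y h1 h2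
      exact (norm_sub_le _ _).trans (add_le_add h1 h2)
    · exact hs
  -- off `S`
  have hoff : ∀ z, ‖z‖ ≤ ρ → z ∉ S → ‖f z - w 0 * ∏ i, (z - X i)‖ ≤ ε * ∏ i, ‖z - X i‖ := by
    intro z hz hzS
    have h1 := key z hz hzS
    have hP := hprod0 z hzS
    have hz0 := (hmemS z hzS).1
    have hgz : g z / z ^ n = w z := by
      rw [hgw z hz, mul_div_cancel_left₀ _ (pow_ne_zero _ hz0)]
    have h2 : f z - w 0 * ∏ i, (z - X i) = (W z + (w z - w 0)) * ∏ i, (z - X i) := by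
      rw [hW]
      simp only
      rw [hgz]
      field_simp
      ring
    rw [h2, norm_mul, norm_prod]
    have h3 := norm_add_le (W z) (w z - w 0)
    have h4 := hwε z hz
    have h5 : (0:ℝ) ≤ ∏ i, ‖z - X i‖ := Finset.prod_nonneg fun i _ => norm_nonneg _
    apply mul_le_mul_of_nonneg_right _ h5
    linarith
  -- everywhere, by continuity
  intro z hz
  by_cases hzS : z ∈ S
  · have hcl : ∀ᶠ y in 𝓝[≠] z, y ∉ S ∧ ‖y‖ ≤ ρ := by
      have h1 : ∀ᶠ y in 𝓝 z, ‖y‖ < ρ := (continuous_norm.continuousAt).eventually_lt_const hz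
      have h2 : ∀ᶠ y in 𝓝[≠] z, y ∉ S := by
        have h3 : (((S.erase z : Finset ℂ) : Set ℂ))ᶜ ∈ 𝓝 z :=
          (S.erase z).finite_toSet.isClosed.isOpen_compl.mem_nhds (by simp)
        filter_upwards [nhdsWithin_le_nhds h3, self_mem_nhdsWithin] with y hy1 hy2
        intro hyS
        apply hy1
        simp only [Finset.coe_erase, Set.mem_sdiff, Set.mem_singleton_iff]
        exact ⟨hyS, hy2⟩
      filter_upwards [h2, nhdsWithin_le_nhds h1] with y hy1 hy2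
      exact ⟨hy1, hy2.le⟩
    have hPc : Continuous (fun y : ℂ => ∏ i, (y - X i)) :=
      continuous_finsetProd _ fun i _ => by fun_prop
    have hPn : Continuous (fun y : ℂ => ∏ i, ‖y - X i‖) :=
      continuous_finsetProd _ fun i _ => by fun_prop
    have t1 : Tendsto (fun y => ‖f y - w 0 * ∏ i, (y - X i)‖) (𝓝[≠] z)
        (𝓝 ‖f z - w 0 * ∏ i, (z - X i)‖) := by
      have : ContinuousAt (fun y => ‖f y - w 0 * ∏ i, (y - X i)‖) z :=
        ((hf z hz.le).continuousAt.sub (continuousAt_const.mul hPc.continuousAt)).norm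
      exact this.tendsto.mono_left nhdsWithin_le_nhds
    have t2 : Tendsto (fun y => ε * ∏ i, ‖y - X i‖) (𝓝[≠] z) (𝓝 (ε * ∏ i, ‖z - X i‖)) := by
      have : ContinuousAt (fun y => ε * ∏ i, ‖y - X i‖) z :=
        continuousAt_const.mul hPn.continuousAt
      exact this.tendsto.mono_left nhdsWithin_le_nhds
    exact le_of_tendsto_of_tendsto t1 t2 (hcl.mono fun y hy => hoff y hy.2 hy.1)
  · exact hoff z hz.le hzS

theorem pui_glue (n : ℕ) (hn : 1 ≤ n) (ψ1 ψ2 : ℂ × ℂ → ℂ) (w : ℂ → ℂ) (p q : ℕ) (hp : 1 ≤ p)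
    (hq : 1 ≤ q) (h : Polynomial ℂ)
    (hψ1 : Hol ψ1 (0, 0)) (hw : ContinuousAt w 0) (hw0 : w 0 ≠ 0)
    (hord : ∀ᶠ X in 𝓝 (0 : ℂ), ψ1 (X, 0) = X ^ n * w X)
    (hψ2 : ∀ Z0 : ℂ, Hol ψ2 (Z0, 0))
    (hrel : ∀ Z0 : ℂ, ∀ᶠ z in 𝓝 ((Z0, 0) : ℂ × ℂ),
        ψ1 (z.2 ^ p * z.1, z.2 ^ q) = z.2 ^ (n * p) * ψ2 z)
    (h2 : ∀ Z, ψ2 (Z, 0) = h.eval Z) (hdeg : h.natDegree = n)
    (hpui : ∀ Z0, h.IsRoot Z0 → Pui ψ2 Z0 (h.rootMultiplicity Z0)) :
    Pui ψ1 0 n := by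
  classical
  have hpui' : ∀ Z0, Pui ψ2 Z0 (h.rootMultiplicity Z0) := by
    intro Z0
    by_cases hr : h.IsRoot Z0
    · exact hpui Z0 hr
    · have hm : h.rootMultiplicity Z0 = 0 := Polynomial.rootMultiplicity_eq_zero hr
      rw [hm]
      exact C6_pui_zero ψ2 h hψ2 h2 Z0 hr
  choose N χ u hN hu hχ hest using hpui'
  choose δ1 hδ1 hest1 using fun Z0 => hest Z0 1 one_pos
  set R := h.roots.toFinset with hR
  set M := ∏ ζ : R, N ζ with hM
  have hMpos : 0 < M := Finset.prod_pos (f := fun ζ : R => N ζ) fun ζ _ => hN ζ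
  have hdvd : ∀ ζ : R, N ζ ∣ M := fun ζ => Finset.dvd_prod_of_mem (fun ζ : R => N ζ) (Finset.mem_univ ζ)
  set k : R → ℕ := fun ζ => M / N ζ with hk
  have hkN : ∀ ζ : R, k ζ * N ζ = M := fun ζ => Nat.div_mul_cancel (hdvd ζ)
  have hkpos : ∀ ζ : R, k ζ ≠ 0 := by
    intro ζ h0
    have := hkN ζ
    rw [h0, zero_mul] at this
    omega
  have hcard : Fintype.card (Σ ζ : R, Fin (h.rootMultiplicity ζ.1)) = n := by
    rw [Fintype.card_sigma]
    simp only [Fintype.card_fin]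
    rw [Finset.sum_coe_sort R (fun ζ => h.rootMultiplicity ζ)]
    rw [← hdeg, ← IsAlgClosed.card_roots_eq_natDegree (p := h), ← Multiset.toFinset_sum_count_eq]
    exact Finset.sum_congr rfl fun ζ _ => (Polynomial.count_roots h).symm
  set Zs : (Σ ζ : R, Fin (h.rootMultiplicity ζ.1)) → ℂ → ℂ :=
    fun i σ => χ i.1 i.2 (σ ^ k i.1) with hZs
  have hZs_an : ∀ i, AnalyticAt ℂ (Zs i) 0 := by
    intro i
    have h1 : AnalyticAt ℂ (fun σ : ℂ => σ ^ k i.1) 0 := by fun_prop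
    have h3 : (fun σ : ℂ => σ ^ k i.1) 0 = 0 := by simp [hkpos i.1]
    exact ((hχ i.1 i.2).1).comp_of_eq h1 h3
  have hZs0 : ∀ i, Zs i 0 = i.1 := by
    intro i
    simp only [hZs]
    rw [zero_pow (hkpos i.1)]
    exact (hχ i.1 i.2).2
  have hZs_c : ∀ i, ContinuousAt (Zs i) 0 := fun i => (hZs_an i).continuousAt
  set Xs : (Σ ζ : R, Fin (h.rootMultiplicity ζ.1)) → ℂ → ℂ :=
    fun i σ => σ ^ (p * M) * Zs i σ with hXs
  have hpM : p * M ≠ 0 := by positivity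
  have hqM : q * M ≠ 0 := by positivity
  have hXs_an : ∀ i, AnalyticAt ℂ (Xs i) 0 := by
    intro i
    exact (by fun_prop : AnalyticAt ℂ (fun σ : ℂ => σ ^ (p * M)) 0).mul (hZs_an i)
  have hXs0 : ∀ i, Xs i 0 = 0 := by
    intro i
    simp only [hXs]
    rw [zero_pow hpM, zero_mul]
  have hXs_c : ∀ i, ContinuousAt (Xs i) 0 := fun i => (hXs_an i).continuousAt
  set e := Fintype.equivFinOfCardEq hcard with he
  refine ⟨q * M, fun l => Xs (e.symm l), w 0, by omega, hw0, fun l => ⟨hXs_an _, hXs0 _⟩, ?_⟩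
  intro ε hε
  have hP1 : ∀ X σ : ℂ, ∏ l, (X - Xs (e.symm l) σ) = ∏ i, (X - Xs i σ) := fun X σ =>
    Equiv.prod_comp e.symm (fun i => X - Xs i σ)
  have hP2 : ∀ X σ : ℂ, ∏ l, ‖X - Xs (e.symm l) σ‖ = ∏ i, ‖X - Xs i σ‖ := fun X σ =>
    Equiv.prod_comp e.symm (fun i => ‖X - Xs i σ‖)
  simp only [hP1, hP2]
  -- the radius `ρ`
  obtain ⟨ρ, hρ, H1, H2, H3⟩ : ∃ ρ > (0:ℝ), (∀ X t : ℂ, ‖X‖ ≤ ρ → ‖t‖ ≤ ρ →
      DifferentiableAt ℂ ψ1 (X, t)) ∧ (∀ X, ‖X‖ ≤ ρ → ψ1 (X, 0) = X ^ n * w X) ∧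
      (∀ X, ‖X‖ ≤ ρ → ‖w X - w 0‖ ≤ ε / 2) := by
    obtain ⟨r1, hr1, hb1⟩ := Metric.eventually_nhds_iff.1 hψ1
    obtain ⟨r2, hr2, hb2⟩ := Metric.eventually_nhds_iff.1 hord
    obtain ⟨r3, hr3, hb3⟩ := Metric.continuousAt_iff.1 hw (ε / 2) (by positivity)
    refine ⟨min r1 (min r2 r3) / 2, by positivity, ?_, ?_, ?_⟩
    · intro X t hX ht
      apply hb1
      rw [Prod.dist_eq]
      simp only [dist_eq_norm, sub_zero]
      have : min r1 (min r2 r3) / 2 < r1 := by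
        have h4 : min r1 (min r2 r3) ≤ r1 := min_le_left _ _
        linarith
      exact max_lt (by linarith) (by linarith)
    · intro X hX
      apply hb2
      rw [dist_eq_norm, sub_zero]
      have h4 : min r1 (min r2 r3) ≤ r2 := (min_le_right _ _).trans (min_le_left _ _)
      linarith
    · intro X hX
      have h4 : min r1 (min r2 r3) ≤ r3 := (min_le_right _ _).trans (min_le_right _ _)
      have h5 := hb3 (x := X) (by rw [dist_eq_norm, sub_zero]; linarith)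
      rw [dist_eq_norm] at h5
      exact h5.le
  -- small parameters
  have E1 : ∀ᶠ σ in 𝓝 (0:ℂ), ‖σ ^ (q * M)‖ ≤ ρ := by
    have hc : ContinuousAt (fun σ : ℂ => ‖σ ^ (q * M)‖) 0 := by fun_prop
    have h4 : ‖(0:ℂ) ^ (q * M)‖ < ρ := by rw [zero_pow hqM, norm_zero]; exact hρ
    exact (hc.eventually_lt_const h4).mono fun _ h => h.le
  have E2 : ∀ᶠ σ in 𝓝 (0:ℂ), ∀ i, ‖Xs i σ‖ < ρ := by
    rw [Filter.eventually_all]
    intro i
    have hc : ContinuousAt (fun σ : ℂ => ‖Xs i σ‖) 0 := (hXs_c i).norm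
    exact hc.eventually_lt_const (by simp only [hXs0, norm_zero]; exact hρ)
  have E3 : ∀ᶠ σ in 𝓝 (0:ℂ), ∀ X ∈ sphere (0:ℂ) ρ,
      ‖ψ1 (X, σ ^ (q * M)) / ∏ i, (X - Xs i σ) - ψ1 (X, 0) / X ^ n‖ ≤ ε / 2 := by
    apply (isCompact_sphere (0:ℂ) ρ).eventually_forall_of_forall_eventually
    intro X0 hX0
    have hX0ρ : ‖X0‖ = ρ := by simpa using hX0
    have hX00 : X0 ≠ 0 := by
      intro h0
      rw [h0, norm_zero] at hX0ρ
      exact hρ.ne hX0ρ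
    have hψc : ContinuousAt (fun z : ℂ × ℂ => ψ1 (z.2, z.1 ^ (q * M))) (0, X0) := by
      have h4 : ContinuousAt ψ1 (X0, (0:ℂ)) :=
        (H1 X0 0 hX0ρ.le (by rw [norm_zero]; exact hρ.le)).continuousAt
      have h5 : ContinuousAt (fun z : ℂ × ℂ => ((z.2, z.1 ^ (q * M)) : ℂ × ℂ)) (0, X0) := by
        fun_prop
      apply ContinuousAt.comp (g := ψ1) (f := fun z : ℂ × ℂ => ((z.2, z.1 ^ (q * M)) : ℂ × ℂ)) _ h5
      simp only [zero_pow hqM]
      exact h4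
    have hψc0 : ContinuousAt (fun z : ℂ × ℂ => ψ1 (z.2, 0)) (0, X0) := by
      have h4 : ContinuousAt ψ1 (X0, (0:ℂ)) :=
        (H1 X0 0 hX0ρ.le (by rw [norm_zero]; exact hρ.le)).continuousAt
      have h5 : ContinuousAt (fun z : ℂ × ℂ => ((z.2, 0) : ℂ × ℂ)) (0, X0) := by
        fun_prop
      exact ContinuousAt.comp (g := ψ1) (f := fun z : ℂ × ℂ => ((z.2, 0) : ℂ × ℂ)) h4 h5
    have hPc : ContinuousAt (fun z : ℂ × ℂ => ∏ i, (z.2 - Xs i z.1)) (0, X0) := by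
      apply tendsto_finsetProd
      intro i _
      have h4 : ContinuousAt (fun z : ℂ × ℂ => Xs i z.1) (0, X0) :=
        ContinuousAt.comp (g := Xs i) (f := fun z : ℂ × ℂ => z.1) (hXs_c i) continuousAt_fst
      exact (continuousAt_snd.sub h4)
    have hP0 : ∏ i, (X0 - Xs i 0) = X0 ^ n := by
      simp only [hXs0, sub_zero, Finset.prod_const, Finset.card_univ, hcard]
    have hG : ContinuousAt (fun z : ℂ × ℂ =>
        ‖ψ1 (z.2, z.1 ^ (q * M)) / ∏ i, (z.2 - Xs i z.1) - ψ1 (z.2, 0) / z.2 ^ n‖) (0, X0) := by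
      apply ContinuousAt.norm
      apply ContinuousAt.sub
      · apply ContinuousAt.div hψc hPc
        simp only
        rw [hP0]
        exact pow_ne_zero _ hX00
      · apply ContinuousAt.div hψc0 (by fun_prop)
        exact pow_ne_zero _ hX00
    have hG0 : ‖ψ1 (X0, (0:ℂ) ^ (q * M)) / ∏ i, (X0 - Xs i 0) - ψ1 (X0, 0) / X0 ^ n‖ < ε / 2 := by
      rw [hP0, zero_pow hqM, sub_self, norm_zero]
      positivity
    exact (hG.eventually_lt_const hG0).mono fun z hz => hz.le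
  have hcM : ContinuousAt (fun σ : ℂ => σ ^ M) 0 := by fun_prop
  have E4 : ∀ᶠ σ in 𝓝 (0:ℂ), ∀ i, ∀ᶠ z in 𝓝 ((Zs i σ, σ ^ M) : ℂ × ℂ),
      ψ1 (z.2 ^ p * z.1, z.2 ^ q) = z.2 ^ (n * p) * ψ2 z := by
    rw [Filter.eventually_all]
    intro i
    have h4 : ContinuousAt (fun σ : ℂ => ((Zs i σ, σ ^ M) : ℂ × ℂ)) 0 := (hZs_c i).prodMk hcM
    have h5 := h4.tendsto
    simp only [hZs0, zero_pow (show M ≠ 0 by omega)] at h5
    exact h5.eventually (hrel i.1).eventually_nhds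
  have E5 : ∀ᶠ σ in 𝓝 (0:ℂ), ∀ i : (Σ ζ : R, Fin (h.rootMultiplicity ζ.1)),
      ‖Zs i σ - i.1‖ < δ1 i.1 ∧ ‖σ ^ k i.1‖ < δ1 i.1 := by
    rw [Filter.eventually_all]
    intro i
    apply Filter.Eventually.and
    · have hc : ContinuousAt (fun σ : ℂ => ‖Zs i σ - i.1‖) 0 :=
        ((hZs_c i).sub continuousAt_const).norm
      exact hc.eventually_lt_const (by simp only [hZs0, sub_self, norm_zero]; exact hδ1 _)
    · have hc : ContinuousAt (fun σ : ℂ => ‖σ ^ k i.1‖) 0 := by fun_prop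
      exact hc.eventually_lt_const (by simp only [zero_pow (hkpos i.1), norm_zero]; exact hδ1 _)
  have E6 : ∀ᶠ σ in 𝓝 (0:ℂ), ∀ i j : (Σ ζ : R, Fin (h.rootMultiplicity ζ.1)),
      i.1 ≠ j.1 → Zs i σ ≠ Zs j σ := by
    rw [Filter.eventually_all]
    intro i
    rw [Filter.eventually_all]
    intro j
    by_cases hij : i.1 = j.1
    · exact Eventually.of_forall fun σ h4 => absurd hij h4
    · have hne : Zs i 0 ≠ Zs j 0 := by
        rw [hZs0, hZs0]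
        intro h4
        exact hij (Subtype.ext h4)
      exact ((hZs_c i).ne_iff_eventually_ne (hZs_c j)).1 hne |>.mono fun σ h4 _ => h4
  obtain ⟨δ0, hδ0, hball⟩ := Metric.eventually_nhds_iff.1
    (E1.and (E2.and (E3.and (E4.and (E5.and E6)))))
  refine ⟨min δ0 ρ, lt_min hδ0 hρ, fun X σ hX hσ => ?_⟩
  rw [sub_zero] at hX
  have hXρ : ‖X‖ < ρ := hX.trans_le (min_le_right _ _)
  by_cases hσ0 : σ = 0
  · subst hσ0
    simp only [hXs0, sub_zero, Finset.prod_const, Finset.card_univ, hcard, zero_pow hqM]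
    rw [H2 X hXρ.le]
    have : X ^ n * w X - w 0 * X ^ n = (w X - w 0) * X ^ n := by ring
    rw [this, norm_mul, norm_pow]
    have h4 := H3 X hXρ.le
    have h5 : (0:ℝ) ≤ ‖X‖ ^ n := by positivity
    apply mul_le_mul_of_nonneg_right _ h5
    linarith
  · obtain ⟨F1, F2, F3, F4, F5, F6⟩ := hball (y := σ)
      (by rw [dist_eq_norm, sub_zero]; exact hσ.trans_le (min_le_left _ _))
    apply C6_final (fun z => ψ1 (z, σ ^ (q * M))) (fun z => ψ1 (z, 0)) w (fun i => Xs i σ) hρ hε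
    · intro z hz
      exact (H1 z _ hz F1).comp z (by fun_prop)
    · intro z hz
      exact (H1 z 0 hz (by rw [norm_zero]; exact hρ.le)).comp z (by fun_prop)
    · exact H2
    · exact H3
    · exact F2
    · intro i
      obtain ⟨ζ0, l0⟩ := i
      have hτ : (σ ^ k ζ0) ^ N ζ0 = σ ^ M := by rw [← pow_mul, hkN]
      have hqM' : (σ ^ M) ^ q = σ ^ (q * M) := by rw [← pow_mul, mul_comm]
      have hpM' : σ ^ (p * M) = (σ ^ M) ^ p := by rw [← pow_mul, mul_comm]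
      have key := C6_bound (m := h.rootMultiplicity ζ0.1) (n := n) (p := p) (q := q) ψ1 ψ2 hcard
        (fun i => Zs i σ) (fun l => χ ζ0 l (σ ^ k ζ0))
        (fun x => ∏ ζ ∈ Finset.univ.erase ζ0, ∏ l : Fin (h.rootMultiplicity ζ.1),
          (x - Zs ⟨ζ, l⟩ σ)) ?_ ?_ (σ ^ (p * M)) (σ ^ M) (Zs ⟨ζ0, l0⟩ σ) (u ζ0) hpM'
          (pow_ne_zero _ hσ0) ?_ (F4 ⟨ζ0, l0⟩) ?_
      · rw [hqM'] at key
        exact key
      · intro x
        rw [Fintype.prod_sigma]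
        exact (Finset.mul_prod_erase Finset.univ
          (fun ζ : R => ∏ l : Fin (h.rootMultiplicity ζ.1), (x - Zs ⟨ζ, l⟩ σ))
          (Finset.mem_univ ζ0)).symm
      · exact continuous_finsetProd _ fun ζ _ => continuous_finsetProd _ fun l _ => by fun_prop
      · rw [Finset.prod_ne_zero_iff]
        intro ζ hζ
        rw [Finset.prod_ne_zero_iff]
        intro l _
        apply sub_ne_zero.2
        exact F6 ⟨ζ0, l0⟩ ⟨ζ, l⟩ (Finset.ne_of_mem_erase hζ).symm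
      · have h4 : ∀ᶠ x in 𝓝 (Zs ⟨ζ0, l0⟩ σ), ‖x - (ζ0 : ℂ)‖ < δ1 ζ0 := by
          have hc : ContinuousAt (fun x : ℂ => ‖x - (ζ0 : ℂ)‖) (Zs ⟨ζ0, l0⟩ σ) := by fun_prop
          exact hc.eventually_lt_const (F5 ⟨ζ0, l0⟩).1
        filter_upwards [h4] with x hx
        have h5 := hest1 ζ0 x (σ ^ k ζ0) hx (F5 ⟨ζ0, l0⟩).2
        rw [hτ] at h5
        exact h5
    · intro z hz
      exact F3 z (by simpa using hz)
    · exact hXρ

end H24.LS
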