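import Pool.Agent.H24.LS.C0
import Pool.Agent.H24.LS.C1
import Pool.Agent.H24.LS.C2
import Pool.Agent.H24.LS.C3
import Pool.Agent.H24.LS.C4
import Pool.Agent.H24.LS.C6

/-!
# C7: Newton-Puiseux theorem

Strong induction on `n`.  `n = 0`: `N = 1`, no roots, `u = ψ(x0,0) = w(x0) ≠ 0`, continuity.
`n ≥ 1`: C3 gives the shift `s` and the expansion of `ψ1(X,t) = ψ(s(t) + X, t)`.
 (a) If all `c_i` with `i < n` vanish near `0`: `ψ1(X,t) = X^n (c_n(t) + X R(X,t))`, take `N = 1`,
     `χ_l = s` for all `l`, `u = c_n(0)`: `|c_n(t) + X R - u| ≤ ε` near `(0,0)`.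
 (b) Otherwise C4 gives `p, q, ψ2, h`.  For every root `ζ` of `h`, multiplicity `m < n`
     (`m ≥ 1`), `ψ2(Z,0) = h(Z) = (Z - ζ)^m h1(Z)`, `h1(ζ) ≠ 0`, so the induction hypothesis gives
     `Pui ψ2 ζ m`.  C6 gives `Pui ψ1 0 n` (`ψ1(X,0) = X^n w1(X)`, `w1(X) = w(x0 + X)`).
 Undo the shift: if `ψ1` has data `N, χ_l, u` then `ψ` has `N`, `χ_l(t) + s(t^N)`, `u`
 (`ψ(X,t^N) = ψ1(X - s(t^N), t^N)`).
-/

open Filter Topology Metric

namespace H24.LS

theorem C7_near {f : ℂ × ℂ → Prop} {g : ℂ × ℂ → ℂ × ℂ} {a b : ℂ × ℂ}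
    (hf : ∀ᶠ q in 𝓝 b, f q) (hg : Tendsto g (𝓝 a) (𝓝 b)) :
    ∃ δ > (0 : ℝ), ∀ X t : ℂ, ‖X - a.1‖ < δ → ‖t - a.2‖ < δ → f (g (X, t)) := by
  obtain ⟨δ, hδ, h⟩ := Metric.eventually_nhds_iff.1 (hg.eventually hf)
  refine ⟨δ, hδ, fun X t hX ht => h ?_⟩
  rw [Prod.dist_eq, dist_eq_norm, dist_eq_norm]
  exact max_lt hX ht

theorem C7_undo {ψ : ℂ × ℂ → ℂ} {x0 : ℂ} {n : ℕ} {s : ℂ → ℂ} (hs : AnalyticAt ℂ s 0)
    (hs0 : s 0 = x0) (h : Pui (fun q => ψ (s q.2 + q.1, q.2)) 0 n) : Pui ψ x0 n := by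
  obtain ⟨N, χ, u, hN, hu, hχ, hε⟩ := h
  have hN0 : N ≠ 0 := by omega
  refine ⟨N, fun l t => χ l t + s (t ^ N), u, hN, hu, fun l => ⟨?_, ?_⟩, fun ε hε0 => ?_⟩
  · refine (hχ l).1.add (AnalyticAt.fun_comp ?_ (analyticAt_id.pow N))
    simp only [zero_pow hN0]
    exact hs
  · simp only [zero_pow hN0]
    rw [(hχ l).2, hs0, zero_add]
  · obtain ⟨δ1, hδ1, h1⟩ := hε ε hε0
    have hg : Tendsto (fun q : ℂ × ℂ => (q.1 - s (q.2 ^ N), q.2)) (𝓝 (x0, 0)) (𝓝 (0, 0)) := by
      have h2 : ContinuousAt (fun q : ℂ × ℂ => s (q.2 ^ N)) (x0, 0) := by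
        have h3 : ContinuousAt s ((fun q : ℂ × ℂ => q.2 ^ N) (x0, 0)) := by
          simp only [zero_pow hN0]
          exact hs.continuousAt
        exact ContinuousAt.comp (g := s) (f := fun q : ℂ × ℂ => q.2 ^ N) h3
          (Continuous.continuousAt (by fun_prop))
      have h4 : ContinuousAt (fun q : ℂ × ℂ => (q.1 - s (q.2 ^ N), q.2)) (x0, 0) :=
        (continuousAt_fst.sub h2).prodMk continuousAt_snd
      have h5 := h4.tendsto
      simp only [zero_pow hN0, hs0, sub_self] at h5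
      exact h5
    have hev : ∀ᶠ q : ℂ × ℂ in 𝓝 (0, 0), ‖q.1‖ < δ1 ∧ ‖q.2‖ < δ1 := by
      have : ball ((0, 0) : ℂ × ℂ) δ1 ∈ 𝓝 ((0, 0) : ℂ × ℂ) := ball_mem_nhds _ hδ1
      filter_upwards [this] with q hq
      rw [mem_ball, Prod.dist_eq, dist_zero_right, dist_zero_right, max_lt_iff] at hq
      exact hq
    obtain ⟨δ, hδ, h2⟩ := C7_near hev hg
    refine ⟨δ, hδ, fun X t hX ht => ?_⟩
    obtain ⟨h3, h4⟩ := h2 X t hX (by simpa using ht)
    have h5 := h1 (X - s (t ^ N)) t (by simpa using h3) h4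
    simp only at h5
    have e1 : s (t ^ N) + (X - s (t ^ N)) = X := by ring
    have e2 : ∀ l, X - s (t ^ N) - χ l t = X - (χ l t + s (t ^ N)) := fun l => by ring
    simp only [e1, e2] at h5
    exact h5

theorem puiseux (n : ℕ) : ∀ (ψ : ℂ × ℂ → ℂ) (x0 : ℂ) (w : ℂ → ℂ), Hol ψ (x0, 0) →
    ContinuousAt w x0 → w x0 ≠ 0 → (∀ᶠ X in 𝓝 x0, ψ (X, 0) = (X - x0) ^ n * w X) →
    Pui ψ x0 n := by
  induction n using Nat.strong_induction_on with
  | _ n ih =>
  intro ψ x0 w hψ hw hw0 hord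
  rcases Nat.eq_zero_or_pos n with rfl | hn
  · -- the case `n = 0`
    refine ⟨1, fun l => l.elim0, w x0, le_rfl, hw0, fun l => l.elim0, fun ε hε => ?_⟩
    have h1 : ψ (x0, 0) = w x0 := by
      have := hord.self_of_nhds
      simpa using this
    have h2 : ContinuousAt ψ (x0, 0) := hψ.self_of_nhds.continuousAt
    have h3 : ∀ᶠ q in 𝓝 ((x0, 0) : ℂ × ℂ), ‖ψ q - w x0‖ < ε := by
      have h4 : ContinuousAt (fun q => ‖ψ q - w x0‖) (x0, 0) :=
        (h2.sub (continuousAt_const (y := w x0))).norm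
      refine h4.eventually (gt_mem_nhds ?_)
      show ‖ψ (x0, 0) - w x0‖ < ε
      rw [h1, sub_self, norm_zero]
      exact hε
    obtain ⟨δ, hδ, h5⟩ := C7_near (g := fun q => q) h3 tendsto_id
    refine ⟨δ, hδ, fun X t hX ht => ?_⟩
    have h6 := h5 X t hX (by simpa using ht)
    simp only [pow_one, Finset.univ_eq_empty, Finset.prod_empty, mul_one]
    exact h6.le
  · obtain ⟨s, c, R, hs, hs0, hc, hR, hexp, hcn1, hcn, hc0⟩ := shift_exists hψ n hn w hw hw0 hord
    have hsc : ContinuousAt s 0 := hs.continuousAt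
    by_cases hall : ∀ i, i < n → ∀ᶠ t in 𝓝 (0 : ℂ), c i t = 0
    · -- all coefficients vanish
      refine ⟨1, fun _ => s, w x0, le_rfl, hw0, fun l => ⟨hs, hs0⟩, fun ε hε => ?_⟩
      have hg : Tendsto (fun q : ℂ × ℂ => (q.1 - s q.2, q.2)) (𝓝 (x0, 0)) (𝓝 (0, 0)) := by
        have h2 : ContinuousAt (fun q : ℂ × ℂ => s q.2) (x0, 0) :=
          ContinuousAt.comp (g := s) (f := fun q : ℂ × ℂ => q.2) hsc continuousAt_snd
        have h4 : ContinuousAt (fun q : ℂ × ℂ => (q.1 - s q.2, q.2)) (x0, 0) :=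
          (continuousAt_fst.sub h2).prodMk continuousAt_snd
        have h5 := h4.tendsto
        simp only [hs0, sub_self] at h5
        exact h5
      have hall' : ∀ᶠ t in 𝓝 (0 : ℂ), ∀ i ∈ Finset.range n, c i t = 0 := by
        rw [Filter.eventually_all_finset]
        exact fun i hi => hall i (Finset.mem_range.1 hi)
      have hsnd : Tendsto (fun q : ℂ × ℂ => q.2) (𝓝 (0, 0)) (𝓝 0) := continuousAt_snd
      have h1 : ∀ᶠ q : ℂ × ℂ in 𝓝 (0, 0), ‖c n q.2 + q.1 * R q - w x0‖ < ε := by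
        have h2 : ContinuousAt (fun q : ℂ × ℂ => c n q.2) (0, 0) :=
          ContinuousAt.comp (g := c n) (f := fun q : ℂ × ℂ => q.2) (hc n).continuousAt
            continuousAt_snd
        have h3 : ContinuousAt R (0, 0) := hR.self_of_nhds.continuousAt
        have h4 : ContinuousAt (fun q : ℂ × ℂ => ‖c n q.2 + q.1 * R q - w x0‖) (0, 0) :=
          ((h2.add (continuousAt_fst.mul h3)).sub (continuousAt_const (y := w x0))).norm
        refine h4.eventually (gt_mem_nhds ?_)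
        show ‖c n 0 + 0 * R (0, 0) - w x0‖ < ε
        rw [hcn, zero_mul, add_zero, sub_self, norm_zero]
        exact hε
      obtain ⟨δ, hδ, h5⟩ := C7_near (hexp.and ((hsnd.eventually hall').and h1)) hg
      refine ⟨δ, hδ, fun X t hX ht => ?_⟩
      obtain ⟨h6, h7, h8⟩ := h5 X t hX (by simpa using ht)
      simp only at h6 h7 h8
      have e1 : s t + (X - s t) = X := by ring
      rw [e1, Finset.sum_range_succ, Finset.sum_eq_zero (fun i hi => by rw [h7 i hi, zero_mul]),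
        zero_add] at h6
      rw [pow_one, h6]
      simp only [Finset.prod_const, Finset.card_univ, Fintype.card_fin]
      have e2 : c n t * (X - s t) ^ n + (X - s t) ^ (n + 1) * R (X - s t, t) -
          w x0 * (X - s t) ^ n =
          (c n t + (X - s t) * R (X - s t, t) - w x0) * (X - s t) ^ n := by ring
      rw [e2, norm_mul, norm_pow]
      exact mul_le_mul_of_nonneg_right h8.le (by positivity)
    · -- Newton polygon
      push Not at hall
      obtain ⟨i, hi, hi2⟩ := hall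
      set ψ1 : ℂ × ℂ → ℂ := fun q => ψ (s q.2 + q.1, q.2) with hψ1
      obtain ⟨p, q, ψ2, h, hp, hq, hψ2, hrel, h2, hdeg, hlead, hmult⟩ :=
        newton_step n hn ψ1 c R hc hR hexp hcn1 (by rw [hcn]; exact hw0) hc0
          ⟨i, hi, fun h' => by
            obtain ⟨t, ht1, ht2⟩ := (h'.and_frequently hi2).exists
            exact ht2 ht1⟩
      have hg : Tendsto (fun q : ℂ × ℂ => (s q.2 + q.1, q.2)) (𝓝 (0, 0)) (𝓝 (x0, 0)) := by
        have h2 : ContinuousAt (fun q : ℂ × ℂ => s q.2) (0, 0) :=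
          ContinuousAt.comp (g := s) (f := fun q : ℂ × ℂ => q.2) hsc continuousAt_snd
        have h4 : ContinuousAt (fun q : ℂ × ℂ => (s q.2 + q.1, q.2)) (0, 0) :=
          (h2.add continuousAt_fst).prodMk continuousAt_snd
        have h5 := h4.tendsto
        simp only [hs0, add_zero] at h5
        exact h5
      have hψ1h : Hol ψ1 (0, 0) := by
        have hsd : ∀ᶠ t in 𝓝 (0 : ℂ), DifferentiableAt ℂ s t := by
          filter_upwards [hs.eventually_analyticAt] with t ht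
          exact ht.differentiableAt
        have hsnd : Tendsto (fun q : ℂ × ℂ => q.2) (𝓝 (0, 0)) (𝓝 0) := continuousAt_snd
        filter_upwards [hg.eventually hψ, hsnd.eventually hsd] with q hq1 hq2
        have h3 : DifferentiableAt ℂ (fun q : ℂ × ℂ => (s q.2 + q.1, q.2)) q := by
          have h4 : DifferentiableAt ℂ (fun q : ℂ × ℂ => s q.2) q :=
            DifferentiableAt.comp q (g := s) (f := fun q : ℂ × ℂ => q.2) hq2 (by fun_prop)
          exact (h4.add differentiableAt_fst).prodMk differentiableAt_snd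
        exact DifferentiableAt.comp q (g := ψ) (f := fun q : ℂ × ℂ => (s q.2 + q.1, q.2)) hq1 h3
      have hshift : Tendsto (fun X : ℂ => x0 + X) (𝓝 0) (𝓝 x0) := by
        have : Continuous fun X : ℂ => x0 + X := by fun_prop
        have := this.tendsto 0
        rwa [add_zero] at this
      have hh0 : h ≠ 0 := by
        intro h'
        rw [h', Polynomial.leadingCoeff_zero, hcn] at hlead
        exact hw0 hlead.symm
      refine C7_undo hs hs0 (pui_glue n hn ψ1 ψ2 (fun X => w (x0 + X)) p q hp hq h hψ1h ?_ ?_ ?_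
        hψ2 hrel h2 hdeg ?_)
      · refine ContinuousAt.comp (g := w) (f := fun X => x0 + X) ?_
          (Continuous.continuousAt (by fun_prop))
        rw [add_zero]
        exact hw
      · rw [add_zero]
        exact hw0
      · filter_upwards [hshift.eventually hord] with X hX
        simp only [hψ1, hs0]
        rw [hX, add_sub_cancel_left]
      · intro Z0 hroot
        obtain ⟨h1, hh1, hnd⟩ := Polynomial.exists_eq_pow_rootMultiplicity_mul_and_not_dvd h hh0 Z0
        refine ih _ (hmult Z0) ψ2 Z0 (fun Z => h1.eval Z) (hψ2 Z0) h1.continuous.continuousAt ?_ ?_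
        · intro h'
          exact hnd (Polynomial.dvd_iff_isRoot.2 h')
        · refine Eventually.of_forall fun Z => ?_
          rw [h2 Z]
          conv_lhs => rw [hh1]
          simp

end H24.LS
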