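import Pool.Agent.H24.LS.P0

/-!
# D1: sizes of `Ehat` along an arc

`oo γ l l'` = order of vanishing of `γ_l - γ_l'` at `0` (`⊤` if they coincide near `0`),
`mo b o = min b o` (`= b` if `o = ⊤`), `phi e γ l b = e + Σ_l' mo b (oo l l')`.

* `ehat_size`: `Ehat e γ (γ_l t) (‖t‖^b) t ≍ ‖t‖^(phi e γ l b)`: each factor `‖t‖^b + ‖γ_l - γ_l'‖` is
  `≍ ‖t‖^(min b a)`, as `‖γ_l - γ_l'‖ ≍ ‖t‖^a`.
* `phi_strictMono`: the term `l' = l` is `b` itself, the others are nondecreasing.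
* `phi_exists`: intermediate value theorem (`phi` is continuous, `→ ∞`).
* `oo_ultra`, `oo_symm`: properties of the order.
-/

open Filter Topology Metric Asymptotics

namespace H24.LS

noncomputable def oo {n : ℕ} (γ : Fin n → ℂ → ℂ) (l l' : Fin n) : ℕ∞ :=
  analyticOrderAt (fun t => γ l t - γ l' t) 0

open Classical in
noncomputable def mo (b : ℝ) (o : ℕ∞) : ℝ := if o = ⊤ then b else min b (o.toNat : ℝ)

noncomputable def phi {n : ℕ} (e : ℕ) (γ : Fin n → ℂ → ℂ) (l : Fin n) (b : ℝ) : ℝ :=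
  (e : ℝ) + ∑ l', mo b (oo γ l l')

theorem oo_self {n : ℕ} (γ : Fin n → ℂ → ℂ) (l : Fin n) : oo γ l l = ⊤ := by
  unfold oo
  rw [analyticOrderAt_eq_top]
  exact Filter.Eventually.of_forall fun t => sub_self _

theorem oo_symm {n : ℕ} (γ : Fin n → ℂ → ℂ) (l l' : Fin n) : oo γ l l' = oo γ l' l := by
  unfold oo
  have h : (fun t => γ l t - γ l' t) = -(fun t => γ l' t - γ l t) := by
    funext t
    simp
  rw [h, analyticOrderAt_neg]

theorem oo_ultra {n : ℕ} (γ : Fin n → ℂ → ℂ) (hγ : ∀ l, AnalyticAt ℂ (γ l) 0) (l l' l'' : Fin n) :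
    min (oo γ l l') (oo γ l' l'') ≤ oo γ l l'' := by
  have h : (fun t => γ l t - γ l'' t)
      = (fun t => γ l t - γ l' t) + (fun t => γ l' t - γ l'' t) := by
    funext t
    simp
  unfold oo
  rw [h]
  exact le_analyticOrderAt_add

/-- local form of the difference -/
private lemma d1_local {n : ℕ} (γ : Fin n → ℂ → ℂ) (hγ : ∀ l, AnalyticAt ℂ (γ l) 0)
    (l l' : Fin n) (ho : oo γ l l' ≠ ⊤) :
    ∃ m1 > (0 : ℝ), ∃ m2 > (0 : ℝ), ∀ᶠ t in 𝓝 (0 : ℂ),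
      m1 * ‖t‖ ^ (oo γ l l').toNat ≤ ‖γ l t - γ l' t‖ ∧
      ‖γ l t - γ l' t‖ ≤ m2 * ‖t‖ ^ (oo γ l l').toNat := by
  have han : AnalyticAt ℂ (fun t => γ l t - γ l' t) 0 := (hγ l).fun_sub (hγ l')
  obtain ⟨g, hg, hg0, hgev⟩ := han.analyticOrderAt_ne_top.mp ho
  have hg0' : 0 < ‖g 0‖ := norm_pos_iff.mpr hg0
  refine ⟨‖g 0‖ / 2, by positivity, 2 * ‖g 0‖, by positivity, ?_⟩
  have hcont : Tendsto (fun t => ‖g t‖) (𝓝 0) (𝓝 ‖g 0‖) := hg.continuousAt.norm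
  have e1 : ∀ᶠ t in 𝓝 (0 : ℂ), ‖g 0‖ / 2 < ‖g t‖ := hcont.eventually_const_lt (by linarith)
  have e2 : ∀ᶠ t in 𝓝 (0 : ℂ), ‖g t‖ < 2 * ‖g 0‖ := hcont.eventually_lt_const (by linarith)
  filter_upwards [hgev, e1, e2] with t h1 h2 h3
  have h4 : ‖γ l t - γ l' t‖ = ‖t‖ ^ (oo γ l l').toNat * ‖g t‖ := by
    have : γ l t - γ l' t = (t - 0) ^ analyticOrderNatAt (fun t => γ l t - γ l' t) 0 • g t := h1
    rw [this, sub_zero, smul_eq_mul, norm_mul, norm_pow]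
    rfl
  rw [h4]
  have h5 : 0 ≤ ‖t‖ ^ (oo γ l l').toNat := by positivity
  constructor
  · rw [mul_comm]
    exact mul_le_mul_of_nonneg_left h2.le h5
  · rw [mul_comm (2 * ‖g 0‖)]
    exact mul_le_mul_of_nonneg_left h3.le h5

private lemma d1_factor {n : ℕ} (γ : Fin n → ℂ → ℂ) (hγ : ∀ l, AnalyticAt ℂ (γ l) 0)
    (l l' : Fin n) (b : ℝ) (hb : 0 < b) :
    ∃ c1 > (0 : ℝ), ∃ c2 > (0 : ℝ), ∀ᶠ t in 𝓝[≠] (0 : ℂ),
      c1 * ‖t‖ ^ (mo b (oo γ l l')) ≤ ‖t‖ ^ b + ‖γ l t - γ l' t‖ ∧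
      ‖t‖ ^ b + ‖γ l t - γ l' t‖ ≤ c2 * ‖t‖ ^ (mo b (oo γ l l')) := by
  by_cases ho : oo γ l l' = ⊤
  · refine ⟨1, one_pos, 1, one_pos, ?_⟩
    have h1 : ∀ᶠ t in 𝓝 (0 : ℂ), γ l t - γ l' t = 0 := analyticOrderAt_eq_top.mp ho
    filter_upwards [h1.filter_mono nhdsWithin_le_nhds] with t ht
    simp [mo, ho, ht]
  · obtain ⟨m1, hm1, m2, hm2, hev⟩ := d1_local γ hγ l l' ho
    set o := (oo γ l l').toNat with hodef
    have hmo : mo b (oo γ l l') = min b (o : ℝ) := by simp [mo, ho, hodef]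
    rw [hmo]
    refine ⟨min 1 m1, by positivity, 1 + m2, by positivity, ?_⟩
    have hlt : ∀ᶠ t in 𝓝 (0 : ℂ), ‖t‖ < 1 := by
      have : Tendsto (fun t : ℂ => ‖t‖) (𝓝 0) (𝓝 0) := by
        simpa using (continuous_norm (E := ℂ)).tendsto 0
      exact this.eventually_lt_const one_pos
    filter_upwards [hev.filter_mono nhdsWithin_le_nhds, hlt.filter_mono nhdsWithin_le_nhds,
      self_mem_nhdsWithin] with t ht ht1 ht0
    have hs0 : 0 < ‖t‖ := norm_pos_iff.mpr ht0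
    obtain ⟨ha, hb'⟩ := ht
    rw [← Real.rpow_natCast] at ha hb'
    have hA : ‖t‖ ^ b ≤ ‖t‖ ^ (min b (o : ℝ)) :=
      Real.rpow_le_rpow_of_exponent_ge hs0 ht1.le (min_le_left _ _)
    have hB : ‖t‖ ^ (o : ℝ) ≤ ‖t‖ ^ (min b (o : ℝ)) :=
      Real.rpow_le_rpow_of_exponent_ge hs0 ht1.le (min_le_right _ _)
    have hA0 : 0 < ‖t‖ ^ b := Real.rpow_pos_of_pos hs0 _
    have hB0 : 0 < ‖t‖ ^ (o : ℝ) := Real.rpow_pos_of_pos hs0 _
    have hM0 : 0 < ‖t‖ ^ (min b (o : ℝ)) := Real.rpow_pos_of_pos hs0 _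
    constructor
    · rcases le_total b (o : ℝ) with h | h
      · rw [min_eq_left h]
        have h1 : min 1 m1 * ‖t‖ ^ b ≤ 1 * ‖t‖ ^ b :=
          mul_le_mul_of_nonneg_right (min_le_left _ _) hA0.le
        have h2 : 0 ≤ ‖γ l t - γ l' t‖ := norm_nonneg _
        linarith
      · rw [min_eq_right h]
        have h1 : min 1 m1 * ‖t‖ ^ (o : ℝ) ≤ m1 * ‖t‖ ^ (o : ℝ) :=
          mul_le_mul_of_nonneg_right (min_le_right _ _) hB0.le
        linarith
    · have h1 : m2 * ‖t‖ ^ (o : ℝ) ≤ m2 * ‖t‖ ^ (min b (o : ℝ)) :=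
        mul_le_mul_of_nonneg_left hB hm2.le
      calc ‖t‖ ^ b + ‖γ l t - γ l' t‖ ≤ ‖t‖ ^ (min b (o : ℝ)) + m2 * ‖t‖ ^ (min b (o : ℝ)) := by
            linarith
        _ = (1 + m2) * ‖t‖ ^ (min b (o : ℝ)) := by ring

theorem ehat_size {n : ℕ} (e : ℕ) (γ : Fin n → ℂ → ℂ) (hγ : ∀ l, AnalyticAt ℂ (γ l) 0)
    (l : Fin n) (b : ℝ) (hb : 0 < b) :
    ∃ c1 > (0 : ℝ), ∃ c2 > (0 : ℝ), ∀ᶠ t in 𝓝[≠] (0 : ℂ),
      c1 * ‖t‖ ^ (phi e γ l b) ≤ Ehat e γ (γ l t) (‖t‖ ^ b) t ∧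
      Ehat e γ (γ l t) (‖t‖ ^ b) t ≤ c2 * ‖t‖ ^ (phi e γ l b) := by
  choose c1 hc1 c2 hc2 hev using fun l' => d1_factor γ hγ l l' b hb
  refine ⟨∏ l', c1 l', Finset.prod_pos fun i _ => hc1 i, ∏ l', c2 l',
    Finset.prod_pos fun i _ => hc2 i, ?_⟩
  have hall : ∀ᶠ t in 𝓝[≠] (0 : ℂ), ∀ l', c1 l' * ‖t‖ ^ (mo b (oo γ l l')) ≤
      ‖t‖ ^ b + ‖γ l t - γ l' t‖ ∧
      ‖t‖ ^ b + ‖γ l t - γ l' t‖ ≤ c2 l' * ‖t‖ ^ (mo b (oo γ l l')) :=
    Filter.eventually_all.mpr hev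
  filter_upwards [hall, self_mem_nhdsWithin] with t ht ht0
  have hs0 : 0 < ‖t‖ := norm_pos_iff.mpr ht0
  have hphi : ‖t‖ ^ (phi e γ l b) = ‖t‖ ^ e * ∏ l', ‖t‖ ^ (mo b (oo γ l l')) := by
    unfold phi
    rw [Real.rpow_add hs0, Real.rpow_natCast, Real.rpow_sum_of_pos hs0]
  have hpe : 0 ≤ ‖t‖ ^ e := by positivity
  rw [hphi]
  unfold Ehat
  constructor
  · calc (∏ l', c1 l') * (‖t‖ ^ e * ∏ l', ‖t‖ ^ (mo b (oo γ l l')))
        = ‖t‖ ^ e * ∏ l', (c1 l' * ‖t‖ ^ (mo b (oo γ l l'))) := by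
          rw [Finset.prod_mul_distrib]; ring
      _ ≤ ‖t‖ ^ e * ∏ l', (‖t‖ ^ b + ‖γ l t - γ l' t‖) := by
          apply mul_le_mul_of_nonneg_left _ hpe
          apply Finset.prod_le_prod
          · intro i _
            exact mul_nonneg (hc1 i).le (Real.rpow_nonneg hs0.le _)
          · intro i _
            exact (ht i).1
  · calc ‖t‖ ^ e * ∏ l', (‖t‖ ^ b + ‖γ l t - γ l' t‖)
        ≤ ‖t‖ ^ e * ∏ l', (c2 l' * ‖t‖ ^ (mo b (oo γ l l'))) := by
          apply mul_le_mul_of_nonneg_left _ hpe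
          apply Finset.prod_le_prod
          · intro i _
            positivity
          · intro i _
            exact (ht i).2
      _ = (∏ l', c2 l') * (‖t‖ ^ e * ∏ l', ‖t‖ ^ (mo b (oo γ l l'))) := by
          rw [Finset.prod_mul_distrib]; ring

private lemma d1_mo_mono (o : ℕ∞) {b b' : ℝ} (h : b ≤ b') : mo b o ≤ mo b' o := by
  unfold mo
  split_ifs
  · exact h
  · exact min_le_min_right _ h

theorem phi_strictMono {n : ℕ} (e : ℕ) (γ : Fin n → ℂ → ℂ) (l : Fin n) :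
    StrictMono (phi e γ l) := by
  intro b b' hbb
  unfold phi
  apply add_lt_add_right
  apply Finset.sum_lt_sum
  · intro i _
    exact d1_mo_mono _ hbb.le
  · refine ⟨l, Finset.mem_univ _, ?_⟩
    simp [mo, oo_self, hbb]

private lemma d1_phi_cont {n : ℕ} (e : ℕ) (γ : Fin n → ℂ → ℂ) (l : Fin n) :
    Continuous (phi e γ l) := by
  unfold phi
  apply Continuous.add continuous_const
  apply continuous_finsetSum
  intro i _
  unfold mo
  split_ifs
  · exact continuous_id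
  · exact continuous_id.min continuous_const

theorem phi_exists {n : ℕ} (e : ℕ) (γ : Fin n → ℂ → ℂ) (l : Fin n) (b0 β : ℝ)
    (h : phi e γ l b0 < β) : ∃ b, b0 < b ∧ phi e γ l b = β := by
  set B := max (b0 + 1) |β| with hB
  have hB0 : 0 ≤ B := le_trans (abs_nonneg β) (le_max_right _ _)
  have hb0B : b0 ≤ B := le_trans (by linarith) (le_max_left _ _)
  have hphiB : β ≤ phi e γ l B := by
    have h1 : B ≤ ∑ l', mo B (oo γ l l') := by
      have h2 : mo B (oo γ l l) = B := by simp [mo, oo_self]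
      calc B = mo B (oo γ l l) := h2.symm
        _ ≤ ∑ l', mo B (oo γ l l') := by
          apply Finset.single_le_sum (f := fun l' => mo B (oo γ l l')) _ (Finset.mem_univ l)
          intro i _
          show 0 ≤ mo B (oo γ l i)
          unfold mo
          split_ifs
          · exact hB0
          · exact le_min hB0 (Nat.cast_nonneg _)
    have h3 : |β| ≤ B := le_max_right _ _
    have h4 : (0 : ℝ) ≤ e := Nat.cast_nonneg _
    have h5 := le_abs_self β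
    unfold phi
    linarith
  have hivt := intermediate_value_Icc hb0B (d1_phi_cont e γ l).continuousOn
  obtain ⟨b, hb, hbe⟩ := hivt ⟨h.le, hphiB⟩
  refine ⟨b, ?_, hbe⟩
  rcases eq_or_lt_of_le hb.1 with h1 | h1
  · subst h1
    exact absurd hbe h.ne
  · exact h1

/-- if all the differences vanish to order `> N` then `phi e γ l N = e + n N` -/
theorem phi_at_N {n : ℕ} (e N : ℕ) (γ : Fin n → ℂ → ℂ) (hγ : ∀ l, AnalyticAt ℂ (γ l) 0)
    (hs : ∀ l, (γ l) =o[𝓝[≠] 0] (fun t : ℂ => t ^ N)) (l : Fin n) :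
    phi e γ l N = e + n * N := by
  unfold phi
  have hterm : ∀ l', mo (N : ℝ) (oo γ l l') = N := by
    intro l'
    by_cases ho : oo γ l l' = ⊤
    · simp [mo, ho]
    · have hle : N ≤ (oo γ l l').toNat := by
        by_contra hlt
        push Not at hlt
        obtain ⟨m1, hm1, m2, hm2, hev⟩ := d1_local γ hγ l l' ho
        have hlo : (fun t => γ l t - γ l' t) =o[𝓝[≠] 0] (fun t : ℂ => t ^ N) :=
          (hs l).sub (hs l')
        have h1 := hlo.def (c := m1 / 2) (by positivity)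
        have hlt1 : ∀ᶠ t in 𝓝 (0 : ℂ), ‖t‖ < 1 := by
          have : Tendsto (fun t : ℂ => ‖t‖) (𝓝 0) (𝓝 0) := by
            simpa using (continuous_norm (E := ℂ)).tendsto 0
          exact this.eventually_lt_const one_pos
        have hfin : ∀ᶠ t in 𝓝[≠] (0 : ℂ), False := by
          filter_upwards [h1, hev.filter_mono nhdsWithin_le_nhds,
            hlt1.filter_mono nhdsWithin_le_nhds, self_mem_nhdsWithin] with t ha hb hc hd
          have hs0 : 0 < ‖t‖ := norm_pos_iff.mpr hd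
          rw [norm_pow] at ha
          have h2 : ‖t‖ ^ N ≤ ‖t‖ ^ (oo γ l l').toNat :=
            pow_le_pow_of_le_one hs0.le hc.le hlt.le
          have h3 : 0 < ‖t‖ ^ (oo γ l l').toNat := by positivity
          have h4 : m1 / 2 * ‖t‖ ^ N ≤ m1 / 2 * ‖t‖ ^ (oo γ l l').toNat :=
            mul_le_mul_of_nonneg_left h2 (by positivity)
          have h5 := hb.1
          nlinarith
        exact hfin.exists.choose_spec
      simp only [mo, ho, if_false]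
      exact min_eq_left (by exact_mod_cast hle)
  simp [hterm]

end H24.LS
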