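import Pool.Agent.H24.LS.P0

/-!
# P1: upper bound for `dx F` and variation of `dy F` in a slice

* `pf0`: from `fac` (with `ε = ‖u‖`): `‖dx F (x,t^N)‖ ≤ 2‖u‖ ‖t‖^e ∏ ‖x - γ_l‖` and
  `‖x - γ_l‖ ≤ ‖x - x1‖ + ‖x1 - γ_l‖`.
* `pf3`.  Let `σ = ‖x - x1‖`, `y = t^N`, `e = N(k-1-n)`; may assume `σ > 0`.
  Fix `ε1 ∈ (0,1)`.  For `ξ` in the segment `[x1, x]` let `ρ = min (c0 ‖y‖) (σ/ε1)`, `c0 = 1/10`.
  For `‖y' - y‖ ≤ ρ` there is `t'` with `t'^N = y'`, `‖t' - t‖ ≤ ‖t‖/2` and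
  `‖γ_l t' - γ_l t‖ ≤ ε1 ‖y' - y‖ ≤ σ` for small `t`: `γ_l` is analytic with `γ_l = o(t^N)`, so
  `‖γ_l' (s)‖ ≤ C ‖s‖^N` and, along the path `t(τ) = t (1 + τ (y'/y - 1))^{1/N}` (principal power, argument
  within `1/10` of `1`), `‖t' - t‖ ≤ C ‖t‖ ‖y'-y‖/‖y‖`, so `‖γ_l t' - γ_l t‖ ≤ C ‖t‖ ‖y' - y‖`.
  Hence `‖dx F (ξ, y')‖ ≤ 2‖u‖ (2‖t‖)^e ∏ (‖ξ - x1‖ + ‖x1 - γ_l t‖ + σ) ≤ C Ehat x1 σ t` by `fac`
  (`‖ξ‖ < δ' ‖t'‖^N` fine).  Cauchy's estimate in `y'` on the disc of radius `ρ`: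
  `‖∂_y (dx F) (ξ, y)‖ ≤ C Ehat/ρ`.  By symmetry of second derivatives
  (`second_derivative_symmetric` or: `F` is analytic, both mixed derivatives are
  `fderiv (fderiv F)`) `∂_x (dy F) = ∂_y (dx F)`, so by the mean value inequality
  `‖dy F (x,y) - dy F (x1,y)‖ ≤ σ C Ehat/ρ ≤ C (σ/(c0 ‖y‖) + ε1) Ehat ≤ ε Ehat` if `σ ≤ 2δ ‖y‖`, `δ, ε1` small.
-/

open Filter Topology Metric Asymptotics

namespace H24.LS

/-- pointwise upper bound for `dx F` from the factorisation -/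
theorem P1_up {F : ℂ × ℂ → ℂ} {k n N : ℕ} {u : ℂ} {γ : Fin n → ℂ → ℂ} (h : PCh F k n N u γ) :
    ∃ δ > (0 : ℝ), ∀ x t : ℂ, 0 < ‖t‖ → ‖t‖ < δ → ‖x‖ < δ * ‖t‖ ^ N →
      ‖dx F (x, t ^ N)‖ ≤ (‖u‖ + 1) * (‖t‖ ^ (N * (k - 1 - n)) * ∏ l, ‖x - γ l t‖) := by
  obtain ⟨δ, hδ, hf⟩ := h.fac 1 one_pos
  refine ⟨δ, hδ, fun x t h1 h2 h3 => ?_⟩
  have h4 := hf x t h1 h2 h3
  have h5 : ‖u * t ^ (N * (k - 1 - n)) * ∏ l, (x - γ l t)‖
      = ‖u‖ * (‖t‖ ^ (N * (k - 1 - n)) * ∏ l, ‖x - γ l t‖) := by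
    rw [norm_mul, norm_mul, norm_pow, norm_prod]; ring
  have h6 : ‖dx F (x, t ^ N)‖ ≤ ‖dx F (x, t ^ N) - u * t ^ (N * (k - 1 - n)) * ∏ l, (x - γ l t)‖
      + ‖u * t ^ (N * (k - 1 - n)) * ∏ l, (x - γ l t)‖ := by
    have := norm_add_le (dx F (x, t ^ N) - u * t ^ (N * (k - 1 - n)) * ∏ l, (x - γ l t))
      (u * t ^ (N * (k - 1 - n)) * ∏ l, (x - γ l t))
    rwa [sub_add_cancel] at this
  rw [h5] at h6
  linarith

theorem P1_Ehat_nonneg {n : ℕ} (e : ℕ) (γ : Fin n → ℂ → ℂ) (x1 : ℂ) {σ : ℝ} (hσ : 0 ≤ σ) (t : ℂ) :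
    0 ≤ Ehat e γ x1 σ t := by
  unfold Ehat
  have : ∀ l, 0 ≤ σ + ‖x1 - γ l t‖ := fun l => add_nonneg hσ (norm_nonneg _)
  exact mul_nonneg (pow_nonneg (norm_nonneg _) _) (Finset.prod_nonneg fun l _ => this l)

theorem pf0 {F : ℂ × ℂ → ℂ} {k n N : ℕ} {u : ℂ} {γ : Fin n → ℂ → ℂ} (h : PCh F k n N u γ) :
    ∃ C > (0 : ℝ), ∃ δ > (0 : ℝ), ∀ x x1 t : ℂ, 0 < ‖t‖ → ‖t‖ < δ → ‖x‖ < δ * ‖t‖ ^ N →
      ‖dx F (x, t ^ N)‖ ≤ C * Ehat (N * (k - 1 - n)) γ x1 ‖x - x1‖ t := by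
  obtain ⟨δ, hδ, hf⟩ := P1_up h
  refine ⟨‖u‖ + 1, by positivity, δ, hδ, fun x x1 t h1 h2 h3 => (hf x t h1 h2 h3).trans ?_⟩
  unfold Ehat
  have hp : ∏ l, ‖x - γ l t‖ ≤ ∏ l, (‖x - x1‖ + ‖x1 - γ l t‖) := by
    apply Finset.prod_le_prod
    · intro l _; exact norm_nonneg _
    · intro l _
      have := norm_add_le (x - x1) (x1 - γ l t)
      rwa [sub_add_sub_cancel] at this
  have : 0 ≤ ‖u‖ + 1 := by positivity
  gcongr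

/-- `N`-th roots near `1` -/
theorem P1_root (N : ℕ) (hN : 1 ≤ N) : ∃ C1 > (0 : ℝ), ∃ c0 > (0 : ℝ), c0 ≤ 1 / 2 ∧
    C1 * c0 ≤ 1 / 2 ∧
    ∀ w : ℂ, ‖w - 1‖ ≤ c0 → ∃ z : ℂ, z ^ N = w ∧ ‖z - 1‖ ≤ C1 * ‖w - 1‖ := by
  have hd : HasDerivAt (fun w : ℂ => w ^ ((N : ℂ)⁻¹))
      ((N : ℂ)⁻¹ * (1 : ℂ) ^ ((N : ℂ)⁻¹ - 1) * 1) 1 :=
    (hasDerivAt_id (1 : ℂ)).cpow_const (Or.inl (by simp))
  have hO := hd.differentiableAt.isBigO_sub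
  obtain ⟨C, hC, hb⟩ := hO.exists_pos
  obtain ⟨r, hr, hrb⟩ := Metric.eventually_nhds_iff_ball.mp hb.bound
  refine ⟨C, hC, min (1 / 2) (min (r / 2) (1 / (2 * C))), by positivity, min_le_left _ _, ?_, ?_⟩
  · have : min (1 / 2) (min (r / 2) (1 / (2 * C))) ≤ 1 / (2 * C) :=
      (min_le_right _ _).trans (min_le_right _ _)
    calc C * _ ≤ C * (1 / (2 * C)) := mul_le_mul_of_nonneg_left this hC.le
      _ = 1 / 2 := by field_simp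
  · intro w hw
    have hwr : w ∈ ball (1 : ℂ) r := by
      rw [mem_ball, dist_eq_norm]
      have : ‖w - 1‖ ≤ r / 2 := hw.trans ((min_le_right _ _).trans (min_le_left _ _))
      linarith
    refine ⟨w ^ ((N : ℂ)⁻¹), Complex.cpow_nat_inv_pow w (by omega), ?_⟩
    have := hrb w hwr
    simpa using this

/-- order of vanishing of `γ` -/
theorem P1_ord {γ : ℂ → ℂ} {N : ℕ} (ha : AnalyticAt ℂ γ 0)
    (ho : γ =o[𝓝[≠] 0] (fun t : ℂ => t ^ N)) :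
    ∃ g : ℂ → ℂ, AnalyticAt ℂ g 0 ∧ ∀ᶠ z in 𝓝 (0 : ℂ), γ z = z ^ (N + 1) * g z := by
  have hle : ((N + 1 : ℕ) : ℕ∞) ≤ analyticOrderAt γ 0 := by
    by_contra hlt
    rw [not_le] at hlt
    obtain ⟨m, hm⟩ := ENat.ne_top_iff_exists.mp (ne_top_of_lt hlt)
    rw [← hm] at hlt
    have hmN : m ≤ N := by
      have : m < N + 1 := by exact_mod_cast hlt
      omega
    obtain ⟨g, hg, hg0, hgf⟩ := (ha.analyticOrderAt_eq_natCast).mp hm.symm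
    have hg0' : 0 < ‖g 0‖ := norm_pos_iff.mpr hg0
    have h1 := ho.def (c := ‖g 0‖ / 2) (by positivity)
    have h2 : ∀ᶠ z in 𝓝[≠] (0 : ℂ), ‖g z‖ ≤ ‖g 0‖ / 2 := by
      have h3 : ∀ᶠ z in 𝓝[≠] (0 : ℂ), γ z = (z - 0) ^ m • g z := hgf.filter_mono nhdsWithin_le_nhds
      have h4 : ∀ᶠ z in 𝓝[≠] (0 : ℂ), z ∈ ball (0 : ℂ) 1 :=
        nhdsWithin_le_nhds (ball_mem_nhds _ one_pos)
      filter_upwards [h1, h3, h4, self_mem_nhdsWithin] with z h1 h3 h4 h5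
      have hz : 0 < ‖z‖ := norm_pos_iff.mpr h5
      rw [mem_ball, dist_zero_right] at h4
      rw [h3, sub_zero, smul_eq_mul, norm_mul, norm_pow, norm_pow] at h1
      have h6 : ‖z‖ ^ N ≤ ‖z‖ ^ m := pow_le_pow_of_le_one hz.le h4.le hmN
      have h7 : ‖z‖ ^ m * ‖g z‖ ≤ ‖z‖ ^ m * (‖g 0‖ / 2) := by
        calc ‖z‖ ^ m * ‖g z‖ ≤ ‖g 0‖ / 2 * ‖z‖ ^ N := h1
          _ ≤ ‖g 0‖ / 2 * ‖z‖ ^ m := mul_le_mul_of_nonneg_left h6 (by positivity)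
          _ = _ := mul_comm _ _
      exact le_of_mul_le_mul_left h7 (pow_pos hz m)
    have h3 : Tendsto (fun z => ‖g z‖) (𝓝[≠] (0 : ℂ)) (𝓝 ‖g 0‖) :=
      (hg.continuousAt.norm.tendsto).mono_left nhdsWithin_le_nhds
    have := le_of_tendsto h3 h2
    linarith
  obtain ⟨g, hg, hgf⟩ := (natCast_le_analyticOrderAt ha).mp hle
  refine ⟨g, hg, hgf.mono fun z hz => ?_⟩
  rw [hz, sub_zero, smul_eq_mul]

theorem P1_pow {a b : ℂ} {R : ℝ} (N : ℕ) (ha : ‖a‖ ≤ R) (hb : ‖b‖ ≤ R) :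
    ‖b ^ (N + 1) - a ^ (N + 1)‖ ≤ (N + 1) * R ^ N * ‖b - a‖ := by
  have hR : 0 ≤ R := (norm_nonneg _).trans ha
  apply (convex_closedBall (0 : ℂ) R).norm_image_sub_le_of_norm_hasDerivWithin_le
    (f := fun z : ℂ => z ^ (N + 1)) (f' := fun z : ℂ => ((N + 1 : ℕ) : ℂ) * z ^ N)
  · intro z _
    have := hasDerivAt_pow (N + 1) z
    simpa using this.hasDerivWithinAt
  · intro z hz
    rw [mem_closedBall, dist_zero_right] at hz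
    rw [norm_mul, norm_pow, Complex.norm_natCast]
    push_cast
    gcongr
  · simpa using ha
  · simpa using hb

theorem P1_gam {γ : ℂ → ℂ} {N : ℕ} (ha : AnalyticAt ℂ γ 0)
    (ho : γ =o[𝓝[≠] 0] (fun t : ℂ => t ^ N)) :
    ∃ C > (0 : ℝ), ∀ᶠ t in 𝓝 (0 : ℂ), ∀ t' : ℂ, ‖t' - t‖ ≤ ‖t‖ / 2 →
      ‖γ t' - γ t‖ ≤ C * ‖t‖ ^ N * ‖t' - t‖ := by
  obtain ⟨g, hg, hgf⟩ := P1_ord ha ho
  obtain ⟨K, T, hT, hK⟩ := (hg.contDiffAt (n := 1)).exists_lipschitzOnWith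
  have hbd : ∀ᶠ z in 𝓝 (0 : ℂ), ‖g z‖ ≤ ‖g 0‖ + 1 :=
    (hg.continuousAt.norm.eventually_lt_const (by linarith)).mono fun z hz => le_of_lt hz
  obtain ⟨r, hr, hrb⟩ := Metric.eventually_nhds_iff_ball.mp ((hgf.and hbd).and hT)
  refine ⟨(N + 1) * 2 ^ N * (‖g 0‖ + 1) + K + 1, by positivity, ?_⟩
  have h1 : ∀ᶠ t in 𝓝 (0 : ℂ), t ∈ ball (0 : ℂ) (min (r / 2) 1) :=
    ball_mem_nhds _ (by positivity)
  filter_upwards [h1] with t ht t' htt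
  rw [mem_ball, dist_zero_right] at ht
  have ht1 : ‖t‖ < r / 2 := ht.trans_le (min_le_left _ _)
  have ht2 : ‖t‖ < 1 := ht.trans_le (min_le_right _ _)
  have hn : ‖t'‖ ≤ 2 * ‖t‖ := by
    have := norm_add_le (t' - t) t
    rw [sub_add_cancel] at this
    linarith [norm_nonneg t]
  have m1 : t ∈ ball (0 : ℂ) r := by
    rw [mem_ball, dist_zero_right]; linarith
  have m2 : t' ∈ ball (0 : ℂ) r := by
    rw [mem_ball, dist_zero_right]; linarith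
  obtain ⟨⟨e1, b1⟩, T1⟩ := hrb t m1
  obtain ⟨⟨e2, b2⟩, T2⟩ := hrb t' m2
  have hl : ‖g t' - g t‖ ≤ K * ‖t' - t‖ := by
    have := hK.dist_le_mul t' T2 t T1
    rwa [dist_eq_norm, dist_eq_norm] at this
  have hp := P1_pow N (a := t) (b := t') (R := 2 * ‖t‖) (by linarith [norm_nonneg t]) hn
  rw [e1, e2]
  have e3 : t' ^ (N + 1) * g t' - t ^ (N + 1) * g t
      = (t' ^ (N + 1) - t ^ (N + 1)) * g t' + t ^ (N + 1) * (g t' - g t) := by ring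
  rw [e3]
  have h5 : ‖t ^ (N + 1) * (g t' - g t)‖ ≤ ‖t‖ ^ N * (K * ‖t' - t‖) := by
    rw [norm_mul, norm_pow]
    apply mul_le_mul _ hl (norm_nonneg _) (by positivity)
    exact pow_le_pow_of_le_one (norm_nonneg _) ht2.le (Nat.le_succ N)
  have h6 : ‖(t' ^ (N + 1) - t ^ (N + 1)) * g t'‖
      ≤ ((N + 1) * (2 * ‖t‖) ^ N * ‖t' - t‖) * (‖g 0‖ + 1) := by
    rw [norm_mul]
    exact mul_le_mul hp b2 (norm_nonneg _) (by positivity)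
  have h7 : ((N + 1) * (2 * ‖t‖) ^ N * ‖t' - t‖) * (‖g 0‖ + 1)
      = ((N + 1) * 2 ^ N * (‖g 0‖ + 1)) * (‖t‖ ^ N * ‖t' - t‖) := by
    rw [mul_pow]; ring
  have h8 := norm_add_le ((t' ^ (N + 1) - t ^ (N + 1)) * g t') (t ^ (N + 1) * (g t' - g t))
  have h9 : 0 ≤ ‖t‖ ^ N * ‖t' - t‖ := by positivity
  calc _ ≤ _ := h8
    _ ≤ ((N + 1) * 2 ^ N * (‖g 0‖ + 1)) * (‖t‖ ^ N * ‖t' - t‖) + ‖t‖ ^ N * (K * ‖t' - t‖) := by
        rw [← h7]; exact add_le_add h6 h5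
    _ ≤ ((N + 1) * 2 ^ N * (‖g 0‖ + 1) + K + 1) * ‖t‖ ^ N * ‖t' - t‖ := by
        nlinarith

theorem P1_gams {n N : ℕ} {γ : Fin n → ℂ → ℂ} (ha : ∀ l, AnalyticAt ℂ (γ l) 0)
    (ho : ∀ l, (γ l) =o[𝓝[≠] 0] (fun t : ℂ => t ^ N)) :
    ∃ C > (0 : ℝ), ∃ δ > (0 : ℝ), ∀ t : ℂ, ‖t‖ < δ → ∀ l, ∀ t' : ℂ, ‖t' - t‖ ≤ ‖t‖ / 2 →
      ‖γ l t' - γ l t‖ ≤ C * ‖t‖ ^ N * ‖t' - t‖ := by
  choose C hC hb using fun l => P1_gam (ha l) (ho l)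
  have hall := Filter.eventually_all.mpr hb
  obtain ⟨r, hr, hrb⟩ := Metric.eventually_nhds_iff_ball.mp hall
  refine ⟨∑ l, C l + 1, ?_, r, hr, ?_⟩
  · have : 0 ≤ ∑ l, C l := Finset.sum_nonneg fun l _ => (hC l).le
    linarith
  · intro t ht l t' htt
    have h1 := hrb t (by rw [mem_ball, dist_zero_right]; exact ht) l t' htt
    refine h1.trans ?_
    have h2 : C l ≤ ∑ l, C l + 1 := by
      have := Finset.single_le_sum (f := C) (fun l _ => (hC l).le) (Finset.mem_univ l)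
      linarith
    gcongr

theorem P1_dx {F : ℂ × ℂ → ℂ} {x y : ℂ} (h : DifferentiableAt ℂ F (x, y)) :
    HasDerivAt (fun ξ => F (ξ, y)) (dx F (x, y)) x := by
  have h1 : HasDerivAt (fun ξ : ℂ => (ξ, y)) ((1 : ℂ), (0 : ℂ)) x :=
    (hasDerivAt_id x).prodMk (hasDerivAt_const x y)
  exact h.hasFDerivAt.comp_hasDerivAt x h1

theorem P1_dy {F : ℂ × ℂ → ℂ} {x y : ℂ} (h : DifferentiableAt ℂ F (x, y)) :
    HasDerivAt (fun η => F (x, η)) (dy F (x, y)) y := by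
  have h1 : HasDerivAt (fun η : ℂ => (x, η)) ((0 : ℂ), (1 : ℂ)) y :=
    (hasDerivAt_const y x).prodMk (hasDerivAt_id y)
  exact h.hasFDerivAt.comp_hasDerivAt y h1

/-- bound of `dx F` on the bidisc -/
theorem P1_disc {F : ℂ × ℂ → ℂ} {k n N : ℕ} {u : ℂ} {γ : Fin n → ℂ → ℂ} (h : PCh F k n N u γ) :
    ∃ C3 > (0 : ℝ), ∃ c0 > (0 : ℝ), c0 ≤ 1 / 2 ∧ ∀ ε1 > (0 : ℝ), ∃ δ > (0 : ℝ),
      ∀ ξ x1 t z : ℂ, ∀ σ ρ : ℝ, 0 < ‖t‖ → ‖t‖ < δ → ‖ξ‖ < δ * ‖t‖ ^ N → ‖ξ - x1‖ ≤ σ →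
      ρ ≤ c0 * ‖t‖ ^ N → ε1 * ρ ≤ σ → ‖z - t ^ N‖ ≤ ρ →
      ‖dx F (ξ, z)‖ ≤ C3 * Ehat (N * (k - 1 - n)) γ x1 σ t := by
  obtain ⟨C1, hC1, c0, hc0, hc0', hCc, hroot⟩ := P1_root N h.hN
  obtain ⟨C2, hC2, δ2, hδ2, hγ⟩ := P1_gams h.γan h.γsm
  obtain ⟨δ0, hδ0, hup⟩ := P1_up h
  set e := N * (k - 1 - n) with he
  refine ⟨(‖u‖ + 1) * 2 ^ e * 2 ^ n, by positivity, c0, hc0, hc0', fun ε1 hε1 => ?_⟩
  refine ⟨min (min δ2 (δ0 / 2)) (min (δ0 / 2 ^ N) (ε1 / (C1 * C2))), by positivity, ?_⟩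
  intro ξ x1 t z σ ρ ht0 ht hξ hσ hρ hρσ hz
  have htδ2 : ‖t‖ < δ2 := ht.trans_le ((min_le_left _ _).trans (min_le_left _ _))
  have htδ0 : ‖t‖ < δ0 / 2 := ht.trans_le ((min_le_left _ _).trans (min_le_right _ _))
  have htε : ‖t‖ < ε1 / (C1 * C2) := ht.trans_le ((min_le_right _ _).trans (min_le_right _ _))
  have htne : t ≠ 0 := norm_pos_iff.mp ht0
  have hyne : t ^ N ≠ 0 := pow_ne_zero _ htne
  have hyn : 0 < ‖t‖ ^ N := pow_pos ht0 N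
  have hσ0 : 0 ≤ σ := (norm_nonneg _).trans hσ
  have hw : ‖z / t ^ N - 1‖ * ‖t‖ ^ N = ‖z - t ^ N‖ := by
    rw [← norm_pow, ← norm_mul, sub_mul, div_mul_cancel₀ _ hyne, one_mul]
  have hw1 : ‖z / t ^ N - 1‖ ≤ c0 := by
    have : ‖z / t ^ N - 1‖ * ‖t‖ ^ N ≤ c0 * ‖t‖ ^ N := by rw [hw]; exact hz.trans hρ
    exact le_of_mul_le_mul_right this hyn
  obtain ⟨v, hv, hv1⟩ := hroot _ hw1
  set t' := t * v with ht'
  have ht'N : t' ^ N = z := by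
    rw [ht', mul_pow, hv]; field_simp
  have htt : ‖t' - t‖ ≤ ‖t‖ * (C1 * ‖z / t ^ N - 1‖) := by
    have : t' - t = t * (v - 1) := by rw [ht']; ring
    rw [this, norm_mul]
    exact mul_le_mul_of_nonneg_left hv1 ht0.le
  have htt2 : ‖t' - t‖ ≤ ‖t‖ / 2 := by
    refine htt.trans ?_
    have : C1 * ‖z / t ^ N - 1‖ ≤ 1 / 2 := (mul_le_mul_of_nonneg_left hw1 hC1.le).trans hCc
    calc ‖t‖ * (C1 * ‖z / t ^ N - 1‖) ≤ ‖t‖ * (1 / 2) := mul_le_mul_of_nonneg_left this ht0.le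
      _ = ‖t‖ / 2 := by ring
  have hn1 : ‖t'‖ ≤ 2 * ‖t‖ := by
    have := norm_add_le (t' - t) t
    rw [sub_add_cancel] at this
    linarith
  have hn2 : ‖t‖ / 2 ≤ ‖t'‖ := by
    have := norm_sub_le t' (t' - t)
    rw [sub_sub_cancel] at this
    linarith
  have ht'0 : 0 < ‖t'‖ := by linarith
  have hξ' : ‖ξ‖ < δ0 * ‖t'‖ ^ N := by
    have h1 : min (min δ2 (δ0 / 2)) (min (δ0 / 2 ^ N) (ε1 / (C1 * C2))) ≤ δ0 / 2 ^ N :=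
      (min_le_right _ _).trans (min_le_left _ _)
    calc ‖ξ‖ < _ := hξ
      _ ≤ δ0 / 2 ^ N * ‖t‖ ^ N := mul_le_mul_of_nonneg_right h1 hyn.le
      _ = δ0 * (‖t‖ / 2) ^ N := by rw [div_pow]; ring
      _ ≤ δ0 * ‖t'‖ ^ N :=
          mul_le_mul_of_nonneg_left (pow_le_pow_left₀ (by positivity) hn2 N) hδ0.le
  have hA := hup ξ t' ht'0 (by linarith) hξ'
  rw [ht'N] at hA
  have hg : ∀ l, ‖γ l t' - γ l t‖ ≤ σ := by
    intro l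
    refine (hγ t htδ2 l t' htt2).trans ?_
    have h1 : ‖t‖ * (C1 * C2) ≤ ε1 := by
      rw [lt_div_iff₀ (by positivity)] at htε
      exact htε.le
    calc C2 * ‖t‖ ^ N * ‖t' - t‖ ≤ C2 * ‖t‖ ^ N * (‖t‖ * (C1 * ‖z / t ^ N - 1‖)) :=
          mul_le_mul_of_nonneg_left htt (by positivity)
      _ = (‖t‖ * (C1 * C2)) * (‖z / t ^ N - 1‖ * ‖t‖ ^ N) := by ring
      _ = (‖t‖ * (C1 * C2)) * ‖z - t ^ N‖ := by rw [hw]
      _ ≤ ε1 * ρ := mul_le_mul h1 hz (norm_nonneg _) hε1.le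
      _ ≤ σ := hρσ
  have hpr : ∏ l, ‖ξ - γ l t'‖ ≤ 2 ^ n * ∏ l, (σ + ‖x1 - γ l t‖) := by
    have : (2 : ℝ) ^ n * ∏ l, (σ + ‖x1 - γ l t‖) = ∏ l, (2 * (σ + ‖x1 - γ l t‖)) := by
      rw [Finset.prod_mul_distrib]; simp
    rw [this]
    apply Finset.prod_le_prod
    · intro l _; exact norm_nonneg _
    · intro l _
      have e1 : ξ - γ l t' = (ξ - x1) + (x1 - γ l t) + -(γ l t' - γ l t) := by ring
      rw [e1]
      have h1 := norm_add₃_le (a := ξ - x1) (b := x1 - γ l t) (c := -(γ l t' - γ l t))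
      rw [norm_neg] at h1
      have h2 := hg l
      have h3 := norm_nonneg (x1 - γ l t)
      linarith
  have hpe : ‖t'‖ ^ e ≤ 2 ^ e * ‖t‖ ^ e := by
    rw [← mul_pow]
    exact pow_le_pow_left₀ ht'0.le hn1 e
  refine hA.trans ?_
  unfold Ehat
  have hP0 : 0 ≤ ∏ l, ‖ξ - γ l t'‖ := Finset.prod_nonneg fun l _ => norm_nonneg _
  calc (‖u‖ + 1) * (‖t'‖ ^ e * ∏ l, ‖ξ - γ l t'‖)
      ≤ (‖u‖ + 1) * ((2 ^ e * ‖t‖ ^ e) * (2 ^ n * ∏ l, (σ + ‖x1 - γ l t‖))) := by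
        apply mul_le_mul_of_nonneg_left _ (by positivity)
        exact mul_le_mul hpe hpr hP0 (by positivity)
    _ = _ := by ring

theorem pf3 {F : ℂ × ℂ → ℂ} {k n N : ℕ} {u : ℂ} {γ : Fin n → ℂ → ℂ} (h : PCh F k n N u γ) :
    ∀ ε > (0 : ℝ), ∃ δ > (0 : ℝ), ∀ x x1 t : ℂ, 0 < ‖t‖ → ‖t‖ < δ → ‖x‖ < δ * ‖t‖ ^ N →
      ‖x1‖ < δ * ‖t‖ ^ N →
      ‖dy F (x, t ^ N) - dy F (x1, t ^ N)‖ ≤ ε * Ehat (N * (k - 1 - n)) γ x1 ‖x - x1‖ t := by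
  intro ε hε
  obtain ⟨C3, hC3, c0, hc0, hc0', hdisc⟩ := P1_disc h
  obtain ⟨δ1, hδ1, hd⟩ := hdisc (ε / C3) (by positivity)
  obtain ⟨r, hr, hrb⟩ := Metric.eventually_nhds_iff_ball.mp h.an.eventually_analyticAt
  refine ⟨min (min δ1 1) (min (r / 2) (c0 * ε / (2 * C3))), by positivity, ?_⟩
  set δ := min (min δ1 1) (min (r / 2) (c0 * ε / (2 * C3))) with hδ
  have hδ1' : δ ≤ δ1 := (min_le_left _ _).trans (min_le_left _ _)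
  have hδ2' : δ ≤ 1 := (min_le_left _ _).trans (min_le_right _ _)
  have hδ3' : δ ≤ r / 2 := (min_le_right _ _).trans (min_le_left _ _)
  have hδ4' : δ ≤ c0 * ε / (2 * C3) := (min_le_right _ _).trans (min_le_right _ _)
  intro x x1 t ht0 ht hx hx1
  set e := N * (k - 1 - n) with he
  have hyn : 0 < ‖t‖ ^ N := pow_pos ht0 N
  have hyt : ‖t‖ ^ N ≤ ‖t‖ := by
    calc ‖t‖ ^ N ≤ ‖t‖ ^ 1 := pow_le_pow_of_le_one ht0.le (by linarith) h.hN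
      _ = ‖t‖ := pow_one _
  set σ := ‖x - x1‖ with hσd
  rcases eq_or_lt_of_le (norm_nonneg (x - x1)) with h0 | hσ
  · have : x = x1 := by
      have := norm_eq_zero.mp h0.symm
      exact sub_eq_zero.mp this
    rw [this, sub_self, norm_zero]
    exact mul_nonneg hε.le (P1_Ehat_nonneg _ _ _ (norm_nonneg _) _)
  · rw [← hσd] at hσ
    set ρ := min (c0 * ‖t‖ ^ N) (σ * C3 / ε) with hρ
    have hρ0 : 0 < ρ := by rw [hρ]; positivity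
    have hρ1 : ρ ≤ c0 * ‖t‖ ^ N := min_le_left _ _
    have hρ2 : ε / C3 * ρ ≤ σ := by
      have : ρ ≤ σ * C3 / ε := min_le_right _ _
      calc ε / C3 * ρ ≤ ε / C3 * (σ * C3 / ε) := mul_le_mul_of_nonneg_left this (by positivity)
        _ = σ := by field_simp
    have hdf : ∀ ξ z : ℂ, ‖ξ‖ < δ * ‖t‖ ^ N → ‖z - t ^ N‖ ≤ ρ → DifferentiableAt ℂ F (ξ, z) := by
      intro ξ z hξ hz
      apply (hrb (ξ, z) _).differentiableAt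
      rw [mem_ball, dist_zero_right, Prod.norm_def, max_lt_iff]
      constructor
      · calc ‖ξ‖ < δ * ‖t‖ ^ N := hξ
          _ ≤ (r / 2) * 1 := by
              apply mul_le_mul hδ3' _ hyn.le (by positivity)
              linarith
          _ ≤ r := by linarith
      · have h1 := norm_add_le (z - t ^ N) (t ^ N)
        rw [sub_add_cancel, norm_pow] at h1
        have h2 : c0 * ‖t‖ ^ N ≤ 1 * ‖t‖ ^ N := mul_le_mul_of_nonneg_right (by linarith) hyn.le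
        simp only
        linarith
    set B := C3 * Ehat e γ x1 σ t with hB
    have hB0 : 0 ≤ B := mul_nonneg hC3.le (P1_Ehat_nonneg _ _ _ (norm_nonneg _) _)
    have hbd : ∀ z : ℂ, ‖z - t ^ N‖ ≤ ρ → ‖F (x, z) - F (x1, z)‖ ≤ B * σ := by
      intro z hz
      have hconv : Convex ℝ (ball (0 : ℂ) (δ * ‖t‖ ^ N) ∩ closedBall x1 σ) :=
        (convex_ball _ _).inter (convex_closedBall _ _)
      apply hconv.norm_image_sub_le_of_norm_hasDerivWithin_le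
        (f := fun ξ => F (ξ, z)) (f' := fun ξ => dx F (ξ, z))
      · intro ξ hξ
        have hξ1 : ‖ξ‖ < δ * ‖t‖ ^ N := by simpa using hξ.1
        exact (P1_dx (hdf ξ z hξ1 hz)).hasDerivWithinAt
      · intro ξ hξ
        have hξ1 : ‖ξ‖ < δ * ‖t‖ ^ N := by simpa using hξ.1
        have hξ2 : ‖ξ - x1‖ ≤ σ := by
          have := hξ.2
          rwa [mem_closedBall, dist_eq_norm] at this
        exact hd ξ x1 t z σ ρ ht0 (ht.trans_le hδ1')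
          (hξ1.trans_le (mul_le_mul_of_nonneg_right hδ1' hyn.le)) hξ2 hρ1 hρ2 hz
      · refine ⟨by simpa using hx1, ?_⟩
        exact mem_closedBall_self hσ.le
      · refine ⟨by simpa using hx, ?_⟩
        rw [mem_closedBall, dist_eq_norm]
    have hΦ : ∀ z : ℂ, ‖z - t ^ N‖ ≤ ρ →
        HasDerivAt (fun z => F (x, z) - F (x1, z)) (dy F (x, z) - dy F (x1, z)) z := by
      intro z hz
      exact (P1_dy (hdf x z hx hz)).sub (P1_dy (hdf x1 z hx1 hz))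
    have hcau : ‖deriv (fun z => F (x, z) - F (x1, z)) (t ^ N)‖ ≤ B * σ / ρ := by
      apply Complex.norm_deriv_le_of_forall_mem_sphere_norm_le hρ0
      · apply DifferentiableOn.diffContOnCl
        intro z hz
        have hz' : ‖z - t ^ N‖ ≤ ρ := by
          have := closure_ball_subset_closedBall hz
          rwa [mem_closedBall, dist_eq_norm] at this
        exact (hΦ z hz').differentiableAt.differentiableWithinAt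
      · intro z hz
        apply hbd
        rw [mem_sphere, dist_eq_norm] at hz
        exact hz.le
    rw [(hΦ (t ^ N) (by rw [sub_self, norm_zero]; exact hρ0.le)).deriv] at hcau
    refine hcau.trans ?_
    have hσ2 : σ ≤ 2 * δ * ‖t‖ ^ N := by
      have := norm_sub_le x x1
      linarith
    have hkey : C3 * σ ≤ ε * ρ := by
      rw [hρ, mul_min_of_nonneg _ _ hε.le]
      apply le_min
      · calc C3 * σ ≤ C3 * (2 * δ * ‖t‖ ^ N) := mul_le_mul_of_nonneg_left hσ2 hC3.le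
          _ ≤ C3 * (2 * (c0 * ε / (2 * C3)) * ‖t‖ ^ N) := by gcongr
          _ = ε * (c0 * ‖t‖ ^ N) := by field_simp
      · apply le_of_eq; field_simp
    rw [div_le_iff₀ hρ0, hB]
    calc C3 * Ehat e γ x1 σ t * σ = (C3 * σ) * Ehat e γ x1 σ t := by ring
      _ ≤ (ε * ρ) * Ehat e γ x1 σ t :=
          mul_le_mul_of_nonneg_right hkey (P1_Ehat_nonneg _ _ _ (norm_nonneg _) _)
      _ = _ := by ring

end H24.LS
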