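import Pool.Agent.H24.LS.P0

/-!
# P2: change of the parameter `t`; critical values along the arcs

* `pch_pow`: replace `t` by `t^M` (then `N` becomes `N M`): all fields are immediate
  (`(t^M)^N = t^(N M)`, `N (k-1-n)` becomes `N M (k-1-n)`, `‖t^M‖ < δ` if `‖t‖ < min δ 1`).
* `arc_crit`: `dx F (γ_l t, t^N) = 0` (by `fac`, the product vanishes) and the derivative of
  `V_l(t) = F (γ_l t, t^N)` is `N t^(N-1) dy F (γ_l t, t^N)` (chain rule, the `dx` term drops).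
* `arc_ord`: `V_l` is analytic at `0`.  If it were `0` near `0`, then `dy F = 0` and `dx F = 0` along the arc,
  contradicting `Iso` (`(γ_l t, t^N) ≠ 0`, tends to `0`).  So `V_l(t) = t^D g(t)`, `g(0) = a ≠ 0`;
  by `van` `V_l(t) = o(t^(Nk))`, so `D > N k`.  `V_l' (t) t/t^D → a D`, and
  `dy F (γ_l t, t^N) t^N/t^D = V_l'(t) t/(N t^D)`.
-/

open Filter Topology Metric Asymptotics

namespace H24.LS

namespace P2aux

theorem pow_tendsto {M : ℕ} (hM : 1 ≤ M) :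
    Tendsto (fun t : ℂ => t ^ M) (𝓝[≠] 0) (𝓝[≠] 0) := by
  have hM0 : M ≠ 0 := by omega
  refine tendsto_nhdsWithin_of_tendsto_nhds_of_eventually_within _ ?_ ?_
  · have h : Tendsto (fun t : ℂ => t ^ M) (𝓝 0) (𝓝 ((0 : ℂ) ^ M)) :=
      (continuous_pow M).tendsto 0
    rw [zero_pow hM0] at h
    exact h.mono_left nhdsWithin_le_nhds
  · filter_upwards [self_mem_nhdsWithin] with t ht
    exact pow_ne_zero M ht

theorem small_of {F : ℂ × ℂ → ℂ} {k n N : ℕ} {u : ℂ} {γ : Fin n → ℂ → ℂ} (h : PCh F k n N u γ)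
    (l : Fin n) {δ : ℝ} (hδ : 0 < δ) :
    ∀ᶠ t in 𝓝[≠] (0 : ℂ), 0 < ‖t‖ ∧ ‖t‖ < δ ∧ ‖γ l t‖ < δ * ‖t‖ ^ N := by
  have h1 : ∀ᶠ t in 𝓝[≠] (0 : ℂ), ‖t‖ < δ := by
    refine nhdsWithin_le_nhds ?_
    filter_upwards [ball_mem_nhds (0 : ℂ) hδ] with t ht
    rwa [mem_ball_zero_iff] at ht
  filter_upwards [(h.γsm l).def (show (0 : ℝ) < δ / 2 by positivity), self_mem_nhdsWithin, h1]
    with t ht ht0 ht1
  have h2 : 0 < ‖t‖ := norm_pos_iff.mpr ht0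
  have hpos : 0 < ‖t‖ ^ N := pow_pos h2 N
  rw [norm_pow] at ht
  exact ⟨h2, ht1, by nlinarith⟩

theorem γ_zero {F : ℂ × ℂ → ℂ} {k n N : ℕ} {u : ℂ} {γ : Fin n → ℂ → ℂ} (h : PCh F k n N u γ)
    (l : Fin n) : γ l 0 = 0 := by
  have hN : N ≠ 0 := by have := h.hN; omega
  have h1 : Tendsto (γ l) (𝓝[≠] 0) (𝓝 (γ l 0)) :=
    (h.γan l).continuousAt.tendsto.mono_left nhdsWithin_le_nhds
  have h2 : Tendsto (fun t : ℂ => t ^ N) (𝓝[≠] 0) (𝓝 0) :=
    (pow_tendsto h.hN).mono_right nhdsWithin_le_nhds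
  have h3 : Tendsto (γ l) (𝓝[≠] 0) (𝓝 0) := (h.γsm l).isBigO.trans_tendsto h2
  exact tendsto_nhds_unique h1 h3

theorem curve_an {F : ℂ × ℂ → ℂ} {k n N : ℕ} {u : ℂ} {γ : Fin n → ℂ → ℂ} (h : PCh F k n N u γ)
    (l : Fin n) : AnalyticAt ℂ (fun t : ℂ => (γ l t, t ^ N)) 0 :=
  (h.γan l).prod (by fun_prop)

theorem curve_zero {F : ℂ × ℂ → ℂ} {k n N : ℕ} {u : ℂ} {γ : Fin n → ℂ → ℂ}
    (h : PCh F k n N u γ) (l : Fin n) : ((γ l 0, (0 : ℂ) ^ N) : ℂ × ℂ) = 0 := by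
  have hN : N ≠ 0 := by have := h.hN; omega
  rw [γ_zero h l, zero_pow hN]
  rfl

theorem curve_tendsto {F : ℂ × ℂ → ℂ} {k n N : ℕ} {u : ℂ} {γ : Fin n → ℂ → ℂ}
    (h : PCh F k n N u γ) (l : Fin n) :
    Tendsto (fun t : ℂ => (γ l t, t ^ N)) (𝓝 0) (𝓝 (0 : ℂ × ℂ)) := by
  have h1 := (curve_an h l).continuousAt.tendsto
  rw [curve_zero h l] at h1
  exact h1

theorem V_an {F : ℂ × ℂ → ℂ} {k n N : ℕ} {u : ℂ} {γ : Fin n → ℂ → ℂ} (h : PCh F k n N u γ)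
    (l : Fin n) : AnalyticAt ℂ (fun t : ℂ => F (γ l t, t ^ N)) 0 := by
  have h1 : AnalyticAt ℂ F (γ l 0, (0 : ℂ) ^ N) := by
    rw [curve_zero h l]
    exact h.an
  exact h1.comp (f := fun t : ℂ => (γ l t, t ^ N)) (curve_an h l)

end P2aux

open P2aux

theorem pch_pow {F : ℂ × ℂ → ℂ} {k n N : ℕ} {u : ℂ} {γ : Fin n → ℂ → ℂ} (h : PCh F k n N u γ)
    (M : ℕ) (hM : 1 ≤ M) : PCh F k n (N * M) u (fun l t => γ l (t ^ M)) := by
  have hM0 : M ≠ 0 := by omega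
  have hpw : ∀ t : ℂ, (t ^ M) ^ N = t ^ (N * M) := by
    intro t
    rw [← pow_mul, mul_comm]
  refine ⟨h.an, h.hk, ?_, h.hu, ?_, ?_, ?_, h.van, h.bdF⟩
  · exact Nat.mul_pos h.hN hM
  · intro l
    have h1 : AnalyticAt ℂ (γ l) ((0 : ℂ) ^ M) := by
      rw [zero_pow hM0]
      exact h.γan l
    exact h1.comp (f := fun t : ℂ => t ^ M) (by fun_prop)
  · intro l
    have h1 := (h.γsm l).comp_tendsto (pow_tendsto hM)
    refine h1.congr_right ?_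
    intro t
    exact hpw t
  · intro ε hε
    obtain ⟨δ, hδ, hfac⟩ := h.fac ε hε
    refine ⟨min δ 1, lt_min hδ one_pos, ?_⟩
    intro x t ht0 ht hx
    have ht1 : ‖t‖ < 1 := ht.trans_le (min_le_right _ _)
    have htδ : ‖t‖ < δ := ht.trans_le (min_le_left _ _)
    have hsn : ‖t ^ M‖ = ‖t‖ ^ M := norm_pow t M
    have hle : ‖t‖ ^ M ≤ ‖t‖ := pow_le_of_le_one ht0.le ht1.le hM0
    have hpos : 0 < ‖t‖ ^ M := pow_pos ht0 M
    have hp2 : (‖t‖ ^ M) ^ N = ‖t‖ ^ (N * M) := by rw [← pow_mul, mul_comm]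
    have hp3 : (‖t‖ ^ M) ^ (N * (k - 1 - n)) = ‖t‖ ^ (N * M * (k - 1 - n)) := by
      rw [← pow_mul]
      congr 1
      ring
    have hp4 : (t ^ M) ^ (N * (k - 1 - n)) = t ^ (N * M * (k - 1 - n)) := by
      rw [← pow_mul]
      congr 1
      ring
    have h1 := hfac x (t ^ M) (by rw [hsn]; exact hpos) (by rw [hsn]; exact lt_of_le_of_lt hle htδ)
      (by
        rw [hsn, hp2]
        refine hx.trans_le ?_
        exact mul_le_mul_of_nonneg_right (min_le_left _ _) (by positivity))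
    rw [hpw, hsn, hp3, hp4] at h1
    exact h1

theorem arc_crit {F : ℂ × ℂ → ℂ} {k n N : ℕ} {u : ℂ} {γ : Fin n → ℂ → ℂ} (h : PCh F k n N u γ)
    (l : Fin n) :
    ∀ᶠ t in 𝓝[≠] (0 : ℂ), dx F (γ l t, t ^ N) = 0 ∧
      HasDerivAt (fun s => F (γ l s, s ^ N)) (N * t ^ (N - 1) * dy F (γ l t, t ^ N)) t := by
  obtain ⟨δ, hδ, hfac⟩ := h.fac 1 one_pos
  have hdiff : ∀ᶠ p in 𝓝 (0 : ℂ × ℂ), DifferentiableAt ℂ F p :=
    h.an.eventually_analyticAt.mono fun p hp => hp.differentiableAt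
  have hdiff' : ∀ᶠ t in 𝓝[≠] (0 : ℂ), DifferentiableAt ℂ F (γ l t, t ^ N) :=
    nhdsWithin_le_nhds ((curve_tendsto h l).eventually hdiff)
  have hγ : ∀ᶠ t in 𝓝[≠] (0 : ℂ), DifferentiableAt ℂ (γ l) t :=
    nhdsWithin_le_nhds ((h.γan l).eventually_analyticAt.mono fun p hp => hp.differentiableAt)
  filter_upwards [small_of h l hδ, hdiff', hγ] with t ⟨ht0, htδ, hx⟩ hF hg
  have hdx : dx F (γ l t, t ^ N) = 0 := by
    have h1 := hfac (γ l t) t ht0 htδ hx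
    have h2 : ∏ l', (γ l t - γ l' t) = 0 :=
      Finset.prod_eq_zero (Finset.mem_univ l) (sub_self _)
    have h3 : ∏ l', ‖γ l t - γ l' t‖ = 0 :=
      Finset.prod_eq_zero (Finset.mem_univ l) (by rw [sub_self, norm_zero])
    rw [h2, h3, mul_zero, mul_zero, mul_zero, sub_zero] at h1
    exact norm_le_zero_iff.mp h1
  refine ⟨hdx, ?_⟩
  have hc : HasDerivAt (fun s : ℂ => (γ l s, s ^ N)) (deriv (γ l) t, (N : ℂ) * t ^ (N - 1)) t :=
    hg.hasDerivAt.prodMk (hasDerivAt_pow N t)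
  have h1 := hF.hasFDerivAt.comp_hasDerivAt t hc
  have h2 : fderiv ℂ F (γ l t, t ^ N) (deriv (γ l) t, (N : ℂ) * t ^ (N - 1)) =
      N * t ^ (N - 1) * dy F (γ l t, t ^ N) := by
    have h3 : ((deriv (γ l) t, (N : ℂ) * t ^ (N - 1)) : ℂ × ℂ) =
        deriv (γ l) t • ((1 : ℂ), (0 : ℂ)) + ((N : ℂ) * t ^ (N - 1)) • ((0 : ℂ), (1 : ℂ)) := by
      ext <;> simp
    rw [h3, map_add, map_smul, map_smul]
    have h4 : fderiv ℂ F (γ l t, t ^ N) ((1 : ℂ), (0 : ℂ)) = 0 := hdx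
    rw [h4, smul_zero, zero_add, smul_eq_mul]
    rfl
  rw [h2] at h1
  exact h1

theorem arc_ord {F : ℂ × ℂ → ℂ} {k n N : ℕ} {u : ℂ} {γ : Fin n → ℂ → ℂ} (h : PCh F k n N u γ)
    (hi : Iso F) (l : Fin n) :
    ∃ (D : ℕ) (a : ℂ), N * k < D ∧ a ≠ 0 ∧
      Tendsto (fun t : ℂ => F (γ l t, t ^ N) / t ^ D) (𝓝[≠] 0) (𝓝 a) ∧
      Tendsto (fun t : ℂ => dy F (γ l t, t ^ N) * t ^ N / t ^ D) (𝓝[≠] 0) (𝓝 (a * D / N)) := by
  have hN0 : N ≠ 0 := by have := h.hN; omega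
  have hNc : (N : ℂ) ≠ 0 := Nat.cast_ne_zero.mpr hN0
  have hV := V_an h l
  have hcrit := arc_crit h l
  -- `V` is not identically zero near `0`
  have hnz : ¬ ∀ᶠ t in 𝓝 (0 : ℂ), F (γ l t, t ^ N) = 0 := by
    intro hz
    have hz' : ∀ᶠ t in 𝓝[≠] (0 : ℂ), (fun s : ℂ => F (γ l s, s ^ N)) =ᶠ[𝓝 t] fun _ => 0 :=
      nhdsWithin_le_nhds (eventually_eventually_nhds.mpr hz)
    have hiso : ∀ᶠ t in 𝓝[≠] (0 : ℂ), fderiv ℂ F (γ l t, t ^ N) ≠ 0 := by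
      have ht : Tendsto (fun t : ℂ => (γ l t, t ^ N)) (𝓝[≠] 0) (𝓝[≠] (0 : ℂ × ℂ)) := by
        refine tendsto_nhdsWithin_of_tendsto_nhds_of_eventually_within _
          ((curve_tendsto h l).mono_left nhdsWithin_le_nhds) ?_
        filter_upwards [self_mem_nhdsWithin] with t ht
        intro h0
        exact pow_ne_zero N ht (congrArg Prod.snd h0)
      exact ht.eventually hi
    obtain ⟨t, ⟨⟨⟨h1, h2⟩, h3⟩, h4⟩, ht0⟩ :=
      (((hcrit.and hz').and hiso).and (self_mem_nhdsWithin (a := (0 : ℂ)) (s := {0}ᶜ))).exists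
    have h5 : HasDerivAt (fun s : ℂ => F (γ l s, s ^ N)) 0 t :=
      h3.hasDerivAt_iff.mpr (hasDerivAt_const t 0)
    have h6 := h2.unique h5
    have h7 : dy F (γ l t, t ^ N) = 0 := by
      rcases mul_eq_zero.mp h6 with h8 | h8
      · exfalso
        exact (mul_ne_zero hNc (pow_ne_zero _ ht0)) h8
      · exact h8
    apply h4
    ext
    · simp only [ContinuousLinearMap.comp_apply, ContinuousLinearMap.inl_apply,
        ContinuousLinearMap.zero_comp, zero_apply]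
      exact h1
    · simp only [ContinuousLinearMap.comp_apply, ContinuousLinearMap.inr_apply,
        ContinuousLinearMap.zero_comp, zero_apply]
      exact h7
  obtain ⟨D, g, hg, hg0, hVg⟩ := hV.exists_eventuallyEq_pow_smul_nonzero_iff.mpr hnz
  simp only [sub_zero, smul_eq_mul] at hVg
  have hgt : Tendsto g (𝓝[≠] 0) (𝓝 (g 0)) := hg.continuousAt.tendsto.mono_left nhdsWithin_le_nhds
  refine ⟨D, g 0, ?_, hg0, ?_, ?_⟩
  · by_contra hD
    rw [not_lt] at hD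
    have hgn : 0 < ‖g 0‖ := norm_pos_iff.mpr hg0
    obtain ⟨δ, hδ, hvan⟩ := h.van (‖g 0‖ / 2) (by positivity)
    have hpw : ∀ᶠ t in 𝓝[≠] (0 : ℂ), ‖t ^ N‖ < δ := by
      have h1 : Tendsto (fun t : ℂ => t ^ N) (𝓝[≠] 0) (𝓝 0) :=
        (pow_tendsto h.hN).mono_right nhdsWithin_le_nhds
      filter_upwards [h1.eventually (ball_mem_nhds (0 : ℂ) hδ)] with t ht
      exact mem_ball_zero_iff.mp ht
    have hle : ∀ᶠ t in 𝓝[≠] (0 : ℂ), ‖g t‖ ≤ ‖g 0‖ / 2 := by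
      filter_upwards [small_of h l hδ, small_of h l one_pos, hpw, nhdsWithin_le_nhds hVg]
        with t ⟨ht0, _, hx⟩ ⟨_, ht1, _⟩ hp hVt
      have hpN : 0 < ‖t ^ N‖ := by
        rw [norm_pow]
        exact pow_pos ht0 N
      have h1 := hvan (γ l t) (t ^ N) hpN hp (by rw [norm_pow]; exact hx)
      rw [hVt, norm_mul, norm_pow, norm_pow, ← pow_mul] at h1
      have h2 : ‖t‖ ^ (N * k) ≤ ‖t‖ ^ D := pow_le_pow_of_le_one ht0.le ht1.le hD
      have h3 : 0 < ‖t‖ ^ D := pow_pos ht0 D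
      have h4 : ‖t‖ ^ D * ‖g t‖ ≤ ‖t‖ ^ D * (‖g 0‖ / 2) := by
        calc ‖t‖ ^ D * ‖g t‖ ≤ ‖g 0‖ / 2 * ‖t‖ ^ (N * k) := h1
          _ ≤ ‖g 0‖ / 2 * ‖t‖ ^ D := mul_le_mul_of_nonneg_left h2 (by positivity)
          _ = _ := by ring
      exact le_of_mul_le_mul_left h4 h3
    have h5 := le_of_tendsto hgt.norm hle
    linarith
  · refine hgt.congr' ?_
    filter_upwards [nhdsWithin_le_nhds hVg, self_mem_nhdsWithin] with t ht ht0
    rw [ht]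
    have : t ^ D ≠ 0 := pow_ne_zero D ht0
    field_simp
  · have hVg' : ∀ᶠ t in 𝓝[≠] (0 : ℂ), (fun s : ℂ => F (γ l s, s ^ N)) =ᶠ[𝓝 t]
        fun s => s ^ D * g s := nhdsWithin_le_nhds (eventually_eventually_nhds.mpr hVg)
    have hgd : ∀ᶠ t in 𝓝[≠] (0 : ℂ), DifferentiableAt ℂ g t :=
      nhdsWithin_le_nhds (hg.eventually_analyticAt.mono fun p hp => hp.differentiableAt)
    have hlim : Tendsto (fun t : ℂ => ((D : ℂ) * g t + t * deriv g t) / N) (𝓝[≠] 0)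
        (𝓝 (((D : ℂ) * g 0 + 0 * deriv g 0) / N)) := by
      have hd : Tendsto (deriv g) (𝓝[≠] 0) (𝓝 (deriv g 0)) :=
        hg.deriv.continuousAt.tendsto.mono_left nhdsWithin_le_nhds
      have hid : Tendsto (fun t : ℂ => t) (𝓝[≠] 0) (𝓝 0) :=
        tendsto_id.mono_left nhdsWithin_le_nhds
      exact ((hgt.const_mul (D : ℂ)).add (hid.mul hd)).div_const _
    have he : ((D : ℂ) * g 0 + 0 * deriv g 0) / N = g 0 * D / N := by ring
    rw [he] at hlim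
    refine hlim.congr' ?_
    filter_upwards [hVg', hgd, hcrit, self_mem_nhdsWithin] with t h1 h2 ⟨_, h3⟩ ht0
    have ht0' : t ≠ 0 := ht0
    have h4 : HasDerivAt (fun s : ℂ => s ^ D * g s)
        ((D : ℂ) * t ^ (D - 1) * g t + t ^ D * deriv g t) t :=
      (hasDerivAt_pow D t).mul h2.hasDerivAt
    have h5 := h3.unique (h1.hasDerivAt_iff.mpr h4)
    have h6 : (N : ℂ) * t ^ N * dy F (γ l t, t ^ N) =
        t ^ D * ((D : ℂ) * g t + t * deriv g t) := by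
      have h7 : t ^ N = t ^ (N - 1) * t := by
        rw [← pow_succ]
        congr 1
        omega
      have h8 : (D : ℂ) * t ^ D = (D : ℂ) * t ^ (D - 1) * t := by
        rcases Nat.eq_zero_or_pos D with hD | hD
        · rw [hD]; simp
        · rw [mul_assoc, ← pow_succ]
          congr 2
          omega
      calc (N : ℂ) * t ^ N * dy F (γ l t, t ^ N)
          = (N * t ^ (N - 1) * dy F (γ l t, t ^ N)) * t := by rw [h7]; ring
        _ = ((D : ℂ) * t ^ (D - 1) * g t + t ^ D * deriv g t) * t := by rw [h5]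
        _ = ((D : ℂ) * t ^ (D - 1) * t) * g t + t ^ D * (t * deriv g t) := by ring
        _ = _ := by rw [← h8]; ring
    have h9 : t ^ D ≠ 0 := pow_ne_zero D ht0'
    rw [div_eq_div_iff hNc h9]
    linear_combination -h6

end H24.LS
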