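import Pool.Agent.H24.LS.P0
import Pool.Agent.H24.LS.P1
import Pool.Agent.H24.LS.P2
import Pool.Agent.H24.LS.D1

/-!
# D2: existence of the clusters

Proof.  Let `e = N (k-1-n)`, `v_l(t) = dy F (γ_l t, t^N)`, `D_l` from `arc_ord`: `‖v_l‖ ≍ ‖t‖^(D_l - N)`.
`phi e γ l N = e + n N = N (k-1) < D_l - N` (as `D_l > N k`), so `phi_exists` gives `b_l > N` with
`phi e γ l b_l = D_l - N`; by `ehat_size`: (bal) `Ehat e γ (γ_l t) (‖t‖^{b_l}) t ≍ ‖v_l t‖`.
Relation: `l ~ l'` iff `b_l ≤ oo l l'` (as extended reals; i.e. `oo = ⊤` or `b_l ≤ (oo).toNat`).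
 * reflexive: `oo l l = ⊤`.
 * if `l ~ l'` then `D_l = D_l'` and `b_l = b_l'`: by `pf3` (`x = γ_l' t`, `x1 = γ_l t`, for every `ε`)
   `‖v_l' - v_l‖ ≤ ε Ehat (γ_l) ‖γ_l - γ_l'‖ ≤ ε C Ehat (γ_l) (‖t‖^{b_l}) ≤ ε C' ‖v_l‖`
   (`‖γ_l - γ_l'‖ ≤ C ‖t‖^{b_l}`, and `Ehat x1 (Cσ) ≤ C^n Ehat x1 σ` for `C ≥ 1`), so
   `v_l'/v_l → 1` and `D_l = D_l'`.  For every `l''`: `mo b_l (oo l l'') = mo b_l (oo l' l'')`
   (ultrametric: if `oo l l'' < b_l ≤ oo l l'` then `oo l' l'' = oo l l''`; if `oo l l'' ≥ b_l` then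
   `oo l' l'' ≥ b_l` too).  So `phi e γ l' b_l = phi e γ l b_l = D_l - N = D_l' - N = phi e γ l' b_l'`
   and `b_l = b_l'` by strict monotonicity.
 * symmetric, transitive: now clear (`oo_symm`, `oo_ultra`).
Number the classes: `cl : Fin n → Fin c` surjective with `cl l = cl l' ↔ l ~ l'` (quotient by the
setoid, `Fintype.equivFin`), `b : Fin c → ℝ` the common value.
`same`: `oo l l' = ⊤` or `‖γ_l - γ_l'‖ ≍ ‖t‖^a`, `a ≥ b`.  `diff`: `oo l l' = a < b_l`.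
-/

open Filter Topology Metric Asymptotics

namespace H24.LS

/-- monotonicity facts for `mo` -/
private theorem D2_mo_le (b : ℝ) (o : ℕ∞) : mo b o ≤ b := by
  unfold mo
  split_ifs
  · exact le_rfl
  · exact min_le_left _ _

private theorem D2_mo_min (b : ℝ) (o1 o2 o3 : ℕ∞) (h : min o1 o2 ≤ o3) :
    min (mo b o1) (mo b o2) ≤ mo b o3 := by
  by_cases h3 : o3 = ⊤
  · have : mo b o3 = b := by simp [mo, h3]
    rw [this]
    exact (min_le_left _ _).trans (D2_mo_le b o1)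
  · have e3 : mo b o3 = min b (o3.toNat : ℝ) := by simp [mo, h3]
    rw [e3]
    refine le_min ((min_le_left _ _).trans (D2_mo_le b o1)) ?_
    rcases min_le_iff.1 h with h1 | h2
    · have h1t : o1 ≠ ⊤ := fun hh => h3 (top_le_iff.1 (hh ▸ h1))
      have e1 : mo b o1 = min b (o1.toNat : ℝ) := by simp [mo, h1t]
      refine (min_le_left _ _).trans ?_
      rw [e1]
      refine (min_le_right _ _).trans ?_
      exact_mod_cast ENat.toNat_le_toNat h1 h3
    · have h2t : o2 ≠ ⊤ := fun hh => h3 (top_le_iff.1 (hh ▸ h2))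
      have e2 : mo b o2 = min b (o2.toNat : ℝ) := by simp [mo, h2t]
      refine (min_le_right _ _).trans ?_
      rw [e2]
      refine (min_le_right _ _).trans ?_
      exact_mod_cast ENat.toNat_le_toNat h2 h3

/-- two sided estimate for a function with a finite order -/
private theorem D2_order {f : ℂ → ℂ} (hf : AnalyticAt ℂ f 0) (h : analyticOrderAt f 0 ≠ ⊤) :
    ∃ c1 > (0 : ℝ), ∃ c2 > (0 : ℝ), ∀ᶠ t in 𝓝[≠] (0 : ℂ),
      c1 * ‖t‖ ^ (((analyticOrderAt f 0).toNat : ℕ) : ℝ) ≤ ‖f t‖ ∧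
      ‖f t‖ ≤ c2 * ‖t‖ ^ (((analyticOrderAt f 0).toNat : ℕ) : ℝ) := by
  obtain ⟨a, ha⟩ := ENat.ne_top_iff_exists.1 h
  obtain ⟨g, hg, hg0, hfg⟩ := (hf.analyticOrderAt_eq_natCast (n := a)).1 ha.symm
  have hn : (analyticOrderAt f 0).toNat = a := by rw [← ha]; rfl
  rw [hn]
  have hgn : 0 < ‖g 0‖ := norm_pos_iff.2 hg0
  have ht : Tendsto (fun t => ‖g t‖) (𝓝 0) (𝓝 ‖g 0‖) := hg.continuousAt.norm
  have h1 : ∀ᶠ t in 𝓝 (0 : ℂ), ‖g 0‖ / 2 < ‖g t‖ := ht.eventually (lt_mem_nhds (by linarith))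
  have h2 : ∀ᶠ t in 𝓝 (0 : ℂ), ‖g t‖ < 2 * ‖g 0‖ := ht.eventually (gt_mem_nhds (by linarith))
  refine ⟨‖g 0‖ / 2, by positivity, 2 * ‖g 0‖, by positivity, ?_⟩
  have hall : ∀ᶠ t in 𝓝 (0 : ℂ), ‖g 0‖ / 2 * ‖t‖ ^ (a : ℝ) ≤ ‖f t‖ ∧
      ‖f t‖ ≤ 2 * ‖g 0‖ * ‖t‖ ^ (a : ℝ) := by
    filter_upwards [h1, h2, hfg] with t e1 e2 e3
    rw [e3, sub_zero, smul_eq_mul, norm_mul, norm_pow, Real.rpow_natCast]
    have hp : 0 ≤ ‖t‖ ^ a := by positivity
    constructor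
    · nlinarith
    · nlinarith
  exact hall.filter_mono nhdsWithin_le_nhds

/-- `R l l'` : the arcs `l, l'` are closer than `b` -/
private theorem D2_close {f : ℂ → ℂ} (hf : AnalyticAt ℂ f 0) (b : ℝ)
    (h : mo b (analyticOrderAt f 0) = b) :
    ∃ C ≥ (1 : ℝ), ∀ᶠ t in 𝓝[≠] (0 : ℂ), ‖f t‖ ≤ C * ‖t‖ ^ b := by
  by_cases ht : analyticOrderAt f 0 = ⊤
  · refine ⟨1, le_rfl, ?_⟩
    have h0 : ∀ᶠ t in 𝓝 (0 : ℂ), f t = 0 := analyticOrderAt_eq_top.1 ht
    filter_upwards [h0.filter_mono nhdsWithin_le_nhds] with t e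
    rw [e, norm_zero, one_mul]
    positivity
  · have e1 : mo b (analyticOrderAt f 0) = min b ((analyticOrderAt f 0).toNat : ℝ) := by
      simp [mo, ht]
    rw [e1] at h
    have hle : b ≤ ((analyticOrderAt f 0).toNat : ℝ) := min_eq_left_iff.1 h
    obtain ⟨c1, hc1, c2, hc2, hev⟩ := D2_order hf ht
    refine ⟨max 1 c2, le_max_left _ _, ?_⟩
    have hsmall : ∀ᶠ t in 𝓝[≠] (0 : ℂ), ‖t‖ < 1 := by
      have : ∀ᶠ t in 𝓝 (0 : ℂ), ‖t‖ < 1 := by
        have := Metric.ball_mem_nhds (0 : ℂ) one_pos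
        filter_upwards [this] with t ht
        simpa using ht
      exact this.filter_mono nhdsWithin_le_nhds
    filter_upwards [hev, hsmall, self_mem_nhdsWithin] with t ⟨_, h2⟩ h3 h4
    have hpos : 0 < ‖t‖ := norm_pos_iff.2 h4
    refine h2.trans ?_
    have hexp : ‖t‖ ^ ((analyticOrderAt f 0).toNat : ℝ) ≤ ‖t‖ ^ b :=
      Real.rpow_le_rpow_of_exponent_ge hpos h3.le hle
    exact mul_le_mul (le_max_right _ _) hexp (by positivity) (by positivity)

private theorem D2_far {f : ℂ → ℂ} (hf : AnalyticAt ℂ f 0) (b : ℝ)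
    (h : mo b (analyticOrderAt f 0) ≠ b) :
    (fun t : ℂ => ‖t‖ ^ b) =o[𝓝[≠] 0] f := by
  have ht : analyticOrderAt f 0 ≠ ⊤ := by
    intro ht
    exact h (by simp [mo, ht])
  have e1 : mo b (analyticOrderAt f 0) = min b ((analyticOrderAt f 0).toNat : ℝ) := by
    simp [mo, ht]
  rw [e1] at h
  have hlt : ((analyticOrderAt f 0).toNat : ℝ) < b := by
    by_contra hcon
    exact h (min_eq_left (not_lt.1 hcon))
  obtain ⟨c1, hc1, c2, hc2, hev⟩ := D2_order hf ht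
  set a : ℝ := ((analyticOrderAt f 0).toNat : ℝ) with ha
  have hO : (fun t : ℂ => ‖t‖ ^ a) =O[𝓝[≠] 0] f := by
    refine IsBigO.of_bound (c1⁻¹) ?_
    filter_upwards [hev] with t ⟨h1, _⟩
    rw [Real.norm_of_nonneg (by positivity), inv_mul_eq_div, le_div_iff₀ hc1]
    linarith
  refine IsLittleO.trans_isBigO ?_ hO
  have hto : Tendsto (fun t : ℂ => ‖t‖ ^ (b - a)) (𝓝[≠] 0) (𝓝 0) := by
    have hc : ContinuousAt (fun t : ℂ => ‖t‖ ^ (b - a)) 0 :=
      continuous_norm.continuousAt.rpow_const (Or.inr (by linarith))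
    have h0 : ‖(0 : ℂ)‖ ^ (b - a) = 0 := by
      rw [norm_zero]
      exact Real.zero_rpow (by linarith)
    have := hc.tendsto
    rw [h0] at this
    exact this.mono_left nhdsWithin_le_nhds
  rw [isLittleO_iff]
  intro ε hε
  have hev2 : ∀ᶠ t in 𝓝[≠] (0 : ℂ), ‖t‖ ^ (b - a) < ε := hto.eventually (gt_mem_nhds hε)
  filter_upwards [hev2, self_mem_nhdsWithin] with t h1 h2
  have hpos : 0 < ‖t‖ := norm_pos_iff.2 h2
  rw [Real.norm_of_nonneg (by positivity), Real.norm_of_nonneg (by positivity)]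
  have : ‖t‖ ^ b = ‖t‖ ^ (b - a) * ‖t‖ ^ a := by
    rw [← Real.rpow_add hpos]; congr 1; ring
  rw [this]
  exact mul_le_mul_of_nonneg_right h1.le (by positivity)

/-- two sided estimate of `v` from the asymptotics -/
private theorem D2_vsize {v : ℂ → ℂ} {N D : ℕ} {A : ℂ} (hA : A ≠ 0)
    (h : Tendsto (fun t : ℂ => v t * t ^ N / t ^ D) (𝓝[≠] 0) (𝓝 A)) :
    ∀ᶠ t in 𝓝[≠] (0 : ℂ), ‖A‖ / 2 * ‖t‖ ^ ((D : ℝ) - N) ≤ ‖v t‖ ∧
      ‖v t‖ ≤ 2 * ‖A‖ * ‖t‖ ^ ((D : ℝ) - N) := by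
  have hn : 0 < ‖A‖ := norm_pos_iff.2 hA
  have ht := h.norm
  have h1 : ∀ᶠ t in 𝓝[≠] (0 : ℂ), ‖A‖ / 2 < ‖v t * t ^ N / t ^ D‖ :=
    ht.eventually (lt_mem_nhds (by linarith))
  have h2 : ∀ᶠ t in 𝓝[≠] (0 : ℂ), ‖v t * t ^ N / t ^ D‖ < 2 * ‖A‖ :=
    ht.eventually (gt_mem_nhds (by linarith))
  filter_upwards [h1, h2, self_mem_nhdsWithin] with t e1 e2 e3
  have hpos : 0 < ‖t‖ := norm_pos_iff.2 e3
  have hD : 0 < ‖t‖ ^ ((D : ℝ) - N) := by positivity
  have hval : ‖v t * t ^ N / t ^ D‖ = ‖v t‖ / ‖t‖ ^ ((D : ℝ) - N) := by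
    rw [norm_div, norm_mul, norm_pow, norm_pow, Real.rpow_sub hpos, Real.rpow_natCast,
      Real.rpow_natCast]
    field_simp
  rw [hval] at e1 e2
  constructor
  · rw [lt_div_iff₀ hD] at e1
    exact e1.le
  · rw [div_lt_iff₀ hD] at e2
    exact e2.le

private theorem D2_ehat_mono {n : ℕ} (e : ℕ) (γ : Fin n → ℂ → ℂ) (x1 : ℂ) (t : ℂ) {C σ σ' : ℝ}
    (hC : 1 ≤ C) (h0 : 0 ≤ σ') (_hs : 0 ≤ σ) (h : σ' ≤ C * σ) :
    Ehat e γ x1 σ' t ≤ C ^ n * Ehat e γ x1 σ t := by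
  unfold Ehat
  have h1 : ∏ l, (σ' + ‖x1 - γ l t‖) ≤ ∏ l : Fin n, (C * (σ + ‖x1 - γ l t‖)) := by
    refine Finset.prod_le_prod (fun l _ => by positivity) (fun l _ => ?_)
    nlinarith [norm_nonneg (x1 - γ l t)]
  rw [Finset.prod_mul_distrib, Finset.prod_const, Finset.card_univ, Fintype.card_fin] at h1
  calc ‖t‖ ^ e * ∏ l, (σ' + ‖x1 - γ l t‖) ≤ ‖t‖ ^ e * (C ^ n * ∏ l, (σ + ‖x1 - γ l t‖)) :=
        mul_le_mul_of_nonneg_left h1 (by positivity)
    _ = C ^ n * (‖t‖ ^ e * ∏ l, (σ + ‖x1 - γ l t‖)) := by ring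

/-- if `v' - v = o(‖t‖^(D-N))`, both with exact orders, then the orders agree -/
private theorem D2_orders {v v' : ℂ → ℂ} {N D D' : ℕ} {A A' : ℂ} (hA : A ≠ 0) (hA' : A' ≠ 0)
    (h : Tendsto (fun t : ℂ => v t * t ^ N / t ^ D) (𝓝[≠] 0) (𝓝 A))
    (h' : Tendsto (fun t : ℂ => v' t * t ^ N / t ^ D') (𝓝[≠] 0) (𝓝 A'))
    (hd : ∀ ε > (0 : ℝ), ∀ᶠ t in 𝓝[≠] (0 : ℂ), ‖v' t - v t‖ ≤ ε * ‖t‖ ^ ((D : ℝ) - N)) :
    D = D' := by
  have hdiff : Tendsto (fun t : ℂ => (v' t - v t) * t ^ N / t ^ D) (𝓝[≠] 0) (𝓝 0) := by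
    rw [Metric.tendsto_nhds]
    intro ε hε
    filter_upwards [hd (ε / 2) (by linarith), self_mem_nhdsWithin] with t e1 e2
    have hpos : 0 < ‖t‖ := norm_pos_iff.2 e2
    rw [dist_zero_right, norm_div, norm_mul, norm_pow, norm_pow]
    rw [Real.rpow_sub hpos, Real.rpow_natCast, Real.rpow_natCast] at e1
    have hN : 0 < ‖t‖ ^ N := by positivity
    have hDp : 0 < ‖t‖ ^ D := by positivity
    rw [div_lt_iff₀ hDp]
    calc ‖v' t - v t‖ * ‖t‖ ^ N ≤ ε / 2 * (‖t‖ ^ D / ‖t‖ ^ N) * ‖t‖ ^ N :=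
          mul_le_mul_of_nonneg_right e1 hN.le
      _ = ε / 2 * ‖t‖ ^ D := by field_simp
      _ < ε * ‖t‖ ^ D := by nlinarith
  have hv' : Tendsto (fun t : ℂ => v' t * t ^ N / t ^ D) (𝓝[≠] 0) (𝓝 A) := by
    have := hdiff.add h
    rw [zero_add] at this
    refine this.congr (fun t => ?_)
    ring
  have hpow : ∀ m : ℕ, m ≠ 0 → Tendsto (fun t : ℂ => t ^ m) (𝓝[≠] 0) (𝓝 0) := by
    intro m hm
    have : Tendsto (fun t : ℂ => t ^ m) (𝓝 0) (𝓝 (0 ^ m)) := (continuous_pow m).tendsto 0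
    rw [zero_pow hm] at this
    exact this.mono_left nhdsWithin_le_nhds
  rcases lt_trichotomy D D' with hlt | heq | hgt
  · exfalso
    have := h'.mul (hpow (D' - D) (by omega))
    rw [mul_zero] at this
    have h2 : Tendsto (fun t : ℂ => v' t * t ^ N / t ^ D) (𝓝[≠] 0) (𝓝 0) := by
      refine this.congr' ?_
      filter_upwards [self_mem_nhdsWithin] with t ht
      have ht0 : t ≠ 0 := ht
      have : t ^ D' = t ^ D * t ^ (D' - D) := by rw [← pow_add]; congr 1; omega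
      rw [this]
      field_simp
    exact hA (tendsto_nhds_unique hv' h2)
  · exact heq
  · exfalso
    have := hv'.mul (hpow (D - D') (by omega))
    rw [mul_zero] at this
    have h2 : Tendsto (fun t : ℂ => v' t * t ^ N / t ^ D') (𝓝[≠] 0) (𝓝 0) := by
      refine this.congr' ?_
      filter_upwards [self_mem_nhdsWithin] with t ht
      have ht0 : t ≠ 0 := ht
      have : t ^ D = t ^ D' * t ^ (D - D') := by rw [← pow_add]; congr 1; omega
      rw [this]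
      field_simp
    exact hA' (tendsto_nhds_unique h' h2)

theorem preclu_exists {F : ℂ × ℂ → ℂ} {k n N : ℕ} {u : ℂ} {γ : Fin n → ℂ → ℂ}
    (h : PCh F k n N u γ) (hi : Iso F) :
    ∃ (c : ℕ) (cl : Fin n → Fin c) (b : Fin c → ℝ), PreClu F k n N γ c cl b := by
  classical
  have hkn := h.hk
  have hN1 := h.hN
  choose D a hND ha hV hv using fun l => arc_ord h hi l
  set e : ℕ := N * (k - 1 - n) with he
  have hphiN : ∀ l, phi e γ l N < (D l : ℝ) - N := by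
    intro l
    rw [phi_at_N e N γ h.γan h.γsm l]
    have h1 : e + n * N + N = N * k := by
      obtain ⟨q, hq⟩ : ∃ q, k = n + 1 + q := ⟨k - (n + 1), by omega⟩
      have h2 : k - 1 - n = q := by omega
      rw [he, h2, hq]; ring
    have h2 : ((e : ℝ) + n * N) + N < D l := by
      have := hND l
      rw [← h1] at this
      exact_mod_cast this
    linarith
  choose b hbN hbphi using fun l => phi_exists e γ l N ((D l : ℝ) - N) (hphiN l)
  have hA : ∀ l, a l * D l / N ≠ 0 := by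
    intro l
    have hD0 : (D l : ℂ) ≠ 0 := by
      have : 0 < D l := lt_of_le_of_lt (Nat.zero_le _) (hND l)
      exact_mod_cast this.ne'
    have hN0 : (N : ℂ) ≠ 0 := by
      have : 0 < N := hN1
      exact_mod_cast this.ne'
    exact div_ne_zero (mul_ne_zero (ha l) hD0) hN0
  have hvs := fun l => D2_vsize (v := fun t => dy F (γ l t, t ^ N)) (hA l) (hv l)
  have hb0 : ∀ l, 0 < b l := fun l => lt_of_le_of_lt (Nat.cast_nonneg N) (hbN l)
  have hes := fun l => ehat_size e γ h.γan l (b l) (hb0 l)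
  have han : ∀ l l', AnalyticAt ℂ (fun t => γ l t - γ l' t) 0 :=
    fun l l' => (h.γan l).sub (h.γan l')
  -- the arcs are small
  have hsm : ∀ l, ∀ δ > (0 : ℝ), ∀ᶠ t in 𝓝[≠] (0 : ℂ), ‖γ l t‖ < δ * ‖t‖ ^ N := by
    intro l δ hδ
    have h1 := (isLittleO_iff.1 (h.γsm l)) (show (0 : ℝ) < δ / 2 by linarith)
    filter_upwards [h1, self_mem_nhdsWithin] with t e1 e2
    have hpos : 0 < ‖t‖ := norm_pos_iff.2 e2
    rw [norm_pow] at e1
    have : 0 < ‖t‖ ^ N := by positivity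
    nlinarith
  -- the relation
  have key : ∀ l l', mo (b l) (oo γ l l') = b l → D l = D l' ∧ b l = b l' := by
    intro l l' hR
    obtain ⟨C, hC1, hCe⟩ := D2_close (han l l') (b l) hR
    obtain ⟨c1, hc1, c2, hc2, hev⟩ := hes l
    have hdiff : ∀ ε > (0 : ℝ), ∀ᶠ t in 𝓝[≠] (0 : ℂ),
        ‖dy F (γ l' t, t ^ N) - dy F (γ l t, t ^ N)‖ ≤ ε * ‖t‖ ^ ((D l : ℝ) - N) := by
      intro ε hε
      have hCn : 0 < C ^ n := by positivity
      obtain ⟨δ, hδ, hpf⟩ := pf3 h (ε / (C ^ n * c2)) (by positivity)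
      have hsmall : ∀ᶠ t in 𝓝[≠] (0 : ℂ), ‖t‖ < δ := by
        have : ∀ᶠ t in 𝓝 (0 : ℂ), ‖t‖ < δ := by
          filter_upwards [Metric.ball_mem_nhds (0 : ℂ) hδ] with t ht
          simpa using ht
        exact this.filter_mono nhdsWithin_le_nhds
      filter_upwards [hsmall, hCe, hev, hsm l δ hδ, hsm l' δ hδ, self_mem_nhdsWithin] with
        t e1 e2 e3 e4 e5 e6
      have hpos : 0 < ‖t‖ := norm_pos_iff.2 e6
      have h1 := hpf (γ l' t) (γ l t) t hpos e1 e5 e4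
      have h2 : Ehat e γ (γ l t) ‖γ l' t - γ l t‖ t ≤ C ^ n * Ehat e γ (γ l t) (‖t‖ ^ (b l)) t :=
        D2_ehat_mono e γ (γ l t) t hC1 (norm_nonneg _) (by positivity)
          (by rw [norm_sub_rev]; exact e2)
      have h3 : Ehat e γ (γ l t) (‖t‖ ^ (b l)) t ≤ c2 * ‖t‖ ^ ((D l : ℝ) - N) := by
        have := e3.2
        rwa [hbphi l] at this
      calc ‖dy F (γ l' t, t ^ N) - dy F (γ l t, t ^ N)‖
          ≤ ε / (C ^ n * c2) * Ehat e γ (γ l t) ‖γ l' t - γ l t‖ t := h1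
        _ ≤ ε / (C ^ n * c2) * (C ^ n * (c2 * ‖t‖ ^ ((D l : ℝ) - N))) := by
            refine mul_le_mul_of_nonneg_left (h2.trans ?_) (by positivity)
            exact mul_le_mul_of_nonneg_left h3 hCn.le
        _ = ε * ‖t‖ ^ ((D l : ℝ) - N) := by field_simp
    have hDD : D l = D l' := D2_orders (hA l) (hA l') (hv l) (hv l') hdiff
    refine ⟨hDD, ?_⟩
    have hmo : ∀ l'', mo (b l) (oo γ l l'') = mo (b l) (oo γ l' l'') := by
      intro l''
      apply le_antisymm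
      · have h1 : min (oo γ l' l) (oo γ l l'') ≤ oo γ l' l'' := oo_ultra γ h.γan l' l l''
        have h2 := D2_mo_min (b l) _ _ _ h1
        rw [oo_symm γ l' l, hR] at h2
        rwa [min_eq_right (D2_mo_le _ _)] at h2
      · have h1 : min (oo γ l l') (oo γ l' l'') ≤ oo γ l l'' := oo_ultra γ h.γan l l' l''
        have h2 := D2_mo_min (b l) _ _ _ h1
        rw [hR] at h2
        rwa [min_eq_right (D2_mo_le _ _)] at h2
    have hphi : phi e γ l (b l) = phi e γ l' (b l) := by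
      unfold phi
      congr 1
      exact Finset.sum_congr rfl (fun l'' _ => hmo l'')
    have hfin : phi e γ l' (b l) = phi e γ l' (b l') := by
      rw [← hphi, hbphi l, hbphi l', hDD]
    exact (phi_strictMono e γ l').injective hfin
  have hrefl : ∀ l, mo (b l) (oo γ l l) = b l := by
    intro l
    rw [oo_self]
    simp [mo]
  have hsymm : ∀ l l', mo (b l) (oo γ l l') = b l → mo (b l') (oo γ l' l) = b l' := by
    intro l l' hR
    rw [oo_symm γ l' l, ← (key l l' hR).2]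
    exact hR
  have htrans : ∀ l l' l'', mo (b l) (oo γ l l') = b l → mo (b l') (oo γ l' l'') = b l' →
      mo (b l) (oo γ l l'') = b l := by
    intro l l' l'' h1 h2
    have hb := (key l l' h1).2
    rw [← hb] at h2
    have h3 := D2_mo_min (b l) _ _ _ (oo_ultra γ h.γan l l' l'')
    rw [h1, h2, min_self] at h3
    exact le_antisymm (D2_mo_le _ _) h3
  let S : Setoid (Fin n) :=
    { r := fun l l' => mo (b l) (oo γ l l') = b l
      iseqv := ⟨hrefl, fun {l l'} => hsymm l l', fun {l l' l''} => htrans l l' l''⟩ }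
  have hSr : ∀ l l', S l l' ↔ mo (b l) (oo γ l l') = b l := fun l l' => Iff.rfl
  let E : Quotient S ≃ Fin (Fintype.card (Quotient S)) := Fintype.equivFin (Quotient S)
  have hbq : ∀ l : Fin n, b (Quotient.out (E.symm (E (Quotient.mk S l)))) = b l := by
    intro l
    rw [E.symm_apply_apply]
    have h1 : S (Quotient.out (Quotient.mk S l)) l := Quotient.mk_out (s := S) l
    exact (key _ _ ((hSr _ _).1 h1)).2
  have hcl : ∀ l l' : Fin n, E (Quotient.mk S l) = E (Quotient.mk S l') ↔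
      mo (b l) (oo γ l l') = b l := by
    intro l l'
    rw [E.injective.eq_iff]
    exact Quotient.eq (r := S)
  refine ⟨Fintype.card (Quotient S), fun l => E (Quotient.mk S l),
    fun C => b (Quotient.out (E.symm C)), ?_⟩
  refine ⟨?_, ?_, ?_, ?_, ?_, ?_⟩
  · intro C
    refine ⟨Quotient.out (E.symm C), ?_⟩
    show E (Quotient.mk S (Quotient.out (E.symm C))) = C
    rw [Quotient.out_eq, E.apply_symm_apply]
  · intro C
    exact hbN _
  · intro l l' hll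
    have hR := (hcl l l').1 hll
    obtain ⟨C, hC1, hCe⟩ := D2_close (han l l') (b l) hR
    show (fun t => γ l t - γ l' t) =O[𝓝[≠] 0]
      (fun t : ℂ => ‖t‖ ^ (b (Quotient.out (E.symm (E (Quotient.mk S l))))))
    rw [hbq l]
    refine IsBigO.of_bound C ?_
    filter_upwards [hCe] with t ht
    rw [Real.norm_of_nonneg (by positivity)]
    exact ht
  · intro l l' hll
    have hR : mo (b l) (oo γ l l') ≠ b l := fun hh => hll ((hcl l l').2 hh)
    show (fun t : ℂ => ‖t‖ ^ (b (Quotient.out (E.symm (E (Quotient.mk S l)))))) =o[𝓝[≠] 0]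
      (fun t => γ l t - γ l' t)
    rw [hbq l]
    exact D2_far (han l l') (b l) hR
  · intro l
    exact ⟨D l, a l, hND l, ha l, hV l, hv l⟩
  · intro l
    show ∃ c1 > (0 : ℝ), ∃ c2 > (0 : ℝ), ∀ᶠ t in 𝓝[≠] (0 : ℂ),
      c1 * ‖dy F (γ l t, t ^ N)‖ ≤
        Ehat e γ (γ l t) (‖t‖ ^ (b (Quotient.out (E.symm (E (Quotient.mk S l)))))) t ∧
      Ehat e γ (γ l t) (‖t‖ ^ (b (Quotient.out (E.symm (E (Quotient.mk S l)))))) t ≤
        c2 * ‖dy F (γ l t, t ^ N)‖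
    rw [hbq l]
    obtain ⟨c1, hc1, c2, hc2, hev⟩ := hes l
    have hn : 0 < ‖a l * D l / N‖ := norm_pos_iff.2 (hA l)
    refine ⟨c1 / (2 * ‖a l * D l / N‖), by positivity, c2 / (‖a l * D l / N‖ / 2), by positivity, ?_⟩
    filter_upwards [hev, hvs l, self_mem_nhdsWithin] with t e1 e2 e3
    have hpos : 0 < ‖t‖ := norm_pos_iff.2 e3
    rw [hbphi l] at e1
    constructor
    · refine le_trans ?_ e1.1
      rw [div_mul_eq_mul_div, div_le_iff₀ (by positivity)]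
      have := e2.2
      nlinarith
    · refine e1.2.trans ?_
      rw [div_mul_eq_mul_div, le_div_iff₀ (by positivity)]
      have := e2.1
      nlinarith

end H24.LS
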