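import Pool.Agent.H24.LS.P0

/-!
# D3: centres of the clusters; comparison of `cE` and `Ehat`

`ctr cl γ C` = average of the arcs of the cluster `C`; `mul cl C` = number of its arcs.

* `ctr_near`: `γ_l - ctr (cl l) = O(‖t‖^(b (cl l)))` (from `same`).
* `ctr_sep`: `‖t‖^(b C) = o (ctr C - ctr C')` for `C ≠ C'` (from `diff`: choose `l ∈ C`, `l' ∈ C'` (surj);
  `ctr C - ctr C' = (γ_l - γ_l') + O(‖t‖^(b C)) + O(‖t‖^(b C'))` and both error terms are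
  `o(γ_l - γ_l')`).
* `cE_le`, `le_cE`: for `cl l = C` and `σ ≥ 0`, uniformly in `σ`, eventually in `t`:
  `cE C σ t ≤ K Ehat (γ_l t) (σ + ‖t‖^(b C)) t` and `Ehat (γ_l t) (σ + ‖t‖^(b C)) t ≤ K cE C σ t`.
  Group the factors of `Ehat` by clusters: for `l'` in cluster `C'`:
  `‖γ_l - γ_l'‖` differs from `‖ctr C - ctr C'‖` by `O(‖t‖^(b C) + ‖t‖^(b C'))`, so
  `σ + ‖t‖^(b C) + ‖γ_l - γ_l'‖ ≤ K (σ + ‖t‖^(b C') + ‖ctr C - ctr C'‖)`: for `C' ≠ C`,
  `‖t‖^(b C), ‖t‖^(b C') = o(‖ctr C - ctr C'‖)`; for `C' = C` clear.  Conversely similar.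
* `ctr_an`, `ctr_sm`, `mul_pos`, `sum_mul`.
-/

open Filter Topology Metric Asymptotics

namespace H24.LS

open Classical in
noncomputable def mul {n c : ℕ} (cl : Fin n → Fin c) (C : Fin c) : ℕ :=
  (Finset.univ.filter (fun l => cl l = C)).card

open Classical in
noncomputable def ctr {n c : ℕ} (cl : Fin n → Fin c) (γ : Fin n → ℂ → ℂ) (C : Fin c) (t : ℂ) : ℂ :=
  (∑ l ∈ Finset.univ.filter (fun l => cl l = C), γ l t) / (mul cl C : ℂ)

open Classical in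
private noncomputable def D3_fib {n c : ℕ} (cl : Fin n → Fin c) (C : Fin c) : Finset (Fin n) :=
  Finset.univ.filter (fun l => cl l = C)

private theorem D3_mem {n c : ℕ} (cl : Fin n → Fin c) (C : Fin c) (l : Fin n) :
    l ∈ D3_fib cl C ↔ cl l = C := by
  unfold D3_fib
  rw [Finset.mem_filter]
  simp

private theorem D3_mul {n c : ℕ} (cl : Fin n → Fin c) (C : Fin c) : mul cl C = (D3_fib cl C).card :=
  rfl

private theorem D3_ctr {n c : ℕ} (cl : Fin n → Fin c) (γ : Fin n → ℂ → ℂ) (C : Fin c) (t : ℂ) :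
    ctr cl γ C t = (∑ l ∈ D3_fib cl C, γ l t) / (mul cl C : ℂ) := rfl

theorem sum_mul {n c : ℕ} (cl : Fin n → Fin c) : ∑ C, mul cl C = n := by
  classical
  have h := Finset.card_eq_sum_card_fiberwise (f := cl) (s := Finset.univ) (t := Finset.univ)
    (fun _ _ => Finset.mem_coe.2 (Finset.mem_univ _))
  rw [Finset.card_univ, Fintype.card_fin] at h
  conv_rhs => rw [h]
  apply Finset.sum_congr rfl
  intro C _
  unfold mul
  congr

theorem mul_pos' {n c : ℕ} (cl : Fin n → Fin c) (hs : Function.Surjective cl) (C : Fin c) :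
    1 ≤ mul cl C := by
  obtain ⟨l, hl⟩ := hs C
  rw [D3_mul]
  exact Finset.card_pos.2 ⟨l, (D3_mem cl C l).2 hl⟩

theorem ctr_an {n c : ℕ} (cl : Fin n → Fin c) (γ : Fin n → ℂ → ℂ)
    (hγ : ∀ l, AnalyticAt ℂ (γ l) 0) (C : Fin c) : AnalyticAt ℂ (ctr cl γ C) 0 := by
  have h := (Finset.analyticAt_fun_sum (D3_fib cl C) (fun l _ => hγ l)).div_const (c := (mul cl C : ℂ))
  exact h

theorem ctr_sm {n c : ℕ} (N : ℕ) (cl : Fin n → Fin c) (γ : Fin n → ℂ → ℂ)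
    (hs : ∀ l, (γ l) =o[𝓝[≠] 0] (fun t : ℂ => t ^ N)) (C : Fin c) :
    (ctr cl γ C) =o[𝓝[≠] 0] (fun t : ℂ => t ^ N) := by
  have h := (IsLittleO.sum (s := D3_fib cl C)
    (fun l (_ : l ∈ D3_fib cl C) => hs l)).const_mul_left ((mul cl C : ℂ)⁻¹)
  refine h.congr_left fun t => ?_
  rw [D3_ctr, div_eq_inv_mul, Finset.sum_apply]

private theorem D3_sub {n c : ℕ} (cl : Fin n → Fin c) (γ : Fin n → ℂ → ℂ) (l : Fin n) (t : ℂ) :
    γ l t - ctr cl γ (cl l) t = (mul cl (cl l) : ℂ)⁻¹ *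
      ∑ l' ∈ D3_fib cl (cl l), (γ l t - γ l' t) := by
  have h1 : (mul cl (cl l) : ℂ) ≠ 0 := by
    have : 1 ≤ mul cl (cl l) := by
      rw [D3_mul]
      exact Finset.card_pos.2 ⟨l, (D3_mem cl _ l).2 rfl⟩
    exact_mod_cast (by omega : mul cl (cl l) ≠ 0)
  rw [Finset.sum_sub_distrib, Finset.sum_const, nsmul_eq_mul, D3_ctr, ← D3_mul]
  field_simp

theorem ctr_near {F : ℂ × ℂ → ℂ} {k n N c : ℕ} {γ : Fin n → ℂ → ℂ} {cl : Fin n → Fin c}
    {b : Fin c → ℝ} (h : PreClu F k n N γ c cl b) (l : Fin n) :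
    (fun t => γ l t - ctr cl γ (cl l) t) =O[𝓝[≠] 0] (fun t : ℂ => ‖t‖ ^ (b (cl l))) := by
  have h2 := (IsBigO.sum (l := 𝓝[≠] (0 : ℂ)) (g := fun t : ℂ => ‖t‖ ^ (b (cl l)))
      (s := D3_fib cl (cl l)) (A := fun l' t => γ l t - γ l' t)
      (fun l' hl' => h.same l l' ((D3_mem cl _ l').1 hl').symm)).const_mul_left
        ((mul cl (cl l) : ℂ)⁻¹)
  refine h2.congr_left fun t => ?_
  rw [D3_sub cl γ l t, Finset.sum_apply]

/-- the difference of the centres is asymptotic to the difference of arcs -/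
private theorem D3_err {F : ℂ × ℂ → ℂ} {k n N c : ℕ} {γ : Fin n → ℂ → ℂ} {cl : Fin n → Fin c}
    {b : Fin c → ℝ} (h : PreClu F k n N γ c cl b) (l l' : Fin n) (hne : cl l ≠ cl l') :
    (fun t => (ctr cl γ (cl l) t - ctr cl γ (cl l') t) - (γ l t - γ l' t)) =o[𝓝[≠] 0]
      (fun t => γ l t - γ l' t) := by
  have h1 := (ctr_near h l).trans_isLittleO (h.diff l l' hne)
  have h2 := (ctr_near h l').trans_isLittleO (h.diff l' l hne.symm)
  have h3 : (fun t => γ l' t - ctr cl γ (cl l') t) =o[𝓝[≠] 0] (fun t => γ l t - γ l' t) :=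
    (h2.norm_right.congr_right fun t => norm_sub_rev _ _).of_norm_right
  refine (h3.sub h1).congr_left fun t => ?_
  ring

theorem ctr_sep {F : ℂ × ℂ → ℂ} {k n N c : ℕ} {γ : Fin n → ℂ → ℂ} {cl : Fin n → Fin c}
    {b : Fin c → ℝ} (h : PreClu F k n N γ c cl b) (C C' : Fin c) (hne : C ≠ C') :
    (fun t : ℂ => ‖t‖ ^ (b C)) =o[𝓝[≠] 0] (fun t => ctr cl γ C t - ctr cl γ C' t) := by
  obtain ⟨l, rfl⟩ := h.surj C
  obtain ⟨l', rfl⟩ := h.surj C'
  have h1 := h.diff l l' hne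
  have h2 := (D3_err h l l' hne).right_isBigO_add
  refine h1.trans_isBigO (h2.congr_right fun t => ?_)
  ring

private theorem D3_pair {F : ℂ × ℂ → ℂ} {k n N c : ℕ} {γ : Fin n → ℂ → ℂ} {cl : Fin n → Fin c}
    {b : Fin c → ℝ} (h : PreClu F k n N γ c cl b) (l l' : Fin n) :
    ∃ K : ℝ, 0 ≤ K ∧ ∀ᶠ t in 𝓝[≠] (0 : ℂ), ∀ σ : ℝ, 0 ≤ σ →
      σ + ‖t‖ ^ (b (cl l')) + ‖ctr cl γ (cl l) t - ctr cl γ (cl l') t‖ ≤
        K * (σ + ‖t‖ ^ (b (cl l)) + ‖γ l t - γ l' t‖) ∧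
      σ + ‖t‖ ^ (b (cl l)) + ‖γ l t - γ l' t‖ ≤
        K * (σ + ‖t‖ ^ (b (cl l')) + ‖ctr cl γ (cl l) t - ctr cl γ (cl l') t‖) := by
  have hp : ∀ (t : ℂ) (x : ℝ), 0 ≤ ‖t‖ ^ x := fun t x => Real.rpow_nonneg (norm_nonneg _) _
  by_cases hne : cl l = cl l'
  · obtain ⟨c1, hc1, h1⟩ := (h.same l l' hne).exists_nonneg
    refine ⟨1 + c1, by linarith, ?_⟩
    filter_upwards [h1.bound] with t ht σ hσ
    rw [Real.norm_eq_abs, abs_of_nonneg (hp _ _)] at ht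
    rw [← hne, sub_self, norm_zero, add_zero]
    have a1 := hp t (b (cl l))
    have a2 := norm_nonneg (γ l t - γ l' t)
    have a3 := mul_nonneg hc1 hσ
    have a4 := mul_nonneg hc1 a2
    have a5 := mul_nonneg hc1 a1
    constructor <;> nlinarith
  · obtain ⟨c1, hc1, h1⟩ := (ctr_near h l).exists_nonneg
    obtain ⟨c2, hc2, h2⟩ := (ctr_near h l').exists_nonneg
    have h3 := (h.diff l l' hne).bound one_pos
    have h4 := (h.diff l' l (Ne.symm hne)).bound one_pos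
    have h5 := (ctr_sep h _ _ hne).bound one_pos
    have h6 := (ctr_sep h _ _ (Ne.symm hne)).bound one_pos
    refine ⟨2 + c1 + c2, by linarith, ?_⟩
    filter_upwards [h1.bound, h2.bound, h3, h4, h5, h6] with t t1 t2 t3 t4 t5 t6 σ hσ
    rw [Real.norm_eq_abs, abs_of_nonneg (hp _ _)] at t1 t2 t3 t4 t5 t6
    rw [one_mul] at t3 t4 t5 t6
    rw [norm_sub_rev] at t4 t6
    set d := ‖γ l t - γ l' t‖
    set D := ‖ctr cl γ (cl l) t - ctr cl γ (cl l') t‖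
    set p := ‖t‖ ^ (b (cl l))
    set q := ‖t‖ ^ (b (cl l'))
    have p0 : 0 ≤ p := hp _ _
    have q0 : 0 ≤ q := hp _ _
    have d0 : 0 ≤ d := norm_nonneg _
    have D0 : 0 ≤ D := norm_nonneg _
    have e1 : D ≤ d + c1 * p + c2 * q := by
      have : ctr cl γ (cl l) t - ctr cl γ (cl l') t = (γ l t - γ l' t) -
          (γ l t - ctr cl γ (cl l) t) + (γ l' t - ctr cl γ (cl l') t) := by ring
      calc D = ‖(γ l t - γ l' t) -
          (γ l t - ctr cl γ (cl l) t) + (γ l' t - ctr cl γ (cl l') t)‖ := by rw [← this]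
        _ ≤ d + ‖γ l t - ctr cl γ (cl l) t‖ + ‖γ l' t - ctr cl γ (cl l') t‖ :=
          (norm_add_le _ _).trans (add_le_add (norm_sub_le _ _) le_rfl)
        _ ≤ _ := by linarith
    have e2 : d ≤ D + c1 * p + c2 * q := by
      have : γ l t - γ l' t = (ctr cl γ (cl l) t - ctr cl γ (cl l') t) +
          (γ l t - ctr cl γ (cl l) t) - (γ l' t - ctr cl γ (cl l') t) := by ring
      calc d = ‖(ctr cl γ (cl l) t - ctr cl γ (cl l') t) +
          (γ l t - ctr cl γ (cl l) t) - (γ l' t - ctr cl γ (cl l') t)‖ := by rw [← this]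
        _ ≤ D + ‖γ l t - ctr cl γ (cl l) t‖ + ‖γ l' t - ctr cl γ (cl l') t‖ :=
          (norm_sub_le _ _).trans (add_le_add (norm_add_le _ _) le_rfl)
        _ ≤ _ := by linarith
    have m1 := mul_le_mul_of_nonneg_left t3 hc1
    have m2 := mul_le_mul_of_nonneg_left t4 hc2
    have m3 := mul_le_mul_of_nonneg_left t5 hc1
    have m4 := mul_le_mul_of_nonneg_left t6 hc2
    have n1 := mul_nonneg hc1 hσ
    have n2 := mul_nonneg hc2 hσ
    have n3 := mul_nonneg hc1 p0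
    have n4 := mul_nonneg hc2 p0
    have n5 := mul_nonneg hc1 q0
    have n6 := mul_nonneg hc2 q0
    constructor <;> nlinarith

private theorem D3_prod {n c : ℕ} (cl : Fin n → Fin c) (x : Fin c → ℝ) :
    ∏ C, x C ^ mul cl C = ∏ l, x (cl l) := by
  have h := Finset.prod_fiberwise (s := (Finset.univ : Finset (Fin n))) (g := cl)
    (f := fun l => x (cl l))
  rw [← h]
  apply Finset.prod_congr rfl
  intro C _
  have h2 : ∏ l ∈ Finset.univ.filter (fun l => cl l = C), x (cl l) =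
      ∏ _l ∈ Finset.univ.filter (fun l => cl l = C), x C := by
    apply Finset.prod_congr rfl
    intro l hl
    rw [(Finset.mem_filter.1 hl).2]
  rw [h2, Finset.prod_const]
  unfold mul
  congr

theorem cE_ehat {F : ℂ × ℂ → ℂ} {k n N c : ℕ} {γ : Fin n → ℂ → ℂ} {cl : Fin n → Fin c}
    {b : Fin c → ℝ} (h : PreClu F k n N γ c cl b) (e : ℕ) :
    ∃ K > (0 : ℝ), ∀ᶠ t in 𝓝[≠] (0 : ℂ), ∀ (l : Fin n) (σ : ℝ), 0 ≤ σ →
      cE e (mul cl) b (ctr cl γ) (cl l) σ t ≤ K * Ehat e γ (γ l t) (σ + ‖t‖ ^ (b (cl l))) t ∧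
      Ehat e γ (γ l t) (σ + ‖t‖ ^ (b (cl l))) t ≤ K * cE e (mul cl) b (ctr cl γ) (cl l) σ t := by
  choose K hK0 hK using fun l l' => D3_pair h l l'
  set K1 : ℝ := 1 + ∑ l, ∑ l', K l l' with hK1
  have hK1' : ∀ l l', K l l' ≤ K1 := by
    intro l l'
    have h1 : K l l' ≤ ∑ l', K l l' :=
      Finset.single_le_sum (f := fun l' => K l l') (fun i _ => hK0 l i) (Finset.mem_univ l')
    have h2 : ∑ l', K l l' ≤ ∑ l, ∑ l', K l l' :=
      Finset.single_le_sum (f := fun l => ∑ l', K l l')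
        (fun i _ => Finset.sum_nonneg fun j _ => hK0 i j) (Finset.mem_univ l)
    linarith
  have hK1pos : 0 < K1 := by
    have : 0 ≤ ∑ l, ∑ l', K l l' := Finset.sum_nonneg fun i _ => Finset.sum_nonneg fun j _ => hK0 i j
    linarith
  have hp : ∀ (t : ℂ) (x : ℝ), 0 ≤ ‖t‖ ^ x := fun t x => Real.rpow_nonneg (norm_nonneg _) _
  refine ⟨K1 ^ n, by positivity, ?_⟩
  have hall : ∀ᶠ t in 𝓝[≠] (0 : ℂ), ∀ l l' : Fin n, ∀ σ : ℝ, 0 ≤ σ →
      σ + ‖t‖ ^ (b (cl l')) + ‖ctr cl γ (cl l) t - ctr cl γ (cl l') t‖ ≤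
        K l l' * (σ + ‖t‖ ^ (b (cl l)) + ‖γ l t - γ l' t‖) ∧
      σ + ‖t‖ ^ (b (cl l)) + ‖γ l t - γ l' t‖ ≤
        K l l' * (σ + ‖t‖ ^ (b (cl l')) + ‖ctr cl γ (cl l) t - ctr cl γ (cl l') t‖) :=
    eventually_all.2 fun l => eventually_all.2 fun l' => hK l l'
  filter_upwards [hall] with t ht l σ hσ
  have key : ∀ x y : Fin n → ℝ, (∀ l', 0 ≤ x l') → (∀ l', 0 ≤ y l') →
      (∀ l', x l' ≤ K1 * y l') → ∏ l', x l' ≤ K1 ^ n * ∏ l', y l' := by
    intro x y hx hy hxy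
    calc ∏ l', x l' ≤ ∏ l', (K1 * y l') := Finset.prod_le_prod (fun i _ => hx i) (fun i _ => hxy i)
      _ = K1 ^ n * ∏ l', y l' := by
        rw [Finset.prod_mul_distrib, Finset.prod_const, Finset.card_univ, Fintype.card_fin]
  set x : Fin n → ℝ := fun l' =>
    σ + ‖t‖ ^ (b (cl l')) + ‖ctr cl γ (cl l) t - ctr cl γ (cl l') t‖ with hx
  set y : Fin n → ℝ := fun l' => σ + ‖t‖ ^ (b (cl l)) + ‖γ l t - γ l' t‖ with hy
  have hx0 : ∀ l', 0 ≤ x l' := fun l' =>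
    add_nonneg (add_nonneg hσ (hp _ _)) (norm_nonneg _)
  have hy0 : ∀ l', 0 ≤ y l' := fun l' =>
    add_nonneg (add_nonneg hσ (hp _ _)) (norm_nonneg _)
  have e1 : cE e (mul cl) b (ctr cl γ) (cl l) σ t = ‖t‖ ^ e * ∏ l', x l' := by
    unfold cE
    rw [D3_prod cl (fun C' => σ + ‖t‖ ^ (b C') + ‖ctr cl γ (cl l) t - ctr cl γ C' t‖)]
  have e2 : Ehat e γ (γ l t) (σ + ‖t‖ ^ (b (cl l))) t = ‖t‖ ^ e * ∏ l', y l' := rfl
  rw [e1, e2]
  have k1 := key x y hx0 hy0 (fun l' => ((ht l l' σ hσ).1).trans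
    (mul_le_mul_of_nonneg_right (hK1' l l') (hy0 l')))
  have k2 := key y x hy0 hx0 (fun l' => ((ht l l' σ hσ).2).trans
    (mul_le_mul_of_nonneg_right (hK1' l l') (hx0 l')))
  have hte : 0 ≤ ‖t‖ ^ e := pow_nonneg (norm_nonneg _) _
  have k3 := mul_le_mul_of_nonneg_left k1 hte
  have k4 := mul_le_mul_of_nonneg_left k2 hte
  constructor
  · calc _ ≤ _ := k3
      _ = _ := by ring
  · calc _ ≤ _ := k4
      _ = _ := by ring

end H24.LS
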