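import Pool.Agent.H24.LS.P0
import Pool.Agent.H24.LS.P1
import Pool.Agent.H24.LS.P2
import Pool.Agent.H24.LS.D3

/-!
# D4: critical values at the centres

`V_C(t) = F (ctr C t, t^N)`, `v_C = V_C'/(N t^(N-1))`.  For `cl l = C`, `v_l = dy F (γ_l t, t^N)`:
* `v_C/v_l → 1`: `V_C' = dx F (ctr) ctr' + dy F (ctr) N t^(N-1)`.
  `‖dy F (ctr) - v_l‖ ≤ ε Ehat (γ_l) ‖ctr - γ_l‖ ≤ ε C Ehat (γ_l) (‖t‖^b) ≤ ε C' ‖v_l‖` (`pf3`, `ctr_near`,
  `PreClu.bal`).  `‖dx F (ctr)‖ ≤ C Ehat (γ_l) ‖ctr - γ_l‖ ≤ C' ‖v_l‖` (`pf0`), and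
  `ctr'(t)/(N t^(N-1)) → 0` because `ctr` is analytic and `o(t^N)`.
* `V_C/V_l → 1`: `V_C - V_l = ∫ dx F` over the segment from `γ_l` to `ctr` has norm
  `≤ ‖ctr - γ_l‖ C Ehat (γ_l) ‖ctr - γ_l‖ ≤ C' ‖t‖^b ‖v_l‖ ≤ C'' ‖t‖^(b - N) ‖V_l‖ → 0` relative, since
  `‖v_l‖ ‖t‖^N ≍ ‖V_l‖` and `b > N`.
* hence the orders and leading coefficients of `V_C, v_C` are those of `V_l, v_l` (`PreClu.ord`).
-/

open Filter Topology Metric Asymptotics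

namespace H24.LS

noncomputable def vC (F : ℂ × ℂ → ℂ) (N : ℕ) (g : ℂ → ℂ) (t : ℂ) : ℂ :=
  deriv (fun s => F (g s, s ^ N)) t / (N * t ^ (N - 1))

private theorem D4_ehat_le {n : ℕ} (e : ℕ) (γ : Fin n → ℂ → ℂ) (x1 : ℂ) {σ s K : ℝ} (hσ : 0 ≤ σ)
    (hK : 1 ≤ K) (h : σ ≤ K * s) (t : ℂ) :
    Ehat e γ x1 σ t ≤ K ^ n * Ehat e γ x1 s t := by
  unfold Ehat
  have h1 : ∏ l, (σ + ‖x1 - γ l t‖) ≤ ∏ l, (K * (s + ‖x1 - γ l t‖)) := by
    refine Finset.prod_le_prod (fun l _ => by positivity) fun l _ => ?_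
    have : ‖x1 - γ l t‖ ≤ K * ‖x1 - γ l t‖ := le_mul_of_one_le_left (norm_nonneg _) hK
    rw [mul_add]
    exact add_le_add h this
  rw [Finset.prod_mul_distrib, Finset.prod_const, Finset.card_univ, Fintype.card_fin] at h1
  calc ‖t‖ ^ e * ∏ l, (σ + ‖x1 - γ l t‖)
      ≤ ‖t‖ ^ e * (K ^ n * ∏ l, (s + ‖x1 - γ l t‖)) :=
        mul_le_mul_of_nonneg_left h1 (by positivity)
    _ = K ^ n * (‖t‖ ^ e * ∏ l, (s + ‖x1 - γ l t‖)) := by ring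

private theorem D4_setup {F : ℂ × ℂ → ℂ} {k n N c : ℕ} {γ : Fin n → ℂ → ℂ}
    {cl : Fin n → Fin c} {b : Fin c → ℝ} (h : PreClu F k n N γ c cl b) (l : Fin n) :
    ∃ K > (0 : ℝ), ∃ A > (0 : ℝ), ∀ᶠ t in 𝓝[≠] (0 : ℂ),
      ‖ctr cl γ (cl l) t - γ l t‖ ≤ K * ‖t‖ ^ (b (cl l)) ∧
      ∀ σ : ℝ, 0 ≤ σ → σ ≤ ‖ctr cl γ (cl l) t - γ l t‖ →
        Ehat (N * (k - 1 - n)) γ (γ l t) σ t ≤ A * ‖dy F (γ l t, t ^ N)‖ := by
  obtain ⟨K0, hK0⟩ := (ctr_near h l).bound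
  obtain ⟨c1, hc1, c2, hc2, hbal⟩ := h.bal l
  have hK1 : 1 ≤ max K0 1 := le_max_right _ _
  refine ⟨max K0 1, lt_of_lt_of_le one_pos hK1, (max K0 1) ^ n * c2, by positivity, ?_⟩
  filter_upwards [hK0, hbal] with t h1 h2
  have h0 : 0 ≤ ‖t‖ ^ (b (cl l)) := Real.rpow_nonneg (norm_nonneg _) _
  rw [Real.norm_of_nonneg h0] at h1
  have h3 : ‖ctr cl γ (cl l) t - γ l t‖ ≤ max K0 1 * ‖t‖ ^ (b (cl l)) := by
    rw [norm_sub_rev]
    exact h1.trans (mul_le_mul_of_nonneg_right (le_max_left _ _) h0)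
  refine ⟨h3, fun σ hσ hσ' => ?_⟩
  calc Ehat (N * (k - 1 - n)) γ (γ l t) σ t
      ≤ (max K0 1) ^ n * Ehat (N * (k - 1 - n)) γ (γ l t) (‖t‖ ^ (b (cl l))) t :=
        D4_ehat_le _ _ _ hσ hK1 (hσ'.trans h3) t
    _ ≤ (max K0 1) ^ n * (c2 * ‖dy F (γ l t, t ^ N)‖) :=
        mul_le_mul_of_nonneg_left h2.2 (by positivity)
    _ = (max K0 1) ^ n * c2 * ‖dy F (γ l t, t ^ N)‖ := by ring

private theorem D4_small {g : ℂ → ℂ} {N : ℕ} (hg : g =o[𝓝[≠] 0] (fun t : ℂ => t ^ N)) {δ : ℝ}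
    (hδ : 0 < δ) : ∀ᶠ t in 𝓝[≠] (0 : ℂ), ‖g t‖ < δ * ‖t‖ ^ N := by
  have h1 := hg.bound (half_pos hδ)
  filter_upwards [h1, self_mem_nhdsWithin] with t ht ht0
  have h2 : 0 < ‖t‖ ^ N := pow_pos (norm_pos_iff.2 ht0) N
  rw [norm_pow] at ht
  nlinarith

private theorem D4_near {δ : ℝ} (hδ : 0 < δ) : ∀ᶠ t in 𝓝[≠] (0 : ℂ), 0 < ‖t‖ ∧ ‖t‖ < δ := by
  have h1 : ∀ᶠ t in 𝓝[≠] (0 : ℂ), t ∈ ball (0 : ℂ) δ :=
    mem_nhdsWithin_of_mem_nhds (ball_mem_nhds _ hδ)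
  filter_upwards [h1, self_mem_nhdsWithin] with t ht ht0
  exact ⟨norm_pos_iff.2 ht0, mem_ball_zero_iff.1 ht⟩

private theorem D4_diff {F : ℂ × ℂ → ℂ} (h : AnalyticAt ℂ F 0) {N : ℕ} (hN : 1 ≤ N) :
    ∃ δ > (0 : ℝ), ∀ x t : ℂ, ‖t‖ < δ → ‖x‖ < δ * ‖t‖ ^ N →
      DifferentiableAt ℂ F (x, t ^ N) := by
  obtain ⟨r, hr, hball⟩ := Metric.eventually_nhds_iff_ball.1 h.eventually_analyticAt
  refine ⟨min 1 r, lt_min one_pos hr, fun x t ht hx => (hball _ ?_).differentiableAt⟩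
  have h1 : ‖t‖ < 1 := lt_of_lt_of_le ht (min_le_left _ _)
  have h2 : ‖t‖ < r := lt_of_lt_of_le ht (min_le_right _ _)
  have h3 : ‖t‖ ^ N ≤ ‖t‖ := by
    calc ‖t‖ ^ N ≤ ‖t‖ ^ 1 := pow_le_pow_of_le_one (norm_nonneg _) h1.le hN
      _ = ‖t‖ := pow_one _
  rw [mem_ball_zero_iff, Prod.norm_mk, norm_pow]
  refine max_lt ?_ (lt_of_le_of_lt h3 h2)
  have h4 : min 1 r * ‖t‖ ^ N ≤ 1 * ‖t‖ :=
    mul_le_mul (min_le_left _ _) h3 (by positivity) zero_le_one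
  linarith

private theorem D4_ne {F : ℂ × ℂ → ℂ} {k n N c : ℕ} {γ : Fin n → ℂ → ℂ}
    {cl : Fin n → Fin c} {b : Fin c → ℝ} (hN : 1 ≤ N) (h : PreClu F k n N γ c cl b) (l : Fin n) :
    ∀ᶠ t in 𝓝[≠] (0 : ℂ), dy F (γ l t, t ^ N) ≠ 0 ∧ F (γ l t, t ^ N) ≠ 0 := by
  obtain ⟨D, a, hD, ha, h1, h2⟩ := h.ord l
  have hDN : a * D / N ≠ 0 := by
    have h3 : (D : ℂ) ≠ 0 := by
      have : D ≠ 0 := by omega
      exact_mod_cast this
    have h4 : (N : ℂ) ≠ 0 := by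
      have : N ≠ 0 := by omega
      exact_mod_cast this
    exact div_ne_zero (mul_ne_zero ha h3) h4
  filter_upwards [h1.eventually_ne ha, h2.eventually_ne hDN] with t ht1 ht2
  refine ⟨fun h0 => ht2 ?_, fun h0 => ht1 ?_⟩
  · rw [h0]; simp
  · rw [h0]; simp

private theorem D4_hasDerivAt {F : ℂ × ℂ → ℂ} {g : ℂ → ℂ} {N : ℕ} {t : ℂ}
    (hF : DifferentiableAt ℂ F (g t, t ^ N)) (hg : DifferentiableAt ℂ g t) :
    HasDerivAt (fun s => F (g s, s ^ N)) (dx F (g t, t ^ N) * deriv g t +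
      dy F (g t, t ^ N) * (N * t ^ (N - 1))) t := by
  have h1 : HasDerivAt (fun s : ℂ => (g s, s ^ N)) (deriv g t, (N : ℂ) * t ^ (N - 1)) t :=
    hg.hasDerivAt.prodMk (hasDerivAt_pow N t)
  have h2 := hF.hasFDerivAt.comp_hasDerivAt t h1
  have h3 : ((deriv g t, (N : ℂ) * t ^ (N - 1)) : ℂ × ℂ) =
      deriv g t • ((1, 0) : ℂ × ℂ) + ((N : ℂ) * t ^ (N - 1)) • ((0, 1) : ℂ × ℂ) := by
    ext <;> simp
  rw [h3, map_add, map_smul, map_smul, smul_eq_mul, smul_eq_mul] at h2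
  have h4 : dx F (g t, t ^ N) * deriv g t + dy F (g t, t ^ N) * (N * t ^ (N - 1)) =
      deriv g t * (fderiv ℂ F (g t, t ^ N)) (1, 0) +
        ((N : ℂ) * t ^ (N - 1)) * (fderiv ℂ F (g t, t ^ N)) (0, 1) := by
    unfold dx dy
    ring
  rw [h4]
  exact h2

private theorem D4_deriv {g : ℂ → ℂ} {N : ℕ} (hN : 1 ≤ N) (ha : AnalyticAt ℂ g 0)
    (hg : g =o[𝓝[≠] 0] (fun t : ℂ => t ^ N)) :
    Tendsto (fun t : ℂ => deriv g t / (N * t ^ (N - 1))) (𝓝[≠] 0) (𝓝 0) := by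
  rw [Metric.tendsto_nhds]
  intro ε hε
  set ε' : ℝ := ε / (4 * (3 / 2) ^ N) with hε'
  have hε'0 : 0 < ε' := by positivity
  have h1 : ∀ᶠ t in 𝓝 (0 : ℂ), t ≠ 0 → ‖g t‖ < ε' * ‖t‖ ^ N := by
    have := D4_small hg hε'0
    rwa [eventually_nhdsWithin_iff] at this
  obtain ⟨r, hr, hball⟩ := Metric.eventually_nhds_iff_ball.1 (ha.eventually_analyticAt.and h1)
  filter_upwards [D4_near (half_pos hr)] with t ht
  obtain ⟨ht0, htr⟩ := ht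
  have hcl : ∀ s ∈ closedBall t (‖t‖ / 2), s ∈ ball (0 : ℂ) r ∧ s ≠ 0 ∧ ‖s‖ ≤ 3 / 2 * ‖t‖ := by
    intro s hs
    rw [mem_closedBall, dist_eq_norm] at hs
    have h2 : ‖s‖ ≤ ‖s - t‖ + ‖t‖ := by
      have := norm_add_le (s - t) t
      rwa [sub_add_cancel] at this
    have h3 : ‖t‖ ≤ ‖s - t‖ + ‖s‖ := by
      have := norm_sub_le s (s - t)
      rw [sub_sub_cancel] at this
      linarith
    refine ⟨mem_ball_zero_iff.2 (by linarith), ?_, by linarith⟩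
    rintro rfl
    rw [norm_zero] at h3
    linarith
  have hR : 0 < ‖t‖ / 2 := by linarith
  have hd : DiffContOnCl ℂ g (ball t (‖t‖ / 2)) := by
    refine DifferentiableOn.diffContOnCl ?_
    rw [closure_ball t hR.ne']
    exact fun s hs => ((hball s (hcl s hs).1).1.differentiableAt).differentiableWithinAt
  have h4 := Complex.norm_deriv_le_of_forall_mem_sphere_norm_le (C := ε' * (3 / 2 * ‖t‖) ^ N)
    hR hd (by
      intro s hs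
      have hs' := hcl s (sphere_subset_closedBall hs)
      refine ((hball s hs'.1).2 hs'.2.1).le.trans ?_
      exact mul_le_mul_of_nonneg_left (pow_le_pow_left₀ (norm_nonneg _) hs'.2.2 N) hε'0.le)
  rw [dist_zero_right, norm_div, norm_mul, norm_pow]
  have hN1 : (1 : ℝ) ≤ ‖(N : ℂ)‖ := by
    rw [Complex.norm_natCast]
    exact_mod_cast hN
  have hpos : 0 < ‖t‖ ^ (N - 1) := pow_pos ht0 _
  have hNt : ‖t‖ ^ N = ‖t‖ ^ (N - 1) * ‖t‖ := by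
    rw [← pow_succ]
    congr 1
    omega
  have h5 : ε' * (3 / 2 * ‖t‖) ^ N / (‖t‖ / 2) = ε / 2 * ‖t‖ ^ (N - 1) := by
    rw [mul_pow, hNt, hε']
    field_simp
    ring
  rw [h5] at h4
  rw [div_lt_iff₀ (by positivity)]
  calc ‖deriv g t‖ ≤ ε / 2 * ‖t‖ ^ (N - 1) := h4
    _ < ε * ‖t‖ ^ (N - 1) := by nlinarith
    _ ≤ ε * (‖(N : ℂ)‖ * ‖t‖ ^ (N - 1)) := by
        refine mul_le_mul_of_nonneg_left ?_ hε.le
        exact le_mul_of_one_le_left hpos.le hN1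

private theorem D4_ratio {f g : ℂ → ℂ} (h : (fun t => f t - g t) =o[𝓝[≠] 0] g)
    (hg : ∀ᶠ t in 𝓝[≠] (0 : ℂ), g t ≠ 0) :
    Tendsto (fun t => f t / g t) (𝓝[≠] 0) (𝓝 1) := by
  have h1 := h.tendsto_div_nhds_zero
  have h2 : Tendsto (fun t => (f t - g t) / g t + 1) (𝓝[≠] 0) (𝓝 (0 + 1)) := h1.add_const 1
  rw [zero_add] at h2
  refine h2.congr' ?_
  filter_upwards [hg] with t ht
  rw [sub_div, div_self ht, sub_add_cancel]

theorem v_ratio {F : ℂ × ℂ → ℂ} {k n N c : ℕ} {u : ℂ} {γ : Fin n → ℂ → ℂ} {cl : Fin n → Fin c}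
    {b : Fin c → ℝ} (hP : PCh F k n N u γ) (h : PreClu F k n N γ c cl b) (l : Fin n) :
    Tendsto (fun t => vC F N (ctr cl γ (cl l)) t / dy F (γ l t, t ^ N)) (𝓝[≠] 0) (𝓝 1) := by
  have hN := hP.hN
  obtain ⟨K, hK, A, hA, hset⟩ := D4_setup h l
  have hne := D4_ne hN h l
  have hγ := hP.γsm l
  have hcs : (ctr cl γ (cl l)) =o[𝓝[≠] 0] (fun t : ℂ => t ^ N) := ctr_sm N cl γ hP.γsm (cl l)
  have hca : AnalyticAt ℂ (ctr cl γ (cl l)) 0 := ctr_an cl γ hP.γan (cl l)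
  refine D4_ratio ?_ (hne.mono fun t ht => ht.1)
  -- the two terms
  have h1 : (fun t => dy F (ctr cl γ (cl l) t, t ^ N) - dy F (γ l t, t ^ N)) =o[𝓝[≠] 0]
      fun t => dy F (γ l t, t ^ N) := by
    rw [isLittleO_iff]
    intro ε hε
    obtain ⟨δ, hδ, hpf⟩ := pf3 hP (ε / A) (by positivity)
    filter_upwards [hset, D4_near hδ, D4_small hγ hδ, D4_small hcs hδ] with t h1 h2 h3 h4
    refine (hpf _ (γ l t) t h2.1 h2.2 h4 h3).trans ?_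
    have h5 := h1.2 _ (norm_nonneg _) le_rfl
    calc ε / A * Ehat (N * (k - 1 - n)) γ (γ l t) ‖ctr cl γ (cl l) t - γ l t‖ t
        ≤ ε / A * (A * ‖dy F (γ l t, t ^ N)‖) := mul_le_mul_of_nonneg_left h5 (by positivity)
      _ = ε * ‖dy F (γ l t, t ^ N)‖ := by field_simp
  have h2 : (fun t => dx F (ctr cl γ (cl l) t, t ^ N)) =O[𝓝[≠] 0]
      fun t => dy F (γ l t, t ^ N) := by
    obtain ⟨C0, hC0, δ, hδ, hpf⟩ := pf0 hP
    refine IsBigO.of_bound (C0 * A) ?_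
    filter_upwards [hset, D4_near hδ, D4_small hcs hδ] with t h1 h2 h4
    refine (hpf _ (γ l t) t h2.1 h2.2 h4).trans ?_
    have h5 := h1.2 _ (norm_nonneg _) le_rfl
    calc C0 * Ehat (N * (k - 1 - n)) γ (γ l t) ‖ctr cl γ (cl l) t - γ l t‖ t
        ≤ C0 * (A * ‖dy F (γ l t, t ^ N)‖) := mul_le_mul_of_nonneg_left h5 hC0.le
      _ = C0 * A * ‖dy F (γ l t, t ^ N)‖ := by ring
  have h3 : (fun t : ℂ => deriv (ctr cl γ (cl l)) t / (N * t ^ (N - 1))) =o[𝓝[≠] 0]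
      fun _ => (1 : ℂ) := (isLittleO_one_iff ℂ).2 (D4_deriv hN hca hcs)
  have h4 := h2.mul_isLittleO h3
  simp only [mul_one] at h4
  refine (h1.add h4).congr' ?_ EventuallyEq.rfl
  obtain ⟨δ, hδ, hdiff⟩ := D4_diff hP.an hN
  have hcd : ∀ᶠ t in 𝓝[≠] (0 : ℂ), DifferentiableAt ℂ (ctr cl γ (cl l)) t :=
    (hca.eventually_analyticAt.filter_mono nhdsWithin_le_nhds).mono fun t ht => ht.differentiableAt
  filter_upwards [D4_near hδ, D4_small hcs hδ, hcd] with t h5 h6 h7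
  have h8 := (D4_hasDerivAt (hdiff _ t h5.2 h6) h7).deriv
  have h9 : (N : ℂ) * t ^ (N - 1) ≠ 0 := by
    refine mul_ne_zero ?_ (pow_ne_zero _ (norm_pos_iff.1 h5.1))
    exact_mod_cast (show N ≠ 0 by omega)
  simp only [vC]
  rw [h8, add_div, mul_div_cancel_right₀ _ h9, mul_div_assoc]
  ring

theorem V_ratio {F : ℂ × ℂ → ℂ} {k n N c : ℕ} {u : ℂ} {γ : Fin n → ℂ → ℂ} {cl : Fin n → Fin c}
    {b : Fin c → ℝ} (hP : PCh F k n N u γ) (h : PreClu F k n N γ c cl b) (l : Fin n) :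
    Tendsto (fun t => F (ctr cl γ (cl l) t, t ^ N) / F (γ l t, t ^ N)) (𝓝[≠] 0) (𝓝 1) := by
  have hN := hP.hN
  obtain ⟨K, hK, A, hA, hset⟩ := D4_setup h l
  have hne := D4_ne hN h l
  have hγ := hP.γsm l
  have hcs : (ctr cl γ (cl l)) =o[𝓝[≠] 0] (fun t : ℂ => t ^ N) := ctr_sm N cl γ hP.γsm (cl l)
  refine D4_ratio ?_ (hne.mono fun t ht => ht.2)
  -- comparison of `v_l t^N` and `V_l`
  obtain ⟨D, a, hD, ha, ho1, ho2⟩ := h.ord l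
  have hB : (fun t : ℂ => dy F (γ l t, t ^ N) * t ^ N) =O[𝓝[≠] 0] fun t => F (γ l t, t ^ N) := by
    have h1 := ho2.div ho1 ha
    refine isBigO_of_div_tendsto_nhds ?_ (a * D / N / a) (h1.congr' ?_)
    · filter_upwards [hne] with t ht h0
      exact absurd h0 ht.2
    · filter_upwards [self_mem_nhdsWithin] with t ht
      have : t ^ D ≠ 0 := pow_ne_zero _ ht
      simp only [Pi.div_apply]
      rw [div_div_div_cancel_right₀ this]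
  obtain ⟨B, hB0, hBb⟩ := hB.exists_pos
  rw [IsBigOWith] at hBb
  obtain ⟨C0, hC0, δ, hδ, hpf⟩ := pf0 hP
  obtain ⟨δ', hδ', hdiff⟩ := D4_diff hP.an hN
  have hbN : 0 < b (cl l) - N := sub_pos.2 (h.hb (cl l))
  have hrp : Tendsto (fun t : ℂ => ‖t‖ ^ (b (cl l) - N)) (𝓝[≠] 0) (𝓝 0) := by
    have hc : ContinuousAt (fun t : ℂ => ‖t‖ ^ (b (cl l) - N)) 0 :=
      continuous_norm.continuousAt.rpow_const (Or.inr hbN.le)
    have h1 := hc.tendsto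
    rw [norm_zero, Real.zero_rpow hbN.ne'] at h1
    exact h1.mono_left nhdsWithin_le_nhds
  rw [isLittleO_iff]
  intro ε hε
  have hev : ∀ᶠ t in 𝓝[≠] (0 : ℂ), ‖t‖ ^ (b (cl l) - N) < ε / (C0 * A * K * B) :=
    hrp.eventually_lt_const (by positivity)
  have hmin : 0 < min δ δ' := lt_min hδ hδ'
  filter_upwards [hset, D4_near hmin, D4_small hγ hmin, D4_small hcs hmin, hBb, hev] with t h1 h2
    h3 h4 h5 h6
  obtain ⟨h1a, h1b⟩ := h1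
  have htδ : ‖t‖ < δ := lt_of_lt_of_le h2.2 (min_le_left _ _)
  have htδ' : ‖t‖ < δ' := lt_of_lt_of_le h2.2 (min_le_right _ _)
  set S : Set ℂ := ball 0 (min δ δ' * ‖t‖ ^ N) ∩ closedBall (γ l t) ‖ctr cl γ (cl l) t - γ l t‖
    with hS
  have hSc : Convex ℝ S := (convex_ball _ _).inter (convex_closedBall _ _)
  have hxS : γ l t ∈ S := ⟨mem_ball_zero_iff.2 h3, mem_closedBall_self (norm_nonneg _)⟩
  have hyS : ctr cl γ (cl l) t ∈ S := by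
    refine ⟨mem_ball_zero_iff.2 h4, ?_⟩
    rw [mem_closedBall, dist_eq_norm]
  have hpow : 0 ≤ ‖t‖ ^ N := by positivity
  have hder : ∀ x ∈ S, HasDerivWithinAt (fun x => F (x, t ^ N)) (dx F (x, t ^ N)) S x := by
    intro x hx
    have hx1 : ‖x‖ < δ' * ‖t‖ ^ N := lt_of_lt_of_le (mem_ball_zero_iff.1 hx.1)
      (mul_le_mul_of_nonneg_right (min_le_right _ _) hpow)
    have h7 : HasDerivAt (fun x : ℂ => (x, t ^ N)) ((1, 0) : ℂ × ℂ) x :=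
      (hasDerivAt_id x).prodMk (hasDerivAt_const x (t ^ N))
    exact ((hdiff x t htδ' hx1).hasFDerivAt.comp_hasDerivAt x h7).hasDerivWithinAt
  have hbd : ∀ x ∈ S, ‖dx F (x, t ^ N)‖ ≤ C0 * (A * ‖dy F (γ l t, t ^ N)‖) := by
    intro x hx
    have hx1 : ‖x‖ < δ * ‖t‖ ^ N := lt_of_lt_of_le (mem_ball_zero_iff.1 hx.1)
      (mul_le_mul_of_nonneg_right (min_le_left _ _) hpow)
    refine (hpf x (γ l t) t h2.1 htδ hx1).trans (mul_le_mul_of_nonneg_left ?_ hC0.le)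
    refine h1b _ (norm_nonneg _) ?_
    rw [← dist_eq_norm]
    exact hx.2
  have hmv := hSc.norm_image_sub_le_of_norm_hasDerivWithin_le hder hbd hxS hyS
  have hrw : ‖t‖ ^ (b (cl l)) = ‖t‖ ^ N * ‖t‖ ^ (b (cl l) - N) := by
    rw [← Real.rpow_natCast ‖t‖ N, ← Real.rpow_add h2.1]
    congr 1
    ring
  rw [norm_mul, norm_pow] at h5
  refine hmv.trans ?_
  calc C0 * (A * ‖dy F (γ l t, t ^ N)‖) * ‖ctr cl γ (cl l) t - γ l t‖
      ≤ C0 * (A * ‖dy F (γ l t, t ^ N)‖) * (K * ‖t‖ ^ (b (cl l))) :=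
        mul_le_mul_of_nonneg_left h1a (by positivity)
    _ = C0 * A * K * (‖dy F (γ l t, t ^ N)‖ * ‖t‖ ^ N) * ‖t‖ ^ (b (cl l) - N) := by
        rw [hrw]; ring
    _ ≤ C0 * A * K * (B * ‖F (γ l t, t ^ N)‖) * (ε / (C0 * A * K * B)) := by
        refine mul_le_mul ?_ h6.le (Real.rpow_nonneg (norm_nonneg _) _) (by positivity)
        exact mul_le_mul_of_nonneg_left h5 (by positivity)
    _ = ε * ‖F (γ l t, t ^ N)‖ := by field_simp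

theorem V_ord {F : ℂ × ℂ → ℂ} {k n N c : ℕ} {u : ℂ} {γ : Fin n → ℂ → ℂ} {cl : Fin n → Fin c}
    {b : Fin c → ℝ} (hP : PCh F k n N u γ) (h : PreClu F k n N γ c cl b) (C : Fin c) :
    ∃ (D : ℕ) (a : ℂ), N * k < D ∧ a ≠ 0 ∧
      Tendsto (fun t : ℂ => F (ctr cl γ C t, t ^ N) / t ^ D) (𝓝[≠] 0) (𝓝 a) ∧
      Tendsto (fun t : ℂ => vC F N (ctr cl γ C) t * t ^ N / t ^ D) (𝓝[≠] 0)
        (𝓝 (a * D / N)) := by
  obtain ⟨l, rfl⟩ := h.surj C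
  obtain ⟨D, a, hD, ha, ho1, ho2⟩ := h.ord l
  have hne := D4_ne hP.hN h l
  refine ⟨D, a, hD, ha, ?_, ?_⟩
  · have h1 := (V_ratio hP h l).mul ho1
    rw [one_mul] at h1
    refine h1.congr' ?_
    filter_upwards [hne] with t ht
    rw [div_mul_div_comm, mul_comm (F (γ l t, t ^ N)) (t ^ D), ← div_mul_div_comm, div_self ht.2,
      mul_one]
  · have h1 := (v_ratio hP h l).mul ho2
    rw [one_mul] at h1
    refine h1.congr' ?_
    filter_upwards [hne] with t ht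
    have h2 := ht.1
    field_simp

end H24.LS
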