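import Pool.Agent.H24.LS.P0
import Pool.Agent.H24.LS.P1
import Pool.Agent.H24.LS.P2
import Pool.Agent.H24.LS.D3
import Pool.Agent.H24.LS.D4

/-!
# D5: the cluster level facts bal, F1, F2, F3, small

`e = N (k-1-n)`, `m = mul cl`, `g = ctr cl γ`, `v C = vC F N (g C)`.
* `bal`: `cE C 0 ≍ Ehat (γ_l) (‖t‖^b) ≍ ‖v_l‖ ≍ ‖v_C‖` (`cE_ehat`, `PreClu.bal`, `v_ratio`).
* `F1`: `pf0` with `x1 = γ_l t`, `l ∈ C`: `‖dx F‖ ≤ K Ehat (γ_l) ‖x - γ_l‖ ≤ K Ehat (γ_l) (‖x - g C‖ + K' ‖t‖^b)`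
  and `cE_ehat`, monotonicity and `Ehat x1 (K' σ) ≤ K'^n Ehat x1 σ` for `K' ≥ 1`.
* `F2`: for `‖x - g C‖ ≥ K ‖t‖^(b C)` for all `C`: `x - γ_l = (x - g (cl l)) (1 + θ_l)`, `‖θ_l‖ ≤ K1/K`, so
  `∏_l (x - γ_l) = ∏_C (x - g C)^{m C} (1 + O(1/K))`; insert in `PCh.fac`.
* `F3`: `pf3` with `x1 = γ_l t`, `l ∈ C`: `‖dy F (x) - v_l‖ ≤ ε Ehat (γ_l) ‖x - γ_l‖ ≤ ε K cE C ‖x - g C‖`,
  and `‖v_l - v_C‖ ≤ ε ‖v_C‖`.
* `small` (`k ≥ 3`): for `‖t‖^(b C) ≤ σ ≤ ‖t‖^N`: the factor `C' = C` of `cE` is `(σ + ‖t‖^(b C))^{m C} ≤ (2σ)(2‖t‖^N)^{m C - 1}`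
  (`m C ≥ 1`), all other factors are `≤ (K ‖t‖^N)^{m C'}`; so
  `cE ≤ K' ‖t‖^(N(k-1-n) + N (n-1)) σ = K' ‖t‖^(N (k-2)) σ` (note `n ≥ 1` here) and `k ≥ 3`.
-/

open Filter Topology Metric Asymptotics

namespace H24.LS

private theorem D5_ev {P : ℂ → Prop} (h : ∀ᶠ t in 𝓝[≠] (0 : ℂ), P t) :
    ∃ δ > (0 : ℝ), ∀ t : ℂ, 0 < ‖t‖ → ‖t‖ < δ → P t := by
  rw [eventually_nhdsWithin_iff, Metric.eventually_nhds_iff] at h
  obtain ⟨δ, hδ, h⟩ := h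
  refine ⟨δ, hδ, fun t h0 h1 => h (by rwa [dist_zero_right]) fun ht => ?_⟩
  rw [Set.mem_singleton_iff.mp ht, norm_zero] at h0
  exact lt_irrefl _ h0

private theorem D5_unif {ι : Type} [Fintype ι] {P : ι → ℝ → ℂ → Prop}
    (hmono : ∀ i M M' t, M ≤ M' → P i M t → P i M' t)
    (h : ∀ i, ∃ M : ℝ, ∀ᶠ t in 𝓝[≠] (0 : ℂ), P i M t) :
    ∃ M ≥ (1 : ℝ), ∀ᶠ t in 𝓝[≠] (0 : ℂ), ∀ i, P i M t := by
  choose M hM using h
  have h0 : 0 ≤ ∑ i, |M i| := Finset.sum_nonneg fun i _ => abs_nonneg _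
  refine ⟨1 + ∑ i, |M i|, by linarith, ?_⟩
  rw [eventually_all]
  intro i
  filter_upwards [hM i] with t ht
  refine hmono i _ _ t ?_ ht
  have : |M i| ≤ ∑ j, |M j| :=
    Finset.single_le_sum (f := fun j => |M j|) (fun j _ => abs_nonneg _) (Finset.mem_univ i)
  linarith [le_abs_self (M i)]

private theorem D5_ehat_mono {n : ℕ} (e : ℕ) (γ : Fin n → ℂ → ℂ) (x1 : ℂ) {σ σ' : ℝ}
    (h0 : 0 ≤ σ) (h : σ ≤ σ') (t : ℂ) : Ehat e γ x1 σ t ≤ Ehat e γ x1 σ' t := by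
  unfold Ehat
  apply mul_le_mul_of_nonneg_left _ (by positivity)
  apply Finset.prod_le_prod
  · intro l _
    positivity
  · intro l _
    linarith

private theorem D5_ehat_scale {n : ℕ} (e : ℕ) (γ : Fin n → ℂ → ℂ) (x1 : ℂ) {σ K : ℝ}
    (h0 : 0 ≤ σ) (hK : 1 ≤ K) (t : ℂ) : Ehat e γ x1 (K * σ) t ≤ K ^ n * Ehat e γ x1 σ t := by
  unfold Ehat
  calc ‖t‖ ^ e * ∏ l, (K * σ + ‖x1 - γ l t‖)
      ≤ ‖t‖ ^ e * ∏ l, (K * (σ + ‖x1 - γ l t‖)) := by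
        apply mul_le_mul_of_nonneg_left _ (by positivity)
        apply Finset.prod_le_prod
        · intro l _
          positivity
        · intro l _
          have := norm_nonneg (x1 - γ l t)
          nlinarith
    _ = K ^ n * (‖t‖ ^ e * ∏ l, (σ + ‖x1 - γ l t‖)) := by
        rw [Finset.prod_mul_distrib, Finset.prod_const, Finset.card_univ, Fintype.card_fin]
        ring

private theorem D5_ehat_nonneg {n : ℕ} (e : ℕ) (γ : Fin n → ℂ → ℂ) (x1 : ℂ) {σ : ℝ}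
    (h0 : 0 ≤ σ) (t : ℂ) : 0 ≤ Ehat e γ x1 σ t := by
  unfold Ehat
  positivity

private theorem D5_rpow (t : ℂ) (b : ℝ) : 0 ≤ ‖t‖ ^ b := Real.rpow_nonneg (norm_nonneg _) _

private theorem D5_cE_nonneg {c : ℕ} (e : ℕ) (m : Fin c → ℕ) (b : Fin c → ℝ)
    (g : Fin c → ℂ → ℂ) (C : Fin c) {σ : ℝ} (h0 : 0 ≤ σ) (t : ℂ) : 0 ≤ cE e m b g C σ t := by
  unfold cE
  apply mul_nonneg (by positivity)
  apply Finset.prod_nonneg
  intro C' _
  have := D5_rpow t (b C')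
  positivity

private theorem D5_near {F : ℂ × ℂ → ℂ} {k n N c : ℕ} {γ : Fin n → ℂ → ℂ} {cl : Fin n → Fin c}
    {b : Fin c → ℝ} (h : PreClu F k n N γ c cl b) :
    ∃ A ≥ (1 : ℝ), ∀ᶠ t in 𝓝[≠] (0 : ℂ), ∀ l,
      ‖γ l t - ctr cl γ (cl l) t‖ ≤ A * ‖t‖ ^ (b (cl l)) := by
  apply D5_unif (P := fun l A t => ‖γ l t - ctr cl γ (cl l) t‖ ≤ A * ‖t‖ ^ (b (cl l)))
  · intro l M M' t hM h1
    exact h1.trans (mul_le_mul_of_nonneg_right hM (D5_rpow _ _))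
  · intro l
    obtain ⟨A, hA⟩ := (ctr_near h l).bound
    refine ⟨A, ?_⟩
    filter_upwards [hA] with t ht
    rwa [Real.norm_of_nonneg (D5_rpow _ _)] at ht

private theorem D5_comp {F : ℂ × ℂ → ℂ} {k n N c : ℕ} {γ : Fin n → ℂ → ℂ} {cl : Fin n → Fin c}
    {b : Fin c → ℝ} (h : PreClu F k n N γ c cl b) (e : ℕ) :
    ∃ K > (0 : ℝ), ∀ᶠ t in 𝓝[≠] (0 : ℂ), ∀ (l : Fin n) (x : ℂ),
      Ehat e γ (γ l t) ‖x - γ l t‖ t ≤
        K * cE e (mul cl) b (ctr cl γ) (cl l) ‖x - ctr cl γ (cl l) t‖ t := by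
  obtain ⟨A, hA, hnear⟩ := D5_near h
  obtain ⟨K, hK, hcE⟩ := cE_ehat h e
  refine ⟨A ^ n * K, by positivity, ?_⟩
  filter_upwards [hnear, hcE] with t h1 h2 l x
  have hb0 := D5_rpow t (b (cl l))
  have hs : ‖x - γ l t‖ ≤ A * (‖x - ctr cl γ (cl l) t‖ + ‖t‖ ^ (b (cl l))) := by
    have e1 : x - γ l t = (x - ctr cl γ (cl l) t) - (γ l t - ctr cl γ (cl l) t) := by ring
    have h3 : ‖x - γ l t‖ ≤ ‖x - ctr cl γ (cl l) t‖ + ‖γ l t - ctr cl γ (cl l) t‖ := by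
      rw [e1]
      exact norm_sub_le _ _
    have h4 := h1 l
    have h5 := norm_nonneg (x - ctr cl γ (cl l) t)
    nlinarith
  calc Ehat e γ (γ l t) ‖x - γ l t‖ t
      ≤ Ehat e γ (γ l t) (A * (‖x - ctr cl γ (cl l) t‖ + ‖t‖ ^ (b (cl l)))) t :=
        D5_ehat_mono e γ _ (norm_nonneg _) hs t
    _ ≤ A ^ n * Ehat e γ (γ l t) (‖x - ctr cl γ (cl l) t‖ + ‖t‖ ^ (b (cl l))) t :=
        D5_ehat_scale e γ _ (by positivity) hA t
    _ ≤ A ^ n * (K * cE e (mul cl) b (ctr cl γ) (cl l) ‖x - ctr cl γ (cl l) t‖ t) := by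
        apply mul_le_mul_of_nonneg_left _ (by positivity)
        exact (h2 l _ (norm_nonneg _)).2
    _ = _ := by ring

private theorem D5_v {F : ℂ × ℂ → ℂ} {k n N c : ℕ} {u : ℂ} {γ : Fin n → ℂ → ℂ}
    {cl : Fin n → Fin c} {b : Fin c → ℝ} (hP : PCh F k n N u γ) (h : PreClu F k n N γ c cl b)
    {ε : ℝ} (hε : 0 < ε) :
    ∀ᶠ t in 𝓝[≠] (0 : ℂ), ∀ l, ‖dy F (γ l t, t ^ N) - vC F N (ctr cl γ (cl l)) t‖ ≤
      ε * ‖vC F N (ctr cl γ (cl l)) t‖ := by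
  rw [eventually_all]
  intro l
  have h1 := v_ratio hP h l
  have h2 := h1.inv₀ one_ne_zero
  rw [inv_one] at h2
  have h3 : ∀ᶠ t in 𝓝[≠] (0 : ℂ),
      vC F N (ctr cl γ (cl l)) t / dy F (γ l t, t ^ N) ≠ 0 := h1.eventually_ne one_ne_zero
  have h4 := (Metric.tendsto_nhds.mp h2) ε hε
  filter_upwards [h3, h4] with t h5 h6
  have h7 : vC F N (ctr cl γ (cl l)) t ≠ 0 := fun h => h5 (by rw [h, zero_div])
  rw [dist_eq_norm, inv_div] at h6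
  have e1 : dy F (γ l t, t ^ N) - vC F N (ctr cl γ (cl l)) t
      = (dy F (γ l t, t ^ N) / vC F N (ctr cl γ (cl l)) t - 1) * vC F N (ctr cl γ (cl l)) t := by
    field_simp
  rw [e1, norm_mul]
  exact mul_le_mul_of_nonneg_right h6.le (norm_nonneg _)

theorem clu_bal {F : ℂ × ℂ → ℂ} {k n N c : ℕ} {u : ℂ} {γ : Fin n → ℂ → ℂ} {cl : Fin n → Fin c}
    {b : Fin c → ℝ} (hP : PCh F k n N u γ) (h : PreClu F k n N γ c cl b) :
    ∃ c1 > (0 : ℝ), ∃ c2 > (0 : ℝ), ∀ᶠ t in 𝓝[≠] (0 : ℂ), ∀ C,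
      c1 * ‖vC F N (ctr cl γ C) t‖ ≤ cE (N * (k - 1 - n)) (mul cl) b (ctr cl γ) C 0 t ∧
      cE (N * (k - 1 - n)) (mul cl) b (ctr cl γ) C 0 t ≤ c2 * ‖vC F N (ctr cl γ C) t‖ := by
  obtain ⟨M, hM, hev⟩ := D5_unif (ι := Fin c) (P := fun C M t =>
      ‖vC F N (ctr cl γ C) t‖ ≤ M * cE (N * (k - 1 - n)) (mul cl) b (ctr cl γ) C 0 t ∧
      cE (N * (k - 1 - n)) (mul cl) b (ctr cl γ) C 0 t ≤ M * ‖vC F N (ctr cl γ C) t‖)
    (fun C M M' t hM h1 =>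
      ⟨h1.1.trans (mul_le_mul_of_nonneg_right hM (D5_cE_nonneg _ _ _ _ _ le_rfl _)),
        h1.2.trans (mul_le_mul_of_nonneg_right hM (norm_nonneg _))⟩)
    (by
      intro C
      obtain ⟨l, rfl⟩ := h.surj C
      obtain ⟨c1, hc1, c2, hc2, hbal⟩ := h.bal l
      obtain ⟨K, hK, hcE⟩ := cE_ehat h (N * (k - 1 - n))
      refine ⟨2 * K / c1 + 2 * K * c2, ?_⟩
      filter_upwards [hbal, hcE, D5_v hP h (ε := 1 / 2) (by norm_num)] with t h1 h2 h3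
      have h4 := h2 l 0 le_rfl
      rw [zero_add] at h4
      have h5 := h3 l
      set V := vC F N (ctr cl γ (cl l)) t with hV
      set v := dy F (γ l t, t ^ N) with hv
      set E0 := Ehat (N * (k - 1 - n)) γ (γ l t) (‖t‖ ^ (b (cl l))) t with hE0
      set E1 := cE (N * (k - 1 - n)) (mul cl) b (ctr cl γ) (cl l) 0 t with hE1
      have hE1n : 0 ≤ E1 := D5_cE_nonneg _ _ _ _ _ le_rfl _
      have h6 : ‖V‖ ≤ 2 * ‖v‖ := by
        have : ‖V‖ ≤ ‖v‖ + ‖v - V‖ := by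
          have e1 : V = v - (v - V) := by ring
          calc ‖V‖ = ‖v - (v - V)‖ := by rw [← e1]
            _ ≤ ‖v‖ + ‖v - V‖ := norm_sub_le _ _
        linarith
      have h7 : ‖v‖ ≤ 2 * ‖V‖ := by
        have : ‖v‖ ≤ ‖V‖ + ‖v - V‖ := by
          have e1 : v = V + (v - V) := by ring
          calc ‖v‖ = ‖V + (v - V)‖ := by rw [← e1]
            _ ≤ ‖V‖ + ‖v - V‖ := norm_add_le _ _
        have := norm_nonneg V
        linarith
      constructor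
      · calc ‖V‖ ≤ 2 * ‖v‖ := h6
          _ = 2 / c1 * (c1 * ‖v‖) := by field_simp
          _ ≤ 2 / c1 * (K * E1) := by
              apply mul_le_mul_of_nonneg_left (h1.1.trans h4.2) (by positivity)
          _ = 2 * K / c1 * E1 := by ring
          _ ≤ (2 * K / c1 + 2 * K * c2) * E1 := by
              apply mul_le_mul_of_nonneg_right _ hE1n
              have : 0 ≤ 2 * K * c2 := by positivity
              linarith
      · calc E1 ≤ K * E0 := h4.1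
          _ ≤ K * (c2 * ‖v‖) := by gcongr; exact h1.2
          _ ≤ K * (c2 * (2 * ‖V‖)) := by gcongr
          _ = 2 * K * c2 * ‖V‖ := by ring
          _ ≤ (2 * K / c1 + 2 * K * c2) * ‖V‖ := by
              apply mul_le_mul_of_nonneg_right _ (norm_nonneg _)
              have : 0 ≤ 2 * K / c1 := by positivity
              linarith)
  have hM0 : 0 < M := by linarith
  refine ⟨1 / M, by positivity, M, hM0, ?_⟩
  filter_upwards [hev] with t ht C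
  refine ⟨?_, (ht C).2⟩
  rw [one_div, inv_mul_le_iff₀ hM0]
  exact (ht C).1

theorem clu_F1 {F : ℂ × ℂ → ℂ} {k n N c : ℕ} {u : ℂ} {γ : Fin n → ℂ → ℂ} {cl : Fin n → Fin c}
    {b : Fin c → ℝ} (hP : PCh F k n N u γ) (h : PreClu F k n N γ c cl b) :
    ∃ C0 > (0 : ℝ), ∃ δ > (0 : ℝ), ∀ x t : ℂ, 0 < ‖t‖ → ‖t‖ < δ → ‖x‖ < δ * ‖t‖ ^ N → ∀ C,
      ‖dx F (x, t ^ N)‖ ≤
        C0 * cE (N * (k - 1 - n)) (mul cl) b (ctr cl γ) C ‖x - ctr cl γ C t‖ t := by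
  obtain ⟨C1, hC1, δ1, hδ1, hpf⟩ := pf0 hP
  obtain ⟨K, hK, hcomp⟩ := D5_comp h (N * (k - 1 - n))
  obtain ⟨δ2, hδ2, hcomp⟩ := D5_ev hcomp
  refine ⟨C1 * K, by positivity, min δ1 δ2, lt_min hδ1 hδ2, ?_⟩
  intro x t h0 h1 h2 C
  obtain ⟨l, rfl⟩ := h.surj C
  have h3 : ‖x‖ < δ1 * ‖t‖ ^ N :=
    h2.trans_le (mul_le_mul_of_nonneg_right (min_le_left _ _) (by positivity))
  calc ‖dx F (x, t ^ N)‖
      ≤ C1 * Ehat (N * (k - 1 - n)) γ (γ l t) ‖x - γ l t‖ t :=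
        hpf x (γ l t) t h0 (h1.trans_le (min_le_left _ _)) h3
    _ ≤ C1 * (K * cE (N * (k - 1 - n)) (mul cl) b (ctr cl γ) (cl l)
          ‖x - ctr cl γ (cl l) t‖ t) := by
        apply mul_le_mul_of_nonneg_left _ hC1.le
        exact hcomp t h0 (h1.trans_le (min_le_right _ _)) l x
    _ = _ := by ring

private theorem D5_prod {ι : Type*} (s : Finset ι) (a d : ι → ℂ) {θ : ℝ} (hθ : 0 ≤ θ)
    (h : ∀ i ∈ s, ‖a i - d i‖ ≤ θ * ‖d i‖) :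
    ‖∏ i ∈ s, a i - ∏ i ∈ s, d i‖ ≤ ((1 + θ) ^ s.card - 1) * ‖∏ i ∈ s, d i‖ := by
  classical
  induction s using Finset.induction_on with
  | empty => simp
  | insert j s hj ih =>
    have ih' := ih fun i hi => h i (Finset.mem_insert_of_mem hi)
    have hj' := h j (Finset.mem_insert_self _ _)
    rw [Finset.prod_insert hj, Finset.prod_insert hj, Finset.card_insert_of_notMem hj]
    set P := ∏ i ∈ s, a i with hP
    set Q := ∏ i ∈ s, d i with hQ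
    have h1 : ‖P‖ ≤ (1 + θ) ^ s.card * ‖Q‖ := by
      have : ‖P‖ ≤ ‖P - Q‖ + ‖Q‖ := by
        have e1 : P = (P - Q) + Q := by ring
        calc ‖P‖ = ‖(P - Q) + Q‖ := by rw [← e1]
          _ ≤ _ := norm_add_le _ _
      linarith
    have e1 : a j * P - d j * Q = (a j - d j) * P + d j * (P - Q) := by ring
    rw [e1]
    calc ‖(a j - d j) * P + d j * (P - Q)‖ ≤ ‖a j - d j‖ * ‖P‖ + ‖d j‖ * ‖P - Q‖ := by
          refine (norm_add_le _ _).trans ?_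
          rw [norm_mul, norm_mul]
      _ ≤ (θ * ‖d j‖) * ((1 + θ) ^ s.card * ‖Q‖) + ‖d j‖ * (((1 + θ) ^ s.card - 1) * ‖Q‖) := by
          gcongr
      _ = ((1 + θ) ^ (s.card + 1) - 1) * ‖d j * Q‖ := by
          rw [norm_mul]
          ring

private theorem D5_fiber {n c : ℕ} (cl : Fin n → Fin c) (f : Fin c → ℂ) :
    ∏ l, f (cl l) = ∏ C, f C ^ mul cl C := by
  classical
  rw [← Finset.prod_fiberwise (Finset.univ : Finset (Fin n)) cl (fun l => f (cl l))]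
  refine Finset.prod_congr rfl fun C _ => ?_
  rw [Finset.prod_congr rfl (g := fun _ => f C) (fun l hl => by
    rw [(Finset.mem_filter.mp hl).2]), Finset.prod_const]
  unfold mul
  congr! 2

theorem clu_F2 {F : ℂ × ℂ → ℂ} {k n N c : ℕ} {u : ℂ} {γ : Fin n → ℂ → ℂ} {cl : Fin n → Fin c}
    {b : Fin c → ℝ} (hP : PCh F k n N u γ) (h : PreClu F k n N γ c cl b) :
    ∀ ε > (0 : ℝ), ∃ K > (0 : ℝ), ∃ δ > (0 : ℝ), ∀ x t : ℂ, 0 < ‖t‖ → ‖t‖ < δ →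
      ‖x‖ < δ * ‖t‖ ^ N → (∀ C, K * ‖t‖ ^ (b C) ≤ ‖x - ctr cl γ C t‖) →
      ‖dx F (x, t ^ N) - u * t ^ (N * (k - 1 - n)) * ∏ C, (x - ctr cl γ C t) ^ mul cl C‖ ≤
        ε * (‖t‖ ^ (N * (k - 1 - n)) * ∏ C, ‖x - ctr cl γ C t‖ ^ mul cl C) := by
  intro ε hε
  obtain ⟨A, hA, hnear⟩ := D5_near h
  obtain ⟨δ1, hδ1, hnear⟩ := D5_ev hnear
  obtain ⟨δ2, hδ2, hfac⟩ := hP.fac (ε / 4) (by positivity)
  -- choice of `θ`
  have hη : 0 < min 1 (ε / (2 * (‖u‖ + 1))) := lt_min one_pos (by positivity)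
  obtain ⟨θ, hθ, hθn⟩ : ∃ θ : ℝ, 0 < θ ∧ (1 + θ) ^ n - 1 ≤ min 1 (ε / (2 * (‖u‖ + 1))) := by
    have hc : Tendsto (fun θ : ℝ => (1 + θ) ^ n - 1) (𝓝[>] 0) (𝓝 0) := by
      have h1 : Continuous fun θ : ℝ => (1 + θ) ^ n - 1 := by fun_prop
      have h2 := (h1.tendsto 0).mono_left (nhdsWithin_le_nhds (s := Set.Ioi (0 : ℝ)))
      simpa using h2
    have h3 := (hc.eventually_lt_const hη).and self_mem_nhdsWithin
    obtain ⟨θ, h4, h5⟩ := h3.exists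
    exact ⟨θ, h5, h4.le⟩
  refine ⟨A / θ, by positivity, min δ1 δ2, lt_min hδ1 hδ2, ?_⟩
  intro x t h0 h1 h2 hfar
  have h3 : ‖x‖ < δ2 * ‖t‖ ^ N :=
    h2.trans_le (mul_le_mul_of_nonneg_right (min_le_right _ _) (by positivity))
  have hf := hfac x t h0 (h1.trans_le (min_le_right _ _)) h3
  have hn := hnear t h0 (h1.trans_le (min_le_left _ _))
  have hfib := D5_fiber cl (fun C => x - ctr cl γ C t)
  have hfibn : ∏ C, ‖x - ctr cl γ C t‖ ^ mul cl C = ‖∏ l, (x - ctr cl γ (cl l) t)‖ := by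
    rw [hfib, norm_prod]
    exact Finset.prod_congr rfl fun C _ => by rw [norm_pow]
  rw [← hfib, hfibn]
  rw [← norm_prod] at hf
  set P := ∏ l, (x - γ l t) with hPdef
  set Q := ∏ l, (x - ctr cl γ (cl l) t) with hQdef
  have hPQ : ‖P - Q‖ ≤ min 1 (ε / (2 * (‖u‖ + 1))) * ‖Q‖ := by
    have h4 := D5_prod Finset.univ (fun l => x - γ l t) (fun l => x - ctr cl γ (cl l) t) hθ.le
      (by
        intro l _
        have e1 : x - γ l t - (x - ctr cl γ (cl l) t) = -(γ l t - ctr cl γ (cl l) t) := by ring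
        rw [e1, norm_neg]
        have h5 := hfar (cl l)
        rw [div_mul_eq_mul_div, div_le_iff₀ hθ] at h5
        calc ‖γ l t - ctr cl γ (cl l) t‖ ≤ A * ‖t‖ ^ (b (cl l)) := hn l
          _ ≤ ‖x - ctr cl γ (cl l) t‖ * θ := h5
          _ = θ * ‖x - ctr cl γ (cl l) t‖ := mul_comm _ _)
    rw [Finset.card_univ, Fintype.card_fin] at h4
    exact h4.trans (mul_le_mul_of_nonneg_right hθn (norm_nonneg _))
  have hP2 : ‖P‖ ≤ 2 * ‖Q‖ := by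
    have h5 : ‖P‖ ≤ ‖P - Q‖ + ‖Q‖ := by
      have e1 : P = (P - Q) + Q := by ring
      calc ‖P‖ = ‖(P - Q) + Q‖ := by rw [← e1]
        _ ≤ _ := norm_add_le _ _
    have h6 : ‖P - Q‖ ≤ 1 * ‖Q‖ :=
      hPQ.trans (mul_le_mul_of_nonneg_right (min_le_left _ _) (norm_nonneg _))
    linarith
  have hPQ' : ‖u‖ * ‖P - Q‖ ≤ ε / 2 * ‖Q‖ := by
    have h6 : ‖P - Q‖ ≤ ε / (2 * (‖u‖ + 1)) * ‖Q‖ :=
      hPQ.trans (mul_le_mul_of_nonneg_right (min_le_right _ _) (norm_nonneg _))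
    calc ‖u‖ * ‖P - Q‖ ≤ (‖u‖ + 1) * (ε / (2 * (‖u‖ + 1)) * ‖Q‖) := by
          gcongr
          linarith
      _ = ε / 2 * ‖Q‖ := by
          have := norm_nonneg u
          field_simp
  have e2 : dx F (x, t ^ N) - u * t ^ (N * (k - 1 - n)) * Q
      = (dx F (x, t ^ N) - u * t ^ (N * (k - 1 - n)) * P)
        + t ^ (N * (k - 1 - n)) * (u * (P - Q)) := by ring
  rw [e2]
  calc ‖(dx F (x, t ^ N) - u * t ^ (N * (k - 1 - n)) * P)
        + t ^ (N * (k - 1 - n)) * (u * (P - Q))‖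
      ≤ ‖dx F (x, t ^ N) - u * t ^ (N * (k - 1 - n)) * P‖
        + ‖t‖ ^ (N * (k - 1 - n)) * (‖u‖ * ‖P - Q‖) := by
        refine (norm_add_le _ _).trans ?_
        rw [norm_mul, norm_pow, norm_mul]
    _ ≤ ε / 4 * (‖t‖ ^ (N * (k - 1 - n)) * (2 * ‖Q‖))
        + ‖t‖ ^ (N * (k - 1 - n)) * (ε / 2 * ‖Q‖) := by
        apply add_le_add
        · refine hf.trans ?_
          gcongr
        · gcongr
    _ = ε * (‖t‖ ^ (N * (k - 1 - n)) * ‖Q‖) := by ring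

theorem clu_F3 {F : ℂ × ℂ → ℂ} {k n N c : ℕ} {u : ℂ} {γ : Fin n → ℂ → ℂ} {cl : Fin n → Fin c}
    {b : Fin c → ℝ} (hP : PCh F k n N u γ) (h : PreClu F k n N γ c cl b) :
    ∀ ε > (0 : ℝ), ∃ δ > (0 : ℝ), ∀ x t : ℂ, 0 < ‖t‖ → ‖t‖ < δ → ‖x‖ < δ * ‖t‖ ^ N → ∀ C,
      ‖dy F (x, t ^ N) - vC F N (ctr cl γ C) t‖ ≤ ε * (‖vC F N (ctr cl γ C) t‖ +
        cE (N * (k - 1 - n)) (mul cl) b (ctr cl γ) C ‖x - ctr cl γ C t‖ t) := by
  intro ε hε
  obtain ⟨K, hK, hcomp⟩ := D5_comp h (N * (k - 1 - n))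
  obtain ⟨δ1, hδ1, hpf⟩ := pf3 hP (ε / K) (by positivity)
  have hγ : ∀ᶠ t in 𝓝[≠] (0 : ℂ), ∀ l, ‖γ l t‖ ≤ δ1 / 2 * ‖t ^ N‖ := by
    rw [eventually_all]
    exact fun l => (hP.γsm l).def (by positivity)
  obtain ⟨δ2, hδ2, hev⟩ := D5_ev ((hcomp.and hγ).and (D5_v hP h hε))
  refine ⟨min δ1 δ2, lt_min hδ1 hδ2, ?_⟩
  intro x t h0 h1 h2 C
  obtain ⟨l, rfl⟩ := h.surj C
  obtain ⟨⟨h3, h4⟩, h5⟩ := hev t h0 (h1.trans_le (min_le_right _ _))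
  have h6 : ‖x‖ < δ1 * ‖t‖ ^ N :=
    h2.trans_le (mul_le_mul_of_nonneg_right (min_le_left _ _) (by positivity))
  have h7 : ‖γ l t‖ < δ1 * ‖t‖ ^ N := by
    refine (h4 l).trans_lt ?_
    rw [norm_pow]
    have : 0 < ‖t‖ ^ N := by positivity
    nlinarith
  have h8 := hpf x (γ l t) t h0 (h1.trans_le (min_le_left _ _)) h6 h7
  have h9 := h3 l x
  have e1 : dy F (x, t ^ N) - vC F N (ctr cl γ (cl l)) t
      = (dy F (x, t ^ N) - dy F (γ l t, t ^ N))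
        + (dy F (γ l t, t ^ N) - vC F N (ctr cl γ (cl l)) t) := by ring
  rw [e1]
  calc ‖(dy F (x, t ^ N) - dy F (γ l t, t ^ N))
        + (dy F (γ l t, t ^ N) - vC F N (ctr cl γ (cl l)) t)‖
      ≤ ‖dy F (x, t ^ N) - dy F (γ l t, t ^ N)‖
        + ‖dy F (γ l t, t ^ N) - vC F N (ctr cl γ (cl l)) t‖ := norm_add_le _ _
    _ ≤ ε / K * (K * cE (N * (k - 1 - n)) (mul cl) b (ctr cl γ) (cl l)
          ‖x - ctr cl γ (cl l) t‖ t) + ε * ‖vC F N (ctr cl γ (cl l)) t‖ := by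
        apply add_le_add _ (h5 l)
        exact h8.trans (mul_le_mul_of_nonneg_left h9 (by positivity))
    _ = _ := by
        field_simp
        ring

theorem clu_small {F : ℂ × ℂ → ℂ} {k n N c : ℕ} {u : ℂ} {γ : Fin n → ℂ → ℂ} {cl : Fin n → Fin c}
    {b : Fin c → ℝ} (hP : PCh F k n N u γ) (h : PreClu F k n N γ c cl b) (hk : 3 ≤ k) :
    ∀ ε > (0 : ℝ), ∃ δ > (0 : ℝ), ∀ t : ℂ, 0 < ‖t‖ → ‖t‖ < δ →
      ∀ C (σ : ℝ), ‖t‖ ^ (b C) ≤ σ → σ ≤ ‖t‖ ^ N →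
        cE (N * (k - 1 - n)) (mul cl) b (ctr cl γ) C σ t ≤ ε * σ := by
  intro ε hε
  have hg : ∀ᶠ t in 𝓝[≠] (0 : ℂ), ∀ C, ‖ctr cl γ C t‖ ≤ 1 * ‖t ^ N‖ := by
    rw [eventually_all]
    exact fun C => (ctr_sm N cl γ hP.γsm C).def one_pos
  obtain ⟨δ1, hδ1, hg⟩ := D5_ev hg
  refine ⟨min (min δ1 1) (ε / (2 * 4 ^ n)), lt_min (lt_min hδ1 one_pos) (by positivity), ?_⟩
  intro t h0 h1 C σ h2 h3
  have hgt := hg t h0 (h1.trans_le ((min_le_left _ _).trans (min_le_left _ _)))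
  have ht1 : ‖t‖ ≤ 1 := (h1.trans_le ((min_le_left _ _).trans (min_le_right _ _))).le
  have htε : ‖t‖ ≤ ε / (2 * 4 ^ n) := (h1.trans_le (min_le_right _ _)).le
  have hσ : 0 ≤ σ := (D5_rpow _ _).trans h2
  set B : ℝ := 4 * ‖t‖ ^ N with hB
  have hB0 : 0 < B := by positivity
  set a : Fin c → ℝ := fun C' => σ + ‖t‖ ^ (b C') + ‖ctr cl γ C t - ctr cl γ C' t‖ with ha
  have ha0 : ∀ C', 0 ≤ a C' := by
    intro C'
    have := D5_rpow t (b C')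
    have := norm_nonneg (ctr cl γ C t - ctr cl γ C' t)
    simp only [ha]
    linarith
  have haB : ∀ C', a C' ≤ B := by
    intro C'
    have h4 : ‖t‖ ^ (b C') ≤ ‖t‖ ^ N := by
      rw [← Real.rpow_natCast ‖t‖ N]
      exact Real.rpow_le_rpow_of_exponent_ge h0 ht1 (h.hb C').le
    have h5 : ‖ctr cl γ C t - ctr cl γ C' t‖ ≤ ‖t‖ ^ N + ‖t‖ ^ N := by
      refine (norm_sub_le _ _).trans ?_
      have h6 := hgt C
      have h7 := hgt C'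
      rw [one_mul, norm_pow] at h6 h7
      exact add_le_add h6 h7
    simp only [ha, hB]
    linarith
  have haC : a C ≤ 2 * σ := by
    simp only [ha, sub_self, norm_zero]
    linarith
  have hn := sum_mul cl
  have hmC := mul_pos' cl h.surj C
  have hn1 : 1 ≤ n := by
    rw [← hn]
    exact hmC.trans (Finset.single_le_sum (fun C' _ => Nat.zero_le (mul cl C')) (Finset.mem_univ C))
  -- the product
  have hprod : ∏ C', a C' ^ mul cl C' ≤ 2 * σ * B ^ (n - 1) := by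
    have e1 : ∏ C', a C' ^ mul cl C' = B ^ n * ∏ C', (a C' / B) ^ mul cl C' := by
      have hBn : B ^ n = ∏ C', B ^ mul cl C' := by rw [Finset.prod_pow_eq_pow_sum, hn]
      rw [hBn, ← Finset.prod_mul_distrib]
      refine Finset.prod_congr rfl fun C' _ => ?_
      rw [div_pow]
      field_simp
    have hq1 : ∀ C', a C' / B ≤ 1 := fun C' => by
      rw [div_le_one hB0]
      exact haB C'
    have hq0 : ∀ C', 0 ≤ a C' / B := fun C' => div_nonneg (ha0 C') hB0.le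
    have e2 : ∏ C', (a C' / B) ^ mul cl C' ≤ a C / B := by
      rw [← Finset.mul_prod_erase Finset.univ _ (Finset.mem_univ C)]
      calc (a C / B) ^ mul cl C * ∏ C' ∈ Finset.univ.erase C, (a C' / B) ^ mul cl C'
          ≤ (a C / B) ^ 1 * 1 := by
            apply mul_le_mul
            · exact pow_le_pow_of_le_one (hq0 C) (hq1 C) hmC
            · exact Finset.prod_le_one (fun C' _ => pow_nonneg (hq0 C') _)
                fun C' _ => pow_le_one₀ (hq0 C') (hq1 C')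
            · exact Finset.prod_nonneg fun C' _ => pow_nonneg (hq0 C') _
            · exact pow_nonneg (hq0 C) _
        _ = a C / B := by ring
    rw [e1]
    calc B ^ n * ∏ C', (a C' / B) ^ mul cl C' ≤ B ^ n * (a C / B) := by gcongr
      _ = B ^ (n - 1) * a C := by
          obtain ⟨j, rfl⟩ : ∃ j, n = j + 1 := ⟨n - 1, by omega⟩
          rw [Nat.add_sub_cancel, pow_succ]
          field_simp
      _ ≤ B ^ (n - 1) * (2 * σ) := by gcongr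
      _ = 2 * σ * B ^ (n - 1) := mul_comm _ _
  have hcE : cE (N * (k - 1 - n)) (mul cl) b (ctr cl γ) C σ t
      = ‖t‖ ^ (N * (k - 1 - n)) * ∏ C', a C' ^ mul cl C' := rfl
  rw [hcE]
  have hk1 := hP.hk
  have hN := hP.hN
  calc ‖t‖ ^ (N * (k - 1 - n)) * ∏ C', a C' ^ mul cl C'
      ≤ ‖t‖ ^ (N * (k - 1 - n)) * (2 * σ * B ^ (n - 1)) := by gcongr
    _ = 2 * 4 ^ (n - 1) * σ * ‖t‖ ^ (N * (k - 1 - n) + N * (n - 1)) := by
        rw [hB, mul_pow, ← pow_mul, pow_add]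
        ring
    _ ≤ 2 * 4 ^ n * σ * ‖t‖ ^ 1 := by
        gcongr ?_ * σ * ?_
        · gcongr
          · norm_num
          · omega
        · apply pow_le_pow_of_le_one h0.le ht1
          have e3 : N * (k - 1 - n) + N * (n - 1) = N * (k - 2) := by
            rw [← mul_add]
            congr 1
            omega
          rw [e3]
          exact Nat.one_le_iff_ne_zero.mpr (Nat.mul_ne_zero (by omega) (by omega))
    _ ≤ 2 * 4 ^ n * σ * (ε / (2 * 4 ^ n)) := by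
        rw [pow_one]
        gcongr
    _ = ε * σ := by
        field_simp

end H24.LS
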