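import Pool.Agent.H24.LS.P0
import Pool.Agent.H24.LS.P1
import Pool.Agent.H24.LS.P2
import Pool.Agent.H24.LS.D3

/-!
# D6: the monodromy `t ↦ ζ t` permutes arcs and clusters

Let `ζ^N = 1`.
(1) `arc_perm`: there is a permutation `π` of the arcs with `γ_{π l}(t) = γ_l (ζ t)` near `0`.
  Proof.  `(ζ t)^N = t^N`, so `fac` at `t` and at `ζ t` (with `ε = ‖u‖/2`) show that for `0 < ‖t‖ < δ` the
  two functions `P_t(x) = ∏ (x - γ_l t)` and `Q_t(x) = ∏ (x - γ_l(ζ t))` of `x ∈ ball 0 (δ‖t‖^N)` are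
  comparable: `‖P_t‖ ≤ C ‖Q_t‖ ≤ C' ‖P_t‖`.  Both are monic polynomials of degree `n` with all roots in
  that ball, so every root of one is a root of the other with the same multiplicity (compare the
  order of vanishing at the point), so `P_t = Q_t`, i.e. the multisets `{γ_l t}` and
  `{γ_l (ζ t)}` coincide for every small `t ≠ 0`.
  For each of the finitely many permutations `π` the set of `t` with `γ_{π l}(t) = γ_l(ζ t)` for all `l`
  is closed; the union over `π` is a punctured neighbourhood, so for one `π` the set has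
  `0` as an accumulation point; by the identity theorem (`AnalyticAt.eventually_eq_or_eventually_ne` /
  `frequently_eq_iff_eventually_eq`) the equalities hold near `0`.
(2) `oo (π l) (π l') = oo l l'`; `dy F (γ_{π l} t, t^N) = dy F (γ_l(ζ t), (ζ t)^N)`, so
  `‖v_{π l}(t)‖ = ‖v_l(ζ t)‖`.  By `PreClu.bal` at `l` (evaluated at `ζ t`, note
  `Ehat e γ (γ_l (ζt)) σ (ζt) = Ehat e γ (γ_{πl} t) σ t`) and at `π l`:
  `Ehat (γ_{πl} t) (‖t‖^{b_l}) t ≍ Ehat (γ_{πl} t) (‖t‖^{b_{πl}}) t` where `b_l = b (cl l)`; since `Ehat x1 σ` contains the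
  factor `σ` (from the arc itself) times a nondecreasing function of `σ`, `‖t‖^{b_l} ≍ ‖t‖^{b_{πl}}`, so
  `b_{πl} = b_l`.
(3) `cl l = cl l'` iff `γ_l - γ_l' = O(‖t‖^{b_l})` (by `same`, `diff`: exclusive because `O` and `o` in opposite
  directions would give `‖t‖^b = o(‖t‖^b)`); hence `π` induces a permutation `τ` of clusters,
  `τ (cl l) = cl (π l)`, with `mul (τ C) = mul C`, `b (τ C) = b C` and
  `ctr (τ C) t = ctr C (ζ t)`.
-/

open Filter Topology Metric Asymptotics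

namespace H24.LS

namespace D6aux

theorem rot_tendsto {ζ : ℂ} (hζ : ζ ≠ 0) :
    Tendsto (fun t : ℂ => ζ * t) (𝓝[≠] 0) (𝓝[≠] 0) := by
  refine tendsto_nhdsWithin_of_tendsto_nhds_of_eventually_within _ ?_ ?_
  · have h : Tendsto (fun t : ℂ => ζ * t) (𝓝 0) (𝓝 (ζ * 0)) :=
      (continuous_const.mul continuous_id).tendsto 0
    rw [mul_zero] at h
    exact h.mono_left nhdsWithin_le_nhds
  · filter_upwards [self_mem_nhdsWithin] with t ht
    exact mul_ne_zero hζ ht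

theorem card_le {n : ℕ} (a b : Fin n → ℂ) {R K : ℝ}
    (h : ∀ x : ℂ, ‖x‖ < R → ‖∏ l, (x - b l)‖ ≤ K * ‖∏ l, (x - a l)‖) {x0 : ℂ} (hx0 : ‖x0‖ < R) :
    (Finset.univ.filter (fun l => a l = x0)).card ≤
      (Finset.univ.filter (fun l => b l = x0)).card := by
  classical
  by_contra hlt
  rw [not_le] at hlt
  set A := (Finset.univ.filter (fun l => a l = x0)).card with hA
  set B := (Finset.univ.filter (fun l => b l = x0)).card with hB
  have split : ∀ (c : Fin n → ℂ) (x : ℂ), ∏ l, (x - c l) =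
      (x - x0) ^ (Finset.univ.filter (fun l => c l = x0)).card *
        ∏ l ∈ Finset.univ.filter (fun l => ¬ c l = x0), (x - c l) := by
    intro c x
    rw [← Finset.prod_filter_mul_prod_filter_not Finset.univ (fun l => c l = x0)]
    congr 1
    rw [Finset.prod_congr rfl (g := fun _ => x - x0), Finset.prod_const]
    intro l hl
    rw [(Finset.mem_filter.mp hl).2]
  set Q1 : ℂ → ℂ := fun x => ∏ l ∈ Finset.univ.filter (fun l => ¬ b l = x0), (x - b l) with hQ1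
  set P1 : ℂ → ℂ := fun x => ∏ l ∈ Finset.univ.filter (fun l => ¬ a l = x0), (x - a l) with hP1
  have hQc : Continuous Q1 := by
    simp only [hQ1]
    fun_prop
  have hPc : Continuous P1 := by
    simp only [hP1]
    fun_prop
  have hQne : Q1 x0 ≠ 0 := by
    simp only [hQ1]
    refine Finset.prod_ne_zero_iff.mpr fun l hl => ?_
    exact sub_ne_zero.mpr fun h => (Finset.mem_filter.mp hl).2 h.symm
  have hev : ∀ᶠ x in 𝓝[≠] x0, ‖Q1 x‖ ≤ K * (‖x - x0‖ ^ (A - B) * ‖P1 x‖) := by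
    have hball : ∀ᶠ x in 𝓝[≠] x0, ‖x‖ < R :=
      nhdsWithin_le_nhds ((isOpen_lt continuous_norm continuous_const).mem_nhds hx0)
    filter_upwards [hball, self_mem_nhdsWithin] with x hx hne
    have hne' : x - x0 ≠ 0 := sub_ne_zero.mpr hne
    have hpos : 0 < ‖x - x0‖ ^ B := pow_pos (norm_pos_iff.mpr hne') _
    have h1 := h x hx
    rw [split b x, split a x, ← hA, ← hB, norm_mul, norm_mul, norm_pow, norm_pow] at h1
    have h2 : ‖x - x0‖ ^ A = ‖x - x0‖ ^ B * ‖x - x0‖ ^ (A - B) := by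
      rw [← pow_add]
      congr 1
      omega
    rw [h2] at h1
    have h3 : ‖x - x0‖ ^ B * ‖Q1 x‖ ≤ ‖x - x0‖ ^ B * (K * (‖x - x0‖ ^ (A - B) * ‖P1 x‖)) := by
      calc ‖x - x0‖ ^ B * ‖Q1 x‖ ≤ K * (‖x - x0‖ ^ B * ‖x - x0‖ ^ (A - B) * ‖P1 x‖) := h1
        _ = _ := by ring
    exact le_of_mul_le_mul_left h3 hpos
  have t1 : Tendsto (fun x => ‖Q1 x‖) (𝓝[≠] x0) (𝓝 ‖Q1 x0‖) :=
    (hQc.norm.tendsto x0).mono_left nhdsWithin_le_nhds
  have t2 : Tendsto (fun x => K * (‖x - x0‖ ^ (A - B) * ‖P1 x‖)) (𝓝[≠] x0) (𝓝 0) := by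
    have hc : Continuous (fun x => K * (‖x - x0‖ ^ (A - B) * ‖P1 x‖)) := by fun_prop
    have h4 := (hc.tendsto x0).mono_left (nhdsWithin_le_nhds (s := {x0}ᶜ))
    have h5 : K * (‖x0 - x0‖ ^ (A - B) * ‖P1 x0‖) = 0 := by
      rw [sub_self, norm_zero, zero_pow (by omega)]
      ring
    rw [h5] at h4
    exact h4
  have h6 := le_of_tendsto_of_tendsto t1 t2 hev
  exact hQne (norm_le_zero_iff.mp h6)

theorem perm_of_comparable {n : ℕ} (a b : Fin n → ℂ) {R K : ℝ}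
    (h : ∀ x : ℂ, ‖x‖ < R → ‖∏ l, (x - b l)‖ ≤ K * ‖∏ l, (x - a l)‖)
    (h' : ∀ x : ℂ, ‖x‖ < R → ‖∏ l, (x - a l)‖ ≤ K * ‖∏ l, (x - b l)‖)
    (ha : ∀ l, ‖a l‖ < R) (hb : ∀ l, ‖b l‖ < R) :
    ∃ π : Equiv.Perm (Fin n), ∀ l, a (π l) = b l := by
  classical
  have hcard : ∀ x0 : ℂ, Fintype.card {l // b l = x0} = Fintype.card {l // a l = x0} := by
    intro x0
    rw [Fintype.card_subtype, Fintype.card_subtype]
    by_cases hx0 : ‖x0‖ < R
    · exact le_antisymm (card_le b a h' hx0) (card_le a b h hx0)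
    · rw [Finset.filter_false_of_mem, Finset.filter_false_of_mem]
      · intro l _ hl
        exact hx0 (hl ▸ ha l)
      · intro l _ hl
        exact hx0 (hl ▸ hb l)
  refine ⟨Equiv.ofFiberEquiv (f := b) (g := a) (fun c => Fintype.equivOfCardEq (hcard c)), ?_⟩
  intro l
  exact Equiv.ofFiberEquiv_map _ l

theorem exists_freq {α ι : Type*} [Finite ι] {f : Filter α} [f.NeBot] {p : ι → α → Prop}
    (h : ∀ᶠ x in f, ∃ i, p i x) : ∃ i, ∃ᶠ x in f, p i x := by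
  by_contra hcon
  push Not at hcon
  have h1 : ∀ᶠ x in f, ∀ i, ¬ p i x := eventually_all.mpr hcon
  obtain ⟨x, ⟨i, hi⟩, hx⟩ := (h.and h1).exists
  exact hx i hi

theorem exp_le {a b K : ℝ} (h : ∀ᶠ t in 𝓝[≠] (0 : ℂ), ‖t‖ ^ a ≤ K * ‖t‖ ^ b) : b ≤ a := by
  by_contra hab
  rw [not_le] at hab
  have h1 : ∀ᶠ t in 𝓝[≠] (0 : ℂ), 1 ≤ K * ‖t‖ ^ (b - a) := by
    filter_upwards [h, self_mem_nhdsWithin] with t ht ht0
    have hpos : 0 < ‖t‖ := norm_pos_iff.mpr ht0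
    have h2 : ‖t‖ ^ b = ‖t‖ ^ (b - a) * ‖t‖ ^ a := by
      rw [← Real.rpow_add hpos]
      congr 1
      ring
    rw [h2] at ht
    have h3 : 0 < ‖t‖ ^ a := Real.rpow_pos_of_pos hpos a
    have h4 : 1 * ‖t‖ ^ a ≤ (K * ‖t‖ ^ (b - a)) * ‖t‖ ^ a := by
      rw [one_mul, mul_assoc]
      exact ht
    exact le_of_mul_le_mul_right h4 h3
  have h2 : Tendsto (fun t : ℂ => K * ‖t‖ ^ (b - a)) (𝓝[≠] 0) (𝓝 (K * 0)) := by
    refine Tendsto.const_mul K ?_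
    have hc : ContinuousAt (fun t : ℂ => ‖t‖ ^ (b - a)) 0 := by
      refine ContinuousAt.rpow_const continuous_norm.continuousAt (Or.inr (by linarith))
    have h3 := hc.tendsto.mono_left (nhdsWithin_le_nhds (s := {(0 : ℂ)}ᶜ))
    rw [norm_zero, Real.zero_rpow (by linarith)] at h3
    exact h3
  have h3 := ge_of_tendsto h2 h1
  rw [mul_zero] at h3
  linarith

theorem ehat_mono {n : ℕ} (e : ℕ) (γ : Fin n → ℂ → ℂ) (m : Fin n) {σ1 σ2 : ℝ} (h2 : 0 ≤ σ2)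
    (h12 : σ2 ≤ σ1) (t : ℂ) :
    σ1 * Ehat e γ (γ m t) σ2 t ≤ σ2 * Ehat e γ (γ m t) σ1 t := by
  classical
  have key : ∀ σ : ℝ, Ehat e γ (γ m t) σ t = ‖t‖ ^ e *
      (σ * ∏ l ∈ Finset.univ.erase m, (σ + ‖γ m t - γ l t‖)) := by
    intro σ
    unfold Ehat
    rw [← Finset.mul_prod_erase Finset.univ _ (Finset.mem_univ m), sub_self, norm_zero, add_zero]
  rw [key, key]
  have h3 : ∏ l ∈ Finset.univ.erase m, (σ2 + ‖γ m t - γ l t‖) ≤
      ∏ l ∈ Finset.univ.erase m, (σ1 + ‖γ m t - γ l t‖) := by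
    refine Finset.prod_le_prod (fun l _ => ?_) (fun l _ => ?_)
    · positivity
    · linarith
  have h4 : 0 ≤ ‖t‖ ^ e * (σ1 * σ2) := by
    have : 0 ≤ σ1 := h2.trans h12
    positivity
  calc σ1 * (‖t‖ ^ e * (σ2 * ∏ l ∈ Finset.univ.erase m, (σ2 + ‖γ m t - γ l t‖)))
      = ‖t‖ ^ e * (σ1 * σ2) * ∏ l ∈ Finset.univ.erase m, (σ2 + ‖γ m t - γ l t‖) := by ring
    _ ≤ ‖t‖ ^ e * (σ1 * σ2) * ∏ l ∈ Finset.univ.erase m, (σ1 + ‖γ m t - γ l t‖) :=
        mul_le_mul_of_nonneg_left h3 h4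
    _ = _ := by ring

theorem ehat_rot {n : ℕ} (e : ℕ) (γ : Fin n → ℂ → ℂ) {ζ t : ℂ} (hζ : ‖ζ‖ = 1)
    (π : Equiv.Perm (Fin n)) (h : ∀ l, γ (π l) t = γ l (ζ * t)) (l : Fin n) (σ : ℝ) :
    Ehat e γ (γ l (ζ * t)) σ (ζ * t) = Ehat e γ (γ (π l) t) σ t := by
  unfold Ehat
  rw [norm_mul, hζ, one_mul]
  congr 1
  rw [← Equiv.prod_comp π (fun l' => σ + ‖γ (π l) t - γ l' t‖)]
  refine Finset.prod_congr rfl fun l' _ => ?_
  rw [h l, h l']

end D6aux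

open D6aux

theorem arc_perm {F : ℂ × ℂ → ℂ} {k n N : ℕ} {u : ℂ} {γ : Fin n → ℂ → ℂ} (h : PCh F k n N u γ)
    (ζ : ℂ) (hζ : ζ ^ N = 1) :
    ∃ π : Equiv.Perm (Fin n), ∀ l, ∀ᶠ t in 𝓝 (0 : ℂ), γ (π l) t = γ l (ζ * t) := by
  classical
  have hN0 : N ≠ 0 := by have := h.hN; omega
  have hζn : ‖ζ‖ = 1 := Complex.norm_eq_one_of_pow_eq_one hζ hN0
  have hζ0 : ζ ≠ 0 := by
    rintro rfl
    rw [norm_zero] at hζn
    exact zero_ne_one hζn
  have hpow : ∀ t : ℂ, (ζ * t) ^ N = t ^ N := by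
    intro t
    rw [mul_pow, hζ, one_mul]
  have hu : 0 < ‖u‖ := norm_pos_iff.mpr h.hu
  obtain ⟨δ, hδ, hfac⟩ := h.fac (‖u‖ / 2) (by positivity)
  have hsm : ∀ l, ∀ᶠ t in 𝓝[≠] (0 : ℂ), ‖γ l t‖ < δ * ‖t‖ ^ N := by
    intro l
    filter_upwards [(h.γsm l).def (show (0 : ℝ) < δ / 2 by positivity), self_mem_nhdsWithin]
      with t ht ht0
    have hpos : 0 < ‖t‖ ^ N := pow_pos (norm_pos_iff.mpr ht0) N
    rw [norm_pow] at ht
    nlinarith
  have hsm' : ∀ l, ∀ᶠ t in 𝓝[≠] (0 : ℂ), ‖γ l (ζ * t)‖ < δ * ‖t‖ ^ N := by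
    intro l
    filter_upwards [(rot_tendsto hζ0).eventually (hsm l)] with t ht
    rw [norm_mul, hζn, one_mul] at ht
    exact ht
  have hδev : ∀ᶠ t in 𝓝[≠] (0 : ℂ), ‖t‖ < δ := by
    refine nhdsWithin_le_nhds ?_
    filter_upwards [ball_mem_nhds (0 : ℂ) hδ] with t ht
    rwa [mem_ball_zero_iff] at ht
  have hmain : ∀ᶠ t in 𝓝[≠] (0 : ℂ), ∃ π : Equiv.Perm (Fin n), ∀ l, γ (π l) t = γ l (ζ * t) := by
    filter_upwards [eventually_all.mpr hsm, eventually_all.mpr hsm', hδev, self_mem_nhdsWithin]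
      with t h1 h2 h3 h4
    have ht0 : 0 < ‖t‖ := norm_pos_iff.mpr h4
    have key : ∀ x : ℂ, ‖x‖ < δ * ‖t‖ ^ N → ∀ s : ℂ, s ^ N = t ^ N → ‖s‖ = ‖t‖ →
        ‖u‖ * ‖t‖ ^ (N * (k - 1 - n)) * ‖∏ l, (x - γ l s)‖ ≤ 2 * ‖dx F (x, t ^ N)‖ ∧
        2 * ‖dx F (x, t ^ N)‖ ≤ 3 * (‖u‖ * ‖t‖ ^ (N * (k - 1 - n)) * ‖∏ l, (x - γ l s)‖) := by
      intro x hx s hs hsn
      have h5 := hfac x s (by rw [hsn]; exact ht0) (by rw [hsn]; exact h3) (by rw [hsn]; exact hx)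
      rw [hs, hsn, ← norm_prod] at h5
      have h6 : ‖u * s ^ (N * (k - 1 - n)) * ∏ l, (x - γ l s)‖ =
          ‖u‖ * ‖t‖ ^ (N * (k - 1 - n)) * ‖∏ l, (x - γ l s)‖ := by
        rw [norm_mul, norm_mul, norm_pow, hsn]
      set Y := ‖u‖ * ‖t‖ ^ (N * (k - 1 - n)) * ‖∏ l, (x - γ l s)‖ with hY
      have h7 : ‖u‖ / 2 * (‖t‖ ^ (N * (k - 1 - n)) * ‖∏ l, (x - γ l s)‖) = Y / 2 := by
        rw [hY]; ring
      rw [h7] at h5
      have h8 := norm_sub_norm_le (dx F (x, t ^ N)) (u * s ^ (N * (k - 1 - n)) * ∏ l, (x - γ l s))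
      have h9 := norm_sub_norm_le (u * s ^ (N * (k - 1 - n)) * ∏ l, (x - γ l s)) (dx F (x, t ^ N))
      rw [norm_sub_rev] at h9
      rw [h6] at h8 h9
      constructor <;> linarith
    have hE : 0 < ‖u‖ * ‖t‖ ^ (N * (k - 1 - n)) := by positivity
    have hn : ‖ζ * t‖ = ‖t‖ := by rw [norm_mul, hζn, one_mul]
    refine perm_of_comparable (fun l => γ l t) (fun l => γ l (ζ * t)) (R := δ * ‖t‖ ^ N) (K := 3)
      ?_ ?_ h1 h2
    · intro x hx
      have k1 := (key x hx (ζ * t) (hpow t) hn).1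
      have k2 := (key x hx t rfl rfl).2
      have k3 : ‖u‖ * ‖t‖ ^ (N * (k - 1 - n)) * ‖∏ l, (x - γ l (ζ * t))‖ ≤
          ‖u‖ * ‖t‖ ^ (N * (k - 1 - n)) * (3 * ‖∏ l, (x - γ l t)‖) := by
        linarith
      exact le_of_mul_le_mul_left k3 hE
    · intro x hx
      have k1 := (key x hx (ζ * t) (hpow t) hn).2
      have k2 := (key x hx t rfl rfl).1
      have k3 : ‖u‖ * ‖t‖ ^ (N * (k - 1 - n)) * ‖∏ l, (x - γ l t)‖ ≤
          ‖u‖ * ‖t‖ ^ (N * (k - 1 - n)) * (3 * ‖∏ l, (x - γ l (ζ * t))‖) := by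
        linarith
      exact le_of_mul_le_mul_left k3 hE
  obtain ⟨π, hπ⟩ := exists_freq hmain
  refine ⟨π, fun l => ?_⟩
  have han : AnalyticAt ℂ (fun t => γ l (ζ * t)) 0 := by
    have h1 : AnalyticAt ℂ (γ l) (ζ * 0) := by
      rw [mul_zero]
      exact h.γan l
    exact h1.comp (f := fun t : ℂ => ζ * t) (by fun_prop)
  exact ((h.γan (π l)).frequently_eq_iff_eventually_eq han).mp (hπ.mono fun t ht => ht l)

namespace D6aux

theorem b_inv {F : ℂ × ℂ → ℂ} {k n N c : ℕ} {u : ℂ} {γ : Fin n → ℂ → ℂ} {cl : Fin n → Fin c}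
    {b : Fin c → ℝ} (hP : PCh F k n N u γ) (h : PreClu F k n N γ c cl b)
    {ζ : ℂ} (hζ : ζ ^ N = 1) {π : Equiv.Perm (Fin n)}
    (hπ : ∀ l, ∀ᶠ t in 𝓝 (0 : ℂ), γ (π l) t = γ l (ζ * t)) (l : Fin n) :
    b (cl (π l)) = b (cl l) := by
  have hN0 : N ≠ 0 := by have := hP.hN; omega
  have hζn : ‖ζ‖ = 1 := Complex.norm_eq_one_of_pow_eq_one hζ hN0
  have hζ0 : ζ ≠ 0 := by
    rintro rfl
    rw [norm_zero] at hζn
    exact zero_ne_one hζn
  have hall : ∀ᶠ t in 𝓝[≠] (0 : ℂ), ∀ l, γ (π l) t = γ l (ζ * t) :=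
    nhdsWithin_le_nhds (eventually_all.mpr hπ)
  have hone : ∀ᶠ t in 𝓝[≠] (0 : ℂ), ‖t‖ < 1 := by
    refine nhdsWithin_le_nhds ?_
    filter_upwards [ball_mem_nhds (0 : ℂ) one_pos] with t ht
    rwa [mem_ball_zero_iff] at ht
  obtain ⟨c1, hc1, c2, hc2, hb1⟩ := h.bal l
  obtain ⟨d1, hd1, d2, hd2, hb2⟩ := h.bal (π l)
  have hb1' := (rot_tendsto hζ0).eventually hb1
  have hmain : ∀ᶠ t in 𝓝[≠] (0 : ℂ), ∃ V : ℝ, 0 ≤ V ∧
      (c1 * V ≤ Ehat (N * (k - 1 - n)) γ (γ (π l) t) (‖t‖ ^ (b (cl l))) t ∧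
        Ehat (N * (k - 1 - n)) γ (γ (π l) t) (‖t‖ ^ (b (cl l))) t ≤ c2 * V) ∧
      (d1 * V ≤ Ehat (N * (k - 1 - n)) γ (γ (π l) t) (‖t‖ ^ (b (cl (π l)))) t ∧
        Ehat (N * (k - 1 - n)) γ (γ (π l) t) (‖t‖ ^ (b (cl (π l)))) t ≤ d2 * V) := by
    filter_upwards [hall, hb1', hb2] with t h1 h2 h3
    refine ⟨‖dy F (γ (π l) t, t ^ N)‖, norm_nonneg _, ?_, h3⟩
    have h4 : (ζ * t) ^ N = t ^ N := by rw [mul_pow, hζ, one_mul]
    have h5 : ‖ζ * t‖ = ‖t‖ := by rw [norm_mul, hζn, one_mul]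
    rw [h4, h5, ehat_rot _ γ hζn π h1 l, ← h1 l] at h2
    exact h2
  have hposE : ∀ (t : ℂ) (m : Fin n) (σ : ℝ), 0 < ‖t‖ → 0 < σ →
      0 < Ehat (N * (k - 1 - n)) γ (γ m t) σ t := by
    intro t m σ ht hσ
    unfold Ehat
    refine mul_pos (pow_pos ht _) (Finset.prod_pos fun l _ => ?_)
    positivity
  rcases le_total (b (cl l)) (b (cl (π l))) with hle | hle
  · refine le_antisymm ?_ hle
    refine exp_le (K := c2 / d1) ?_
    filter_upwards [hmain, hone, self_mem_nhdsWithin] with t ⟨V, hV, h1, h2⟩ ht1 ht0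
    have ht : 0 < ‖t‖ := norm_pos_iff.mpr ht0
    have hσ1 : 0 < ‖t‖ ^ (b (cl l)) := Real.rpow_pos_of_pos ht _
    have hσ2 : 0 < ‖t‖ ^ (b (cl (π l))) := Real.rpow_pos_of_pos ht _
    have hσ : ‖t‖ ^ (b (cl (π l))) ≤ ‖t‖ ^ (b (cl l)) :=
      Real.rpow_le_rpow_of_exponent_ge ht ht1.le hle
    have h3 := ehat_mono (N * (k - 1 - n)) γ (π l) hσ2.le hσ t
    have hE2 := hposE t (π l) _ ht hσ2
    set E1 := Ehat (N * (k - 1 - n)) γ (γ (π l) t) (‖t‖ ^ (b (cl l))) t with hE1def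
    set E2 := Ehat (N * (k - 1 - n)) γ (γ (π l) t) (‖t‖ ^ (b (cl (π l)))) t with hE2def
    set σ1 := ‖t‖ ^ (b (cl l)) with hσ1def
    set σ2 := ‖t‖ ^ (b (cl (π l))) with hσ2def
    have h4 : V ≤ E2 / d1 := by
      rw [le_div_iff₀ hd1]
      linarith [h2.1, mul_comm V d1]
    have h5 : E1 ≤ c2 / d1 * E2 := by
      calc E1 ≤ c2 * V := h1.2
        _ ≤ c2 * (E2 / d1) := mul_le_mul_of_nonneg_left h4 hc2.le
        _ = c2 / d1 * E2 := by ring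
    have h6 : σ1 * E2 ≤ (c2 / d1 * σ2) * E2 := by
      calc σ1 * E2 ≤ σ2 * E1 := h3
        _ ≤ σ2 * (c2 / d1 * E2) := mul_le_mul_of_nonneg_left h5 hσ2.le
        _ = _ := by ring
    exact le_of_mul_le_mul_right h6 hE2
  · refine le_antisymm hle ?_
    refine exp_le (K := d2 / c1) ?_
    filter_upwards [hmain, hone, self_mem_nhdsWithin] with t ⟨V, hV, h1, h2⟩ ht1 ht0
    have ht : 0 < ‖t‖ := norm_pos_iff.mpr ht0
    have hσ1 : 0 < ‖t‖ ^ (b (cl l)) := Real.rpow_pos_of_pos ht _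
    have hσ2 : 0 < ‖t‖ ^ (b (cl (π l))) := Real.rpow_pos_of_pos ht _
    have hσ : ‖t‖ ^ (b (cl l)) ≤ ‖t‖ ^ (b (cl (π l))) :=
      Real.rpow_le_rpow_of_exponent_ge ht ht1.le hle
    have h3 := ehat_mono (N * (k - 1 - n)) γ (π l) hσ1.le hσ t
    have hE1 := hposE t (π l) _ ht hσ1
    set E1 := Ehat (N * (k - 1 - n)) γ (γ (π l) t) (‖t‖ ^ (b (cl l))) t with hE1def
    set E2 := Ehat (N * (k - 1 - n)) γ (γ (π l) t) (‖t‖ ^ (b (cl (π l)))) t with hE2def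
    set σ1 := ‖t‖ ^ (b (cl l)) with hσ1def
    set σ2 := ‖t‖ ^ (b (cl (π l))) with hσ2def
    have h4 : V ≤ E1 / c1 := by
      rw [le_div_iff₀ hc1]
      linarith [h1.1, mul_comm V c1]
    have h5 : E2 ≤ d2 / c1 * E1 := by
      calc E2 ≤ d2 * V := h2.2
        _ ≤ d2 * (E1 / c1) := mul_le_mul_of_nonneg_left h4 hd2.le
        _ = d2 / c1 * E1 := by ring
    have h6 : σ2 * E1 ≤ (d2 / c1 * σ1) * E1 := by
      calc σ2 * E1 ≤ σ1 * E2 := h3
        _ ≤ σ1 * (d2 / c1 * E1) := mul_le_mul_of_nonneg_left h5 hσ1.le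
        _ = _ := by ring
    exact le_of_mul_le_mul_right h6 hE1

theorem cl_inv {F : ℂ × ℂ → ℂ} {k n N c : ℕ} {u : ℂ} {γ : Fin n → ℂ → ℂ} {cl : Fin n → Fin c}
    {b : Fin c → ℝ} (hP : PCh F k n N u γ) (h : PreClu F k n N γ c cl b)
    {ζ : ℂ} (hζ : ζ ^ N = 1) {π : Equiv.Perm (Fin n)}
    (hπ : ∀ l, ∀ᶠ t in 𝓝 (0 : ℂ), γ (π l) t = γ l (ζ * t)) {l l' : Fin n} (hll : cl l = cl l') :
    cl (π l) = cl (π l') := by
  by_contra hne
  have hN0 : N ≠ 0 := by have := hP.hN; omega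
  have hζn : ‖ζ‖ = 1 := Complex.norm_eq_one_of_pow_eq_one hζ hN0
  have hζ0 : ζ ≠ 0 := by
    rintro rfl
    rw [norm_zero] at hζn
    exact zero_ne_one hζn
  have h1 := (h.same l l' hll).comp_tendsto (rot_tendsto hζ0)
  have h2 : (fun t => γ (π l) t - γ (π l') t) =O[𝓝[≠] 0] (fun t : ℂ => ‖t‖ ^ (b (cl (π l)))) := by
    rw [b_inv hP h hζ hπ l]
    refine h1.congr' ?_ ?_
    · filter_upwards [nhdsWithin_le_nhds (hπ l), nhdsWithin_le_nhds (hπ l')] with t e1 e2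
      simp only [Function.comp]
      rw [e1, e2]
    · filter_upwards with t
      simp only [Function.comp]
      rw [norm_mul, hζn, one_mul]
  have h3 := (h.diff (π l) (π l') hne).trans_isBigO h2
  have h4 := h3.def (show (0 : ℝ) < 1 / 2 by norm_num)
  obtain ⟨t, ht, ht0⟩ := (h4.and (self_mem_nhdsWithin (a := (0 : ℂ)) (s := {0}ᶜ))).exists
  have hpos : 0 < ‖t‖ ^ (b (cl (π l))) := Real.rpow_pos_of_pos (norm_pos_iff.mpr ht0) _
  rw [Real.norm_of_nonneg hpos.le] at ht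
  linarith

end D6aux

theorem clu_inv {F : ℂ × ℂ → ℂ} {k n N c : ℕ} {u : ℂ} {γ : Fin n → ℂ → ℂ} {cl : Fin n → Fin c}
    {b : Fin c → ℝ} (hP : PCh F k n N u γ) (h : PreClu F k n N γ c cl b)
    (ζ : ℂ) (hζ : ζ ^ N = 1) :
    ∃ τ : Equiv.Perm (Fin c), ∀ C, mul cl (τ C) = mul cl C ∧ b (τ C) = b C ∧
      ∀ᶠ t in 𝓝 (0 : ℂ), ctr cl γ (τ C) t = ctr cl γ C (ζ * t) := by
  classical
  obtain ⟨π, hπ⟩ := arc_perm hP ζ hζ
  have hN0 : N ≠ 0 := by have := hP.hN; omega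
  have hζn : ‖ζ‖ = 1 := Complex.norm_eq_one_of_pow_eq_one hζ hN0
  have hζ0 : ζ ≠ 0 := by
    rintro rfl
    rw [norm_zero] at hζn
    exact zero_ne_one hζn
  -- choose a representative of every cluster
  choose rep hrep using h.surj
  set T : Fin c → Fin c := fun C => cl (π (rep C)) with hT
  have hTcl : ∀ l, T (cl l) = cl (π l) := by
    intro l
    exact cl_inv hP h hζ hπ (hrep (cl l))
  have hTsurj : Function.Surjective T := by
    intro C'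
    obtain ⟨l', hl'⟩ := h.surj C'
    refine ⟨cl (π.symm l'), ?_⟩
    rw [hTcl, Equiv.apply_symm_apply, hl']
  have hTbij : Function.Bijective T :=
    ⟨Finite.injective_iff_surjective.mpr hTsurj, hTsurj⟩
  have hfil : ∀ C, (Finset.univ.filter (fun l => cl l = T C)) =
      (Finset.univ.filter (fun l => cl l = C)).map π.toEmbedding := by
    intro C
    ext l
    simp only [Finset.mem_filter, Finset.mem_univ, true_and, Finset.mem_map,
      Equiv.coe_toEmbedding]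
    constructor
    · intro hl
      refine ⟨π.symm l, ?_, Equiv.apply_symm_apply _ _⟩
      apply hTbij.1
      rw [hTcl, Equiv.apply_symm_apply, hl]
    · rintro ⟨m, hm, rfl⟩
      rw [← hTcl, hm]
  refine ⟨Equiv.ofBijective T hTbij, fun C => ⟨?_, ?_, ?_⟩⟩
  · show mul cl (T C) = mul cl C
    unfold mul
    rw [hfil C, Finset.card_map]
  · show b (T C) = b C
    have h1 := b_inv hP h hζ hπ (rep C)
    rw [hrep] at h1
    exact h1
  · have hall : ∀ᶠ t in 𝓝 (0 : ℂ), ∀ l, γ (π l) t = γ l (ζ * t) := eventually_all.mpr hπ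
    filter_upwards [hall] with t ht
    show ctr cl γ (T C) t = ctr cl γ C (ζ * t)
    unfold ctr mul
    rw [hfil C, Finset.card_map, Finset.sum_map]
    congr 1
    refine Finset.sum_congr rfl fun l _ => ?_
    exact ht l

end H24.LS
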