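import Pool.Agent.H24.LS.P0
import Pool.Agent.H24.LS.D3
import Pool.Agent.H24.LS.D4
import Pool.Agent.H24.LS.D5
import Pool.Agent.H24.LS.D6

/-!
# D7: assembly of the cluster structure (uses the statements of D3 - D6; proved here)
-/

open Filter Topology Metric Asymptotics

namespace H24.LS

theorem clu_of_preclu {F : ℂ × ℂ → ℂ} {k n N c : ℕ} {u : ℂ} {γ : Fin n → ℂ → ℂ}
    {cl : Fin n → Fin c} {b : Fin c → ℝ} (hP : PCh F k n N u γ) (h : PreClu F k n N γ c cl b) :
    ∃ (a : Fin c → ℂ) (D : Fin c → ℕ),
      Clu F k n N u c (mul cl) b (ctr cl γ) (fun C => vC F N (ctr cl γ C)) a D := by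
  choose D a hD ha hV hv using V_ord hP h
  exact ⟨a, D,
    { an := hP.an
      hk := hP.hk
      hN := hP.hN
      hu := hP.hu
      hm := mul_pos' cl h.surj
      hmn := sum_mul cl
      hb := h.hb
      gan := ctr_an cl γ hP.γan
      gsm := ctr_sm N cl γ hP.γsm
      sep := ctr_sep h
      hv := fun C t => rfl
      hD := hD
      ha := ha
      Vord := hV
      vord := hv
      bal := clu_bal hP h
      F1 := clu_F1 hP h
      F2 := clu_F2 hP h
      F3 := clu_F3 hP h
      small := clu_small hP h
      inv := clu_inv hP h }⟩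

end H24.LS
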