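import Pool.Agent.H24.LS.Base

/-!
# E1: a Lipschitz lift of an entire function through an entire function is linear

Proof.  Let `Z = {z | Q' (φ z) = 0}`.  For `z ∈ Z` the value `P z = Q (φ z)` lies in the finite set
`Q '' {Q' = 0}`; `P` is entire and not constant, so each fibre of `P` is countable (identity
theorem: the zeros of a nonzero entire function have no accumulation point, a closed discrete
subset of `ℂ` is countable).  Hence `Z` is countable (and closed).
If `z ∉ Z`: `Q` has a local inverse `R` at `φ z` (holomorphic, `HasStrictDerivAt.to_localInverse`),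
by continuity of `φ` we have `φ w = R (Q (φ w)) = R (P w)` for `w` near `z`, so `φ` is complex
differentiable at `z`.
`φ` is continuous (Lipschitz) and differentiable off a countable set, hence entire:
`Complex.hasFPowerSeriesOnBall_of_differentiable_off_countable` (or the Cauchy integral formula
off a countable set).
`‖φ'‖ ≤ L` by the Lipschitz condition, `φ'` is entire and bounded, hence constant (Liouville), so
`φ z = a * z` (as `φ 0 = 0`).  `a ≠ 0` because otherwise `P` would be constant.
-/

open Filter Topology Metric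

namespace H24.LS

/-- the fibres of a nonconstant entire function are countable -/
theorem E1_fibre (P : ℂ → ℂ) (hP : Differentiable ℂ P) (hPn : ∃ z, P z ≠ P 0) (c : ℂ) :
    {z | P z = c}.Countable := by
  have hA : AnalyticOnNhd ℂ (fun z => P z) Set.univ :=
    (Complex.analyticOnNhd_univ_iff_differentiable.2 hP)
  have hC : AnalyticOnNhd ℂ (fun _ : ℂ => c) Set.univ := analyticOnNhd_const
  have hdisc : DiscreteTopology {z | P z = c} := by
    rw [discreteTopology_subtype_iff]
    intro z hz
    rw [inf_principal_eq_bot]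
    rcases (hA z (Set.mem_univ z)).eventually_eq_or_eventually_ne (hC z (Set.mem_univ z)) with h | h
    · exfalso
      have h2 := hA.eqOn_of_preconnected_of_eventuallyEq hC isPreconnected_univ (Set.mem_univ z) h
      obtain ⟨w, hw⟩ := hPn
      apply hw
      have e1 : P w = c := h2 (Set.mem_univ w)
      have e2 : P 0 = c := h2 (Set.mem_univ 0)
      rw [e1, e2]
    · exact h
  exact IsLindelof.countable (HereditarilyLindelofSpace.isLindelof _) hdisc

/-- differentiability of the lift off the critical points -/
theorem E1_diff (P Q φ : ℂ → ℂ) (hP : Differentiable ℂ P) (hQ : Differentiable ℂ Q)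
    (L : ℝ) (hφ : ∀ z w, ‖φ z - φ w‖ ≤ L * ‖z - w‖) (h : ∀ z, Q (φ z) = P z) {z : ℂ}
    (hz : deriv Q (φ z) ≠ 0) : DifferentiableAt ℂ φ z := by
  have hcont : ContinuousAt φ z := by
    rw [Metric.continuousAt_iff]
    intro ε hε
    refine ⟨ε / (|L| + 1), by positivity, fun w hw => ?_⟩
    rw [dist_eq_norm] at hw ⊢
    have h1 := hφ w z
    have h2 : L * ‖w - z‖ ≤ (|L| + 1) * ‖w - z‖ := by
      apply mul_le_mul_of_nonneg_right _ (norm_nonneg _)
      linarith [le_abs_self L]
    have h3 : (|L| + 1) * ‖w - z‖ < ε := by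
      rw [lt_div_iff₀ (by positivity)] at hw
      linarith
    linarith
  have h1 : (fun w => Q (φ w) - Q (φ z) - (φ w - φ z) * deriv Q (φ z)) =o[𝓝 z]
      fun w => φ w - φ z := by
    have := (hQ (φ z)).hasDerivAt.isLittleO
    have h2 := this.comp_tendsto hcont.tendsto
    simpa [Function.comp_def, smul_eq_mul] using h2
  have hO : (fun w => φ w - φ z) =O[𝓝 z] fun w => w - z :=
    Asymptotics.IsBigO.of_bound L (Eventually.of_forall fun w => hφ w z)
  have h2 : (fun w => P w - P z - (φ w - φ z) * deriv Q (φ z)) =o[𝓝 z] fun w => w - z := by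
    have := h1.trans_isBigO hO
    simpa [h] using this
  have h3 : (fun w => P w - P z - (w - z) * deriv P z) =o[𝓝 z] fun w => w - z := by
    have := (hP z).hasDerivAt.isLittleO
    simpa [smul_eq_mul] using this
  have h4 : HasDerivAt φ (deriv P z / deriv Q (φ z)) z := by
    rw [hasDerivAt_iff_isLittleO]
    have h5 := (h3.sub h2).const_mul_left ((deriv Q (φ z))⁻¹)
    refine h5.congr_left ?_
    intro w
    rw [smul_eq_mul]
    field_simp
    ring
  exact h4.differentiableAt

theorem lift_linear (P Q φ : ℂ → ℂ) (hP : Differentiable ℂ P) (hQ : Differentiable ℂ Q)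
    (hPn : ∃ z, P z ≠ P 0) (hQd : {z | deriv Q z = 0}.Finite)
    (L : ℝ) (hφ : ∀ z w, ‖φ z - φ w‖ ≤ L * ‖z - w‖) (h0 : φ 0 = 0)
    (h : ∀ z, Q (φ z) = P z) :
    ∃ a : ℂ, a ≠ 0 ∧ ‖a‖ ≤ L ∧ ∀ z, φ z = a * z := by
  have hL0 : 0 ≤ L := by
    have := hφ 1 0
    rw [sub_zero (1 : ℂ), norm_one, mul_one] at this
    exact (norm_nonneg _).trans this
  have hlip : LipschitzWith L.toNNReal φ := by
    apply LipschitzWith.of_dist_le_mul
    intro x y
    rw [dist_eq_norm, dist_eq_norm, Real.coe_toNNReal L hL0]
    exact hφ x y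
  -- the critical set
  have hZ : {z | deriv Q (φ z) = 0}.Countable := by
    have h1 : {z | deriv Q (φ z) = 0} ⊆ ⋃ c ∈ Q '' {z | deriv Q z = 0}, {z | P z = c} := by
      intro z hz
      simp only [Set.mem_iUnion]
      exact ⟨P z, ⟨φ z, hz, h z⟩, rfl⟩
    refine Set.Countable.mono h1 ?_
    exact Set.Countable.biUnion (hQd.image Q).countable fun c _ => E1_fibre P hP hPn c
  have hd : Differentiable ℂ φ := by
    intro c
    have h1 := Complex.hasFPowerSeriesOnBall_of_differentiable_off_countable (R := 1) (c := c)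
      (f := φ) hZ hlip.continuous.continuousOn
      (fun z hz => E1_diff P Q φ hP hQ L hφ h hz.2) (by norm_num)
    exact h1.hasFPowerSeriesAt.analyticAt.differentiableAt
  have hb : ∀ z, ‖deriv φ z‖ ≤ L := by
    intro z
    have := norm_deriv_le_of_lipschitz (x₀ := z) hlip
    rwa [Real.coe_toNNReal L hL0] at this
  have hdd : Differentiable ℂ (deriv φ) := by
    exact (Complex.analyticOnNhd_univ_iff_differentiable.1
      (Complex.analyticOnNhd_univ_iff_differentiable.2 hd).deriv)
  have hconst : ∀ z, deriv φ z = deriv φ 0 := by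
    intro z
    apply Differentiable.apply_eq_apply_of_bounded hdd
    rw [isBounded_iff_forall_norm_le]
    refine ⟨L, ?_⟩
    rintro _ ⟨w, rfl⟩
    exact hb w
  have hlin : ∀ z, φ z = deriv φ 0 * z := by
    intro z
    have hg : ∀ w, HasDerivAt (fun w => φ w - deriv φ 0 * w) 0 w := by
      intro w
      have h1 := (hd w).hasDerivAt.sub ((hasDerivAt_id w).const_mul (deriv φ 0))
      rw [hconst w, mul_one, sub_self] at h1
      exact h1
    have h2 := is_const_of_deriv_eq_zero (fun w => (hg w).differentiableAt)
      (fun w => (hg w).deriv) z 0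
    simp only [h0, mul_zero, sub_zero] at h2
    exact sub_eq_zero.1 h2
  refine ⟨deriv φ 0, ?_, hb 0, hlin⟩
  intro ha
  obtain ⟨z, hz⟩ := hPn
  apply hz
  rw [← h z, ← h 0, hlin z, ha, h0]
  simp

end H24.LS
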