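import Pool.Agent.H24.LS.Base

/-!
# E2: the primitive of a product of affine functions, and its dependence on the parameters

`prim w A B z = ∫_0^1 w * ∏_l (A_l * (s z) + B_l) * z ds`.

* `prim_hasDerivAt`: it is a primitive of `w * ∏ (A_l z + B_l)`.  (E.g. the integrand is a
  polynomial; by the fundamental theorem along `s ↦ s z`, or: an entire function has a primitive
  (it is a polynomial, expand it), the primitive `P0` with `P0 0 = 0` satisfies
  `P0 z = ∫_0^1 P0' (s z) z ds` by `intervalIntegral.integral_eq_sub_of_hasDerivAt`.)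
* `prim_unique`.
* `prim_continuous`: joint continuity in all variables
  (`intervalIntegral.continuous_parametric_intervalIntegral_of_continuous'` or similar).
-/

open Filter Topology Metric

namespace H24.LS

noncomputable def prim {n : ℕ} (w : ℂ) (A B : Fin n → ℂ) (z : ℂ) : ℂ :=
  ∫ s in (0 : ℝ)..1, w * (∏ l, (A l * ((s : ℂ) * z) + B l)) * z

theorem prim_zero {n : ℕ} (w : ℂ) (A B : Fin n → ℂ) : prim w A B 0 = 0 := by
  simp [prim]

private theorem E2_poly (q : Polynomial ℂ) : ∃ p : Polynomial ℂ, Polynomial.derivative p = q := by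
  induction q using Polynomial.induction_on' with
  | add p q hp hq =>
    obtain ⟨a, ha⟩ := hp
    obtain ⟨b, hb⟩ := hq
    exact ⟨a + b, by rw [map_add, ha, hb]⟩
  | monomial n a =>
    refine ⟨Polynomial.monomial (n + 1) (a / (n + 1)), ?_⟩
    rw [Polynomial.derivative_monomial, Nat.add_sub_cancel]
    congr 1
    have : (n : ℂ) + 1 ≠ 0 := by exact_mod_cast Nat.succ_ne_zero n
    push_cast
    field_simp

private theorem E2_cont {n : ℕ} (w : ℂ) (A B : Fin n → ℂ) (z : ℂ) :
    Continuous (fun s : ℝ => w * (∏ l, (A l * ((s : ℂ) * z) + B l)) * z) := by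
  fun_prop

private theorem E2_ftc {n : ℕ} (w : ℂ) (A B : Fin n → ℂ) (P : ℂ → ℂ)
    (hP : ∀ z, HasDerivAt P (w * ∏ l, (A l * z + B l)) z) (z : ℂ) :
    prim w A B z = P z - P 0 := by
  have h1 : ∀ s ∈ Set.uIcc (0 : ℝ) 1, HasDerivAt (fun s : ℝ => P ((s : ℂ) * z))
      (w * (∏ l, (A l * ((s : ℂ) * z) + B l)) * z) s := by
    intro s _
    have h2 : HasDerivAt (fun s : ℂ => s * z) z (s : ℂ) := by
      have := (hasDerivAt_id (s : ℂ)).mul_const z
      rw [one_mul] at this
      exact this
    have h3 := (hP ((s : ℂ) * z)).comp (s : ℂ) h2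
    exact h3.comp_ofReal
  have h4 := intervalIntegral.integral_eq_sub_of_hasDerivAt h1
    ((E2_cont w A B z).intervalIntegrable _ _)
  unfold prim
  rw [h4]
  simp

theorem prim_hasDerivAt {n : ℕ} (w : ℂ) (A B : Fin n → ℂ) (z : ℂ) :
    HasDerivAt (prim w A B) (w * ∏ l, (A l * z + B l)) z := by
  obtain ⟨p, hp⟩ := E2_poly (Polynomial.C w * ∏ l, (Polynomial.C (A l) * Polynomial.X +
    Polynomial.C (B l)))
  have h1 : ∀ z, HasDerivAt (fun z => p.eval z) (w * ∏ l, (A l * z + B l)) z := by
    intro z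
    have h2 := p.hasDerivAt z
    rw [hp] at h2
    simpa [Polynomial.eval_prod] using h2
  have h3 : prim w A B = fun z => p.eval z - p.eval 0 := by
    funext z
    exact E2_ftc w A B _ h1 z
  rw [h3]
  exact (h1 z).sub_const _

theorem prim_unique {n : ℕ} (w : ℂ) (A B : Fin n → ℂ) (P : ℂ → ℂ)
    (hP : ∀ z, HasDerivAt P (w * ∏ l, (A l * z + B l)) z) (h0 : P 0 = 0) :
    P = prim w A B := by
  funext z
  rw [E2_ftc w A B P hP z, h0, sub_zero]

theorem prim_continuous {n : ℕ} :
    Continuous (fun q : ℂ × (Fin n → ℂ) × (Fin n → ℂ) × ℂ => prim q.1 q.2.1 q.2.2.1 q.2.2.2) := by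
  unfold prim
  apply intervalIntegral.continuous_parametric_intervalIntegral_of_continuous'
  fun_prop

end H24.LS
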