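import Pool.Agent.H24.LS.Base

/-!
# E3: normalised products of affine factors: lower bounds, and counting of roots

Throughout `‖A l‖ + ‖B l‖ = 1` for every `l`.

* `prod_lower`: there is `c = c(n) > 0` such that every normalised product has a point `z` with
  `‖z‖ = 1` and `‖∏ (A_l z + B_l)‖ ≥ c`.
  Proof.  For each `l` with `‖A_l‖ ≥ 1/2` let `r_l = -B_l/A_l`; choose among the `n+1` points
  `exp (2 π i k/(n+1))` (mutual distance `≥ 2 sin(π/(n+1)) =: 2 η`) one whose distance to every such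
  `r_l` is `≥ η` (pigeonhole: each root is at distance `< η` of at most one of the points); then
  `‖A_l z + B_l‖ ≥ η/2` for those `l`.  If `‖A_l‖ < 1/2` the factor is `≥ ‖B_l‖ - ‖A_l‖ = 1 - 2‖A_l‖`;
  this is small when `‖A_l‖` is close to `1/2`, so split at `‖A_l‖ ≥ 1/4` instead (then
  `‖A_l z + B_l‖ = ‖A_l‖ ‖z - r_l‖ ≥ η/4`) and `‖A_l‖ < 1/4` (factor `≥ 1/2`).
  (Alternatively by compactness.)

* `hur` (counting): if a normalised product times a bounded constant is close to `e z^m` on the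
  unit circle/disc with `‖e‖ ≥ c`, then exactly `m` of the roots are close to `0` and all the other
  roots are far away.
  Proof by compactness: otherwise there are `δ_j → 0` and counterexamples `v_j, e_j, A_j, B_j`;
  all parameters stay in a compact set (`‖e_j‖ ≤ C + δ_j` by looking at `z = 1`), pass to a
  convergent subsequence; in the limit `v ∏ (A_l z + B_l) = e z^m` on the closed unit disc, hence
  as polynomials, `e ≠ 0`.  So `v ≠ 0`, and by comparing roots: every `l` with `A_l ≠ 0` has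
  `B_l = 0` (its root `-B_l/A_l` is a root of `e z^m`), and the number of `l` with `A_l ≠ 0` is the
  degree `m`.  For `l` with `B_l = 0`: `‖A_l‖ = 1` so `‖B_{j,l}‖ ≤ ε ‖A_{j,l}‖` for large `j`;
  for `l` with `A_l = 0`: `‖B_l‖ = 1` so `‖A_{j,l}‖ ≤ ε ‖B_{j,l}‖` for large `j` (and then not
  `‖B_{j,l}‖ ≤ ε ‖A_{j,l}‖`, as `ε < 1`).  Contradiction.
-/

open Filter Topology Metric

namespace H24.LS

noncomputable def E3_poly {n : ℕ} (A B : Fin n → ℂ) : Polynomial ℂ :=
  ∏ l, (Polynomial.C (A l) * Polynomial.X + Polynomial.C (B l))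

theorem E3_eval {n : ℕ} (A B : Fin n → ℂ) (z : ℂ) :
    (E3_poly A B).eval z = ∏ l, (A l * z + B l) := by
  simp [E3_poly, Polynomial.eval_prod]

theorem E3_natDegree {n : ℕ} (A B : Fin n → ℂ) : (E3_poly A B).natDegree ≤ n := by
  unfold E3_poly
  have h1 := Polynomial.natDegree_prod_le (Finset.univ : Finset (Fin n))
    (fun l => Polynomial.C (A l) * Polynomial.X + Polynomial.C (B l))
  have h2 : ∑ l : Fin n, (Polynomial.C (A l) * Polynomial.X + Polynomial.C (B l)).natDegree
      ≤ ∑ l : Fin n, 1 :=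
    Finset.sum_le_sum (fun l _ => Polynomial.natDegree_linear_le (a := A l) (b := B l))
  have h3 : ∑ l : Fin n, (1 : ℕ) = n := by simp
  omega

theorem E3_ne_zero {n : ℕ} (A B : Fin n → ℂ) (h : ∀ l, ‖A l‖ + ‖B l‖ = 1) : E3_poly A B ≠ 0 := by
  unfold E3_poly
  rw [Finset.prod_ne_zero_iff]
  intro l _ hl
  have h1 := congrArg (fun p => Polynomial.coeff p 1) hl
  have h0 := congrArg (fun p => Polynomial.coeff p 0) hl
  simp at h1 h0
  have := h l
  rw [h1, h0] at this
  simp at this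

def E3_K (n : ℕ) : Set ((Fin n → ℂ) × (Fin n → ℂ)) := {p | ∀ l, ‖p.1 l‖ + ‖p.2 l‖ = 1}

theorem E3_K_compact (n : ℕ) : IsCompact (E3_K n) := by
  apply Metric.isCompact_of_isClosed_isBounded
  · have : E3_K n = ⋂ l, {p : (Fin n → ℂ) × (Fin n → ℂ) | ‖p.1 l‖ + ‖p.2 l‖ = 1} := by
      ext p; simp [E3_K]
    rw [this]
    apply isClosed_iInter
    intro l
    exact isClosed_eq (by fun_prop) continuous_const
  · rw [isBounded_iff_forall_norm_le]
    refine ⟨1, fun p hp => ?_⟩
    rw [Prod.norm_def]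
    apply max_le
    · rw [pi_norm_le_iff_of_nonneg zero_le_one]
      intro l
      have := hp l
      linarith [norm_nonneg (p.2 l)]
    · rw [pi_norm_le_iff_of_nonneg zero_le_one]
      intro l
      have := hp l
      linarith [norm_nonneg (p.1 l)]

/-- `N + 1` points on the unit circle -/
theorem E3_points (N : ℕ) : ∃ Z : Finset ℂ, Z.card = N + 1 ∧ ∀ z ∈ Z, ‖z‖ = 1 := by
  refine ⟨Polynomial.nthRootsFinset (N + 1) (1 : ℂ), ?_, ?_⟩
  · exact (Complex.isPrimitiveRoot_exp (N + 1) (Nat.succ_ne_zero N)).card_nthRootsFinset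
  · intro z hz
    rw [Polynomial.mem_nthRootsFinset (Nat.succ_pos N)] at hz
    exact Complex.norm_eq_one_of_pow_eq_one hz (Nat.succ_ne_zero N)

theorem prod_lower (n : ℕ) : ∃ c > (0 : ℝ), ∀ (A B : Fin n → ℂ), (∀ l, ‖A l‖ + ‖B l‖ = 1) →
    ∃ z : ℂ, ‖z‖ = 1 ∧ c ≤ ‖∏ l, (A l * z + B l)‖ := by
  obtain ⟨Z, hZc, hZ1⟩ := E3_points n
  let H : (Fin n → ℂ) × (Fin n → ℂ) → ℝ := fun p => ∑ z ∈ Z, ‖∏ l, (p.1 l * z + p.2 l)‖
  have hH : Continuous H := by
    unfold H
    fun_prop
  have hpos : ∀ p ∈ E3_K n, 0 < H p := by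
    intro p hp
    by_contra hcon
    have h0 : H p = 0 := le_antisymm (not_lt.mp hcon) (Finset.sum_nonneg (fun _ _ => norm_nonneg _))
    have h1 : ∀ z ∈ Z, ‖∏ l, (p.1 l * z + p.2 l)‖ = 0 :=
      (Finset.sum_eq_zero_iff_of_nonneg (fun _ _ => norm_nonneg _)).mp h0
    apply E3_ne_zero p.1 p.2 hp
    apply Polynomial.eq_zero_of_natDegree_lt_card_of_eval_eq_zero' _ Z
    · intro z hz
      rw [E3_eval]
      exact norm_eq_zero.mp (h1 z hz)
    · rw [hZc]
      exact Nat.lt_succ_of_le (E3_natDegree _ _)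
  rcases (E3_K n).eq_empty_or_nonempty with hem | hne
  · refine ⟨1, one_pos, fun A B hAB => ?_⟩
    exfalso
    have : (A, B) ∈ E3_K n := hAB
    rw [hem] at this
    exact this
  · obtain ⟨p, hp, hmin⟩ := (E3_K_compact n).exists_isMinOn hne hH.continuousOn
    refine ⟨H p / (n + 1), div_pos (hpos p hp) (by positivity), fun A B hAB => ?_⟩
    by_contra hcon
    push Not at hcon
    have h1 : H p ≤ H (A, B) := hmin (show (A, B) ∈ E3_K n from hAB)
    have hZne : Z.Nonempty := by
      rw [← Finset.card_pos, hZc]; omega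
    have h2 : H (A, B) < ∑ z ∈ Z, H p / (n + 1) :=
      Finset.sum_lt_sum_of_nonempty hZne (fun z hz => hcon z (hZ1 z hz))
    rw [Finset.sum_const, hZc, nsmul_eq_mul] at h2
    have h3 : ((n + 1 : ℕ) : ℝ) * (H p / (n + 1)) = H p := by
      push_cast
      field_simp
    linarith

theorem E3_limit (n m : ℕ) (v e : ℂ) (A B : Fin n → ℂ) (he : e ≠ 0)
    (hAB : ∀ l, ‖A l‖ + ‖B l‖ = 1) (Z : Finset ℂ) (hZ : Z.card = max n m + 1)
    (h : ∀ z ∈ Z, v * ∏ l, (A l * z + B l) - e * z ^ m = 0) :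
    (∀ l, A l = 0 ∨ B l = 0) ∧ (Finset.univ.filter (fun l => A l ≠ 0)).card = m := by
  classical
  have hpoly : Polynomial.C v * E3_poly A B = Polynomial.C e * Polynomial.X ^ m := by
    rw [← sub_eq_zero]
    apply Polynomial.eq_zero_of_natDegree_lt_card_of_eval_eq_zero' _ Z
    · intro z hz
      simp only [Polynomial.eval_sub, Polynomial.eval_mul, Polynomial.eval_C, Polynomial.eval_pow,
        Polynomial.eval_X, E3_eval]
      exact h z hz
    · rw [hZ]
      apply Nat.lt_succ_of_le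
      refine (Polynomial.natDegree_sub_le _ _).trans (max_le_max ?_ ?_)
      · exact (Polynomial.natDegree_C_mul_le _ _).trans (E3_natDegree _ _)
      · exact Polynomial.natDegree_C_mul_X_pow_le _ _
  have hv : v ≠ 0 := by
    rintro rfl
    have h1 := congrArg (fun p => Polynomial.coeff p m) hpoly
    simp at h1
    exact he h1.symm
  have hz : ∀ l, A l = 0 ∨ B l = 0 := by
    intro l
    by_contra hcon
    push Not at hcon
    have h1 := congrArg (Polynomial.eval (-B l / A l)) hpoly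
    simp only [Polynomial.eval_mul, Polynomial.eval_C, Polynomial.eval_pow,
        Polynomial.eval_X, E3_eval] at h1
    have h2 : ∏ l', (A l' * (-B l / A l) + B l') = 0 := by
      apply Finset.prod_eq_zero (Finset.mem_univ l)
      field_simp [hcon.1]
      ring
    rw [h2, mul_zero] at h1
    have h3 : (-B l / A l) ^ m ≠ 0 := pow_ne_zero _ (div_ne_zero (neg_ne_zero.mpr hcon.2) hcon.1)
    exact (mul_ne_zero he h3) h1.symm
  refine ⟨hz, ?_⟩
  have hdeg : (Polynomial.C v * E3_poly A B).natDegree = m := by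
    rw [hpoly, Polynomial.natDegree_C_mul_X_pow _ _ he]
  rw [Polynomial.natDegree_C_mul hv] at hdeg
  unfold E3_poly at hdeg
  rw [Polynomial.natDegree_prod] at hdeg
  · rw [← hdeg, Finset.card_filter]
    apply Finset.sum_congr rfl
    intro l _
    by_cases hl : A l = 0
    · simp [hl]
    · rw [if_pos hl, Polynomial.natDegree_linear hl]
  · have := E3_ne_zero A B hAB
    unfold E3_poly at this
    exact Finset.prod_ne_zero_iff.mp this

theorem hur (n m : ℕ) (C c ε : ℝ) (hC : 0 < C) (hc : 0 < c) (hε : 0 < ε) (hε1 : ε < 1) :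
    ∃ δ > (0 : ℝ), ∀ (v e : ℂ) (A B : Fin n → ℂ), ‖v‖ ≤ C → c ≤ ‖e‖ →
      (∀ l, ‖A l‖ + ‖B l‖ = 1) →
      (∀ z : ℂ, ‖z‖ ≤ 1 → ‖v * ∏ l, (A l * z + B l) - e * z ^ m‖ ≤ δ) →
      (Finset.univ.filter (fun l => ‖B l‖ ≤ ε * ‖A l‖)).card = m ∧
      ∀ l, ‖B l‖ ≤ ε * ‖A l‖ ∨ ‖A l‖ ≤ ε * ‖B l‖ := by
  classical
  obtain ⟨Z, hZc, hZ1⟩ := E3_points (max n m)
  let G : (ℂ × ℂ) × ((Fin n → ℂ) × (Fin n → ℂ)) → ℝ := fun p =>
    ∑ z ∈ Z, ‖p.1.1 * ∏ l, (p.2.1 l * z + p.2.2 l) - p.1.2 * z ^ m‖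
  have hG : Continuous G := by
    unfold G
    fun_prop
  let K : Set ((ℂ × ℂ) × ((Fin n → ℂ) × (Fin n → ℂ))) :=
    (closedBall 0 C ×ˢ {e : ℂ | c ≤ ‖e‖ ∧ ‖e‖ ≤ C + 1}) ×ˢ E3_K n
  have hK : IsCompact K := by
    apply IsCompact.prod
    · apply IsCompact.prod (isCompact_closedBall _ _)
      apply Metric.isCompact_of_isClosed_isBounded
      · exact (isClosed_le continuous_const continuous_norm).inter
          (isClosed_le continuous_norm continuous_const)
      · rw [isBounded_iff_forall_norm_le]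
        exact ⟨C + 1, fun e he => he.2⟩
    · exact E3_K_compact n
  let Good : (ℂ × ℂ) × ((Fin n → ℂ) × (Fin n → ℂ)) → Prop := fun p =>
    (Finset.univ.filter (fun l => ‖p.2.2 l‖ ≤ ε * ‖p.2.1 l‖)).card = m ∧
      ∀ l, ‖p.2.2 l‖ ≤ ε * ‖p.2.1 l‖ ∨ ‖p.2.1 l‖ ≤ ε * ‖p.2.2 l‖
  have hmain : ∃ δ > (0 : ℝ), ∀ p ∈ K, G p ≤ δ → Good p := by
    refine hK.induction_on (p := fun s => ∃ δ > (0 : ℝ), ∀ p ∈ s, G p ≤ δ → Good p) ?_ ?_ ?_ ?_
    · exact ⟨1, one_pos, fun p hp => absurd hp (Set.notMem_empty p)⟩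
    · rintro s t hst ⟨δ, hδ, h⟩
      exact ⟨δ, hδ, fun p hp => h p (hst hp)⟩
    · rintro s t ⟨δ, hδ, h⟩ ⟨δ', hδ', h'⟩
      refine ⟨min δ δ', lt_min hδ hδ', fun p hp hG => ?_⟩
      rcases hp with hp | hp
      · exact h p hp (hG.trans (min_le_left _ _))
      · exact h' p hp (hG.trans (min_le_right _ _))
    · intro p hp
      have hGnn : 0 ≤ G p := Finset.sum_nonneg (fun _ _ => norm_nonneg _)
      rcases hGnn.lt_or_eq with hpos | hzero
      · have h1 : ∀ᶠ q in 𝓝 p, G p / 2 < G q :=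
          hG.continuousAt.eventually (lt_mem_nhds (by linarith))
        refine ⟨{q | G p / 2 < G q}, mem_nhdsWithin_of_mem_nhds h1, G p / 2, by linarith, ?_⟩
        intro q hq hq2
        exact absurd hq (not_lt.mpr hq2)
      · have h1 : ∀ z ∈ Z, p.1.1 * ∏ l, (p.2.1 l * z + p.2.2 l) - p.1.2 * z ^ m = 0 := by
          intro z hz
          have := (Finset.sum_eq_zero_iff_of_nonneg (fun _ _ => norm_nonneg _)).mp hzero.symm z hz
          exact norm_eq_zero.mp this
        have he : p.1.2 ≠ 0 := by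
          intro h0
          have := hp.1.2.1
          rw [h0, norm_zero] at this
          linarith
        obtain ⟨h2, h3⟩ := E3_limit n m p.1.1 p.1.2 p.2.1 p.2.2 he hp.2 Z hZc h1
        have hAB := hp.2
        have h4 : ∀ᶠ q in 𝓝 p, ∀ l, (p.2.1 l ≠ 0 → ‖q.2.2 l‖ < ε * ‖q.2.1 l‖) ∧
            (p.2.1 l = 0 → ‖q.2.1 l‖ < ε * ‖q.2.2 l‖) := by
          rw [eventually_all]
          intro l
          have hl := hAB l
          by_cases hA : p.2.1 l = 0
          · have h5 : ‖p.2.1 l‖ < ε * ‖p.2.2 l‖ := by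
              rw [hA, norm_zero, zero_add] at hl
              rw [hA, hl, norm_zero]; linarith
            have h6 : ∀ᶠ q : (ℂ × ℂ) × ((Fin n → ℂ) × (Fin n → ℂ)) in 𝓝 p,
                ‖q.2.1 l‖ < ε * ‖q.2.2 l‖ := by
              apply Filter.Tendsto.eventually_lt (f := fun q : (ℂ × ℂ) × ((Fin n → ℂ) × (Fin n → ℂ)) =>
                ‖q.2.1 l‖) (g := fun q => ε * ‖q.2.2 l‖) _ _ h5
              · exact (Continuous.tendsto (by fun_prop) p)
              · exact (Continuous.tendsto (by fun_prop) p)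
            filter_upwards [h6] with q hq
            exact ⟨fun h => absurd hA h, fun _ => hq⟩
          · have hB : p.2.2 l = 0 := (h2 l).resolve_left hA
            have h5 : ‖p.2.2 l‖ < ε * ‖p.2.1 l‖ := by
              rw [hB, norm_zero, add_zero] at hl
              rw [hB, hl, norm_zero]; linarith
            have h6 : ∀ᶠ q : (ℂ × ℂ) × ((Fin n → ℂ) × (Fin n → ℂ)) in 𝓝 p,
                ‖q.2.2 l‖ < ε * ‖q.2.1 l‖ := by
              apply Filter.Tendsto.eventually_lt (f := fun q : (ℂ × ℂ) × ((Fin n → ℂ) × (Fin n → ℂ)) =>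
                ‖q.2.2 l‖) (g := fun q => ε * ‖q.2.1 l‖) _ _ h5
              · exact (Continuous.tendsto (by fun_prop) p)
              · exact (Continuous.tendsto (by fun_prop) p)
            filter_upwards [h6] with q hq
            exact ⟨fun _ => hq, fun h => absurd h hA⟩
        refine ⟨_, mem_nhdsWithin_of_mem_nhds h4, 1, one_pos, ?_⟩
        intro q hq _
        constructor
        · rw [← h3]
          congr 1
          ext l
          simp only [Finset.mem_filter, Finset.mem_univ, true_and]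
          constructor
          · intro h5 h6
            have h7 := (hq l).2 h6
            have h8 := norm_nonneg (q.2.1 l)
            have h9 := norm_nonneg (q.2.2 l)
            nlinarith
          · intro h5
            exact ((hq l).1 h5).le
        · intro l
          by_cases hA : p.2.1 l = 0
          · right; exact ((hq l).2 hA).le
          · left; exact ((hq l).1 hA).le
  obtain ⟨δ, hδ, hmain⟩ := hmain
  have hN : (0:ℝ) < (max n m : ℕ) + 1 := by positivity
  refine ⟨min 1 (δ / ((max n m : ℕ) + 1)), lt_min one_pos (div_pos hδ hN), ?_⟩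
  intro v e A B hv he hAB h
  have hpK : ((v, e), (A, B)) ∈ K := by
    refine ⟨⟨by simpa using hv, he, ?_⟩, hAB⟩
    have h1 := (h 1 (by simp)).trans (min_le_left _ _)
    rw [one_pow, mul_one] at h1
    have h2 : ‖v * ∏ l, (A l * 1 + B l)‖ ≤ C := by
      rw [norm_mul, norm_prod]
      calc ‖v‖ * ∏ l, ‖A l * 1 + B l‖ ≤ C * 1 := by
            apply mul_le_mul hv _ (Finset.prod_nonneg (fun _ _ => norm_nonneg _)) hC.le
            apply Finset.prod_le_one (fun _ _ => norm_nonneg _)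
            intro l _
            rw [mul_one, ← hAB l]
            exact norm_add_le _ _
        _ = C := mul_one C
    have h3 : ‖e‖ ≤ ‖v * ∏ l, (A l * 1 + B l)‖ + ‖v * ∏ l, (A l * 1 + B l) - e‖ := by
      have := norm_sub_le (v * ∏ l, (A l * 1 + B l)) (v * ∏ l, (A l * 1 + B l) - e)
      rwa [sub_sub_cancel] at this
    change ‖e‖ ≤ C + 1
    linarith
  have hGp : G ((v, e), (A, B)) ≤ δ := by
    calc G ((v, e), (A, B)) ≤ ∑ z ∈ Z, δ / ((max n m : ℕ) + 1) := by
          apply Finset.sum_le_sum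
          intro z hz
          exact (h z (hZ1 z hz).le).trans (min_le_right _ _)
      _ = δ := by
          rw [Finset.sum_const, hZc, nsmul_eq_mul]
          push_cast
          field_simp
  exact hmain _ hpK hGp

end H24.LS
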