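import Pool.Agent.H24.LS.Base

/-!
# E4: the chain lemma

`Θ` is a continuous function of the scale `s ∈ [s0, s1]` with `Θ(s) ∏_i Θ(max(s, D_i)) ≈ a^(n+1)` for
all `s` and `Θ(s1) ≈ a`.  Then `Θ ≈ a` everywhere.

Proof by induction on `n` (the constants `K, ε0` depend on `n, c, M` only).
`n = 0`: trivial (`Θ s ≈ a`).
Step `n → n+1`: let `D_max = max_i D_i` (a largest one, index `i0`), and
`s* = max(s0, D_max) ≤ s1`.  For `s ∈ [s*, s1]` all `max(s, D_i) = s`, so `Θ(s)^(n+2) ≈ a^(n+2)` within `ε`.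
Hence `(Θ s/a)^(n+2)` is within `ε/c^(n+2)` of `1`, so `Θ s / a` lies within `K1 ε` of the set of
`(n+2)`-th roots of unity (`|z^N - 1| = ∏ |z - ζ|`, so the nearest `ζ` has distance `≤ |z^N - 1|^{1/N}`;
better: if `z` is within `η = (half the minimal distance of two N-th roots of unity)` of `ζ` then
`|z^N - 1| ≥ |z - ζ| η^(N-1)`; and if `z` is at distance `≥ η` from all of them then `|z^N-1| ≥ η^N`;
so for `ε/c^N < η^N` we get distance `≤ ε/(c^N η^(N-1))`).
The sets `{s : |Θ s/a - ζ| < η}` are relatively open and pairwise disjoint and cover the interval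
`[s*, s1]`, which is connected, and `s1` belongs to the one of `ζ = 1`; hence
`|Θ s - a| ≤ K1 ε` on `[s*, s1]`.
Consequently for EVERY `s ∈ [s0, s1]`: `Θ(max(s, D_{i0}))` is within `K1 ε` of `a`
(`max(s, D_{i0}) ∈ [s*, s1]` if `D_{i0} ≥ s0`; if `D_{i0} < s0` then `s* = s0` and everything is in
`[s*, s1]`).  Dividing: `Θ(s) ∏_{i ≠ i0} Θ(max(s, D_i)) ≈ a^(n+1)` within `K2 ε`
(use `‖Θ‖ ≤ M`, `‖a‖ ≥ c`).  Apply the induction hypothesis with `K2 ε` (reindex `Fin (n+1)` minus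
`i0` by `Fin.succAbove`).
-/

open Filter Topology Metric Set

namespace H24.LS

theorem E4_root (N : ℕ) (hN : 0 < N) : ∃ η > (0 : ℝ), ∀ z : ℂ, ‖z - 1‖ ≤ η →
    ‖z - 1‖ ≤ 2 * ‖z ^ N - 1‖ := by
  have hc : Continuous fun z : ℂ => ‖∑ i ∈ Finset.range N, z ^ i‖ := by fun_prop
  have h1 : (1 / 2 : ℝ) < ‖∑ i ∈ Finset.range N, (1 : ℂ) ^ i‖ := by
    simp only [one_pow, Finset.sum_const, Finset.card_range, nsmul_eq_mul, mul_one]
    rw [Complex.norm_natCast]
    have : (1 : ℝ) ≤ N := by exact_mod_cast hN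
    linarith
  have h2 : ∀ᶠ z in 𝓝 (1 : ℂ), (1 / 2 : ℝ) < ‖∑ i ∈ Finset.range N, z ^ i‖ :=
    hc.continuousAt.eventually (lt_mem_nhds h1)
  obtain ⟨η, hη, h3⟩ := Metric.nhds_basis_closedBall.eventually_iff.1 h2
  refine ⟨η, hη, fun z hz => ?_⟩
  have h4 := h3 (show z ∈ closedBall 1 η by rwa [mem_closedBall, dist_eq_norm])
  rw [← geom_sum_mul, norm_mul]
  nlinarith [norm_nonneg (z - 1)]

theorem E4_root' (N : ℕ) (c : ℝ) (hc : 0 < c) : ∃ η > (0 : ℝ), ∃ K > (0 : ℝ), ∀ w a : ℂ,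
    c ≤ ‖a‖ → ‖w - a‖ ≤ η → ‖w - a‖ ≤ K * ‖w ^ (N + 1) - a ^ (N + 1)‖ := by
  obtain ⟨η, hη, h⟩ := E4_root (N + 1) N.succ_pos
  refine ⟨η * c, by positivity, 2 / c ^ N, by positivity, fun w a ha hw => ?_⟩
  have ha0 : 0 < ‖a‖ := lt_of_lt_of_le hc ha
  have hane : a ≠ 0 := norm_pos_iff.1 ha0
  have h1 : w / a - 1 = (w - a) / a := by field_simp
  have h2 : (w / a) ^ (N + 1) - 1 = (w ^ (N + 1) - a ^ (N + 1)) / a ^ (N + 1) := by
    rw [sub_div, div_self (pow_ne_zero _ hane), div_pow]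
  have h3 := h (w / a) (by
    rw [h1, norm_div, div_le_iff₀ ha0]
    exact hw.trans (mul_le_mul_of_nonneg_left ha hη.le))
  rw [h1, h2, norm_div, norm_div, norm_pow, div_le_iff₀ ha0] at h3
  refine h3.trans ?_
  have h4 : c ^ N ≤ ‖a‖ ^ N := pow_le_pow_left₀ hc.le ha N
  have h5 : 2 * (‖w ^ (N + 1) - a ^ (N + 1)‖ / ‖a‖ ^ (N + 1)) * ‖a‖ =
      2 / ‖a‖ ^ N * ‖w ^ (N + 1) - a ^ (N + 1)‖ := by
    rw [pow_succ ‖a‖ N]
    field_simp
  rw [h5]
  refine mul_le_mul_of_nonneg_right ?_ (norm_nonneg _)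
  exact div_le_div_of_nonneg_left (by norm_num) (by positivity) h4

theorem chain (n : ℕ) (c M : ℝ) (hc : 0 < c) (hM : c ≤ M) :
    ∃ K > (0 : ℝ), ∃ ε0 > (0 : ℝ), ∀ ε : ℝ, 0 < ε → ε < ε0 →
      ∀ (s0 s1 : ℝ) (Θ : ℝ → ℂ) (D : Fin n → ℝ) (a : ℂ), s0 ≤ s1 →
        ContinuousOn Θ (Icc s0 s1) → (∀ i, D i ≤ s1) →
        (∀ s ∈ Icc s0 s1, c ≤ ‖Θ s‖ ∧ ‖Θ s‖ ≤ M) → c ≤ ‖a‖ → ‖a‖ ≤ M →
        ‖Θ s1 - a‖ ≤ ε →
        (∀ s ∈ Icc s0 s1, ‖Θ s * ∏ i, Θ (max s (D i)) - a ^ (n + 1)‖ ≤ ε) →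
        ∀ s ∈ Icc s0 s1, ‖Θ s - a‖ ≤ K * ε := by
  induction n with
  | zero =>
    refine ⟨1, one_pos, 1, one_pos, ?_⟩
    intro ε _ _ s0 s1 Θ D a _ _ _ _ _ _ _ h s hs
    have := h s hs
    simpa using this
  | succ n ih =>
    obtain ⟨K', hK', ε0', hε0', ih⟩ := ih
    obtain ⟨η, hη, K1, hK1, hroot⟩ := E4_root' (n + 1) c hc
    have hM0 : 0 < M := lt_of_lt_of_le hc hM
    set K2 : ℝ := (M ^ (n + 1) * K1 + 1) / c + 1 with hK2
    have hK2pos : 0 < K2 := by positivity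
    have hK21 : 1 ≤ K2 := by
      rw [hK2]
      have : 0 ≤ (M ^ (n + 1) * K1 + 1) / c := by positivity
      linarith
    refine ⟨K' * K2, by positivity, min (min η (η / K1)) (ε0' / K2), by positivity, ?_⟩
    intro ε hε hεlt s0 s1 Θ D a hs01 hcont hD hb hca haM hs1 hprod
    have hε1 : ε < η := lt_of_lt_of_le hεlt ((min_le_left _ _).trans (min_le_left _ _))
    have hε2 : K1 * ε < η := by
      have : ε < η / K1 := lt_of_lt_of_le hεlt ((min_le_left _ _).trans (min_le_right _ _))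
      rw [lt_div_iff₀ hK1] at this
      linarith
    have hε3 : K2 * ε < ε0' := by
      have : ε < ε0' / K2 := lt_of_lt_of_le hεlt (min_le_right _ _)
      rw [lt_div_iff₀ hK2pos] at this
      linarith
    obtain ⟨i0, hi0⟩ := Finite.exists_max D
    -- on the upper part
    have hup : ∀ s ∈ Icc s0 s1, D i0 ≤ s → ‖Θ s ^ (n + 1 + 1) - a ^ (n + 1 + 1)‖ ≤ ε := by
      intro s hs hDs
      have h1 := hprod s hs
      have h2 : ∏ i, Θ (max s (D i)) = Θ s ^ (n + 1) := by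
        rw [Finset.prod_congr rfl fun i _ => by rw [max_eq_left ((hi0 i).trans hDs)],
          Finset.prod_const, Finset.card_univ, Fintype.card_fin]
      rw [h2, ← pow_succ'] at h1
      exact h1
    have hf : ContinuousOn (fun s => ‖Θ s - a‖) (Icc s0 s1) := (hcont.sub continuousOn_const).norm
    have hsmall : ∀ s ∈ Icc s0 s1, D i0 ≤ s → ‖Θ s - a‖ ≤ η := by
      intro s hs hDs
      by_contra hcon
      push Not at hcon
      have hsub : Icc s s1 ⊆ Icc s0 s1 := Icc_subset_Icc_left hs.1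
      obtain ⟨t, ht, hteq⟩ := intermediate_value_Icc' hs.2 (hf.mono hsub)
        (show η ∈ Icc (‖Θ s1 - a‖) (‖Θ s - a‖) from ⟨hs1.trans hε1.le, hcon.le⟩)
      simp only at hteq
      have h1 := hroot (Θ t) a hca hteq.le
      have h2 := hup t (hsub ht) (hDs.trans ht.1)
      have h3 := mul_le_mul_of_nonneg_left h2 hK1.le
      linarith
    have hsm2 : ∀ s ∈ Icc s0 s1, D i0 ≤ s → ‖Θ s - a‖ ≤ K1 * ε := by
      intro s hs hDs
      exact (hroot (Θ s) a hca (hsmall s hs hDs)).trans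
        (mul_le_mul_of_nonneg_left (hup s hs hDs) hK1.le)
    intro s hs
    have hmem : ∀ s ∈ Icc s0 s1, ∀ i, max s (D i) ∈ Icc s0 s1 := fun s hs i =>
      ⟨hs.1.trans (le_max_left _ _), max_le hs.2 (hD i)⟩
    have key := ih (K2 * ε) (by positivity) hε3 s0 s1 Θ (fun i => D (i0.succAbove i)) a hs01 hcont
      (fun i => hD _) hb hca haM (hs1.trans (by nlinarith)) (by
        intro s hs
        set P : ℂ := Θ s * ∏ i : Fin n, Θ (max s (D (i0.succAbove i))) with hP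
        have h1 := hprod s hs
        rw [Fin.prod_univ_succAbove _ i0] at h1
        have h2 : Θ s * (Θ (max s (D i0)) * ∏ i : Fin n, Θ (max s (D (i0.succAbove i)))) =
            P * Θ (max s (D i0)) := by
          rw [hP]
          ring
        rw [h2] at h1
        have h3 := hsm2 _ (hmem s hs i0) (le_max_right _ _)
        have hPn : ‖P‖ ≤ M ^ (n + 1) := by
          rw [hP, norm_mul, pow_succ']
          refine mul_le_mul (hb s hs).2 ?_ (norm_nonneg _) hM0.le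
          rw [norm_prod]
          calc ∏ i : Fin n, ‖Θ (max s (D (i0.succAbove i)))‖ ≤ ∏ _i : Fin n, M :=
                Finset.prod_le_prod (fun i _ => norm_nonneg _) fun i _ => (hb _ (hmem s hs _)).2
            _ = M ^ n := by rw [Finset.prod_const, Finset.card_univ, Fintype.card_fin]
        have h4 : a * (P - a ^ (n + 1)) =
            P * (a - Θ (max s (D i0))) + (P * Θ (max s (D i0)) - a ^ (n + 1 + 1)) := by
          ring
        have h5 : ‖a‖ * ‖P - a ^ (n + 1)‖ ≤ M ^ (n + 1) * (K1 * ε) + ε := by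
          rw [← norm_mul, h4]
          refine (norm_add_le _ _).trans (add_le_add ?_ h1)
          rw [norm_mul, norm_sub_rev]
          exact mul_le_mul hPn h3 (norm_nonneg _) (by positivity)
        have h6 : c * ‖P - a ^ (n + 1)‖ ≤ M ^ (n + 1) * (K1 * ε) + ε :=
          (mul_le_mul_of_nonneg_right hca (norm_nonneg _)).trans h5
        have h7 : ‖P - a ^ (n + 1)‖ ≤ (M ^ (n + 1) * K1 + 1) / c * ε := by
          rw [div_mul_eq_mul_div, le_div_iff₀ hc]
          linarith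
        refine h7.trans ?_
        rw [hK2]
        nlinarith)
    have := key s hs
    rw [← mul_assoc] at this
    exact this

end H24.LS
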