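import Pool.Agent.H24.LS.Base
import Pool.Agent.H24.LS.E1
import Pool.Agent.H24.LS.E2
import Pool.Agent.H24.LS.E3

/-!
# E5: quantitative rigidity (compactness)

If `Q ∘ φ ≈ P` on a large disc where `P, Q` are primitives of normalised products of affine
functions and `φ` is `L`-Lipschitz, then `φ` is close to a linear map `z ↦ α z` and
`P' ≈ α Q'(α ·)` on a given disc.

Proof.  Put `a0 = c(n) / (2 C^2 (1+L)^{n'})` (or any number that works below), `c(n)` from
`prod_lower`.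
Suppose for some `R ≥ 1`, `ε > 0` no `δ, R1` works.  Then for every `j` (with `δ = 1/(j+1)`,
`R1 = R + j`) there are data `w_j, v_j, A_j, B_j, A'_j, B'_j, P_j, Q_j, φ_j` satisfying the
hypotheses but not the conclusion.  By `prim_unique`, `P_j = prim w_j A_j B_j` and
`Q_j = prim v_j A'_j B'_j`.  Take a non-principal ultrafilter `U` on `ℕ` (`Filter.hyperfilter ℕ`) and
limits along `U` (all parameters are in compact sets; `φ_j z` is bounded by `L ‖z‖` for `j` large):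
`w, v, A, B, A', B'` and `φ z = lim φ_j z` for every `z ∈ ℂ`.  Then
* `‖w‖ ∈ [1/C, C]`, `‖v‖ ≤ C`, normalisations persist, `φ 0 = 0`, `φ` is `L`-Lipschitz on `ℂ`;
* `P = prim w A B`, `Q = prim v A' B'` satisfy `Q (φ z) = P z` for all `z` (joint continuity of
  `prim`, the hypothesis with `δ = 1/(j+1) → 0`);
* `P' = w ∏ (A_l z + B_l)` is a nonzero polynomial function, so `P` is not constant, so `Q` is not
  constant, so `v ≠ 0` and `Q' = v ∏ (A'_l z + B'_l)` has finitely many zeros (each factor with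
  `A'_l = 0` is a nonzero constant, the others have one zero).
By `lift_linear`: `φ z = a z`, `a ≠ 0`, `‖a‖ ≤ L`.  Differentiating `Q (a z) = P z`:
`w ∏ (A_l z + B_l) = a v ∏ (A'_l a z + B'_l)` for all `z`.  With `z` from `prod_lower`, `‖z‖ = 1`:
`c(n)/C ≤ ‖a‖ C (1+L)^{n'}` hence `‖a‖ ≥ 2 a0 > a0`.
For `U`-almost all `j` the conclusion holds with `α = a`: `‖φ_j z - a z‖ ≤ ε` uniformly on the
compact disc `closedBall 0 R` (the `φ_j` are equi-Lipschitz there and converge pointwise to `a z`;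
use a finite `ε/(4L)`-net), and the second closeness holds uniformly on the disc because the
expression is a continuous function of (parameters, z) (uniform continuity on compact sets, or
again: equi-Lipschitz + finite net).  Contradiction.
-/

open Filter Topology Metric

namespace H24.LS

private theorem E5_lim {E : Type*} [NormedAddCommGroup E] [ProperSpace E] (U : Ultrafilter ℕ)
    (u : ℕ → E) (M : ℝ) (h : ∀ᶠ j in (U : Filter ℕ), ‖u j‖ ≤ M) :
    ∃ x, Tendsto u (U : Filter ℕ) (𝓝 x) := by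
  obtain ⟨x, _, hx⟩ := (isCompact_closedBall (0 : E) M).ultrafilter_le_nhds (U.map u) (by
    rw [le_principal_iff, Ultrafilter.coe_map, mem_map]
    filter_upwards [h] with j hj
    simpa using hj)
  exact ⟨x, hx⟩

private theorem E5_pi {n : ℕ} (A : Fin n → ℂ) (h : ∀ l, ‖A l‖ ≤ 1) : ‖A‖ ≤ 1 :=
  (pi_norm_le_iff_of_nonneg zero_le_one).2 h

private theorem E5_prim {n : ℕ} {f : Filter ℕ} {w z : ℕ → ℂ} {A B : ℕ → Fin n → ℂ} {w0 z0 : ℂ}
    {A0 B0 : Fin n → ℂ} (hw : Tendsto w f (𝓝 w0)) (hA : Tendsto A f (𝓝 A0))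
    (hB : Tendsto B f (𝓝 B0)) (hz : Tendsto z f (𝓝 z0)) :
    Tendsto (fun j => prim (w j) (A j) (B j) (z j)) f (𝓝 (prim w0 A0 B0 z0)) := by
  have h3 := (prim_continuous (n := n)).continuousAt (x := (w0, A0, B0, z0))
  have h2 : Tendsto (fun j => (w j, A j, B j, z j)) f (𝓝 (w0, A0, B0, z0)) := by
    rw [nhds_prod_eq, nhds_prod_eq, nhds_prod_eq]
    exact hw.prodMk (hA.prodMk (hB.prodMk hz))
  have h4 := h3.tendsto.comp h2
  simpa only [Function.comp_def] using h4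

/-- the derivative relation of the limit and the lower bound of `a` -/
private theorem E5_limit (n n' : ℕ) (L C c : ℝ) (hL : 1 ≤ L) (hC : 1 ≤ C) (hc : 0 < c)
    (hcl : ∀ (A B : Fin n → ℂ), (∀ l, ‖A l‖ + ‖B l‖ = 1) →
      ∃ z : ℂ, ‖z‖ = 1 ∧ c ≤ ‖∏ l, (A l * z + B l)‖)
    (w v : ℂ) (A B : Fin n → ℂ) (A' B' : Fin n' → ℂ) (φ : ℂ → ℂ)
    (hw : 1 ≤ C * ‖w‖) (hv : ‖v‖ ≤ C)
    (hA : ∀ l, ‖A l‖ + ‖B l‖ = 1) (hA' : ∀ l, ‖A' l‖ + ‖B' l‖ = 1)
    (hφ0 : φ 0 = 0) (hlip : ∀ z w, ‖φ z - φ w‖ ≤ L * ‖z - w‖)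
    (heq : ∀ z, prim v A' B' (φ z) = prim w A B z) :
    ∃ a : ℂ, c / (C ^ 2 * L ^ n') ≤ ‖a‖ ∧ ‖a‖ ≤ L ∧ (∀ z, φ z = a * z) ∧
      ∀ z, w * ∏ l, (A l * z + B l) = a * (v * ∏ l, (A' l * (a * z) + B' l)) := by
  have hL0 : 0 < L := by linarith
  have hC0 : 0 < C := by linarith
  have hw0 : w ≠ 0 := by
    rintro rfl
    simp at hw
    linarith
  obtain ⟨z1, hz1, hz1c⟩ := hcl A B hA
  have hP1 : w * ∏ l, (A l * z1 + B l) ≠ 0 := by
    refine mul_ne_zero hw0 ?_
    rw [← norm_pos_iff]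
    linarith
  have hnc : ∃ z, prim w A B z ≠ prim w A B 0 := by
    by_contra hcon
    push Not at hcon
    have h1 : prim w A B = fun _ => prim w A B 0 := funext hcon
    have h2 := prim_hasDerivAt w A B z1
    rw [h1] at h2
    exact hP1 (h2.unique (hasDerivAt_const _ _))
  have hv0 : v ≠ 0 := by
    rintro rfl
    obtain ⟨z, hz⟩ := hnc
    apply hz
    rw [← heq z, ← heq 0]
    simp [prim]
  have hfin : {z | deriv (prim v A' B') z = 0}.Finite := by
    refine (Set.finite_range (fun l : Fin n' => -B' l / A' l)).subset ?_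
    intro z hz
    rw [Set.mem_ofPred_eq, (prim_hasDerivAt v A' B' z).deriv] at hz
    rcases mul_eq_zero.1 hz with h | h
    · exact absurd h hv0
    obtain ⟨l, _, hl⟩ := Finset.prod_eq_zero_iff.1 h
    have hAl : A' l ≠ 0 := by
      intro h0
      rw [h0, zero_mul, zero_add] at hl
      have := hA' l
      rw [h0, hl] at this
      simp at this
    refine ⟨l, ?_⟩
    field_simp
    linear_combination -hl
  obtain ⟨a, ha0, haL, haz⟩ := lift_linear (prim w A B) (prim v A' B') φ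
    (fun z => (prim_hasDerivAt w A B z).differentiableAt)
    (fun z => (prim_hasDerivAt v A' B' z).differentiableAt) hnc hfin L hlip hφ0 heq
  have hder : ∀ z, w * ∏ l, (A l * z + B l) = a * (v * ∏ l, (A' l * (a * z) + B' l)) := by
    intro z
    have h1 : HasDerivAt (fun z => prim v A' B' (a * z))
        ((v * ∏ l, (A' l * (a * z) + B' l)) * a) z := by
      have h2 : HasDerivAt (fun z : ℂ => a * z) a z := by
        simpa using (hasDerivAt_id z).const_mul a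
      exact (prim_hasDerivAt v A' B' (a * z)).comp z h2
    have h3 : (fun z => prim v A' B' (a * z)) = prim w A B := by
      funext z
      rw [← haz z, heq z]
    rw [h3] at h1
    rw [(prim_hasDerivAt w A B z).unique h1]
    ring
  refine ⟨a, ?_, haL, haz, hder⟩
  have h1 := hder z1
  have h2 : c / C ≤ ‖w * ∏ l, (A l * z1 + B l)‖ := by
    rw [norm_mul, div_le_iff₀ hC0]
    nlinarith [norm_nonneg (∏ l, (A l * z1 + B l))]
  have h3 : ‖a * (v * ∏ l, (A' l * (a * z1) + B' l))‖ ≤ ‖a‖ * (C * L ^ n') := by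
    rw [norm_mul, norm_mul]
    have h4 : ‖∏ l, (A' l * (a * z1) + B' l)‖ ≤ L ^ n' := by
      rw [norm_prod]
      have h5 : ∀ l ∈ (Finset.univ : Finset (Fin n')), ‖A' l * (a * z1) + B' l‖ ≤ L := by
        intro l _
        have h6 := norm_add_le (A' l * (a * z1)) (B' l)
        rw [norm_mul, norm_mul, hz1, mul_one] at h6
        have h7 := hA' l
        have h8 := mul_le_mul_of_nonneg_left haL (norm_nonneg (A' l))
        nlinarith [norm_nonneg (A' l), norm_nonneg (B' l)]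
      exact (Finset.prod_le_prod (fun _ _ => norm_nonneg _) h5).trans (by simp)
    gcongr
  rw [h1] at h2
  rw [div_le_iff₀ (by positivity)]
  have h4 := h2.trans h3
  rw [div_le_iff₀ hC0] at h4
  calc c ≤ ‖a‖ * (C * L ^ n') * C := h4
    _ = ‖a‖ * (C ^ 2 * L ^ n') := by ring

theorem rig (n n' : ℕ) (L C : ℝ) (hL : 1 ≤ L) (hC : 1 ≤ C) :
    ∃ a0 > (0 : ℝ), ∀ R : ℝ, 1 ≤ R → ∀ ε > (0 : ℝ), ∃ δ > (0 : ℝ), ∃ R1 : ℝ, R ≤ R1 ∧
      ∀ (w v : ℂ) (A B : Fin n → ℂ) (A' B' : Fin n' → ℂ) (P Q φ : ℂ → ℂ),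
        1 ≤ C * ‖w‖ → ‖w‖ ≤ C → ‖v‖ ≤ C →
        (∀ l, ‖A l‖ + ‖B l‖ = 1) → (∀ l, ‖A' l‖ + ‖B' l‖ = 1) →
        (∀ z, HasDerivAt P (w * ∏ l, (A l * z + B l)) z) → P 0 = 0 →
        (∀ z, HasDerivAt Q (v * ∏ l, (A' l * z + B' l)) z) → Q 0 = 0 →
        φ 0 = 0 →
        (∀ z, ‖z‖ ≤ R1 → ∀ z', ‖z'‖ ≤ R1 → ‖φ z - φ z'‖ ≤ L * ‖z - z'‖) →
        (∀ z, ‖z‖ ≤ R1 → ‖Q (φ z) - P z‖ ≤ δ) →
        ∃ α : ℂ, a0 ≤ ‖α‖ ∧ ‖α‖ ≤ L ∧ (∀ z, ‖z‖ ≤ R → ‖φ z - α * z‖ ≤ ε) ∧
          ∀ z, ‖z‖ ≤ R → ‖w * ∏ l, (A l * z + B l) -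
            α * (v * ∏ l, (A' l * (α * z) + B' l))‖ ≤ ε := by
  obtain ⟨c, hc, hcl⟩ := prod_lower n
  have hL0 : 0 < L := by linarith
  have hC0 : 0 < C := by linarith
  refine ⟨c / (C ^ 2 * L ^ n'), by positivity, ?_⟩
  intro R hR ε hε
  by_contra hcon
  push Not at hcon
  have hj := fun j : ℕ => hcon (1 / ((j : ℝ) + 1)) (by positivity) (R + j) (by simp)
  choose w v A B A' B' P Q φ hw hwC hv hA hA' hP hP0 hQ hQ0 hφ0 hlip hclose hbad using hj
  have hPe : ∀ j, P j = prim (w j) (A j) (B j) := fun j =>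
    prim_unique (w j) (A j) (B j) (P j) (hP j) (hP0 j)
  have hQe : ∀ j, Q j = prim (v j) (A' j) (B' j) := fun j =>
    prim_unique (v j) (A' j) (B' j) (Q j) (hQ j) (hQ0 j)
  set U : Ultrafilter ℕ := hyperfilter ℕ with hU
  have hUtop : (U : Filter ℕ) ≤ atTop := Nat.hyperfilter_le_atTop
  have hlarge : ∀ x : ℝ, ∀ᶠ j : ℕ in (U : Filter ℕ), x ≤ R + j := by
    intro x
    apply hUtop
    filter_upwards [eventually_ge_atTop (⌈x⌉₊)] with j hj
    have h1 := Nat.le_ceil x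
    have h2 : ((⌈x⌉₊ : ℕ) : ℝ) ≤ j := by exact_mod_cast hj
    linarith
  obtain ⟨w0, hw0⟩ := E5_lim U w C (Eventually.of_forall hwC)
  obtain ⟨v0, hv0⟩ := E5_lim U v C (Eventually.of_forall hv)
  obtain ⟨A0, hA0⟩ := E5_lim U A 1 (Eventually.of_forall fun j => E5_pi _ fun l => by
    linarith [hA j l, norm_nonneg (B j l)])
  obtain ⟨B0, hB0⟩ := E5_lim U B 1 (Eventually.of_forall fun j => E5_pi _ fun l => by
    linarith [hA j l, norm_nonneg (A j l)])
  obtain ⟨A0', hA0'⟩ := E5_lim U A' 1 (Eventually.of_forall fun j => E5_pi _ fun l => by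
    linarith [hA' j l, norm_nonneg (B' j l)])
  obtain ⟨B0', hB0'⟩ := E5_lim U B' 1 (Eventually.of_forall fun j => E5_pi _ fun l => by
    linarith [hA' j l, norm_nonneg (A' j l)])
  have hφlim : ∀ z, ∃ y, Tendsto (fun j => φ j z) (U : Filter ℕ) (𝓝 y) := by
    intro z
    refine E5_lim U (fun j => φ j z) (L * ‖z‖) ?_
    filter_upwards [hlarge ‖z‖] with j hj
    have h1 := hlip j z hj 0 (by simp; positivity)
    simpa [hφ0 j] using h1
  choose φ0 hφ0lim using hφlim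
  have hApt : ∀ l, Tendsto (fun j => A j l) (U : Filter ℕ) (𝓝 (A0 l)) := fun l =>
    ((continuous_apply l).tendsto A0).comp hA0
  have hBpt : ∀ l, Tendsto (fun j => B j l) (U : Filter ℕ) (𝓝 (B0 l)) := fun l =>
    ((continuous_apply l).tendsto B0).comp hB0
  have hApt' : ∀ l, Tendsto (fun j => A' j l) (U : Filter ℕ) (𝓝 (A0' l)) := fun l =>
    ((continuous_apply l).tendsto A0').comp hA0'
  have hBpt' : ∀ l, Tendsto (fun j => B' j l) (U : Filter ℕ) (𝓝 (B0' l)) := fun l =>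
    ((continuous_apply l).tendsto B0').comp hB0'
  -- the limit satisfies the hypotheses of E5_limit
  have heq : ∀ z, prim v0 A0' B0' (φ0 z) = prim w0 A0 B0 z := by
    intro z
    have h1 := E5_prim hv0 hA0' hB0' (hφ0lim z)
    have h2 := E5_prim hw0 hA0 hB0 (tendsto_const_nhds (x := z))
    have h3 := (h1.sub h2).norm
    have h4 : Tendsto (fun j : ℕ => 1 / ((j : ℝ) + 1)) (U : Filter ℕ) (𝓝 0) :=
      tendsto_one_div_add_atTop_nhds_zero_nat.mono_left hUtop
    have h5 : ‖prim v0 A0' B0' (φ0 z) - prim w0 A0 B0 z‖ ≤ 0 := by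
      refine le_of_tendsto_of_tendsto h3 h4 ?_
      filter_upwards [hlarge ‖z‖] with j hj
      have := hclose j z hj
      rwa [hPe j, hQe j] at this
    exact sub_eq_zero.1 (norm_le_zero_iff.1 h5)
  have hlip0 : ∀ z z', ‖φ0 z - φ0 z'‖ ≤ L * ‖z - z'‖ := by
    intro z z'
    refine le_of_tendsto ((hφ0lim z).sub (hφ0lim z')).norm ?_
    filter_upwards [hlarge ‖z‖, hlarge ‖z'‖] with j hj hj'
    exact hlip j z hj z' hj'
  have hφ00 : φ0 0 = 0 := by
    refine tendsto_nhds_unique (hφ0lim 0) ?_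
    simp only [hφ0]
    exact tendsto_const_nhds
  have hw0C : 1 ≤ C * ‖w0‖ := by
    refine ge_of_tendsto (hw0.norm.const_mul C) (Eventually.of_forall hw)
  have hv0C : ‖v0‖ ≤ C := le_of_tendsto hv0.norm (Eventually.of_forall hv)
  have hA01 : ∀ l, ‖A0 l‖ + ‖B0 l‖ = 1 := fun l =>
    tendsto_nhds_unique ((hApt l).norm.add (hBpt l).norm)
      ((tendsto_congr fun j => hA j l).2 tendsto_const_nhds)
  have hA01' : ∀ l, ‖A0' l‖ + ‖B0' l‖ = 1 := fun l =>
    tendsto_nhds_unique ((hApt' l).norm.add (hBpt' l).norm)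
      ((tendsto_congr fun j => hA' j l).2 tendsto_const_nhds)
  obtain ⟨a, ha1, ha2, haz, hder⟩ := E5_limit n n' L C c hL hC hc hcl w0 v0 A0 B0 A0' B0' φ0
    hw0C hv0C hA01 hA01' hφ00 hlip0 heq
  -- bad points
  have hbad2 : ∀ j, ∃ z : ℂ, ‖z‖ ≤ R ∧ (ε < ‖φ j z - a * z‖ ∨
      ε < ‖w j * ∏ l, (A j l * z + B j l) - a * (v j * ∏ l, (A' j l * (a * z) + B' j l))‖) := by
    intro j
    by_cases h1 : ∀ z, ‖z‖ ≤ R → ‖φ j z - a * z‖ ≤ ε
    · obtain ⟨z, hz, hz2⟩ := hbad j a ha1 ha2 h1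
      exact ⟨z, hz, Or.inr hz2⟩
    · push Not at h1
      obtain ⟨z, hz, hz2⟩ := h1
      exact ⟨z, hz, Or.inl hz2⟩
  choose z hzR hz using hbad2
  obtain ⟨z0, hz0⟩ := E5_lim U z R (Eventually.of_forall hzR)
  have hT1 : Tendsto (fun j => ‖φ j (z j) - a * z j‖) (U : Filter ℕ) (𝓝 0) := by
    have h1 : Tendsto (fun j => L * ‖z j - z0‖ + ‖φ j z0 - a * z0‖ + ‖a * z0 - a * z j‖)
        (U : Filter ℕ) (𝓝 0) := by
      have h2 : Tendsto (fun j => L * ‖z j - z0‖) (U : Filter ℕ) (𝓝 0) := by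
        have := (hz0.sub_const z0).norm.const_mul L
        simpa using this
      have h3 : Tendsto (fun j => ‖φ j z0 - a * z0‖) (U : Filter ℕ) (𝓝 0) := by
        have := ((hφ0lim z0).sub_const (a * z0)).norm
        rw [haz z0] at this
        simpa using this
      have h4 : Tendsto (fun j => ‖a * z0 - a * z j‖) (U : Filter ℕ) (𝓝 0) := by
        have := ((hz0.const_mul a).const_sub (a * z0)).norm
        simpa using this
      simpa using (h2.add h3).add h4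
    refine tendsto_of_tendsto_of_tendsto_of_le_of_le' tendsto_const_nhds h1
      (Eventually.of_forall fun j => norm_nonneg _) ?_
    filter_upwards [hlarge ‖z0‖] with j hj
    have h2 := hlip j (z j) ((hzR j).trans (by simp)) z0 hj
    have h3 : φ j (z j) - a * z j = (φ j (z j) - φ j z0) + (φ j z0 - a * z0) + (a * z0 - a * z j) := by
      ring
    rw [h3]
    refine (norm_add₃_le).trans ?_
    gcongr
  have hT2 : Tendsto (fun j => ‖w j * ∏ l, (A j l * z j + B j l) -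
      a * (v j * ∏ l, (A' j l * (a * z j) + B' j l))‖) (U : Filter ℕ) (𝓝 0) := by
    have h1 : Tendsto (fun j => w j * ∏ l, (A j l * z j + B j l)) (U : Filter ℕ)
        (𝓝 (w0 * ∏ l, (A0 l * z0 + B0 l))) :=
      hw0.mul (tendsto_finsetProd _ fun l _ => ((hApt l).mul hz0).add (hBpt l))
    have h2 : Tendsto (fun j => a * (v j * ∏ l, (A' j l * (a * z j) + B' j l))) (U : Filter ℕ)
        (𝓝 (a * (v0 * ∏ l, (A0' l * (a * z0) + B0' l)))) :=
      (hv0.mul (tendsto_finsetProd _ fun l _ =>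
        ((hApt' l).mul (hz0.const_mul a)).add (hBpt' l))).const_mul a
    have h3 := (h1.sub h2).norm
    rw [hder z0] at h3
    simpa using h3
  have hev := ((tendsto_order.1 hT1).2 ε hε).and ((tendsto_order.1 hT2).2 ε hε)
  obtain ⟨j, hj1, hj2⟩ := hev.exists
  rcases hz j with h | h
  · exact absurd h (not_lt.2 hj1.le)
  · exact absurd h (not_lt.2 hj2.le)

end H24.LS
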