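import Pool.Agent.H24.LS.P0

/-!
# F0: matching data: two charts and a coarse equivalence; first consequences

* `small_second`: since `fderiv G = O(‖q‖^(k-1))`, `k ≥ 3`, and `fderiv ℂ G` is analytic (so strictly
  differentiable) at `0` with derivative `0`: `‖fderiv G q - fderiv G q1‖ ≤ ε ‖q - q1‖` near `0`.
* `mat_lower`: `‖∇G q‖ ≤ ‖∇G (A (B q))‖ + ‖∇G q - ∇G (A (B q))‖ ≤ L ‖∇F (B q)‖ + ε ‖A (B q) - q‖
   ≤ L ‖∇F (B q)‖ + ε L ‖∇G q‖` with `ε L ≤ 1/2`; symmetric for `F`.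
  (`small_second` for `F` follows in the same way from the bound on `fderiv F`, see hypothesis `bdF`.)
* `mat_size`: `p = (g C t, t^N)`, `‖p‖ = ‖t‖^N` for small `t` (`g = o(t^N)`).  `‖A p‖ ≤ L ‖p‖`;
  `‖p‖ ≤ ‖B (A p)‖ + L ‖∇F p‖ ≤ L ‖A p‖ + L C ‖p‖^(k-1)`, so `‖A p‖ ≥ ‖p‖/(2L)`.  By `cone`,
  `‖(A p).1‖ ≤ ε ‖(A p).2‖`, so `‖A p‖ = ‖(A p).2‖`.
-/

open Filter Topology Metric Asymptotics

namespace H24.LS

/-- matching data: `F` with its clusters, `G` with its polar arcs (near one tangent line each) and a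
coarse equivalence `A, B` mapping the line of `F` to the line of `G`. -/
structure Mat (F G : ℂ × ℂ → ℂ) (k n n' N : ℕ) (u u' : ℂ) (c : ℕ) (m : Fin c → ℕ)
    (b : Fin c → ℝ) (g v : Fin c → ℂ → ℂ) (a : Fin c → ℂ) (D : Fin c → ℕ)
    (γ' : Fin n' → ℂ → ℂ) (A B : ℂ × ℂ → ℂ × ℂ) (L ρ : ℝ) : Prop where
  hC : Clu F k n N u c m b g v a D
  hG : PCh G k n' N u' γ'
  hco : Coarse F G A B L ρ
  hk : 3 ≤ k
  hn : 1 ≤ n
  isoG : Iso G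
  bdF : ∃ C > (0 : ℝ), ∃ δ > (0 : ℝ), ∀ p : ℂ × ℂ, ‖p‖ < δ → ‖fderiv ℂ F p‖ ≤ C * ‖p‖ ^ (k - 1)
  cone : ∀ ε > (0 : ℝ), ∃ δ > (0 : ℝ), ∀ x y : ℂ, ‖y‖ < δ → ‖x‖ ≤ δ * ‖y‖ →
    ‖(A (x, y)).1‖ ≤ ε * ‖(A (x, y)).2‖

/-- the point of the plane on the centre arc -/
noncomputable def pt {c : ℕ} (g : Fin c → ℂ → ℂ) (N : ℕ) (C : Fin c) (t : ℂ) : ℂ × ℂ :=
  (g C t, t ^ N)

private theorem F0_ev {P : ℂ → Prop} (h : ∀ᶠ t in 𝓝[≠] (0 : ℂ), P t) :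
    ∃ δ > (0 : ℝ), ∀ t : ℂ, 0 < ‖t‖ → ‖t‖ < δ → P t := by
  rw [eventually_nhdsWithin_iff, Metric.eventually_nhds_iff] at h
  obtain ⟨δ, hδ, hP⟩ := h
  refine ⟨δ, hδ, fun t h1 h2 => hP (by simpa using h2) ?_⟩
  exact norm_pos_iff.1 h1

theorem small_second (G : ℂ × ℂ → ℂ) (han : AnalyticAt ℂ G 0) (k : ℕ) (hk : 3 ≤ k)
    (hb : ∃ C > (0 : ℝ), ∃ δ > (0 : ℝ), ∀ p : ℂ × ℂ, ‖p‖ < δ → ‖fderiv ℂ G p‖ ≤ C * ‖p‖ ^ (k - 1)) :
    ∀ ε > (0 : ℝ), ∃ δ > (0 : ℝ), ∀ p q : ℂ × ℂ, ‖p‖ < δ → ‖q‖ < δ →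
      ‖fderiv ℂ G p - fderiv ℂ G q‖ ≤ ε * ‖p - q‖ := by
  obtain ⟨C, hC, δ0, hδ0, hCb⟩ := hb
  have h1 : HasStrictFDerivAt (fderiv ℂ G) (fderiv ℂ (fderiv ℂ G) 0) 0 :=
    han.fderiv.hasStrictFDerivAt
  -- the derivative is zero
  have hG0 : fderiv ℂ G 0 = 0 := by
    have h2 := hCb 0 (by simpa using hδ0)
    rw [norm_zero, zero_pow (by omega), mul_zero] at h2
    exact norm_le_zero_iff.1 h2
  have h2 : HasFDerivAt (fderiv ℂ G) (0 : (ℂ × ℂ) →L[ℂ] ((ℂ × ℂ) →L[ℂ] ℂ)) 0 := by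
    rw [hasFDerivAt_iff_isLittleO_nhds_zero]
    simp only [zero_add, hG0, sub_zero, zero_apply]
    rw [isLittleO_iff]
    intro c hc
    have hev : ∀ᶠ p in 𝓝 (0 : ℂ × ℂ), ‖p‖ < min (min δ0 1) (c / C) := by
      filter_upwards [Metric.ball_mem_nhds (0 : ℂ × ℂ)
        (show (0 : ℝ) < min (min δ0 1) (c / C) by positivity)] with p hp
      simpa using hp
    filter_upwards [hev] with p hp
    have e1 : ‖p‖ < δ0 := lt_of_lt_of_le hp ((min_le_left _ _).trans (min_le_left _ _))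
    have e2 : ‖p‖ < 1 := lt_of_lt_of_le hp ((min_le_left _ _).trans (min_le_right _ _))
    have e3 : ‖p‖ < c / C := lt_of_lt_of_le hp (min_le_right _ _)
    have e4 : ‖p‖ ^ (k - 1) ≤ ‖p‖ ^ 2 :=
      pow_le_pow_of_le_one (norm_nonneg _) e2.le (by omega)
    rw [lt_div_iff₀ hC] at e3
    calc ‖fderiv ℂ G p‖ ≤ C * ‖p‖ ^ (k - 1) := hCb p e1
      _ ≤ C * ‖p‖ ^ 2 := mul_le_mul_of_nonneg_left e4 hC.le
      _ = ‖p‖ * C * ‖p‖ := by ring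
      _ ≤ c * ‖p‖ := mul_le_mul_of_nonneg_right e3.le (norm_nonneg _)
  have h3 : fderiv ℂ (fderiv ℂ G) 0 = 0 := h1.hasFDerivAt.unique h2
  rw [h3] at h1
  intro ε hε
  have h4 := h1.isLittleO
  rw [isLittleO_iff] at h4
  have h5 := h4 hε
  rw [Metric.eventually_nhds_iff] at h5
  obtain ⟨δ, hδ, hP⟩ := h5
  refine ⟨δ, hδ, fun p q hp hq => ?_⟩
  have hdist : dist (p, q) ((0 : ℂ × ℂ), (0 : ℂ × ℂ)) < δ := by
    rw [Prod.dist_eq]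
    exact max_lt (by simpa using hp) (by simpa using hq)
  have := hP hdist
  simpa using this

theorem mat_lower {F G : ℂ × ℂ → ℂ} {k n n' N : ℕ} {u u' : ℂ} {c : ℕ} {m : Fin c → ℕ}
    {b : Fin c → ℝ} {g v : Fin c → ℂ → ℂ} {a : Fin c → ℂ} {D : Fin c → ℕ}
    {γ' : Fin n' → ℂ → ℂ} {A B : ℂ × ℂ → ℂ × ℂ} {L ρ : ℝ}
    (h : Mat F G k n n' N u u' c m b g v a D γ' A B L ρ) :
    ∃ δ > (0 : ℝ), (∀ q : ℂ × ℂ, ‖q‖ < δ → ‖fderiv ℂ G q‖ ≤ 2 * L * ‖fderiv ℂ F (B q)‖) ∧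
      ∀ p : ℂ × ℂ, ‖p‖ < δ → ‖fderiv ℂ F p‖ ≤ 2 * L * ‖fderiv ℂ G (A p)‖ := by
  have hL := h.hco.hL
  have hρ := h.hco.hρ
  have hL0 : 0 < L := by linarith
  obtain ⟨δ1, hδ1, hG2⟩ := small_second G h.hG.an k h.hk h.hG.bdF (1 / (2 * L)) (by positivity)
  obtain ⟨δ2, hδ2, hF2⟩ := small_second F h.hC.an k h.hk h.bdF (1 / (2 * L)) (by positivity)
  have hzero : (0 : ℂ × ℂ) ∈ ball (0 : ℂ × ℂ) ρ := mem_ball_self hρ
  have hA : ∀ p ∈ ball (0 : ℂ × ℂ) ρ, ‖A p‖ ≤ L * ‖p‖ := by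
    intro p hp
    have := h.hco.lipA p hp 0 hzero
    rwa [h.hco.A0, sub_zero, sub_zero] at this
  have hB : ∀ p ∈ ball (0 : ℂ × ℂ) ρ, ‖B p‖ ≤ L * ‖p‖ := by
    intro p hp
    have := h.hco.lipB p hp 0 hzero
    rwa [h.hco.B0, sub_zero, sub_zero] at this
  set d : ℝ := min ρ (min δ1 δ2) with hd
  have hd0 : 0 < d := lt_min hρ (lt_min hδ1 hδ2)
  have hgen : ∀ q : ℂ × ℂ, ‖q‖ < d / L ^ 2 → ‖q‖ < d ∧ L * ‖q‖ < d ∧ L * (L * ‖q‖) < d := by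
    intro q hq
    rw [lt_div_iff₀ (by positivity)] at hq
    have hn := norm_nonneg q
    have h1 : ‖q‖ ≤ L * ‖q‖ := by nlinarith
    have h2 : L * ‖q‖ ≤ L * (L * ‖q‖) := by nlinarith
    have h3 : L * (L * ‖q‖) = ‖q‖ * L ^ 2 := by ring
    refine ⟨by linarith, by linarith, by linarith⟩
  refine ⟨d / L ^ 2, by positivity, ?_, ?_⟩
  · intro q hq
    obtain ⟨e1, e2, e3⟩ := hgen q hq
    have hqρ : q ∈ ball (0 : ℂ × ℂ) ρ := by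
      rw [mem_ball_zero_iff]; exact lt_of_lt_of_le e1 (min_le_left _ _)
    have hBq := hB q hqρ
    have hBρ : B q ∈ ball (0 : ℂ × ℂ) ρ := by
      rw [mem_ball_zero_iff]
      exact lt_of_le_of_lt hBq (lt_of_lt_of_le e2 (min_le_left _ _))
    have hABq := hA (B q) hBρ
    have hABn : ‖A (B q)‖ < d :=
      lt_of_le_of_lt (hABq.trans (mul_le_mul_of_nonneg_left hBq hL0.le)) e3
    have hs := hG2 q (A (B q))
      (lt_of_lt_of_le e1 ((min_le_right _ _).trans (min_le_left _ _)))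
      (lt_of_lt_of_le hABn ((min_le_right _ _).trans (min_le_left _ _)))
    have hAB := h.hco.AB q hqρ
    have hdA := h.hco.dA (B q) hBρ
    rw [norm_sub_rev q (A (B q))] at hs
    have h1 : ‖fderiv ℂ G q‖ ≤ ‖fderiv ℂ G (A (B q))‖ + ‖fderiv ℂ G q - fderiv ℂ G (A (B q))‖ := by
      have : fderiv ℂ G q = fderiv ℂ G (A (B q)) + (fderiv ℂ G q - fderiv ℂ G (A (B q))) := by abel
      calc ‖fderiv ℂ G q‖ = ‖fderiv ℂ G (A (B q)) + (fderiv ℂ G q - fderiv ℂ G (A (B q)))‖ := by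
            rw [← this]
        _ ≤ _ := norm_add_le _ _
    have h2 : 1 / (2 * L) * ‖A (B q) - q‖ ≤ 1 / 2 * ‖fderiv ℂ G q‖ := by
      calc 1 / (2 * L) * ‖A (B q) - q‖ ≤ 1 / (2 * L) * (L * ‖fderiv ℂ G q‖) :=
            mul_le_mul_of_nonneg_left hAB (by positivity)
        _ = 1 / 2 * ‖fderiv ℂ G q‖ := by field_simp
    linarith
  · intro q hq
    obtain ⟨e1, e2, e3⟩ := hgen q hq
    have hqρ : q ∈ ball (0 : ℂ × ℂ) ρ := by
      rw [mem_ball_zero_iff]; exact lt_of_lt_of_le e1 (min_le_left _ _)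
    have hBq := hA q hqρ
    have hBρ : A q ∈ ball (0 : ℂ × ℂ) ρ := by
      rw [mem_ball_zero_iff]
      exact lt_of_le_of_lt hBq (lt_of_lt_of_le e2 (min_le_left _ _))
    have hABq := hB (A q) hBρ
    have hABn : ‖B (A q)‖ < d :=
      lt_of_le_of_lt (hABq.trans (mul_le_mul_of_nonneg_left hBq hL0.le)) e3
    have hs := hF2 q (B (A q))
      (lt_of_lt_of_le e1 ((min_le_right _ _).trans (min_le_right _ _)))
      (lt_of_lt_of_le hABn ((min_le_right _ _).trans (min_le_right _ _)))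
    have hAB := h.hco.BA q hqρ
    have hdA := h.hco.dB (A q) hBρ
    rw [norm_sub_rev q (B (A q))] at hs
    have h1 : ‖fderiv ℂ F q‖ ≤ ‖fderiv ℂ F (B (A q))‖ + ‖fderiv ℂ F q - fderiv ℂ F (B (A q))‖ := by
      have : fderiv ℂ F q = fderiv ℂ F (B (A q)) + (fderiv ℂ F q - fderiv ℂ F (B (A q))) := by abel
      calc ‖fderiv ℂ F q‖ = ‖fderiv ℂ F (B (A q)) + (fderiv ℂ F q - fderiv ℂ F (B (A q)))‖ := by
            rw [← this]
        _ ≤ _ := norm_add_le _ _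
    have h2 : 1 / (2 * L) * ‖B (A q) - q‖ ≤ 1 / 2 * ‖fderiv ℂ F q‖ := by
      calc 1 / (2 * L) * ‖B (A q) - q‖ ≤ 1 / (2 * L) * (L * ‖fderiv ℂ F q‖) :=
            mul_le_mul_of_nonneg_left hAB (by positivity)
        _ = 1 / 2 * ‖fderiv ℂ F q‖ := by field_simp
    linarith

theorem mat_size {F G : ℂ × ℂ → ℂ} {k n n' N : ℕ} {u u' : ℂ} {c : ℕ} {m : Fin c → ℕ}
    {b : Fin c → ℝ} {g v : Fin c → ℂ → ℂ} {a : Fin c → ℂ} {D : Fin c → ℕ}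
    {γ' : Fin n' → ℂ → ℂ} {A B : ℂ × ℂ → ℂ × ℂ} {L ρ : ℝ}
    (h : Mat F G k n n' N u u' c m b g v a D γ' A B L ρ) :
    ∃ c0 > (0 : ℝ), ∃ δ > (0 : ℝ), ∀ t : ℂ, 0 < ‖t‖ → ‖t‖ < δ → ∀ C,
      c0 * ‖t‖ ^ N ≤ ‖(A (pt g N C t)).2‖ ∧ ‖(A (pt g N C t)).2‖ ≤ L * ‖t‖ ^ N := by
  have hL := h.hco.hL
  have hρ := h.hco.hρ
  have hL0 : 0 < L := by linarith
  have hN1 := h.hC.hN
  have hk := h.hk
  obtain ⟨C0, hC0, δ0, hδ0, hbd⟩ := h.bdF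
  obtain ⟨δ1, hδ1, hcone⟩ := h.cone (1 / 2) (by norm_num)
  have hzero : (0 : ℂ × ℂ) ∈ ball (0 : ℂ × ℂ) ρ := mem_ball_self hρ
  -- smallness of the centres
  obtain ⟨δ2, hδ2, hg⟩ : ∃ δ > (0 : ℝ), ∀ t : ℂ, 0 < ‖t‖ → ‖t‖ < δ →
      ∀ C, ‖g C t‖ ≤ min δ1 1 * ‖t‖ ^ N := by
    apply F0_ev
    rw [eventually_all]
    intro C
    have h1 := isLittleO_iff.1 (h.hC.gsm C) (show (0 : ℝ) < min δ1 1 by positivity)
    filter_upwards [h1] with t ht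
    rwa [norm_pow] at ht
  set d : ℝ := min (min (min δ0 δ1) (min (ρ / L) 1)) (1 / (2 * L * C0)) with hd
  have hd0 : 0 < d := by positivity
  refine ⟨1 / (2 * L), by positivity, min δ2 (min d 1), by positivity, ?_⟩
  intro t h0 hlt C
  have hlt2 : ‖t‖ < δ2 := lt_of_lt_of_le hlt (min_le_left _ _)
  have hltd : ‖t‖ < d := lt_of_lt_of_le hlt ((min_le_right _ _).trans (min_le_left _ _))
  have hlt1 : ‖t‖ < 1 := lt_of_lt_of_le hlt ((min_le_right _ _).trans (min_le_right _ _))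
  have htN : 0 < ‖t‖ ^ N := by positivity
  have htNle : ‖t‖ ^ N ≤ ‖t‖ := by
    calc ‖t‖ ^ N ≤ ‖t‖ ^ 1 := pow_le_pow_of_le_one h0.le hlt1.le hN1
      _ = ‖t‖ := pow_one _
  have htNd : ‖t‖ ^ N < d := lt_of_le_of_lt htNle hltd
  have hd1 : d ≤ δ0 := (min_le_left _ _).trans ((min_le_left _ _).trans (min_le_left _ _))
  have hd2 : d ≤ δ1 := (min_le_left _ _).trans ((min_le_left _ _).trans (min_le_right _ _))
  have hd3 : d ≤ ρ / L := (min_le_left _ _).trans ((min_le_right _ _).trans (min_le_left _ _))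
  have hd4 : d ≤ 1 := (min_le_left _ _).trans ((min_le_right _ _).trans (min_le_right _ _))
  have hd5 : d ≤ 1 / (2 * L * C0) := min_le_right _ _
  have hgC := hg t h0 hlt2 C
  set p : ℂ × ℂ := pt g N C t with hp
  have hp2 : p.2 = t ^ N := rfl
  have hp1 : p.1 = g C t := rfl
  have hpn : ‖p‖ = ‖t‖ ^ N := by
    rw [Prod.norm_def, hp1, hp2, norm_pow]
    apply max_eq_right
    refine hgC.trans ?_
    calc min δ1 1 * ‖t‖ ^ N ≤ 1 * ‖t‖ ^ N := mul_le_mul_of_nonneg_right (min_le_right _ _) htN.le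
      _ = ‖t‖ ^ N := one_mul _
  have hpd : L * ‖p‖ < ρ := by
    rw [hpn]
    have : ‖t‖ ^ N < ρ / L := lt_of_lt_of_le htNd hd3
    rw [lt_div_iff₀ hL0] at this
    linarith
  have hpρ : p ∈ ball (0 : ℂ × ℂ) ρ := by
    rw [mem_ball_zero_iff]
    have := norm_nonneg p
    nlinarith
  have hAp : ‖A p‖ ≤ L * ‖p‖ := by
    have := h.hco.lipA p hpρ 0 hzero
    rwa [h.hco.A0, sub_zero, sub_zero] at this
  have hApρ : A p ∈ ball (0 : ℂ × ℂ) ρ := by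
    rw [mem_ball_zero_iff]; exact lt_of_le_of_lt hAp hpd
  have hBAp : ‖B (A p)‖ ≤ L * ‖A p‖ := by
    have := h.hco.lipB (A p) hApρ 0 hzero
    rwa [h.hco.B0, sub_zero, sub_zero] at this
  have hBA := h.hco.BA p hpρ
  have hF : ‖fderiv ℂ F p‖ ≤ C0 * ‖p‖ ^ (k - 1) := hbd p (by rw [hpn]; exact lt_of_lt_of_le htNd hd1)
  have hpk : ‖p‖ ^ (k - 1) ≤ ‖p‖ ^ 2 :=
    pow_le_pow_of_le_one (norm_nonneg _) (by rw [hpn]; linarith) (by omega)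
  have hsmall : L * (C0 * ‖p‖ ^ (k - 1)) ≤ 1 / 2 * ‖p‖ := by
    have h1 : ‖p‖ ≤ 1 / (2 * L * C0) := by rw [hpn]; linarith
    rw [le_div_iff₀ (by positivity)] at h1
    calc L * (C0 * ‖p‖ ^ (k - 1)) ≤ L * (C0 * ‖p‖ ^ 2) := by
          refine mul_le_mul_of_nonneg_left ?_ hL0.le
          exact mul_le_mul_of_nonneg_left hpk hC0.le
      _ = 1 / 2 * (‖p‖ * (2 * L * C0)) * ‖p‖ := by ring
      _ ≤ 1 / 2 * 1 * ‖p‖ := by
          refine mul_le_mul_of_nonneg_right ?_ (norm_nonneg _)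
          exact mul_le_mul_of_nonneg_left h1 (by norm_num)
      _ = 1 / 2 * ‖p‖ := by ring
  have hlow : ‖p‖ ≤ 2 * L * ‖A p‖ := by
    have h1 : ‖p‖ ≤ ‖B (A p)‖ + ‖B (A p) - p‖ := by
      have : p = B (A p) - (B (A p) - p) := by abel
      calc ‖p‖ = ‖B (A p) - (B (A p) - p)‖ := by rw [← this]
        _ ≤ _ := norm_sub_le _ _
    have h2 : ‖B (A p) - p‖ ≤ L * (C0 * ‖p‖ ^ (k - 1)) :=
      hBA.trans (mul_le_mul_of_nonneg_left hF hL0.le)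
    linarith
  have hc : ‖(A p).1‖ ≤ 1 / 2 * ‖(A p).2‖ := by
    have := hcone (g C t) (t ^ N) (by rw [norm_pow]; exact lt_of_lt_of_le htNd hd2) (by
      rw [norm_pow]
      exact hgC.trans (mul_le_mul_of_nonneg_right (min_le_left _ _) htN.le))
    exact this
  have hA2 : ‖A p‖ = ‖(A p).2‖ := by
    rw [Prod.norm_def]
    apply max_eq_right
    have := norm_nonneg (A p).2
    linarith
  rw [← hA2]
  constructor
  · rw [← hpn, one_div, inv_mul_le_iff₀ (by positivity)]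
    exact hlow
  · rw [← hpn]; exact hAp

end H24.LS
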