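import Pool.Agent.H24.LS.Base

/-!
# V0: slow variation of analytic functions, roots, limits of continuous functions

* `root_near`: `t1 = t (1 + z)^{1/N}` (principal power), `z = y1/t^N - 1`, `‖z‖ ≤ 1/10`.
* `slow_small`: from `slow_rel`.
* `slow_rel`: `φ = t^a g(t)`, `g(0) ≠ 0`: `‖φ'(s)‖ ≤ C ‖s‖^{a-1}`, `‖φ t‖ ≥ c ‖t‖^a`
  (if `φ` vanishes near `0` trivial).
* `deriv_bigO`, `deriv_littleO`: `t φ'(t) = O(φ)`.
* `tendsto_of_finite`: punctured discs are connected.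
-/

open Filter Topology Metric Asymptotics

namespace H24.LS

theorem root_near (N : ℕ) (hN : 1 ≤ N) : ∃ C : ℝ, 1 ≤ C ∧ ∀ t y1 : ℂ, t ≠ 0 →
    ‖y1 - t ^ N‖ ≤ ‖t‖ ^ N / 10 →
    ∃ t1 : ℂ, t1 ^ N = y1 ∧ ‖t1 - t‖ * ‖t‖ ^ (N - 1) ≤ C * ‖y1 - t ^ N‖ ∧ ‖t1 - t‖ ≤ ‖t‖ / 2 := by
  refine ⟨3, by norm_num, fun t y1 ht hy => ?_⟩
  have htN : t ^ N ≠ 0 := pow_ne_zero _ ht
  have htn : 0 < ‖t‖ := norm_pos_iff.2 ht
  have htNn : 0 < ‖t‖ ^ N := pow_pos htn _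
  set z : ℂ := y1 / t ^ N - 1 with hz
  have hzn : ‖z‖ * ‖t‖ ^ N = ‖y1 - t ^ N‖ := by
    rw [← norm_pow, ← norm_mul]
    congr 1
    rw [hz]
    field_simp
  have hz10 : ‖z‖ ≤ 1 / 10 := by
    by_contra! hlt
    have := mul_lt_mul_of_pos_right hlt htNn
    rw [hzn] at this
    linarith
  have hNne : N ≠ 0 := by omega
  have hNR : (1 : ℝ) ≤ N := by exact_mod_cast hN
  have hlog : ‖Complex.log (1 + z)‖ ≤ 3 / 2 * ‖z‖ :=
    Complex.norm_log_one_add_half_le_self (hz10.trans (by norm_num))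
  have h1z : (1 : ℂ) + z ≠ 0 := by
    intro h
    have h2 : z = -1 := by linear_combination h
    rw [h2] at hz10
    norm_num at hz10
  set u : ℂ := Complex.log (1 + z) * ((N : ℂ)⁻¹) with hu
  have hun : ‖u‖ ≤ 3 / 2 * ‖z‖ := by
    rw [hu, norm_mul, norm_inv, Complex.norm_natCast]
    calc ‖Complex.log (1 + z)‖ * (N : ℝ)⁻¹ ≤ ‖Complex.log (1 + z)‖ * 1 := by
          gcongr
          exact inv_le_one_of_one_le₀ hNR
      _ ≤ 3 / 2 * ‖z‖ := by rw [mul_one]; exact hlog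
  have hexp : ‖Complex.exp u - 1‖ ≤ 3 * ‖z‖ := by
    refine (Complex.norm_exp_sub_one_le (hun.trans (by linarith))).trans (by linarith)
  have hpow : Complex.exp u ^ N = 1 + z := by
    rw [← Complex.exp_nat_mul, hu]
    have : (N : ℂ) * (Complex.log (1 + z) * (N : ℂ)⁻¹) = Complex.log (1 + z) := by
      have : (N : ℂ) ≠ 0 := by exact_mod_cast hNne
      field_simp
    rw [this, Complex.exp_log h1z]
  have hdiff : ‖t * Complex.exp u - t‖ = ‖t‖ * ‖Complex.exp u - 1‖ := by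
    rw [← norm_mul]
    congr 1
    ring
  refine ⟨t * Complex.exp u, ?_, ?_, ?_⟩
  · rw [mul_pow, hpow, hz]
    field_simp
    ring
  · rw [hdiff, ← hzn]
    have : ‖t‖ * ‖Complex.exp u - 1‖ * ‖t‖ ^ (N - 1) = ‖Complex.exp u - 1‖ * ‖t‖ ^ N := by
      have hN' : ‖t‖ ^ N = ‖t‖ ^ (N - 1) * ‖t‖ := by
        rw [← pow_succ]
        congr 1
        omega
      rw [hN']
      ring
    rw [this, ← mul_assoc]
    gcongr
  · rw [hdiff]
    nlinarith [norm_nonneg z]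

/-- Local form of an analytic function: it vanishes near `0`, or near `0` it is comparable with a
power of `‖s‖` and its logarithmic derivative is `O(1/‖s‖)`. -/
theorem V0_local (φ : ℂ → ℂ) (hφ : AnalyticAt ℂ φ 0) :
    (∃ ρ > (0 : ℝ), ∀ s, ‖s‖ < ρ → φ s = 0 ∧ deriv φ s = 0) ∨
    ∃ (a : ℕ) (ρ c C C1 : ℝ), 0 < ρ ∧ 0 < c ∧ 0 < C ∧ 0 < C1 ∧ ∀ s, ‖s‖ < ρ →
      DifferentiableAt ℂ φ s ∧ c * ‖s‖ ^ a ≤ ‖φ s‖ ∧ ‖φ s‖ ≤ C * ‖s‖ ^ a ∧
      ‖s * deriv φ s‖ ≤ C1 * ‖φ s‖ := by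
  rcases hφ.eventually_eq_zero_or_eventually_ne_zero with h0 | h0
  · left
    obtain ⟨ρ, hρ, h⟩ := Metric.eventually_nhds_iff.1 h0.eventually_nhds
    refine ⟨ρ, hρ, fun s hs => ?_⟩
    have hs' := h (y := s) (by rwa [dist_zero_right])
    exact ⟨hs'.self_of_nhds, (Filter.EventuallyEq.deriv_eq hs').trans (by simp)⟩
  · right
    have hne : ¬ ∀ᶠ z in 𝓝 (0 : ℂ), φ z = 0 := by
      intro h
      have h2 := (h.filter_mono (nhdsWithin_le_nhds (s := {(0 : ℂ)}ᶜ))).and h0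
      obtain ⟨z, hz1, hz2⟩ := h2.exists
      exact hz2 hz1
    obtain ⟨a, g, hg, hg0, hgφ⟩ := (hφ.exists_eventuallyEq_pow_smul_nonzero_iff).2 hne
    have hg0' : 0 < ‖g 0‖ := norm_pos_iff.2 hg0
    -- bounds for `g` and `g'`
    have e1 : ∀ᶠ s in 𝓝 (0 : ℂ), ‖g 0‖ / 2 < ‖g s‖ :=
      hg.continuousAt.norm.eventually_const_lt (half_lt_self hg0')
    have e2 : ∀ᶠ s in 𝓝 (0 : ℂ), ‖g s‖ < 2 * ‖g 0‖ :=
      hg.continuousAt.norm.eventually_lt_const (by linarith)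
    have e3 : ∀ᶠ s in 𝓝 (0 : ℂ), ‖deriv g s‖ < ‖deriv g 0‖ + 1 :=
      hg.deriv.continuousAt.norm.eventually_lt_const (by linarith)
    have e4 : ∀ᶠ s in 𝓝 (0 : ℂ), ∀ᶠ x in 𝓝 s, φ x = (x - 0) ^ a • g x := hgφ.eventually_nhds
    have e5 : ∀ᶠ s in 𝓝 (0 : ℂ), AnalyticAt ℂ g s := hg.eventually_analyticAt
    have e6 : ∀ᶠ s in 𝓝 (0 : ℂ), AnalyticAt ℂ φ s := hφ.eventually_analyticAt
    obtain ⟨ρ, hρ, h⟩ := Metric.eventually_nhds_iff.1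
      (e1.and (e2.and (e3.and (e4.and (e5.and e6)))))
    refine ⟨a, min ρ 1, ‖g 0‖ / 2, 2 * ‖g 0‖, (a * (2 * ‖g 0‖) + (‖deriv g 0‖ + 1)) /
      (‖g 0‖ / 2), by positivity, by positivity, by positivity, by positivity, fun s hs => ?_⟩
    have hs1 : ‖s‖ < ρ := hs.trans_le (min_le_left _ _)
    have hs2 : ‖s‖ < 1 := hs.trans_le (min_le_right _ _)
    obtain ⟨f1, f2, f3, f4, f5, f6⟩ := h (y := s) (by rwa [dist_zero_right])
    have hφs : φ s = s ^ a * g s := by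
      have := f4.self_of_nhds
      rwa [sub_zero, smul_eq_mul] at this
    have hlow : ‖g 0‖ / 2 * ‖s‖ ^ a ≤ ‖φ s‖ := by
      rw [hφs, norm_mul, norm_pow, mul_comm]
      gcongr
    refine ⟨f6.differentiableAt, hlow, ?_, ?_⟩
    · rw [hφs, norm_mul, norm_pow, mul_comm]
      gcongr
    · have hder : deriv φ s = a * s ^ (a - 1) * g s + s ^ a * deriv g s := by
        have h1 : φ =ᶠ[𝓝 s] fun x => x ^ a * g x := by
          filter_upwards [f4] with x hx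
          rwa [sub_zero, smul_eq_mul] at hx
        rw [h1.deriv_eq]
        have h2 := ((hasDerivAt_pow a s).mul f5.differentiableAt.hasDerivAt)
        exact h2.deriv
      have hder2 : s * deriv φ s = s ^ a * (a * g s + s * deriv g s) := by
        rw [hder]
        rcases Nat.eq_zero_or_pos a with rfl | ha
        · simp
        · obtain ⟨b, rfl⟩ := Nat.exists_eq_succ_of_ne_zero ha.ne'
          simp only [Nat.succ_eq_add_one, Nat.add_sub_cancel]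
          ring
      rw [hder2, norm_mul, norm_pow]
      have hb : ‖(a : ℂ) * g s + s * deriv g s‖ ≤ a * (2 * ‖g 0‖) + (‖deriv g 0‖ + 1) := by
        refine (norm_add_le _ _).trans ?_
        rw [norm_mul, norm_mul, Complex.norm_natCast]
        have h3 : ‖s‖ * ‖deriv g s‖ ≤ 1 * (‖deriv g 0‖ + 1) := by gcongr
        have h4 : (a : ℝ) * ‖g s‖ ≤ a * (2 * ‖g 0‖) := by gcongr
        linarith
      calc ‖s‖ ^ a * ‖(a : ℂ) * g s + s * deriv g s‖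
          ≤ ‖s‖ ^ a * (a * (2 * ‖g 0‖) + (‖deriv g 0‖ + 1)) := by gcongr
        _ = (a * (2 * ‖g 0‖) + (‖deriv g 0‖ + 1)) / (‖g 0‖ / 2) * (‖g 0‖ / 2 * ‖s‖ ^ a) := by
            field_simp
        _ ≤ _ := by gcongr

theorem slow_rel (φ : ℂ → ℂ) (hφ : AnalyticAt ℂ φ 0) :
    ∃ C > (0 : ℝ), ∃ δ > (0 : ℝ), ∀ t t1 : ℂ, 0 < ‖t‖ → ‖t‖ < δ → ‖t1 - t‖ ≤ ‖t‖ / 2 →
      ‖φ t1 - φ t‖ * ‖t‖ ≤ C * ‖t1 - t‖ * ‖φ t‖ := by
  rcases V0_local φ hφ with ⟨ρ, hρ, h⟩ | ⟨a, ρ, c, C, C1, hρ, hc, hC, hC1, h⟩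
  · refine ⟨1, one_pos, ρ / 2, by positivity, fun t t1 ht htρ ht1 => ?_⟩
    have h1 : ‖t1‖ < ρ := by
      have := norm_add_le (t1 - t) t
      rw [sub_add_cancel] at this
      linarith
    rw [(h t1 h1).1, (h t (by linarith)).1]
    simp
  · refine ⟨C1 * C * (3 / 2) ^ a * 2 / c, by positivity, ρ / 2, by positivity,
      fun t t1 ht htρ ht1 => ?_⟩
    have hseg : ∀ s ∈ segment ℝ t t1, ‖s - t‖ ≤ ‖t‖ / 2 := by
      intro s hs
      rw [segment_eq_image'] at hs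
      obtain ⟨θ, hθ, rfl⟩ := hs
      simp only [add_sub_cancel_left, norm_smul, Real.norm_eq_abs, abs_of_nonneg hθ.1]
      calc θ * ‖t1 - t‖ ≤ 1 * (‖t‖ / 2) := by
            gcongr
            exact hθ.2
        _ = ‖t‖ / 2 := one_mul _
    have hsn : ∀ s ∈ segment ℝ t t1, ‖t‖ / 2 ≤ ‖s‖ ∧ ‖s‖ ≤ 3 / 2 * ‖t‖ := by
      intro s hs
      have h1 := hseg s hs
      have h2 := norm_sub_norm_le t s
      have h3 := norm_sub_norm_le s t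
      rw [norm_sub_rev t s] at h2
      constructor <;> linarith
    have hder : ∀ s ∈ segment ℝ t t1,
        ‖deriv φ s‖ ≤ C1 * C * (3 / 2) ^ a * 2 * ‖t‖ ^ a / ‖t‖ := by
      intro s hs
      obtain ⟨h1, h2⟩ := hsn s hs
      obtain ⟨_, _, h5, h6⟩ := h s (by linarith)
      have hs0 : 0 < ‖s‖ := by linarith
      rw [norm_mul] at h6
      rw [le_div_iff₀ ht]
      have h7 : ‖s‖ ^ a ≤ (3 / 2 * ‖t‖) ^ a := by gcongr
      have h8 : ‖s‖ * ‖deriv φ s‖ ≤ C1 * (C * (3 / 2 * ‖t‖) ^ a) :=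
        h6.trans (mul_le_mul_of_nonneg_left (h5.trans (by gcongr)) hC1.le)
      calc ‖deriv φ s‖ * ‖t‖ ≤ ‖deriv φ s‖ * (2 * ‖s‖) := by
            gcongr
            linarith
        _ = 2 * (‖s‖ * ‖deriv φ s‖) := by ring
        _ ≤ 2 * (C1 * (C * (3 / 2 * ‖t‖) ^ a)) := by linarith
        _ = C1 * C * (3 / 2) ^ a * 2 * ‖t‖ ^ a := by
            rw [mul_pow]
            ring
    have hmvt := (convex_segment t t1).norm_image_sub_le_of_norm_deriv_le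
      (f := φ) (𝕜 := ℂ) (fun s hs => (h s (by linarith [(hsn s hs).2])).1) hder
      (left_mem_segment ℝ t t1) (right_mem_segment ℝ t t1)
    obtain ⟨_, h4, _, _⟩ := h t (by linarith)
    calc ‖φ t1 - φ t‖ * ‖t‖
        ≤ (C1 * C * (3 / 2) ^ a * 2 * ‖t‖ ^ a / ‖t‖ * ‖t1 - t‖) * ‖t‖ := by gcongr
      _ = C1 * C * (3 / 2) ^ a * 2 / c * ‖t1 - t‖ * (c * ‖t‖ ^ a) := by
          field_simp
      _ ≤ _ := by gcongr

theorem slow_small (N : ℕ) (hN : 1 ≤ N) (φ : ℂ → ℂ) (hφ : AnalyticAt ℂ φ 0)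
    (hs : φ =o[𝓝[≠] 0] (fun t : ℂ => t ^ N)) :
    ∀ ε > (0 : ℝ), ∃ δ > (0 : ℝ), ∀ t t1 : ℂ, 0 < ‖t‖ → ‖t‖ < δ → ‖t1 - t‖ ≤ ‖t‖ / 2 →
      ‖φ t1 - φ t‖ ≤ ε * ‖t‖ ^ (N - 1) * ‖t1 - t‖ := by
  intro ε hε
  obtain ⟨C, hC, δ, hδ, h⟩ := slow_rel φ hφ
  have h1 := hs.def (c := ε / C) (by positivity)
  rw [eventually_nhdsWithin_iff] at h1
  obtain ⟨ρ, hρ, h2⟩ := Metric.eventually_nhds_iff.1 h1
  refine ⟨min δ ρ, lt_min hδ hρ, fun t t1 ht htδ ht1 => ?_⟩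
  have h3 := h t t1 ht (htδ.trans_le (min_le_left _ _)) ht1
  have h4 := h2 (y := t) (by rw [dist_zero_right]; exact htδ.trans_le (min_le_right _ _))
    (by simpa using norm_pos_iff.1 ht)
  rw [norm_pow] at h4
  have hN' : ‖t‖ ^ N = ‖t‖ ^ (N - 1) * ‖t‖ := by
    rw [← pow_succ]
    congr 1
    omega
  refine le_of_mul_le_mul_right ?_ ht
  calc ‖φ t1 - φ t‖ * ‖t‖ ≤ C * ‖t1 - t‖ * ‖φ t‖ := h3
    _ ≤ C * ‖t1 - t‖ * (ε / C * ‖t‖ ^ N) := by gcongr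
    _ = ε * ‖t‖ ^ (N - 1) * ‖t1 - t‖ * ‖t‖ := by
        rw [hN']
        field_simp

theorem V0_deriv (φ : ℂ → ℂ) (hφ : AnalyticAt ℂ φ 0) :
    (fun t => t * deriv φ t) =O[𝓝[≠] 0] φ := by
  rcases V0_local φ hφ with ⟨ρ, hρ, h⟩ | ⟨a, ρ, c, C, C1, hρ, hc, hC, hC1, h⟩
  · refine IsBigO.of_bound 1 (Filter.Eventually.filter_mono nhdsWithin_le_nhds ?_)
    refine Metric.eventually_nhds_iff.2 ⟨ρ, hρ, fun {s} hs => ?_⟩
    rw [dist_zero_right] at hs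
    rw [(h s hs).2]
    simp
  · refine IsBigO.of_bound C1 (Filter.Eventually.filter_mono nhdsWithin_le_nhds ?_)
    refine Metric.eventually_nhds_iff.2 ⟨ρ, hρ, fun {s} hs => ?_⟩
    rw [dist_zero_right] at hs
    exact (h s hs).2.2.2

theorem deriv_bigO (φ ψ : ℂ → ℂ) (hφ : AnalyticAt ℂ φ 0) (hψ : AnalyticAt ℂ ψ 0)
    (h : φ =O[𝓝[≠] 0] ψ) : (fun t => t * deriv φ t) =O[𝓝[≠] 0] ψ :=
  (V0_deriv φ hφ).trans h

theorem deriv_littleO (φ ψ : ℂ → ℂ) (hφ : AnalyticAt ℂ φ 0) (hψ : AnalyticAt ℂ ψ 0)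
    (h : φ =o[𝓝[≠] 0] ψ) : (fun t => t * deriv φ t) =o[𝓝[≠] 0] ψ :=
  (V0_deriv φ hφ).trans_isLittleO h

theorem punctured_preconnected (δ : ℝ) : IsPreconnected {t : ℂ | 0 < ‖t‖ ∧ ‖t‖ < δ} := by
  have himg : {t : ℂ | 0 < ‖t‖ ∧ ‖t‖ < δ} =
      (fun p : ℝ × ℝ => (p.1 : ℂ) * Complex.exp (p.2 * Complex.I)) ''
        (Set.Ioo 0 δ ×ˢ (Set.univ : Set ℝ)) := by
    ext t
    constructor
    · rintro ⟨h1, h2⟩
      exact ⟨(‖t‖, Complex.arg t), ⟨⟨h1, h2⟩, Set.mem_univ _⟩,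
        Complex.norm_mul_exp_arg_mul_I t⟩
    · rintro ⟨⟨r, θ⟩, ⟨⟨h1, h2⟩, _⟩, rfl⟩
      have : ‖(r : ℂ) * Complex.exp (θ * Complex.I)‖ = r := by
        rw [norm_mul, Complex.norm_exp_ofReal_mul_I, mul_one, Complex.norm_real,
          Real.norm_of_nonneg (le_of_lt h1)]
      simp only [Set.mem_ofPred_eq, this]
      exact ⟨h1, h2⟩
  rw [himg]
  refine ((isPreconnected_Ioo).prod isPreconnected_univ).image _ ?_
  exact Continuous.continuousOn (by fun_prop)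

theorem tendsto_of_finite (f : ℂ → ℂ) (Z : Finset ℂ)
    (hf : ∀ᶠ t in 𝓝[≠] (0 : ℂ), ContinuousAt f t)
    (hZ : ∀ ε > (0 : ℝ), ∀ᶠ t in 𝓝[≠] (0 : ℂ), ∃ z ∈ Z, ‖f t - z‖ < ε) :
    ∃ z ∈ Z, Tendsto f (𝓝[≠] 0) (𝓝 z) := by
  classical
  -- separation
  obtain ⟨ε0, hε0, hsep⟩ : ∃ ε0 > (0 : ℝ), ∀ z ∈ Z, ∀ z' ∈ Z, z ≠ z' → 2 * ε0 ≤ dist z z' := by
    rcases Z.offDiag.eq_empty_or_nonempty with he | hne
    · refine ⟨1, one_pos, fun z hz z' hz' hne => ?_⟩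
      have : (z, z') ∈ Z.offDiag := Finset.mem_offDiag.2 ⟨hz, hz', hne⟩
      rw [he] at this
      simp at this
    · obtain ⟨p, hp, hmin⟩ := Z.offDiag.exists_min_image (fun p => dist p.1 p.2) hne
      have hp' := Finset.mem_offDiag.1 hp
      refine ⟨dist p.1 p.2 / 2, half_pos (dist_pos.2 hp'.2.2), fun z hz z' hz' hne => ?_⟩
      have := hmin (z, z') (Finset.mem_offDiag.2 ⟨hz, hz', hne⟩)
      simp only at this
      linarith
  have hev := hf.and (hZ ε0 hε0)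
  rw [eventually_nhdsWithin_iff] at hev
  obtain ⟨δ, hδ, hδ'⟩ := Metric.eventually_nhds_iff.1 hev
  have hD : ∀ t : ℂ, 0 < ‖t‖ → ‖t‖ < δ → ContinuousAt f t ∧ ∃ z ∈ Z, ‖f t - z‖ < ε0 := by
    intro t h1 h2
    exact hδ' (y := t) (by rwa [dist_zero_right]) (by simpa using norm_pos_iff.1 h1)
  have hpre := (punctured_preconnected δ).image f
    (fun t ht => (hD t ht.1 ht.2).1.continuousWithinAt)
  have ht0 : (0 : ℝ) < ‖((δ / 2 : ℝ) : ℂ)‖ ∧ ‖((δ / 2 : ℝ) : ℂ)‖ < δ := by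
    rw [Complex.norm_real, Real.norm_of_nonneg (by positivity)]
    constructor <;> linarith
  obtain ⟨z0, hz0, hz0f⟩ := (hD _ ht0.1 ht0.2).2
  -- the function stays near `z0`
  have hstay : ∀ t : ℂ, 0 < ‖t‖ → ‖t‖ < δ → ‖f t - z0‖ < ε0 := by
    have hsub : f '' {t : ℂ | 0 < ‖t‖ ∧ ‖t‖ < δ} ⊆
        ball z0 ε0 ∪ ⋃ z ∈ Z.erase z0, ball z ε0 := by
      rintro _ ⟨t, ht, rfl⟩
      obtain ⟨z, hz, hzf⟩ := (hD t ht.1 ht.2).2
      by_cases hzz : z = z0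
      · left
        rw [mem_ball, dist_eq_norm, ← hzz]
        exact hzf
      · right
        refine Set.mem_iUnion₂.2 ⟨z, Finset.mem_erase.2 ⟨hzz, hz⟩, ?_⟩
        rw [mem_ball, dist_eq_norm]
        exact hzf
    have hdis : Disjoint (ball z0 ε0) (⋃ z ∈ Z.erase z0, ball z ε0) := by
      rw [Set.disjoint_left]
      intro w hw hw'
      obtain ⟨z, hz, hwz⟩ := Set.mem_iUnion₂.1 hw'
      have h1 := hsep z (Finset.mem_of_mem_erase hz) z0 hz0 (Finset.ne_of_mem_erase hz)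
      have h2 := dist_triangle_left z z0 w
      rw [mem_ball] at hw hwz
      linarith
    have hL := hpre.subset_left_of_subset_union isOpen_ball
      (isOpen_biUnion fun z _ => isOpen_ball) hdis hsub
      ⟨f ((δ / 2 : ℝ) : ℂ), ⟨_, ht0, rfl⟩, by rw [mem_ball, dist_eq_norm]; exact hz0f⟩
    intro t h1 h2
    have := hL ⟨t, ⟨h1, h2⟩, rfl⟩
    rwa [mem_ball, dist_eq_norm] at this
  refine ⟨z0, hz0, ?_⟩
  rw [Metric.tendsto_nhds]
  intro ε hε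
  have h1 := hZ (min ε ε0) (lt_min hε hε0)
  have h2 : ∀ᶠ t in 𝓝[≠] (0 : ℂ), 0 < ‖t‖ ∧ ‖t‖ < δ := by
    rw [eventually_nhdsWithin_iff]
    refine Metric.eventually_nhds_iff.2 ⟨δ, hδ, fun {t} ht hne => ?_⟩
    rw [dist_zero_right] at ht
    exact ⟨norm_pos_iff.2 (by simpa using hne), ht⟩
  filter_upwards [h1, h2] with t ⟨z, hz, hzt⟩ ht
  have h3 := hstay t ht.1 ht.2
  by_cases hzz : z = z0
  · rw [dist_eq_norm, ← hzz]
    exact hzt.trans_le (min_le_left _ _)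
  · exfalso
    have h4 := hsep z hz z0 hz0 hzz
    have h5 := dist_triangle_left z z0 (f t)
    rw [dist_eq_norm (f t) z, dist_eq_norm (f t) z0] at h5
    have h6 := hzt.trans_le (min_le_right _ _)
    linarith

end H24.LS
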