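import Pool.Agent.H24.LS.P0
import Pool.Agent.H24.LS.V0
import Pool.Agent.H24.LS.F0
import Pool.Agent.H24.LS.E3

/-!
# F1: slopes in windows around the centres and around their images

`e = N (k-1-n)`, `s_C = ‖t‖^(b C)`.
* `win_F`: for `q = (x, y1)` with `‖q - pt‖ ≤ R s`, `s_C ≤ s ≤ δ‖t‖^N`: `root_near` gives `t1`, `t1^N = y1`,
  `‖t1 - t‖ ‖t‖^(N-1) ≤ C R s`.  By `slow_small`, `‖g C t1 - g C t‖ ≤ s`; by `slow_rel` the differences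
  `g C - g C'` and `‖t‖` change by at most a factor `2`, so `cE C σ t1 ≤ K cE C σ t` for all `σ ≥ 0`
  (`‖t1‖^(b) ≤ 2^b ‖t‖^b`).  `‖x - g C t1‖ ≤ (R+1) s`.  `F1`: `‖dx F q‖ ≤ C0 cE C ((R+1)s) t1 ≤ K (R+1)^n cE C s t`
  (`cE C (λσ) ≤ λ^n cE C σ` for `λ ≥ 1`, monotone in `σ`; `Σ m = n`).  `F3` (`ε = 1`): `‖dy F q‖ ≤ 2‖v C t1‖ + cE..`, and
  `‖v C t1‖ ≤ c1⁻¹ cE C 0 t1 ≤ K cE C s t` (`bal`).  `‖fderiv F q‖ ≤ ‖dx F q‖ + ‖dy F q‖`.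
* `win_F_low`: for `‖q - pt‖ ≤ R s_C`: `F3` with small `ε` at `t1`: `‖dy F q - v C t1‖ ≤ ε (‖v C t1‖ + K (R+1)^n cE C s_C)`
  and `cE C s_C t ≤ 2^n .. cE C 0 t ≤ K ‖v C t‖`; `‖v C t1‖ ≥ (3/4)‖v C t‖` (from `vord`: `v C t t^N/t^D` converges to a
  nonzero limit, and `t1/t → 1` because `‖t1 - t‖/‖t‖ ≤ C R s_C/‖t‖^N → 0` by `b C > N`).
* `win_G`: `‖q - A pt‖ ≤ R s`: `‖B q - pt‖ ≤ ‖B q - B (A pt)‖ + ‖B (A pt) - pt‖ ≤ L R s + L ‖∇F pt‖ ≤ (L R + 1) s`, as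
  `‖∇F pt‖ ≤ K cE C s_C t ≤ ε s_C` (`win_F` and `Clu.small`).  `mat_lower`: `‖∇G q‖ ≤ 2L ‖∇F (B q)‖`, `win_F`.
* `ehatG_le`: let `x0 = (A pt).1`, `t'^N = (A pt).2`.  With `A_l = s/(s + ‖x0 - γ'_l t'‖)`,
  `B_l = (x0 - γ'_l t')/(s + ‖x0 - γ'_l t'‖)` (norms add up to `1`) `prod_lower` gives `‖z‖ = 1` with
  `‖∏ (x0 + s z - γ'_l t')‖ ≥ c ∏ (s + ‖x0 - γ'_l t'‖)`; by `PCh.fac` for `G` (small `ε`):
  `‖dx G (x0 + s z, t'^N)‖ ≥ (‖u'‖/2) c Ehat`, and it is `≤ CR cE C s t` by `win_G` with `R = 1`.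
  (`‖x0 + s z‖ ≤ δ' ‖t'‖^N` by `cone`, `mat_size`, `s ≤ δ ‖t‖^N`.)
-/

open Filter Topology Metric Asymptotics

namespace H24.LS

theorem cE_scale {c : ℕ} (e : ℕ) (m : Fin c → ℕ) (b : Fin c → ℝ) (g : Fin c → ℂ → ℂ) (C : Fin c)
    (t : ℂ) (lam σ : ℝ) (hl : 1 ≤ lam) (hσ : 0 ≤ σ) :
    cE e m b g C (lam * σ) t ≤ lam ^ (∑ C', m C') * cE e m b g C σ t := by
  unfold cE
  have h1 : ∏ C', (lam * σ + ‖t‖ ^ (b C') + ‖g C t - g C' t‖) ^ m C' ≤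
      lam ^ (∑ C', m C') * ∏ C', (σ + ‖t‖ ^ (b C') + ‖g C t - g C' t‖) ^ m C' := by
    rw [← Finset.prod_pow_eq_pow_sum, ← Finset.prod_mul_distrib]
    refine Finset.prod_le_prod (fun C' _ => by positivity) fun C' _ => ?_
    rw [← mul_pow]
    refine pow_le_pow_left₀ (by positivity) ?_ _
    have h2 : 0 ≤ ‖t‖ ^ (b C') := by positivity
    have h3 : 0 ≤ ‖g C t - g C' t‖ := norm_nonneg _
    nlinarith
  calc _ ≤ ‖t‖ ^ e * (lam ^ (∑ C', m C') *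
        ∏ C', (σ + ‖t‖ ^ (b C') + ‖g C t - g C' t‖) ^ m C') :=
        mul_le_mul_of_nonneg_left h1 (by positivity)
    _ = _ := by ring

theorem cE_mono {c : ℕ} (e : ℕ) (m : Fin c → ℕ) (b : Fin c → ℝ) (g : Fin c → ℂ → ℂ) (C : Fin c)
    (t : ℂ) (σ σ' : ℝ) (hσ : 0 ≤ σ) (h : σ ≤ σ') :
    cE e m b g C σ t ≤ cE e m b g C σ' t := by
  unfold cE
  refine mul_le_mul_of_nonneg_left ?_ (by positivity)
  refine Finset.prod_le_prod (fun C' _ => by positivity) fun C' _ => ?_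
  refine pow_le_pow_left₀ (by positivity) ?_ _
  linarith

private theorem F1_cE_nonneg {c : ℕ} (e : ℕ) (m : Fin c → ℕ) (b : Fin c → ℝ)
    (g : Fin c → ℂ → ℂ) (C : Fin c) (t : ℂ) (σ : ℝ) (hσ : 0 ≤ σ) : 0 ≤ cE e m b g C σ t := by
  unfold cE
  positivity

private theorem F1_ev {P : ℂ → Prop} (h : ∀ᶠ t in 𝓝[≠] (0 : ℂ), P t) :
    ∃ δ > (0 : ℝ), ∀ t : ℂ, 0 < ‖t‖ → ‖t‖ < δ → P t := by
  rw [eventually_nhdsWithin_iff, Metric.eventually_nhds_iff] at h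
  obtain ⟨δ, hδ, h⟩ := h
  exact ⟨δ, hδ, fun t h1 h2 => h (by simpa using h2) (by simpa using h1)⟩

private theorem F1_min {ι : Type*} [Finite ι] (f : ι → ℝ) (hf : ∀ i, 0 < f i) :
    ∃ δ > (0 : ℝ), ∀ i, δ ≤ f i := by
  rcases isEmpty_or_nonempty ι with h | h
  · exact ⟨1, one_pos, fun i => h.elim i⟩
  · obtain ⟨i, hi⟩ := Finite.exists_min f
    exact ⟨f i, hf i, hi⟩

private theorem F1_max {ι : Type*} [Finite ι] (f : ι → ℝ) :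
    ∃ K ≥ (1 : ℝ), ∀ i, f i ≤ K := by
  obtain ⟨M, hM⟩ := (Set.finite_range f).bddAbove
  exact ⟨max 1 M, le_max_left _ _, fun i => (hM ⟨i, rfl⟩).trans (le_max_right _ _)⟩

private theorem F1_compare {c : ℕ} (e : ℕ) (m : Fin c → ℕ) (b : Fin c → ℝ) (g : Fin c → ℂ → ℂ)
    (hb : ∀ C, 0 ≤ b C) (gan : ∀ C, AnalyticAt ℂ (g C) 0) :
    ∃ K ≥ (1 : ℝ), ∃ δ > (0 : ℝ), ∀ t t1 : ℂ, 0 < ‖t‖ → ‖t‖ < δ → ‖t1 - t‖ ≤ ‖t‖ / 2 →
      ∀ C (σ : ℝ), 0 ≤ σ → cE e m b g C σ t1 ≤ K * cE e m b g C σ t := by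
  have h1 : ∀ p : Fin c × Fin c, ∃ K1 > (0 : ℝ), ∃ δ1 > (0 : ℝ), ∀ t t1 : ℂ, 0 < ‖t‖ → ‖t‖ < δ1 →
      ‖t1 - t‖ ≤ ‖t‖ / 2 →
      ‖(g p.1 t1 - g p.2 t1) - (g p.1 t - g p.2 t)‖ * ‖t‖ ≤ K1 * ‖t1 - t‖ * ‖g p.1 t - g p.2 t‖ :=
    fun p => slow_rel (fun t => g p.1 t - g p.2 t) ((gan p.1).sub (gan p.2))
  choose K1 hK1 δ1 hδ1 h1 using h1
  obtain ⟨δ, hδ, hδ'⟩ := F1_min δ1 hδ1
  obtain ⟨Ka, hKa, hKa'⟩ := F1_max (fun p => 1 + K1 p)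
  obtain ⟨Kb, hKb, hKb'⟩ := F1_max (fun C => (2 : ℝ) ^ (b C))
  set K0 := Ka * Kb with hK0
  have hK0a : Ka ≤ K0 := by nlinarith
  have hK0b : Kb ≤ K0 := by nlinarith
  have hK01 : 1 ≤ K0 := by linarith
  refine ⟨2 ^ e * K0 ^ (∑ C', m C'), one_le_mul_of_one_le_of_one_le (one_le_pow₀ (by norm_num))
    (one_le_pow₀ hK01), δ, hδ, ?_⟩
  intro t t1 ht0 htδ htt C σ hσ
  have ht1 : ‖t1‖ ≤ 2 * ‖t‖ := by
    have : t1 = t + (t1 - t) := by ring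
    calc ‖t1‖ = ‖t + (t1 - t)‖ := by rw [← this]
      _ ≤ ‖t‖ + ‖t1 - t‖ := norm_add_le _ _
      _ ≤ 2 * ‖t‖ := by linarith
  unfold cE
  have hfac : ∀ C', (σ + ‖t1‖ ^ (b C') + ‖g C t1 - g C' t1‖) ≤
      K0 * (σ + ‖t‖ ^ (b C') + ‖g C t - g C' t‖) := by
    intro C'
    have e1 : ‖t1‖ ^ (b C') ≤ K0 * ‖t‖ ^ (b C') := by
      calc ‖t1‖ ^ (b C') ≤ (2 * ‖t‖) ^ (b C') := Real.rpow_le_rpow (norm_nonneg _) ht1 (hb C')
        _ = 2 ^ (b C') * ‖t‖ ^ (b C') := Real.mul_rpow (by norm_num) (norm_nonneg _)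
        _ ≤ K0 * ‖t‖ ^ (b C') :=
          mul_le_mul_of_nonneg_right ((hKb' C').trans hK0b) (by positivity)
    have e2 : ‖g C t1 - g C' t1‖ ≤ K0 * ‖g C t - g C' t‖ := by
      have e3 := h1 (C, C') t t1 ht0 (htδ.trans_le (hδ' _)) htt
      simp only at e3
      have e4 : K1 (C, C') * ‖t1 - t‖ * ‖g C t - g C' t‖ ≤
          K1 (C, C') * ‖t‖ * ‖g C t - g C' t‖ := by
        refine mul_le_mul_of_nonneg_right (mul_le_mul_of_nonneg_left ?_ (hK1 _).le) (norm_nonneg _)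
        linarith
      have e5 : ‖(g C t1 - g C' t1) - (g C t - g C' t)‖ ≤ K1 (C, C') * ‖g C t - g C' t‖ := by
        refine le_of_mul_le_mul_right ?_ ht0
        calc _ ≤ K1 (C, C') * ‖t‖ * ‖g C t - g C' t‖ := e3.trans e4
          _ = _ := by ring
      have e6 : ‖g C t1 - g C' t1‖ ≤ ‖g C t - g C' t‖ +
          ‖(g C t1 - g C' t1) - (g C t - g C' t)‖ := by
        have := norm_add_le (g C t - g C' t) ((g C t1 - g C' t1) - (g C t - g C' t))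
        rwa [add_sub_cancel] at this
      have e7 := hKa' (C, C')
      have e8 := norm_nonneg (g C t - g C' t)
      have e9 : (1 + K1 (C, C')) * ‖g C t - g C' t‖ ≤ K0 * ‖g C t - g C' t‖ :=
        mul_le_mul_of_nonneg_right (e7.trans hK0a) e8
      linarith
    have e3 : σ ≤ K0 * σ := by nlinarith
    linarith
  have hprod : ∏ C', (σ + ‖t1‖ ^ (b C') + ‖g C t1 - g C' t1‖) ^ m C' ≤
      K0 ^ (∑ C', m C') * ∏ C', (σ + ‖t‖ ^ (b C') + ‖g C t - g C' t‖) ^ m C' := by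
    rw [← Finset.prod_pow_eq_pow_sum, ← Finset.prod_mul_distrib]
    refine Finset.prod_le_prod (fun C' _ => by positivity) fun C' _ => ?_
    rw [← mul_pow]
    exact pow_le_pow_left₀ (by positivity) (hfac C') _
  calc ‖t1‖ ^ e * ∏ C', (σ + ‖t1‖ ^ (b C') + ‖g C t1 - g C' t1‖) ^ m C' ≤
      (2 * ‖t‖) ^ e * (K0 ^ (∑ C', m C') *
        ∏ C', (σ + ‖t‖ ^ (b C') + ‖g C t - g C' t‖) ^ m C') :=
        mul_le_mul (pow_le_pow_left₀ (norm_nonneg _) ht1 e) hprod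
          (Finset.prod_nonneg fun C' _ => by positivity) (by positivity)
    _ = _ := by rw [mul_pow]; ring

private theorem F1_root {c N : ℕ} (hN : 1 ≤ N) (g : Fin c → ℂ → ℂ)
    (gan : ∀ C, AnalyticAt ℂ (g C) 0) (gsm : ∀ C, (g C) =o[𝓝[≠] 0] (fun t : ℂ => t ^ N)) :
    ∃ Cr ≥ (1 : ℝ), ∀ R : ℝ, 1 ≤ R → ∀ δ0 > (0 : ℝ), ∃ δ > (0 : ℝ), ∀ t : ℂ, 0 < ‖t‖ → ‖t‖ < δ →
      ∀ C (s : ℝ), 0 ≤ s → s ≤ δ * ‖t‖ ^ N → ∀ q : ℂ × ℂ, ‖q - pt g N C t‖ ≤ R * s →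
      ∃ t1 : ℂ, q = (q.1, t1 ^ N) ∧ 0 < ‖t1‖ ∧ ‖t1‖ < δ0 ∧ ‖t1 - t‖ ≤ ‖t‖ / 2 ∧
        ‖t1 - t‖ * ‖t‖ ^ (N - 1) ≤ Cr * (R * s) ∧ ‖q.1 - g C t1‖ ≤ (R + 1) * s ∧
        ‖q.1‖ < δ0 * ‖t1‖ ^ N := by
  obtain ⟨Cr, hCr, hroot⟩ := root_near N hN
  refine ⟨Cr, hCr, fun R hR δ0 hδ0 => ?_⟩
  have hCR : 0 < Cr * R := by positivity
  have h1 : ∀ C, ∃ δ > (0 : ℝ), ∀ t t1 : ℂ, 0 < ‖t‖ → ‖t‖ < δ → ‖t1 - t‖ ≤ ‖t‖ / 2 →
      ‖g C t1 - g C t‖ ≤ 1 / (Cr * R) * ‖t‖ ^ (N - 1) * ‖t1 - t‖ := fun C =>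
    slow_small N hN (g C) (gan C) (gsm C) (1 / (Cr * R)) (by positivity)
  choose δ1 hδ1 h1 using h1
  have h2 : ∀ C, ∃ δ > (0 : ℝ), ∀ t : ℂ, 0 < ‖t‖ → ‖t‖ < δ →
      ‖g C t‖ ≤ δ0 / 2 ^ N / 4 * ‖t ^ N‖ := fun C =>
    F1_ev ((isLittleO_iff.1 (gsm C)) (by positivity))
  choose δ2 hδ2 h2 using h2
  obtain ⟨d1, hd1, hd1'⟩ := F1_min δ1 hδ1
  obtain ⟨d2, hd2, hd2'⟩ := F1_min δ2 hδ2
  set δ := min (min d1 d2) (min (δ0 / 2) (min (1 / (10 * R)) (δ0 / 2 ^ N / 4 / R))) with hδdef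
  have hδ : 0 < δ := lt_min (lt_min hd1 hd2) (lt_min (by positivity)
    (lt_min (by positivity) (by positivity)))
  have hδ_1 : δ ≤ d1 := (min_le_left _ _).trans (min_le_left _ _)
  have hδ_2 : δ ≤ d2 := (min_le_left _ _).trans (min_le_right _ _)
  have hδ_3 : δ ≤ δ0 / 2 := (min_le_right _ _).trans (min_le_left _ _)
  have hδ_4 : δ ≤ 1 / (10 * R) := (min_le_right _ _).trans ((min_le_right _ _).trans (min_le_left _ _))
  have hδ_5 : δ ≤ δ0 / 2 ^ N / 4 / R :=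
    (min_le_right _ _).trans ((min_le_right _ _).trans (min_le_right _ _))
  refine ⟨δ, hδ, ?_⟩
  intro t ht0 htδ C s hs hsδ q hq
  have hq1 : ‖q.1 - g C t‖ ≤ R * s := (norm_fst_le (q - pt g N C t)).trans hq
  have hq2 : ‖q.2 - t ^ N‖ ≤ R * s := (norm_snd_le (q - pt g N C t)).trans hq
  have hR0 : 0 < R := by linarith
  have hRs : R * s ≤ ‖t‖ ^ N / 10 := by
    have : s ≤ 1 / (10 * R) * ‖t‖ ^ N := hsδ.trans (mul_le_mul_of_nonneg_right hδ_4 (by positivity))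
    calc R * s ≤ R * (1 / (10 * R) * ‖t‖ ^ N) := mul_le_mul_of_nonneg_left this hR0.le
      _ = ‖t‖ ^ N / 10 := by field_simp
  have htne : t ≠ 0 := norm_pos_iff.1 ht0
  obtain ⟨t1, e1, e2, e3⟩ := hroot t q.2 htne (hq2.trans hRs)
  have ht1a : ‖t1‖ ≤ 2 * ‖t‖ := by
    have : t1 = t + (t1 - t) := by ring
    calc ‖t1‖ = ‖t + (t1 - t)‖ := by rw [← this]
      _ ≤ ‖t‖ + ‖t1 - t‖ := norm_add_le _ _
      _ ≤ 2 * ‖t‖ := by linarith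
  have ht1b : ‖t‖ / 2 ≤ ‖t1‖ := by
    have : t = t1 - (t1 - t) := by ring
    have h3 : ‖t‖ ≤ ‖t1‖ + ‖t1 - t‖ := by
      calc ‖t‖ = ‖t1 - (t1 - t)‖ := by rw [← this]
        _ ≤ ‖t1‖ + ‖t1 - t‖ := norm_sub_le _ _
    linarith
  have e4 : ‖t1 - t‖ * ‖t‖ ^ (N - 1) ≤ Cr * (R * s) :=
    e2.trans (mul_le_mul_of_nonneg_left hq2 (by linarith))
  refine ⟨t1, by rw [e1], by linarith, by linarith, e3, e4, ?_, ?_⟩
  · have e5 := h1 C t t1 ht0 (htδ.trans_le (hδ_1.trans (hd1' C))) e3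
    have e6 : ‖g C t1 - g C t‖ ≤ s := by
      calc ‖g C t1 - g C t‖ ≤ 1 / (Cr * R) * ‖t‖ ^ (N - 1) * ‖t1 - t‖ := e5
        _ = 1 / (Cr * R) * (‖t1 - t‖ * ‖t‖ ^ (N - 1)) := by ring
        _ ≤ 1 / (Cr * R) * (Cr * (R * s)) := mul_le_mul_of_nonneg_left e4 (by positivity)
        _ = s := by field_simp
    have e7 : q.1 - g C t1 = (q.1 - g C t) - (g C t1 - g C t) := by ring
    calc ‖q.1 - g C t1‖ ≤ ‖q.1 - g C t‖ + ‖g C t1 - g C t‖ := by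
          rw [e7]; exact norm_sub_le _ _
      _ ≤ (R + 1) * s := by linarith
  · have e5 := h2 C t ht0 (htδ.trans_le (hδ_2.trans (hd2' C)))
    rw [norm_pow] at e5
    have e6 : R * s ≤ δ0 / 2 ^ N / 4 * ‖t‖ ^ N := by
      have : s ≤ δ0 / 2 ^ N / 4 / R * ‖t‖ ^ N :=
        hsδ.trans (mul_le_mul_of_nonneg_right hδ_5 (by positivity))
      calc R * s ≤ R * (δ0 / 2 ^ N / 4 / R * ‖t‖ ^ N) := mul_le_mul_of_nonneg_left this hR0.le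
        _ = δ0 / 2 ^ N / 4 * ‖t‖ ^ N := by field_simp
    have e7 : ‖q.1‖ ≤ ‖q.1 - g C t‖ + ‖g C t‖ := by
      have := norm_add_le (q.1 - g C t) (g C t)
      rwa [sub_add_cancel] at this
    have e8 : δ0 / 2 ^ N * ‖t‖ ^ N ≤ δ0 * ‖t1‖ ^ N := by
      have e9 : (‖t‖ / 2) ^ N ≤ ‖t1‖ ^ N := pow_le_pow_left₀ (by positivity) ht1b N
      calc δ0 / 2 ^ N * ‖t‖ ^ N = δ0 * (‖t‖ / 2) ^ N := by rw [div_pow]; ring
        _ ≤ δ0 * ‖t1‖ ^ N := mul_le_mul_of_nonneg_left e9 hδ0.le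
    have e9 : 0 < δ0 / 2 ^ N * ‖t‖ ^ N := by positivity
    linarith

private theorem F1_fderiv (F : ℂ × ℂ → ℂ) (q : ℂ × ℂ) :
    ‖fderiv ℂ F q‖ ≤ ‖dx F q‖ + ‖dy F q‖ := by
  refine ContinuousLinearMap.opNorm_le_bound _ (by positivity) fun v => ?_
  have h1 : v = v.1 • ((1 : ℂ), (0 : ℂ)) + v.2 • ((0 : ℂ), (1 : ℂ)) := by
    ext <;> simp
  have h2 : fderiv ℂ F q v = v.1 * dx F q + v.2 * dy F q := by
    conv_lhs => rw [h1]
    rw [map_add, map_smul, map_smul]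
    rfl
  rw [h2]
  have h3 : ‖v.1‖ ≤ ‖v‖ := norm_fst_le v
  have h4 : ‖v.2‖ ≤ ‖v‖ := norm_snd_le v
  calc ‖v.1 * dx F q + v.2 * dy F q‖ ≤ ‖v.1‖ * ‖dx F q‖ + ‖v.2‖ * ‖dy F q‖ := by
        refine (norm_add_le _ _).trans ?_
        rw [norm_mul, norm_mul]
    _ ≤ ‖v‖ * ‖dx F q‖ + ‖v‖ * ‖dy F q‖ :=
        add_le_add (mul_le_mul_of_nonneg_right h3 (norm_nonneg _))
          (mul_le_mul_of_nonneg_right h4 (norm_nonneg _))
    _ = _ := by ring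

private theorem F1_b0 {F : ℂ × ℂ → ℂ} {k n N : ℕ} {u : ℂ} {c : ℕ} {m : Fin c → ℕ}
    {b : Fin c → ℝ} {g v : Fin c → ℂ → ℂ} {a : Fin c → ℂ} {D : Fin c → ℕ}
    (h : Clu F k n N u c m b g v a D) : ∀ C, 0 ≤ b C := fun C =>
  (Nat.cast_nonneg N).trans (h.hb C).le

theorem win_F {F : ℂ × ℂ → ℂ} {k n N : ℕ} {u : ℂ} {c : ℕ} {m : Fin c → ℕ}
    {b : Fin c → ℝ} {g v : Fin c → ℂ → ℂ} {a : Fin c → ℂ} {D : Fin c → ℕ}
    (h : Clu F k n N u c m b g v a D) :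
    ∀ R : ℝ, 1 ≤ R → ∃ CR > (0 : ℝ), ∃ δ > (0 : ℝ), ∀ t : ℂ, 0 < ‖t‖ → ‖t‖ < δ → ∀ C (s : ℝ),
      ‖t‖ ^ (b C) ≤ s → s ≤ δ * ‖t‖ ^ N → ∀ q : ℂ × ℂ, ‖q - pt g N C t‖ ≤ R * s →
      ‖fderiv ℂ F q‖ ≤ CR * cE (N * (k - 1 - n)) m b g C s t := by
  intro R hR
  obtain ⟨C0, hC0, d1, hd1, hF1⟩ := h.F1
  obtain ⟨d3, hd3, hF3⟩ := h.F3 1 one_pos
  obtain ⟨c1, hc1, c2, hc2, hbal⟩ := h.bal
  obtain ⟨db, hdb, hbal⟩ := F1_ev hbal
  obtain ⟨K, hK, dK, hdK, hcomp⟩ := F1_compare (N * (k - 1 - n)) m b g (F1_b0 h) h.gan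
  obtain ⟨Cr, hCr, hroot⟩ := F1_root h.hN g h.gan h.gsm
  obtain ⟨dr, hdr, hroot⟩ := hroot R hR (min (min d1 d3) db) (lt_min (lt_min hd1 hd3) hdb)
  set M := K * (R + 1) ^ (∑ C', m C') with hM
  have hM0 : 0 < M := by positivity
  refine ⟨C0 * M + (2 * (c1⁻¹ * K) + M), by positivity, min dr dK, lt_min hdr hdK, ?_⟩
  intro t ht0 htδ C s hs1 hs2 q hq
  have hs0 : 0 ≤ s := le_trans (by positivity) hs1
  have hNn : 0 ≤ ‖t‖ ^ N := by positivity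
  obtain ⟨t1, r1, r2, r3, r4, r5, r6, r7⟩ := hroot t ht0 (htδ.trans_le (min_le_left _ _)) C s hs0
    (hs2.trans (mul_le_mul_of_nonneg_right (min_le_left _ _) hNn)) q hq
  have r31 : ‖t1‖ < d1 := r3.trans_le ((min_le_left _ _).trans (min_le_left _ _))
  have r33 : ‖t1‖ < d3 := r3.trans_le ((min_le_left _ _).trans (min_le_right _ _))
  have r3b : ‖t1‖ < db := r3.trans_le (min_le_right _ _)
  have hN1 : 0 ≤ ‖t1‖ ^ N := by positivity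
  have r71 : ‖q.1‖ < d1 * ‖t1‖ ^ N := r7.trans_le
    (mul_le_mul_of_nonneg_right ((min_le_left _ _).trans (min_le_left _ _)) hN1)
  have r73 : ‖q.1‖ < d3 * ‖t1‖ ^ N := r7.trans_le
    (mul_le_mul_of_nonneg_right ((min_le_left _ _).trans (min_le_right _ _)) hN1)
  have htK : ‖t‖ < dK := htδ.trans_le (min_le_right _ _)
  set e := N * (k - 1 - n) with he
  have hE0 : 0 ≤ cE e m b g C s t := F1_cE_nonneg _ _ _ _ _ _ _ hs0
  have hEE : cE e m b g C ‖q.1 - g C t1‖ t1 ≤ M * cE e m b g C s t := by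
    calc cE e m b g C ‖q.1 - g C t1‖ t1 ≤ cE e m b g C ((R + 1) * s) t1 :=
          cE_mono _ _ _ _ _ _ _ _ (norm_nonneg _) r6
      _ ≤ K * cE e m b g C ((R + 1) * s) t := hcomp t t1 ht0 htK r4 C _ (by positivity)
      _ ≤ K * ((R + 1) ^ (∑ C', m C') * cE e m b g C s t) :=
          mul_le_mul_of_nonneg_left (cE_scale _ _ _ _ _ _ _ _ (by linarith) hs0) (by linarith)
      _ = _ := by rw [hM]; ring
  have hx : ‖dx F q‖ ≤ C0 * (M * cE e m b g C s t) := by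
    have := hF1 q.1 t1 r2 r31 r71 C
    rw [← r1] at this
    exact this.trans (mul_le_mul_of_nonneg_left hEE hC0.le)
  have hy1 : ‖dy F q - v C t1‖ ≤ 1 * (‖v C t1‖ + cE e m b g C ‖q.1 - g C t1‖ t1) := by
    have := hF3 q.1 t1 r2 r33 r73 C
    rwa [← r1] at this
  have hv : ‖v C t1‖ ≤ c1⁻¹ * K * cE e m b g C s t := by
    have e1 := (hbal t1 r2 r3b C).1
    have e2 : cE e m b g C 0 t1 ≤ K * cE e m b g C 0 t := hcomp t t1 ht0 htK r4 C 0 le_rfl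
    have e3 : cE e m b g C 0 t ≤ cE e m b g C s t := cE_mono _ _ _ _ _ _ _ _ le_rfl hs0
    have e4 : c1 * ‖v C t1‖ ≤ K * cE e m b g C s t :=
      e1.trans (e2.trans (mul_le_mul_of_nonneg_left e3 (by linarith)))
    calc ‖v C t1‖ = c1⁻¹ * (c1 * ‖v C t1‖) := by field_simp
      _ ≤ c1⁻¹ * (K * cE e m b g C s t) := mul_le_mul_of_nonneg_left e4 (by positivity)
      _ = _ := by ring
  have hy : ‖dy F q‖ ≤ ‖v C t1‖ + ‖dy F q - v C t1‖ := by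
    have := norm_add_le (v C t1) (dy F q - v C t1)
    rwa [add_sub_cancel] at this
  have := F1_fderiv F q
  linarith

private theorem F1_pow_small {c : ℕ} (N : ℕ) (b : Fin c → ℝ) (hb : ∀ C, (N : ℝ) < b C)
    (ε : ℝ) (hε : 0 < ε) : ∃ δ > (0 : ℝ), ∀ t : ℂ, 0 < ‖t‖ → ‖t‖ < δ → ∀ C,
      ‖t‖ ^ (b C) ≤ ε * ‖t‖ ^ N := by
  obtain ⟨δ, hδ, hδ'⟩ := F1_min (fun C => ε ^ (b C - N)⁻¹) (fun C => by positivity)
  refine ⟨δ, hδ, fun t ht0 htδ C => ?_⟩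
  have h0 : 0 < b C - N := by linarith [hb C]
  have h1 : ‖t‖ ^ (b C - N) ≤ ε := by
    calc ‖t‖ ^ (b C - N) ≤ (ε ^ (b C - N)⁻¹) ^ (b C - N) :=
          Real.rpow_le_rpow ht0.le (htδ.le.trans (hδ' C)) h0.le
      _ = ε := Real.rpow_inv_rpow hε.le h0.ne'
  have h2 : ‖t‖ ^ (b C) = ‖t‖ ^ (b C - N) * ‖t‖ ^ N := by
    rw [← Real.rpow_natCast, ← Real.rpow_add ht0]
    congr 1
    ring
  rw [h2]
  exact mul_le_mul_of_nonneg_right h1 (by positivity)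

private theorem F1_vnear {F : ℂ × ℂ → ℂ} {k n N : ℕ} {u : ℂ} {c : ℕ} {m : Fin c → ℕ}
    {b : Fin c → ℝ} {g v : Fin c → ℂ → ℂ} {a : Fin c → ℂ} {D : Fin c → ℕ}
    (h : Clu F k n N u c m b g v a D) :
    ∃ η > (0 : ℝ), ∃ δ > (0 : ℝ), ∀ t t1 : ℂ, 0 < ‖t‖ → ‖t‖ < δ → 0 < ‖t1‖ → ‖t1‖ < δ →
      ‖t1 - t‖ ≤ η * ‖t‖ → ∀ C, 3 / 4 * ‖v C t‖ ≤ ‖v C t1‖ := by
  have h1 : ∀ C, ∃ δ > (0 : ℝ), ∀ t : ℂ, 0 < ‖t‖ → ‖t‖ < δ →
      19 / 20 * ‖a C * D C / N‖ * ‖t‖ ^ (D C - N) ≤ ‖v C t‖ ∧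
      ‖v C t‖ ≤ 21 / 20 * ‖a C * D C / N‖ * ‖t‖ ^ (D C - N) := by
    intro C
    have hNk : N ≤ N * k := Nat.le_mul_of_pos_right N (by have := h.hk; omega)
    have hDN : N < D C := hNk.trans_lt (h.hD C)
    have hA : 0 < ‖a C * D C / N‖ := by
      rw [norm_pos_iff]
      refine div_ne_zero (mul_ne_zero (h.ha C) ?_) ?_
      · exact Nat.cast_ne_zero.2 (by omega)
      · exact Nat.cast_ne_zero.2 (by have := h.hN; omega)
    have h2 := (h.vord C).norm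
    have h3 : ∀ᶠ t in 𝓝[≠] (0 : ℂ), 19 / 20 * ‖a C * D C / N‖ < ‖v C t * t ^ N / t ^ (D C)‖ ∧
        ‖v C t * t ^ N / t ^ (D C)‖ < 21 / 20 * ‖a C * D C / N‖ :=
      (h2.eventually_const_lt (by linarith)).and (h2.eventually_lt_const (by linarith))
    obtain ⟨δ, hδ, h4⟩ := F1_ev h3
    refine ⟨δ, hδ, fun t ht0 htδ => ?_⟩
    obtain ⟨h5, h6⟩ := h4 t ht0 htδ
    have h7 : ‖v C t * t ^ N / t ^ (D C)‖ * ‖t‖ ^ (D C - N) = ‖v C t‖ := by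
      rw [norm_div, norm_mul, norm_pow, norm_pow]
      have h8 : ‖t‖ ^ (D C) = ‖t‖ ^ (D C - N) * ‖t‖ ^ N := by
        rw [← pow_add]
        congr 1
        omega
      rw [h8]
      field_simp
    have h8 : 0 ≤ ‖t‖ ^ (D C - N) := by positivity
    constructor
    · rw [← h7]
      exact mul_le_mul_of_nonneg_right h5.le h8
    · rw [← h7]
      exact mul_le_mul_of_nonneg_right h6.le h8
  choose δ1 hδ1 h1 using h1
  obtain ⟨δ, hδ, hδ'⟩ := F1_min δ1 hδ1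
  obtain ⟨η, hη, hη'⟩ := F1_min (fun C => 1 / (10 * ((D C - N : ℕ) + 1 : ℝ)))
    (fun C => by positivity)
  refine ⟨η, hη, δ, hδ, fun t t1 ht0 htδ ht10 ht1δ htt C => ?_⟩
  have e1 := (h1 C t ht0 (htδ.trans_le (hδ' C))).2
  have e2 := (h1 C t1 ht10 (ht1δ.trans_le (hδ' C))).1
  set M := D C - N with hM
  have e3 : (1 - η) * ‖t‖ ≤ ‖t1‖ := by
    have : t = t1 - (t1 - t) := by ring
    have h3 : ‖t‖ ≤ ‖t1‖ + ‖t1 - t‖ := by
      calc ‖t‖ = ‖t1 - (t1 - t)‖ := by rw [← this]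
        _ ≤ ‖t1‖ + ‖t1 - t‖ := norm_sub_le _ _
    linarith
  have e4 := hη' C
  simp only [← hM] at e4
  have e5 : (M : ℝ) * η ≤ 1 / 10 := by
    have : (M : ℝ) * η ≤ (M : ℝ) * (1 / (10 * ((M : ℝ) + 1))) :=
      mul_le_mul_of_nonneg_left e4 (by positivity)
    refine this.trans ?_
    rw [mul_one_div, div_le_div_iff₀ (by positivity) (by norm_num)]
    linarith
  have e6 : η ≤ 1 / 10 := by
    refine e4.trans ?_
    rw [div_le_div_iff₀ (by positivity) (by norm_num)]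
    have : (0 : ℝ) ≤ M := by positivity
    linarith
  have e7 : (9 / 10 : ℝ) ≤ (1 - η) ^ M := by
    have := one_add_mul_le_pow (a := -η) (by linarith) M
    have e8 : 1 + -η = 1 - η := by ring
    rw [e8] at this
    linarith
  have e8 : 9 / 10 * ‖t‖ ^ M ≤ ‖t1‖ ^ M := by
    calc 9 / 10 * ‖t‖ ^ M ≤ (1 - η) ^ M * ‖t‖ ^ M :=
          mul_le_mul_of_nonneg_right e7 (by positivity)
      _ = ((1 - η) * ‖t‖) ^ M := (mul_pow _ _ _).symm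
      _ ≤ ‖t1‖ ^ M := pow_le_pow_left₀ (mul_nonneg (by linarith) ht0.le) e3 M
  have e9 : 0 ≤ ‖a C * D C / N‖ := norm_nonneg _
  have e10 : ‖a C * D C / N‖ * (9 / 10 * ‖t‖ ^ M) ≤ ‖a C * D C / N‖ * ‖t1‖ ^ M :=
    mul_le_mul_of_nonneg_left e8 e9
  have e11 : 0 ≤ ‖a C * D C / N‖ * ‖t‖ ^ M := by positivity
  nlinarith

theorem win_F_low {F : ℂ × ℂ → ℂ} {k n N : ℕ} {u : ℂ} {c : ℕ} {m : Fin c → ℕ}
    {b : Fin c → ℝ} {g v : Fin c → ℂ → ℂ} {a : Fin c → ℂ} {D : Fin c → ℕ}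
    (h : Clu F k n N u c m b g v a D) :
    ∀ R : ℝ, 1 ≤ R → ∃ δ > (0 : ℝ), ∀ t : ℂ, 0 < ‖t‖ → ‖t‖ < δ → ∀ C,
      ∀ q : ℂ × ℂ, ‖q - pt g N C t‖ ≤ R * ‖t‖ ^ (b C) →
      ‖v C t‖ / 2 ≤ ‖dy F q‖ := by
  intro R hR
  obtain ⟨c1, hc1, c2, hc2, hbal⟩ := h.bal
  obtain ⟨db, hdb, hbal⟩ := F1_ev hbal
  obtain ⟨K, hK, dK, hdK, hcomp⟩ := F1_compare (N * (k - 1 - n)) m b g (F1_b0 h) h.gan
  obtain ⟨η, hη, dv, hdv, hvn⟩ := F1_vnear h
  set M := K * (R + 1) ^ (∑ C', m C') with hM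
  have hM0 : 0 < M := by positivity
  set K2 := M * (2 ^ (∑ C', m C') * c2) with hK2
  have hK20 : 0 < K2 := by positivity
  set ε := min (1 / 8) (1 / (8 * K2)) with hε
  have hε0 : 0 < ε := lt_min (by norm_num) (by positivity)
  obtain ⟨d3, hd3, hF3⟩ := h.F3 ε hε0
  -- separation
  have hsep : ∃ δ > (0 : ℝ), ∀ t : ℂ, 0 < ‖t‖ → ‖t‖ < δ → ∀ C C', C ≠ C' →
      ‖t‖ ^ (b C) ≤ ‖g C t - g C' t‖ := by
    have h1 : ∀ p : Fin c × Fin c, ∃ δ > (0 : ℝ), ∀ t : ℂ, 0 < ‖t‖ → ‖t‖ < δ → p.1 ≠ p.2 →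
        ‖t‖ ^ (b p.1) ≤ ‖g p.1 t - g p.2 t‖ := by
      intro p
      by_cases hp : p.1 = p.2
      · exact ⟨1, one_pos, fun t _ _ h => absurd hp h⟩
      · obtain ⟨δ, hδ, h2⟩ := F1_ev ((isLittleO_iff.1 (h.sep p.1 p.2 hp)) one_pos)
        refine ⟨δ, hδ, fun t h3 h4 _ => ?_⟩
        have h5 := h2 t h3 h4
        rw [one_mul, Real.norm_of_nonneg (by positivity)] at h5
        exact h5
    choose δ1 hδ1 h1 using h1
    obtain ⟨δ, hδ, hδ'⟩ := F1_min δ1 hδ1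
    exact ⟨δ, hδ, fun t h2 h3 C C' hCC => h1 (C, C') t h2 (h3.trans_le (hδ' _)) hCC⟩
  obtain ⟨ds, hds, hsep⟩ := hsep
  obtain ⟨Cr, hCr, hroot⟩ := F1_root h.hN g h.gan h.gsm
  obtain ⟨dr, hdr, hroot⟩ := hroot R hR (min d3 dv) (lt_min hd3 hdv)
  obtain ⟨dp, hdp, hpow⟩ := F1_pow_small N b h.hb dr hdr
  obtain ⟨dq, hdq, hpow2⟩ := F1_pow_small N b h.hb (η / (Cr * R)) (by positivity)
  refine ⟨min (min (min dr dK) (min db ds)) (min (min dp dq) dv),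
    lt_min (lt_min (lt_min hdr hdK) (lt_min hdb hds)) (lt_min (lt_min hdp hdq) hdv), ?_⟩
  intro t ht0 htδ C q hq
  have tdr : ‖t‖ < dr := htδ.trans_le ((min_le_left _ _).trans ((min_le_left _ _).trans (min_le_left _ _)))
  have tdK : ‖t‖ < dK := htδ.trans_le ((min_le_left _ _).trans ((min_le_left _ _).trans (min_le_right _ _)))
  have tdb : ‖t‖ < db := htδ.trans_le ((min_le_left _ _).trans ((min_le_right _ _).trans (min_le_left _ _)))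
  have tds : ‖t‖ < ds := htδ.trans_le ((min_le_left _ _).trans ((min_le_right _ _).trans (min_le_right _ _)))
  have tdp : ‖t‖ < dp := htδ.trans_le ((min_le_right _ _).trans ((min_le_left _ _).trans (min_le_left _ _)))
  have tdq : ‖t‖ < dq := htδ.trans_le ((min_le_right _ _).trans ((min_le_left _ _).trans (min_le_right _ _)))
  have tdv : ‖t‖ < dv := htδ.trans_le ((min_le_right _ _).trans (min_le_right _ _))
  set s := ‖t‖ ^ (b C) with hs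
  have hs0 : 0 ≤ s := by positivity
  obtain ⟨t1, r1, r2, r3, r4, r5, r6, r7⟩ := hroot t ht0 tdr C s hs0 (hpow t ht0 tdp C) q hq
  set e := N * (k - 1 - n) with he
  have hEE : cE e m b g C ‖q.1 - g C t1‖ t1 ≤ M * cE e m b g C s t := by
    calc cE e m b g C ‖q.1 - g C t1‖ t1 ≤ cE e m b g C ((R + 1) * s) t1 :=
          cE_mono _ _ _ _ _ _ _ _ (norm_nonneg _) r6
      _ ≤ K * cE e m b g C ((R + 1) * s) t := hcomp t t1 ht0 tdK r4 C _ (by positivity)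
      _ ≤ K * ((R + 1) ^ (∑ C', m C') * cE e m b g C s t) :=
          mul_le_mul_of_nonneg_left (cE_scale _ _ _ _ _ _ _ _ (by linarith) hs0) (by linarith)
      _ = _ := by rw [hM]; ring
  have hE2 : cE e m b g C s t ≤ 2 ^ (∑ C', m C') * cE e m b g C 0 t := by
    unfold cE
    have h1 : ∏ C', (s + ‖t‖ ^ (b C') + ‖g C t - g C' t‖) ^ m C' ≤
        2 ^ (∑ C', m C') * ∏ C', (0 + ‖t‖ ^ (b C') + ‖g C t - g C' t‖) ^ m C' := by
      rw [← Finset.prod_pow_eq_pow_sum, ← Finset.prod_mul_distrib]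
      refine Finset.prod_le_prod (fun C' _ => by positivity) fun C' _ => ?_
      rw [← mul_pow]
      refine pow_le_pow_left₀ (by positivity) ?_ _
      by_cases hCC : C = C'
      · subst hCC
        have : 0 ≤ ‖g C t - g C t‖ := norm_nonneg _
        linarith
      · have h2 := hsep t ht0 tds C C' hCC
        have h3 : 0 ≤ ‖t‖ ^ (b C') := by positivity
        have h4 : 0 ≤ ‖g C t - g C' t‖ := norm_nonneg _
        linarith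
    calc _ ≤ ‖t‖ ^ e * (2 ^ (∑ C', m C') *
          ∏ C', (0 + ‖t‖ ^ (b C') + ‖g C t - g C' t‖) ^ m C') :=
          mul_le_mul_of_nonneg_left h1 (by positivity)
      _ = _ := by ring
  have hE3 : cE e m b g C 0 t ≤ c2 * ‖v C t‖ := (hbal t ht0 tdb C).2
  have hE4 : cE e m b g C ‖q.1 - g C t1‖ t1 ≤ K2 * ‖v C t‖ := by
    calc cE e m b g C ‖q.1 - g C t1‖ t1 ≤ M * cE e m b g C s t := hEE
      _ ≤ M * (2 ^ (∑ C', m C') * cE e m b g C 0 t) := mul_le_mul_of_nonneg_left hE2 hM0.le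
      _ ≤ M * (2 ^ (∑ C', m C') * (c2 * ‖v C t‖)) :=
          mul_le_mul_of_nonneg_left (mul_le_mul_of_nonneg_left hE3 (by positivity)) hM0.le
      _ = _ := by rw [hK2]; ring
  have hy1 : ‖dy F q - v C t1‖ ≤ ε * (‖v C t1‖ + cE e m b g C ‖q.1 - g C t1‖ t1) := by
    have := hF3 q.1 t1 r2 (r3.trans_le (min_le_left _ _))
      (r7.trans_le (mul_le_mul_of_nonneg_right (min_le_left _ _) (by positivity))) C
    rwa [← r1] at this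
  have hv : 3 / 4 * ‖v C t‖ ≤ ‖v C t1‖ := by
    refine hvn t t1 ht0 tdv r2 (r3.trans_le (min_le_right _ _)) ?_ C
    have e1 : ‖t1 - t‖ * ‖t‖ ^ (N - 1) ≤ η * ‖t‖ * ‖t‖ ^ (N - 1) := by
      calc ‖t1 - t‖ * ‖t‖ ^ (N - 1) ≤ Cr * (R * s) := r5
        _ ≤ Cr * (R * (η / (Cr * R) * ‖t‖ ^ N)) := by
            have := hpow2 t ht0 tdq C
            have h0 : 0 ≤ R := by linarith
            exact mul_le_mul_of_nonneg_left (mul_le_mul_of_nonneg_left this h0) (by linarith)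
        _ = η * ‖t‖ ^ N := by field_simp
        _ = η * ‖t‖ * ‖t‖ ^ (N - 1) := by
            have : ‖t‖ ^ N = ‖t‖ * ‖t‖ ^ (N - 1) := by
              rw [← pow_succ']
              congr 1
              have := h.hN
              omega
            rw [this]
            ring
    exact le_of_mul_le_mul_right e1 (by positivity)
  have hy : ‖v C t1‖ ≤ ‖dy F q‖ + ‖dy F q - v C t1‖ := by
    have := norm_sub_le (dy F q) (dy F q - v C t1)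
    rwa [sub_sub_cancel] at this
  have hε1 : ε ≤ 1 / 8 := min_le_left _ _
  have hε2 : ε * K2 ≤ 1 / 8 := by
    calc ε * K2 ≤ 1 / (8 * K2) * K2 := mul_le_mul_of_nonneg_right (min_le_right _ _) hK20.le
      _ = 1 / 8 := by field_simp
  have hvn0 := norm_nonneg (v C t)
  have hvn1 := norm_nonneg (v C t1)
  have h1 : ε * ‖v C t1‖ ≤ 1 / 8 * ‖v C t1‖ := mul_le_mul_of_nonneg_right hε1 hvn1
  have h2 : ε * cE e m b g C ‖q.1 - g C t1‖ t1 ≤ 1 / 8 * ‖v C t‖ := by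
    calc ε * cE e m b g C ‖q.1 - g C t1‖ t1 ≤ ε * (K2 * ‖v C t‖) :=
          mul_le_mul_of_nonneg_left hE4 hε0.le
      _ = ε * K2 * ‖v C t‖ := by ring
      _ ≤ 1 / 8 * ‖v C t‖ := mul_le_mul_of_nonneg_right hε2 hvn0
  linarith

theorem win_G {F G : ℂ × ℂ → ℂ} {k n n' N : ℕ} {u u' : ℂ} {c : ℕ} {m : Fin c → ℕ}
    {b : Fin c → ℝ} {g v : Fin c → ℂ → ℂ} {a : Fin c → ℂ} {D : Fin c → ℕ}
    {γ' : Fin n' → ℂ → ℂ} {A B : ℂ × ℂ → ℂ × ℂ} {L ρ : ℝ}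
    (h : Mat F G k n n' N u u' c m b g v a D γ' A B L ρ) :
    ∀ R : ℝ, 1 ≤ R → ∃ CR > (0 : ℝ), ∃ δ > (0 : ℝ), ∀ t : ℂ, 0 < ‖t‖ → ‖t‖ < δ → ∀ C (s : ℝ),
      ‖t‖ ^ (b C) ≤ s → s ≤ δ * ‖t‖ ^ N → ∀ q : ℂ × ℂ, ‖q - A (pt g N C t)‖ ≤ R * s →
      ‖fderiv ℂ G q‖ ≤ CR * cE (N * (k - 1 - n)) m b g C s t := by
  intro R hR
  have hC := h.hC
  have hL := h.hco.hL
  have hρ := h.hco.hρ
  have hR' : 1 ≤ L * (R + 1) := by nlinarith
  obtain ⟨CR, hCR, d1, hd1, hwin⟩ := win_F hC (L * (R + 1)) hR'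
  obtain ⟨CR1, hCR1, d2, hd2, hwin1⟩ := win_F hC 1 le_rfl
  obtain ⟨d3, hd3, hsm⟩ := hC.small h.hk (1 / CR1) (by positivity)
  obtain ⟨d4, hd4, hml, _⟩ := mat_lower h
  obtain ⟨d5, hd5, hp1⟩ := F1_pow_small N b hC.hb d2 hd2
  obtain ⟨d6, hd6, hp2⟩ := F1_pow_small N b hC.hb 1 one_pos
  have hg1 : ∀ C, ∃ δ > (0 : ℝ), ∀ t : ℂ, 0 < ‖t‖ → ‖t‖ < δ → ‖g C t‖ ≤ 1 * ‖t ^ N‖ := fun C =>
    F1_ev ((isLittleO_iff.1 (hC.gsm C)) one_pos)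
  choose δg hδg hg1 using hg1
  obtain ⟨d7, hd7, hd7'⟩ := F1_min δg hδg
  set d8 := min ρ d4 / (L + R) with hd8def
  have hLR : 0 < L + R := by linarith
  have hd8 : 0 < d8 := div_pos (lt_min hρ hd4) hLR
  refine ⟨2 * L * CR, by positivity, min (min (min d1 d2) (min d3 d5)) (min (min d6 d7) (min d8 1)),
    lt_min (lt_min (lt_min hd1 hd2) (lt_min hd3 hd5)) (lt_min (lt_min hd6 hd7)
      (lt_min hd8 one_pos)), ?_⟩
  intro t ht0 htδ C s hs1 hs2 q hq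
  have t1 : ‖t‖ < d1 := htδ.trans_le ((min_le_left _ _).trans ((min_le_left _ _).trans (min_le_left _ _)))
  have t2 : ‖t‖ < d2 := htδ.trans_le ((min_le_left _ _).trans ((min_le_left _ _).trans (min_le_right _ _)))
  have t3 : ‖t‖ < d3 := htδ.trans_le ((min_le_left _ _).trans ((min_le_right _ _).trans (min_le_left _ _)))
  have t5 : ‖t‖ < d5 := htδ.trans_le ((min_le_left _ _).trans ((min_le_right _ _).trans (min_le_right _ _)))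
  have t6 : ‖t‖ < d6 := htδ.trans_le ((min_le_right _ _).trans ((min_le_left _ _).trans (min_le_left _ _)))
  have t7 : ‖t‖ < d7 := htδ.trans_le ((min_le_right _ _).trans ((min_le_left _ _).trans (min_le_right _ _)))
  have t8 : ‖t‖ < d8 := htδ.trans_le ((min_le_right _ _).trans ((min_le_right _ _).trans (min_le_left _ _)))
  have t9 : ‖t‖ < 1 := htδ.trans_le ((min_le_right _ _).trans ((min_le_right _ _).trans (min_le_right _ _)))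
  have hN0 : 0 ≤ ‖t‖ ^ N := by positivity
  have hs2' : s ≤ d1 * ‖t‖ ^ N := hs2.trans (mul_le_mul_of_nonneg_right
    ((min_le_left _ _).trans ((min_le_left _ _).trans (min_le_left _ _))) hN0)
  have hs3 : s ≤ 1 * ‖t‖ ^ N := hs2.trans (mul_le_mul_of_nonneg_right
    ((min_le_right _ _).trans ((min_le_right _ _).trans (min_le_right _ _))) hN0)
  have hs0 : 0 ≤ s := le_trans (by positivity) hs1
  have hNt : ‖t‖ ^ N ≤ ‖t‖ := pow_le_of_le_one ht0.le t9.le (by have := hC.hN; omega)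
  -- sizes
  have hpt : ‖pt g N C t‖ ≤ ‖t‖ ^ N := by
    have h1 := hg1 C t ht0 (t7.trans_le (hd7' C))
    rw [norm_pow, one_mul] at h1
    rw [Prod.norm_def]
    exact max_le h1 (le_of_eq (norm_pow _ _))
  have hptm : pt g N C t ∈ ball (0 : ℂ × ℂ) ρ := by
    rw [mem_ball_zero_iff]
    have h1 : ‖t‖ * (L + R) < min ρ d4 := (lt_div_iff₀ hLR).1 t8
    have h2 : min ρ d4 ≤ ρ := min_le_left _ _
    nlinarith
  have h00 : (0 : ℂ × ℂ) ∈ ball (0 : ℂ × ℂ) ρ := mem_ball_self hρ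
  have hA : ‖A (pt g N C t)‖ ≤ L * ‖t‖ ^ N := by
    have h1 := h.hco.lipA _ hptm _ h00
    rw [h.hco.A0, sub_zero, sub_zero] at h1
    exact h1.trans (mul_le_mul_of_nonneg_left hpt (by linarith))
  have hqn : ‖q‖ ≤ (L + R) * ‖t‖ := by
    have h1 : ‖q‖ ≤ ‖A (pt g N C t)‖ + ‖q - A (pt g N C t)‖ := by
      have := norm_add_le (A (pt g N C t)) (q - A (pt g N C t))
      rwa [add_sub_cancel] at this
    have h2 : R * s ≤ R * ‖t‖ ^ N := by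
      rw [one_mul] at hs3
      exact mul_le_mul_of_nonneg_left hs3 (by linarith)
    have h3 : (L + R) * ‖t‖ ^ N ≤ (L + R) * ‖t‖ := mul_le_mul_of_nonneg_left hNt hLR.le
    linarith
  have hq4 : ‖q‖ < min ρ d4 := by
    have h1 : ‖t‖ * (L + R) < min ρ d4 := (lt_div_iff₀ hLR).1 t8
    linarith
  have hqm : q ∈ ball (0 : ℂ × ℂ) ρ := by
    rw [mem_ball_zero_iff]
    exact hq4.trans_le (min_le_left _ _)
  have hAm : A (pt g N C t) ∈ ball (0 : ℂ × ℂ) ρ := by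
    rw [mem_ball_zero_iff]
    have h1 : ‖t‖ * (L + R) < min ρ d4 := (lt_div_iff₀ hLR).1 t8
    have h2 : min ρ d4 ≤ ρ := min_le_left _ _
    have h3 : L * ‖t‖ ^ N ≤ L * ‖t‖ := mul_le_mul_of_nonneg_left hNt (by linarith)
    nlinarith
  -- the gradient at the centre
  have hgrad : ‖fderiv ℂ F (pt g N C t)‖ ≤ s := by
    have h1 := hwin1 t ht0 t2 C (‖t‖ ^ (b C)) le_rfl (hp1 t ht0 t5 C) (pt g N C t)
      (by rw [sub_self, norm_zero]; positivity)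
    have h2 := hsm t ht0 t3 C (‖t‖ ^ (b C)) le_rfl (by simpa using hp2 t ht0 t6 C)
    calc ‖fderiv ℂ F (pt g N C t)‖ ≤ CR1 * cE (N * (k - 1 - n)) m b g C (‖t‖ ^ (b C)) t := h1
      _ ≤ CR1 * (1 / CR1 * ‖t‖ ^ (b C)) := mul_le_mul_of_nonneg_left h2 hCR1.le
      _ = ‖t‖ ^ (b C) := by field_simp
      _ ≤ s := hs1
  have hB : ‖B q - pt g N C t‖ ≤ L * (R + 1) * s := by
    have h1 := h.hco.lipB q hqm _ hAm
    have h2 := h.hco.BA _ hptm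
    have h3 : B q - pt g N C t = (B q - B (A (pt g N C t))) + (B (A (pt g N C t)) - pt g N C t) := by
      abel
    have h4 : L * ‖q - A (pt g N C t)‖ ≤ L * (R * s) := mul_le_mul_of_nonneg_left hq (by linarith)
    have h5 : L * ‖fderiv ℂ F (pt g N C t)‖ ≤ L * s := mul_le_mul_of_nonneg_left hgrad (by linarith)
    calc ‖B q - pt g N C t‖ ≤ ‖B q - B (A (pt g N C t))‖ + ‖B (A (pt g N C t)) - pt g N C t‖ := by
          rw [h3]; exact norm_add_le _ _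
      _ ≤ L * (R * s) + L * s := add_le_add (h1.trans h4) (h2.trans h5)
      _ = _ := by ring
  have h1 := hwin t ht0 t1 C s hs1 hs2' (B q) hB
  have h2 := hml q (hq4.trans_le (min_le_right _ _))
  calc ‖fderiv ℂ G q‖ ≤ 2 * L * ‖fderiv ℂ F (B q)‖ := h2
    _ ≤ 2 * L * (CR * cE (N * (k - 1 - n)) m b g C s t) :=
        mul_le_mul_of_nonneg_left h1 (by linarith)
    _ = _ := by ring

theorem ehatG_le {F G : ℂ × ℂ → ℂ} {k n n' N : ℕ} {u u' : ℂ} {c : ℕ} {m : Fin c → ℕ}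
    {b : Fin c → ℝ} {g v : Fin c → ℂ → ℂ} {a : Fin c → ℂ} {D : Fin c → ℕ}
    {γ' : Fin n' → ℂ → ℂ} {A B : ℂ × ℂ → ℂ × ℂ} {L ρ : ℝ}
    (h : Mat F G k n n' N u u' c m b g v a D γ' A B L ρ) :
    ∃ CR > (0 : ℝ), ∃ δ > (0 : ℝ), ∀ t : ℂ, 0 < ‖t‖ → ‖t‖ < δ → ∀ C (s : ℝ),
      ‖t‖ ^ (b C) ≤ s → s ≤ δ * ‖t‖ ^ N → ∀ t' : ℂ, t' ^ N = (A (pt g N C t)).2 →
      Ehat (N * (k - 1 - n')) γ' (A (pt g N C t)).1 s t' ≤
        CR * cE (N * (k - 1 - n)) m b g C s t := by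
  have hC := h.hC
  have hL := h.hco.hL
  have hu : 0 < ‖u'‖ := norm_pos_iff.2 h.hG.hu
  obtain ⟨CR, hCR, d1, hd1, hwin⟩ := win_G h 1 le_rfl
  obtain ⟨cp, hcp, hprod⟩ := prod_lower n'
  obtain ⟨df, hdf, hfac⟩ := h.hG.fac (‖u'‖ / 2) (by positivity)
  obtain ⟨dc, hdc, hcone⟩ := h.cone (df / 4) (by positivity)
  obtain ⟨c0, hc0, ds, hds, hsize⟩ := mat_size h
  have hg1 : ∀ C, ∃ δ > (0 : ℝ), ∀ t : ℂ, 0 < ‖t‖ → ‖t‖ < δ → ‖g C t‖ ≤ dc * ‖t ^ N‖ := fun C =>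
    F1_ev ((isLittleO_iff.1 (hC.gsm C)) hdc)
  choose δg hδg hg1 using hg1
  obtain ⟨dg, hdg, hdg'⟩ := F1_min δg hδg
  refine ⟨2 / (‖u'‖ * cp) * CR, by positivity,
    min (min (min d1 ds) (min dg dc)) (min (min (df / L) (c0 * df / 4)) 1),
    lt_min (lt_min (lt_min hd1 hds) (lt_min hdg hdc)) (lt_min (lt_min (by positivity)
      (by positivity)) one_pos), ?_⟩
  intro t ht0 htδ C s hs1 hs2 t' ht'
  have t1 : ‖t‖ < d1 := htδ.trans_le ((min_le_left _ _).trans ((min_le_left _ _).trans (min_le_left _ _)))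
  have t2 : ‖t‖ < ds := htδ.trans_le ((min_le_left _ _).trans ((min_le_left _ _).trans (min_le_right _ _)))
  have t3 : ‖t‖ < dg := htδ.trans_le ((min_le_left _ _).trans ((min_le_right _ _).trans (min_le_left _ _)))
  have t4 : ‖t‖ < dc := htδ.trans_le ((min_le_left _ _).trans ((min_le_right _ _).trans (min_le_right _ _)))
  have t5 : ‖t‖ < df / L := htδ.trans_le ((min_le_right _ _).trans ((min_le_left _ _).trans (min_le_left _ _)))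
  have t9 : ‖t‖ < 1 := htδ.trans_le ((min_le_right _ _).trans (min_le_right _ _))
  have hN0 : 0 ≤ ‖t‖ ^ N := by positivity
  have hN1 : N ≠ 0 := by have := hC.hN; omega
  have hNt : ‖t‖ ^ N ≤ ‖t‖ := pow_le_of_le_one ht0.le t9.le hN1
  have hs2' : s ≤ d1 * ‖t‖ ^ N := hs2.trans (mul_le_mul_of_nonneg_right
    ((min_le_left _ _).trans ((min_le_left _ _).trans (min_le_left _ _))) hN0)
  have hs3 : s ≤ c0 * df / 4 * ‖t‖ ^ N := hs2.trans (mul_le_mul_of_nonneg_right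
    ((min_le_right _ _).trans ((min_le_left _ _).trans (min_le_right _ _))) hN0)
  have hs0 : 0 < s := lt_of_lt_of_le (by positivity) hs1
  obtain ⟨z1, z2⟩ := hsize t ht0 t2 C
  have hT : ‖t'‖ ^ N = ‖(A (pt g N C t)).2‖ := by rw [← norm_pow, ht']
  rw [← hT] at z1 z2
  have hpos : 0 < ‖t'‖ ^ N := lt_of_lt_of_le (by positivity) z1
  have ht'0 : 0 < ‖t'‖ := by
    rcases (norm_nonneg t').eq_or_lt with h0 | h0
    · rw [← h0, zero_pow hN1] at hpos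
      exact absurd hpos (lt_irrefl _)
    · exact h0
  have ht'L : ‖t'‖ ≤ L * ‖t‖ := by
    refine (pow_le_pow_iff_left₀ ht'0.le (by positivity) hN1).1 ?_
    rw [mul_pow]
    exact z2.trans (mul_le_mul_of_nonneg_right (le_self_pow₀ hL hN1) hN0)
  have ht'f : ‖t'‖ < df := by
    have : ‖t‖ * L < df := (lt_div_iff₀ (by linarith)).1 t5
    linarith
  set x0 := (A (pt g N C t)).1 with hx0
  have hx0n : ‖x0‖ ≤ df / 4 * ‖t'‖ ^ N := by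
    rw [hT]
    refine hcone (g C t) (t ^ N) ?_ (hg1 C t ht0 (t3.trans_le (hdg' C)))
    rw [norm_pow]
    exact lt_of_le_of_lt hNt t4
  -- normalised product
  set d : Fin n' → ℝ := fun l => ‖x0 - γ' l t'‖ with hd
  have hd0 : ∀ l, 0 ≤ d l := fun l => norm_nonneg _
  have hsd : ∀ l, 0 < s + d l := fun l => by linarith [hd0 l]
  obtain ⟨z, hz1, hz2⟩ := hprod (fun l => ((s / (s + d l) : ℝ) : ℂ))
    (fun l => (x0 - γ' l t') / ((s + d l : ℝ) : ℂ)) (by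
      intro l
      rw [norm_div, Complex.norm_real, Complex.norm_real, Real.norm_of_nonneg (hsd l).le,
        Real.norm_of_nonneg (div_nonneg hs0.le (hsd l).le)]
      have := (hsd l).ne'
      change s / (s + d l) + d l / (s + d l) = 1
      field_simp)
  set x := x0 + s * z with hx
  have hfacl : ∀ l, ((s / (s + d l) : ℝ) : ℂ) * z + (x0 - γ' l t') / ((s + d l : ℝ) : ℂ) =
      (x - γ' l t') / ((s + d l : ℝ) : ℂ) := by
    intro l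
    have : ((s + d l : ℝ) : ℂ) ≠ 0 := Complex.ofReal_ne_zero.2 (hsd l).ne'
    rw [Complex.ofReal_div, hx]
    field_simp
    ring
  simp only [hfacl, norm_prod, norm_div, Complex.norm_real] at hz2
  rw [Finset.prod_div_distrib] at hz2
  have hPd : ∏ l, ‖s + d l‖ = ∏ l, (s + d l) :=
    Finset.prod_congr rfl fun l _ => Real.norm_of_nonneg (hsd l).le
  rw [hPd, le_div_iff₀ (Finset.prod_pos fun l _ => hsd l)] at hz2
  have hsz : ‖(s : ℂ) * z‖ = s := by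
    rw [norm_mul, hz1, mul_one, Complex.norm_real, Real.norm_of_nonneg hs0.le]
  have hxn : ‖x‖ < df * ‖t'‖ ^ N := by
    have h1 : ‖x‖ ≤ ‖x0‖ + s := by
      rw [hx]
      exact (norm_add_le _ _).trans (by rw [hsz])
    have h2 : s ≤ df / 4 * ‖t'‖ ^ N := by
      calc s ≤ c0 * df / 4 * ‖t‖ ^ N := hs3
        _ = df / 4 * (c0 * ‖t‖ ^ N) := by ring
        _ ≤ df / 4 * ‖t'‖ ^ N := mul_le_mul_of_nonneg_left z1 (by positivity)
    have h3 : 0 < df * ‖t'‖ ^ N := by positivity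
    linarith
  have hf := hfac x t' ht'0 ht'f hxn
  set e' := N * (k - 1 - n') with he'
  set P := ∏ l, ‖x - γ' l t'‖ with hP
  have hnorm : ‖u' * t' ^ e' * ∏ l, (x - γ' l t')‖ = ‖u'‖ * (‖t'‖ ^ e' * P) := by
    rw [norm_mul, norm_mul, norm_pow, norm_prod]
    ring
  have hlow : ‖u'‖ / 2 * (‖t'‖ ^ e' * P) ≤ ‖dx G (x, t' ^ N)‖ := by
    have h1 : ‖u' * t' ^ e' * ∏ l, (x - γ' l t')‖ ≤ ‖dx G (x, t' ^ N)‖ +
        ‖dx G (x, t' ^ N) - u' * t' ^ e' * ∏ l, (x - γ' l t')‖ := by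
      have := norm_sub_le (dx G (x, t' ^ N)) (dx G (x, t' ^ N) - u' * t' ^ e' * ∏ l, (x - γ' l t'))
      rwa [sub_sub_cancel] at this
    rw [hnorm] at h1
    linarith
  have hq : ‖((x, t' ^ N) : ℂ × ℂ) - A (pt g N C t)‖ ≤ 1 * s := by
    have h1 : ((x, t' ^ N) : ℂ × ℂ) - A (pt g N C t) = ((s : ℂ) * z, 0) := by
      ext
      · simp [hx, hx0]
      · simp [ht']
    rw [h1, Prod.norm_def, hsz]
    simp [hs0.le]
  have hup := hwin t ht0 t1 C s hs1 hs2' _ hq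
  have hdx : ‖dx G (x, t' ^ N)‖ ≤ ‖fderiv ℂ G (x, t' ^ N)‖ := by
    have := (fderiv ℂ G (x, t' ^ N)).le_opNorm (1, 0)
    have h1 : ‖((1 : ℂ), (0 : ℂ))‖ = 1 := by simp [Prod.norm_def]
    rw [h1, mul_one] at this
    exact this
  unfold Ehat
  change ‖t'‖ ^ e' * ∏ l, (s + d l) ≤ _
  have h1 : ‖u'‖ / 2 * (‖t'‖ ^ e' * (cp * ∏ l, (s + d l))) ≤
      CR * cE (N * (k - 1 - n)) m b g C s t := by
    calc ‖u'‖ / 2 * (‖t'‖ ^ e' * (cp * ∏ l, (s + d l))) ≤ ‖u'‖ / 2 * (‖t'‖ ^ e' * P) :=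
          mul_le_mul_of_nonneg_left (mul_le_mul_of_nonneg_left hz2 (by positivity)) (by positivity)
      _ ≤ _ := hlow.trans (hdx.trans hup)
  calc ‖t'‖ ^ e' * ∏ l, (s + d l) =
        2 / (‖u'‖ * cp) * (‖u'‖ / 2 * (‖t'‖ ^ e' * (cp * ∏ l, (s + d l)))) := by
        field_simp
    _ ≤ 2 / (‖u'‖ * cp) * (CR * cE (N * (k - 1 - n)) m b g C s t) :=
        mul_le_mul_of_nonneg_left h1 (by positivity)
    _ = _ := by ring

end H24.LS
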