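import Pool.Agent.H24.LS.P0
import Pool.Agent.H24.LS.P1
import Pool.Agent.H24.LS.P2
import Pool.Agent.H24.LS.V0
import Pool.Agent.H24.LS.F0
import Pool.Agent.H24.LS.F1

/-!
# F2: `dy G` is small in the windows at scales `s ≥ K s_C`

Proof.  Notation: `p = pt g N C t`, `(x0, y0) = A p`, `E = cE (N(k-1-n)) m b g C s t`, `e' = N (k-1-n')`,
`t0'` a root of `y0`.
(0) `n' ≥ 1`: otherwise `PCh.fac` for `G` gives `‖dx G (x0,y0)‖ ≥ (‖u'‖/2) ‖y0‖^(k-1) ≥ c ‖t‖^(N(k-1))`, while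
  `‖∇G (A p)‖ ≤ L ‖∇F p‖ ≤ K ‖v C t‖ ≤ K' ‖t‖^(D C - N)`, `D C - N > N(k-1)`: contradiction for small `t`.
  (In the case `n' = 0` one may also argue: the hypothesis cannot hold for small `t`, choose `δ` so small
  that there is no such `t`... but the contradiction is needed for ALL small `t`, which it gives.)
(1) `‖v C t‖ ≤ (K2/K) E` for `s ≥ K s_C`: `cE C s ≥ (s/s_C) cE C 0` up to a constant (the factor `C' = C`
  is `(s + s_C)^{m C}`, `m C ≥ 1`, the other factors increase), and `bal`.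
  So `‖dy G (A p)‖ ≤ ‖∇G (A p)‖ ≤ L ‖∇F p‖ ≤ K3 ‖v C t‖ ≤ (K4/K) E` (`win_F` with `s = s_C`, `R = 1`,
  `cE C s_C ≤ K cE C 0 ≤ K ‖v‖`).
(2) Let `l` minimise `d0 = ‖x0 - γ'_l t0'‖`.  `pf3` for `G` in the slice `y0` with `x = x0`, `x1 = γ'_l t0'`:
  `‖dy G (x0,y0) - dy G (γ'_l t0', y0)‖ ≤ ε1 Ehat e' γ' (γ'_l t0') d0 t0' ≤ ε1 3^{n'} Ehat e' γ' x0 s t0'`
  (`d0 + ‖γ'_l - γ'_l''‖ ≤ 3 ‖x0 - γ'_l''‖`) `≤ ε1 K5 E` by `ehatG_le`.
  So `‖v'_l(t0')‖ ≤ (K4/K + ε1 K5) E`, `v'_l(t') = dy G (γ'_l t', t'^N)`.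
(3) For `q = (x', y')`, `‖q - A p‖ ≤ R s`: `root_near` gives `t'`, `t'^N = y'`, `‖t' - t0'‖ ‖t0'‖^(N-1) ≤ C R s`;
  by `arc_ord` (`v'_l(t') t'^N/t'^D` converges to a nonzero number) and `s ≤ δ‖t‖^N`: `‖v'_l(t')‖ ≤ 2 ‖v'_l(t0')‖`.
  `pf3` in the slice `y'`: `‖dy G q - v'_l(t')‖ ≤ ε1 Ehat e' γ' (γ'_l t') ‖x' - γ'_l t'‖ t'`, and
  `‖x' - γ'_l t'‖ ≤ R s + d0 + ‖γ'_l t' - γ'_l t0'‖ ≤ (R+1) s + d0`, each factor
  `‖x' - γ'_l t'‖ + ‖γ'_l t' - γ'_l'' t'‖ ≤ K6 R (s + ‖x0 - γ'_l'' t0'‖)` (`slow_small` for `γ'`), so this is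
  `≤ ε1 K7(R) E`.
Choose first `ε1` small, then `K` large.
-/

open Filter Topology Metric Asymptotics

namespace H24.LS

/-- from eventual statements to explicit radii -/
theorem F2_ev {P : ℂ → Prop} (h : ∀ᶠ t in 𝓝[≠] (0 : ℂ), P t) :
    ∃ r > (0 : ℝ), ∀ t : ℂ, 0 < ‖t‖ → ‖t‖ < r → P t := by
  rw [eventually_nhdsWithin_iff] at h
  obtain ⟨r, hr, hrb⟩ := Metric.eventually_nhds_iff_ball.mp h
  refine ⟨r, hr, fun t ht0 ht => ?_⟩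
  exact hrb t (by rw [mem_ball, dist_zero_right]; exact ht) (norm_pos_iff.mp ht0)

theorem F2_dx_le (G : ℂ × ℂ → ℂ) (q : ℂ × ℂ) : ‖dx G q‖ ≤ ‖fderiv ℂ G q‖ := by
  have h := (fderiv ℂ G q).le_opNorm ((1, 0) : ℂ × ℂ)
  have h1 : ‖((1, 0) : ℂ × ℂ)‖ = 1 := by simp [Prod.norm_def]
  rw [h1, mul_one] at h
  exact h

theorem F2_dy_le (G : ℂ × ℂ → ℂ) (q : ℂ × ℂ) : ‖dy G q‖ ≤ ‖fderiv ℂ G q‖ := by
  have h := (fderiv ℂ G q).le_opNorm ((0, 1) : ℂ × ℂ)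
  have h1 : ‖((0, 1) : ℂ × ℂ)‖ = 1 := by simp [Prod.norm_def]
  rw [h1, mul_one] at h
  exact h

theorem F2_cE_nonneg {c : ℕ} (e : ℕ) (m : Fin c → ℕ) (b : Fin c → ℝ) (g : Fin c → ℂ → ℂ)
    (C : Fin c) (t : ℂ) (s : ℝ) (hs : 0 ≤ s) : 0 ≤ cE e m b g C s t := by
  unfold cE
  refine mul_nonneg (pow_nonneg (norm_nonneg _) _) (Finset.prod_nonneg fun C' _ => ?_)
  refine pow_nonneg ?_ _
  have h1 : 0 ≤ ‖t‖ ^ (b C') := Real.rpow_nonneg (norm_nonneg _) _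
  have h2 : 0 ≤ ‖g C t - g C' t‖ := norm_nonneg _
  linarith

theorem F2_cE_big {c : ℕ} (e : ℕ) (m : Fin c → ℕ) (b : Fin c → ℝ) (g : Fin c → ℂ → ℂ)
    (C : Fin c) (t : ℂ) (K s : ℝ) (hK : 1 ≤ K) (hm : 1 ≤ m C) (hs : K * ‖t‖ ^ (b C) ≤ s) :
    K * cE e m b g C 0 t ≤ cE e m b g C s t := by
  have hb0 : ∀ C', 0 ≤ ‖t‖ ^ (b C') := fun C' => Real.rpow_nonneg (norm_nonneg _) _
  have hs0 : 0 ≤ s := le_trans (mul_nonneg (by linarith) (hb0 C)) hs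
  unfold cE
  rw [← Finset.mul_prod_erase Finset.univ _ (Finset.mem_univ C),
    ← Finset.mul_prod_erase Finset.univ
      (fun C' => (s + ‖t‖ ^ (b C') + ‖g C t - g C' t‖) ^ m C') (Finset.mem_univ C)]
  have h1 : K * (0 + ‖t‖ ^ (b C) + ‖g C t - g C t‖) ^ m C
      ≤ (s + ‖t‖ ^ (b C) + ‖g C t - g C t‖) ^ m C := by
    have h2 : K * (0 + ‖t‖ ^ (b C) + ‖g C t - g C t‖) ^ m C
        ≤ (K * (0 + ‖t‖ ^ (b C) + ‖g C t - g C t‖)) ^ m C := by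
      rw [mul_pow]
      refine mul_le_mul_of_nonneg_right ?_ ?_
      · exact le_self_pow₀ hK (by omega)
      · refine pow_nonneg ?_ _
        have := hb0 C
        have h3 : 0 ≤ ‖g C t - g C t‖ := norm_nonneg _
        linarith
    refine h2.trans (pow_le_pow_left₀ ?_ ?_ _)
    · refine mul_nonneg (by linarith) ?_
      have := hb0 C
      have h3 : 0 ≤ ‖g C t - g C t‖ := norm_nonneg _
      linarith
    · have := hb0 C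
      rw [sub_self, norm_zero]
      linarith
  have h2 : ∏ C' ∈ Finset.univ.erase C, (0 + ‖t‖ ^ (b C') + ‖g C t - g C' t‖) ^ m C'
      ≤ ∏ C' ∈ Finset.univ.erase C, (s + ‖t‖ ^ (b C') + ‖g C t - g C' t‖) ^ m C' := by
    refine Finset.prod_le_prod (fun C' _ => ?_) (fun C' _ => ?_)
    · refine pow_nonneg ?_ _
      have := hb0 C'
      have h3 : 0 ≤ ‖g C t - g C' t‖ := norm_nonneg _
      linarith
    · refine pow_le_pow_left₀ ?_ ?_ _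
      · have := hb0 C'
        have h3 : 0 ≤ ‖g C t - g C' t‖ := norm_nonneg _
        linarith
      · linarith
  have h3 : 0 ≤ ∏ C' ∈ Finset.univ.erase C, (0 + ‖t‖ ^ (b C') + ‖g C t - g C' t‖) ^ m C' := by
    refine Finset.prod_nonneg (fun C' _ => ?_)
    refine pow_nonneg ?_ _
    have := hb0 C'
    have h3 : 0 ≤ ‖g C t - g C' t‖ := norm_nonneg _
    linarith
  have h4 : 0 ≤ (s + ‖t‖ ^ (b C) + ‖g C t - g C t‖) ^ m C := by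
    refine pow_nonneg ?_ _
    have := hb0 C
    have h3 : 0 ≤ ‖g C t - g C t‖ := norm_nonneg _
    linarith
  have h5 := mul_le_mul h1 h2 h3 h4
  have h6 := mul_le_mul_of_nonneg_left h5 (pow_nonneg (norm_nonneg t) e)
  calc _ = ‖t‖ ^ e * (K * (0 + ‖t‖ ^ (b C) + ‖g C t - g C t‖) ^ m C *
        ∏ C' ∈ Finset.univ.erase C, (0 + ‖t‖ ^ (b C') + ‖g C t - g C' t‖) ^ m C') := by ring
    _ ≤ _ := h6

/-- `‖v C t‖ ≤ ε E` at scales `s ≥ K s_C` -/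
theorem v_small {F : ℂ × ℂ → ℂ} {k n N : ℕ} {u : ℂ} {c : ℕ} {m : Fin c → ℕ}
    {b : Fin c → ℝ} {g v : Fin c → ℂ → ℂ} {a : Fin c → ℂ} {D : Fin c → ℕ}
    (h : Clu F k n N u c m b g v a D) :
    ∀ ε > (0 : ℝ), ∃ K > (0 : ℝ), ∃ δ > (0 : ℝ), ∀ t : ℂ, 0 < ‖t‖ → ‖t‖ < δ → ∀ C (s : ℝ),
      K * ‖t‖ ^ (b C) ≤ s → ‖v C t‖ ≤ ε * cE (N * (k - 1 - n)) m b g C s t := by
  intro ε hε
  obtain ⟨c1, hc1, c2, hc2, hbal⟩ := h.bal
  obtain ⟨r, hr, hrb⟩ := F2_ev hbal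
  refine ⟨max 1 (1 / (ε * c1)), lt_of_lt_of_le one_pos (le_max_left _ _), r, hr, ?_⟩
  intro t ht0 ht C s hs
  have h1 := (hrb t ht0 ht C).1
  have h2 := F2_cE_big (N * (k - 1 - n)) m b g C t _ s (le_max_left _ _) (h.hm C) hs
  have h3 : 1 / (ε * c1) ≤ max 1 (1 / (ε * c1)) := le_max_right _ _
  have h4 : 0 ≤ cE (N * (k - 1 - n)) m b g C 0 t := F2_cE_nonneg _ _ _ _ _ _ _ le_rfl
  have h5 : 1 / (ε * c1) * (c1 * ‖v C t‖) ≤ cE (N * (k - 1 - n)) m b g C s t := by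
    refine le_trans ?_ h2
    refine mul_le_mul h3 h1 (by positivity) (by positivity)
  have h6 : 1 / (ε * c1) * (c1 * ‖v C t‖) = ‖v C t‖ / ε := by
    field_simp
  rw [h6, div_le_iff₀ hε] at h5
  linarith

/-- at the scale of the cluster nothing changes -/
theorem F2_cE_sC {F : ℂ × ℂ → ℂ} {k n N : ℕ} {u : ℂ} {c : ℕ} {m : Fin c → ℕ}
    {b : Fin c → ℝ} {g v : Fin c → ℂ → ℂ} {a : Fin c → ℂ} {D : Fin c → ℕ}
    (h : Clu F k n N u c m b g v a D) (e : ℕ) :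
    ∃ δ > (0 : ℝ), ∀ t : ℂ, 0 < ‖t‖ → ‖t‖ < δ → ∀ C,
      cE e m b g C (‖t‖ ^ (b C)) t ≤ 2 ^ n * cE e m b g C 0 t := by
  have h1 : ∀ᶠ t in 𝓝[≠] (0 : ℂ), ∀ C C', C ≠ C' → ‖t‖ ^ (b C) ≤ ‖g C t - g C' t‖ := by
    refine Filter.eventually_all.mpr fun C => Filter.eventually_all.mpr fun C' => ?_
    by_cases hCC : C = C'
    · exact Filter.Eventually.of_forall fun t hne => absurd hCC hne
    · filter_upwards [(h.sep C C' hCC).def one_pos] with t ht _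
      rw [one_mul, Real.norm_of_nonneg (Real.rpow_nonneg (norm_nonneg _) _)] at ht
      exact ht
  obtain ⟨r, hr, hrb⟩ := F2_ev h1
  refine ⟨r, hr, fun t ht0 ht C => ?_⟩
  have hb0 : ∀ C', 0 ≤ ‖t‖ ^ (b C') := fun C' => Real.rpow_nonneg (norm_nonneg _) _
  unfold cE
  have h2 : ∏ C', (‖t‖ ^ (b C) + ‖t‖ ^ (b C') + ‖g C t - g C' t‖) ^ m C'
      ≤ ∏ C', (2 ^ m C' * (0 + ‖t‖ ^ (b C') + ‖g C t - g C' t‖) ^ m C') := by
    refine Finset.prod_le_prod (fun C' _ => ?_) (fun C' _ => ?_)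
    · refine pow_nonneg ?_ _
      have h3 : 0 ≤ ‖g C t - g C' t‖ := norm_nonneg _
      have := hb0 C
      have := hb0 C'
      linarith
    · rw [← mul_pow]
      refine pow_le_pow_left₀ ?_ ?_ _
      · have h3 : 0 ≤ ‖g C t - g C' t‖ := norm_nonneg _
        have := hb0 C
        have := hb0 C'
        linarith
      · by_cases hCC : C = C'
        · subst hCC
          rw [sub_self, norm_zero]
          linarith
        · have h3 := hrb t ht0 ht C C' hCC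
          have := hb0 C'
          linarith
  rw [Finset.prod_mul_distrib, Finset.prod_pow_eq_pow_sum, h.hmn] at h2
  have h3 := mul_le_mul_of_nonneg_left h2 (pow_nonneg (norm_nonneg t) e)
  calc _ ≤ _ := h3
    _ = _ := by ring

/-- real powers above `N` are small against `‖t‖^N` -/
theorem F2_rpow (N : ℕ) (b : ℝ) (hb : (N : ℝ) < b) : ∀ δ > (0 : ℝ), ∃ r > (0 : ℝ), ∀ t : ℂ,
    0 < ‖t‖ → ‖t‖ < r → ‖t‖ ^ b ≤ δ * ‖t‖ ^ N := by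
  intro δ hδ
  have hb' : 0 < b - N := by linarith
  refine ⟨δ ^ (1 / (b - N)), Real.rpow_pos_of_pos hδ _, fun t ht0 ht => ?_⟩
  have h1 : ‖t‖ ^ b = ‖t‖ ^ (b - N) * ‖t‖ ^ N := by
    rw [← Real.rpow_natCast ‖t‖ N, ← Real.rpow_add ht0]
    congr 1
    ring
  rw [h1]
  refine mul_le_mul_of_nonneg_right ?_ (pow_nonneg ht0.le _)
  have h2 : ‖t‖ ^ (b - N) ≤ (δ ^ (1 / (b - N))) ^ (b - N) :=
    Real.rpow_le_rpow ht0.le ht.le hb'.le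
  rw [← Real.rpow_mul hδ.le, one_div, inv_mul_cancel₀ hb'.ne', Real.rpow_one] at h2
  exact h2

/-- the gradient at the centre of a cluster -/
theorem F2_grad {F : ℂ × ℂ → ℂ} {k n N : ℕ} {u : ℂ} {c : ℕ} {m : Fin c → ℕ}
    {b : Fin c → ℝ} {g v : Fin c → ℂ → ℂ} {a : Fin c → ℂ} {D : Fin c → ℕ}
    (h : Clu F k n N u c m b g v a D) :
    ∃ K > (0 : ℝ), ∃ δ > (0 : ℝ), ∀ t : ℂ, 0 < ‖t‖ → ‖t‖ < δ → ∀ C,
      ‖fderiv ℂ F (pt g N C t)‖ ≤ K * ‖v C t‖ := by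
  obtain ⟨CR, hCR, δ1, hδ1, hw⟩ := win_F h 1 le_rfl
  obtain ⟨δ2, hδ2, hs⟩ := F2_cE_sC h (N * (k - 1 - n))
  obtain ⟨c1, hc1, c2, hc2, hbal⟩ := h.bal
  obtain ⟨δ3, hδ3, hbal'⟩ := F2_ev hbal
  choose r hr hrb using fun C => F2_rpow N (b C) (h.hb C) δ1 hδ1
  obtain ⟨δ4, hδ4, hδ4'⟩ : ∃ δ4 > (0 : ℝ), ∀ C, δ4 ≤ r C := by
    rcases isEmpty_or_nonempty (Fin c) with he | hne
    · exact ⟨1, one_pos, fun C => (he.false C).elim⟩
    · obtain ⟨C0, hC0⟩ := Finite.exists_min r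
      exact ⟨r C0, hr C0, hC0⟩
  refine ⟨CR * (2 ^ n * c2), by positivity, min (min δ1 δ2) (min δ3 δ4), by positivity, ?_⟩
  intro t ht0 ht C
  have ht1 : ‖t‖ < δ1 := ht.trans_le ((min_le_left _ _).trans (min_le_left _ _))
  have ht2 : ‖t‖ < δ2 := ht.trans_le ((min_le_left _ _).trans (min_le_right _ _))
  have ht3 : ‖t‖ < δ3 := ht.trans_le ((min_le_right _ _).trans (min_le_left _ _))
  have ht4 : ‖t‖ < δ4 := ht.trans_le ((min_le_right _ _).trans (min_le_right _ _))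
  have h1 := hw t ht0 ht1 C (‖t‖ ^ (b C)) le_rfl (hrb C t ht0 (ht4.trans_le (hδ4' C)))
    (pt g N C t) (by
      rw [sub_self, norm_zero, one_mul]
      exact Real.rpow_nonneg (norm_nonneg _) _)
  have h2 := hs t ht0 ht2 C
  have h3 := (hbal' t ht0 ht3 C).2
  calc ‖fderiv ℂ F (pt g N C t)‖ ≤ CR * cE (N * (k - 1 - n)) m b g C (‖t‖ ^ (b C)) t := h1
    _ ≤ CR * (2 ^ n * (c2 * ‖v C t‖)) := by
        refine mul_le_mul_of_nonneg_left ?_ hCR.le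
        exact h2.trans (mul_le_mul_of_nonneg_left h3 (by positivity))
    _ = _ := by ring

/-- the slopes vanish to high order -/
theorem F2_v_upper {F : ℂ × ℂ → ℂ} {k n N : ℕ} {u : ℂ} {c : ℕ} {m : Fin c → ℕ}
    {b : Fin c → ℝ} {g v : Fin c → ℂ → ℂ} {a : Fin c → ℂ} {D : Fin c → ℕ}
    (h : Clu F k n N u c m b g v a D) :
    ∃ K > (0 : ℝ), ∃ δ > (0 : ℝ), ∀ t : ℂ, 0 < ‖t‖ → ‖t‖ < δ → ∀ C,
      ‖v C t‖ ≤ K * ‖t‖ * ‖t‖ ^ (N * (k - 1)) := by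
  have h1 : ∀ C, ∃ K > (0 : ℝ), ∃ r > (0 : ℝ), ∀ t : ℂ, 0 < ‖t‖ → ‖t‖ < r →
      ‖v C t‖ ≤ K * ‖t‖ * ‖t‖ ^ (N * (k - 1)) := by
    intro C
    have h2 := (h.vord C).norm
    have h3 : ∀ᶠ t in 𝓝[≠] (0 : ℂ), ‖v C t * t ^ N / t ^ D C‖ < ‖a C * D C / N‖ + 1 :=
      h2.eventually (gt_mem_nhds (by linarith))
    obtain ⟨r, hr, hrb⟩ := F2_ev h3
    refine ⟨‖a C * D C / N‖ + 1, by positivity, min r 1, by positivity, ?_⟩
    intro t ht0 ht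
    have h4 := hrb t ht0 (ht.trans_le (min_le_left _ _))
    have ht1 : ‖t‖ < 1 := ht.trans_le (min_le_right _ _)
    rw [norm_div, norm_mul, norm_pow, norm_pow, div_lt_iff₀ (pow_pos ht0 _)] at h4
    have h5 : ‖t‖ ^ D C ≤ ‖t‖ ^ (N + (N * (k - 1) + 1)) := by
      refine pow_le_pow_of_le_one ht0.le ht1.le ?_
      have h6 := h.hD C
      have h7 := h.hk
      have h8 : N * k = N + N * (k - 1) := by
        obtain ⟨k', rfl⟩ : ∃ k', k = k' + 1 := ⟨k - 1, by omega⟩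
        rw [Nat.add_sub_cancel]
        ring
      omega
    have h6 : ‖t‖ ^ N * ‖v C t‖ ≤ ‖t‖ ^ N * ((‖a C * D C / N‖ + 1) * ‖t‖ * ‖t‖ ^ (N * (k - 1))) := by
      calc ‖t‖ ^ N * ‖v C t‖ = ‖v C t‖ * ‖t‖ ^ N := mul_comm _ _
        _ ≤ (‖a C * D C / N‖ + 1) * ‖t‖ ^ D C := h4.le
        _ ≤ (‖a C * D C / N‖ + 1) * ‖t‖ ^ (N + (N * (k - 1) + 1)) :=
            mul_le_mul_of_nonneg_left h5 (by positivity)
        _ = _ := by
            rw [pow_add, pow_add, pow_one]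
            ring
    exact le_of_mul_le_mul_left h6 (pow_pos ht0 N)
  choose K hK r hr hrb using h1
  rcases isEmpty_or_nonempty (Fin c) with he | hne
  · exact ⟨1, one_pos, 1, one_pos, fun t _ _ C => (he.false C).elim⟩
  · obtain ⟨C0, hC0⟩ := Finite.exists_min r
    obtain ⟨C1, hC1⟩ := Finite.exists_max K
    refine ⟨K C1, hK C1, r C0, hr C0, fun t ht0 ht C => ?_⟩
    refine (hrb C t ht0 (ht.trans_le (hC0 C))).trans ?_
    have := hC1 C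
    gcongr

/-- the centre arcs are small -/
theorem F2_pt {F : ℂ × ℂ → ℂ} {k n N : ℕ} {u : ℂ} {c : ℕ} {m : Fin c → ℕ}
    {b : Fin c → ℝ} {g v : Fin c → ℂ → ℂ} {a : Fin c → ℂ} {D : Fin c → ℕ}
    (h : Clu F k n N u c m b g v a D) :
    ∀ δ0 > (0 : ℝ), ∃ δ > (0 : ℝ), ∀ t : ℂ, 0 < ‖t‖ → ‖t‖ < δ → ∀ C,
      ‖g C t‖ ≤ δ0 * ‖t ^ N‖ ∧ ‖t ^ N‖ < δ0 ∧ ‖pt g N C t‖ < δ0 := by
  intro δ0 hδ0
  have h1 : ∀ᶠ t in 𝓝[≠] (0 : ℂ), ∀ C, ‖g C t‖ ≤ min δ0 1 * ‖t ^ N‖ :=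
    Filter.eventually_all.mpr fun C => (h.gsm C).def (lt_min hδ0 one_pos)
  obtain ⟨r, hr, hrb⟩ := F2_ev h1
  refine ⟨min r (min δ0 1), by positivity, fun t ht0 ht C => ?_⟩
  have h2 := hrb t ht0 (ht.trans_le (min_le_left _ _)) C
  have ht1 : ‖t‖ < 1 := ht.trans_le ((min_le_right _ _).trans (min_le_right _ _))
  have ht2 : ‖t‖ < δ0 := ht.trans_le ((min_le_right _ _).trans (min_le_left _ _))
  have hN := h.hN
  have h3 : ‖t ^ N‖ < δ0 := by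
    rw [norm_pow]
    exact (pow_le_of_le_one ht0.le ht1.le (by omega)).trans_lt ht2
  have h4 : 0 ≤ ‖t ^ N‖ := norm_nonneg _
  have h5 : ‖g C t‖ ≤ δ0 * ‖t ^ N‖ :=
    h2.trans (mul_le_mul_of_nonneg_right (min_le_left _ _) h4)
  have h6 : ‖g C t‖ ≤ ‖t ^ N‖ := by
    refine h2.trans ?_
    calc min δ0 1 * ‖t ^ N‖ ≤ 1 * ‖t ^ N‖ := mul_le_mul_of_nonneg_right (min_le_right _ _) h4
      _ = ‖t ^ N‖ := one_mul _
  refine ⟨h5, h3, ?_⟩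
  unfold pt
  rw [Prod.norm_def]
  exact max_lt (h6.trans_lt h3) h3

/-- the image of the centre in the coordinates of the chart of `G` -/
theorem F2_geom {F G : ℂ × ℂ → ℂ} {k n n' N : ℕ} {u u' : ℂ} {c : ℕ} {m : Fin c → ℕ}
    {b : Fin c → ℝ} {g v : Fin c → ℂ → ℂ} {a : Fin c → ℂ} {D : Fin c → ℕ}
    {γ' : Fin n' → ℂ → ℂ} {A B : ℂ × ℂ → ℂ × ℂ} {L ρ : ℝ}
    (h : Mat F G k n n' N u u' c m b g v a D γ' A B L ρ) :
    ∃ c0 > (0 : ℝ), ∀ δ1 > (0 : ℝ), ∃ δ > (0 : ℝ), ∀ t : ℂ, 0 < ‖t‖ → ‖t‖ < δ → ∀ C,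
      ∀ t0 : ℂ, t0 ^ N = (A (pt g N C t)).2 → 0 < ‖t0‖ ∧ ‖t0‖ < δ1 ∧
        c0 * ‖t‖ ^ N ≤ ‖t0‖ ^ N ∧ ‖(A (pt g N C t)).1‖ ≤ δ1 * ‖t0‖ ^ N := by
  obtain ⟨c0, hc0, δa, hδa, hsz⟩ := mat_size h
  refine ⟨c0, hc0, fun δ1 hδ1 => ?_⟩
  obtain ⟨δb, hδb, hcone⟩ := h.cone δ1 hδ1
  obtain ⟨δc, hδc, hpt⟩ := F2_pt h.hC δb hδb
  have hL : 1 ≤ L := h.hco.hL
  have hL0 : 0 < L := by linarith
  have hN := h.hC.hN
  refine ⟨min (min δa δc) (δ1 / L), by positivity, ?_⟩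
  intro t ht0 ht C t0 ht0'
  have hta : ‖t‖ < δa := ht.trans_le ((min_le_left _ _).trans (min_le_left _ _))
  have htc : ‖t‖ < δc := ht.trans_le ((min_le_left _ _).trans (min_le_right _ _))
  have htL : ‖t‖ < δ1 / L := ht.trans_le (min_le_right _ _)
  obtain ⟨h1, h2⟩ := hsz t ht0 hta C
  have h3 : ‖t0‖ ^ N = ‖(A (pt g N C t)).2‖ := by rw [← norm_pow, ht0']
  rw [← h3] at h1 h2
  have h4 : 0 < ‖t0‖ ^ N := lt_of_lt_of_le (mul_pos hc0 (pow_pos ht0 N)) h1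
  have h5 : 0 < ‖t0‖ := by
    rcases eq_or_lt_of_le (norm_nonneg t0) with h6 | h6
    · rw [← h6, zero_pow (by omega)] at h4
      exact absurd h4 (lt_irrefl _)
    · exact h6
  have h6 : ‖t0‖ ≤ L * ‖t‖ := by
    have h7 : ‖t0‖ ^ N ≤ (L * ‖t‖) ^ N := by
      rw [mul_pow]
      refine h2.trans (mul_le_mul_of_nonneg_right ?_ (pow_nonneg ht0.le _))
      exact le_self_pow₀ hL (by omega)
    exact (pow_le_pow_iff_left₀ h5.le (by positivity) (by omega)).mp h7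
  refine ⟨h5, ?_, h1, ?_⟩
  · refine h6.trans_lt ?_
    rw [lt_div_iff₀ hL0] at htL
    linarith
  · have h7 := hpt t ht0 htc C
    have h8 := hcone (g C t) (t ^ N) h7.2.1 h7.1
    rw [h3]
    exact h8

theorem arcs_nonempty {F G : ℂ × ℂ → ℂ} {k n n' N : ℕ} {u u' : ℂ} {c : ℕ} {m : Fin c → ℕ}
    {b : Fin c → ℝ} {g v : Fin c → ℂ → ℂ} {a : Fin c → ℂ} {D : Fin c → ℕ}
    {γ' : Fin n' → ℂ → ℂ} {A B : ℂ × ℂ → ℂ × ℂ} {L ρ : ℝ}
    (h : Mat F G k n n' N u u' c m b g v a D γ' A B L ρ) : 1 ≤ n' := by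
  by_contra hn'
  have hn0 : n' = 0 := by omega
  subst hn0
  have hu := norm_pos_iff.mpr h.hG.hu
  have hL : 1 ≤ L := h.hco.hL
  have hL0 : 0 < L := by linarith
  have hN := h.hC.hN
  obtain ⟨δ1, hδ1, hfac⟩ := h.hG.fac (‖u'‖ / 2) (by positivity)
  obtain ⟨c0, hc0, hgeo⟩ := F2_geom h
  obtain ⟨δ2, hδ2, hgeo⟩ := hgeo (δ1 / 2) (by positivity)
  obtain ⟨K, hK, δ3, hδ3, hgr⟩ := F2_grad h.hC
  obtain ⟨K', hK', δ4, hδ4, hv⟩ := F2_v_upper h.hC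
  obtain ⟨δ5, hδ5, hpt⟩ := F2_pt h.hC ρ h.hco.hρ
  have hc : Nonempty (Fin c) := by
    by_contra hne
    rw [not_nonempty_iff] at hne
    have h1 := h.hC.hmn
    have h2 := h.hn
    rw [Finset.univ_eq_empty, Finset.sum_empty] at h1
    omega
  obtain ⟨C⟩ := hc
  set δ := min (min δ2 δ3) (min (min δ4 δ5) (‖u'‖ / 2 * c0 ^ (k - 1) / (L * (K * K')))) with hδ
  have hδ0 : 0 < δ := by positivity
  set t : ℂ := ((δ / 2 : ℝ) : ℂ) with htd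
  have htn : ‖t‖ = δ / 2 := by
    rw [htd, Complex.norm_real, Real.norm_of_nonneg (by positivity)]
  have ht0 : 0 < ‖t‖ := by rw [htn]; positivity
  have ht : ‖t‖ < δ := by rw [htn]; linarith
  have ht2 : ‖t‖ < δ2 := ht.trans_le ((min_le_left _ _).trans (min_le_left _ _))
  have ht3 : ‖t‖ < δ3 := ht.trans_le ((min_le_left _ _).trans (min_le_right _ _))
  have ht4 : ‖t‖ < δ4 :=
    ht.trans_le ((min_le_right _ _).trans ((min_le_left _ _).trans (min_le_left _ _)))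
  have ht5 : ‖t‖ < δ5 :=
    ht.trans_le ((min_le_right _ _).trans ((min_le_left _ _).trans (min_le_right _ _)))
  have ht6 : ‖t‖ < ‖u'‖ / 2 * c0 ^ (k - 1) / (L * (K * K')) :=
    ht.trans_le ((min_le_right _ _).trans (min_le_right _ _))
  obtain ⟨t0, ht00⟩ := IsAlgClosed.exists_pow_nat_eq (A (pt g N C t)).2 (show 0 < N by omega)
  obtain ⟨h1, h2, h3, h4⟩ := hgeo t ht0 ht2 C t0 ht00
  have h5 := hfac (A (pt g N C t)).1 t0 h1 (by linarith) (by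
    have : 0 < ‖t0‖ ^ N := pow_pos h1 N
    nlinarith)
  rw [Finset.univ_eq_empty, Finset.prod_empty, Finset.prod_empty, mul_one, mul_one, ht00] at h5
  have h6 : ‖u' * t0 ^ (N * (k - 1 - 0))‖ = ‖u'‖ * ‖t0‖ ^ (N * (k - 1 - 0)) := by
    rw [norm_mul, norm_pow]
  have h7 := norm_sub_norm_le (u' * t0 ^ (N * (k - 1 - 0)))
    (dx G ((A (pt g N C t)).1, (A (pt g N C t)).2))
  rw [norm_sub_rev, h6] at h7
  have h8 : ‖u'‖ / 2 * ‖t0‖ ^ (N * (k - 1 - 0))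
      ≤ ‖dx G ((A (pt g N C t)).1, (A (pt g N C t)).2)‖ := by linarith
  have h9 : ‖dx G (A (pt g N C t))‖ ≤ L * (K * (K' * ‖t‖ * ‖t‖ ^ (N * (k - 1)))) := by
    refine (F2_dx_le G _).trans ?_
    refine (h.hco.dA (pt g N C t) (by
      rw [mem_ball, dist_zero_right]
      exact (hpt t ht0 ht5 C).2.2)).trans ?_
    refine mul_le_mul_of_nonneg_left ?_ hL0.le
    refine (hgr t ht0 ht3 C).trans ?_
    exact mul_le_mul_of_nonneg_left (hv t ht0 ht4 C) hK.le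
  have h10 : (c0 * ‖t‖ ^ N) ^ (k - 1) ≤ ‖t0‖ ^ (N * (k - 1 - 0)) := by
    rw [Nat.sub_zero, pow_mul]
    exact pow_le_pow_left₀ (by positivity) h3 _
  have h11 : ‖u'‖ / 2 * (c0 * ‖t‖ ^ N) ^ (k - 1) ≤ L * (K * (K' * ‖t‖ * ‖t‖ ^ (N * (k - 1)))) :=
    (mul_le_mul_of_nonneg_left h10 (by positivity)).trans (h8.trans h9)
  rw [mul_pow, ← pow_mul] at h11
  have h12 : ‖t‖ ^ (N * (k - 1)) * (‖u'‖ / 2 * c0 ^ (k - 1))
      ≤ ‖t‖ ^ (N * (k - 1)) * (L * (K * K') * ‖t‖) := by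
    calc _ = ‖u'‖ / 2 * (c0 ^ (k - 1) * ‖t‖ ^ (N * (k - 1))) := by ring
      _ ≤ _ := h11
      _ = _ := by ring
  have h13 := le_of_mul_le_mul_left h12 (pow_pos ht0 _)
  rw [lt_div_iff₀ (by positivity)] at ht6
  linarith

/-- the slopes along the arcs of `G` change by a bounded factor -/
theorem F2_vcmp {G : ℂ × ℂ → ℂ} {k n' N : ℕ} {u' : ℂ} {γ' : Fin n' → ℂ → ℂ}
    (h : PCh G k n' N u' γ') (hi : Iso G) :
    ∃ K > (0 : ℝ), ∃ δ > (0 : ℝ), ∀ l, ∀ t t1 : ℂ, 0 < ‖t‖ → ‖t‖ < δ → ‖t1 - t‖ ≤ ‖t‖ / 2 →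
      ‖dy G (γ' l t1, t1 ^ N)‖ ≤ K * ‖dy G (γ' l t, t ^ N)‖ := by
  have h1 : ∀ l, ∃ K > (0 : ℝ), ∃ δ > (0 : ℝ), ∀ t t1 : ℂ, 0 < ‖t‖ → ‖t‖ < δ →
      ‖t1 - t‖ ≤ ‖t‖ / 2 → ‖dy G (γ' l t1, t1 ^ N)‖ ≤ K * ‖dy G (γ' l t, t ^ N)‖ := by
    intro l
    obtain ⟨D, a, hD, ha, -, hv⟩ := arc_ord h hi l
    have hN := h.hN
    have hw : 0 < ‖a * D / N‖ := by
      rw [norm_pos_iff]
      have hD0 : (D : ℂ) ≠ 0 := Nat.cast_ne_zero.mpr (by omega)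
      have hN0 : (N : ℂ) ≠ 0 := Nat.cast_ne_zero.mpr (by omega)
      exact div_ne_zero (mul_ne_zero ha hD0) hN0
    set w := ‖a * D / N‖ with hwd
    have h2 : ∀ᶠ t in 𝓝[≠] (0 : ℂ), ‖dy G (γ' l t, t ^ N) * t ^ N / t ^ D‖ < 2 * w :=
      hv.norm.eventually (gt_mem_nhds (by linarith))
    have h3 : ∀ᶠ t in 𝓝[≠] (0 : ℂ), w / 2 < ‖dy G (γ' l t, t ^ N) * t ^ N / t ^ D‖ :=
      hv.norm.eventually (lt_mem_nhds (by linarith))
    obtain ⟨r, hr, hrb⟩ := F2_ev (h2.and h3)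
    refine ⟨4 * 2 ^ D * 2 ^ N, by positivity, r / 2, by positivity, ?_⟩
    intro t t1 ht0 ht ht1
    have h4 : ‖t1‖ ≤ 2 * ‖t‖ := by
      have := norm_add_le (t1 - t) t
      rw [sub_add_cancel] at this
      linarith
    have h5 : ‖t‖ / 2 ≤ ‖t1‖ := by
      have := norm_sub_norm_le t t1
      rw [norm_sub_rev] at this
      linarith
    have h50 : 0 < ‖t1‖ := by linarith
    have h6 := (hrb t1 h50 (by linarith)).1
    have h7 := (hrb t ht0 (by linarith)).2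
    rw [norm_div, norm_mul, norm_pow, norm_pow, div_lt_iff₀ (pow_pos h50 _)] at h6
    rw [norm_div, norm_mul, norm_pow, norm_pow, lt_div_iff₀ (pow_pos ht0 _)] at h7
    set V1 := ‖dy G (γ' l t1, t1 ^ N)‖ with hV1
    set V0 := ‖dy G (γ' l t, t ^ N)‖ with hV0
    have h8 : ‖t1‖ ^ D ≤ 2 ^ D * ‖t‖ ^ D := by
      rw [← mul_pow]
      exact pow_le_pow_left₀ h50.le h4 _
    have h9 : ‖t‖ ^ N ≤ 2 ^ N * ‖t1‖ ^ N := by
      rw [← mul_pow]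
      exact pow_le_pow_left₀ ht0.le (by linarith) _
    have h10 : ‖t‖ ^ N * V1 ≤ ‖t‖ ^ N * (4 * 2 ^ D * 2 ^ N * V0) := by
      calc ‖t‖ ^ N * V1 ≤ 2 ^ N * ‖t1‖ ^ N * V1 :=
            mul_le_mul_of_nonneg_right h9 (norm_nonneg _)
        _ = 2 ^ N * (V1 * ‖t1‖ ^ N) := by ring
        _ ≤ 2 ^ N * (2 * w * ‖t1‖ ^ D) := mul_le_mul_of_nonneg_left h6.le (by positivity)
        _ ≤ 2 ^ N * (2 * w * (2 ^ D * ‖t‖ ^ D)) := by gcongr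
        _ = 4 * 2 ^ D * 2 ^ N * (w / 2 * ‖t‖ ^ D) := by ring
        _ ≤ 4 * 2 ^ D * 2 ^ N * (V0 * ‖t‖ ^ N) := mul_le_mul_of_nonneg_left h7.le (by positivity)
        _ = _ := by ring
    exact le_of_mul_le_mul_left h10 (pow_pos ht0 N)
  choose K hK r hr hrb using h1
  rcases isEmpty_or_nonempty (Fin n') with he | hne
  · exact ⟨1, one_pos, 1, one_pos, fun l => (he.false l).elim⟩
  · obtain ⟨l0, hl0⟩ := Finite.exists_min r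
    obtain ⟨l1, hl1⟩ := Finite.exists_max K
    refine ⟨K l1, hK l1, r l0, hr l0, fun l t t1 ht0 ht ht1 => ?_⟩
    refine (hrb l t t1 ht0 (ht.trans_le (hl0 l)) ht1).trans ?_
    exact mul_le_mul_of_nonneg_right (hl1 l) (norm_nonneg _)

/-- comparison of expected sizes -/
theorem F2_Eh {n : ℕ} (e : ℕ) (γ : Fin n → ℂ → ℂ) (x1 x0 t t0 : ℂ) (σ s M : ℝ)
    (hσ : 0 ≤ σ) (ht : ‖t‖ ≤ 2 * ‖t0‖)
    (hj : ∀ j, σ + ‖x1 - γ j t‖ ≤ M * (s + ‖x0 - γ j t0‖)) :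
    Ehat e γ x1 σ t ≤ 2 ^ e * M ^ n * Ehat e γ x0 s t0 := by
  unfold Ehat
  have h1 : ‖t‖ ^ e ≤ 2 ^ e * ‖t0‖ ^ e := by
    rw [← mul_pow]
    exact pow_le_pow_left₀ (norm_nonneg _) ht _
  have h2 : ∏ l, (σ + ‖x1 - γ l t‖) ≤ ∏ l, (M * (s + ‖x0 - γ l t0‖)) := by
    refine Finset.prod_le_prod (fun l _ => ?_) (fun l _ => hj l)
    exact add_nonneg hσ (norm_nonneg _)
  rw [Finset.prod_mul_distrib, Finset.prod_const, Finset.card_univ, Fintype.card_fin] at h2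
  have h3 : 0 ≤ ∏ l, (σ + ‖x1 - γ l t‖) :=
    Finset.prod_nonneg fun l _ => add_nonneg hσ (norm_nonneg _)
  calc ‖t‖ ^ e * ∏ l, (σ + ‖x1 - γ l t‖)
      ≤ (2 ^ e * ‖t0‖ ^ e) * (M ^ n * ∏ l, (s + ‖x0 - γ l t0‖)) :=
        mul_le_mul h1 h2 h3 (by positivity)
    _ = _ := by ring

theorem dyG_small {F G : ℂ × ℂ → ℂ} {k n n' N : ℕ} {u u' : ℂ} {c : ℕ} {m : Fin c → ℕ}
    {b : Fin c → ℝ} {g v : Fin c → ℂ → ℂ} {a : Fin c → ℂ} {D : Fin c → ℕ}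
    {γ' : Fin n' → ℂ → ℂ} {A B : ℂ × ℂ → ℂ × ℂ} {L ρ : ℝ}
    (h : Mat F G k n n' N u u' c m b g v a D γ' A B L ρ) :
    ∀ R : ℝ, 1 ≤ R → ∀ ε > (0 : ℝ), ∃ K > (0 : ℝ), ∃ δ > (0 : ℝ), ∀ t : ℂ, 0 < ‖t‖ → ‖t‖ < δ →
      ∀ C (s : ℝ), K * ‖t‖ ^ (b C) ≤ s → s ≤ δ * ‖t‖ ^ N →
      ∀ q : ℂ × ℂ, ‖q - A (pt g N C t)‖ ≤ R * s →
      ‖dy G q‖ ≤ ε * cE (N * (k - 1 - n)) m b g C s t := by
  intro R hR ε hε
  have hR0 : 0 < R := by linarith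
  have hn' := arcs_nonempty h
  have hL : 1 ≤ L := h.hco.hL
  have hL0 : 0 < L := by linarith
  have hN := h.hC.hN
  have hne : Nonempty (Fin n') := ⟨⟨0, by omega⟩⟩
  obtain ⟨K1, hK1, δ1, hδ1, hgr⟩ := F2_grad h.hC
  obtain ⟨CR, hCR, δ2, hδ2, heh⟩ := ehatG_le h
  obtain ⟨Kv, hKv, δ3, hδ3, hvc⟩ := F2_vcmp h.hG h.isoG
  obtain ⟨c0, hc0, hgeo⟩ := F2_geom h
  obtain ⟨C4, hC4, hroot⟩ := root_near N hN
  have hC40 : 0 < C4 := by linarith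
  set e' := N * (k - 1 - n') with he'
  obtain ⟨M1, hM1⟩ : ∃ M1 : ℝ, M1 = 2 ^ e' * 3 ^ n' * CR := ⟨_, rfl⟩
  obtain ⟨M2, hM2⟩ : ∃ M2 : ℝ, M2 = 2 ^ e' * (R + 3) ^ n' * CR := ⟨_, rfl⟩
  have hM1p : 0 < M1 := by rw [hM1]; positivity
  have hM2p : 0 < M2 := by rw [hM2]; positivity
  obtain ⟨ε1, hε1⟩ : ∃ ε1 : ℝ, ε1 = ε / (2 * (Kv * M1 + M2)) := ⟨_, rfl⟩
  obtain ⟨ε', hε'⟩ : ∃ ε' : ℝ, ε' = ε / (2 * (Kv * L * K1)) := ⟨_, rfl⟩
  have hε1p : 0 < ε1 := by rw [hε1]; positivity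
  have hε'p : 0 < ε' := by rw [hε']; positivity
  obtain ⟨K5, hK5, δ5, hδ5, hvs⟩ := v_small h.hC ε' hε'p
  obtain ⟨δ6, hδ6, hpf⟩ := pf3 h.hG ε1 hε1p
  obtain ⟨δ7, hδ7, hslow⟩ : ∃ δ7 > (0 : ℝ), ∀ l, ∀ t t1 : ℂ, 0 < ‖t‖ → ‖t‖ < δ7 →
      ‖t1 - t‖ ≤ ‖t‖ / 2 →
      ‖γ' l t1 - γ' l t‖ ≤ 1 / (C4 * R) * ‖t‖ ^ (N - 1) * ‖t1 - t‖ := by
    choose r hr hrb using fun l => slow_small N h.hG.hN (γ' l) (h.hG.γan l) (h.hG.γsm l)
      (1 / (C4 * R)) (by positivity)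
    obtain ⟨l0, hl0⟩ := Finite.exists_min r
    exact ⟨r l0, hr l0, fun l t t1 ht0 ht ht1 => hrb l t t1 ht0 (ht.trans_le (hl0 l)) ht1⟩
  obtain ⟨δ8, hδ8, hgs⟩ : ∃ δ8 > (0 : ℝ), ∀ t : ℂ, 0 < ‖t‖ → ‖t‖ < δ8 →
      ∀ l, ‖γ' l t‖ < δ6 * ‖t‖ ^ N := by
    refine F2_ev (P := fun t => ∀ l, ‖γ' l t‖ < δ6 * ‖t‖ ^ N) ?_
    refine Filter.eventually_all.mpr fun l => ?_
    filter_upwards [P2aux.small_of h.hG l hδ6] with t ht
    exact ht.2.2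
  have h2N : (1 : ℝ) ≤ 2 ^ N := one_le_pow₀ (by norm_num)
  obtain ⟨δ10, hδ10, hgeo⟩ := hgeo (min (min δ3 (δ6 / (4 * 2 ^ N))) (min δ7 (δ8 / 2)))
    (by positivity)
  obtain ⟨δ11, hδ11, hpt⟩ := F2_pt h.hC ρ h.hco.hρ
  refine ⟨max 1 K5, lt_of_lt_of_le one_pos (le_max_left _ _),
    min (min (min δ1 δ2) (min δ5 δ10))
      (min δ11 (min (c0 / (10 * R)) (c0 * δ6 / (4 * 2 ^ N * R)))), by positivity, ?_⟩
  intro t ht0 ht C s hs1 hs2 q hq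
  set δ := min (min (min δ1 δ2) (min δ5 δ10))
      (min δ11 (min (c0 / (10 * R)) (c0 * δ6 / (4 * 2 ^ N * R)))) with hδ
  have hδ1' : δ ≤ δ1 := (min_le_left _ _).trans ((min_le_left _ _).trans (min_le_left _ _))
  have hδ2' : δ ≤ δ2 := (min_le_left _ _).trans ((min_le_left _ _).trans (min_le_right _ _))
  have hδ5' : δ ≤ δ5 := (min_le_left _ _).trans ((min_le_right _ _).trans (min_le_left _ _))
  have hδ10' : δ ≤ δ10 := (min_le_left _ _).trans ((min_le_right _ _).trans (min_le_right _ _))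
  have hδ11' : δ ≤ δ11 := (min_le_right _ _).trans (min_le_left _ _)
  have hδa : δ ≤ c0 / (10 * R) :=
    (min_le_right _ _).trans ((min_le_right _ _).trans (min_le_left _ _))
  have hδb : δ ≤ c0 * δ6 / (4 * 2 ^ N * R) :=
    (min_le_right _ _).trans ((min_le_right _ _).trans (min_le_right _ _))
  have hb0 : 0 ≤ ‖t‖ ^ (b C) := Real.rpow_nonneg (norm_nonneg _) _
  have hsC : ‖t‖ ^ (b C) ≤ s := by
    refine le_trans ?_ hs1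
    calc ‖t‖ ^ (b C) = 1 * ‖t‖ ^ (b C) := (one_mul _).symm
      _ ≤ max 1 K5 * ‖t‖ ^ (b C) := mul_le_mul_of_nonneg_right (le_max_left _ _) hb0
  have hsK : K5 * ‖t‖ ^ (b C) ≤ s :=
    (mul_le_mul_of_nonneg_right (le_max_right _ _) hb0).trans hs1
  have hs0 : 0 ≤ s := hb0.trans hsC
  have htN : 0 < ‖t‖ ^ N := pow_pos ht0 N
  obtain ⟨E, hEd⟩ : ∃ E : ℝ, E = cE (N * (k - 1 - n)) m b g C s t := ⟨_, rfl⟩
  have hE0 : 0 ≤ E := by rw [hEd]; exact F2_cE_nonneg _ _ _ _ _ _ _ hs0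
  rw [← hEd]
  obtain ⟨x0, hx0⟩ : ∃ x0 : ℂ, x0 = (A (pt g N C t)).1 := ⟨_, rfl⟩
  obtain ⟨t0, ht00⟩ := IsAlgClosed.exists_pow_nat_eq (A (pt g N C t)).2 (show 0 < N by omega)
  obtain ⟨h1, h2, h3, h4⟩ := hgeo t ht0 (ht.trans_le hδ10') C t0 ht00
  have h23 : ‖t0‖ < δ3 := h2.trans_le ((min_le_left _ _).trans (min_le_left _ _))
  have h26 : ‖t0‖ < δ6 / (4 * 2 ^ N) := h2.trans_le ((min_le_left _ _).trans (min_le_right _ _))
  have h27 : ‖t0‖ < δ7 := h2.trans_le ((min_le_right _ _).trans (min_le_left _ _))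
  have h28 : ‖t0‖ < δ8 / 2 := h2.trans_le ((min_le_right _ _).trans (min_le_right _ _))
  have hδ6N : δ6 / (4 * 2 ^ N) ≤ δ6 / 4 := by
    apply div_le_div_of_nonneg_left hδ6.le (by norm_num)
    linarith
  have ht0N : 0 < ‖t0‖ ^ N := pow_pos h1 N
  have h46 : ‖x0‖ ≤ δ6 / (4 * 2 ^ N) * ‖t0‖ ^ N := by
    rw [hx0]
    exact h4.trans (mul_le_mul_of_nonneg_right
      ((min_le_left _ _).trans (min_le_right _ _)) ht0N.le)
  have hAp : A (pt g N C t) = (x0, t0 ^ N) := by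
    rw [ht00, hx0]
  have hE : Ehat e' γ' x0 s t0 ≤ CR * E := by
    rw [hx0, hEd]
    exact heh t ht0 (ht.trans_le hδ2') C s hsC
      (hs2.trans (mul_le_mul_of_nonneg_right hδ2' htN.le)) t0 ht00
  -- step 1
  have st1 : ‖dy G (x0, t0 ^ N)‖ ≤ L * (K1 * (ε' * E)) := by
    rw [← hAp]
    refine (F2_dy_le G _).trans ?_
    refine (h.hco.dA (pt g N C t) (by
      rw [mem_ball, dist_zero_right]
      exact (hpt t ht0 (ht.trans_le hδ11') C).2.2)).trans ?_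
    refine mul_le_mul_of_nonneg_left ?_ hL0.le
    refine (hgr t ht0 (ht.trans_le hδ1') C).trans ?_
    refine mul_le_mul_of_nonneg_left ?_ hK1.le
    rw [hEd]
    exact hvs t ht0 (ht.trans_le hδ5') C s hsK
  -- step 2
  obtain ⟨l, hl⟩ := Finite.exists_min (fun j => ‖x0 - γ' j t0‖)
  have st2 : ‖dy G (x0, t0 ^ N) - dy G (γ' l t0, t0 ^ N)‖ ≤ ε1 * (M1 * E) := by
    refine (hpf x0 (γ' l t0) t0 h1 (by linarith) ?_ ?_).trans ?_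
    · nlinarith
    · exact hgs t0 h1 (by linarith) l
    · refine mul_le_mul_of_nonneg_left ?_ hε1p.le
      have h5 := F2_Eh e' γ' (γ' l t0) x0 t0 t0 ‖x0 - γ' l t0‖ s 3 (norm_nonneg _)
        (by linarith) (fun j => by
          have h6 := hl j
          have h7 : ‖γ' l t0 - γ' j t0‖ ≤ ‖x0 - γ' l t0‖ + ‖x0 - γ' j t0‖ := by
            have := norm_sub_le (x0 - γ' j t0) (x0 - γ' l t0)
            rw [sub_sub_sub_cancel_left] at this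
            linarith
          linarith)
      refine h5.trans ?_
      rw [hM1]
      calc 2 ^ e' * 3 ^ n' * Ehat e' γ' x0 s t0 ≤ 2 ^ e' * 3 ^ n' * (CR * E) :=
            mul_le_mul_of_nonneg_left hE (by positivity)
        _ = _ := by ring
  have st2' : ‖dy G (γ' l t0, t0 ^ N)‖ ≤ L * (K1 * (ε' * E)) + ε1 * (M1 * E) := by
    have := norm_sub_norm_le (dy G (γ' l t0, t0 ^ N)) (dy G (x0, t0 ^ N))
    rw [norm_sub_rev] at this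
    linarith
  -- step 3
  have hq2 : ‖q.2 - t0 ^ N‖ ≤ R * s := by
    rw [hAp] at hq
    exact (norm_snd_le (q - (x0, t0 ^ N))).trans hq
  have hq1 : ‖q.1 - x0‖ ≤ R * s := by
    rw [hAp] at hq
    exact (norm_fst_le (q - (x0, t0 ^ N))).trans hq
  have hRs : R * s ≤ ‖t0‖ ^ N / 10 := by
    have h5 : R * s ≤ R * (c0 / (10 * R) * ‖t‖ ^ N) :=
      mul_le_mul_of_nonneg_left (hs2.trans (mul_le_mul_of_nonneg_right hδa htN.le)) hR0.le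
    have h6 : R * (c0 / (10 * R) * ‖t‖ ^ N) = c0 * ‖t‖ ^ N / 10 := by
      field_simp
    rw [h6] at h5
    linarith
  have hRs2 : R * s ≤ δ6 / (4 * 2 ^ N) * ‖t0‖ ^ N := by
    have h5 : R * s ≤ R * (c0 * δ6 / (4 * 2 ^ N * R) * ‖t‖ ^ N) :=
      mul_le_mul_of_nonneg_left (hs2.trans (mul_le_mul_of_nonneg_right hδb htN.le)) hR0.le
    have h6 : R * (c0 * δ6 / (4 * 2 ^ N * R) * ‖t‖ ^ N) = δ6 / (4 * 2 ^ N) * (c0 * ‖t‖ ^ N) := by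
      field_simp
    rw [h6] at h5
    exact h5.trans (mul_le_mul_of_nonneg_left h3 (by positivity))
  obtain ⟨t1, ht1, ht1a, ht1b⟩ := hroot t0 q.2 (norm_pos_iff.mp h1) (hq2.trans hRs)
  have hsl : ∀ j, ‖γ' j t1 - γ' j t0‖ ≤ s := by
    intro j
    refine (hslow j t0 t1 h1 h27 ht1b).trans ?_
    calc 1 / (C4 * R) * ‖t0‖ ^ (N - 1) * ‖t1 - t0‖
        = 1 / (C4 * R) * (‖t1 - t0‖ * ‖t0‖ ^ (N - 1)) := by ring
      _ ≤ 1 / (C4 * R) * (C4 * (R * s)) := by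
          refine mul_le_mul_of_nonneg_left ?_ (by positivity)
          exact ht1a.trans (mul_le_mul_of_nonneg_left hq2 hC40.le)
      _ = s := by field_simp
  have hn1 : ‖t1‖ ≤ 2 * ‖t0‖ := by
    have := norm_add_le (t1 - t0) t0
    rw [sub_add_cancel] at this
    linarith
  have hn2 : ‖t0‖ / 2 ≤ ‖t1‖ := by
    have := norm_sub_norm_le t0 t1
    rw [norm_sub_rev] at this
    linarith
  have ht10 : 0 < ‖t1‖ := by linarith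
  have ht1N : 0 < ‖t1‖ ^ N := pow_pos ht10 N
  have hn3 : ‖t0‖ ^ N ≤ 2 ^ N * ‖t1‖ ^ N := by
    rw [← mul_pow]
    exact pow_le_pow_left₀ h1.le (by linarith) _
  have hvl := hvc l t0 t1 h1 h23 ht1b
  have hqe : (q.1, t1 ^ N) = q := by rw [ht1]
  have hq1n : ‖q.1‖ < δ6 * ‖t1‖ ^ N := by
    have h5 : ‖q.1‖ ≤ ‖q.1 - x0‖ + ‖x0‖ := by
      have := norm_add_le (q.1 - x0) x0
      rwa [sub_add_cancel] at this
    have h6 : ‖q.1‖ ≤ 2 * (δ6 / (4 * 2 ^ N) * ‖t0‖ ^ N) := by linarith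
    have h7 : 2 * (δ6 / (4 * 2 ^ N) * ‖t0‖ ^ N) ≤ 2 * (δ6 / (4 * 2 ^ N) * (2 ^ N * ‖t1‖ ^ N)) := by
      gcongr
    have h8 : 2 * (δ6 / (4 * 2 ^ N) * (2 ^ N * ‖t1‖ ^ N)) = δ6 * ‖t1‖ ^ N / 2 := by
      field_simp
      ring
    rw [h8] at h7
    have h9 : 0 < δ6 * ‖t1‖ ^ N := mul_pos hδ6 ht1N
    linarith
  have st3 : ‖dy G (q.1, t1 ^ N) - dy G (γ' l t1, t1 ^ N)‖ ≤ ε1 * (M2 * E) := by
    refine (hpf q.1 (γ' l t1) t1 ht10 (by linarith) hq1n ?_).trans ?_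
    · exact hgs t1 ht10 (by linarith) l
    · refine mul_le_mul_of_nonneg_left ?_ hε1p.le
      have h5 := F2_Eh e' γ' (γ' l t1) x0 t1 t0 ‖q.1 - γ' l t1‖ s (R + 3) (norm_nonneg _)
        hn1 (fun j => by
          have h6 := hl j
          have h7 : ‖q.1 - γ' l t1‖ ≤ ‖q.1 - x0‖ + ‖x0 - γ' l t0‖ + ‖γ' l t1 - γ' l t0‖ := by
            have h8 : q.1 - γ' l t1 = (q.1 - x0) + (x0 - γ' l t0) - (γ' l t1 - γ' l t0) := by ring
            rw [h8]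
            exact (norm_sub_le _ _).trans (by
              have := norm_add_le (q.1 - x0) (x0 - γ' l t0)
              linarith)
          have h9 : ‖γ' l t1 - γ' j t1‖ ≤ ‖γ' l t1 - γ' l t0‖ + ‖x0 - γ' l t0‖ + ‖x0 - γ' j t0‖
              + ‖γ' j t1 - γ' j t0‖ := by
            have h10 : γ' l t1 - γ' j t1 = (γ' l t1 - γ' l t0) - (x0 - γ' l t0) + (x0 - γ' j t0)
                - (γ' j t1 - γ' j t0) := by ring
            rw [h10]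
            have h11 := norm_sub_le ((γ' l t1 - γ' l t0) - (x0 - γ' l t0) + (x0 - γ' j t0))
              (γ' j t1 - γ' j t0)
            have h12 := norm_add_le ((γ' l t1 - γ' l t0) - (x0 - γ' l t0)) (x0 - γ' j t0)
            have h13 := norm_sub_le (γ' l t1 - γ' l t0) (x0 - γ' l t0)
            linarith
          have h14 := hsl l
          have h15 := hsl j
          have h16 : 0 ≤ ‖x0 - γ' j t0‖ := norm_nonneg _
          have h17 : 0 ≤ R * ‖x0 - γ' j t0‖ := mul_nonneg hR0.le h16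
          nlinarith)
      refine h5.trans ?_
      rw [hM2]
      calc 2 ^ e' * (R + 3) ^ n' * Ehat e' γ' x0 s t0 ≤ 2 ^ e' * (R + 3) ^ n' * (CR * E) :=
            mul_le_mul_of_nonneg_left hE (by positivity)
        _ = _ := by ring
  rw [hqe] at st3
  have hfin : ‖dy G q‖ ≤ Kv * (L * (K1 * (ε' * E)) + ε1 * (M1 * E)) + ε1 * (M2 * E) := by
    have h5 := norm_sub_norm_le (dy G q) (dy G (γ' l t1, t1 ^ N))
    have h6 := hvl.trans (mul_le_mul_of_nonneg_left st2' hKv.le)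
    linarith
  refine hfin.trans (le_of_eq ?_)
  have h5 : Kv * (L * (K1 * (ε' * E)) + ε1 * (M1 * E)) + ε1 * (M2 * E)
      = (ε' * (Kv * L * K1) + ε1 * (Kv * M1 + M2)) * E := by ring
  rw [h5]
  have h6 : ε' * (Kv * L * K1) = ε / 2 := by
    rw [hε']
    field_simp
  have h7 : ε1 * (Kv * M1 + M2) = ε / 2 := by
    rw [hε1]
    field_simp
  rw [h6, h7]
  ring

end H24.LS
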