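import Pool.Agent.H24.LS.P0
import Pool.Agent.H24.LS.F0
import Pool.Agent.H24.LS.F1
import Pool.Agent.H24.LS.F2

/-!
# F3: product formula for `dx F` on whole windows at scales `s ≥ K s_C`; labelling of the factors

* `exists_label`: `Σ m = n` gives a labelling `cl : Fin n → Fin c` with fibres of size `m C`
  (`finSigmaFinEquiv`), so `∏_l f (cl l) = ∏_C f C ^ m C`.
* `cE_low`: `E0 := ‖t‖^e ∏ (s + ‖g C - g C'‖)^m ≤ cE C s t ≤ 2^n E0` for `s ≥ ‖t‖^(b C)`: the factor of `C' = C` by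
  `s ≥ s_C`, the factors of `C' ≠ C` since `‖t‖^(b C') ≤ ‖g C - g C'‖` for small `t` (`sep`).
* `prodF`.  `x = g C t + s X`, `‖X‖ ≤ R`.  Let `K'` be from `F2` (with `ε' = ε/(1+R)^n`).
  Case 1: `‖x - g C'‖ ≥ K' s_C'` for all `C'`: `F2` and `‖x - g C'‖ ≤ R s + ‖g C - g C'‖ ≤ (1+R)(s + ..)`.
  Case 2: `‖x - g C'‖ < K' s_C'` for some `C'`.  Claim `s_C' ≤ ε'' s`: if `C' = C` because `s ≥ K s_C` (`K` large);
  if `C' ≠ C`: `‖g C - g C'‖ ≤ R s + K' s_C'` and `s_C' = o(‖g C - g C'‖)`, so `s_C' ≤ ε'' s` for small `t`, and also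
  `‖g C - g C'‖ ≤ 2 R s`.  Then `cE C' s t ≤ (2R+1)^n.. cE C s t` (triangle inequality in each factor, the
  terms `‖t‖^(b C'')` are common) and `F1` at `C'`:
  `‖dx F‖ ≤ C0 cE C' (K' s_C') t`; and for `σ = K' s_C' ≤ K' ε'' s`:
  `cE C' σ t ≤ K'' (s_C'/s)^{m C'} cE C' s t ≤ K'' ε'' cE C' s t` (the factor of `C'` itself is
  `(σ + s_C')^{m C'} ≤ ((K'+1) s_C')^{m C'}`, the other factors are bounded by those of `cE C' s`).
  The product `‖t‖^e ∏ ‖x - g C''‖^m` is bounded in the same way (factor `C''=C'`: `(K' s_C')^{m C'}`).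
-/

open Filter Topology Metric Asymptotics

namespace H24.LS

private theorem F3_ev {P : ℂ → Prop} (h : ∀ᶠ t in 𝓝[≠] (0 : ℂ), P t) :
    ∃ δ > (0 : ℝ), ∀ t : ℂ, 0 < ‖t‖ → ‖t‖ < δ → P t := by
  rw [eventually_nhdsWithin_iff, Metric.eventually_nhds_iff] at h
  obtain ⟨δ, hδ, hP⟩ := h
  refine ⟨δ, hδ, fun t h1 h2 => hP (by simpa using h2) ?_⟩
  exact norm_pos_iff.1 h1

theorem exists_label {n c : ℕ} (m : Fin c → ℕ) (h : ∑ C, m C = n) :
    ∃ cl : Fin n → Fin c, (∀ C, (Finset.univ.filter (fun l => cl l = C)).card = m C) ∧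
      ∀ f : Fin c → ℂ, ∏ l, f (cl l) = ∏ C, f C ^ m C := by
  subst h
  refine ⟨fun l => (finSigmaFinEquiv.symm l).1, fun C => ?_, fun f => ?_⟩
  · have h1 : (Finset.univ.filter (fun l : Fin (∑ C, m C) => (finSigmaFinEquiv.symm l).1 = C)).card
        = (Finset.univ.filter (fun x : (i : Fin c) × Fin (m i) => x.1 = C)).card := by
      apply Finset.card_bij' (fun l _ => finSigmaFinEquiv.symm l) (fun x _ => finSigmaFinEquiv x)
      · intro l hl; simpa using hl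
      · intro x hx; simpa using hx
      · intro l hl; simp
      · intro x hx; simp
    rw [h1]
    have h2 : (Finset.univ.filter (fun x : (i : Fin c) × Fin (m i) => x.1 = C)).card
        = (Finset.univ : Finset (Fin (m C))).card := by
      symm
      apply Finset.card_bij (fun (j : Fin (m C)) _ => (⟨C, j⟩ : (i : Fin c) × Fin (m i)))
      · intro j _; simp
      · intro j _ j' _ hj
        simpa using hj
      · rintro ⟨C', j⟩ hx
        simp only [Finset.mem_filter, Finset.mem_univ, true_and] at hx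
        subst hx
        exact ⟨j, Finset.mem_univ _, rfl⟩
    rw [h2, Finset.card_univ, Fintype.card_fin]
  · rw [← Equiv.prod_comp (finSigmaFinEquiv (m := c) (n := m))
      (fun l => f (finSigmaFinEquiv.symm l).1)]
    simp only [Equiv.symm_apply_apply]
    rw [Fintype.prod_sigma]
    refine Finset.prod_congr rfl (fun C _ => ?_)
    show ∏ _y : Fin (m C), f C = f C ^ m C
    rw [Finset.prod_const, Finset.card_univ, Fintype.card_fin]

private theorem F3_sep {F : ℂ × ℂ → ℂ} {k n N : ℕ} {u : ℂ} {c : ℕ} {m : Fin c → ℕ}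
    {b : Fin c → ℝ} {g v : Fin c → ℂ → ℂ} {a : Fin c → ℂ} {D : Fin c → ℕ}
    (h : Clu F k n N u c m b g v a D) (η : ℝ) (hη : 0 < η) :
    ∃ δ > (0 : ℝ), ∀ t : ℂ, 0 < ‖t‖ → ‖t‖ < δ → ∀ C C', C' ≠ C →
      ‖t‖ ^ (b C') ≤ η * ‖g C t - g C' t‖ := by
  apply F3_ev
  rw [eventually_all]
  intro C
  rw [eventually_all]
  intro C'
  by_cases hCC : C' = C
  · exact Eventually.of_forall (fun t hh => absurd hCC hh)
  · have h1 := isLittleO_iff.1 (h.sep C' C hCC) hη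
    filter_upwards [h1] with t ht _
    rw [Real.norm_of_nonneg (by positivity), norm_sub_rev] at ht
    exact ht

theorem cE_low {F : ℂ × ℂ → ℂ} {k n N : ℕ} {u : ℂ} {c : ℕ} {m : Fin c → ℕ}
    {b : Fin c → ℝ} {g v : Fin c → ℂ → ℂ} {a : Fin c → ℂ} {D : Fin c → ℕ}
    (h : Clu F k n N u c m b g v a D) (e : ℕ) :
    ∃ δ > (0 : ℝ), ∀ t : ℂ, 0 < ‖t‖ → ‖t‖ < δ → ∀ C (s : ℝ), ‖t‖ ^ (b C) ≤ s →
      ‖t‖ ^ e * ∏ C', (s + ‖g C t - g C' t‖) ^ m C' ≤ cE e m b g C s t ∧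
      cE e m b g C s t ≤ 2 ^ n * (‖t‖ ^ e * ∏ C', (s + ‖g C t - g C' t‖) ^ m C') := by
  obtain ⟨δ, hδ, hsep⟩ := F3_sep h 1 one_pos
  refine ⟨δ, hδ, fun t h0 h1 C s hs => ?_⟩
  have hs0 : 0 ≤ s := le_trans (by positivity) hs
  unfold cE
  constructor
  · refine mul_le_mul_of_nonneg_left ?_ (by positivity)
    refine Finset.prod_le_prod (fun C' _ => by positivity) (fun C' _ => ?_)
    refine pow_le_pow_left₀ (by positivity) ?_ _
    have : 0 ≤ ‖t‖ ^ (b C') := by positivity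
    linarith
  · have h2 : ∏ C', (s + ‖t‖ ^ (b C') + ‖g C t - g C' t‖) ^ m C' ≤
        ∏ C', (2 * (s + ‖g C t - g C' t‖)) ^ m C' := by
      refine Finset.prod_le_prod (fun C' _ => by positivity) (fun C' _ => ?_)
      refine pow_le_pow_left₀ (by positivity) ?_ _
      by_cases hCC : C' = C
      · subst hCC
        simp only [sub_self, norm_zero, add_zero]
        linarith
      · have := hsep t h0 h1 C C' hCC
        linarith
    have h3 : ∏ C', (2 * (s + ‖g C t - g C' t‖)) ^ m C' =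
        2 ^ n * ∏ C', (s + ‖g C t - g C' t‖) ^ m C' := by
      simp_rw [mul_pow]
      rw [Finset.prod_mul_distrib, Finset.prod_pow_eq_pow_sum, h.hmn]
    rw [h3] at h2
    calc ‖t‖ ^ e * ∏ C', (s + ‖t‖ ^ (b C') + ‖g C t - g C' t‖) ^ m C'
        ≤ ‖t‖ ^ e * (2 ^ n * ∏ C', (s + ‖g C t - g C' t‖) ^ m C') :=
          mul_le_mul_of_nonneg_left h2 (by positivity)
      _ = 2 ^ n * (‖t‖ ^ e * ∏ C', (s + ‖g C t - g C' t‖) ^ m C') := by ring

/-- the combinatorial estimate of case 2 -/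
private theorem F3_case {n c : ℕ} {m : Fin c → ℕ} (hm : ∀ C, 1 ≤ m C) (hmn : ∑ C, m C = n)
    (b : Fin c → ℝ) (g : Fin c → ℂ → ℂ) (e : ℕ) (t : ℂ) (C C' : Fin c) (s σ K' η R : ℝ)
    (hs : 0 ≤ s) (hσ : 0 ≤ σ) (hK' : 0 < K') (hη : 0 < η) (hR : 1 ≤ R)
    (hη1 : (K' + 1) * η ≤ 1) (h1 : σ ≤ K' * ‖t‖ ^ (b C')) (h2 : ‖t‖ ^ (b C') ≤ η * s)
    (h3 : ‖g C t - g C' t‖ ≤ 2 * R * s) :
    cE e m b g C' σ t ≤ (K' + 1) * η * (1 + 2 * R) ^ n * cE e m b g C s t := by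
  classical
  have hq0 : 0 ≤ (K' + 1) * η := by positivity
  unfold cE
  have hfac : ∀ C'', (σ + ‖t‖ ^ (b C'') + ‖g C' t - g C'' t‖) ^ m C'' ≤
      (if C'' = C' then (K' + 1) * η else 1) * ((1 + 2 * R) ^ m C'' *
        (s + ‖t‖ ^ (b C'') + ‖g C t - g C'' t‖) ^ m C'') := by
    intro C''
    have hp : 0 ≤ ‖t‖ ^ (b C'') := by positivity
    by_cases hC : C'' = C'
    · subst hC
      rw [if_pos rfl]
      simp only [sub_self, norm_zero, add_zero]
      have e1 : σ + ‖t‖ ^ (b C'') ≤ (K' + 1) * η * s := by nlinarith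
      have e2 : (σ + ‖t‖ ^ (b C'')) ^ m C'' ≤ ((K' + 1) * η * s) ^ m C'' :=
        pow_le_pow_left₀ (by positivity) e1 _
      have e3 : ((K' + 1) * η) ^ m C'' ≤ (K' + 1) * η := by
        calc ((K' + 1) * η) ^ m C'' ≤ ((K' + 1) * η) ^ 1 :=
              pow_le_pow_of_le_one hq0 hη1 (hm C'')
          _ = (K' + 1) * η := pow_one _
      have e4 : s ^ m C'' ≤ (s + ‖t‖ ^ (b C'') + ‖g C t - g C'' t‖) ^ m C'' :=
        pow_le_pow_left₀ hs (by have := norm_nonneg (g C t - g C'' t); linarith) _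
      have e5 : (1 : ℝ) ≤ (1 + 2 * R) ^ m C'' := one_le_pow₀ (by linarith)
      calc (σ + ‖t‖ ^ (b C'')) ^ m C'' ≤ ((K' + 1) * η * s) ^ m C'' := e2
        _ = ((K' + 1) * η) ^ m C'' * s ^ m C'' := by rw [mul_pow]
        _ ≤ (K' + 1) * η * (s + ‖t‖ ^ (b C'') + ‖g C t - g C'' t‖) ^ m C'' :=
            mul_le_mul e3 e4 (by positivity) hq0
        _ = (K' + 1) * η * (1 * (s + ‖t‖ ^ (b C'') + ‖g C t - g C'' t‖) ^ m C'') := by ring
        _ ≤ _ := by
            refine mul_le_mul_of_nonneg_left ?_ hq0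
            exact mul_le_mul_of_nonneg_right e5 (by positivity)
    · rw [if_neg hC, one_mul, ← mul_pow]
      refine pow_le_pow_left₀ (by positivity) ?_ _
      have e1 : ‖g C' t - g C'' t‖ ≤ ‖g C t - g C' t‖ + ‖g C t - g C'' t‖ := by
        have : g C' t - g C'' t = -(g C t - g C' t) + (g C t - g C'' t) := by ring
        rw [this]
        refine (norm_add_le _ _).trans ?_
        rw [norm_neg]
      have e2 : σ ≤ s := by
        have : K' * ‖t‖ ^ (b C') ≤ K' * (η * s) := mul_le_mul_of_nonneg_left h2 hK'.le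
        have h4 : K' * η ≤ 1 := by nlinarith
        nlinarith
      have e3 := norm_nonneg (g C t - g C'' t)
      nlinarith
  have hprod := Finset.prod_le_prod (s := Finset.univ) (fun C'' _ => by positivity)
    (fun C'' _ => hfac C'')
  rw [Finset.prod_mul_distrib, Finset.prod_mul_distrib, Finset.prod_ite_eq' Finset.univ C',
    if_pos (Finset.mem_univ _), Finset.prod_pow_eq_pow_sum, hmn] at hprod
  calc ‖t‖ ^ e * ∏ C'', (σ + ‖t‖ ^ (b C'') + ‖g C' t - g C'' t‖) ^ m C''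
      ≤ ‖t‖ ^ e * ((K' + 1) * η * ((1 + 2 * R) ^ n *
          ∏ C'', (s + ‖t‖ ^ (b C'') + ‖g C t - g C'' t‖) ^ m C'')) :=
        mul_le_mul_of_nonneg_left hprod (by positivity)
    _ = _ := by ring

theorem prodF {F : ℂ × ℂ → ℂ} {k n N : ℕ} {u : ℂ} {c : ℕ} {m : Fin c → ℕ}
    {b : Fin c → ℝ} {g v : Fin c → ℂ → ℂ} {a : Fin c → ℂ} {D : Fin c → ℕ}
    (h : Clu F k n N u c m b g v a D) :
    ∀ R : ℝ, 1 ≤ R → ∀ ε > (0 : ℝ), ∃ K > (0 : ℝ), ∃ δ > (0 : ℝ), ∀ t : ℂ, 0 < ‖t‖ → ‖t‖ < δ →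
      ∀ C (s : ℝ), K * ‖t‖ ^ (b C) ≤ s → s ≤ δ * ‖t‖ ^ N → ∀ X : ℂ, ‖X‖ ≤ R →
      ‖dx F (g C t + s * X, t ^ N) -
        u * t ^ (N * (k - 1 - n)) * ∏ C', (g C t + s * X - g C' t) ^ m C'‖ ≤
        ε * cE (N * (k - 1 - n)) m b g C s t := by
  intro R hR ε hε
  set e : ℕ := N * (k - 1 - n) with he
  have hRn : (0 : ℝ) < R ^ n := by positivity
  obtain ⟨C0, hC0, δ1, hδ1, hF1⟩ := h.F1
  obtain ⟨K', hK', δ2, hδ2, hF2⟩ := h.F2 (ε / R ^ n) (by positivity)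
  -- the small parameter
  have hQ : 0 < (C0 + ‖u‖) * ((K' + 1) * (1 + 2 * R) ^ n) := by positivity
  obtain ⟨η, hη, hη1, hη2⟩ : ∃ η > (0 : ℝ), (K' + 1) * η ≤ 1 ∧
      (C0 + ‖u‖) * ((K' + 1) * η * (1 + 2 * R) ^ n) ≤ ε := by
    refine ⟨min (1 / (K' + 1)) (ε / ((C0 + ‖u‖) * ((K' + 1) * (1 + 2 * R) ^ n))),
      lt_min (by positivity) (by positivity), ?_, ?_⟩
    · have := min_le_left (1 / (K' + 1)) (ε / ((C0 + ‖u‖) * ((K' + 1) * (1 + 2 * R) ^ n)))
      calc (K' + 1) * _ ≤ (K' + 1) * (1 / (K' + 1)) :=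
            mul_le_mul_of_nonneg_left this (by positivity)
        _ = 1 := by field_simp
    · have := min_le_right (1 / (K' + 1)) (ε / ((C0 + ‖u‖) * ((K' + 1) * (1 + 2 * R) ^ n)))
      calc (C0 + ‖u‖) * ((K' + 1) * _ * (1 + 2 * R) ^ n)
          = ((C0 + ‖u‖) * ((K' + 1) * (1 + 2 * R) ^ n)) * _ := by ring
        _ ≤ ((C0 + ‖u‖) * ((K' + 1) * (1 + 2 * R) ^ n)) *
            (ε / ((C0 + ‖u‖) * ((K' + 1) * (1 + 2 * R) ^ n))) :=
            mul_le_mul_of_nonneg_left this hQ.le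
        _ = ε := by field_simp
  obtain ⟨η', hη', hη'1, hη'2⟩ : ∃ η' > (0 : ℝ), K' * η' ≤ 1 / 2 ∧ η' * (2 * R) ≤ η := by
    refine ⟨min (1 / (2 * K')) (η / (2 * R)), lt_min (by positivity) (by positivity), ?_, ?_⟩
    · calc K' * _ ≤ K' * (1 / (2 * K')) :=
            mul_le_mul_of_nonneg_left (min_le_left _ _) hK'.le
        _ = 1 / 2 := by field_simp
    · calc _ * (2 * R) ≤ η / (2 * R) * (2 * R) :=
            mul_le_mul_of_nonneg_right (min_le_right _ _) (by positivity)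
        _ = η := by field_simp
  obtain ⟨δ3, hδ3, hsep⟩ := F3_sep h η' hη'
  -- the centres are small
  set δm : ℝ := min δ1 δ2 with hδm
  have hδm0 : 0 < δm := lt_min hδ1 hδ2
  obtain ⟨δ4, hδ4, hg⟩ : ∃ δ > (0 : ℝ), ∀ t : ℂ, 0 < ‖t‖ → ‖t‖ < δ →
      ∀ C, ‖g C t‖ ≤ δm / 4 * ‖t‖ ^ N := by
    apply F3_ev
    rw [eventually_all]
    intro C
    have h1 := isLittleO_iff.1 (h.gsm C) (show (0 : ℝ) < δm / 4 by positivity)
    filter_upwards [h1] with t ht
    rwa [norm_pow] at ht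
  refine ⟨1 / η, by positivity, min (min δm (δm / (4 * R))) (min δ3 δ4), by positivity, ?_⟩
  intro t h0 hlt C s hs1 hs2 X hX
  have hltm : ‖t‖ < δm := lt_of_lt_of_le hlt ((min_le_left _ _).trans (min_le_left _ _))
  have hlt1 : ‖t‖ < δ1 := lt_of_lt_of_le hltm (min_le_left _ _)
  have hlt2 : ‖t‖ < δ2 := lt_of_lt_of_le hltm (min_le_right _ _)
  have hlt3 : ‖t‖ < δ3 := lt_of_lt_of_le hlt ((min_le_right _ _).trans (min_le_left _ _))
  have hlt4 : ‖t‖ < δ4 := lt_of_lt_of_le hlt ((min_le_right _ _).trans (min_le_right _ _))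
  have htN : 0 < ‖t‖ ^ N := by positivity
  have hS0 : ∀ C, 0 < ‖t‖ ^ (b C) := fun C => by positivity
  have hsC : ‖t‖ ^ (b C) ≤ η * s := by
    have : ‖t‖ ^ (b C) / η ≤ s := by
      calc ‖t‖ ^ (b C) / η = 1 / η * ‖t‖ ^ (b C) := by ring
        _ ≤ s := hs1
    rw [div_le_iff₀ hη] at this
    linarith
  have hs0 : 0 < s := by
    have := hS0 C
    by_contra hcon
    have : η * s ≤ 0 := mul_nonpos_of_nonneg_of_nonpos hη.le (not_lt.1 hcon)
    linarith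
  have hsR : s * R ≤ δm / 4 * ‖t‖ ^ N := by
    have h1 : s ≤ δm / (4 * R) * ‖t‖ ^ N :=
      hs2.trans (mul_le_mul_of_nonneg_right ((min_le_left _ _).trans (min_le_right _ _)) htN.le)
    calc s * R ≤ δm / (4 * R) * ‖t‖ ^ N * R := mul_le_mul_of_nonneg_right h1 (by linarith)
      _ = δm / 4 * ‖t‖ ^ N := by field_simp
  set x : ℂ := g C t + s * X with hx
  have hsX : ‖(s : ℂ) * X‖ ≤ s * R := by
    rw [norm_mul, Complex.norm_real, Real.norm_of_nonneg hs0.le]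
    exact mul_le_mul_of_nonneg_left hX hs0.le
  have hxn : ‖x‖ < δm * ‖t‖ ^ N := by
    have h1 : ‖x‖ ≤ ‖g C t‖ + ‖(s : ℂ) * X‖ := norm_add_le _ _
    have h2 := hg t h0 hlt4 C
    nlinarith
  have hx1 : ‖x‖ < δ1 * ‖t‖ ^ N :=
    lt_of_lt_of_le hxn (mul_le_mul_of_nonneg_right (min_le_left _ _) htN.le)
  have hx2 : ‖x‖ < δ2 * ‖t‖ ^ N :=
    lt_of_lt_of_le hxn (mul_le_mul_of_nonneg_right (min_le_right _ _) htN.le)
  have hcE0 : 0 ≤ cE e m b g C s t := by unfold cE; positivity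
  by_cases hcase : ∀ C', K' * ‖t‖ ^ (b C') ≤ ‖x - g C' t‖
  · -- case 1
    have h1 := hF2 x t h0 hlt2 hx2 hcase
    have h2 : ∏ C', ‖x - g C' t‖ ^ m C' ≤
        ∏ C', (R * (s + ‖t‖ ^ (b C') + ‖g C t - g C' t‖)) ^ m C' := by
      refine Finset.prod_le_prod (fun C' _ => by positivity) (fun C' _ => ?_)
      refine pow_le_pow_left₀ (norm_nonneg _) ?_ _
      have e1 : x - g C' t = (s : ℂ) * X + (g C t - g C' t) := by rw [hx]; ring
      rw [e1]
      refine (norm_add_le _ _).trans ?_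
      have e2 := hS0 C'
      have e3 := norm_nonneg (g C t - g C' t)
      nlinarith
    have h3 : ∏ C', (R * (s + ‖t‖ ^ (b C') + ‖g C t - g C' t‖)) ^ m C' =
        R ^ n * ∏ C', (s + ‖t‖ ^ (b C') + ‖g C t - g C' t‖) ^ m C' := by
      simp_rw [mul_pow]
      rw [Finset.prod_mul_distrib, Finset.prod_pow_eq_pow_sum, h.hmn]
    rw [h3] at h2
    refine h1.trans ?_
    calc ε / R ^ n * (‖t‖ ^ e * ∏ C', ‖x - g C' t‖ ^ m C')
        ≤ ε / R ^ n * (‖t‖ ^ e * (R ^ n *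
          ∏ C', (s + ‖t‖ ^ (b C') + ‖g C t - g C' t‖) ^ m C')) := by
          refine mul_le_mul_of_nonneg_left ?_ (by positivity)
          exact mul_le_mul_of_nonneg_left h2 (by positivity)
      _ = ε * (‖t‖ ^ e * ∏ C', (s + ‖t‖ ^ (b C') + ‖g C t - g C' t‖) ^ m C') := by
          field_simp
  · -- case 2
    push Not at hcase
    obtain ⟨C', hC'⟩ := hcase
    set σ : ℝ := ‖x - g C' t‖ with hσ
    have hσ0 : 0 ≤ σ := norm_nonneg _
    have hd : ‖g C t - g C' t‖ ≤ 2 * R * s ∧ ‖t‖ ^ (b C') ≤ η * s := by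
      by_cases hCC : C' = C
      · subst hCC
        refine ⟨?_, hsC⟩
        rw [sub_self, norm_zero]
        positivity
      · have h1 := hsep t h0 hlt3 C C' hCC
        have h2 : ‖g C t - g C' t‖ ≤ R * s + K' * ‖t‖ ^ (b C') := by
          have e1 : g C t - g C' t = (x - g C' t) - (s : ℂ) * X := by rw [hx]; ring
          rw [e1]
          refine (norm_sub_le _ _).trans ?_
          linarith
        have h3 : K' * ‖t‖ ^ (b C') ≤ 1 / 2 * ‖g C t - g C' t‖ := by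
          calc K' * ‖t‖ ^ (b C') ≤ K' * (η' * ‖g C t - g C' t‖) :=
                mul_le_mul_of_nonneg_left h1 hK'.le
            _ = K' * η' * ‖g C t - g C' t‖ := by ring
            _ ≤ 1 / 2 * ‖g C t - g C' t‖ := mul_le_mul_of_nonneg_right hη'1 (norm_nonneg _)
        have h4 : ‖g C t - g C' t‖ ≤ 2 * R * s := by linarith
        refine ⟨h4, ?_⟩
        calc ‖t‖ ^ (b C') ≤ η' * ‖g C t - g C' t‖ := h1
          _ ≤ η' * (2 * R * s) := mul_le_mul_of_nonneg_left h4 hη'.le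
          _ = η' * (2 * R) * s := by ring
          _ ≤ η * s := mul_le_mul_of_nonneg_right hη'2 hs0.le
    have hmain := F3_case h.hm h.hmn b g e t C C' s σ K' η R hs0.le hσ0 hK' hη hR hη1 hC'.le
      hd.2 hd.1
    have h1 : ‖dx F (x, t ^ N)‖ ≤ C0 * cE e m b g C' σ t := hF1 x t h0 hlt1 hx1 C'
    have h2 : ‖u * t ^ e * ∏ C'', (x - g C'' t) ^ m C''‖ ≤ ‖u‖ * cE e m b g C' σ t := by
      rw [norm_mul, norm_mul, norm_pow, norm_prod, mul_assoc]
      refine mul_le_mul_of_nonneg_left ?_ (norm_nonneg _)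
      unfold cE
      refine mul_le_mul_of_nonneg_left ?_ (by positivity)
      refine Finset.prod_le_prod (fun C'' _ => norm_nonneg _) (fun C'' _ => ?_)
      rw [norm_pow]
      refine pow_le_pow_left₀ (norm_nonneg _) ?_ _
      have e1 : x - g C'' t = (x - g C' t) + (g C' t - g C'' t) := by ring
      rw [e1]
      refine (norm_add_le _ _).trans ?_
      have e2 := hS0 C''
      linarith
    calc ‖dx F (x, t ^ N) - u * t ^ e * ∏ C'', (x - g C'' t) ^ m C''‖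
        ≤ ‖dx F (x, t ^ N)‖ + ‖u * t ^ e * ∏ C'', (x - g C'' t) ^ m C''‖ := norm_sub_le _ _
      _ ≤ C0 * cE e m b g C' σ t + ‖u‖ * cE e m b g C' σ t := add_le_add h1 h2
      _ = (C0 + ‖u‖) * cE e m b g C' σ t := by ring
      _ ≤ (C0 + ‖u‖) * ((K' + 1) * η * (1 + 2 * R) ^ n * cE e m b g C s t) :=
          mul_le_mul_of_nonneg_left hmain (by positivity)
      _ = (C0 + ‖u‖) * ((K' + 1) * η * (1 + 2 * R) ^ n) * cE e m b g C s t := by ring
      _ ≤ ε * cE e m b g C s t := mul_le_mul_of_nonneg_right hη2 hcE0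

end H24.LS
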