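import Pool.Agent.H24.LS.P0
import Pool.Agent.H24.LS.F0
import Pool.Agent.H24.LS.F1
import Pool.Agent.H24.LS.F2
import Pool.Agent.H24.LS.F3
import Pool.Agent.H24.LS.E5

/-!
# F4: at every scale `s ∈ [K s_C, δ ‖t‖^N]` the first component of `A` is almost affine in the slice

Proof (application of `rig`).  Notation: `p = pt g N C t`, `(x0,y0) = A p`, `t0'^N = y0`, `e = N(k-1-n)`,
`e' = N(k-1-n')`, `E = cE e m b g C s t`, `E0 = ‖t‖^e ∏ (s + ‖g C - g C'‖)^m` (`E0 ≤ E ≤ 2^n E0`, `cE_low`).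
With the labelling `cl` of `exists_label`:
* `A_l = s/(s + ‖g C - g (cl l)‖)`, `B_l = (g C - g (cl l))/(s + ‖g C - g (cl l)‖)`, `w = u (t/‖t‖)^e`, so that
  `u t^e ∏ (g C + s X - g C')^m = E0 w ∏ (A_l X + B_l)`;
* `A'_l = s/(s + ‖x0 - γ'_l t0'‖)`, `B'_l = (x0 - γ'_l t0')/(...)`, `v = u' t0'^{e'} ∏ (s + ‖x0 - γ'_l t0'‖)/E0`, so that
  `u' t0'^{e'} ∏ (x0 + s X' - γ'_l t0') = E0 v ∏ (A'_l X' + B'_l)`; `‖v‖ ≤ const` by `ehatG_le`.
Let `C, L` be the constants for `rig n n' L C`; given `R, ε` take `δ0, R1` from `rig` (with `ε/2^n/..`).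
`φ(X) = ((A (g C + s X, t^N)).1 - x0)/s` is `L`-Lipschitz, `φ 0 = 0`.
`P, Q` the primitives (`prim`).  Then for `‖X‖ ≤ R1`, `x = g C + s X`, `(x', y') = A (x, t^N)`:
 (1) `‖F(x,t^N) - F(p) - s E0 P(X)‖ ≤ s R1 ε1 E` (mean value along the segment with `prodF`);
 (2) `‖G(x', y0) - G(x0,y0) - s E0 Q(φ X)‖ ≤ s L R1 ε1 ‖u'‖.. E` (`PCh.fac` for `G` on the segment from `x0` to
     `x'`, `‖x' - x0‖ ≤ L R1 s`; the product is `≤ K_{R1} Ehat(x0,s) ≤ K E`);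
 (3) `‖G(x',y') - G(x',y0)‖ ≤ ‖y' - y0‖ sup ‖dy G‖ ≤ L R1 s ε1 E` (`dyG_small`, window radius `L R1`);
 (4) `‖F(x,t^N) - G(x',y')‖ ≤ L ‖∇F‖^2 ≤ L (CR E)^2 ≤ ε1 s E` (`win_F`, `Clu.small`), same for `p`.
Hence `‖Q(φ X) - P(X)‖ ≤ ε2` as small as we want: choose `ε1` small, then `K` large and `δ` small.
`rig` gives `α`; the first conclusion is `s` times `‖φ X - α X‖ ≤ ε`; the second is `E0` times the closeness of
the derivatives, plus the errors of `prodF` and `fac`.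
-/

open Filter Topology Metric Asymptotics

namespace H24.LS

namespace F4aux

theorem mv {f f' : ℂ → ℂ} {z0 : ℂ} {r ε : ℝ}
    (hf : ∀ X ∈ closedBall z0 r, HasDerivAt f (f' X) X)
    (hb : ∀ X ∈ closedBall z0 r, ‖f' X‖ ≤ ε) {X : ℂ} (hX : X ∈ closedBall z0 r) :
    ‖f X - f z0‖ ≤ ε * ‖X - z0‖ := by
  have hr : 0 ≤ r := dist_nonneg.trans hX
  exact Convex.norm_image_sub_le_of_norm_hasDerivWithin_le
    (fun x hx => (hf x hx).hasDerivWithinAt) hb (convex_closedBall z0 r)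
    (mem_closedBall_self hr) hX

theorem slice_x {F : ℂ × ℂ → ℂ} {x y s X : ℂ} (hF : DifferentiableAt ℂ F (x + s * X, y)) :
    HasDerivAt (fun X => F (x + s * X, y)) (s * dx F (x + s * X, y)) X := by
  have hc : HasDerivAt (fun X : ℂ => ((x + s * X, y) : ℂ × ℂ)) (s, 0) X := by
    have h1 : HasDerivAt (fun X : ℂ => x + s * X) s X := by
      simpa using ((hasDerivAt_id X).const_mul s).const_add x
    exact h1.prodMk (hasDerivAt_const X y)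
  have h1 := hF.hasFDerivAt.comp_hasDerivAt X hc
  have h2 : fderiv ℂ F (x + s * X, y) (s, 0) = s * dx F (x + s * X, y) := by
    have h3 : ((s, 0) : ℂ × ℂ) = s • ((1 : ℂ), (0 : ℂ)) := by ext <;> simp
    rw [h3, map_smul, smul_eq_mul]
    rfl
  rw [h2] at h1
  exact h1

theorem slice_y {G : ℂ × ℂ → ℂ} {x y : ℂ} (hG : DifferentiableAt ℂ G (x, y)) :
    HasDerivAt (fun y => G (x, y)) (dy G (x, y)) y := by
  have hc : HasDerivAt (fun y : ℂ => ((x, y) : ℂ × ℂ)) (0, 1) y :=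
    (hasDerivAt_const y x).prodMk (hasDerivAt_id y)
  exact hG.hasFDerivAt.comp_hasDerivAt y hc

/-- the estimate of `Q ∘ φ - P` from the two product formulas -/
theorem core1 {n n' : ℕ} {L R1 s E E0 ε1 ε2 ε3 : ℝ} (hs : 0 < s) (hE0 : 0 < E0)
    (hE : E ≤ 2 ^ n * E0) (hE' : 0 ≤ E) (hL : 0 ≤ L) (hR : 0 ≤ R1) (h1 : 0 ≤ ε1) (h2 : 0 ≤ ε2)
    (h3 : 0 ≤ ε3) {w v : ℂ} {A B : Fin n → ℂ} {A' B' : Fin n' → ℂ} {f f' g g' φ : ℂ → ℂ}
    (hf : ∀ X, ‖X‖ ≤ R1 → HasDerivAt f (s * f' X) X)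
    (hf1 : ∀ X, ‖X‖ ≤ R1 → ‖f' X - E0 * (w * ∏ l, (A l * X + B l))‖ ≤ ε1 * E)
    (hg : ∀ Y, ‖Y‖ ≤ L * R1 → HasDerivAt g (s * g' Y) Y)
    (hg1 : ∀ Y, ‖Y‖ ≤ L * R1 → ‖g' Y - E0 * (v * ∏ l, (A' l * Y + B' l))‖ ≤ ε2 * E)
    (hφ : ∀ X, ‖X‖ ≤ R1 → ‖φ X‖ ≤ L * R1)
    (hd : ∀ X, ‖X‖ ≤ R1 → ‖(g (φ X) - g 0) - (f X - f 0)‖ ≤ ε3 * (s * E))
    {X : ℂ} (hX : ‖X‖ ≤ R1) :
    ‖prim v A' B' (φ X) - prim w A B X‖ ≤ 2 ^ n * (R1 * ε1 + L * R1 * ε2 + ε3) := by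
  have e1 : ‖(f X - s * E0 * prim w A B X) - (f 0 - s * E0 * prim w A B 0)‖ ≤
      s * (ε1 * E) * R1 := by
    have h4 := mv (f := fun X => f X - s * E0 * prim w A B X)
      (f' := fun X => s * f' X - s * E0 * (w * ∏ l, (A l * X + B l))) (z0 := 0) (r := R1)
      (ε := s * (ε1 * E)) (fun Y hY => by
        rw [mem_closedBall_zero_iff] at hY
        exact (hf Y hY).sub ((prim_hasDerivAt w A B Y).const_mul _)) (fun Y hY => by
        rw [mem_closedBall_zero_iff] at hY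
        have h5 : (s : ℂ) * f' Y - s * E0 * (w * ∏ l, (A l * Y + B l)) =
            s * (f' Y - E0 * (w * ∏ l, (A l * Y + B l))) := by ring
        rw [h5, norm_mul, Complex.norm_real, Real.norm_of_nonneg hs.le]
        exact mul_le_mul_of_nonneg_left (hf1 Y hY) hs.le)
      (X := X) (by rwa [mem_closedBall_zero_iff])
    refine h4.trans ?_
    rw [sub_zero]
    exact mul_le_mul_of_nonneg_left hX (by positivity)
  have e2 : ‖(g (φ X) - s * E0 * prim v A' B' (φ X)) - (g 0 - s * E0 * prim v A' B' 0)‖ ≤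
      s * (ε2 * E) * (L * R1) := by
    have h4 := mv (f := fun X => g X - s * E0 * prim v A' B' X)
      (f' := fun X => s * g' X - s * E0 * (v * ∏ l, (A' l * X + B' l))) (z0 := 0) (r := L * R1)
      (ε := s * (ε2 * E)) (fun Y hY => by
        rw [mem_closedBall_zero_iff] at hY
        exact (hg Y hY).sub ((prim_hasDerivAt v A' B' Y).const_mul _)) (fun Y hY => by
        rw [mem_closedBall_zero_iff] at hY
        have h5 : (s : ℂ) * g' Y - s * E0 * (v * ∏ l, (A' l * Y + B' l)) =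
            s * (g' Y - E0 * (v * ∏ l, (A' l * Y + B' l))) := by ring
        rw [h5, norm_mul, Complex.norm_real, Real.norm_of_nonneg hs.le]
        exact mul_le_mul_of_nonneg_left (hg1 Y hY) hs.le)
      (X := φ X) (by rw [mem_closedBall_zero_iff]; exact hφ X hX)
    refine h4.trans ?_
    rw [sub_zero]
    exact mul_le_mul_of_nonneg_left (hφ X hX) (by positivity)
  have e3 := hd X hX
  have e4 : (s : ℂ) * E0 * (prim v A' B' (φ X) - prim w A B X) =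
      ((f X - s * E0 * prim w A B X) - (f 0 - s * E0 * prim w A B 0))
      - ((g (φ X) - s * E0 * prim v A' B' (φ X)) - (g 0 - s * E0 * prim v A' B' 0))
      + ((g (φ X) - g 0) - (f X - f 0)) := by
    rw [prim_zero, prim_zero]
    ring
  have e5 : s * E0 * ‖prim v A' B' (φ X) - prim w A B X‖ ≤
      s * (ε1 * E) * R1 + s * (ε2 * E) * (L * R1) + ε3 * (s * E) := by
    have h5 : ‖(s : ℂ) * E0 * (prim v A' B' (φ X) - prim w A B X)‖ =
        s * E0 * ‖prim v A' B' (φ X) - prim w A B X‖ := by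
      rw [norm_mul, norm_mul, Complex.norm_real, Complex.norm_real, Real.norm_of_nonneg hs.le,
        Real.norm_of_nonneg hE0.le]
    rw [← h5, e4]
    refine (norm_add_le _ _).trans ?_
    refine add_le_add ((norm_sub_le _ _).trans (add_le_add e1 e2)) e3
  have e6 : s * (ε1 * E) * R1 + s * (ε2 * E) * (L * R1) + ε3 * (s * E) ≤
      s * E0 * (2 ^ n * (R1 * ε1 + L * R1 * ε2 + ε3)) := by
    have h6 : 0 ≤ R1 * ε1 + L * R1 * ε2 + ε3 := by positivity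
    calc s * (ε1 * E) * R1 + s * (ε2 * E) * (L * R1) + ε3 * (s * E)
        = s * E * (R1 * ε1 + L * R1 * ε2 + ε3) := by ring
      _ ≤ s * (2 ^ n * E0) * (R1 * ε1 + L * R1 * ε2 + ε3) := by
          refine mul_le_mul_of_nonneg_right (mul_le_mul_of_nonneg_left hE hs.le) h6
      _ = _ := by ring
  exact le_of_mul_le_mul_left (e5.trans e6) (by positivity)

theorem normalise {s : ℝ} (hs : 0 < s) (d : ℂ) :
    ‖((s / (s + ‖d‖) : ℝ) : ℂ)‖ + ‖d / ((s + ‖d‖ : ℝ) : ℂ)‖ = 1 := by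
  have h1 : 0 < s + ‖d‖ := by positivity
  rw [Complex.norm_real, norm_div d, Complex.norm_real, Real.norm_of_nonneg h1.le,
    Real.norm_of_nonneg (div_nonneg hs.le h1.le), ← add_div, div_self h1.ne']

theorem factor {s : ℝ} (hs : 0 < s) (d X : ℂ) :
    d + s * X = ((s + ‖d‖ : ℝ) : ℂ) *
      (((s / (s + ‖d‖) : ℝ) : ℂ) * X + d / ((s + ‖d‖ : ℝ) : ℂ)) := by
  have h1 : 0 < s + ‖d‖ := by positivity
  have h2 : ((s + ‖d‖ : ℝ) : ℂ) ≠ 0 := by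
    rw [Ne, Complex.ofReal_eq_zero]
    exact h1.ne'
  rw [Complex.ofReal_div, mul_add, mul_div_cancel₀ _ h2, ← mul_assoc, mul_div_cancel₀ _ h2,
    add_comm]

/-- statements valid in the regime `K ‖t‖^(b C) ≤ s ≤ δ ‖t‖^N`, `0 < ‖t‖ < δ` -/
def Ev {c : ℕ} (N : ℕ) (b : Fin c → ℝ) (P : ℂ → Fin c → ℝ → Prop) : Prop :=
  ∃ K > (0 : ℝ), ∃ δ > (0 : ℝ), ∀ t : ℂ, 0 < ‖t‖ → ‖t‖ < δ → ∀ C (s : ℝ),
    K * ‖t‖ ^ (b C) ≤ s → s ≤ δ * ‖t‖ ^ N → P t C s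

theorem Ev.and {c N : ℕ} {b : Fin c → ℝ} {P Q : ℂ → Fin c → ℝ → Prop} (hP : Ev N b P)
    (hQ : Ev N b Q) : Ev N b (fun t C s => P t C s ∧ Q t C s) := by
  obtain ⟨K1, hK1, δ1, hδ1, h1⟩ := hP
  obtain ⟨K2, hK2, δ2, hδ2, h2⟩ := hQ
  refine ⟨max K1 K2, lt_max_of_lt_left hK1, min δ1 δ2, lt_min hδ1 hδ2, ?_⟩
  intro t ht0 ht C s hs1 hs2
  have hb : 0 ≤ ‖t‖ ^ (b C) := Real.rpow_nonneg (norm_nonneg _) _
  have hN : 0 ≤ ‖t‖ ^ N := by positivity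
  refine ⟨h1 t ht0 (ht.trans_le (min_le_left _ _)) C s ?_ ?_,
    h2 t ht0 (ht.trans_le (min_le_right _ _)) C s ?_ ?_⟩
  · exact (mul_le_mul_of_nonneg_right (le_max_left _ _) hb).trans hs1
  · exact hs2.trans (mul_le_mul_of_nonneg_right (min_le_left _ _) hN)
  · exact (mul_le_mul_of_nonneg_right (le_max_right _ _) hb).trans hs1
  · exact hs2.trans (mul_le_mul_of_nonneg_right (min_le_right _ _) hN)

theorem Ev.mono {c N : ℕ} {b : Fin c → ℝ} {P Q : ℂ → Fin c → ℝ → Prop} (hP : Ev N b P)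
    (h : ∀ t C s, P t C s → Q t C s) : Ev N b Q := by
  obtain ⟨K1, hK1, δ1, hδ1, h1⟩ := hP
  exact ⟨K1, hK1, δ1, hδ1, fun t h2 h3 C s h4 h5 => h t C s (h1 t h2 h3 C s h4 h5)⟩

/-- from a statement for small `t` -/
theorem ev_of_small {c N : ℕ} {b : Fin c → ℝ} {P : ℂ → Fin c → Prop}
    (h : ∃ δ > (0 : ℝ), ∀ t : ℂ, 0 < ‖t‖ → ‖t‖ < δ → ∀ C, P t C) :
    Ev N b (fun t C _ => P t C) := by
  obtain ⟨δ, hδ, h1⟩ := h
  exact ⟨1, one_pos, δ, hδ, fun t h2 h3 C s _ _ => h1 t h2 h3 C⟩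

theorem ev_of_eventually {c N : ℕ} {b : Fin c → ℝ} {P : ℂ → Fin c → Prop}
    (h : ∀ C, ∀ᶠ t in 𝓝[≠] (0 : ℂ), P t C) : Ev N b (fun t C _ => P t C) := by
  apply ev_of_small
  have h1 : ∀ᶠ t in 𝓝[≠] (0 : ℂ), ∀ C, P t C := eventually_all.mpr h
  rw [eventually_nhdsWithin_iff, Metric.eventually_nhds_iff] at h1
  obtain ⟨δ, hδ, h2⟩ := h1
  refine ⟨δ, hδ, fun t ht0 ht C => h2 (by rwa [dist_zero_right]) (norm_pos_iff.mp ht0) C⟩

theorem ev_lt {c N : ℕ} {b : Fin c → ℝ} {η : ℝ} (hη : 0 < η) :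
    Ev N b (fun t _ _ => 0 < ‖t‖ ∧ ‖t‖ < η) :=
  ⟨1, one_pos, η, hη, fun _ h2 h3 _ _ _ _ => ⟨h2, h3⟩⟩

theorem ev_s {c N : ℕ} {b : Fin c → ℝ} {η : ℝ} (hη : 0 < η) :
    Ev N b (fun t C s => 0 < s ∧ ‖t‖ ^ (b C) ≤ s ∧ s ≤ η * ‖t‖ ^ N) := by
  refine ⟨1, one_pos, η, hη, fun t h2 h3 C s h4 h5 => ⟨?_, ?_, h5⟩⟩
  · have := Real.rpow_pos_of_pos h2 (b C)
    linarith
  · rwa [one_mul] at h4

end F4aux

open F4aux

section

variable {F G : ℂ × ℂ → ℂ} {k n n' N : ℕ} {u u' : ℂ} {c : ℕ} {m : Fin c → ℕ}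
    {b : Fin c → ℝ} {g v : Fin c → ℂ → ℂ} {a : Fin c → ℂ} {D : Fin c → ℕ}
    {γ' : Fin n' → ℂ → ℂ} {A B : ℂ × ℂ → ℂ × ℂ} {L ρ : ℝ}

namespace F4aux

theorem norm_pair (z : ℂ) : ‖((z, 0) : ℂ × ℂ)‖ = ‖z‖ := by
  rw [Prod.norm_def, norm_zero, max_eq_left (norm_nonneg _)]

/-- the product formula of `F` in normalised form -/
theorem formF {n c e : ℕ} (u t : ℂ) (ht : t ≠ 0) (m : Fin c → ℕ) (cl : Fin n → Fin c)
    (hcl : ∀ f : Fin c → ℂ, ∏ l, f (cl l) = ∏ C, f C ^ m C) (d : Fin c → ℂ) {s : ℝ} (hs : 0 < s)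
    (X : ℂ) :
    u * t ^ e * ∏ C', (d C' + s * X) ^ m C' =
      ((‖t‖ ^ e * ∏ C', (s + ‖d C'‖) ^ m C' : ℝ) : ℂ) * ((u * (t / (‖t‖ : ℂ)) ^ e) *
        ∏ l, (((s / (s + ‖d (cl l)‖) : ℝ) : ℂ) * X +
          d (cl l) / ((s + ‖d (cl l)‖ : ℝ) : ℂ))) := by
  have h1 : ∏ C', (d C' + s * X) ^ m C' =
      (∏ C', ((s + ‖d C'‖ : ℝ) : ℂ) ^ m C') * ∏ l, (((s / (s + ‖d (cl l)‖) : ℝ) : ℂ) * X +
          d (cl l) / ((s + ‖d (cl l)‖ : ℝ) : ℂ)) := by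
    rw [← hcl (fun C' => d C' + s * X), ← hcl (fun C' => ((s + ‖d C'‖ : ℝ) : ℂ)),
      ← Finset.prod_mul_distrib]
    exact Finset.prod_congr rfl fun l _ => factor hs _ _
  have h2 : ((‖t‖ : ℝ) : ℂ) ≠ 0 := by
    rw [Ne, Complex.ofReal_eq_zero]
    exact (norm_pos_iff.mpr ht).ne'
  rw [h1]
  push_cast
  rw [div_pow]
  field_simp

/-- the product formula of `G` in normalised form -/
theorem formG {n' : ℕ} (z E0 : ℂ) (hE0 : E0 ≠ 0) (d : Fin n' → ℂ) {s : ℝ} (hs : 0 < s)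
    (Y : ℂ) :
    z * ∏ l, (d l + s * Y) =
      E0 * ((z * (∏ l, ((s + ‖d l‖ : ℝ) : ℂ)) / E0) *
        ∏ l, (((s / (s + ‖d l‖) : ℝ) : ℂ) * Y + d l / ((s + ‖d l‖ : ℝ) : ℂ))) := by
  have h1 : ∏ l, (d l + s * Y) =
      (∏ l, ((s + ‖d l‖ : ℝ) : ℂ)) * ∏ l, (((s / (s + ‖d l‖) : ℝ) : ℂ) * Y +
          d l / ((s + ‖d l‖ : ℝ) : ℂ)) := by
    rw [← Finset.prod_mul_distrib]
    exact Finset.prod_congr rfl fun l _ => factor hs _ _
  rw [h1, div_mul_eq_mul_div, mul_div_cancel₀ _ hE0, mul_assoc]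

theorem prod_bound {n' : ℕ} (d : Fin n' → ℂ) {s M : ℝ} (hs : 0 < s) (hM : 0 ≤ M) (Y : ℂ)
    (hY : ‖Y‖ ≤ M) :
    ∏ l, ‖d l + s * Y‖ ≤ (M + 1) ^ n' * ∏ l, (s + ‖d l‖) := by
  have h1 : (M + 1) ^ n' * ∏ l, (s + ‖d l‖) = ∏ l : Fin n', ((M + 1) * (s + ‖d l‖)) := by
    rw [Finset.prod_mul_distrib, Finset.prod_const, Finset.card_univ, Fintype.card_fin]
  rw [h1]
  refine Finset.prod_le_prod (fun _ _ => norm_nonneg _) fun l _ => ?_
  have h2 := norm_add_le (d l) ((s : ℂ) * Y)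
  rw [norm_mul, Complex.norm_real, Real.norm_of_nonneg hs.le] at h2
  nlinarith [norm_nonneg (d l), mul_le_mul_of_nonneg_left hY hs.le,
    mul_nonneg hM (norm_nonneg (d l))]


/-- the centres are small compared with `‖t‖^N` -/
theorem ev_g (h : Mat F G k n n' N u u' c m b g v a D γ' A B L ρ) {η : ℝ} (hη : 0 < η) :
    Ev N b (fun t C _ => ‖g C t‖ ≤ η * ‖t‖ ^ N) := by
  apply ev_of_eventually
  intro C
  filter_upwards [(h.hC.gsm C).def hη] with t ht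
  rwa [norm_pow] at ht

/-- the points of the window of `F` are near `0` -/
theorem ev_winF (h : Mat F G k n n' N u u' c m b g v a D γ' A B L ρ) {R1 η : ℝ} (hR : 0 ≤ R1)
    (hη : 0 < η) :
    Ev N b (fun t C s => ∀ X : ℂ, ‖X‖ ≤ R1 → ‖(g C t + s * X, t ^ N)‖ < η) := by
  have hN : N ≠ 0 := by have := h.hC.hN; omega
  have hη1 : 0 < min 1 (η / (1 + R1)) := lt_min one_pos (by positivity)
  refine (((ev_lt (b := b) (N := N) hη1).and (ev_g h one_pos)).and (ev_s one_pos)).mono ?_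
  rintro t C s ⟨⟨⟨ht0, ht⟩, hg⟩, hs0, -, hs⟩ X hX
  rw [one_mul] at hg hs
  have ht1 : ‖t‖ < 1 := ht.trans_le (min_le_left _ _)
  have ht2 : ‖t‖ < η / (1 + R1) := ht.trans_le (min_le_right _ _)
  have h1 : ‖t‖ ^ N ≤ ‖t‖ := pow_le_of_le_one ht0.le ht1.le hN
  have h2 : (1 + R1) * ‖t‖ ^ N < η := by
    rw [lt_div_iff₀ (by positivity)] at ht2
    nlinarith
  have hpos : 0 < ‖t‖ ^ N := pow_pos ht0 N
  rw [Prod.norm_def, max_lt_iff]
  constructor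
  · show ‖g C t + s * X‖ < η
    have h3 : ‖(s : ℂ) * X‖ ≤ ‖t‖ ^ N * R1 := by
      rw [norm_mul, Complex.norm_real, Real.norm_of_nonneg hs0.le]
      exact mul_le_mul hs hX (norm_nonneg _) hpos.le
    have h4 := norm_add_le (g C t) ((s : ℂ) * X)
    nlinarith
  · show ‖t ^ N‖ < η
    rw [norm_pow]
    nlinarith [mul_nonneg hR hpos.le]

theorem pt_eq (C : Fin c) (t : ℂ) (s : ℝ) : pt g N C t = (g C t + s * 0, t ^ N) := by
  unfold pt
  rw [mul_zero, add_zero]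

/-- the points of the window of `G` are near `0` -/
theorem ev_winG (h : Mat F G k n n' N u u' c m b g v a D γ' A B L ρ) {R1 η : ℝ} (hR : 0 ≤ R1)
    (hη : 0 < η) :
    Ev N b (fun t C s => ∀ q : ℂ × ℂ, ‖q - A (pt g N C t)‖ ≤ R1 * s → ‖q‖ < η) := by
  have hL : 1 ≤ L := h.hco.hL
  have hN : N ≠ 0 := by have := h.hC.hN; omega
  have hη1 : 0 < min (min 1 ρ) (η / (2 * (1 + R1))) :=
    lt_min (lt_min one_pos h.hco.hρ) (by positivity)
  have hη2 : 0 < min ρ (η / (2 * L)) := lt_min h.hco.hρ (by positivity)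
  refine (((ev_lt (b := b) (N := N) hη1).and (ev_winF h (R1 := 0) le_rfl hη2)).and
    (ev_s one_pos)).mono ?_
  rintro t C s ⟨⟨⟨ht0, ht⟩, hF⟩, hs0, -, hs⟩ q hq
  rw [one_mul] at hs
  have ht1 : ‖t‖ < 1 := ht.trans_le ((min_le_left _ _).trans (min_le_left _ _))
  have ht2 : ‖t‖ < η / (2 * (1 + R1)) := ht.trans_le (min_le_right _ _)
  have h1 : ‖t‖ ^ N ≤ ‖t‖ := pow_le_of_le_one ht0.le ht1.le hN
  have hp := hF 0 (by simp)
  rw [← pt_eq C t s] at hp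
  have hpρ : pt g N C t ∈ ball (0 : ℂ × ℂ) ρ := by
    rw [mem_ball_zero_iff]
    exact hp.trans_le (min_le_left _ _)
  have hpη : ‖pt g N C t‖ < η / (2 * L) := hp.trans_le (min_le_right _ _)
  have hA := h.hco.lipA _ hpρ 0 (mem_ball_self h.hco.hρ)
  rw [h.hco.A0, sub_zero, sub_zero] at hA
  have h2 : ‖q‖ ≤ ‖q - A (pt g N C t)‖ + ‖A (pt g N C t)‖ := by
    have := norm_add_le (q - A (pt g N C t)) (A (pt g N C t))
    rwa [sub_add_cancel] at this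
  have h3 : L * ‖pt g N C t‖ < η / 2 := by
    rw [lt_div_iff₀ (by positivity)] at hpη
    linarith
  have h4 : R1 * s ≤ η / 2 := by
    rw [lt_div_iff₀ (by positivity)] at ht2
    have h5 : R1 * s ≤ R1 * ‖t‖ := mul_le_mul_of_nonneg_left (hs.trans h1) hR
    nlinarith
  linarith

/-- the slice of `G` through `A p` lies in the domain of `PCh.fac` -/
theorem ev_root (h : Mat F G k n n' N u u' c m b g v a D γ' A B L ρ) {R1 η : ℝ} (hR : 0 < R1)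
    (hη : 0 < η) :
    Ev N b (fun t C s => ∀ t' : ℂ, t' ^ N = (A (pt g N C t)).2 →
      0 < ‖t'‖ ∧ ‖t'‖ < η ∧ ∀ Y : ℂ, ‖Y‖ ≤ R1 →
        ‖(A (pt g N C t)).1 + s * Y‖ < η * ‖t'‖ ^ N) := by
  have hL : 1 ≤ L := h.hco.hL
  have hN : N ≠ 0 := by have := h.hC.hN; omega
  obtain ⟨c0, hc0, δs, hδs, hsize⟩ := mat_size h
  obtain ⟨δc, hδc, hcone⟩ := h.cone (η / 4) (by positivity)
  have hη1 : 0 < min (min 1 δc) (η ^ N / (2 * L)) :=
    lt_min (lt_min one_pos hδc) (by positivity)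
  have hη2 : 0 < η * c0 / (4 * R1) := by positivity
  refine ((((ev_lt (b := b) (N := N) hη1).and (ev_of_small ⟨δs, hδs, hsize⟩)).and
    (ev_g h hδc)).and (ev_s hη2)).mono ?_
  rintro t C s ⟨⟨⟨⟨ht0, ht⟩, hsz1, hsz2⟩, hg⟩, hs0, -, hs⟩ t' ht'
  have ht1 : ‖t‖ < 1 := ht.trans_le ((min_le_left _ _).trans (min_le_left _ _))
  have htc : ‖t‖ < δc := ht.trans_le ((min_le_left _ _).trans (min_le_right _ _))
  have ht2 : ‖t‖ < η ^ N / (2 * L) := ht.trans_le (min_le_right _ _)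
  have h1 : ‖t‖ ^ N ≤ ‖t‖ := pow_le_of_le_one ht0.le ht1.le hN
  have hpos : 0 < ‖t‖ ^ N := pow_pos ht0 N
  have hy0 : 0 < ‖(A (pt g N C t)).2‖ := lt_of_lt_of_le (by positivity) hsz1
  have hn : ‖t'‖ ^ N = ‖(A (pt g N C t)).2‖ := by rw [← norm_pow, ht']
  have ht'0 : 0 < ‖t'‖ := by
    rcases (norm_nonneg t').eq_or_lt with h0 | h0
    · rw [← h0, zero_pow hN] at hn
      exact absurd hn hy0.ne
    · exact h0
  refine ⟨ht'0, ?_, ?_⟩
  · by_contra hcon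
    rw [not_lt] at hcon
    have h2 : η ^ N ≤ ‖t'‖ ^ N := pow_le_pow_left₀ hη.le hcon N
    rw [hn] at h2
    rw [lt_div_iff₀ (by positivity)] at ht2
    have h3 : 0 < η ^ N := by positivity
    nlinarith
  · intro Y hY
    have h2 := hcone (g C t) (t ^ N) (by rw [norm_pow]; exact lt_of_le_of_lt h1 htc)
      (by rw [norm_pow]; exact hg)
    change ‖(A (pt g N C t)).1‖ ≤ η / 4 * ‖(A (pt g N C t)).2‖ at h2
    have h3 : ‖(s : ℂ) * Y‖ ≤ η / 4 * ‖(A (pt g N C t)).2‖ := by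
      rw [norm_mul, Complex.norm_real, Real.norm_of_nonneg hs0.le]
      calc s * ‖Y‖ ≤ (η * c0 / (4 * R1) * ‖t‖ ^ N) * R1 :=
            mul_le_mul hs hY (norm_nonneg _) (by positivity)
        _ = η / 4 * (c0 * ‖t‖ ^ N) := by field_simp
        _ ≤ _ := mul_le_mul_of_nonneg_left hsz1 (by positivity)
    have h4 := norm_add_le (A (pt g N C t)).1 ((s : ℂ) * Y)
    rw [hn]
    have h5 : 0 < η * ‖(A (pt g N C t)).2‖ := by positivity
    linarith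

theorem ev_of_one {P : ℂ → Fin c → ℝ → Prop}
    (h : ∃ δ > (0 : ℝ), ∀ t : ℂ, 0 < ‖t‖ → ‖t‖ < δ → ∀ C (s : ℝ),
      ‖t‖ ^ (b C) ≤ s → s ≤ δ * ‖t‖ ^ N → P t C s) : Ev N b P := by
  obtain ⟨δ, hδ, h1⟩ := h
  exact ⟨1, one_pos, δ, hδ, fun t h2 h3 C s h4 h5 => h1 t h2 h3 C s (by rwa [one_mul] at h4) h5⟩

theorem ev_small (h : Mat F G k n n' N u u' c m b g v a D γ' A B L ρ) {η : ℝ} (hη : 0 < η) :
    Ev N b (fun t C s => cE (N * (k - 1 - n)) m b g C s t ≤ η * s) := by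
  obtain ⟨δ, hδ, h1⟩ := h.hC.small h.hk η hη
  refine ((ev_of_one (P := fun t C s => s ≤ ‖t‖ ^ N → cE (N * (k - 1 - n)) m b g C s t ≤ η * s)
    ⟨δ, hδ, fun t h2 h3 C s h4 _ h6 => h1 t h2 h3 C s h4 h6⟩).and (ev_s one_pos)).mono ?_
  rintro t C s ⟨h2, -, -, h3⟩
  rw [one_mul] at h3
  exact h2 h3

theorem ev_low (h : Mat F G k n n' N u u' c m b g v a D γ' A B L ρ) (e : ℕ) :
    Ev N b (fun t C s =>
      ‖t‖ ^ e * ∏ C', (s + ‖g C t - g C' t‖) ^ m C' ≤ cE e m b g C s t ∧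
      cE e m b g C s t ≤ 2 ^ n * (‖t‖ ^ e * ∏ C', (s + ‖g C t - g C' t‖) ^ m C')) := by
  obtain ⟨δ, hδ, h1⟩ := cE_low h.hC e
  exact ev_of_one ⟨δ, hδ, fun t h2 h3 C s h4 _ => h1 t h2 h3 C s h4⟩

theorem exists_diff {F : ℂ × ℂ → ℂ} (hF : AnalyticAt ℂ F 0) :
    ∃ η > (0 : ℝ), ∀ q : ℂ × ℂ, ‖q‖ < η → DifferentiableAt ℂ F q := by
  have h1 : ∀ᶠ q in 𝓝 (0 : ℂ × ℂ), DifferentiableAt ℂ F q :=
    hF.eventually_analyticAt.mono fun p hp => hp.differentiableAt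
  rw [Metric.eventually_nhds_iff] at h1
  obtain ⟨η, hη, h2⟩ := h1
  exact ⟨η, hη, fun q hq => h2 (by rwa [dist_zero_right])⟩

/-- the difference of the increments of `F` and `G` -/
theorem diffd (h : Mat F G k n n' N u u' c m b g v a D γ' A B L ρ) {t : ℂ} {C : Fin c}
    {s R1 E CR η : ℝ} (hs : 0 < s) (hR : 0 ≤ R1) (hη : 0 ≤ η) (hE : 0 ≤ E) (hEs : E ≤ η * s)
    (_hCR : 0 ≤ CR)
    (hball : ∀ X : ℂ, ‖X‖ ≤ R1 → ((g C t + s * X, t ^ N) : ℂ × ℂ) ∈ ball (0 : ℂ × ℂ) ρ)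
    (hwin : ∀ X : ℂ, ‖X‖ ≤ R1 → ‖fderiv ℂ F (g C t + s * X, t ^ N)‖ ≤ CR * E)
    (hG : ∀ q : ℂ × ℂ, ‖q - A (pt g N C t)‖ ≤ L * R1 * s →
      DifferentiableAt ℂ G q ∧ ‖dy G q‖ ≤ η * E) {X : ℂ} (hX : ‖X‖ ≤ R1) :
    ‖(G ((A (g C t + s * X, t ^ N)).1, (A (pt g N C t)).2) - G (A (pt g N C t)))
      - (F (g C t + s * X, t ^ N) - F (pt g N C t))‖ ≤
      (L * R1 * η + 2 * (L * CR ^ 2) * η) * (s * E) := by
  have hL : 1 ≤ L := h.hco.hL
  have hp : pt g N C t = (g C t + s * 0, t ^ N) := pt_eq C t s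
  have h0 : ‖(0 : ℂ)‖ ≤ R1 := by simpa using hR
  have hpb : pt g N C t ∈ ball (0 : ℂ × ℂ) ρ := by rw [hp]; exact hball 0 h0
  have hpw : ‖fderiv ℂ F (pt g N C t)‖ ≤ CR * E := by rw [hp]; exact hwin 0 h0
  have hdist : ‖A (g C t + s * X, t ^ N) - A (pt g N C t)‖ ≤ L * R1 * s := by
    refine (h.hco.lipA _ (hball X hX) _ hpb).trans ?_
    have h1 : ((g C t + s * X, t ^ N) : ℂ × ℂ) - pt g N C t = ((s : ℂ) * X, 0) := by
      unfold pt
      ext <;> simp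
    rw [h1, Prod.norm_def, norm_zero, max_eq_left (norm_nonneg _), norm_mul, Complex.norm_real,
      Real.norm_of_nonneg hs.le]
    calc L * (s * ‖X‖) ≤ L * (s * R1) := by gcongr
      _ = _ := by ring
  -- quadratic terms
  have hquad : ∀ q : ℂ × ℂ, q ∈ ball (0 : ℂ × ℂ) ρ → ‖fderiv ℂ F q‖ ≤ CR * E →
      ‖F q - G (A q)‖ ≤ L * CR ^ 2 * η * (s * E) := by
    intro q hq hqw
    refine (h.hco.fA q hq).trans ?_
    have h2 : ‖fderiv ℂ F q‖ ^ 2 ≤ (CR * E) ^ 2 := pow_le_pow_left₀ (norm_nonneg _) hqw 2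
    calc L * ‖fderiv ℂ F q‖ ^ 2 ≤ L * (CR * E) ^ 2 := by gcongr
      _ = L * CR ^ 2 * E * E := by ring
      _ ≤ L * CR ^ 2 * E * (η * s) := by gcongr
      _ = _ := by ring
  have q1 := hquad _ (hball X hX) (hwin X hX)
  have q2 := hquad _ hpb hpw
  -- vertical segment
  have q3 : ‖G (A (g C t + s * X, t ^ N)) -
      G ((A (g C t + s * X, t ^ N)).1, (A (pt g N C t)).2)‖ ≤ L * R1 * η * (s * E) := by
    have hd1 : ‖(A (g C t + s * X, t ^ N)).1 - (A (pt g N C t)).1‖ ≤ L * R1 * s :=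
      (norm_fst_le (A (g C t + s * X, t ^ N) - A (pt g N C t))).trans hdist
    have hd2 : ‖(A (g C t + s * X, t ^ N)).2 - (A (pt g N C t)).2‖ ≤ L * R1 * s :=
      (norm_snd_le (A (g C t + s * X, t ^ N) - A (pt g N C t))).trans hdist
    have hw : ∀ y ∈ closedBall (A (pt g N C t)).2 (L * R1 * s),
        ‖((A (g C t + s * X, t ^ N)).1, y) - A (pt g N C t)‖ ≤ L * R1 * s := by
      intro y hy
      rw [mem_closedBall, dist_eq_norm] at hy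
      rw [Prod.norm_def]
      exact max_le hd1 hy
    have h3 := mv (f := fun y => G ((A (g C t + s * X, t ^ N)).1, y))
      (f' := fun y => dy G ((A (g C t + s * X, t ^ N)).1, y)) (z0 := (A (pt g N C t)).2)
      (r := L * R1 * s) (ε := η * E)
      (fun y hy => slice_y (hG _ (hw y hy)).1) (fun y hy => (hG _ (hw y hy)).2)
      (X := (A (g C t + s * X, t ^ N)).2) (by rw [mem_closedBall, dist_eq_norm]; exact hd2)
    refine h3.trans ?_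
    calc η * E * ‖(A (g C t + s * X, t ^ N)).2 - (A (pt g N C t)).2‖
        ≤ η * E * (L * R1 * s) := by gcongr
      _ = _ := by ring
  have h4 : (G ((A (g C t + s * X, t ^ N)).1, (A (pt g N C t)).2) - G (A (pt g N C t)))
      - (F (g C t + s * X, t ^ N) - F (pt g N C t)) =
      -(G (A (g C t + s * X, t ^ N)) - G ((A (g C t + s * X, t ^ N)).1, (A (pt g N C t)).2))
      - (F (g C t + s * X, t ^ N) - G (A (g C t + s * X, t ^ N)))
      + (F (pt g N C t) - G (A (pt g N C t))) := by ring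
  rw [h4]
  refine (norm_add_le _ _).trans ?_
  refine (add_le_add_left (norm_sub_le _ _) _).trans ?_
  rw [norm_neg]
  calc _ ≤ L * R1 * η * (s * E) + L * CR ^ 2 * η * (s * E) + L * CR ^ 2 * η * (s * E) :=
        add_le_add (add_le_add q3 q1) q2
    _ = _ := by ring

end F4aux

end

theorem aff {F G : ℂ × ℂ → ℂ} {k n n' N : ℕ} {u u' : ℂ} {c : ℕ} {m : Fin c → ℕ}
    {b : Fin c → ℝ} {g v : Fin c → ℂ → ℂ} {a : Fin c → ℂ} {D : Fin c → ℕ}
    {γ' : Fin n' → ℂ → ℂ} {A B : ℂ × ℂ → ℂ × ℂ} {L ρ : ℝ}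
    (h : Mat F G k n n' N u u' c m b g v a D γ' A B L ρ) :
    ∃ a0 > (0 : ℝ), ∀ R : ℝ, 1 ≤ R → ∀ ε > (0 : ℝ), ∃ K > (0 : ℝ), ∃ δ > (0 : ℝ),
      ∀ t : ℂ, 0 < ‖t‖ → ‖t‖ < δ → ∀ C (s : ℝ), K * ‖t‖ ^ (b C) ≤ s → s ≤ δ * ‖t‖ ^ N →
      ∃ α : ℂ, a0 ≤ ‖α‖ ∧ ‖α‖ ≤ L ∧
        (∀ X : ℂ, ‖X‖ ≤ R → ‖(A (g C t + s * X, t ^ N)).1 - (A (pt g N C t)).1 -
          α * (s * X)‖ ≤ ε * s) ∧
        (∀ X : ℂ, ‖X‖ ≤ R → ‖dx F (g C t + s * X, t ^ N) -
          α * dx G ((A (pt g N C t)).1 + α * (s * X), (A (pt g N C t)).2)‖ ≤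
          ε * cE (N * (k - 1 - n)) m b g C s t) := by
  have hL : 1 ≤ L := h.hco.hL
  have hL0 : 0 < L := by linarith
  have hN : 0 < N := h.hC.hN
  have hu : 0 < ‖u‖ := norm_pos_iff.mpr h.hC.hu
  obtain ⟨CG, hCG, hehat⟩ := ehatG_le h
  set Cc : ℝ := 1 + ‖u‖ + 1 / ‖u‖ + ‖u'‖ * CG * 2 ^ n with hCc
  have hCc1 : 1 ≤ Cc := by
    have : 0 ≤ ‖u‖ + 1 / ‖u‖ + ‖u'‖ * CG * 2 ^ n := by positivity
    linarith
  obtain ⟨a0, ha0, hrig⟩ := rig n n' L Cc hL hCc1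
  refine ⟨a0, ha0, ?_⟩
  intro R hR ε hε
  obtain ⟨δ0, hδ0, R1, hRR1, hmain⟩ := hrig R hR (ε / 4) (by positivity)
  have hR1 : 1 ≤ R1 := hR.trans hRR1
  have hR10 : 0 < R1 := by linarith
  have hLR : 1 ≤ L * R1 := one_le_mul_of_one_le_of_one_le hL hR1
  obtain ⟨CR, hCR, hwin⟩ := win_F h.hC R1 hR1
  set K2 : ℝ := (L * R1 + 1) ^ n' * CG with hK2
  have hK2pos : 0 < K2 := by positivity
  set M : ℝ := 2 ^ n * (R1 + L * R1 + (L * R1 + 2 * (L * CR ^ 2))) + (1 + L) with hM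
  have hMpos : 0 < M := by positivity
  set η : ℝ := min δ0 (ε / 4) / M with hηdef
  have hη : 0 < η := div_pos (lt_min hδ0 (by positivity)) hMpos
  have hηM : η * M = min δ0 (ε / 4) := div_mul_cancel₀ _ hMpos.ne'
  have hη1 : 2 ^ n * (R1 * η + L * R1 * η + (L * R1 * η + 2 * (L * CR ^ 2) * η)) ≤ δ0 := by
    have h1 : 2 ^ n * (R1 * η + L * R1 * η + (L * R1 * η + 2 * (L * CR ^ 2) * η)) =
        η * M - η * (1 + L) := by rw [hM]; ring
    have h2 : 0 < η * (1 + L) := by positivity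
    have h3 := min_le_left δ0 (ε / 4)
    rw [h1, hηM]
    linarith
  have hη2 : η * (1 + L) ≤ ε / 4 := by
    have h1 : η * (1 + L) ≤ η * M := by
      refine mul_le_mul_of_nonneg_left ?_ hη.le
      have : 0 ≤ 2 ^ n * (R1 + L * R1 + (L * R1 + 2 * (L * CR ^ 2))) := by positivity
      linarith
    rw [hηM] at h1
    exact h1.trans (min_le_right _ _)
  obtain ⟨δG, hδG, hfac⟩ := h.hG.fac (η / K2) (by positivity)
  obtain ⟨ηF, hηF, hdF⟩ := exists_diff h.hC.an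
  obtain ⟨ηG, hηG, hdG⟩ := exists_diff h.hG.an
  set e := N * (k - 1 - n) with he
  set e' := N * (k - 1 - n') with he'
  have E1 : Ev N b (fun t C s => ∀ X : ℂ, ‖X‖ ≤ R1 →
      ‖dx F (g C t + s * X, t ^ N) - u * t ^ e * ∏ C', (g C t + s * X - g C' t) ^ m C'‖ ≤
        η * cE e m b g C s t) := prodF h.hC R1 hR1 η hη
  have E2 : Ev N b (fun t C s => ∀ t' : ℂ, t' ^ N = (A (pt g N C t)).2 →
      Ehat e' γ' (A (pt g N C t)).1 s t' ≤ CG * cE e m b g C s t) := ev_of_one hehat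
  have E3 := ev_low h e
  have E4 : Ev N b (fun t C s => ∀ q : ℂ × ℂ, ‖q - pt g N C t‖ ≤ R1 * s →
      ‖fderiv ℂ F q‖ ≤ CR * cE e m b g C s t) := ev_of_one hwin
  have E5 : Ev N b (fun t C s => ∀ q : ℂ × ℂ, ‖q - A (pt g N C t)‖ ≤ L * R1 * s →
      ‖dy G q‖ ≤ η * cE e m b g C s t) := dyG_small h (L * R1) hLR η hη
  have E6 : Ev N b (fun t C s => cE e m b g C s t ≤ η * s) := ev_small h hη
  have E7 := ev_winF h (R1 := R1) hR10.le (lt_min h.hco.hρ hηF)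
  have E8 := ev_winG h (R1 := L * R1) (by positivity) hηG
  have E9 := ev_root h (R1 := L * R1) (by positivity) hδG
  have E10 := ev_s (b := b) (N := N) one_pos
  have E11 := ev_lt (b := b) (N := N) one_pos
  refine (((((((((((E1.and E2).and E3).and E4).and E5).and E6).and E7).and E8).and E9).and
    E10).and E11)).mono ?_
  rintro t C s ⟨⟨⟨⟨⟨⟨⟨⟨⟨⟨h1, h2⟩, h3⟩, h4⟩, h5⟩, h6⟩, h7⟩, h8⟩, h9⟩, h10⟩, h11⟩
  obtain ⟨hs, -, -⟩ := h10
  obtain ⟨ht0, -⟩ := h11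
  have ht : t ≠ 0 := norm_pos_iff.mp ht0
  obtain ⟨t', ht'⟩ := IsAlgClosed.exists_pow_nat_eq (A (pt g N C t)).2 hN
  set x0 := (A (pt g N C t)).1 with hx0
  set y0 := (A (pt g N C t)).2 with hy0
  set E := cE e m b g C s t with hE
  set E0 : ℝ := ‖t‖ ^ e * ∏ C', (s + ‖g C t - g C' t‖) ^ m C' with hE0
  have hE0pos : 0 < E0 := by
    refine mul_pos (pow_pos ht0 _) (Finset.prod_pos fun C' _ => pow_pos ?_ _)
    positivity
  have hEpos : 0 < E := hE0pos.trans_le h3.1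
  have hE0c : (E0 : ℂ) ≠ 0 := by
    rw [Ne, Complex.ofReal_eq_zero]
    exact hE0pos.ne'
  obtain ⟨cl, -, hcl⟩ := exists_label m h.hC.hmn
  set w : ℂ := u * (t / (‖t‖ : ℂ)) ^ e with hw
  set vv : ℂ := u' * t' ^ e' * (∏ l, ((s + ‖x0 - γ' l t'‖ : ℝ) : ℂ)) / (E0 : ℂ) with hvv
  have hwn : ‖w‖ = ‖u‖ := by
    rw [hw, norm_mul, norm_pow, norm_div, Complex.norm_real, norm_norm, div_self ht0.ne', one_pow,
      mul_one]
  have hvn : ‖vv‖ ≤ Cc := by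
    have a1 : ‖vv‖ = ‖u'‖ * Ehat e' γ' x0 s t' / E0 := by
      have a2 : ‖∏ l, ((s + ‖x0 - γ' l t'‖ : ℝ) : ℂ)‖ = ∏ l, (s + ‖x0 - γ' l t'‖) := by
        rw [norm_prod]
        refine Finset.prod_congr rfl fun l _ => ?_
        rw [Complex.norm_real, Real.norm_of_nonneg (by positivity)]
      rw [hvv, norm_div, norm_mul, norm_mul, norm_pow, a2, Complex.norm_real,
        Real.norm_of_nonneg hE0pos.le]
      unfold Ehat
      ring
    have a3 := h2 t' ht'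
    rw [a1, div_le_iff₀ hE0pos]
    calc ‖u'‖ * Ehat e' γ' x0 s t' ≤ ‖u'‖ * (CG * E) := by gcongr
      _ ≤ ‖u'‖ * (CG * (2 ^ n * E0)) := by gcongr; exact h3.2
      _ = ‖u'‖ * CG * 2 ^ n * E0 := by ring
      _ ≤ Cc * E0 := by
          refine mul_le_mul_of_nonneg_right ?_ hE0pos.le
          have : 0 ≤ 1 + ‖u‖ + 1 / ‖u‖ := by positivity
          linarith
  set Av : Fin n → ℂ := fun l => ((s / (s + ‖g C t - g (cl l) t‖) : ℝ) : ℂ) with hAv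
  set Bv : Fin n → ℂ := fun l => (g C t - g (cl l) t) / ((s + ‖g C t - g (cl l) t‖ : ℝ) : ℂ)
    with hBv
  set Av' : Fin n' → ℂ := fun l => ((s / (s + ‖x0 - γ' l t'‖) : ℝ) : ℂ) with hAv'
  set Bv' : Fin n' → ℂ := fun l => (x0 - γ' l t') / ((s + ‖x0 - γ' l t'‖ : ℝ) : ℂ) with hBv'
  set φ : ℂ → ℂ := fun X => ((A (g C t + s * X, t ^ N)).1 - x0) / (s : ℂ) with hφ
  have hsc : (s : ℂ) ≠ 0 := by
    rw [Ne, Complex.ofReal_eq_zero]
    exact hs.ne'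
  have hφs : ∀ X, x0 + s * φ X = (A (g C t + s * X, t ^ N)).1 := by
    intro X
    rw [hφ]
    simp only
    rw [mul_div_cancel₀ _ hsc]
    ring
  have hpt : pt g N C t = (g C t + s * 0, t ^ N) := pt_eq C t s
  have hφ0 : φ 0 = 0 := by
    rw [hφ]
    simp only
    rw [← hpt, hx0, sub_self, zero_div]
  have hball : ∀ X : ℂ, ‖X‖ ≤ R1 → ((g C t + s * X, t ^ N) : ℂ × ℂ) ∈ ball (0 : ℂ × ℂ) ρ := by
    intro X hX
    rw [mem_ball_zero_iff]
    exact (h7 X hX).trans_le (min_le_left _ _)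
  have hlip : ∀ z, ‖z‖ ≤ R1 → ∀ z', ‖z'‖ ≤ R1 → ‖φ z - φ z'‖ ≤ L * ‖z - z'‖ := by
    intro z hz z' hz'
    have a1 := h.hco.lipA _ (hball z hz) _ (hball z' hz')
    have a2 : ((g C t + s * z, t ^ N) : ℂ × ℂ) - (g C t + s * z', t ^ N) =
        ((s : ℂ) * (z - z'), 0) := by
      ext <;> simp
      ring
    rw [a2, norm_pair, norm_mul, Complex.norm_real, Real.norm_of_nonneg hs.le] at a1
    have a3 := (norm_fst_le (A (g C t + s * z, t ^ N) - A (g C t + s * z', t ^ N))).trans a1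
    rw [Prod.fst_sub, ← hφs z, ← hφs z'] at a3
    have a4 : x0 + s * φ z - (x0 + s * φ z') = s * (φ z - φ z') := by ring
    rw [a4, norm_mul, Complex.norm_real, Real.norm_of_nonneg hs.le] at a3
    have a5 : s * ‖φ z - φ z'‖ ≤ s * (L * ‖z - z'‖) := by linarith
    exact le_of_mul_le_mul_left a5 hs
  have hφb : ∀ X, ‖X‖ ≤ R1 → ‖φ X‖ ≤ L * R1 := by
    intro X hX
    have a1 := hlip X hX 0 (by simpa using hR10.le)
    rw [hφ0, sub_zero, sub_zero] at a1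
    exact a1.trans (mul_le_mul_of_nonneg_left hX hL0.le)
  -- the slices
  have hf : ∀ X, ‖X‖ ≤ R1 → HasDerivAt (fun X => F (g C t + s * X, t ^ N))
      (s * dx F (g C t + s * X, t ^ N)) X := fun X hX =>
    slice_x (hdF _ ((h7 X hX).trans_le (min_le_right _ _)))
  have hf1 : ∀ X, ‖X‖ ≤ R1 → ‖dx F (g C t + s * X, t ^ N) -
      E0 * (w * ∏ l, (Av l * X + Bv l))‖ ≤ η * E := by
    intro X hX
    have a1 := formF (e := e) u t ht m cl hcl (fun C' => g C t - g C' t) hs X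
    have a2 : ∏ C', (g C t + s * X - g C' t) ^ m C' =
        ∏ C', (g C t - g C' t + s * X) ^ m C' :=
      Finset.prod_congr rfl fun C' _ => by
        congr 1
        ring
    have a3 := h1 X hX
    rw [a2, a1] at a3
    exact a3
  have hwG : ∀ Y : ℂ, ‖Y‖ ≤ L * R1 → ‖((x0 + s * Y, y0) : ℂ × ℂ) - A (pt g N C t)‖ ≤
      L * R1 * s := by
    intro Y hY
    have a1 : ((x0 + s * Y, y0) : ℂ × ℂ) - A (pt g N C t) = ((s : ℂ) * Y, 0) := by
      ext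
      · show x0 + s * Y - x0 = s * Y
        ring
      · show y0 - y0 = 0
        ring
    rw [a1, Prod.norm_def, norm_zero, max_eq_left (norm_nonneg _), norm_mul, Complex.norm_real,
      Real.norm_of_nonneg hs.le, mul_comm]
    exact mul_le_mul_of_nonneg_right hY hs.le
  have hg : ∀ Y, ‖Y‖ ≤ L * R1 → HasDerivAt (fun Y => G (x0 + s * Y, y0))
      (s * dx G (x0 + s * Y, y0)) Y := fun Y hY => slice_x (hdG _ (h8 _ (hwG Y hY)))
  have hg1 : ∀ Y, ‖Y‖ ≤ L * R1 → ‖dx G (x0 + s * Y, y0) -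
      E0 * (vv * ∏ l, (Av' l * Y + Bv' l))‖ ≤ η * E := by
    intro Y hY
    obtain ⟨b1, b2, b3⟩ := h9 t' ht'
    have a1 := hfac (x0 + s * Y) t' b1 b2 (b3 Y hY)
    rw [ht'] at a1
    have a2 := formG (u' * t' ^ e') (E0 : ℂ) hE0c (fun l => x0 - γ' l t') hs Y
    have a3 : ∏ l, (x0 + s * Y - γ' l t') = ∏ l, (x0 - γ' l t' + s * Y) :=
      Finset.prod_congr rfl fun l _ => by ring
    have a3' : ∏ l, ‖x0 + s * Y - γ' l t'‖ = ∏ l, ‖x0 - γ' l t' + s * Y‖ :=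
      Finset.prod_congr rfl fun l _ => by
        congr 1
        ring
    rw [a3, a3', a2] at a1
    refine a1.trans ?_
    have a4 := prod_bound (fun l => x0 - γ' l t') hs (M := L * R1) (by positivity) Y hY
    calc η / K2 * (‖t'‖ ^ e' * ∏ l, ‖x0 - γ' l t' + s * Y‖)
        ≤ η / K2 * (‖t'‖ ^ e' * ((L * R1 + 1) ^ n' * ∏ l, (s + ‖x0 - γ' l t'‖))) := by gcongr
      _ = η / K2 * (L * R1 + 1) ^ n' * Ehat e' γ' x0 s t' := by
          unfold Ehat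
          ring
      _ ≤ η / K2 * (L * R1 + 1) ^ n' * (CG * E) := by
          refine mul_le_mul_of_nonneg_left (h2 t' ht') (by positivity)
      _ = η / K2 * K2 * E := by rw [hK2]; ring
      _ = η * E := by rw [div_mul_cancel₀ _ hK2pos.ne']
  have hwin' : ∀ X : ℂ, ‖X‖ ≤ R1 → ‖fderiv ℂ F (g C t + s * X, t ^ N)‖ ≤ CR * E := by
    intro X hX
    refine h4 _ ?_
    have a1 : ((g C t + s * X, t ^ N) : ℂ × ℂ) - pt g N C t = ((s : ℂ) * X, 0) := by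
      unfold pt
      ext <;> simp
    rw [a1, Prod.norm_def, norm_zero, max_eq_left (norm_nonneg _), norm_mul, Complex.norm_real,
      Real.norm_of_nonneg hs.le, mul_comm]
    exact mul_le_mul_of_nonneg_right hX hs.le
  have hd : ∀ X, ‖X‖ ≤ R1 → ‖((fun Y => G (x0 + s * Y, y0)) (φ X) -
      (fun Y => G (x0 + s * Y, y0)) 0) - ((fun X => F (g C t + s * X, t ^ N)) X -
      (fun X => F (g C t + s * X, t ^ N)) 0)‖ ≤
      (L * R1 * η + 2 * (L * CR ^ 2) * η) * (s * E) := by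
    intro X hX
    have a1 := diffd h hs hR10.le hη.le hEpos.le h6 hCR.le hball hwin'
      (fun q hq => ⟨hdG q (h8 q hq), h5 q hq⟩) hX
    simp only
    have a2 : G (x0 + s * 0, y0) = G (A (pt g N C t)) := by
      rw [mul_zero, add_zero]
    rw [hφs X, a2, ← hpt]
    exact a1
  have hclose : ∀ X, ‖X‖ ≤ R1 → ‖prim vv Av' Bv' (φ X) - prim w Av Bv X‖ ≤ δ0 := by
    intro X hX
    exact (core1 hs hE0pos h3.2 hEpos.le hL0.le hR10.le hη.le hη.le (by positivity) hf hf1 hg hg1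
      hφb hd hX).trans hη1
  obtain ⟨α, hα1, hα2, hα3, hα4⟩ := hmain w vv Av Bv Av' Bv' (prim w Av Bv) (prim vv Av' Bv') φ
    (by
      rw [hwn]
      have a1 : 1 / ‖u‖ ≤ Cc := by
        have : 0 ≤ 1 + ‖u‖ + ‖u'‖ * CG * 2 ^ n := by positivity
        linarith
      calc (1 : ℝ) = 1 / ‖u‖ * ‖u‖ := by rw [one_div, inv_mul_cancel₀ hu.ne']
        _ ≤ Cc * ‖u‖ := mul_le_mul_of_nonneg_right a1 hu.le)
    (by
      rw [hwn]
      have : 0 ≤ 1 + 1 / ‖u‖ + ‖u'‖ * CG * 2 ^ n := by positivity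
      linarith)
    hvn (fun l => normalise hs _) (fun l => normalise hs _)
    (prim_hasDerivAt w Av Bv) (prim_zero _ _ _) (prim_hasDerivAt vv Av' Bv') (prim_zero _ _ _)
    hφ0 hlip hclose
  refine ⟨α, hα1, hα2, ?_, ?_⟩
  · intro X hX
    have a1 : (A (g C t + s * X, t ^ N)).1 - x0 - α * (s * X) = s * (φ X - α * X) := by
      rw [← hφs X]
      ring
    rw [a1, norm_mul, Complex.norm_real, Real.norm_of_nonneg hs.le, mul_comm]
    refine mul_le_mul_of_nonneg_right ((hα3 X hX).trans ?_) hs.le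
    linarith
  · intro X hX
    have hX1 : ‖X‖ ≤ R1 := hX.trans hRR1
    have hαX : ‖α * X‖ ≤ L * R1 := by
      rw [norm_mul]
      exact mul_le_mul hα2 hX1 (norm_nonneg _) hL0.le
    have a1 := hf1 X hX1
    have a2 := hg1 (α * X) hαX
    have a3 := hα4 X hX
    have a4 : α * ((s : ℂ) * X) = s * (α * X) := by ring
    rw [a4]
    have a5 : dx F (g C t + s * X, t ^ N) - α * dx G (x0 + s * (α * X), y0) =
        (dx F (g C t + s * X, t ^ N) - E0 * (w * ∏ l, (Av l * X + Bv l)))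
        + E0 * (w * ∏ l, (Av l * X + Bv l) - α * (vv * ∏ l, (Av' l * (α * X) + Bv' l)))
        - α * (dx G (x0 + s * (α * X), y0) - E0 * (vv * ∏ l, (Av' l * (α * X) + Bv' l))) := by
      ring
    rw [a5]
    refine (norm_sub_le _ _).trans ?_
    refine (add_le_add_left (norm_add_le _ _) _).trans ?_
    rw [norm_mul (E0 : ℂ), norm_mul α, Complex.norm_real, Real.norm_of_nonneg hE0pos.le]
    have a6 : E0 * ‖w * ∏ l, (Av l * X + Bv l) - α * (vv * ∏ l, (Av' l * (α * X) + Bv' l))‖ ≤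
        E * (ε / 4) := mul_le_mul h3.1 a3 (norm_nonneg _) hEpos.le
    have a7 : ‖α‖ * ‖dx G (x0 + s * (α * X), y0) -
        E0 * (vv * ∏ l, (Av' l * (α * X) + Bv' l))‖ ≤ L * (η * E) :=
      mul_le_mul hα2 a2 (norm_nonneg _) hL0.le
    calc _ ≤ η * E + E * (ε / 4) + L * (η * E) := add_le_add (add_le_add a1 a6) a7
      _ = (η * (1 + L) + ε / 4) * E := by ring
      _ ≤ (ε / 4 + ε / 4) * E := mul_le_mul_of_nonneg_right (by linarith) hEpos.le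
      _ ≤ ε * E := mul_le_mul_of_nonneg_right (by linarith) hEpos.le

end H24.LS
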