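import Pool.Agent.H24.LS.P0
import Pool.Agent.H24.LS.F0
import Pool.Agent.H24.LS.F1
import Pool.Agent.H24.LS.F2
import Pool.Agent.H24.LS.F3
import Pool.Agent.H24.LS.F4
import Pool.Agent.H24.LS.E3

/-!
# F5: counting the arcs of `G` near the image of a centre

Notation as in F4.
* `rc`: apply `aff` at `s = K s_C` with `R = 1/a0` (may assume `a0 ≤ 1`) and small `ε'`.  For `‖X'‖ ≤ 1`, `X = X'/α`
  (`‖X‖ ≤ R`): `dx G (x0 + s X', y0) = α⁻¹ dx F (g C + s X'/α, t^N) + O(ε' E/a0)`.  By `prodF` and because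
  `s = K s_C = o(‖g C - g C'‖)` for `C' ≠ C`, `dx F (g C + s X, t^N) = e1 X^{m C} + O(ε' E)` with
  `e1 = u t^e s^{m C} ∏_{C'≠C} (g C - g C')^{m C'}`, `‖e1‖ ≥ c E`.  And `dx G (x0 + s X', y0) = E0 v ∏ (A'_l X' + B'_l) + O(ε' E)`
  by `PCh.fac`.  So `‖v ∏ (A'_l X' + B'_l) - e X'^{m C}‖ ≤ K ε'` for `‖X'‖ ≤ 1`, `‖e‖ ≥ c`.  `hur` (with the given
  `ε`): `‖B'_l‖ ≤ ε ‖A'_l‖` iff `‖x0 - γ'_l‖ ≤ ε s`.
* `rc2`: `rc` with `ε = 1/2` gives `K1`; put `K0 = K1/2`.  For `K ≥ K1` the set `S_K = {l : ‖x0 - γ'_l‖ ≤ K s_C/2}` has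
  `m C` elements and contains `S_{K1}`, so they are equal for `t` small (depending on `K`); and `l ∉ S_K`
  has `‖x0 - γ'_l‖ ≥ 2 K s_C`.  Take `K = max K1 M`.
* `nn`: `n' = n`.  Fix small `δ1`, `s = δ1 ‖t‖^N`, `t → 0`.  `g C' = o(s)`: `dx F (g C + s X, t^N) = u t^e (s X)^n + o(E)`,
  `‖t‖^e s^n ≍ E`; `x0, γ'_l t0' = o(s)` (`cone`, `mat_size`, `γsm`): `dx G (x0 + s X', y0) = u' t0'^{e'} (s X')^{n'} + o(Ehat)`.
  `aff` (`ε` small, `δ1` small enough, `R = 2`), `X = 1` and `X = 2`: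
  `u t^e s^n ≈ α u' t0'^{e'} (α s)^{n'}` and `2^n u t^e s^n ≈ 2^{n'} α u' t0'^{e'} (α s)^{n'}` up to `K ε E`; so
  `|2^n - 2^{n'}| ≤ K ε` and `n = n'`.
-/

open Filter Topology Metric Asymptotics

namespace H24.LS

theorem F5_ev {P : ℂ → Prop} : (∃ δ > (0:ℝ), ∀ t : ℂ, 0 < ‖t‖ → ‖t‖ < δ → P t) ↔
    ∀ᶠ t in 𝓝[≠] (0:ℂ), P t := by
  rw [eventually_nhdsWithin_iff, Metric.eventually_nhds_iff]
  constructor
  · rintro ⟨δ, hδ, h⟩
    refine ⟨δ, hδ, fun t ht ht0 => h t (norm_pos_iff.2 ht0) (by simpa using ht)⟩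
  · rintro ⟨δ, hδ, h⟩
    exact ⟨δ, hδ, fun t ht0 ht => h (y := t) (by simpa using ht) (norm_pos_iff.1 ht0)⟩

theorem F5_fin {c : ℕ} (f : Fin c → ℝ) (hf : ∀ i, 0 < f i) : ∃ δ > (0:ℝ), ∀ i, δ ≤ f i := by
  rcases isEmpty_or_nonempty (Fin c) with h | h
  · exact ⟨1, one_pos, fun i => h.elim i⟩
  · obtain ⟨i0, hi0⟩ := Finite.exists_min f
    exact ⟨f i0, hf i0, hi0⟩

theorem F5_eta (n n' : ℕ) (κ : ℝ) (hκ : 0 < κ) : ∃ η > (0:ℝ), η ≤ 1 ∧ (1 + η) ^ n - 1 ≤ κ ∧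
    (1 + η) ^ n' - 1 ≤ κ := by
  have h1 : ∀ n : ℕ, ∀ᶠ η : ℝ in 𝓝[>] 0, (1 + η) ^ n - 1 ≤ κ := by
    intro n
    have : Tendsto (fun η : ℝ => (1 + η) ^ n - 1) (𝓝 0) (𝓝 ((1 + 0) ^ n - 1)) :=
      (by fun_prop : Continuous (fun η : ℝ => (1 + η) ^ n - 1)).tendsto 0
    rw [add_zero, one_pow, sub_self] at this
    exact (this.eventually (ge_mem_nhds hκ)).filter_mono nhdsWithin_le_nhds
  have h2 : ∀ᶠ η : ℝ in 𝓝[>] 0, η ≤ 1 := 
    (ge_mem_nhds one_pos).filter_mono nhdsWithin_le_nhds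
  obtain ⟨η, h3, h4, h5, h6⟩ := ((h1 n).and ((h1 n').and (h2.and self_mem_nhdsWithin))).exists
  exact ⟨η, h6, h5, h3, h4⟩

theorem F5_pert {ι : Type*} [DecidableEq ι] (s : Finset ι) (z w : ι → ℂ) (B : ι → ℝ) (η : ℝ)
    (hη : 0 ≤ η) (hz : ∀ i ∈ s, ‖z i‖ ≤ B i) (hw : ∀ i ∈ s, ‖w i‖ ≤ η * B i) :
    ‖∏ i ∈ s, (z i + w i) - ∏ i ∈ s, z i‖ ≤ ((1 + η) ^ s.card - 1) * ∏ i ∈ s, B i := by
  induction s using Finset.induction_on with
  | empty => simp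
  | insert a s ha ih =>
    rw [Finset.prod_insert ha, Finset.prod_insert ha, Finset.prod_insert ha,
      Finset.card_insert_of_notMem ha]
    have hza := hz a (Finset.mem_insert_self a s)
    have hwa := hw a (Finset.mem_insert_self a s)
    have ih' := ih (fun i hi => hz i (Finset.mem_insert_of_mem hi))
      (fun i hi => hw i (Finset.mem_insert_of_mem hi))
    have hB : ‖∏ i ∈ s, z i‖ ≤ ∏ i ∈ s, B i := by
      rw [norm_prod]
      exact Finset.prod_le_prod (fun i _ => norm_nonneg _)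
        (fun i hi => hz i (Finset.mem_insert_of_mem hi))
    have hBa : 0 ≤ B a := (norm_nonneg _).trans hza
    have h1 : (z a + w a) * ∏ i ∈ s, (z i + w i) - z a * ∏ i ∈ s, z i
        = (z a + w a) * (∏ i ∈ s, (z i + w i) - ∏ i ∈ s, z i) + w a * ∏ i ∈ s, z i := by ring
    rw [h1]
    have h2 : ‖z a + w a‖ ≤ (1 + η) * B a := by
      refine (norm_add_le _ _).trans ?_
      linarith
    calc ‖(z a + w a) * (∏ i ∈ s, (z i + w i) - ∏ i ∈ s, z i) + w a * ∏ i ∈ s, z i‖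
        ≤ ‖z a + w a‖ * ‖∏ i ∈ s, (z i + w i) - ∏ i ∈ s, z i‖ + ‖w a‖ * ‖∏ i ∈ s, z i‖ := by
          refine (norm_add_le _ _).trans ?_
          rw [norm_mul, norm_mul]
      _ ≤ ((1 + η) * B a) * (((1 + η) ^ s.card - 1) * ∏ i ∈ s, B i)
          + (η * B a) * ∏ i ∈ s, B i := by
          have := norm_nonneg (∏ i ∈ s, z i)
          gcongr
      _ = _ := by ring

theorem F5_small {N c : ℕ} {b : Fin c → ℝ} (hb : ∀ C, (N : ℝ) < b C) (K δ : ℝ) (hδ : 0 < δ) :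
    ∀ᶠ t in 𝓝[≠] (0:ℂ), ∀ C, K * ‖t‖ ^ (b C) ≤ δ * ‖t‖ ^ N := by
  rw [eventually_all]
  intro C
  have h0 : 0 < b C - N := by linarith [hb C]
  have h1 : Tendsto (fun t : ℂ => K * ‖t‖ ^ (b C - N)) (𝓝 0) (𝓝 (K * ‖(0:ℂ)‖ ^ (b C - N))) :=
    (continuous_const.mul (continuous_norm.rpow_const (fun _ => Or.inr h0.le))).tendsto 0
  rw [norm_zero, Real.zero_rpow h0.ne', mul_zero] at h1
  filter_upwards [(h1.eventually (ge_mem_nhds hδ)).filter_mono nhdsWithin_le_nhds,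
    self_mem_nhdsWithin] with t ht ht0
  have ht1 : 0 < ‖t‖ := norm_pos_iff.2 ht0
  have h2 : ‖t‖ ^ (b C) = ‖t‖ ^ (b C - N) * ‖t‖ ^ N := by
    rw [← Real.rpow_natCast, ← Real.rpow_add ht1]; congr 1; ring
  rw [h2, ← mul_assoc]
  exact mul_le_mul_of_nonneg_right ht (by positivity)

theorem F5_normpow {N : ℕ} (hN : 1 ≤ N) (δ : ℝ) (hδ : 0 < δ) :
    ∀ᶠ t in 𝓝[≠] (0:ℂ), ‖t‖ ^ N < δ := by
  have h1 : Tendsto (fun t : ℂ => ‖t‖ ^ N) (𝓝 0) (𝓝 (‖(0:ℂ)‖ ^ N)) :=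
    (continuous_norm.pow N).tendsto 0
  rw [norm_zero, zero_pow (by omega)] at h1
  exact (h1.eventually (gt_mem_nhds hδ)).filter_mono nhdsWithin_le_nhds

theorem F5_gside {F G : ℂ × ℂ → ℂ} {k n n' N : ℕ} {u u' : ℂ} {c : ℕ} {m : Fin c → ℕ}
    {b : Fin c → ℝ} {g v : Fin c → ℂ → ℂ} {a : Fin c → ℂ} {D : Fin c → ℕ}
    {γ' : Fin n' → ℂ → ℂ} {A B : ℂ × ℂ → ℂ × ℂ} {L ρ : ℝ}
    (h : Mat F G k n n' N u u' c m b g v a D γ' A B L ρ) :
    ∃ c0 > (0:ℝ), ∀ δ > (0:ℝ), ∀ᶠ t in 𝓝[≠] (0:ℂ), ∀ C, ∀ t' : ℂ,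
      t' ^ N = (A (pt g N C t)).2 → 0 < ‖t'‖ ∧ ‖t'‖ < δ ∧
        ‖(A (pt g N C t)).1‖ ≤ δ * ‖t'‖ ^ N ∧ c0 * ‖t‖ ^ N ≤ ‖t'‖ ^ N ∧
        ‖t'‖ ^ N ≤ L * ‖t‖ ^ N := by
  obtain ⟨c0, hc0, δ0, hδ0, hs⟩ := mat_size h
  have hs' := F5_ev.1 ⟨δ0, hδ0, hs⟩
  have hN := h.hC.hN
  have hL := h.hco.hL
  refine ⟨c0, hc0, fun δ hδ => ?_⟩
  obtain ⟨δ1, hδ1, hcone⟩ := h.cone δ hδ
  have hg : ∀ᶠ t in 𝓝[≠] (0:ℂ), ∀ C, ‖g C t‖ ≤ δ1 * ‖t ^ N‖ := by
    rw [eventually_all]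
    exact fun C => (h.hC.gsm C).def hδ1
  filter_upwards [hs', hg, F5_normpow hN δ1 hδ1, F5_normpow hN (δ ^ N / L) (by positivity),
    self_mem_nhdsWithin] with t h1 h2 h3 h4 h5 C t' ht'
  have ht0 : 0 < ‖t‖ := norm_pos_iff.2 h5
  obtain ⟨h6, h7⟩ := h1 C
  have h8 : ‖t'‖ ^ N = ‖(A (pt g N C t)).2‖ := by rw [← ht', norm_pow]
  have h9 := hcone (g C t) (t ^ N) (by rw [norm_pow]; exact h3) (h2 C)
  have h10 : 0 < ‖t'‖ ^ N := by rw [h8]; exact lt_of_lt_of_le (by positivity) h6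
  refine ⟨?_, ?_, ?_, ?_, ?_⟩
  · by_contra hcon
    have : ‖t'‖ = 0 := le_antisymm (not_lt.1 hcon) (norm_nonneg _)
    rw [this, zero_pow (by omega)] at h10
    exact lt_irrefl _ h10
  · refine lt_of_pow_lt_pow_left₀ N hδ.le ?_
    rw [h8]
    rw [lt_div_iff₀ (by linarith)] at h4
    linarith
  · rw [h8]; exact h9
  · rw [h8]; exact h6
  · rw [h8]; exact h7

theorem F5_cE_pos {c : ℕ} (e : ℕ) (m : Fin c → ℕ) (b : Fin c → ℝ) (g : Fin c → ℂ → ℂ) (C : Fin c)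
    {t : ℂ} (ht : 0 < ‖t‖) {s : ℝ} (hs : 0 < s) : 0 < cE e m b g C s t := by
  unfold cE
  have : ∀ C', 0 < s + ‖t‖ ^ (b C') + ‖g C t - g C' t‖ := fun C' => by positivity
  exact mul_pos (by positivity) (Finset.prod_pos fun C' _ => pow_pos (this C') _)

/-- real version of the labelling -/
theorem F5_label {n c : ℕ} {m : Fin c → ℕ} {cl : Fin n → Fin c}
    (h : ∀ f : Fin c → ℂ, ∏ l, f (cl l) = ∏ C, f C ^ m C) (f : Fin c → ℝ) :
    ∏ l, f (cl l) = ∏ C, f C ^ m C := by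
  have := h (fun C => (f C : ℂ))
  exact_mod_cast this

theorem rc {F G : ℂ × ℂ → ℂ} {k n n' N : ℕ} {u u' : ℂ} {c : ℕ} {m : Fin c → ℕ}
    {b : Fin c → ℝ} {g v : Fin c → ℂ → ℂ} {a : Fin c → ℂ} {D : Fin c → ℕ}
    {γ' : Fin n' → ℂ → ℂ} {A B : ℂ × ℂ → ℂ × ℂ} {L ρ : ℝ}
    (h : Mat F G k n n' N u u' c m b g v a D γ' A B L ρ) :
    ∀ ε : ℝ, 0 < ε → ε < 1 → ∃ K1 > (0 : ℝ), ∀ K : ℝ, K1 ≤ K → ∃ δ > (0 : ℝ),
      ∀ t : ℂ, 0 < ‖t‖ → ‖t‖ < δ → ∀ C, ∀ t' : ℂ, t' ^ N = (A (pt g N C t)).2 →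
      (Finset.univ.filter (fun l => ‖(A (pt g N C t)).1 - γ' l t'‖ ≤
        ε * (K * ‖t‖ ^ (b C)))).card = m C ∧
      ∀ l, ‖(A (pt g N C t)).1 - γ' l t'‖ ≤ ε * (K * ‖t‖ ^ (b C)) ∨
        K * ‖t‖ ^ (b C) ≤ ε * ‖(A (pt g N C t)).1 - γ' l t'‖ := by
  intro ε hε hε1
  have hL := h.hco.hL
  have hu : 0 < ‖u‖ := norm_pos_iff.2 h.hC.hu
  have hN := h.hC.hN
  obtain ⟨cl, hclc, hcl⟩ := exists_label m h.hC.hmn
  obtain ⟨a0, ha0, haff⟩ := aff h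
  obtain ⟨CR, hCR, δe, hδe, hehat⟩ := ehatG_le h
  obtain ⟨c0, hc0, hgs⟩ := F5_gside h
  set e := N * (k - 1 - n) with he
  set e' := N * (k - 1 - n') with he'
  set R : ℝ := max 1 (1 / a0) with hR
  have hR1 : 1 ≤ R := le_max_left _ _
  have hR0 : 0 < R := by positivity
  have hhur := fun C => hur n' (m C) (L * ‖u'‖ * CR + 1) (‖u‖ / (4 ^ n * L ^ n)) ε
    (by positivity) (by positivity) hε hε1
  choose δh hδh hhur' using hhur
  obtain ⟨δ0, hδ0, hδ0'⟩ := F5_fin δh hδh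
  obtain ⟨κ, hκ, hκH⟩ : ∃ κ : ℝ, 0 < κ ∧ κ * (L * CR + 2 + ‖u‖ * R ^ n) ≤ δ0 := by
    refine ⟨δ0 / (L * CR + 2 + ‖u‖ * R ^ n), by positivity, ?_⟩
    rw [div_mul_cancel₀ _ (by positivity)]
  obtain ⟨η, hη, hη1, hηn, -⟩ := F5_eta n n κ hκ
  obtain ⟨Ka, hKa, δa, hδa, haf⟩ := haff R hR1 κ hκ
  obtain ⟨KF, hKF, δF, hδF, hpF⟩ := prodF h.hC R hR1 κ hκ
  obtain ⟨δG, hδG, hfac⟩ := h.hG.fac κ hκ
  obtain ⟨δl, hδl, hlow⟩ := cE_low h.hC e
  refine ⟨max (max Ka KF) 1, by positivity, fun K hK => ?_⟩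
  have hKa' : Ka ≤ K := ((le_max_left _ _).trans (le_max_left _ _)).trans hK
  have hKF' : KF ≤ K := ((le_max_right _ _).trans (le_max_left _ _)).trans hK
  have hK1 : 1 ≤ K := (le_max_right _ _).trans hK
  have hK0 : 0 < K := by linarith
  rw [F5_ev]
  have hn1 : ∀ δ : ℝ, 0 < δ → ∀ᶠ t in 𝓝[≠] (0:ℂ), ‖t‖ < δ := by
    intro δ hδ
    filter_upwards [F5_normpow (N := 1) le_rfl δ hδ] with t ht
    simpa using ht
  have hsep : ∀ᶠ t in 𝓝[≠] (0:ℂ), ∀ C C', C ≠ C' →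
      K * R * ‖t‖ ^ (b C) ≤ η * ‖g C t - g C' t‖ := by
    rw [eventually_all]; intro C
    rw [eventually_all]; intro C'
    by_cases hCC : C = C'
    · exact Eventually.of_forall (fun t hne => (hne hCC).elim)
    · filter_upwards [(h.hC.sep C C' hCC).def (show 0 < η / (K * R) by positivity)] with t ht _
      rw [Real.norm_of_nonneg (by positivity)] at ht
      calc K * R * ‖t‖ ^ (b C) ≤ K * R * (η / (K * R) * ‖g C t - g C' t‖) := by gcongr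
        _ = η * ‖g C t - g C' t‖ := by field_simp
  filter_upwards [F5_small h.hC.hb K δa hδa, F5_small h.hC.hb K δF hδF,
    F5_small h.hC.hb K δe hδe, F5_small h.hC.hb K (δG * c0 / 4) (by positivity), hsep,
    hgs (δG / 4) (by positivity), hn1 δa hδa, hn1 δF hδF, hn1 δe hδe, hn1 δl hδl,
    self_mem_nhdsWithin] with t q1 q2 q3 q4 q5 q6 q7 q8 q9 q10 q11 C t' ht'
  have ht0 : 0 < ‖t‖ := norm_pos_iff.2 q11
  obtain ⟨ht'0, ht'1, hx0, hct, htL⟩ := q6 C t' ht'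
  have hbpos : 0 < ‖t‖ ^ (b C) := Real.rpow_pos_of_pos ht0 _
  set s : ℝ := K * ‖t‖ ^ (b C) with hs
  have hspos : 0 < s := by positivity
  have hbs : ‖t‖ ^ (b C) ≤ s := le_mul_of_one_le_left hbpos.le hK1
  have hsKa : Ka * ‖t‖ ^ (b C) ≤ s := by rw [hs]; gcongr
  have hsKF : KF * ‖t‖ ^ (b C) ≤ s := by rw [hs]; gcongr
  have hEpos : 0 < cE e m b g C s t := F5_cE_pos e m b g C ht0 hspos
  set E : ℝ := cE e m b g C s t with hE
  set x0 := (A (pt g N C t)).1 with hx0def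
  have hEh := hehat t ht0 q9 C s hbs (q3 C) t' ht'
  obtain ⟨hlow1, hlow2⟩ := hlow t ht0 q10 C s hbs
  have hlab := F5_label hcl (fun C' => s + ‖g C t - g C' t‖)
  rw [← hlab] at hlow1 hlow2
  obtain ⟨α, hα0, hαL, -, hα2⟩ := haf t ht0 q7 C s hsKa (q1 C)
  have hαpos : 0 < ‖α‖ := lt_of_lt_of_le ha0 hα0
  have hαne : α ≠ 0 := norm_pos_iff.1 hαpos
  set z' : Fin n → ℂ := fun l => if cl l = C then (s:ℂ) else g C t - g (cl l) t with hz'
  have hsC : ‖(s:ℂ)‖ = s := by rw [Complex.norm_real, Real.norm_of_nonneg hspos.le]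
  have hzs : ∀ l, s + ‖g C t - g (cl l) t‖ ≤ 2 * ‖z' l‖ := by
    intro l
    by_cases hl : cl l = C
    · simp only [hz', if_pos hl, hl, sub_self, norm_zero, hsC]; linarith
    · simp only [hz', if_neg hl]
      have h1 := q5 C (cl l) (fun h => hl h.symm)
      have h2 : s ≤ K * R * ‖t‖ ^ (b C) := by
        rw [hs]
        calc K * ‖t‖ ^ (b C) = K * 1 * ‖t‖ ^ (b C) := by ring
          _ ≤ K * R * ‖t‖ ^ (b C) := by gcongr
      have h3 : η * ‖g C t - g (cl l) t‖ ≤ ‖g C t - g (cl l) t‖ :=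
        mul_le_of_le_one_left (norm_nonneg _) hη1
      linarith
  have hPz : E ≤ 4 ^ n * (‖t‖ ^ e * ‖∏ l, z' l‖) := by
    have h1 : ∏ l, (s + ‖g C t - g (cl l) t‖) ≤ ∏ l, (2 * ‖z' l‖) :=
      Finset.prod_le_prod (fun l _ => by positivity) (fun l _ => hzs l)
    rw [Finset.prod_mul_distrib, Finset.prod_const, Finset.card_univ, Fintype.card_fin,
      ← norm_prod] at h1
    calc E ≤ 2 ^ n * (‖t‖ ^ e * ∏ l, (s + ‖g C t - g (cl l) t‖)) := hlow2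
      _ ≤ 2 ^ n * (‖t‖ ^ e * (2 ^ n * ‖∏ l, z' l‖)) := by gcongr
      _ = 4 ^ n * (‖t‖ ^ e * ‖∏ l, z' l‖) := by
          rw [show (4:ℝ) = 2 * 2 by norm_num, mul_pow]; ring
  have hdl : ∀ l, 0 < s + ‖x0 - γ' l t'‖ := fun l => by positivity
  -- application of the counting lemma
  have happ := hhur' C
    (α * (u' * t' ^ e' * ∏ l, (((s + ‖x0 - γ' l t'‖ : ℝ)) : ℂ)) / (E : ℂ))
    (u * t ^ e * (∏ l, z' l) * (α⁻¹) ^ (m C) / (E : ℂ))
    (fun l => (s : ℂ) / ((s + ‖x0 - γ' l t'‖ : ℝ) : ℂ))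
    (fun l => (x0 - γ' l t') / ((s + ‖x0 - γ' l t'‖ : ℝ) : ℂ)) ?_ ?_ ?_ ?_
  · have hconv : ∀ l, (‖(x0 - γ' l t') / ((s + ‖x0 - γ' l t'‖ : ℝ) : ℂ)‖ ≤
        ε * ‖(s : ℂ) / ((s + ‖x0 - γ' l t'‖ : ℝ) : ℂ)‖) ↔ ‖x0 - γ' l t'‖ ≤ ε * s := by
      intro l
      rw [norm_div, norm_div, hsC, Complex.norm_real, Real.norm_of_nonneg (hdl l).le, ← mul_div_assoc]
      exact div_le_div_iff_of_pos_right (hdl l)
    have hconv' : ∀ l, (‖(s : ℂ) / ((s + ‖x0 - γ' l t'‖ : ℝ) : ℂ)‖ ≤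
        ε * ‖(x0 - γ' l t') / ((s + ‖x0 - γ' l t'‖ : ℝ) : ℂ)‖) ↔ s ≤ ε * ‖x0 - γ' l t'‖ := by
      intro l
      rw [norm_div, norm_div, hsC, Complex.norm_real, Real.norm_of_nonneg (hdl l).le, ← mul_div_assoc]
      exact div_le_div_iff_of_pos_right (hdl l)
    refine ⟨?_, fun l => ?_⟩
    · rw [← happ.1]
      congr 1
      exact Finset.filter_congr (fun l _ => (hconv l).symm)
    · rcases happ.2 l with h1 | h1
      · exact Or.inl ((hconv l).1 h1)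
      · exact Or.inr ((hconv' l).1 h1)
  · -- bound of `v`
    rw [norm_div, norm_mul, norm_mul, norm_mul, norm_prod, norm_pow, Complex.norm_real,
      Real.norm_of_nonneg hEpos.le, div_le_iff₀ hEpos]
    have h1 : ∏ l : Fin n', ‖(((s + ‖x0 - γ' l t'‖ : ℝ)) : ℂ)‖ = ∏ l, (s + ‖x0 - γ' l t'‖) :=
      Finset.prod_congr rfl (fun l _ => by rw [Complex.norm_real, Real.norm_of_nonneg (hdl l).le])
    rw [h1]
    unfold Ehat at hEh
    calc ‖α‖ * (‖u'‖ * ‖t'‖ ^ e' * ∏ l, (s + ‖x0 - γ' l t'‖))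
        = ‖α‖ * (‖u'‖ * (‖t'‖ ^ e' * ∏ l, (s + ‖x0 - γ' l t'‖))) := by ring
      _ ≤ L * (‖u'‖ * (CR * E)) := by
          have : 0 ≤ ‖t'‖ ^ e' * ∏ l, (s + ‖x0 - γ' l t'‖) :=
            mul_nonneg (by positivity) (Finset.prod_nonneg fun l _ => (hdl l).le)
          gcongr
      _ ≤ (L * ‖u'‖ * CR + 1) * E := by nlinarith [hEpos]
  · -- bound of `e`
    rw [norm_div, norm_mul, norm_mul, norm_mul, norm_pow, norm_pow, norm_inv, Complex.norm_real,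
      Real.norm_of_nonneg hEpos.le, le_div_iff₀ hEpos]
    have hmC : m C ≤ n := by
      rw [← h.hC.hmn]
      exact Finset.single_le_sum (f := m) (fun _ _ => Nat.zero_le _) (Finset.mem_univ C)
    have h1 : ‖α‖ ^ m C ≤ L ^ n :=
      (pow_le_pow_left₀ (norm_nonneg _) hαL _).trans (pow_le_pow_right₀ hL hmC)
    have h2 : (L ^ n)⁻¹ ≤ ‖α‖⁻¹ ^ m C := by
      rw [inv_pow]
      exact inv_anti₀ (by positivity) h1
    calc ‖u‖ / (4 ^ n * L ^ n) * E ≤ ‖u‖ / (4 ^ n * L ^ n) * (4 ^ n * (‖t‖ ^ e * ‖∏ l, z' l‖)) := by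
          gcongr
      _ = ‖u‖ * ‖t‖ ^ e * ‖∏ l, z' l‖ * (L ^ n)⁻¹ := by
          field_simp
      _ ≤ ‖u‖ * ‖t‖ ^ e * ‖∏ l, z' l‖ * ‖α‖⁻¹ ^ m C := by gcongr
  · intro l
    rw [norm_div, norm_div, hsC, Complex.norm_real, Real.norm_of_nonneg (hdl l).le, ← add_div,
      div_self (hdl l).ne']
  · intro z hz
    set X : ℂ := α⁻¹ * z with hX
    have hXR : ‖X‖ ≤ R := by
      rw [hX, norm_mul, norm_inv]
      calc ‖α‖⁻¹ * ‖z‖ ≤ a0⁻¹ * 1 := by gcongr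
        _ = 1 / a0 := by ring
        _ ≤ R := le_max_right _ _
    have hαX : α * (s * X) = s * z := by rw [hX]; field_simp
    have hsX : ‖(s:ℂ) * X‖ ≤ R * s := by rw [norm_mul, hsC, mul_comm]; gcongr
    have h1 := hα2 X hXR
    rw [hαX] at h1
    have h2 := hpF t ht0 q8 C s hsKF (q2 C) X hXR
    have hxz : ‖x0 + s * z‖ < δG * ‖t'‖ ^ N := by
      have h3 : ‖(s:ℂ) * z‖ ≤ s := by
        rw [norm_mul, hsC]; exact mul_le_of_le_one_right hspos.le hz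
      have h4 : s ≤ δG / 4 * ‖t'‖ ^ N := by
        calc s ≤ δG * c0 / 4 * ‖t‖ ^ N := q4 C
          _ = δG / 4 * (c0 * ‖t‖ ^ N) := by ring
          _ ≤ δG / 4 * ‖t'‖ ^ N := by gcongr
      have h5 : 0 < δG * ‖t'‖ ^ N := by positivity
      calc ‖x0 + s * z‖ ≤ ‖x0‖ + ‖(s:ℂ) * z‖ := norm_add_le _ _
        _ ≤ δG / 4 * ‖t'‖ ^ N + δG / 4 * ‖t'‖ ^ N := by linarith
        _ < δG * ‖t'‖ ^ N := by linarith
    have h3 := hfac (x0 + s * z) t' ht'0 (by linarith) hxz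
    rw [ht'] at h3
    have h3' : ‖t'‖ ^ e' * ∏ l, ‖x0 + s * z - γ' l t'‖ ≤ CR * E := by
      unfold Ehat at hEh
      refine le_trans ?_ hEh
      have : ∏ l, ‖x0 + s * z - γ' l t'‖ ≤ ∏ l, (s + ‖x0 - γ' l t'‖) := by
        refine Finset.prod_le_prod (fun _ _ => norm_nonneg _) (fun l _ => ?_)
        have h7 : x0 + s * z - γ' l t' = s * z + (x0 - γ' l t') := by ring
        rw [h7]
        refine (norm_add_le _ _).trans ?_
        have : ‖(s:ℂ) * z‖ ≤ s := by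
          rw [norm_mul, hsC]; exact mul_le_of_le_one_right hspos.le hz
        linarith
      gcongr
    have h4 : ‖∏ C', (g C t + s * X - g C' t) ^ m C' - X ^ m C * ∏ l, z' l‖
        ≤ κ * (R ^ n * ∏ l, (s + ‖g C t - g (cl l) t‖)) := by
      have h5 := F5_pert (Finset.univ : Finset (Fin n))
        (fun l => if cl l = C then (s:ℂ) * X else g C t - g (cl l) t)
        (fun l => if cl l = C then 0 else (s:ℂ) * X)
        (fun l => if cl l = C then R * s else ‖g C t - g (cl l) t‖) η hη.le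
        (fun l _ => by
          by_cases hl : cl l = C
          · simp only [if_pos hl]; exact hsX
          · simp only [if_neg hl]; exact le_rfl)
        (fun l _ => by
          by_cases hl : cl l = C
          · simp only [if_pos hl, norm_zero]; positivity
          · simp only [if_neg hl]
            refine hsX.trans ?_
            have := q5 C (cl l) (fun h => hl h.symm)
            calc R * s = K * R * ‖t‖ ^ (b C) := by rw [hs]; ring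
              _ ≤ _ := this)
      have h6 : ∏ l : Fin n, ((if cl l = C then (s:ℂ) * X else g C t - g (cl l) t)
          + (if cl l = C then 0 else (s:ℂ) * X)) = ∏ C', (g C t + s * X - g C' t) ^ m C' := by
        rw [← hcl (fun C' => g C t + s * X - g C' t)]
        refine Finset.prod_congr rfl (fun l _ => ?_)
        by_cases hl : cl l = C
        · rw [if_pos hl, if_pos hl, hl]; ring
        · rw [if_neg hl, if_neg hl]; ring
      have h7 : ∏ l : Fin n, (if cl l = C then (s:ℂ) * X else g C t - g (cl l) t)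
          = X ^ m C * ∏ l, z' l := by
        rw [← hclc C, ← Finset.prod_const, ← one_mul (∏ l, z' l)]
        have h8 : ∏ x ∈ Finset.univ.filter (fun l => cl l = C), X
            = ∏ l : Fin n, (if cl l = C then X else 1) := by
          rw [Finset.prod_ite]; simp
        rw [h8, one_mul, ← Finset.prod_mul_distrib]
        refine Finset.prod_congr rfl (fun l _ => ?_)
        by_cases hl : cl l = C
        · simp only [hz', if_pos hl]; ring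
        · simp only [hz', if_neg hl]; ring
      rw [h6, h7, Finset.card_univ, Fintype.card_fin] at h5
      refine h5.trans ?_
      have h9 : ∏ l : Fin n, (if cl l = C then R * s else ‖g C t - g (cl l) t‖)
          ≤ R ^ n * ∏ l, (s + ‖g C t - g (cl l) t‖) := by
        have h10 : R ^ n * ∏ l, (s + ‖g C t - g (cl l) t‖)
            = ∏ l : Fin n, (R * (s + ‖g C t - g (cl l) t‖)) := by
          rw [Finset.prod_mul_distrib, Finset.prod_const, Finset.card_univ, Fintype.card_fin]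
        rw [h10]
        refine Finset.prod_le_prod (fun l _ => ?_) (fun l _ => ?_)
        · by_cases hl : cl l = C
          · simp only [if_pos hl]; positivity
          · simp only [if_neg hl]; positivity
        · by_cases hl : cl l = C
          · simp only [if_pos hl]
            gcongr
            linarith [norm_nonneg (g C t - g (cl l) t)]
          · simp only [if_neg hl]
            have h11 : s + ‖g C t - g (cl l) t‖ ≤ R * (s + ‖g C t - g (cl l) t‖) :=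
              le_mul_of_one_le_left (by positivity) hR1
            linarith
      have h12 : 0 ≤ ∏ l : Fin n, (if cl l = C then R * s else ‖g C t - g (cl l) t‖) := by
        refine Finset.prod_nonneg (fun l _ => ?_)
        by_cases hl : cl l = C
        · simp only [if_pos hl]; positivity
        · simp only [if_neg hl]; positivity
      exact mul_le_mul hηn h9 h12 hκ.le
    -- assemble
    have hprod : α * (u' * t' ^ e' * ∏ l, (((s + ‖x0 - γ' l t'‖ : ℝ)) : ℂ)) / (E : ℂ) *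
        ∏ l, ((s : ℂ) / ((s + ‖x0 - γ' l t'‖ : ℝ) : ℂ) * z
          + (x0 - γ' l t') / ((s + ‖x0 - γ' l t'‖ : ℝ) : ℂ))
        = α * (u' * t' ^ e' * ∏ l, (x0 + s * z - γ' l t')) / (E : ℂ) := by
      have h13 : ∏ l, (x0 + s * z - γ' l t')
          = (∏ l, (((s + ‖x0 - γ' l t'‖ : ℝ)) : ℂ)) *
          ∏ l, ((s : ℂ) / ((s + ‖x0 - γ' l t'‖ : ℝ) : ℂ) * z
          + (x0 - γ' l t') / ((s + ‖x0 - γ' l t'‖ : ℝ) : ℂ)) := by
        rw [← Finset.prod_mul_distrib]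
        refine Finset.prod_congr rfl (fun l _ => ?_)
        have : (((s + ‖x0 - γ' l t'‖ : ℝ)) : ℂ) ≠ 0 := by exact_mod_cast (hdl l).ne'
        field_simp
        ring
      rw [h13]; ring
    rw [hprod]
    have hdiv : α * (u' * t' ^ e' * ∏ l, (x0 + s * z - γ' l t')) / (E : ℂ)
        - u * t ^ e * (∏ l, z' l) * (α⁻¹) ^ (m C) / (E : ℂ) * z ^ (m C)
        = (-(α * (dx G (x0 + s * z, (A (pt g N C t)).2)
              - u' * t' ^ e' * ∏ l, (x0 + s * z - γ' l t')))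
          - (dx F (g C t + s * X, t ^ N) - α * dx G (x0 + s * z, (A (pt g N C t)).2))
          + (dx F (g C t + s * X, t ^ N) - u * t ^ e * ∏ C', (g C t + s * X - g C' t) ^ m C')
          + u * t ^ e * (∏ C', (g C t + s * X - g C' t) ^ m C' - X ^ m C * ∏ l, z' l)) / (E : ℂ) := by
      rw [hX, mul_pow]; ring
    rw [hdiv, norm_div, Complex.norm_real, Real.norm_of_nonneg hEpos.le, div_le_iff₀ hEpos]
    have hb1 : ‖-(α * (dx G (x0 + s * z, (A (pt g N C t)).2)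
              - u' * t' ^ e' * ∏ l, (x0 + s * z - γ' l t')))‖ ≤ L * (κ * (CR * E)) := by
      rw [norm_neg, norm_mul]
      have h14 := h3.trans (mul_le_mul_of_nonneg_left h3' hκ.le)
      have h15 : 0 ≤ κ * (CR * E) := by positivity
      exact mul_le_mul hαL h14 (norm_nonneg _) (by linarith)
    have hb4 : ‖u * t ^ e * (∏ C', (g C t + s * X - g C' t) ^ m C' - X ^ m C * ∏ l, z' l)‖
        ≤ ‖u‖ * (κ * R ^ n * E) := by
      rw [norm_mul, norm_mul, norm_pow]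
      calc ‖u‖ * ‖t‖ ^ e * ‖∏ C', (g C t + s * X - g C' t) ^ m C' - X ^ m C * ∏ l, z' l‖
          ≤ ‖u‖ * ‖t‖ ^ e * (κ * (R ^ n * ∏ l, (s + ‖g C t - g (cl l) t‖))) := by gcongr
        _ = ‖u‖ * (κ * R ^ n * (‖t‖ ^ e * ∏ l, (s + ‖g C t - g (cl l) t‖))) := by ring
        _ ≤ ‖u‖ * (κ * R ^ n * E) := by gcongr
    have htot : L * (κ * (CR * E)) + κ * E + κ * E + ‖u‖ * (κ * R ^ n * E)
        = κ * (L * CR + 2 + ‖u‖ * R ^ n) * E := by ring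
    calc _ ≤ L * (κ * (CR * E)) + κ * E + κ * E + ‖u‖ * (κ * R ^ n * E) := by
          refine (norm_add_le _ _).trans (add_le_add ?_ hb4)
          refine (norm_add_le _ _).trans (add_le_add ?_ h2)
          refine (norm_sub_le _ _).trans (add_le_add hb1 h1)
      _ = κ * (L * CR + 2 + ‖u‖ * R ^ n) * E := htot
      _ ≤ δ0 * E := by gcongr
      _ ≤ δh C * E := by gcongr; exact hδ0' C

theorem rc2 {F G : ℂ × ℂ → ℂ} {k n n' N : ℕ} {u u' : ℂ} {c : ℕ} {m : Fin c → ℕ}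
    {b : Fin c → ℝ} {g v : Fin c → ℂ → ℂ} {a : Fin c → ℂ} {D : Fin c → ℕ}
    {γ' : Fin n' → ℂ → ℂ} {A B : ℂ × ℂ → ℂ × ℂ} {L ρ : ℝ}
    (h : Mat F G k n n' N u u' c m b g v a D γ' A B L ρ) :
    ∃ K0 > (0 : ℝ), ∀ M : ℝ, 0 < M → ∃ δ > (0 : ℝ),
      ∀ t : ℂ, 0 < ‖t‖ → ‖t‖ < δ → ∀ C, ∀ t' : ℂ, t' ^ N = (A (pt g N C t)).2 →
      (Finset.univ.filter (fun l => ‖(A (pt g N C t)).1 - γ' l t'‖ ≤
        K0 * ‖t‖ ^ (b C))).card = m C ∧
      ∀ l, ‖(A (pt g N C t)).1 - γ' l t'‖ ≤ K0 * ‖t‖ ^ (b C) ∨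
        M * ‖t‖ ^ (b C) ≤ ‖(A (pt g N C t)).1 - γ' l t'‖ := by
  obtain ⟨K1, hK1, hrc⟩ := rc h (1 / 2) (by norm_num) (by norm_num)
  refine ⟨K1 / 2, by positivity, fun M hM => ?_⟩
  obtain ⟨δ1, hδ1, h1⟩ := hrc K1 le_rfl
  obtain ⟨δ2, hδ2, h2⟩ := hrc (max K1 M) (le_max_left _ _)
  refine ⟨min δ1 δ2, by positivity, fun t ht0 ht C t' ht' => ?_⟩
  obtain ⟨h3, -⟩ := h1 t ht0 (ht.trans_le (min_le_left _ _)) C t' ht'
  obtain ⟨h5, h6⟩ := h2 t ht0 (ht.trans_le (min_le_right _ _)) C t' ht'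
  have hbpos : 0 < ‖t‖ ^ (b C) := Real.rpow_pos_of_pos ht0 _
  have hsub : Finset.univ.filter (fun l => ‖(A (pt g N C t)).1 - γ' l t'‖ ≤
        1 / 2 * (K1 * ‖t‖ ^ (b C))) ⊆ Finset.univ.filter (fun l => ‖(A (pt g N C t)).1 - γ' l t'‖ ≤
        1 / 2 * (max K1 M * ‖t‖ ^ (b C))) := by
    intro l hl
    rw [Finset.mem_filter] at hl ⊢
    refine ⟨hl.1, hl.2.trans ?_⟩
    have := le_max_left K1 M
    gcongr
  have heq := Finset.eq_of_subset_of_card_le hsub (by rw [h3, h5])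
  have hK : ∀ l, (‖(A (pt g N C t)).1 - γ' l t'‖ ≤ K1 / 2 * ‖t‖ ^ (b C)) ↔
      ‖(A (pt g N C t)).1 - γ' l t'‖ ≤ 1 / 2 * (K1 * ‖t‖ ^ (b C)) := by
    intro l
    rw [show K1 / 2 * ‖t‖ ^ (b C) = 1 / 2 * (K1 * ‖t‖ ^ (b C)) by ring]
  refine ⟨?_, fun l => ?_⟩
  · rw [← h3]
    congr 1
    exact Finset.filter_congr (fun l _ => hK l)
  · rcases h6 l with h7 | h7
    · left
      have h8 : l ∈ Finset.univ.filter (fun l => ‖(A (pt g N C t)).1 - γ' l t'‖ ≤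
        1 / 2 * (K1 * ‖t‖ ^ (b C))) := by
        rw [heq, Finset.mem_filter]; exact ⟨Finset.mem_univ _, h7⟩
      rw [Finset.mem_filter] at h8
      exact (hK l).2 h8.2
    · right
      have h8 := le_max_right K1 M
      have h9 : M * ‖t‖ ^ (b C) ≤ max K1 M * ‖t‖ ^ (b C) := by gcongr
      have h10 : 0 < max K1 M * ‖t‖ ^ (b C) := by positivity
      linarith

/-- general facts on the `F` side: everything small compared to `s` -/
theorem F5_close {F : ℂ × ℂ → ℂ} {k n N : ℕ} {u : ℂ} {c : ℕ} {m : Fin c → ℕ}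
    {b : Fin c → ℝ} {g v : Fin c → ℂ → ℂ} {a : Fin c → ℂ} {D : Fin c → ℕ}
    (h : Clu F k n N u c m b g v a D) (δ : ℝ) (hδ : 0 < δ) :
    ∀ᶠ t in 𝓝[≠] (0:ℂ), ∀ C, ‖g C t‖ ≤ δ * ‖t‖ ^ N := by
  rw [eventually_all]
  intro C
  filter_upwards [(h.gsm C).def hδ] with t ht
  rwa [norm_pow] at ht

theorem F5_γ {n' N k : ℕ} {G : ℂ × ℂ → ℂ} {u' : ℂ} {γ' : Fin n' → ℂ → ℂ}
    (h : PCh G k n' N u' γ') (δ : ℝ) (hδ : 0 < δ) :
    ∃ δ' > (0:ℝ), ∀ t : ℂ, 0 < ‖t‖ → ‖t‖ < δ' → ∀ l, ‖γ' l t‖ ≤ δ * ‖t‖ ^ N := by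
  rw [F5_ev, eventually_all]
  intro l
  filter_upwards [(h.γsm l).def hδ] with t ht
  rwa [norm_pow] at ht

theorem F5_two {n n' : ℕ} (hne : n' ≠ n) {P Q : ℂ} {κ : ℝ} (h1 : ‖P - Q‖ ≤ κ)
    (h2 : ‖2 ^ n * P - 2 ^ n' * Q‖ ≤ κ) : ‖P‖ ≤ (1 + 2 ^ n') * κ := by
  have h3 : (1:ℝ) ≤ ‖(2 ^ n - 2 ^ n' : ℂ)‖ := by
    have h4 : (2 ^ n - 2 ^ n' : ℂ) = (((2:ℤ) ^ n - 2 ^ n' : ℤ) : ℂ) := by push_cast; ring
    rw [h4, Complex.norm_intCast]
    have h5 : (2:ℤ) ^ n - 2 ^ n' ≠ 0 := by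
      intro h6
      have h7 : (2:ℤ) ^ n = 2 ^ n' := by linarith
      have h8 : (2:ℕ) ^ n = 2 ^ n' := by exact_mod_cast h7
      exact hne (Nat.pow_right_injective (le_refl 2) h8).symm
    have h6 := Int.one_le_abs h5
    exact_mod_cast h6
  have h4 : (2 ^ n - 2 ^ n' : ℂ) * P = (2 ^ n * P - 2 ^ n' * Q) - 2 ^ n' * (P - Q) := by ring
  have h5 : ‖(2 ^ n - 2 ^ n' : ℂ) * P‖ ≤ κ + 2 ^ n' * κ := by
    rw [h4]
    refine (norm_sub_le _ _).trans ?_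
    rw [norm_mul (2 ^ n' : ℂ)]
    have : ‖(2 ^ n' : ℂ)‖ = 2 ^ n' := by rw [norm_pow]; simp
    rw [this]
    gcongr
  rw [norm_mul] at h5
  have h6 := norm_nonneg P
  nlinarith

theorem nn {F G : ℂ × ℂ → ℂ} {k n n' N : ℕ} {u u' : ℂ} {c : ℕ} {m : Fin c → ℕ}
    {b : Fin c → ℝ} {g v : Fin c → ℂ → ℂ} {a : Fin c → ℂ} {D : Fin c → ℕ}
    {γ' : Fin n' → ℂ → ℂ} {A B : ℂ × ℂ → ℂ × ℂ} {L ρ : ℝ}
    (h : Mat F G k n n' N u u' c m b g v a D γ' A B L ρ) : n' = n := by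
  by_contra hne
  have hL := h.hco.hL
  have hu : 0 < ‖u‖ := norm_pos_iff.2 h.hC.hu
  have hN := h.hC.hN
  obtain ⟨cl, -, hcl⟩ := exists_label m h.hC.hmn
  have hc0 : ∃ C : Fin c, True := by
    by_contra hcon
    push Not at hcon
    have : ∑ C, m C = 0 := Finset.sum_eq_zero (fun C _ => (hcon C).elim)
    rw [h.hC.hmn] at this
    have := h.hn
    omega
  obtain ⟨C, -⟩ := hc0
  obtain ⟨a0, ha0, haff⟩ := aff h
  obtain ⟨CR, hCR, δe, hδe, hehat⟩ := ehatG_le h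
  obtain ⟨c0, hc0, hgs⟩ := F5_gside h
  set e := N * (k - 1 - n) with he
  set e' := N * (k - 1 - n') with he'
  set H : ℝ := 2 ^ n * (1 + ‖u‖) + 2 ^ n
    + L * (CR * 2 ^ n * ((3 * L) ^ n' + ‖u'‖ * (2 * L) ^ n')) with hH
  have hHpos : 0 < H := by positivity
  obtain ⟨κ, hκ, hκH⟩ : ∃ κ : ℝ, 0 < κ ∧ (1 + 2 ^ n') * (κ * H) < ‖u‖ := by
    refine ⟨‖u‖ / (2 * ((1 + 2 ^ n') * H)), by positivity, ?_⟩
    have : (1 + 2 ^ n') * (‖u‖ / (2 * ((1 + 2 ^ n') * H)) * H) = ‖u‖ / 2 := by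
      field_simp
    rw [this]; linarith
  obtain ⟨Ka, hKa, δa, hδa, haf⟩ := haff 2 (by norm_num) κ hκ
  obtain ⟨KF, hKF, δF, hδF, hpF⟩ := prodF h.hC 2 (by norm_num) κ hκ
  obtain ⟨δG, hδG, hfac⟩ := h.hG.fac κ hκ
  obtain ⟨η, hη, hη1, hηn, hηn'⟩ := F5_eta n n' κ hκ
  -- the scale
  obtain ⟨δ1, hδ1, hδ1a, hδ1F, hδ1e, hδ1G⟩ : ∃ δ1 : ℝ, 0 < δ1 ∧ δ1 ≤ δa ∧ δ1 ≤ δF ∧ δ1 ≤ δe ∧
      3 * L * δ1 < δG * c0 := by
    refine ⟨min (min δa δF) (min δe (δG * c0 / (4 * L))), by positivity,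
      (min_le_left _ _).trans (min_le_left _ _), (min_le_left _ _).trans (min_le_right _ _),
      (min_le_right _ _).trans (min_le_left _ _), ?_⟩
    have h1 : min (min δa δF) (min δe (δG * c0 / (4 * L))) ≤ δG * c0 / (4 * L) :=
      (min_le_right _ _).trans (min_le_right _ _)
    have h2 : 3 * L * (δG * c0 / (4 * L)) = 3 / 4 * (δG * c0) := by
      have : L ≠ 0 := by positivity
      field_simp
    have h3 : 0 < δG * c0 := by positivity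
    calc 3 * L * min (min δa δF) (min δe (δG * c0 / (4 * L))) ≤ 3 * L * (δG * c0 / (4 * L)) := by
          gcongr
      _ < δG * c0 := by rw [h2]; linarith
  obtain ⟨δγ, hδγ, hγ⟩ := F5_γ h.hG (δ1 * η / (2 * L)) (by positivity)
  obtain ⟨t, ht0, hta, htF, hte, hsa, hsF, hse, hsm, hgC, hgs1⟩ : ∃ t : ℂ, 0 < ‖t‖ ∧ ‖t‖ < δa ∧
      ‖t‖ < δF ∧ ‖t‖ < δe ∧ (∀ C, Ka * ‖t‖ ^ (b C) ≤ δ1 * ‖t‖ ^ N) ∧
      (∀ C, KF * ‖t‖ ^ (b C) ≤ δ1 * ‖t‖ ^ N) ∧ (∀ C, 1 * ‖t‖ ^ (b C) ≤ δ1 * ‖t‖ ^ N) ∧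
      (∀ C, 1 * ‖t‖ ^ (b C) ≤ (δ1 * η / 4) * ‖t‖ ^ N) ∧
      (∀ C, ‖g C t‖ ≤ (δ1 * η / 4) * ‖t‖ ^ N) ∧
      (∀ C, ∀ t' : ℂ,
      t' ^ N = (A (pt g N C t)).2 → 0 < ‖t'‖ ∧ ‖t'‖ < min (min δG δγ) (δ1 * η / (2 * L)) ∧
        ‖(A (pt g N C t)).1‖ ≤ min (min δG δγ) (δ1 * η / (2 * L)) * ‖t'‖ ^ N ∧
        c0 * ‖t‖ ^ N ≤ ‖t'‖ ^ N ∧ ‖t'‖ ^ N ≤ L * ‖t‖ ^ N) := by
    have hn1 : ∀ δ : ℝ, 0 < δ → ∀ᶠ t in 𝓝[≠] (0:ℂ), ‖t‖ < δ := by
      intro δ hδ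
      filter_upwards [F5_normpow (N := 1) le_rfl δ hδ] with t ht
      simpa using ht
    have := ((F5_small h.hC.hb Ka δ1 hδ1).and ((F5_small h.hC.hb KF δ1 hδ1).and
      ((F5_small h.hC.hb 1 δ1 hδ1).and ((F5_small h.hC.hb 1 (δ1 * η / 4) (by positivity)).and
      ((F5_close h.hC (δ1 * η / 4) (by positivity)).and
      ((hgs (min (min δG δγ) (δ1 * η / (2 * L))) (by positivity)).and
      ((hn1 δa hδa).and ((hn1 δF hδF).and ((hn1 δe hδe).and self_mem_nhdsWithin)))))))))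
    obtain ⟨t, h1, h2, h3, h4, h5, h6, h7, h8, h9, h10⟩ := this.exists
    exact ⟨t, norm_pos_iff.2 h10, h7, h8, h9, h1, h2, h3, h4, h5, h6⟩
  set s : ℝ := δ1 * ‖t‖ ^ N with hs
  have hspos : 0 < s := by positivity
  have hηs : η * s ≤ s := mul_le_of_le_one_left hspos.le hη1
  have hηs0 : 0 ≤ η * s := (mul_pos hη hspos).le
  have hLs : s ≤ L * s := le_mul_of_one_le_left hspos.le hL
  obtain ⟨t', ht'⟩ := IsAlgClosed.exists_pow_nat_eq (A (pt g N C t)).2 (by omega : 0 < N)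
  obtain ⟨ht'0, ht'1, hx0, hct, htL⟩ := hgs1 C t' ht'
  have ht'G : ‖t'‖ < δG := ht'1.trans_le ((min_le_left _ _).trans (min_le_left _ _))
  have ht'γ : ‖t'‖ < δγ := ht'1.trans_le ((min_le_left _ _).trans (min_le_right _ _))
  set x0 := (A (pt g N C t)).1 with hx0def
  have hx0' : ‖x0‖ ≤ η * s / 2 := by
    calc ‖x0‖ ≤ (δ1 * η / (2 * L)) * ‖t'‖ ^ N := hx0.trans (by
          gcongr; exact min_le_right _ _)
      _ ≤ (δ1 * η / (2 * L)) * (L * ‖t‖ ^ N) := by gcongr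
      _ = η * s / 2 := by rw [hs]; field_simp
  have hγ' : ∀ l, ‖γ' l t'‖ ≤ η * s / 2 := by
    intro l
    calc ‖γ' l t'‖ ≤ (δ1 * η / (2 * L)) * ‖t'‖ ^ N := hγ t' ht'0 ht'γ l
      _ ≤ (δ1 * η / (2 * L)) * (L * ‖t‖ ^ N) := by gcongr
      _ = η * s / 2 := by rw [hs]; field_simp
  have hxγ : ∀ l, ‖x0 - γ' l t'‖ ≤ η * s := by
    intro l
    refine (norm_sub_le _ _).trans ?_
    linarith [hγ' l]
  have hgg : ∀ C', ‖g C t - g C' t‖ ≤ η * s / 2 := by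
    intro C'
    refine (norm_sub_le _ _).trans ?_
    have h1 := hgC C
    have h2 := hgC C'
    rw [hs]
    linarith
  have hfacE : ∀ C', s + ‖t‖ ^ (b C') + ‖g C t - g C' t‖ ≤ 2 * s := by
    intro C'
    have h1 := hsm C'
    have h2 := hgg C'
    rw [one_mul] at h1
    have h4 : (δ1 * η / 4) * ‖t‖ ^ N = η * s / 4 := by rw [hs]; ring
    linarith
  set M : ℝ := ‖t‖ ^ e * s ^ n with hM
  have hMpos : 0 < M := by positivity
  have hE : cE e m b g C s t ≤ 2 ^ n * M := by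
    unfold cE
    have h1 : ∏ C', (s + ‖t‖ ^ (b C') + ‖g C t - g C' t‖) ^ m C' ≤ ∏ C', (2 * s) ^ m C' := by
      refine Finset.prod_le_prod (fun C' _ => by positivity) (fun C' _ => ?_)
      exact pow_le_pow_left₀ (by positivity) (hfacE C') _
    rw [Finset.prod_pow_eq_pow_sum, h.hC.hmn] at h1
    calc _ ≤ ‖t‖ ^ e * (2 * s) ^ n := by gcongr
      _ = 2 ^ n * M := by rw [hM, mul_pow]; ring
  -- F side
  have hF : ∀ X : ℂ, 1 ≤ ‖X‖ → ‖X‖ ≤ 2 → ‖dx F (g C t + s * X, t ^ N) - u * t ^ e * (s * X) ^ n‖ ≤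
      κ * (2 ^ n * (1 + ‖u‖)) * M := by
    intro X hX1 hX2
    have h1 := hpF t ht0 htF C s (hsF C) (by rw [hs]; gcongr) X hX2
    have hsX : ‖(s:ℂ) * X‖ ≤ 2 * s := by
      rw [norm_mul, Complex.norm_real, Real.norm_of_nonneg hspos.le, mul_comm]; gcongr
    have hlab := hcl (fun C' => g C t + s * X - g C' t)
    have h2 := F5_pert (Finset.univ : Finset (Fin n)) (fun _ => (s:ℂ) * X)
      (fun l => g C t - g (cl l) t) (fun _ => 2 * s) η hη.le (fun _ _ => hsX)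
      (fun l _ => (hgg (cl l)).trans (by linarith))
    have h3 : ∏ l : Fin n, ((s:ℂ) * X + (g C t - g (cl l) t))
        = ∏ C', (g C t + s * X - g C' t) ^ m C' := by
      rw [← hlab]
      exact Finset.prod_congr rfl (fun l _ => by ring)
    rw [h3] at h2
    simp only [Finset.prod_const, Finset.card_univ, Fintype.card_fin] at h2
    have h4 : dx F (g C t + s * X, t ^ N) - u * t ^ e * (s * X) ^ n
        = (dx F (g C t + s * X, t ^ N) - u * t ^ e * ∏ C', (g C t + s * X - g C' t) ^ m C')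
          + u * t ^ e * (∏ C', (g C t + s * X - g C' t) ^ m C' - (s * X) ^ n) := by ring
    rw [h4]
    refine (norm_add_le _ _).trans ?_
    rw [norm_mul, norm_mul, norm_pow]
    calc _ ≤ κ * cE e m b g C s t + ‖u‖ * ‖t‖ ^ e * (((1 + η) ^ n - 1) * (2 * s) ^ n) := by
          gcongr
      _ ≤ κ * (2 ^ n * M) + ‖u‖ * ‖t‖ ^ e * (κ * (2 * s) ^ n) := by gcongr
      _ = _ := by rw [hM, mul_pow]; ring
  -- G side
  have hEh : ‖t'‖ ^ e' * s ^ n' ≤ CR * (2 ^ n * M) := by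
    have h1 := hehat t ht0 hte C s (by simpa using hse C) (by rw [hs]; gcongr) t' ht'
    unfold Ehat at h1
    have h2 : s ^ n' ≤ ∏ l : Fin n', (s + ‖x0 - γ' l t'‖) := by
      have : s ^ n' = ∏ l : Fin n', s := by simp
      rw [this]
      exact Finset.prod_le_prod (fun _ _ => hspos.le) (fun l _ => by linarith [norm_nonneg (x0 - γ' l t')])
    calc _ ≤ ‖t'‖ ^ e' * ∏ l : Fin n', (s + ‖x0 - γ' l t'‖) := by gcongr
      _ ≤ CR * cE e m b g C s t := h1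
      _ ≤ _ := by gcongr
  have hGs : ∀ y : ℂ, ‖y‖ ≤ 2 * (L * s) →
      ‖dx G (x0 + y, t' ^ N) - u' * t' ^ e' * y ^ n'‖ ≤
      κ * (CR * 2 ^ n * ((3 * L) ^ n' + ‖u'‖ * (2 * L) ^ n')) * M := by
    intro y hy
    have hxs : ‖x0‖ ≤ L * s := by linarith
    have hx : ‖x0 + y‖ < δG * ‖t'‖ ^ N := by
      calc ‖x0 + y‖ ≤ ‖x0‖ + ‖y‖ := norm_add_le _ _
        _ ≤ 3 * L * δ1 * ‖t‖ ^ N := by rw [hs] at hxs hy; linarith
        _ < δG * c0 * ‖t‖ ^ N := by gcongr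
        _ = δG * (c0 * ‖t‖ ^ N) := by ring
        _ ≤ δG * ‖t'‖ ^ N := by gcongr
    have h1 := hfac (x0 + y) t' ht'0 ht'G hx
    have h2 := F5_pert (Finset.univ : Finset (Fin n')) (fun _ => y)
      (fun l => x0 - γ' l t') (fun _ => 2 * (L * s)) η hη.le (fun _ _ => hy)
      (fun l _ => (hxγ l).trans (by
        have h0 : η * s ≤ η * (L * s) := by gcongr
        linarith))
    have h3 : ∏ l : Fin n', (y + (x0 - γ' l t')) = ∏ l, (x0 + y - γ' l t') :=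
      Finset.prod_congr rfl (fun l _ => by ring)
    rw [h3] at h2
    simp only [Finset.prod_const, Finset.card_univ, Fintype.card_fin] at h2
    have h5 : ∏ l, ‖x0 + y - γ' l t'‖ ≤ (3 * L * s) ^ n' := by
      have h6 : ∏ l, ‖x0 + y - γ' l t'‖ ≤ ∏ l : Fin n', (3 * L * s) := by
        refine Finset.prod_le_prod (fun _ _ => norm_nonneg _) (fun l _ => ?_)
        have h7 : x0 + y - γ' l t' = y + (x0 - γ' l t') := by ring
        rw [h7]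
        refine (norm_add_le _ _).trans ?_
        have := hxγ l
        linarith
      simpa using h6
    have h4 : dx G (x0 + y, t' ^ N) - u' * t' ^ e' * y ^ n'
        = (dx G (x0 + y, t' ^ N) - u' * t' ^ e' * ∏ l, (x0 + y - γ' l t'))
          + u' * t' ^ e' * (∏ l, (x0 + y - γ' l t') - y ^ n') := by ring
    rw [h4]
    refine (norm_add_le _ _).trans ?_
    rw [norm_mul, norm_mul, norm_pow]
    calc _ ≤ κ * (‖t'‖ ^ e' * (3 * L * s) ^ n')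
          + ‖u'‖ * ‖t'‖ ^ e' * (((1 + η) ^ n' - 1) * (2 * (L * s)) ^ n') := by
          refine add_le_add (h1.trans ?_) ?_
          · gcongr
          · gcongr
      _ ≤ κ * (‖t'‖ ^ e' * (3 * L * s) ^ n')
          + ‖u'‖ * ‖t'‖ ^ e' * (κ * (2 * (L * s)) ^ n') := by gcongr
      _ = κ * ((3 * L) ^ n' + ‖u'‖ * (2 * L) ^ n') * (‖t'‖ ^ e' * s ^ n') := by
          rw [mul_pow (3 * L) s, show 2 * (L * s) = (2 * L) * s by ring, mul_pow (2 * L) s]; ring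
      _ ≤ κ * ((3 * L) ^ n' + ‖u'‖ * (2 * L) ^ n') * (CR * (2 ^ n * M)) := by gcongr
      _ = _ := by ring
  obtain ⟨α, hα0, hαL, -, hα2⟩ := haf t ht0 hta C s (hsa C) (by rw [hs]; gcongr)
  have hfin : ∀ X : ℂ, 1 ≤ ‖X‖ → ‖X‖ ≤ 2 →
      ‖u * t ^ e * (s * X) ^ n - α * (u' * t' ^ e' * (α * (s * X)) ^ n')‖ ≤ κ * H * M := by
    intro X hX1 hX2
    have h1 := hF X hX1 hX2
    have h2 := hα2 X hX2
    have hsX : ‖(s:ℂ) * X‖ ≤ 2 * s := by
      rw [norm_mul, Complex.norm_real, Real.norm_of_nonneg hspos.le, mul_comm]; gcongr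
    have hy : ‖α * (s * X)‖ ≤ 2 * (L * s) := by
      rw [norm_mul]
      calc ‖α‖ * ‖(s:ℂ) * X‖ ≤ L * (2 * s) := by gcongr
        _ = _ := by ring
    have h3 := hGs (α * (s * X)) hy
    rw [ht'] at h3
    have h4 : u * t ^ e * (s * X) ^ n - α * (u' * t' ^ e' * (α * (s * X)) ^ n')
        = -(dx F (g C t + s * X, t ^ N) - u * t ^ e * (s * X) ^ n)
          + (dx F (g C t + s * X, t ^ N) - α * dx G (x0 + α * (s * X), (A (pt g N C t)).2))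
          + α * (dx G (x0 + α * (s * X), (A (pt g N C t)).2)
            - u' * t' ^ e' * (α * (s * X)) ^ n') := by ring
    rw [h4]
    refine (norm_add_le _ _).trans ?_
    refine (add_le_add (norm_add_le _ _) le_rfl).trans ?_
    rw [norm_neg, norm_mul α]
    calc _ ≤ κ * (2 ^ n * (1 + ‖u‖)) * M + κ * cE e m b g C s t
          + L * (κ * (CR * 2 ^ n * ((3 * L) ^ n' + ‖u'‖ * (2 * L) ^ n')) * M) := by
          gcongr
      _ ≤ κ * (2 ^ n * (1 + ‖u‖)) * M + κ * (2 ^ n * M)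
          + L * (κ * (CR * 2 ^ n * ((3 * L) ^ n' + ‖u'‖ * (2 * L) ^ n')) * M) := by gcongr
      _ = κ * H * M := by rw [hH]; ring
  have hf1 := hfin 1 (by simp) (by simp)
  have hf2 := hfin 2 (by simp) (by simp)
  have hP : ‖u * t ^ e * (s:ℂ) ^ n‖ = ‖u‖ * M := by
    rw [norm_mul, norm_mul, norm_pow, norm_pow, Complex.norm_real, Real.norm_of_nonneg hspos.le,
      hM]; ring
  have hfinal := F5_two hne (P := u * t ^ e * (s:ℂ) ^ n)
    (Q := α * (u' * t' ^ e' * (α * s) ^ n')) (κ := κ * H * M) (by simpa using hf1) (by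
      have : 2 ^ n * (u * t ^ e * (s:ℂ) ^ n) - 2 ^ n' * (α * (u' * t' ^ e' * (α * s) ^ n'))
        = u * t ^ e * (s * 2) ^ n - α * (u' * t' ^ e' * (α * (s * 2)) ^ n') := by
        rw [mul_pow (s:ℂ) 2, ← mul_assoc α (s:ℂ) 2, mul_pow (α * (s:ℂ)) 2]; ring
      rw [this]; exact hf2)
  rw [hP] at hfinal
  have h9 : (1 + 2 ^ n') * (κ * H * M) = ((1 + 2 ^ n') * (κ * H)) * M := by ring
  rw [h9] at hfinal
  have := le_of_mul_le_mul_right hfinal hMpos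
  linarith

end H24.LS
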