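import Pool.Agent.H24.LS.P0
import Pool.Agent.H24.LS.V0
import Pool.Agent.H24.LS.F0
import Pool.Agent.H24.LS.F4
import Pool.Agent.H24.LS.F5

/-!
# F7: the arcs of `G` are distributed over the clusters of `F`

`rt N τ t y` = the `N`-th root of `y` near `τ t`; `T0 A g N τ C t` = the root of `(A (pt g N C t)).2`.
By `hlim`, `y0/(τ t)^N → 1` so `T0 C t/(τ t) → 1`, `(T0 C t)^N = y0` and `T0 C` is continuous near `0`
off `0` (principal power near `1`, `A` continuous).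

Proof.  Let `K0` be from `rc2`.  For `l : Fin n` and `C` the function
`r(t) = ‖(A (pt g N C t)).1 - γ' l (T0 C t)‖/‖t‖^(b C)` is continuous near `0` off `0` and by `rc2` (with `M = K0 + 1`)
it avoids `(K0, K0+1)`; by connectedness of small punctured discs (`punctured_preconnected`) either
`r ≤ K0` for all small `t` (write `l ∈ S_C`) or `r ≥ M` for all small `t`; and in the second case for EVERY `M` we
have `r ≥ M` eventually (`rc2` with larger `M`).  `card S_C = m C`.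
Disjointness: let `l ∈ S_C ∩ S_C'`, `C ≠ C'`, `d = ‖g C t - g C' t‖`.  `‖γ' l (T0 C t) - γ' l (T0 C' t)‖` is `o(d)`:
`‖(T0 C)^N - (T0 C')^N‖ = ‖(A pt C).2 - (A pt C').2‖ ≤ L d`, so `‖T0 C - T0 C'‖ ‖t‖^(N-1) ≤ K d` (both are the root
near `τ t`; `root_near` at `T0 C` and uniqueness of the root near `τ t`), `slow_small` for `γ'`.
So `‖(A pt C).1 - (A pt C').1‖ ≤ o(d) + K0 (‖t‖^(b C) + ‖t‖^(b C')) = o(d)` (`sep`), contradicting `aff` at scale `s = d`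
(`R = 1`, `X = (g C' - g C)/d`, `ε = a0/4`): `‖(A pt C').1 - (A pt C).1‖ ≥ (a0 - ε) d`.
`Σ card S_C = Σ m C = n`, so the disjoint sets `S_C` cover `Fin n`; define `cl' l` = the `C` with `l ∈ S_C`.
-/

open Filter Topology Metric Asymptotics

namespace H24.LS

/-- the `N`-th root of `y` near `τ t` -/
noncomputable def rt (N : ℕ) (τ t y : ℂ) : ℂ := τ * t * (y / (τ * t) ^ N) ^ ((1 : ℂ) / N)

noncomputable def T0 {c : ℕ} (A : ℂ × ℂ → ℂ × ℂ) (g : Fin c → ℂ → ℂ) (N : ℕ) (τ : ℂ) (C : Fin c)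
    (t : ℂ) : ℂ := rt N τ t (A (pt g N C t)).2

section aux

variable {F G : ℂ × ℂ → ℂ} {k n n' N : ℕ} {u u' : ℂ} {c : ℕ} {m : Fin c → ℕ}
    {b : Fin c → ℝ} {g v : Fin c → ℂ → ℂ} {a : Fin c → ℂ} {D : Fin c → ℕ}
    {γ' : Fin n' → ℂ → ℂ} {A B : ℂ × ℂ → ℂ × ℂ} {L ρ : ℝ}

theorem F7_ev {P : ℂ → Prop} :
    (∀ᶠ t in 𝓝[≠] (0 : ℂ), P t) ↔ ∃ δ > (0 : ℝ), ∀ t : ℂ, 0 < ‖t‖ → ‖t‖ < δ → P t := by
  rw [eventually_nhdsWithin_iff, Metric.eventually_nhds_iff]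
  constructor
  · rintro ⟨δ, hδ, h⟩
    refine ⟨δ, hδ, fun t h0 h1 => h (by simpa using h1) ?_⟩
    simpa using norm_pos_iff.1 h0
  · rintro ⟨δ, hδ, h⟩
    refine ⟨δ, hδ, fun t h0 h1 => h t (norm_pos_iff.2 (by simpa using h1)) (by simpa using h0)⟩

theorem F7_pow_tendsto {N : ℕ} (hN : 1 ≤ N) :
    Tendsto (fun t : ℂ => t ^ N) (𝓝[≠] 0) (𝓝 0) := by
  have h1 : Tendsto (fun t : ℂ => t ^ N) (𝓝 0) (𝓝 (0 ^ N)) := (continuous_pow N).tendsto 0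
  rw [zero_pow (by omega)] at h1
  exact h1.mono_left nhdsWithin_le_nhds

theorem F7_pt_tendsto (h : Mat F G k n n' N u u' c m b g v a D γ' A B L ρ) (C : Fin c) :
    Tendsto (pt g N C) (𝓝[≠] 0) (𝓝 0) := by
  have h2 := F7_pow_tendsto h.hC.hN
  have h3 : Tendsto (g C) (𝓝[≠] 0) (𝓝 0) := (h.hC.gsm C).isBigO.trans_tendsto h2
  have h4 := h3.prodMk_nhds h2
  exact h4

theorem F7_Acont (h : Mat F G k n n' N u u' c m b g v a D γ' A B L ρ) (C : Fin c) :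
    ∀ᶠ t in 𝓝[≠] (0 : ℂ), ContinuousAt (fun t => A (pt g N C t)) t := by
  have h1 : ∀ᶠ t in 𝓝[≠] (0 : ℂ), pt g N C t ∈ ball (0 : ℂ × ℂ) ρ :=
    (F7_pt_tendsto h C).eventually (isOpen_ball.mem_nhds (mem_ball_self h.hco.hρ))
  have h2 : ∀ᶠ t in 𝓝[≠] (0 : ℂ), AnalyticAt ℂ (g C) t :=
    nhdsWithin_le_nhds (h.hC.gan C).eventually_analyticAt
  have hA : LipschitzOnWith (Real.toNNReal L) A (ball 0 ρ) := by
    refine LipschitzOnWith.of_dist_le_mul fun p hp q hq => ?_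
    rw [dist_eq_norm, dist_eq_norm, Real.coe_toNNReal _ (zero_le_one.trans h.hco.hL)]
    exact h.hco.lipA p hp q hq
  filter_upwards [h1, h2] with t ht1 ht2
  have h3 : ContinuousAt (pt g N C) t :=
    ht2.continuousAt.prodMk (continuous_pow N).continuousAt
  exact ContinuousAt.comp (g := A) (hA.continuousOn.continuousAt (isOpen_ball.mem_nhds ht1)) h3

theorem F7_z (h : Mat F G k n n' N u u' c m b g v a D γ' A B L ρ) (ω τ : ℂ)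
    (hω : ω ≠ 0) (hτ : τ ^ N = ω)
    (hlim : ∀ C, Tendsto (fun t : ℂ => (A (pt g N C t)).2 / t ^ N) (𝓝[≠] 0) (𝓝 ω)) (C : Fin c) :
    Tendsto (fun t => (A (pt g N C t)).2 / (τ * t) ^ N) (𝓝[≠] 0) (𝓝 1) := by
  have h1 := (hlim C).div_const ω
  rw [div_self hω] at h1
  refine h1.congr fun t => ?_
  rw [mul_pow, hτ, div_div, mul_comm]

theorem F7_props (h : Mat F G k n n' N u u' c m b g v a D γ' A B L ρ) (ω τ : ℂ)
    (hω : ω ≠ 0) (hτ : τ ^ N = ω)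
    (hlim : ∀ C, Tendsto (fun t : ℂ => (A (pt g N C t)).2 / t ^ N) (𝓝[≠] 0) (𝓝 ω)) (C : Fin c) :
    Tendsto (fun t => T0 A g N τ C t / t) (𝓝[≠] 0) (𝓝 τ) ∧
    (∀ᶠ t in 𝓝[≠] (0 : ℂ), T0 A g N τ C t ^ N = (A (pt g N C t)).2) ∧
    ∀ᶠ t in 𝓝[≠] (0 : ℂ), ContinuousAt (T0 A g N τ C) t := by
  have hN : N ≠ 0 := by have := h.hC.hN; omega
  have hτ0 : τ ≠ 0 := by
    rintro rfl
    rw [zero_pow hN] at hτ
    exact hω hτ.symm
  have hz := F7_z h ω τ hω hτ hlim C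
  have h1s : (1 : ℂ) ∈ Complex.slitPlane := by simp
  have hcp : ContinuousAt (fun z : ℂ => z ^ ((1 : ℂ) / N)) 1 := continuousAt_cpow_const h1s
  have hne : ∀ᶠ t in 𝓝[≠] (0 : ℂ), t ≠ 0 := self_mem_nhdsWithin
  refine ⟨?_, ?_, ?_⟩
  · have h1 : Tendsto (fun t => ((A (pt g N C t)).2 / (τ * t) ^ N) ^ ((1 : ℂ) / N)) (𝓝[≠] 0)
        (𝓝 (1 ^ ((1 : ℂ) / N))) := hcp.tendsto.comp hz
    rw [Complex.one_cpow] at h1
    have h2 := h1.const_mul τ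
    rw [mul_one] at h2
    refine h2.congr' ?_
    filter_upwards [hne] with t ht
    unfold T0 rt
    field_simp
  · filter_upwards [hne] with t ht
    unfold T0 rt
    rw [mul_pow, one_div, Complex.cpow_nat_inv_pow _ hN]
    have : (τ * t) ^ N ≠ 0 := pow_ne_zero _ (mul_ne_zero hτ0 ht)
    field_simp
  · have hsl : ∀ᶠ t in 𝓝[≠] (0 : ℂ),
        (A (pt g N C t)).2 / (τ * t) ^ N ∈ Complex.slitPlane :=
      hz.eventually (Complex.isOpen_slitPlane.mem_nhds h1s)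
    filter_upwards [hne, hsl, F7_Acont h C] with t ht hs hA
    have h2 : ContinuousAt (fun t => (A (pt g N C t)).2) t :=
      ContinuousAt.comp (g := Prod.snd) continuous_snd.continuousAt hA
    have h3 : ContinuousAt (fun t : ℂ => (τ * t) ^ N) t := by fun_prop
    have h4 : ContinuousAt (fun t => (A (pt g N C t)).2 / (τ * t) ^ N) t :=
      h2.div h3 (pow_ne_zero _ (mul_ne_zero hτ0 ht))
    have h5 : ContinuousAt (fun t => ((A (pt g N C t)).2 / (τ * t) ^ N) ^ ((1 : ℂ) / N)) t :=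
      ContinuousAt.comp (g := fun z : ℂ => z ^ ((1 : ℂ) / N)) (continuousAt_cpow_const hs) h4
    have h6 : ContinuousAt (fun t : ℂ => τ * t) t := by fun_prop
    exact h6.mul h5

theorem F7_T0_tendsto (h : Mat F G k n n' N u u' c m b g v a D γ' A B L ρ) (ω τ : ℂ)
    (hω : ω ≠ 0) (hτ : τ ^ N = ω)
    (hlim : ∀ C, Tendsto (fun t : ℂ => (A (pt g N C t)).2 / t ^ N) (𝓝[≠] 0) (𝓝 ω)) (C : Fin c) :
    Tendsto (T0 A g N τ C) (𝓝[≠] 0) (𝓝 0) := by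
  have h1 := (F7_props h ω τ hω hτ hlim C).1
  have h2 : Tendsto (fun t : ℂ => t) (𝓝[≠] 0) (𝓝 0) :=
    (continuous_id.tendsto (0 : ℂ)).mono_left nhdsWithin_le_nhds
  have h3 := h1.mul h2
  rw [mul_zero] at h3
  refine h3.congr' ?_
  have hne : ∀ᶠ t in 𝓝[≠] (0 : ℂ), t ≠ 0 := self_mem_nhdsWithin
  filter_upwards [hne] with t ht
  field_simp

/-- the distance to the arc -/
noncomputable def F7_r (A : ℂ × ℂ → ℂ × ℂ) (g : Fin c → ℂ → ℂ) (N : ℕ) (τ : ℂ)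
    (γ' : Fin n' → ℂ → ℂ) (l : Fin n') (C : Fin c) (t : ℂ) : ℝ :=
  ‖(A (pt g N C t)).1 - γ' l (T0 A g N τ C t)‖

theorem F7_cont (h : Mat F G k n n' N u u' c m b g v a D γ' A B L ρ) (ω τ : ℂ)
    (hω : ω ≠ 0) (hτ : τ ^ N = ω)
    (hlim : ∀ C, Tendsto (fun t : ℂ => (A (pt g N C t)).2 / t ^ N) (𝓝[≠] 0) (𝓝 ω))
    (l : Fin n') (C : Fin c) :
    ∀ᶠ t in 𝓝[≠] (0 : ℂ), ContinuousAt (fun t => F7_r A g N τ γ' l C t / ‖t‖ ^ (b C)) t := by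
  have hne : ∀ᶠ t in 𝓝[≠] (0 : ℂ), t ≠ 0 := self_mem_nhdsWithin
  have h1 : ∀ᶠ t in 𝓝[≠] (0 : ℂ), AnalyticAt ℂ (γ' l) (T0 A g N τ C t) :=
    (F7_T0_tendsto h ω τ hω hτ hlim C).eventually (h.hG.γan l).eventually_analyticAt
  filter_upwards [hne, h1, F7_Acont h C, (F7_props h ω τ hω hτ hlim C).2.2] with t ht h2 h3 h4
  have h5 : ContinuousAt (fun t => (A (pt g N C t)).1) t :=
    ContinuousAt.comp (g := Prod.fst) continuous_fst.continuousAt h3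
  have h6 : ContinuousAt (fun t => γ' l (T0 A g N τ C t)) t :=
    ContinuousAt.comp (g := γ' l) h2.continuousAt h4
  have h7 : ContinuousAt (fun t : ℂ => ‖t‖ ^ (b C)) t :=
    continuous_norm.continuousAt.rpow_const (Or.inl (norm_ne_zero_iff.2 ht))
  exact (h5.sub h6).norm.div h7 (Real.rpow_pos_of_pos (norm_pos_iff.2 ht) _).ne'

theorem F7_dich {f : ℂ → ℝ} (hf : ∀ᶠ t in 𝓝[≠] (0 : ℂ), ContinuousAt f t) {K0 : ℝ}
    (h : ∀ᶠ t in 𝓝[≠] (0 : ℂ), f t ≤ K0 ∨ K0 + 1 ≤ f t) :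
    (∀ᶠ t in 𝓝[≠] (0 : ℂ), f t ≤ K0) ∨ (∀ᶠ t in 𝓝[≠] (0 : ℂ), K0 + 1 ≤ f t) := by
  obtain ⟨δ, hδ, hh⟩ := F7_ev.1 (hf.and h)
  by_cases h1 : ∀ t : ℂ, 0 < ‖t‖ → ‖t‖ < δ → f t ≤ K0
  · exact Or.inl (F7_ev.2 ⟨δ, hδ, h1⟩)
  · right
    push Not at h1
    obtain ⟨t1, ht1, ht1', hf1⟩ := h1
    refine F7_ev.2 ⟨δ, hδ, fun t ht ht' => ?_⟩
    by_contra hc
    have hft : f t ≤ K0 := by
      rcases (hh t ht ht').2 with h2 | h2
      · exact h2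
      · exact absurd h2 hc
    have hft1 : K0 + 1 ≤ f t1 := by
      rcases (hh t1 ht1 ht1').2 with h2 | h2
      · exact absurd h2 (not_le.2 hf1)
      · exact h2
    have hcont : ContinuousOn f {t : ℂ | 0 < ‖t‖ ∧ ‖t‖ < δ} :=
      fun s hs => ((hh s hs.1 hs.2).1).continuousWithinAt
    obtain ⟨s, hs, hs2⟩ := (punctured_preconnected δ).intermediate_value
      (show t ∈ {t : ℂ | 0 < ‖t‖ ∧ ‖t‖ < δ} from ⟨ht, ht'⟩)
      (show t1 ∈ {t : ℂ | 0 < ‖t‖ ∧ ‖t‖ < δ} from ⟨ht1, ht1'⟩) hcont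
      (show K0 + 1 / 2 ∈ Set.Icc (f t) (f t1) from ⟨by linarith, by linarith⟩)
    rcases (hh s hs.1 hs.2).2 with h2 | h2
    · linarith
    · linarith

/-- the arcs are either close to or far from the image of a centre -/
theorem F7_K0 (h : Mat F G k n n' N u u' c m b g v a D γ' A B L ρ) (ω τ : ℂ)
    (hω : ω ≠ 0) (hτ : τ ^ N = ω)
    (hlim : ∀ C, Tendsto (fun t : ℂ => (A (pt g N C t)).2 / t ^ N) (𝓝[≠] 0) (𝓝 ω)) :
    ∃ K0 > (0 : ℝ), ∀ C : Fin c, ∃ S : Finset (Fin n'), S.card = m C ∧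
      (∀ l ∈ S, ∀ᶠ t in 𝓝[≠] (0 : ℂ), F7_r A g N τ γ' l C t ≤ K0 * ‖t‖ ^ (b C)) ∧
      (∀ l, l ∉ S → ∀ M > (0 : ℝ), ∀ᶠ t in 𝓝[≠] (0 : ℂ),
        M * ‖t‖ ^ (b C) ≤ F7_r A g N τ γ' l C t) := by
  classical
  obtain ⟨K0, hK0, hrc⟩ := rc2 h
  refine ⟨K0, hK0, fun C => ?_⟩
  have hne : ∀ᶠ t in 𝓝[≠] (0 : ℂ), t ≠ 0 := self_mem_nhdsWithin
  have hT := (F7_props h ω τ hω hτ hlim C).2.1
  have hM : ∀ M > (0 : ℝ), ∀ᶠ t in 𝓝[≠] (0 : ℂ),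
      (Finset.univ.filter (fun l => F7_r A g N τ γ' l C t ≤ K0 * ‖t‖ ^ (b C))).card = m C ∧
      ∀ l, F7_r A g N τ γ' l C t ≤ K0 * ‖t‖ ^ (b C) ∨
        M * ‖t‖ ^ (b C) ≤ F7_r A g N τ γ' l C t := by
    intro M hMpos
    obtain ⟨δ, hδ, h1⟩ := hrc M hMpos
    have h2 : ∀ᶠ t in 𝓝[≠] (0 : ℂ), 0 < ‖t‖ ∧ ‖t‖ < δ :=
      F7_ev.2 ⟨δ, hδ, fun t h3 h4 => ⟨h3, h4⟩⟩
    filter_upwards [h2, hT] with t ht ht2
    have h3 := h1 t ht.1 ht.2 C _ ht2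
    refine ⟨?_, h3.2⟩
    rw [← h3.1]
    congr 1
  have hdich : ∀ l, (∀ᶠ t in 𝓝[≠] (0 : ℂ), F7_r A g N τ γ' l C t ≤ K0 * ‖t‖ ^ (b C)) ∨
      (∀ᶠ t in 𝓝[≠] (0 : ℂ), (K0 + 1) * ‖t‖ ^ (b C) ≤ F7_r A g N τ γ' l C t) := by
    intro l
    have h1 := F7_dich (K0 := K0) (F7_cont h ω τ hω hτ hlim l C) (by
      filter_upwards [hne, hM (K0 + 1) (by linarith)] with t ht h2
      have hpos : 0 < ‖t‖ ^ (b C) := Real.rpow_pos_of_pos (norm_pos_iff.2 ht) _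
      rcases h2.2 l with h3 | h3
      · left; rw [div_le_iff₀ hpos]; exact h3
      · right; rw [le_div_iff₀ hpos]; exact h3)
    rcases h1 with h1 | h1
    · left
      filter_upwards [hne, h1] with t ht h2
      have hpos : 0 < ‖t‖ ^ (b C) := Real.rpow_pos_of_pos (norm_pos_iff.2 ht) _
      rwa [div_le_iff₀ hpos] at h2
    · right
      filter_upwards [hne, h1] with t ht h2
      have hpos : 0 < ‖t‖ ^ (b C) := Real.rpow_pos_of_pos (norm_pos_iff.2 ht) _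
      rwa [le_div_iff₀ hpos] at h2
  refine ⟨Finset.univ.filter
    (fun l => ∀ᶠ t in 𝓝[≠] (0 : ℂ), F7_r A g N τ γ' l C t ≤ K0 * ‖t‖ ^ (b C)), ?_, ?_, ?_⟩
  · -- the cardinality, at one small `t`
    have h1 : ∀ᶠ t in 𝓝[≠] (0 : ℂ), ∀ l,
        ((∀ᶠ t in 𝓝[≠] (0 : ℂ), F7_r A g N τ γ' l C t ≤ K0 * ‖t‖ ^ (b C)) ↔
          F7_r A g N τ γ' l C t ≤ K0 * ‖t‖ ^ (b C)) := by
      rw [eventually_all]
      intro l
      by_cases hl : ∀ᶠ t in 𝓝[≠] (0 : ℂ), F7_r A g N τ γ' l C t ≤ K0 * ‖t‖ ^ (b C)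
      · filter_upwards [hl] with t ht
        exact ⟨fun _ => ht, fun _ => hl⟩
      · have h2 := (hdich l).resolve_left hl
        filter_upwards [h2, hne] with t ht ht0
        have hpos : 0 < ‖t‖ ^ (b C) := Real.rpow_pos_of_pos (norm_pos_iff.2 ht0) _
        refine ⟨fun h3 => absurd h3 hl, fun h3 => ?_⟩
        nlinarith
    obtain ⟨t, ht1, ht2⟩ := (h1.and (hM 1 one_pos)).exists
    rw [← ht2.1]
    congr 1
    ext l
    simp only [Finset.mem_filter, Finset.mem_univ, true_and]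
    exact ht1 l
  · intro l hl
    exact (Finset.mem_filter.1 hl).2
  · intro l hl M hMpos
    have hl' : ¬ ∀ᶠ t in 𝓝[≠] (0 : ℂ), F7_r A g N τ γ' l C t ≤ K0 * ‖t‖ ^ (b C) :=
      fun h1 => hl (Finset.mem_filter.2 ⟨Finset.mem_univ _, h1⟩)
    have h2 := (hdich l).resolve_left hl'
    filter_upwards [h2, hne, hM M hMpos] with t ht ht0 h3
    have hpos : 0 < ‖t‖ ^ (b C) := Real.rpow_pos_of_pos (norm_pos_iff.2 ht0) _
    rcases h3.2 l with h4 | h4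
    · nlinarith
    · exact h4

/-- the two roots differ by `O(d / ‖t‖^(N-1))` -/
theorem F7_root (h : Mat F G k n n' N u u' c m b g v a D γ' A B L ρ) (ω τ : ℂ)
    (hω : ω ≠ 0) (hτ : τ ^ N = ω)
    (hlim : ∀ C, Tendsto (fun t : ℂ => (A (pt g N C t)).2 / t ^ N) (𝓝[≠] 0) (𝓝 ω))
    (C C' : Fin c) : ∃ K > (0 : ℝ), ∀ᶠ t in 𝓝[≠] (0 : ℂ),
      ‖T0 A g N τ C t - T0 A g N τ C' t‖ * ‖t‖ ^ (N - 1) ≤ K * ‖g C t - g C' t‖ := by
  have hN0 : N ≠ 0 := by have := h.hC.hN; omega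
  have hτ0 : τ ≠ 0 := by
    rintro rfl
    rw [zero_pow hN0] at hτ
    exact hω hτ.symm
  have hne : ∀ᶠ t in 𝓝[≠] (0 : ℂ), t ≠ 0 := self_mem_nhdsWithin
  obtain ⟨h1, h2, -⟩ := F7_props h ω τ hω hτ hlim C
  obtain ⟨h1', h2', -⟩ := F7_props h ω τ hω hτ hlim C'
  -- the geometric sum
  have hsum : Tendsto (fun t => ∑ i ∈ Finset.range N, (T0 A g N τ C t / t) ^ i *
      (T0 A g N τ C' t / t) ^ (N - 1 - i)) (𝓝[≠] 0) (𝓝 (N * τ ^ (N - 1))) := by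
    have h3 : Tendsto (fun t => ∑ i ∈ Finset.range N, (T0 A g N τ C t / t) ^ i *
        (T0 A g N τ C' t / t) ^ (N - 1 - i)) (𝓝[≠] 0)
        (𝓝 (∑ i ∈ Finset.range N, τ ^ i * τ ^ (N - 1 - i))) :=
      tendsto_finsetSum _ fun i _ => (h1.pow i).mul (h1'.pow (N - 1 - i))
    have h4 : ∑ i ∈ Finset.range N, τ ^ i * τ ^ (N - 1 - i) = N * τ ^ (N - 1) := by
      have h5 : ∀ i ∈ Finset.range N, τ ^ i * τ ^ (N - 1 - i) = τ ^ (N - 1) := by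
        intro i hi
        rw [← pow_add]
        congr 1
        have := Finset.mem_range.1 hi
        omega
      rw [Finset.sum_congr rfl h5]
      simp
    rwa [h4] at h3
  have hpos : 0 < ‖(N : ℂ) * τ ^ (N - 1)‖ := by
    rw [norm_pos_iff]
    exact mul_ne_zero (Nat.cast_ne_zero.2 hN0) (pow_ne_zero _ hτ0)
  set κ : ℝ := ‖(N : ℂ) * τ ^ (N - 1)‖ with hκ
  have hlow : ∀ᶠ t in 𝓝[≠] (0 : ℂ), κ / 2 < ‖∑ i ∈ Finset.range N, (T0 A g N τ C t / t) ^ i *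
      (T0 A g N τ C' t / t) ^ (N - 1 - i)‖ :=
    hsum.norm.eventually (lt_mem_nhds (by linarith))
  have hb1 : ∀ᶠ t in 𝓝[≠] (0 : ℂ), pt g N C t ∈ ball (0 : ℂ × ℂ) ρ :=
    (F7_pt_tendsto h C).eventually (isOpen_ball.mem_nhds (mem_ball_self h.hco.hρ))
  have hb2 : ∀ᶠ t in 𝓝[≠] (0 : ℂ), pt g N C' t ∈ ball (0 : ℂ × ℂ) ρ :=
    (F7_pt_tendsto h C').eventually (isOpen_ball.mem_nhds (mem_ball_self h.hco.hρ))
  have hLpos : 0 < L := lt_of_lt_of_le one_pos h.hco.hL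
  refine ⟨2 * L / κ, by positivity, ?_⟩
  filter_upwards [hne, h2, h2', hlow, hb1, hb2] with t ht e1 e2 hl hp1 hp2
  set x := T0 A g N τ C t with hx
  set y := T0 A g N τ C' t with hy
  have hd : ‖x ^ N - y ^ N‖ ≤ L * ‖g C t - g C' t‖ := by
    rw [e1, e2]
    have h5 := h.hco.lipA _ hp1 _ hp2
    have h6 : ‖pt g N C t - pt g N C' t‖ = ‖g C t - g C' t‖ := by
      unfold pt
      rw [Prod.mk_sub_mk, sub_self, Prod.norm_mk, norm_zero]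
      exact max_eq_left (norm_nonneg _)
    rw [h6] at h5
    exact (norm_snd_le (A (pt g N C t) - A (pt g N C' t))).trans h5
  have hg : (∑ i ∈ Finset.range N, x ^ i * y ^ (N - 1 - i)) * (x - y) = x ^ N - y ^ N :=
    (Commute.all x y).geom_sum₂_mul N
  have hs : ∑ i ∈ Finset.range N, x ^ i * y ^ (N - 1 - i) =
      t ^ (N - 1) * ∑ i ∈ Finset.range N, (x / t) ^ i * (y / t) ^ (N - 1 - i) := by
    rw [Finset.mul_sum]
    refine Finset.sum_congr rfl fun i hi => ?_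
    have hi' := Finset.mem_range.1 hi
    have h7 : t ^ (N - 1) = t ^ i * t ^ (N - 1 - i) := by
      rw [← pow_add]; congr 1; omega
    rw [h7, div_pow, div_pow]
    field_simp
  rw [← hg, hs, norm_mul, norm_mul, norm_pow] at hd
  set s := ‖∑ i ∈ Finset.range N, (x / t) ^ i * (y / t) ^ (N - 1 - i)‖ with hsdef
  have h8 : ‖t‖ ^ (N - 1) * (κ / 2) * ‖x - y‖ ≤ L * ‖g C t - g C' t‖ := by
    refine le_trans ?_ hd
    gcongr
  rw [div_mul_eq_mul_div, le_div_iff₀ hpos]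
  nlinarith

/-- the arc is almost the same at the two roots -/
theorem F7_slow (h : Mat F G k n n' N u u' c m b g v a D γ' A B L ρ) (ω τ : ℂ)
    (hω : ω ≠ 0) (hτ : τ ^ N = ω)
    (hlim : ∀ C, Tendsto (fun t : ℂ => (A (pt g N C t)).2 / t ^ N) (𝓝[≠] 0) (𝓝 ω))
    (C C' : Fin c) (l : Fin n') : ∀ ε > (0 : ℝ), ∀ᶠ t in 𝓝[≠] (0 : ℂ),
      ‖γ' l (T0 A g N τ C' t) - γ' l (T0 A g N τ C t)‖ ≤ ε * ‖g C t - g C' t‖ := by
  intro ε hε
  have hN0 : N ≠ 0 := by have := h.hC.hN; omega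
  have hτ0 : τ ≠ 0 := by
    rintro rfl
    rw [zero_pow hN0] at hτ
    exact hω hτ.symm
  have hne : ∀ᶠ t in 𝓝[≠] (0 : ℂ), t ≠ 0 := self_mem_nhdsWithin
  obtain ⟨K, hK, hroot⟩ := F7_root h ω τ hω hτ hlim C C'
  obtain ⟨h1, -, -⟩ := F7_props h ω τ hω hτ hlim C
  obtain ⟨h1', -, -⟩ := F7_props h ω τ hω hτ hlim C'
  have hτpos : 0 < ‖τ‖ := norm_pos_iff.2 hτ0
  set q : ℝ := (2 * ‖τ‖) ^ (N - 1) with hq
  have hqpos : 0 < q := by positivity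
  obtain ⟨δ, hδ, hsl⟩ := slow_small N h.hC.hN (γ' l) (h.hG.γan l) (h.hG.γsm l) (ε / (q * K))
    (by positivity)
  have hsm : ∀ᶠ t in 𝓝[≠] (0 : ℂ), ‖T0 A g N τ C t‖ < δ := by
    have h2 := (F7_T0_tendsto h ω τ hω hτ hlim C).norm
    rw [norm_zero] at h2
    exact h2.eventually (gt_mem_nhds hδ)
  have hup : ∀ᶠ t in 𝓝[≠] (0 : ℂ), ‖T0 A g N τ C t / t‖ < 2 * ‖τ‖ :=
    h1.norm.eventually (gt_mem_nhds (by linarith))
  have hlo : ∀ᶠ t in 𝓝[≠] (0 : ℂ), ‖τ‖ / 2 < ‖T0 A g N τ C t / t‖ :=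
    h1.norm.eventually (lt_mem_nhds (by linarith))
  have hdf : ∀ᶠ t in 𝓝[≠] (0 : ℂ), ‖T0 A g N τ C' t / t - T0 A g N τ C t / t‖ < ‖τ‖ / 4 := by
    have h2 := (h1'.sub h1).norm
    rw [sub_self, norm_zero] at h2
    exact h2.eventually (gt_mem_nhds (by positivity))
  filter_upwards [hne, hroot, hsm, hup, hlo, hdf] with t ht h2 h3 h4 h5 h6
  set x := T0 A g N τ C t with hx
  set y := T0 A g N τ C' t with hy
  have htpos : 0 < ‖t‖ := norm_pos_iff.2 ht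
  rw [norm_div, div_lt_iff₀ htpos] at h4
  rw [norm_div, lt_div_iff₀ htpos] at h5
  rw [← sub_div, norm_div, div_lt_iff₀ htpos] at h6
  have hx0 : 0 < ‖x‖ := lt_trans (by positivity) h5
  have h7 : ‖y - x‖ ≤ ‖x‖ / 2 := by nlinarith
  have h8 := hsl x y hx0 h3 h7
  have h9 : ‖x‖ ^ (N - 1) ≤ q * ‖t‖ ^ (N - 1) := by
    rw [hq, ← mul_pow]
    exact pow_le_pow_left₀ hx0.le h4.le _
  rw [norm_sub_rev x y] at h2
  calc ‖γ' l y - γ' l x‖ ≤ ε / (q * K) * ‖x‖ ^ (N - 1) * ‖y - x‖ := h8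
    _ ≤ ε / (q * K) * (q * ‖t‖ ^ (N - 1)) * ‖y - x‖ := by gcongr
    _ = ε / (q * K) * q * (‖y - x‖ * ‖t‖ ^ (N - 1)) := by ring
    _ ≤ ε / (q * K) * q * (K * ‖g C t - g C' t‖) := by gcongr
    _ = ε * ‖g C t - g C' t‖ := by field_simp

/-- images of two centres are far apart -/
theorem F7_far (h : Mat F G k n n' N u u' c m b g v a D γ' A B L ρ) {C C' : Fin c}
    (hCC : C ≠ C') : ∃ a1 > (0 : ℝ), ∀ᶠ t in 𝓝[≠] (0 : ℂ), 0 < ‖g C t - g C' t‖ ∧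
      a1 * ‖g C t - g C' t‖ ≤ ‖(A (pt g N C' t)).1 - (A (pt g N C t)).1‖ := by
  obtain ⟨a0, ha0, haff⟩ := aff h
  obtain ⟨K, hK, δ, hδ, h1⟩ := haff 1 le_rfl (a0 / 4) (by positivity)
  have hne : ∀ᶠ t in 𝓝[≠] (0 : ℂ), t ≠ 0 := self_mem_nhdsWithin
  have h2 : ∀ᶠ t in 𝓝[≠] (0 : ℂ), 0 < ‖t‖ ∧ ‖t‖ < δ :=
    F7_ev.2 ⟨δ, hδ, fun t h3 h4 => ⟨h3, h4⟩⟩
  have h3 : ∀ᶠ t in 𝓝[≠] (0 : ℂ), ‖‖t‖ ^ (b C)‖ ≤ K⁻¹ * ‖g C t - g C' t‖ :=
    (h.hC.sep C C' hCC).bound (by positivity)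
  have h4 : ∀ᶠ t in 𝓝[≠] (0 : ℂ), ‖g C t - g C' t‖ ≤ δ * ‖t ^ N‖ :=
    ((h.hC.gsm C).sub (h.hC.gsm C')).bound hδ
  refine ⟨a0 / 2, by positivity, ?_⟩
  filter_upwards [hne, h2, h3, h4] with t ht h5 h6 h7
  have hpos : 0 < ‖t‖ ^ (b C) := Real.rpow_pos_of_pos (norm_pos_iff.2 ht) _
  rw [Real.norm_of_nonneg hpos.le] at h6
  have hd : 0 < ‖g C t - g C' t‖ := by
    by_contra hc
    have h8 : ‖g C t - g C' t‖ = 0 := le_antisymm (not_lt.1 hc) (norm_nonneg _)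
    rw [h8, mul_zero] at h6
    linarith
  set d := ‖g C t - g C' t‖ with hdd
  have h8 : K * ‖t‖ ^ (b C) ≤ d := by
    have := mul_le_mul_of_nonneg_left h6 hK.le
    rwa [mul_inv_cancel_left₀ hK.ne'] at this
  rw [norm_pow] at h7
  obtain ⟨α, hα1, -, hα3, -⟩ := h1 t h5.1 h5.2 C d h8 h7
  have hdc : (d : ℂ) ≠ 0 := by exact_mod_cast hd.ne'
  have h9 := hα3 ((g C' t - g C t) / d) (by
    rw [norm_div, norm_sub_rev, ← hdd, Complex.norm_real, Real.norm_of_nonneg hd.le,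
      div_self hd.ne'])
  have h10 : (d : ℂ) * ((g C' t - g C t) / d) = g C' t - g C t := by field_simp
  rw [h10] at h9
  have h11 : ((g C t + (g C' t - g C t), t ^ N) : ℂ × ℂ) = pt g N C' t := by
    unfold pt
    rw [add_sub_cancel]
  rw [h11] at h9
  refine ⟨hd, ?_⟩
  have h12 : ‖α * (g C' t - g C t)‖ = ‖α‖ * d := by
    rw [norm_mul, norm_sub_rev]
  have h13 : ‖α * (g C' t - g C t)‖ ≤ ‖(A (pt g N C' t)).1 - (A (pt g N C t)).1‖ +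
      ‖(A (pt g N C' t)).1 - (A (pt g N C t)).1 - α * (g C' t - g C t)‖ := by
    have := norm_sub_le ((A (pt g N C' t)).1 - (A (pt g N C t)).1)
      ((A (pt g N C' t)).1 - (A (pt g N C t)).1 - α * (g C' t - g C t))
    simpa using this
  rw [h12] at h13
  nlinarith

theorem F7_disj (h : Mat F G k n n' N u u' c m b g v a D γ' A B L ρ) (ω τ : ℂ)
    (hω : ω ≠ 0) (hτ : τ ^ N = ω)
    (hlim : ∀ C, Tendsto (fun t : ℂ => (A (pt g N C t)).2 / t ^ N) (𝓝[≠] 0) (𝓝 ω))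
    {K0 : ℝ} (hK0 : 0 < K0) {C C' : Fin c} (hCC : C ≠ C') (l : Fin n')
    (h1 : ∀ᶠ t in 𝓝[≠] (0 : ℂ), F7_r A g N τ γ' l C t ≤ K0 * ‖t‖ ^ (b C))
    (h2 : ∀ᶠ t in 𝓝[≠] (0 : ℂ), F7_r A g N τ γ' l C' t ≤ K0 * ‖t‖ ^ (b C')) : False := by
  obtain ⟨a1, ha1, hfar⟩ := F7_far h hCC
  have hne : ∀ᶠ t in 𝓝[≠] (0 : ℂ), t ≠ 0 := self_mem_nhdsWithin
  have h3 : ∀ᶠ t in 𝓝[≠] (0 : ℂ), ‖‖t‖ ^ (b C)‖ ≤ (a1 / (4 * K0)) * ‖g C t - g C' t‖ :=
    (h.hC.sep C C' hCC).bound (by positivity)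
  have h4 : ∀ᶠ t in 𝓝[≠] (0 : ℂ), ‖‖t‖ ^ (b C')‖ ≤ (a1 / (4 * K0)) * ‖g C' t - g C t‖ :=
    (h.hC.sep C' C hCC.symm).bound (by positivity)
  have h5 := F7_slow h ω τ hω hτ hlim C C' l (a1 / 4) (by positivity)
  obtain ⟨t, ht, e1, e2, e3, e4, e5, e6⟩ :=
    (hne.and (h1.and (h2.and (h3.and (h4.and (h5.and hfar)))))).exists
  have hp1 : 0 < ‖t‖ ^ (b C) := Real.rpow_pos_of_pos (norm_pos_iff.2 ht) _
  have hp2 : 0 < ‖t‖ ^ (b C') := Real.rpow_pos_of_pos (norm_pos_iff.2 ht) _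
  rw [Real.norm_of_nonneg hp1.le] at e3
  rw [Real.norm_of_nonneg hp2.le, norm_sub_rev] at e4
  unfold F7_r at e1 e2
  set d := ‖g C t - g C' t‖ with hd
  have h6 : K0 * ‖t‖ ^ (b C) ≤ a1 / 4 * d := by
    calc K0 * ‖t‖ ^ (b C) ≤ K0 * (a1 / (4 * K0) * d) := by gcongr
      _ = a1 / 4 * d := by field_simp
  have h7 : K0 * ‖t‖ ^ (b C') ≤ a1 / 4 * d := by
    calc K0 * ‖t‖ ^ (b C') ≤ K0 * (a1 / (4 * K0) * d) := by gcongr
      _ = a1 / 4 * d := by field_simp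
  set x := (A (pt g N C t)).1
  set x' := (A (pt g N C' t)).1
  set y := γ' l (T0 A g N τ C t)
  set y' := γ' l (T0 A g N τ C' t)
  have h8 : x' - x = (x' - y') + (y' - y) - (x - y) := by ring
  have h9 : ‖x' - x‖ ≤ ‖x' - y'‖ + ‖y' - y‖ + ‖x - y‖ := by
    rw [h8]
    exact (norm_sub_le _ _).trans (add_le_add_left (norm_add_le _ _) _)
  nlinarith [e6.1, e6.2]

end aux

theorem sigma_exists {F G : ℂ × ℂ → ℂ} {k n N : ℕ} {u u' : ℂ} {c : ℕ} {m : Fin c → ℕ}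
    {b : Fin c → ℝ} {g v : Fin c → ℂ → ℂ} {a : Fin c → ℂ} {D : Fin c → ℕ}
    {γ' : Fin n → ℂ → ℂ} {A B : ℂ × ℂ → ℂ × ℂ} {L ρ : ℝ}
    (h : Mat F G k n n N u u' c m b g v a D γ' A B L ρ) (ω τ : ℂ) (hω : ω ≠ 0) (hτ : τ ^ N = ω)
    (hlim : ∀ C, Tendsto (fun t : ℂ => (A (pt g N C t)).2 / t ^ N) (𝓝[≠] 0) (𝓝 ω)) :
    ∃ cl' : Fin n → Fin c,
      (∀ C, (Finset.univ.filter (fun l => cl' l = C)).card = m C) ∧
      (∀ l, (fun t => γ' l (T0 A g N τ (cl' l) t) - (A (pt g N (cl' l) t)).1)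
        =O[𝓝[≠] 0] (fun t : ℂ => ‖t‖ ^ (b (cl' l)))) ∧
      ∀ C l, cl' l ≠ C → (fun t : ℂ => ‖t‖ ^ (b C))
        =o[𝓝[≠] 0] (fun t => γ' l (T0 A g N τ C t) - (A (pt g N C t)).1) := by
  classical
  obtain ⟨K0, hK0, hS⟩ := F7_K0 h ω τ hω hτ hlim
  choose S hcard hin hout using hS
  have hdisj : ∀ C C', C ≠ C' → Disjoint (S C) (S C') := by
    intro C C' hCC
    rw [Finset.disjoint_left]
    intro l h1 h2
    exact F7_disj h ω τ hω hτ hlim hK0 hCC l (hin C l h1) (hin C' l h2)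
  have hU : (Finset.univ.biUnion S) = (Finset.univ : Finset (Fin n)) := by
    apply Finset.eq_univ_of_card
    rw [Finset.card_biUnion (fun C _ C' _ hne => hdisj C C' hne), Fintype.card_fin]
    rw [Finset.sum_congr rfl fun C _ => hcard C]
    exact h.hC.hmn
  have hex : ∀ l : Fin n, ∃ C, l ∈ S C := by
    intro l
    have h1 : l ∈ Finset.univ.biUnion S := by rw [hU]; exact Finset.mem_univ _
    obtain ⟨C, -, hC⟩ := Finset.mem_biUnion.1 h1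
    exact ⟨C, hC⟩
  choose cl' hcl using hex
  have huniq : ∀ l C, l ∈ S C ↔ cl' l = C := by
    intro l C
    constructor
    · intro h1
      by_contra hne
      exact Finset.disjoint_left.1 (hdisj _ _ hne) (hcl l) h1
    · rintro rfl
      exact hcl l
  refine ⟨cl', ?_, ?_, ?_⟩
  · intro C
    rw [← hcard C]
    congr 1
    ext l
    simp only [Finset.mem_filter, Finset.mem_univ, true_and]
    exact (huniq l C).symm
  · intro l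
    refine IsBigO.of_bound K0 ?_
    filter_upwards [hin (cl' l) l (hcl l)] with t ht
    unfold F7_r at ht
    rw [norm_sub_rev, Real.norm_of_nonneg (Real.rpow_nonneg (norm_nonneg _) _)]
    exact ht
  · intro C l hne
    have hnot : l ∉ S C := fun h1 => hne ((huniq l C).1 h1)
    refine IsLittleO.of_bound fun ε hε => ?_
    filter_upwards [hout C l hnot ε⁻¹ (by positivity)] with t ht
    unfold F7_r at ht
    rw [norm_sub_rev (γ' l _), Real.norm_of_nonneg (Real.rpow_nonneg (norm_nonneg _) _)]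
    have h2 := mul_le_mul_of_nonneg_left ht hε.le
    rwa [mul_inv_cancel_left₀ hε.ne'] at h2

theorem T0_props {F G : ℂ × ℂ → ℂ} {k n N : ℕ} {u u' : ℂ} {c : ℕ} {m : Fin c → ℕ}
    {b : Fin c → ℝ} {g v : Fin c → ℂ → ℂ} {a : Fin c → ℂ} {D : Fin c → ℕ}
    {γ' : Fin n → ℂ → ℂ} {A B : ℂ × ℂ → ℂ × ℂ} {L ρ : ℝ}
    (h : Mat F G k n n N u u' c m b g v a D γ' A B L ρ) (ω τ : ℂ) (hω : ω ≠ 0) (hτ : τ ^ N = ω)
    (hlim : ∀ C, Tendsto (fun t : ℂ => (A (pt g N C t)).2 / t ^ N) (𝓝[≠] 0) (𝓝 ω)) (C : Fin c) :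
    Tendsto (fun t => T0 A g N τ C t / t) (𝓝[≠] 0) (𝓝 τ) ∧
    (∀ᶠ t in 𝓝[≠] (0 : ℂ), T0 A g N τ C t ^ N = (A (pt g N C t)).2) ∧
    ∀ᶠ t in 𝓝[≠] (0 : ℂ), ContinuousAt (T0 A g N τ C) t :=
  F7_props h ω τ hω hτ hlim C

end H24.LS
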