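import Pool.Agent.H24.LS.P0
import Pool.Agent.H24.LS.P1
import Pool.Agent.H24.LS.P2
import Pool.Agent.H24.LS.V0
import Pool.Agent.H24.LS.F0
import Pool.Agent.H24.LS.F1
import Pool.Agent.H24.LS.F2
import Pool.Agent.H24.LS.F5

/-!
# F6: critical values match; the limit `ω` of `y'/y`

* `val_close`.  `p = pt g N C t`, `(x0,y0) = A p`, `l` with `‖x0 - γ'_l t'‖ ≤ K0 s_C`, `t'^N = y0`, `q = (γ'_l t', y0)`.
  `‖G q - G (x0,y0)‖ ≤ K0 s_C sup ‖dx G‖ ≤ K0 s_C CR cE C s_C t ≤ K s_C ‖v C t‖` (`win_G` at `s = s_C`; `cE C s_C ≤ K cE C 0 ≤ K ‖v‖`,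
  `bal`), `‖G (A p) - F p‖ ≤ L ‖∇F p‖^2 ≤ K ‖v C t‖^2 ≤ K s_C ‖v C t‖` (`win_F`; `‖v‖ ≤ K cE C s_C ≤ s_C` by `small`).
  Upper bound for `dy G q`: `win_G`.  Lower bound: `dx G q = 0` (`arc_crit`), so `‖∇G q‖ = ‖dy G q‖` (operator norm of a
  functional on `ℂ × ℂ` with sup norm is `≤ ‖dx‖ + ‖dy‖`); `‖dy F (B q)‖ ≤ ‖∇F (B q)‖ ≤ L ‖∇G q‖`, and
  `‖B q - p‖ ≤ ‖B q - B (A p)‖ + ‖B (A p) - p‖ ≤ L K0 s_C + L ‖∇F p‖ ≤ K s_C`, so `‖dy F (B q)‖ ≥ ‖v C t‖/2` by `win_F_low`.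
* `omega`.  Fix `C`; `f(t) = (A (pt g N C t)).2/t^N` is continuous off `0` near `0`.  For small `t` take a root `t'` of
  `y0` (`IsAlgClosed.exists_pow_nat_eq`) and `l` with `‖x0 - γ'_l t'‖ ≤ K0 s_C` (exists by `rc2`, `m C ≥ 1`).
  By `val_close`: `‖G(γ'_l t', t'^N) - F p‖ ≤ K s_C ‖v C t‖ = o(‖F p‖)` (`‖v C t‖ ‖t‖^N ≍ ‖F p‖ ≍ ‖t‖^{D C}`, `s_C = o(‖t‖^N)`).
  `arc_ord` for `G`: `G(γ'_l t', t'^N) = a'_l t'^{D'_l}(1 + o(1))`; `‖t'‖ ≍ ‖t‖` (`mat_size`).  So `‖t‖^{D'_l} ≍ ‖t‖^{D C}`; for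
  small `t` this forces `D'_l = D C`, and `(t'/t)^{D C} → a C/a'_l` along such `t`; so `f(t)^{D C} = (t'/t)^{N D C}` is
  close to `(a C/a'_l)^N`.  Hence `f(t)` is close to the finite set of all `D C`-th roots of the finitely many
  numbers `(a C/a'_l)^N` (if `‖z^D - w‖` is small then `z` is close to a `D`-th root of `w`: `z^D - w = ∏ (z - ζ_i)`).
  `tendsto_of_finite`: `f → ω_C ≠ 0`.  Independence of `C`: `‖(A (pt C)).2 - (A (pt C')).2‖ ≤ L ‖g C - g C'‖ = o(‖t‖^N)`.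
  (`c ≥ 1` since `n ≥ 1`.)  General `(x,y)` in the cone: choose `t`, `t^N = y`: `‖A (x,y) - A (pt g N C t)‖ ≤ L ‖x - g C t‖`.
-/

open Filter Topology Metric Asymptotics

namespace H24.LS

private theorem F6_ev {P : ℂ → Prop} (h : ∀ᶠ t in 𝓝[≠] (0 : ℂ), P t) :
    ∃ δ > (0 : ℝ), ∀ t : ℂ, 0 < ‖t‖ → ‖t‖ < δ → P t := by
  rw [eventually_nhdsWithin_iff, Metric.eventually_nhds_iff] at h
  obtain ⟨δ, hδ, h⟩ := h
  refine ⟨δ, hδ, fun t h0 h1 => h (by rwa [dist_zero_right]) fun ht => ?_⟩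
  rw [Set.mem_singleton_iff.mp ht, norm_zero] at h0
  exact lt_irrefl _ h0

private theorem F6_ev' {P : ℂ → Prop} {δ : ℝ} (hδ : 0 < δ)
    (h : ∀ t : ℂ, 0 < ‖t‖ → ‖t‖ < δ → P t) : ∀ᶠ t in 𝓝[≠] (0 : ℂ), P t := by
  rw [eventually_nhdsWithin_iff, Metric.eventually_nhds_iff]
  refine ⟨δ, hδ, fun t h1 h2 => h t (norm_pos_iff.mpr h2) (by rwa [dist_zero_right] at h1)⟩

private theorem F6_pos : ∀ᶠ t in 𝓝[≠] (0 : ℂ), 0 < ‖t‖ :=
  F6_ev' one_pos fun _ h _ => h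

private theorem F6_rp (t : ℂ) (b : ℝ) : 0 ≤ ‖t‖ ^ b := Real.rpow_nonneg (norm_nonneg _) _

/-- `K ‖t‖^N < δ` -/
private theorem F6_pow {N : ℕ} (hN : 1 ≤ N) (K : ℝ) {δ : ℝ} (hδ : 0 < δ) :
    ∀ᶠ t in 𝓝[≠] (0 : ℂ), K * ‖t‖ ^ N < δ := by
  have h1 : Continuous fun t : ℂ => K * ‖t‖ ^ N := by fun_prop
  have h2 := (h1.tendsto 0).mono_left (nhdsWithin_le_nhds (s := {(0 : ℂ)}ᶜ))
  rw [norm_zero, zero_pow (by omega), mul_zero] at h2
  exact h2.eventually_lt_const hδ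

private theorem F6_rt {e : ℝ} (he : 0 < e) :
    Tendsto (fun t : ℂ => ‖t‖ ^ e) (𝓝[≠] (0 : ℂ)) (𝓝 0) := by
  have h1 : Continuous fun t : ℂ => ‖t‖ ^ e :=
    continuous_norm.rpow_const fun _ => Or.inr he.le
  have h2 := (h1.tendsto 0).mono_left (nhdsWithin_le_nhds (s := {(0 : ℂ)}ᶜ))
  rwa [norm_zero, Real.zero_rpow he.ne'] at h2

/-- `s_C ≤ δ ‖t‖^N` -/
private theorem F6_s {c N : ℕ} {b : Fin c → ℝ} (hb : ∀ C, (N : ℝ) < b C) {δ : ℝ} (hδ : 0 < δ) :
    ∀ᶠ t in 𝓝[≠] (0 : ℂ), ∀ C, ‖t‖ ^ (b C) ≤ δ * ‖t‖ ^ N := by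
  rw [eventually_all]
  intro C
  have h1 : 0 < b C - N := by linarith [hb C]
  filter_upwards [(F6_rt h1).eventually_lt_const hδ, F6_pos] with t h2 h3
  have h4 : ‖t‖ ^ (b C) = ‖t‖ ^ (b C - N) * ‖t‖ ^ N := by
    rw [← Real.rpow_natCast ‖t‖ N, ← Real.rpow_add h3]
    congr 1
    ring
  rw [h4]
  exact mul_le_mul_of_nonneg_right h2.le (by positivity)

private theorem F6_op (T : ℂ × ℂ →L[ℂ] ℂ) : ‖T‖ ≤ ‖T (1, 0)‖ + ‖T (0, 1)‖ := by
  apply ContinuousLinearMap.opNorm_le_bound _ (by positivity)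
  rintro ⟨x, y⟩
  have e : T (x, y) = x * T (1, 0) + y * T (0, 1) := by
    have : ((x, y) : ℂ × ℂ) = x • ((1 : ℂ), (0 : ℂ)) + y • ((0 : ℂ), (1 : ℂ)) := by
      ext <;> simp
    rw [this, map_add, map_smul, map_smul, smul_eq_mul, smul_eq_mul]
  rw [e]
  have h1 : ‖x‖ ≤ ‖((x, y) : ℂ × ℂ)‖ := norm_fst_le (x, y)
  have h2 : ‖y‖ ≤ ‖((x, y) : ℂ × ℂ)‖ := norm_snd_le (x, y)
  calc ‖x * T (1, 0) + y * T (0, 1)‖ ≤ ‖x‖ * ‖T (1, 0)‖ + ‖y‖ * ‖T (0, 1)‖ := by
        refine (norm_add_le _ _).trans ?_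
        rw [norm_mul, norm_mul]
    _ ≤ ‖((x, y) : ℂ × ℂ)‖ * ‖T (1, 0)‖ + ‖((x, y) : ℂ × ℂ)‖ * ‖T (0, 1)‖ := by gcongr
    _ = (‖T (1, 0)‖ + ‖T (0, 1)‖) * ‖((x, y) : ℂ × ℂ)‖ := by ring

private theorem F6_dy (F : ℂ × ℂ → ℂ) (q : ℂ × ℂ) : ‖dy F q‖ ≤ ‖fderiv ℂ F q‖ := by
  have h1 := (fderiv ℂ F q).le_opNorm (0, 1)
  have h2 : ‖((0, 1) : ℂ × ℂ)‖ = 1 := by simp [Prod.norm_def]
  rw [h2, mul_one] at h1
  exact h1

private theorem F6_cE {F : ℂ × ℂ → ℂ} {k n N : ℕ} {u : ℂ} {c : ℕ} {m : Fin c → ℕ}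
    {b : Fin c → ℝ} {g v : Fin c → ℂ → ℂ} {a : Fin c → ℂ} {D : Fin c → ℕ}
    (h : Clu F k n N u c m b g v a D) :
    ∃ K > (0 : ℝ), ∀ᶠ t in 𝓝[≠] (0 : ℂ), ∀ C,
      cE (N * (k - 1 - n)) m b g C (‖t‖ ^ (b C)) t ≤ K * ‖v C t‖ := by
  obtain ⟨c1, hc1, c2, hc2, hbal⟩ := h.bal
  have hsep : ∀ᶠ t in 𝓝[≠] (0 : ℂ), ∀ C C', C ≠ C' → ‖t‖ ^ (b C) ≤ ‖g C t - g C' t‖ := by
    rw [eventually_all]
    intro C
    rw [eventually_all]
    intro C'
    by_cases hne : C = C'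
    · exact Eventually.of_forall fun t h => absurd hne h
    · filter_upwards [(h.sep C C' hne).def one_pos] with t ht _
      rwa [one_mul, Real.norm_of_nonneg (F6_rp _ _)] at ht
  refine ⟨2 ^ n * c2, by positivity, ?_⟩
  filter_upwards [hbal, hsep] with t h1 h2 C
  have h3 : cE (N * (k - 1 - n)) m b g C (‖t‖ ^ (b C)) t
      ≤ 2 ^ n * cE (N * (k - 1 - n)) m b g C 0 t := by
    unfold cE
    have e1 : (2 : ℝ) ^ n = ∏ C', (2 : ℝ) ^ m C' := by rw [Finset.prod_pow_eq_pow_sum, h.hmn]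
    rw [e1, mul_left_comm, ← Finset.prod_mul_distrib]
    apply mul_le_mul_of_nonneg_left _ (by positivity)
    apply Finset.prod_le_prod
    · intro C' _
      have := F6_rp t (b C)
      have := F6_rp t (b C')
      positivity
    · intro C' _
      rw [← mul_pow]
      have h4 := F6_rp t (b C)
      have h5 := F6_rp t (b C')
      apply pow_le_pow_left₀ (by positivity)
      rw [zero_add]
      by_cases hne : C = C'
      · subst hne
        rw [sub_self, norm_zero]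
        linarith
      · have := h2 C C' hne
        linarith
  calc cE (N * (k - 1 - n)) m b g C (‖t‖ ^ (b C)) t
      ≤ 2 ^ n * cE (N * (k - 1 - n)) m b g C 0 t := h3
    _ ≤ 2 ^ n * (c2 * ‖v C t‖) := by
        apply mul_le_mul_of_nonneg_left (h1 C).2 (by positivity)
    _ = 2 ^ n * c2 * ‖v C t‖ := by ring

/-- size of the point and of its image -/
private theorem F6_pt {F G : ℂ × ℂ → ℂ} {k n n' N : ℕ} {u u' : ℂ} {c : ℕ} {m : Fin c → ℕ}
    {b : Fin c → ℝ} {g v : Fin c → ℂ → ℂ} {a : Fin c → ℂ} {D : Fin c → ℕ}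
    {γ' : Fin n' → ℂ → ℂ} {A B : ℂ × ℂ → ℂ × ℂ} {L ρ : ℝ}
    (h : Mat F G k n n' N u u' c m b g v a D γ' A B L ρ) :
    ∀ᶠ t in 𝓝[≠] (0 : ℂ), ∀ C, ‖pt g N C t‖ ≤ ‖t‖ ^ N ∧ ‖pt g N C t‖ < ρ ∧
      ‖A (pt g N C t)‖ ≤ L * ‖t‖ ^ N := by
  have h1 : ∀ᶠ t in 𝓝[≠] (0 : ℂ), ∀ C, ‖g C t‖ ≤ 1 * ‖t ^ N‖ := by
    rw [eventually_all]
    exact fun C => (h.hC.gsm C).def one_pos
  filter_upwards [h1, F6_pow h.hC.hN 1 h.hco.hρ] with t h2 h3 C
  have h4 : ‖pt g N C t‖ ≤ ‖t‖ ^ N := by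
    have h5 := h2 C
    rw [one_mul, norm_pow] at h5
    unfold pt
    rw [Prod.norm_def]
    apply max_le h5
    show ‖t ^ N‖ ≤ _
    rw [norm_pow]
  rw [one_mul] at h3
  have h5 : ‖pt g N C t‖ < ρ := h4.trans_lt h3
  refine ⟨h4, h5, ?_⟩
  have h6 := h.hco.lipA (pt g N C t) (by rwa [mem_ball_zero_iff]) 0
    (mem_ball_self h.hco.hρ)
  rw [h.hco.A0, sub_zero, sub_zero] at h6
  have hL : 0 ≤ L := by linarith [h.hco.hL]
  exact h6.trans (mul_le_mul_of_nonneg_left h4 hL)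

/-- size of the root -/
private theorem F6_root_size {F G : ℂ × ℂ → ℂ} {k n n' N : ℕ} {u u' : ℂ} {c : ℕ} {m : Fin c → ℕ}
    {b : Fin c → ℝ} {g v : Fin c → ℂ → ℂ} {a : Fin c → ℂ} {D : Fin c → ℕ}
    {γ' : Fin n' → ℂ → ℂ} {A B : ℂ × ℂ → ℂ × ℂ} {L ρ : ℝ}
    (h : Mat F G k n n' N u u' c m b g v a D γ' A B L ρ) :
    ∃ K > (0 : ℝ), ∀ᶠ t in 𝓝[≠] (0 : ℂ), ∀ C, ∀ t' : ℂ, t' ^ N = (A (pt g N C t)).2 →
      0 < ‖t'‖ ∧ ‖t'‖ ≤ K * ‖t‖ ∧ ‖t‖ ≤ K * ‖t'‖ := by
  obtain ⟨c0, hc0, δ, hδ, hsz⟩ := mat_size h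
  have hN := h.hC.hN
  have hL := h.hco.hL
  refine ⟨L + (1 + 1 / c0), by positivity, ?_⟩
  refine F6_ev' hδ fun t h0 h1 C t' ht' => ?_
  obtain ⟨h2, h3⟩ := hsz t h0 h1 C
  rw [← ht', norm_pow] at h2 h3
  have hpos : 0 < ‖t'‖ := by
    rcases (norm_nonneg t').eq_or_lt with h4 | h4
    · rw [← h4, zero_pow (by omega)] at h2
      have : 0 < c0 * ‖t‖ ^ N := by positivity
      linarith
    · exact h4
  have hc1 : 0 < 1 / c0 := by positivity
  refine ⟨hpos, ?_, ?_⟩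
  · have h4 : ‖t'‖ ≤ L * ‖t‖ := by
      apply le_of_pow_le_pow_left₀ (n := N) (by omega) (by positivity)
      rw [mul_pow]
      refine h3.trans ?_
      apply mul_le_mul_of_nonneg_right _ (by positivity)
      exact le_self_pow₀ hL (by omega)
    refine h4.trans ?_
    apply mul_le_mul_of_nonneg_right _ h0.le
    linarith
  · have h4 : ‖t‖ ≤ (1 + 1 / c0) * ‖t'‖ := by
      apply le_of_pow_le_pow_left₀ (n := N) (by omega) (by positivity)
      rw [mul_pow]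
      calc ‖t‖ ^ N = 1 / c0 * (c0 * ‖t‖ ^ N) := by field_simp
        _ ≤ 1 / c0 * ‖t'‖ ^ N := by gcongr
        _ ≤ (1 + 1 / c0) ^ N * ‖t'‖ ^ N := by
            apply mul_le_mul_of_nonneg_right _ (by positivity)
            have h5 : 1 + 1 / c0 ≤ (1 + 1 / c0) ^ N := le_self_pow₀ (by linarith) (by omega)
            linarith
    refine h4.trans ?_
    apply mul_le_mul_of_nonneg_right _ hpos.le
    linarith

theorem val_close {F G : ℂ × ℂ → ℂ} {k n n' N : ℕ} {u u' : ℂ} {c : ℕ} {m : Fin c → ℕ}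
    {b : Fin c → ℝ} {g v : Fin c → ℂ → ℂ} {a : Fin c → ℂ} {D : Fin c → ℕ}
    {γ' : Fin n' → ℂ → ℂ} {A B : ℂ × ℂ → ℂ × ℂ} {L ρ : ℝ}
    (h : Mat F G k n n' N u u' c m b g v a D γ' A B L ρ) (K0 : ℝ) (hK0 : 0 < K0) :
    ∃ C1 > (0 : ℝ), ∃ δ > (0 : ℝ), ∀ t : ℂ, 0 < ‖t‖ → ‖t‖ < δ → ∀ C, ∀ t' : ℂ,
      t' ^ N = (A (pt g N C t)).2 → ∀ l, ‖(A (pt g N C t)).1 - γ' l t'‖ ≤ K0 * ‖t‖ ^ (b C) →
      ‖G (γ' l t', t' ^ N) - F (pt g N C t)‖ ≤ C1 * ‖t‖ ^ (b C) * ‖v C t‖ ∧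
      ‖v C t‖ ≤ C1 * ‖dy G (γ' l t', t' ^ N)‖ ∧ ‖dy G (γ' l t', t' ^ N)‖ ≤ C1 * ‖v C t‖ := by
  have hN := h.hC.hN
  have hL := h.hco.hL
  have hL0 : 0 < L := by linarith
  obtain ⟨CG, hCG, δ1, hδ1, hwG⟩ := win_G h (max K0 1) (le_max_right _ _)
  obtain ⟨CF, hCF, δ2, hδ2, hwF⟩ := win_F h.hC 1 le_rfl
  obtain ⟨δ3, hδ3, hlow⟩ := win_F_low h.hC (max 1 (L * K0 + L * CF)) (le_max_left _ _)
  obtain ⟨δ4, hδ4, hsm⟩ := h.hC.small h.hk 1 one_pos
  obtain ⟨Kc, hKc, hcv⟩ := F6_cE h.hC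
  obtain ⟨KR, hKR, hroot⟩ := F6_root_size h
  have hcrit : ∀ᶠ t' in 𝓝[≠] (0 : ℂ), ∀ l, dx G (γ' l t', t' ^ N) = 0 := by
    rw [eventually_all]
    intro l
    filter_upwards [arc_crit h.hG l] with t' ht'
    exact ht'.1
  obtain ⟨δ5, hδ5, hcrit⟩ := F6_ev hcrit
  obtain ⟨δ6, hδ6, hdG⟩ : ∃ δ6 > (0 : ℝ), ∀ q : ℂ × ℂ, ‖q‖ < δ6 → DifferentiableAt ℂ G q := by
    obtain ⟨δ6, h1, h2⟩ := Metric.eventually_nhds_iff.mp h.hG.an.eventually_analyticAt
    exact ⟨δ6, h1, fun q hq => (h2 (by rwa [dist_zero_right])).differentiableAt⟩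
  have hKρ : 0 < min ρ δ6 := lt_min h.hco.hρ hδ6
  have hev : ∀ᶠ t in 𝓝[≠] (0 : ℂ), ∀ C, ∀ t' : ℂ,
      t' ^ N = (A (pt g N C t)).2 → ∀ l, ‖(A (pt g N C t)).1 - γ' l t'‖ ≤ K0 * ‖t‖ ^ (b C) →
      ‖G (γ' l t', t' ^ N) - F (pt g N C t)‖ ≤
        (K0 * CG * Kc + L * CF ^ 2 * Kc + 2 * L + CG * Kc) * ‖t‖ ^ (b C) * ‖v C t‖ ∧
      ‖v C t‖ ≤ (K0 * CG * Kc + L * CF ^ 2 * Kc + 2 * L + CG * Kc)
        * ‖dy G (γ' l t', t' ^ N)‖ ∧
      ‖dy G (γ' l t', t' ^ N)‖ ≤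
        (K0 * CG * Kc + L * CF ^ 2 * Kc + 2 * L + CG * Kc) * ‖v C t‖ := by
    filter_upwards [F6_ev' hδ1 (P := fun t => 0 < ‖t‖ ∧ ‖t‖ < δ1) (fun t h0 h1 => ⟨h0, h1⟩),
      F6_ev' hδ2 (P := fun t => ‖t‖ < δ2) (fun t h0 h1 => h1),
      F6_ev' hδ3 (P := fun t => ‖t‖ < δ3) (fun t h0 h1 => h1),
      F6_ev' hδ4 (P := fun t => ‖t‖ < δ4) (fun t h0 h1 => h1),
      hcv, hroot, F6_pt h, F6_s h.hC.hb hδ1, F6_s h.hC.hb hδ2, F6_s h.hC.hb one_pos,
      F6_pow hN (L + (K0 + 1)) hKρ,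
      F6_ev' (δ := δ5 / KR) (by positivity) (P := fun t => ‖t‖ < δ5 / KR) (fun t h0 h1 => h1)]
      with t h1 h2 h3 h4 h5 h6 h7 h8 h9 h10 h11 h12 C t' ht' l hl
    obtain ⟨ht0, h1⟩ := h1
    obtain ⟨hr1, hr2, hr3⟩ := h6 C t' ht'
    obtain ⟨hp1, hp2, hp3⟩ := h7 C
    have hs0 : 0 ≤ ‖t‖ ^ (b C) := F6_rp _ _
    have hsN : ‖t‖ ^ (b C) ≤ ‖t‖ ^ N := by
      have := h10 C
      rwa [one_mul] at this
    have ht'5 : ‖t'‖ < δ5 := by
      refine hr2.trans_lt ?_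
      rw [lt_div_iff₀ hKR] at h12
      linarith [mul_comm ‖t‖ KR]
    set p := pt g N C t with hp
    set q : ℂ × ℂ := (γ' l t', t' ^ N) with hq
    set sC := ‖t‖ ^ (b C) with hsC
    set E := cE (N * (k - 1 - n)) m b g C sC t with hE
    have hEv : E ≤ Kc * ‖v C t‖ := h5 C
    have hEs : E ≤ 1 * sC := hsm t ht0 h4 C sC le_rfl hsN
    rw [one_mul] at hEs
    have hE0 : 0 ≤ E := by
      rw [hE]
      unfold cE
      apply mul_nonneg (by positivity)
      apply Finset.prod_nonneg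
      intro C' _
      have := F6_rp t (b C')
      positivity
    -- distance of `q` to `A p`
    have hqA : ‖q - A p‖ ≤ K0 * sC := by
      have e1 : q - A p = (-((A p).1 - γ' l t'), 0) := by
        rw [hq]
        ext
        · simp
        · simp [ht']
      rw [e1, Prod.norm_def, norm_neg, norm_zero]
      exact max_le hl (by positivity)
    -- gradient at `p`
    have hFp : ‖fderiv ℂ F p‖ ≤ CF * E := by
      apply hwF t ht0 h2 C sC le_rfl (h9 C) p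
      rw [sub_self, norm_zero]
      positivity
    -- the window around `A p`
    have hwin : ∀ z ∈ closedBall (A p) (max K0 1 * sC), ‖fderiv ℂ G z‖ ≤ CG * E := by
      intro z hz
      rw [mem_closedBall, dist_eq_norm] at hz
      exact hwG t ht0 h1 C sC le_rfl (h8 C) z hz
    have hsizes : ∀ z ∈ closedBall (A p) (max K0 1 * sC), ‖z‖ < min ρ δ6 := by
      intro z hz
      rw [mem_closedBall, dist_eq_norm] at hz
      have e1 : z = A p + (z - A p) := by ring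
      calc ‖z‖ = ‖A p + (z - A p)‖ := by rw [← e1]
        _ ≤ ‖A p‖ + ‖z - A p‖ := norm_add_le _ _
        _ ≤ L * ‖t‖ ^ N + (K0 + 1) * ‖t‖ ^ N := by
            apply add_le_add hp3
            refine hz.trans ?_
            apply mul_le_mul _ hsN hs0 (by positivity)
            exact max_le (by linarith) (by linarith)
        _ = (L + (K0 + 1)) * ‖t‖ ^ N := by ring
        _ < min ρ δ6 := h11
    have hqmem : q ∈ closedBall (A p) (max K0 1 * sC) := by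
      rw [mem_closedBall, dist_eq_norm]
      refine hqA.trans ?_
      gcongr
      exact le_max_left _ _
    have hAmem : A p ∈ closedBall (A p) (max K0 1 * sC) :=
      mem_closedBall_self (by positivity)
    have hG1 : ‖G q - G (A p)‖ ≤ CG * E * ‖q - A p‖ :=
      Convex.norm_image_sub_le_of_norm_fderiv_le (𝕜 := ℂ)
        (fun z hz => hdG z ((hsizes z hz).trans_le (min_le_right _ _))) hwin
        (convex_closedBall _ _) hAmem hqmem
    have hball : p ∈ ball (0 : ℂ × ℂ) ρ := by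
      rw [mem_ball_zero_iff]
      exact hp2
    have hqball : q ∈ ball (0 : ℂ × ℂ) ρ := by
      rw [mem_ball_zero_iff]
      exact (hsizes q hqmem).trans_le (min_le_left _ _)
    have hAball : A p ∈ ball (0 : ℂ × ℂ) ρ := by
      rw [mem_ball_zero_iff]
      exact (hsizes _ hAmem).trans_le (min_le_left _ _)
    have hG2 : ‖F p - G (A p)‖ ≤ L * (CF * E) ^ 2 := by
      refine (h.hco.fA p hball).trans ?_
      gcongr
    have hGq : ‖fderiv ℂ G q‖ ≤ CG * E := hwin q hqmem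
    -- the terms of the constant
    have t1 : 0 ≤ K0 * CG * Kc := by positivity
    have t2 : 0 ≤ L * CF ^ 2 * Kc := by positivity
    have t3 : 0 ≤ CG * Kc := by positivity
    have hv0 := norm_nonneg (v C t)
    refine ⟨?_, ?_, ?_⟩
    · have e1 : G q - F p = (G q - G (A p)) - (F p - G (A p)) := by ring
      calc ‖G q - F p‖ = ‖(G q - G (A p)) - (F p - G (A p))‖ := by rw [← e1]
        _ ≤ ‖G q - G (A p)‖ + ‖F p - G (A p)‖ := norm_sub_le _ _
        _ ≤ CG * E * (K0 * sC) + L * (CF * E) ^ 2 := by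
            apply add_le_add _ hG2
            refine hG1.trans ?_
            gcongr
        _ = K0 * CG * sC * E + L * CF ^ 2 * E * E := by ring
        _ ≤ K0 * CG * sC * (Kc * ‖v C t‖) + L * CF ^ 2 * sC * (Kc * ‖v C t‖) := by
            gcongr
        _ = (K0 * CG * Kc + L * CF ^ 2 * Kc) * sC * ‖v C t‖ := by ring
        _ ≤ (K0 * CG * Kc + L * CF ^ 2 * Kc + 2 * L + CG * Kc) * sC * ‖v C t‖ := by
            apply mul_le_mul_of_nonneg_right _ hv0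
            apply mul_le_mul_of_nonneg_right _ hs0
            linarith
    · -- lower bound
      have hgrad : ‖fderiv ℂ G q‖ ≤ ‖dy G q‖ := by
        have h13 := F6_op (fderiv ℂ G q)
        have h14 : fderiv ℂ G q (1, 0) = 0 := hcrit t' hr1 ht'5 l
        rw [h14, norm_zero, zero_add] at h13
        exact h13
      have hBq : ‖fderiv ℂ F (B q)‖ ≤ L * ‖dy G q‖ :=
        (h.hco.dB q hqball).trans (mul_le_mul_of_nonneg_left hgrad hL0.le)
      have hdist : ‖B q - p‖ ≤ max 1 (L * K0 + L * CF) * sC := by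
        have e1 : B q - p = (B q - B (A p)) + (B (A p) - p) := by ring
        calc ‖B q - p‖ = ‖(B q - B (A p)) + (B (A p) - p)‖ := by rw [← e1]
          _ ≤ ‖B q - B (A p)‖ + ‖B (A p) - p‖ := norm_add_le _ _
          _ ≤ L * (K0 * sC) + L * (CF * sC) := by
              apply add_le_add
              · exact (h.hco.lipB q hqball (A p) hAball).trans
                  (mul_le_mul_of_nonneg_left hqA hL0.le)
              · refine (h.hco.BA p hball).trans ?_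
                apply mul_le_mul_of_nonneg_left _ hL0.le
                exact hFp.trans (by gcongr)
          _ = (L * K0 + L * CF) * sC := by ring
          _ ≤ max 1 (L * K0 + L * CF) * sC := by
              gcongr
              exact le_max_right _ _
      have h15 := hlow t ht0 h3 C (B q) hdist
      have h16 := F6_dy F (B q)
      have h17 : ‖v C t‖ ≤ 2 * L * ‖dy G q‖ := by linarith
      refine h17.trans ?_
      apply mul_le_mul_of_nonneg_right _ (norm_nonneg _)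
      linarith
    · calc ‖dy G q‖ ≤ ‖fderiv ℂ G q‖ := F6_dy G q
        _ ≤ CG * E := hGq
        _ ≤ CG * (Kc * ‖v C t‖) := by gcongr
        _ = CG * Kc * ‖v C t‖ := by ring
        _ ≤ (K0 * CG * Kc + L * CF ^ 2 * Kc + 2 * L + CG * Kc) * ‖v C t‖ := by
            apply mul_le_mul_of_nonneg_right _ hv0
            linarith
  obtain ⟨δ, hδ, hev⟩ := F6_ev hev
  exact ⟨_, by positivity, δ, hδ, hev⟩

private theorem F6_nthroot {D : ℕ} (hD : 0 < D) (w z : ℂ) {ε : ℝ} (hε : 0 < ε)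
    (h : ‖z ^ D - w‖ < ε ^ D) : ∃ ζ ∈ (Polynomial.nthRoots D w).toFinset, ‖z - ζ‖ < ε := by
  by_contra hcon
  push Not at hcon
  have hmon : (Polynomial.X ^ D - Polynomial.C w : Polynomial ℂ).Monic :=
    Polynomial.monic_X_pow_sub_C w (by omega)
  have h1 := Polynomial.Splits.eval_eq_prod_roots_of_monic
    (IsAlgClosed.splits (Polynomial.X ^ D - Polynomial.C w : Polynomial ℂ)) hmon z
  rw [Polynomial.eval_sub, Polynomial.eval_pow, Polynomial.eval_X, Polynomial.eval_C] at h1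
  have h2 : (Polynomial.X ^ D - Polynomial.C w : Polynomial ℂ).roots
      = Polynomial.nthRoots D w := rfl
  rw [h2] at h1
  have hcard : (Polynomial.nthRoots D w).card = D := by
    rw [← h2, IsAlgClosed.card_roots_eq_natDegree, Polynomial.natDegree_X_pow_sub_C]
  have h3 : ε ^ D ≤ ‖z ^ D - w‖ := by
    rw [h1]
    have h4 : ‖(Multiset.map (fun x => z - x) (Polynomial.nthRoots D w)).prod‖
        = (Multiset.map (fun x => ‖z - x‖) (Polynomial.nthRoots D w)).prod := by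
      have h5 := map_multiset_prod (normHom (α := ℂ)) (Multiset.map (fun x => z - x)
        (Polynomial.nthRoots D w))
      rw [Multiset.map_map] at h5
      exact h5
    rw [h4]
    have h6 := Multiset.prod_map_le_prod_map₀ (s := Polynomial.nthRoots D w)
      (fun _ : ℂ => ε) (fun x => ‖z - x‖) (fun _ _ => hε.le)
      (fun x hx => hcon x (Multiset.mem_toFinset.mpr hx))
    rw [Multiset.map_const', Multiset.prod_replicate, hcard] at h6
    exact h6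
  linarith

private theorem F6_arc {F G : ℂ × ℂ → ℂ} {k n n' N : ℕ} {u u' : ℂ} {c : ℕ} {m : Fin c → ℕ}
    {b : Fin c → ℝ} {g v : Fin c → ℂ → ℂ} {a : Fin c → ℂ} {D : Fin c → ℕ}
    {γ' : Fin n' → ℂ → ℂ} {A B : ℂ × ℂ → ℂ × ℂ} {L ρ : ℝ}
    (h : Mat F G k n n' N u u' c m b g v a D γ' A B L ρ) (K0 : ℝ) (hK0 : 0 < K0) (C : Fin c)
    (l : Fin n') :
    ∃ Z : Finset ℂ, ∀ ε > (0 : ℝ), ∀ᶠ t in 𝓝[≠] (0 : ℂ), ∀ t' : ℂ,
      t' ^ N = (A (pt g N C t)).2 → ‖(A (pt g N C t)).1 - γ' l t'‖ ≤ K0 * ‖t‖ ^ (b C) →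
      ∃ z ∈ Z, ‖(A (pt g N C t)).2 / t ^ N - z‖ < ε := by
  have hN := h.hC.hN
  have hD : 0 < D C := lt_of_le_of_lt (Nat.zero_le _) (h.hC.hD C)
  obtain ⟨D', a', hD', ha', hT, _⟩ := arc_ord h.hG h.isoG l
  obtain ⟨C1, hC1, δv, hδv, hval⟩ := val_close h K0 hK0
  obtain ⟨KR, hKR, hroot⟩ := F6_root_size h
  have ha := h.hC.ha C
  refine ⟨(Polynomial.nthRoots (D C) ((a C / a') ^ N)).toFinset, fun ε hε => ?_⟩
  -- the filter of pairs `(t, t')`
  let S : Set (ℂ × ℂ) := {x | x.2 ^ N = (A (pt g N C x.1)).2 ∧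
    ‖(A (pt g N C x.1)).1 - γ' l x.2‖ ≤ K0 * ‖x.1‖ ^ (b C)}
  let Φ : Filter (ℂ × ℂ) := comap Prod.fst (𝓝[≠] (0 : ℂ)) ⊓ 𝓟 S
  have hfst : Tendsto Prod.fst Φ (𝓝[≠] (0 : ℂ)) := tendsto_comap.mono_left inf_le_left
  have hS : ∀ᶠ x in Φ, x ∈ S := Filter.mem_inf_of_right (mem_principal_self S)
  have hsz : ∀ᶠ x in Φ, 0 < ‖x.1‖ ∧ 0 < ‖x.2‖ ∧ ‖x.2‖ ≤ KR * ‖x.1‖ ∧ ‖x.1‖ ≤ KR * ‖x.2‖ := by
    filter_upwards [hfst.eventually hroot, hfst.eventually F6_pos, hS] with x h1 h2 h3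
    exact ⟨h2, h1 C x.2 h3.1⟩
  have hfst0 : Tendsto (fun x : ℂ × ℂ => ‖x.1‖) Φ (𝓝 0) := by
    have h1 : Tendsto (fun t : ℂ => ‖t‖) (𝓝[≠] (0 : ℂ)) (𝓝 0) := by
      have := (continuous_norm (E := ℂ)).tendsto 0
      rw [norm_zero] at this
      exact this.mono_left nhdsWithin_le_nhds
    exact h1.comp hfst
  have hsnd : Tendsto Prod.snd Φ (𝓝[≠] (0 : ℂ)) := by
    rw [tendsto_nhdsWithin_iff]
    constructor
    · rw [tendsto_zero_iff_norm_tendsto_zero]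
      apply squeeze_zero' (g := fun x : ℂ × ℂ => KR * ‖x.1‖)
      · exact Eventually.of_forall fun x => norm_nonneg _
      · filter_upwards [hsz] with x hx
        exact hx.2.2.1
      · have := hfst0.const_mul KR
        rwa [mul_zero] at this
    · filter_upwards [hsz] with x hx
      exact norm_pos_iff.mp hx.2.1
  have hsnd0 : Tendsto (fun x : ℂ × ℂ => ‖x.2‖) Φ (𝓝 0) := by
    have h1 : Tendsto (fun t : ℂ => ‖t‖) (𝓝[≠] (0 : ℂ)) (𝓝 0) := by
      have := (continuous_norm (E := ℂ)).tendsto 0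
      rw [norm_zero] at this
      exact this.mono_left nhdsWithin_le_nhds
    exact h1.comp hsnd
  have hT1 : Tendsto (fun x : ℂ × ℂ => G (γ' l x.2, x.2 ^ N) / x.2 ^ D') Φ (𝓝 a') :=
    hT.comp hsnd
  have hT2 : Tendsto (fun x : ℂ × ℂ => F (pt g N C x.1) / x.1 ^ D C) Φ (𝓝 (a C)) :=
    (h.hC.Vord C).comp hfst
  -- the error
  have herr0 : Tendsto (fun t : ℂ => C1 * ‖t‖ ^ (b C) * ‖v C t‖ / ‖t‖ ^ D C) (𝓝[≠] 0) (𝓝 0) := by
    have hb : 0 < b C - N := by linarith [h.hC.hb C]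
    have h1 := ((F6_rt hb).mul (h.hC.vord C).norm).const_mul C1
    rw [zero_mul, mul_zero] at h1
    refine h1.congr' ?_
    filter_upwards [F6_pos] with t ht
    rw [norm_div, norm_mul, norm_pow, norm_pow, Real.rpow_sub ht, Real.rpow_natCast]
    field_simp
  have hT3 : Tendsto (fun x : ℂ × ℂ => (G (γ' l x.2, x.2 ^ N) - F (pt g N C x.1)) / x.1 ^ D C) Φ
      (𝓝 0) := by
    rw [tendsto_zero_iff_norm_tendsto_zero]
    apply squeeze_zero' _ _ (herr0.comp hfst)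
    · exact Eventually.of_forall fun x => norm_nonneg _
    · have h1 := hfst.eventually (F6_ev' hδv (P := fun t => 0 < ‖t‖ ∧ ‖t‖ < δv)
        (fun t h0 h1 => ⟨h0, h1⟩))
      filter_upwards [h1, hS] with x hx hxS
      have h2 := (hval x.1 hx.1 hx.2 C x.2 hxS.1 l hxS.2).1
      rw [norm_div, norm_pow]
      exact div_le_div_of_nonneg_right h2 (by positivity)
  have hT4 : Tendsto (fun x : ℂ × ℂ => G (γ' l x.2, x.2 ^ N) / x.1 ^ D C) Φ (𝓝 (a C)) := by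
    have h1 := hT3.add hT2
    rw [zero_add] at h1
    refine h1.congr fun x => ?_
    ring
  have hne : ∀ᶠ x in Φ, G (γ' l x.2, x.2 ^ N) ≠ 0 := by
    filter_upwards [hT1.eventually_ne ha'] with x hx h0
    exact hx (by rw [h0, zero_div])
  have hT5 : Tendsto (fun x : ℂ × ℂ => x.2 ^ D' / x.1 ^ D C) Φ (𝓝 (a C / a')) := by
    refine (hT4.div hT1 ha').congr' ?_
    filter_upwards [hne, hsz] with x h1 h2
    have h3 : x.1 ≠ 0 := norm_pos_iff.mp h2.1
    have h4 : x.2 ≠ 0 := norm_pos_iff.mp h2.2.1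
    show G (γ' l x.2, x.2 ^ N) / x.1 ^ D C / (G (γ' l x.2, x.2 ^ N) / x.2 ^ D') = _
    field_simp
  have hw : a C / a' ≠ 0 := div_ne_zero ha ha'
  -- conclusion along the filter
  have hfin : ∀ᶠ x in Φ, ∃ z ∈ (Polynomial.nthRoots (D C) ((a C / a') ^ N)).toFinset,
      ‖(A (pt g N C x.1)).2 / x.1 ^ N - z‖ < ε := by
    rcases Φ.eq_or_neBot with hbot | hbot
    · rw [hbot]
      exact eventually_bot
    have hDD : D' = D C := by
      by_contra hcon
      rcases lt_or_gt_of_ne hcon with hlt | hgt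
      · -- `D' < D`
        have h1 : Tendsto (fun x : ℂ × ℂ => x.1 ^ D C / x.2 ^ D') Φ (𝓝 0) := by
          rw [tendsto_zero_iff_norm_tendsto_zero]
          apply squeeze_zero' (g := fun x : ℂ × ℂ => KR ^ D C * ‖x.2‖ ^ (D C - D'))
          · exact Eventually.of_forall fun x => norm_nonneg _
          · filter_upwards [hsz] with x hx
            rw [norm_div, norm_pow, norm_pow, div_le_iff₀ (pow_pos hx.2.1 _), mul_assoc, ← pow_add,
              Nat.sub_add_cancel hlt.le, ← mul_pow]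
            exact pow_le_pow_left₀ hx.1.le hx.2.2.2 _
          · have := (hsnd0.pow (D C - D')).const_mul (KR ^ D C)
            rwa [zero_pow (by omega), mul_zero] at this
        have h2 := hT5.inv₀ hw
        have h3 : Tendsto (fun x : ℂ × ℂ => x.1 ^ D C / x.2 ^ D') Φ (𝓝 (a C / a')⁻¹) := by
          refine h2.congr fun x => ?_
          rw [inv_div]
        exact (inv_ne_zero hw) (tendsto_nhds_unique h3 h1)
      · have h1 : Tendsto (fun x : ℂ × ℂ => x.2 ^ D' / x.1 ^ D C) Φ (𝓝 0) := by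
          rw [tendsto_zero_iff_norm_tendsto_zero]
          apply squeeze_zero' (g := fun x : ℂ × ℂ => KR ^ D' * ‖x.1‖ ^ (D' - D C))
          · exact Eventually.of_forall fun x => norm_nonneg _
          · filter_upwards [hsz] with x hx
            rw [norm_div, norm_pow, norm_pow, div_le_iff₀ (pow_pos hx.1 _), mul_assoc, ← pow_add,
              Nat.sub_add_cancel hgt.le, ← mul_pow]
            exact pow_le_pow_left₀ hx.2.1.le hx.2.2.1 _
          · have := (hfst0.pow (D' - D C)).const_mul (KR ^ D')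
            rwa [zero_pow (by omega), mul_zero] at this
        exact hw (tendsto_nhds_unique hT5 h1)
    rw [hDD] at hT5
    have hT6 : Tendsto (fun x : ℂ × ℂ => ((A (pt g N C x.1)).2 / x.1 ^ N) ^ D C) Φ
        (𝓝 ((a C / a') ^ N)) := by
      refine (hT5.pow N).congr' ?_
      filter_upwards [hS] with x hx
      rw [← hx.1, div_pow, div_pow, ← pow_mul, ← pow_mul, ← pow_mul, ← pow_mul, mul_comm N]
    have h1 := (Metric.tendsto_nhds.mp hT6) (ε ^ D C) (by positivity)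
    filter_upwards [h1] with x hx
    rw [dist_eq_norm] at hx
    exact F6_nthroot hD _ _ hε hx
  rw [Filter.eventually_inf_principal, Filter.eventually_comap] at hfin
  filter_upwards [hfin] with t ht t' h1 h2
  exact ht (t, t') rfl ⟨h1, h2⟩

theorem omega_exists {F G : ℂ × ℂ → ℂ} {k n n' N : ℕ} {u u' : ℂ} {c : ℕ} {m : Fin c → ℕ}
    {b : Fin c → ℝ} {g v : Fin c → ℂ → ℂ} {a : Fin c → ℂ} {D : Fin c → ℕ}
    {γ' : Fin n' → ℂ → ℂ} {A B : ℂ × ℂ → ℂ × ℂ} {L ρ : ℝ}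
    (h : Mat F G k n n' N u u' c m b g v a D γ' A B L ρ) :
    ∃ ω : ℂ, ω ≠ 0 ∧
      (∀ C, Tendsto (fun t : ℂ => (A (pt g N C t)).2 / t ^ N) (𝓝[≠] 0) (𝓝 ω)) ∧
      ∀ ε > (0 : ℝ), ∃ δ > (0 : ℝ), ∀ x y : ℂ, ‖y‖ < δ → ‖x‖ ≤ δ * ‖y‖ →
        ‖(A (x, y)).2 - ω * y‖ ≤ ε * ‖y‖ := by
  classical
  have hN := h.hC.hN
  have hL := h.hco.hL
  have hL0 : 0 < L := by linarith
  have hρ := h.hco.hρ
  obtain ⟨K0, hK0, hrc⟩ := rc2 h
  obtain ⟨δr, hδr, hrc⟩ := hrc 1 one_pos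
  -- one limit for each cluster
  have key : ∀ C, ∃ z : ℂ, z ≠ 0 ∧
      Tendsto (fun t : ℂ => (A (pt g N C t)).2 / t ^ N) (𝓝[≠] 0) (𝓝 z) := by
    intro C
    choose Z hZ using F6_arc h K0 hK0 C
    obtain ⟨z, _, hz⟩ := tendsto_of_finite (fun t : ℂ => (A (pt g N C t)).2 / t ^ N)
      (Finset.univ.biUnion Z)
      (by
        have h1 : ∀ᶠ t in 𝓝[≠] (0 : ℂ), ContinuousAt (g C) t := by
          apply Filter.Eventually.filter_mono nhdsWithin_le_nhds
          filter_upwards [(h.hC.gan C).eventually_analyticAt] with t ht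
          exact ht.continuousAt
        filter_upwards [h1, F6_pt h, F6_pos] with t h2 h3 h4
        have h5 : ContinuousAt A (pt g N C t) := by
          have h6 : LipschitzOnWith (Real.toNNReal L) A (ball (0 : ℂ × ℂ) ρ) := by
            apply LipschitzOnWith.of_dist_le_mul
            intro p hp q hq
            rw [dist_eq_norm, dist_eq_norm, Real.coe_toNNReal L hL0.le]
            exact h.hco.lipA p hp q hq
          exact h6.continuousOn.continuousAt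
            (isOpen_ball.mem_nhds (by rw [mem_ball_zero_iff]; exact (h3 C).2.1))
        have h7 : ContinuousAt (fun t => pt g N C t) t := by
          unfold pt
          exact h2.prodMk (by fun_prop)
        have h8 : ContinuousAt (fun t => A (pt g N C t)) t :=
          ContinuousAt.comp (f := fun t => pt g N C t) (g := A) h5 h7
        apply ContinuousAt.div (continuousAt_snd.comp h8) (by fun_prop)
        exact pow_ne_zero _ (norm_pos_iff.mp h4))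
      (by
        intro ε hε
        have h1 : ∀ᶠ t in 𝓝[≠] (0 : ℂ), ∀ l, ∀ t' : ℂ, t' ^ N = (A (pt g N C t)).2 →
            ‖(A (pt g N C t)).1 - γ' l t'‖ ≤ K0 * ‖t‖ ^ (b C) →
            ∃ z ∈ Z l, ‖(A (pt g N C t)).2 / t ^ N - z‖ < ε := by
          rw [eventually_all]
          exact fun l => hZ l ε hε
        filter_upwards [h1, F6_ev' hδr (P := fun t => 0 < ‖t‖ ∧ ‖t‖ < δr)
          (fun t h0 h1 => ⟨h0, h1⟩)] with t h2 h3
        obtain ⟨t', ht'⟩ := IsAlgClosed.exists_pow_nat_eq (A (pt g N C t)).2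
          (show 0 < N by omega)
        have h4 := (hrc t h3.1 h3.2 C t' ht').1
        have h5 : 0 < (Finset.univ.filter (fun l => ‖(A (pt g N C t)).1 - γ' l t'‖ ≤
            K0 * ‖t‖ ^ (b C))).card := by
          rw [h4]
          exact h.hC.hm C
        obtain ⟨l, hl⟩ := Finset.card_pos.mp h5
        obtain ⟨z, hz1, hz2⟩ := h2 l t' ht' (Finset.mem_filter.mp hl).2
        exact ⟨z, Finset.mem_biUnion.mpr ⟨l, Finset.mem_univ _, hz1⟩, hz2⟩)
    refine ⟨z, ?_, hz⟩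
    rintro rfl
    obtain ⟨c0, hc0, δ, hδ, hsz⟩ := mat_size h
    have h1 : ∀ᶠ t in 𝓝[≠] (0 : ℂ), c0 ≤ ‖(A (pt g N C t)).2 / t ^ N‖ := by
      refine F6_ev' hδ fun t h0 h1 => ?_
      rw [norm_div, norm_pow, le_div_iff₀ (by positivity)]
      exact (hsz t h0 h1 C).1
    have h2 := ge_of_tendsto hz.norm h1
    rw [norm_zero] at h2
    linarith
  -- a cluster
  have hc : Nonempty (Fin c) := by
    by_contra hcon
    rw [not_nonempty_iff] at hcon
    have h1 := h.hC.hmn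
    rw [Finset.univ_eq_empty, Finset.sum_empty] at h1
    have := h.hn
    omega
  obtain ⟨C0⟩ := hc
  obtain ⟨ω, hω, hlim⟩ := key C0
  have hgs : ∀ ε > (0 : ℝ), ∀ᶠ t in 𝓝[≠] (0 : ℂ), ∀ C, ‖g C t‖ ≤ ε * ‖t‖ ^ N := by
    intro ε hε
    rw [eventually_all]
    intro C
    filter_upwards [(h.hC.gsm C).def hε] with t ht
    rwa [norm_pow] at ht
  refine ⟨ω, hω, ?_, ?_⟩
  · intro C
    have h1 : Tendsto (fun t : ℂ => (A (pt g N C t)).2 / t ^ N - (A (pt g N C0 t)).2 / t ^ N)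
        (𝓝[≠] 0) (𝓝 0) := by
      rw [Metric.tendsto_nhds]
      intro ε hε
      filter_upwards [hgs (ε / (4 * L)) (by positivity), F6_pt h, F6_pos] with t h2 h3 h4
      rw [dist_zero_right, ← sub_div, norm_div, norm_pow, div_lt_iff₀ (by positivity)]
      have h5 := h.hco.lipA (pt g N C t) (by rw [mem_ball_zero_iff]; exact (h3 C).2.1)
        (pt g N C0 t) (by rw [mem_ball_zero_iff]; exact (h3 C0).2.1)
      have h6 : ‖pt g N C t - pt g N C0 t‖ ≤ ε / (4 * L) * ‖t‖ ^ N + ε / (4 * L) * ‖t‖ ^ N := by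
        have e1 : pt g N C t - pt g N C0 t = (g C t - g C0 t, 0) := by
          unfold pt
          ext <;> simp
        rw [e1, Prod.norm_def, norm_zero]
        apply max_le _ (by positivity)
        exact (norm_sub_le _ _).trans (add_le_add (h2 C) (h2 C0))
      calc ‖(A (pt g N C t)).2 - (A (pt g N C0 t)).2‖ ≤ ‖A (pt g N C t) - A (pt g N C0 t)‖ :=
            norm_snd_le (A (pt g N C t) - A (pt g N C0 t))
        _ ≤ L * (ε / (4 * L) * ‖t‖ ^ N + ε / (4 * L) * ‖t‖ ^ N) :=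
            h5.trans (mul_le_mul_of_nonneg_left h6 hL0.le)
        _ = ε / 2 * ‖t‖ ^ N := by
            field_simp
            ring
        _ < ε * ‖t‖ ^ N := by
            apply mul_lt_mul_of_pos_right _ (by positivity)
            linarith
    have h2 := h1.add hlim
    rw [zero_add] at h2
    refine h2.congr fun t => ?_
    ring
  · intro ε hε
    have hlim' := (Metric.tendsto_nhds.mp hlim) (ε / 4) (by positivity)
    obtain ⟨δ1, hδ1, hev⟩ := F6_ev ((hgs (ε / (4 * L)) (by positivity)).and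
      (hlim'.and (F6_pt h)))
    refine ⟨min (min (δ1 ^ N) (ρ / 2)) (min 1 (ε / (4 * L))), by positivity, ?_⟩
    intro x y hy hx
    have hy1 : ‖y‖ < δ1 ^ N := hy.trans_le ((min_le_left _ _).trans (min_le_left _ _))
    have hyρ : ‖y‖ < ρ / 2 := hy.trans_le ((min_le_left _ _).trans (min_le_right _ _))
    have hx1 : ‖x‖ ≤ ‖y‖ := by
      refine hx.trans ?_
      calc _ ≤ 1 * ‖y‖ := mul_le_mul_of_nonneg_right
            ((min_le_right _ _).trans (min_le_left _ _)) (norm_nonneg _)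
        _ = ‖y‖ := one_mul _
    have hxε : ‖x‖ ≤ ε / (4 * L) * ‖y‖ :=
      hx.trans (mul_le_mul_of_nonneg_right
        ((min_le_right _ _).trans (min_le_right _ _)) (norm_nonneg _))
    rcases eq_or_ne y 0 with hy0 | hy0
    · subst hy0
      rw [norm_zero] at hx1
      have hx0 : x = 0 := norm_eq_zero.mp (le_antisymm hx1 (norm_nonneg _))
      subst hx0
      have : A ((0 : ℂ), (0 : ℂ)) = 0 := h.hco.A0
      rw [this]
      simp
    · obtain ⟨t, ht⟩ := IsAlgClosed.exists_pow_nat_eq y (show 0 < N by omega)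
      have ht0 : 0 < ‖t‖ := by
        rw [norm_pos_iff]
        rintro rfl
        rw [zero_pow (by omega)] at ht
        exact hy0 ht.symm
      have htn : ‖t‖ ^ N = ‖y‖ := by rw [← ht, norm_pow]
      have ht1 : ‖t‖ < δ1 := by
        apply lt_of_pow_lt_pow_left₀ N hδ1.le
        rw [htn]
        exact hy1
      obtain ⟨h1, h2, h3⟩ := hev t ht0 ht1
      have h4 := h1 C0
      rw [htn] at h4
      rw [dist_eq_norm] at h2
      have hyn : 0 < ‖y‖ := norm_pos_iff.mpr hy0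
      have h5 : ‖(A (pt g N C0 t)).2 - ω * y‖ ≤ ε / 4 * ‖y‖ := by
        have e1 : (A (pt g N C0 t)).2 - ω * y = ((A (pt g N C0 t)).2 / t ^ N - ω) * y := by
          rw [ht]
          field_simp
        rw [e1, norm_mul]
        exact mul_le_mul_of_nonneg_right h2.le (norm_nonneg _)
      have hxyρ : ‖((x, y) : ℂ × ℂ)‖ < ρ := by
        rw [Prod.norm_def]
        exact max_lt (by linarith) (by linarith)
      have h6 := h.hco.lipA (x, y) (by rwa [mem_ball_zero_iff]) (pt g N C0 t)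
        (by rw [mem_ball_zero_iff]; exact (h3 C0).2.1)
      have h7 : ‖((x, y) : ℂ × ℂ) - pt g N C0 t‖ ≤
          ε / (4 * L) * ‖y‖ + ε / (4 * L) * ‖y‖ := by
        have e1 : ((x, y) : ℂ × ℂ) - pt g N C0 t = (x - g C0 t, 0) := by
          unfold pt
          rw [ht]
          ext <;> simp
        rw [e1, Prod.norm_def, norm_zero]
        apply max_le _ (by positivity)
        exact (norm_sub_le _ _).trans (add_le_add hxε h4)
      have e2 : (A (x, y)).2 - ω * y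
          = ((A (x, y)).2 - (A (pt g N C0 t)).2) + ((A (pt g N C0 t)).2 - ω * y) := by ring
      calc ‖(A (x, y)).2 - ω * y‖
          = ‖((A (x, y)).2 - (A (pt g N C0 t)).2) + ((A (pt g N C0 t)).2 - ω * y)‖ := by
            rw [← e2]
        _ ≤ ‖(A (x, y)).2 - (A (pt g N C0 t)).2‖ + ‖(A (pt g N C0 t)).2 - ω * y‖ :=
            norm_add_le _ _
        _ ≤ L * (ε / (4 * L) * ‖y‖ + ε / (4 * L) * ‖y‖) + ε / 4 * ‖y‖ := by
            apply add_le_add _ h5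
            refine (norm_snd_le (A (x, y) - A (pt g N C0 t))).trans ?_
            exact h6.trans (mul_le_mul_of_nonneg_left h7 hL0.le)
        _ = 3 / 4 * ε * ‖y‖ := by
            field_simp
            ring
        _ ≤ ε * ‖y‖ := by
            apply mul_le_mul_of_nonneg_right _ (norm_nonneg _)
            linarith

end H24.LS
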