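import Pool.Agent.H24.LS.P0
import Pool.Agent.H24.LS.V0
import Pool.Agent.H24.LS.F0
import Pool.Agent.H24.LS.F3
import Pool.Agent.H24.LS.F4
import Pool.Agent.H24.LS.F6

/-!
# F9: the root scale: `A` is close to `x ↦ α x` in the first component near the line

`Th A g N C t s = ((A (g C t + s, t^N)).1 - (A (pt g N C t)).1)/s`.

Proof of `alpha_exists`.  Put `Q = u/(u' ω^{k-1-n})`, `Z` = its `(n+1)`-th roots (nonzero).
Fix `C` (`c ≥ 1` as `n ≥ 1`).  For `s = σ ‖t‖^N` with `σ ∈ [σ2, σ1]`: `aff` (given `ε`, `R = 1`; holds for `σ1 ≤ δ` and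
`t` small depending on `σ2`, since `K ‖t‖^(b C) ≤ σ2 ‖t‖^N` eventually).  `X = 1`:
`dx F (g C t + s, t^N) = u t^e s^n (1 + o(1)) + O(ε E)` by `prodF` (`g C' = o(s)`), `E ≍ ‖t‖^e s^n` (`cE_low`);
`dx G (x0 + α s, y0) = u' y0^{k-1-n} (α s)^n (1 + O(ε))` by `PCh.fac` (for a root `t'` of `y0`: `x0, γ'_l t' = o(s)`;
`t'^{N(k-1-n)} = y0^{k-1-n} = (ω + o(1))^{k-1-n} t^{N(k-1-n)}`).  So `α_s^{n+1} = Q (1 + O(ε))`, and `Th` is within `ε` of `α_s`.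
Hence: for every `ε` there is `σ1` such that for every `σ2` and all small `t`, `Th A g N C t (σ‖t‖^N)` is within `ε` of
`Z` for `σ ∈ [σ2, σ1]`.  Let `ε0` = a third of the minimal distance of points of `Z` (or `1` if `Z` is a singleton),
with its `σ1 = σ*`.  The function `(t, σ) ↦ Th A g N C t (σ ‖t‖^N)` is continuous on
`{0 < ‖t‖ < δ(σ2)} × [σ2, σ*]`, connected, so it is near one point `α ∈ Z`, the same for all `σ2` (these sets are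
nested in `σ2`, intersect).  For smaller `ε` the point is again `α` (`σ1 ≤ σ*` w.l.o.g.).
From slices to points: given `(x,y)`, `σ2‖y‖ ≤ ‖x‖ ≤ σ1‖y‖`: choose `t`, `t^N = y`; `s = ‖x - g C t‖`, `X = (x - g C t)/s`;
`aff` with `R = 1`: `‖(A (x,y)).1 - x0 - α_s (x - g C t)‖ ≤ ε s`, `‖α_s - α‖ ≤ 2 ε`, `x0 = o(‖y‖)`, `g C t = o(‖y‖)`.
-/

open Filter Topology Metric Asymptotics

namespace H24.LS

noncomputable def Th {c : ℕ} (A : ℂ × ℂ → ℂ × ℂ) (g : Fin c → ℂ → ℂ) (N : ℕ) (C : Fin c)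
    (t : ℂ) (s : ℝ) : ℂ := ((A (g C t + s, t ^ N)).1 - (A (pt g N C t)).1) / s

theorem F9_ev {P : ℂ → Prop} (h : ∀ᶠ t in 𝓝[≠] (0 : ℂ), P t) :
    ∃ δ > (0 : ℝ), ∀ t : ℂ, 0 < ‖t‖ → ‖t‖ < δ → P t := by
  rw [eventually_nhdsWithin_iff, Metric.eventually_nhds_iff] at h
  obtain ⟨δ, hδ, hP⟩ := h
  refine ⟨δ, hδ, fun t h1 h2 => hP (by simpa using h2) ?_⟩
  exact norm_pos_iff.1 h1

theorem F9_pow (a w : ℂ) (Q η : ℝ) (ha : ‖a‖ ≤ Q) (hw : ‖w‖ ≤ Q) (hη : 0 ≤ η)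
    (h : ‖a - w‖ ≤ η * Q) (k : ℕ) : ‖a ^ k - w ^ k‖ ≤ k * η * Q ^ k := by
  have hQ : 0 ≤ Q := (norm_nonneg _).trans ha
  induction k with
  | zero => simp
  | succ k ih =>
    have e : a ^ (k + 1) - w ^ (k + 1) = a * (a ^ k - w ^ k) + (a - w) * w ^ k := by ring
    rw [e]
    refine (norm_add_le _ _).trans ?_
    rw [norm_mul, norm_mul, norm_pow]
    have h1 : ‖a‖ * ‖a ^ k - w ^ k‖ ≤ Q * (k * η * Q ^ k) :=
      mul_le_mul ha ih (norm_nonneg _) hQ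
    have h2 : ‖a - w‖ * ‖w‖ ^ k ≤ (η * Q) * Q ^ k :=
      mul_le_mul h (pow_le_pow_left₀ (norm_nonneg _) hw _) (by positivity) (by positivity)
    calc _ ≤ Q * (k * η * Q ^ k) + (η * Q) * Q ^ k := add_le_add h1 h2
      _ = _ := by push_cast; ring

theorem F9_prod {ι : Type*} (S : Finset ι) (z : ι → ℂ) (m : ι → ℕ) (w : ℂ) (Q η : ℝ)
    (hη : 0 ≤ η) (hw : ‖w‖ ≤ Q) (hz : ∀ i ∈ S, ‖z i‖ ≤ Q) (hzw : ∀ i ∈ S, ‖z i - w‖ ≤ η * Q) :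
    ‖∏ i ∈ S, z i ^ m i - w ^ (∑ i ∈ S, m i)‖ ≤ (∑ i ∈ S, m i : ℕ) * η * Q ^ (∑ i ∈ S, m i) := by
  classical
  have hQ : 0 ≤ Q := (norm_nonneg _).trans hw
  induction S using Finset.induction_on with
  | empty => simp
  | insert i S hi ih =>
    have ih' := ih (fun j hj => hz j (Finset.mem_insert_of_mem hj))
      (fun j hj => hzw j (Finset.mem_insert_of_mem hj))
    rw [Finset.prod_insert hi, Finset.sum_insert hi]
    set P := ∏ j ∈ S, z j ^ m j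
    set M := ∑ j ∈ S, m j
    have e : z i ^ m i * P - w ^ (m i + M) = z i ^ m i * (P - w ^ M) +
        (z i ^ m i - w ^ m i) * w ^ M := by rw [pow_add]; ring
    rw [e]
    refine (norm_add_le _ _).trans ?_
    rw [norm_mul, norm_mul, norm_pow, norm_pow]
    have hzi := hz i (Finset.mem_insert_self _ _)
    have h1 : ‖z i‖ ^ m i * ‖P - w ^ M‖ ≤ Q ^ m i * (M * η * Q ^ M) :=
      mul_le_mul (pow_le_pow_left₀ (norm_nonneg _) hzi _) ih' (norm_nonneg _) (by positivity)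
    have h2 : ‖z i ^ m i - w ^ m i‖ * ‖w‖ ^ M ≤ (m i * η * Q ^ m i) * Q ^ M :=
      mul_le_mul (F9_pow _ _ _ _ hzi hw hη (hzw i (Finset.mem_insert_self _ _)) _)
        (pow_le_pow_left₀ (norm_nonneg _) hw _) (by positivity) (by positivity)
    calc _ ≤ Q ^ m i * (M * η * Q ^ M) + (m i * η * Q ^ m i) * Q ^ M := add_le_add h1 h2
      _ = _ := by push_cast; ring

theorem F9_root (n : ℕ) (Q z : ℂ) (ε : ℝ) (hε : 0 < ε)
    (h : ‖z ^ (n + 1) - Q‖ < ε ^ (n + 1)) : ∃ ζ : ℂ, ζ ^ (n + 1) = Q ∧ ‖z - ζ‖ < ε := by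
  obtain ⟨a, ha⟩ := IsAlgClosed.exists_pow_nat_eq Q (Nat.succ_pos n)
  have hp := Complex.isPrimitiveRoot_exp (n + 1) (Nat.succ_ne_zero n)
  set w := Complex.exp (2 * Real.pi * Complex.I / ((n + 1 : ℕ) : ℂ)) with hw
  have hprod := X_pow_sub_C_eq_prod hp (Nat.succ_pos n) ha
  have h1 := congrArg (Polynomial.eval z) hprod
  simp only [Polynomial.eval_sub, Polynomial.eval_pow, Polynomial.eval_X, Polynomial.eval_C,
    Polynomial.eval_prod] at h1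
  by_contra hcon
  push Not at hcon
  have h2 : ε ^ (n + 1) ≤ ‖z ^ (n + 1) - Q‖ := by
    rw [h1, norm_prod]
    calc ε ^ (n + 1) = ∏ _i ∈ Finset.range (n + 1), ε := by
          rw [Finset.prod_const, Finset.card_range]
      _ ≤ _ := Finset.prod_le_prod (fun _ _ => hε.le) (fun i _ => ?_)
    refine hcon _ ?_
    rw [mul_pow, ← pow_mul, mul_comm i, pow_mul, hp.pow_eq_one, one_pow, one_mul, ha]
  linarith

theorem F9_sep (n : ℕ) (Q : ℂ) : ∃ d > (0 : ℝ), ∀ ζ ζ' : ℂ, ζ ^ (n + 1) = Q → ζ' ^ (n + 1) = Q →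
    ζ ≠ ζ' → d ≤ ‖ζ - ζ'‖ := by
  classical
  set Z : Finset ℂ := (Polynomial.nthRoots (n + 1) Q).toFinset with hZ
  have hmem : ∀ ζ, ζ ∈ Z ↔ ζ ^ (n + 1) = Q := fun ζ => by
    rw [hZ, Multiset.mem_toFinset, Polynomial.mem_nthRoots (Nat.succ_pos n)]
  have h1 : ∀ᶠ d in 𝓝[>] (0 : ℝ), ∀ p ∈ Z.offDiag, d < ‖p.1 - p.2‖ := by
    rw [eventually_all_finset]
    intro p hp
    rw [Finset.mem_offDiag] at hp
    have : 0 < ‖p.1 - p.2‖ := norm_pos_iff.2 (sub_ne_zero.2 hp.2.2)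
    exact nhdsWithin_le_nhds (gt_mem_nhds this)
  obtain ⟨d, hd, hd0⟩ := (h1.and self_mem_nhdsWithin).exists
  exact ⟨d, hd0, fun ζ ζ' h h' hne => (hd (ζ, ζ') (by
    rw [Finset.mem_offDiag]; exact ⟨(hmem _).2 h, (hmem _).2 h', hne⟩)).le⟩

theorem F9_conn {S : Set (ℂ × ℝ)} (hS : IsPreconnected S) (f : ℂ × ℝ → ℂ) (hf : ContinuousOn f S)
    (Z : Set ℂ) (e d : ℝ) (he : 0 < e) (hd : 3 * e ≤ d)
    (hsep : ∀ ζ ∈ Z, ∀ ζ' ∈ Z, ζ ≠ ζ' → d ≤ ‖ζ - ζ'‖)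
    (hZ : ∀ p ∈ S, ∃ ζ ∈ Z, ‖f p - ζ‖ < e) (a : ℂ) (ha : a ∈ Z) (p0 : ℂ × ℝ) (hp0 : p0 ∈ S)
    (h0 : ‖f p0 - a‖ < e) : ∀ p ∈ S, ‖f p - a‖ < e := by
  have hcon := hS.image f hf
  have hu : IsOpen {z : ℂ | ‖z - a‖ < e} :=
    isOpen_lt (continuous_id.sub continuous_const).norm continuous_const
  have hv : IsOpen {z : ℂ | 2 * e < ‖z - a‖} :=
    isOpen_lt continuous_const (continuous_id.sub continuous_const).norm
  have huv : Disjoint {z : ℂ | ‖z - a‖ < e} {z : ℂ | 2 * e < ‖z - a‖} := by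
    rw [Set.disjoint_left]
    intro z hz hz'
    simp only [Set.mem_ofPred_eq] at hz hz'
    linarith
  have hsub : f '' S ⊆ {z : ℂ | ‖z - a‖ < e} ∪ {z : ℂ | 2 * e < ‖z - a‖} := by
    rintro _ ⟨p, hp, rfl⟩
    obtain ⟨ζ, hζ, hpζ⟩ := hZ p hp
    by_cases hc : ζ = a
    · left
      rw [← hc]
      exact hpζ
    · right
      have h1 := hsep ζ hζ a ha hc
      have h2 : ‖ζ - a‖ ≤ ‖f p - ζ‖ + ‖f p - a‖ := by
        have : ζ - a = -(f p - ζ) + (f p - a) := by ring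
        rw [this]
        refine (norm_add_le _ _).trans ?_
        rw [norm_neg]
      simp only [Set.mem_ofPred_eq]
      linarith
  have := hcon.subset_left_of_subset_union hu hv huv hsub ⟨f p0, ⟨p0, hp0, rfl⟩, h0⟩
  intro p hp
  exact this ⟨p, hp, rfl⟩

/-- powers with a larger real exponent are eventually small -/
theorem F9_rpow {b : ℝ} {N : ℕ} (hb : (N : ℝ) < b) (K σ : ℝ) (hσ : 0 < σ) :
    ∀ᶠ t in 𝓝[≠] (0 : ℂ), K * ‖t‖ ^ b ≤ σ * ‖t‖ ^ N := by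
  have h1 : Tendsto (fun t : ℂ => K * ‖t‖ ^ (b - N)) (𝓝[≠] 0) (𝓝 0) := by
    have h2 : Tendsto (fun t : ℂ => ‖t‖) (𝓝[≠] 0) (𝓝 0) := by
      have : Tendsto (fun t : ℂ => ‖t‖) (𝓝 0) (𝓝 0) := by
        have := (continuous_norm (E := ℂ)).tendsto 0
        simpa using this
      exact this.mono_left nhdsWithin_le_nhds
    have h3 : Tendsto (fun x : ℝ => x ^ (b - N)) (𝓝 0) (𝓝 0) := by
      have hc : ContinuousAt (fun x : ℝ => x ^ (b - N)) 0 :=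
        Real.continuousAt_rpow_const _ _ (Or.inr (by linarith))
      have := hc.tendsto
      rwa [Real.zero_rpow (by linarith)] at this
    have h4 := (h3.comp h2).const_mul K
    simpa using h4
  filter_upwards [h1.eventually (gt_mem_nhds hσ), self_mem_nhdsWithin] with t ht h0
  have ht0 : 0 < ‖t‖ := norm_pos_iff.2 h0
  have e : ‖t‖ ^ b = ‖t‖ ^ (b - N) * ‖t‖ ^ N := by
    rw [← Real.rpow_natCast ‖t‖ N, ← Real.rpow_add ht0]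
    congr 1
    ring
  rw [e, ← mul_assoc]
  exact mul_le_mul_of_nonneg_right ht.le (by positivity)

variable {F G : ℂ × ℂ → ℂ} {k n N : ℕ} {u u' : ℂ} {c : ℕ} {m : Fin c → ℕ}
    {b : Fin c → ℝ} {g v : Fin c → ℂ → ℂ} {a : Fin c → ℂ} {D : Fin c → ℕ}
    {γ' : Fin n → ℂ → ℂ} {A B : ℂ × ℂ → ℂ × ℂ} {L ρ : ℝ}

/-- smallness of the base point of a slice -/
theorem F9_base (h : Mat F G k n n N u u' c m b g v a D γ' A B L ρ) (C : Fin c) {ε : ℝ}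
    (hε : 0 < ε) : ∀ᶠ t in 𝓝[≠] (0 : ℂ), (∀ C', ‖g C' t‖ ≤ ε * ‖t‖ ^ N) ∧
      ‖(A (pt g N C t)).1‖ ≤ ε * ‖(A (pt g N C t)).2‖ := by
  obtain ⟨δ, hδ, hc⟩ := h.cone ε hε
  have h1 : ∀ η > (0 : ℝ), ∀ᶠ t in 𝓝[≠] (0 : ℂ), ∀ C', ‖g C' t‖ ≤ η * ‖t‖ ^ N := by
    intro η hη
    rw [eventually_all]
    intro C'
    have := isLittleO_iff.1 (h.hC.gsm C') hη
    filter_upwards [this] with t ht
    rwa [norm_pow] at ht
  have h2 : ∀ᶠ t in 𝓝[≠] (0 : ℂ), ‖t ^ N‖ < δ := by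
    have : Tendsto (fun t : ℂ => ‖t ^ N‖) (𝓝 0) (𝓝 0) := by
      have := ((continuous_pow N).norm (E := ℂ)).tendsto (0 : ℂ)
      have hN := h.hC.hN
      simpa [zero_pow (by omega : N ≠ 0)] using this
    exact nhdsWithin_le_nhds (this.eventually (gt_mem_nhds hδ))
  filter_upwards [h1 ε hε, h1 δ hδ, h2] with t a1 a2 a3
  refine ⟨a1, hc _ _ a3 ?_⟩
  rw [norm_pow]
  exact a2 C

/-- the error estimate in one slice -/
theorem F9_slice (h : Mat F G k n n N u u' c m b g v a D γ' A B L ρ) (ω : ℂ)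
    (hlim : ∀ C, Tendsto (fun t : ℂ => (A (pt g N C t)).2 / t ^ N) (𝓝[≠] 0) (𝓝 ω))
    (C : Fin c) {ε : ℝ} (hε : 0 < ε) :
    ∃ σ1 > (0 : ℝ), ∀ σ2 > (0 : ℝ), ∀ᶠ t in 𝓝[≠] (0 : ℂ), ∀ σ : ℝ, σ2 ≤ σ → σ ≤ σ1 →
      ∃ α : ℂ, ‖α‖ ≤ L ∧
        (∀ X : ℂ, ‖X‖ ≤ 1 → ‖(A (g C t + ((σ * ‖t‖ ^ N : ℝ) : ℂ) * X, t ^ N)).1 -
          (A (pt g N C t)).1 - α * (((σ * ‖t‖ ^ N : ℝ) : ℂ) * X)‖ ≤ ε * (σ * ‖t‖ ^ N)) ∧
        ‖α ^ (n + 1) * ω ^ (k - 1 - n) * u' - u‖ ≤ ε := by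
  have hL := h.hco.hL
  have hL0 : 0 < L := by linarith
  have hN1 := h.hC.hN
  set κ := k - 1 - n with hκ
  set e := N * κ with he
  set W := ‖ω‖ with hW
  have hW0 : 0 ≤ W := norm_nonneg _
  -- constants
  set C1 : ℝ := ‖u‖ * (n * 2 ^ n) + L * ‖u'‖ * L ^ κ * (n * (L + 1) ^ n) +
    L * ‖u'‖ * L ^ n * (κ * (L + W + 1) ^ κ) with hC1
  have hC10 : 0 ≤ C1 := by positivity
  set C2 : ℝ := L * L ^ κ * (L + 1) ^ n with hC2
  have hC20 : 0 < C2 := by positivity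
  set η : ℝ := min 1 (ε / (4 * (C1 + 1))) with hη
  have hη0 : 0 < η := lt_min one_pos (by positivity)
  have hη1 : η ≤ 1 := min_le_left _ _
  have hηC : η * C1 ≤ ε / 4 := by
    have h1 : η * C1 ≤ ε / (4 * (C1 + 1)) * C1 :=
      mul_le_mul_of_nonneg_right (min_le_right _ _) hC10
    have h2 : ε / (4 * (C1 + 1)) * C1 = ε / 4 * (C1 / (C1 + 1)) := by
      field_simp
    have h3 : C1 / (C1 + 1) ≤ 1 := by rw [div_le_one (by positivity)]; linarith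
    rw [h2] at h1
    exact h1.trans (mul_le_of_le_one_right (by positivity) h3)
  obtain ⟨K1, hK1, δ1, hδ1, hP⟩ := prodF h.hC 1 le_rfl (ε / (4 * 4 ^ n)) (by positivity)
  obtain ⟨a0, ha0, haff⟩ := aff h
  obtain ⟨K2, hK2, δ2, hδ2, hA⟩ := haff 1 le_rfl (min ε (ε / (4 * 4 ^ n))) (by positivity)
  obtain ⟨δ3, hδ3, hcE⟩ := cE_low h.hC e
  obtain ⟨δ4, hδ4, hfac⟩ := h.hG.fac (ε / (4 * C2)) (by positivity)
  obtain ⟨c0, hc0, δ5, hδ5, hsize⟩ := mat_size h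
  refine ⟨min (min δ1 δ2) (δ4 * c0 / (4 * L)), by positivity, fun σ2 hσ2 => ?_⟩
  -- smallness conditions on `t`
  have ev1 : ∀ r > (0 : ℝ), ∀ᶠ t in 𝓝[≠] (0 : ℂ), 0 < ‖t‖ ∧ ‖t‖ < r := by
    intro r hr
    have : ∀ᶠ t in 𝓝[≠] (0 : ℂ), t ∈ ball (0 : ℂ) r :=
      nhdsWithin_le_nhds (ball_mem_nhds _ hr)
    filter_upwards [this, self_mem_nhdsWithin] with t h1 h2
    exact ⟨norm_pos_iff.2 h2, by simpa using h1⟩
  have evK := F9_rpow (h.hC.hb C) (max (max K1 K2) 1) σ2 hσ2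
  have evB := F9_base h C (show (0 : ℝ) < min (η * σ2 / (4 * L)) (δ4 / 4) by positivity)
  have evW : ∀ᶠ t in 𝓝[≠] (0 : ℂ), ‖(A (pt g N C t)).2 / t ^ N - ω‖ < η := by
    have := (hlim C).eventually (ball_mem_nhds ω hη0)
    filter_upwards [this] with t ht
    rwa [← dist_eq_norm]
  -- the polar arcs of `G`
  obtain ⟨δ6, hδ6, hγ⟩ : ∃ δ > (0 : ℝ), ∀ t : ℂ, 0 < ‖t‖ → ‖t‖ < δ → ∀ l,
      ‖γ' l t‖ ≤ η * σ2 / (4 * L) * ‖t‖ ^ N := by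
    apply F9_ev
    rw [eventually_all]
    intro l
    have := isLittleO_iff.1 (h.hG.γsm l) (show (0 : ℝ) < η * σ2 / (4 * L) by positivity)
    filter_upwards [this] with t ht
    rwa [norm_pow] at ht
  set r6 : ℝ := min δ4 δ6 with hr6
  have hr60 : 0 < r6 := lt_min hδ4 hδ6
  have evR : ∀ᶠ t in 𝓝[≠] (0 : ℂ), L * ‖t‖ ^ N < r6 ^ N := by
    have h1 : Tendsto (fun t : ℂ => L * ‖t‖ ^ N) (𝓝 0) (𝓝 0) := by
      have := (continuous_const.mul ((continuous_norm (E := ℂ)).pow N)).tendsto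
        (0 : ℂ) (f := fun t : ℂ => L * ‖t‖ ^ N)
      simpa [zero_pow (by omega : N ≠ 0)] using this
    exact nhdsWithin_le_nhds (h1.eventually (gt_mem_nhds (by positivity)))
  filter_upwards [ev1 δ1 hδ1, ev1 δ2 hδ2, ev1 δ3 hδ3, ev1 δ5 hδ5, evK, evB, evW, evR] with t
    ⟨ht0, ht1⟩ ⟨_, ht2⟩ ⟨_, ht3⟩ ⟨_, ht5⟩ hK hB hWt hR σ hσa hσb
  have htN : 0 < ‖t‖ ^ N := by positivity
  have htne : t ≠ 0 := norm_pos_iff.1 ht0
  set s : ℝ := σ * ‖t‖ ^ N with hs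
  have hs2 : σ2 * ‖t‖ ^ N ≤ s := mul_le_mul_of_nonneg_right hσa htN.le
  have hs0 : 0 < s := lt_of_lt_of_le (by positivity) hs2
  have hb0 : 0 ≤ ‖t‖ ^ b C := by positivity
  have hηs : η * s ≤ s := mul_le_of_le_one_left hs0.le hη1
  have hηs0 : 0 ≤ η * s := by positivity
  have hKs : ∀ K ≤ max (max K1 K2) 1, K * ‖t‖ ^ b C ≤ s := fun K hKm =>
    (mul_le_mul_of_nonneg_right hKm hb0).trans (hK.trans hs2)
  have hsK1 := hKs K1 ((le_max_left _ _).trans (le_max_left _ _))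
  have hsK2 := hKs K2 ((le_max_right _ _).trans (le_max_left _ _))
  have hsK3 := hKs 1 (le_max_right _ _)
  rw [one_mul] at hsK3
  have hsδ : ∀ δ, σ ≤ δ → s ≤ δ * ‖t‖ ^ N := fun δ hδ =>
    mul_le_mul_of_nonneg_right hδ htN.le
  have hσ1 : σ ≤ δ1 := hσb.trans ((min_le_left _ _).trans (min_le_left _ _))
  have hσ2' : σ ≤ δ2 := hσb.trans ((min_le_left _ _).trans (min_le_right _ _))
  have hσ3 : σ ≤ δ4 * c0 / (4 * L) := hσb.trans (min_le_right _ _)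
  obtain ⟨α, hα0, hαL, hX1, hX2⟩ := hA t ht0 ht2 C s hsK2 (hsδ _ hσ2')
  refine ⟨α, hαL, fun X hX => (hX1 X hX).trans
    (mul_le_mul_of_nonneg_right (min_le_left _ _) hs0.le), ?_⟩
  -- notation
  set x0 := (A (pt g N C t)).1 with hx0
  set y0 := (A (pt g N C t)).2 with hy0
  obtain ⟨hy1, hy2⟩ := hsize t ht0 ht5 C
  rw [← hy0] at hy1 hy2
  have hy00 : 0 < ‖y0‖ := lt_of_lt_of_le (by positivity) hy1
  -- smallness of the centres and of the base point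
  have hg : ∀ C', ‖g C' t‖ ≤ η / 2 * s := by
    intro C'
    have h1 := hB.1 C'
    have h2 : min (η * σ2 / (4 * L)) (δ4 / 4) * ‖t‖ ^ N ≤ η * σ2 / (4 * L) * ‖t‖ ^ N :=
      mul_le_mul_of_nonneg_right (min_le_left _ _) htN.le
    have h3 : η * σ2 / (4 * L) ≤ η / 2 * σ2 := by
      rw [div_le_iff₀ (by positivity)]
      have h4 := mul_pos hη0 hσ2
      have h5 := mul_le_mul_of_nonneg_left hL h4.le
      nlinarith [h4, h5]
    calc ‖g C' t‖ ≤ η * σ2 / (4 * L) * ‖t‖ ^ N := h1.trans h2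
      _ ≤ η / 2 * σ2 * ‖t‖ ^ N := mul_le_mul_of_nonneg_right h3 htN.le
      _ = η / 2 * (σ2 * ‖t‖ ^ N) := by ring
      _ ≤ η / 2 * s := mul_le_mul_of_nonneg_left hs2 (by positivity)
  have hx0a : ‖x0‖ ≤ η / 4 * s := by
    have h1 : ‖x0‖ ≤ η * σ2 / (4 * L) * ‖y0‖ :=
      hB.2.trans (mul_le_mul_of_nonneg_right (min_le_left _ _) (norm_nonneg _))
    calc ‖x0‖ ≤ η * σ2 / (4 * L) * ‖y0‖ := h1
      _ ≤ η * σ2 / (4 * L) * (L * ‖t‖ ^ N) := mul_le_mul_of_nonneg_left hy2 (by positivity)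
      _ = η / 4 * (σ2 * ‖t‖ ^ N) := by field_simp
      _ ≤ η / 4 * s := mul_le_mul_of_nonneg_left hs2 (by positivity)
  have hx0b : ‖x0‖ ≤ δ4 / 4 * ‖y0‖ :=
    hB.2.trans (mul_le_mul_of_nonneg_right (min_le_right _ _) (norm_nonneg _))
  -- a root of `y0`
  obtain ⟨t', ht'⟩ := IsAlgClosed.exists_pow_nat_eq y0 (show 0 < N by omega)
  have ht'n : ‖t'‖ ^ N = ‖y0‖ := by rw [← norm_pow, ht']
  have ht'0 : 0 < ‖t'‖ := by
    rcases (norm_nonneg t').eq_or_lt with h1 | h1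
    · rw [← h1, zero_pow (by omega : N ≠ 0)] at ht'n
      linarith
    · exact h1
  have ht'r : ‖t'‖ < r6 := by
    apply lt_of_pow_lt_pow_left₀ N hr60.le
    rw [ht'n]
    exact lt_of_le_of_lt hy2 hR
  have hγs : ∀ l, ‖γ' l t'‖ ≤ η / 4 * s := by
    intro l
    have h1 := hγ t' ht'0 (lt_of_lt_of_le ht'r (min_le_right _ _)) l
    rw [ht'n] at h1
    calc ‖γ' l t'‖ ≤ η * σ2 / (4 * L) * ‖y0‖ := h1
      _ ≤ η * σ2 / (4 * L) * (L * ‖t‖ ^ N) := mul_le_mul_of_nonneg_left hy2 (by positivity)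
      _ = η / 4 * (σ2 * ‖t‖ ^ N) := by field_simp
      _ ≤ η / 4 * s := mul_le_mul_of_nonneg_left hs2 (by positivity)
  -- the two values of the derivatives
  set E : ℝ := ‖t‖ ^ e * s ^ n with hE
  have hE0 : 0 < E := by positivity
  have hsc : ‖(s : ℂ)‖ = s := by rw [Complex.norm_real, Real.norm_of_nonneg hs0.le]
  have hcEu : cE e m b g C s t ≤ 4 ^ n * E := by
    have h1 := (hcE t ht0 ht3 C s hsK3).2
    have h2 : ∏ C', (s + ‖g C t - g C' t‖) ^ m C' ≤ ∏ C', (2 * s) ^ m C' := by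
      refine Finset.prod_le_prod (fun C' _ => by positivity) (fun C' _ => ?_)
      refine pow_le_pow_left₀ (by positivity) ?_ _
      have h3 := norm_sub_le (g C t) (g C' t)
      have h4 := hg C
      have h5 := hg C'
      linarith [hηs, hηs0]
    rw [Finset.prod_pow_eq_pow_sum, h.hC.hmn] at h2
    calc cE e m b g C s t ≤ 2 ^ n * (‖t‖ ^ e * ∏ C', (s + ‖g C t - g C' t‖) ^ m C') := h1
      _ ≤ 2 ^ n * (‖t‖ ^ e * (2 * s) ^ n) := by gcongr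
      _ = 4 ^ n * E := by
          have h4 : (4 : ℝ) ^ n = 2 ^ n * 2 ^ n := by rw [← mul_pow]; norm_num
          rw [hE, mul_pow, h4]
          ring
  -- T1
  have T1 : ‖u * t ^ e * ∏ C', (g C t + s * 1 - g C' t) ^ m C' - u * t ^ e * (s : ℂ) ^ n‖ ≤
      ‖u‖ * (n * 2 ^ n) * η * E := by
    have h1 := F9_prod Finset.univ (fun C' => g C t + (s : ℂ) * 1 - g C' t) m (s : ℂ) (2 * s) η
      hη0.le (by rw [hsc]; linarith)
      (fun C' _ => by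
        have e1 : g C t + (s : ℂ) * 1 - g C' t = (s : ℂ) + (g C t - g C' t) := by ring
        rw [e1]
        refine (norm_add_le _ _).trans ?_
        rw [hsc]
        have h3 := norm_sub_le (g C t) (g C' t)
        have h4 := hg C
        have h5 := hg C'
        linarith [hηs, hηs0])
      (fun C' _ => by
        have e1 : g C t + (s : ℂ) * 1 - g C' t - (s : ℂ) = g C t - g C' t := by ring
        rw [e1]
        have h3 := norm_sub_le (g C t) (g C' t)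
        have h4 := hg C
        have h5 := hg C'
        linarith [hηs, hηs0])
    rw [h.hC.hmn] at h1
    rw [← mul_sub, norm_mul, norm_mul, norm_pow]
    calc ‖u‖ * ‖t‖ ^ e * _ ≤ ‖u‖ * ‖t‖ ^ e * (n * η * (2 * s) ^ n) :=
          mul_le_mul_of_nonneg_left h1 (by positivity)
      _ = _ := by rw [hE, mul_pow]; ring
  -- T2
  have T2 : ‖dx F (g C t + s * 1, t ^ N) -
      u * t ^ e * ∏ C', (g C t + s * 1 - g C' t) ^ m C'‖ ≤ ε / 4 * E := by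
    have h1 := hP t ht0 ht1 C s hsK1 (hsδ _ hσ1) 1 (by simp)
    refine h1.trans ?_
    calc ε / (4 * 4 ^ n) * cE e m b g C s t ≤ ε / (4 * 4 ^ n) * (4 ^ n * E) :=
          mul_le_mul_of_nonneg_left hcEu (by positivity)
      _ = _ := by field_simp
  -- T3
  have T3 : ‖dx F (g C t + s * 1, t ^ N) - α * dx G (x0 + α * (s * 1), y0)‖ ≤ ε / 4 * E := by
    have h1 := hX2 1 (by simp)
    refine h1.trans ?_
    calc min ε (ε / (4 * 4 ^ n)) * cE e m b g C s t ≤ ε / (4 * 4 ^ n) * (4 ^ n * E) :=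
          mul_le_mul (min_le_right _ _) hcEu (by unfold cE; positivity) (by positivity)
      _ = _ := by field_simp
  -- T4
  set x := x0 + α * (s * 1) with hx
  have hαs : ‖α * ((s : ℂ) * 1)‖ ≤ L * s := by
    rw [mul_one, norm_mul, hsc]
    exact mul_le_mul_of_nonneg_right hαL hs0.le
  have hxl : ∀ l, ‖x - γ' l t'‖ ≤ (L + 1) * s := by
    intro l
    have h1 := hγs l
    have h2 : ‖x - γ' l t'‖ ≤ ‖x0‖ + ‖α * ((s : ℂ) * 1)‖ + ‖γ' l t'‖ :=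
      (norm_sub_le _ _).trans (by rw [hx]; gcongr; exact norm_add_le _ _)
    linarith [hηs, hηs0]
  have hT4a := hfac x t' ht'0 (lt_of_lt_of_le ht'r (min_le_left _ _)) (by
    rw [ht'n]
    have h1 : ‖x‖ ≤ ‖x0‖ + ‖α * ((s : ℂ) * 1)‖ := norm_add_le _ _
    have h2 : L * s ≤ δ4 / 4 * ‖y0‖ := by
      calc L * s ≤ L * (δ4 * c0 / (4 * L) * ‖t‖ ^ N) :=
            mul_le_mul_of_nonneg_left (hsδ _ hσ3) hL0.le
        _ = δ4 / 4 * (c0 * ‖t‖ ^ N) := by field_simp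
        _ ≤ δ4 / 4 * ‖y0‖ := mul_le_mul_of_nonneg_left hy1 (by positivity)
    have h3 : δ4 / 4 * ‖y0‖ + δ4 / 4 * ‖y0‖ < δ4 * ‖y0‖ := by linarith [mul_pos hδ4 hy00]
    linarith)
  rw [← hκ, pow_mul, ht', pow_mul, ht'n] at hT4a
  have hyκ : ‖y0‖ ^ κ ≤ L ^ κ * ‖t‖ ^ e := by
    calc ‖y0‖ ^ κ ≤ (L * ‖t‖ ^ N) ^ κ := pow_le_pow_left₀ (norm_nonneg _) hy2 _
      _ = L ^ κ * ‖t‖ ^ e := by rw [mul_pow, ← pow_mul]
  have T4 : ‖α * dx G (x, y0) - α * (u' * y0 ^ κ * ∏ l, (x - γ' l t'))‖ ≤ ε / 4 * E := by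
    rw [← mul_sub, norm_mul]
    have h1 : ∏ l, ‖x - γ' l t'‖ ≤ ∏ _l : Fin n, (L + 1) * s :=
      Finset.prod_le_prod (fun l _ => norm_nonneg _) (fun l _ => hxl l)
    rw [Finset.prod_const, Finset.card_univ, Fintype.card_fin] at h1
    have h2 : ‖y0‖ ^ κ * ∏ l, ‖x - γ' l t'‖ ≤ L ^ κ * ‖t‖ ^ e * ((L + 1) * s) ^ n :=
      mul_le_mul hyκ h1 (Finset.prod_nonneg fun l _ => norm_nonneg _) (by positivity)
    calc ‖α‖ * _ ≤ L * (ε / (4 * C2) * (L ^ κ * ‖t‖ ^ e * ((L + 1) * s) ^ n)) :=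
          mul_le_mul hαL (hT4a.trans (mul_le_mul_of_nonneg_left h2 (by positivity)))
            (norm_nonneg _) hL0.le
      _ = ε / (4 * C2) * (C2 * E) := by rw [hC2, hE, mul_pow]; ring
      _ = ε / 4 * E := by field_simp
  -- T5
  have T5 : ‖α * (u' * y0 ^ κ * ∏ l, (x - γ' l t')) - α * (u' * y0 ^ κ * (α * s) ^ n)‖ ≤
      L * ‖u'‖ * L ^ κ * (n * (L + 1) ^ n) * η * E := by
    have h1 := F9_prod Finset.univ (fun l => x - γ' l t') (fun _ => 1) (α * s) ((L + 1) * s) η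
      hη0.le (by
        rw [norm_mul, hsc]
        linarith [mul_le_mul_of_nonneg_right hαL hs0.le])
      (fun l _ => hxl l)
      (fun l _ => by
        have e1 : x - γ' l t' - α * s = x0 - γ' l t' := by rw [hx]; ring
        rw [e1]
        have h2 := norm_sub_le x0 (γ' l t')
        have h3 := hγs l
        linarith [mul_pos hη0 hs0, mul_pos hL0 (mul_pos hη0 hs0)])
    simp only [pow_one, Finset.sum_const, Finset.card_univ, Fintype.card_fin, smul_eq_mul,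
      mul_one] at h1
    rw [← mul_sub, ← mul_sub, norm_mul, norm_mul, norm_mul, norm_pow]
    calc ‖α‖ * (‖u'‖ * ‖y0‖ ^ κ * _) ≤
          L * (‖u'‖ * (L ^ κ * ‖t‖ ^ e) * (n * η * ((L + 1) * s) ^ n)) := by
          refine mul_le_mul hαL ?_ (by positivity) hL0.le
          exact mul_le_mul (mul_le_mul_of_nonneg_left hyκ (norm_nonneg _)) h1 (norm_nonneg _)
            (by positivity)
      _ = _ := by rw [hE, mul_pow]; ring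
  -- T6
  have hyω : ‖y0 - ω * t ^ N‖ ≤ η * ‖t‖ ^ N := by
    have e1 : y0 - ω * t ^ N = (y0 / t ^ N - ω) * t ^ N := by
      field_simp
    rw [e1, norm_mul, norm_pow]
    exact mul_le_mul_of_nonneg_right hWt.le htN.le
  have T6 : ‖α * (u' * y0 ^ κ * (α * s) ^ n) - α * (u' * (ω * t ^ N) ^ κ * (α * s) ^ n)‖ ≤
      L * ‖u'‖ * L ^ n * (κ * (L + W + 1) ^ κ) * η * E := by
    have h1 := F9_pow y0 (ω * t ^ N) ((L + W + 1) * ‖t‖ ^ N) η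
      (by linarith [mul_nonneg hW0 htN.le])
      (by
        rw [norm_mul, norm_pow, ← hW]
        linarith [mul_pos hL0 htN])
      hη0.le
      (by
        refine hyω.trans ?_
        have : ‖t‖ ^ N ≤ (L + W + 1) * ‖t‖ ^ N := by linarith [mul_nonneg hW0 htN.le, mul_pos hL0 htN]
        exact mul_le_mul_of_nonneg_left this hη0.le) κ
    have e1 : α * (u' * y0 ^ κ * (α * s) ^ n) - α * (u' * (ω * t ^ N) ^ κ * (α * s) ^ n) =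
        α * u' * (α * s) ^ n * (y0 ^ κ - (ω * t ^ N) ^ κ) := by ring
    rw [e1, norm_mul, norm_mul, norm_mul, norm_pow, norm_mul, hsc]
    have h2 : (‖α‖ * s) ^ n ≤ (L * s) ^ n :=
      pow_le_pow_left₀ (by positivity) (mul_le_mul_of_nonneg_right hαL hs0.le) _
    calc ‖α‖ * ‖u'‖ * (‖α‖ * s) ^ n * _ ≤
          L * ‖u'‖ * (L * s) ^ n * (κ * η * ((L + W + 1) * ‖t‖ ^ N) ^ κ) := by
          refine mul_le_mul ?_ h1 (norm_nonneg _) (by positivity)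
          exact mul_le_mul (mul_le_mul_of_nonneg_right hαL (norm_nonneg _)) h2 (by positivity)
            (by positivity)
      _ = _ := by
          have h3 : ((L + W + 1) * ‖t‖ ^ N) ^ κ = (L + W + 1) ^ κ * ‖t‖ ^ e := by
            rw [mul_pow, ← pow_mul]
          rw [hE, h3, mul_pow]
          ring
  -- conclusion
  have hfin : ‖(α ^ (n + 1) * ω ^ κ * u' - u) * (t ^ e * (s : ℂ) ^ n)‖ ≤ ε * E := by
    have e1 : (α ^ (n + 1) * ω ^ κ * u' - u) * (t ^ e * (s : ℂ) ^ n) =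
        -(α * (u' * y0 ^ κ * (α * s) ^ n) - α * (u' * (ω * t ^ N) ^ κ * (α * s) ^ n))
        - (α * (u' * y0 ^ κ * ∏ l, (x - γ' l t')) - α * (u' * y0 ^ κ * (α * s) ^ n))
        - (α * dx G (x, y0) - α * (u' * y0 ^ κ * ∏ l, (x - γ' l t')))
        - (dx F (g C t + s * 1, t ^ N) - α * dx G (x, y0))
        + (dx F (g C t + s * 1, t ^ N) - u * t ^ e * ∏ C', (g C t + s * 1 - g C' t) ^ m C')
        + (u * t ^ e * ∏ C', (g C t + s * 1 - g C' t) ^ m C' - u * t ^ e * (s : ℂ) ^ n) := by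
      have e2 : (ω * t ^ N) ^ κ = ω ^ κ * t ^ e := by rw [mul_pow, ← pow_mul]
      rw [e2]
      ring
    rw [e1]
    refine (norm_add_le _ _).trans ?_
    refine (add_le_add_left ((norm_add_le _ _).trans (add_le_add_left ((norm_sub_le _ _).trans
      (add_le_add_left ((norm_sub_le _ _).trans (add_le_add_left (norm_sub_le _ _) _)) _)) _)) _).trans ?_
    rw [norm_neg]
    have hsum : ‖u‖ * (n * 2 ^ n) * η * E + L * ‖u'‖ * L ^ κ * (n * (L + 1) ^ n) * η * E +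
        L * ‖u'‖ * L ^ n * (κ * (L + W + 1) ^ κ) * η * E = η * C1 * E := by rw [hC1]; ring
    have h5 : η * C1 * E ≤ ε / 4 * E := mul_le_mul_of_nonneg_right hηC hE0.le
    linarith
  rw [norm_mul, norm_mul, norm_pow, norm_pow, hsc] at hfin
  exact le_of_mul_le_mul_right hfin hE0

/-- Claim 1: near a root, uniformly in the slice -/
theorem F9_near (h : Mat F G k n n N u u' c m b g v a D γ' A B L ρ) (ω : ℂ) (hω : ω ≠ 0)
    (hlim : ∀ C, Tendsto (fun t : ℂ => (A (pt g N C t)).2 / t ^ N) (𝓝[≠] 0) (𝓝 ω))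
    (C : Fin c) {ε : ℝ} (hε : 0 < ε) :
    ∃ σ1 > (0 : ℝ), ∀ σ2 > (0 : ℝ), ∃ δ > (0 : ℝ), ∀ t : ℂ, 0 < ‖t‖ → ‖t‖ < δ →
      ∀ σ : ℝ, σ2 ≤ σ → σ ≤ σ1 → ∃ ζ : ℂ, ζ ^ (n + 1) = u / (u' * ω ^ (k - 1 - n)) ∧
        ‖Th A g N C t (σ * ‖t‖ ^ N) - ζ‖ < ε ∧
        (∀ X : ℂ, ‖X‖ ≤ 1 → ‖(A (g C t + ((σ * ‖t‖ ^ N : ℝ) : ℂ) * X, t ^ N)).1 -
          (A (pt g N C t)).1 - ζ * (((σ * ‖t‖ ^ N : ℝ) : ℂ) * X)‖ ≤ ε * (σ * ‖t‖ ^ N)) := by
  have hu' : u' ≠ 0 := h.hG.hu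
  set R : ℂ := u' * ω ^ (k - 1 - n) with hR
  have hR0 : R ≠ 0 := mul_ne_zero hu' (pow_ne_zero _ hω)
  have hRn : 0 < ‖R‖ := norm_pos_iff.2 hR0
  obtain ⟨σ1, hσ1, hs⟩ := F9_slice h ω hlim C
    (show (0 : ℝ) < min (ε / 3) (‖R‖ * (ε / 3) ^ (n + 1) / 2) by positivity)
  refine ⟨σ1, hσ1, fun σ2 hσ2 => ?_⟩
  obtain ⟨δ, hδ, hP⟩ := F9_ev (hs σ2 hσ2)
  refine ⟨δ, hδ, fun t ht0 ht σ hσa hσb => ?_⟩
  obtain ⟨α, -, hα1, hα2⟩ := hP t ht0 ht σ hσa hσb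
  have hs0 : 0 < σ * ‖t‖ ^ N := mul_pos (lt_of_lt_of_le hσ2 hσa) (by positivity)
  have h1 : ‖α ^ (n + 1) - u / R‖ < (ε / 3) ^ (n + 1) := by
    have e1 : α ^ (n + 1) * ω ^ (k - 1 - n) * u' - u = R * (α ^ (n + 1) - u / R) := by
      rw [mul_sub, mul_div_cancel₀ _ hR0, hR]
      ring
    rw [e1, norm_mul] at hα2
    have h2 := hα2.trans (min_le_right _ _)
    have h3 : ‖R‖ * (ε / 3) ^ (n + 1) / 2 < ‖R‖ * (ε / 3) ^ (n + 1) := by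
      have : 0 < ‖R‖ * (ε / 3) ^ (n + 1) := by positivity
      linarith
    exact lt_of_mul_lt_mul_left (lt_of_le_of_lt h2 h3) hRn.le
  obtain ⟨ζ, hζ, hαζ⟩ := F9_root n _ α (ε / 3) (by positivity) h1
  have hsl : ∀ X : ℂ, ‖X‖ ≤ 1 → ‖(A (g C t + ((σ * ‖t‖ ^ N : ℝ) : ℂ) * X, t ^ N)).1 -
          (A (pt g N C t)).1 - ζ * (((σ * ‖t‖ ^ N : ℝ) : ℂ) * X)‖ ≤ 2 * ε / 3 * (σ * ‖t‖ ^ N) := by
    intro X hX
    have e1 : (A (g C t + ((σ * ‖t‖ ^ N : ℝ) : ℂ) * X, t ^ N)).1 -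
          (A (pt g N C t)).1 - ζ * (((σ * ‖t‖ ^ N : ℝ) : ℂ) * X) =
        ((A (g C t + ((σ * ‖t‖ ^ N : ℝ) : ℂ) * X, t ^ N)).1 -
          (A (pt g N C t)).1 - α * (((σ * ‖t‖ ^ N : ℝ) : ℂ) * X)) +
        (α - ζ) * (((σ * ‖t‖ ^ N : ℝ) : ℂ) * X) := by ring
    rw [e1]
    refine (norm_add_le _ _).trans ?_
    have h2 := (hα1 X hX).trans (mul_le_mul_of_nonneg_right (min_le_left _ _) hs0.le)
    have h3 : ‖(α - ζ) * (((σ * ‖t‖ ^ N : ℝ) : ℂ) * X)‖ ≤ ε / 3 * (σ * ‖t‖ ^ N) := by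
      rw [norm_mul, norm_mul, Complex.norm_real, Real.norm_of_nonneg hs0.le]
      exact mul_le_mul hαζ.le (mul_le_of_le_one_right hs0.le hX) (by positivity) (by positivity)
    linarith
  refine ⟨ζ, hζ, ?_, fun X hX => (hsl X hX).trans
    (mul_le_mul_of_nonneg_right (by linarith) hs0.le)⟩
  have h2 := hsl 1 (by simp)
  rw [mul_one] at h2
  have hsc : (((σ * ‖t‖ ^ N : ℝ) : ℂ)) ≠ 0 := by exact_mod_cast hs0.ne'
  have e2 : (A (g C t + ((σ * ‖t‖ ^ N : ℝ) : ℂ), t ^ N)).1 - (A (pt g N C t)).1 -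
      ζ * ((σ * ‖t‖ ^ N : ℝ) : ℂ) =
      (Th A g N C t (σ * ‖t‖ ^ N) - ζ) * ((σ * ‖t‖ ^ N : ℝ) : ℂ) := by
    unfold Th
    rw [sub_mul, div_mul_cancel₀ _ hsc]
  rw [e2, norm_mul, Complex.norm_real, Real.norm_of_nonneg hs0.le] at h2
  have h3 := le_of_mul_le_mul_right h2 hs0
  linarith

/-- continuity of `Th` -/
theorem F9_cont (h : Mat F G k n n N u u' c m b g v a D γ' A B L ρ) (C : Fin c) (M : ℝ) :
    ∃ δ > (0 : ℝ), ∀ σ2 > (0 : ℝ), ContinuousOn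
      (fun p : ℂ × ℝ => Th A g N C p.1 (p.2 * ‖p.1‖ ^ N))
      ({t : ℂ | 0 < ‖t‖ ∧ ‖t‖ < δ} ×ˢ Set.Icc σ2 M) := by
  have hL := h.hco.hL
  have hρ := h.hco.hρ
  have hL0 : 0 < L := by linarith
  have hN1 := h.hC.hN
  have hA : ContinuousOn A (ball 0 ρ) := by
    intro p hp
    rw [Metric.continuousWithinAt_iff]
    intro ε hε
    refine ⟨ε / L, by positivity, fun {q} hq hd => ?_⟩
    rw [dist_eq_norm] at hd ⊢
    rw [lt_div_iff₀ hL0] at hd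
    calc ‖A q - A p‖ ≤ L * ‖q - p‖ := h.hco.lipA q hq p hp
      _ < ε := by linarith
  -- smallness
  obtain ⟨δ1, hδ1, hg1⟩ := F9_ev (F9_base h C one_pos)
  have hgan : ∀ᶠ t in 𝓝 (0 : ℂ), AnalyticAt ℂ (g C) t := (h.hC.gan C).eventually_analyticAt
  obtain ⟨δ2, hδ2, hg2⟩ := Metric.eventually_nhds_iff.1 hgan
  set T : ℝ := 2 + |M| with hT
  have hT0 : 0 < T := by positivity
  refine ⟨min (min δ1 δ2) (min 1 (ρ / T)), by positivity, fun σ2 hσ2 => ?_⟩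
  have hsm : ∀ p ∈ ({t : ℂ | 0 < ‖t‖ ∧ ‖t‖ < min (min δ1 δ2) (min 1 (ρ / T))} ×ˢ Set.Icc σ2 M),
      0 < ‖p.1‖ ∧ ‖p.1‖ < δ1 ∧ ‖p.1‖ < δ2 ∧ T * ‖p.1‖ ^ N < ρ ∧ σ2 ≤ p.2 ∧ p.2 ≤ M := by
    rintro ⟨t, σ⟩ ⟨⟨h1, h2⟩, h3, h4⟩
    have a1 : ‖t‖ < δ1 := lt_of_lt_of_le h2 ((min_le_left _ _).trans (min_le_left _ _))
    have a2 : ‖t‖ < δ2 := lt_of_lt_of_le h2 ((min_le_left _ _).trans (min_le_right _ _))
    have a3 : ‖t‖ < 1 := lt_of_lt_of_le h2 ((min_le_right _ _).trans (min_le_left _ _))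
    have a4 : ‖t‖ < ρ / T := lt_of_lt_of_le h2 ((min_le_right _ _).trans (min_le_right _ _))
    refine ⟨h1, a1, a2, ?_, h3, h4⟩
    have a5 : ‖t‖ ^ N ≤ ‖t‖ := by
      calc ‖t‖ ^ N ≤ ‖t‖ ^ 1 := pow_le_pow_of_le_one h1.le a3.le hN1
        _ = ‖t‖ := pow_one _
    rw [lt_div_iff₀ hT0] at a4
    calc T * ‖t‖ ^ N ≤ T * ‖t‖ := mul_le_mul_of_nonneg_left a5 hT0.le
      _ < ρ := by linarith
  set S : Set (ℂ × ℝ) := {t : ℂ | 0 < ‖t‖ ∧ ‖t‖ < min (min δ1 δ2) (min 1 (ρ / T))} ×ˢ Set.Icc σ2 M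
    with hS
  have hgc : ContinuousOn (fun p : ℂ × ℝ => g C p.1) S := by
    intro p hp
    obtain ⟨-, -, h3, -⟩ := hsm p hp
    have h4 : ContinuousAt (g C) p.1 := (hg2 (by simpa using h3)).continuousAt
    exact (h4.comp continuous_fst.continuousAt).continuousWithinAt
  have htN : Continuous (fun p : ℂ × ℝ => p.1 ^ N) := by fun_prop
  have hsN : Continuous (fun p : ℂ × ℝ => ((p.2 * ‖p.1‖ ^ N : ℝ) : ℂ)) := by fun_prop
  have hq1 : ContinuousOn (fun p : ℂ × ℝ => (g C p.1 + ((p.2 * ‖p.1‖ ^ N : ℝ) : ℂ), p.1 ^ N)) S :=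
    (hgc.add hsN.continuousOn).prodMk htN.continuousOn
  have hq2 : ContinuousOn (fun p : ℂ × ℝ => pt g N C p.1) S :=
    hgc.prodMk htN.continuousOn
  have hm1 : Set.MapsTo (fun p : ℂ × ℝ => (g C p.1 + ((p.2 * ‖p.1‖ ^ N : ℝ) : ℂ), p.1 ^ N)) S
      (ball 0 ρ) := by
    intro p hp
    obtain ⟨h1, h2, h3, h4, h5, h6⟩ := hsm p hp
    have hpN : 0 < ‖p.1‖ ^ N := by positivity
    have h7 := (hg1 p.1 h1 h2).1 C
    rw [one_mul] at h7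
    have h8 : ‖(((p.2 * ‖p.1‖ ^ N : ℝ) : ℂ))‖ ≤ |M| * ‖p.1‖ ^ N := by
      rw [Complex.norm_real, Real.norm_of_nonneg (mul_nonneg (hσ2.le.trans h5) hpN.le)]
      exact mul_le_mul_of_nonneg_right (h6.trans (le_abs_self _)) hpN.le
    rw [mem_ball_zero_iff, Prod.norm_def]
    refine max_lt ?_ ?_
    · refine lt_of_le_of_lt (norm_add_le _ _) ?_
      have : T * ‖p.1‖ ^ N = 2 * ‖p.1‖ ^ N + |M| * ‖p.1‖ ^ N := by rw [hT]; ring
      linarith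
    · dsimp only
      rw [norm_pow]
      have : T * ‖p.1‖ ^ N = 2 * ‖p.1‖ ^ N + |M| * ‖p.1‖ ^ N := by rw [hT]; ring
      have := mul_nonneg (abs_nonneg M) hpN.le
      linarith
  have hm2 : Set.MapsTo (fun p : ℂ × ℝ => pt g N C p.1) S (ball 0 ρ) := by
    intro p hp
    obtain ⟨h1, h2, h3, h4, h5, h6⟩ := hsm p hp
    have hpN : 0 < ‖p.1‖ ^ N := by positivity
    have h7 := (hg1 p.1 h1 h2).1 C
    rw [one_mul] at h7
    have e1 : T * ‖p.1‖ ^ N = 2 * ‖p.1‖ ^ N + |M| * ‖p.1‖ ^ N := by rw [hT]; ring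
    have e2 := mul_nonneg (abs_nonneg M) hpN.le
    rw [mem_ball_zero_iff, Prod.norm_def]
    refine max_lt ?_ ?_
    · change ‖g C p.1‖ < ρ
      linarith
    · change ‖p.1 ^ N‖ < ρ
      rw [norm_pow]
      linarith
  have hc1 := (continuous_fst.comp_continuousOn (hA.comp hq1 hm1))
  have hc2 := (continuous_fst.comp_continuousOn (hA.comp hq2 hm2))
  have hfin := (hc1.sub hc2).div hsN.continuousOn (fun p hp => by
    obtain ⟨h1, h2, h3, h4, h5, h6⟩ := hsm p hp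
    have : 0 < p.2 * ‖p.1‖ ^ N := mul_pos (lt_of_lt_of_le hσ2 h5) (by positivity)
    exact_mod_cast this.ne')
  exact hfin

/-- Claim 2: one root for all slices -/
theorem F9_one (h : Mat F G k n n N u u' c m b g v a D γ' A B L ρ) (ω : ℂ) (hω : ω ≠ 0)
    (hlim : ∀ C, Tendsto (fun t : ℂ => (A (pt g N C t)).2 / t ^ N) (𝓝[≠] 0) (𝓝 ω))
    (C : Fin c) : ∃ α : ℂ, α ^ (n + 1) = u / (u' * ω ^ (k - 1 - n)) ∧ ∀ ε > (0 : ℝ),
    ∃ σ1 > (0 : ℝ), ∀ σ2 > (0 : ℝ), ∃ δ > (0 : ℝ), ∀ t : ℂ, 0 < ‖t‖ → ‖t‖ < δ →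
      ∀ σ : ℝ, σ2 ≤ σ → σ ≤ σ1 →
        (∀ X : ℂ, ‖X‖ ≤ 1 → ‖(A (g C t + ((σ * ‖t‖ ^ N : ℝ) : ℂ) * X, t ^ N)).1 -
          (A (pt g N C t)).1 - α * (((σ * ‖t‖ ^ N : ℝ) : ℂ) * X)‖ ≤ ε * (σ * ‖t‖ ^ N)) := by
  set Q := u / (u' * ω ^ (k - 1 - n)) with hQ
  obtain ⟨d, hd, hsep⟩ := F9_sep n Q
  set e : ℝ := d / 3 with he
  have he0 : 0 < e := by positivity
  have hed : 3 * e ≤ d := by rw [he]; linarith
  obtain ⟨σs, hσs, hs⟩ := F9_near h ω hω hlim C he0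
  obtain ⟨δs, hδs, hPs⟩ := hs σs hσs
  obtain ⟨δc, hδc, hcont⟩ := F9_cont h C σs
  set r : ℝ := min δs δc with hr
  have hr0 : 0 < r := lt_min hδs hδc
  have hpt : ∀ r > (0 : ℝ), ∃ t : ℂ, 0 < ‖t‖ ∧ ‖t‖ < r := by
    intro r hr
    refine ⟨((r / 2 : ℝ) : ℂ), ?_, ?_⟩
    · rw [Complex.norm_real, Real.norm_of_nonneg (by positivity)]; positivity
    · rw [Complex.norm_real, Real.norm_of_nonneg (by positivity)]; linarith
  obtain ⟨ts, hts0, htsr⟩ := hpt r hr0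
  obtain ⟨α, hα, hαs, -⟩ := hPs ts hts0 (lt_of_lt_of_le htsr (min_le_left _ _)) σs le_rfl le_rfl
  have hsep' : ∀ ζ ∈ {ζ : ℂ | ζ ^ (n + 1) = Q}, ∀ ζ' ∈ {ζ : ℂ | ζ ^ (n + 1) = Q}, ζ ≠ ζ' →
      d ≤ ‖ζ - ζ'‖ := fun ζ hζ ζ' hζ' hne => hsep ζ ζ' hζ hζ' hne
  -- along `σ = σs`
  have hline : ∀ t : ℂ, 0 < ‖t‖ → ‖t‖ < r → ‖Th A g N C t (σs * ‖t‖ ^ N) - α‖ < e := by
    have hS : IsPreconnected ({t : ℂ | 0 < ‖t‖ ∧ ‖t‖ < r} ×ˢ Set.Icc σs σs) :=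
      (punctured_preconnected r).prod isPreconnected_Icc
    have hc := (hcont σs hσs).mono (t := {t : ℂ | 0 < ‖t‖ ∧ ‖t‖ < r} ×ˢ Set.Icc σs σs) (by
      rintro ⟨t, σ⟩ ⟨⟨h1, h2⟩, h3⟩
      exact ⟨⟨h1, lt_of_lt_of_le h2 (min_le_right _ _)⟩, h3⟩)
    have hZ : ∀ p ∈ ({t : ℂ | 0 < ‖t‖ ∧ ‖t‖ < r} ×ˢ Set.Icc σs σs),
        ∃ ζ ∈ {ζ : ℂ | ζ ^ (n + 1) = Q}, ‖Th A g N C p.1 (p.2 * ‖p.1‖ ^ N) - ζ‖ < e := by
      rintro ⟨t, σ⟩ ⟨⟨h1, h2⟩, h3, h4⟩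
      obtain ⟨ζ, hζ, hz, -⟩ := hPs t h1 (lt_of_lt_of_le h2 (min_le_left _ _)) σ h3 h4
      exact ⟨ζ, hζ, hz⟩
    have hcn := F9_conn hS _ hc {ζ : ℂ | ζ ^ (n + 1) = Q} e d he0 hed hsep' hZ α hα (ts, σs)
      ⟨⟨hts0, htsr⟩, le_rfl, le_rfl⟩ hαs
    intro t h1 h2
    exact hcn (t, σs) ⟨⟨h1, h2⟩, le_rfl, le_rfl⟩
  refine ⟨α, hα, fun ε hε => ?_⟩
  obtain ⟨σ1, hσ1, h1⟩ := F9_near h ω hω hlim C (show (0 : ℝ) < min ε e from lt_min hε he0)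
  refine ⟨min σ1 σs, lt_min hσ1 hσs, fun σ2 hσ2 => ?_⟩
  obtain ⟨δ1, hδ1, hP1⟩ := h1 σ2 hσ2
  obtain ⟨δ2, hδ2, hP2⟩ := hs σ2 hσ2
  set r' : ℝ := min r (min δ1 δ2) with hr'
  have hr'0 : 0 < r' := lt_min hr0 (lt_min hδ1 hδ2)
  refine ⟨r', hr'0, fun t ht0 ht σ hσa hσb => ?_⟩
  obtain ⟨ζ, hζ, hz, hX⟩ := hP1 t ht0
    (lt_of_lt_of_le ht ((min_le_right _ _).trans (min_le_left _ _))) σ hσa
    (hσb.trans (min_le_left _ _))
  have hσs2 : σ2 ≤ σs := hσa.trans (hσb.trans (min_le_right _ _))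
  have hS : IsPreconnected ({t : ℂ | 0 < ‖t‖ ∧ ‖t‖ < r'} ×ˢ Set.Icc σ2 σs) :=
    (punctured_preconnected r').prod isPreconnected_Icc
  have hc := (hcont σ2 hσ2).mono (t := {t : ℂ | 0 < ‖t‖ ∧ ‖t‖ < r'} ×ˢ Set.Icc σ2 σs) (by
    rintro ⟨t, σ⟩ ⟨⟨h1, h2⟩, h3⟩
    exact ⟨⟨h1, lt_of_lt_of_le h2 ((min_le_left _ _).trans (min_le_right _ _))⟩, h3⟩)
  obtain ⟨t1, ht10, ht1r⟩ := hpt r' hr'0
  have hZ : ∀ p ∈ ({t : ℂ | 0 < ‖t‖ ∧ ‖t‖ < r'} ×ˢ Set.Icc σ2 σs),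
      ∃ ζ ∈ {ζ : ℂ | ζ ^ (n + 1) = Q}, ‖Th A g N C p.1 (p.2 * ‖p.1‖ ^ N) - ζ‖ < e := by
    rintro ⟨t, σ⟩ ⟨⟨h1, h2⟩, h3, h4⟩
    obtain ⟨ζ, hζ, hz, -⟩ := hP2 t h1
      (lt_of_lt_of_le h2 ((min_le_right _ _).trans (min_le_right _ _))) σ h3 h4
    exact ⟨ζ, hζ, hz⟩
  have hcn := F9_conn hS _ hc {ζ : ℂ | ζ ^ (n + 1) = Q} e d he0 hed hsep' hZ
      α hα (t1, σs) ⟨⟨ht10, ht1r⟩, hσs2, le_rfl⟩
      (hline t1 ht10 (lt_of_lt_of_le ht1r (min_le_left _ _)))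
  have hfin := hcn (t, σ) ⟨⟨ht0, ht⟩, hσa, hσb.trans (min_le_right _ _)⟩
  have hζα : ζ = α := by
    by_contra hne
    have h2 := hsep ζ α hζ hα hne
    have h3 : ‖ζ - α‖ ≤ ‖Th A g N C t (σ * ‖t‖ ^ N) - ζ‖ + ‖Th A g N C t (σ * ‖t‖ ^ N) - α‖ := by
      have : ζ - α = -(Th A g N C t (σ * ‖t‖ ^ N) - ζ) + (Th A g N C t (σ * ‖t‖ ^ N) - α) := by ring
      rw [this]
      refine (norm_add_le _ _).trans ?_
      rw [norm_neg]
    have h4 := lt_of_lt_of_le hz (min_le_right _ _)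
    dsimp only at hfin
    linarith
  rw [← hζα]
  exact fun X hX' => (hX X hX').trans
    (mul_le_mul_of_nonneg_right (min_le_left _ _)
      (mul_nonneg (hσ2.le.trans hσa) (by positivity)))

theorem alpha_exists {F G : ℂ × ℂ → ℂ} {k n N : ℕ} {u u' : ℂ} {c : ℕ} {m : Fin c → ℕ}
    {b : Fin c → ℝ} {g v : Fin c → ℂ → ℂ} {a : Fin c → ℂ} {D : Fin c → ℕ}
    {γ' : Fin n → ℂ → ℂ} {A B : ℂ × ℂ → ℂ × ℂ} {L ρ : ℝ}
    (h : Mat F G k n n N u u' c m b g v a D γ' A B L ρ) (ω : ℂ) (hω : ω ≠ 0)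
    (hlim : ∀ C, Tendsto (fun t : ℂ => (A (pt g N C t)).2 / t ^ N) (𝓝[≠] 0) (𝓝 ω)) :
    ∃ α : ℂ, α ≠ 0 ∧ α ^ (n + 1) * ω ^ (k - 1 - n) * u' = u ∧
      ∀ ε > (0 : ℝ), ∃ δ1 > (0 : ℝ), ∀ δ2 > (0 : ℝ), ∃ δ3 > (0 : ℝ), ∀ x y : ℂ,
        0 < ‖y‖ → ‖y‖ < δ3 → δ2 * ‖y‖ ≤ ‖x‖ → ‖x‖ ≤ δ1 * ‖y‖ →
        ‖(A (x, y)).1 - α * x‖ ≤ ε * ‖x‖ := by
  have hu : u ≠ 0 := h.hC.hu
  have hu' : u' ≠ 0 := h.hG.hu
  have hL := h.hco.hL
  have hL0 : 0 < L := by linarith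
  have hN1 := h.hC.hN
  -- a cluster
  obtain ⟨C⟩ : Nonempty (Fin c) := by
    by_contra hcon
    rw [not_nonempty_iff] at hcon
    have h1 := h.hC.hmn
    rw [Finset.univ_eq_empty, Finset.sum_empty] at h1
    have := h.hn
    omega
  set R : ℂ := u' * ω ^ (k - 1 - n) with hR
  have hR0 : R ≠ 0 := mul_ne_zero hu' (pow_ne_zero _ hω)
  obtain ⟨α, hα, hone⟩ := F9_one h ω hω hlim C
  refine ⟨α, ?_, ?_, fun ε hε => ?_⟩
  · rintro rfl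
    rw [zero_pow (Nat.succ_ne_zero n)] at hα
    exact div_ne_zero hu hR0 hα.symm
  · rw [hα, ← hR, mul_assoc, mul_comm (ω ^ (k - 1 - n)) u', ← hR, div_mul_cancel₀ _ hR0]
  obtain ⟨σ1, hσ1, h1⟩ := hone (ε / 4) (by positivity)
  refine ⟨σ1 / 2, by positivity, fun δ2 hδ2 => ?_⟩
  obtain ⟨δ, hδ, hP⟩ := h1 (δ2 / 2) (by positivity)
  obtain ⟨c0, hc0, δ5, hδ5, hsize⟩ := mat_size h
  set η : ℝ := min (min (δ2 / 2) (σ1 / 2)) (δ2 * min 1 (ε / (4 * (L + ‖α‖)))) with hη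
  have hη0 : 0 < η := by positivity
  obtain ⟨δ6, hδ6, hB⟩ := F9_ev (F9_base h C hη0)
  set r : ℝ := min δ (min δ5 δ6) with hr
  have hr0 : 0 < r := lt_min hδ (lt_min hδ5 hδ6)
  refine ⟨r ^ N, by positivity, fun x y hy0 hyr hx1 hx2 => ?_⟩
  obtain ⟨t, ht⟩ := IsAlgClosed.exists_pow_nat_eq y (show 0 < N by omega)
  have htn : ‖t‖ ^ N = ‖y‖ := by rw [← norm_pow, ht]
  have ht0 : 0 < ‖t‖ := by
    rcases (norm_nonneg t).eq_or_lt with h1 | h1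
    · rw [← h1, zero_pow (by omega : N ≠ 0)] at htn
      linarith
    · exact h1
  have htr : ‖t‖ < r := lt_of_pow_lt_pow_left₀ N hr0.le (by rw [htn]; exact hyr)
  have htδ : ‖t‖ < δ := lt_of_lt_of_le htr (min_le_left _ _)
  have ht5 : ‖t‖ < δ5 := lt_of_lt_of_le htr ((min_le_right _ _).trans (min_le_left _ _))
  have ht6 : ‖t‖ < δ6 := lt_of_lt_of_le htr ((min_le_right _ _).trans (min_le_right _ _))
  obtain ⟨hg, hx0⟩ := hB t ht0 ht6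
  have hg' := hg C
  rw [htn] at hg'
  have hy0L := (hsize t ht0 ht5 C).2
  rw [htn] at hy0L
  have hx0' : ‖(A (pt g N C t)).1‖ ≤ η * (L * ‖y‖) :=
    hx0.trans (mul_le_mul_of_nonneg_left hy0L hη0.le)
  set s : ℝ := ‖x - g C t‖ with hs
  have hη1 : η ≤ δ2 / 2 := (min_le_left _ _).trans (min_le_left _ _)
  have hη2 : η ≤ σ1 / 2 := (min_le_left _ _).trans (min_le_right _ _)
  have hη3 : η ≤ δ2 * 1 := (min_le_right _ _).trans
    (mul_le_mul_of_nonneg_left (min_le_left _ _) hδ2.le)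
  have hη4 : η ≤ δ2 * (ε / (4 * (L + ‖α‖))) := (min_le_right _ _).trans
    (mul_le_mul_of_nonneg_left (min_le_right _ _) hδ2.le)
  have hηy : η * ‖y‖ ≤ δ2 / 2 * ‖y‖ := mul_le_mul_of_nonneg_right hη1 hy0.le
  have hηy2 : η * ‖y‖ ≤ σ1 / 2 * ‖y‖ := mul_le_mul_of_nonneg_right hη2 hy0.le
  have hs1 : δ2 / 2 * ‖y‖ ≤ s := by
    have h2 : ‖x‖ ≤ s + ‖g C t‖ := by
      have : x = (x - g C t) + g C t := by ring
      calc ‖x‖ = ‖(x - g C t) + g C t‖ := by rw [← this]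
        _ ≤ _ := norm_add_le _ _
    linarith
  have hs2 : s ≤ σ1 * ‖y‖ := by
    have h2 : s ≤ ‖x‖ + ‖g C t‖ := norm_sub_le _ _
    linarith
  have hs3 : s ≤ 2 * ‖x‖ := by
    have h2 : s ≤ ‖x‖ + ‖g C t‖ := norm_sub_le _ _
    have h3 : η * ‖y‖ ≤ ‖x‖ := (mul_le_mul_of_nonneg_right hη3 hy0.le).trans (by linarith)
    linarith
  have hs0 : 0 < s := lt_of_lt_of_le (by positivity) hs1
  have hsσ : s / ‖y‖ * ‖t‖ ^ N = s := by rw [htn]; field_simp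
  have hsc : (s : ℂ) ≠ 0 := by exact_mod_cast hs0.ne'
  have h2 := hP t ht0 htδ (s / ‖y‖) (by rw [le_div_iff₀ hy0]; exact hs1)
    (by rw [div_le_iff₀ hy0]; exact hs2) ((x - g C t) / s) (by
      rw [norm_div, Complex.norm_real, Real.norm_of_nonneg hs0.le, ← hs, div_self hs0.ne'])
  rw [hsσ, mul_div_cancel₀ _ hsc, add_sub_cancel, ht] at h2
  have h3 : (A (x, y)).1 - α * x = ((A (x, y)).1 - (A (pt g N C t)).1 - α * (x - g C t)) +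
      ((A (pt g N C t)).1 - α * g C t) := by ring
  rw [h3]
  refine (norm_add_le _ _).trans ?_
  have h4 : ‖(A (pt g N C t)).1 - α * g C t‖ ≤ ‖(A (pt g N C t)).1‖ + ‖α‖ * ‖g C t‖ := by
    refine (norm_sub_le _ _).trans ?_
    rw [norm_mul]
  have h5 : ‖α‖ * ‖g C t‖ ≤ ‖α‖ * (η * ‖y‖) := mul_le_mul_of_nonneg_left hg' (norm_nonneg _)
  have h6 : η * (L * ‖y‖) + ‖α‖ * (η * ‖y‖) ≤ ε / 4 * ‖x‖ := by
    have hLα : 0 < L + ‖α‖ := by positivity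
    calc η * (L * ‖y‖) + ‖α‖ * (η * ‖y‖) = η * ((L + ‖α‖) * ‖y‖) := by ring
      _ ≤ δ2 * (ε / (4 * (L + ‖α‖))) * ((L + ‖α‖) * ‖y‖) :=
          mul_le_mul_of_nonneg_right hη4 (by positivity)
      _ = ε / 4 * (δ2 * ‖y‖) := by field_simp
      _ ≤ ε / 4 * ‖x‖ := mul_le_mul_of_nonneg_left hx1 (by positivity)
  have h7 : ε / 4 * s ≤ ε / 4 * (2 * ‖x‖) := mul_le_mul_of_nonneg_left hs3 (by positivity)
  have h8 : 0 ≤ ε * ‖x‖ := by positivity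
  linarith

end H24.LS
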