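import Pool.Agent.H24.LS.P0
import Pool.Agent.H24.LS.V0
import Pool.Agent.H24.LS.F0
import Pool.Agent.H24.LS.F1
import Pool.Agent.H24.LS.F3
import Pool.Agent.H24.LS.F4
import Pool.Agent.H24.LS.F7
import Pool.Agent.H24.LS.F9

/-!
# F10: the product equation for the slopes `Th` at all scales

Claim: `Th(s) ∏_l Th(max(s, ‖g C - g (cl' l)‖)) ≈ α^(n+1)` for `s ∈ [K s_C, δ ‖t‖^N]`.

Proof.  Notation `p = pt g N C t`, `(x0,y0) = A p`, `T0 = T0 A g N τ C t`, `e = N(k-1-n)`.  Let `R` be large (first),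
`ε1` small, then `K`, `δ`.  Let `α_s` be from `aff` at scale `s` with radius `R`; `‖Th(s) - α_s‖ ≤ ε1` (`X = 1`).
Choose `X`, `‖X‖ = 1`, with `‖g C + s X - g C'‖ ≥ c (s + ‖g C - g C'‖)` for all `C'`, `c = c(n) > 0`: the proof of
`prod_lower` gives this; or: apply `prod_lower` to the normalised factors with labelling `cl'`: the product is
`≥ c`, and every factor is `≤ 1`, so every factor is `≥ c`.
(1) `dx F (g C + s X, t^N) = u t^e ∏_l (g C + s X - g (cl' l)) (1 + O(ε1))` (`prodF`, the product is `≥ c^n E0`, `E ≤ 2^n E0`).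
(2) `dx G (x0 + α_s s X, y0) = u' T0^e ∏_l (x0 + α_s s X - γ'_l (T0)) + O(ε1 E)` (`PCh.fac`, `ehatG_le`).
    For `cl' l = C''`, `d = ‖g C - g C''‖`, `s'' = max(s, d)`:
    `γ'_l (T0 C) = γ'_l (T0 C'') + O(ε1 d)` (as in F7: `‖T0 C - T0 C''‖ ‖t‖^(N-1) ≤ K L d`, `slow_small`),
    `γ'_l (T0 C'') = (A pt C'').1 + O(s_C'')`, `s_C'' ≤ ε1 s''` (`C'' = C`: `s ≥ K s_C`; else `s_C'' = o(d)`),
    `(A pt C'').1 - x0 = α_{s''} (g C'' - g C) + O(ε1 s'')` (`aff` at scale `s''`), `‖α_{s''} - Th(s'')‖ ≤ ε1`.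
    So the factor is `α_s s X + Th(s'') (g C - g C'') + O(ε1 s'')`
    `= Th(s'') (s X + g C - g C'') + (α_s - Th(s'')) s X + O(ε1 s'')`, and `‖α_s - Th(s'')‖ s ≤ (ε1 + 2L/R).. s''`:
    if `s'' = s`: `ε1`; if `s < d ≤ R s`: `Th(d)` is within `ε1` of `α_s` (`aff` at scale `s`, `X = d/s`); if
    `d > R s`: `≤ 2 L s ≤ (2L/R) s''`.
    Hence factor `= Th(s'') (s X + g C - g C'') (1 + O((ε1 + 1/R)/c))`.
(3) `aff`: `dx F = α_s dx G + O(ε1 E)`.  So `u t^e = α_s u' T0^e ∏_l Th(s''_l) (1 + O(ε1 + 1/R))`, `T0^e = y0^{k-1-n} = ω^{k-1-n} t^e (1 + o(1))`,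
    i.e. `Th(s) ∏ Th(s''_l) = u/(u' ω^{k-1-n}) + O(..) = α^{n+1} + O(ε1 + 1/R)`.
-/

open Filter Topology Metric Asymptotics

namespace H24.LS

private theorem F10_ev {P : ℂ → Prop} (h : ∀ᶠ t in 𝓝[≠] (0 : ℂ), P t) :
    ∃ δ > (0 : ℝ), ∀ t : ℂ, 0 < ‖t‖ → ‖t‖ < δ → P t := by
  rw [eventually_nhdsWithin_iff, Metric.eventually_nhds_iff] at h
  obtain ⟨δ, hδ, h⟩ := h
  exact ⟨δ, hδ, fun t h1 h2 => h (by simpa using h2) (by simpa using h1)⟩

private theorem F10_prod_sub {ι : Type*} (S : Finset ι) (a b : ι → ℂ) (M η : ℝ) (hM : 1 ≤ M)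
    (hη : 0 ≤ η) (ha : ∀ i ∈ S, ‖a i‖ ≤ M) (hb : ∀ i ∈ S, ‖b i‖ ≤ M)
    (hab : ∀ i ∈ S, ‖a i - b i‖ ≤ η) :
    ‖∏ i ∈ S, a i - ∏ i ∈ S, b i‖ ≤ S.card * M ^ S.card * η := by
  classical
  induction S using Finset.induction_on with
  | empty => simp
  | insert x S hx ih =>
    have h1 := ih (fun i hi => ha i (Finset.mem_insert_of_mem hi))
      (fun i hi => hb i (Finset.mem_insert_of_mem hi))
      (fun i hi => hab i (Finset.mem_insert_of_mem hi))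
    rw [Finset.prod_insert hx, Finset.prod_insert hx, Finset.card_insert_of_notMem hx]
    have h2 : ‖∏ i ∈ S, b i‖ ≤ M ^ S.card := by
      rw [norm_prod]
      calc ∏ i ∈ S, ‖b i‖ ≤ ∏ _i ∈ S, M := Finset.prod_le_prod (fun _ _ => norm_nonneg _)
            (fun i hi => hb i (Finset.mem_insert_of_mem hi))
        _ = M ^ S.card := by rw [Finset.prod_const]
    have h3 : a x * ∏ i ∈ S, a i - b x * ∏ i ∈ S, b i =
        a x * (∏ i ∈ S, a i - ∏ i ∈ S, b i) + (a x - b x) * ∏ i ∈ S, b i := by ring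
    have hMc : (1 : ℝ) ≤ M ^ S.card := one_le_pow₀ hM
    rw [h3]
    refine (norm_add_le _ _).trans ?_
    rw [norm_mul, norm_mul]
    have h4 : ‖a x‖ * ‖∏ i ∈ S, a i - ∏ i ∈ S, b i‖ ≤ M * (S.card * M ^ S.card * η) :=
      mul_le_mul (ha x (Finset.mem_insert_self _ _)) h1 (norm_nonneg _) (by linarith)
    have h5 : ‖a x - b x‖ * ‖∏ i ∈ S, b i‖ ≤ η * M ^ S.card :=
      mul_le_mul (hab x (Finset.mem_insert_self _ _)) h2 (norm_nonneg _) hη
    have h6 : η * M ^ S.card ≤ η * (M ^ S.card * M) := by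
      apply mul_le_mul_of_nonneg_left _ hη
      nlinarith
    push_cast
    rw [pow_succ]
    calc _ ≤ M * (S.card * M ^ S.card * η) + η * (M ^ S.card * M) := by linarith
      _ = _ := by ring

private theorem F10_alg (n : ℕ) {c0 L : ℝ} (hc0 : 0 < c0) (hL : 0 ≤ L) {u u' ω' : ℂ}
    (hu' : u' ≠ 0) (hω' : ω' ≠ 0) {ε : ℝ} (hε : 0 < ε) :
    ∃ η : ℝ, 0 < η ∧ η ≤ 1 ∧ ∀ (θ αs q U V : ℂ) (θl wl fl : Fin n → ℂ) (S : Fin n → ℝ),
      (∀ l, 0 < S l) → ‖θ - αs‖ ≤ η → (∀ l, ‖fl l - θl l * wl l‖ ≤ η * S l) →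
      (∀ l, ‖wl l‖ ≤ S l) → c0 * ∏ l, S l ≤ ‖∏ l, wl l‖ → (∀ l, ‖θl l‖ ≤ L + 1) → ‖αs‖ ≤ L →
      ‖U - αs * V‖ ≤ η * ∏ l, S l → ‖U - u * ∏ l, wl l‖ ≤ η * ∏ l, S l →
      ‖V - u' * q * ∏ l, fl l‖ ≤ η * (‖q‖ * ∏ l, ‖fl l‖) → ‖q - ω'‖ ≤ η →
      ‖θ * ∏ l, θl l - u / (u' * ω')‖ ≤ ε := by
  have hu0 : 0 < ‖u'‖ := norm_pos_iff.mpr hu'
  have hw0 : 0 < ‖ω'‖ := norm_pos_iff.mpr hω'
  set M : ℝ := L + 2 with hM
  have hM1 : 1 ≤ M := by linarith
  have hMn : 0 < M ^ n := by positivity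
  set Kt : ℝ := (L + 1) * ‖u'‖ * ‖ω'‖ * (n * M ^ n) + ‖u'‖ * ‖ω'‖ * M ^ n + L * ‖u'‖ * M ^ n
    + L * ((‖ω'‖ + 1) * M ^ n) + 1 + 1 with hKt
  have hKt0 : 0 < Kt := by positivity
  set η : ℝ := min 1 (ε * (‖u'‖ * ‖ω'‖ * c0) / Kt) with hη
  have hη0 : 0 < η := lt_min one_pos (by positivity)
  have hη1 : η ≤ 1 := min_le_left _ _
  have hη2 : Kt * η ≤ ε * (‖u'‖ * ‖ω'‖ * c0) := by
    have := min_le_right 1 (ε * (‖u'‖ * ‖ω'‖ * c0) / Kt)
    calc Kt * η ≤ Kt * (ε * (‖u'‖ * ‖ω'‖ * c0) / Kt) := mul_le_mul_of_nonneg_left this hKt0.le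
      _ = ε * (‖u'‖ * ‖ω'‖ * c0) := by field_simp
  refine ⟨η, hη0, hη1, ?_⟩
  intro θ αs q U V θl wl fl S hS h1 h2 h3 h4 h5 h6 h7 h8 h9 h10
  set P : ℝ := ∏ l, S l with hP
  have hP0 : 0 < P := Finset.prod_pos fun l _ => hS l
  have hθ : ‖θ‖ ≤ L + 1 := by
    have : θ = (θ - αs) + αs := by ring
    rw [this]
    refine (norm_add_le _ _).trans ?_
    linarith
  have hfl : ∀ l, ‖fl l‖ ≤ M * S l := by
    intro l
    have : fl l = (fl l - θl l * wl l) + θl l * wl l := by ring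
    rw [this]
    refine (norm_add_le _ _).trans ?_
    rw [norm_mul]
    have e1 : ‖θl l‖ * ‖wl l‖ ≤ (L + 1) * S l :=
      mul_le_mul (h5 l) (h3 l) (norm_nonneg _) (by linarith)
    have e2 : η * S l ≤ 1 * S l := mul_le_mul_of_nonneg_right hη1 (hS l).le
    have := h2 l
    rw [hM]
    linarith
  have hprodf : ∏ l, ‖fl l‖ ≤ M ^ n * P := by
    calc ∏ l, ‖fl l‖ ≤ ∏ l, (M * S l) :=
          Finset.prod_le_prod (fun _ _ => norm_nonneg _) (fun l _ => hfl l)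
      _ = M ^ n * P := by
        rw [Finset.prod_mul_distrib, Finset.prod_const, Finset.card_univ, Fintype.card_fin]
  have hq : ‖q‖ ≤ ‖ω'‖ + 1 := by
    have : q = (q - ω') + ω' := by ring
    rw [this]
    refine (norm_add_le _ _).trans ?_
    linarith
  -- difference of products
  have hdiff : ‖∏ l, (θl l * wl l) - ∏ l, fl l‖ ≤ n * M ^ n * η * P := by
    have e0 := F10_prod_sub Finset.univ (fun l => θl l * wl l / (S l : ℂ))
      (fun l => fl l / (S l : ℂ)) M η hM1 hη0.le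
      (fun l _ => by
        rw [norm_div, norm_mul, Complex.norm_real, Real.norm_of_nonneg (hS l).le,
          div_le_iff₀ (hS l)]
        have e1 : ‖θl l‖ * ‖wl l‖ ≤ (L + 1) * S l :=
          mul_le_mul (h5 l) (h3 l) (norm_nonneg _) (by linarith)
        have := hS l
        rw [hM]
        nlinarith)
      (fun l _ => by
        rw [norm_div, Complex.norm_real, Real.norm_of_nonneg (hS l).le, div_le_iff₀ (hS l)]
        exact hfl l)
      (fun l _ => by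
        rw [← sub_div, norm_div, Complex.norm_real, Real.norm_of_nonneg (hS l).le,
          div_le_iff₀ (hS l), ← norm_neg, neg_sub]
        exact h2 l)
    rw [Finset.card_univ, Fintype.card_fin, Finset.prod_div_distrib, Finset.prod_div_distrib,
      ← sub_div, norm_div] at e0
    have e1 : ‖∏ l, (S l : ℂ)‖ = P := by
      rw [← Complex.ofReal_prod, Complex.norm_real, Real.norm_of_nonneg hP0.le]
    rw [e1, div_le_iff₀ hP0] at e0
    exact e0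
  set W : ℂ := ∏ l, wl l with hW
  set Pf : ℂ := ∏ l, fl l with hPf
  have hPfn : ‖Pf‖ ≤ M ^ n * P := by
    rw [hPf, norm_prod]
    exact hprodf
  have hsplit : ∏ l, (θl l * wl l) = (∏ l, θl l) * W := by
    rw [Finset.prod_mul_distrib]
  rw [hsplit] at hdiff
  set T : ℂ := ∏ l, θl l with hT
  have hD : (θ * T - u / (u' * ω')) * (u' * ω') * W =
      θ * u' * ω' * (T * W - Pf) + (θ - αs) * u' * ω' * Pf - αs * u' * (q - ω') * Pf
      - αs * (V - u' * q * Pf) - (U - αs * V) + (U - u * W) := by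
    field_simp
    ring
  have n1 : ‖θ * u' * ω' * (T * W - Pf)‖ ≤ (L + 1) * ‖u'‖ * ‖ω'‖ * (n * M ^ n) * (η * P) := by
    rw [norm_mul, norm_mul, norm_mul]
    calc ‖θ‖ * ‖u'‖ * ‖ω'‖ * ‖T * W - Pf‖ ≤ (L + 1) * ‖u'‖ * ‖ω'‖ * (n * M ^ n * η * P) := by
          gcongr
      _ = _ := by ring
  have n2 : ‖(θ - αs) * u' * ω' * Pf‖ ≤ ‖u'‖ * ‖ω'‖ * M ^ n * (η * P) := by
    rw [norm_mul, norm_mul, norm_mul]
    calc ‖θ - αs‖ * ‖u'‖ * ‖ω'‖ * ‖Pf‖ ≤ η * ‖u'‖ * ‖ω'‖ * (M ^ n * P) := by gcongr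
      _ = _ := by ring
  have n3 : ‖αs * u' * (q - ω') * Pf‖ ≤ L * ‖u'‖ * M ^ n * (η * P) := by
    rw [norm_mul, norm_mul, norm_mul]
    calc ‖αs‖ * ‖u'‖ * ‖q - ω'‖ * ‖Pf‖ ≤ L * ‖u'‖ * η * (M ^ n * P) := by gcongr
      _ = _ := by ring
  have n4 : ‖αs * (V - u' * q * Pf)‖ ≤ L * ((‖ω'‖ + 1) * M ^ n) * (η * P) := by
    rw [norm_mul]
    calc ‖αs‖ * ‖V - u' * q * Pf‖ ≤ L * (η * ((‖ω'‖ + 1) * (M ^ n * P))) := by
          gcongr
          refine h9.trans ?_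
          gcongr
      _ = _ := by ring
  have hDn : ‖(θ * T - u / (u' * ω')) * (u' * ω') * W‖ ≤ Kt * η * P := by
    rw [hD]
    have t1 := norm_add_le (θ * u' * ω' * (T * W - Pf) + (θ - αs) * u' * ω' * Pf
      - αs * u' * (q - ω') * Pf - αs * (V - u' * q * Pf) - (U - αs * V)) (U - u * W)
    have t2 := norm_sub_le (θ * u' * ω' * (T * W - Pf) + (θ - αs) * u' * ω' * Pf
      - αs * u' * (q - ω') * Pf - αs * (V - u' * q * Pf)) (U - αs * V)
    have t3 := norm_sub_le (θ * u' * ω' * (T * W - Pf) + (θ - αs) * u' * ω' * Pf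
      - αs * u' * (q - ω') * Pf) (αs * (V - u' * q * Pf))
    have t4 := norm_sub_le (θ * u' * ω' * (T * W - Pf) + (θ - αs) * u' * ω' * Pf)
      (αs * u' * (q - ω') * Pf)
    have t5 := norm_add_le (θ * u' * ω' * (T * W - Pf)) ((θ - αs) * u' * ω' * Pf)
    have e : Kt * η * P = (L + 1) * ‖u'‖ * ‖ω'‖ * (n * M ^ n) * (η * P)
      + ‖u'‖ * ‖ω'‖ * M ^ n * (η * P) + L * ‖u'‖ * M ^ n * (η * P)
      + L * ((‖ω'‖ + 1) * M ^ n) * (η * P) + η * P + η * P := by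
      rw [hKt]
      ring
    rw [e]
    linarith
  rw [norm_mul, norm_mul, norm_mul] at hDn
  set Q : ℝ := ‖θ * T - u / (u' * ω')‖ with hQ
  have hQ0 : 0 ≤ Q := norm_nonneg _
  have f1 : Q * (‖u'‖ * ‖ω'‖) * (c0 * P) ≤ Q * (‖u'‖ * ‖ω'‖) * ‖W‖ :=
    mul_le_mul_of_nonneg_left h4 (by positivity)
  have f2 : Q * (‖u'‖ * ‖ω'‖) * (c0 * P) ≤ ε * (‖u'‖ * ‖ω'‖ * c0) * P := by
    refine (f1.trans hDn).trans ?_
    exact mul_le_mul_of_nonneg_right hη2 hP0.le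
  have f3 : 0 < ‖u'‖ * ‖ω'‖ * (c0 * P) := by positivity
  have f4 : Q * (‖u'‖ * ‖ω'‖ * (c0 * P)) ≤ ε * (‖u'‖ * ‖ω'‖ * (c0 * P)) := by
    calc Q * (‖u'‖ * ‖ω'‖ * (c0 * P)) = Q * (‖u'‖ * ‖ω'‖) * (c0 * P) := by ring
      _ ≤ _ := f2
      _ = _ := by ring
  exact le_of_mul_le_mul_right f4 f3

private theorem F10_label {n c : ℕ} {R : Type*} [CommMonoid R] {m : Fin c → ℕ}
    (cl' : Fin n → Fin c)
    (hcard : ∀ C, (Finset.univ.filter (fun l => cl' l = C)).card = m C) (f : Fin c → R) :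
    ∏ l, f (cl' l) = ∏ C, f C ^ m C := by
  classical
  rw [← Finset.prod_fiberwise Finset.univ cl' (fun l => f (cl' l))]
  refine Finset.prod_congr rfl fun C _ => ?_
  rw [← hcard C, ← Finset.prod_const]
  refine Finset.prod_congr rfl fun l hl => ?_
  rw [(Finset.mem_filter.mp hl).2]

private theorem F10_small {F G : ℂ × ℂ → ℂ} {k n N : ℕ} {u u' : ℂ} {c : ℕ} {m : Fin c → ℕ}
    {b : Fin c → ℝ} {g v : Fin c → ℂ → ℂ} {a : Fin c → ℂ} {D : Fin c → ℕ}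
    {γ' : Fin n → ℂ → ℂ} {A B : ℂ × ℂ → ℂ × ℂ} {L ρ : ℝ}
    (h : Mat F G k n n N u u' c m b g v a D γ' A B L ρ) (C : Fin c) :
    ∀ᶠ t in 𝓝[≠] (0 : ℂ), pt g N C t ∈ ball (0 : ℂ × ℂ) ρ := by
  have h1 := isLittleO_iff.1 (h.hC.gsm C) one_pos
  have h2 : ∀ᶠ t in 𝓝[≠] (0 : ℂ), ‖t‖ < min 1 ρ := by
    apply nhdsWithin_le_nhds
    have := Metric.ball_mem_nhds (0 : ℂ) (lt_min one_pos h.hco.hρ)
    filter_upwards [this] with t ht
    rwa [mem_ball_zero_iff] at ht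
  filter_upwards [h1, h2] with t e1 e2
  rw [mem_ball_zero_iff]
  have e3 : ‖t‖ ^ N ≤ ‖t‖ := by
    calc ‖t‖ ^ N ≤ ‖t‖ ^ 1 :=
          pow_le_pow_of_le_one (norm_nonneg _) (e2.le.trans (min_le_left _ _)) h.hC.hN
      _ = ‖t‖ := pow_one _
  have e4 : ‖pt g N C t‖ ≤ ‖t‖ ^ N := by
    rw [pt, Prod.norm_def]
    simp only
    rw [norm_pow] at e1 ⊢
    exact max_le (by linarith) le_rfl
  exact lt_of_le_of_lt (e4.trans e3) (lt_of_lt_of_le e2 (min_le_right _ _))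

private theorem F10_T0diff {F G : ℂ × ℂ → ℂ} {k n N : ℕ} {u u' : ℂ} {c : ℕ} {m : Fin c → ℕ}
    {b : Fin c → ℝ} {g v : Fin c → ℂ → ℂ} {a : Fin c → ℂ} {D : Fin c → ℕ}
    {γ' : Fin n → ℂ → ℂ} {A B : ℂ × ℂ → ℂ × ℂ} {L ρ : ℝ}
    (h : Mat F G k n n N u u' c m b g v a D γ' A B L ρ) (ω τ : ℂ) (hω : ω ≠ 0)
    (hτ : τ ^ N = ω) (hτ0 : τ ≠ 0)
    (hlim : ∀ C, Tendsto (fun t : ℂ => (A (pt g N C t)).2 / t ^ N) (𝓝[≠] 0) (𝓝 ω))
    (l : Fin n) (C C' : Fin c) {ε : ℝ} (hε : 0 < ε) :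
    ∀ᶠ t in 𝓝[≠] (0 : ℂ), ‖γ' l (T0 A g N τ C t) - γ' l (T0 A g N τ C' t)‖ ≤
      ε * ‖g C t - g C' t‖ := by
  obtain ⟨p1, p2, -⟩ := T0_props h ω τ hω hτ hlim C
  obtain ⟨q1, q2, -⟩ := T0_props h ω τ hω hτ hlim C'
  have hN := h.hC.hN
  have hL : 1 ≤ L := h.hco.hL
  have hτn : 0 < ‖τ‖ := norm_pos_iff.mpr hτ0
  set c1 : ℝ := N * ‖τ‖ ^ (N - 1) / 2 with hc1
  have hNr : (0 : ℝ) < N := by exact_mod_cast hN
  have hc10 : 0 < c1 := by positivity
  set ε' : ℝ := ε * c1 / ((2 * ‖τ‖) ^ (N - 1) * L) with hε'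
  have hε'0 : 0 < ε' := by positivity
  obtain ⟨δ, hδ, hslow⟩ := slow_small N h.hC.hN (γ' l) (h.hG.γan l) (h.hG.γsm l) ε' hε'0
  -- the sum
  have hsum : Tendsto (fun t => ∑ i ∈ Finset.range N, (T0 A g N τ C t / t) ^ i *
      (T0 A g N τ C' t / t) ^ (N - 1 - i)) (𝓝[≠] 0) (𝓝 (N * τ ^ (N - 1))) := by
    have e1 : (N * τ ^ (N - 1) : ℂ) = ∑ i ∈ Finset.range N, τ ^ i * τ ^ (N - 1 - i) := by
      have : ∀ i ∈ Finset.range N, τ ^ i * τ ^ (N - 1 - i) = τ ^ (N - 1) := by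
        intro i hi
        rw [← pow_add]
        congr 1
        have := Finset.mem_range.mp hi
        omega
      rw [Finset.sum_congr rfl this, Finset.sum_const, Finset.card_range, nsmul_eq_mul]
    rw [e1]
    exact tendsto_finsetSum _ fun i _ => (p1.pow i).mul (q1.pow _)
  have hsum2 : ∀ᶠ t in 𝓝[≠] (0 : ℂ), c1 < ‖∑ i ∈ Finset.range N, (T0 A g N τ C t / t) ^ i *
      (T0 A g N τ C' t / t) ^ (N - 1 - i)‖ := by
    have e2 := hsum.norm
    apply e2.eventually_const_lt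
    rw [norm_mul, norm_pow, Complex.norm_natCast, hc1]
    have : 0 < (N : ℝ) * ‖τ‖ ^ (N - 1) := by positivity
    linarith
  have hclose : ∀ᶠ t in 𝓝[≠] (0 : ℂ),
      ‖T0 A g N τ C t / t - T0 A g N τ C' t / t‖ < ‖τ‖ / 4 := by
    have e2 := (p1.sub q1).norm
    rw [sub_self, norm_zero] at e2
    exact e2.eventually_lt_const (by positivity)
  have hb1 : ∀ᶠ t in 𝓝[≠] (0 : ℂ), ‖τ‖ / 2 < ‖T0 A g N τ C' t / t‖ :=
    q1.norm.eventually_const_lt (by linarith)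
  have hb2 : ∀ᶠ t in 𝓝[≠] (0 : ℂ), ‖T0 A g N τ C' t / t‖ < 2 * ‖τ‖ :=
    q1.norm.eventually_lt_const (by linarith)
  have hsm : ∀ᶠ t in 𝓝[≠] (0 : ℂ), ‖t‖ < δ / (2 * ‖τ‖) := by
    apply nhdsWithin_le_nhds
    have := Metric.ball_mem_nhds (0 : ℂ) (show 0 < δ / (2 * ‖τ‖) by positivity)
    filter_upwards [this] with t ht
    rwa [mem_ball_zero_iff] at ht
  filter_upwards [p2, q2, hsum2, hclose, hb1, hb2, hsm, F10_small h C, F10_small h C',
    self_mem_nhdsWithin] with t t1 t2 t3 t4 t5 t6 t7 t8 t9 t10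
  have ht : t ≠ 0 := t10
  have htn : 0 < ‖t‖ := norm_pos_iff.mpr ht
  set x := T0 A g N τ C t with hx
  set y := T0 A g N τ C' t with hy
  rw [norm_div, lt_div_iff₀ htn] at t5
  rw [norm_div, div_lt_iff₀ htn] at t6
  rw [← sub_div, norm_div, div_lt_iff₀ htn] at t4
  have hy0 : 0 < ‖y‖ := lt_trans (by positivity) t5
  have hyδ : ‖y‖ < δ := by
    rw [lt_div_iff₀ (by positivity)] at t7
    linarith
  have hxy : ‖x - y‖ ≤ ‖y‖ / 2 := by linarith
  have s1 := hslow y x hy0 hyδ hxy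
  -- size of x - y
  have s2 : (x - y) * ∑ i ∈ Finset.range N, x ^ i * y ^ (N - 1 - i) = x ^ N - y ^ N :=
    (Commute.all x y).mul_geom_sum₂ N
  have s3 : ∑ i ∈ Finset.range N, x ^ i * y ^ (N - 1 - i) =
      t ^ (N - 1) * ∑ i ∈ Finset.range N, (x / t) ^ i * (y / t) ^ (N - 1 - i) := by
    rw [Finset.mul_sum]
    refine Finset.sum_congr rfl fun i hi => ?_
    have hi' := Finset.mem_range.mp hi
    have : t ^ (N - 1) = t ^ i * t ^ (N - 1 - i) := by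
      rw [← pow_add]
      congr 1
      omega
    rw [this, div_pow, div_pow]
    field_simp
  have s4 : ‖x ^ N - y ^ N‖ ≤ L * ‖g C t - g C' t‖ := by
    rw [t1, t2]
    have e1 := h.hco.lipA _ t8 _ t9
    have e2 : ‖pt g N C t - pt g N C' t‖ = ‖g C t - g C' t‖ := by
      rw [pt, pt, Prod.mk_sub_mk, Prod.norm_def]
      simp
    rw [e2] at e1
    exact (norm_snd_le (A (pt g N C t) - A (pt g N C' t))).trans e1
  have s5 : ‖x - y‖ * (‖t‖ ^ (N - 1) * c1) ≤ L * ‖g C t - g C' t‖ := by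
    refine le_trans ?_ s4
    rw [← s2, s3, norm_mul, norm_mul, norm_pow]
    gcongr
  have s6 : ‖y‖ ^ (N - 1) ≤ (2 * ‖τ‖) ^ (N - 1) * ‖t‖ ^ (N - 1) := by
    rw [← mul_pow]
    exact pow_le_pow_left₀ (norm_nonneg _) t6.le _
  calc ‖γ' l x - γ' l y‖ ≤ ε' * ‖y‖ ^ (N - 1) * ‖x - y‖ := s1
    _ ≤ ε' * ((2 * ‖τ‖) ^ (N - 1) * ‖t‖ ^ (N - 1)) * ‖x - y‖ := by gcongr
    _ = (ε' * (2 * ‖τ‖) ^ (N - 1) / c1) * (‖x - y‖ * (‖t‖ ^ (N - 1) * c1)) := by
      field_simp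
    _ ≤ (ε' * (2 * ‖τ‖) ^ (N - 1) / c1) * (L * ‖g C t - g C' t‖) :=
      mul_le_mul_of_nonneg_left s5 (by positivity)
    _ = ε * ‖g C t - g C' t‖ := by
      rw [hε']
      field_simp

private theorem F10_th {c : ℕ} {A : ℂ × ℂ → ℂ × ℂ} {g : Fin c → ℂ → ℂ} {N : ℕ} {C : Fin c}
    {t α : ℂ} {s R ε : ℝ} (hs : 0 < s) (hR : 1 ≤ R)
    (h : ∀ X : ℂ, ‖X‖ ≤ R → ‖(A (g C t + s * X, t ^ N)).1 - (A (pt g N C t)).1 -
          α * (s * X)‖ ≤ ε * s) : ‖Th A g N C t s - α‖ ≤ ε := by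
  have h1 := h 1 (by rw [norm_one]; exact hR)
  rw [mul_one] at h1
  have hs' : (s : ℂ) ≠ 0 := by exact_mod_cast hs.ne'
  have h2 : Th A g N C t s - α =
      ((A (g C t + s, t ^ N)).1 - (A (pt g N C t)).1 - α * s) / s := by
    rw [Th]
    field_simp
  rw [h2, norm_div, Complex.norm_real, Real.norm_of_nonneg hs.le, div_le_iff₀ hs]
  exact h1

theorem theta_prod {F G : ℂ × ℂ → ℂ} {k n N : ℕ} {u u' : ℂ} {c : ℕ} {m : Fin c → ℕ}
    {b : Fin c → ℝ} {g v : Fin c → ℂ → ℂ} {a : Fin c → ℂ} {D : Fin c → ℕ}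
    {γ' : Fin n → ℂ → ℂ} {A B : ℂ × ℂ → ℂ × ℂ} {L ρ : ℝ}
    (h : Mat F G k n n N u u' c m b g v a D γ' A B L ρ) (ω τ α : ℂ) (hω : ω ≠ 0) (hα : α ≠ 0)
    (hτ : τ ^ N = ω) (hrel : α ^ (n + 1) * ω ^ (k - 1 - n) * u' = u)
    (hlim : ∀ C, Tendsto (fun t : ℂ => (A (pt g N C t)).2 / t ^ N) (𝓝[≠] 0) (𝓝 ω))
    (cl' : Fin n → Fin c)
    (hcard : ∀ C, (Finset.univ.filter (fun l => cl' l = C)).card = m C)
    (hO : ∀ l, (fun t => γ' l (T0 A g N τ (cl' l) t) - (A (pt g N (cl' l) t)).1)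
        =O[𝓝[≠] 0] (fun t : ℂ => ‖t‖ ^ (b (cl' l)))) :
    ∀ ε > (0 : ℝ), ∃ K > (0 : ℝ), ∃ δ > (0 : ℝ), ∀ t : ℂ, 0 < ‖t‖ → ‖t‖ < δ → ∀ C (s : ℝ),
      K * ‖t‖ ^ (b C) ≤ s → s ≤ δ * ‖t‖ ^ N →
      ‖Th A g N C t s * ∏ l : Fin n, Th A g N C t (max s ‖g C t - g (cl' l) t‖) -
        α ^ (n + 1)‖ ≤ ε := by
  intro ε hε
  have hN := h.hC.hN
  have hL : 1 ≤ L := h.hco.hL
  have hL0 : 0 < L := by linarith
  have hτ0 : τ ≠ 0 := by
    rintro rfl
    rw [zero_pow (by omega)] at hτ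
    exact hω hτ.symm
  have hτn : 0 < ‖τ‖ := norm_pos_iff.mpr hτ0
  obtain ⟨a0, ha0, haff⟩ := aff h
  obtain ⟨c0, hc0, hlow⟩ := prod_lower n
  set e : ℕ := N * (k - 1 - n) with he
  set ω' : ℂ := ω ^ (k - 1 - n) with hω'
  have hω'0 : ω' ≠ 0 := pow_ne_zero _ hω
  obtain ⟨η, hη0, hη1, halg⟩ := F10_alg n hc0 hL0.le (u := u) (u' := u') (ω' := ω') h.hG.hu
    hω'0 hε
  set R : ℝ := max 1 (2 * (2 * L + 1) / η) with hR
  have hR1 : 1 ≤ R := le_max_left _ _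
  have hR0 : 0 < R := by linarith
  have hRη : (2 * L + 1) / R ≤ η / 2 := by
    have := le_max_right 1 (2 * (2 * L + 1) / η)
    rw [div_le_iff₀ hR0]
    have h2 : η / 2 * (2 * (2 * L + 1) / η) ≤ η / 2 * R :=
      mul_le_mul_of_nonneg_left this (by positivity)
    have h3 : η / 2 * (2 * (2 * L + 1) / η) = 2 * L + 1 := by field_simp
    linarith
  set ε1 : ℝ := η / (10 * 2 ^ n) with hε1
  have hε10 : 0 < ε1 := by positivity
  have h2n : (1 : ℝ) ≤ 2 ^ n := one_le_pow₀ (by norm_num)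
  have hε1a : ε1 * 2 ^ n ≤ η := by
    have : ε1 * 2 ^ n = η / 10 := by rw [hε1]; field_simp
    linarith
  have hε1b : 5 * ε1 ≤ η / 2 := by
    have : ε1 * 2 ^ n = η / 10 := by rw [hε1]; field_simp
    nlinarith
  have hε1c : ε1 ≤ 1 := by linarith
  obtain ⟨K1, hK1, δ1, hδ1, haff'⟩ := haff R hR1 ε1 hε10
  obtain ⟨K2, hK2, δ2, hδ2, hpF⟩ := prodF h.hC 1 le_rfl ε1 hε10
  obtain ⟨δ3, hδ3, hcE⟩ := cE_low h.hC e
  obtain ⟨δ4, hδ4, hfac⟩ := h.hG.fac η hη0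
  -- uniform constant in hO
  obtain ⟨M0, hM0, hO'⟩ : ∃ M0 > (0 : ℝ), ∀ l, ∀ᶠ t in 𝓝[≠] (0 : ℂ),
      ‖γ' l (T0 A g N τ (cl' l) t) - (A (pt g N (cl' l) t)).1‖ ≤ M0 * ‖t‖ ^ (b (cl' l)) := by
    have h1 : ∀ l, ∃ M > (0 : ℝ), ∀ᶠ t in 𝓝[≠] (0 : ℂ),
        ‖γ' l (T0 A g N τ (cl' l) t) - (A (pt g N (cl' l) t)).1‖ ≤ M * ‖t‖ ^ (b (cl' l)) := by
      intro l
      obtain ⟨M, hM, h2⟩ := (hO l).exists_pos
      refine ⟨M, hM, ?_⟩
      filter_upwards [h2.bound] with t ht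
      rwa [Real.norm_of_nonneg (by positivity)] at ht
    choose M hM h2 using h1
    refine ⟨1 + ∑ l, M l, ?_, fun l => ?_⟩
    · have : 0 ≤ ∑ l, M l := Finset.sum_nonneg fun l _ => (hM l).le
      linarith
    · filter_upwards [h2 l] with t ht
      refine ht.trans (mul_le_mul_of_nonneg_right ?_ (by positivity))
      have : M l ≤ ∑ l, M l :=
        Finset.single_le_sum (fun l _ => (hM l).le) (Finset.mem_univ l)
      linarith
  set c2 : ℝ := (‖τ‖ / 2) ^ N with hc2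
  have hc20 : 0 < c2 := by positivity
  -- eventual facts
  have hev : ∀ᶠ t in 𝓝[≠] (0 : ℂ),
      (∀ C, T0 A g N τ C t ^ N = (A (pt g N C t)).2) ∧
      (∀ C, ‖(T0 A g N τ C t / t) ^ e - ω'‖ ≤ η) ∧
      (∀ C l, ‖γ' l (T0 A g N τ C t) - γ' l (T0 A g N τ (cl' l) t)‖ ≤
        ε1 * ‖g C t - g (cl' l) t‖) ∧
      (∀ l, ‖γ' l (T0 A g N τ (cl' l) t) - (A (pt g N (cl' l) t)).1‖ ≤ M0 * ‖t‖ ^ (b (cl' l))) ∧
      (∀ C C', C ≠ C' → ‖t‖ ^ (b C) ≤ ε1 / M0 * ‖g C t - g C' t‖) ∧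
      (∀ C C', ‖g C t - g C' t‖ ≤ δ1 * ‖t‖ ^ N) ∧
      (∀ C, ‖τ‖ / 2 < ‖T0 A g N τ C t / t‖ ∧ ‖T0 A g N τ C t / t‖ < 2 * ‖τ‖) ∧
      (∀ C, ‖(A (pt g N C t)).1‖ ≤ δ4 / 4 * ‖(A (pt g N C t)).2‖) := by
    have k1 : ∀ C, ∀ᶠ t in 𝓝[≠] (0 : ℂ), T0 A g N τ C t ^ N = (A (pt g N C t)).2 := fun C =>
      (T0_props h ω τ hω hτ hlim C).2.1
    have k2 : ∀ C, ∀ᶠ t in 𝓝[≠] (0 : ℂ), ‖(T0 A g N τ C t / t) ^ e - ω'‖ ≤ η := by
      intro C
      have e1 := ((T0_props h ω τ hω hτ hlim C).1.pow e).sub_const ω'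
      have e2 : τ ^ e - ω' = 0 := by
        rw [he, pow_mul, hτ, sub_self]
      rw [e2] at e1
      have e3 := e1.norm
      rw [norm_zero] at e3
      exact (e3.eventually_lt_const hη0).mono fun t ht => ht.le
    have k3 : ∀ C l, ∀ᶠ t in 𝓝[≠] (0 : ℂ),
        ‖γ' l (T0 A g N τ C t) - γ' l (T0 A g N τ (cl' l) t)‖ ≤
        ε1 * ‖g C t - g (cl' l) t‖ := fun C l =>
      F10_T0diff h ω τ hω hτ hτ0 hlim l C (cl' l) hε10
    have k5 : ∀ C C', ∀ᶠ t in 𝓝[≠] (0 : ℂ), C ≠ C' →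
        ‖t‖ ^ (b C) ≤ ε1 / M0 * ‖g C t - g C' t‖ := by
      intro C C'
      by_cases hCC : C = C'
      · exact Eventually.of_forall fun t h1 => absurd hCC h1
      · have := isLittleO_iff.1 (h.hC.sep C C' hCC) (show 0 < ε1 / M0 by positivity)
        filter_upwards [this] with t ht _
        rwa [Real.norm_of_nonneg (by positivity)] at ht
    have k6 : ∀ C C', ∀ᶠ t in 𝓝[≠] (0 : ℂ), ‖g C t - g C' t‖ ≤ δ1 * ‖t‖ ^ N := by
      intro C C'
      have e1 := isLittleO_iff.1 ((h.hC.gsm C).sub (h.hC.gsm C')) hδ1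
      filter_upwards [e1] with t ht
      rwa [norm_pow] at ht
    have k7 : ∀ C, ∀ᶠ t in 𝓝[≠] (0 : ℂ),
        ‖τ‖ / 2 < ‖T0 A g N τ C t / t‖ ∧ ‖T0 A g N τ C t / t‖ < 2 * ‖τ‖ := by
      intro C
      have e1 := (T0_props h ω τ hω hτ hlim C).1.norm
      exact (e1.eventually_const_lt (by linarith)).and (e1.eventually_lt_const (by linarith))
    have k8 : ∀ C, ∀ᶠ t in 𝓝[≠] (0 : ℂ),
        ‖(A (pt g N C t)).1‖ ≤ δ4 / 4 * ‖(A (pt g N C t)).2‖ := by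
      intro C
      obtain ⟨δc, hδc, hcone⟩ := h.cone (δ4 / 4) (by positivity)
      have e1 := isLittleO_iff.1 (h.hC.gsm C) hδc
      have e2 : ∀ᶠ t in 𝓝[≠] (0 : ℂ), ‖t ^ N‖ < δc := by
        apply nhdsWithin_le_nhds
        have e3 : Tendsto (fun t : ℂ => ‖t ^ N‖) (𝓝 0) (𝓝 0) := by
          have : Continuous fun t : ℂ => ‖t ^ N‖ := (continuous_pow N).norm
          have e4 := this.tendsto 0
          simp only [zero_pow (show N ≠ 0 by omega), norm_zero] at e4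
          exact e4
        exact e3.eventually_lt_const hδc
      filter_upwards [e1, e2] with t t1 t2
      exact hcone (g C t) (t ^ N) t2 t1
    filter_upwards [eventually_all.2 k1, eventually_all.2 k2,
      eventually_all.2 fun C => eventually_all.2 (k3 C), eventually_all.2 hO',
      eventually_all.2 fun C => eventually_all.2 (k5 C),
      eventually_all.2 fun C => eventually_all.2 (k6 C), eventually_all.2 k7,
      eventually_all.2 k8] with t t1 t2 t3 t4 t5 t6 t7 t8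
    exact ⟨t1, t2, t3, t4, t5, t6, t7, t8⟩
  obtain ⟨δ5, hδ5, hev'⟩ := F10_ev hev
  refine ⟨max (max K1 K2) (max 1 (M0 / ε1)), lt_of_lt_of_le one_pos
    ((le_max_left 1 _).trans (le_max_right _ _)),
    min (min (min δ1 δ2) (min δ3 (δ4 / (2 * ‖τ‖)))) (min δ5 (δ4 * c2 / (4 * L))),
    by positivity, ?_⟩
  intro t ht0 htδ C s hsK hsδ
  have ht : t ≠ 0 := norm_pos_iff.mp ht0
  -- the smallness of t
  have hm1 := min_le_left (min (min δ1 δ2) (min δ3 (δ4 / (2 * ‖τ‖)))) (min δ5 (δ4 * c2 / (4 * L)))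
  have hm2 := min_le_right (min (min δ1 δ2) (min δ3 (δ4 / (2 * ‖τ‖))))
    (min δ5 (δ4 * c2 / (4 * L)))
  have hd1 := (hm1.trans (min_le_left _ _)).trans (min_le_left δ1 δ2)
  have hd2 := (hm1.trans (min_le_left _ _)).trans (min_le_right δ1 δ2)
  have hd3 := (hm1.trans (min_le_right _ _)).trans (min_le_left δ3 (δ4 / (2 * ‖τ‖)))
  have hd4 := (hm1.trans (min_le_right _ _)).trans (min_le_right δ3 (δ4 / (2 * ‖τ‖)))
  have hd5 := hm2.trans (min_le_left δ5 (δ4 * c2 / (4 * L)))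
  have hd6 := hm2.trans (min_le_right δ5 (δ4 * c2 / (4 * L)))
  obtain ⟨v1, v2, v3, v4, v5, v6, v7, v8⟩ := hev' t ht0 (lt_of_lt_of_le htδ hd5)
  have htN : 0 < ‖t‖ ^ N := by positivity
  have hbC : 0 < ‖t‖ ^ (b C) := by positivity
  have hKa := (le_max_left K1 K2).trans (le_max_left (max K1 K2) (max 1 (M0 / ε1)))
  have hKb := (le_max_right K1 K2).trans (le_max_left (max K1 K2) (max 1 (M0 / ε1)))
  have hKc := (le_max_left 1 (M0 / ε1)).trans (le_max_right (max K1 K2) (max 1 (M0 / ε1)))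
  have hKd := (le_max_right 1 (M0 / ε1)).trans (le_max_right (max K1 K2) (max 1 (M0 / ε1)))
  have hs1 : K1 * ‖t‖ ^ (b C) ≤ s := (mul_le_mul_of_nonneg_right hKa hbC.le).trans hsK
  have hs2 : K2 * ‖t‖ ^ (b C) ≤ s := (mul_le_mul_of_nonneg_right hKb hbC.le).trans hsK
  have hs3 : ‖t‖ ^ (b C) ≤ s := by
    have := (mul_le_mul_of_nonneg_right hKc hbC.le).trans hsK
    rwa [one_mul] at this
  have hs4 : M0 * ‖t‖ ^ (b C) ≤ ε1 * s := by
    have h1 := (mul_le_mul_of_nonneg_right hKd hbC.le).trans hsK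
    have h2 := mul_le_mul_of_nonneg_left h1 hε10.le
    have h3 : ε1 * (M0 / ε1 * ‖t‖ ^ (b C)) = M0 * ‖t‖ ^ (b C) := by field_simp
    linarith
  have hs0 : 0 < s := lt_of_lt_of_le hbC hs3
  have hsd1 : s ≤ δ1 * ‖t‖ ^ N := hsδ.trans (mul_le_mul_of_nonneg_right hd1 htN.le)
  have hsd2 : s ≤ δ2 * ‖t‖ ^ N := hsδ.trans (mul_le_mul_of_nonneg_right hd2 htN.le)
  -- abbreviations
  set x0 : ℂ := (A (pt g N C t)).1 with hx0
  set y0 : ℂ := (A (pt g N C t)).2 with hy0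
  set T : ℂ := T0 A g N τ C t with hT
  obtain ⟨αs, hαs1, hαs2, hαs3, hαs4⟩ := haff' t ht0 (lt_of_lt_of_le htδ hd1) C s hs1 hsd1
  have hsC : (s : ℂ) ≠ 0 := by exact_mod_cast hs0.ne'
  -- the direction X
  have hSpos : ∀ l, 0 < s + ‖g C t - g (cl' l) t‖ := fun l => by
    have := norm_nonneg (g C t - g (cl' l) t)
    linarith
  obtain ⟨X, hX1, hX2⟩ := hlow (fun l => ((s / (s + ‖g C t - g (cl' l) t‖) : ℝ) : ℂ))
    (fun l => (g C t - g (cl' l) t) / ((s + ‖g C t - g (cl' l) t‖ : ℝ) : ℂ)) (fun l => by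
      rw [Complex.norm_real, Real.norm_of_nonneg (div_nonneg hs0.le (hSpos l).le), norm_div,
        Complex.norm_real, Real.norm_of_nonneg (hSpos l).le, ← add_div, div_self (hSpos l).ne'])
  have hX2' : c0 * ∏ l, (s + ‖g C t - g (cl' l) t‖) ≤
      ‖∏ l, ((s : ℂ) * X + (g C t - g (cl' l) t))‖ := by
    have e1 : ∏ l, ((((s / (s + ‖g C t - g (cl' l) t‖) : ℝ) : ℂ)) * X +
        (g C t - g (cl' l) t) / ((s + ‖g C t - g (cl' l) t‖ : ℝ) : ℂ)) =
        (∏ l, ((s : ℂ) * X + (g C t - g (cl' l) t))) /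
          ((∏ l, (s + ‖g C t - g (cl' l) t‖) : ℝ) : ℂ) := by
      rw [Complex.ofReal_prod, ← Finset.prod_div_distrib]
      refine Finset.prod_congr rfl fun l _ => ?_
      have := (hSpos l).ne'
      have h' : ((s + ‖g C t - g (cl' l) t‖ : ℝ) : ℂ) ≠ 0 := by exact_mod_cast this
      rw [Complex.ofReal_div]
      field_simp
    rw [e1, norm_div, Complex.norm_real,
      Real.norm_of_nonneg (Finset.prod_nonneg fun l _ => (hSpos l).le),
      le_div_iff₀ (Finset.prod_pos fun l _ => hSpos l)] at hX2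
    exact hX2
  -- the scales s_l
  have hscale : ∀ l, ∃ α' : ℂ, ‖α'‖ ≤ L ∧
      (∀ X : ℂ, ‖X‖ ≤ R → ‖(A (g C t + (max s ‖g C t - g (cl' l) t‖ : ℝ) * X, t ^ N)).1 - x0 -
          α' * ((max s ‖g C t - g (cl' l) t‖ : ℝ) * X)‖ ≤
          ε1 * (max s ‖g C t - g (cl' l) t‖)) := by
    intro l
    obtain ⟨α', h1, h2, h3, -⟩ := haff' t ht0 (lt_of_lt_of_le htδ hd1) C
      (max s ‖g C t - g (cl' l) t‖) (hs1.trans (le_max_left _ _)) (max_le hsd1 (v6 _ _))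
    exact ⟨α', h2, h3⟩
  have hth0 : ‖Th A g N C t s - αs‖ ≤ ε1 := F10_th hs0 hR1 hαs3
  have hfactor : ∀ l, ‖Th A g N C t (max s ‖g C t - g (cl' l) t‖)‖ ≤ L + 1 ∧
      ‖(x0 + αs * (s * X) - γ' l T) - Th A g N C t (max s ‖g C t - g (cl' l) t‖) *
        ((s : ℂ) * X + (g C t - g (cl' l) t))‖ ≤ η * (s + ‖g C t - g (cl' l) t‖) := by
    intro l
    set d : ℝ := ‖g C t - g (cl' l) t‖ with hd
    have hd0 : 0 ≤ d := norm_nonneg _
    set sl : ℝ := max s d with hsl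
    have hsls : s ≤ sl := le_max_left _ _
    have hsld : d ≤ sl := le_max_right _ _
    have hsl0 : 0 < sl := lt_of_lt_of_le hs0 hsls
    have hslC : (sl : ℂ) ≠ 0 := by exact_mod_cast hsl0.ne'
    obtain ⟨α', h1, h2⟩ := hscale l
    have h3 : ‖Th A g N C t sl - α'‖ ≤ ε1 := F10_th hsl0 hR1 h2
    set θ : ℂ := Th A g N C t sl with hθ
    have h4 : ‖θ‖ ≤ L + 1 := by
      have : θ = (θ - α') + α' := by ring
      rw [this]
      refine (norm_add_le _ _).trans ?_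
      linarith
    refine ⟨h4, ?_⟩
    -- position of the other centre
    have p1 : ‖x0 - (A (pt g N (cl' l) t)).1 - θ * (g C t - g (cl' l) t)‖ ≤ 2 * ε1 * sl := by
      have e1 := h2 ((g (cl' l) t - g C t) / sl) (by
        rw [norm_div, Complex.norm_real, Real.norm_of_nonneg hsl0.le, div_le_iff₀ hsl0,
          ← norm_neg, neg_sub, ← hd]
        nlinarith)
      have e2 : (sl : ℂ) * ((g (cl' l) t - g C t) / sl) = g (cl' l) t - g C t := by field_simp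
      rw [e2, add_sub_cancel] at e1
      have e3 : x0 - (A (pt g N (cl' l) t)).1 - θ * (g C t - g (cl' l) t) =
          -((A (g (cl' l) t, t ^ N)).1 - x0 - α' * (g (cl' l) t - g C t)) -
          (θ - α') * (g C t - g (cl' l) t) := by
        rw [pt]
        ring
      rw [e3]
      refine (norm_sub_le _ _).trans ?_
      rw [norm_neg, norm_mul]
      have e4 : ‖θ - α'‖ * ‖g C t - g (cl' l) t‖ ≤ ε1 * sl :=
        mul_le_mul h3 (by rw [← hd]; exact hsld) (norm_nonneg _) hε10.le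
      linarith
    have p2 : ‖(A (pt g N (cl' l) t)).1 - γ' l (T0 A g N τ (cl' l) t)‖ ≤ ε1 * sl := by
      rw [← norm_neg, neg_sub]
      refine (v4 l).trans ?_
      by_cases hCC : cl' l = C
      · rw [hCC]
        exact hs4.trans (mul_le_mul_of_nonneg_left hsls hε10.le)
      · have e1 := v5 (cl' l) C hCC
        have e2 := mul_le_mul_of_nonneg_left e1 hM0.le
        have e3 : M0 * (ε1 / M0 * ‖g (cl' l) t - g C t‖) = ε1 * ‖g (cl' l) t - g C t‖ := by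
          field_simp
        rw [e3, ← norm_neg (g (cl' l) t - g C t), neg_sub, ← hd] at e2
        exact e2.trans (mul_le_mul_of_nonneg_left hsld hε10.le)
    have p3 : ‖γ' l (T0 A g N τ (cl' l) t) - γ' l T‖ ≤ ε1 * sl := by
      rw [← norm_neg, neg_sub]
      exact (v3 C l).trans (mul_le_mul_of_nonneg_left hsld hε10.le)
    have p4 : ‖αs - θ‖ * s ≤ (ε1 + η / 2) * sl := by
      by_cases hc1 : d ≤ s
      · have e1 : sl = s := max_eq_left hc1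
        have e2 : ‖αs - θ‖ ≤ ε1 := by
          rw [← norm_neg, neg_sub, hθ, e1]
          exact hth0
        calc ‖αs - θ‖ * s ≤ ε1 * sl := mul_le_mul e2 hsls hs0.le hε10.le
          _ ≤ (ε1 + η / 2) * sl := mul_le_mul_of_nonneg_right (by linarith) hsl0.le
      · push Not at hc1
        have e1 : sl = d := max_eq_right hc1.le
        by_cases hc3 : d ≤ R * s
        · have e2 := hαs3 ((d / s : ℝ) : ℂ) (by
            rw [Complex.norm_real, Real.norm_of_nonneg (by positivity), div_le_iff₀ hs0]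
            exact hc3)
          have e3 : (s : ℂ) * ((d / s : ℝ) : ℂ) = (sl : ℂ) := by
            rw [e1, Complex.ofReal_div]
            field_simp
          rw [e3] at e2
          have e4 : (A (g C t + sl, t ^ N)).1 - x0 = θ * sl := by
            rw [hθ, Th, div_mul_cancel₀ _ hslC]
          rw [e4] at e2
          have e5 : θ * sl - αs * sl = -((αs - θ) * sl) := by ring
          rw [e5, norm_neg, norm_mul, Complex.norm_real, Real.norm_of_nonneg hsl0.le] at e2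
          calc ‖αs - θ‖ * s ≤ ‖αs - θ‖ * sl := mul_le_mul_of_nonneg_left hsls (norm_nonneg _)
            _ ≤ ε1 * s := e2
            _ ≤ ε1 * sl := mul_le_mul_of_nonneg_left hsls hε10.le
            _ ≤ (ε1 + η / 2) * sl := mul_le_mul_of_nonneg_right (by linarith) hsl0.le
        · push Not at hc3
          have e2 : ‖αs - θ‖ ≤ 2 * L + 1 := by
            refine (norm_sub_le _ _).trans ?_
            linarith
          have e3 : s ≤ sl / R := by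
            rw [le_div_iff₀ hR0, e1]
            linarith
          calc ‖αs - θ‖ * s ≤ (2 * L + 1) * (sl / R) := mul_le_mul e2 e3 hs0.le (by linarith)
            _ = (2 * L + 1) / R * sl := by ring
            _ ≤ η / 2 * sl := mul_le_mul_of_nonneg_right hRη hsl0.le
            _ ≤ (ε1 + η / 2) * sl := mul_le_mul_of_nonneg_right (by linarith) hsl0.le
    have p5 : (x0 + αs * (s * X) - γ' l T) - θ * ((s : ℂ) * X + (g C t - g (cl' l) t)) =
        (αs - θ) * (s * X) + (x0 - (A (pt g N (cl' l) t)).1 - θ * (g C t - g (cl' l) t))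
        + ((A (pt g N (cl' l) t)).1 - γ' l (T0 A g N τ (cl' l) t))
        + (γ' l (T0 A g N τ (cl' l) t) - γ' l T) := by ring
    rw [p5]
    have p6 : ‖(αs - θ) * (s * X)‖ ≤ (ε1 + η / 2) * sl := by
      rw [norm_mul, norm_mul, hX1, mul_one, Complex.norm_real, Real.norm_of_nonneg hs0.le]
      exact p4
    have q1 := norm_add_le ((αs - θ) * (s * X) + (x0 - (A (pt g N (cl' l) t)).1 -
      θ * (g C t - g (cl' l) t)) + ((A (pt g N (cl' l) t)).1 - γ' l (T0 A g N τ (cl' l) t)))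
      (γ' l (T0 A g N τ (cl' l) t) - γ' l T)
    have q2 := norm_add_le ((αs - θ) * (s * X) + (x0 - (A (pt g N (cl' l) t)).1 -
      θ * (g C t - g (cl' l) t))) ((A (pt g N (cl' l) t)).1 - γ' l (T0 A g N τ (cl' l) t))
    have q3 := norm_add_le ((αs - θ) * (s * X)) (x0 - (A (pt g N (cl' l) t)).1 -
      θ * (g C t - g (cl' l) t))
    have q4 : (5 * ε1 + η / 2) * sl ≤ η * sl := mul_le_mul_of_nonneg_right (by linarith) hsl0.le
    have q5 : η * sl ≤ η * (s + d) := mul_le_mul_of_nonneg_left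
      (max_le (by linarith) (by linarith)) hη0.le
    linarith
  -- final application of the algebra
  have hte : t ^ e ≠ 0 := pow_ne_zero _ ht
  have hten : 0 < ‖t‖ ^ e := by positivity
  have hEb : cE e m b g C s t ≤ 2 ^ n * (‖t‖ ^ e * ∏ l, (s + ‖g C t - g (cl' l) t‖)) := by
    have := (hcE t ht0 (lt_of_lt_of_le htδ hd3) C s hs3).2
    rwa [← F10_label cl' hcard (fun C' => s + ‖g C t - g C' t‖)] at this
  have hPp : 0 < ∏ l, (s + ‖g C t - g (cl' l) t‖) := Finset.prod_pos fun l _ => hSpos l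
  have hEη : ε1 * cE e m b g C s t ≤ η * (∏ l, (s + ‖g C t - g (cl' l) t‖)) * ‖t‖ ^ e := by
    calc ε1 * cE e m b g C s t
        ≤ ε1 * (2 ^ n * (‖t‖ ^ e * ∏ l, (s + ‖g C t - g (cl' l) t‖))) :=
          mul_le_mul_of_nonneg_left hEb hε10.le
      _ = (ε1 * 2 ^ n) * ((∏ l, (s + ‖g C t - g (cl' l) t‖)) * ‖t‖ ^ e) := by ring
      _ ≤ η * ((∏ l, (s + ‖g C t - g (cl' l) t‖)) * ‖t‖ ^ e) :=
          mul_le_mul_of_nonneg_right hε1a (by positivity)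
      _ = _ := by ring
  have hT1 := v7 C
  rw [← hT, norm_div, lt_div_iff₀ ht0, div_lt_iff₀ ht0] at hT1
  have hTpos : 0 < ‖T‖ := lt_trans (by positivity) hT1.1
  have hTδ : ‖T‖ < δ4 := by
    have h1 := lt_of_lt_of_le htδ hd4
    rw [lt_div_iff₀ (by positivity)] at h1
    linarith [hT1.2]
  have hTN : c2 * ‖t‖ ^ N ≤ ‖T‖ ^ N := by
    rw [hc2, ← mul_pow]
    exact pow_le_pow_left₀ (by positivity) hT1.1.le _
  have hTy : T ^ N = y0 := v1 C
  have hx0b : ‖x0‖ ≤ δ4 / 4 * ‖T‖ ^ N := by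
    have := v8 C
    rwa [← hx0, ← hy0, ← hTy, norm_pow] at this
  have hLs : L * s ≤ δ4 / 4 * ‖T‖ ^ N := by
    have h1 : s ≤ δ4 * c2 / (4 * L) * ‖t‖ ^ N :=
      hsδ.trans (mul_le_mul_of_nonneg_right hd6 htN.le)
    calc L * s ≤ L * (δ4 * c2 / (4 * L) * ‖t‖ ^ N) := mul_le_mul_of_nonneg_left h1 hL0.le
      _ = δ4 / 4 * (c2 * ‖t‖ ^ N) := by field_simp
      _ ≤ δ4 / 4 * ‖T‖ ^ N := mul_le_mul_of_nonneg_left hTN (by positivity)
  have hxx : ‖x0 + αs * (s * X)‖ < δ4 * ‖T‖ ^ N := by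
    have h1 : ‖αs * (s * X)‖ ≤ L * s := by
      rw [norm_mul, norm_mul, hX1, mul_one, Complex.norm_real, Real.norm_of_nonneg hs0.le]
      exact mul_le_mul_of_nonneg_right hαs2 hs0.le
    have h2 := norm_add_le x0 (αs * (s * X))
    have h3 : 0 < δ4 * ‖T‖ ^ N := by positivity
    linarith
  have hfinal := halg (Th A g N C t s) αs ((T / t) ^ e)
    (dx F (g C t + s * X, t ^ N) / t ^ e) (dx G (x0 + αs * (s * X), y0) / t ^ e)
    (fun l => Th A g N C t (max s ‖g C t - g (cl' l) t‖))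
    (fun l => (s : ℂ) * X + (g C t - g (cl' l) t))
    (fun l => x0 + αs * (s * X) - γ' l T)
    (fun l => s + ‖g C t - g (cl' l) t‖) hSpos (hth0.trans (by linarith))
    (fun l => (hfactor l).2) (fun l => by
      refine (norm_add_le _ _).trans ?_
      rw [norm_mul, hX1, mul_one, Complex.norm_real, Real.norm_of_nonneg hs0.le])
    hX2' (fun l => (hfactor l).1) hαs2 (by
      have e1 : dx F (g C t + s * X, t ^ N) / t ^ e -
          αs * (dx G (x0 + αs * (s * X), y0) / t ^ e) =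
          (dx F (g C t + s * X, t ^ N) - αs * dx G (x0 + αs * (s * X), y0)) / t ^ e := by ring
      rw [e1, norm_div, norm_pow, div_le_iff₀ hten]
      exact (hαs4 X (by rw [hX1]; exact hR1)).trans hEη) (by
      have e1 := hpF t ht0 (lt_of_lt_of_le htδ hd2) C s hs2 hsd2 X hX1.le
      rw [← F10_label cl' hcard (fun C' => g C t + s * X - g C' t)] at e1
      have e2 : ∏ l, (g C t + s * X - g (cl' l) t) =
          ∏ l, ((s : ℂ) * X + (g C t - g (cl' l) t)) :=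
        Finset.prod_congr rfl fun l _ => by ring
      rw [e2] at e1
      have e3 : dx F (g C t + s * X, t ^ N) / t ^ e -
          u * ∏ l, ((s : ℂ) * X + (g C t - g (cl' l) t)) =
          (dx F (g C t + s * X, t ^ N) -
            u * t ^ e * ∏ l, ((s : ℂ) * X + (g C t - g (cl' l) t))) / t ^ e := by
        field_simp
      rw [e3, norm_div, norm_pow, div_le_iff₀ hten]
      exact e1.trans hEη) (by
      have e1 := hfac (x0 + αs * (s * X)) T hTpos hTδ hxx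
      rw [hTy, ← he] at e1
      have e3 : dx G (x0 + αs * (s * X), y0) / t ^ e -
          u' * (T / t) ^ e * ∏ l, (x0 + αs * (s * X) - γ' l T) =
          (dx G (x0 + αs * (s * X), y0) -
            u' * T ^ e * ∏ l, (x0 + αs * (s * X) - γ' l T)) / t ^ e := by
        rw [div_pow]
        field_simp
      rw [e3, norm_div, norm_pow, div_le_iff₀ hten, norm_pow, norm_div, div_pow]
      refine e1.trans (le_of_eq ?_)
      field_simp) (v2 C)
  have hκ : u / (u' * ω') = α ^ (n + 1) := by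
    rw [← hrel]
    have := h.hG.hu
    field_simp
  rw [hκ] at hfinal
  exact hfinal

end H24.LS
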