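import Pool.Agent.H24.LS.P0
import Pool.Agent.H24.LS.F0
import Pool.Agent.H24.LS.F4
import Pool.Agent.H24.LS.F7
import Pool.Agent.H24.LS.F9
import Pool.Agent.H24.LS.F10
import Pool.Agent.H24.LS.E4

/-!
# F11: `Th ≈ α` at all scales; positions of the images of the centres

* `theta_close`: apply `chain n c M` with `c = min a0 ‖α‖ /2`, `M = L + ‖α‖ + 1`.  Given `ε`, take `ε' = ε/K_chain`.
  `theta_prod` with `ε'` gives `K, δ`.  Let `s1 = σ ‖t‖^N` with fixed small `σ ≤ δ`, such that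
  `‖Th C t s1 - α‖ ≤ ε'` for small `t`: by hypothesis `hroot` (`x = g C t + s1`, `‖x‖ ∈ [σ/2, 2σ] ‖t‖^N`; `(A pt).1 = o(‖t‖^N)`).
  `s0 = K ‖t‖^(b C)`, `D_l = ‖g C - g (cl' l)‖ ≤ s1` for small `t`.  Continuity of `Th C t ·` on `[s0,s1]`: `A` is
  continuous.  Bounds `c ≤ ‖Th‖ ≤ M` from `aff` (`Th` is within `a0/4` of `α_s`).  Conclusion for `s ∈ [s0, s1]`; so the
  final `δ` is `min δ σ`.
* `x_pair`: at scale `s = ‖g C - g C'‖` (`≥ K s_C` for small `t` by `sep`; `≤ δ‖t‖^N`): `aff` (`X = (g C' - g C)/s`):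
  `‖(A pt C').1 - (A pt C).1 - α_s (g C' - g C)‖ ≤ ε s` and `‖α_s - α‖ ≤ ‖α_s - Th(s)‖ + ‖Th(s) - α‖ ≤ 2ε`.
  (`C = C'` trivial.)
-/

open Filter Topology Metric Asymptotics

namespace H24.LS

theorem F11_ev {P : ℂ → Prop} (h : ∀ᶠ t in 𝓝[≠] (0 : ℂ), P t) :
    ∃ δ > (0 : ℝ), ∀ t : ℂ, 0 < ‖t‖ → ‖t‖ < δ → P t := by
  rw [eventually_nhdsWithin_iff, Metric.eventually_nhds_iff] at h
  obtain ⟨δ, hδ, h⟩ := h
  refine ⟨δ, hδ, fun t ht0 ht => h ?_ ?_⟩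
  · rwa [dist_zero_right]
  · exact norm_pos_iff.1 ht0

theorem F11_g {c N : ℕ} {g : Fin c → ℂ → ℂ} (hg : ∀ C, (g C) =o[𝓝[≠] 0] (fun t : ℂ => t ^ N))
    {κ : ℝ} (hκ : 0 < κ) : ∃ δ > (0 : ℝ), ∀ t : ℂ, 0 < ‖t‖ → ‖t‖ < δ →
      ∀ C, ‖g C t‖ ≤ κ * ‖t‖ ^ N := by
  apply F11_ev
  rw [eventually_all]
  intro C
  filter_upwards [(hg C).def hκ] with t ht
  rwa [norm_pow] at ht

/-- the slope is close to the constant of `aff` -/
theorem F11_th {c : ℕ} {A : ℂ × ℂ → ℂ × ℂ} {g : Fin c → ℂ → ℂ} {N : ℕ} {C : Fin c} {t : ℂ}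
    {s : ℝ} (hs : 0 < s) {α : ℂ} {ε : ℝ}
    (h : ‖(A (g C t + s * (1 : ℂ), t ^ N)).1 - (A (pt g N C t)).1 - α * (s * (1 : ℂ))‖ ≤ ε * s) :
    ‖Th A g N C t s - α‖ ≤ ε := by
  have hs' : (s : ℂ) ≠ 0 := by exact_mod_cast hs.ne'
  rw [mul_one] at h
  have h1 : Th A g N C t s - α =
      ((A (g C t + s, t ^ N)).1 - (A (pt g N C t)).1 - α * s) / s := by
    unfold Th
    field_simp
  rw [h1, norm_div, Complex.norm_real, Real.norm_eq_abs, abs_of_pos hs, div_le_iff₀ hs]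
  exact h

theorem F11_contA {A : ℂ × ℂ → ℂ × ℂ} {L ρ : ℝ}
    (hA : ∀ p ∈ ball (0 : ℂ × ℂ) ρ, ∀ q ∈ ball (0 : ℂ × ℂ) ρ, ‖A p - A q‖ ≤ L * ‖p - q‖) :
    ContinuousOn A (ball 0 ρ) := by
  have h1 : ∀ p ∈ ball (0 : ℂ × ℂ) ρ, ∀ q ∈ ball (0 : ℂ × ℂ) ρ,
      dist (A p) (A q) ≤ (Real.toNNReal L) * dist p q := by
    intro p hp q hq
    rw [dist_eq_norm, dist_eq_norm]
    refine (hA p hp q hq).trans ?_
    exact mul_le_mul_of_nonneg_right (Real.le_coe_toNNReal L) (norm_nonneg _)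
  exact (LipschitzOnWith.of_dist_le_mul h1).continuousOn

theorem theta_close {F G : ℂ × ℂ → ℂ} {k n N : ℕ} {u u' : ℂ} {c : ℕ} {m : Fin c → ℕ}
    {b : Fin c → ℝ} {g v : Fin c → ℂ → ℂ} {a : Fin c → ℂ} {D : Fin c → ℕ}
    {γ' : Fin n → ℂ → ℂ} {A B : ℂ × ℂ → ℂ × ℂ} {L ρ : ℝ}
    (h : Mat F G k n n N u u' c m b g v a D γ' A B L ρ) (α : ℂ) (hα : α ≠ 0)
    (hroot : ∀ ε > (0 : ℝ), ∃ δ1 > (0 : ℝ), ∀ δ2 > (0 : ℝ), ∃ δ3 > (0 : ℝ), ∀ x y : ℂ,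
        0 < ‖y‖ → ‖y‖ < δ3 → δ2 * ‖y‖ ≤ ‖x‖ → ‖x‖ ≤ δ1 * ‖y‖ →
        ‖(A (x, y)).1 - α * x‖ ≤ ε * ‖x‖)
    (cl' : Fin n → Fin c)
    (hprod : ∀ ε > (0 : ℝ), ∃ K > (0 : ℝ), ∃ δ > (0 : ℝ), ∀ t : ℂ, 0 < ‖t‖ → ‖t‖ < δ → ∀ C (s : ℝ),
      K * ‖t‖ ^ (b C) ≤ s → s ≤ δ * ‖t‖ ^ N →
      ‖Th A g N C t s * ∏ l : Fin n, Th A g N C t (max s ‖g C t - g (cl' l) t‖) -
        α ^ (n + 1)‖ ≤ ε) :
    ∀ ε > (0 : ℝ), ∃ K > (0 : ℝ), ∃ δ > (0 : ℝ), ∀ t : ℂ, 0 < ‖t‖ → ‖t‖ < δ → ∀ C (s : ℝ),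
      K * ‖t‖ ^ (b C) ≤ s → s ≤ δ * ‖t‖ ^ N → ‖Th A g N C t s - α‖ ≤ ε := by
  classical
  obtain ⟨a0, ha0, haff⟩ := aff h
  have hL := h.hco.hL
  have hα0 : 0 < ‖α‖ := norm_pos_iff.2 hα
  have hN := h.hC.hN
  obtain ⟨Ka, hKa, δa, hδa, haff⟩ := haff 1 le_rfl (a0 / 2) (by positivity)
  obtain ⟨Kc, hKc, ε0, hε0, hchain⟩ := chain n (min (a0 / 2) ‖α‖) (L + a0 / 2 + ‖α‖)
    (lt_min (by positivity) hα0) ((min_le_right _ _).trans (by linarith))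
  intro ε hε
  obtain ⟨ε', hε', hε'0, hε'ε⟩ : ∃ ε' > (0 : ℝ), ε' < ε0 ∧ Kc * ε' ≤ ε := by
    refine ⟨min (ε0 / 2) (ε / Kc), by positivity, ?_, ?_⟩
    · exact (min_le_left _ _).trans_lt (by linarith)
    · calc Kc * min (ε0 / 2) (ε / Kc) ≤ Kc * (ε / Kc) :=
            mul_le_mul_of_nonneg_left (min_le_right _ _) hKc.le
        _ = ε := by field_simp
  obtain ⟨K1, hK1, δ1, hδ1, hprod⟩ := hprod ε' hε'
  obtain ⟨d1, hd1, hroot⟩ := hroot (ε' / 4) (by positivity)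
  obtain ⟨σ, hσ, hσ1, hσa, hσd⟩ : ∃ σ > (0 : ℝ), σ ≤ δ1 ∧ σ ≤ δa ∧ 2 * σ ≤ d1 := by
    refine ⟨min (min δ1 δa) (d1 / 2), by positivity, ?_, ?_, ?_⟩
    · exact (min_le_left _ _).trans (min_le_left _ _)
    · exact (min_le_left _ _).trans (min_le_right _ _)
    · have := min_le_right (min δ1 δa) (d1 / 2)
      linarith
  obtain ⟨d3, hd3, hroot⟩ := hroot (σ / 2) (by positivity)
  obtain ⟨dc, hdc, hcone⟩ := h.cone (ε' / 4 * σ / L) (by positivity)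
  obtain ⟨κ, hκ, hκ1, hκ2, hκ4, hκ3⟩ : ∃ κ > (0 : ℝ), κ ≤ σ / 2 ∧ κ ≤ dc ∧ κ ≤ 1 ∧
      ‖α‖ * κ ≤ ε' / 4 * σ := by
    refine ⟨min (min (σ / 2) dc) (min 1 (ε' / 4 * σ / ‖α‖)), by positivity, ?_, ?_, ?_, ?_⟩
    · exact (min_le_left _ _).trans (min_le_left _ _)
    · exact (min_le_left _ _).trans (min_le_right _ _)
    · exact (min_le_right _ _).trans (min_le_left _ _)
    · calc ‖α‖ * min (min (σ / 2) dc) (min 1 (ε' / 4 * σ / ‖α‖)) ≤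
          ‖α‖ * (ε' / 4 * σ / ‖α‖) :=
            mul_le_mul_of_nonneg_left ((min_le_right _ _).trans (min_le_right _ _)) hα0.le
        _ = ε' / 4 * σ := by field_simp
  obtain ⟨dg, hdg, hg⟩ := F11_g h.hC.gsm hκ
  obtain ⟨δ, hδ, hδs⟩ : ∃ δ > (0 : ℝ), δ ≤ δ1 ∧ δ ≤ δa ∧ δ ≤ σ ∧ δ ≤ d3 ∧ δ ≤ dc ∧ δ ≤ dg ∧
      δ ≤ 1 ∧ δ ≤ ρ / (2 * σ + 1) := by
    have hρ := h.hco.hρ
    refine ⟨min (min (min δ1 δa) (min σ d3)) (min (min dc dg) (min 1 (ρ / (2 * σ + 1)))),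
      by positivity, ?_, ?_, ?_, ?_, ?_, ?_, ?_, ?_⟩ <;> simp
  obtain ⟨hδ1', hδa', hδσ, hδ3, hδc, hδg, hδone, hδρ⟩ := hδs
  refine ⟨max K1 Ka, by positivity, δ, hδ, ?_⟩
  intro t ht0 ht C s hs0 hs1
  have htN0 : 0 < ‖t‖ ^ N := by positivity
  have htN : ‖t‖ ^ N ≤ ‖t‖ := pow_le_of_le_one ht0.le (ht.le.trans hδone) (by omega)
  have hg' := hg t ht0 (ht.trans_le hδg)
  have hρN : (2 * σ + 1) * ‖t‖ ^ N < ρ := by
    have h1 : ‖t‖ ^ N < ρ / (2 * σ + 1) := htN.trans_lt (ht.trans_le hδρ)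
    rw [lt_div_iff₀ (by positivity)] at h1
    linarith
  have hb0 : 0 < ‖t‖ ^ (b C) := Real.rpow_pos_of_pos ht0 _
  have hs0' : 0 < max K1 Ka * ‖t‖ ^ (b C) := by positivity
  -- points of the slice are in the ball
  have hball : ∀ s : ℝ, 0 ≤ s → s ≤ σ * ‖t‖ ^ N → ((g C t + s, t ^ N) : ℂ × ℂ) ∈ ball 0 ρ := by
    intro s hs0 hs
    rw [mem_ball_zero_iff, Prod.norm_def]
    refine max_lt ?_ ?_
    · refine (norm_add_le _ _).trans_lt ?_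
      rw [Complex.norm_real, Real.norm_eq_abs, abs_of_nonneg hs0]
      have h1 := hg' C
      nlinarith
    · show ‖t ^ N‖ < ρ
      rw [norm_pow]
      nlinarith
  have hs01 : max K1 Ka * ‖t‖ ^ (b C) ≤ σ * ‖t‖ ^ N :=
    hs0.trans (hs1.trans (mul_le_mul_of_nonneg_right hδσ htN0.le))
  have hσN : 0 < σ * ‖t‖ ^ N := by positivity
  -- bounds
  have hbd : ∀ s ∈ Set.Icc (max K1 Ka * ‖t‖ ^ (b C)) (σ * ‖t‖ ^ N),
      min (a0 / 2) ‖α‖ ≤ ‖Th A g N C t s‖ ∧ ‖Th A g N C t s‖ ≤ L + a0 / 2 + ‖α‖ := by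
    intro s hs
    have hspos : 0 < s := hs0'.trans_le hs.1
    obtain ⟨αs, hαs0, hαsL, hX, _⟩ := haff t ht0 (ht.trans_le hδa') C s
      ((mul_le_mul_of_nonneg_right (le_max_right _ _) hb0.le).trans hs.1)
      (hs.2.trans (mul_le_mul_of_nonneg_right hσa htN0.le))
    have h1 := F11_th hspos (hX 1 (by simp))
    have h2 : ‖αs‖ ≤ ‖Th A g N C t s‖ + ‖Th A g N C t s - αs‖ := by
      have := norm_sub_le (Th A g N C t s) (Th A g N C t s - αs)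
      simpa using this
    have h3 : ‖Th A g N C t s‖ ≤ ‖αs‖ + ‖Th A g N C t s - αs‖ := by
      have := norm_add_le αs (Th A g N C t s - αs)
      simpa using this
    constructor
    · exact (min_le_left _ _).trans (by linarith)
    · linarith
  have hcont : ContinuousOn (Th A g N C t)
      (Set.Icc (max K1 Ka * ‖t‖ ^ (b C)) (σ * ‖t‖ ^ N)) := by
    have h1 : ContinuousOn (fun s : ℝ => A ((g C t + s, t ^ N) : ℂ × ℂ))
        (Set.Icc (max K1 Ka * ‖t‖ ^ (b C)) (σ * ‖t‖ ^ N)) := by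
      refine (F11_contA h.hco.lipA).comp ?_ ?_
      · exact Continuous.continuousOn (by fun_prop)
      · intro s hs
        exact hball s (hs0'.le.trans hs.1) hs.2
    have h2 : ContinuousOn (fun s : ℝ => (s : ℂ))
        (Set.Icc (max K1 Ka * ‖t‖ ^ (b C)) (σ * ‖t‖ ^ N)) :=
      Complex.continuous_ofReal.continuousOn
    unfold Th
    refine ContinuousOn.div (h1.fst.sub continuousOn_const) h2 ?_
    intro s hs
    have : 0 < s := hs0'.trans_le hs.1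
    exact_mod_cast this.ne'
  have hend : ‖Th A g N C t (σ * ‖t‖ ^ N) - α‖ ≤ ε' := by
    have hx1 : ‖g C t + ((σ * ‖t‖ ^ N : ℝ) : ℂ)‖ ≤ 2 * σ * ‖t‖ ^ N := by
      refine (norm_add_le _ _).trans ?_
      rw [Complex.norm_real, Real.norm_eq_abs, abs_of_pos hσN]
      have h1 := hg' C
      nlinarith
    have hx2 : σ / 2 * ‖t‖ ^ N ≤ ‖g C t + ((σ * ‖t‖ ^ N : ℝ) : ℂ)‖ := by
      have h1 := hg' C
      have h2 : ‖((σ * ‖t‖ ^ N : ℝ) : ℂ)‖ ≤ ‖g C t + ((σ * ‖t‖ ^ N : ℝ) : ℂ)‖ + ‖g C t‖ := by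
        have := norm_sub_le (g C t + ((σ * ‖t‖ ^ N : ℝ) : ℂ)) (g C t)
        simpa using this
      rw [Complex.norm_real, Real.norm_eq_abs, abs_of_pos hσN] at h2
      nlinarith
    have hy : ‖t ^ N‖ = ‖t‖ ^ N := norm_pow _ _
    have h1 := hroot (g C t + ((σ * ‖t‖ ^ N : ℝ) : ℂ)) (t ^ N) (by rw [hy]; exact htN0)
      (by rw [hy]; exact htN.trans_lt (ht.trans_le hδ3)) (by rw [hy]; exact hx2)
      (by rw [hy]; exact hx1.trans (mul_le_mul_of_nonneg_right hσd htN0.le))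
    have h2 := hcone (g C t) (t ^ N) (by rw [hy]; exact htN.trans_lt (ht.trans_le hδc))
      (by rw [hy]; exact (hg' C).trans (mul_le_mul_of_nonneg_right hκ2 htN0.le))
    have h3 : ‖(A (g C t, t ^ N)).2‖ ≤ L * ‖t‖ ^ N := by
      have hb := hball 0 le_rfl (by positivity)
      simp only [Complex.ofReal_zero, add_zero] at hb
      have h4 := h.hco.lipA _ hb 0 (mem_ball_self h.hco.hρ)
      rw [h.hco.A0, sub_zero, sub_zero] at h4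
      refine (norm_snd_le _).trans (h4.trans ?_)
      have h5 : ‖((g C t, t ^ N) : ℂ × ℂ)‖ ≤ ‖t‖ ^ N := by
        rw [Prod.norm_def]
        refine max_le ?_ (le_of_eq hy)
        show ‖g C t‖ ≤ _
        have h7 := hg' C
        nlinarith
      exact mul_le_mul_of_nonneg_left h5 (by linarith)
    have hne : ((σ * ‖t‖ ^ N : ℝ) : ℂ) ≠ 0 := by exact_mod_cast hσN.ne'
    have h6 : Th A g N C t (σ * ‖t‖ ^ N) - α =
        (((A (g C t + ((σ * ‖t‖ ^ N : ℝ) : ℂ), t ^ N)).1 -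
          α * (g C t + ((σ * ‖t‖ ^ N : ℝ) : ℂ))) - (A (g C t, t ^ N)).1 + α * g C t) /
          ((σ * ‖t‖ ^ N : ℝ) : ℂ) := by
      unfold Th pt
      rw [eq_div_iff hne, sub_mul, div_mul_cancel₀ _ hne]
      ring
    rw [h6, norm_div, Complex.norm_real, Real.norm_eq_abs, abs_of_pos hσN, div_le_iff₀ hσN]
    have h7 : ‖(A (g C t, t ^ N)).1‖ ≤ ε' / 4 * (σ * ‖t‖ ^ N) := by
      refine h2.trans ((mul_le_mul_of_nonneg_left h3 (by positivity)).trans (le_of_eq ?_))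
      have hL0 : L ≠ 0 := by linarith
      field_simp
    have h8 : ‖α * g C t‖ ≤ ε' / 4 * (σ * ‖t‖ ^ N) := by
      rw [norm_mul]
      calc ‖α‖ * ‖g C t‖ ≤ ‖α‖ * (κ * ‖t‖ ^ N) := mul_le_mul_of_nonneg_left (hg' C) hα0.le
        _ = ‖α‖ * κ * ‖t‖ ^ N := by ring
        _ ≤ ε' / 4 * σ * ‖t‖ ^ N := mul_le_mul_of_nonneg_right hκ3 htN0.le
        _ = _ := by ring
    have h9 : ‖(A (g C t + ((σ * ‖t‖ ^ N : ℝ) : ℂ), t ^ N)).1 -
          α * (g C t + ((σ * ‖t‖ ^ N : ℝ) : ℂ))‖ ≤ ε' / 4 * (2 * σ * ‖t‖ ^ N) :=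
      h1.trans (mul_le_mul_of_nonneg_left hx1 (by positivity))
    refine (norm_add_le _ _).trans ((add_le_add (norm_sub_le _ _) le_rfl).trans ?_)
    linarith
  have hD : ∀ l, ‖g C t - g (cl' l) t‖ ≤ σ * ‖t‖ ^ N := by
    intro l
    refine (norm_sub_le _ _).trans ?_
    have h1 := hg' C
    have h2 := hg' (cl' l)
    have h3 := mul_le_mul_of_nonneg_right hκ1 htN0.le
    linarith
  have key := hchain ε' hε' hε'0 (max K1 Ka * ‖t‖ ^ (b C)) (σ * ‖t‖ ^ N) (Th A g N C t)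
    (fun l => ‖g C t - g (cl' l) t‖) α hs01 hcont hD hbd (min_le_right _ _) (by linarith) hend
    (by
      intro s hs
      exact hprod t ht0 (ht.trans_le hδ1') C s
        ((mul_le_mul_of_nonneg_right (le_max_left _ _) hb0.le).trans hs.1)
        (hs.2.trans (mul_le_mul_of_nonneg_right hσ1 htN0.le))) s
    ⟨hs0, hs1.trans (mul_le_mul_of_nonneg_right hδσ htN0.le)⟩
  exact key.trans hε'ε

theorem x_pair {F G : ℂ × ℂ → ℂ} {k n N : ℕ} {u u' : ℂ} {c : ℕ} {m : Fin c → ℕ}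
    {b : Fin c → ℝ} {g v : Fin c → ℂ → ℂ} {a : Fin c → ℂ} {D : Fin c → ℕ}
    {γ' : Fin n → ℂ → ℂ} {A B : ℂ × ℂ → ℂ × ℂ} {L ρ : ℝ}
    (h : Mat F G k n n N u u' c m b g v a D γ' A B L ρ) (α : ℂ)
    (hth : ∀ ε > (0 : ℝ), ∃ K > (0 : ℝ), ∃ δ > (0 : ℝ), ∀ t : ℂ, 0 < ‖t‖ → ‖t‖ < δ → ∀ C (s : ℝ),
      K * ‖t‖ ^ (b C) ≤ s → s ≤ δ * ‖t‖ ^ N → ‖Th A g N C t s - α‖ ≤ ε) (C C' : Fin c) :
    (fun t => (A (pt g N C t)).1 - (A (pt g N C' t)).1 - α * (g C t - g C' t))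
      =o[𝓝[≠] 0] (fun t => g C t - g C' t) := by
  classical
  by_cases hCC : C = C'
  · subst hCC
    simp
  obtain ⟨a0, ha0, haff⟩ := aff h
  rw [isLittleO_iff]
  intro ε hε
  obtain ⟨K1, hK1, δ1, hδ1, hth⟩ := hth (ε / 3) (by positivity)
  obtain ⟨K2, hK2, δ2, hδ2, haff⟩ := haff 1 le_rfl (ε / 3) (by positivity)
  obtain ⟨dg, hdg, hg⟩ := F11_g h.hC.gsm (κ := min δ1 δ2 / 2) (by positivity)
  obtain ⟨ds, hds, hsep⟩ := F11_ev ((h.hC.sep C C' hCC).def (c := 1 / max K1 K2) (by positivity))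
  rw [eventually_nhdsWithin_iff, Metric.eventually_nhds_iff]
  refine ⟨min (min δ1 δ2) (min dg ds), by positivity, fun t ht htne => ?_⟩
  rw [dist_zero_right] at ht
  have ht0 : 0 < ‖t‖ := norm_pos_iff.2 htne
  have ht1 : ‖t‖ < δ1 := ht.trans_le ((min_le_left _ _).trans (min_le_left _ _))
  have ht2 : ‖t‖ < δ2 := ht.trans_le ((min_le_left _ _).trans (min_le_right _ _))
  have htg : ‖t‖ < dg := ht.trans_le ((min_le_right _ _).trans (min_le_left _ _))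
  have hts : ‖t‖ < ds := ht.trans_le ((min_le_right _ _).trans (min_le_right _ _))
  have htN0 : 0 < ‖t‖ ^ N := by positivity
  have hb0 : 0 < ‖t‖ ^ (b C) := Real.rpow_pos_of_pos ht0 _
  have hKm : 0 < max K1 K2 := by positivity
  have h1 : max K1 K2 * ‖t‖ ^ (b C) ≤ ‖g C t - g C' t‖ := by
    have := hsep t ht0 hts
    rw [Real.norm_eq_abs, abs_of_pos hb0] at this
    rw [← le_div_iff₀' hKm]
    rw [one_div, inv_mul_eq_div] at this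
    exact this
  have hspos : 0 < ‖g C t - g C' t‖ := lt_of_lt_of_le (by positivity) h1
  have h2 : ‖g C t - g C' t‖ ≤ min δ1 δ2 * ‖t‖ ^ N := by
    refine (norm_sub_le _ _).trans ?_
    have h3 := hg t ht0 htg C
    have h4 := hg t ht0 htg C'
    linarith
  have h3 := hth t ht0 ht1 C _ ((mul_le_mul_of_nonneg_right (le_max_left _ _) hb0.le).trans h1)
    (h2.trans (mul_le_mul_of_nonneg_right (min_le_left _ _) htN0.le))
  obtain ⟨αs, _, _, hX, _⟩ := haff t ht0 ht2 C _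
    ((mul_le_mul_of_nonneg_right (le_max_right _ _) hb0.le).trans h1)
    (h2.trans (mul_le_mul_of_nonneg_right (min_le_right _ _) htN0.le))
  have h4 := F11_th hspos (hX 1 (by simp))
  have hsne : ((‖g C t - g C' t‖ : ℝ) : ℂ) ≠ 0 := by exact_mod_cast hspos.ne'
  have h5 := hX ((g C' t - g C t) / (‖g C t - g C' t‖ : ℝ)) (by
    rw [norm_div, Complex.norm_real, norm_norm, norm_sub_rev, div_self hspos.ne'])
  rw [mul_div_cancel₀ _ hsne, add_sub_cancel] at h5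
  have h6 : ‖αs - α‖ ≤ ε / 3 + ε / 3 := by
    have h7 : αs - α = (Th A g N C t ‖g C t - g C' t‖ - α) -
        (Th A g N C t ‖g C t - g C' t‖ - αs) := by ring
    rw [h7]
    exact (norm_sub_le _ _).trans (add_le_add h3 h4)
  have h8 : (A (pt g N C t)).1 - (A (pt g N C' t)).1 - α * (g C t - g C' t) =
      -((A (g C' t, t ^ N)).1 - (A (pt g N C t)).1 - αs * (g C' t - g C t)) +
      (αs - α) * (g C t - g C' t) := by
    show (A (pt g N C t)).1 - (A (g C' t, t ^ N)).1 - α * (g C t - g C' t) = _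
    ring
  rw [h8]
  refine (norm_add_le _ _).trans ?_
  rw [norm_neg, norm_mul]
  have h9 := mul_le_mul_of_nonneg_right h6 hspos.le
  linarith

end H24.LS
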