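import Pool.Agent.H24.LS.P0
import Pool.Agent.H24.LS.P1
import Pool.Agent.H24.LS.P2
import Pool.Agent.H24.LS.V0
import Pool.Agent.H24.LS.D3
import Pool.Agent.H24.LS.D4
import Pool.Agent.H24.LS.F0
import Pool.Agent.H24.LS.F1
import Pool.Agent.H24.LS.F2
import Pool.Agent.H24.LS.F6
import Pool.Agent.H24.LS.F7

/-!
# F8: the analytic reparametrisations `T_C`

Let `Γ' = ctr cl' γ' C` (average of the arcs of `G` in the fibre of `C`), `V'(t') = G (Γ' t', t'^N)`,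
`V(t) = F (g C t, t^N)`, `T0 = T0 A g N τ C`, `(x0, y0) = A (pt g N C t)`.
(1) `Γ'(T0 t) - x0 = O(s_C)` (average of the `O(s_C)`).  `‖V'(T0 t) - G(x0,y0)‖ ≤ K s_C sup ‖dx G‖ ≤ K s_C ‖v C t‖` (`win_G` at
   scale `s_C`, radius `K`; `cE C s_C ≤ K cE C 0 ≤ K ‖v C t‖`), `‖G(x0,y0) - V(t)‖ ≤ L ‖∇F‖^2 ≤ K s_C ‖v C t‖` (as in F6).
   Since `‖v C t‖ ‖t‖^N ≍ ‖V t‖` and `s_C = o(‖t‖^N)`: `V'(T0 t)/V(t) → 1`.
(2) `V'` is analytic at `0` and not identically `0`, so `V' = a' t'^{D'}(1 + ..)`; as `T0 t ~ τ t`, `V ~ a C t^{D C}`: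
   `D' = D C =: D`, `a' τ^D = a C`.
(3) Analytic `D`-th roots: `V(t) = a φ(t)^D`, `V'(t') = a' φ'(t')^D`, `φ(t) = t (V(t)/(a t^D))^{1/D}` analytic,
   `φ(0) = 0`, derivative `1` at `0`; same `φ'`.  `T := φ'^{-1} ∘ (τ φ)` (analytic local inverse:
   `HasStrictDerivAt.to_localInverse`, or `ContDiffAt.to_localInverse` with `n = ω`).  Then
   `V'(T t) = a' τ^D φ(t)^D = V(t)`, `T 0 = 0`, `T'(0) = τ`.
(4) `‖V'(T t) - V'(T0 t)‖ = ‖V(t) - V'(T0 t)‖ ≤ K s_C ‖v C t‖`.  `T, T0` are both `τ t (1 + o(1))`, and `V'` is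
   injective with derivative `≥ c ‖t‖^{D-1}` on the disc `‖t' - τ t‖ ≤ c1‖t‖` in the form
   `‖V'(t1) - V'(t2)‖ ≥ c ‖t‖^{D-1} ‖t1 - t2‖` (`V'' = a' D t'^{D-1}(1+o(1))`, compare with the linear map), so
   `‖T - T0‖ ≤ K s_C ‖v C t‖/‖t‖^{D-1} ≤ K s_C/‖t‖^{N-1}` (`‖v C t‖ ≍ ‖t‖^{D-N}`).  Hence `T^N - y0 = O(s_C)`,
   and by `slow_small` `γ'_l(T) - γ'_l(T0) = o(s_C)`: `γ'_l (T t) - x0 = O(s_C)` for `l` in the fibre, `Γ'(T t) - x0 = O(s_C)`.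
(5) Slopes.  Differentiate `V'(T t) = V(t)`: `V''(T) T' = V'`, i.e. `vC G N Γ' (T t) N T^{N-1} T' = v C t N t^{N-1}`
   (`hv` of `Clu`), so `vC G N Γ' (T t)/v C t → τ^{-N} = ω⁻¹`.  And `dy G (γ'_l t', t'^N)/vC G N Γ' t' → 1` along `t' = T t`:
   as in D4: `vC G N Γ' = dy G(Γ',.) + dx G(Γ',.) Γ''/(N t'^{N-1})`; `‖dy G(Γ' t', t'^N) - dy G(γ'_l t', t'^N)‖ ≤
   ε Ehat (γ'_l t') ‖Γ' - γ'_l‖ t' ≤ ε K cE C s_C t ≤ ε K ‖v C t‖` (`pf3`; `Ehat .. (γ'_l t') (K s_C) t' ≤ K Ehat .. x0 s_C t0' ≤ K cE C s_C t`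
   by `ehatG_le` and slow variation), and `‖dx G(Γ',.)‖ ≤ K ‖v C t‖`, `Γ''/t'^{N-1} → 0`.
-/

open Filter Topology Metric Asymptotics

namespace H24.LS

/-! ### One variable -/

private theorem F8_near {δ : ℝ} (hδ : 0 < δ) : ∀ᶠ t in 𝓝[≠] (0 : ℂ), 0 < ‖t‖ ∧ ‖t‖ < δ := by
  have h1 : ∀ᶠ t in 𝓝[≠] (0 : ℂ), t ∈ ball (0 : ℂ) δ :=
    mem_nhdsWithin_of_mem_nhds (ball_mem_nhds _ hδ)
  filter_upwards [h1, self_mem_nhdsWithin] with t ht ht0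
  exact ⟨norm_pos_iff.2 ht0, mem_ball_zero_iff.1 ht⟩

private theorem F8_ev {P : ℂ → Prop} (h : ∃ δ > (0 : ℝ), ∀ t : ℂ, 0 < ‖t‖ → ‖t‖ < δ → P t) :
    ∀ᶠ t in 𝓝[≠] (0 : ℂ), P t := by
  obtain ⟨δ, hδ, h⟩ := h
  filter_upwards [F8_near hδ] with t ht
  exact h t ht.1 ht.2

private theorem F8_tends {T : ℂ → ℂ} {τ : ℂ} (hτ : τ ≠ 0)
    (h : Tendsto (fun t => T t / t) (𝓝[≠] 0) (𝓝 τ)) : Tendsto T (𝓝[≠] 0) (𝓝[≠] 0) := by
  have h0 : Tendsto T (𝓝[≠] 0) (𝓝 0) := by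
    have h1 : Tendsto (fun t : ℂ => T t / t * t) (𝓝[≠] 0) (𝓝 (τ * 0)) :=
      h.mul (tendsto_id.mono_left nhdsWithin_le_nhds)
    rw [mul_zero] at h1
    refine h1.congr' ?_
    filter_upwards [self_mem_nhdsWithin] with t ht
    exact div_mul_cancel₀ _ ht
  rw [tendsto_nhdsWithin_iff]
  refine ⟨h0, ?_⟩
  filter_upwards [h.eventually_ne hτ] with t ht h1
  apply ht
  rw [Set.mem_singleton_iff.1 h1, zero_div]

private theorem F8_pow {m D : ℕ} {L : ℂ} (hL : L ≠ 0)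
    (h : Tendsto (fun t : ℂ => t ^ m / t ^ D) (𝓝[≠] 0) (𝓝 L)) : m = D := by
  have h0 : ∀ j : ℕ, 1 ≤ j → Tendsto (fun t : ℂ => t ^ j) (𝓝[≠] 0) (𝓝 0) := by
    intro j hj
    have h1 : Tendsto (fun t : ℂ => t ^ j) (𝓝 0) (𝓝 ((0:ℂ) ^ j)) := (continuous_pow j).tendsto 0
    rw [zero_pow (by omega)] at h1
    exact h1.mono_left nhdsWithin_le_nhds
  rcases lt_trichotomy m D with h1 | h1 | h1
  · exfalso
    have h2 : Tendsto (fun t : ℂ => (t ^ m / t ^ D)⁻¹) (𝓝[≠] 0) (𝓝 L⁻¹) := h.inv₀ hL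
    have h3 : Tendsto (fun t : ℂ => (t ^ m / t ^ D)⁻¹) (𝓝[≠] 0) (𝓝 0) := by
      refine (h0 (D - m) (by omega)).congr' ?_
      filter_upwards [self_mem_nhdsWithin] with t ht
      have ht0 : t ≠ 0 := ht
      rw [inv_div, eq_div_iff (pow_ne_zero _ ht0), ← pow_add]
      congr 1
      omega
    exact inv_ne_zero hL (tendsto_nhds_unique h2 h3)
  · exact h1
  · exfalso
    have h3 : Tendsto (fun t : ℂ => t ^ m / t ^ D) (𝓝[≠] 0) (𝓝 0) := by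
      refine (h0 (m - D) (by omega)).congr' ?_
      filter_upwards [self_mem_nhdsWithin] with t ht
      have ht0 : t ≠ 0 := ht
      rw [eq_div_iff (pow_ne_zero _ ht0), ← pow_add]
      congr 1
      omega
    exact hL (tendsto_nhds_unique h h3)

private theorem F8_fac {V : ℂ → ℂ} {D : ℕ} {a : ℂ} (hV : AnalyticAt ℂ V 0) (ha : a ≠ 0)
    (h : Tendsto (fun t => V t / t ^ D) (𝓝[≠] 0) (𝓝 a)) :
    ∃ V1 : ℂ → ℂ, AnalyticAt ℂ V1 0 ∧ V1 0 = a ∧ ∀ᶠ t in 𝓝 (0:ℂ), V t = t ^ D * V1 t := by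
  have hne : ¬ ∀ᶠ z in 𝓝 (0:ℂ), V z = 0 := by
    intro h0
    have h1 : Tendsto (fun t => V t / t ^ D) (𝓝[≠] 0) (𝓝 0) := by
      refine tendsto_const_nhds.congr' ?_
      filter_upwards [nhdsWithin_le_nhds h0] with t ht
      rw [ht, zero_div]
    exact ha (tendsto_nhds_unique h h1)
  obtain ⟨m, g, hg, hg0, hgV⟩ := hV.exists_eventuallyEq_pow_smul_nonzero_iff.2 hne
  simp only [sub_zero, smul_eq_mul] at hgV
  have hgc : Tendsto g (𝓝[≠] 0) (𝓝 (g 0)) := hg.continuousAt.tendsto.mono_left nhdsWithin_le_nhds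
  have h1 : Tendsto (fun t : ℂ => t ^ m / t ^ D) (𝓝[≠] 0) (𝓝 (a / g 0)) := by
    refine (h.div hgc hg0).congr' ?_
    filter_upwards [nhdsWithin_le_nhds hgV, hgc.eventually_ne hg0] with t ht1 ht2
    simp only [Pi.div_apply]
    rw [ht1]
    field_simp
  have hmD : m = D := F8_pow (div_ne_zero ha hg0) h1
  subst hmD
  refine ⟨g, hg, ?_, hgV⟩
  have h2 : Tendsto (fun t => V t / t ^ m) (𝓝[≠] 0) (𝓝 (g 0)) := by
    refine hgc.congr' ?_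
    filter_upwards [nhdsWithin_le_nhds hgV, self_mem_nhdsWithin] with t ht1 ht2
    have ht0 : t ≠ 0 := ht2
    rw [ht1, mul_div_cancel_left₀ _ (pow_ne_zero _ ht0)]
  exact tendsto_nhds_unique h2 h

private theorem F8_order {V V' T0 : ℂ → ℂ} {D : ℕ} {a τ : ℂ} (hV' : AnalyticAt ℂ V' 0)
    (ha : a ≠ 0) (hτ : τ ≠ 0) (h : Tendsto (fun t => V t / t ^ D) (𝓝[≠] 0) (𝓝 a))
    (hT : Tendsto (fun t => T0 t / t) (𝓝[≠] 0) (𝓝 τ))
    (hr : Tendsto (fun t => V' (T0 t) / V t) (𝓝[≠] 0) (𝓝 1)) :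
    Tendsto (fun t => V' t / t ^ D) (𝓝[≠] 0) (𝓝 (a / τ ^ D)) := by
  have hT0 := F8_tends hτ hT
  have hT0' : Tendsto T0 (𝓝[≠] 0) (𝓝 0) := hT0.mono_right nhdsWithin_le_nhds
  have hne : ¬ ∀ᶠ z in 𝓝 (0:ℂ), V' z = 0 := by
    intro h0
    have h1 : Tendsto (fun t => V' (T0 t) / V t) (𝓝[≠] 0) (𝓝 0) := by
      refine tendsto_const_nhds.congr' ?_
      filter_upwards [hT0'.eventually h0] with t ht
      rw [ht, zero_div]
    exact one_ne_zero (tendsto_nhds_unique hr h1)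
  obtain ⟨m, g, hg, hg0, hgV⟩ := hV'.exists_eventuallyEq_pow_smul_nonzero_iff.2 hne
  simp only [sub_zero, smul_eq_mul] at hgV
  have hgc : Tendsto g (𝓝 0) (𝓝 (g 0)) := hg.continuousAt.tendsto
  have hgT : Tendsto (fun t => g (T0 t)) (𝓝[≠] 0) (𝓝 (g 0)) := hgc.comp hT0'
  have hτm : τ ^ m * g 0 ≠ 0 := mul_ne_zero (pow_ne_zero _ hτ) hg0
  have h1 : Tendsto (fun t : ℂ => t ^ m / t ^ D) (𝓝[≠] 0) (𝓝 (1 * a / (τ ^ m * g 0))) := by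
    refine ((hr.mul h).div ((hT.pow m).mul hgT) hτm).congr' ?_
    filter_upwards [hT0'.eventually hgV, hgT.eventually_ne hg0, hr.eventually_ne one_ne_zero,
      hT.eventually_ne hτ, self_mem_nhdsWithin] with t ht1 ht2 ht3 ht4 ht5
    have ht0 : t ≠ 0 := ht5
    have hT0ne : T0 t ≠ 0 := by
      intro h2
      rw [h2, zero_div] at ht4
      exact ht4 rfl
    have hVne : V t ≠ 0 := by
      intro h2
      rw [h2, div_zero] at ht3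
      exact ht3 rfl
    simp only [Pi.div_apply]
    rw [ht1] at ht3 ⊢
    field_simp
    rw [div_pow, div_mul_cancel₀ _ (pow_ne_zero _ ht0)]
  have hmD : m = D := F8_pow (div_ne_zero (by rw [one_mul]; exact ha) hτm) h1
  subst hmD
  have h2 : (1 * a / (τ ^ m * g 0)) = 1 := by
    apply tendsto_nhds_unique h1
    refine tendsto_const_nhds.congr' ?_
    filter_upwards [self_mem_nhdsWithin] with t ht
    have ht0 : t ≠ 0 := ht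
    rw [div_self (pow_ne_zero _ ht0)]
  have h3 : a / τ ^ m = g 0 := by
    rw [div_eq_iff hτm, one_mul, one_mul] at h2
    rw [h2, mul_div_cancel_left₀ _ (pow_ne_zero _ hτ)]
  rw [h3]
  refine (hgc.mono_left nhdsWithin_le_nhds).congr' ?_
  filter_upwards [nhdsWithin_le_nhds hgV, self_mem_nhdsWithin] with t ht1 ht2
  have ht0 : t ≠ 0 := ht2
  rw [ht1, mul_div_cancel_left₀ _ (pow_ne_zero _ ht0)]

private theorem F8_sep {V T1 T2 : ℂ → ℂ} {D : ℕ} {a τ : ℂ} (hV : AnalyticAt ℂ V 0) (hD : 1 ≤ D)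
    (ha : a ≠ 0) (hτ : τ ≠ 0) (h : Tendsto (fun t => V t / t ^ D) (𝓝[≠] 0) (𝓝 a))
    (h1 : Tendsto (fun t => T1 t / t) (𝓝[≠] 0) (𝓝 τ))
    (h2 : Tendsto (fun t => T2 t / t) (𝓝[≠] 0) (𝓝 τ)) :
    ∃ K > (0:ℝ), ∀ᶠ t in 𝓝[≠] (0:ℂ),
      ‖T1 t - T2 t‖ * ‖t‖ ^ (D - 1) ≤ K * ‖V (T1 t) - V (T2 t)‖ := by
  obtain ⟨V1, hV1, hV10, hfac⟩ := F8_fac hV ha h
  have hT1 : Tendsto T1 (𝓝[≠] 0) (𝓝 0) := (F8_tends hτ h1).mono_right nhdsWithin_le_nhds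
  have hT2 : Tendsto T2 (𝓝[≠] 0) (𝓝 0) := (F8_tends hτ h2).mono_right nhdsWithin_le_nhds
  -- the sum
  set S : ℂ → ℂ := fun t => ∑ i ∈ Finset.range D, T1 t ^ i * T2 t ^ (D - 1 - i) with hS
  have hSlim : Tendsto (fun t => S t / t ^ (D - 1)) (𝓝[≠] 0) (𝓝 (D * τ ^ (D - 1))) := by
    have h3 : Tendsto (fun t => ∑ i ∈ Finset.range D, (T1 t / t) ^ i * (T2 t / t) ^ (D - 1 - i))
        (𝓝[≠] 0) (𝓝 (∑ i ∈ Finset.range D, τ ^ i * τ ^ (D - 1 - i))) :=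
      tendsto_finsetSum _ fun i _ => (h1.pow i).mul (h2.pow (D - 1 - i))
    have h4 : ∑ i ∈ Finset.range D, τ ^ i * τ ^ (D - 1 - i) = D * τ ^ (D - 1) := by
      rw [Finset.sum_congr rfl (g := fun _ => τ ^ (D - 1)), Finset.sum_const, Finset.card_range,
        nsmul_eq_mul]
      intro i hi
      rw [Finset.mem_range] at hi
      rw [← pow_add]
      congr 1
      omega
    rw [h4] at h3
    refine h3.congr' ?_
    filter_upwards [self_mem_nhdsWithin] with t ht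
    have ht0 : t ≠ 0 := ht
    rw [hS]
    simp only
    rw [Finset.sum_div]
    apply Finset.sum_congr rfl
    intro i hi
    rw [Finset.mem_range] at hi
    rw [div_pow, div_pow, div_mul_div_comm, ← pow_add]
    congr 2
    omega
  have hV1T : Tendsto (fun t => V1 (T1 t)) (𝓝[≠] 0) (𝓝 a) := by
    have := hV1.continuousAt.tendsto.comp hT1
    rwa [hV10] at this
  set c0 : ℝ := ‖(D:ℂ) * τ ^ (D - 1) * a‖ / 2 with hc0
  have hDne : (D:ℂ) ≠ 0 := by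
    have : D ≠ 0 := by omega
    exact_mod_cast this
  have hne : (D:ℂ) * τ ^ (D - 1) * a ≠ 0 :=
    mul_ne_zero (mul_ne_zero hDne (pow_ne_zero _ hτ)) ha
  have hc0pos : 0 < c0 := by
    have := norm_pos_iff.2 hne
    positivity
  have e1 : ∀ᶠ t in 𝓝[≠] (0:ℂ), c0 < ‖S t / t ^ (D - 1) * V1 (T1 t)‖ := by
    have h3 : Tendsto (fun t => ‖S t / t ^ (D - 1) * V1 (T1 t)‖) (𝓝[≠] 0)
        (𝓝 ‖(D:ℂ) * τ ^ (D - 1) * a‖) := (hSlim.mul hV1T).norm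
    apply h3.eventually_const_lt
    have := norm_pos_iff.2 hne
    rw [hc0]
    linarith
  -- Lipschitz bound for `V1`
  obtain ⟨K1, U, hU, hLip⟩ : ∃ K1 : NNReal, ∃ U ∈ 𝓝 (0:ℂ), LipschitzOnWith K1 V1 U :=
    (hV1.contDiffAt (n := 1)).exists_lipschitzOnWith
  have hT2b : ∀ᶠ t in 𝓝[≠] (0:ℂ), ‖T2 t / t‖ < ‖τ‖ + 1 :=
    h2.norm.eventually_lt_const (lt_add_one _)
  have hsm : ∀ᶠ t in 𝓝[≠] (0:ℂ), (‖τ‖ + 1) ^ D * K1 * ‖t‖ < c0 / 2 := by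
    have h3 : Tendsto (fun t : ℂ => (‖τ‖ + 1) ^ D * K1 * ‖t‖) (𝓝 0)
        (𝓝 ((‖τ‖ + 1) ^ D * K1 * ‖(0:ℂ)‖)) := by
      apply Continuous.tendsto
      fun_prop
    rw [norm_zero, mul_zero] at h3
    exact (h3.mono_left nhdsWithin_le_nhds).eventually_lt_const (by positivity)
  refine ⟨2 / c0, by positivity, ?_⟩
  filter_upwards [e1, hT1.eventually hfac, hT2.eventually hfac, hT1.eventually hU,
    hT2.eventually hU, hT2b, hsm, self_mem_nhdsWithin] with t g1 g2 g3 g4 g5 g6 g7 g8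
  have ht0 : t ≠ 0 := g8
  have htpos : 0 < ‖t‖ := norm_pos_iff.2 ht0
  have hL := hLip.dist_le_mul _ g4 _ g5
  rw [dist_eq_norm, dist_eq_norm] at hL
  set Δ := T1 t - T2 t with hΔ
  have hid : V (T1 t) - V (T2 t) = Δ * (S t * V1 (T1 t)) + T2 t ^ D * (V1 (T1 t) - V1 (T2 t)) := by
    have h3 : S t * (T1 t - T2 t) = T1 t ^ D - T2 t ^ D := (Commute.all (T1 t) (T2 t)).geom_sum₂_mul D
    rw [g2, g3, hΔ]
    linear_combination (- V1 (T1 t)) * h3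
  have hb1 : c0 * ‖t‖ ^ (D - 1) * ‖Δ‖ ≤ ‖Δ * (S t * V1 (T1 t))‖ := by
    have h3 : S t * V1 (T1 t) = (S t / t ^ (D - 1) * V1 (T1 t)) * t ^ (D - 1) := by
      field_simp
    rw [norm_mul, h3, norm_mul, norm_pow]
    have : c0 * ‖t‖ ^ (D - 1) ≤ ‖S t / t ^ (D - 1) * V1 (T1 t)‖ * ‖t‖ ^ (D - 1) := by gcongr
    calc c0 * ‖t‖ ^ (D - 1) * ‖Δ‖ = ‖Δ‖ * (c0 * ‖t‖ ^ (D - 1)) := by ring
      _ ≤ _ := by gcongr
  have hb2 : ‖T2 t ^ D * (V1 (T1 t) - V1 (T2 t))‖ ≤ c0 / 2 * ‖t‖ ^ (D - 1) * ‖Δ‖ := by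
    rw [norm_mul, norm_pow]
    have h3 : ‖T2 t‖ ≤ (‖τ‖ + 1) * ‖t‖ := by
      rw [norm_div, div_lt_iff₀ htpos] at g6
      exact g6.le
    have h4 : ‖T2 t‖ ^ D ≤ ((‖τ‖ + 1) * ‖t‖) ^ D := by gcongr
    have h5 : ‖t‖ ^ D = ‖t‖ * ‖t‖ ^ (D - 1) := by
      rw [← pow_succ']
      congr 1
      omega
    calc ‖T2 t‖ ^ D * ‖V1 (T1 t) - V1 (T2 t)‖ ≤ ((‖τ‖ + 1) * ‖t‖) ^ D * (K1 * ‖Δ‖) := by gcongr
      _ = ((‖τ‖ + 1) ^ D * K1 * ‖t‖) * ‖t‖ ^ (D - 1) * ‖Δ‖ := by rw [mul_pow, h5]; ring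
      _ ≤ c0 / 2 * ‖t‖ ^ (D - 1) * ‖Δ‖ := by gcongr
  have hb3 : ‖Δ * (S t * V1 (T1 t))‖ ≤ ‖V (T1 t) - V (T2 t)‖ +
      ‖T2 t ^ D * (V1 (T1 t) - V1 (T2 t))‖ := by
    have h3 := norm_sub_le (V (T1 t) - V (T2 t)) (T2 t ^ D * (V1 (T1 t) - V1 (T2 t)))
    rw [hid, add_sub_cancel_right] at h3
    rw [hid]
    exact h3
  have hb4 : c0 / 2 * (‖Δ‖ * ‖t‖ ^ (D - 1)) ≤ ‖V (T1 t) - V (T2 t)‖ := by
    have : c0 * ‖t‖ ^ (D - 1) * ‖Δ‖ - c0 / 2 * ‖t‖ ^ (D - 1) * ‖Δ‖ =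
      c0 / 2 * (‖Δ‖ * ‖t‖ ^ (D - 1)) := by ring
    linarith
  rw [div_mul_eq_mul_div, le_div_iff₀ hc0pos]
  linarith

private theorem F8_exists {V V' : ℂ → ℂ} {D : ℕ} {a a' τ : ℂ} (hV : AnalyticAt ℂ V 0)
    (hV' : AnalyticAt ℂ V' 0) (hD : 1 ≤ D) (ha : a ≠ 0) (ha' : a' ≠ 0) (haa : a' * τ ^ D = a)
    (h : Tendsto (fun t => V t / t ^ D) (𝓝[≠] 0) (𝓝 a))
    (h' : Tendsto (fun t => V' t / t ^ D) (𝓝[≠] 0) (𝓝 a')) :
    ∃ T : ℂ → ℂ, AnalyticAt ℂ T 0 ∧ T 0 = 0 ∧ deriv T 0 = τ ∧ ∀ᶠ t in 𝓝 (0:ℂ), V' (T t) = V t := by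
  obtain ⟨V1, hV1, hV10, hfac⟩ := F8_fac hV ha h
  obtain ⟨V2, hV2, hV20, hfac'⟩ := F8_fac hV' ha' h'
  have hD0 : D ≠ 0 := by omega
  set R : ℂ → ℂ := fun t => (V1 t / a) ^ ((D:ℂ)⁻¹) with hR
  set R' : ℂ → ℂ := fun t => (V2 t / a') ^ ((D:ℂ)⁻¹) with hR'
  have hRan : AnalyticAt ℂ R 0 := by
    apply AnalyticAt.cpow (hV1.fun_div analyticAt_const ha) analyticAt_const
    rw [hV10, div_self ha]
    exact Complex.one_mem_slitPlane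
  have hR'an : AnalyticAt ℂ R' 0 := by
    apply AnalyticAt.cpow (hV2.fun_div analyticAt_const ha') analyticAt_const
    rw [hV20, div_self ha']
    exact Complex.one_mem_slitPlane
  have hR0 : R 0 = 1 := by
    simp only [hR]
    rw [hV10, div_self ha, Complex.one_cpow]
  have hR'0 : R' 0 = 1 := by
    simp only [hR']
    rw [hV20, div_self ha', Complex.one_cpow]
  have hRD : ∀ t, a * R t ^ D = V1 t := by
    intro t
    simp only [hR]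
    rw [Complex.cpow_nat_inv_pow _ hD0]
    field_simp
  have hR'D : ∀ t, a' * R' t ^ D = V2 t := by
    intro t
    simp only [hR']
    rw [Complex.cpow_nat_inv_pow _ hD0]
    field_simp
  set φ : ℂ → ℂ := fun t => t * R t with hφ
  set χ : ℂ → ℂ := fun t => t * R' t with hχ
  have hφan : AnalyticAt ℂ φ 0 := analyticAt_id.mul hRan
  have hχan : AnalyticAt ℂ χ 0 := analyticAt_id.mul hR'an
  have hφ0 : φ 0 = 0 := by simp [hφ]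
  have hχ0 : χ 0 = 0 := by simp [hχ]
  have hφd : HasDerivAt φ 1 0 := by
    have h1 := (hasDerivAt_id (0:ℂ)).mul hRan.differentiableAt.hasDerivAt
    simp only [id, hR0, mul_one, zero_mul, add_zero] at h1
    exact h1
  have hχd : HasDerivAt χ 1 0 := by
    have h1 := (hasDerivAt_id (0:ℂ)).mul hR'an.differentiableAt.hasDerivAt
    simp only [id, hR'0, mul_one, zero_mul, add_zero] at h1
    exact h1
  have hχd' : deriv χ 0 ≠ 0 := by rw [hχd.deriv]; exact one_ne_zero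
  set ψ := hχan.hasStrictDerivAt.localInverse _ _ _ hχd' with hψ
  have hψan : AnalyticAt ℂ ψ 0 := by
    have := hχan.analyticAt_localInverse hχd'
    rwa [hχ0] at this
  have hψr : ∀ᶠ z in 𝓝 (0:ℂ), χ (ψ z) = z := by
    have := HasStrictDerivAt.eventually_right_inverse hχan.hasStrictDerivAt hχd'
    rwa [hχ0] at this
  have hψ0 : ψ 0 = 0 := by
    have := (HasStrictDerivAt.eventually_left_inverse hχan.hasStrictDerivAt hχd').self_of_nhds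
    rwa [hχ0] at this
  have hψd : HasDerivAt ψ 1 0 := by
    have := (HasStrictDerivAt.to_localInverse hχan.hasStrictDerivAt hχd').hasDerivAt
    rw [hχ0] at this
    exact this.congr_deriv (by rw [hχd.deriv, inv_one])
  have hTφ : HasDerivAt (fun t => τ * φ t) τ 0 := by
    have := hφd.const_mul τ
    rwa [mul_one] at this
  have hTφ0 : τ * φ 0 = 0 := by rw [hφ0, mul_zero]
  refine ⟨fun t => ψ (τ * φ t), ?_, ?_, ?_, ?_⟩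
  · have h1 : AnalyticAt ℂ (fun t => τ * φ t) 0 := analyticAt_const.mul hφan
    exact hψan.fun_comp_of_eq h1 hTφ0
  · simp only [hTφ0, hψ0]
  · have h1 : HasDerivAt ψ 1 (τ * φ 0) := by rw [hTφ0]; exact hψd
    have h2 := h1.comp (0:ℂ) hTφ
    rw [one_mul] at h2
    exact h2.deriv
  · have hc : Tendsto (fun t => τ * φ t) (𝓝 0) (𝓝 0) := by
      have := hTφ.continuousAt.tendsto
      rwa [hTφ0] at this
    have hc2 : Tendsto (fun t => ψ (τ * φ t)) (𝓝 0) (𝓝 0) := by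
      have h1 := hψan.continuousAt.tendsto
      rw [hψ0] at h1
      exact h1.comp hc
    filter_upwards [hc.eventually hψr, hc2.eventually hfac', hfac] with t h1 h2 h3
    rw [h2, h3]
    have h4 : (ψ (τ * φ t)) ^ D * V2 (ψ (τ * φ t)) = a' * (χ (ψ (τ * φ t))) ^ D := by
      rw [← hR'D]
      simp only [hχ, mul_pow]
      ring
    rw [h4, h1, ← hRD]
    simp only [hφ, mul_pow]
    rw [← haa]
    ring

/-- the quotient by `t` of an analytic function with `T 0 = 0` -/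
private theorem F8_quot {T : ℂ → ℂ} {τ : ℂ} (h : AnalyticAt ℂ T 0) (h0 : T 0 = 0)
    (d : deriv T 0 = τ) : Tendsto (fun t => T t / t) (𝓝[≠] 0) (𝓝 τ) := by
  have h1 : HasDerivAt T τ 0 := by
    rw [← d]
    exact h.differentiableAt.hasDerivAt
  have h2 := hasDerivAt_iff_tendsto_slope.1 h1
  refine h2.congr' ?_
  filter_upwards [self_mem_nhdsWithin] with t _
  rw [slope_def_field, h0, sub_zero, sub_zero]

private theorem F8_rpow {N : ℕ} {β : ℝ} (hb : (N : ℝ) < β) {η : ℝ} (hη : 0 < η) :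
    ∀ᶠ t in 𝓝[≠] (0 : ℂ), ‖t‖ ^ β ≤ η * ‖t‖ ^ N := by
  have h0 : 0 < β - N := by linarith
  filter_upwards [F8_near (show 0 < η ^ (β - N)⁻¹ by positivity)] with t ht
  have h1 : ‖t‖ ^ (β - N) ≤ η := by
    calc ‖t‖ ^ (β - N) ≤ (η ^ (β - N)⁻¹) ^ (β - N) :=
          Real.rpow_le_rpow ht.1.le ht.2.le h0.le
      _ = η := Real.rpow_inv_rpow hη.le h0.ne'
  have h2 : ‖t‖ ^ β = ‖t‖ ^ (β - N) * ‖t‖ ^ N := by
    rw [← Real.rpow_natCast, ← Real.rpow_add ht.1]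
    congr 1
    ring
  rw [h2]
  exact mul_le_mul_of_nonneg_right h1 (by positivity)

private theorem F8_small {g : ℂ → ℂ} {N : ℕ} (hg : g =o[𝓝[≠] 0] (fun t : ℂ => t ^ N)) {δ : ℝ}
    (hδ : 0 < δ) : ∀ᶠ t in 𝓝[≠] (0 : ℂ), ‖g t‖ < δ * ‖t‖ ^ N := by
  have h1 := hg.bound (half_pos hδ)
  filter_upwards [h1, self_mem_nhdsWithin] with t ht ht0
  have h2 : 0 < ‖t‖ ^ N := pow_pos (norm_pos_iff.2 ht0) N
  rw [norm_pow] at ht
  nlinarith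

/-- `φ = o(t^N)`, `φ` analytic: `φ 0 = 0` -/
private theorem F8_zero {φ : ℂ → ℂ} {N : ℕ} (hN : 1 ≤ N) (ha : AnalyticAt ℂ φ 0)
    (hs : φ =o[𝓝[≠] 0] (fun t : ℂ => t ^ N)) : φ 0 = 0 := by
  have h1 : Tendsto φ (𝓝[≠] 0) (𝓝 (φ 0)) := ha.continuousAt.tendsto.mono_left nhdsWithin_le_nhds
  have h2 : Tendsto (fun t : ℂ => t ^ N) (𝓝[≠] 0) (𝓝 0) :=
    (P2aux.pow_tendsto hN).mono_right nhdsWithin_le_nhds
  exact tendsto_nhds_unique h1 (hs.isBigO.trans_tendsto h2)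

private theorem F8_hasDerivAt {F : ℂ × ℂ → ℂ} {g : ℂ → ℂ} {N : ℕ} {t : ℂ}
    (hF : DifferentiableAt ℂ F (g t, t ^ N)) (hg : DifferentiableAt ℂ g t) :
    HasDerivAt (fun s => F (g s, s ^ N)) (dx F (g t, t ^ N) * deriv g t +
      dy F (g t, t ^ N) * (N * t ^ (N - 1))) t := by
  have h1 : HasDerivAt (fun s : ℂ => (g s, s ^ N)) (deriv g t, (N : ℂ) * t ^ (N - 1)) t :=
    hg.hasDerivAt.prodMk (hasDerivAt_pow N t)
  have h2 := hF.hasFDerivAt.comp_hasDerivAt t h1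
  have h3 : ((deriv g t, (N : ℂ) * t ^ (N - 1)) : ℂ × ℂ) =
      deriv g t • ((1, 0) : ℂ × ℂ) + ((N : ℂ) * t ^ (N - 1)) • ((0, 1) : ℂ × ℂ) := by
    ext <;> simp
  rw [h3, map_add, map_smul, map_smul, smul_eq_mul, smul_eq_mul] at h2
  have h4 : dx F (g t, t ^ N) * deriv g t + dy F (g t, t ^ N) * (N * t ^ (N - 1)) =
      deriv g t * (fderiv ℂ F (g t, t ^ N)) (1, 0) +
        ((N : ℂ) * t ^ (N - 1)) * (fderiv ℂ F (g t, t ^ N)) (0, 1) := by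
    unfold dx dy
    ring
  rw [h4]
  exact h2

private theorem F8_deriv {g : ℂ → ℂ} {N : ℕ} (hN : 1 ≤ N) (ha : AnalyticAt ℂ g 0)
    (hg : g =o[𝓝[≠] 0] (fun t : ℂ => t ^ N)) :
    Tendsto (fun t : ℂ => deriv g t / (N * t ^ (N - 1))) (𝓝[≠] 0) (𝓝 0) := by
  have h1 := deriv_littleO g (fun t => t ^ N) ha (by fun_prop) hg
  have h2 := h1.tendsto_div_nhds_zero
  have h3 := h2.const_mul ((N : ℂ)⁻¹)
  rw [mul_zero] at h3
  refine h3.congr' ?_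
  filter_upwards [self_mem_nhdsWithin] with t ht
  have ht0 : t ≠ 0 := ht
  have hN0 : (N : ℂ) ≠ 0 := by
    have : N ≠ 0 := by omega
    exact_mod_cast this
  have h4 : t ^ N = t * t ^ (N - 1) := by
    rw [← pow_succ']
    congr 1
    omega
  rw [h4]
  field_simp

private theorem F8_ctr {n c : ℕ} (cl : Fin n → Fin c) (γ : Fin n → ℂ → ℂ) (C : Fin c)
    (hm : 1 ≤ mul cl C) (T x0 : ℂ → ℂ) (s : ℂ → ℝ)
    (h : ∀ l, cl l = C → (fun t => γ l (T t) - x0 t) =O[𝓝[≠] 0] s) :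
    (fun t => ctr cl γ C (T t) - x0 t) =O[𝓝[≠] 0] s := by
  have h1 : (fun t => ∑ l ∈ Finset.univ.filter (fun l => cl l = C), (γ l (T t) - x0 t))
      =O[𝓝[≠] 0] s := by
    apply IsBigO.fun_sum
    intro l hl
    exact h l (Finset.mem_filter.1 hl).2
  have h2 := h1.const_mul_left ((mul cl C : ℂ)⁻¹)
  refine h2.congr_left fun t => ?_
  have hne : (mul cl C : ℂ) ≠ 0 := by
    have : mul cl C ≠ 0 := by omega
    exact_mod_cast this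
  rw [Finset.sum_sub_distrib, Finset.sum_const, nsmul_eq_mul]
  unfold ctr
  have h3 : ((Finset.univ.filter (fun l => cl l = C)).card : ℂ) = (mul cl C : ℂ) := rfl
  rw [h3]
  field_simp

private theorem F8_close {T T0 : ℂ → ℂ} {τ : ℂ} (hτ : τ ≠ 0)
    (hT : Tendsto (fun t => T t / t) (𝓝[≠] 0) (𝓝 τ))
    (hT0 : Tendsto (fun t => T0 t / t) (𝓝[≠] 0) (𝓝 τ)) :
    ∀ᶠ t in 𝓝[≠] (0:ℂ), 0 < ‖T t‖ ∧ 0 < ‖T0 t‖ ∧ ‖T t - T0 t‖ ≤ ‖T0 t‖ / 2 ∧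
      ‖T t‖ ≤ 2 * ‖T0 t‖ ∧ ‖T t‖ ≤ (‖τ‖ + 1) * ‖t‖ ∧ ‖T0 t‖ ≤ (‖τ‖ + 1) * ‖t‖ := by
  have h1 : Tendsto (fun t => ‖(T t / t) / (T0 t / t) - 1‖) (𝓝[≠] 0) (𝓝 ‖τ / τ - 1‖) :=
    ((hT.div hT0 hτ).sub_const 1).norm
  rw [div_self hτ, sub_self, norm_zero] at h1
  filter_upwards [h1.eventually_lt_const (half_pos one_pos), hT.eventually_ne hτ,
    hT0.eventually_ne hτ, hT.norm.eventually_lt_const (lt_add_one _),
    hT0.norm.eventually_lt_const (lt_add_one _), self_mem_nhdsWithin] with t g1 g2 g3 g4 g5 g6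
  have ht0 : t ≠ 0 := g6
  have htpos : 0 < ‖t‖ := norm_pos_iff.2 ht0
  have hTne : T t ≠ 0 := by
    intro h2
    rw [h2, zero_div] at g2
    exact g2 rfl
  have hT0ne : T0 t ≠ 0 := by
    intro h2
    rw [h2, zero_div] at g3
    exact g3 rfl
  have hpos0 : 0 < ‖T0 t‖ := norm_pos_iff.2 hT0ne
  have h3 : (T t / t) / (T0 t / t) - 1 = (T t - T0 t) / T0 t := by
    field_simp
  rw [h3, norm_div, div_lt_iff₀ hpos0] at g1
  have h4 : ‖T t - T0 t‖ ≤ ‖T0 t‖ / 2 := by linarith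
  refine ⟨norm_pos_iff.2 hTne, hpos0, h4, ?_, ?_, ?_⟩
  · have h5 : ‖T t‖ ≤ ‖T t - T0 t‖ + ‖T0 t‖ := by
      have := norm_add_le (T t - T0 t) (T0 t)
      rwa [sub_add_cancel] at this
    linarith
  · rw [norm_div, div_lt_iff₀ htpos] at g4
    exact g4.le
  · rw [norm_div, div_lt_iff₀ htpos] at g5
    exact g5.le

section

variable {F G : ℂ × ℂ → ℂ} {k n N : ℕ} {u u' : ℂ} {c : ℕ} {m : Fin c → ℕ}
    {b : Fin c → ℝ} {g v : Fin c → ℂ → ℂ} {a : Fin c → ℂ} {D : Fin c → ℕ}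
    {γ' : Fin n → ℂ → ℂ} {A B : ℂ × ℂ → ℂ × ℂ} {L ρ : ℝ}

private theorem F8_cE (h : Clu F k n N u c m b g v a D) (C : Fin c) :
    ∃ K > (0 : ℝ), ∀ᶠ t in 𝓝[≠] (0 : ℂ),
      cE (N * (k - 1 - n)) m b g C (‖t‖ ^ (b C)) t ≤ K * ‖v C t‖ := by
  obtain ⟨c1, hc1, c2, hc2, hbal⟩ := h.bal
  refine ⟨2 ^ (∑ C', m C') * c2, by positivity, ?_⟩
  have hsep : ∀ᶠ t in 𝓝[≠] (0 : ℂ), ∀ C', C ≠ C' → ‖t‖ ^ (b C) ≤ ‖g C t - g C' t‖ := by
    rw [Filter.eventually_all]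
    intro C'
    by_cases hCC : C = C'
    · exact Filter.Eventually.of_forall fun t h => absurd hCC h
    · filter_upwards [(isLittleO_iff.1 (h.sep C C' hCC)) one_pos] with t ht _
      rw [one_mul, Real.norm_of_nonneg (by positivity)] at ht
      exact ht
  filter_upwards [hsep, hbal] with t g1 g2
  set s := ‖t‖ ^ (b C) with hs
  have hs0 : 0 ≤ s := by positivity
  set e := N * (k - 1 - n) with he
  have hE2 : cE e m b g C s t ≤ 2 ^ (∑ C', m C') * cE e m b g C 0 t := by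
    unfold cE
    have h1 : ∏ C', (s + ‖t‖ ^ (b C') + ‖g C t - g C' t‖) ^ m C' ≤
        2 ^ (∑ C', m C') * ∏ C', (0 + ‖t‖ ^ (b C') + ‖g C t - g C' t‖) ^ m C' := by
      rw [← Finset.prod_pow_eq_pow_sum, ← Finset.prod_mul_distrib]
      refine Finset.prod_le_prod (fun C' _ => by positivity) fun C' _ => ?_
      rw [← mul_pow]
      refine pow_le_pow_left₀ (by positivity) ?_ _
      by_cases hCC : C = C'
      · subst hCC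
        have : 0 ≤ ‖g C t - g C t‖ := norm_nonneg _
        linarith
      · have h2 := g1 C' hCC
        have h3 : 0 ≤ ‖t‖ ^ (b C') := by positivity
        have h4 : 0 ≤ ‖g C t - g C' t‖ := norm_nonneg _
        linarith
    calc _ ≤ ‖t‖ ^ e * (2 ^ (∑ C', m C') *
          ∏ C', (0 + ‖t‖ ^ (b C') + ‖g C t - g C' t‖) ^ m C') :=
          mul_le_mul_of_nonneg_left h1 (by positivity)
      _ = _ := by ring
  calc cE e m b g C s t ≤ 2 ^ (∑ C', m C') * cE e m b g C 0 t := hE2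
    _ ≤ 2 ^ (∑ C', m C') * (c2 * ‖v C t‖) :=
        mul_le_mul_of_nonneg_left (g2 C).2 (by positivity)
    _ = _ := by ring

private theorem F8_vs (h : Mat F G k n n N u u' c m b g v a D γ' A B L ρ) (C : Fin c) :
    ∀ᶠ t in 𝓝[≠] (0 : ℂ), ‖v C t‖ ≤ ‖t‖ ^ (b C) := by
  obtain ⟨c1, hc1, c2, hc2, hbal⟩ := h.hC.bal
  filter_upwards [hbal, F8_ev (h.hC.small h.hk c1 hc1), F8_rpow (h.hC.hb C) one_pos]
    with t g1 g2 g3
  have h1 := (g1 C).1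
  have h2 := g2 C (‖t‖ ^ (b C)) le_rfl (by rw [one_mul] at g3; exact g3)
  have h3 := cE_mono (N * (k - 1 - n)) m b g C t 0 (‖t‖ ^ (b C)) le_rfl (by positivity)
  have h4 : c1 * ‖v C t‖ ≤ c1 * ‖t‖ ^ (b C) := by linarith
  exact le_of_mul_le_mul_left h4 hc1

private theorem F8_vord (h : Clu F k n N u c m b g v a D) (C : Fin c) :
    ∃ K > (0:ℝ), ∀ᶠ t in 𝓝[≠] (0:ℂ), v C t ≠ 0 ∧ F (g C t, t ^ N) ≠ 0 ∧
      ‖v C t‖ * ‖t‖ ^ N ≤ K * ‖t‖ ^ (D C) ∧ ‖t‖ ^ (D C) ≤ K * ‖F (g C t, t ^ N)‖ := by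
  have hapos : 0 < ‖a C‖ := norm_pos_iff.2 (h.ha C)
  have hD := h.hD C
  have hN := h.hN
  have hlne : a C * D C / N ≠ 0 := by
    refine div_ne_zero (mul_ne_zero (h.ha C) ?_) ?_
    · have : D C ≠ 0 := by omega
      exact_mod_cast this
    · have : N ≠ 0 := by omega
      exact_mod_cast this
  set K := (‖a C * D C / N‖ + 1) + 2 / ‖a C‖ with hK
  have hK0 : 0 < K := by positivity
  refine ⟨K, hK0, ?_⟩
  have e1 := (h.vord C).norm.eventually_lt_const (lt_add_one _)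
  have e2 := (h.Vord C).norm.eventually_const_lt (half_lt_self hapos)
  filter_upwards [e1, e2, (h.vord C).eventually_ne hlne, self_mem_nhdsWithin] with t g1 g2 g3 g4
  have ht0 : t ≠ 0 := g4
  have htpos : 0 < ‖t‖ := norm_pos_iff.2 ht0
  have hpD : 0 < ‖t‖ ^ (D C) := by positivity
  rw [norm_div, norm_mul, norm_pow, norm_pow, div_lt_iff₀ hpD] at g1
  rw [norm_div, norm_pow, lt_div_iff₀ hpD] at g2
  refine ⟨?_, ?_, ?_, ?_⟩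
  · intro h1
    rw [h1, zero_mul, zero_div] at g3
    exact g3 rfl
  · intro h1
    rw [h1, norm_zero] at g2
    have : 0 < ‖a C‖ / 2 * ‖t‖ ^ (D C) := by positivity
    linarith
  · refine g1.le.trans (mul_le_mul_of_nonneg_right ?_ hpD.le)
    rw [hK]
    have : 0 < 2 / ‖a C‖ := by positivity
    linarith
  · have h1 : ‖t‖ ^ (D C) ≤ 2 / ‖a C‖ * ‖F (g C t, t ^ N)‖ := by
      rw [div_mul_eq_mul_div, le_div_iff₀ hapos]
      linarith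
    refine h1.trans (mul_le_mul_of_nonneg_right ?_ (norm_nonneg _))
    rw [hK]
    have : 0 ≤ ‖a C * D C / N‖ := norm_nonneg _
    linarith

private theorem F8_A (h : Mat F G k n n N u u' c m b g v a D γ' A B L ρ) (C : Fin c) :
    Tendsto (fun t => A (pt g N C t)) (𝓝[≠] 0) (𝓝 0) ∧
      ∀ᶠ t in 𝓝[≠] (0 : ℂ), pt g N C t ∈ ball (0 : ℂ × ℂ) ρ := by
  have hN := h.hC.hN
  have h1 : Tendsto (fun t : ℂ => t ^ N) (𝓝[≠] 0) (𝓝 0) :=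
    (P2aux.pow_tendsto hN).mono_right nhdsWithin_le_nhds
  have h2 : Tendsto (g C) (𝓝[≠] 0) (𝓝 0) := (h.hC.gsm C).isBigO.trans_tendsto h1
  have h3 : Tendsto (fun t => pt g N C t) (𝓝[≠] 0) (𝓝 (0 : ℂ × ℂ)) := h2.prodMk_nhds h1
  have h4 : ∀ᶠ t in 𝓝[≠] (0 : ℂ), pt g N C t ∈ ball (0 : ℂ × ℂ) ρ :=
    h3.eventually (ball_mem_nhds _ h.hco.hρ)
  refine ⟨?_, h4⟩
  have h5 : Tendsto (fun t => L * ‖pt g N C t‖) (𝓝[≠] 0) (𝓝 0) := by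
    have := h3.norm.const_mul L
    rwa [norm_zero, mul_zero] at this
  refine squeeze_zero_norm' ?_ h5
  filter_upwards [h4] with t ht
  have h6 := h.hco.lipA _ ht _ (mem_ball_self h.hco.hρ)
  rwa [h.hco.A0, sub_zero, sub_zero] at h6

private theorem F8_G (h : Mat F G k n n N u u' c m b g v a D γ' A B L ρ) (C : Fin c) (R : ℝ)
    (hR : 1 ≤ R) :
    ∃ K > (0:ℝ), ∀ᶠ t in 𝓝[≠] (0:ℂ),
      (∀ q : ℂ × ℂ, ‖q - A (pt g N C t)‖ ≤ R * ‖t‖ ^ (b C) →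
        DifferentiableAt ℂ G q ∧ ‖fderiv ℂ G q‖ ≤ K * ‖v C t‖) ∧
      ∀ q1 q2 : ℂ × ℂ, ‖q1 - A (pt g N C t)‖ ≤ R * ‖t‖ ^ (b C) →
        ‖q2 - A (pt g N C t)‖ ≤ R * ‖t‖ ^ (b C) →
        ‖G q1 - G q2‖ ≤ K * ‖v C t‖ * ‖q1 - q2‖ := by
  obtain ⟨CR, hCR, d, hd, hwin⟩ := win_G h R hR
  obtain ⟨K0, hK0, hcE⟩ := F8_cE h.hC C
  have hA := (F8_A h C).1
  obtain ⟨r, hr, hball⟩ := Metric.eventually_nhds_iff_ball.1 h.hG.an.eventually_analyticAt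
  have hs : ∀ᶠ t in 𝓝[≠] (0:ℂ), R * ‖t‖ ^ (b C) < r / 2 := by
    have hη : 0 < r / (4 * R) := by positivity
    filter_upwards [F8_rpow (h.hC.hb C) hη, F8_near one_pos] with t g1 g2
    have h1 : ‖t‖ ^ N ≤ 1 := pow_le_one₀ (norm_nonneg _) g2.2.le
    calc R * ‖t‖ ^ (b C) ≤ R * (r / (4 * R) * 1) := by
          refine mul_le_mul_of_nonneg_left (g1.trans ?_) (by linarith)
          exact mul_le_mul_of_nonneg_left h1 hη.le
      _ = r / 4 := by field_simp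
      _ < r / 2 := by linarith
  refine ⟨CR * K0, by positivity, ?_⟩
  filter_upwards [F8_near hd, F8_rpow (h.hC.hb C) hd, hcE,
    hA.eventually (ball_mem_nhds _ (half_pos hr)), hs] with t g1 g2 g3 g4 g5
  have hq : ∀ q : ℂ × ℂ, ‖q - A (pt g N C t)‖ ≤ R * ‖t‖ ^ (b C) →
      DifferentiableAt ℂ G q ∧ ‖fderiv ℂ G q‖ ≤ CR * K0 * ‖v C t‖ := by
    intro q hq
    constructor
    · apply (hball q _).differentiableAt
      rw [mem_ball_zero_iff]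
      have h1 : ‖q‖ ≤ ‖A (pt g N C t)‖ + ‖q - A (pt g N C t)‖ := by
        have := norm_add_le (A (pt g N C t)) (q - A (pt g N C t))
        rwa [add_sub_cancel] at this
      have g4' := mem_ball_zero_iff.1 g4
      linarith
    · calc ‖fderiv ℂ G q‖ ≤ CR * cE (N * (k - 1 - n)) m b g C (‖t‖ ^ (b C)) t :=
            hwin t g1.1 g1.2 C _ le_rfl g2 q hq
        _ ≤ CR * (K0 * ‖v C t‖) := mul_le_mul_of_nonneg_left g3 hCR.le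
        _ = _ := by ring
  refine ⟨hq, fun q1 q2 h1 h2 => ?_⟩
  have hconv : Convex ℝ (closedBall (A (pt g N C t)) (R * ‖t‖ ^ (b C))) := convex_closedBall _ _
  exact hconv.norm_image_sub_le_of_norm_fderiv_le (𝕜 := ℂ)
    (fun x hx => (hq x (mem_closedBall_iff_norm.1 hx)).1)
    (fun x hx => (hq x (mem_closedBall_iff_norm.1 hx)).2)
    (mem_closedBall_iff_norm.2 h2) (mem_closedBall_iff_norm.2 h1)

private theorem F8_E1 (h : Mat F G k n n N u u' c m b g v a D γ' A B L ρ) (C : Fin c)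
    (q : ℂ → ℂ × ℂ)
    (hq : (fun t => q t - A (pt g N C t)) =O[𝓝[≠] 0] (fun t : ℂ => ‖t‖ ^ (b C))) :
    ∃ K > (0:ℝ), ∀ᶠ t in 𝓝[≠] (0:ℂ),
      ‖G (q t) - F (g C t, t ^ N)‖ ≤ K * ‖t‖ ^ (b C) * ‖v C t‖ := by
  obtain ⟨K0, hK0⟩ := hq.bound
  set R := max K0 1 with hR
  have hR1 : 1 ≤ R := le_max_right _ _
  obtain ⟨K1, hK1, hG⟩ := F8_G h C R hR1
  obtain ⟨CR, hCR, d, hd, hwin⟩ := win_F h.hC 1 le_rfl
  obtain ⟨K2, hK2, hcE⟩ := F8_cE h.hC C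
  have hL := h.hco.hL
  refine ⟨K1 * R + L * (CR * K2) ^ 2, by positivity, ?_⟩
  filter_upwards [hK0, hG, F8_near hd, F8_rpow (h.hC.hb C) hd, hcE, F8_vs h C, (F8_A h C).2]
    with t g1 g2 g3 g4 g5 g6 g7
  have hs0 : 0 ≤ ‖t‖ ^ (b C) := by positivity
  rw [Real.norm_of_nonneg hs0] at g1
  have hq1 : ‖q t - A (pt g N C t)‖ ≤ R * ‖t‖ ^ (b C) :=
    g1.trans (mul_le_mul_of_nonneg_right (le_max_left _ _) hs0)
  have hq2 : ‖A (pt g N C t) - A (pt g N C t)‖ ≤ R * ‖t‖ ^ (b C) := by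
    rw [sub_self, norm_zero]
    positivity
  have e1 : ‖G (q t) - G (A (pt g N C t))‖ ≤ K1 * R * ‖t‖ ^ (b C) * ‖v C t‖ := by
    calc ‖G (q t) - G (A (pt g N C t))‖ ≤ K1 * ‖v C t‖ * ‖q t - A (pt g N C t)‖ :=
          g2.2 _ _ hq1 hq2
      _ ≤ K1 * ‖v C t‖ * (R * ‖t‖ ^ (b C)) := mul_le_mul_of_nonneg_left hq1 (by positivity)
      _ = _ := by ring
  have e2 : ‖fderiv ℂ F (pt g N C t)‖ ≤ CR * K2 * ‖v C t‖ := by
    calc ‖fderiv ℂ F (pt g N C t)‖ ≤ CR * cE (N * (k - 1 - n)) m b g C (‖t‖ ^ (b C)) t := by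
          refine hwin t g3.1 g3.2 C _ le_rfl g4 _ ?_
          rw [sub_self, norm_zero]
          positivity
      _ ≤ CR * (K2 * ‖v C t‖) := mul_le_mul_of_nonneg_left g5 hCR.le
      _ = _ := by ring
  have e3 : ‖F (pt g N C t) - G (A (pt g N C t))‖ ≤
      L * (CR * K2) ^ 2 * ‖t‖ ^ (b C) * ‖v C t‖ := by
    calc ‖F (pt g N C t) - G (A (pt g N C t))‖ ≤ L * ‖fderiv ℂ F (pt g N C t)‖ ^ 2 :=
          h.hco.fA _ g7
      _ ≤ L * (CR * K2 * ‖v C t‖) ^ 2 := by gcongr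
      _ = L * (CR * K2) ^ 2 * (‖v C t‖ * ‖v C t‖) := by ring
      _ ≤ L * (CR * K2) ^ 2 * (‖t‖ ^ (b C) * ‖v C t‖) := by gcongr
      _ = _ := by ring
  have e4 : G (q t) - F (g C t, t ^ N) = (G (q t) - G (A (pt g N C t))) -
      (F (pt g N C t) - G (A (pt g N C t))) := by
    unfold pt
    ring
  rw [e4]
  calc _ ≤ ‖G (q t) - G (A (pt g N C t))‖ + ‖F (pt g N C t) - G (A (pt g N C t))‖ :=
        norm_sub_le _ _
    _ ≤ K1 * R * ‖t‖ ^ (b C) * ‖v C t‖ + L * (CR * K2) ^ 2 * ‖t‖ ^ (b C) * ‖v C t‖ :=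
        add_le_add e1 e3
    _ = _ := by ring

private theorem F8_ratio (h : Mat F G k n n N u u' c m b g v a D γ' A B L ρ) (C : Fin c)
    (W : ℂ → ℂ) (hW : ∃ K > (0:ℝ), ∀ᶠ t in 𝓝[≠] (0:ℂ),
      ‖W t - F (g C t, t ^ N)‖ ≤ K * ‖t‖ ^ (b C) * ‖v C t‖) :
    Tendsto (fun t => W t / F (g C t, t ^ N)) (𝓝[≠] 0) (𝓝 1) := by
  obtain ⟨K, hK, hW⟩ := hW
  obtain ⟨K1, hK1, hv⟩ := F8_vord h.hC C
  rw [Metric.tendsto_nhds]
  intro ε hε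
  have hη : 0 < ε / (2 * K * K1 ^ 2) := by positivity
  filter_upwards [hW, hv, F8_rpow (h.hC.hb C) hη] with t g1 g2 g3
  obtain ⟨h1, h2, h3, h4⟩ := g2
  have hVpos : 0 < ‖F (g C t, t ^ N)‖ := norm_pos_iff.2 h2
  rw [dist_eq_norm]
  have e1 : W t / F (g C t, t ^ N) - 1 = (W t - F (g C t, t ^ N)) / F (g C t, t ^ N) := by
    field_simp
  rw [e1, norm_div, div_lt_iff₀ hVpos]
  calc ‖W t - F (g C t, t ^ N)‖ ≤ K * ‖t‖ ^ (b C) * ‖v C t‖ := g1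
    _ ≤ K * (ε / (2 * K * K1 ^ 2) * ‖t‖ ^ N) * ‖v C t‖ := by gcongr
    _ = K * (ε / (2 * K * K1 ^ 2)) * (‖v C t‖ * ‖t‖ ^ N) := by ring
    _ ≤ K * (ε / (2 * K * K1 ^ 2)) * (K1 * (K1 * ‖F (g C t, t ^ N)‖)) := by
        refine mul_le_mul_of_nonneg_left (h3.trans ?_) (by positivity)
        exact mul_le_mul_of_nonneg_left h4 hK1.le
    _ = ε / 2 * ‖F (g C t, t ^ N)‖ := by field_simp
    _ < ε * ‖F (g C t, t ^ N)‖ := by nlinarith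

/-- `T` and its distance to `T0` -/
private theorem F8_main1 (h : Mat F G k n n N u u' c m b g v a D γ' A B L ρ) (C : Fin c) {τ : ℂ}
    (hτ : τ ≠ 0) (Γ T0 : ℂ → ℂ) (hΓ : AnalyticAt ℂ Γ 0)
    (hΓs : Γ =o[𝓝[≠] 0] (fun t : ℂ => t ^ N))
    (hT0 : Tendsto (fun t => T0 t / t) (𝓝[≠] 0) (𝓝 τ))
    (hq : (fun t => ((Γ (T0 t), T0 t ^ N) : ℂ × ℂ) - A (pt g N C t))
      =O[𝓝[≠] 0] (fun t : ℂ => ‖t‖ ^ (b C))) :
    ∃ T : ℂ → ℂ, AnalyticAt ℂ T 0 ∧ T 0 = 0 ∧ deriv T 0 = τ ∧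
      (∀ᶠ t in 𝓝 (0 : ℂ), G (Γ (T t), T t ^ N) = F (g C t, t ^ N)) ∧
      ∃ K > (0:ℝ), ∀ᶠ t in 𝓝[≠] (0:ℂ), ‖T t - T0 t‖ * ‖t‖ ^ (N - 1) ≤ K * ‖t‖ ^ (b C) := by
  have hN := h.hC.hN
  have hD := h.hC.hD C
  have hΓ0 : Γ 0 = 0 := F8_zero hN hΓ hΓs
  have hg0 : g C 0 = 0 := F8_zero hN (h.hC.gan C) (h.hC.gsm C)
  have hN0 : (0:ℂ) ^ N = 0 := zero_pow (by omega)
  set V : ℂ → ℂ := fun t => F (g C t, t ^ N) with hV
  set V' : ℂ → ℂ := fun t => G (Γ t, t ^ N) with hV'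
  have hVan : AnalyticAt ℂ V 0 := by
    have h1 : AnalyticAt ℂ (fun t : ℂ => (g C t, t ^ N)) 0 := (h.hC.gan C).prod (by fun_prop)
    exact h.hC.an.fun_comp_of_eq h1 (by rw [hg0, hN0]; rfl)
  have hV'an : AnalyticAt ℂ V' 0 := by
    have h1 : AnalyticAt ℂ (fun t : ℂ => (Γ t, t ^ N)) 0 := hΓ.prod (by fun_prop)
    exact h.hG.an.fun_comp_of_eq h1 (by rw [hΓ0, hN0]; rfl)
  obtain ⟨K1, hK1, hE1⟩ := F8_E1 h C (fun t => (Γ (T0 t), T0 t ^ N)) hq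
  have hr : Tendsto (fun t => V' (T0 t) / V t) (𝓝[≠] 0) (𝓝 1) :=
    F8_ratio h C (fun t => V' (T0 t)) ⟨K1, hK1, hE1⟩
  have hVa := h.hC.Vord C
  have hV'a := F8_order hV'an (h.hC.ha C) hτ hVa hT0 hr
  have ha' : a C / τ ^ (D C) ≠ 0 := div_ne_zero (h.hC.ha C) (pow_ne_zero _ hτ)
  have hD1 : 1 ≤ D C := by omega
  obtain ⟨T, hT1, hT2, hT3, hT4⟩ := F8_exists hVan hV'an hD1 (h.hC.ha C) ha'
    (div_mul_cancel₀ _ (pow_ne_zero _ hτ)) hVa hV'a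
  refine ⟨T, hT1, hT2, hT3, hT4, ?_⟩
  obtain ⟨K2, hK2, hsep⟩ := F8_sep hV'an hD1 ha' hτ hV'a (F8_quot hT1 hT2 hT3) hT0
  obtain ⟨K3, hK3, hv⟩ := F8_vord h.hC C
  refine ⟨K2 * K1 * K3, by positivity, ?_⟩
  filter_upwards [hsep, nhdsWithin_le_nhds hT4, hE1, hv, self_mem_nhdsWithin]
    with t g1 g2 g3 g4 g5
  have ht0 : t ≠ 0 := g5
  have htpos : 0 < ‖t‖ := norm_pos_iff.2 ht0
  obtain ⟨h1, h2, h3, h4⟩ := g4
  have hNk : N ≤ N * k := Nat.le_mul_of_pos_right N (by have := h.hk; omega)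
  have e1 : ‖t‖ ^ (D C - 1) * ‖t‖ ^ N = ‖t‖ ^ (N - 1) * ‖t‖ ^ (D C) := by
    rw [← pow_add, ← pow_add]
    congr 1
    omega
  have e2 : ‖T t - T0 t‖ * ‖t‖ ^ (D C - 1) ≤ K2 * (K1 * ‖t‖ ^ (b C) * ‖v C t‖) := by
    refine g1.trans (mul_le_mul_of_nonneg_left ?_ hK2.le)
    rw [g2, norm_sub_rev]
    exact g3
  have e3 : ‖T t - T0 t‖ * ‖t‖ ^ (N - 1) * ‖t‖ ^ (D C) ≤
      K2 * K1 * K3 * ‖t‖ ^ (b C) * ‖t‖ ^ (D C) := by
    calc ‖T t - T0 t‖ * ‖t‖ ^ (N - 1) * ‖t‖ ^ (D C)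
        = ‖T t - T0 t‖ * ‖t‖ ^ (D C - 1) * ‖t‖ ^ N := by
          rw [mul_assoc, ← e1, mul_assoc]
      _ ≤ K2 * (K1 * ‖t‖ ^ (b C) * ‖v C t‖) * ‖t‖ ^ N := by gcongr
      _ = K2 * K1 * ‖t‖ ^ (b C) * (‖v C t‖ * ‖t‖ ^ N) := by ring
      _ ≤ K2 * K1 * ‖t‖ ^ (b C) * (K3 * ‖t‖ ^ (D C)) := by gcongr
      _ = _ := by ring
  exact le_of_mul_le_mul_right e3 (by positivity)

/-- consequences of `T - T0` small -/
private theorem F8_main2 (h : Mat F G k n n N u u' c m b g v a D γ' A B L ρ) (C : Fin c) {τ : ℂ}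
    (hτ : τ ≠ 0) (T T0 : ℂ → ℂ) (hT : Tendsto (fun t => T t / t) (𝓝[≠] 0) (𝓝 τ))
    (hT0 : Tendsto (fun t => T0 t / t) (𝓝[≠] 0) (𝓝 τ))
    (hd : ∃ K > (0:ℝ), ∀ᶠ t in 𝓝[≠] (0:ℂ), ‖T t - T0 t‖ * ‖t‖ ^ (N - 1) ≤ K * ‖t‖ ^ (b C)) :
    (fun t => T t ^ N - T0 t ^ N) =O[𝓝[≠] 0] (fun t : ℂ => ‖t‖ ^ (b C)) ∧
    ∀ l, (fun t => γ' l (T t) - γ' l (T0 t)) =O[𝓝[≠] 0] (fun t : ℂ => ‖t‖ ^ (b C)) := by
  obtain ⟨K, hK, hd⟩ := hd
  have hN := h.hC.hN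
  have hcl := F8_close hτ hT hT0
  set M := ‖τ‖ + 1 with hM
  have hM0 : 0 < M := by positivity
  constructor
  · refine IsBigO.of_bound (N * M ^ (N - 1) * K) ?_
    filter_upwards [hd, hcl] with t g1 g2
    obtain ⟨_, _, _, _, h5, h6⟩ := g2
    rw [Real.norm_of_nonneg (by positivity : (0:ℝ) ≤ ‖t‖ ^ (b C))]
    obtain ⟨N', rfl⟩ : ∃ N', N = N' + 1 := ⟨N - 1, by omega⟩
    have h7 := P1_pow N' h6 h5
    simp only [Nat.add_sub_cancel] at g1 ⊢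
    push_cast
    calc ‖T t ^ (N' + 1) - T0 t ^ (N' + 1)‖ ≤ (N' + 1) * (M * ‖t‖) ^ N' * ‖T t - T0 t‖ := h7
      _ = (N' + 1) * M ^ N' * (‖T t - T0 t‖ * ‖t‖ ^ N') := by rw [mul_pow]; ring
      _ ≤ (N' + 1) * M ^ N' * (K * ‖t‖ ^ (b C)) := by gcongr
      _ = _ := by ring
  · intro l
    obtain ⟨δ, hδ, h0⟩ := slow_small N h.hC.hN (γ' l) (h.hG.γan l) (h.hG.γsm l) 1 one_pos
    have h1 : ∀ᶠ t in 𝓝[≠] (0:ℂ), ∀ t1 : ℂ, ‖t1 - t‖ ≤ ‖t‖ / 2 →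
        ‖γ' l t1 - γ' l t‖ ≤ 1 * ‖t‖ ^ (N - 1) * ‖t1 - t‖ :=
      F8_ev ⟨δ, hδ, fun t g1 g2 t1 => h0 t t1 g1 g2⟩
    have h2 := (F8_tends hτ hT0).eventually h1
    refine IsBigO.of_bound (M ^ (N - 1) * K) ?_
    filter_upwards [hd, hcl, h2] with t g1 g2 g3
    obtain ⟨_, _, h3, _, h5, h6⟩ := g2
    rw [Real.norm_of_nonneg (by positivity : (0:ℝ) ≤ ‖t‖ ^ (b C))]
    calc ‖γ' l (T t) - γ' l (T0 t)‖ ≤ 1 * ‖T0 t‖ ^ (N - 1) * ‖T t - T0 t‖ := g3 (T t) h3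
      _ ≤ 1 * (M * ‖t‖) ^ (N - 1) * ‖T t - T0 t‖ := by gcongr
      _ = M ^ (N - 1) * (‖T t - T0 t‖ * ‖t‖ ^ (N - 1)) := by rw [mul_pow]; ring
      _ ≤ M ^ (N - 1) * (K * ‖t‖ ^ (b C)) := by gcongr
      _ = _ := by ring

/-- the slope of `G` at the centre -/
private theorem F8_slope1 (h : Mat F G k n n N u u' c m b g v a D γ' A B L ρ) (C : Fin c)
    {τ ω : ℂ} (hτ : τ ≠ 0) (hτω : τ ^ N = ω) (Γ T : ℂ → ℂ) (hΓ : AnalyticAt ℂ Γ 0)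
    (hΓs : Γ =o[𝓝[≠] 0] (fun t : ℂ => t ^ N)) (hTan : AnalyticAt ℂ T 0) (hT00 : T 0 = 0)
    (hTd : deriv T 0 = τ)
    (hVT : ∀ᶠ t in 𝓝 (0 : ℂ), G (Γ (T t), T t ^ N) = F (g C t, t ^ N))
    (hq : (fun t => ((Γ (T t), T t ^ N) : ℂ × ℂ) - A (pt g N C t))
      =O[𝓝[≠] 0] (fun t : ℂ => ‖t‖ ^ (b C))) :
    Tendsto (fun t => dy G (Γ (T t), T t ^ N) / v C t) (𝓝[≠] 0) (𝓝 ω⁻¹) := by
  have hN := h.hC.hN
  have hNne : (N:ℂ) ≠ 0 := by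
    have : N ≠ 0 := by omega
    exact_mod_cast this
  have hT := F8_quot hTan hT00 hTd
  have hTt := F8_tends hτ hT
  have hTt' : Tendsto T (𝓝 0) (𝓝 0) := by
    have := hTan.continuousAt.tendsto
    rwa [hT00] at this
  obtain ⟨K0, hK0⟩ := hq.bound
  set R := max K0 1 with hR
  have hR1 : 1 ≤ R := le_max_right _ _
  obtain ⟨K1, hK1, hG⟩ := F8_G h C R hR1
  obtain ⟨K3, hK3, hv⟩ := F8_vord h.hC C
  have hT'lim : Tendsto (fun t => deriv T t) (𝓝[≠] 0) (𝓝 τ) := by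
    have := hTan.deriv.continuousAt.tendsto
    rw [hTd] at this
    exact this.mono_left nhdsWithin_le_nhds
  -- the correction
  have hΓlim : Tendsto (fun t => deriv Γ (T t) / (N * T t ^ (N - 1))) (𝓝[≠] 0) (𝓝 0) :=
    (F8_deriv hN hΓ hΓs).comp hTt
  have hGb : ∀ᶠ t in 𝓝[≠] (0:ℂ), DifferentiableAt ℂ G (Γ (T t), T t ^ N) ∧
      ‖fderiv ℂ G (Γ (T t), T t ^ N)‖ ≤ K1 * ‖v C t‖ := by
    filter_upwards [hK0, hG] with t g1 g2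
    have hs0 : 0 ≤ ‖t‖ ^ (b C) := by positivity
    rw [Real.norm_of_nonneg hs0] at g1
    exact g2.1 _ (g1.trans (mul_le_mul_of_nonneg_right (le_max_left _ _) hs0))
  have hcor : Tendsto (fun t => dx G (Γ (T t), T t ^ N) / v C t *
      (deriv Γ (T t) / (N * T t ^ (N - 1)))) (𝓝[≠] 0) (𝓝 0) := by
    have h1 : Tendsto (fun t => K1 * ‖deriv Γ (T t) / (N * T t ^ (N - 1))‖) (𝓝[≠] 0) (𝓝 0) := by
      have := hΓlim.norm.const_mul K1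
      rwa [norm_zero, mul_zero] at this
    refine squeeze_zero_norm' ?_ h1
    filter_upwards [hGb, hv] with t g1 g2
    rw [norm_mul]
    refine mul_le_mul_of_nonneg_right ?_ (norm_nonneg _)
    have hvpos : 0 < ‖v C t‖ := norm_pos_iff.2 g2.1
    rw [norm_div, div_le_iff₀ hvpos]
    refine le_trans ?_ g1.2
    have h2 := (fderiv ℂ G (Γ (T t), T t ^ N)).le_opNorm ((1, 0) : ℂ × ℂ)
    have h3 : ‖((1, 0) : ℂ × ℂ)‖ = 1 := by simp [Prod.norm_def]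
    rw [h3, mul_one] at h2
    exact h2
  have hmain : Tendsto (fun t => (t / T t) ^ (N - 1) / deriv T t) (𝓝[≠] 0)
      (𝓝 ((τ⁻¹) ^ (N - 1) / τ)) := by
    have h1 : Tendsto (fun t => t / T t) (𝓝[≠] 0) (𝓝 τ⁻¹) := by
      have := hT.inv₀ hτ
      refine this.congr' ?_
      filter_upwards with t
      rw [inv_div]
    exact (h1.pow (N - 1)).div hT'lim hτ
  have hlimeq : (τ⁻¹) ^ (N - 1) / τ - 0 = ω⁻¹ := by
    rw [sub_zero, ← hτω, inv_pow]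
    have : τ ^ N = τ ^ (N - 1) * τ := by
      rw [← pow_succ]
      congr 1
      omega
    rw [this]
    field_simp
  have hfin := hmain.sub hcor
  rw [hlimeq] at hfin
  refine hfin.congr' ?_
  have hΓd : ∀ᶠ t in 𝓝[≠] (0:ℂ), DifferentiableAt ℂ Γ (T t) := by
    have h1 := hTt'.eventually hΓ.eventually_analyticAt
    filter_upwards [nhdsWithin_le_nhds h1] with t ht
    exact ht.differentiableAt
  have hTdiff : ∀ᶠ t in 𝓝[≠] (0:ℂ), DifferentiableAt ℂ T t := by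
    filter_upwards [nhdsWithin_le_nhds hTan.eventually_analyticAt] with t ht
    exact ht.differentiableAt
  have hVT2 := nhdsWithin_le_nhds (s := {(0:ℂ)}ᶜ) (eventually_eventually_nhds.2 hVT)
  filter_upwards [hGb, hv, hΓd, hTdiff, hVT2, F8_close hτ hT hT, hT'lim.eventually_ne hτ,
    self_mem_nhdsWithin] with t g1 g2 g3 g4 g5 g6 g7 g8
  have ht0 : t ≠ 0 := g8
  have hTne : T t ≠ 0 := norm_pos_iff.1 g6.1
  have e1 := F8_hasDerivAt (N := N) g1.1 g3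
  have e2 : HasDerivAt (fun s => G (Γ (T s), T s ^ N)) _ t :=
    HasDerivAt.comp (h₂ := fun s => G (Γ s, s ^ N)) t e1 g4.hasDerivAt
  have e3 := e2.deriv
  have e4 : deriv (fun s => G (Γ (T s), T s ^ N)) t = deriv (fun s => F (g C s, s ^ N)) t :=
    Filter.EventuallyEq.deriv_eq g5
  have e5 := h.hC.hv C t
  have hden : (N:ℂ) * t ^ (N - 1) ≠ 0 := mul_ne_zero hNne (pow_ne_zero _ ht0)
  rw [eq_div_iff hden, ← e4, e3] at e5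
  have hvne := g2.1
  rw [div_pow]
  field_simp
  field_simp at e5
  linear_combination e5

private theorem F8_ehat {n : ℕ} (e : ℕ) (γ : Fin n → ℂ → ℂ) (x1 x0 T T0 : ℂ) {σ s K : ℝ}
    (hσ0 : 0 ≤ σ) (hs : 0 ≤ s) (hK : 0 ≤ K) (hσ : σ ≤ K * s) (hx : ‖x1 - x0‖ ≤ K * s)
    (hγ : ∀ l, ‖γ l T - γ l T0‖ ≤ K * s) (hT : ‖T‖ ≤ 2 * ‖T0‖) :
    Ehat e γ x1 σ T ≤ 2 ^ e * (3 * K + 1) ^ n * Ehat e γ x0 s T0 := by
  unfold Ehat
  have h1 : ∏ l, (σ + ‖x1 - γ l T‖) ≤ ∏ l, ((3 * K + 1) * (s + ‖x0 - γ l T0‖)) := by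
    refine Finset.prod_le_prod (fun l _ => by positivity) fun l _ => ?_
    have e1 : x1 - γ l T = (x1 - x0) + (x0 - γ l T0) - (γ l T - γ l T0) := by ring
    have e2 : ‖x1 - γ l T‖ ≤ ‖x1 - x0‖ + ‖x0 - γ l T0‖ + ‖γ l T - γ l T0‖ := by
      rw [e1]
      exact (norm_sub_le _ _).trans (add_le_add_left (norm_add_le _ _) _)
    have e3 := hγ l
    have e4 : 0 ≤ K * ‖x0 - γ l T0‖ := by positivity
    nlinarith
  rw [Finset.prod_mul_distrib, Finset.prod_const, Finset.card_univ, Fintype.card_fin] at h1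
  calc ‖T‖ ^ e * ∏ l, (σ + ‖x1 - γ l T‖)
      ≤ (2 * ‖T0‖) ^ e * ((3 * K + 1) ^ n * ∏ l, (s + ‖x0 - γ l T0‖)) :=
        mul_le_mul (pow_le_pow_left₀ (norm_nonneg _) hT e) h1
          (Finset.prod_nonneg fun l _ => by positivity) (by positivity)
    _ = _ := by rw [mul_pow]; ring

/-- from the centre to the arcs -/
private theorem F8_slope2 (h : Mat F G k n n N u u' c m b g v a D γ' A B L ρ) (C : Fin c)
    {τ : ℂ} (hτ : τ ≠ 0) (Γ T T0 : ℂ → ℂ)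
    (hΓs : Γ =o[𝓝[≠] 0] (fun t : ℂ => t ^ N))
    (hT : Tendsto (fun t => T t / t) (𝓝[≠] 0) (𝓝 τ))
    (hT0 : Tendsto (fun t => T0 t / t) (𝓝[≠] 0) (𝓝 τ))
    (hT0N : ∀ᶠ t in 𝓝[≠] (0 : ℂ), T0 t ^ N = (A (pt g N C t)).2)
    (hγT : ∀ l, (fun t => γ' l (T t) - γ' l (T0 t)) =O[𝓝[≠] 0] (fun t : ℂ => ‖t‖ ^ (b C)))
    (hΓx : (fun t => Γ (T t) - (A (pt g N C t)).1) =O[𝓝[≠] 0] (fun t : ℂ => ‖t‖ ^ (b C)))
    (l : Fin n)
    (hl : (fun t => γ' l (T t) - (A (pt g N C t)).1) =O[𝓝[≠] 0] (fun t : ℂ => ‖t‖ ^ (b C))) :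
    Tendsto (fun t => (dy G (Γ (T t), T t ^ N) - dy G (γ' l (T t), T t ^ N)) / v C t)
      (𝓝[≠] 0) (𝓝 0) := by
  obtain ⟨K0, hK0, hb0⟩ := hΓx.exists_pos
  obtain ⟨K1, hK1, hb1⟩ := hl.exists_pos
  have hb2 : ∃ K2 > (0:ℝ), ∀ᶠ t in 𝓝[≠] (0:ℂ), ∀ l',
      ‖γ' l' (T t) - γ' l' (T0 t)‖ ≤ K2 * ‖t‖ ^ (b C) := by
    choose Kl hKl hbl using fun l' => (hγT l').exists_pos
    refine ⟨∑ l', Kl l' + 1, by
      have : 0 ≤ ∑ l', Kl l' := Finset.sum_nonneg fun l' _ => (hKl l').le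
      linarith, ?_⟩
    rw [Filter.eventually_all]
    intro l'
    filter_upwards [(hbl l').bound] with t ht
    have hs0 : 0 ≤ ‖t‖ ^ (b C) := by positivity
    rw [Real.norm_of_nonneg hs0] at ht
    refine ht.trans (mul_le_mul_of_nonneg_right ?_ hs0)
    have := Finset.single_le_sum (fun l' _ => (hKl l').le) (Finset.mem_univ l')
    linarith
  obtain ⟨K2, hK2, hb2⟩ := hb2
  obtain ⟨CR, hCR, d, hd, hEh⟩ := ehatG_le h
  obtain ⟨K3, hK3, hcE⟩ := F8_cE h.hC C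
  obtain ⟨K4, hK4, hv⟩ := F8_vord h.hC C
  set K := K0 + K1 + K2 with hK
  have hKpos : 0 < K := by positivity
  set e := N * (k - 1 - n) with he
  set M := 2 ^ e * (3 * K + 1) ^ n * (CR * K3) with hM
  have hMpos : 0 < M := by positivity
  have hTt := F8_tends hτ hT
  rw [Metric.tendsto_nhds]
  intro ε hε
  obtain ⟨δ, hδ, hpf⟩ := pf3 h.hG (ε / (2 * M)) (by positivity)
  filter_upwards [hb0.bound, hb1.bound, hb2, F8_near hd, F8_rpow (h.hC.hb C) hd, hcE, hv,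
    hT0N, F8_close hτ hT hT0, hTt.eventually (F8_near hδ), hTt.eventually (F8_small hΓs hδ),
    hTt.eventually (F8_small (h.hG.γsm l) hδ)]
    with t g0 g1 g2 g3 g4 g5 g6 g7 g8 g9 g10 g11
  have hs0 : 0 ≤ ‖t‖ ^ (b C) := by positivity
  rw [Real.norm_of_nonneg hs0] at g0 g1
  have hvpos : 0 < ‖v C t‖ := norm_pos_iff.2 g6.1
  rw [dist_zero_right, norm_div, div_lt_iff₀ hvpos]
  have e1 := hpf (Γ (T t)) (γ' l (T t)) (T t) g9.1 g9.2 g10 g11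
  have e2 : ‖Γ (T t) - γ' l (T t)‖ ≤ K * ‖t‖ ^ (b C) := by
    have e3 : Γ (T t) - γ' l (T t) = (Γ (T t) - (A (pt g N C t)).1) -
        (γ' l (T t) - (A (pt g N C t)).1) := by ring
    rw [e3]
    refine (norm_sub_le _ _).trans ?_
    have : 0 ≤ K2 * ‖t‖ ^ (b C) := by positivity
    rw [hK, add_mul, add_mul]
    linarith
  have e4 : Ehat e γ' (γ' l (T t)) ‖Γ (T t) - γ' l (T t)‖ (T t) ≤ M * ‖v C t‖ := by
    calc Ehat e γ' (γ' l (T t)) ‖Γ (T t) - γ' l (T t)‖ (T t)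
        ≤ 2 ^ e * (3 * K + 1) ^ n * Ehat e γ' (A (pt g N C t)).1 (‖t‖ ^ (b C)) (T0 t) := by
          refine F8_ehat e γ' _ _ _ _ (norm_nonneg _) hs0 hKpos.le e2 ?_ ?_ g8.2.2.2.1
          · refine g1.trans (mul_le_mul_of_nonneg_right ?_ hs0)
            linarith
          · intro l'
            refine (g2 l').trans (mul_le_mul_of_nonneg_right ?_ hs0)
            linarith
      _ ≤ 2 ^ e * (3 * K + 1) ^ n * (CR * cE e m b g C (‖t‖ ^ (b C)) t) :=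
          mul_le_mul_of_nonneg_left (hEh t g3.1 g3.2 C _ le_rfl g4 (T0 t) g7) (by positivity)
      _ ≤ 2 ^ e * (3 * K + 1) ^ n * (CR * (K3 * ‖v C t‖)) := by gcongr
      _ = M * ‖v C t‖ := by rw [hM]; ring
  calc _ ≤ ε / (2 * M) * Ehat e γ' (γ' l (T t)) ‖Γ (T t) - γ' l (T t)‖ (T t) := e1
    _ ≤ ε / (2 * M) * (M * ‖v C t‖) := mul_le_mul_of_nonneg_left e4 (by positivity)
    _ = ε / 2 * ‖v C t‖ := by field_simp
    _ < ε * ‖v C t‖ := by nlinarith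

end

theorem T_exists {F G : ℂ × ℂ → ℂ} {k n N : ℕ} {u u' : ℂ} {c : ℕ} {m : Fin c → ℕ}
    {b : Fin c → ℝ} {g v : Fin c → ℂ → ℂ} {a : Fin c → ℂ} {D : Fin c → ℕ}
    {γ' : Fin n → ℂ → ℂ} {A B : ℂ × ℂ → ℂ × ℂ} {L ρ : ℝ}
    (h : Mat F G k n n N u u' c m b g v a D γ' A B L ρ) (ω τ : ℂ) (hω : ω ≠ 0) (hτ : τ ^ N = ω)
    (hlim : ∀ C, Tendsto (fun t : ℂ => (A (pt g N C t)).2 / t ^ N) (𝓝[≠] 0) (𝓝 ω))
    (cl' : Fin n → Fin c)
    (hcard : ∀ C, (Finset.univ.filter (fun l => cl' l = C)).card = m C)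
    (hO : ∀ l, (fun t => γ' l (T0 A g N τ (cl' l) t) - (A (pt g N (cl' l) t)).1)
        =O[𝓝[≠] 0] (fun t : ℂ => ‖t‖ ^ (b (cl' l)))) (C : Fin c) :
    ∃ T : ℂ → ℂ, AnalyticAt ℂ T 0 ∧ T 0 = 0 ∧ deriv T 0 = τ ∧
      (∀ᶠ t in 𝓝 (0 : ℂ), G (ctr cl' γ' C (T t), T t ^ N) = F (g C t, t ^ N)) ∧
      (fun t => T t ^ N - (A (pt g N C t)).2) =O[𝓝[≠] 0] (fun t : ℂ => ‖t‖ ^ (b C)) ∧
      (∀ l, cl' l = C → (fun t => γ' l (T t) - (A (pt g N C t)).1)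
        =O[𝓝[≠] 0] (fun t : ℂ => ‖t‖ ^ (b C))) ∧
      (∀ l, cl' l = C → Tendsto (fun t => dy G (γ' l (T t), T t ^ N) / v C t) (𝓝[≠] 0)
        (𝓝 ω⁻¹)) := by
  have hN := h.hC.hN
  have hτ0 : τ ≠ 0 := by
    intro h0
    rw [h0, zero_pow (by omega)] at hτ
    exact hω hτ.symm
  obtain ⟨hT0, hT0N, _⟩ := T0_props h ω τ hω hτ hlim C
  have hmul : 1 ≤ mul cl' C := by
    have h1 : mul cl' C = m C := hcard C
    rw [h1]
    exact h.hC.hm C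
  set Γ : ℂ → ℂ := ctr cl' γ' C with hΓdef
  have hΓ : AnalyticAt ℂ Γ 0 := ctr_an cl' γ' h.hG.γan C
  have hΓs : Γ =o[𝓝[≠] 0] (fun t : ℂ => t ^ N) := ctr_sm N cl' γ' h.hG.γsm C
  have hOC : ∀ l, cl' l = C → (fun t => γ' l (T0 A g N τ C t) - (A (pt g N C t)).1)
      =O[𝓝[≠] 0] (fun t : ℂ => ‖t‖ ^ (b C)) := by
    intro l hl
    have := hO l
    rw [hl] at this
    exact this
  have hΓ0 := F8_ctr cl' γ' C hmul (T0 A g N τ C) (fun t => (A (pt g N C t)).1)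
    (fun t => ‖t‖ ^ (b C)) hOC
  have hq0 : (fun t => ((Γ (T0 A g N τ C t), T0 A g N τ C t ^ N) : ℂ × ℂ) - A (pt g N C t))
      =O[𝓝[≠] 0] (fun t : ℂ => ‖t‖ ^ (b C)) := by
    refine IsBigO.prod_left hΓ0 ?_
    refine (isBigO_zero (fun t : ℂ => ‖t‖ ^ (b C)) _).congr' ?_ EventuallyEq.rfl
    filter_upwards [hT0N] with t ht
    simp [ht]
  obtain ⟨T, hT1, hT2, hT3, hT4, hd⟩ := F8_main1 h C hτ0 Γ (T0 A g N τ C) hΓ hΓs hT0 hq0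
  have hT := F8_quot hT1 hT2 hT3
  obtain ⟨hTN, hγT⟩ := F8_main2 h C hτ0 T (T0 A g N τ C) hT hT0 hd
  have hTN' : (fun t => T t ^ N - (A (pt g N C t)).2) =O[𝓝[≠] 0] (fun t : ℂ => ‖t‖ ^ (b C)) := by
    refine hTN.congr' ?_ EventuallyEq.rfl
    filter_upwards [hT0N] with t ht
    rw [ht]
  have hlT : ∀ l, cl' l = C → (fun t => γ' l (T t) - (A (pt g N C t)).1)
      =O[𝓝[≠] 0] (fun t : ℂ => ‖t‖ ^ (b C)) := by
    intro l hl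
    refine ((hγT l).add (hOC l hl)).congr_left fun t => ?_
    ring
  have hΓT := F8_ctr cl' γ' C hmul T (fun t => (A (pt g N C t)).1) (fun t => ‖t‖ ^ (b C)) hlT
  have hqT : (fun t => ((Γ (T t), T t ^ N) : ℂ × ℂ) - A (pt g N C t))
      =O[𝓝[≠] 0] (fun t : ℂ => ‖t‖ ^ (b C)) := IsBigO.prod_left hΓT hTN'
  refine ⟨T, hT1, hT2, hT3, hT4, hTN', hlT, fun l hl => ?_⟩
  have h1 := F8_slope1 h C hτ0 hτ Γ T hΓ hΓs hT1 hT2 hT3 hT4 hqT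
  have h2 := F8_slope2 h C hτ0 Γ T (T0 A g N τ C) hΓs hT hT0 hT0N hγT hΓT l (hlT l hl)
  have h3 := h1.sub h2
  rw [sub_zero] at h3
  refine h3.congr fun t => ?_
  rw [← sub_div, sub_sub_cancel]

/-- uniqueness of `T` -/
theorem T_unique (V T1 T2 : ℂ → ℂ) (D : ℕ) (a τ : ℂ) (hV : AnalyticAt ℂ V 0) (hD : 1 ≤ D)
    (ha : a ≠ 0) (hVa : Tendsto (fun t : ℂ => V t / t ^ D) (𝓝[≠] 0) (𝓝 a))
    (h1 : AnalyticAt ℂ T1 0) (h2 : AnalyticAt ℂ T2 0) (h10 : T1 0 = 0) (h20 : T2 0 = 0)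
    (hτ : τ ≠ 0) (d1 : deriv T1 0 = τ) (d2 : deriv T2 0 = τ)
    (he : ∀ᶠ t in 𝓝 (0 : ℂ), V (T1 t) = V (T2 t)) :
    ∀ᶠ t in 𝓝 (0 : ℂ), T1 t = T2 t := by
  obtain ⟨K, hK, hb⟩ := F8_sep hV hD ha hτ hVa (F8_quot h1 h10 d1) (F8_quot h2 h20 d2)
  have h3 : ∀ᶠ t in 𝓝[≠] (0:ℂ), T1 t = T2 t := by
    filter_upwards [hb, nhdsWithin_le_nhds he, self_mem_nhdsWithin] with t g1 g2 g3
    have ht0 : t ≠ 0 := g3
    have htpos : 0 < ‖t‖ ^ (D - 1) := pow_pos (norm_pos_iff.2 ht0) _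
    rw [g2, sub_self, norm_zero, mul_zero] at g1
    have h4 : ‖T1 t - T2 t‖ ≤ 0 := by
      by_contra h5
      push Not at h5
      have := mul_pos h5 htpos
      linarith
    exact sub_eq_zero.1 (norm_le_zero_iff.1 h4)
  rw [eventually_nhdsWithin_iff] at h3
  filter_upwards [h3] with t ht
  by_cases h0 : t = 0
  · rw [h0, h10, h20]
  · exact ht h0

end H24.LS
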