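import Pool.Agent.H24.LS.P0
import Pool.Agent.H24.LS.D3
import Pool.Agent.H24.LS.F0
import Pool.Agent.H24.LS.F5
import Pool.Agent.H24.LS.F6
import Pool.Agent.H24.LS.F7
import Pool.Agent.H24.LS.F8
import Pool.Agent.H24.LS.F9
import Pool.Agent.H24.LS.F10
import Pool.Agent.H24.LS.F11

/-!
# F12: the matching structure `MT` (assembly of F5 - F11; proved here)
-/

open Filter Topology Metric Asymptotics

namespace H24.LS

/-- everything that is known about the matching near one line: `T C` is the reparametrisation with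
`(g C t, t^N)` matched with `(ctr cl' γ' C (T C t), (T C t)^N)`. -/
structure MT (F G : ℂ × ℂ → ℂ) (k n N : ℕ) (u u' : ℂ) (c : ℕ) (m : Fin c → ℕ)
    (b : Fin c → ℝ) (g v : Fin c → ℂ → ℂ) (a : Fin c → ℂ) (D : Fin c → ℕ)
    (γ' : Fin n → ℂ → ℂ) (A B : ℂ × ℂ → ℂ × ℂ) (L ρ : ℝ) (α ω τ : ℂ)
    (cl' : Fin n → Fin c) (T : Fin c → ℂ → ℂ) : Prop where
  mat : Mat F G k n n N u u' c m b g v a D γ' A B L ρ
  hα : α ≠ 0
  hω : ω ≠ 0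
  hτ : τ ^ N = ω
  hrel : α ^ (n + 1) * ω ^ (k - 1 - n) * u' = u
  root1 : ∀ ε > (0 : ℝ), ∃ δ1 > (0 : ℝ), ∀ δ2 > (0 : ℝ), ∃ δ3 > (0 : ℝ), ∀ x y : ℂ,
    0 < ‖y‖ → ‖y‖ < δ3 → δ2 * ‖y‖ ≤ ‖x‖ → ‖x‖ ≤ δ1 * ‖y‖ →
    ‖(A (x, y)).1 - α * x‖ ≤ ε * ‖x‖
  root2 : ∀ ε > (0 : ℝ), ∃ δ > (0 : ℝ), ∀ x y : ℂ, ‖y‖ < δ → ‖x‖ ≤ δ * ‖y‖ →
    ‖(A (x, y)).2 - ω * y‖ ≤ ε * ‖y‖
  card : ∀ C, (Finset.univ.filter (fun l => cl' l = C)).card = m C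
  Tan : ∀ C, AnalyticAt ℂ (T C) 0
  Tz : ∀ C, T C 0 = 0
  Td : ∀ C, deriv (T C) 0 = τ
  val : ∀ C, ∀ᶠ t in 𝓝 (0 : ℂ), G (ctr cl' γ' C (T C t), T C t ^ N) = F (g C t, t ^ N)
  Ty : ∀ C, (fun t => T C t ^ N - (A (pt g N C t)).2) =O[𝓝[≠] 0] (fun t : ℂ => ‖t‖ ^ (b C))
  near : ∀ l, (fun t => γ' l (T (cl' l) t) - (A (pt g N (cl' l) t)).1)
    =O[𝓝[≠] 0] (fun t : ℂ => ‖t‖ ^ (b (cl' l)))
  vlim : ∀ l, Tendsto (fun t => dy G (γ' l (T (cl' l) t), T (cl' l) t ^ N) / v (cl' l) t)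
    (𝓝[≠] 0) (𝓝 ω⁻¹)
  xpair : ∀ C C', (fun t => (A (pt g N C t)).1 - (A (pt g N C' t)).1 - α * (g C t - g C' t))
    =o[𝓝[≠] 0] (fun t => g C t - g C' t)

theorem mt_exists {F G : ℂ × ℂ → ℂ} {k n n' N : ℕ} {u u' : ℂ} {c : ℕ} {m : Fin c → ℕ}
    {b : Fin c → ℝ} {g v : Fin c → ℂ → ℂ} {a : Fin c → ℂ} {D : Fin c → ℕ}
    {γ' : Fin n' → ℂ → ℂ} {A B : ℂ × ℂ → ℂ × ℂ} {L ρ : ℝ}
    (h : Mat F G k n n' N u u' c m b g v a D γ' A B L ρ) :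
    ∃ (γ'' : Fin n → ℂ → ℂ) (α ω τ : ℂ) (cl' : Fin n → Fin c) (T : Fin c → ℂ → ℂ),
      MT F G k n N u u' c m b g v a D γ'' A B L ρ α ω τ cl' T := by
  have hn' := nn h
  subst hn'
  obtain ⟨ω, hω, hlim, hr2⟩ := omega_exists h
  obtain ⟨τ, hτ⟩ := IsAlgClosed.exists_pow_nat_eq ω (n := N) h.hC.hN
  obtain ⟨cl', hcard, hO, -⟩ := sigma_exists h ω τ hω hτ hlim
  obtain ⟨α, hα, hrel, hr1⟩ := alpha_exists h ω hω hlim
  have hp := theta_prod h ω τ α hω hα hτ hrel hlim cl' hcard hO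
  have hth := theta_close h α hα hr1 cl' hp
  choose T hTan hTz hTd hval hTy hnear hvl using
    fun C => T_exists h ω τ hω hτ hlim cl' hcard hO C
  exact ⟨γ', α, ω, τ, cl', T,
    { mat := h
      hα := hα
      hω := hω
      hτ := hτ
      hrel := hrel
      root1 := hr1
      root2 := hr2
      card := hcard
      Tan := hTan
      Tz := hTz
      Td := hTd
      val := hval
      Ty := hTy
      near := fun l => hnear (cl' l) l rfl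
      vlim := fun l => hvl (cl' l) l rfl
      xpair := x_pair h α hth }⟩

end H24.LS
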