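import Pool.Agent.H24.LS.P0
import Pool.Agent.H24.LS.V0
import Pool.Agent.H24.LS.D3
import Pool.Agent.H24.LS.D6
import Pool.Agent.H24.LS.F0
import Pool.Agent.H24.LS.F8
import Pool.Agent.H24.LS.F12

/-!
# F13: consequences of the matching: positions of the arcs of `G` along `T C`, monodromy

Write `s_C = ‖t‖^(b C)`, `d = ‖g C t - g C' t‖`; for `C ≠ C'`: `s_C = o(d)`, `s_C' = o(d)` (`sep`).
* `root_diff`: `a^N - b^N = (a - b) Σ a^i b^(N-1-i)` and the sum is close to `N (τ t)^(N-1)`.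
* `mt_c`: `Σ m = n ≥ 1` so `c ≥ 1`.
* `mt_lim`: `T C` is analytic, `T C 0 = 0`, `T C' (0) = τ`.
* `mt_ctr`: average of `near` over the fibre (nonempty: `card`, `hm`).
* `mt_ypair`: `T C^N - T C'^N = (T C^N - (A pt C).2) - (T C'^N - (A pt C').2) + ((A pt C).2 - (A pt C').2)`, the first two
  are `O(s_C)`, `O(s_C')` (`Ty`), the last is `≤ L d` (`lipA`).
* `mt_move`: for every arc `l`: `γ'_l(T C t) - γ'_l(T C' t) = o(d)`: `mt_ypair`, `root_diff`, `slow_small`.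
* `mt_far`: `l` in the fibre of `C'' = cl' l ≠ C`:
  `γ'_l(T C) - (A pt C).1 = [γ'_l(T C) - γ'_l(T C'')] + [γ'_l(T C'') - (A pt C'').1] + [(A pt C'').1 - (A pt C).1]`
  `= o(d) + O(s_C'') + α (g C'' - g C) + o(d)`.
* `mt_inv`.  `σ` from `Clu.inv`, `π'` from `arc_perm` for `G` (with the same `ζ`): `γ'_{π' l}(t) = γ'_l(ζ t)`.  Fix `l`,
  `C = cl' l`, `T~(t) = ζ⁻¹ T C (ζ t)`.  `pt g N (σ C) t = pt g N C (ζ t)` for small `t`.  `near` at `ζ t`: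
  `γ'_{π' l}(T~ t) - (A (pt g N (σ C) t)).1 = O(s_{σ C})` (note `b (σ C) = b C`, `‖ζ‖ = 1`).  `Ty` at `ζ t`:
  `T~^N = (T C (ζ t))^N = (A (pt (σ C) t)).2 + O(s)`; so `T~^N - T (σ C)^N = O(s)` and (`root_diff`, `slow_small`)
  `γ'_{π' l}(T (σ C) t) - (A (pt (σ C) t)).1 = O(s_{σ C})`.  If `cl' (π' l) ≠ σ C` this contradicts `mt_far`
  (`‖α‖ d/2 ≤ O(s_{σ C}) = o(d)`).  So `cl' (π' l) = σ (cl' l)`; hence `ctr cl' γ' (σ C) t = ctr cl' γ' C (ζ t)` (`π'` is a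
  bijection of the fibre of `C` onto that of `σ C`).
  Let `V'(s) = G (ctr cl' γ' (σ C) s, s^N)`.  `V'(T~ t) = G (ctr C (ζ T~ t), (ζ T~ t)^N) = G (ctr C (T C (ζt)), (T C (ζt))^N)
  = F (g C (ζt), (ζt)^N) = F (g (σ C) t, t^N) = V'(T (σ C) t)` and `T~ 0 = 0`, `T~'(0) = τ`.  `T_unique` (with `V = V'`; the
  hypothesis on its leading term: `V'` is analytic, not `0` near `0` because `V'(T (σ C) t) = F (g (σ C) t, t^N)` is not,
  so `V' = s^{D'} h(s)`, `h(0) ≠ 0`; `D' ≥ 1` as `V'(0) = F(0) = 0` by `Vord`).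
-/

open Filter Topology Metric Asymptotics

namespace H24.LS

theorem root_diff (N : ℕ) (hN : 1 ≤ N) (τ : ℂ) (hτ : τ ≠ 0) :
    ∃ η > (0 : ℝ), ∃ K > (0 : ℝ), ∀ t a b : ℂ, ‖a - τ * t‖ ≤ η * ‖t‖ → ‖b - τ * t‖ ≤ η * ‖t‖ →
      ‖a - b‖ * ‖t‖ ^ (N - 1) ≤ K * ‖a ^ N - b ^ N‖ := by
  set f : ℂ × ℂ → ℂ := fun p => ∑ i ∈ Finset.range N, p.1 ^ i * p.2 ^ (N - 1 - i) with hf
  have hfc : Continuous f := by
    rw [hf]
    fun_prop
  have hfτ : f (τ, τ) = N * τ ^ (N - 1) := by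
    simp only [hf]
    rw [Finset.sum_congr rfl (g := fun _ => τ ^ (N - 1))]
    · simp
    · intro i hi
      rw [← pow_add]
      congr 1
      have := Finset.mem_range.1 hi
      omega
  have hN0 : (N : ℂ) ≠ 0 := by
    have : N ≠ 0 := by omega
    exact_mod_cast this
  have hpos : 0 < ‖f (τ, τ)‖ := by
    rw [hfτ]
    exact norm_pos_iff.2 (mul_ne_zero hN0 (pow_ne_zero _ hτ))
  have hev : ∀ᶠ p in 𝓝 (τ, τ), ‖f (τ, τ)‖ / 2 < ‖f p‖ :=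
    (hfc.norm.continuousAt (x := (τ, τ))).eventually_const_lt (half_lt_self hpos)
  obtain ⟨r, hr, hball⟩ := Metric.eventually_nhds_iff.1 hev
  refine ⟨r / 2, by positivity, 2 / ‖f (τ, τ)‖, by positivity, fun t a b ha hb => ?_⟩
  rcases eq_or_ne t 0 with rfl | ht
  · simp only [mul_zero, sub_zero, norm_zero] at ha hb
    have ha0 : a = 0 := norm_le_zero_iff.1 ha
    have hb0 : b = 0 := norm_le_zero_iff.1 hb
    rw [ha0, hb0, sub_self, sub_self, norm_zero]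
    simp
  · have htn : 0 < ‖t‖ := norm_pos_iff.2 ht
    have hscale : ∀ z : ℂ, ‖z - τ * t‖ ≤ r / 2 * ‖t‖ → dist (z / t) τ < r := by
      intro z hz
      rw [dist_eq_norm]
      have h1 : z / t - τ = (z - τ * t) / t := by field_simp
      rw [h1, norm_div, div_lt_iff₀ htn]
      nlinarith
    have h2 : dist (a / t, b / t) (τ, τ) < r := by
      rw [Prod.dist_eq]
      exact max_lt (hscale a ha) (hscale b hb)
    have h3 := hball h2
    have h4 : a ^ N - b ^ N = t ^ (N - 1) * f (a / t, b / t) * (a - b) := by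
      rw [← geom_sum₂_mul]
      congr 1
      simp only [hf]
      rw [Finset.mul_sum]
      refine Finset.sum_congr rfl fun i hi => ?_
      have hi' := Finset.mem_range.1 hi
      have h5 : t ^ (N - 1) = t ^ i * t ^ (N - 1 - i) := by
        rw [← pow_add]
        congr 1
        omega
      rw [h5, div_pow, div_pow]
      field_simp
    rw [h4, norm_mul, norm_mul, norm_pow]
    have h6 : ‖f (τ, τ)‖ ≤ 2 * ‖f (a / t, b / t)‖ := by linarith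
    have h7 : 0 ≤ ‖a - b‖ * ‖t‖ ^ (N - 1) := by positivity
    calc ‖a - b‖ * ‖t‖ ^ (N - 1) = (‖f (τ, τ)‖ / ‖f (τ, τ)‖) * (‖a - b‖ * ‖t‖ ^ (N - 1)) := by
          rw [div_self hpos.ne', one_mul]
      _ ≤ (2 * ‖f (a / t, b / t)‖ / ‖f (τ, τ)‖) * (‖a - b‖ * ‖t‖ ^ (N - 1)) := by
          gcongr
      _ = _ := by ring

theorem F13_tz (N : ℕ) (hN : 1 ≤ N) : Tendsto (fun t : ℂ => t ^ N) (𝓝[≠] 0) (𝓝 0) := by
  have h : Tendsto (fun t : ℂ => t ^ N) (𝓝 0) (𝓝 (0 ^ N)) := (continuous_pow N).tendsto 0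
  rw [zero_pow (by omega)] at h
  exact h.mono_left nhdsWithin_le_nhds

theorem F13_zero (N : ℕ) (hN : 1 ≤ N) (φ : ℂ → ℂ) (hφ : AnalyticAt ℂ φ 0)
    (hs : φ =o[𝓝[≠] 0] (fun t : ℂ => t ^ N)) : φ 0 = 0 := by
  have h1 : Tendsto φ (𝓝[≠] 0) (𝓝 (φ 0)) := hφ.continuousAt.tendsto.mono_left nhdsWithin_le_nhds
  have h2 : Tendsto φ (𝓝[≠] 0) (𝓝 0) := hs.trans_tendsto (F13_tz N hN)
  exact tendsto_nhds_unique h1 h2

theorem F13_der (f : ℂ → ℂ) (τ : ℂ) (hf : AnalyticAt ℂ f 0) (h0 : f 0 = 0) (hd : deriv f 0 = τ) :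
    (fun t => f t - τ * t) =o[𝓝[≠] 0] (fun t : ℂ => t) := by
  have h1 := hf.differentiableAt.hasDerivAt
  rw [hd, hasDerivAt_iff_isLittleO] at h1
  have h2 := h1.mono (nhdsWithin_le_nhds (s := {(0 : ℂ)}ᶜ))
  refine (h2.congr_left fun t => ?_).congr_right fun t => ?_
  · rw [h0, sub_zero, sub_zero, smul_eq_mul]
    ring
  · simp

theorem F13_slow {E : Type*} [NormedAddCommGroup E] (N : ℕ) (hN : 1 ≤ N) (τ : ℂ) (hτ : τ ≠ 0)
    (φ : ℂ → ℂ) (hφ : AnalyticAt ℂ φ 0) (hs : φ =o[𝓝[≠] 0] (fun t : ℂ => t ^ N))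
    (f1 f2 : ℂ → ℂ) (h1 : (fun t => f1 t - τ * t) =o[𝓝[≠] 0] (fun t : ℂ => t))
    (h2 : (fun t => f2 t - τ * t) =o[𝓝[≠] 0] (fun t : ℂ => t)) (s : ℂ → E)
    (hO : (fun t => f1 t ^ N - f2 t ^ N) =O[𝓝[≠] 0] s) :
    (fun t => φ (f1 t) - φ (f2 t)) =o[𝓝[≠] 0] s := by
  obtain ⟨η, hη, K, hK, hroot⟩ := root_diff N hN τ hτ
  obtain ⟨C, hC, hOC⟩ := hO.exists_pos
  have hτn : 0 < ‖τ‖ := norm_pos_iff.2 hτ
  rw [isLittleO_iff]
  intro ε hε
  obtain ⟨δ, hδ, hslow⟩ := slow_small N hN φ hφ hs (ε / ((2 * ‖τ‖) ^ (N - 1) * K * C))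
    (by positivity)
  have hη' : 0 < min η (‖τ‖ / 8) := by positivity
  have hsmall : ∀ᶠ t in 𝓝[≠] (0 : ℂ), ‖t‖ < δ / (2 * ‖τ‖) := by
    refine nhdsWithin_le_nhds ?_
    have : Metric.ball (0 : ℂ) (δ / (2 * ‖τ‖)) ∈ 𝓝 (0 : ℂ) := Metric.ball_mem_nhds _ (by positivity)
    filter_upwards [this] with t ht
    simpa using ht
  filter_upwards [isLittleO_iff.1 h1 hη', isLittleO_iff.1 h2 hη', hOC.bound, hsmall,
    self_mem_nhdsWithin] with t t1 t2 t3 t4 t5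
  have htn : 0 < ‖t‖ := norm_pos_iff.2 t5
  have a1 : ‖f1 t - τ * t‖ ≤ η * ‖t‖ := t1.trans (by gcongr; exact min_le_left _ _)
  have a2 : ‖f2 t - τ * t‖ ≤ η * ‖t‖ := t2.trans (by gcongr; exact min_le_left _ _)
  have b1 : ‖f1 t - τ * t‖ ≤ ‖τ‖ / 8 * ‖t‖ := t1.trans (by gcongr; exact min_le_right _ _)
  have b2 : ‖f2 t - τ * t‖ ≤ ‖τ‖ / 8 * ‖t‖ := t2.trans (by gcongr; exact min_le_right _ _)
  have htt : 0 < ‖τ‖ * ‖t‖ := by positivity
  have hn2 : ‖f2 t‖ ≤ 2 * ‖τ‖ * ‖t‖ := by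
    have := norm_le_norm_add_norm_sub' (f2 t) (τ * t)
    rw [norm_mul] at this
    nlinarith
  have hn2' : 7 / 8 * (‖τ‖ * ‖t‖) ≤ ‖f2 t‖ := by
    have := norm_sub_norm_le (τ * t) (f2 t)
    rw [norm_mul, norm_sub_rev] at this
    nlinarith
  have hdiff : ‖f1 t - f2 t‖ ≤ ‖f2 t‖ / 2 := by
    have h3 : f1 t - f2 t = (f1 t - τ * t) - (f2 t - τ * t) := by ring
    have h4 := norm_sub_le (f1 t - τ * t) (f2 t - τ * t)
    rw [← h3] at h4
    nlinarith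
  have hlt : ‖f2 t‖ < δ := by
    refine lt_of_le_of_lt hn2 ?_
    rw [lt_div_iff₀ (by positivity)] at t4
    linarith
  have h5 := hslow (f2 t) (f1 t) (by nlinarith) hlt hdiff
  have h6 := hroot t (f1 t) (f2 t) a1 a2
  calc ‖φ (f1 t) - φ (f2 t)‖
      ≤ ε / ((2 * ‖τ‖) ^ (N - 1) * K * C) * ‖f2 t‖ ^ (N - 1) * ‖f1 t - f2 t‖ := h5
    _ ≤ ε / ((2 * ‖τ‖) ^ (N - 1) * K * C) * (2 * ‖τ‖ * ‖t‖) ^ (N - 1) * ‖f1 t - f2 t‖ := by
        gcongr
    _ = ε / (K * C) * (‖f1 t - f2 t‖ * ‖t‖ ^ (N - 1)) := by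
        rw [mul_pow (2 * ‖τ‖) ‖t‖]
        field_simp
    _ ≤ ε / (K * C) * (K * (C * ‖s t‖)) := by
        exact mul_le_mul_of_nonneg_left (h6.trans (mul_le_mul_of_nonneg_left t3 hK.le))
          (by positivity)
    _ = ε * ‖s t‖ := by field_simp

theorem mt_c {F G : ℂ × ℂ → ℂ} {k n N : ℕ} {u u' : ℂ} {c : ℕ} {m : Fin c → ℕ}
    {b : Fin c → ℝ} {g v : Fin c → ℂ → ℂ} {a : Fin c → ℂ} {D : Fin c → ℕ}
    {γ' : Fin n → ℂ → ℂ} {A B : ℂ × ℂ → ℂ × ℂ} {L ρ : ℝ} {α ω τ : ℂ}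
    {cl' : Fin n → Fin c} {T : Fin c → ℂ → ℂ}
    (h : MT F G k n N u u' c m b g v a D γ' A B L ρ α ω τ cl' T) : 1 ≤ c := by
  by_contra hc
  have hc0 : c = 0 := by omega
  subst hc0
  have h1 := h.mat.hC.hmn
  have h2 := h.mat.hn
  simp at h1
  omega

theorem F13_τ {F G : ℂ × ℂ → ℂ} {k n N : ℕ} {u u' : ℂ} {c : ℕ} {m : Fin c → ℕ}
    {b : Fin c → ℝ} {g v : Fin c → ℂ → ℂ} {a : Fin c → ℂ} {D : Fin c → ℕ}
    {γ' : Fin n → ℂ → ℂ} {A B : ℂ × ℂ → ℂ × ℂ} {L ρ : ℝ} {α ω τ : ℂ}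
    {cl' : Fin n → Fin c} {T : Fin c → ℂ → ℂ}
    (h : MT F G k n N u u' c m b g v a D γ' A B L ρ α ω τ cl' T) : τ ≠ 0 := by
  intro h0
  have h1 := h.hτ
  have h2 := h.mat.hC.hN
  rw [h0, zero_pow (by omega)] at h1
  exact h.hω h1.symm

theorem F13_T {F G : ℂ × ℂ → ℂ} {k n N : ℕ} {u u' : ℂ} {c : ℕ} {m : Fin c → ℕ}
    {b : Fin c → ℝ} {g v : Fin c → ℂ → ℂ} {a : Fin c → ℂ} {D : Fin c → ℕ}
    {γ' : Fin n → ℂ → ℂ} {A B : ℂ × ℂ → ℂ × ℂ} {L ρ : ℝ} {α ω τ : ℂ}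
    {cl' : Fin n → Fin c} {T : Fin c → ℂ → ℂ}
    (h : MT F G k n N u u' c m b g v a D γ' A B L ρ α ω τ cl' T) (C : Fin c) : (fun t => T C t - τ * t) =o[𝓝[≠] 0] (fun t : ℂ => t) :=
  F13_der (T C) τ (h.Tan C) (h.Tz C) (h.Td C)

theorem mt_lim {F G : ℂ × ℂ → ℂ} {k n N : ℕ} {u u' : ℂ} {c : ℕ} {m : Fin c → ℕ}
    {b : Fin c → ℝ} {g v : Fin c → ℂ → ℂ} {a : Fin c → ℂ} {D : Fin c → ℕ}
    {γ' : Fin n → ℂ → ℂ} {A B : ℂ × ℂ → ℂ × ℂ} {L ρ : ℝ} {α ω τ : ℂ}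
    {cl' : Fin n → Fin c} {T : Fin c → ℂ → ℂ}
    (h : MT F G k n N u u' c m b g v a D γ' A B L ρ α ω τ cl' T) (C : Fin c) :
    Tendsto (fun t => T C t / t) (𝓝[≠] 0) (𝓝 τ) := by
  have h1 := (F13_T h C).tendsto_div_nhds_zero
  have h2 : Tendsto (fun t => (T C t - τ * t) / t + τ) (𝓝[≠] 0) (𝓝 (0 + τ)) :=
    h1.add tendsto_const_nhds
  rw [zero_add] at h2
  refine h2.congr' ?_
  filter_upwards [self_mem_nhdsWithin] with t ht
  have ht0 : t ≠ 0 := ht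
  field_simp
  ring

theorem F13_mul {F G : ℂ × ℂ → ℂ} {k n N : ℕ} {u u' : ℂ} {c : ℕ} {m : Fin c → ℕ}
    {b : Fin c → ℝ} {g v : Fin c → ℂ → ℂ} {a : Fin c → ℂ} {D : Fin c → ℕ}
    {γ' : Fin n → ℂ → ℂ} {A B : ℂ × ℂ → ℂ × ℂ} {L ρ : ℝ} {α ω τ : ℂ}
    {cl' : Fin n → Fin c} {T : Fin c → ℂ → ℂ}
    (h : MT F G k n N u u' c m b g v a D γ' A B L ρ α ω τ cl' T) (C : Fin c) : mul cl' C = m C := by
  rw [← h.card C]
  unfold mul
  congr

theorem mt_ctr {F G : ℂ × ℂ → ℂ} {k n N : ℕ} {u u' : ℂ} {c : ℕ} {m : Fin c → ℕ}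
    {b : Fin c → ℝ} {g v : Fin c → ℂ → ℂ} {a : Fin c → ℂ} {D : Fin c → ℕ}
    {γ' : Fin n → ℂ → ℂ} {A B : ℂ × ℂ → ℂ × ℂ} {L ρ : ℝ} {α ω τ : ℂ}
    {cl' : Fin n → Fin c} {T : Fin c → ℂ → ℂ}
    (h : MT F G k n N u u' c m b g v a D γ' A B L ρ α ω τ cl' T) (C : Fin c) :
    (fun t => ctr cl' γ' C (T C t) - (A (pt g N C t)).1)
      =O[𝓝[≠] 0] (fun t : ℂ => ‖t‖ ^ (b C)) := by
  classical
  have hm : mul cl' C = m C := F13_mul h C
  have hm1 : (mul cl' C : ℂ) ≠ 0 := by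
    have := h.mat.hC.hm C
    rw [hm]
    exact_mod_cast (by omega : m C ≠ 0)
  have h2 := (IsBigO.sum (l := 𝓝[≠] (0 : ℂ)) (g := fun t : ℂ => ‖t‖ ^ (b C))
      (s := Finset.univ.filter (fun l => cl' l = C))
      (A := fun l t => γ' l (T C t) - (A (pt g N C t)).1)
      (fun l hl => by
        have hl' := (Finset.mem_filter.1 hl).2
        have h3 := h.near l
        rw [hl'] at h3
        exact h3)).const_mul_left ((mul cl' C : ℂ)⁻¹)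
  refine h2.congr_left fun t => ?_
  rw [Finset.sum_apply, Finset.sum_sub_distrib, Finset.sum_const, nsmul_eq_mul]
  have h4 : ((Finset.univ.filter (fun l => cl' l = C)).card : ℂ) = (mul cl' C : ℂ) := by
    unfold mul
    congr
  rw [h4]
  unfold ctr
  field_simp

theorem F13_pt {F G : ℂ × ℂ → ℂ} {k n N : ℕ} {u u' : ℂ} {c : ℕ} {m : Fin c → ℕ}
    {b : Fin c → ℝ} {g v : Fin c → ℂ → ℂ} {a : Fin c → ℂ} {D : Fin c → ℕ}
    {γ' : Fin n → ℂ → ℂ} {A B : ℂ × ℂ → ℂ × ℂ} {L ρ : ℝ} {α ω τ : ℂ}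
    {cl' : Fin n → Fin c} {T : Fin c → ℂ → ℂ}
    (h : MT F G k n N u u' c m b g v a D γ' A B L ρ α ω τ cl' T) (C : Fin c) : Tendsto (fun t => pt g N C t) (𝓝[≠] 0) (𝓝 0) := by
  have h1 : Tendsto (g C) (𝓝[≠] 0) (𝓝 0) := (h.mat.hC.gsm C).trans_tendsto (F13_tz N h.mat.hC.hN)
  have h2 := h1.prodMk_nhds (F13_tz N h.mat.hC.hN)
  exact h2

theorem F13_lip {F G : ℂ × ℂ → ℂ} {k n N : ℕ} {u u' : ℂ} {c : ℕ} {m : Fin c → ℕ}
    {b : Fin c → ℝ} {g v : Fin c → ℂ → ℂ} {a : Fin c → ℂ} {D : Fin c → ℕ}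
    {γ' : Fin n → ℂ → ℂ} {A B : ℂ × ℂ → ℂ × ℂ} {L ρ : ℝ} {α ω τ : ℂ}
    {cl' : Fin n → Fin c} {T : Fin c → ℂ → ℂ}
    (h : MT F G k n N u u' c m b g v a D γ' A B L ρ α ω τ cl' T) (C C' : Fin c) :
    (fun t => A (pt g N C t) - A (pt g N C' t)) =O[𝓝[≠] 0] (fun t => g C t - g C' t) := by
  refine IsBigO.of_bound L ?_
  have hρ := h.mat.hco.hρ
  have h1 := (F13_pt h C).eventually (Metric.ball_mem_nhds (0 : ℂ × ℂ) hρ)
  have h2 := (F13_pt h C').eventually (Metric.ball_mem_nhds (0 : ℂ × ℂ) hρ)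
  filter_upwards [h1, h2] with t t1 t2
  refine (h.mat.hco.lipA _ t1 _ t2).trans (le_of_eq ?_)
  congr 1
  have h3 : pt g N C t - pt g N C' t = (g C t - g C' t, 0) := by
    unfold pt
    rw [Prod.mk_sub_mk, sub_self]
  rw [h3, Prod.norm_def, norm_zero]
  exact max_eq_left (norm_nonneg _)

theorem mt_ypair {F G : ℂ × ℂ → ℂ} {k n N : ℕ} {u u' : ℂ} {c : ℕ} {m : Fin c → ℕ}
    {b : Fin c → ℝ} {g v : Fin c → ℂ → ℂ} {a : Fin c → ℂ} {D : Fin c → ℕ}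
    {γ' : Fin n → ℂ → ℂ} {A B : ℂ × ℂ → ℂ × ℂ} {L ρ : ℝ} {α ω τ : ℂ}
    {cl' : Fin n → Fin c} {T : Fin c → ℂ → ℂ}
    (h : MT F G k n N u u' c m b g v a D γ' A B L ρ α ω τ cl' T) (C C' : Fin c) :
    (fun t => T C t ^ N - T C' t ^ N) =O[𝓝[≠] 0] (fun t => g C t - g C' t) := by
  by_cases hne : C = C'
  · subst hne
    refine (isBigO_zero _ _).congr_left fun t => ?_
    rw [sub_self]
  · have h1 := (h.Ty C).trans_isLittleO (h.mat.hC.sep C C' hne)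
    have h2 := (h.Ty C').trans_isLittleO (h.mat.hC.sep C' C (Ne.symm hne))
    have h2' : (fun t => T C' t ^ N - (A (pt g N C' t)).2) =o[𝓝[≠] 0]
        (fun t => g C t - g C' t) :=
      (h2.norm_right.congr_right fun t => norm_sub_rev _ _).of_norm_right
    have h3 : (fun t => (A (pt g N C t)).2 - (A (pt g N C' t)).2) =O[𝓝[≠] 0]
        (fun t => g C t - g C' t) := by
      refine IsBigO.trans (IsBigO.of_bound 1 (Eventually.of_forall fun t => ?_)) (F13_lip h C C')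
      rw [one_mul]
      exact norm_snd_le (A (pt g N C t) - A (pt g N C' t))
    have h4 := (h1.isBigO.sub h2'.isBigO).add h3
    refine h4.congr_left fun t => ?_
    ring

theorem mt_move {F G : ℂ × ℂ → ℂ} {k n N : ℕ} {u u' : ℂ} {c : ℕ} {m : Fin c → ℕ}
    {b : Fin c → ℝ} {g v : Fin c → ℂ → ℂ} {a : Fin c → ℂ} {D : Fin c → ℕ}
    {γ' : Fin n → ℂ → ℂ} {A B : ℂ × ℂ → ℂ × ℂ} {L ρ : ℝ} {α ω τ : ℂ}
    {cl' : Fin n → Fin c} {T : Fin c → ℂ → ℂ}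
    (h : MT F G k n N u u' c m b g v a D γ' A B L ρ α ω τ cl' T) (C C' : Fin c) (l : Fin n) :
    (fun t => γ' l (T C t) - γ' l (T C' t)) =o[𝓝[≠] 0] (fun t => g C t - g C' t) :=
  F13_slow N h.mat.hC.hN τ (F13_τ h) (γ' l) (h.mat.hG.γan l) (h.mat.hG.γsm l) (T C) (T C')
    (F13_T h C) (F13_T h C') _ (mt_ypair h C C')

theorem mt_far {F G : ℂ × ℂ → ℂ} {k n N : ℕ} {u u' : ℂ} {c : ℕ} {m : Fin c → ℕ}
    {b : Fin c → ℝ} {g v : Fin c → ℂ → ℂ} {a : Fin c → ℂ} {D : Fin c → ℕ}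
    {γ' : Fin n → ℂ → ℂ} {A B : ℂ × ℂ → ℂ × ℂ} {L ρ : ℝ} {α ω τ : ℂ}
    {cl' : Fin n → Fin c} {T : Fin c → ℂ → ℂ}
    (h : MT F G k n N u u' c m b g v a D γ' A B L ρ α ω τ cl' T) (C : Fin c) (l : Fin n) (hne : cl' l ≠ C) :
    (fun t => γ' l (T C t) - (A (pt g N C t)).1 - α * (g (cl' l) t - g C t))
      =o[𝓝[≠] 0] (fun t => g (cl' l) t - g C t) := by
  have h1 := mt_move h C (cl' l) l
  have h1' : (fun t => γ' l (T C t) - γ' l (T (cl' l) t)) =o[𝓝[≠] 0]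
      (fun t => g (cl' l) t - g C t) :=
    (h1.norm_right.congr_right fun t => norm_sub_rev _ _).of_norm_right
  have h2 := (h.near l).trans_isLittleO (h.mat.hC.sep (cl' l) C hne)
  have h3 := h.xpair (cl' l) C
  refine ((h1'.add h2).add h3).congr_left fun t => ?_
  ring

theorem F13_rot {ζ : ℂ} (hζ0 : ζ ≠ 0) {P : ℂ → Prop} (hP : ∀ᶠ t in 𝓝 (0 : ℂ), P t) :
    ∀ᶠ t in 𝓝 (0 : ℂ), P (ζ * t) := by
  have h1 : Tendsto (fun t : ℂ => ζ * t) (𝓝 0) (𝓝 (ζ * 0)) :=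
    (continuous_const.mul continuous_id).tendsto 0
  rw [mul_zero] at h1
  exact h1.eventually hP

/-- the arc `π' l` of `G` lies in the cluster `σ (cl' l)` -/
theorem F13_cl {F G : ℂ × ℂ → ℂ} {k n N : ℕ} {u u' : ℂ} {c : ℕ} {m : Fin c → ℕ}
    {b : Fin c → ℝ} {g v : Fin c → ℂ → ℂ} {a : Fin c → ℂ} {D : Fin c → ℕ}
    {γ' : Fin n → ℂ → ℂ} {A B : ℂ × ℂ → ℂ × ℂ} {L ρ : ℝ} {α ω τ : ℂ}
    {cl' : Fin n → Fin c} {T : Fin c → ℂ → ℂ}
    (h : MT F G k n N u u' c m b g v a D γ' A B L ρ α ω τ cl' T) (ζ : ℂ) (hζ : ζ ^ N = 1) (σ : Equiv.Perm (Fin c))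
    (hσ : ∀ C, m (σ C) = m C ∧ b (σ C) = b C ∧ ∀ᶠ t in 𝓝 (0 : ℂ), g (σ C) t = g C (ζ * t))
    (π : Equiv.Perm (Fin n)) (hπ : ∀ l, ∀ᶠ t in 𝓝 (0 : ℂ), γ' (π l) t = γ' l (ζ * t))
    (l : Fin n) : cl' (π l) = σ (cl' l) := by
  have hN := h.mat.hC.hN
  have hζn : ‖ζ‖ = 1 := Complex.norm_eq_one_of_pow_eq_one hζ (by omega)
  have hζ0 : ζ ≠ 0 := by
    rintro rfl
    rw [norm_zero] at hζn
    exact zero_ne_one hζn
  have hrot := D6aux.rot_tendsto hζ0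
  set C := cl' l with hC
  obtain ⟨-, hbC, hgC⟩ := hσ C
  -- points
  have hpt : ∀ᶠ t in 𝓝[≠] (0 : ℂ), pt g N C (ζ * t) = pt g N (σ C) t := by
    filter_upwards [nhdsWithin_le_nhds hgC] with t ht
    unfold pt
    rw [ht, mul_pow, hζ, one_mul]
  have hnorm : ∀ t : ℂ, ‖ζ * t‖ = ‖t‖ := fun t => by rw [norm_mul, hζn, one_mul]
  -- the rotated reparametrisation
  set T' : ℂ → ℂ := fun t => ζ⁻¹ * T C (ζ * t) with hT'
  have hT'N : ∀ t, T' t ^ N = T C (ζ * t) ^ N := by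
    intro t
    simp only [hT']
    rw [mul_pow, inv_pow, hζ, inv_one, one_mul]
  have hT'o : (fun t => T' t - τ * t) =o[𝓝[≠] 0] (fun t : ℂ => t) := by
    have h1 := ((F13_T h C).comp_tendsto hrot).const_mul_left ζ⁻¹
    have h2 : (fun t => ζ⁻¹ * ((fun t => T C t - τ * t) ∘ fun t => ζ * t) t) =o[𝓝[≠] 0]
        (fun t : ℂ => t) := by
      refine h1.trans_isBigO (IsBigO.of_bound 1 (Eventually.of_forall fun t => ?_))
      rw [one_mul]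
      exact (hnorm t).le
    refine h2.congr_left fun t => ?_
    simp only [hT', Function.comp_apply]
    field_simp
  have hT'0 : Tendsto T' (𝓝[≠] 0) (𝓝 0) := by
    have h1 : (fun t => T' t - τ * t + τ * t) =O[𝓝[≠] 0] (fun t : ℂ => t) :=
      hT'o.isBigO.add (isBigO_const_mul_self τ (fun t : ℂ => t) _)
    have h2 : T' =O[𝓝[≠] 0] (fun t : ℂ => t) := h1.congr_left fun t => by ring
    refine h2.trans_tendsto ?_
    exact tendsto_id.mono_left nhdsWithin_le_nhds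
  -- near and Ty at the rotated point
  have hnear : (fun t => γ' (π l) (T' t) - (A (pt g N (σ C) t)).1) =O[𝓝[≠] 0]
      (fun t : ℂ => ‖t‖ ^ (b (σ C))) := by
    have h1 := (h.near l).comp_tendsto hrot
    refine h1.congr' ?_ ?_
    · filter_upwards [hpt, hT'0.eventually (hπ l)] with t t1 t2
      simp only [Function.comp_apply]
      rw [← hC, t1, t2]
      congr 2
      simp only [hT']
      rw [mul_inv_cancel_left₀ hζ0]
    · refine Eventually.of_forall fun t => ?_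
      simp only [Function.comp_apply]
      rw [hnorm, ← hC, hbC]
  have hy : (fun t => T' t ^ N - T (σ C) t ^ N) =O[𝓝[≠] 0] (fun t : ℂ => ‖t‖ ^ (b (σ C))) := by
    have h1 := (h.Ty C).comp_tendsto hrot
    have h2 : (fun t => T' t ^ N - (A (pt g N (σ C) t)).2) =O[𝓝[≠] 0]
        (fun t : ℂ => ‖t‖ ^ (b (σ C))) := by
      refine h1.congr' ?_ ?_
      · filter_upwards [hpt] with t t1
        simp only [Function.comp_apply]
        rw [t1, hT'N]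
      · refine Eventually.of_forall fun t => ?_
        simp only [Function.comp_apply]
        rw [hnorm, hbC]
    refine (h2.sub (h.Ty (σ C))).congr_left fun t => ?_
    ring
  have hmove := F13_slow N hN τ (F13_τ h) (γ' (π l)) (h.mat.hG.γan _) (h.mat.hG.γsm _) T' (T (σ C))
    hT'o (F13_T h (σ C)) _ hy
  have hstar : (fun t => γ' (π l) (T (σ C) t) - (A (pt g N (σ C) t)).1) =O[𝓝[≠] 0]
      (fun t : ℂ => ‖t‖ ^ (b (σ C))) := by
    refine (hnear.sub hmove.isBigO).congr_left fun t => ?_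
    ring
  by_contra hne
  have hfar := mt_far h (σ C) (π l) hne
  have hsep := h.mat.hC.sep (σ C) (cl' (π l)) (Ne.symm hne)
  have hsep' : (fun t : ℂ => ‖t‖ ^ (b (σ C))) =o[𝓝[≠] 0]
      (fun t => g (cl' (π l)) t - g (σ C) t) :=
    (hsep.norm_right.congr_right fun t => norm_sub_rev _ _).of_norm_right
  have h1 := hstar.trans_isLittleO hsep'
  have h2 : (fun t => α * (g (cl' (π l)) t - g (σ C) t)) =o[𝓝[≠] 0]
      (fun t => g (cl' (π l)) t - g (σ C) t) := by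
    refine (h1.sub hfar).congr_left fun t => ?_
    ring
  have h3 : (fun t => g (cl' (π l)) t - g (σ C) t) =o[𝓝[≠] 0]
      (fun t => g (cl' (π l)) t - g (σ C) t) := by
    refine (h2.const_mul_left α⁻¹).congr_left fun t => ?_
    rw [inv_mul_cancel_left₀ h.hα]
  refine isLittleO_irrefl' ?_ h3
  refine Eventually.frequently ?_
  filter_upwards [isLittleO_iff.1 hsep' one_pos, self_mem_nhdsWithin] with t t1 t2 t3
  rw [t3, mul_zero] at t1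
  have t4 : 0 < ‖t‖ ^ (b (σ C)) := Real.rpow_pos_of_pos (norm_pos_iff.2 t2) _
  rw [Real.norm_eq_abs, abs_of_pos t4] at t1
  linarith

theorem F13_ctr {n c : ℕ} (cl : Fin n → Fin c) (γ : Fin n → ℂ → ℂ) (σ : Equiv.Perm (Fin c))
    (π : Equiv.Perm (Fin n)) (hcl : ∀ l, cl (π l) = σ (cl l)) (ζ t : ℂ)
    (hπ : ∀ l, γ (π l) t = γ l (ζ * t)) (C : Fin c) :
    ctr cl γ (σ C) t = ctr cl γ C (ζ * t) := by
  classical
  have hmem : ∀ l, cl (π l) = σ C ↔ cl l = C := by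
    intro l
    rw [hcl]
    exact σ.injective.eq_iff
  have hmul : mul cl (σ C) = mul cl C := by
    unfold mul
    symm
    refine Finset.card_bij (fun l _ => π l) ?_ ?_ ?_
    · intro l hl
      rw [Finset.mem_filter] at hl ⊢
      exact ⟨Finset.mem_univ _, (hmem l).2 hl.2⟩
    · intro l _ l' _ he
      exact π.injective he
    · intro l hl
      rw [Finset.mem_filter] at hl
      refine ⟨π.symm l, ?_, π.apply_symm_apply l⟩
      rw [Finset.mem_filter]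
      refine ⟨Finset.mem_univ _, (hmem _).1 ?_⟩
      rw [π.apply_symm_apply]
      exact hl.2
  unfold ctr
  rw [hmul]
  congr 1
  symm
  refine Finset.sum_bij (fun l _ => π l) ?_ ?_ ?_ ?_
  · intro l hl
    rw [Finset.mem_filter] at hl ⊢
    exact ⟨Finset.mem_univ _, (hmem l).2 hl.2⟩
  · intro l _ l' _ he
    exact π.injective he
  · intro l hl
    rw [Finset.mem_filter] at hl
    refine ⟨π.symm l, ?_, π.apply_symm_apply l⟩
    rw [Finset.mem_filter]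
    refine ⟨Finset.mem_univ _, (hmem _).1 ?_⟩
    rw [π.apply_symm_apply]
    exact hl.2
  · intro l _
    exact (hπ l).symm

theorem mt_inv {F G : ℂ × ℂ → ℂ} {k n N : ℕ} {u u' : ℂ} {c : ℕ} {m : Fin c → ℕ}
    {b : Fin c → ℝ} {g v : Fin c → ℂ → ℂ} {a : Fin c → ℂ} {D : Fin c → ℕ}
    {γ' : Fin n → ℂ → ℂ} {A B : ℂ × ℂ → ℂ × ℂ} {L ρ : ℝ} {α ω τ : ℂ}
    {cl' : Fin n → Fin c} {T : Fin c → ℂ → ℂ}
    (h : MT F G k n N u u' c m b g v a D γ' A B L ρ α ω τ cl' T) (ζ : ℂ) (hζ : ζ ^ N = 1) :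
    ∃ σ : Equiv.Perm (Fin c), ∀ C, m (σ C) = m C ∧ b (σ C) = b C ∧
      ∀ᶠ t in 𝓝 (0 : ℂ), g (σ C) t = g C (ζ * t) ∧
        ctr cl' γ' (σ C) t = ctr cl' γ' C (ζ * t) ∧ T (σ C) t = ζ⁻¹ * T C (ζ * t) := by
  have hN := h.mat.hC.hN
  have hζn : ‖ζ‖ = 1 := Complex.norm_eq_one_of_pow_eq_one hζ (by omega)
  have hζ0 : ζ ≠ 0 := by
    rintro rfl
    rw [norm_zero] at hζn
    exact zero_ne_one hζn
  obtain ⟨σ, hσ⟩ := h.mat.hC.inv ζ hζ
  obtain ⟨π, hπ⟩ := arc_perm h.mat.hG ζ hζ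
  have hcl := F13_cl h ζ hζ σ hσ π hπ
  refine ⟨σ, fun C => ⟨(hσ C).1, (hσ C).2.1, ?_⟩⟩
  have hctr : ∀ᶠ t in 𝓝 (0 : ℂ), ctr cl' γ' (σ C) t = ctr cl' γ' C (ζ * t) := by
    filter_upwards [eventually_all.2 hπ] with t ht
    exact F13_ctr cl' γ' σ π hcl ζ t ht C
  -- the function `V'`
  set V : ℂ → ℂ := fun s => G (ctr cl' γ' (σ C) s, s ^ N) with hV
  have hcan := ctr_an cl' γ' h.mat.hG.γan (σ C)
  have hc0 := F13_zero N hN _ hcan (ctr_sm N cl' γ' h.mat.hG.γsm (σ C))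
  have hVan : AnalyticAt ℂ V 0 := by
    have h1 : AnalyticAt ℂ (fun s : ℂ => (ctr cl' γ' (σ C) s, s ^ N)) 0 :=
      hcan.prod (analyticAt_id.pow N)
    have h2 : AnalyticAt ℂ G ((fun s : ℂ => (ctr cl' γ' (σ C) s, s ^ N)) 0) := by
      simp only
      rw [hc0, zero_pow (by omega)]
      exact h.mat.hG.an
    exact AnalyticAt.comp (g := G) (f := fun s : ℂ => (ctr cl' γ' (σ C) s, s ^ N)) (x := 0) h2 h1
  set T' : ℂ → ℂ := fun t => ζ⁻¹ * T C (ζ * t) with hT'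
  have hT'an : AnalyticAt ℂ T' 0 := by
    have h1 : AnalyticAt ℂ (fun t : ℂ => ζ * t) 0 := analyticAt_const.mul analyticAt_id
    have h2 : AnalyticAt ℂ (T C) ((fun t : ℂ => ζ * t) 0) := by
      simp only [mul_zero]
      exact h.Tan C
    exact analyticAt_const.mul (h2.comp h1)
  have hT'z : T' 0 = 0 := by
    simp only [hT', mul_zero]
    rw [h.Tz C, mul_zero]
  have hT'd : deriv T' 0 = τ := by
    have h1 : HasDerivAt (T C) τ (ζ * 0) := by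
      rw [mul_zero, ← h.Td C]
      exact (h.Tan C).differentiableAt.hasDerivAt
    have h2 : HasDerivAt (fun t : ℂ => ζ * t) ζ 0 := by
      simpa using (hasDerivAt_id (0 : ℂ)).const_mul ζ
    have h3 : HasDerivAt (fun t : ℂ => T C (ζ * t)) (τ * ζ) 0 := h1.comp 0 h2
    have h4 := (h3.const_mul ζ⁻¹).deriv
    simp only [hT']
    rw [h4]
    field_simp
  have hT't : Tendsto T' (𝓝 0) (𝓝 0) := by
    have := hT'an.continuousAt.tendsto
    rwa [hT'z] at this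
  have hTt : Tendsto (T (σ C)) (𝓝 0) (𝓝 0) := by
    have := (h.Tan (σ C)).continuousAt.tendsto
    rwa [h.Tz] at this
  have he : ∀ᶠ t in 𝓝 (0 : ℂ), V (T' t) = V (T (σ C) t) := by
    filter_upwards [hT't.eventually hctr, F13_rot hζ0 (h.val C), h.val (σ C), (hσ C).2.2] with
      t t1 t2 t3 t4
    simp only [hV]
    have e1 : ζ * T' t = T C (ζ * t) := by
      simp only [hT']
      rw [mul_inv_cancel_left₀ hζ0]
    have e2 : T' t ^ N = T C (ζ * t) ^ N := by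
      calc T' t ^ N = ζ ^ N * T' t ^ N := by rw [hζ, one_mul]
        _ = (ζ * T' t) ^ N := (mul_pow _ _ _).symm
        _ = _ := by rw [e1]
    rw [t1, e1, e2, t2, t3, t4, mul_pow, hζ, one_mul]
  -- leading term of `V`
  have hVnz : ¬ ∀ᶠ z in 𝓝 (0 : ℂ), V z = 0 := by
    intro h0
    have h1 : ∀ᶠ t in 𝓝[≠] (0 : ℂ), F (g (σ C) t, t ^ N) / t ^ (D (σ C)) = 0 := by
      filter_upwards [nhdsWithin_le_nhds (hTt.eventually h0),
        nhdsWithin_le_nhds (h.val (σ C))] with t t1 t2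
      rw [← t2]
      simp only [hV] at t1
      rw [t1, zero_div]
    have h2 := h.mat.hC.Vord (σ C)
    have h3 : Tendsto (fun _ : ℂ => (0 : ℂ)) (𝓝[≠] (0 : ℂ)) (𝓝 (a (σ C))) := h2.congr' h1
    exact h.mat.hC.ha (σ C) (tendsto_nhds_unique h3 tendsto_const_nhds)
  obtain ⟨D', w, hw, hw0, hVw⟩ := (hVan.exists_eventuallyEq_pow_smul_nonzero_iff).2 hVnz
  have hVlim : Tendsto (fun t : ℂ => V t / t ^ D') (𝓝[≠] 0) (𝓝 (w 0)) := by
    have h1 : Tendsto w (𝓝[≠] 0) (𝓝 (w 0)) := hw.continuousAt.tendsto.mono_left nhdsWithin_le_nhds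
    refine h1.congr' ?_
    filter_upwards [nhdsWithin_le_nhds hVw, self_mem_nhdsWithin] with t t1 t2
    have t3 : t ≠ 0 := t2
    rw [t1, sub_zero, smul_eq_mul]
    field_simp
  have hD' : 1 ≤ D' := by
    by_contra hlt
    have hD0 : D' = 0 := by omega
    subst hD0
    have h1 : V 0 = w 0 := by
      have := hVw.self_of_nhds
      simpa using this
    have h2 : Tendsto (fun t => V (T (σ C) t)) (𝓝[≠] 0) (𝓝 (V 0)) :=
      (hVan.continuousAt.tendsto.comp hTt).mono_left nhdsWithin_le_nhds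
    have h3 : Tendsto (fun t => V (T (σ C) t)) (𝓝[≠] 0) (𝓝 0) := by
      have h4 := h.mat.hC.Vord (σ C)
      have h5 := h.mat.hC.hD (σ C)
      have h6 := h4.mul (F13_tz (D (σ C)) (by omega))
      rw [mul_zero] at h6
      refine h6.congr' ?_
      filter_upwards [nhdsWithin_le_nhds (h.val (σ C)), self_mem_nhdsWithin] with t t1 t2
      have t3 : t ≠ 0 := t2
      simp only [hV]
      rw [t1]
      field_simp
    have h4 := tendsto_nhds_unique h2 h3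
    rw [h1] at h4
    exact hw0 h4
  have huniq := T_unique V T' (T (σ C)) D' (w 0) τ hVan hD' hw0 hVlim hT'an (h.Tan _) hT'z
    (h.Tz _) (F13_τ h) hT'd (h.Td _) he
  filter_upwards [(hσ C).2.2, hctr, huniq] with t t1 t2 t3
  exact ⟨t1, t2, t3.symm⟩

end H24.LS
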