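import Pool.Agent.H24.LS.P0
import Pool.Agent.H24.LS.V0
import Pool.Agent.H24.LS.D3
import Pool.Agent.H24.LS.F12
import Pool.Agent.H24.LS.F13

/-!
# F14: the normalised target germ and the elementary fields of `CFa`

`Gn(x,y) = G(α x, ω y)`, `Γn C t = ctr cl' γ' C (T C t)/α`, `ηn C t = (T C t)^N/ω`.  Let `s_C = ‖t‖^(b C)`.
* `Γn_an, ηn_an`: compositions of analytic functions (`T C 0 = 0`).
* `Γn_sm`: `ctr = o(t'^N)` (`ctr_sm`), `T C t/t → τ`.  `ηn_sm`: `(T C t/t)^N/ω → τ^N/ω = 1`.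
* `ηn_pair`: `mt_ypair`.
* `Γn_pair`: for `C ≠ C'`: `ctr C (T C) - ctr C' (T C') = (A pt C).1 - (A pt C').1 + O(s_C) + O(s_C')` (`mt_ctr`), `xpair`,
  `s_C, s_C' = o(g C - g C')` (`sep`); divide by `α`.  `C = C'`: `0`.
* `Gn_val`: `val`.   * `Gn_inv`: `mt_inv`.
* `adm_root`.  Let `q` be admissible.  `‖ω q.2 - T C^N‖ ≤ ‖ω‖ C1 (s_C + ‖q.1 - Γ_C‖) ≤ η' ‖t‖^N` for one `C` (`c ≥ 1`;
  `s_C, Γ_C = o(‖t‖^N)`, `‖q.1‖ ≤ δ‖t‖^N`), and `T C^N = (τ t)^N (1 + o(1))`; so `root_near` at `τ t` gives `t'` with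
  `t'^N = ω q.2`, `‖t' - τ t‖ ≤ η ‖t‖`.  `root_diff` with `a = t'`, `b = T C t`, for every `C`:
  `‖t' - T C‖ ‖t‖^(N-1) ≤ K ‖ω q.2 - T C^N‖ ≤ K ‖ω‖ C1 (s_C + ‖q.1 - Γ_C‖)`.
  Last item: `α Γ_C - γ'_l(t') = [ctr C (T C) - (A pt C).1] + [(A pt C).1 - γ'_l(T C)] + [γ'_l(T C) - γ'_l(t')]`,
  `= O(s_C) + O(s_C) + ε ‖t‖^(N-1) ‖t' - T C‖` (`mt_ctr`, `near`, `slow_small`), `C = cl' l`.
-/

open Filter Topology Metric Asymptotics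

namespace H24.LS

noncomputable def Gn (G : ℂ × ℂ → ℂ) (α ω : ℂ) (p : ℂ × ℂ) : ℂ := G (α * p.1, ω * p.2)

noncomputable def Γn {n c : ℕ} (cl' : Fin n → Fin c) (γ' : Fin n → ℂ → ℂ) (T : Fin c → ℂ → ℂ)
    (α : ℂ) (C : Fin c) (t : ℂ) : ℂ := ctr cl' γ' C (T C t) / α

noncomputable def ηn {c : ℕ} (T : Fin c → ℂ → ℂ) (N : ℕ) (ω : ℂ) (C : Fin c) (t : ℂ) : ℂ :=
  T C t ^ N / ω

theorem F14_tau {F G : ℂ × ℂ → ℂ} {k n N : ℕ} {u u' : ℂ} {c : ℕ} {m : Fin c → ℕ}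
    {b : Fin c → ℝ} {g v : Fin c → ℂ → ℂ} {a : Fin c → ℂ} {D : Fin c → ℕ}
    {γ' : Fin n → ℂ → ℂ} {A B : ℂ × ℂ → ℂ × ℂ} {L ρ : ℝ} {α ω τ : ℂ}
    {cl' : Fin n → Fin c} {T : Fin c → ℂ → ℂ}
    (h : MT F G k n N u u' c m b g v a D γ' A B L ρ α ω τ cl' T) : τ ≠ 0 := by
  have hN := h.mat.hC.hN
  intro h0
  have h1 := h.hτ
  rw [h0, zero_pow (by omega)] at h1
  exact h.hω h1.symm

theorem F14_T {F G : ℂ × ℂ → ℂ} {k n N : ℕ} {u u' : ℂ} {c : ℕ} {m : Fin c → ℕ}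
    {b : Fin c → ℝ} {g v : Fin c → ℂ → ℂ} {a : Fin c → ℂ} {D : Fin c → ℕ}
    {γ' : Fin n → ℂ → ℂ} {A B : ℂ × ℂ → ℂ × ℂ} {L ρ : ℝ} {α ω τ : ℂ}
    {cl' : Fin n → Fin c} {T : Fin c → ℂ → ℂ}
    (h : MT F G k n N u u' c m b g v a D γ' A B L ρ α ω τ cl' T) :
    ∀ η > (0 : ℝ), ∃ δ > (0 : ℝ), ∀ t : ℂ, 0 < ‖t‖ → ‖t‖ < δ → ∀ C, ‖T C t - τ * t‖ ≤ η * ‖t‖ := by
  intro η hη
  apply F11_ev
  rw [eventually_all]
  intro C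
  have h1 := (Metric.tendsto_nhds.1 (mt_lim h C)) η hη
  filter_upwards [h1, self_mem_nhdsWithin] with t ht htne
  have htne' : t ≠ 0 := htne
  rw [dist_eq_norm] at ht
  have h2 : T C t - τ * t = (T C t / t - τ) * t := by field_simp
  rw [h2, norm_mul]
  exact mul_le_mul_of_nonneg_right ht.le (norm_nonneg _)

theorem F14_ne {F G : ℂ × ℂ → ℂ} {k n N : ℕ} {u u' : ℂ} {c : ℕ} {m : Fin c → ℕ}
    {b : Fin c → ℝ} {g v : Fin c → ℂ → ℂ} {a : Fin c → ℂ} {D : Fin c → ℕ}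
    {γ' : Fin n → ℂ → ℂ} {A B : ℂ × ℂ → ℂ × ℂ} {L ρ : ℝ} {α ω τ : ℂ}
    {cl' : Fin n → Fin c} {T : Fin c → ℂ → ℂ}
    (h : MT F G k n N u u' c m b g v a D γ' A B L ρ α ω τ cl' T) (C : Fin c) :
    Tendsto (T C) (𝓝[≠] 0) (𝓝[≠] 0) := by
  rw [tendsto_nhdsWithin_iff]
  constructor
  · have h1 := (h.Tan C).continuousAt.tendsto
    rw [h.Tz C] at h1
    exact h1.mono_left nhdsWithin_le_nhds
  · have h1 := (mt_lim h C).eventually (eventually_ne_nhds (F14_tau h))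
    filter_upwards [h1] with t ht
    intro h2
    apply ht
    have h3 : T C t = 0 := h2
    rw [h3, zero_div]

/-- finite families of `O` -/
theorem F14_bigO {ι : Type*} [Fintype ι] {f : ι → ℂ → ℂ} {e : ι → ℂ → ℝ}
    (he : ∀ i t, 0 ≤ e i t) (hf : ∀ i, (f i) =O[𝓝[≠] 0] (e i)) :
    ∃ K > (0 : ℝ), ∃ δ > (0 : ℝ), ∀ t : ℂ, 0 < ‖t‖ → ‖t‖ < δ → ∀ i, ‖f i t‖ ≤ K * e i t := by
  classical
  have h1 : ∀ i, ∃ K > (0 : ℝ), ∀ᶠ t in 𝓝[≠] (0 : ℂ), ‖f i t‖ ≤ K * e i t := by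
    intro i
    obtain ⟨K, hK, h2⟩ := (hf i).exists_pos
    refine ⟨K, hK, ?_⟩
    filter_upwards [h2.bound] with t ht
    rwa [Real.norm_eq_abs, abs_of_nonneg (he i t)] at ht
  choose K hK hKe using h1
  obtain ⟨δ, hδ, h3⟩ := F11_ev (eventually_all.2 hKe)
  refine ⟨(∑ i, K i) + 1, by have := Finset.sum_nonneg (fun i (_ : i ∈ Finset.univ) => (hK i).le); linarith,
    δ, hδ, fun t ht0 ht i => (h3 t ht0 ht i).trans ?_⟩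
  refine mul_le_mul_of_nonneg_right ?_ (he i t)
  have := Finset.single_le_sum (fun i _ => (hK i).le) (Finset.mem_univ i)
  linarith

theorem Γn_an {F G : ℂ × ℂ → ℂ} {k n N : ℕ} {u u' : ℂ} {c : ℕ} {m : Fin c → ℕ}
    {b : Fin c → ℝ} {g v : Fin c → ℂ → ℂ} {a : Fin c → ℂ} {D : Fin c → ℕ}
    {γ' : Fin n → ℂ → ℂ} {A B : ℂ × ℂ → ℂ × ℂ} {L ρ : ℝ} {α ω τ : ℂ}
    {cl' : Fin n → Fin c} {T : Fin c → ℂ → ℂ}
    (h : MT F G k n N u u' c m b g v a D γ' A B L ρ α ω τ cl' T) (C : Fin c) : AnalyticAt ℂ (Γn cl' γ' T α C) 0 := by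
  have h1 : AnalyticAt ℂ (ctr cl' γ' C) (T C 0) := by
    rw [h.Tz C]
    exact ctr_an cl' γ' h.mat.hG.γan C
  exact (h1.comp (h.Tan C)).div_const

theorem ηn_an {F G : ℂ × ℂ → ℂ} {k n N : ℕ} {u u' : ℂ} {c : ℕ} {m : Fin c → ℕ}
    {b : Fin c → ℝ} {g v : Fin c → ℂ → ℂ} {a : Fin c → ℂ} {D : Fin c → ℕ}
    {γ' : Fin n → ℂ → ℂ} {A B : ℂ × ℂ → ℂ × ℂ} {L ρ : ℝ} {α ω τ : ℂ}
    {cl' : Fin n → Fin c} {T : Fin c → ℂ → ℂ}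
    (h : MT F G k n N u u' c m b g v a D γ' A B L ρ α ω τ cl' T) (C : Fin c) : AnalyticAt ℂ (ηn T N ω C) 0 := by
  exact ((h.Tan C).pow N).div_const

theorem Γn_sm {F G : ℂ × ℂ → ℂ} {k n N : ℕ} {u u' : ℂ} {c : ℕ} {m : Fin c → ℕ}
    {b : Fin c → ℝ} {g v : Fin c → ℂ → ℂ} {a : Fin c → ℂ} {D : Fin c → ℕ}
    {γ' : Fin n → ℂ → ℂ} {A B : ℂ × ℂ → ℂ × ℂ} {L ρ : ℝ} {α ω τ : ℂ}
    {cl' : Fin n → Fin c} {T : Fin c → ℂ → ℂ}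
    (h : MT F G k n N u u' c m b g v a D γ' A B L ρ α ω τ cl' T) (C : Fin c) : (Γn cl' γ' T α C) =o[𝓝[≠] 0] (fun t : ℂ => t ^ N) := by
  have h1 := (ctr_sm N cl' γ' h.mat.hG.γsm C).comp_tendsto (F14_ne h C)
  have h2 : ((fun t : ℂ => t ^ N) ∘ T C) =O[𝓝[≠] 0] (fun t : ℂ => t ^ N) := by
    have h3 : (T C) =O[𝓝[≠] 0] (fun t : ℂ => t) := by
      refine isBigO_of_div_tendsto_nhds ?_ τ (mt_lim h C)
      filter_upwards [self_mem_nhdsWithin] with t ht h0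
      exact absurd h0 ht
    exact h3.pow N
  exact ((h1.trans_isBigO h2).const_mul_left α⁻¹).congr_left fun t => by
    show α⁻¹ * ctr cl' γ' C (T C t) = ctr cl' γ' C (T C t) / α
    rw [div_eq_inv_mul]

theorem ηn_sm {F G : ℂ × ℂ → ℂ} {k n N : ℕ} {u u' : ℂ} {c : ℕ} {m : Fin c → ℕ}
    {b : Fin c → ℝ} {g v : Fin c → ℂ → ℂ} {a : Fin c → ℂ} {D : Fin c → ℕ}
    {γ' : Fin n → ℂ → ℂ} {A B : ℂ × ℂ → ℂ × ℂ} {L ρ : ℝ} {α ω τ : ℂ}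
    {cl' : Fin n → Fin c} {T : Fin c → ℂ → ℂ}
    (h : MT F G k n N u u' c m b g v a D γ' A B L ρ α ω τ cl' T) (C : Fin c) :
    (fun t => ηn T N ω C t - t ^ N) =o[𝓝[≠] 0] (fun t : ℂ => t ^ N) := by
  rw [isLittleO_iff_tendsto']
  · have h1 : Tendsto (fun t => (T C t / t) ^ N / ω - 1) (𝓝[≠] 0) (𝓝 (τ ^ N / ω - 1)) :=
      (((mt_lim h C).pow N).div_const ω).sub_const 1
    rw [h.hτ, div_self h.hω, sub_self] at h1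
    refine h1.congr' ?_
    filter_upwards [self_mem_nhdsWithin] with t ht
    have ht' : t ≠ 0 := ht
    unfold ηn
    rw [div_pow]
    field_simp
  · filter_upwards [self_mem_nhdsWithin] with t ht h0
    exact absurd (eq_zero_of_pow_eq_zero h0) ht

theorem ηn_pair {F G : ℂ × ℂ → ℂ} {k n N : ℕ} {u u' : ℂ} {c : ℕ} {m : Fin c → ℕ}
    {b : Fin c → ℝ} {g v : Fin c → ℂ → ℂ} {a : Fin c → ℂ} {D : Fin c → ℕ}
    {γ' : Fin n → ℂ → ℂ} {A B : ℂ × ℂ → ℂ × ℂ} {L ρ : ℝ} {α ω τ : ℂ}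
    {cl' : Fin n → Fin c} {T : Fin c → ℂ → ℂ}
    (h : MT F G k n N u u' c m b g v a D γ' A B L ρ α ω τ cl' T) (C C' : Fin c) :
    (fun t => ηn T N ω C t - ηn T N ω C' t) =O[𝓝[≠] 0] (fun t => g C t - g C' t) := by
  refine ((mt_ypair h C C').const_mul_left ω⁻¹).congr_left fun t => ?_
  unfold ηn
  ring

theorem Γn_pair {F G : ℂ × ℂ → ℂ} {k n N : ℕ} {u u' : ℂ} {c : ℕ} {m : Fin c → ℕ}
    {b : Fin c → ℝ} {g v : Fin c → ℂ → ℂ} {a : Fin c → ℂ} {D : Fin c → ℕ}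
    {γ' : Fin n → ℂ → ℂ} {A B : ℂ × ℂ → ℂ × ℂ} {L ρ : ℝ} {α ω τ : ℂ}
    {cl' : Fin n → Fin c} {T : Fin c → ℂ → ℂ}
    (h : MT F G k n N u u' c m b g v a D γ' A B L ρ α ω τ cl' T) (C C' : Fin c) :
    (fun t => (Γn cl' γ' T α C t - Γn cl' γ' T α C' t) - (g C t - g C' t))
      =o[𝓝[≠] 0] (fun t => g C t - g C' t) := by
  by_cases hCC : C = C'
  · subst hCC
    simp
  have h1 := (mt_ctr h C).trans_isLittleO (h.mat.hC.sep C C' hCC)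
  have h2 : (fun t => ctr cl' γ' C' (T C' t) - (A (pt g N C' t)).1)
      =o[𝓝[≠] 0] (fun t => g C t - g C' t) := by
    have h3 := (mt_ctr h C').trans_isLittleO (h.mat.hC.sep C' C (Ne.symm hCC))
    exact (h3.norm_right.congr_right fun t => norm_sub_rev _ _).of_norm_right
  have h4 := ((h1.sub h2).add (h.xpair C C')).const_mul_left α⁻¹
  refine h4.congr_left fun t => ?_
  have hα := h.hα
  unfold Γn
  field_simp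
  ring

theorem Gn_val {F G : ℂ × ℂ → ℂ} {k n N : ℕ} {u u' : ℂ} {c : ℕ} {m : Fin c → ℕ}
    {b : Fin c → ℝ} {g v : Fin c → ℂ → ℂ} {a : Fin c → ℂ} {D : Fin c → ℕ}
    {γ' : Fin n → ℂ → ℂ} {A B : ℂ × ℂ → ℂ × ℂ} {L ρ : ℝ} {α ω τ : ℂ}
    {cl' : Fin n → Fin c} {T : Fin c → ℂ → ℂ}
    (h : MT F G k n N u u' c m b g v a D γ' A B L ρ α ω τ cl' T) (C : Fin c) :
    ∀ᶠ t in 𝓝 (0 : ℂ), F (g C t, t ^ N) = Gn G α ω (Γn cl' γ' T α C t, ηn T N ω C t) := by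
  filter_upwards [h.val C] with t ht
  unfold Gn Γn ηn
  simp only
  rw [mul_div_cancel₀ _ h.hα, mul_div_cancel₀ _ h.hω]
  exact ht.symm

theorem Gn_inv {F G : ℂ × ℂ → ℂ} {k n N : ℕ} {u u' : ℂ} {c : ℕ} {m : Fin c → ℕ}
    {b : Fin c → ℝ} {g v : Fin c → ℂ → ℂ} {a : Fin c → ℂ} {D : Fin c → ℕ}
    {γ' : Fin n → ℂ → ℂ} {A B : ℂ × ℂ → ℂ × ℂ} {L ρ : ℝ} {α ω τ : ℂ}
    {cl' : Fin n → Fin c} {T : Fin c → ℂ → ℂ}
    (h : MT F G k n N u u' c m b g v a D γ' A B L ρ α ω τ cl' T) (ζ : ℂ) (hζ : ζ ^ N = 1) :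
    ∃ σ : Equiv.Perm (Fin c), ∀ C, m (σ C) = m C ∧ b (σ C) = b C ∧
      ∀ᶠ t in 𝓝 (0 : ℂ), g (σ C) t = g C (ζ * t) ∧
        Γn cl' γ' T α (σ C) t = Γn cl' γ' T α C (ζ * t) ∧
        ηn T N ω (σ C) t = ηn T N ω C (ζ * t) := by
  obtain ⟨σ, hσ⟩ := mt_inv h ζ hζ
  refine ⟨σ, fun C => ?_⟩
  obtain ⟨h1, h2, h3⟩ := hσ C
  refine ⟨h1, h2, ?_⟩
  have hN := h.mat.hC.hN
  have hζ0 : ζ ≠ 0 := by
    intro h0
    rw [h0, zero_pow (by omega)] at hζ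
    exact zero_ne_one hζ
  have h4 : Tendsto (T (σ C)) (𝓝 0) (𝓝 0) := by
    have := (h.Tan (σ C)).continuousAt.tendsto
    rwa [h.Tz] at this
  filter_upwards [h3, h4.eventually h3] with t ht1 ht2
  refine ⟨ht1.1, ?_, ?_⟩
  · unfold Γn
    rw [ht2.2.1, ht1.2.2, mul_inv_cancel_left₀ hζ0]
  · unfold ηn
    rw [ht1.2.2, mul_pow, inv_pow, hζ, inv_one, one_mul]

theorem adm_root {F G : ℂ × ℂ → ℂ} {k n N : ℕ} {u u' : ℂ} {c : ℕ} {m : Fin c → ℕ}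
    {b : Fin c → ℝ} {g v : Fin c → ℂ → ℂ} {a : Fin c → ℂ} {D : Fin c → ℕ}
    {γ' : Fin n → ℂ → ℂ} {A B : ℂ × ℂ → ℂ × ℂ} {L ρ : ℝ} {α ω τ : ℂ}
    {cl' : Fin n → Fin c} {T : Fin c → ℂ → ℂ}
    (h : MT F G k n N u u' c m b g v a D γ' A B L ρ α ω τ cl' T) :
    ∀ C1 > (0 : ℝ), ∃ K > (0 : ℝ), ∀ ε > (0 : ℝ), ∃ δ > (0 : ℝ), ∀ (t : ℂ) (q : ℂ × ℂ),
      0 < ‖t‖ → ‖t‖ < δ → ‖q.1‖ < δ * ‖t‖ ^ N →
      Adm C1 b (Γn cl' γ' T α) (ηn T N ω) t q →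
      ∃ t' : ℂ, t' ^ N = ω * q.2 ∧ ‖t' - τ * t‖ ≤ ε * ‖t‖ ∧
        (∀ C, ‖t' - T C t‖ * ‖t‖ ^ (N - 1) ≤
          K * (‖t‖ ^ (b C) + ‖q.1 - Γn cl' γ' T α C t‖)) ∧
        ∀ l, ‖α * Γn cl' γ' T α (cl' l) t - γ' l t'‖ ≤
          K * ‖t‖ ^ (b (cl' l)) + ε * ‖q.1 - Γn cl' γ' T α (cl' l) t‖ := by
  classical
  intro C1 hC1
  have hN := h.mat.hC.hN
  have hτ0 := F14_tau h
  have hτn : 0 < ‖τ‖ := norm_pos_iff.2 hτ0
  have hωn : 0 < ‖ω‖ := norm_pos_iff.2 h.hω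
  have hτω : ‖τ‖ ^ N = ‖ω‖ := by rw [← norm_pow, h.hτ]
  have hc := mt_c h
  obtain ⟨ηr, hηr, Kr, hKr, hrd⟩ := root_diff N hN τ hτ0
  obtain ⟨Cn, hCn, hrn⟩ := root_near N hN
  obtain ⟨K1, hK1, d1, hd1, hb1⟩ := F14_bigO
    (f := fun C t => ctr cl' γ' C (T C t) - (A (pt g N C t)).1) (e := fun C t => ‖t‖ ^ (b C))
    (fun C t => Real.rpow_nonneg (norm_nonneg _) _) (fun C => mt_ctr h C)
  obtain ⟨K2, hK2, d2, hd2, hb2⟩ := F14_bigO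
    (f := fun l t => γ' l (T (cl' l) t) - (A (pt g N (cl' l) t)).1)
    (e := fun l t => ‖t‖ ^ (b (cl' l)))
    (fun l t => Real.rpow_nonneg (norm_nonneg _) _) (fun l => h.near l)
  have hKC : 0 < Kr * ‖ω‖ * C1 := by positivity
  refine ⟨max (Kr * ‖ω‖ * C1) (K1 + K2 + 1), lt_max_of_lt_left hKC, ?_⟩
  intro ε hε
  -- constants
  obtain ⟨ε1, hε1, hε1ε, hε1r, hε1τ⟩ : ∃ ε1 > (0 : ℝ), ε1 ≤ ε ∧ ε1 ≤ ηr ∧ ε1 ≤ ‖τ‖ / 8 := by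
    refine ⟨min (min ε ηr) (‖τ‖ / 8), by positivity, ?_, ?_, min_le_right _ _⟩
    · exact (min_le_left _ _).trans (min_le_left _ _)
    · exact (min_le_left _ _).trans (min_le_right _ _)
  obtain ⟨θ, hθ, hθ1, hθ2⟩ : ∃ θ > (0 : ℝ), θ ≤ ‖ω‖ / 10 ∧ Cn * θ ≤ ε1 * ‖τ‖ ^ (N - 1) := by
    have hCn0 : 0 < Cn := by linarith
    refine ⟨min (‖ω‖ / 10) (ε1 * ‖τ‖ ^ (N - 1) / Cn), by positivity, min_le_left _ _, ?_⟩
    calc Cn * min (‖ω‖ / 10) (ε1 * ‖τ‖ ^ (N - 1) / Cn) ≤ Cn * (ε1 * ‖τ‖ ^ (N - 1) / Cn) :=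
          mul_le_mul_of_nonneg_left (min_le_right _ _) hCn0.le
      _ = ε1 * ‖τ‖ ^ (N - 1) := by field_simp
  obtain ⟨κ, hκ, hκ1⟩ : ∃ κ > (0 : ℝ), ‖ω‖ * C1 * (3 * κ) + ‖ω‖ * κ ≤ θ := by
    refine ⟨θ / (‖ω‖ * C1 * 3 + ‖ω‖), by positivity, le_of_eq ?_⟩
    field_simp
  obtain ⟨ε2, hε2, hε2a⟩ : ∃ ε2 > (0 : ℝ),
      ε2 * (2 * ‖τ‖) ^ (N - 1) * (Kr * ‖ω‖ * C1) ≤ min ε 1 := by
    refine ⟨min ε 1 / ((2 * ‖τ‖) ^ (N - 1) * (Kr * ‖ω‖ * C1)), by positivity, le_of_eq ?_⟩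
    field_simp
  -- radii
  obtain ⟨d3, hd3, hT⟩ := F14_T h ε1 hε1
  have hslow : ∀ l, ∃ δ > (0 : ℝ), ∀ t t1 : ℂ, 0 < ‖t‖ → ‖t‖ < δ → ‖t1 - t‖ ≤ ‖t‖ / 2 →
      ‖γ' l t1 - γ' l t‖ ≤ ε2 * ‖t‖ ^ (N - 1) * ‖t1 - t‖ :=
    fun l => slow_small N hN (γ' l) (h.mat.hG.γan l) (h.mat.hG.γsm l) ε2 hε2
  choose dl hdl hslow using hslow
  obtain ⟨d4, hd4, hd4l⟩ : ∃ d4 > (0 : ℝ), ∀ l, d4 ≤ dl l := by
    rcases isEmpty_or_nonempty (Fin n) with he | he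
    · exact ⟨1, one_pos, fun l => (he.false l).elim⟩
    · obtain ⟨l0, hl0⟩ := Finite.exists_min dl
      exact ⟨dl l0, hdl l0, hl0⟩
  obtain ⟨d5, hd5, hev⟩ := F11_ev (P := fun t => ∀ C, ‖Γn cl' γ' T α C t‖ ≤ κ * ‖t‖ ^ N ∧
      ‖ηn T N ω C t - t ^ N‖ ≤ κ * ‖t‖ ^ N ∧ ‖t‖ ^ (b C) ≤ κ * ‖t‖ ^ N) (by
    rw [eventually_all]
    intro C
    have e1 := (Γn_sm h C).def hκ
    have e2 := (ηn_sm h C).def hκ
    have e3 : ∀ᶠ t in 𝓝[≠] (0 : ℂ), ‖t‖ ^ (b C) ≤ κ * ‖t‖ ^ N := by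
      have hb := h.mat.hC.hb C
      have e4 : Tendsto (fun t : ℂ => ‖t‖ ^ (b C - N)) (𝓝[≠] 0) (𝓝 0) := by
        have h5 : ContinuousAt (fun t : ℂ => ‖t‖ ^ (b C - N)) 0 :=
          (continuous_norm.continuousAt).rpow_const (Or.inr (by linarith))
        have h6 := h5.tendsto
        simp only [norm_zero] at h6
        rw [Real.zero_rpow (by linarith)] at h6
        exact h6.mono_left nhdsWithin_le_nhds
      filter_upwards [e4.eventually (gt_mem_nhds hκ), self_mem_nhdsWithin] with t ht htne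
      have ht0 : 0 < ‖t‖ := norm_pos_iff.2 htne
      have h7 : ‖t‖ ^ (b C) = ‖t‖ ^ (b C - N) * ‖t‖ ^ N := by
        rw [← Real.rpow_natCast ‖t‖ N, ← Real.rpow_add ht0]
        congr 1
        ring
      rw [h7]
      exact mul_le_mul_of_nonneg_right ht.le (by positivity)
    filter_upwards [e1, e2, e3] with t h1 h2 h3
    rw [norm_pow] at h1 h2
    exact ⟨h1, h2, h3⟩)
  refine ⟨min (min (min d1 d2) (min d3 (d4 / (2 * ‖τ‖)))) (min d5 κ), by positivity, ?_⟩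
  intro t q ht0 ht hq hadm
  have ht1 : ‖t‖ < d1 := ht.trans_le ((min_le_left _ _).trans
    ((min_le_left _ _).trans (min_le_left _ _)))
  have ht2 : ‖t‖ < d2 := ht.trans_le ((min_le_left _ _).trans
    ((min_le_left _ _).trans (min_le_right _ _)))
  have ht3 : ‖t‖ < d3 := ht.trans_le ((min_le_left _ _).trans
    ((min_le_right _ _).trans (min_le_left _ _)))
  have ht4 : ‖t‖ < d4 / (2 * ‖τ‖) := ht.trans_le ((min_le_left _ _).trans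
    ((min_le_right _ _).trans (min_le_right _ _)))
  have ht5 : ‖t‖ < d5 := ht.trans_le ((min_le_right _ _).trans (min_le_left _ _))
  have htN0 : 0 < ‖t‖ ^ N := by positivity
  have hqκ : ‖q.1‖ ≤ κ * ‖t‖ ^ N := hq.le.trans
    (mul_le_mul_of_nonneg_right ((min_le_right _ _).trans (min_le_right _ _)) htN0.le)
  have hev' := hev t ht0 ht5
  have hT' := hT t ht0 ht3
  -- the difference of the `N`-th powers
  have hdiff : ∀ C, ‖ω * q.2 - T C t ^ N‖ ≤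
      ‖ω‖ * (C1 * (‖t‖ ^ (b C) + ‖q.1 - Γn cl' γ' T α C t‖)) := by
    intro C
    have h1 : ω * q.2 - T C t ^ N = ω * (q.2 - ηn T N ω C t) := by
      have hω := h.hω
      unfold ηn
      field_simp
    rw [h1, norm_mul]
    exact mul_le_mul_of_nonneg_left (hadm C) hωn.le
  -- the root
  have hroot : ‖ω * q.2 - (τ * t) ^ N‖ ≤ θ * ‖t‖ ^ N := by
    obtain ⟨e1, e2, e3⟩ := hev' ⟨0, hc⟩
    have h1 := hdiff ⟨0, hc⟩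
    have h2 : ω * q.2 - (τ * t) ^ N = (ω * q.2 - T ⟨0, hc⟩ t ^ N) +
        ω * (ηn T N ω ⟨0, hc⟩ t - t ^ N) := by
      have hω := h.hω
      unfold ηn
      rw [mul_pow, h.hτ]
      field_simp
      ring
    have h3 : ‖q.1 - Γn cl' γ' T α ⟨0, hc⟩ t‖ ≤ κ * ‖t‖ ^ N + κ * ‖t‖ ^ N :=
      (norm_sub_le _ _).trans (add_le_add hqκ e1)
    rw [h2]
    refine (norm_add_le _ _).trans ?_
    rw [norm_mul ω]
    calc ‖ω * q.2 - T ⟨0, hc⟩ t ^ N‖ + ‖ω‖ * ‖ηn T N ω ⟨0, hc⟩ t - t ^ N‖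
        ≤ ‖ω‖ * (C1 * (κ * ‖t‖ ^ N + (κ * ‖t‖ ^ N + κ * ‖t‖ ^ N))) +
          ‖ω‖ * (κ * ‖t‖ ^ N) := by
          refine add_le_add (h1.trans ?_) (mul_le_mul_of_nonneg_left e2 hωn.le)
          exact mul_le_mul_of_nonneg_left (mul_le_mul_of_nonneg_left (add_le_add e3 h3) hC1.le)
            hωn.le
      _ = (‖ω‖ * C1 * (3 * κ) + ‖ω‖ * κ) * ‖t‖ ^ N := by ring
      _ ≤ θ * ‖t‖ ^ N := mul_le_mul_of_nonneg_right hκ1 htN0.le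
  obtain ⟨t', ht'N, ht'd, _⟩ := hrn (τ * t) (ω * q.2)
    (mul_ne_zero hτ0 (norm_pos_iff.1 ht0)) (by
      refine hroot.trans ?_
      rw [norm_mul, mul_pow, hτω]
      have := mul_le_mul_of_nonneg_right hθ1 htN0.le
      linarith)
  have htd : ‖t' - τ * t‖ ≤ ε1 * ‖t‖ := by
    have h1 : ‖t' - τ * t‖ * (‖τ‖ ^ (N - 1) * ‖t‖ ^ (N - 1)) ≤
        (ε1 * ‖t‖) * (‖τ‖ ^ (N - 1) * ‖t‖ ^ (N - 1)) := by
      have h2 : ‖τ * t‖ ^ (N - 1) = ‖τ‖ ^ (N - 1) * ‖t‖ ^ (N - 1) := by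
        rw [norm_mul, mul_pow]
      rw [← h2]
      refine ht'd.trans ?_
      rw [h2]
      have h3 : ‖t‖ ^ N = ‖t‖ ^ (N - 1) * ‖t‖ := by
        rw [← pow_succ]
        congr 1
        omega
      calc Cn * ‖ω * q.2 - (τ * t) ^ N‖ ≤ Cn * (θ * ‖t‖ ^ N) :=
            mul_le_mul_of_nonneg_left hroot (by linarith)
        _ = (Cn * θ) * ‖t‖ ^ N := by ring
        _ ≤ (ε1 * ‖τ‖ ^ (N - 1)) * ‖t‖ ^ N := mul_le_mul_of_nonneg_right hθ2 htN0.le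
        _ = _ := by rw [h3]; ring
    exact le_of_mul_le_mul_right h1 (by positivity)
  have hC : ∀ C, ‖t' - T C t‖ * ‖t‖ ^ (N - 1) ≤
      Kr * ‖ω‖ * C1 * (‖t‖ ^ (b C) + ‖q.1 - Γn cl' γ' T α C t‖) := by
    intro C
    have h1 := hrd t t' (T C t) (htd.trans (mul_le_mul_of_nonneg_right hε1r ht0.le))
      ((hT' C).trans (mul_le_mul_of_nonneg_right hε1r ht0.le))
    rw [ht'N] at h1
    refine h1.trans ((mul_le_mul_of_nonneg_left (hdiff C) hKr.le).trans (le_of_eq ?_))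
    ring
  refine ⟨t', ht'N, htd.trans (mul_le_mul_of_nonneg_right hε1ε ht0.le), fun C => ?_, fun l => ?_⟩
  · refine (hC C).trans (mul_le_mul_of_nonneg_right (le_max_left _ _) ?_)
    have := Real.rpow_nonneg (norm_nonneg t) (b C)
    positivity
  · have hb0 : 0 ≤ ‖t‖ ^ (b (cl' l)) := Real.rpow_nonneg (norm_nonneg t) _
    have e1 := hb1 t ht0 ht1 (cl' l)
    have e2 := hb2 t ht0 ht2 l
    have hTn : ‖T (cl' l) t‖ ≤ 2 * ‖τ‖ * ‖t‖ := by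
      have h1 := norm_add_le (T (cl' l) t - τ * t) (τ * t)
      rw [sub_add_cancel, norm_mul] at h1
      have h2 := hT' (cl' l)
      have h3 := mul_le_mul_of_nonneg_right hε1τ ht0.le
      nlinarith [mul_pos hτn ht0]
    have hTl : ‖τ‖ * ‖t‖ * (7 / 8) ≤ ‖T (cl' l) t‖ := by
      have h1 := norm_sub_le (T (cl' l) t) (T (cl' l) t - τ * t)
      rw [sub_sub_cancel, norm_mul] at h1
      have h2 := hT' (cl' l)
      have h3 := mul_le_mul_of_nonneg_right hε1τ ht0.le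
      nlinarith [mul_pos hτn ht0]
    have hT0 : 0 < ‖T (cl' l) t‖ := lt_of_lt_of_le (by positivity) hTl
    have hclose : ‖t' - T (cl' l) t‖ ≤ ‖T (cl' l) t‖ / 2 := by
      have h1 : t' - T (cl' l) t = (t' - τ * t) - (T (cl' l) t - τ * t) := by ring
      have h2 := norm_sub_le (t' - τ * t) (T (cl' l) t - τ * t)
      rw [← h1] at h2
      have h3 := mul_le_mul_of_nonneg_right hε1τ ht0.le
      have h4 := hT' (cl' l)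
      nlinarith [mul_pos hτn ht0]
    have e3 := hslow l (T (cl' l) t) t' hT0 (by
      refine lt_of_le_of_lt hTn (lt_of_lt_of_le ?_ (hd4l l))
      rw [lt_div_iff₀ (by positivity)] at ht4
      linarith) hclose
    have e4 : ‖γ' l t' - γ' l (T (cl' l) t)‖ ≤
        min ε 1 * (‖t‖ ^ (b (cl' l)) + ‖q.1 - Γn cl' γ' T α (cl' l) t‖) := by
      refine e3.trans ?_
      have h1 : ‖T (cl' l) t‖ ^ (N - 1) ≤ (2 * ‖τ‖) ^ (N - 1) * ‖t‖ ^ (N - 1) := by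
        rw [← mul_pow]
        exact pow_le_pow_left₀ (norm_nonneg _) hTn _
      calc ε2 * ‖T (cl' l) t‖ ^ (N - 1) * ‖t' - T (cl' l) t‖
          ≤ ε2 * ((2 * ‖τ‖) ^ (N - 1) * ‖t‖ ^ (N - 1)) * ‖t' - T (cl' l) t‖ := by gcongr
        _ = ε2 * (2 * ‖τ‖) ^ (N - 1) * (‖t' - T (cl' l) t‖ * ‖t‖ ^ (N - 1)) := by ring
        _ ≤ ε2 * (2 * ‖τ‖) ^ (N - 1) * (Kr * ‖ω‖ * C1 *
              (‖t‖ ^ (b (cl' l)) + ‖q.1 - Γn cl' γ' T α (cl' l) t‖)) :=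
            mul_le_mul_of_nonneg_left (hC (cl' l)) (by positivity)
        _ = (ε2 * (2 * ‖τ‖) ^ (N - 1) * (Kr * ‖ω‖ * C1)) *
              (‖t‖ ^ (b (cl' l)) + ‖q.1 - Γn cl' γ' T α (cl' l) t‖) := by ring
        _ ≤ _ := mul_le_mul_of_nonneg_right hε2a (by positivity)
    have h5 : α * Γn cl' γ' T α (cl' l) t - γ' l t' =
        (ctr cl' γ' (cl' l) (T (cl' l) t) - (A (pt g N (cl' l) t)).1) -
        (γ' l (T (cl' l) t) - (A (pt g N (cl' l) t)).1) -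
        (γ' l t' - γ' l (T (cl' l) t)) := by
      unfold Γn
      rw [mul_div_cancel₀ _ h.hα]
      ring
    rw [h5]
    refine (norm_sub_le _ _).trans ((add_le_add ((norm_sub_le _ _).trans (add_le_add e1 e2))
      e4).trans ?_)
    have h6 : min ε 1 * ‖t‖ ^ (b (cl' l)) ≤ 1 * ‖t‖ ^ (b (cl' l)) :=
      mul_le_mul_of_nonneg_right (min_le_right _ _) hb0
    have h7 : min ε 1 * ‖q.1 - Γn cl' γ' T α (cl' l) t‖ ≤
        ε * ‖q.1 - Γn cl' γ' T α (cl' l) t‖ :=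
      mul_le_mul_of_nonneg_right (min_le_left _ _) (norm_nonneg _)
    have h8 : (K1 + K2 + 1) * ‖t‖ ^ (b (cl' l)) ≤
        max (Kr * ‖ω‖ * C1) (K1 + K2 + 1) * ‖t‖ ^ (b (cl' l)) :=
      mul_le_mul_of_nonneg_right (le_max_right _ _) hb0
    linarith

end H24.LS
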