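import Pool.Agent.H24.LS.P0
import Pool.Agent.H24.LS.P1
import Pool.Agent.H24.LS.V0
import Pool.Agent.H24.LS.F0
import Pool.Agent.H24.LS.F14

/-!
# F15: fields `G1`, `G2` of `CFa` for the normalised germ

Notation: `Γ_C = Γn cl' γ' T α C t`, `η_C = ηn T N ω C t`, `s_C = ‖t‖^(b C)`, `e = N(k-1-n)`, `(x',y') = (α q.1, ω q.2)`, `t'` from
`adm_root`.  `dx (Gn G α ω) q = α dx G (x', y')` (chain rule; `G` is differentiable near `0`).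
For `C = cl' l`: `x' - γ'_l(t') = α (q.1 - Γ_C) + (α Γ_C - γ'_l t')`, so
(*) `‖x' - γ'_l(t') - α (q.1 - Γ_C)‖ ≤ K s_C + ε ‖q.1 - Γ_C‖`.
* `nrm_G1`: `PCh.fac` of `G` at `(x', t')` with `ε = ‖u'‖`: `‖dx G (x',y')‖ ≤ 2‖u'‖ ‖t'‖^e ∏_l ‖x' - γ'_l t'‖`;
  (hypothesis `‖x'‖ < δ ‖t'‖^N` from `‖q.1‖ < δ'‖t‖^N` and `t'/t ≈ τ`).  By (*) each factor is
  `≤ K' (s_{C'} + ‖q.1 - Γ_{C'}‖)`, `C' = cl' l`, and `‖q.1 - Γ_{C'}‖ ≤ ‖q.1 - Γ_C‖ + ‖Γ_C - Γ_{C'}‖`,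
  `‖Γ_C - Γ_{C'}‖ ≤ 2 ‖g C - g C'‖` (`Γn_pair`).  `∏_l f (cl' l) = ∏_C (f C)^{m C}` (`card`:
  `Finset.prod_fiberwise`-type lemma).
* `nrm_G2`: if `‖q.1 - Γ_C‖ ≥ K1 s_C` for all `C`, (*) gives `x' - γ'_l(t') = α (q.1 - Γ_{C}) (1 + O(K/K1 + ε))`; product:
  `∏_l (x' - γ'_l t') = α^n ∏_C (q.1 - Γ_C)^{m C} (1 + O(..))`.  `t'^e = (ω q.2)^{k-1-n}`, `t'^e = (τ t)^e (1 + O(ε))`,
  `(τ t)^e = ω^{k-1-n} t^e`.  Insert in `fac` (small `ε`): `α dx G (x',y') = α u' ω^{k-1-n} t^e α^n ∏ (q.1 - Γ_C)^{m C} (1 + O(..))`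
  and `α^{n+1} ω^{k-1-n} u' = u` (`hrel`).
-/

open Filter Topology Metric Asymptotics

namespace H24.LS

theorem F15_dx {G : ℂ × ℂ → ℂ} {α ω : ℂ} {q : ℂ × ℂ}
    (hd : DifferentiableAt ℂ G (α * q.1, ω * q.2)) :
    dx (Gn G α ω) q = α * dx G (α * q.1, ω * q.2) := by
  set L : (ℂ × ℂ) →L[ℂ] (ℂ × ℂ) :=
    (α • ContinuousLinearMap.fst ℂ ℂ ℂ).prod (ω • ContinuousLinearMap.snd ℂ ℂ ℂ) with hL
  have hLa : ∀ p : ℂ × ℂ, L p = (α * p.1, ω * p.2) := fun p => by simp [hL]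
  have h1 : HasFDerivAt (Gn G α ω) ((fderiv ℂ G (α * q.1, ω * q.2)).comp L) q := by
    have h2 : HasFDerivAt G (fderiv ℂ G (α * q.1, ω * q.2)) (L q) := by
      rw [hLa]; exact hd.hasFDerivAt
    have h3 := h2.comp q L.hasFDerivAt
    refine h3.congr_of_eventuallyEq (Filter.Eventually.of_forall fun p => ?_)
    simp [Gn, hLa]
  unfold dx
  rw [h1.fderiv, ContinuousLinearMap.comp_apply, hLa]
  have h4 : ((α * ((1, 0) : ℂ × ℂ).1, ω * ((1, 0) : ℂ × ℂ).2) : ℂ × ℂ) = α • (1, 0) := by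
    simp
  rw [h4, map_smul, smul_eq_mul]

theorem F15_ev {P : ℂ → Prop} (h : ∀ᶠ t in 𝓝[≠] (0 : ℂ), P t) :
    ∃ δ > (0 : ℝ), ∀ t : ℂ, 0 < ‖t‖ → ‖t‖ < δ → P t := by
  rw [eventually_nhdsWithin_iff, Metric.eventually_nhds_iff] at h
  obtain ⟨δ, hδ, hP⟩ := h
  refine ⟨δ, hδ, fun t h1 h2 => hP (by simpa using h2) ?_⟩
  exact norm_pos_iff.1 h1

/-- the root of `ω q.2` and the position of the arcs -/
theorem F15_main {F G : ℂ × ℂ → ℂ} {k n N : ℕ} {u u' : ℂ} {c : ℕ} {m : Fin c → ℕ}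
    {b : Fin c → ℝ} {g v : Fin c → ℂ → ℂ} {a : Fin c → ℂ} {D : Fin c → ℕ}
    {γ' : Fin n → ℂ → ℂ} {A B : ℂ × ℂ → ℂ × ℂ} {L ρ : ℝ} {α ω τ : ℂ}
    {cl' : Fin n → Fin c} {T : Fin c → ℂ → ℂ}
    (h : MT F G k n N u u' c m b g v a D γ' A B L ρ α ω τ cl' T) :
    ∀ C1 > (0 : ℝ), ∃ K > (0 : ℝ), ∀ ε > (0 : ℝ), ∀ δf > (0 : ℝ), ∃ δ > (0 : ℝ),
      ∀ (t : ℂ) (q : ℂ × ℂ), 0 < ‖t‖ → ‖t‖ < δ → ‖q.1‖ < δ * ‖t‖ ^ N →
      Adm C1 b (Γn cl' γ' T α) (ηn T N ω) t q →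
      ∃ t' : ℂ, 0 < ‖t'‖ ∧ ‖t'‖ < δf ∧ ‖α * q.1‖ < δf * ‖t'‖ ^ N ∧ ‖t' - τ * t‖ ≤ ε * ‖t‖ ∧
        dx (Gn G α ω) q = α * dx G (α * q.1, t' ^ N) ∧
        ∀ l, ‖α * Γn cl' γ' T α (cl' l) t - γ' l t'‖ ≤
          K * ‖t‖ ^ (b (cl' l)) + ε * ‖q.1 - Γn cl' γ' T α (cl' l) t‖ := by
  intro C1 hC1
  obtain ⟨K, hK, hroot⟩ := adm_root h C1 hC1
  refine ⟨K, hK, fun ε hε δf hδf => ?_⟩
  have hN : 1 ≤ N := h.mat.hC.hN
  have hτ0 : τ ≠ 0 := by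
    rintro rfl
    have := h.hτ
    rw [zero_pow (by omega)] at this
    exact h.hω this.symm
  have hτn : 0 < ‖τ‖ := norm_pos_iff.2 hτ0
  have hαn : 0 < ‖α‖ := norm_pos_iff.2 h.hα
  obtain ⟨r, hr, hdiff⟩ : ∃ r > (0 : ℝ), ∀ p : ℂ × ℂ, ‖p‖ < r → DifferentiableAt ℂ G p := by
    obtain ⟨r, hr, h1⟩ := Metric.eventually_nhds_iff.1 h.mat.hG.an.eventually_analyticAt
    exact ⟨r, hr, fun p hp => (h1 (by simpa using hp)).differentiableAt⟩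
  obtain ⟨δ1, hδ1, h1⟩ := hroot (min ε (‖τ‖ / 2)) (by positivity)
  set s : ℝ := min (min δf r) 1 with hs
  have hs0 : 0 < s := by positivity
  set δ : ℝ := min δ1 (min (s / (2 * ‖τ‖)) (s * (‖τ‖ / 2) ^ N / ‖α‖)) with hδ
  have hδ0 : 0 < δ := by positivity
  refine ⟨δ, hδ0, fun t q ht0 htδ hq hadm => ?_⟩
  have htδ1 : ‖t‖ < δ1 := htδ.trans_le (min_le_left _ _)
  have htN : 0 < ‖t‖ ^ N := pow_pos ht0 N
  have hqδ1 : ‖q.1‖ < δ1 * ‖t‖ ^ N := hq.trans_le (by gcongr; exact min_le_left _ _)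
  obtain ⟨t', ht'N, ht'τ, -, ht'l⟩ := h1 t q ht0 htδ1 hqδ1 hadm
  have e1 : ‖t' - τ * t‖ ≤ ε * ‖t‖ := ht'τ.trans (by gcongr; exact min_le_left _ _)
  have e2 : ‖t' - τ * t‖ ≤ ‖τ‖ / 2 * ‖t‖ := ht'τ.trans (by gcongr; exact min_le_right _ _)
  have e3 : ‖t'‖ ≤ 2 * ‖τ‖ * ‖t‖ := by
    have := norm_add_le (t' - τ * t) (τ * t)
    rw [sub_add_cancel, norm_mul] at this
    nlinarith
  have e4 : ‖τ‖ / 2 * ‖t‖ ≤ ‖t'‖ := by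
    have := norm_sub_norm_le (τ * t) (τ * t - t')
    rw [sub_sub_cancel, norm_mul, norm_sub_rev] at this
    linarith
  have e5 : 0 < ‖t'‖ := lt_of_lt_of_le (by positivity) e4
  have e6 : ‖t'‖ < s := by
    have h2 : ‖t‖ < s / (2 * ‖τ‖) := htδ.trans_le ((min_le_right _ _).trans (min_le_left _ _))
    rw [lt_div_iff₀ (by positivity)] at h2
    linarith
  have e7 : ‖α * q.1‖ < s * ‖t'‖ ^ N := by
    rw [norm_mul]
    calc ‖α‖ * ‖q.1‖ < ‖α‖ * (δ * ‖t‖ ^ N) := by gcongr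
      _ ≤ ‖α‖ * (s * (‖τ‖ / 2) ^ N / ‖α‖ * ‖t‖ ^ N) := by
          gcongr
          exact (min_le_right _ _).trans (min_le_right _ _)
      _ = s * (‖τ‖ / 2 * ‖t‖) ^ N := by
          rw [mul_pow]; field_simp
      _ ≤ s * ‖t'‖ ^ N := by gcongr
  have hsf : s ≤ δf := (min_le_left _ _).trans (min_le_left _ _)
  have hsr : s ≤ r := (min_le_left _ _).trans (min_le_right _ _)
  have hs1 : s ≤ 1 := min_le_right _ _
  have e8 : ‖t'‖ ^ N ≤ ‖t'‖ := by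
    calc ‖t'‖ ^ N ≤ ‖t'‖ ^ 1 := pow_le_pow_of_le_one (norm_nonneg _) (e6.le.trans hs1) hN
      _ = ‖t'‖ := pow_one _
  have e9 : DifferentiableAt ℂ G (α * q.1, ω * q.2) := by
    apply hdiff
    rw [Prod.norm_def]
    simp only
    rw [← ht'N, norm_pow]
    refine max_lt ?_ (e8.trans_lt (e6.trans_le hsr))
    refine e7.trans_le ?_
    have h3 : ‖t'‖ ^ N ≤ 1 := e8.trans (e6.le.trans hs1)
    calc s * ‖t'‖ ^ N ≤ s * 1 := by gcongr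
      _ ≤ r := by rw [mul_one]; exact hsr
  refine ⟨t', e5, e6.trans_le hsf, e7.trans_le (by gcongr), e1, ?_, fun l => ?_⟩
  · rw [F15_dx e9, ht'N]
  · refine (ht'l l).trans ?_
    gcongr
    exact min_le_left _ _

/-- products over the arcs are products over the clusters -/
theorem F15_prod {M : Type*} [CommMonoid M] {n c : ℕ} {m : Fin c → ℕ} {cl' : Fin n → Fin c}
    (card : ∀ C, (Finset.univ.filter (fun l => cl' l = C)).card = m C) (f : Fin c → M) :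
    ∏ l, f (cl' l) = ∏ C, f C ^ m C := by
  rw [← Finset.prod_fiberwise_of_maps_to (s := Finset.univ) (t := Finset.univ) (g := cl')
    (fun _ _ => Finset.mem_univ _)]
  refine Finset.prod_congr rfl fun C _ => ?_
  rw [← card C, Finset.prod_congr rfl (g := fun _ => f C), Finset.prod_const]
  intro l hl
  rw [(Finset.mem_filter.1 hl).2]

theorem nrm_G1 {F G : ℂ × ℂ → ℂ} {k n N : ℕ} {u u' : ℂ} {c : ℕ} {m : Fin c → ℕ}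
    {b : Fin c → ℝ} {g v : Fin c → ℂ → ℂ} {a : Fin c → ℂ} {D : Fin c → ℕ}
    {γ' : Fin n → ℂ → ℂ} {A B : ℂ × ℂ → ℂ × ℂ} {L ρ : ℝ} {α ω τ : ℂ}
    {cl' : Fin n → Fin c} {T : Fin c → ℂ → ℂ}
    (h : MT F G k n N u u' c m b g v a D γ' A B L ρ α ω τ cl' T) :
    ∀ C1 > (0 : ℝ), ∃ C0 > (0 : ℝ), ∃ δ > (0 : ℝ), ∀ (t : ℂ) (q : ℂ × ℂ), 0 < ‖t‖ → ‖t‖ < δ →
    ‖q.1‖ < δ * ‖t‖ ^ N → Adm C1 b (Γn cl' γ' T α) (ηn T N ω) t q → ∀ C,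
    ‖dx (Gn G α ω) q‖ ≤
      C0 * cE (N * (k - 1 - n)) m b g C ‖q.1 - Γn cl' γ' T α C t‖ t := by
  intro C1 hC1
  obtain ⟨K, hK, hmain⟩ := F15_main h C1 hC1
  obtain ⟨δf, hδf, hup⟩ := P1_up h.mat.hG
  obtain ⟨δ1, hδ1, h1⟩ := hmain 1 one_pos δf hδf
  have hαn : 0 < ‖α‖ := norm_pos_iff.2 h.hα
  obtain ⟨δ2, hδ2, h2⟩ : ∃ δ > (0 : ℝ), ∀ t : ℂ, 0 < ‖t‖ → ‖t‖ < δ → ∀ C C',
      ‖(Γn cl' γ' T α C t - Γn cl' γ' T α C' t) - (g C t - g C' t)‖ ≤ 1 * ‖g C t - g C' t‖ := by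
    apply F15_ev
    rw [eventually_all]
    intro C
    rw [eventually_all]
    intro C'
    exact (Γn_pair h C C').def one_pos
  set K' : ℝ := ‖α‖ + 1 + K with hK'
  have hK'0 : 0 < K' := by positivity
  refine ⟨‖α‖ * ((‖u'‖ + 1) * ((‖τ‖ + 1) ^ (N * (k - 1 - n)) * (2 * K') ^ n)), by positivity,
    min δ1 δ2, lt_min hδ1 hδ2, fun t q ht0 htδ hq hadm C => ?_⟩
  have htN : 0 < ‖t‖ ^ N := pow_pos ht0 N
  obtain ⟨t', f1, f2, f3, f4, f5, f6⟩ := h1 t q ht0 (htδ.trans_le (min_le_left _ _))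
    (hq.trans_le (by gcongr; exact min_le_left _ _)) hadm
  have h2' := h2 t ht0 (htδ.trans_le (min_le_right _ _))
  have h3 := hup (α * q.1) t' f1 f2 f3
  rw [f5, norm_mul]
  have ht' : ‖t'‖ ≤ (‖τ‖ + 1) * ‖t‖ := by
    have := norm_add_le (t' - τ * t) (τ * t)
    rw [sub_add_cancel, norm_mul] at this
    linarith
  have hfac : ∀ l, ‖α * q.1 - γ' l t'‖ ≤ 2 * K' * (‖q.1 - Γn cl' γ' T α C t‖ + ‖t‖ ^ (b (cl' l))
      + ‖g C t - g (cl' l) t‖) := by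
    intro l
    have i1 : ‖α * q.1 - γ' l t'‖ ≤ ‖α‖ * ‖q.1 - Γn cl' γ' T α (cl' l) t‖
        + ‖α * Γn cl' γ' T α (cl' l) t - γ' l t'‖ := by
      rw [← norm_mul]
      refine le_trans (le_of_eq ?_) (norm_add_le _ _)
      congr 1
      ring
    have i2 := f6 l
    have i3 : ‖q.1 - Γn cl' γ' T α (cl' l) t‖ ≤ ‖q.1 - Γn cl' γ' T α C t‖
        + 2 * ‖g C t - g (cl' l) t‖ := by
      have j1 := norm_add_le (q.1 - Γn cl' γ' T α C t)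
        (Γn cl' γ' T α C t - Γn cl' γ' T α (cl' l) t)
      rw [sub_add_sub_cancel] at j1
      have j2 := norm_add_le ((Γn cl' γ' T α C t - Γn cl' γ' T α (cl' l) t)
        - (g C t - g (cl' l) t)) (g C t - g (cl' l) t)
      rw [sub_add_cancel] at j2
      have j3 := h2' C (cl' l)
      linarith
    have i4 : 0 ≤ ‖t‖ ^ (b (cl' l)) := Real.rpow_nonneg (norm_nonneg _) _
    have i5 := norm_nonneg (q.1 - Γn cl' γ' T α (cl' l) t)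
    have i6 := norm_nonneg (q.1 - Γn cl' γ' T α C t)
    have i7 := norm_nonneg (g C t - g (cl' l) t)
    calc ‖α * q.1 - γ' l t'‖ ≤ ‖α‖ * ‖q.1 - Γn cl' γ' T α (cl' l) t‖
          + (K * ‖t‖ ^ (b (cl' l)) + 1 * ‖q.1 - Γn cl' γ' T α (cl' l) t‖) := by linarith
      _ ≤ K' * (‖t‖ ^ (b (cl' l)) + ‖q.1 - Γn cl' γ' T α (cl' l) t‖) := by
          rw [hK']; nlinarith
      _ ≤ K' * (‖t‖ ^ (b (cl' l)) + (‖q.1 - Γn cl' γ' T α C t‖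
        + 2 * ‖g C t - g (cl' l) t‖)) := by gcongr
      _ ≤ 2 * K' * (‖q.1 - Γn cl' γ' T α C t‖ + ‖t‖ ^ (b (cl' l))
      + ‖g C t - g (cl' l) t‖) := by nlinarith
  have hprod : ∏ l, ‖α * q.1 - γ' l t'‖ ≤ (2 * K') ^ n *
      ∏ C', (‖q.1 - Γn cl' γ' T α C t‖ + ‖t‖ ^ (b C') + ‖g C t - g C' t‖) ^ m C' := by
    rw [← F15_prod h.card]
    calc ∏ l, ‖α * q.1 - γ' l t'‖ ≤ ∏ l, (2 * K' * (‖q.1 - Γn cl' γ' T α C t‖
          + ‖t‖ ^ (b (cl' l)) + ‖g C t - g (cl' l) t‖)) :=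
          Finset.prod_le_prod (fun l _ => norm_nonneg _) fun l _ => hfac l
      _ = _ := by
          rw [Finset.prod_mul_distrib]
          simp
  unfold cE
  have hnn : 0 ≤ ∏ C', (‖q.1 - Γn cl' γ' T α C t‖ + ‖t‖ ^ (b C') + ‖g C t - g C' t‖) ^ m C' := by
    refine Finset.prod_nonneg fun C' _ => pow_nonneg ?_ _
    have : 0 ≤ ‖t‖ ^ (b C') := Real.rpow_nonneg (norm_nonneg _) _
    positivity
  calc ‖α‖ * ‖dx G (α * q.1, t' ^ N)‖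
      ≤ ‖α‖ * ((‖u'‖ + 1) * (((‖τ‖ + 1) * ‖t‖) ^ (N * (k - 1 - n)) * ((2 * K') ^ n *
      ∏ C', (‖q.1 - Γn cl' γ' T α C t‖ + ‖t‖ ^ (b C') + ‖g C t - g C' t‖) ^ m C'))) := by
        gcongr
        refine h3.trans ?_
        gcongr
    _ = _ := by rw [mul_pow]; ring

/-- continuity of a product -/
theorem F15_cont (e n : ℕ) : ∀ ε > (0 : ℝ), ∃ η > (0 : ℝ), ∀ (z0 : ℂ) (z : Fin n → ℂ),
    ‖z0‖ ≤ η → (∀ l, ‖z l‖ ≤ η) → ‖(1 + z0) ^ e * ∏ l, (1 + z l) - 1‖ ≤ ε := by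
  intro ε hε
  have hc : Continuous fun p : ℂ × (Fin n → ℂ) => (1 + p.1) ^ e * ∏ l, (1 + p.2 l) - 1 := by
    fun_prop
  have h0 := hc.tendsto 0
  simp only [Prod.fst_zero, add_zero, one_pow, Prod.snd_zero, Pi.zero_apply, Finset.prod_const_one,
    mul_one, sub_self] at h0
  rw [Metric.tendsto_nhds_nhds] at h0
  obtain ⟨δ, hδ, h1⟩ := h0 ε hε
  refine ⟨δ / 2, by positivity, fun z0 z hz0 hz => ?_⟩
  have h2 : dist ((z0, z) : ℂ × (Fin n → ℂ)) 0 < δ := by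
    rw [dist_zero_right, Prod.norm_def]
    refine max_lt (by simpa using hz0.trans_lt (half_lt_self hδ)) ?_
    refine lt_of_le_of_lt ((pi_norm_le_iff_of_nonneg (by positivity)).2 hz) (half_lt_self hδ)
  have h3 := h1 h2
  rw [dist_zero_right] at h3
  exact h3.le

theorem nrm_G2 {F G : ℂ × ℂ → ℂ} {k n N : ℕ} {u u' : ℂ} {c : ℕ} {m : Fin c → ℕ}
    {b : Fin c → ℝ} {g v : Fin c → ℂ → ℂ} {a : Fin c → ℂ} {D : Fin c → ℕ}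
    {γ' : Fin n → ℂ → ℂ} {A B : ℂ × ℂ → ℂ × ℂ} {L ρ : ℝ} {α ω τ : ℂ}
    {cl' : Fin n → Fin c} {T : Fin c → ℂ → ℂ}
    (h : MT F G k n N u u' c m b g v a D γ' A B L ρ α ω τ cl' T) :
    ∀ C1 > (0 : ℝ), ∀ ε > (0 : ℝ), ∃ K > (0 : ℝ), ∃ δ > (0 : ℝ), ∀ (t : ℂ) (q : ℂ × ℂ),
    0 < ‖t‖ → ‖t‖ < δ → ‖q.1‖ < δ * ‖t‖ ^ N → Adm C1 b (Γn cl' γ' T α) (ηn T N ω) t q →
    (∀ C, K * ‖t‖ ^ (b C) ≤ ‖q.1 - Γn cl' γ' T α C t‖) →
    ‖dx (Gn G α ω) q - u * t ^ (N * (k - 1 - n)) *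
        ∏ C, (q.1 - Γn cl' γ' T α C t) ^ m C‖ ≤
      ε * (‖t‖ ^ (N * (k - 1 - n)) * ∏ C, ‖q.1 - Γn cl' γ' T α C t‖ ^ m C) := by
  intro C1 hC1 ε hε
  obtain ⟨K0, hK0, hmain⟩ := F15_main h C1 hC1
  have hN : 1 ≤ N := h.mat.hC.hN
  have hun : 0 < ‖u‖ := norm_pos_iff.2 h.mat.hC.hu
  have hu'n : 0 < ‖u'‖ := norm_pos_iff.2 h.mat.hG.hu
  have hτ0 : τ ≠ 0 := by
    rintro rfl
    have := h.hτ
    rw [zero_pow (by omega)] at this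
    exact h.hω this.symm
  have hτn : 0 < ‖τ‖ := norm_pos_iff.2 hτ0
  have hαn : 0 < ‖α‖ := norm_pos_iff.2 h.hα
  set ε2 : ℝ := min 1 (ε / (2 * ‖u‖)) with hε2
  have hε20 : 0 < ε2 := by positivity
  obtain ⟨η, hη, hcont⟩ := F15_cont (N * (k - 1 - n)) n ε2 hε20
  set ε3 : ℝ := ε / (4 * ‖u‖) with hε3
  have hε30 : 0 < ε3 := by positivity
  obtain ⟨δf, hδf, hfac⟩ := h.mat.hG.fac (ε3 * ‖u'‖) (by positivity)
  obtain ⟨δ, hδ, h1⟩ := hmain (min (η * ‖α‖ / 2) (η * ‖τ‖)) (by positivity) δf hδf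
  refine ⟨2 * K0 / (η * ‖α‖), by positivity, δ, hδ, fun t q ht0 htδ hq hadm hfar => ?_⟩
  obtain ⟨t', f1, f2, f3, f4, f5, f6⟩ := h1 t q ht0 htδ hq hadm
  have h2 := hfac (α * q.1) t' f1 f2 f3
  have ht0' : t ≠ 0 := norm_pos_iff.1 ht0
  -- the relative errors
  set z0 : ℂ := (t' - τ * t) / (τ * t) with hz0
  have hz0n : ‖z0‖ ≤ η := by
    rw [hz0, norm_div, norm_mul, div_le_iff₀ (by positivity)]
    calc ‖t' - τ * t‖ ≤ min (η * ‖α‖ / 2) (η * ‖τ‖) * ‖t‖ := f4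
      _ ≤ η * ‖τ‖ * ‖t‖ := by gcongr; exact min_le_right _ _
      _ = η * (‖τ‖ * ‖t‖) := by ring
  have ht' : t' = τ * t * (1 + z0) := by
    rw [hz0]; field_simp; ring
  have hpos : ∀ C, 0 < ‖q.1 - Γn cl' γ' T α C t‖ := fun C =>
    lt_of_lt_of_le (mul_pos (by positivity) (Real.rpow_pos_of_pos ht0 _)) (hfar C)
  have hne : ∀ C, q.1 - Γn cl' γ' T α C t ≠ 0 := fun C => norm_pos_iff.1 (hpos C)
  set z : Fin n → ℂ := fun l => (α * Γn cl' γ' T α (cl' l) t - γ' l t') /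
    (α * (q.1 - Γn cl' γ' T α (cl' l) t)) with hz
  have hzn : ∀ l, ‖z l‖ ≤ η := by
    intro l
    have i0 := hpos (cl' l)
    rw [hz]
    simp only
    rw [norm_div, norm_mul, div_le_iff₀ (by positivity)]
    have i1 := hfar (cl' l)
    rw [div_mul_eq_mul_div, div_le_iff₀ (by positivity)] at i1
    have i2 : min (η * ‖α‖ / 2) (η * ‖τ‖) * ‖q.1 - Γn cl' γ' T α (cl' l) t‖
        ≤ η * ‖α‖ / 2 * ‖q.1 - Γn cl' γ' T α (cl' l) t‖ := by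
      gcongr; exact min_le_left _ _
    have i3 := f6 l
    nlinarith
  have hfactor : ∀ l, α * q.1 - γ' l t' = α * (q.1 - Γn cl' γ' T α (cl' l) t) * (1 + z l) := by
    intro l
    have i1 := hne (cl' l)
    have i2 := h.hα
    rw [hz]
    simp only
    field_simp
    ring
  have hprod : ∏ l, (α * q.1 - γ' l t') = α ^ n * (∏ C, (q.1 - Γn cl' γ' T α C t) ^ m C) *
      ∏ l, (1 + z l) := by
    rw [← F15_prod h.card (fun C => q.1 - Γn cl' γ' T α C t)]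
    rw [Finset.prod_congr rfl fun l _ => hfactor l, Finset.prod_mul_distrib,
      Finset.prod_mul_distrib]
    simp
  set P : ℂ := ∏ C, (q.1 - Γn cl' γ' T α C t) ^ m C with hP
  set e : ℕ := N * (k - 1 - n) with he
  have hPn : ‖P‖ = ∏ C, ‖q.1 - Γn cl' γ' T α C t‖ ^ m C := by
    rw [hP, norm_prod]
    exact Finset.prod_congr rfl fun C _ => norm_pow _ _
  set W : ℂ := u * t ^ e * P with hW
  have hWn : ‖W‖ = ‖u‖ * (‖t‖ ^ e * ‖P‖) := by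
    rw [hW, norm_mul, norm_mul, norm_pow]; ring
  set R : ℂ := (1 + z0) ^ e * ∏ l, (1 + z l) with hR
  have hR1 : ‖R - 1‖ ≤ ε2 := hcont z0 z hz0n hzn
  have hmainterm : α * (u' * t' ^ e * ∏ l, (α * q.1 - γ' l t')) = W * R := by
    rw [hprod, hW, hR, ht', ← h.hrel, ← h.hτ, he]
    rw [mul_pow, mul_pow, ← pow_mul]
    ring
  have hsize : ‖α‖ * (ε3 * ‖u'‖ * (‖t'‖ ^ e * ∏ l, ‖α * q.1 - γ' l t'‖)) = ε3 * ‖W * R‖ := by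
    rw [← hmainterm, norm_mul, norm_mul, norm_mul, norm_pow, norm_prod]
    ring
  rw [f5, ← hPn]
  have h3 : ‖α * dx G (α * q.1, t' ^ N) - W * R‖ ≤ ε3 * ‖W * R‖ := by
    rw [← hsize, ← hmainterm, ← mul_sub, norm_mul]
    gcongr
  have h4 : ‖W * R - W‖ ≤ ε2 * ‖W‖ := by
    have : W * R - W = (R - 1) * W := by ring
    rw [this, norm_mul]
    gcongr
  have h5 : ‖W * R‖ ≤ 2 * ‖W‖ := by
    have i1 : ‖W * R‖ ≤ ‖W * R - W‖ + ‖W‖ := by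
      have := norm_add_le (W * R - W) W
      rwa [sub_add_cancel] at this
    have i2 : ε2 * ‖W‖ ≤ 1 * ‖W‖ := by gcongr; exact min_le_left _ _
    linarith
  have h6 : ‖α * dx G (α * q.1, t' ^ N) - W‖ ≤ ε3 * (2 * ‖W‖) + ε2 * ‖W‖ := by
    have i1 := norm_add_le (α * dx G (α * q.1, t' ^ N) - W * R) (W * R - W)
    rw [sub_add_sub_cancel] at i1
    have i2 : ε3 * ‖W * R‖ ≤ ε3 * (2 * ‖W‖) := by gcongr
    linarith
  refine h6.trans ?_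
  have h7 : ε2 * ‖W‖ ≤ ε / (2 * ‖u‖) * ‖W‖ := by gcongr; exact min_le_right _ _
  have h8 : ε3 * (2 * ‖W‖) + ε / (2 * ‖u‖) * ‖W‖ = ε * (‖t‖ ^ e * ‖P‖) := by
    rw [hε3, hWn]; field_simp; ring
  linarith

end H24.LS
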