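import Pool.Agent.H24.LS.P0
import Pool.Agent.H24.LS.P1
import Pool.Agent.H24.LS.P2
import Pool.Agent.H24.LS.V0
import Pool.Agent.H24.LS.F0
import Pool.Agent.H24.LS.F14
import Pool.Agent.H24.LS.F2

/-!
# F16: field `G3` of `CFa` for the normalised germ

Notation of F15.  `dy (Gn G α ω) q = ω dy G (x', y')`, `v'_l(s) = dy G (γ'_l s, s^N)`, `C = cl' l` (the fibre of `C` is nonempty).
* `pf3` for `G` in the slice `y' = t'^N` with `x1 = γ'_l t'`: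
  `‖dy G (x',y') - v'_l(t')‖ ≤ ε Ehat e γ' (γ'_l t') ‖x' - γ'_l t'‖ t'`, `‖x' - γ'_l t'‖ ≤ K (s_C + ‖q.1 - Γ_C‖)` by (*) of F15.
  The factor of `l'` (`C' = cl' l'`): `‖x' - γ'_l t'‖ + ‖γ'_l t' - γ'_l' t'‖ ≤ 2 ‖x' - γ'_l t'‖ + ‖x' - γ'_l' t'‖`
  `≤ K (s_C + ‖q.1 - Γ_C‖) + K (s_{C'} + ‖q.1 - Γ_{C'}‖)`, and `‖q.1 - Γ_{C'}‖ ≤ ‖q.1 - Γ_C‖ + 2 ‖g C - g C'‖`; `s_C ≤ ‖g C - g C'‖` if
  `C' ≠ C`.  So `Ehat ≤ K' cE e m b g C ‖q.1 - Γ_C‖ t`.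
* `v'_l(t')` versus `v'_l(T C t)`: by `arc_ord`, `v'_l(s) s^N/s^{D'} → a'' ≠ 0` as `s → 0`, and `t'/t`, `T C t/t` are both within `2ε`
  of `τ`: so `v'_l(t') = v'_l(T C t) (1 + O(ε))`.  By `vlim`, `ω v'_l(T C t) = v C t (1 + o(1))`.  Hence
  `‖ω v'_l(t') - v C t‖ ≤ ε' ‖v C t‖`.
-/

open Filter Topology Metric Asymptotics

namespace H24.LS

theorem F16_chain (G : ℂ × ℂ → ℂ) (α ω : ℂ) (q : ℂ × ℂ)
    (hd : DifferentiableAt ℂ G (α * q.1, ω * q.2)) :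
    dy (Gn G α ω) q = ω * dy G (α * q.1, ω * q.2) := by
  have h2 : HasFDerivAt (fun p : ℂ × ℂ => (α * p.1, ω * p.2))
      ((α • ContinuousLinearMap.fst ℂ ℂ ℂ).prod (ω • ContinuousLinearMap.snd ℂ ℂ ℂ)) q :=
    ((hasFDerivAt_fst).const_mul α).prodMk ((hasFDerivAt_snd).const_mul ω)
  have h1 : HasFDerivAt (Gn G α ω) ((fderiv ℂ G (α * q.1, ω * q.2)).comp
      ((α • ContinuousLinearMap.fst ℂ ℂ ℂ).prod (ω • ContinuousLinearMap.snd ℂ ℂ ℂ))) q :=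
    HasFDerivAt.comp q (g := G) hd.hasFDerivAt h2
  unfold dy
  rw [h1.fderiv]
  have h3 : ((α • ContinuousLinearMap.fst ℂ ℂ ℂ).prod (ω • ContinuousLinearMap.snd ℂ ℂ ℂ))
      ((0, 1) : ℂ × ℂ) = ω • ((0, 1) : ℂ × ℂ) := by
    ext <;> simp
  rw [ContinuousLinearMap.comp_apply, h3, map_smul, smul_eq_mul]

theorem F16_prod {n c : ℕ} (cl' : Fin n → Fin c) (m : Fin c → ℕ)
    (hc : ∀ C, (Finset.univ.filter (fun l => cl' l = C)).card = m C) (f : Fin c → ℝ) :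
    ∏ l, f (cl' l) = ∏ C, f C ^ m C := by
  rw [← Finset.prod_fiberwise (s := Finset.univ) (g := cl')]
  refine Finset.prod_congr rfl fun C _ => ?_
  rw [← hc C, ← Finset.prod_const]
  refine Finset.prod_congr rfl fun l hl => ?_
  rw [(Finset.mem_filter.1 hl).2]

/-- the slope along an arc of `G` is an analytic function of the parameter -/
theorem F16_slope_an {G : ℂ × ℂ → ℂ} {k n N : ℕ} {u : ℂ} {γ : Fin n → ℂ → ℂ}
    (h : PCh G k n N u γ) (l : Fin n) :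
    AnalyticAt ℂ (fun s : ℂ => dy G (γ l s, s ^ N)) 0 := by
  have h1 : AnalyticAt ℂ (fderiv ℂ G) (γ l 0, (0 : ℂ) ^ N) := by
    rw [P2aux.curve_zero h l]
    exact h.an.fderiv
  have h2 : AnalyticAt ℂ (fun s : ℂ => fderiv ℂ G (γ l s, s ^ N)) 0 :=
    h1.comp (f := fun s : ℂ => (γ l s, s ^ N)) (P2aux.curve_an h l)
  have h3 := (ContinuousLinearMap.apply ℂ ℂ ((0, 1) : ℂ × ℂ)).analyticAt
    (fderiv ℂ G (γ l 0, (0 : ℂ) ^ N))
  exact h3.comp (f := fun s : ℂ => fderiv ℂ G (γ l s, s ^ N)) h2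

theorem F16_slow {G : ℂ × ℂ → ℂ} {k n N : ℕ} {u : ℂ} {γ : Fin n → ℂ → ℂ}
    (h : PCh G k n N u γ) :
    ∃ C > (0 : ℝ), ∃ δ > (0 : ℝ), ∀ l, ∀ t t1 : ℂ, 0 < ‖t‖ → ‖t‖ < δ → ‖t1 - t‖ ≤ ‖t‖ / 2 →
      ‖dy G (γ l t1, t1 ^ N) - dy G (γ l t, t ^ N)‖ * ‖t‖ ≤
        C * ‖t1 - t‖ * ‖dy G (γ l t, t ^ N)‖ := by
  choose K hK r hr hrb using fun l => slow_rel _ (F16_slope_an h l)
  rcases isEmpty_or_nonempty (Fin n) with he | hne
  · exact ⟨1, one_pos, 1, one_pos, fun l => (he.false l).elim⟩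
  · obtain ⟨l0, hl0⟩ := Finite.exists_min r
    obtain ⟨l1, hl1⟩ := Finite.exists_max K
    refine ⟨K l1, hK l1, r l0, hr l0, fun l t t1 ht0 ht ht1 => ?_⟩
    refine (hrb l t t1 ht0 (ht.trans_le (hl0 l)) ht1).trans ?_
    refine mul_le_mul_of_nonneg_right ?_ (norm_nonneg _)
    exact mul_le_mul_of_nonneg_right (hl1 l) (norm_nonneg _)

theorem nrm_G3 {F G : ℂ × ℂ → ℂ} {k n N : ℕ} {u u' : ℂ} {c : ℕ} {m : Fin c → ℕ}
    {b : Fin c → ℝ} {g v : Fin c → ℂ → ℂ} {a : Fin c → ℂ} {D : Fin c → ℕ}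
    {γ' : Fin n → ℂ → ℂ} {A B : ℂ × ℂ → ℂ × ℂ} {L ρ : ℝ} {α ω τ : ℂ}
    {cl' : Fin n → Fin c} {T : Fin c → ℂ → ℂ}
    (h : MT F G k n N u u' c m b g v a D γ' A B L ρ α ω τ cl' T) :
    ∀ C1 > (0 : ℝ), ∀ ε > (0 : ℝ), ∃ δ > (0 : ℝ), ∀ (t : ℂ) (q : ℂ × ℂ), 0 < ‖t‖ → ‖t‖ < δ →
    ‖q.1‖ < δ * ‖t‖ ^ N → Adm C1 b (Γn cl' γ' T α) (ηn T N ω) t q → ∀ C,
    ‖dy (Gn G α ω) q - v C t‖ ≤ ε * (‖v C t‖ +
      cE (N * (k - 1 - n)) m b g C ‖q.1 - Γn cl' γ' T α C t‖ t) := by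
  intro C1 hC1 ε hε
  have hN := h.mat.hC.hN
  obtain ⟨K, hK, hroot⟩ := adm_root h C1 hC1
  have hτ0 : τ ≠ 0 := by
    intro h0
    have h1 := h.hτ
    rw [h0, zero_pow (by omega)] at h1
    exact h.hω h1.symm
  have hτn : 0 < ‖τ‖ := norm_pos_iff.2 hτ0
  have hωn : 0 < ‖ω‖ := norm_pos_iff.2 h.hω
  have hαn : 0 < ‖α‖ := norm_pos_iff.2 h.hα
  obtain ⟨K2, hK2⟩ : ∃ K2 : ℝ, K2 = ‖α‖ + K + 1 := ⟨_, rfl⟩
  have hK2p : 0 < K2 := by rw [hK2]; positivity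
  obtain ⟨M, hM⟩ : ∃ M : ℝ, M = ‖τ‖ + 1 := ⟨_, rfl⟩
  have hMp : 1 ≤ M := by rw [hM]; linarith
  have hMp0 : 0 < M := by linarith
  obtain ⟨e, he⟩ : ∃ e : ℕ, e = N * (k - 1 - n) := ⟨_, rfl⟩
  rw [← he]
  obtain ⟨Q, hQ⟩ : ∃ Q : ℝ, Q = M ^ e * (4 * K2) ^ n := ⟨_, rfl⟩
  have hQp : 0 < Q := by rw [hQ]; positivity
  obtain ⟨δ1, hδ1, hpf⟩ := pf3 h.mat.hG (ε / (‖ω‖ * Q)) (by positivity)
  rw [← he] at hpf
  obtain ⟨Cs, hCs, δ2, hδ2, hslow⟩ := F16_slow h.mat.hG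
  obtain ⟨ε1, hε1⟩ : ∃ ε1 : ℝ, ε1 = min (min 1 (‖τ‖ / 8)) (ε * ‖τ‖ / (16 * Cs)) := ⟨_, rfl⟩
  have hε1p : 0 < ε1 := by rw [hε1]; positivity
  have hε1a : ε1 ≤ 1 := by rw [hε1]; exact (min_le_left _ _).trans (min_le_left _ _)
  have hε1b : ε1 ≤ ‖τ‖ / 8 := by rw [hε1]; exact (min_le_left _ _).trans (min_le_right _ _)
  have hε1c : ε1 ≤ ε * ‖τ‖ / (16 * Cs) := by rw [hε1]; exact min_le_right _ _
  obtain ⟨ε4, hε4⟩ : ∃ ε4 : ℝ, ε4 = min (ε / 2) 1 := ⟨_, rfl⟩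
  have hε4p : 0 < ε4 := by rw [hε4]; positivity
  have hε4a : ε4 ≤ ε / 2 := by rw [hε4]; exact min_le_left _ _
  have hε4b : ε4 ≤ 1 := by rw [hε4]; exact min_le_right _ _
  obtain ⟨δ3, hδ3, hroot⟩ := hroot ε1 hε1p
  -- fibres are nonempty
  have hfib : ∀ C, ∃ l, cl' l = C := by
    intro C
    have h1 : 0 < (Finset.univ.filter (fun l => cl' l = C)).card := by
      rw [h.card C]
      exact h.mat.hC.hm C
    obtain ⟨l, hl⟩ := Finset.card_pos.1 h1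
    exact ⟨l, (Finset.mem_filter.1 hl).2⟩
  -- eventual statements in `t`
  have ev1 : ∀ᶠ t in 𝓝[≠] (0 : ℂ), ∀ C, ‖T C t - τ * t‖ ≤ ε1 * ‖t‖ := by
    refine Filter.eventually_all.mpr fun C => ?_
    have h1 := mt_lim h C
    have h2 : ∀ᶠ t in 𝓝[≠] (0 : ℂ), ‖T C t / t - τ‖ < ε1 := by
      have h3 := (tendsto_iff_norm_sub_tendsto_zero.1 h1).eventually (gt_mem_nhds hε1p)
      exact h3
    filter_upwards [h2, self_mem_nhdsWithin] with t ht ht0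
    have ht0' : t ≠ 0 := ht0
    have h3 : T C t - τ * t = (T C t / t - τ) * t := by
      field_simp
    rw [h3, norm_mul]
    exact mul_le_mul_of_nonneg_right ht.le (norm_nonneg _)
  have ev2 : ∀ᶠ t in 𝓝[≠] (0 : ℂ), ∀ l,
      ‖ω * dy G (γ' l (T (cl' l) t), T (cl' l) t ^ N) - v (cl' l) t‖ ≤ ε4 * ‖v (cl' l) t‖ := by
    refine Filter.eventually_all.mpr fun l => ?_
    have h1 := h.vlim l
    have h2 : 0 < min (ε4 / ‖ω‖) (‖ω‖⁻¹) := by positivity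
    have h3 := (tendsto_iff_norm_sub_tendsto_zero.1 h1).eventually (gt_mem_nhds h2)
    filter_upwards [h3] with t ht
    have hv0 : v (cl' l) t ≠ 0 := by
      intro h0
      rw [h0, div_zero, zero_sub, norm_neg, norm_inv] at ht
      exact absurd (lt_of_lt_of_le ht (min_le_right _ _)) (lt_irrefl _)
    have h4 : ω * dy G (γ' l (T (cl' l) t), T (cl' l) t ^ N) - v (cl' l) t =
        ω * (dy G (γ' l (T (cl' l) t), T (cl' l) t ^ N) / v (cl' l) t - ω⁻¹) * v (cl' l) t := by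
      have := h.hω
      field_simp
    rw [h4, norm_mul, norm_mul]
    refine mul_le_mul_of_nonneg_right ?_ (norm_nonneg _)
    have h5 := (lt_of_lt_of_le ht (min_le_left _ _)).le
    rw [le_div_iff₀ hωn] at h5
    linarith
  have ev3 : ∀ᶠ t in 𝓝[≠] (0 : ℂ), ∀ C, ∀ C',
      ‖Γn cl' γ' T α C t - Γn cl' γ' T α C' t‖ ≤ 2 * ‖g C t - g C' t‖ := by
    refine Filter.eventually_all.mpr fun C => Filter.eventually_all.mpr fun C' => ?_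
    have h1 := (Γn_pair h C C').def one_pos
    filter_upwards [h1] with t ht
    have h2 := norm_sub_norm_le (Γn cl' γ' T α C t - Γn cl' γ' T α C' t) (g C t - g C' t)
    linarith
  have ev4 : ∀ᶠ t in 𝓝[≠] (0 : ℂ), ∀ C, ∀ C',
      ‖t‖ ^ (b C) ≤ ‖t‖ ^ (b C') + ‖g C t - g C' t‖ := by
    refine Filter.eventually_all.mpr fun C => Filter.eventually_all.mpr fun C' => ?_
    by_cases hCC : C = C'
    · subst hCC
      refine Filter.Eventually.of_forall fun t => ?_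
      have := norm_nonneg (g C t - g C t)
      linarith
    · have h1 := (h.mat.hC.sep C C' hCC).def one_pos
      filter_upwards [h1] with t ht
      have h2 : 0 ≤ ‖t‖ ^ (b C) := Real.rpow_nonneg (norm_nonneg _) _
      have h3 : 0 ≤ ‖t‖ ^ (b C') := Real.rpow_nonneg (norm_nonneg _) _
      rw [Real.norm_of_nonneg h2] at ht
      linarith
  obtain ⟨δ4, hδ4, hev⟩ := F2_ev ((ev1.and ev2).and (ev3.and ev4))
  obtain ⟨δ5, hδ5, hgs⟩ : ∃ δ5 > (0 : ℝ), ∀ t : ℂ, 0 < ‖t‖ → ‖t‖ < δ5 →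
      ∀ l, ‖γ' l t‖ < δ1 * ‖t‖ ^ N := by
    refine F2_ev (P := fun t => ∀ l, ‖γ' l t‖ < δ1 * ‖t‖ ^ N) ?_
    refine Filter.eventually_all.mpr fun l => ?_
    filter_upwards [P2aux.small_of h.mat.hG l hδ1] with t ht
    exact ht.2.2
  obtain ⟨δ6, hδ6, hdiff⟩ : ∃ δ6 > (0 : ℝ), ∀ p : ℂ × ℂ, ‖p‖ < δ6 → DifferentiableAt ℂ G p := by
    obtain ⟨r, hr, hrb⟩ := Metric.eventually_nhds_iff_ball.mp h.mat.hG.an.eventually_analyticAt
    exact ⟨r, hr, fun p hp => (hrb p (by rwa [mem_ball_zero_iff])).differentiableAt⟩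
  obtain ⟨d0, hd0⟩ : ∃ d0 : ℝ, d0 = min (min 1 δ1) (min (min δ2 δ5) δ6) := ⟨_, rfl⟩
  have hd0p : 0 < d0 := by rw [hd0]; positivity
  have hd0a : d0 ≤ 1 := by rw [hd0]; exact (min_le_left _ _).trans (min_le_left _ _)
  have hd0b : d0 ≤ δ1 := by rw [hd0]; exact (min_le_left _ _).trans (min_le_right _ _)
  have hd0c : d0 ≤ δ2 := by
    rw [hd0]; exact (min_le_right _ _).trans ((min_le_left _ _).trans (min_le_left _ _))
  have hd0d : d0 ≤ δ5 := by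
    rw [hd0]; exact (min_le_right _ _).trans ((min_le_left _ _).trans (min_le_right _ _))
  have hd0e : d0 ≤ δ6 := by rw [hd0]; exact (min_le_right _ _).trans (min_le_right _ _)
  refine ⟨min (min δ3 δ4) (min (d0 / M) (min (d0 / ‖α‖) (d0 * (‖τ‖ / 2) ^ N / ‖α‖))),
    by positivity, ?_⟩
  intro t q ht0 ht hq hadm C
  obtain ⟨δ, hδ⟩ : ∃ δ : ℝ, δ = min (min δ3 δ4) (min (d0 / M) (min (d0 / ‖α‖)
    (d0 * (‖τ‖ / 2) ^ N / ‖α‖))) := ⟨_, rfl⟩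
  rw [← hδ] at ht hq
  have e1 : δ ≤ δ3 := by rw [hδ]; exact (min_le_left _ _).trans (min_le_left _ _)
  have e2 : δ ≤ δ4 := by rw [hδ]; exact (min_le_left _ _).trans (min_le_right _ _)
  have e3 : δ ≤ d0 / M := by rw [hδ]; exact (min_le_right _ _).trans (min_le_left _ _)
  have e4 : δ ≤ d0 / ‖α‖ := by
    rw [hδ]; exact (min_le_right _ _).trans ((min_le_right _ _).trans (min_le_left _ _))
  have e5 : δ ≤ d0 * (‖τ‖ / 2) ^ N / ‖α‖ := by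
    rw [hδ]; exact (min_le_right _ _).trans ((min_le_right _ _).trans (min_le_right _ _))
  have htN : 0 < ‖t‖ ^ N := pow_pos ht0 N
  obtain ⟨t', ht'N, ht'τ, -, hgam⟩ := hroot t q ht0 (ht.trans_le e1)
    (hq.trans_le (mul_le_mul_of_nonneg_right e1 htN.le)) hadm
  obtain ⟨⟨v1, v2⟩, v3, v4⟩ := hev t ht0 (ht.trans_le e2)
  -- sizes
  have hτt : ‖τ * t‖ = ‖τ‖ * ‖t‖ := norm_mul _ _
  have hMt : M * ‖t‖ < d0 := by
    have h1 : ‖t‖ < d0 / M := ht.trans_le e3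
    rw [lt_div_iff₀ hMp0] at h1
    linarith
  have ht1 : ‖t‖ < d0 := by
    have := mul_le_mul_of_nonneg_right hMp ht0.le
    linarith
  have t'up : ‖t'‖ ≤ M * ‖t‖ := by
    have h1 := norm_add_le (t' - τ * t) (τ * t)
    rw [sub_add_cancel, hτt] at h1
    have h2 := mul_le_mul_of_nonneg_right hε1a ht0.le
    rw [hM]
    linarith
  have t'lo : ‖τ‖ / 2 * ‖t‖ ≤ ‖t'‖ := by
    have h1 := norm_sub_norm_le (τ * t) t'
    rw [norm_sub_rev, hτt] at h1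
    have h2 := mul_le_mul_of_nonneg_right hε1b ht0.le
    have h3 : 0 < ‖τ‖ * ‖t‖ := mul_pos hτn ht0
    linarith
  have t'0 : 0 < ‖t'‖ := lt_of_lt_of_le (by positivity) t'lo
  have Tup : ∀ C, ‖T C t‖ ≤ M * ‖t‖ := by
    intro C
    have h1 := norm_add_le (T C t - τ * t) (τ * t)
    rw [sub_add_cancel, hτt] at h1
    have h2 := mul_le_mul_of_nonneg_right hε1a ht0.le
    have h3 := v1 C
    rw [hM]
    linarith
  have Tlo : ∀ C, ‖τ‖ / 2 * ‖t‖ ≤ ‖T C t‖ := by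
    intro C
    have h1 := norm_sub_norm_le (τ * t) (T C t)
    rw [norm_sub_rev, hτt] at h1
    have h2 := mul_le_mul_of_nonneg_right hε1b ht0.le
    have h3 : 0 < ‖τ‖ * ‖t‖ := mul_pos hτn ht0
    have h4 := v1 C
    linarith
  have hx' : ‖α * q.1‖ < d0 * ‖t'‖ ^ N := by
    rw [norm_mul]
    have h1 : (‖τ‖ / 2) ^ N * ‖t‖ ^ N ≤ ‖t'‖ ^ N := by
      rw [← mul_pow]
      exact pow_le_pow_left₀ (by positivity) t'lo N
    have h2 : ‖q.1‖ < d0 * (‖τ‖ / 2) ^ N / ‖α‖ * ‖t‖ ^ N :=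
      hq.trans_le (mul_le_mul_of_nonneg_right e5 htN.le)
    calc ‖α‖ * ‖q.1‖ < ‖α‖ * (d0 * (‖τ‖ / 2) ^ N / ‖α‖ * ‖t‖ ^ N) :=
          mul_lt_mul_of_pos_left h2 hαn
      _ = d0 * ((‖τ‖ / 2) ^ N * ‖t‖ ^ N) := by field_simp
      _ ≤ d0 * ‖t'‖ ^ N := mul_le_mul_of_nonneg_left h1 hd0p.le
  have t'1 : ‖t'‖ < d0 := t'up.trans_lt hMt
  have t'N1 : ‖t'‖ ^ N ≤ ‖t'‖ := by
    calc ‖t'‖ ^ N ≤ ‖t'‖ ^ 1 := pow_le_pow_of_le_one t'0.le (by linarith) hN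
      _ = ‖t'‖ := pow_one _
  have t'N2 : ‖t'‖ ^ N ≤ 1 := by linarith
  have hdG : DifferentiableAt ℂ G (α * q.1, ω * q.2) := by
    refine hdiff _ ?_
    rw [Prod.norm_def, max_lt_iff]
    constructor
    · have h1 : d0 * ‖t'‖ ^ N ≤ d0 * 1 := mul_le_mul_of_nonneg_left t'N2 hd0p.le
      simp only
      linarith
    · simp only
      rw [← ht'N, norm_pow]
      linarith
  rw [F16_chain G α ω q hdG, ← ht'N]
  obtain ⟨l, hl⟩ := hfib C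
  -- distances
  obtain ⟨r, hr⟩ : ∃ r : Fin c → ℝ, ∀ C, r C = ‖q.1 - Γn cl' γ' T α C t‖ := ⟨_, fun _ => rfl⟩
  have hr0 : ∀ C, 0 ≤ r C := fun C => by rw [hr]; exact norm_nonneg _
  have hs0 : ∀ C, 0 ≤ ‖t‖ ^ (b C) := fun C => Real.rpow_nonneg (norm_nonneg _) _
  have hdist : ∀ j, ‖α * q.1 - γ' j t'‖ ≤ K2 * (‖t‖ ^ (b (cl' j)) + r (cl' j)) := by
    intro j
    have h1 : α * q.1 - γ' j t' = α * (q.1 - Γn cl' γ' T α (cl' j) t) +
        (α * Γn cl' γ' T α (cl' j) t - γ' j t') := by ring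
    have h2 := hgam j
    rw [h1]
    refine (norm_add_le _ _).trans ?_
    rw [norm_mul]
    rw [← hr] at h2 ⊢
    have h3 := mul_le_mul_of_nonneg_right hε1a (hr0 (cl' j))
    have h4 := hr0 (cl' j)
    have h5 := hs0 (cl' j)
    have h6 : 0 ≤ K * r (cl' j) := mul_nonneg hK.le h4
    have h7 : 0 ≤ ‖α‖ * ‖t‖ ^ (b (cl' j)) := mul_nonneg hαn.le h5
    rw [hK2]
    nlinarith
  have hrr : ∀ j, r (cl' j) ≤ r C + 2 * ‖g C t - g (cl' j) t‖ := by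
    intro j
    have h1 := v3 C (cl' j)
    have h2 : q.1 - Γn cl' γ' T α (cl' j) t = (q.1 - Γn cl' γ' T α C t) +
        (Γn cl' γ' T α C t - Γn cl' γ' T α (cl' j) t) := by ring
    rw [hr, hr, h2]
    exact (norm_add_le _ _).trans (by linarith)
  have hfac : ∀ j, ‖α * q.1 - γ' l t'‖ + ‖γ' l t' - γ' j t'‖ ≤
      4 * K2 * (r C + ‖t‖ ^ (b (cl' j)) + ‖g C t - g (cl' j) t‖) := by
    intro j
    have h1 := hdist l
    have h2 := hdist j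
    rw [hl] at h1
    have h3 := v4 C (cl' j)
    have h4 := hrr j
    have h5 : ‖γ' l t' - γ' j t'‖ ≤ ‖α * q.1 - γ' l t'‖ + ‖α * q.1 - γ' j t'‖ := by
      have h6 : γ' l t' - γ' j t' = (α * q.1 - γ' j t') - (α * q.1 - γ' l t') := by ring
      rw [h6]
      exact (norm_sub_le _ _).trans (by linarith)
    have h7 : ‖α * q.1 - γ' l t'‖ + ‖γ' l t' - γ' j t'‖ ≤
        K2 * (2 * (‖t‖ ^ (b C) + r C) + (‖t‖ ^ (b (cl' j)) + r (cl' j))) := by linarith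
    refine h7.trans ?_
    have h8 : 4 * K2 * (r C + ‖t‖ ^ (b (cl' j)) + ‖g C t - g (cl' j) t‖) =
      K2 * (4 * (r C + ‖t‖ ^ (b (cl' j)) + ‖g C t - g (cl' j) t‖)) := by ring
    rw [h8]
    refine mul_le_mul_of_nonneg_left ?_ hK2p.le
    have h9 := hr0 C
    have h10 := hs0 (cl' j)
    linarith
  have hEh : Ehat e γ' (γ' l t') ‖α * q.1 - γ' l t'‖ t' ≤ Q * cE e m b g C (r C) t := by
    unfold Ehat cE
    have h1 : ‖t'‖ ^ e ≤ M ^ e * ‖t‖ ^ e := by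
      rw [← mul_pow]
      exact pow_le_pow_left₀ (norm_nonneg _) t'up e
    have h2 : ∏ j, (‖α * q.1 - γ' l t'‖ + ‖γ' l t' - γ' j t'‖) ≤
        (4 * K2) ^ n * ∏ C', (r C + ‖t‖ ^ (b C') + ‖g C t - g C' t‖) ^ m C' := by
      rw [← F16_prod cl' m h.card (fun C' => r C + ‖t‖ ^ (b C') + ‖g C t - g C' t‖)]
      have h3 : ∏ j : Fin n, (4 * K2 * (r C + ‖t‖ ^ (b (cl' j)) + ‖g C t - g (cl' j) t‖)) =
          (4 * K2) ^ n * ∏ j, (r C + ‖t‖ ^ (b (cl' j)) + ‖g C t - g (cl' j) t‖) := by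
        rw [Finset.prod_mul_distrib, Finset.prod_const, Finset.card_univ, Fintype.card_fin]
      rw [← h3]
      exact Finset.prod_le_prod (fun j _ => by positivity) (fun j _ => hfac j)
    have h4 : 0 ≤ ∏ j, (‖α * q.1 - γ' l t'‖ + ‖γ' l t' - γ' j t'‖) :=
      Finset.prod_nonneg fun j _ => by positivity
    calc _ ≤ (M ^ e * ‖t‖ ^ e) *
          ((4 * K2) ^ n * ∏ C', (r C + ‖t‖ ^ (b C') + ‖g C t - g C' t‖) ^ m C') :=
          mul_le_mul h1 h2 h4 (by positivity)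
      _ = _ := by rw [hQ]; ring
  -- first term
  have st1 : ‖ω‖ * ‖dy G (α * q.1, t' ^ N) - dy G (γ' l t', t' ^ N)‖ ≤
      ε * cE e m b g C (r C) t := by
    have h1 := hpf (α * q.1) (γ' l t') t' t'0 (by linarith)
      (hx'.trans_le (mul_le_mul_of_nonneg_right hd0b (pow_nonneg t'0.le _)))
      (hgs t' t'0 (by linarith) l)
    calc ‖ω‖ * ‖dy G (α * q.1, t' ^ N) - dy G (γ' l t', t' ^ N)‖
        ≤ ‖ω‖ * (ε / (‖ω‖ * Q) * (Q * cE e m b g C (r C) t)) := by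
          refine mul_le_mul_of_nonneg_left (h1.trans ?_) hωn.le
          exact mul_le_mul_of_nonneg_left hEh (by positivity)
      _ = _ := by field_simp
  -- third term
  have st3 := v2 l
  rw [hl] at st3
  obtain ⟨P, hP⟩ : ∃ P : ℂ, P = dy G (γ' l (T C t), T C t ^ N) := ⟨_, rfl⟩
  rw [← hP] at st3
  have hPv : ‖ω‖ * ‖P‖ ≤ 2 * ‖v C t‖ := by
    have h1 := norm_add_le (ω * P - v C t) (v C t)
    rw [sub_add_cancel, norm_mul] at h1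
    have h2 := mul_le_mul_of_nonneg_right hε4b (norm_nonneg (v C t))
    linarith
  -- second term
  have st2 : ‖ω‖ * ‖dy G (γ' l t', t' ^ N) - P‖ ≤ ε / 2 * ‖v C t‖ := by
    have h1 : ‖t' - T C t‖ ≤ 2 * ε1 * ‖t‖ := by
      have h2 : t' - T C t = (t' - τ * t) - (T C t - τ * t) := by ring
      rw [h2]
      refine (norm_sub_le _ _).trans ?_
      have h3 := v1 C
      linarith
    have hT0 : 0 < ‖T C t‖ := lt_of_lt_of_le (by positivity) (Tlo C)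
    have h2 : ‖t' - T C t‖ ≤ ‖T C t‖ / 2 := by
      have h3 := Tlo C
      have h4 := mul_le_mul_of_nonneg_right hε1b ht0.le
      linarith
    have h3 := hslow l (T C t) t' hT0 (by have := Tup C; linarith) h2
    rw [← hP] at h3
    have h4 : ‖dy G (γ' l t', t' ^ N) - P‖ * (‖τ‖ / 2 * ‖t‖) ≤
        Cs * (2 * ε1 * ‖t‖) * ‖P‖ := by
      calc ‖dy G (γ' l t', t' ^ N) - P‖ * (‖τ‖ / 2 * ‖t‖)
          ≤ ‖dy G (γ' l t', t' ^ N) - P‖ * ‖T C t‖ :=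
            mul_le_mul_of_nonneg_left (Tlo C) (norm_nonneg _)
        _ ≤ Cs * ‖t' - T C t‖ * ‖P‖ := h3
        _ ≤ Cs * (2 * ε1 * ‖t‖) * ‖P‖ := by gcongr
    have h5 : ‖dy G (γ' l t', t' ^ N) - P‖ ≤ 4 * Cs * ε1 / ‖τ‖ * ‖P‖ := by
      have h6 : ‖dy G (γ' l t', t' ^ N) - P‖ * (‖τ‖ / 2 * ‖t‖) ≤
          4 * Cs * ε1 / ‖τ‖ * ‖P‖ * (‖τ‖ / 2 * ‖t‖) := by
        refine h4.trans (le_of_eq ?_)
        field_simp
        ring
      exact le_of_mul_le_mul_right h6 (by positivity)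
    have h7 : 4 * Cs * ε1 / ‖τ‖ ≤ ε / 4 := by
      rw [div_le_iff₀ hτn]
      rw [le_div_iff₀ (by positivity)] at hε1c
      linarith
    calc ‖ω‖ * ‖dy G (γ' l t', t' ^ N) - P‖ ≤ ‖ω‖ * (ε / 4 * ‖P‖) := by
          refine mul_le_mul_of_nonneg_left (h5.trans ?_) hωn.le
          exact mul_le_mul_of_nonneg_right h7 (norm_nonneg _)
      _ = ε / 4 * (‖ω‖ * ‖P‖) := by ring
      _ ≤ ε / 4 * (2 * ‖v C t‖) := mul_le_mul_of_nonneg_left hPv (by positivity)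
      _ = _ := by ring
  have hsplit : ω * dy G (α * q.1, t' ^ N) - v C t =
      ω * (dy G (α * q.1, t' ^ N) - dy G (γ' l t', t' ^ N)) +
      ω * (dy G (γ' l t', t' ^ N) - P) + (ω * P - v C t) := by ring
  rw [hsplit]
  refine (norm_add₃_le).trans ?_
  rw [norm_mul, norm_mul, ← hr]
  have h1 := mul_le_mul_of_nonneg_right hε4a (norm_nonneg (v C t))
  have h2 : ε * (‖v C t‖ + cE e m b g C (r C) t) =
    ε * cE e m b g C (r C) t + ε / 2 * ‖v C t‖ + ε / 2 * ‖v C t‖ := by ring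
  rw [h2]
  linarith

end H24.LS
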