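import Pool.Agent.H24.LS.F14
import Pool.Agent.H24.LS.F15
import Pool.Agent.H24.LS.F16

/-!
# F17: the matching theorem (assembly; proved here)
-/

open Filter Topology Metric Asymptotics

namespace H24.LS

theorem cfa_of_mt {F G : ℂ × ℂ → ℂ} {k n N : ℕ} {u u' : ℂ} {c : ℕ} {m : Fin c → ℕ}
    {b : Fin c → ℝ} {g v : Fin c → ℂ → ℂ} {a : Fin c → ℂ} {D : Fin c → ℕ}
    {γ' : Fin n → ℂ → ℂ} {A B : ℂ × ℂ → ℂ × ℂ} {L ρ : ℝ} {α ω τ : ℂ}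
    {cl' : Fin n → Fin c} {T : Fin c → ℂ → ℂ}
    (h : MT F G k n N u u' c m b g v a D γ' A B L ρ α ω τ cl' T) :
    CFa F (Gn G α ω) k n N u c m b g v (Γn cl' γ' T α) (ηn T N ω) a D where
  clu := h.mat.hC
  anG := by
    have h1 : AnalyticAt ℂ (fun p : ℂ × ℂ => ((α * p.1, ω * p.2) : ℂ × ℂ)) 0 :=
      AnalyticAt.prod (analyticAt_const.mul analyticAt_fst) (analyticAt_const.mul analyticAt_snd)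
    have h2 : AnalyticAt ℂ G ((fun p : ℂ × ℂ => ((α * p.1, ω * p.2) : ℂ × ℂ)) 0) := by
      have h3 : (fun p : ℂ × ℂ => ((α * p.1, ω * p.2) : ℂ × ℂ)) 0 = 0 := by simp
      rw [h3]
      exact h.mat.hG.an
    exact AnalyticAt.comp (g := G) (f := fun p : ℂ × ℂ => ((α * p.1, ω * p.2) : ℂ × ℂ)) h2 h1
  Γan := Γn_an h
  ηan := ηn_an h
  Γsm := Γn_sm h
  ηsm := ηn_sm h
  ηpair := ηn_pair h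
  Γpair := Γn_pair h
  val := Gn_val h
  G1 := nrm_G1 h
  G2 := nrm_G2 h
  G3 := nrm_G3 h
  inv := Gn_inv h

theorem match_main {F G : ℂ × ℂ → ℂ} {k n n' N : ℕ} {u u' : ℂ} {c : ℕ} {m : Fin c → ℕ}
    {b : Fin c → ℝ} {g v : Fin c → ℂ → ℂ} {a : Fin c → ℂ} {D : Fin c → ℕ}
    {γ' : Fin n' → ℂ → ℂ} {A B : ℂ × ℂ → ℂ × ℂ} {L ρ : ℝ}
    (h : Mat F G k n n' N u u' c m b g v a D γ' A B L ρ) :
    n' = n ∧ ∃ (α ω : ℂ) (Γ η : Fin c → ℂ → ℂ), α ≠ 0 ∧ ω ≠ 0 ∧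
      α ^ (n + 1) * ω ^ (k - 1 - n) * u' = u ∧
      (∀ ε > (0 : ℝ), ∃ δ1 > (0 : ℝ), ∀ δ2 > (0 : ℝ), ∃ δ3 > (0 : ℝ), ∀ x y : ℂ,
        0 < ‖y‖ → ‖y‖ < δ3 → δ2 * ‖y‖ ≤ ‖x‖ → ‖x‖ ≤ δ1 * ‖y‖ →
        ‖(A (x, y)).1 - α * x‖ ≤ ε * ‖x‖) ∧
      (∀ ε > (0 : ℝ), ∃ δ > (0 : ℝ), ∀ x y : ℂ, ‖y‖ < δ → ‖x‖ ≤ δ * ‖y‖ →
        ‖(A (x, y)).2 - ω * y‖ ≤ ε * ‖y‖) ∧
      CFa F (Gn G α ω) k n N u c m b g v Γ η a D := by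
  refine ⟨nn h, ?_⟩
  obtain ⟨γ'', α, ω, τ, cl', T, hM⟩ := mt_exists h
  exact ⟨α, ω, _, _, hM.hα, hM.hω, hM.hrel, hM.root1, hM.root2, cfa_of_mt hM⟩

end H24.LS
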