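import Pool.Agent.H24.LS.P0

/-!
# G0: definitions for the solution of `F = G ∘ (h1, h2)` in a chart
-/

open Filter Topology Metric Asymptotics

namespace H24.LS

/-- truncated punctured cone around the line `x = 0` -/
def Ud (a ρ : ℝ) : Set (ℂ × ℂ) := {p | 0 < ‖p.2‖ ∧ ‖p.2‖ < ρ ∧ ‖p.1‖ < a * ‖p.2‖}

theorem isOpen_Ud (a ρ : ℝ) : IsOpen (Ud a ρ) := by
  have h1 : IsOpen {p : ℂ × ℂ | 0 < ‖p.2‖} :=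
    isOpen_lt continuous_const (continuous_norm.comp continuous_snd)
  have h2 : IsOpen {p : ℂ × ℂ | ‖p.2‖ < ρ} :=
    isOpen_lt (continuous_norm.comp continuous_snd) continuous_const
  have h3 : IsOpen {p : ℂ × ℂ | ‖p.1‖ < a * ‖p.2‖} :=
    isOpen_lt (continuous_norm.comp continuous_fst)
      (continuous_const.mul (continuous_norm.comp continuous_snd))
  exact h1.inter (h2.inter h3)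

/-- first approximation `(X0, Y)` of the solution: `Y` is the second component, `X0` the initial guess for
the first component. -/
structure SDat {c : ℕ} (N : ℕ) (b : Fin c → ℝ) (γ Γ η : Fin c → ℂ → ℂ) (Y X0 : ℂ × ℂ → ℂ)
    (C1 ε a ρ : ℝ) : Prop where
  ha : 0 < a
  hρ : 0 < ρ
  cY : ∀ p ∈ Ud a ρ, ContDiffAt ℝ 1 Y p
  cX : ∀ p ∈ Ud a ρ, ContDiffAt ℝ 1 X0 p
  S1 : ∀ x t : ℂ, (x, t ^ N) ∈ Ud a ρ → ∀ C,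
    ‖Y (x, t ^ N) - η C t‖ ≤ C1 * (‖t‖ ^ (b C) + ‖x - γ C t‖)
  S2 : ∀ x t : ℂ, (x, t ^ N) ∈ Ud a ρ → ∀ C,
    ‖X0 (x, t ^ N) - Γ C t - (x - γ C t)‖ ≤ ε * (‖t‖ ^ (b C) + ‖x - γ C t‖)
  S3 : ∀ p ∈ Ud a ρ, ∀ v w : ℂ, ‖fderiv ℝ Y p (v, w) - w‖ ≤ C1 * ‖v‖ + ε * ‖w‖
  S4 : ∀ p ∈ Ud a ρ, ∀ v w : ℂ, ‖fderiv ℝ X0 p (v, w) - v‖ ≤ ε * (‖v‖ + ‖w‖)

/-- `dm (x, t^N)` is the minimum over `C` of `‖x - γ C t‖`, `km (x, t^N)` the minimum of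
`‖x - γ C t‖/‖t‖^(b C)`. -/
structure Mins {c : ℕ} (N : ℕ) (b : Fin c → ℝ) (γ : Fin c → ℂ → ℂ) (dm km : ℂ × ℂ → ℝ)
    (ρ0 : ℝ) : Prop where
  h0 : 0 < ρ0
  cd : ∀ p ∈ Ud 1 ρ0, ContinuousAt dm p
  ck : ∀ p ∈ Ud 1 ρ0, ContinuousAt km p
  d1 : ∀ x t : ℂ, (x, t ^ N) ∈ Ud 1 ρ0 → ∀ C, dm (x, t ^ N) ≤ ‖x - γ C t‖
  d2 : ∀ x t : ℂ, (x, t ^ N) ∈ Ud 1 ρ0 → ∃ C, dm (x, t ^ N) = ‖x - γ C t‖
  k1 : ∀ x t : ℂ, (x, t ^ N) ∈ Ud 1 ρ0 → ∀ C, km (x, t ^ N) * ‖t‖ ^ (b C) ≤ ‖x - γ C t‖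
  k2 : ∀ x t : ℂ, (x, t ^ N) ∈ Ud 1 ρ0 → ∃ C, km (x, t ^ N) * ‖t‖ ^ (b C) = ‖x - γ C t‖

/-- expected size of `dx F` away from the clusters -/
noncomputable def PM {c : ℕ} (e : ℕ) (m : Fin c → ℕ) (γ : Fin c → ℂ → ℂ) (x t : ℂ) : ℝ :=
  ‖t‖ ^ e * ∏ C, ‖x - γ C t‖ ^ m C

end H24.LS
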