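import Pool.Agent.H24.LS.G0

/-!
# G1: functions of `(x, t)` invariant under `t ↦ ζ t`, `ζ^N = 1`, are functions of `(x, t^N)`

Define `Ψ (x, y) = Φ (x, root y)` with any choice `root y` of an `N`-th root (`y^(1/N)` principal power, or
`Classical.choose`).  If `t^N = y ≠ 0` then `t = ζ root y` with `ζ^N = 1`, so `Ψ (x, t^N) = Φ (x, t)`.
Near a point `(x0, t0^N)`, `t0 ≠ 0`, there is a holomorphic local branch `r(y)` of the `N`-th root with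
`r(t0^N) = t0` (`r y = t0 (y/t0^N)^(1/N)`), and `Ψ (x,y) = Φ (x, r y)` for `(x,y)` near `(x0, t0^N)`; so `Ψ` is continuous
resp. `C^1` there; `r'(t0^N) = 1/(N t0^(N-1))`; chain rule.
-/

open Filter Topology Metric Asymptotics

namespace H24.LS

theorem G1_ru (N : ℕ) (hN : 1 ≤ N) (t s : ℂ) (ht : t ≠ 0) (h : s ^ N = t ^ N) :
    ∃ ζ : ℂ, ζ ^ N = 1 ∧ ‖ζ‖ = 1 ∧ s = ζ * t := by
  have h1 : (s / t) ^ N = 1 := by
    rw [div_pow, h, div_self (pow_ne_zero _ ht)]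
  exact ⟨s / t, h1, Complex.norm_eq_one_of_pow_eq_one h1 (by omega), by rw [div_mul_cancel₀ _ ht]⟩

/-- the local branch of the root -/
noncomputable def G1_rho (N : ℕ) (t : ℂ) (y : ℂ) : ℂ := t * (y / t ^ N) ^ ((N : ℂ)⁻¹)

theorem G1_rho_pow (N : ℕ) (hN : 1 ≤ N) (t : ℂ) (ht : t ≠ 0) (y : ℂ) :
    G1_rho N t y ^ N = y := by
  unfold G1_rho
  rw [mul_pow, Complex.cpow_nat_inv_pow _ (by omega), mul_div_cancel₀ _ (pow_ne_zero _ ht)]

theorem G1_rho_self (N : ℕ) (t : ℂ) (ht : t ≠ 0) : G1_rho N t (t ^ N) = t := by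
  unfold G1_rho
  rw [div_self (pow_ne_zero _ ht), Complex.one_cpow, mul_one]

theorem G1_rho_an (N : ℕ) (t : ℂ) (ht : t ≠ 0) : AnalyticAt ℂ (G1_rho N t) (t ^ N) := by
  unfold G1_rho
  refine analyticAt_const.mul (AnalyticAt.cpow ?_ analyticAt_const ?_)
  · exact analyticAt_id.div analyticAt_const (pow_ne_zero _ ht)
  · rw [div_self (pow_ne_zero _ ht)]
    exact Complex.one_mem_slitPlane

theorem G1_rho_deriv (N : ℕ) (hN : 1 ≤ N) (t : ℂ) (ht : t ≠ 0) :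
    HasDerivAt (G1_rho N t) (1 / (N * t ^ (N - 1))) (t ^ N) := by
  have h1 : HasDerivAt (G1_rho N t) (deriv (G1_rho N t) (t ^ N)) (t ^ N) :=
    (G1_rho_an N t ht).differentiableAt.hasDerivAt
  have h2 : HasDerivAt (fun y => G1_rho N t y ^ N)
      ((N : ℂ) * G1_rho N t (t ^ N) ^ (N - 1) * deriv (G1_rho N t) (t ^ N)) (t ^ N) := h1.pow N
  have h3 : (fun y => G1_rho N t y ^ N) = fun y => y := funext fun y => G1_rho_pow N hN t ht y
  rw [h3, G1_rho_self N t ht] at h2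
  have h4 := h2.unique (hasDerivAt_id (t ^ N))
  have hN0 : (N : ℂ) ≠ 0 := by
    have : N ≠ 0 := by omega
    exact_mod_cast this
  have h5 : deriv (G1_rho N t) (t ^ N) = 1 / (N * t ^ (N - 1)) := by
    rw [eq_div_iff (mul_ne_zero hN0 (pow_ne_zero _ ht)), mul_comm]
    exact h4
  rw [← h5]
  exact h1

theorem descend {E : Type*} [NormedAddCommGroup E] [NormedSpace ℝ E] (N : ℕ) (hN : 1 ≤ N) (r : ℝ)
    (Φ : ℂ × ℂ → E)
    (hinv : ∀ ζ : ℂ, ζ ^ N = 1 → ∀ x t : ℂ, 0 < ‖t‖ → ‖t‖ < r → Φ (x, ζ * t) = Φ (x, t)) :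
    ∃ Ψ : ℂ × ℂ → E, ∀ x t : ℂ, 0 < ‖t‖ → ‖t‖ < r → Ψ (x, t ^ N) = Φ (x, t) ∧
      (ContinuousAt Φ (x, t) → ContinuousAt Ψ (x, t ^ N)) ∧
      (ContDiffAt ℝ 1 Φ (x, t) → ContDiffAt ℝ 1 Ψ (x, t ^ N) ∧
        ∀ v w : ℂ, fderiv ℝ Ψ (x, t ^ N) (v, w) =
          fderiv ℝ Φ (x, t) (v, w / (N * t ^ (N - 1)))) := by
  have hroot : ∀ y : ℂ, (y ^ ((N : ℂ)⁻¹)) ^ N = y := fun y =>
    Complex.cpow_nat_inv_pow y (by omega)
  have hΨ : ∀ x y ρ : ℂ, ρ ^ N = y → 0 < ‖ρ‖ → ‖ρ‖ < r →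
      Φ (x, y ^ ((N : ℂ)⁻¹)) = Φ (x, ρ) := by
    intro x y ρ h1 h2 h3
    obtain ⟨ζ, hζ, -, h4⟩ := G1_ru N hN ρ (y ^ ((N : ℂ)⁻¹)) (norm_pos_iff.1 h2)
      (by rw [hroot, h1])
    rw [h4]
    exact hinv ζ hζ x ρ h2 h3
  refine ⟨fun p => Φ (p.1, p.2 ^ ((N : ℂ)⁻¹)), ?_⟩
  intro x t ht0 htr
  have ht : t ≠ 0 := norm_pos_iff.1 ht0
  have hcρ : ContinuousAt (G1_rho N t) (t ^ N) := (G1_rho_an N t ht).continuousAt
  have hev : (fun p : ℂ × ℂ => Φ (p.1, p.2 ^ ((N : ℂ)⁻¹))) =ᶠ[𝓝 (x, t ^ N)]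
      fun p => Φ (p.1, G1_rho N t p.2) := by
    have h1 : ∀ᶠ y in 𝓝 (t ^ N), 0 < ‖G1_rho N t y‖ ∧ ‖G1_rho N t y‖ < r := by
      have h2 : Tendsto (fun y => ‖G1_rho N t y‖) (𝓝 (t ^ N)) (𝓝 ‖t‖) := by
        have h3 := hcρ.norm.tendsto
        rwa [G1_rho_self N t ht] at h3
      exact (h2.eventually (lt_mem_nhds ht0)).and (h2.eventually (gt_mem_nhds htr))
    have h2 : Tendsto (fun p : ℂ × ℂ => p.2) (𝓝 (x, t ^ N)) (𝓝 (t ^ N)) :=
      continuous_snd.tendsto _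
    filter_upwards [h2.eventually h1] with p hp
    exact hΨ p.1 p.2 _ (G1_rho_pow N hN t ht p.2) hp.1 hp.2
  have hmap : (x, G1_rho N t (t ^ N)) = (x, t) := by rw [G1_rho_self N t ht]
  refine ⟨hΨ x (t ^ N) t rfl ht0 htr, ?_, ?_⟩
  · intro hc
    have h1 : ContinuousAt (fun p : ℂ × ℂ => (p.1, G1_rho N t p.2)) (x, t ^ N) := by
      refine continuousAt_fst.prodMk ?_
      exact ContinuousAt.comp (f := fun p : ℂ × ℂ => p.2) (g := G1_rho N t) hcρ continuousAt_snd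
    have h2 : ContinuousAt (fun p : ℂ × ℂ => Φ (p.1, G1_rho N t p.2)) (x, t ^ N) := by
      refine ContinuousAt.comp (f := fun p : ℂ × ℂ => (p.1, G1_rho N t p.2)) (g := Φ) ?_ h1
      change ContinuousAt Φ (x, G1_rho N t (t ^ N))
      rw [hmap]
      exact hc
    exact h2.congr hev.symm
  · intro hc
    have h0 : ContDiffAt ℝ 1 (G1_rho N t) (t ^ N) :=
      ((G1_rho_an N t ht).contDiffAt (n := 1)).restrict_scalars ℝ
    have h1 : ContDiffAt ℝ 1 (fun p : ℂ × ℂ => (p.1, G1_rho N t p.2)) (x, t ^ N) := by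
      refine contDiffAt_fst.prodMk ?_
      exact ContDiffAt.comp (x, t ^ N) (g := G1_rho N t) (f := fun p : ℂ × ℂ => p.2) h0
        contDiffAt_snd
    have h2 : ContDiffAt ℝ 1 (fun p : ℂ × ℂ => Φ (p.1, G1_rho N t p.2)) (x, t ^ N) := by
      refine ContDiffAt.comp (x, t ^ N) (g := Φ) (f := fun p : ℂ × ℂ => (p.1, G1_rho N t p.2)) ?_ h1
      change ContDiffAt ℝ 1 Φ (x, G1_rho N t (t ^ N))
      rw [hmap]
      exact hc
    refine ⟨h2.congr_of_eventuallyEq hev, ?_⟩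
    intro v w
    rw [hev.fderiv_eq]
    have hΦ : HasFDerivAt Φ (fderiv ℝ Φ (x, t)) (x, G1_rho N t (t ^ N)) := by
      rw [hmap]
      exact (hc.differentiableAt one_ne_zero).hasFDerivAt
    have hρ := ((G1_rho_deriv N hN t ht).hasFDerivAt.restrictScalars ℝ)
    have h3 : HasFDerivAt (fun p : ℂ × ℂ => (p.1, G1_rho N t p.2))
        ((ContinuousLinearMap.fst ℝ ℂ ℂ).prod (((ContinuousLinearMap.toSpanSingleton ℂ
          (1 / ((N : ℂ) * t ^ (N - 1)))).restrictScalars ℝ).comp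
            (ContinuousLinearMap.snd ℝ ℂ ℂ))) (x, t ^ N) := by
      refine HasFDerivAt.prodMk hasFDerivAt_fst ?_
      exact HasFDerivAt.comp (x, t ^ N) (g := G1_rho N t) (f := fun p : ℂ × ℂ => p.2) hρ
        hasFDerivAt_snd
    have h4 := HasFDerivAt.comp (x, t ^ N) (g := Φ)
      (f := fun p : ℂ × ℂ => (p.1, G1_rho N t p.2)) hΦ h3
    have h5 : fderiv ℝ (fun p : ℂ × ℂ => Φ (p.1, G1_rho N t p.2)) (x, t ^ N) = _ := h4.fderiv
    rw [h5]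
    simp only [ContinuousLinearMap.comp_apply, ContinuousLinearMap.prod_apply,
      ContinuousLinearMap.coe_fst', ContinuousLinearMap.coe_snd',
      ContinuousLinearMap.coe_restrictScalars', ContinuousLinearMap.toSpanSingleton_apply,
      smul_eq_mul, mul_one_div]

/-- roots of unity have norm one; every `N`-th root of `t^N` is `ζ t` -/
theorem root_unity (N : ℕ) (hN : 1 ≤ N) (t s : ℂ) (ht : t ≠ 0) (h : s ^ N = t ^ N) :
    ∃ ζ : ℂ, ζ ^ N = 1 ∧ ‖ζ‖ = 1 ∧ s = ζ * t :=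
  G1_ru N hN t s ht h

end H24.LS
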