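import Pool.Agent.H24.LS.G0
import Pool.Agent.H24.LS.G1
import Pool.Agent.H24.LS.V0

/-!
# G4: the functions `dm`, `km` and the cutoff function

* `mins_exist`: upstairs `dm (x,t) = inf_C ‖x - γ_C t‖` (`Finset.inf'` over `Finset.univ`, `c ≥ 1`),
  `km (x,t) = inf_C ‖x - γ_C t‖/‖t‖^(b C)`: continuous for `0 < ‖t‖` small, invariant under `t ↦ ζ t` by `CFa.inv`;
  `descend` (continuity part; choose the radius small enough that `γ_C` is continuous on the disc).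
* `cut_exists`.  Let `θ0 : ℝ → ℝ` be smooth, `= 1` on `(-∞, 4]`, `= 0` on `[9, ∞)`, values in `[0,1]`
  (`Real.smoothTransition ((9 - s)/5)`), `|θ0'| ≤ M0` (continuous with compact support).  Upstairs
  `θ = 1 - ∏_C (1 - θ0 (‖x - γ_C‖^2/(K ‖t‖^(b C))^2))`.  `km ≤ 2K`: one factor is `0`; `km ≥ 3K`: all factors are `1`.
  Derivative (of the descended function): with `s_C = ‖t‖^(b C)`, `|D(‖x-γ_C‖^2/(K s_C)^2)| ≤ 2‖x-γ_C‖(‖v‖+ε‖w‖)/(K s_C)^2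
  + (‖x-γ_C‖/(K s_C))^2 2 (b C/N) ‖w‖/‖t‖^N`, and `θ0'` is nonzero only if `2 K s_C ≤ ‖x - γ_C‖ ≤ 3 K s_C`; multiply with
  `dm ≤ ‖x - γ_C‖`: first term `≤ 18 (‖v‖+ε‖w‖)`, second `≤ 54 (b C/N) (K s_C/‖t‖^N) ‖w‖ ≤ ε‖w‖` for `‖t‖` small
  (depending on `K`), as `b C > N`.  Sum over `C` (each of the other factors is in `[0,1]`): `Cθ = 20 c M0`-like, independent of
  `K`.
-/

open Filter Topology Metric Asymptotics

namespace H24.LS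

/-- a common radius: the centres are analytic and the symmetries hold -/
theorem G4_radius {F G : ℂ × ℂ → ℂ} {k n N : ℕ} {u : ℂ} {c : ℕ} {m : Fin c → ℕ} {b : Fin c → ℝ}
    {γ v Γ η : Fin c → ℂ → ℂ} {a : Fin c → ℂ} {D : Fin c → ℕ}
    (h : CFa F G k n N u c m b γ v Γ η a D) :
    ∃ r > (0 : ℝ), (∀ t : ℂ, ‖t‖ < r → ∀ C, AnalyticAt ℂ (γ C) t) ∧
      ∀ ζ : ℂ, ζ ^ N = 1 → ∃ τ : Equiv.Perm (Fin c), ∀ t : ℂ, ‖t‖ < r → ∀ C,
        b (τ C) = b C ∧ γ (τ C) t = γ C (ζ * t) := by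
  have hN : 0 < N := h.clu.hN
  have h1 : ∀ᶠ t in 𝓝 (0 : ℂ), ∀ C, AnalyticAt ℂ (γ C) t :=
    eventually_all.mpr fun C => (h.clu.gan C).eventually_analyticAt
  choose! τ hτ using h.inv
  have h2 : ∀ᶠ t in 𝓝 (0 : ℂ), ∀ ζ ∈ Polynomial.nthRootsFinset N (1 : ℂ), ∀ C,
      γ (τ ζ C) t = γ C (ζ * t) := by
    rw [eventually_all_finset]
    intro ζ hζ
    rw [Polynomial.mem_nthRootsFinset hN] at hζ
    exact eventually_all.mpr fun C => ((hτ ζ hζ C).2.2).mono fun t ht => ht.1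
  obtain ⟨r, hr, hrb⟩ := Metric.eventually_nhds_iff_ball.mp (h1.and h2)
  refine ⟨r, hr, fun t ht C => (hrb t (by rwa [mem_ball, dist_zero_right])).1 C, ?_⟩
  intro ζ hζ
  refine ⟨τ ζ, fun t ht C => ⟨(hτ ζ hζ C).2.1, ?_⟩⟩
  exact (hrb t (by rwa [mem_ball, dist_zero_right])).2 ζ
    ((Polynomial.mem_nthRootsFinset hN _).mpr hζ) C

theorem G4_norm_root {N : ℕ} (hN : 1 ≤ N) {ζ : ℂ} (hζ : ζ ^ N = 1) : ‖ζ‖ = 1 := by
  have h1 : ‖ζ‖ ^ N = 1 := by rw [← norm_pow, hζ, norm_one]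
  exact (pow_eq_one_iff_of_nonneg (norm_nonneg _) (by omega)).mp h1

theorem G4_surj {N : ℕ} (hN : 1 ≤ N) (y : ℂ) : ∃ t : ℂ, t ^ N = y :=
  IsAlgClosed.exists_pow_nat_eq y (by omega)

theorem G4_small {N : ℕ} (hN : 1 ≤ N) {t : ℂ} {r : ℝ} (hr : 0 ≤ r) (h : ‖t ^ N‖ < r ^ N) :
    ‖t‖ < r := by
  rw [norm_pow] at h
  exact lt_of_pow_lt_pow_left₀ N hr h

theorem G4_pos {N : ℕ} (hN : 1 ≤ N) {t : ℂ} (h : 0 < ‖t ^ N‖) : 0 < ‖t‖ := by
  rcases eq_or_lt_of_le (norm_nonneg t) with h0 | h0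
  · rw [norm_pow, ← h0, zero_pow (by omega)] at h
    exact absurd h (lt_irrefl _)
  · exact h0

/-- an invariant minimum descends -/
theorem G4_min {c : ℕ} (hc : 1 ≤ c) {N : ℕ} (hN : 1 ≤ N) {r : ℝ} (hr : 0 < r)
    (f : Fin c → ℂ × ℂ → ℝ)
    (hf : ∀ C, ∀ x t : ℂ, 0 < ‖t‖ → ‖t‖ < r → ContinuousAt (f C) (x, t))
    (hinv : ∀ ζ : ℂ, ζ ^ N = 1 → ∃ τ : Equiv.Perm (Fin c), ∀ x t : ℂ, 0 < ‖t‖ → ‖t‖ < r →
      ∀ C, f (τ C) (x, t) = f C (x, ζ * t)) :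
    ∃ Ψ : ℂ × ℂ → ℝ, ∀ x t : ℂ, 0 < ‖t‖ → ‖t‖ < r → ContinuousAt Ψ (x, t ^ N) ∧
      (∀ C, Ψ (x, t ^ N) ≤ f C (x, t)) ∧ ∃ C, Ψ (x, t ^ N) = f C (x, t) := by
  have hne : (Finset.univ : Finset (Fin c)).Nonempty := ⟨⟨0, by omega⟩, Finset.mem_univ _⟩
  let Φ : ℂ × ℂ → ℝ := fun p => Finset.univ.inf' hne (fun C => f C p)
  have hΦinv : ∀ ζ : ℂ, ζ ^ N = 1 → ∀ x t : ℂ, 0 < ‖t‖ → ‖t‖ < r → Φ (x, ζ * t) = Φ (x, t) := by
    intro ζ hζ x t ht ht'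
    obtain ⟨τ, hτ⟩ := hinv ζ hζ
    apply le_antisymm
    · apply Finset.le_inf'
      intro C _
      have h1 : f C (x, t) = f (τ.symm C) (x, ζ * t) := by
        rw [← hτ x t ht ht' (τ.symm C), Equiv.apply_symm_apply]
      rw [h1]
      exact Finset.inf'_le (f := fun C => f C (x, ζ * t)) (Finset.mem_univ (τ.symm C))
    · apply Finset.le_inf'
      intro C _
      rw [← hτ x t ht ht' C]
      exact Finset.inf'_le (f := fun C => f C (x, t)) (Finset.mem_univ (τ C))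
  obtain ⟨Ψ, hΨ⟩ := descend N hN r Φ hΦinv
  refine ⟨Ψ, fun x t ht ht' => ?_⟩
  obtain ⟨h1, h2, -⟩ := hΨ x t ht ht'
  refine ⟨h2 ?_, ?_, ?_⟩
  · exact ContinuousAt.finset_inf'_apply hne fun C _ => hf C x t ht ht'
  · intro C
    rw [h1]
    exact Finset.inf'_le (f := fun C => f C (x, t)) (Finset.mem_univ C)
  · rw [h1]
    obtain ⟨C, _, hC⟩ := Finset.exists_mem_eq_inf' hne (fun C => f C (x, t))
    exact ⟨C, hC⟩

theorem mins_exist {F G : ℂ × ℂ → ℂ} {k n N : ℕ} {u : ℂ} {c : ℕ} {m : Fin c → ℕ} {b : Fin c → ℝ}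
    {γ v Γ η : Fin c → ℂ → ℂ} {a : Fin c → ℂ} {D : Fin c → ℕ}
    (h : CFa F G k n N u c m b γ v Γ η a D) (hc : 1 ≤ c) :
    ∃ (dm km : ℂ × ℂ → ℝ) (ρ0 : ℝ), Mins N b γ dm km ρ0 := by
  have hN : 1 ≤ N := h.clu.hN
  obtain ⟨r, hr, han, hsym⟩ := G4_radius h
  have hcγ : ∀ C, ∀ x t : ℂ, 0 < ‖t‖ → ‖t‖ < r →
      ContinuousAt (fun p : ℂ × ℂ => ‖p.1 - γ C p.2‖) (x, t) := by
    intro C x t ht ht'
    have h1 : ContinuousAt (fun p : ℂ × ℂ => γ C p.2) (x, t) :=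
      ContinuousAt.comp (f := fun p : ℂ × ℂ => p.2) (g := γ C) (han t ht' C).continuousAt
        continuousAt_snd
    exact (continuousAt_fst.sub h1).norm
  obtain ⟨dm, hdm⟩ := G4_min hc hN hr (fun C p => ‖p.1 - γ C p.2‖) hcγ (by
    intro ζ hζ
    obtain ⟨τ, hτ⟩ := hsym ζ hζ
    refine ⟨τ, fun x t _ ht' C => ?_⟩
    simp only
    rw [(hτ t ht' C).2])
  obtain ⟨km, hkm⟩ := G4_min hc hN hr (fun C p => ‖p.1 - γ C p.2‖ / ‖p.2‖ ^ (b C)) (by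
    intro C x t ht ht'
    have h1 : ContinuousAt (fun p : ℂ × ℂ => ‖p.2‖ ^ (b C)) (x, t) :=
      (continuousAt_snd.norm).rpow_const (Or.inl ht.ne')
    exact (hcγ C x t ht ht').div h1 (Real.rpow_pos_of_pos ht _).ne') (by
    intro ζ hζ
    obtain ⟨τ, hτ⟩ := hsym ζ hζ
    refine ⟨τ, fun x t _ ht' C => ?_⟩
    simp only
    rw [(hτ t ht' C).2, (hτ t ht' C).1, norm_mul, G4_norm_root hN hζ, one_mul])
  have hUd : ∀ x t : ℂ, (x, t ^ N) ∈ Ud 1 (r ^ N) → 0 < ‖t‖ ∧ ‖t‖ < r := by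
    intro x t hp
    exact ⟨G4_pos hN hp.1, G4_small hN hr.le hp.2.1⟩
  refine ⟨dm, km, r ^ N, by positivity, ?_, ?_, ?_, ?_, ?_, ?_⟩
  · rintro ⟨x, y⟩ hp
    obtain ⟨t, rfl⟩ := G4_surj hN y
    obtain ⟨h1, h2⟩ := hUd x t hp
    exact (hdm x t h1 h2).1
  · rintro ⟨x, y⟩ hp
    obtain ⟨t, rfl⟩ := G4_surj hN y
    obtain ⟨h1, h2⟩ := hUd x t hp
    exact (hkm x t h1 h2).1
  · intro x t hp C
    obtain ⟨h1, h2⟩ := hUd x t hp
    exact (hdm x t h1 h2).2.1 C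
  · intro x t hp
    obtain ⟨h1, h2⟩ := hUd x t hp
    exact (hdm x t h1 h2).2.2
  · intro x t hp C
    obtain ⟨h1, h2⟩ := hUd x t hp
    have h3 := (hkm x t h1 h2).2.1 C
    rwa [le_div_iff₀ (Real.rpow_pos_of_pos h1 _)] at h3
  · intro x t hp
    obtain ⟨h1, h2⟩ := hUd x t hp
    obtain ⟨C, hC⟩ := (hkm x t h1 h2).2.2
    refine ⟨C, ?_⟩
    rw [hC]
    exact div_mul_cancel₀ _ (Real.rpow_pos_of_pos h1 _).ne'

/-- the smooth step: `1` up to `4`, `0` from `9` on -/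
noncomputable def G4_st (s : ℝ) : ℝ := Real.smoothTransition ((9 - s) / 5)

theorem G4_st_contDiff : ContDiff ℝ 1 G4_st := by
  unfold G4_st
  exact Real.smoothTransition.contDiff.comp (by fun_prop)

theorem G4_st_one {s : ℝ} (h : s ≤ 4) : G4_st s = 1 :=
  Real.smoothTransition.one_of_one_le (by linarith)

theorem G4_st_zero {s : ℝ} (h : 9 ≤ s) : G4_st s = 0 :=
  Real.smoothTransition.zero_of_nonpos (by linarith)

theorem G4_st_deriv : ∃ M : ℝ, 0 < M ∧ ∀ s, |deriv G4_st s| ≤ M ∧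
    (deriv G4_st s ≠ 0 → s ≤ 9) := by
  have h9 : ∀ s, 9 < s → deriv G4_st s = 0 := by
    intro s hs
    have : G4_st =ᶠ[𝓝 s] fun _ => 0 := by
      filter_upwards [lt_mem_nhds hs] with x hx
      exact G4_st_zero hx.le
    rw [this.deriv_eq]; simp
  have h4 : ∀ s, s < 4 → deriv G4_st s = 0 := by
    intro s hs
    have : G4_st =ᶠ[𝓝 s] fun _ => 1 := by
      filter_upwards [gt_mem_nhds hs] with x hx
      exact G4_st_one hx.le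
    rw [this.deriv_eq]; simp
  have hc : Continuous (deriv G4_st) := G4_st_contDiff.continuous_deriv le_rfl
  obtain ⟨M, hM⟩ := (isCompact_Icc (a := (4 : ℝ)) (b := 9)).exists_bound_of_continuousOn
    hc.continuousOn
  refine ⟨max M 1, by positivity, fun s => ⟨?_, ?_⟩⟩
  · by_cases h1 : s < 4
    · rw [h4 s h1, abs_zero]; positivity
    · by_cases h2 : 9 < s
      · rw [h9 s h2, abs_zero]; positivity
      · exact (hM s ⟨not_lt.mp h1, not_lt.mp h2⟩).trans (le_max_left _ _)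
  · intro hne
    by_contra hlt
    exact hne (h9 s (not_le.mp hlt))

/-- the squared relative distance -/
noncomputable def G4_q (K b : ℝ) (γ : ℂ → ℂ) (p : ℂ × ℂ) : ℝ :=
  ‖p.1 - γ p.2‖ ^ 2 * ((‖p.2‖ ^ 2) ^ (-b) * (K ^ 2)⁻¹)

theorem G4_q_nonneg (K b : ℝ) (γ : ℂ → ℂ) (p : ℂ × ℂ) : 0 ≤ G4_q K b γ p := by
  unfold G4_q; positivity

theorem G4_q_mul {K b : ℝ} (γ : ℂ → ℂ) (x : ℂ) {t : ℂ} (hK : 0 < K) (ht : 0 < ‖t‖) :
    G4_q K b γ (x, t) * (K * ‖t‖ ^ b) ^ 2 = ‖x - γ t‖ ^ 2 := by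
  unfold G4_q
  have h1 : (‖t‖ ^ 2) ^ (-b) * (‖t‖ ^ b) ^ 2 = 1 := by
    rw [← Real.rpow_natCast (‖t‖ ^ b) 2, ← Real.rpow_mul ht.le, ← Real.rpow_natCast ‖t‖ 2,
      ← Real.rpow_mul ht.le, ← Real.rpow_add ht]
    push_cast
    have : (2 : ℝ) * -b + b * 2 = 0 := by ring
    rw [this, Real.rpow_zero]
  have h2 : (K ^ 2)⁻¹ * K ^ 2 = 1 := inv_mul_cancel₀ (by positivity)
  calc ‖x - γ t‖ ^ 2 * ((‖t‖ ^ 2) ^ (-b) * (K ^ 2)⁻¹) * (K * ‖t‖ ^ b) ^ 2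
      = ‖x - γ t‖ ^ 2 * ((‖t‖ ^ 2) ^ (-b) * (‖t‖ ^ b) ^ 2) * ((K ^ 2)⁻¹ * K ^ 2) := by ring
    _ = _ := by rw [h1, h2]; ring

theorem G4_q_contDiff {K b : ℝ} {γ : ℂ → ℂ} (x : ℂ) {t : ℂ} (hγ : AnalyticAt ℂ γ t)
    (ht : 0 < ‖t‖) : ContDiffAt ℝ 1 (G4_q K b γ) (x, t) := by
  unfold G4_q
  have h1 : ContDiffAt ℝ 1 (fun p : ℂ × ℂ => γ p.2) (x, t) :=
    ContDiffAt.comp (x, t) (g := γ) (f := fun p : ℂ × ℂ => p.2)
      (hγ.contDiffAt.restrict_scalars ℝ) contDiffAt_snd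
  have h2 : ContDiffAt ℝ 1 (fun p : ℂ × ℂ => ‖p.1 - γ p.2‖ ^ 2) (x, t) :=
    (contDiffAt_fst.sub h1).norm_sq ℝ
  have h3 : ContDiffAt ℝ 1 (fun p : ℂ × ℂ => ‖p.2‖ ^ 2) (x, t) := contDiffAt_snd.norm_sq ℝ
  have h4 : ContDiffAt ℝ 1 (fun p : ℂ × ℂ => (‖p.2‖ ^ 2) ^ (-b)) (x, t) :=
    h3.rpow_const_of_ne (pow_pos ht 2).ne'
  exact h2.mul (h4.mul contDiffAt_const)

theorem G4_q_fderiv {K b : ℝ} (hb : 0 ≤ b) {γ : ℂ → ℂ} (x : ℂ) {t : ℂ} (hγ : AnalyticAt ℂ γ t)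
    (ht : 0 < ‖t‖) {d : ℝ} (hd0 : 0 ≤ d) (hd : d ≤ ‖x - γ t‖) (v w : ℂ) :
    |fderiv ℝ (G4_q K b γ) (x, t) (v, w)| * d ≤
      2 * G4_q K b γ (x, t) * (‖v‖ + ‖deriv γ t‖ * ‖w‖)
        + 2 * b * G4_q K b γ (x, t) * ‖x - γ t‖ * (‖w‖ / ‖t‖) := by
  have hγd : HasFDerivAt γ ((ContinuousLinearMap.toSpanSingleton ℂ (deriv γ t)).restrictScalars ℝ)
      t := by
    have h1 := hγ.differentiableAt.hasDerivAt.hasFDerivAt.restrictScalars ℝ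
    exact h1
  have h1 : HasFDerivAt (fun p : ℂ × ℂ => γ p.2)
      (((ContinuousLinearMap.toSpanSingleton ℂ (deriv γ t)).restrictScalars ℝ).comp
        (ContinuousLinearMap.snd ℝ ℂ ℂ)) (x, t) :=
    HasFDerivAt.comp (x, t) (g := γ) (f := fun p : ℂ × ℂ => p.2) hγd hasFDerivAt_snd
  have h2 := (hasFDerivAt_fst (𝕜 := ℝ) (p := ((x, t) : ℂ × ℂ))).sub h1
  have h3 := h2.norm_sq
  have h4 := (hasFDerivAt_snd (𝕜 := ℝ) (p := ((x, t) : ℂ × ℂ))).norm_sq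
  have ht2 : ‖t‖ ^ 2 ≠ 0 := (pow_pos ht 2).ne'
  have h5 := h4.rpow_const (p := -b) (Or.inl ht2)
  have h6 := h3.mul (h5.mul_const ((K ^ 2)⁻¹))
  have h7 : HasFDerivAt (G4_q K b γ) _ (x, t) := h6
  rw [h7.fderiv]
  set A : ℂ := x - γ t with hA
  set A' : ℂ := v - deriv γ t * w with hA'
  have hA'n : ‖A'‖ ≤ ‖v‖ + ‖deriv γ t‖ * ‖w‖ := by
    rw [hA']
    refine (norm_sub_le _ _).trans ?_
    rw [norm_mul]
  set R : ℝ := (‖t‖ ^ 2) ^ (-b) * (K ^ 2)⁻¹ with hR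
  have hR0 : 0 ≤ R := by rw [hR]; positivity
  have hq : G4_q K b γ (x, t) = ‖A‖ ^ 2 * R := rfl
  have hpow : (‖t‖ ^ 2) ^ (-b - 1) = (‖t‖ ^ 2) ^ (-b) / ‖t‖ ^ 2 := by
    rw [Real.rpow_sub_one ht2]
  simp only [add_apply, smul_apply, ContinuousLinearMap.comp_apply, smul_eq_mul,
    ContinuousLinearMap.coe_snd', ContinuousLinearMap.coe_fst', sub_apply, innerSL_apply_apply,
    ContinuousLinearMap.coe_restrictScalars', ContinuousLinearMap.toSpanSingleton_apply,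
    nsmul_eq_mul, Nat.cast_ofNat]
  have hAc : v - w * deriv γ t = A' := by rw [hA', mul_comm]
  rw [hAc]
  change |‖A‖ ^ 2 * ((K ^ 2)⁻¹ * (-b * (‖t‖ ^ 2) ^ (-b - 1) * (2 * inner ℝ t w)))
    + R * (2 * inner ℝ A A')| * d ≤ _
  have i1 : |inner ℝ t w| ≤ ‖t‖ * ‖w‖ := abs_real_inner_le_norm t w
  have i2 : |inner ℝ A A'| ≤ ‖A‖ * ‖A'‖ := abs_real_inner_le_norm A A'
  rw [hq]
  have e1 : ‖A‖ ^ 2 * ((K ^ 2)⁻¹ * (-b * (‖t‖ ^ 2) ^ (-b - 1) * (2 * inner ℝ t w)))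
      = -(2 * b * (‖A‖ ^ 2 * R)) * (inner ℝ t w / ‖t‖ ^ 2) := by
    rw [hpow, hR]; ring
  have hqn : 0 ≤ ‖A‖ ^ 2 * R := by positivity
  have e2 : |‖A‖ ^ 2 * ((K ^ 2)⁻¹ * (-b * (‖t‖ ^ 2) ^ (-b - 1) * (2 * inner ℝ t w)))|
      ≤ 2 * b * (‖A‖ ^ 2 * R) * (‖w‖ / ‖t‖) := by
    rw [e1, abs_mul, abs_neg, abs_of_nonneg (by positivity : 0 ≤ 2 * b * (‖A‖ ^ 2 * R)), abs_div,
      abs_of_pos (pow_pos ht 2)]
    apply mul_le_mul_of_nonneg_left _ (by positivity)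
    rw [div_le_div_iff₀ (pow_pos ht 2) ht]
    calc |inner ℝ t w| * ‖t‖ ≤ (‖t‖ * ‖w‖) * ‖t‖ := mul_le_mul_of_nonneg_right i1 ht.le
      _ = ‖w‖ * ‖t‖ ^ 2 := by ring
  have e3 : |R * (2 * inner ℝ A A')| ≤ 2 * R * ‖A‖ * ‖A'‖ := by
    rw [abs_mul R, abs_mul 2, abs_of_nonneg hR0, abs_of_pos (by norm_num : (0 : ℝ) < 2)]
    calc R * (2 * |inner ℝ A A'|) ≤ R * (2 * (‖A‖ * ‖A'‖)) := by gcongr
      _ = _ := by ring
  have e4 := (abs_add_le (‖A‖ ^ 2 * ((K ^ 2)⁻¹ * (-b * (‖t‖ ^ 2) ^ (-b - 1)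
    * (2 * inner ℝ t w)))) (R * (2 * inner ℝ A A'))).trans (add_le_add e2 e3)
  have hwt : 0 ≤ ‖w‖ / ‖t‖ := by positivity
  calc _ ≤ (2 * b * (‖A‖ ^ 2 * R) * (‖w‖ / ‖t‖) + 2 * R * ‖A‖ * ‖A'‖) * d :=
        mul_le_mul_of_nonneg_right e4 hd0
    _ ≤ (2 * b * (‖A‖ ^ 2 * R) * (‖w‖ / ‖t‖) + 2 * R * ‖A‖ * ‖A'‖) * ‖A‖ :=
        mul_le_mul_of_nonneg_left hd (by positivity)
    _ = 2 * (‖A‖ ^ 2 * R) * ‖A'‖ + 2 * b * (‖A‖ ^ 2 * R) * ‖A‖ * (‖w‖ / ‖t‖) := by ring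
    _ ≤ _ := by gcongr

/-- the conditions on the size of `t` -/
theorem G4_eps {N : ℕ} (hN : 1 ≤ N) {γ : ℂ → ℂ} (hγ : AnalyticAt ℂ γ 0)
    (hs : γ =o[𝓝[≠] 0] (fun t : ℂ => t ^ N)) {b : ℝ} (hb : (N : ℝ) < b) (K : ℝ) {ε : ℝ}
    (hε : 0 < ε) : ∃ r > (0 : ℝ), ∀ t : ℂ, 0 < ‖t‖ → ‖t‖ < r →
      ‖deriv γ t‖ ≤ ε / 2 * ‖t‖ ^ (N - 1) ∧ 6 * b * K * (‖t‖ ^ b / ‖t‖ ^ N) ≤ ε := by
  have h1 := (deriv_littleO γ (fun t => t ^ N) hγ (by fun_prop) hs).def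
    (c := ε / 2) (by positivity)
  rw [eventually_nhdsWithin_iff] at h1
  obtain ⟨r1, hr1, h1⟩ := Metric.eventually_nhds_iff_ball.mp h1
  have hbN : 0 < b - N := by linarith
  have h2 : Tendsto (fun x : ℝ => 6 * b * K * x ^ (b - N)) (𝓝 0) (𝓝 (6 * b * K * 0 ^ (b - N))) :=
    ((Real.continuousAt_rpow_const 0 (b - N) (Or.inr hbN.le)).tendsto).const_mul _
  rw [Real.zero_rpow hbN.ne', mul_zero] at h2
  have h3 := h2.eventually_lt_const hε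
  obtain ⟨r2, hr2, h3⟩ := Metric.eventually_nhds_iff_ball.mp h3
  refine ⟨min r1 r2, lt_min hr1 hr2, fun t ht htr => ⟨?_, ?_⟩⟩
  · have h4 := h1 t (by rw [mem_ball, dist_zero_right]; exact htr.trans_le (min_le_left _ _))
      (by simpa using norm_pos_iff.1 ht)
    rw [norm_mul, norm_pow] at h4
    have hN' : ‖t‖ ^ N = ‖t‖ * ‖t‖ ^ (N - 1) := by
      rw [← pow_succ']
      congr 1
      omega
    have h5 : ‖t‖ * ‖deriv γ t‖ ≤ ‖t‖ * (ε / 2 * ‖t‖ ^ (N - 1)) := by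
      calc ‖t‖ * ‖deriv γ t‖ ≤ ε / 2 * ‖t‖ ^ N := h4
        _ = _ := by rw [hN']; ring
    exact le_of_mul_le_mul_left h5 ht
  · have h4 := h3 ‖t‖ (by
      rw [mem_ball, dist_zero_right, Real.norm_eq_abs, abs_of_pos ht]
      exact htr.trans_le (min_le_right _ _))
    rw [Real.rpow_sub ht, Real.rpow_natCast] at h4
    exact h4.le

theorem cut_exists {F G : ℂ × ℂ → ℂ} {k n N : ℕ} {u : ℂ} {c : ℕ} {m : Fin c → ℕ} {b : Fin c → ℝ}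
    {γ v Γ η : Fin c → ℂ → ℂ} {a : Fin c → ℂ} {D : Fin c → ℕ}
    (h : CFa F G k n N u c m b γ v Γ η a D) {dm km : ℂ × ℂ → ℝ} {ρ0 : ℝ}
    (hM : Mins N b γ dm km ρ0) :
    ∃ Cθ > (0 : ℝ), ∀ K : ℝ, 1 ≤ K → ∃ θ : ℂ × ℂ → ℝ, ∀ ε > (0 : ℝ), ∃ δ > (0 : ℝ),
      ∀ p ∈ Ud δ δ, ContDiffAt ℝ 1 θ p ∧ 0 ≤ θ p ∧ θ p ≤ 1 ∧ (km p ≤ 2 * K → θ p = 1) ∧
        (3 * K ≤ km p → θ p = 0) ∧
        ∀ v w : ℂ, |fderiv ℝ θ p (v, w)| * dm p ≤ Cθ * (‖v‖ + ε * ‖w‖) := by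
  have hN : 1 ≤ N := h.clu.hN
  have hb0 : ∀ C, 0 ≤ b C := fun C => (Nat.cast_nonneg N).trans (h.clu.hb C).le
  obtain ⟨r, hr, han, hsym⟩ := G4_radius h
  obtain ⟨M, hM0, hMd⟩ := G4_st_deriv
  refine ⟨18 * c * M + 1, by positivity, fun K hK => ?_⟩
  have hK0 : 0 < K := by linarith
  -- upstairs
  let g : Fin c → ℂ × ℂ → ℝ := fun C p => 1 - G4_st (G4_q K (b C) (γ C) p)
  let Φ : ℂ × ℂ → ℝ := fun p => 1 - ∏ C, g C p
  have hΦinv : ∀ ζ : ℂ, ζ ^ N = 1 → ∀ x t : ℂ, 0 < ‖t‖ → ‖t‖ < r → Φ (x, ζ * t) = Φ (x, t) := by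
    intro ζ hζ x t ht ht'
    obtain ⟨τ, hτ⟩ := hsym ζ hζ
    have h1 : ∀ C, g C (x, ζ * t) = g (τ C) (x, t) := by
      intro C
      simp only [g, G4_q]
      rw [(hτ t ht' C).2, (hτ t ht' C).1, norm_mul, G4_norm_root hN hζ, one_mul]
    simp only [Φ]
    rw [Finset.prod_congr rfl fun C _ => h1 C, Equiv.prod_comp τ (fun C => g C (x, t))]
  obtain ⟨θ, hθ⟩ := descend N hN r Φ hΦinv
  refine ⟨θ, fun ε hε => ?_⟩
  have heps : ∃ r1 > (0 : ℝ), ∀ t : ℂ, 0 < ‖t‖ → ‖t‖ < r1 → ∀ C,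
      ‖deriv (γ C) t‖ ≤ ε / 2 * ‖t‖ ^ (N - 1) ∧ 6 * b C * K * (‖t‖ ^ b C / ‖t‖ ^ N) ≤ ε := by
    choose R hR0 hR using fun C => G4_eps hN (h.clu.gan C) (h.clu.gsm C) (h.clu.hb C) K hε
    rcases Nat.eq_zero_or_pos c with hc | hc
    · subst hc
      exact ⟨1, one_pos, fun t _ _ C => C.elim0⟩
    · have hne : (Finset.univ : Finset (Fin c)).Nonempty := ⟨⟨0, hc⟩, Finset.mem_univ _⟩
      refine ⟨Finset.univ.inf' hne R, ?_, fun t ht htr C => ?_⟩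
      · rw [gt_iff_lt, Finset.lt_inf'_iff]
        exact fun C _ => hR0 C
      · exact hR C t ht (htr.trans_le (Finset.inf'_le _ (Finset.mem_univ C)))
  obtain ⟨r1, hr1, heps⟩ := heps
  refine ⟨min (min 1 ρ0) (min (r ^ N) (r1 ^ N)), ?_, ?_⟩
  · have := hM.h0
    positivity
  rintro ⟨x, y⟩ ⟨hp1, hp2, hp3⟩
  simp only at hp1 hp2 hp3
  obtain ⟨t, rfl⟩ := G4_surj hN y
  set δ := min (min 1 ρ0) (min (r ^ N) (r1 ^ N)) with hδ
  have hδ1 : δ ≤ 1 := (min_le_left _ _).trans (min_le_left _ _)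
  have hδ2 : δ ≤ ρ0 := (min_le_left _ _).trans (min_le_right _ _)
  have hδ3 : δ ≤ r ^ N := (min_le_right _ _).trans (min_le_left _ _)
  have hδ4 : δ ≤ r1 ^ N := (min_le_right _ _).trans (min_le_right _ _)
  have ht : 0 < ‖t‖ := G4_pos hN hp1
  have htr : ‖t‖ < r := G4_small hN hr.le (hp2.trans_le hδ3)
  have htr1 : ‖t‖ < r1 := G4_small hN hr1.le (hp2.trans_le hδ4)
  have hU : (x, t ^ N) ∈ Ud 1 ρ0 := by
    refine ⟨hp1, hp2.trans_le hδ2, hp3.trans_le ?_⟩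
    exact mul_le_mul_of_nonneg_right hδ1 (norm_nonneg _)
  obtain ⟨hθ1, -, hθ3⟩ := hθ x t ht htr
  -- the factors upstairs
  have hqc : ∀ C, ContDiffAt ℝ 1 (G4_q K (b C) (γ C)) (x, t) := fun C =>
    G4_q_contDiff x (han t htr C) ht
  have hgc : ∀ C, ContDiffAt ℝ 1 (g C) (x, t) := fun C =>
    contDiffAt_const.sub ((G4_st_contDiff.contDiffAt).comp (x, t) (hqc C))
  have hΦc : ContDiffAt ℝ 1 Φ (x, t) := contDiffAt_const.sub (contDiffAt_prod fun C _ => hgc C)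
  obtain ⟨hθc, hθd⟩ := hθ3 hΦc
  have hg0 : ∀ C, 0 ≤ g C (x, t) := fun C => by
    have := Real.smoothTransition.le_one ((9 - G4_q K (b C) (γ C) (x, t)) / 5)
    simp only [g, G4_st]; linarith
  have hg1 : ∀ C, g C (x, t) ≤ 1 := fun C => by
    have := Real.smoothTransition.nonneg ((9 - G4_q K (b C) (γ C) (x, t)) / 5)
    simp only [g, G4_st]; linarith
  have hP0 : 0 ≤ ∏ C, g C (x, t) := Finset.prod_nonneg fun C _ => hg0 C
  have hP1 : ∏ C, g C (x, t) ≤ 1 := Finset.prod_le_one (fun C _ => hg0 C) fun C _ => hg1 C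
  have hs0 : ∀ C, 0 < ‖t‖ ^ b C := fun C => Real.rpow_pos_of_pos ht _
  refine ⟨hθc, ?_, ?_, ?_, ?_, ?_⟩
  · rw [hθ1]; simp only [Φ]; linarith
  · rw [hθ1]; simp only [Φ]; linarith
  · intro hk
    rw [hθ1]
    obtain ⟨C, hC⟩ := hM.k2 x t hU
    have h1 : ‖x - γ C t‖ ≤ 2 * (K * ‖t‖ ^ b C) := by
      rw [← hC, ← mul_assoc]
      exact mul_le_mul_of_nonneg_right hk (hs0 C).le
    have h2 : G4_q K (b C) (γ C) (x, t) ≤ 4 := by
      have h3 := G4_q_mul (b := b C) (γ C) x hK0 ht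
      have h4 : 0 < (K * ‖t‖ ^ b C) ^ 2 := by have := hs0 C; positivity
      have h5 : ‖x - γ C t‖ ^ 2 ≤ (2 * (K * ‖t‖ ^ b C)) ^ 2 :=
        pow_le_pow_left₀ (norm_nonneg _) h1 2
      rw [← h3] at h5
      have h6 : G4_q K (b C) (γ C) (x, t) * (K * ‖t‖ ^ b C) ^ 2 ≤ 4 * (K * ‖t‖ ^ b C) ^ 2 := by
        linarith
      exact le_of_mul_le_mul_right h6 h4
    have h3 : ∏ C, g C (x, t) = 0 := by
      apply Finset.prod_eq_zero (Finset.mem_univ C)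
      simp only [g]
      rw [G4_st_one h2, sub_self]
    simp only [Φ]
    rw [h3, sub_zero]
  · intro hk
    rw [hθ1]
    have h3 : ∏ C, g C (x, t) = 1 := by
      apply Finset.prod_eq_one
      intro C _
      have h1 : 3 * (K * ‖t‖ ^ b C) ≤ ‖x - γ C t‖ := by
        rw [← mul_assoc]
        exact (mul_le_mul_of_nonneg_right hk (hs0 C).le).trans (hM.k1 x t hU C)
      have h2 : 9 ≤ G4_q K (b C) (γ C) (x, t) := by
        have h3 := G4_q_mul (b := b C) (γ C) x hK0 ht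
        have h4 : 0 < (K * ‖t‖ ^ b C) ^ 2 := by have := hs0 C; positivity
        have h5 : (3 * (K * ‖t‖ ^ b C)) ^ 2 ≤ ‖x - γ C t‖ ^ 2 :=
          pow_le_pow_left₀ (by have := hs0 C; positivity) h1 2
        rw [← h3] at h5
        have h6 : 9 * (K * ‖t‖ ^ b C) ^ 2 ≤ G4_q K (b C) (γ C) (x, t) * (K * ‖t‖ ^ b C) ^ 2 := by
          linarith
        exact le_of_mul_le_mul_right h6 h4
      simp only [g]
      rw [G4_st_zero h2, sub_zero]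
    simp only [Φ]
    rw [h3, sub_self]
  · intro v w
    rw [hθd v w]
    set w' : ℂ := w / ((N : ℂ) * t ^ (N - 1)) with hw'
    have hd0 : 0 ≤ dm (x, t ^ N) := by
      obtain ⟨C, hC⟩ := hM.d2 x t hU
      rw [hC]; exact norm_nonneg _
    have hdC := hM.d1 x t hU
    -- derivative of the product
    have hgd : ∀ C, HasFDerivAt (g C)
        (-(deriv G4_st (G4_q K (b C) (γ C) (x, t)) • fderiv ℝ (G4_q K (b C) (γ C)) (x, t)))
        (x, t) := by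
      intro C
      have h1 : HasDerivAt G4_st (deriv G4_st (G4_q K (b C) (γ C) (x, t)))
          (G4_q K (b C) (γ C) (x, t)) :=
        (G4_st_contDiff.differentiable (by norm_num) _).hasDerivAt
      have h2 := ((hqc C).differentiableAt (by norm_num)).hasFDerivAt
      exact (h1.comp_hasFDerivAt (x, t) h2).const_sub 1
    have hΦd := (HasFDerivAt.finsetProd (u := Finset.univ) (g := g)
      (fun C _ => hgd C)).const_sub 1
    have hΦd' : HasFDerivAt Φ _ (x, t) := hΦd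
    rw [hΦd'.fderiv]
    have hterm : ∀ C, |deriv G4_st (G4_q K (b C) (γ C) (x, t))
        * fderiv ℝ (G4_q K (b C) (γ C)) (x, t) (v, w')| * dm (x, t ^ N)
        ≤ M * (18 * (‖v‖ + ε * ‖w‖)) := by
      intro C
      rcases eq_or_ne (deriv G4_st (G4_q K (b C) (γ C) (x, t))) 0 with h0 | h0
      · rw [h0, zero_mul, abs_zero, zero_mul]
        positivity
      have hq9 := (hMd _).2 h0
      have hsM := (hMd (G4_q K (b C) (γ C) (x, t))).1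
      have hq0 := G4_q_nonneg K (b C) (γ C) (x, t)
      obtain ⟨he1, he2⟩ := heps t ht htr1 C
      have hder := G4_q_fderiv (K := K) (hb0 C) x (han t htr C) ht hd0 (hdC C) v w'
      have hN1 : (1 : ℝ) ≤ N := by exact_mod_cast hN
      have htN1 : 0 < ‖t‖ ^ (N - 1) := pow_pos ht _
      have htN : ‖t‖ ^ N = ‖t‖ ^ (N - 1) * ‖t‖ := by
        rw [← pow_succ]
        congr 1
        omega
      have hw'n : ‖w'‖ ≤ ‖w‖ / ‖t‖ ^ (N - 1) := by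
        rw [hw', norm_div, norm_mul, norm_pow, Complex.norm_natCast]
        apply div_le_div_of_nonneg_left (norm_nonneg _) htN1
        nlinarith
      have hA : ‖x - γ C t‖ ≤ 3 * (K * ‖t‖ ^ b C) := by
        have h3 := G4_q_mul (b := b C) (γ C) x hK0 ht
        have h4 : ‖x - γ C t‖ ^ 2 ≤ (3 * (K * ‖t‖ ^ b C)) ^ 2 := by
          rw [← h3]
          have h5 := mul_le_mul_of_nonneg_right hq9 (sq_nonneg (K * ‖t‖ ^ b C))
          calc _ ≤ 9 * (K * ‖t‖ ^ b C) ^ 2 := h5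
            _ = _ := by ring
        exact le_of_sq_le_sq h4 (by have := hs0 C; positivity)
      have t1 : ‖deriv (γ C) t‖ * ‖w'‖ ≤ ε / 2 * ‖w‖ := by
        calc ‖deriv (γ C) t‖ * ‖w'‖ ≤ (ε / 2 * ‖t‖ ^ (N - 1)) * (‖w‖ / ‖t‖ ^ (N - 1)) :=
              mul_le_mul he1 hw'n (norm_nonneg _) (by positivity)
          _ = ε / 2 * ‖w‖ := by field_simp
      have b1 : 2 * G4_q K (b C) (γ C) (x, t) * (‖v‖ + ‖deriv (γ C) t‖ * ‖w'‖)
          ≤ 18 * (‖v‖ + ε / 2 * ‖w‖) := by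
        apply mul_le_mul (by linarith) (by linarith) (by positivity) (by norm_num)
      have b2 : 2 * b C * G4_q K (b C) (γ C) (x, t) * ‖x - γ C t‖ * (‖w'‖ / ‖t‖)
          ≤ 9 * ε * ‖w‖ := by
        have hbC := hb0 C
        have k1 : 2 * b C * G4_q K (b C) (γ C) (x, t) ≤ 18 * b C := by nlinarith
        have k2 : ‖w'‖ / ‖t‖ ≤ ‖w‖ / ‖t‖ ^ N := by
          rw [htN, ← div_div]
          exact div_le_div_of_nonneg_right hw'n ht.le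
        have hs := hs0 C
        calc 2 * b C * G4_q K (b C) (γ C) (x, t) * ‖x - γ C t‖ * (‖w'‖ / ‖t‖)
            ≤ (18 * b C) * (3 * (K * ‖t‖ ^ b C)) * (‖w‖ / ‖t‖ ^ N) := by
              apply mul_le_mul _ k2 (by positivity) (by positivity)
              exact mul_le_mul k1 hA (norm_nonneg _) (by positivity)
          _ = 9 * (6 * b C * K * (‖t‖ ^ b C / ‖t‖ ^ N)) * ‖w‖ := by ring
          _ ≤ 9 * ε * ‖w‖ := by gcongr
      rw [abs_mul, mul_assoc]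
      apply mul_le_mul hsM _ (by positivity) hM0.le
      refine hder.trans ((add_le_add b1 b2).trans (le_of_eq ?_))
      ring
    have hval : |(-(∑ C, (∏ j ∈ Finset.univ.erase C, g j (x, t)) •
        (-(deriv G4_st (G4_q K (b C) (γ C) (x, t)) • fderiv ℝ (G4_q K (b C) (γ C)) (x, t)))))
        (v, w')| * dm (x, t ^ N) ≤ ∑ C : Fin c, M * (18 * (‖v‖ + ε * ‖w‖)) := by
      rw [neg_apply, abs_neg, sum_apply]
      calc _ ≤ (∑ C, |((∏ j ∈ Finset.univ.erase C, g j (x, t)) •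
            (-(deriv G4_st (G4_q K (b C) (γ C) (x, t)) •
              fderiv ℝ (G4_q K (b C) (γ C)) (x, t)))) (v, w')|) * dm (x, t ^ N) :=
            mul_le_mul_of_nonneg_right (Finset.abs_sum_le_sum_abs _ _) hd0
        _ ≤ _ := by
            rw [Finset.sum_mul]
            apply Finset.sum_le_sum
            intro C _
            refine le_trans ?_ (hterm C)
            apply mul_le_mul_of_nonneg_right _ hd0
            rw [smul_apply, neg_apply, smul_apply, smul_eq_mul, smul_eq_mul, abs_mul, abs_neg]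
            have hp0 : 0 ≤ ∏ j ∈ Finset.univ.erase C, g j (x, t) :=
              Finset.prod_nonneg fun j _ => hg0 j
            have hp1 : ∏ j ∈ Finset.univ.erase C, g j (x, t) ≤ 1 :=
              Finset.prod_le_one (fun j _ => hg0 j) fun j _ => hg1 j
            rw [abs_of_nonneg hp0]
            calc _ ≤ 1 * |deriv G4_st (G4_q K (b C) (γ C) (x, t))
                  * fderiv ℝ (G4_q K (b C) (γ C)) (x, t) (v, w')| :=
                  mul_le_mul_of_nonneg_right hp1 (abs_nonneg _)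
              _ = _ := one_mul _
    refine hval.trans ?_
    rw [Finset.sum_const, Finset.card_univ, Fintype.card_fin, nsmul_eq_mul]
    have hvw : 0 ≤ ‖v‖ + ε * ‖w‖ := by positivity
    nlinarith

end H24.LS
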