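import Pool.Agent.H24.LS.G0
import Pool.Agent.H24.LS.F2

/-!
# G5: comparison of `F` and `G` outside the clusters

Zone O: `x` with `K s_C ≤ ‖x - γ_C‖` for all `C`, `s_C = ‖t‖^(b C)`, `y = t^N`.  Let `C` be a cluster with minimal
`‖x - γ_C‖ =: d`.  Then `‖γ_C - γ_{C'}‖ ≤ 2 ‖x - γ_{C'}‖`, so for `K ≥ 1` and `d' ≤ 2d`:
`cE e m b γ C d' t = ‖t‖^e ∏ (d' + s_{C'} + ‖γ_C - γ_{C'}‖)^m ≤ 5^n PM e m γ x t`  (`PM_low` below).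
* `zoneO_dx`: `Clu.F2` for `F`.  For `G` at `q`: `‖q.1 - Γ_C‖ ≥ (1 - τ) ‖x - γ_C‖ ≥ (K/2) s_C`; `Adm` with `C1 = 2 C2`;
  `CFa.G2` (with small `ε'`) and `∏ (q.1 - Γ_C)^m = ∏ (x - γ_C)^m (1 + O(n τ))` (`τ` small): e.g.
  `‖∏ a_i - ∏ b_i‖ ≤ ((1+τ)^n - 1) ∏ ‖b_i‖` if `‖a_i - b_i‖ ≤ τ ‖b_i‖`.  (`‖q.1‖ < δ' ‖t‖^N` because
  `‖q.1‖ ≤ ‖Γ_C‖ + (1+τ)(‖x‖ + ‖γ_C‖)`; uses `c ≥ 1`.)
* `zoneO_diff`: nearest `C`: `Clu.F3` and `CFa.G3` (`‖q.1 - Γ_C‖ ≤ (1+τ) d ≤ 2 d`): both `dy F`, `dy G q` are within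
  `ε' (‖v_C‖ + cE C (2d) t)` of `v_C`; `‖v_C‖ ≤ c1⁻¹ cE C 0 t ≤ c1⁻¹ 5^n PM` (`Clu.bal`).
* `zoneO_dy`: in addition `‖v_C‖ ≤ ε' cE C d t` by `v_small` (F2).
-/

open Filter Topology Metric Asymptotics

namespace H24.LS

private theorem G5_ev {P : ℂ → Prop} (h : ∀ᶠ t in 𝓝[≠] (0 : ℂ), P t) :
    ∃ r > (0 : ℝ), ∀ t : ℂ, 0 < ‖t‖ → ‖t‖ < r → P t := F2_ev h

private theorem G5_two {A B X Y : ℂ} {p q b y : ℝ} (hp : 1 ≤ p)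
    (hAB : ‖A - B‖ ≤ (p - 1) * b) (hXY : ‖X - Y‖ ≤ (q - 1) * y) (hB : ‖B‖ ≤ b) (hY : ‖Y‖ ≤ y) :
    ‖A * X - B * Y‖ ≤ (p * q - 1) * (b * y) := by
  have hb : 0 ≤ b := (norm_nonneg _).trans hB
  have hX : ‖X‖ ≤ q * y := by
    have h1 : ‖X‖ ≤ ‖X - Y‖ + ‖Y‖ := by
      have := norm_add_le (X - Y) Y
      rwa [sub_add_cancel] at this
    linarith
  have h2 : A * X - B * Y = (A - B) * X + B * (X - Y) := by ring
  rw [h2]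
  calc ‖(A - B) * X + B * (X - Y)‖ ≤ ‖A - B‖ * ‖X‖ + ‖B‖ * ‖X - Y‖ :=
        (norm_add_le _ _).trans (by rw [norm_mul, norm_mul])
    _ ≤ ((p - 1) * b) * (q * y) + b * ((q - 1) * y) := by
        refine add_le_add ?_ ?_
        · exact mul_le_mul hAB hX (norm_nonneg _) (mul_nonneg (by linarith) hb)
        · exact mul_le_mul hB hXY (norm_nonneg _) hb
    _ = (p * q - 1) * (b * y) := by ring

private theorem G5_pow {x y : ℂ} {τ : ℝ} (hτ : 0 ≤ τ) (h : ‖x - y‖ ≤ τ * ‖y‖) (m : ℕ) :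
    ‖x ^ m - y ^ m‖ ≤ ((1 + τ) ^ m - 1) * ‖y‖ ^ m := by
  induction m with
  | zero => simp
  | succ m ih =>
    have h1 : ‖x - y‖ ≤ ((1 + τ) - 1) * ‖y‖ := by rw [add_sub_cancel_left]; exact h
    have := G5_two (A := x) (B := y) (X := x ^ m) (Y := y ^ m) (by linarith) h1 ih le_rfl
      (norm_pow y m).le
    rw [← pow_succ', ← pow_succ', ← pow_succ', ← pow_succ'] at this
    exact this

/-- product perturbation -/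
theorem prod_pert {c : ℕ} (m : Fin c → ℕ) (x y : Fin c → ℂ) (τ : ℝ) (hτ : 0 ≤ τ)
    (h : ∀ C, ‖x C - y C‖ ≤ τ * ‖y C‖) :
    ‖∏ C, x C ^ m C - ∏ C, y C ^ m C‖ ≤ ((1 + τ) ^ (∑ C, m C) - 1) * ∏ C, ‖y C‖ ^ m C := by
  have key : ∀ s : Finset (Fin c), ‖∏ C ∈ s, x C ^ m C - ∏ C ∈ s, y C ^ m C‖ ≤
      ((1 + τ) ^ (∑ C ∈ s, m C) - 1) * ∏ C ∈ s, ‖y C‖ ^ m C := by
    intro s
    induction s using Finset.induction_on with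
    | empty => simp
    | insert C s hC ih =>
      rw [Finset.prod_insert hC, Finset.prod_insert hC, Finset.sum_insert hC,
        Finset.prod_insert hC, pow_add]
      refine G5_two (one_le_pow₀ (by linarith)) (G5_pow hτ (h C) (m C)) ih (norm_pow _ _).le ?_
      rw [norm_prod]
      exact (Finset.prod_congr rfl fun C _ => norm_pow _ _).le
  exact key Finset.univ

theorem PM_low {c : ℕ} (e : ℕ) (m : Fin c → ℕ) (b : Fin c → ℝ) (γ : Fin c → ℂ → ℂ) (x t : ℂ)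
    (hO : ∀ C, ‖t‖ ^ (b C) ≤ ‖x - γ C t‖) (C : Fin c)
    (hC : ∀ C', ‖x - γ C t‖ ≤ ‖x - γ C' t‖) :
    cE e m b γ C (2 * ‖x - γ C t‖) t ≤ 5 ^ (∑ C, m C) * PM e m γ x t := by
  unfold cE PM
  have h1 : ∏ C', (2 * ‖x - γ C t‖ + ‖t‖ ^ (b C') + ‖γ C t - γ C' t‖) ^ m C' ≤
      5 ^ (∑ C', m C') * ∏ C', ‖x - γ C' t‖ ^ m C' := by
    rw [← Finset.prod_pow_eq_pow_sum, ← Finset.prod_mul_distrib]
    refine Finset.prod_le_prod (fun C' _ => by positivity) fun C' _ => ?_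
    rw [← mul_pow]
    refine pow_le_pow_left₀ (by positivity) ?_ _
    have h2 := hO C'
    have h3 := hC C'
    have h4 : ‖γ C t - γ C' t‖ ≤ ‖x - γ C t‖ + ‖x - γ C' t‖ := by
      have h5 : γ C t - γ C' t = (x - γ C' t) - (x - γ C t) := by ring
      rw [h5]
      have := norm_sub_le (x - γ C' t) (x - γ C t)
      linarith
    linarith
  calc _ ≤ ‖t‖ ^ e * (5 ^ (∑ C', m C') * ∏ C', ‖x - γ C' t‖ ^ m C') :=
        mul_le_mul_of_nonneg_left h1 (by positivity)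
    _ = _ := by ring

private theorem G5_PM_nonneg {c : ℕ} (e : ℕ) (m : Fin c → ℕ) (γ : Fin c → ℂ → ℂ) (x t : ℂ) :
    0 ≤ PM e m γ x t := by
  unfold PM
  exact mul_nonneg (by positivity) (Finset.prod_nonneg fun _ _ => by positivity)

/-- radii for the point `q` -/
private theorem G5_q {F G : ℂ × ℂ → ℂ} {k n N : ℕ} {u : ℂ} {c : ℕ} {m : Fin c → ℕ} {b : Fin c → ℝ}
    {γ v Γ η : Fin c → ℂ → ℂ} {a : Fin c → ℂ} {D : Fin c → ℕ}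
    (h : CFa F G k n N u c m b γ v Γ η a D) (hc : 1 ≤ c) :
    ∀ δ' > (0 : ℝ), ∃ δ > (0 : ℝ), ∀ (x t : ℂ) (q : ℂ × ℂ), 0 < ‖t‖ → ‖t‖ < δ →
      ‖x‖ < δ * ‖t‖ ^ N →
      (∀ C, ‖(q.1 - Γ C t) - (x - γ C t)‖ ≤ ‖x - γ C t‖ / 2) →
      ‖q.1‖ < δ' * ‖t‖ ^ N := by
  intro δ' hδ'
  have C0 : Fin c := ⟨0, hc⟩
  have e1 := isLittleO_iff.1 (h.clu.gsm C0) (show (0 : ℝ) < δ' / 8 by positivity)
  have e2 := isLittleO_iff.1 (h.Γsm C0) (show (0 : ℝ) < δ' / 8 by positivity)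
  obtain ⟨r, hr, hrb⟩ := G5_ev (e1.and e2)
  refine ⟨min r (δ' / 8), by positivity, ?_⟩
  intro x t q ht0 ht hx hq
  obtain ⟨g1, g2⟩ := hrb t ht0 (ht.trans_le (min_le_left _ _))
  rw [norm_pow] at g1 g2
  have hN : 0 < ‖t‖ ^ N := by positivity
  have hx' : ‖x‖ < δ' / 8 * ‖t‖ ^ N :=
    hx.trans_le (mul_le_mul_of_nonneg_right (min_le_right _ _) hN.le)
  have h1 := hq C0
  have h2 : ‖x - γ C0 t‖ ≤ ‖x‖ + ‖γ C0 t‖ := norm_sub_le _ _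
  have h3 : q.1 = ((q.1 - Γ C0 t) - (x - γ C0 t)) + (x - γ C0 t) + Γ C0 t := by ring
  have h4 : ‖q.1‖ ≤ ‖(q.1 - Γ C0 t) - (x - γ C0 t)‖ + ‖x - γ C0 t‖ + ‖Γ C0 t‖ := by
    calc ‖q.1‖ = ‖((q.1 - Γ C0 t) - (x - γ C0 t)) + (x - γ C0 t) + Γ C0 t‖ := by rw [← h3]
      _ ≤ _ := norm_add₃_le
  have h5 : δ' * ‖t‖ ^ N = 8 * (δ' / 8 * ‖t‖ ^ N) := by ring
  rw [h5]
  have h6 : 0 < δ' / 8 * ‖t‖ ^ N := by positivity
  linarith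

private theorem G5_adm {c : ℕ} {b : Fin c → ℝ} {γ Γ η : Fin c → ℂ → ℂ} {C2 : ℝ} (hC2 : 0 < C2)
    {x t : ℂ} {q : ℂ × ℂ}
    (hq : ∀ C, ‖(q.1 - Γ C t) - (x - γ C t)‖ ≤ ‖x - γ C t‖ / 2)
    (hy : ∀ C, ‖q.2 - η C t‖ ≤ C2 * ‖x - γ C t‖) :
    Adm (2 * C2) b Γ η t q ∧ (∀ C, ‖x - γ C t‖ / 2 ≤ ‖q.1 - Γ C t‖) ∧
      ∀ C, ‖q.1 - Γ C t‖ ≤ 3 / 2 * ‖x - γ C t‖ := by
  have h1 : ∀ C, ‖x - γ C t‖ / 2 ≤ ‖q.1 - Γ C t‖ := by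
    intro C
    have h2 := hq C
    have h3 : ‖x - γ C t‖ ≤ ‖q.1 - Γ C t‖ + ‖(q.1 - Γ C t) - (x - γ C t)‖ := by
      have h4 : x - γ C t = (q.1 - Γ C t) - ((q.1 - Γ C t) - (x - γ C t)) := by ring
      calc ‖x - γ C t‖ = ‖(q.1 - Γ C t) - ((q.1 - Γ C t) - (x - γ C t))‖ := by rw [← h4]
        _ ≤ _ := norm_sub_le _ _
    linarith
  refine ⟨fun C => ?_, h1, fun C => ?_⟩
  · have h2 : 0 ≤ ‖t‖ ^ (b C) := by positivity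
    have h3 := h1 C
    have h4 := hy C
    calc ‖q.2 - η C t‖ ≤ C2 * ‖x - γ C t‖ := h4
      _ ≤ C2 * (2 * ‖q.1 - Γ C t‖) := mul_le_mul_of_nonneg_left (by linarith) hC2.le
      _ ≤ 2 * C2 * (‖t‖ ^ (b C) + ‖q.1 - Γ C t‖) := by nlinarith
  · have h2 := hq C
    have h3 : ‖q.1 - Γ C t‖ ≤ ‖(q.1 - Γ C t) - (x - γ C t)‖ + ‖x - γ C t‖ := by
      have := norm_add_le ((q.1 - Γ C t) - (x - γ C t)) (x - γ C t)
      rwa [sub_add_cancel] at this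
    linarith

private theorem G5_near {c : ℕ} (hc : 1 ≤ c) (γ : Fin c → ℂ → ℂ) (x t : ℂ) :
    ∃ C, ∀ C', ‖x - γ C t‖ ≤ ‖x - γ C' t‖ := by
  have : Nonempty (Fin c) := ⟨⟨0, hc⟩⟩
  exact Finite.exists_min fun C => ‖x - γ C t‖

theorem zoneO_dx {F G : ℂ × ℂ → ℂ} {k n N : ℕ} {u : ℂ} {c : ℕ} {m : Fin c → ℕ} {b : Fin c → ℝ}
    {γ v Γ η : Fin c → ℂ → ℂ} {a : Fin c → ℂ} {D : Fin c → ℕ}
    (h : CFa F G k n N u c m b γ v Γ η a D) (hc : 1 ≤ c) :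
    ∀ C2 > (0 : ℝ), ∀ ε > (0 : ℝ), ∃ τ > (0 : ℝ), ∃ K : ℝ, 1 ≤ K ∧ ∃ δ > (0 : ℝ),
      ∀ (x t : ℂ) (q : ℂ × ℂ), 0 < ‖t‖ → ‖t‖ < δ → ‖x‖ < δ * ‖t‖ ^ N →
      (∀ C, K * ‖t‖ ^ (b C) ≤ ‖x - γ C t‖) →
      (∀ C, ‖(q.1 - Γ C t) - (x - γ C t)‖ ≤ τ * ‖x - γ C t‖) →
      (∀ C, ‖q.2 - η C t‖ ≤ C2 * ‖x - γ C t‖) →
      ‖dx F (x, t ^ N) - u * t ^ (N * (k - 1 - n)) * ∏ C, (x - γ C t) ^ m C‖ ≤
        ε * PM (N * (k - 1 - n)) m γ x t ∧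
      ‖dx G q - u * t ^ (N * (k - 1 - n)) * ∏ C, (x - γ C t) ^ m C‖ ≤
        ε * PM (N * (k - 1 - n)) m γ x t := by
  intro C2 hC2 ε hε
  obtain ⟨K1, hK1, δ1, hδ1, hF⟩ := h.clu.F2 ε hε
  obtain ⟨K2, hK2, δ2, hδ2, hG⟩ := h.G2 (2 * C2) (by positivity)
    (ε / 2 / (3 / 2) ^ n) (by positivity)
  obtain ⟨δ3, hδ3, hq3⟩ := G5_q h hc δ2 hδ2
  -- the choice of τ
  obtain ⟨τ, hτ0, hτ1, hτ2⟩ : ∃ τ > (0 : ℝ), τ ≤ 1 / 2 ∧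
      ‖u‖ * ((1 + τ) ^ n - 1) ≤ ε / 2 := by
    have hcont : Tendsto (fun τ : ℝ => ‖u‖ * ((1 + τ) ^ n - 1)) (𝓝[>] 0) (𝓝 0) := by
      have h1 : Continuous (fun τ : ℝ => ‖u‖ * ((1 + τ) ^ n - 1)) := by fun_prop
      have h2 := h1.tendsto 0
      simp only [add_zero, one_pow, sub_self, mul_zero] at h2
      exact h2.mono_left nhdsWithin_le_nhds
    have h3 := hcont.eventually (gt_mem_nhds (show (0 : ℝ) < ε / 2 by positivity))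
    have h4 : ∀ᶠ τ in 𝓝[>] (0 : ℝ), τ ≤ 1 / 2 :=
      nhdsWithin_le_nhds (Iic_mem_nhds (by norm_num))
    have h5 : ∀ᶠ τ in 𝓝[>] (0 : ℝ), 0 < τ := self_mem_nhdsWithin
    obtain ⟨τ, a1, a2, a3⟩ := (h3.and (h4.and h5)).exists
    exact ⟨τ, a3, a2, a1.le⟩
  refine ⟨τ, hτ0, max 1 (max K1 (2 * K2)), le_max_left _ _, min (min δ1 δ2) δ3, by positivity, ?_⟩
  intro x t q ht0 ht hx hK hq hy
  have hN : 0 < ‖t‖ ^ N := by positivity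
  have t1 : ‖t‖ < δ1 := ht.trans_le ((min_le_left _ _).trans (min_le_left _ _))
  have t2 : ‖t‖ < δ2 := ht.trans_le ((min_le_left _ _).trans (min_le_right _ _))
  have t3 : ‖t‖ < δ3 := ht.trans_le (min_le_right _ _)
  have x1 : ‖x‖ < δ1 * ‖t‖ ^ N := hx.trans_le
    (mul_le_mul_of_nonneg_right ((min_le_left _ _).trans (min_le_left _ _)) hN.le)
  have x3 : ‖x‖ < δ3 * ‖t‖ ^ N := hx.trans_le
    (mul_le_mul_of_nonneg_right (min_le_right _ _) hN.le)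
  have s0 : ∀ C, 0 ≤ ‖t‖ ^ (b C) := fun C => by positivity
  have kK1 : ∀ C, K1 * ‖t‖ ^ (b C) ≤ ‖x - γ C t‖ := fun C =>
    (mul_le_mul_of_nonneg_right ((le_max_left _ _).trans (le_max_right _ _)) (s0 C)).trans (hK C)
  have kK2 : ∀ C, 2 * K2 * ‖t‖ ^ (b C) ≤ ‖x - γ C t‖ := fun C =>
    (mul_le_mul_of_nonneg_right ((le_max_right _ _).trans (le_max_right _ _)) (s0 C)).trans (hK C)
  have hq2 : ∀ C, ‖(q.1 - Γ C t) - (x - γ C t)‖ ≤ ‖x - γ C t‖ / 2 := by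
    intro C
    refine (hq C).trans ?_
    have := norm_nonneg (x - γ C t)
    nlinarith
  obtain ⟨ad, lo, up⟩ := G5_adm (b := b) hC2 hq2 hy
  refine ⟨hF x t ht0 t1 x1 kK1, ?_⟩
  have g1 := hG t q ht0 t2 (hq3 x t q ht0 t3 x3 hq2) ad (fun C => by
    have h1 := kK2 C
    have h2 := lo C
    linarith)
  have g2 := prod_pert m (fun C => q.1 - Γ C t) (fun C => x - γ C t) τ hτ0.le hq
  rw [h.clu.hmn] at g2
  -- the product of `q`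
  have g3 : ∏ C, ‖q.1 - Γ C t‖ ^ m C ≤ (3 / 2 : ℝ) ^ n * ∏ C, ‖x - γ C t‖ ^ m C := by
    rw [← h.clu.hmn, ← Finset.prod_pow_eq_pow_sum, ← Finset.prod_mul_distrib]
    refine Finset.prod_le_prod (fun C' _ => by positivity) fun C' _ => ?_
    rw [← mul_pow]
    exact pow_le_pow_left₀ (norm_nonneg _) (up C') _
  set e := N * (k - 1 - n) with he
  set P := ∏ C, ‖x - γ C t‖ ^ m C with hP
  have hP0 : 0 ≤ P := Finset.prod_nonneg fun _ _ => by positivity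
  have h4 : dx G q - u * t ^ e * ∏ C, (x - γ C t) ^ m C =
      (dx G q - u * t ^ e * ∏ C, (q.1 - Γ C t) ^ m C) +
      u * t ^ e * (∏ C, (q.1 - Γ C t) ^ m C - ∏ C, (x - γ C t) ^ m C) := by ring
  rw [h4]
  have h5 : ‖u * t ^ e * (∏ C, (q.1 - Γ C t) ^ m C - ∏ C, (x - γ C t) ^ m C)‖ ≤
      ‖u‖ * ‖t‖ ^ e * (((1 + τ) ^ n - 1) * P) := by
    rw [norm_mul, norm_mul, norm_pow]
    exact mul_le_mul_of_nonneg_left g2 (by positivity)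
  have h6 : ‖u‖ * ‖t‖ ^ e * (((1 + τ) ^ n - 1) * P) ≤ ε / 2 * (‖t‖ ^ e * P) := by
    calc ‖u‖ * ‖t‖ ^ e * (((1 + τ) ^ n - 1) * P)
        = (‖u‖ * ((1 + τ) ^ n - 1)) * (‖t‖ ^ e * P) := by ring
      _ ≤ _ := mul_le_mul_of_nonneg_right hτ2 (by positivity)
  have h7 : ε / 2 / (3 / 2) ^ n * (‖t‖ ^ e * ∏ C, ‖q.1 - Γ C t‖ ^ m C) ≤
      ε / 2 * (‖t‖ ^ e * P) := by
    calc ε / 2 / (3 / 2) ^ n * (‖t‖ ^ e * ∏ C, ‖q.1 - Γ C t‖ ^ m C)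
        ≤ ε / 2 / (3 / 2) ^ n * (‖t‖ ^ e * ((3 / 2 : ℝ) ^ n * P)) := by
          refine mul_le_mul_of_nonneg_left ?_ (by positivity)
          exact mul_le_mul_of_nonneg_left g3 (by positivity)
      _ = ε / 2 * (‖t‖ ^ e * P) := by field_simp
  have h8 : PM e m γ x t = ‖t‖ ^ e * P := rfl
  rw [h8]
  refine (norm_add_le _ _).trans ?_
  linarith

theorem zoneO_diff {F G : ℂ × ℂ → ℂ} {k n N : ℕ} {u : ℂ} {c : ℕ} {m : Fin c → ℕ} {b : Fin c → ℝ}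
    {γ v Γ η : Fin c → ℂ → ℂ} {a : Fin c → ℂ} {D : Fin c → ℕ}
    (h : CFa F G k n N u c m b γ v Γ η a D) (hc : 1 ≤ c) :
    ∀ C2 > (0 : ℝ), ∀ ε > (0 : ℝ), ∃ δ > (0 : ℝ),
      ∀ (x t : ℂ) (q : ℂ × ℂ), 0 < ‖t‖ → ‖t‖ < δ → ‖x‖ < δ * ‖t‖ ^ N →
      (∀ C, ‖t‖ ^ (b C) ≤ ‖x - γ C t‖) →
      (∀ C, ‖(q.1 - Γ C t) - (x - γ C t)‖ ≤ ‖x - γ C t‖ / 2) →
      (∀ C, ‖q.2 - η C t‖ ≤ C2 * ‖x - γ C t‖) →
      ‖dy F (x, t ^ N) - dy G q‖ ≤ ε * PM (N * (k - 1 - n)) m γ x t := by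
  intro C2 hC2 ε hε
  obtain ⟨c1, hc1, c2, hc2, hbal⟩ := h.clu.bal
  obtain ⟨δ0, hδ0, hb0⟩ := G5_ev hbal
  set ε' : ℝ := ε / (2 * (c1⁻¹ + 1) * 5 ^ n) with hε'
  have hε'0 : 0 < ε' := by positivity
  obtain ⟨δ1, hδ1, hF⟩ := h.clu.F3 ε' hε'0
  obtain ⟨δ2, hδ2, hG⟩ := h.G3 (2 * C2) (by positivity) ε' hε'0
  obtain ⟨δ3, hδ3, hq3⟩ := G5_q h hc δ2 hδ2
  refine ⟨min (min δ0 δ1) (min δ2 δ3), by positivity, ?_⟩
  intro x t q ht0 ht hx hO hq2 hy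
  have hN : 0 < ‖t‖ ^ N := by positivity
  have t0 : ‖t‖ < δ0 := ht.trans_le ((min_le_left _ _).trans (min_le_left _ _))
  have t1 : ‖t‖ < δ1 := ht.trans_le ((min_le_left _ _).trans (min_le_right _ _))
  have t2 : ‖t‖ < δ2 := ht.trans_le ((min_le_right _ _).trans (min_le_left _ _))
  have t3 : ‖t‖ < δ3 := ht.trans_le ((min_le_right _ _).trans (min_le_right _ _))
  have x1 : ‖x‖ < δ1 * ‖t‖ ^ N := hx.trans_le
    (mul_le_mul_of_nonneg_right ((min_le_left _ _).trans (min_le_right _ _)) hN.le)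
  have x3 : ‖x‖ < δ3 * ‖t‖ ^ N := hx.trans_le
    (mul_le_mul_of_nonneg_right ((min_le_right _ _).trans (min_le_right _ _)) hN.le)
  obtain ⟨ad, lo, up⟩ := G5_adm (b := b) hC2 hq2 hy
  obtain ⟨C, hC⟩ := G5_near hc γ x t
  have f1 := hF x t ht0 t1 x1 C
  have g1 := hG t q ht0 t2 (hq3 x t q ht0 t3 x3 hq2) ad C
  have p1 := PM_low (N * (k - 1 - n)) m b γ x t hO C hC
  rw [h.clu.hmn] at p1
  have b1 := (hb0 t ht0 t0 C).1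
  have d0 : 0 ≤ ‖x - γ C t‖ := norm_nonneg _
  have m1 := cE_mono (N * (k - 1 - n)) m b γ C t ‖x - γ C t‖ (2 * ‖x - γ C t‖) d0 (by linarith)
  have m2 := cE_mono (N * (k - 1 - n)) m b γ C t ‖q.1 - Γ C t‖ (2 * ‖x - γ C t‖)
    (norm_nonneg _) (by have := up C; linarith)
  have m3 := cE_mono (N * (k - 1 - n)) m b γ C t 0 (2 * ‖x - γ C t‖) le_rfl (by linarith)
  set P := 5 ^ n * PM (N * (k - 1 - n)) m γ x t with hP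
  have hv : ‖v C t‖ ≤ c1⁻¹ * P := by
    rw [inv_mul_eq_div, le_div_iff₀ hc1, mul_comm]
    linarith
  have h1 : ‖dy F (x, t ^ N) - dy G q‖ ≤
      ‖dy F (x, t ^ N) - v C t‖ + ‖dy G q - v C t‖ := by
    have h2 : dy F (x, t ^ N) - dy G q = (dy F (x, t ^ N) - v C t) - (dy G q - v C t) := by ring
    rw [h2]
    exact norm_sub_le _ _
  have h3 : ε' * (‖v C t‖ + cE (N * (k - 1 - n)) m b γ C ‖x - γ C t‖ t) ≤
      ε' * ((c1⁻¹ + 1) * P) := by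
    refine mul_le_mul_of_nonneg_left ?_ hε'0.le
    linarith
  have h4 : ε' * (‖v C t‖ + cE (N * (k - 1 - n)) m b γ C ‖q.1 - Γ C t‖ t) ≤
      ε' * ((c1⁻¹ + 1) * P) := by
    refine mul_le_mul_of_nonneg_left ?_ hε'0.le
    linarith
  have h5 : 2 * (ε' * ((c1⁻¹ + 1) * P)) = ε * PM (N * (k - 1 - n)) m γ x t := by
    rw [hε', hP]
    field_simp
  linarith

theorem zoneO_dy {F G : ℂ × ℂ → ℂ} {k n N : ℕ} {u : ℂ} {c : ℕ} {m : Fin c → ℕ} {b : Fin c → ℝ}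
    {γ v Γ η : Fin c → ℂ → ℂ} {a : Fin c → ℂ} {D : Fin c → ℕ}
    (h : CFa F G k n N u c m b γ v Γ η a D) (hc : 1 ≤ c) :
    ∀ C2 > (0 : ℝ), ∀ ε > (0 : ℝ), ∃ K : ℝ, 1 ≤ K ∧ ∃ δ > (0 : ℝ),
      ∀ (x t : ℂ) (q : ℂ × ℂ), 0 < ‖t‖ → ‖t‖ < δ → ‖x‖ < δ * ‖t‖ ^ N →
      (∀ C, K * ‖t‖ ^ (b C) ≤ ‖x - γ C t‖) →
      (∀ C, ‖(q.1 - Γ C t) - (x - γ C t)‖ ≤ ‖x - γ C t‖ / 2) →
      (∀ C, ‖q.2 - η C t‖ ≤ C2 * ‖x - γ C t‖) →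
      ‖dy F (x, t ^ N)‖ ≤ ε * PM (N * (k - 1 - n)) m γ x t ∧
      ‖dy G q‖ ≤ ε * PM (N * (k - 1 - n)) m γ x t := by
  intro C2 hC2 ε hε
  set ε1 : ℝ := min 1 (ε / (2 * 5 ^ n)) with hε1
  have hε10 : 0 < ε1 := by positivity
  obtain ⟨K1, hK1, δ0, hδ0, hv⟩ := v_small h.clu (ε / (4 * 5 ^ n)) (by positivity)
  obtain ⟨δ1, hδ1, hF⟩ := h.clu.F3 ε1 hε10
  obtain ⟨δ2, hδ2, hG⟩ := h.G3 (2 * C2) (by positivity) ε1 hε10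
  obtain ⟨δ3, hδ3, hq3⟩ := G5_q h hc δ2 hδ2
  refine ⟨max 1 K1, le_max_left _ _, min (min δ0 δ1) (min δ2 δ3), by positivity, ?_⟩
  intro x t q ht0 ht hx hK hq2 hy
  have hN : 0 < ‖t‖ ^ N := by positivity
  have s0 : ∀ C, 0 ≤ ‖t‖ ^ (b C) := fun C => by positivity
  have t0 : ‖t‖ < δ0 := ht.trans_le ((min_le_left _ _).trans (min_le_left _ _))
  have t1 : ‖t‖ < δ1 := ht.trans_le ((min_le_left _ _).trans (min_le_right _ _))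
  have t2 : ‖t‖ < δ2 := ht.trans_le ((min_le_right _ _).trans (min_le_left _ _))
  have t3 : ‖t‖ < δ3 := ht.trans_le ((min_le_right _ _).trans (min_le_right _ _))
  have x1 : ‖x‖ < δ1 * ‖t‖ ^ N := hx.trans_le
    (mul_le_mul_of_nonneg_right ((min_le_left _ _).trans (min_le_right _ _)) hN.le)
  have x3 : ‖x‖ < δ3 * ‖t‖ ^ N := hx.trans_le
    (mul_le_mul_of_nonneg_right ((min_le_right _ _).trans (min_le_right _ _)) hN.le)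
  obtain ⟨ad, lo, up⟩ := G5_adm (b := b) hC2 hq2 hy
  obtain ⟨C, hC⟩ := G5_near hc γ x t
  have f1 := hF x t ht0 t1 x1 C
  have g1 := hG t q ht0 t2 (hq3 x t q ht0 t3 x3 hq2) ad C
  have hO : ∀ C, ‖t‖ ^ (b C) ≤ ‖x - γ C t‖ := fun C => by
    have h1 := mul_le_mul_of_nonneg_right (le_max_left 1 K1) (s0 C)
    rw [one_mul] at h1
    exact h1.trans (hK C)
  have p1 := PM_low (N * (k - 1 - n)) m b γ x t hO C hC
  rw [h.clu.hmn] at p1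
  have d0 : 0 ≤ ‖x - γ C t‖ := norm_nonneg _
  have m1 := cE_mono (N * (k - 1 - n)) m b γ C t ‖x - γ C t‖ (2 * ‖x - γ C t‖) d0 (by linarith)
  have m2 := cE_mono (N * (k - 1 - n)) m b γ C t ‖q.1 - Γ C t‖ (2 * ‖x - γ C t‖)
    (norm_nonneg _) (by have := up C; linarith)
  have v1 := hv t ht0 t0 C ‖x - γ C t‖
    ((mul_le_mul_of_nonneg_right (le_max_right _ _) (s0 C)).trans (hK C))
  set P := 5 ^ n * PM (N * (k - 1 - n)) m γ x t with hP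
  have hP0 : 0 ≤ P := mul_nonneg (by positivity) (G5_PM_nonneg _ _ _ _ _)
  have hv1 : ‖v C t‖ ≤ ε / (4 * 5 ^ n) * P :=
    v1.trans (mul_le_mul_of_nonneg_left (m1.trans p1) (by positivity))
  have e1 : ε1 ≤ 1 := min_le_left _ _
  have e2 : ε1 ≤ ε / (2 * 5 ^ n) := min_le_right _ _
  have key : ∀ (E w : ℝ), E ≤ P → w ≤ ‖v C t‖ + ε1 * (‖v C t‖ + E) →
      w ≤ ε * PM (N * (k - 1 - n)) m γ x t := by
    intro E w hE hw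
    have hvn : 0 ≤ ‖v C t‖ := norm_nonneg _
    have a1 : ε1 * (‖v C t‖ + E) ≤ ‖v C t‖ + ε / (2 * 5 ^ n) * P := by
      have a2 : ε1 * ‖v C t‖ ≤ 1 * ‖v C t‖ := mul_le_mul_of_nonneg_right e1 hvn
      have a3 : ε1 * E ≤ ε1 * P := mul_le_mul_of_nonneg_left hE hε10.le
      have a4 : ε1 * P ≤ ε / (2 * 5 ^ n) * P := mul_le_mul_of_nonneg_right e2 hP0
      linarith
    have a5 : 2 * (ε / (4 * 5 ^ n) * P) + ε / (2 * 5 ^ n) * P =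
        ε * PM (N * (k - 1 - n)) m γ x t := by
      rw [hP]
      field_simp
      ring
    linarith
  refine ⟨?_, ?_⟩
  · refine key _ _ (m1.trans p1) ?_
    have h1 : ‖dy F (x, t ^ N)‖ ≤ ‖v C t‖ + ‖dy F (x, t ^ N) - v C t‖ := by
      have := norm_add_le (v C t) (dy F (x, t ^ N) - v C t)
      rwa [add_sub_cancel] at this
    linarith
  · refine key _ _ (m2.trans p1) ?_
    have h1 : ‖dy G q‖ ≤ ‖v C t‖ + ‖dy G q - v C t‖ := by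
      have := norm_add_le (v C t) (dy G q - v C t)
      rwa [add_sub_cancel] at this
    linarith

end H24.LS
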