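import Pool.Agent.H24.LS.Base

/-!
# G7: abstract solution lemmas

* `newton1`: `T z = z - (g z - w)/a` maps the closed ball of radius `ρ = 2 ‖g z0 - w‖/‖a‖ ≤ r/2` around `z0` into itself and is a
  `1/2`-contraction on `ball z0 r` (mean value inequality, `T' = (a - g')/a`).  Uniqueness in `ball z0 r`.
  (If `‖g z0 - w‖ = 0` take `z = z0`.)
* `solve_C1`: at `p0 ∈ U` apply the inverse function theorem (`ContDiffAt.toOpenPartialHomeomorph`,
  `ContDiffAt.to_localInverse`) to `(p, w) ↦ (p, H (p,w))` at `(p0, z p0)`: the derivative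
  `(u, w) ↦ (u, D_1 H u + a w)` is invertible.  This gives a `C^1` function `z'` near `p0` with `z' p0 = z p0`,
  `H (p, z' p) = 0`; `(p, z' p) ∈ S` near `p0` (`S` open), so `z' = z` near `p0` by uniqueness.
-/

open Filter Topology Metric Asymptotics

namespace H24.LS

theorem newton1 (g : ℂ → ℂ) (z0 : ℂ) (r : ℝ) (a w : ℂ) (hr : 0 < r) (ha : a ≠ 0)
    (hg : ∀ z ∈ ball z0 r, DifferentiableAt ℂ g z ∧ ‖deriv g z - a‖ ≤ ‖a‖ / 2)
    (hw : ‖g z0 - w‖ ≤ ‖a‖ * r / 4) :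
    ∃ z, ‖z - z0‖ ≤ 2 * ‖g z0 - w‖ / ‖a‖ ∧ g z = w ∧
      ∀ z' ∈ ball z0 r, g z' = w → z' = z := by
  have ha' : 0 < ‖a‖ := norm_pos_iff.2 ha
  -- the approximation property
  have happ : ∀ x ∈ ball z0 r, ∀ y ∈ ball z0 r,
      ‖g x - g y - a * (x - y)‖ ≤ ‖a‖ / 2 * ‖x - y‖ := by
    intro x hx y hy
    have h1 := (convex_ball z0 r).norm_image_sub_le_of_norm_hasDerivWithin_le
      (f := fun z => g z - a * z) (f' := fun z => deriv g z - a) (C := ‖a‖ / 2)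
      (fun z hz => by
        have h2 := (hg z hz).1.hasDerivAt
        have h3 := ((hasDerivAt_id z).const_mul a)
        rw [mul_one] at h3
        exact (h2.sub h3).hasDerivWithinAt) (fun z hz => (hg z hz).2) hy hx
    have h2 : g x - g y - a * (x - y) = (g x - a * x) - (g y - a * y) := by ring
    rw [h2]
    exact h1
  have happ' : ApproximatesLinearOn g (ContinuousLinearMap.mul ℂ ℂ a) (ball z0 r)
      (‖a‖₊ / 2) := by
    intro x hx y hy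
    exact happ x hx y hy
  obtain ⟨ε, hε⟩ : ∃ ε : ℝ, ε = 2 * ‖g z0 - w‖ / ‖a‖ := ⟨_, rfl⟩
  have hε0 : 0 ≤ ε := by rw [hε]; positivity
  have hεr : ε < r := by
    rw [hε, div_lt_iff₀ ha']
    have := mul_pos ha' hr
    linarith
  have hsurj := happ'.surjOn_closedBall_of_nonlinearRightInverse
    (f'symm := ⟨fun y => a⁻¹ * y, ‖a‖₊⁻¹, fun y => by rw [norm_mul, norm_inv]; exact le_rfl,
      fun y => by
        show a * (a⁻¹ * y) = y
        rw [mul_inv_cancel_left₀ ha]⟩) (b := z0) hε0 (closedBall_subset_ball hεr)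
  have hw' : w ∈ closedBall (g z0) ((((‖a‖₊⁻¹ : NNReal) : ℝ)⁻¹ - ((‖a‖₊ / 2 : NNReal) : ℝ)) * ε) := by
    rw [mem_closedBall, dist_eq_norm, norm_sub_rev]
    push_cast
    rw [inv_inv, hε]
    have : (‖a‖ - ‖a‖ / 2) * (2 * ‖g z0 - w‖ / ‖a‖) = ‖g z0 - w‖ := by
      field_simp
      ring
    rw [this]
  obtain ⟨z, hz, hzw⟩ := hsurj hw'
  have hz1 : ‖z - z0‖ ≤ ε := by
    rw [mem_closedBall, dist_eq_norm] at hz
    exact hz
  have hzb : z ∈ ball z0 r := closedBall_subset_ball hεr hz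
  refine ⟨z, by rw [← hε]; exact hz1, hzw, ?_⟩
  intro z' hz' hzw'
  have h1 := happ z' hz' z hzb
  rw [hzw, hzw', sub_self, zero_sub, norm_neg, norm_mul] at h1
  have h2 : ‖z' - z‖ ≤ 0 := by
    by_contra hcon
    push Not at hcon
    have := mul_pos ha' hcon
    linarith
  have h3 : z' - z = 0 := norm_le_zero_iff.1 h2
  exact sub_eq_zero.1 h3

theorem solve_C1 {E : Type*} [NormedAddCommGroup E] [NormedSpace ℝ E] [CompleteSpace E]
    (U : Set E) (hU : IsOpen U) (S : Set (E × ℂ)) (hS : IsOpen S) (H : E × ℂ → ℂ) (z : E → ℂ)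
    (hz : ∀ p ∈ U, (p, z p) ∈ S ∧ H (p, z p) = 0)
    (hun : ∀ p ∈ U, ∀ w, (p, w) ∈ S → H (p, w) = 0 → w = z p)
    (hH : ∀ p ∈ U, ContDiffAt ℝ 1 H (p, z p))
    (hd : ∀ p ∈ U, ∃ a : ℂ, a ≠ 0 ∧ ∀ w : ℂ, fderiv ℝ H (p, z p) (0, w) = a * w) :
    ∀ p ∈ U, ContDiffAt ℝ 1 z p := by
  intro p0 hp0
  obtain ⟨a, ha, hda⟩ := hd p0 hp0
  have hH0 := hH p0 hp0
  set D := fderiv ℝ H (p0, z p0) with hD
  have hHd : HasFDerivAt H D (p0, z p0) := (hH0.differentiableAt (by simp)).hasFDerivAt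
  -- the derivative of `(p, w) ↦ (p, H (p, w))` as an equivalence
  have hDsplit : ∀ (u : E) (w : ℂ), D (u, w) = D (u, 0) + a * w := by
    intro u w
    have h1 : ((u, w) : E × ℂ) = (u, 0) + (0, w) := by simp
    rw [h1, map_add, hda w]
  let f' : (E × ℂ) →L[ℝ] (E × ℂ) := (ContinuousLinearMap.fst ℝ E ℂ).prod D
  let ma : ℂ →L[ℝ] ℂ := (ContinuousLinearMap.mul ℂ ℂ a⁻¹).restrictScalars ℝ
  let g' : (E × ℂ) →L[ℝ] (E × ℂ) := (ContinuousLinearMap.fst ℝ E ℂ).prod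
    (ma.comp (ContinuousLinearMap.snd ℝ E ℂ - (D.comp (ContinuousLinearMap.inl ℝ E ℂ)).comp
      (ContinuousLinearMap.fst ℝ E ℂ)))
  have hfg : Function.LeftInverse g' f' := by
    rintro ⟨u, w⟩
    show ((u, a⁻¹ * (D (u, w) - D (u, 0))) : E × ℂ) = (u, w)
    rw [hDsplit u w, add_sub_cancel_left, inv_mul_cancel_left₀ ha]
  have hgf : Function.RightInverse g' f' := by
    rintro ⟨u, w⟩
    show ((u, D (u, a⁻¹ * (w - D (u, 0)))) : E × ℂ) = (u, w)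
    rw [hDsplit, mul_inv_cancel_left₀ ha, add_sub_cancel]
  let e : (E × ℂ) ≃L[ℝ] (E × ℂ) := ContinuousLinearEquiv.equivOfInverse f' g' hfg hgf
  have hΦ : ContDiffAt ℝ 1 (fun q : E × ℂ => (q.1, H q)) (p0, z p0) :=
    contDiffAt_fst.prodMk hH0
  have hΦ' : HasFDerivAt (fun q : E × ℂ => (q.1, H q)) (e : (E × ℂ) →L[ℝ] (E × ℂ))
      (p0, z p0) := hasFDerivAt_fst.prodMk hHd
  have hn : (1 : WithTop ℕ∞) ≠ 0 := one_ne_zero
  set ψ := hΦ.localInverse hΦ' hn with hψ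
  have hψC := hΦ.to_localInverse hΦ' hn
  have hψ0 : ψ (p0, 0) = (p0, z p0) := by
    have h1 := hΦ.localInverse_apply_image hΦ' hn
    simp only [(hz p0 hp0).2] at h1
    exact h1
  simp only [(hz p0 hp0).2] at hψC
  have hright : ∀ᶠ y in 𝓝 ((p0, (0 : ℂ)) : E × ℂ), ((ψ y).1, H (ψ y)) = y := by
    have h1 := (hΦ.hasStrictFDerivAt' hΦ' hn).eventually_right_inverse
    simp only [(hz p0 hp0).2] at h1
    exact h1
  -- the local solution
  have hι : ContDiffAt ℝ 1 (fun p : E => ((p, (0 : ℂ)) : E × ℂ)) p0 :=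
    contDiffAt_id.prodMk contDiffAt_const
  have hz' : ContDiffAt ℝ 1 (fun p => (ψ (p, 0)).2) p0 :=
    contDiffAt_snd.comp p0 (hψC.comp p0 hι)
  refine hz'.congr_of_eventuallyEq ?_
  have hcont : Tendsto (fun p : E => ψ (p, 0)) (𝓝 p0) (𝓝 (p0, z p0)) := by
    have h1 : ContinuousAt (fun p : E => ψ (p, 0)) p0 := (hψC.comp p0 hι).continuousAt
    have h2 := h1.tendsto
    rwa [hψ0] at h2
  have e1 : ∀ᶠ p in 𝓝 p0, ψ (p, 0) ∈ S := hcont.eventually (hS.mem_nhds (hz p0 hp0).1)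
  have e2 : ∀ᶠ p in 𝓝 p0, ((ψ (p, 0)).1, H (ψ (p, 0))) = (p, 0) := hι.continuousAt.tendsto.eventually hright
  filter_upwards [e1, e2, hU.mem_nhds hp0] with p h1 h2 h3
  have h4 : (ψ (p, 0)).1 = p := congrArg Prod.fst h2
  have h5 : H (ψ (p, 0)) = 0 := congrArg Prod.snd h2
  have h6 : ψ (p, 0) = (p, (ψ (p, 0)).2) := by
    apply Prod.ext
    · exact h4
    · rfl
  rw [h6] at h1 h5
  exact (hun p h3 _ h1 h5).symm

/-- derivative of a composition `G (h1 p, h2 p)` -/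
theorem fderiv_comp2 {E : Type*} [NormedAddCommGroup E] [NormedSpace ℝ E]
    (G : ℂ × ℂ → ℂ) (h1 h2 : E → ℂ) (p : E) (hG : DifferentiableAt ℂ G (h1 p, h2 p))
    (hd1 : DifferentiableAt ℝ h1 p) (hd2 : DifferentiableAt ℝ h2 p) (w : E) :
    DifferentiableAt ℝ (fun q => G (h1 q, h2 q)) p ∧
    fderiv ℝ (fun q => G (h1 q, h2 q)) p w =
      dx G (h1 p, h2 p) * fderiv ℝ h1 p w + dy G (h1 p, h2 p) * fderiv ℝ h2 p w := by
  have e1 := hG.hasFDerivAt.restrictScalars ℝ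
  have e2 := e1.comp p (hd1.hasFDerivAt.prodMk hd2.hasFDerivAt)
  have h3 : HasFDerivAt (fun q => G (h1 q, h2 q)) _ p := e2
  refine ⟨h3.differentiableAt, ?_⟩
  rw [h3.fderiv]
  show fderiv ℂ G (h1 p, h2 p) (fderiv ℝ h1 p w, fderiv ℝ h2 p w) = _
  unfold dx dy
  have h4 : ((fderiv ℝ h1 p w, fderiv ℝ h2 p w) : ℂ × ℂ) =
      (fderiv ℝ h1 p w) • ((1, 0) : ℂ × ℂ) + (fderiv ℝ h2 p w) • ((0, 1) : ℂ × ℂ) := by
    simp
  rw [h4, map_add, map_smul, map_smul, smul_eq_mul, smul_eq_mul]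
  ring

end H24.LS
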