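import Pool.Agent.H24.LS.G0
import Pool.Agent.H24.LS.G5

/-!
# G6: the error `F (x, t^N) - G (X0, Y)` in zone O

Let `C` be a cluster nearest to `x`, `d = ‖x - γ_C‖`, `E = cE e m b γ C d t`.  `s_C ≤ d/K`.
`F (x,t^N) - G (X0,Y) = [F (x,t^N) - F (γ_C,t^N)] - [G (X0, η_C) - G (Γ_C, η_C)] - [G (X0,Y) - G (X0, η_C)]` (`CFa.val`).
(1) Put `Λ = (X0 - Γ_C)/(x - γ_C)` (`‖Λ - 1‖ ≤ τ`), `ξ(s) = γ_C + s (x - γ_C)`, `ξ'(s) = Γ_C + s Λ (x - γ_C)`, `s ∈ [0,1]`.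
  First minus second bracket `= φ(1) - φ(0)`, `φ(s) = F (ξ s, t^N) - G (ξ' s, η_C)`,
  `φ'(s) = (x - γ_C)(dx F (ξ s, t^N) - Λ dx G (ξ' s, η_C))`.
  For `C' ≠ C`: `‖ξ - γ_{C'}‖ ≥ ‖x - γ_{C'}‖ - ‖x - ξ‖ ≥ ‖ξ - γ_C‖`, so `C` is a nearest cluster for `ξ` too,
  `‖γ_C - γ_{C'}‖ ≤ 2 ‖ξ - γ_{C'}‖` and `K' s_{C'} ≤ ‖ξ - γ_{C'}‖` (`sep`, small `t`).
  `(ξ' - Γ_{C'}) - (ξ - γ_{C'}) = s (Λ - 1)(x - γ_C) + (Γ_C - Γ_{C'}) - (γ_C - γ_{C'})`, norm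
  `≤ τ ‖ξ - γ_C‖ + τ ‖γ_C - γ_{C'}‖ ≤ 3 τ ‖ξ - γ_{C'}‖` (`Γpair`; for `C' = C` just `τ ‖ξ - γ_C‖`).
  `‖η_C - η_{C'}‖ ≤ L' ‖γ_C - γ_{C'}‖ ≤ 2 L' ‖ξ - γ_{C'}‖`.
  Let `K'` be from `zoneO_dx` (with small `ε'`, `C2 = 2 L' + 1`).  If `‖ξ - γ_C‖ ≥ K' s_C`: `zoneO_dx` at `ξ` gives
  `‖dx F - Λ dx G‖ ≤ (2ε' + 2τ‖u‖..) PM(ξ) ≤ ε'' E` (`PM (ξ) ≤ cE C d`).  If `‖ξ - γ_C‖ < K' s_C`, i.e. `s < K' s_C/d ≤ K'/K`:
  `Clu.F1`, `CFa.G1`: `‖dx F‖ + 2‖dx G‖ ≤ C0 cE C (2 K' s_C) t ≤ C0' E` (as `2 K' s_C ≤ 2 d`).  So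
  `‖φ(1) - φ(0)‖ ≤ d (ε'' E + (K'/K) C0' E)` (split the interval at `K' s_C/d` and use the mean value inequality on
  both parts).
(2) `‖G (X0,Y) - G (X0, η_C)‖ ≤ ‖Y - η_C‖ sup ‖dy G‖` on the segment, `‖Y - η_C‖ ≤ C1 (s_C + d) ≤ 2 C1 d`; `zoneO_dy` at
  `q = (X0, y')`: `‖y' - η_{C'}‖ ≤ 2 C1 d + 2 L' ‖x - γ_{C'}‖`.
(3) `E ≤ 5^n PM e m γ x t` (`PM_low`), and `d ≤ ‖x - γ_{C'}‖` for every `C'`.
-/

open Filter Topology Metric Asymptotics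

namespace H24.LS

theorem G6_hd (F : ℂ × ℂ → ℂ) (p v : ℂ × ℂ) (s : ℝ)
    (hF : DifferentiableAt ℂ F (p + (s : ℂ) • v)) :
    HasDerivAt (fun s : ℝ => F (p + (s : ℂ) • v)) (fderiv ℂ F (p + (s : ℂ) • v) v) s := by
  have h1 : HasDerivAt (fun z : ℂ => p + z • v) v (s : ℂ) := by
    simpa using ((hasDerivAt_id (s : ℂ)).smul_const v).const_add p
  have h2 : HasDerivAt (fun z : ℂ => F (p + z • v)) (fderiv ℂ F (p + (s : ℂ) • v) v) (s : ℂ) :=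
    hF.hasFDerivAt.comp_hasDerivAt (s : ℂ) h1
  exact h2.comp_ofReal

theorem G6_dx (F : ℂ × ℂ → ℂ) (q : ℂ × ℂ) (w : ℂ) : fderiv ℂ F q (w, 0) = w * dx F q := by
  unfold dx
  have h : ((w, 0) : ℂ × ℂ) = w • (1, 0) := by simp
  rw [h, map_smul, smul_eq_mul]

theorem G6_dy (F : ℂ × ℂ → ℂ) (q : ℂ × ℂ) (w : ℂ) : fderiv ℂ F q (0, w) = w * dy F q := by
  unfold dy
  have h : ((0, w) : ℂ × ℂ) = w • (0, 1) := by simp
  rw [h, map_smul, smul_eq_mul]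

theorem G6_hx (F : ℂ × ℂ → ℂ) (g w y : ℂ) (s : ℝ)
    (hF : DifferentiableAt ℂ F (g + s * w, y)) :
    HasDerivAt (fun s : ℝ => F (g + s * w, y)) (w * dx F (g + s * w, y)) s := by
  have e : ∀ s : ℝ, ((g, y) : ℂ × ℂ) + (s : ℂ) • (w, (0 : ℂ)) = (g + s * w, y) := by
    intro s
    simp
  have h := G6_hd F (g, y) (w, 0) s (by rw [e]; exact hF)
  simp only [e] at h
  rwa [G6_dx] at h

theorem G6_hy (F : ℂ × ℂ → ℂ) (g w y : ℂ) (s : ℝ)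
    (hF : DifferentiableAt ℂ F (y, g + s * w)) :
    HasDerivAt (fun s : ℝ => F (y, g + s * w)) (w * dy F (y, g + s * w)) s := by
  have e : ∀ s : ℝ, ((y, g) : ℂ × ℂ) + (s : ℂ) • ((0 : ℂ), w) = (y, g + s * w) := by
    intro s
    simp
  have h := G6_hd F (y, g) (0, w) s (by rw [e]; exact hF)
  simp only [e] at h
  rwa [G6_dy] at h

/-- the mean value inequality on two parts of the segment -/
theorem G6_p1 (F G : ℂ × ℂ → ℂ) (x y X0 g Γ0 η0 : ℂ) (s0 M1 M2 : ℝ) (hs0 : 0 ≤ s0) (hs1 : s0 ≤ 1)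
    (hF : ∀ s : ℝ, 0 ≤ s → s ≤ 1 → DifferentiableAt ℂ F (g + s * (x - g), y))
    (hG : ∀ s : ℝ, 0 ≤ s → s ≤ 1 → DifferentiableAt ℂ G (Γ0 + s * (X0 - Γ0), η0))
    (b1 : ∀ s : ℝ, 0 ≤ s → s ≤ 1 → ‖(x - g) * dx F (g + s * (x - g), y) -
      (X0 - Γ0) * dx G (Γ0 + s * (X0 - Γ0), η0)‖ ≤ M1)
    (b2 : ∀ s : ℝ, s0 ≤ s → s ≤ 1 → ‖(x - g) * dx F (g + s * (x - g), y) -
      (X0 - Γ0) * dx G (Γ0 + s * (X0 - Γ0), η0)‖ ≤ M2) :
    ‖(F (x, y) - F (g, y)) - (G (X0, η0) - G (Γ0, η0))‖ ≤ M1 * s0 + M2 * (1 - s0) := by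
  set φ : ℝ → ℂ := fun s => F (g + s * (x - g), y) - G (Γ0 + s * (X0 - Γ0), η0) with hφ
  have hd : ∀ s : ℝ, 0 ≤ s → s ≤ 1 → HasDerivAt φ ((x - g) * dx F (g + s * (x - g), y) -
      (X0 - Γ0) * dx G (Γ0 + s * (X0 - Γ0), η0)) s := fun s h0 h1 =>
    (G6_hx F g (x - g) y s (hF s h0 h1)).sub (G6_hx G Γ0 (X0 - Γ0) η0 s (hG s h0 h1))
  have h1 := norm_image_sub_le_of_norm_deriv_le_segment' (f := φ) (a := 0) (b := s0) (C := M1)
    (fun s hs => (hd s hs.1 (hs.2.trans hs1)).hasDerivWithinAt)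
    (fun s hs => b1 s hs.1 (hs.2.le.trans hs1)) s0 ⟨hs0, le_rfl⟩
  have h2 := norm_image_sub_le_of_norm_deriv_le_segment' (f := φ) (a := s0) (b := 1) (C := M2)
    (fun s hs => (hd s (hs0.trans hs.1) hs.2).hasDerivWithinAt)
    (fun s hs => b2 s hs.1 hs.2.le) 1 ⟨hs1, le_rfl⟩
  have e1 : φ 1 = F (x, y) - G (X0, η0) := by
    simp [hφ]
  have e0 : φ 0 = F (g, y) - G (Γ0, η0) := by
    simp [hφ]
  have e2 : (F (x, y) - F (g, y)) - (G (X0, η0) - G (Γ0, η0)) = (φ 1 - φ s0) + (φ s0 - φ 0) := by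
    rw [e1, e0]
    ring
  rw [e2]
  refine (norm_add_le _ _).trans ?_
  rw [sub_zero] at h1
  linarith

/-- the mean value inequality in the second variable -/
theorem G6_p2 (G : ℂ × ℂ → ℂ) (X0 Y η0 : ℂ) (M : ℝ)
    (hG : ∀ s : ℝ, 0 ≤ s → s ≤ 1 → DifferentiableAt ℂ G (X0, η0 + s * (Y - η0)))
    (b : ∀ s : ℝ, 0 ≤ s → s ≤ 1 → ‖(Y - η0) * dy G (X0, η0 + s * (Y - η0))‖ ≤ M) :
    ‖G (X0, Y) - G (X0, η0)‖ ≤ M := by
  set φ : ℝ → ℂ := fun s => G (X0, η0 + s * (Y - η0)) with hφ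
  have h1 := norm_image_sub_le_of_norm_deriv_le_segment' (f := φ) (a := 0) (b := 1) (C := M)
    (fun s hs => (G6_hy G η0 (Y - η0) X0 s (hG s hs.1 hs.2)).hasDerivWithinAt)
    (fun s hs => b s hs.1 hs.2.le) 1 ⟨zero_le_one, le_rfl⟩
  have e1 : φ 1 = G (X0, Y) := by simp [hφ]
  have e0 : φ 0 = G (X0, η0) := by simp [hφ]
  rw [e1, e0] at h1
  linarith

theorem G6_geo {c : ℕ} (g : Fin c → ℂ) (x : ℂ) (C : Fin c)
    (hC : ∀ C', ‖x - g C‖ ≤ ‖x - g C'‖) (s : ℝ) (hs0 : 0 ≤ s) (hs1 : s ≤ 1) (C' : Fin c) :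
    ‖g C + s * (x - g C) - g C‖ = s * ‖x - g C‖ ∧
    s * ‖x - g C‖ ≤ ‖g C + s * (x - g C) - g C'‖ ∧
    ‖g C - g C'‖ ≤ 2 * ‖g C + s * (x - g C) - g C'‖ ∧
    ‖g C + s * (x - g C) - g C'‖ ≤ 3 * ‖x - g C'‖ := by
  have h1 : ‖g C + s * (x - g C) - g C‖ = s * ‖x - g C‖ := by
    rw [add_sub_cancel_left, norm_mul, Complex.norm_real, Real.norm_of_nonneg hs0]
  have h2 : ‖x - (g C + s * (x - g C))‖ = (1 - s) * ‖x - g C‖ := by
    have e : x - (g C + s * (x - g C)) = ((1 - s : ℝ) : ℂ) * (x - g C) := by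
      push_cast
      ring
    rw [e, norm_mul, Complex.norm_real, Real.norm_of_nonneg (by linarith)]
  have h3 := hC C'
  have h4 : ‖x - g C'‖ ≤ ‖x - (g C + s * (x - g C))‖ + ‖g C + s * (x - g C) - g C'‖ := by
    have := norm_sub_le_norm_sub_add_norm_sub x (g C + s * (x - g C)) (g C')
    exact this
  have h5 : s * ‖x - g C‖ ≤ ‖g C + s * (x - g C) - g C'‖ := by
    rw [h2] at h4
    nlinarith
  have h6 : ‖g C - g C'‖ ≤ ‖g C - (g C + s * (x - g C))‖ + ‖g C + s * (x - g C) - g C'‖ :=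
    norm_sub_le_norm_sub_add_norm_sub _ _ _
  rw [norm_sub_rev (g C) (g C + s * (x - g C)), h1] at h6
  refine ⟨h1, h5, by linarith, ?_⟩
  have h7 : ‖g C + s * (x - g C) - g C'‖ ≤
      ‖g C + s * (x - g C) - g C‖ + ‖g C - g C'‖ := norm_sub_le_norm_sub_add_norm_sub _ _ _
  have h8 : ‖g C - g C'‖ ≤ ‖g C - x‖ + ‖x - g C'‖ := norm_sub_le_norm_sub_add_norm_sub _ _ _
  rw [norm_sub_rev (g C) x] at h8
  rw [h1] at h7
  have h9 : s * ‖x - g C‖ ≤ 1 * ‖x - g C‖ := mul_le_mul_of_nonneg_right hs1 (norm_nonneg _)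
  linarith

/-- from eventual statements to explicit radii -/
theorem G6_ev {P : ℂ → Prop} (h : ∀ᶠ t in 𝓝[≠] (0 : ℂ), P t) :
    ∃ r > (0 : ℝ), ∀ t : ℂ, 0 < ‖t‖ → ‖t‖ < r → P t := by
  rw [eventually_nhdsWithin_iff] at h
  obtain ⟨r, hr, hrb⟩ := Metric.eventually_nhds_iff_ball.mp h
  refine ⟨r, hr, fun t ht0 ht => ?_⟩
  exact hrb t (by rw [mem_ball, dist_zero_right]; exact ht) (norm_pos_iff.mp ht0)

theorem G6_an {F : ℂ × ℂ → ℂ} (h : AnalyticAt ℂ F 0) :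
    ∃ r > (0 : ℝ), ∀ p : ℂ × ℂ, ‖p‖ < r → DifferentiableAt ℂ F p := by
  have h1 := h.eventually_analyticAt
  obtain ⟨r, hr, hrb⟩ := Metric.eventually_nhds_iff_ball.mp h1
  exact ⟨r, hr, fun p hp => (hrb p (by rw [mem_ball, dist_zero_right]; exact hp)).differentiableAt⟩

theorem G6_facts {F G : ℂ × ℂ → ℂ} {k n N : ℕ} {u : ℂ} {c : ℕ} {m : Fin c → ℕ} {b : Fin c → ℝ}
    {γ v Γ η : Fin c → ℂ → ℂ} {a : Fin c → ℂ} {D : Fin c → ℕ}
    (h : CFa F G k n N u c m b γ v Γ η a D) :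
    ∃ L : ℝ, 1 ≤ L ∧ ∀ κ > (0 : ℝ), ∃ δ > (0 : ℝ), ∀ t : ℂ, 0 < ‖t‖ → ‖t‖ < δ → ∀ C,
      ‖γ C t‖ ≤ κ * ‖t‖ ^ N ∧ ‖Γ C t‖ ≤ κ * ‖t‖ ^ N ∧ ‖η C t - t ^ N‖ ≤ κ * ‖t‖ ^ N ∧
      F (γ C t, t ^ N) = G (Γ C t, η C t) ∧ ∀ C', ‖η C t - η C' t‖ ≤ L * ‖γ C t - γ C' t‖ ∧
        ‖(Γ C t - Γ C' t) - (γ C t - γ C' t)‖ ≤ κ * ‖γ C t - γ C' t‖ ∧
        (C ≠ C' → ‖t‖ ^ (b C') ≤ κ * ‖γ C t - γ C' t‖) := by
  have hη : ∀ p : Fin c × Fin c, ∃ K : ℝ, ∀ᶠ t in 𝓝[≠] (0 : ℂ),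
      ‖η p.1 t - η p.2 t‖ ≤ K * ‖γ p.1 t - γ p.2 t‖ := fun p => (h.ηpair p.1 p.2).bound
  choose K hK using hη
  obtain ⟨L, hL⟩ : ∃ L : ℝ, ∀ p, K p ≤ L := by
    rcases isEmpty_or_nonempty (Fin c × Fin c) with he | hne
    · exact ⟨1, fun p => (he.false p).elim⟩
    · obtain ⟨p0, hp0⟩ := Finite.exists_max K
      exact ⟨K p0, hp0⟩
  refine ⟨max L 1, le_max_right _ _, fun κ hκ => ?_⟩
  apply G6_ev
  have e1 : ∀ᶠ t in 𝓝[≠] (0 : ℂ), ∀ C, ‖γ C t‖ ≤ κ * ‖t‖ ^ N := by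
    refine Filter.eventually_all.mpr fun C => ?_
    filter_upwards [(h.clu.gsm C).def hκ] with t ht
    rwa [norm_pow] at ht
  have e2 : ∀ᶠ t in 𝓝[≠] (0 : ℂ), ∀ C, ‖Γ C t‖ ≤ κ * ‖t‖ ^ N := by
    refine Filter.eventually_all.mpr fun C => ?_
    filter_upwards [(h.Γsm C).def hκ] with t ht
    rwa [norm_pow] at ht
  have e3 : ∀ᶠ t in 𝓝[≠] (0 : ℂ), ∀ C, ‖η C t - t ^ N‖ ≤ κ * ‖t‖ ^ N := by
    refine Filter.eventually_all.mpr fun C => ?_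
    filter_upwards [(h.ηsm C).def hκ] with t ht
    rwa [norm_pow] at ht
  have e4 : ∀ᶠ t in 𝓝[≠] (0 : ℂ), ∀ C, F (γ C t, t ^ N) = G (Γ C t, η C t) :=
    Filter.eventually_all.mpr fun C => (h.val C).filter_mono nhdsWithin_le_nhds
  have e5 : ∀ᶠ t in 𝓝[≠] (0 : ℂ), ∀ C C', ‖η C t - η C' t‖ ≤ max L 1 * ‖γ C t - γ C' t‖ := by
    refine Filter.eventually_all.mpr fun C => Filter.eventually_all.mpr fun C' => ?_
    filter_upwards [hK (C, C')] with t ht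
    refine ht.trans (mul_le_mul_of_nonneg_right ?_ (norm_nonneg _))
    exact (hL _).trans (le_max_left _ _)
  have e6 : ∀ᶠ t in 𝓝[≠] (0 : ℂ), ∀ C C',
      ‖(Γ C t - Γ C' t) - (γ C t - γ C' t)‖ ≤ κ * ‖γ C t - γ C' t‖ :=
    Filter.eventually_all.mpr fun C => Filter.eventually_all.mpr fun C' =>
      (h.Γpair C C').def hκ
  have e7 : ∀ᶠ t in 𝓝[≠] (0 : ℂ), ∀ C C', C ≠ C' →
      ‖t‖ ^ (b C') ≤ κ * ‖γ C t - γ C' t‖ := by
    refine Filter.eventually_all.mpr fun C => Filter.eventually_all.mpr fun C' => ?_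
    by_cases hCC : C = C'
    · exact Filter.Eventually.of_forall fun t hne => absurd hCC hne
    · filter_upwards [(h.clu.sep C' C (Ne.symm hCC)).def hκ] with t ht _
      rw [Real.norm_of_nonneg (Real.rpow_nonneg (norm_nonneg _) _), norm_sub_rev] at ht
      exact ht
  filter_upwards [e1, e2, e3, e4, e5, e6, e7] with t h1 h2 h3 h4 h5 h6 h7 C
  exact ⟨h1 C, h2 C, h3 C, h4 C, fun C' => ⟨h5 C C', h6 C C', h7 C C'⟩⟩

theorem G6_PM_nonneg {c : ℕ} (e : ℕ) (m : Fin c → ℕ) (γ : Fin c → ℂ → ℂ) (x t : ℂ) :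
    0 ≤ PM e m γ x t :=
  mul_nonneg (pow_nonneg (norm_nonneg _) _)
    (Finset.prod_nonneg fun _ _ => pow_nonneg (norm_nonneg _) _)

theorem G6_PM_le {c : ℕ} (e : ℕ) (m : Fin c → ℕ) (γ : Fin c → ℂ → ℂ) (x x' t : ℂ)
    (h : ∀ C, ‖x' - γ C t‖ ≤ 3 * ‖x - γ C t‖) :
    PM e m γ x' t ≤ 3 ^ (∑ C, m C) * PM e m γ x t := by
  unfold PM
  have h1 : ∏ C, ‖x' - γ C t‖ ^ m C ≤ ∏ C, (3 * ‖x - γ C t‖) ^ m C :=
    Finset.prod_le_prod (fun _ _ => pow_nonneg (norm_nonneg _) _)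
      (fun C _ => pow_le_pow_left₀ (norm_nonneg _) (h C) _)
  simp only [mul_pow] at h1
  rw [Finset.prod_mul_distrib, Finset.prod_pow_eq_pow_sum] at h1
  have h2 := mul_le_mul_of_nonneg_left h1 (pow_nonneg (norm_nonneg t) e)
  calc _ ≤ _ := h2
    _ = _ := by ring

theorem G6_cE_mono {c : ℕ} (e : ℕ) (m : Fin c → ℕ) (b : Fin c → ℝ) (g : Fin c → ℂ → ℂ)
    (C : Fin c) (t : ℂ) {s s' : ℝ} (hs : 0 ≤ s) (hss : s ≤ s') :
    cE e m b g C s t ≤ cE e m b g C s' t := by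
  unfold cE
  refine mul_le_mul_of_nonneg_left ?_ (pow_nonneg (norm_nonneg _) _)
  refine Finset.prod_le_prod (fun C' _ => ?_) (fun C' _ => ?_)
  · have h1 : 0 ≤ ‖t‖ ^ (b C') := Real.rpow_nonneg (norm_nonneg _) _
    have h2 : 0 ≤ ‖g C t - g C' t‖ := norm_nonneg _
    positivity
  · have h1 : 0 ≤ ‖t‖ ^ (b C') := Real.rpow_nonneg (norm_nonneg _) _
    have h2 : 0 ≤ ‖g C t - g C' t‖ := norm_nonneg _
    exact pow_le_pow_left₀ (by positivity) (by linarith) _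

/-- the comparison along the segment for a fixed parameter -/
theorem G6_core {F G : ℂ × ℂ → ℂ} {k n N : ℕ} {u : ℂ} {c : ℕ} {m : Fin c → ℕ} {b : Fin c → ℝ}
    {γ v Γ η : Fin c → ℂ → ℂ} {a : Fin c → ℂ} {D : Fin c → ℕ}
    (h : CFa F G k n N u c m b γ v Γ η a D) (t x X0 : ℂ) (C : Fin c)
    (ε1 τ1 K1 A0 B0 L τ κ M1 M2 δ' : ℝ) (hε1 : 0 < ε1) (hK1 : 1 ≤ K1) (hA0 : 0 < A0)
    (hB0 : 0 < B0) (hL : 1 ≤ L) (hτ : 0 < τ) (hκ : 0 < κ) (hτκ : τ + 2 * κ ≤ τ1)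
    (hτκ2 : τ + 2 * κ ≤ 1 / 2) (hκK : 2 * K1 * κ ≤ 1) (ht : 0 < ‖t‖)
    (hdx : ∀ (x : ℂ) (q : ℂ × ℂ), ‖x‖ < δ' * ‖t‖ ^ N →
      (∀ C, K1 * ‖t‖ ^ (b C) ≤ ‖x - γ C t‖) →
      (∀ C, ‖(q.1 - Γ C t) - (x - γ C t)‖ ≤ τ1 * ‖x - γ C t‖) →
      (∀ C, ‖q.2 - η C t‖ ≤ (2 * L + 1) * ‖x - γ C t‖) →
      ‖dx F (x, t ^ N) - u * t ^ (N * (k - 1 - n)) * ∏ C, (x - γ C t) ^ m C‖ ≤
        ε1 * PM (N * (k - 1 - n)) m γ x t ∧
      ‖dx G q - u * t ^ (N * (k - 1 - n)) * ∏ C, (x - γ C t) ^ m C‖ ≤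
        ε1 * PM (N * (k - 1 - n)) m γ x t)
    (hF1 : ∀ x : ℂ, ‖x‖ < δ' * ‖t‖ ^ N → ∀ C,
      ‖dx F (x, t ^ N)‖ ≤ A0 * cE (N * (k - 1 - n)) m b γ C ‖x - γ C t‖ t)
    (hG1 : ∀ q : ℂ × ℂ, ‖q.1‖ < δ' * ‖t‖ ^ N → Adm (4 * L + 1) b Γ η t q → ∀ C,
      ‖dx G q‖ ≤ B0 * cE (N * (k - 1 - n)) m b γ C ‖q.1 - Γ C t‖ t)
    (hC : ∀ C', ‖x - γ C t‖ ≤ ‖x - γ C' t‖)
    (hO : ∀ C, K1 * ‖t‖ ^ (b C) ≤ ‖x - γ C t‖)
    (hW : ‖X0 - Γ C t - (x - γ C t)‖ ≤ τ * ‖x - γ C t‖)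
    (hξ : ∀ s : ℝ, 0 ≤ s → s ≤ 1 → ‖γ C t + s * (x - γ C t)‖ < δ' * ‖t‖ ^ N)
    (hξ' : ∀ s : ℝ, 0 ≤ s → s ≤ 1 → ‖Γ C t + s * (X0 - Γ C t)‖ < δ' * ‖t‖ ^ N)
    (hdF : ∀ s : ℝ, 0 ≤ s → s ≤ 1 → DifferentiableAt ℂ F (γ C t + s * (x - γ C t), t ^ N))
    (hdG : ∀ s : ℝ, 0 ≤ s → s ≤ 1 → DifferentiableAt ℂ G (Γ C t + s * (X0 - Γ C t), η C t))
    (hη : ∀ C', ‖η C t - η C' t‖ ≤ L * ‖γ C t - γ C' t‖)
    (hΓ : ∀ C', ‖(Γ C t - Γ C' t) - (γ C t - γ C' t)‖ ≤ κ * ‖γ C t - γ C' t‖)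
    (hsep : ∀ C', C ≠ C' → ‖t‖ ^ (b C') ≤ κ * ‖γ C t - γ C' t‖)
    (hM1 : M1 = (A0 + 2 * B0) * 5 ^ n * (‖x - γ C t‖ * PM (N * (k - 1 - n)) m γ x t))
    (hM2 : M2 = (2 * ε1 + τ * (‖u‖ + ε1)) * 3 ^ n *
      (‖x - γ C t‖ * PM (N * (k - 1 - n)) m γ x t)) :
    ‖(F (x, t ^ N) - F (γ C t, t ^ N)) - (G (X0, η C t) - G (Γ C t, η C t))‖ ≤
      M1 * (K1 * ‖t‖ ^ (b C) / ‖x - γ C t‖) +
        M2 * (1 - K1 * ‖t‖ ^ (b C) / ‖x - γ C t‖) := by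
  have hb0 : ∀ C', 0 < ‖t‖ ^ (b C') := fun C' => Real.rpow_pos_of_pos ht _
  set d := ‖x - γ C t‖ with hd
  have hd0 : 0 < d := lt_of_lt_of_le (mul_pos (by linarith) (hb0 C)) (hO C)
  set P := PM (N * (k - 1 - n)) m γ x t with hP
  have hP0 : 0 ≤ P := G6_PM_nonneg _ _ _ _ _
  have hmn := h.clu.hmn
  have hgeo := G6_geo (fun C => γ C t) x C hC
  -- the reflected points
  have hdiff : ∀ s : ℝ, 0 ≤ s → s ≤ 1 → ∀ C', ‖(Γ C t + s * (X0 - Γ C t) - Γ C' t) -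
      (γ C t + s * (x - γ C t) - γ C' t)‖ ≤ (τ + 2 * κ) * ‖γ C t + s * (x - γ C t) - γ C' t‖ := by
    intro s hs0 hs1 C'
    obtain ⟨-, g2, g3, -⟩ := hgeo s hs0 hs1 C'
    have e : (Γ C t + s * (X0 - Γ C t) - Γ C' t) - (γ C t + s * (x - γ C t) - γ C' t) =
        s * (X0 - Γ C t - (x - γ C t)) + ((Γ C t - Γ C' t) - (γ C t - γ C' t)) := by ring
    rw [e]
    refine (norm_add_le _ _).trans ?_
    rw [norm_mul, Complex.norm_real, Real.norm_of_nonneg hs0]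
    have h1 : s * ‖X0 - Γ C t - (x - γ C t)‖ ≤ s * (τ * d) := mul_le_mul_of_nonneg_left hW hs0
    have h2 := hΓ C'
    have h3 : s * (τ * d) ≤ τ * ‖γ C t + s * (x - γ C t) - γ C' t‖ := by
      calc s * (τ * d) = τ * (s * d) := by ring
        _ ≤ _ := mul_le_mul_of_nonneg_left g2 hτ.le
    have h4 : κ * ‖γ C t - γ C' t‖ ≤ κ * (2 * ‖γ C t + s * (x - γ C t) - γ C' t‖) :=
      mul_le_mul_of_nonneg_left g3 hκ.le
    linarith
  have hηC : ∀ s : ℝ, 0 ≤ s → s ≤ 1 → ∀ C', ‖η C t - η C' t‖ ≤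
      2 * L * ‖γ C t + s * (x - γ C t) - γ C' t‖ := by
    intro s hs0 hs1 C'
    obtain ⟨-, -, g3, -⟩ := hgeo s hs0 hs1 C'
    refine (hη C').trans ?_
    calc L * ‖γ C t - γ C' t‖ ≤ L * (2 * ‖γ C t + s * (x - γ C t) - γ C' t‖) :=
          mul_le_mul_of_nonneg_left g3 (by linarith)
      _ = _ := by ring
  have hWn : ‖X0 - Γ C t‖ ≤ 2 * d := by
    have h1 : ‖X0 - Γ C t‖ ≤ ‖X0 - Γ C t - (x - γ C t)‖ + ‖x - γ C t‖ := by
      have := norm_add_le (X0 - Γ C t - (x - γ C t)) (x - γ C t)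
      rwa [sub_add_cancel] at this
    have h2 : τ * d ≤ 1 * d := mul_le_mul_of_nonneg_right (by linarith) hd0.le
    linarith
  have hlow : cE (N * (k - 1 - n)) m b γ C (2 * d) t ≤ 5 ^ n * P := by
    have hlow' := PM_low (N * (k - 1 - n)) m b γ x t (fun C' => by
      refine le_trans ?_ (hO C')
      have := hb0 C'
      nlinarith) C hC
    rw [hmn] at hlow'
    exact hlow'
  have hs0 : 0 ≤ K1 * ‖t‖ ^ (b C) / d := by
    have := hb0 C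
    positivity
  have hs1 : K1 * ‖t‖ ^ (b C) / d ≤ 1 := by
    rw [div_le_one hd0]
    exact hO C
  refine G6_p1 F G x (t ^ N) X0 (γ C t) (Γ C t) (η C t) _ M1 M2 hs0 hs1 hdF hdG ?_ ?_
  · -- rough bound
    intro s hs0 hs1
    obtain ⟨g1, -, -, -⟩ := hgeo s hs0 hs1 C
    have h1 : ‖dx F (γ C t + s * (x - γ C t), t ^ N)‖ ≤ A0 * (5 ^ n * P) := by
      refine (hF1 _ (hξ s hs0 hs1) C).trans (mul_le_mul_of_nonneg_left ?_ hA0.le)
      refine le_trans (G6_cE_mono _ m b γ C t (norm_nonneg _) ?_) hlow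
      rw [g1]
      nlinarith
    have h2 : ‖dx G (Γ C t + s * (X0 - Γ C t), η C t)‖ ≤ B0 * (5 ^ n * P) := by
      refine (hG1 _ (hξ' s hs0 hs1) ?_ C).trans (mul_le_mul_of_nonneg_left ?_ hB0.le)
      · intro C'
        have h3 := hdiff s hs0 hs1 C'
        have h4 := hηC s hs0 hs1 C'
        set A := ‖γ C t + s * (x - γ C t) - γ C' t‖ with hA
        have h5 : A ≤ ‖Γ C t + s * (X0 - Γ C t) - Γ C' t‖ + (τ + 2 * κ) * A := by
          have h6 := norm_sub_norm_le (γ C t + s * (x - γ C t) - γ C' t)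
            (Γ C t + s * (X0 - Γ C t) - Γ C' t)
          rw [norm_sub_rev (γ C t + s * (x - γ C t) - γ C' t)] at h6
          linarith
        have h6 : 0 ≤ A := norm_nonneg _
        have h7 : (τ + 2 * κ) * A ≤ 1 / 2 * A := mul_le_mul_of_nonneg_right hτκ2 h6
        have h8 : 2 * L * A ≤ 2 * L * (2 * ‖Γ C t + s * (X0 - Γ C t) - Γ C' t‖) :=
          mul_le_mul_of_nonneg_left (by linarith) (by linarith)
        have h9 : 0 ≤ (4 * L + 1) * ‖t‖ ^ (b C') := by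
          have := hb0 C'
          positivity
        have h10 : 0 ≤ ‖Γ C t + s * (X0 - Γ C t) - Γ C' t‖ := norm_nonneg _
        simp only
        nlinarith
      · refine le_trans (G6_cE_mono _ m b γ C t (norm_nonneg _) ?_) hlow
        simp only
        rw [add_sub_cancel_left, norm_mul, Complex.norm_real, Real.norm_of_nonneg hs0]
        have h3 : s * ‖X0 - Γ C t‖ ≤ 1 * ‖X0 - Γ C t‖ :=
          mul_le_mul_of_nonneg_right hs1 (norm_nonneg _)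
        linarith
    refine (norm_sub_le _ _).trans ?_
    rw [norm_mul, norm_mul, hM1]
    have h3 : d * ‖dx F (γ C t + s * (x - γ C t), t ^ N)‖ ≤ d * (A0 * (5 ^ n * P)) :=
      mul_le_mul_of_nonneg_left h1 hd0.le
    have h4 : ‖X0 - Γ C t‖ * ‖dx G (Γ C t + s * (X0 - Γ C t), η C t)‖ ≤
        (2 * d) * (B0 * (5 ^ n * P)) := mul_le_mul hWn h2 (norm_nonneg _) (by linarith)
    calc _ ≤ d * (A0 * (5 ^ n * P)) + (2 * d) * (B0 * (5 ^ n * P)) := add_le_add h3 h4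
      _ = _ := by ring
  · -- fine bound
    intro s hss hs1
    have hs0' : 0 ≤ s := hs0.trans hss
    rw [div_le_iff₀ hd0] at hss
    obtain ⟨g1, -, -, -⟩ := hgeo s hs0' hs1 C
    have hq := hdx (γ C t + s * (x - γ C t)) (Γ C t + s * (X0 - Γ C t), η C t) (hξ s hs0' hs1)
      (by
        intro C'
        obtain ⟨-, g2, g3, -⟩ := hgeo s hs0' hs1 C'
        by_cases hCC : C = C'
        · subst hCC
          exact hss.trans g2
        · have h1 := hsep C' hCC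
          have h2 : K1 * ‖t‖ ^ (b C') ≤ K1 * (κ * ‖γ C t - γ C' t‖) :=
            mul_le_mul_of_nonneg_left h1 (by linarith)
          have h3 : K1 * (κ * ‖γ C t - γ C' t‖) ≤
              K1 * κ * (2 * ‖γ C t + s * (x - γ C t) - γ C' t‖) := by
            rw [← mul_assoc]
            exact mul_le_mul_of_nonneg_left g3 (by positivity)
          have h4 : K1 * κ * (2 * ‖γ C t + s * (x - γ C t) - γ C' t‖) =
              2 * K1 * κ * ‖γ C t + s * (x - γ C t) - γ C' t‖ := by ring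
          have h5 : 2 * K1 * κ * ‖γ C t + s * (x - γ C t) - γ C' t‖ ≤
              1 * ‖γ C t + s * (x - γ C t) - γ C' t‖ :=
            mul_le_mul_of_nonneg_right hκK (norm_nonneg _)
          linarith)
      (fun C' => (hdiff s hs0' hs1 C').trans
        (mul_le_mul_of_nonneg_right hτκ (norm_nonneg _)))
      (fun C' => (hηC s hs0' hs1 C').trans
        (mul_le_mul_of_nonneg_right (by linarith) (norm_nonneg _)))
    obtain ⟨q1, q2⟩ := hq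
    set Q := PM (N * (k - 1 - n)) m γ (γ C t + s * (x - γ C t)) t with hQ
    have hQ0 : 0 ≤ Q := G6_PM_nonneg _ _ _ _ _
    have hQP : Q ≤ 3 ^ n * P := by
      have hQP' := G6_PM_le (N * (k - 1 - n)) m γ x _ t fun C' => (hgeo s hs0' hs1 C').2.2.2
      rw [hmn] at hQP'
      exact hQP'
    have hmain : ‖u * t ^ (N * (k - 1 - n)) * ∏ C', (γ C t + s * (x - γ C t) - γ C' t) ^ m C'‖ =
        ‖u‖ * Q := by
      rw [hQ, PM, norm_mul, norm_mul, norm_pow, norm_prod, mul_assoc]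
      simp only [norm_pow]
    set U := u * t ^ (N * (k - 1 - n)) * ∏ C', (γ C t + s * (x - γ C t) - γ C' t) ^ m C' with hU
    set a1 := dx F (γ C t + s * (x - γ C t), t ^ N) with ha1
    set a2 := dx G (Γ C t + s * (X0 - Γ C t), η C t) with ha2
    have h1 : ‖a1 - a2‖ ≤ 2 * ε1 * Q := by
      have e : a1 - a2 = (a1 - U) - (a2 - U) := by ring
      rw [e]
      refine (norm_sub_le _ _).trans ?_
      linarith
    have h2 : ‖a2‖ ≤ (‖u‖ + ε1) * Q := by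
      have h3 := norm_sub_norm_le a2 U
      rw [hmain] at h3
      linarith
    have e : (x - γ C t) * a1 - (X0 - Γ C t) * a2 =
        (x - γ C t) * (a1 - a2) - (X0 - Γ C t - (x - γ C t)) * a2 := by ring
    rw [e]
    refine (norm_sub_le _ _).trans ?_
    rw [norm_mul, norm_mul, hM2]
    have h3 : d * ‖a1 - a2‖ ≤ d * (2 * ε1 * Q) := mul_le_mul_of_nonneg_left h1 hd0.le
    have h4 : ‖X0 - Γ C t - (x - γ C t)‖ * ‖a2‖ ≤ (τ * d) * ((‖u‖ + ε1) * Q) :=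
      mul_le_mul hW h2 (norm_nonneg _) (by positivity)
    have h5 : (2 * ε1 + τ * (‖u‖ + ε1)) * d * Q ≤
        (2 * ε1 + τ * (‖u‖ + ε1)) * d * (3 ^ n * P) :=
      mul_le_mul_of_nonneg_left hQP (by positivity)
    calc _ ≤ d * (2 * ε1 * Q) + (τ * d) * ((‖u‖ + ε1) * Q) := add_le_add h3 h4
      _ = (2 * ε1 + τ * (‖u‖ + ε1)) * d * Q := by ring
      _ ≤ _ := h5
      _ = _ := by ring

theorem zoneO_e0 {F G : ℂ × ℂ → ℂ} {k n N : ℕ} {u : ℂ} {c : ℕ} {m : Fin c → ℕ} {b : Fin c → ℝ}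
    {γ v Γ η : Fin c → ℂ → ℂ} {a : Fin c → ℂ} {D : Fin c → ℕ}
    (h : CFa F G k n N u c m b γ v Γ η a D) (hc : 1 ≤ c) :
    ∀ C1 > (0 : ℝ), ∀ ε > (0 : ℝ), ∃ K : ℝ, 1 ≤ K ∧ ∃ δ > (0 : ℝ),
      ∀ (x t X0 Y : ℂ), 0 < ‖t‖ → ‖t‖ < δ → ‖x‖ < δ * ‖t‖ ^ N →
      (∀ C, K * ‖t‖ ^ (b C) ≤ ‖x - γ C t‖) →
      (∀ C, ‖X0 - Γ C t - (x - γ C t)‖ ≤ δ * (‖t‖ ^ (b C) + ‖x - γ C t‖)) →
      (∀ C, ‖Y - η C t‖ ≤ C1 * (‖t‖ ^ (b C) + ‖x - γ C t‖)) →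
      ∀ C, ‖F (x, t ^ N) - G (X0, Y)‖ ≤
        ε * ‖x - γ C t‖ * PM (N * (k - 1 - n)) m γ x t := by
  intro C1 hC1 ε hε
  obtain ⟨rF, hrF, hFd⟩ := G6_an h.clu.an
  obtain ⟨rG, hrG, hGd⟩ := G6_an h.anG
  obtain ⟨L, hL, hfacts⟩ := G6_facts h
  set ε1 : ℝ := ε / (16 * 3 ^ n) with hε1d
  have hε1 : 0 < ε1 := by positivity
  obtain ⟨τ1, hτ1, K1, hK1, δ1, hδ1, hdx⟩ := zoneO_dx h hc (2 * L + 1) (by linarith) ε1 hε1
  obtain ⟨A0, hA0, δ2, hδ2, hF1⟩ := h.clu.F1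
  obtain ⟨B0, hB0, δ3, hδ3, hG1⟩ := h.G1 (4 * L + 1) (by linarith)
  obtain ⟨K2, hK2, δ4, hδ4, hdy⟩ := zoneO_dy h hc (2 * C1 + 2 * L + 1) (by linarith)
    (ε / (8 * C1)) (by positivity)
  set B : ℝ := (A0 + 2 * B0) * 5 ^ n with hB
  have hB0' : 0 < B := by positivity
  set τ : ℝ := min (min (1 / 8) (τ1 / 4)) (ε / (8 * (‖u‖ + ε1) * 3 ^ n)) with hτd
  have hu0 : 0 < ‖u‖ + ε1 := by positivity
  have hτ : 0 < τ := by positivity
  have hτa : τ ≤ 1 / 8 := (min_le_left _ _).trans (min_le_left _ _)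
  have hτb : τ ≤ τ1 / 4 := (min_le_left _ _).trans (min_le_right _ _)
  have hτc : τ ≤ ε / (8 * (‖u‖ + ε1) * 3 ^ n) := min_le_right _ _
  set δ' : ℝ := min (min δ1 δ2) (min δ3 1) with hδ'd
  have hδ' : 0 < δ' := by positivity
  have hδ'1 : δ' ≤ δ1 := (min_le_left _ _).trans (min_le_left _ _)
  have hδ'2 : δ' ≤ δ2 := (min_le_left _ _).trans (min_le_right _ _)
  have hδ'3 : δ' ≤ δ3 := (min_le_right _ _).trans (min_le_left _ _)
  have hδ'4 : δ' ≤ 1 := (min_le_right _ _).trans (min_le_right _ _)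
  set κ : ℝ := min (min (1 / 16) (τ1 / 8)) (min (1 / (2 * K1)) (δ' / 8)) with hκd
  have hκ : 0 < κ := by positivity
  have hκa : κ ≤ 1 / 16 := (min_le_left _ _).trans (min_le_left _ _)
  have hκb : κ ≤ τ1 / 8 := (min_le_left _ _).trans (min_le_right _ _)
  have hκc : κ ≤ 1 / (2 * K1) := (min_le_right _ _).trans (min_le_left _ _)
  have hκd' : κ ≤ δ' / 8 := (min_le_right _ _).trans (min_le_right _ _)
  obtain ⟨δ5, hδ5, hfac⟩ := hfacts κ hκ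
  set K : ℝ := max (max K1 K2) (4 * K1 * B / ε) with hKd
  have hKa : K1 ≤ K := (le_max_left _ _).trans (le_max_left _ _)
  have hKb : K2 ≤ K := (le_max_right _ _).trans (le_max_left _ _)
  have hKc : 4 * K1 * B / ε ≤ K := le_max_right _ _
  set δ : ℝ := min (min (min δ' δ4) (min δ5 (δ' / 8))) (min (min (τ / 2) 1) (min rF
    (rG / (2 + 2 * C1)))) with hδd
  have hδ : 0 < δ := by positivity
  have hδa : δ ≤ δ' := (min_le_left _ _).trans ((min_le_left _ _).trans (min_le_left _ _))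
  have hδb : δ ≤ δ4 := (min_le_left _ _).trans ((min_le_left _ _).trans (min_le_right _ _))
  have hδc : δ ≤ δ5 := (min_le_left _ _).trans ((min_le_right _ _).trans (min_le_left _ _))
  have hδd' : δ ≤ δ' / 8 := (min_le_left _ _).trans ((min_le_right _ _).trans (min_le_right _ _))
  have hδe : δ ≤ τ / 2 := (min_le_right _ _).trans ((min_le_left _ _).trans (min_le_left _ _))
  have hδf : δ ≤ 1 := (min_le_right _ _).trans ((min_le_left _ _).trans (min_le_right _ _))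
  have hδg : δ ≤ rF := (min_le_right _ _).trans ((min_le_right _ _).trans (min_le_left _ _))
  have hδh : δ ≤ rG / (2 + 2 * C1) :=
    (min_le_right _ _).trans ((min_le_right _ _).trans (min_le_right _ _))
  refine ⟨K, hK1.trans hKa, δ, hδ, ?_⟩
  intro x t X0 Y ht0 htδ hx hO hX0 hY C'
  have hN := h.clu.hN
  have hb0 : ∀ C, 0 < ‖t‖ ^ (b C) := fun C => Real.rpow_pos_of_pos ht0 _
  have ht1 : ‖t‖ < 1 := htδ.trans_le hδf
  set T : ℝ := ‖t‖ ^ N with hT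
  have hT0 : 0 < T := pow_pos ht0 N
  have hTt : T ≤ ‖t‖ := pow_le_of_le_one ht0.le ht1.le (by omega)
  have htN : ‖t ^ N‖ = T := norm_pow _ _
  -- the nearest cluster
  have : Nonempty (Fin c) := ⟨⟨0, hc⟩⟩
  obtain ⟨C, hC⟩ := Finite.exists_min (fun C : Fin c => ‖x - γ C t‖)
  obtain ⟨f1, f2, f3, f4, f5⟩ := hfac t ht0 (htδ.trans_le hδc) C
  set d := ‖x - γ C t‖ with hd
  have hd0 : 0 < d := lt_of_lt_of_le (mul_pos (by linarith) (hb0 C)) (hO C)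
  set P := PM (N * (k - 1 - n)) m γ x t with hP
  have hP0 : 0 ≤ P := G6_PM_nonneg _ _ _ _ _
  have hOb : ∀ C, ‖t‖ ^ (b C) ≤ ‖x - γ C t‖ := by
    intro C
    refine le_trans ?_ (hO C)
    exact le_mul_of_one_le_left (hb0 C).le (hK1.trans hKa)
  have hX0' : ∀ C, ‖X0 - Γ C t - (x - γ C t)‖ ≤ τ * ‖x - γ C t‖ := by
    intro C
    refine (hX0 C).trans ?_
    have h1 := hOb C
    have h2 : δ * (‖t‖ ^ (b C) + ‖x - γ C t‖) ≤ τ / 2 * (2 * ‖x - γ C t‖) :=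
      mul_le_mul hδe (by linarith) (by have := hb0 C; positivity) (by positivity)
    linarith
  have hY' : ∀ C, ‖Y - η C t‖ ≤ 2 * C1 * ‖x - γ C t‖ := by
    intro C
    refine (hY C).trans ?_
    have h1 := hOb C
    have h2 : C1 * (‖t‖ ^ (b C) + ‖x - γ C t‖) ≤ C1 * (2 * ‖x - γ C t‖) :=
      mul_le_mul_of_nonneg_left (by linarith) hC1.le
    linarith
  have hdT : d ≤ δ' / 4 * T := by
    have h1 : d ≤ ‖x‖ + ‖γ C t‖ := norm_sub_le _ _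
    have h2 : ‖x‖ ≤ δ' / 8 * T := hx.le.trans (mul_le_mul_of_nonneg_right hδd' hT0.le)
    have h3 : ‖γ C t‖ ≤ δ' / 8 * T := f1.trans (mul_le_mul_of_nonneg_right hκd' hT0.le)
    linarith
  have hWn : ‖X0 - Γ C t‖ ≤ 2 * d := by
    have h1 : ‖X0 - Γ C t‖ ≤ ‖X0 - Γ C t - (x - γ C t)‖ + ‖x - γ C t‖ := by
      have := norm_add_le (X0 - Γ C t - (x - γ C t)) (x - γ C t)
      rwa [sub_add_cancel] at this
    have h2 := hX0' C
    have h3 : τ * d ≤ 1 * d := mul_le_mul_of_nonneg_right (by linarith) hd0.le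
    linarith
  have hξ : ∀ s : ℝ, 0 ≤ s → s ≤ 1 → ‖γ C t + s * (x - γ C t)‖ < δ' * T := by
    intro s hs0 hs1
    have h1 := norm_add_le (γ C t) (s * (x - γ C t))
    rw [norm_mul, Complex.norm_real, Real.norm_of_nonneg hs0] at h1
    have h2 : s * ‖x - γ C t‖ ≤ 1 * d := mul_le_mul_of_nonneg_right hs1 hd0.le
    have h3 : ‖γ C t‖ ≤ δ' / 8 * T := f1.trans (mul_le_mul_of_nonneg_right hκd' hT0.le)
    have h4 : 0 < δ' * T := by positivity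
    linarith
  have hξ' : ∀ s : ℝ, 0 ≤ s → s ≤ 1 → ‖Γ C t + s * (X0 - Γ C t)‖ < δ' * T := by
    intro s hs0 hs1
    have h1 := norm_add_le (Γ C t) (s * (X0 - Γ C t))
    rw [norm_mul, Complex.norm_real, Real.norm_of_nonneg hs0] at h1
    have h2 : s * ‖X0 - Γ C t‖ ≤ 1 * (2 * d) :=
      mul_le_mul hs1 hWn (norm_nonneg _) zero_le_one
    have h3 : ‖Γ C t‖ ≤ δ' / 8 * T := f2.trans (mul_le_mul_of_nonneg_right hκd' hT0.le)
    have h4 : 0 < δ' * T := by positivity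
    linarith
  have hδT : δ' * T ≤ T := by
    calc δ' * T ≤ 1 * T := mul_le_mul_of_nonneg_right hδ'4 hT0.le
      _ = T := one_mul _
  have htG : (2 + 2 * C1) * ‖t‖ < rG := by
    have h1 : ‖t‖ < rG / (2 + 2 * C1) := htδ.trans_le hδh
    rw [lt_div_iff₀ (by positivity)] at h1
    linarith
  have htG2 : 2 * ‖t‖ < rG := by
    have h1 : 0 ≤ 2 * C1 * ‖t‖ := by positivity
    linarith
  have hηn : ‖η C t‖ ≤ 2 * T := by
    have h1 : ‖η C t‖ ≤ ‖η C t - t ^ N‖ + ‖t ^ N‖ := by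
      have := norm_add_le (η C t - t ^ N) (t ^ N)
      rwa [sub_add_cancel] at this
    rw [htN] at h1
    have h2 : κ * T ≤ 1 * T := mul_le_mul_of_nonneg_right (by linarith) hT0.le
    linarith
  have hdF : ∀ s : ℝ, 0 ≤ s → s ≤ 1 →
      DifferentiableAt ℂ F (γ C t + s * (x - γ C t), t ^ N) := by
    intro s hs0 hs1
    apply hFd
    rw [Prod.norm_def]
    refine max_lt ?_ ?_
    · have := hξ s hs0 hs1
      simp only
      linarith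
    · simp only
      rw [htN]
      linarith
  have hdG : ∀ s : ℝ, 0 ≤ s → s ≤ 1 →
      DifferentiableAt ℂ G (Γ C t + s * (X0 - Γ C t), η C t) := by
    intro s hs0 hs1
    apply hGd
    rw [Prod.norm_def]
    refine max_lt ?_ ?_
    · have := hξ' s hs0 hs1
      simp only
      linarith
    · simp only
      linarith
  have hy'n : ∀ s : ℝ, 0 ≤ s → s ≤ 1 → ‖η C t + s * (Y - η C t)‖ ≤ (2 + 2 * C1) * T := by
    intro s hs0 hs1
    have h1 := norm_add_le (η C t) (s * (Y - η C t))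
    rw [norm_mul, Complex.norm_real, Real.norm_of_nonneg hs0] at h1
    have h2 : s * ‖Y - η C t‖ ≤ 1 * (2 * C1 * d) :=
      mul_le_mul hs1 (hY' C) (norm_nonneg _) zero_le_one
    have h3 : d ≤ T := by linarith
    have h4 : 2 * C1 * d ≤ 2 * C1 * T := mul_le_mul_of_nonneg_left h3 (by positivity)
    linarith
  have hX0n : ‖X0‖ < T := by
    have h1 := hξ' 1 zero_le_one le_rfl
    have e : Γ C t + ((1 : ℝ) : ℂ) * (X0 - Γ C t) = X0 := by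
      push_cast
      ring
    rw [e] at h1
    linarith
  have hdG2 : ∀ s : ℝ, 0 ≤ s → s ≤ 1 →
      DifferentiableAt ℂ G (X0, η C t + s * (Y - η C t)) := by
    intro s hs0 hs1
    apply hGd
    rw [Prod.norm_def]
    refine max_lt ?_ ?_
    · simp only
      linarith
    · simp only
      have h1 := hy'n s hs0 hs1
      have h2 : (2 + 2 * C1) * T ≤ (2 + 2 * C1) * ‖t‖ :=
        mul_le_mul_of_nonneg_left hTt (by positivity)
      linarith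
  -- part 2
  have hp2 : ‖G (X0, Y) - G (X0, η C t)‖ ≤ ε / 4 * (d * P) := by
    refine G6_p2 G X0 Y (η C t) _ hdG2 ?_
    intro s hs0 hs1
    have hq := (hdy x t (X0, η C t + s * (Y - η C t)) ht0 (htδ.trans_le hδb)
      (hx.trans_le (mul_le_mul_of_nonneg_right hδb hT0.le))
      (fun C => le_trans (mul_le_mul_of_nonneg_right hKb (hb0 C).le) (hO C))
      (fun C => by
        refine (hX0' C).trans ?_
        have h1 : τ * ‖x - γ C t‖ ≤ 1 / 2 * ‖x - γ C t‖ :=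
          mul_le_mul_of_nonneg_right (by linarith) (norm_nonneg _)
        linarith)
      (fun C'' => by
        simp only
        have e : η C t + s * (Y - η C t) - η C'' t =
            ((1 - s : ℝ) : ℂ) * (η C t - η C'' t) + (s : ℂ) * (Y - η C'' t) := by
          push_cast
          ring
        rw [e]
        refine (norm_add_le _ _).trans ?_
        rw [norm_mul, norm_mul, Complex.norm_real, Complex.norm_real, Real.norm_of_nonneg hs0,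
          Real.norm_of_nonneg (by linarith)]
        have h1 : ‖η C t - η C'' t‖ ≤ L * (2 * ‖x - γ C'' t‖) := by
          refine (f5 C'').1.trans (mul_le_mul_of_nonneg_left ?_ (by linarith))
          have h2 : ‖γ C t - γ C'' t‖ ≤ ‖γ C t - x‖ + ‖x - γ C'' t‖ :=
            norm_sub_le_norm_sub_add_norm_sub _ _ _
          rw [norm_sub_rev (γ C t) x] at h2
          have h3 := hC C''
          linarith
        have h2 := hY' C''
        have h3 : (1 - s) * ‖η C t - η C'' t‖ ≤ 1 * (L * (2 * ‖x - γ C'' t‖)) :=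
          mul_le_mul (by linarith) h1 (norm_nonneg _) zero_le_one
        have h4 : s * ‖Y - η C'' t‖ ≤ 1 * (2 * C1 * ‖x - γ C'' t‖) :=
          mul_le_mul hs1 h2 (norm_nonneg _) zero_le_one
        have h5 := norm_nonneg (x - γ C'' t)
        linarith)).2
    rw [norm_mul]
    have h1 : ‖Y - η C t‖ * ‖dy G (X0, η C t + s * (Y - η C t))‖ ≤
        (2 * C1 * d) * (ε / (8 * C1) * P) :=
      mul_le_mul (hY' C) hq (norm_nonneg _) (by positivity)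
    refine h1.trans (le_of_eq ?_)
    field_simp
    ring
  -- part 1
  have hp1 := G6_core h t x X0 C ε1 τ1 K1 A0 B0 L τ κ (B * (d * P))
    ((2 * ε1 + τ * (‖u‖ + ε1)) * 3 ^ n * (d * P)) δ' hε1 hK1 hA0 hB0 hL hτ hκ
    (by linarith) (by linarith)
    (by
      have h1 : κ * (2 * K1) ≤ 1 / (2 * K1) * (2 * K1) :=
        mul_le_mul_of_nonneg_right hκc (by linarith)
      rw [one_div, inv_mul_cancel₀ (by linarith)] at h1
      linarith) ht0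
    (fun x q hx => hdx x t q ht0 (htδ.trans_le (hδa.trans hδ'1))
      (hx.trans_le (mul_le_mul_of_nonneg_right hδ'1 hT0.le)))
    (fun x hx => hF1 x t ht0 (htδ.trans_le (hδa.trans hδ'2))
      (hx.trans_le (mul_le_mul_of_nonneg_right hδ'2 hT0.le)))
    (fun q hq => hG1 t q ht0 (htδ.trans_le (hδa.trans hδ'3))
      (hq.trans_le (mul_le_mul_of_nonneg_right hδ'3 hT0.le)))
    hC (fun C => le_trans (mul_le_mul_of_nonneg_right hKa (hb0 C).le) (hO C)) (hX0' C)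
    hξ hξ' hdF hdG (fun C'' => (f5 C'').1) (fun C'' => (f5 C'').2.1)
    (fun C'' => (f5 C'').2.2) (by rw [hB]) rfl
  -- conclusion
  set s0 := K1 * ‖t‖ ^ (b C) / ‖x - γ C t‖ with hs0d
  have hs00 : 0 ≤ s0 := by
    have := hb0 C
    positivity
  have hs01 : B * s0 ≤ ε / 4 := by
    have h1 : s0 * K ≤ K1 := by
      rw [hs0d, div_mul_eq_mul_div, div_le_iff₀ hd0]
      calc K1 * ‖t‖ ^ (b C) * K = K1 * (K * ‖t‖ ^ (b C)) := by ring
        _ ≤ K1 * d := mul_le_mul_of_nonneg_left (hO C) (by linarith)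
    have h2 : s0 * (4 * K1 * B / ε) ≤ K1 := (mul_le_mul_of_nonneg_left hKc hs00).trans h1
    have h3 : s0 * (4 * K1 * B / ε) = (4 * (B * s0) / ε) * K1 := by ring
    rw [h3] at h2
    have h4 : 4 * (B * s0) / ε ≤ 1 := by
      by_contra hcon
      push Not at hcon
      have h5 := mul_lt_mul_of_pos_right hcon (show 0 < K1 by linarith)
      linarith
    rw [div_le_one hε] at h4
    linarith
  have hM2 : (2 * ε1 + τ * (‖u‖ + ε1)) * 3 ^ n ≤ ε / 4 := by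
    have h3 : (0 : ℝ) < 3 ^ n := by positivity
    have h1 : 2 * ε1 * 3 ^ n = ε / 8 := by
      rw [hε1d]
      field_simp
      ring
    have h2 : τ * (‖u‖ + ε1) * 3 ^ n ≤ ε / 8 := by
      have h4 := mul_le_mul_of_nonneg_right hτc (show 0 ≤ (‖u‖ + ε1) * 3 ^ n by positivity)
      have h5 : ε / (8 * (‖u‖ + ε1) * 3 ^ n) * ((‖u‖ + ε1) * 3 ^ n) = ε / 8 := by
        have h6 := hu0.ne'
        field_simp
      rw [h5] at h4
      linarith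
    linarith
  have hp1' : ‖(F (x, t ^ N) - F (γ C t, t ^ N)) - (G (X0, η C t) - G (Γ C t, η C t))‖ ≤
      ε / 2 * (d * P) := by
    refine hp1.trans ?_
    have h1 : B * (d * P) * s0 ≤ ε / 4 * (d * P) := by
      calc B * (d * P) * s0 = (B * s0) * (d * P) := by ring
        _ ≤ _ := mul_le_mul_of_nonneg_right hs01 (by positivity)
    have h2 : (2 * ε1 + τ * (‖u‖ + ε1)) * 3 ^ n * (d * P) * (1 - s0) ≤ ε / 4 * (d * P) := by
      have h3 : (2 * ε1 + τ * (‖u‖ + ε1)) * 3 ^ n * (d * P) ≤ ε / 4 * (d * P) :=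
        mul_le_mul_of_nonneg_right hM2 (by positivity)
      have h4 : 0 ≤ (2 * ε1 + τ * (‖u‖ + ε1)) * 3 ^ n * (d * P) := by positivity
      exact (mul_le_of_le_one_right h4 (by linarith)).trans h3
    linarith
  have e : F (x, t ^ N) - G (X0, Y) =
      ((F (x, t ^ N) - F (γ C t, t ^ N)) - (G (X0, η C t) - G (Γ C t, η C t))) -
        (G (X0, Y) - G (X0, η C t)) := by
    rw [f4]
    ring
  rw [e]
  refine (norm_sub_le _ _).trans ?_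
  have h9 : d * P ≤ ‖x - γ C' t‖ * P := mul_le_mul_of_nonneg_right (hC C') hP0
  have h10 : ε * (d * P) ≤ ε * (‖x - γ C' t‖ * P) := mul_le_mul_of_nonneg_left h9 hε.le
  have h11 : 0 ≤ ε * (d * P) := by positivity
  calc _ ≤ ε / 2 * (d * P) + ε / 4 * (d * P) := add_le_add hp1' hp2
    _ ≤ ε * (d * P) := by linarith
    _ ≤ ε * (‖x - γ C' t‖ * P) := h10
    _ = _ := by ring

end H24.LS
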