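import Pool.Agent.H24.LS.G0
import Pool.Agent.H24.LS.G5
import Pool.Agent.H24.LS.G6
import Pool.Agent.H24.LS.G7

/-!
# G8: solution for `x'` in zone O (pointwise)

Let `a0 = u t^e ∏ (x - γ_C)^m`, `‖a0‖ = ‖u‖ PM`.  Choose `τ` (from `zoneO_dx` with `ε = ‖u‖/4`, `C2 = 2 C1 + 1`), `τ1 = τ/4 ≤ 1/8`, `d` = the
minimum of `‖x - γ_C‖`.  For `‖z - X0‖ < τ1 d`: `‖(z - Γ_C) - (x - γ_C)‖ ≤ τ1 d + δ (s_C + ‖x - γ_C‖) ≤ τ ‖x - γ_C‖`, so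
`‖dx G (z, Y) - a0‖ ≤ ‖a0‖/4`.  `newton1` with `r = τ1 d`, `w = F (x,t^N)`, `zoneO_e0` with `ε = τ1 η1 ‖u‖/8`-like:
solution `z` with `‖z - X0‖ ≤ 2 ε d/‖u‖ ≤ η1 d`, unique in the ball.
The last statements (for the derivative bounds): `‖dx G (z,Y)‖ ≥ ‖a0‖/2`, `‖dx F (x,t^N)/dx G (z,Y) - 1‖ ≤ η1`
(`zoneO_dx` with `ε` small: both are within `ε PM` of `a0`; here `‖(z - Γ_C) - (x - γ_C)‖ ≤ (η1' + 2δ) ‖x - γ_C‖` with `η1'` the
closeness of `z` to `X0`, which can be made smaller than the `τ` needed), `‖dy G/dx G‖ ≤ η1` (`zoneO_dy`).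
-/

open Filter Topology Metric Asymptotics

namespace H24.LS

theorem G8_ev {P : ℂ → Prop} (h : ∀ᶠ t in 𝓝[≠] (0 : ℂ), P t) :
    ∃ δ > (0 : ℝ), ∀ t : ℂ, 0 < ‖t‖ → ‖t‖ < δ → P t := by
  rw [eventually_nhdsWithin_iff, Metric.eventually_nhds_iff] at h
  obtain ⟨δ, hδ, h⟩ := h
  refine ⟨δ, hδ, fun t ht0 ht => h ?_ ?_⟩
  · rwa [dist_zero_right]
  · exact norm_pos_iff.1 ht0

theorem G8_PM {c : ℕ} (e : ℕ) (m : Fin c → ℕ) (γ : Fin c → ℂ → ℂ) (x t u : ℂ) :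
    ‖u * t ^ e * ∏ C, (x - γ C t) ^ m C‖ = ‖u‖ * PM e m γ x t := by
  unfold PM
  rw [norm_mul, norm_mul, norm_pow, norm_prod, mul_assoc]
  simp_rw [norm_pow]

theorem G8_deriv (G : ℂ × ℂ → ℂ) (z Y : ℂ) (hG : DifferentiableAt ℂ G (z, Y)) :
    HasDerivAt (fun z => G (z, Y)) (dx G (z, Y)) z := by
  have h1 : HasDerivAt (fun z : ℂ => ((z, Y) : ℂ × ℂ)) (1, 0) z :=
    (hasDerivAt_id z).prodMk (hasDerivAt_const z Y)
  exact hG.hasFDerivAt.comp_hasDerivAt z h1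

theorem zoneO_point {F G : ℂ × ℂ → ℂ} {k n N : ℕ} {u : ℂ} {c : ℕ} {m : Fin c → ℕ} {b : Fin c → ℝ}
    {γ v Γ η : Fin c → ℂ → ℂ} {a : Fin c → ℂ} {D : Fin c → ℕ}
    (h : CFa F G k n N u c m b γ v Γ η a D) (hc : 1 ≤ c) :
    ∀ C1 > (0 : ℝ), ∃ τ > (0 : ℝ), ∀ η1 > (0 : ℝ), ∃ K : ℝ, 1 ≤ K ∧ ∃ δ > (0 : ℝ),
      ∀ (x t X0 Y : ℂ) (d : ℝ), 0 < ‖t‖ → ‖t‖ < δ → ‖x‖ < δ * ‖t‖ ^ N →
      (∀ C, K * ‖t‖ ^ (b C) ≤ ‖x - γ C t‖) →
      (∀ C, ‖X0 - Γ C t - (x - γ C t)‖ ≤ δ * (‖t‖ ^ (b C) + ‖x - γ C t‖)) →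
      (∀ C, ‖Y - η C t‖ ≤ C1 * (‖t‖ ^ (b C) + ‖x - γ C t‖)) →
      (∀ C, d ≤ ‖x - γ C t‖) → (∃ C, d = ‖x - γ C t‖) →
      ∃ z, G (z, Y) = F (x, t ^ N) ∧ ‖z - X0‖ ≤ η1 * d ∧
        (∀ z', ‖z' - X0‖ < τ * d → G (z', Y) = F (x, t ^ N) → z' = z) ∧
        dx G (z, Y) ≠ 0 ∧ PM (N * (k - 1 - n)) m γ x t ≤ 2 / ‖u‖ * ‖dx G (z, Y)‖ ∧
        ‖dx F (x, t ^ N) / dx G (z, Y) - 1‖ ≤ η1 ∧ ‖dy G (z, Y) / dx G (z, Y)‖ ≤ η1 := by
  classical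
  intro C1 hC1
  have hu : 0 < ‖u‖ := norm_pos_iff.2 h.clu.hu
  have hN := h.clu.hN
  obtain ⟨τ0, hτ0, K0, hK0, δ0, hδ0, hdx0⟩ := zoneO_dx h hc (2 * C1) (by positivity) (‖u‖ / 4)
    (by positivity)
  obtain ⟨τ, hτ, hττ0, hτ4⟩ : ∃ τ > (0 : ℝ), τ ≤ τ0 / 2 ∧ τ ≤ 1 / 4 :=
    ⟨min (τ0 / 2) (1 / 4), by positivity, min_le_left _ _, min_le_right _ _⟩
  refine ⟨τ, hτ, ?_⟩
  intro η1 hη1
  obtain ⟨τa, hτa, Ka, hKa, δa, hδa, hdxa⟩ := zoneO_dx h hc (2 * C1) (by positivity)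
    (‖u‖ * η1 / 4) (by positivity)
  obtain ⟨Kb, hKb, δb, hδb, hdyb⟩ := zoneO_dy h hc (2 * C1) (by positivity) (‖u‖ * η1 / 2)
    (by positivity)
  obtain ⟨εc, hεc, hεc1, hεc2, hεc3⟩ : ∃ εc > (0 : ℝ), εc ≤ ‖u‖ * τ / 4 ∧
      2 * εc ≤ ‖u‖ * η1 ∧ 4 * εc ≤ ‖u‖ * τa := by
    refine ⟨min (‖u‖ * τ / 4) (min (‖u‖ * η1 / 2) (‖u‖ * τa / 4)), by positivity,
      min_le_left _ _, ?_, ?_⟩
    · have : min (‖u‖ * τ / 4) (min (‖u‖ * η1 / 2) (‖u‖ * τa / 4)) ≤ ‖u‖ * η1 / 2 :=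
        (min_le_right _ _).trans (min_le_left _ _)
      linarith
    · have : min (‖u‖ * τ / 4) (min (‖u‖ * η1 / 2) (‖u‖ * τa / 4)) ≤ ‖u‖ * τa / 4 :=
        (min_le_right _ _).trans (min_le_right _ _)
      linarith
  obtain ⟨Kc, hKc, δc, hδc, he0⟩ := zoneO_e0 h hc C1 hC1 εc hεc
  -- size of the arcs
  obtain ⟨d1, hd1, hev⟩ := G8_ev (P := fun t => ∀ C, ‖γ C t‖ ≤ ‖t‖ ^ N ∧
      ‖Γ C t‖ ≤ ‖t‖ ^ N ∧ ‖η C t - t ^ N‖ ≤ ‖t‖ ^ N) (by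
    rw [eventually_all]
    intro C
    filter_upwards [(h.clu.gsm C).def one_pos, (h.Γsm C).def one_pos, (h.ηsm C).def one_pos]
      with t h1 h2 h3
    rw [norm_pow, one_mul] at h1 h2 h3
    exact ⟨h1, h2, h3⟩)
  obtain ⟨rG, hrG, hG⟩ := Metric.eventually_nhds_iff.1 h.anG.eventually_analyticAt
  obtain ⟨δ, hδ, hδs⟩ : ∃ δ > (0 : ℝ), δ ≤ δ0 ∧ δ ≤ δa ∧ δ ≤ δb ∧ δ ≤ δc ∧ δ ≤ τ0 / 4 ∧
      δ ≤ τa / 4 ∧ δ ≤ 1 / 8 ∧ δ ≤ d1 ∧ δ ≤ rG / (4 + 4 * C1) := by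
    refine ⟨min (min (min δ0 δa) (min δb δc)) (min (min (τ0 / 4) (τa / 4))
      (min (1 / 8) (min d1 (rG / (4 + 4 * C1))))), by positivity, ?_, ?_, ?_, ?_, ?_, ?_, ?_,
      ?_, ?_⟩ <;> simp
  obtain ⟨s0, sa, sb, sc, sτ0, sτa, s8, s1, sG⟩ := hδs
  refine ⟨max (max K0 Ka) (max Kb Kc), le_max_of_le_left (le_max_of_le_left hK0), δ, hδ, ?_⟩
  intro x t X0 Y d ht0 ht hx hK hX hY hd1' hd2
  have htN0 : 0 < ‖t‖ ^ N := by positivity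
  have htN : ‖t‖ ^ N ≤ ‖t‖ := pow_le_of_le_one ht0.le (by linarith) (by omega)
  have hb0 : ∀ C, 0 < ‖t‖ ^ (b C) := fun C => Real.rpow_pos_of_pos ht0 _
  have hK0' : ∀ C, K0 * ‖t‖ ^ (b C) ≤ ‖x - γ C t‖ := fun C =>
    (mul_le_mul_of_nonneg_right ((le_max_left _ _).trans (le_max_left _ _)) (hb0 C).le).trans (hK C)
  have hKa' : ∀ C, Ka * ‖t‖ ^ (b C) ≤ ‖x - γ C t‖ := fun C =>
    (mul_le_mul_of_nonneg_right ((le_max_right _ _).trans (le_max_left _ _)) (hb0 C).le).trans (hK C)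
  have hKb' : ∀ C, Kb * ‖t‖ ^ (b C) ≤ ‖x - γ C t‖ := fun C =>
    (mul_le_mul_of_nonneg_right ((le_max_left _ _).trans (le_max_right _ _)) (hb0 C).le).trans (hK C)
  have hKc' : ∀ C, Kc * ‖t‖ ^ (b C) ≤ ‖x - γ C t‖ := fun C =>
    (mul_le_mul_of_nonneg_right ((le_max_right _ _).trans (le_max_right _ _)) (hb0 C).le).trans (hK C)
  have hsx : ∀ C, ‖t‖ ^ (b C) ≤ ‖x - γ C t‖ := fun C => by
    have h1 := hK0' C
    have h2 := mul_le_mul_of_nonneg_right hK0 (hb0 C).le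
    linarith
  have hxp : ∀ C, 0 < ‖x - γ C t‖ := fun C => (hb0 C).trans_le (hsx C)
  obtain ⟨Cd, hCd⟩ := hd2
  have hdpos : 0 < d := by rw [hCd]; exact hxp Cd
  have hX' : ∀ C, ‖X0 - Γ C t - (x - γ C t)‖ ≤ 2 * δ * ‖x - γ C t‖ := fun C => by
    refine (hX C).trans ?_
    have h1 := mul_le_mul_of_nonneg_left (hsx C) hδ.le
    linarith
  have hY' : ∀ C, ‖Y - η C t‖ ≤ 2 * C1 * ‖x - γ C t‖ := fun C => by
    refine (hY C).trans ?_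
    have h1 := mul_le_mul_of_nonneg_left (hsx C) hC1.le
    linarith
  -- points of the ball
  have hz : ∀ z θ, ‖z - X0‖ ≤ θ * d → 0 ≤ θ → ∀ C,
      ‖(z - Γ C t) - (x - γ C t)‖ ≤ (θ + 2 * δ) * ‖x - γ C t‖ := by
    intro z θ hz hθ C
    have h1 : (z - Γ C t) - (x - γ C t) = (z - X0) + (X0 - Γ C t - (x - γ C t)) := by ring
    rw [h1]
    refine (norm_add_le _ _).trans ?_
    have h2 := hX' C
    have h3 := mul_le_mul_of_nonneg_left (hd1' C) hθ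
    linarith
  have hball : ∀ z, ‖z - X0‖ ≤ τ * d → AnalyticAt ℂ G (z, Y) := by
    intro z hz'
    apply hG
    rw [dist_zero_right]
    obtain ⟨e1, e2, e3⟩ := hev t ht0 (ht.trans_le s1) Cd
    have h1 := hz z τ hz' hτ.le Cd
    have h2 := hY' Cd
    have hxN : ‖x‖ ≤ ‖t‖ ^ N := by
      refine hx.le.trans ?_
      have := mul_le_mul_of_nonneg_right (show δ ≤ 1 by linarith) htN0.le
      linarith
    have h3 : ‖x - γ Cd t‖ ≤ 2 * ‖t‖ ^ N := (norm_sub_le _ _).trans (by linarith)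
    have h4 : (τ + 2 * δ) * ‖x - γ Cd t‖ ≤ 1 / 2 * (2 * ‖t‖ ^ N) := by
      refine mul_le_mul (by linarith) h3 (norm_nonneg _) (by norm_num)
    have hzn : ‖z‖ ≤ 4 * ‖t‖ ^ N := by
      have h5 : z = ((z - Γ Cd t) - (x - γ Cd t)) + (x - γ Cd t) + Γ Cd t := by ring
      have h6 := norm_add_le (((z - Γ Cd t) - (x - γ Cd t)) + (x - γ Cd t)) (Γ Cd t)
      have h7 := norm_add_le ((z - Γ Cd t) - (x - γ Cd t)) (x - γ Cd t)
      rw [← h5] at h6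
      linarith
    have hYn : ‖Y‖ ≤ (2 + 4 * C1) * ‖t‖ ^ N := by
      have h5 : Y = (Y - η Cd t) + (η Cd t - t ^ N) + t ^ N := by ring
      have h6 := norm_add_le ((Y - η Cd t) + (η Cd t - t ^ N)) (t ^ N)
      have h7 := norm_add_le (Y - η Cd t) (η Cd t - t ^ N)
      rw [← h5, norm_pow] at h6
      have h8 : 2 * C1 * ‖x - γ Cd t‖ ≤ 2 * C1 * (2 * ‖t‖ ^ N) :=
        mul_le_mul_of_nonneg_left h3 (by positivity)
      linarith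
    rw [Prod.norm_def]
    have h9 : (4 + 4 * C1) * ‖t‖ ^ N < rG := by
      have h10 : ‖t‖ < rG / (4 + 4 * C1) := ht.trans_le sG
      rw [lt_div_iff₀ (by positivity)] at h10
      have := mul_le_mul_of_nonneg_left htN (show (0 : ℝ) ≤ 4 + 4 * C1 by positivity)
      linarith
    refine max_lt ?_ ?_
    · show ‖z‖ < rG
      have : 0 < C1 * ‖t‖ ^ N := by positivity
      linarith
    · show ‖Y‖ < rG
      linarith
  -- the leading coefficient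
  have hPM : 0 < PM (N * (k - 1 - n)) m γ x t := by
    unfold PM
    have : 0 < ∏ C, ‖x - γ C t‖ ^ m C := Finset.prod_pos fun C _ => pow_pos (hxp C) _
    positivity
  obtain ⟨a0, ha0⟩ : ∃ a0 : ℂ, a0 = u * t ^ (N * (k - 1 - n)) * ∏ C, (x - γ C t) ^ m C := ⟨_, rfl⟩
  have ha0n : ‖a0‖ = ‖u‖ * PM (N * (k - 1 - n)) m γ x t := by
    rw [ha0]
    exact G8_PM _ _ _ _ _ _
  obtain ⟨P, hP⟩ : ∃ P : ℝ, P = PM (N * (k - 1 - n)) m γ x t := ⟨_, rfl⟩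
  rw [← hP] at hPM ha0n
  have ha0p : 0 < ‖a0‖ := by rw [ha0n]; positivity
  have ha0ne : a0 ≠ 0 := norm_pos_iff.1 ha0p
  have hdG : ∀ z, ‖z - X0‖ ≤ τ * d → ‖dx G (z, Y) - a0‖ ≤ ‖a0‖ / 4 := by
    intro z hz'
    have h1 := (hdx0 x t (z, Y) ht0 (ht.trans_le s0)
      (hx.trans_le (mul_le_mul_of_nonneg_right s0 htN0.le)) hK0' (fun C => by
        refine (hz z τ hz' hτ.le C).trans ?_
        exact mul_le_mul_of_nonneg_right (by linarith) (norm_nonneg _)) hY').2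
    rw [← ha0, ← hP] at h1
    rw [ha0n]
    linarith
  have herr : ‖F (x, t ^ N) - G (X0, Y)‖ ≤ εc * d * P := by
    have h1 := he0 x t X0 Y ht0 (ht.trans_le sc)
      (hx.trans_le (mul_le_mul_of_nonneg_right sc htN0.le)) hKc' (fun C => by
        refine (hX C).trans ?_
        have := hb0 C
        exact mul_le_mul_of_nonneg_right sc (by positivity)) hY Cd
    rw [← hCd, ← hP] at h1
    exact h1
  obtain ⟨z, hz1, hz2, hz3⟩ := newton1 (fun z => G (z, Y)) X0 (τ * d) a0 (F (x, t ^ N))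
    (by positivity) ha0ne (by
      intro z hz'
      rw [mem_ball, dist_eq_norm] at hz'
      have h1 := G8_deriv G z Y (hball z hz'.le).differentiableAt
      refine ⟨h1.differentiableAt, ?_⟩
      rw [h1.deriv]
      have := hdG z hz'.le
      linarith) (by
      rw [norm_sub_rev]
      refine herr.trans ?_
      rw [ha0n]
      have h1 : εc * (d * P) ≤ ‖u‖ * τ / 4 * (d * P) :=
        mul_le_mul_of_nonneg_right hεc1 (by positivity)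
      linarith)
  have hzd : ‖z - X0‖ ≤ 2 * εc / ‖u‖ * d := by
    refine hz1.trans ?_
    rw [norm_sub_rev, div_le_iff₀ ha0p, ha0n]
    have h1 : 2 * εc / ‖u‖ * d * (‖u‖ * P) = 2 * (εc * d * P) := by field_simp
    rw [h1]
    linarith
  have hzτ : ‖z - X0‖ ≤ τ * d := by
    refine hzd.trans (mul_le_mul_of_nonneg_right ?_ hdpos.le)
    rw [div_le_iff₀ hu]
    have := mul_pos hu hτ
    linarith
  have hzη : ‖z - X0‖ ≤ η1 * d := by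
    refine hzd.trans (mul_le_mul_of_nonneg_right ?_ hdpos.le)
    rw [div_le_iff₀ hu]
    linarith
  have hza : ‖z - X0‖ ≤ τa / 2 * d := by
    refine hzd.trans (mul_le_mul_of_nonneg_right ?_ hdpos.le)
    rw [div_le_iff₀ hu]
    linarith
  have h1 := hdG z hzτ
  have h2 : 3 / 4 * ‖a0‖ ≤ ‖dx G (z, Y)‖ := by
    have h3 := norm_sub_norm_le a0 (dx G (z, Y))
    rw [norm_sub_rev] at h3
    linarith
  have hdxp : 0 < ‖dx G (z, Y)‖ := lt_of_lt_of_le (by positivity) h2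
  have hPd : P ≤ 2 / ‖u‖ * ‖dx G (z, Y)‖ := by
    rw [div_mul_eq_mul_div, le_div_iff₀ hu]
    rw [ha0n] at h2
    linarith
  refine ⟨z, hz2, hzη, ?_, norm_pos_iff.1 hdxp, ?_, ?_, ?_⟩
  · intro z' hz' hz'2
    exact hz3 z' (by rwa [mem_ball, dist_eq_norm]) hz'2
  · rw [← hP]
    exact hPd
  · obtain ⟨f1, f2⟩ := hdxa x t (z, Y) ht0 (ht.trans_le sa)
      (hx.trans_le (mul_le_mul_of_nonneg_right sa htN0.le)) hKa' (fun C => by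
        refine (hz z (τa / 2) hza (by positivity) C).trans ?_
        exact mul_le_mul_of_nonneg_right (by linarith) (norm_nonneg _)) hY'
    rw [← ha0, ← hP] at f1 f2
    have f3 : dx F (x, t ^ N) / dx G (z, Y) - 1 =
        ((dx F (x, t ^ N) - a0) - (dx G (z, Y) - a0)) / dx G (z, Y) := by
      have := norm_pos_iff.1 hdxp
      field_simp
      ring
    rw [f3, norm_div, div_le_iff₀ hdxp]
    refine (norm_sub_le _ _).trans ((add_le_add f1 f2).trans ?_)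
    have f4 : ‖u‖ * η1 / 4 * P ≤ ‖u‖ * η1 / 4 * (2 / ‖u‖ * ‖dx G (z, Y)‖) :=
      mul_le_mul_of_nonneg_left hPd (by positivity)
    have f5 : ‖u‖ * η1 / 4 * (2 / ‖u‖ * ‖dx G (z, Y)‖) = η1 * ‖dx G (z, Y)‖ / 2 := by
      field_simp
      ring
    linarith
  · obtain ⟨_, f2⟩ := hdyb x t (z, Y) ht0 (ht.trans_le sb)
      (hx.trans_le (mul_le_mul_of_nonneg_right sb htN0.le)) hKb' (fun C => by
        refine (hz z τ hzτ hτ.le C).trans ?_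
        have := norm_nonneg (x - γ C t)
        have h5 : (τ + 2 * δ) * ‖x - γ C t‖ ≤ 1 / 2 * ‖x - γ C t‖ :=
          mul_le_mul_of_nonneg_right (by linarith) this
        linarith) hY'
    rw [← hP] at f2
    rw [norm_div, div_le_iff₀ hdxp]
    refine f2.trans ?_
    have f4 : ‖u‖ * η1 / 2 * P ≤ ‖u‖ * η1 / 2 * (2 / ‖u‖ * ‖dx G (z, Y)‖) :=
      mul_le_mul_of_nonneg_left hPd (by positivity)
    have f5 : ‖u‖ * η1 / 2 * (2 / ‖u‖ * ‖dx G (z, Y)‖) = η1 * ‖dx G (z, Y)‖ := by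
      field_simp
    linarith

end H24.LS
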