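import Pool.Agent.H24.LS.G0
import Pool.Agent.H24.LS.G5
import Pool.Agent.H24.LS.G7
import Pool.Agent.H24.LS.G8

/-!
# G9: solution for `x'` in zone O as a `C^1` function

For `p = (x, y) ∈ Ud a1 ρ`, `K < km p`, choose `t` with `t^N = y` and apply `zoneO_point` (with `X0 p, Y p, d = dm p`; the
hypotheses from `SDat.S1, S2`, `Mins`; `ρ ≤ δ'^N` so that `‖t‖ < δ'`).  Uniqueness in `‖z - X0 p‖ < τ dm p` shows that the
result does not depend on `t`.  `solve_C1` with `U = {p ∈ Ud a1 ρ | K < km p}` (open: `km` is continuous on `Ud 1 ρ0`),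
`S = {(p,z) | p ∈ Ud a1 ρ ∧ ‖z - X0 p‖ < τ dm p}` (open), `H (p,z) = G (z, Y p) - F p` (take `η1 < τ`);
`∂_z H = dx G (z, Y p) ≠ 0`.  `F, G` are analytic near `0`, so differentiable at the points used (`AnalyticAt` is an
open condition) and `ContDiffAt ℝ 1`.
Derivative (`fderiv_comp2`): `dx G · DxO(v,w) + dy G · DY(v,w) = dx F · v + dy F · w`, hence with `E = DY(v,w) - w`
(`‖E‖ ≤ C1‖v‖ + δ‖w‖`): `DxO(v,w) - v = (dx F/dx G - 1) v + ((dy F - dy G)/dx G) w - (dy G/dx G) E`,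
and `‖dy F - dy G‖ ≤ ε' PM ≤ (2ε'/‖u‖) ‖dx G‖` by `zoneO_diff` (this `ε'` does not depend on `K`).
Use `zoneO_point` with `η1/(2 + C1)` in place of `η1`.
-/

open Filter Topology Metric Asymptotics

namespace H24.LS

private lemma G9_an {F : ℂ × ℂ → ℂ} (hF : AnalyticAt ℂ F 0) :
    ∃ δ > (0 : ℝ), ∀ p : ℂ × ℂ, ‖p‖ < δ → AnalyticAt ℂ F p := by
  obtain ⟨δ, hδ, h⟩ := Metric.eventually_nhds_iff.mp hF.eventually_analyticAt
  exact ⟨δ, hδ, fun p hp => h (by rwa [dist_zero_right])⟩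

private lemma G9_rd {F : ℂ × ℂ → ℂ} {p : ℂ × ℂ} (hF : AnalyticAt ℂ F p) (v w : ℂ) :
    fderiv ℝ F p (v, w) = dx F p * v + dy F p * w := by
  have h1 := (fderiv_comp2 F (fun q : ℂ × ℂ => q.1) (fun q : ℂ × ℂ => q.2) p
    hF.differentiableAt differentiableAt_fst differentiableAt_snd (v, w)).2
  have e1 : (fun q : ℂ × ℂ => F (q.1, q.2)) = F := rfl
  rw [e1] at h1
  rw [h1, fderiv_fst, fderiv_snd]
  rfl

theorem zoneO_sol {F G : ℂ × ℂ → ℂ} {k n N : ℕ} {u : ℂ} {c : ℕ} {m : Fin c → ℕ} {b : Fin c → ℝ}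
    {γ v Γ η : Fin c → ℂ → ℂ} {a : Fin c → ℂ} {D : Fin c → ℕ}
    (h : CFa F G k n N u c m b γ v Γ η a D) (hc : 1 ≤ c)
    {dm km : ℂ × ℂ → ℝ} {ρ0 : ℝ} (hM : Mins N b γ dm km ρ0) :
    ∀ C1 > (0 : ℝ), ∃ τ > (0 : ℝ), ∀ η1 > (0 : ℝ), ∃ K : ℝ, 1 ≤ K ∧ ∀ ε > (0 : ℝ), ∃ δ > (0 : ℝ),
      ∀ (a1 ρ : ℝ) (Y X0 : ℂ × ℂ → ℂ), a1 ≤ δ → ρ ≤ δ → SDat N b γ Γ η Y X0 C1 δ a1 ρ →
      ∃ xO : ℂ × ℂ → ℂ, ∀ p ∈ Ud a1 ρ, K < km p →
        G (xO p, Y p) = F p ∧ ‖xO p - X0 p‖ ≤ η1 * dm p ∧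
        (∀ z, ‖z - X0 p‖ < τ * dm p → G (z, Y p) = F p → z = xO p) ∧
        ContDiffAt ℝ 1 xO p ∧
        ∀ v w : ℂ, ‖fderiv ℝ xO p (v, w) - v‖ ≤ η1 * ‖v‖ + ε * ‖w‖ := by
  intro C1 hC1
  obtain ⟨τ, hτ, hpoint⟩ := zoneO_point h hc C1 hC1
  refine ⟨τ, hτ, ?_⟩
  intro η1 hη1
  obtain ⟨e1, he1def⟩ : ∃ e1, e1 = min (min (η1 / (2 + C1)) (τ / 2)) (1 / 4) := ⟨_, rfl⟩
  have he1 : 0 < e1 := by
    rw [he1def]
    exact lt_min (lt_min (by positivity) (by positivity)) (by norm_num)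
  have he1a : e1 ≤ η1 / (2 + C1) := by
    rw [he1def]; exact (min_le_left _ _).trans (min_le_left _ _)
  have he1b : e1 ≤ τ / 2 := by
    rw [he1def]; exact (min_le_left _ _).trans (min_le_right _ _)
  have he1c : e1 ≤ 1 / 4 := by rw [he1def]; exact min_le_right _ _
  have he1d : e1 * (2 + C1) ≤ η1 := by
    rwa [le_div_iff₀ (by positivity)] at he1a
  have he1e : e1 ≤ η1 := by nlinarith
  obtain ⟨K, hK, δ0, hδ0, hpt⟩ := hpoint e1 he1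
  refine ⟨K, hK, ?_⟩
  intro ε hε
  have hupos : 0 < ‖u‖ := norm_pos_iff.mpr h.clu.hu
  have hNpos : 0 < N := h.clu.hN
  obtain ⟨δ1, hδ1, hdiff⟩ := zoneO_diff h hc (2 * C1) (by positivity) (ε * ‖u‖ / 4) (by positivity)
  obtain ⟨δ2, hδ2, hFan⟩ := G9_an h.clu.an
  obtain ⟨δ3, hδ3, hGan⟩ := G9_an h.anG
  obtain ⟨C0, -⟩ : ∃ C0 : Fin c, C0 = ⟨0, hc⟩ := ⟨_, rfl⟩
  obtain ⟨δ4, hδ4, hsm⟩ : ∃ δ4 > (0 : ℝ), ∀ t : ℂ, 0 < ‖t‖ → ‖t‖ < δ4 →
      ‖Γ C0 t‖ ≤ ‖t‖ ^ N ∧ ‖γ C0 t‖ ≤ ‖t‖ ^ N ∧ ‖η C0 t - t ^ N‖ ≤ ‖t‖ ^ N := by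
    have i1 := (h.Γsm C0).def (c := 1) one_pos
    have i2 := (h.clu.gsm C0).def (c := 1) one_pos
    have i3 := (h.ηsm C0).def (c := 1) one_pos
    have i4 := i1.and (i2.and i3)
    rw [eventually_nhdsWithin_iff] at i4
    obtain ⟨δ4, hδ4, h4⟩ := Metric.eventually_nhds_iff.mp i4
    refine ⟨δ4, hδ4, fun t ht ht4 => ?_⟩
    have h5 := h4 (y := t) (by rwa [dist_zero_right]) (norm_pos_iff.mp ht)
    simpa [norm_pow] using h5
  obtain ⟨δ, hδdef⟩ : ∃ δ, δ = min (min (min δ0 (δ0 ^ N)) (min δ1 (δ1 ^ N)))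
    (min (min δ2 (δ3 / (4 * C1 + 4))) (min (min (δ4 ^ N) ρ0) (min (1 / 8) ε))) := ⟨_, rfl⟩
  have hδpos : 0 < δ := by
    rw [hδdef]
    have := hM.h0
    refine lt_min (lt_min (lt_min ?_ ?_) (lt_min ?_ ?_)) (lt_min (lt_min ?_ ?_)
      (lt_min (lt_min ?_ ?_) (lt_min ?_ ?_))) <;> positivity
  have hd0 : δ ≤ δ0 := by
    rw [hδdef]; exact (min_le_left _ _).trans ((min_le_left _ _).trans (min_le_left _ _))
  have hd0N : δ ≤ δ0 ^ N := by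
    rw [hδdef]; exact (min_le_left _ _).trans ((min_le_left _ _).trans (min_le_right _ _))
  have hd1 : δ ≤ δ1 := by
    rw [hδdef]; exact (min_le_left _ _).trans ((min_le_right _ _).trans (min_le_left _ _))
  have hd1N : δ ≤ δ1 ^ N := by
    rw [hδdef]; exact (min_le_left _ _).trans ((min_le_right _ _).trans (min_le_right _ _))
  have hd2 : δ ≤ δ2 := by
    rw [hδdef]; exact (min_le_right _ _).trans ((min_le_left _ _).trans (min_le_left _ _))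
  have hd3 : δ ≤ δ3 / (4 * C1 + 4) := by
    rw [hδdef]; exact (min_le_right _ _).trans ((min_le_left _ _).trans (min_le_right _ _))
  have hd4 : δ ≤ δ4 ^ N := by
    rw [hδdef]
    exact (min_le_right _ _).trans ((min_le_right _ _).trans ((min_le_left _ _).trans
      (min_le_left _ _)))
  have hdρ : δ ≤ ρ0 := by
    rw [hδdef]
    exact (min_le_right _ _).trans ((min_le_right _ _).trans ((min_le_left _ _).trans
      (min_le_right _ _)))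
  have hd8 : δ ≤ 1 / 8 := by
    rw [hδdef]
    exact (min_le_right _ _).trans ((min_le_right _ _).trans ((min_le_right _ _).trans
      (min_le_left _ _)))
  have hdε : δ ≤ ε := by
    rw [hδdef]
    exact (min_le_right _ _).trans ((min_le_right _ _).trans ((min_le_right _ _).trans
      (min_le_right _ _)))
  refine ⟨δ, hδpos, ?_⟩
  intro a1 ρ Y X0 ha1 hρδ hS
  have hUd : Ud a1 ρ ⊆ Ud 1 ρ0 := by
    rintro p ⟨h1, h2, h3⟩
    refine ⟨h1, lt_of_lt_of_le h2 (hρδ.trans hdρ), lt_of_lt_of_le h3 ?_⟩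
    apply mul_le_mul_of_nonneg_right _ h1.le
    linarith
  -- the pointwise statement
  have key : ∀ p ∈ Ud a1 ρ, K < km p → ∃ z : ℂ, G (z, Y p) = F p ∧ ‖z - X0 p‖ ≤ e1 * dm p ∧
      (∀ z', ‖z' - X0 p‖ < τ * dm p → G (z', Y p) = F p → z' = z) ∧
      dx G (z, Y p) ≠ 0 ∧ ‖dx F p / dx G (z, Y p) - 1‖ ≤ e1 ∧
      ‖dy G (z, Y p) / dx G (z, Y p)‖ ≤ e1 ∧
      ‖(dy F p - dy G (z, Y p)) / dx G (z, Y p)‖ ≤ ε / 2 ∧
      ‖(z, Y p)‖ < δ3 ∧ ‖p‖ < δ2 ∧ 0 < dm p := by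
    rintro ⟨x, y⟩ hp hkm
    obtain ⟨t, ht⟩ := IsAlgClosed.exists_pow_nat_eq y hNpos
    subst ht
    obtain ⟨hy1, hy2, hy3⟩ := hp
    have hp : (x, t ^ N) ∈ Ud a1 ρ := ⟨hy1, hy2, hy3⟩
    have hp' := hUd hp
    simp only at hy1 hy2 hy3
    rw [norm_pow] at hy1 hy2 hy3
    have htpos : 0 < ‖t‖ := by
      rcases eq_or_lt_of_le (norm_nonneg t) with h0 | h0
      · rw [← h0, zero_pow hNpos.ne'] at hy1
        exact absurd hy1 (lt_irrefl _)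
      · exact h0
    have hT : ‖t‖ ^ N < δ := lt_of_lt_of_le hy2 hρδ
    have htlt : ∀ δ' : ℝ, 0 < δ' → δ ≤ δ' ^ N → ‖t‖ < δ' := fun δ' hδ' hle =>
      lt_of_pow_lt_pow_left₀ N hδ'.le (lt_of_lt_of_le hT hle)
    have ht0 := htlt δ0 hδ0 hd0N
    have ht1 := htlt δ1 hδ1 hd1N
    have ht4 := htlt δ4 hδ4 hd4
    have hxδ : ‖x‖ < δ * ‖t‖ ^ N :=
      lt_of_lt_of_le hy3 (mul_le_mul_of_nonneg_right ha1 hy1.le)
    have hx0 : ‖x‖ < δ0 * ‖t‖ ^ N :=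
      lt_of_lt_of_le hxδ (mul_le_mul_of_nonneg_right hd0 hy1.le)
    have hx1 : ‖x‖ < δ1 * ‖t‖ ^ N :=
      lt_of_lt_of_le hxδ (mul_le_mul_of_nonneg_right hd1 hy1.le)
    have hb0 : ∀ C, 0 < ‖t‖ ^ (b C) := fun C => Real.rpow_pos_of_pos htpos _
    have hKx : ∀ C, K * ‖t‖ ^ (b C) ≤ ‖x - γ C t‖ := fun C =>
      (mul_le_mul_of_nonneg_right hkm.le (hb0 C).le).trans (hM.k1 x t hp' C)
    have hbx : ∀ C, ‖t‖ ^ (b C) ≤ ‖x - γ C t‖ := fun C => by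
      have h1 := hKx C
      have h2 : 1 * ‖t‖ ^ (b C) ≤ K * ‖t‖ ^ (b C) := mul_le_mul_of_nonneg_right hK (hb0 C).le
      linarith
    have hS1 : ∀ C, ‖Y (x, t ^ N) - η C t‖ ≤ C1 * (‖t‖ ^ (b C) + ‖x - γ C t‖) :=
      hS.S1 x t hp
    have hS2 : ∀ C, ‖X0 (x, t ^ N) - Γ C t - (x - γ C t)‖ ≤
        δ * (‖t‖ ^ (b C) + ‖x - γ C t‖) := hS.S2 x t hp
    have hS2' : ∀ C, ‖X0 (x, t ^ N) - Γ C t - (x - γ C t)‖ ≤
        δ0 * (‖t‖ ^ (b C) + ‖x - γ C t‖) := fun C => by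
      refine (hS2 C).trans (mul_le_mul_of_nonneg_right hd0 ?_)
      have := (hb0 C).le
      positivity
    obtain ⟨z, hz1, hz2, hz3, hz4, hz5, hz6, hz7⟩ := hpt x t (X0 (x, t ^ N)) (Y (x, t ^ N))
      (dm (x, t ^ N)) htpos ht0 hx0 hKx hS2' hS1 (hM.d1 x t hp') (hM.d2 x t hp')
    have hdmle : ∀ C, dm (x, t ^ N) ≤ ‖x - γ C t‖ := hM.d1 x t hp'
    have hdmpos : 0 < dm (x, t ^ N) := by
      obtain ⟨C, hC⟩ := hM.d2 x t hp'
      rw [hC]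
      exact lt_of_lt_of_le (hb0 C) (hbx C)
    have hYη : ∀ C, ‖Y (x, t ^ N) - η C t‖ ≤ 2 * C1 * ‖x - γ C t‖ := fun C => by
      refine (hS1 C).trans ?_
      have := hbx C
      nlinarith
    have hX0Γ : ∀ C, ‖X0 (x, t ^ N) - Γ C t - (x - γ C t)‖ ≤ 1 / 4 * ‖x - γ C t‖ := fun C => by
      refine (hS2 C).trans ?_
      have h1 := hbx C
      have h2 := (hb0 C).le
      have h3 : 0 ≤ ‖x - γ C t‖ := norm_nonneg _
      nlinarith
    have hzX0 : ∀ C, ‖z - X0 (x, t ^ N)‖ ≤ 1 / 4 * ‖x - γ C t‖ := fun C => by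
      refine hz2.trans ?_
      have h1 := hdmle C
      nlinarith
    have hzΓ : ∀ C, ‖(z - Γ C t) - (x - γ C t)‖ ≤ ‖x - γ C t‖ / 2 := fun C => by
      have e : (z - Γ C t) - (x - γ C t) = (z - X0 (x, t ^ N)) +
        (X0 (x, t ^ N) - Γ C t - (x - γ C t)) := by ring
      rw [e]
      refine (norm_add_le _ _).trans ?_
      have h1 := hX0Γ C
      have h2 := hzX0 C
      linarith
    have hd := hdiff x t (z, Y (x, t ^ N)) htpos ht1 hx1 hbx hzΓ hYη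
    have hdxG : 0 < ‖dx G (z, Y (x, t ^ N))‖ := norm_pos_iff.mpr hz4
    have hquot : ‖(dy F (x, t ^ N) - dy G (z, Y (x, t ^ N))) / dx G (z, Y (x, t ^ N))‖
        ≤ ε / 2 := by
      rw [norm_div, div_le_iff₀ hdxG]
      calc ‖dy F (x, t ^ N) - dy G (z, Y (x, t ^ N))‖
          ≤ ε * ‖u‖ / 4 * PM (N * (k - 1 - n)) m γ x t := hd
        _ ≤ ε * ‖u‖ / 4 * (2 / ‖u‖ * ‖dx G (z, Y (x, t ^ N))‖) :=
            mul_le_mul_of_nonneg_left hz5 (by positivity)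
        _ = ε / 2 * ‖dx G (z, Y (x, t ^ N))‖ := by
            field_simp
            ring
    obtain ⟨g1, g2, g3⟩ := hsm t htpos ht4
    have hxT : ‖x‖ ≤ ‖t‖ ^ N := by nlinarith
    have hxγ : ‖x - γ C0 t‖ ≤ 2 * ‖t‖ ^ N := by
      have := norm_sub_le x (γ C0 t)
      linarith
    have hznorm : ‖z‖ ≤ 4 * ‖t‖ ^ N := by
      have e : z = ((z - Γ C0 t) - (x - γ C0 t)) + Γ C0 t + (x - γ C0 t) := by ring
      have h1 : ‖z‖ ≤ ‖(z - Γ C0 t) - (x - γ C0 t)‖ + ‖Γ C0 t‖ + ‖x - γ C0 t‖ := by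
        conv_lhs => rw [e]
        exact norm_add₃_le
      have h2 := hzΓ C0
      linarith
    have hYnorm : ‖Y (x, t ^ N)‖ ≤ (4 * C1 + 2) * ‖t‖ ^ N := by
      have e : Y (x, t ^ N) = (Y (x, t ^ N) - η C0 t) + (η C0 t - t ^ N) + t ^ N := by ring
      have h1 : ‖Y (x, t ^ N)‖ ≤ ‖Y (x, t ^ N) - η C0 t‖ + ‖η C0 t - t ^ N‖ + ‖t ^ N‖ := by
        conv_lhs => rw [e]
        exact norm_add₃_le
      have h2 := hYη C0
      have h3 : 2 * C1 * ‖x - γ C0 t‖ ≤ 2 * C1 * (2 * ‖t‖ ^ N) :=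
        mul_le_mul_of_nonneg_left hxγ (by positivity)
      rw [norm_pow] at h1
      linarith
    have hpair : ‖(z, Y (x, t ^ N))‖ < δ3 := by
      have h1 : ‖(z, Y (x, t ^ N))‖ ≤ (4 * C1 + 4) * ‖t‖ ^ N := by
        rw [Prod.norm_def]
        apply max_le
        · refine hznorm.trans ?_
          nlinarith
        · refine hYnorm.trans ?_
          nlinarith
      have h2 : (4 * C1 + 4) * ‖t‖ ^ N < (4 * C1 + 4) * δ :=
        mul_lt_mul_of_pos_left hT (by positivity)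
      have h3 : (4 * C1 + 4) * δ ≤ δ3 := by
        rw [le_div_iff₀ (by positivity)] at hd3
        linarith
      linarith
    have hpnorm : ‖(x, t ^ N)‖ < δ2 := by
      rw [Prod.norm_def]
      apply max_lt
      · simp only
        linarith
      · simp only
        rw [norm_pow]
        linarith
    exact ⟨z, hz1, hz2, hz3, hz4, hz6, hz7, hquot, hpair, hpnorm, hdmpos⟩
  -- the function
  classical
  choose! xO hx using key
  refine ⟨xO, ?_⟩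
  set U : Set (ℂ × ℂ) := {p | p ∈ Ud a1 ρ ∧ K < km p} with hUdef
  have hUopen : IsOpen U := by
    rw [isOpen_iff_mem_nhds]
    rintro p ⟨hp, hkm⟩
    have h1 : ∀ᶠ q in 𝓝 p, q ∈ Ud a1 ρ := (isOpen_Ud a1 ρ).mem_nhds hp
    have h2 : ∀ᶠ q in 𝓝 p, K < km q := (hM.ck p (hUd hp)).eventually_const_lt hkm
    exact h1.and h2
  set S : Set ((ℂ × ℂ) × ℂ) := {q | q.1 ∈ Ud a1 ρ ∧ ‖q.2 - X0 q.1‖ < τ * dm q.1} with hSdef
  have hSopen : IsOpen S := by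
    rw [isOpen_iff_mem_nhds]
    rintro ⟨p, z⟩ ⟨hp, hz⟩
    have h1 : ∀ᶠ q : (ℂ × ℂ) × ℂ in 𝓝 (p, z), q.1 ∈ Ud a1 ρ :=
      (continuous_fst.tendsto (p, z)).eventually ((isOpen_Ud a1 ρ).mem_nhds hp)
    have c1 : ContinuousAt (fun q : (ℂ × ℂ) × ℂ => X0 q.1) (p, z) :=
      ContinuousAt.comp (f := fun q : (ℂ × ℂ) × ℂ => q.1) (hS.cX p hp).continuousAt
        continuousAt_fst
    have c2 : ContinuousAt (fun q : (ℂ × ℂ) × ℂ => dm q.1) (p, z) :=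
      ContinuousAt.comp (f := fun q : (ℂ × ℂ) × ℂ => q.1) (hM.cd p (hUd hp)) continuousAt_fst
    have c3 : ContinuousAt (fun q : (ℂ × ℂ) × ℂ => ‖q.2 - X0 q.1‖) (p, z) :=
      (continuousAt_snd.sub c1).norm
    have c4 : ContinuousAt (fun q : (ℂ × ℂ) × ℂ => τ * dm q.1) (p, z) :=
      continuousAt_const.mul c2
    have h2 : ∀ᶠ q : (ℂ × ℂ) × ℂ in 𝓝 (p, z), ‖q.2 - X0 q.1‖ < τ * dm q.1 :=
      c3.eventually_lt c4 hz
    exact h1.and h2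
  have hGanalytic : ∀ p ∈ U, AnalyticAt ℂ G (xO p, Y p) := fun p hp =>
    hGan _ (hx p hp.1 hp.2).2.2.2.2.2.2.2.1
  have hFanalytic : ∀ p ∈ U, AnalyticAt ℂ F p := fun p hp =>
    hFan _ (hx p hp.1 hp.2).2.2.2.2.2.2.2.2.1
  have hYd : ∀ p ∈ U, DifferentiableAt ℝ Y p := fun p hp =>
    (hS.cY p hp.1).differentiableAt one_ne_zero
  have hC1 : ∀ p ∈ U, ContDiffAt ℝ 1 xO p := by
    apply solve_C1 U hUopen S hSopen (fun q => G (q.2, Y q.1) - F q.1) xO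
    · rintro p ⟨hp, hkm⟩
      obtain ⟨k1, k2, k3, k4, k5, k6, k7, k8, k9, k10⟩ := hx p hp hkm
      refine ⟨⟨hp, ?_⟩, ?_⟩
      · show ‖xO p - X0 p‖ < τ * dm p
        refine lt_of_le_of_lt k2 ?_
        apply mul_lt_mul_of_pos_right _ k10
        linarith
      · show G (xO p, Y p) - F p = 0
        rw [k1, sub_self]
    · rintro p ⟨hp, hkm⟩ w ⟨-, hw⟩ hw2
      obtain ⟨k1, k2, k3, k4, k5, k6, k7, k8, k9, k10⟩ := hx p hp hkm
      exact k3 w hw (sub_eq_zero.mp hw2)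
    · intro p hp
      have cG : ContDiffAt ℝ 1 G (xO p, Y p) :=
        ((hGanalytic p hp).contDiffAt (n := 1)).restrict_scalars ℝ
      have cF : ContDiffAt ℝ 1 F p := ((hFanalytic p hp).contDiffAt (n := 1)).restrict_scalars ℝ
      have cY : ContDiffAt ℝ 1 (fun q : (ℂ × ℂ) × ℂ => Y q.1) (p, xO p) :=
        ContDiffAt.comp (p, xO p) (f := fun q : (ℂ × ℂ) × ℂ => q.1) (hS.cY p hp.1) contDiffAt_fst
      have c1 : ContDiffAt ℝ 1 (fun q : (ℂ × ℂ) × ℂ => G (q.2, Y q.1)) (p, xO p) :=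
        ContDiffAt.comp (p, xO p) (f := fun q : (ℂ × ℂ) × ℂ => (q.2, Y q.1)) cG
          (contDiffAt_snd.prodMk cY)
      have c2 : ContDiffAt ℝ 1 (fun q : (ℂ × ℂ) × ℂ => F q.1) (p, xO p) :=
        ContDiffAt.comp (p, xO p) (f := fun q : (ℂ × ℂ) × ℂ => q.1) cF contDiffAt_fst
      exact c1.sub c2
    · intro p hp
      obtain ⟨k1, k2, k3, k4, k5, k6, k7, k8, k9, k10⟩ := hx p hp.1 hp.2
      refine ⟨dx G (xO p, Y p), k4, fun w => ?_⟩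
      have dY : DifferentiableAt ℝ (fun q : (ℂ × ℂ) × ℂ => Y q.1) (p, xO p) :=
        DifferentiableAt.comp (p, xO p) (f := fun q : (ℂ × ℂ) × ℂ => q.1) (hYd p hp)
          differentiableAt_fst
      have h1 := fderiv_comp2 G (fun q : (ℂ × ℂ) × ℂ => q.2) (fun q : (ℂ × ℂ) × ℂ => Y q.1)
        (p, xO p) (hGanalytic p hp).differentiableAt differentiableAt_snd dY (0, w)
      have dF : DifferentiableAt ℝ F p := (hFanalytic p hp).differentiableAt.restrictScalars ℝ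
      have h2 : DifferentiableAt ℝ (fun q : (ℂ × ℂ) × ℂ => F q.1) (p, xO p) :=
        DifferentiableAt.comp (p, xO p) (f := fun q : (ℂ × ℂ) × ℂ => q.1) dF
          differentiableAt_fst
      have h3 : fderiv ℝ (fun q : (ℂ × ℂ) × ℂ => F q.1) (p, xO p) (0, w) = 0 := by
        have h4 : HasFDerivAt (fun q : (ℂ × ℂ) × ℂ => F q.1)
            ((fderiv ℝ F p).comp (ContinuousLinearMap.fst ℝ (ℂ × ℂ) ℂ)) (p, xO p) :=
          HasFDerivAt.comp (p, xO p) (f := fun q : (ℂ × ℂ) × ℂ => q.1) dF.hasFDerivAt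
            hasFDerivAt_fst
        rw [h4.fderiv]
        simp
      have h5 : fderiv ℝ (fun q : (ℂ × ℂ) × ℂ => Y q.1) (p, xO p) (0, w) = 0 := by
        have h4 : HasFDerivAt (fun q : (ℂ × ℂ) × ℂ => Y q.1)
            ((fderiv ℝ Y p).comp (ContinuousLinearMap.fst ℝ (ℂ × ℂ) ℂ)) (p, xO p) :=
          HasFDerivAt.comp (p, xO p) (f := fun q : (ℂ × ℂ) × ℂ => q.1) (hYd p hp).hasFDerivAt
            hasFDerivAt_fst
        rw [h4.fderiv]
        simp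
      have h6 : fderiv ℝ (fun q : (ℂ × ℂ) × ℂ => q.2) (p, xO p) (0, w) = w := by
        rw [fderiv_snd]; rfl
      have h7 := h1.2
      rw [h5, h6, mul_zero, add_zero] at h7
      rw [fderiv_fun_sub h1.1 h2, sub_apply, h3, sub_zero]
      exact h7
  intro p hp hkm
  have hpU : p ∈ U := ⟨hp, hkm⟩
  obtain ⟨k1, k2, k3, k4, k5, k6, k7, k8, k9, k10⟩ := hx p hp hkm
  refine ⟨k1, ?_, k3, hC1 p hpU, ?_⟩
  · refine k2.trans ?_
    exact mul_le_mul_of_nonneg_right he1e k10.le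
  · intro v' w'
    have hxd : DifferentiableAt ℝ xO p := (hC1 p hpU).differentiableAt one_ne_zero
    have h1 := (fderiv_comp2 G xO Y p (hGanalytic p hpU).differentiableAt hxd (hYd p hpU)
      (v', w')).2
    have hev : (fun q => G (xO q, Y q)) =ᶠ[𝓝 p] F := by
      filter_upwards [hUopen.mem_nhds hpU] with q hq
      exact (hx q hq.1 hq.2).1
    rw [hev.fderiv_eq, G9_rd (hFanalytic p hpU)] at h1
    have hE := hS.S3 p hp v' w'
    set X' := fderiv ℝ xO p (v', w') with hX'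
    set Y' := fderiv ℝ Y p (v', w') with hY'
    set gx := dx G (xO p, Y p) with hgx
    set gy := dy G (xO p, Y p) with hgy
    have e : X' - v' = (dx F p / gx - 1) * v' + ((dy F p - gy) / gx) * w' - (gy / gx) * (Y' - w') := by
      have h2 : X' = (dx F p * v' + dy F p * w' - gy * Y') / gx := by
        rw [eq_div_iff k4]
        linear_combination -h1
      rw [h2]
      field_simp
      ring
    rw [e]
    have n1 : ‖(dx F p / gx - 1) * v'‖ ≤ e1 * ‖v'‖ := by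
      rw [norm_mul]
      exact mul_le_mul_of_nonneg_right k5 (norm_nonneg _)
    have n2 : ‖((dy F p - gy) / gx) * w'‖ ≤ ε / 2 * ‖w'‖ := by
      rw [norm_mul]
      exact mul_le_mul_of_nonneg_right k7 (norm_nonneg _)
    have n3 : ‖(gy / gx) * (Y' - w')‖ ≤ e1 * (C1 * ‖v'‖ + δ * ‖w'‖) := by
      rw [norm_mul]
      exact mul_le_mul k6 hE (norm_nonneg _) he1.le
    have n4 : e1 * δ ≤ ε / 2 := by nlinarith
    have n5 : e1 * δ * ‖w'‖ ≤ ε / 2 * ‖w'‖ := mul_le_mul_of_nonneg_right n4 (norm_nonneg _)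
    have n6 : e1 * (1 + C1) * ‖v'‖ ≤ η1 * ‖v'‖ := by
      apply mul_le_mul_of_nonneg_right _ (norm_nonneg _)
      nlinarith
    calc ‖(dx F p / gx - 1) * v' + ((dy F p - gy) / gx) * w' - (gy / gx) * (Y' - w')‖
        ≤ ‖(dx F p / gx - 1) * v' + ((dy F p - gy) / gx) * w'‖ + ‖(gy / gx) * (Y' - w')‖ :=
          norm_sub_le _ _
      _ ≤ ‖(dx F p / gx - 1) * v'‖ + ‖((dy F p - gy) / gx) * w'‖ + ‖(gy / gx) * (Y' - w')‖ := by
          have := norm_add_le ((dx F p / gx - 1) * v') (((dy F p - gy) / gx) * w')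
          linarith
      _ ≤ η1 * ‖v'‖ + ε * ‖w'‖ := by nlinarith

end H24.LS
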