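import Pool.Agent.H24.LS.G0
import Pool.Agent.H24.LS.G4
import Pool.Agent.H24.LS.G9

/-!
# G10: the first component `X1`

`X1 = X0 + (1 - θ)(xO - X0)` with `θ` from `cut_exists` (same `K`), `xO` from `zoneO_sol` with `η' = η1/(4 + 2 Cθ)` (choose `Cθ` first,
then `η'`, then `K`, then `θ`, then `δ`).
* `km p ≤ K` (or `< 2K`): `θ = 1` near `p` (`km` continuous), so `X1 = X0` near `p`.
* `K < km p`: all functions are `C^1` at `p`.  `D X1 - v = (DX0 - v) + (1 - θ)(DxO - DX0) - Dθ (xO - X0)`; the last term has norm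
  `≤ |Dθ| η' dm p ≤ η' Cθ (‖v‖ + ε'‖w‖)`.
* `3K ≤ km p`: `θ p = 0`, `X1 p = xO p`.
(`‖X1 - X0‖ ≤ ‖xO - X0‖` resp. `0`; note `0 ≤ dm p`, from `d2`.)
-/

open Filter Topology Metric Asymptotics

namespace H24.LS

theorem G10_mono {c N : ℕ} {b : Fin c → ℝ} {γ Γ η : Fin c → ℂ → ℂ} {Y X0 : ℂ × ℂ → ℂ}
    {C1 ε ε' a ρ : ℝ} (h : SDat N b γ Γ η Y X0 C1 ε a ρ) (he : ε ≤ ε') :
    SDat N b γ Γ η Y X0 C1 ε' a ρ where
  ha := h.ha
  hρ := h.hρ
  cY := h.cY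
  cX := h.cX
  S1 := h.S1
  S2 := fun x t hp C => (h.S2 x t hp C).trans
    (mul_le_mul_of_nonneg_right he (by positivity))
  S3 := fun p hp v w => (h.S3 p hp v w).trans (by
    have := mul_le_mul_of_nonneg_right he (norm_nonneg w)
    linarith)
  S4 := fun p hp v w => (h.S4 p hp v w).trans
    (mul_le_mul_of_nonneg_right he (by positivity))

theorem G10_sub {a ρ a' ρ' : ℝ} (ha : a ≤ a') (hρ : ρ ≤ ρ') {p : ℂ × ℂ} (hp : p ∈ Ud a ρ) :
    p ∈ Ud a' ρ' :=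
  ⟨hp.1, hp.2.1.trans_le hρ, hp.2.2.trans_le (mul_le_mul_of_nonneg_right ha (norm_nonneg _))⟩

/-- the derivative of the glued function -/
theorem G10_deriv {θ : ℂ × ℂ → ℝ} {X0 xO : ℂ × ℂ → ℂ} {p : ℂ × ℂ}
    (hθ : DifferentiableAt ℝ θ p) (hX : DifferentiableAt ℝ X0 p)
    (hO : DifferentiableAt ℝ xO p) (v w : ℂ) :
    fderiv ℝ (fun q => X0 q + (1 - θ q) • (xO q - X0 q)) p (v, w) - v =
      θ p • (fderiv ℝ X0 p (v, w) - v) + (1 - θ p) • (fderiv ℝ xO p (v, w) - v)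
        - fderiv ℝ θ p (v, w) • (xO p - X0 p) := by
  have h1 : HasFDerivAt (fun q => 1 - θ q) (-fderiv ℝ θ p) p := by
    simpa using hθ.hasFDerivAt.const_sub 1
  have h2 := hO.hasFDerivAt.sub hX.hasFDerivAt
  have h3 := hX.hasFDerivAt.add (h1.smul h2)
  have h4 : fderiv ℝ (fun q => X0 q + (1 - θ q) • (xO q - X0 q)) p = _ := h3.fderiv
  rw [h4]
  simp only [add_apply, smul_apply, sub_apply, ContinuousLinearMap.smulRight_apply,
    neg_apply, Pi.sub_apply]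
  simp only [Complex.real_smul]
  push_cast
  ring

theorem X1_exists {F G : ℂ × ℂ → ℂ} {k n N : ℕ} {u : ℂ} {c : ℕ} {m : Fin c → ℕ} {b : Fin c → ℝ}
    {γ v Γ η : Fin c → ℂ → ℂ} {a : Fin c → ℂ} {D : Fin c → ℕ}
    (h : CFa F G k n N u c m b γ v Γ η a D) (hc : 1 ≤ c)
    {dm km : ℂ × ℂ → ℝ} {ρ0 : ℝ} (hM : Mins N b γ dm km ρ0) :
    ∀ C1 > (0 : ℝ), ∃ τ > (0 : ℝ), ∀ η1 > (0 : ℝ), ∃ K : ℝ, 1 ≤ K ∧ ∀ ε > (0 : ℝ), ∃ δ > (0 : ℝ),
      ∀ (a1 ρ : ℝ) (Y X0 : ℂ × ℂ → ℂ), a1 ≤ δ → ρ ≤ δ → SDat N b γ Γ η Y X0 C1 δ a1 ρ →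
      ∃ X1 : ℂ × ℂ → ℂ, ∀ p ∈ Ud a1 ρ,
        ContDiffAt ℝ 1 X1 p ∧ ‖X1 p - X0 p‖ ≤ η1 * dm p ∧
        (∀ v w : ℂ, ‖fderiv ℝ X1 p (v, w) - v‖ ≤ η1 * ‖v‖ + ε * ‖w‖) ∧
        (3 * K ≤ km p → G (X1 p, Y p) = F p ∧
          ∀ z, ‖z - X0 p‖ < τ * dm p → G (z, Y p) = F p → z = X1 p) := by
  have hN : 1 ≤ N := h.clu.hN
  intro C1 hC1
  obtain ⟨τ, hτ0, hτ⟩ := zoneO_sol h hc hM C1 hC1
  obtain ⟨Cθ, hCθ, hcut⟩ := cut_exists h hM
  refine ⟨τ, hτ0, fun η1 hη1 => ?_⟩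
  have hη' : 0 < η1 / (4 + 2 * Cθ) := by positivity
  set η' := η1 / (4 + 2 * Cθ) with hη'def
  have hη'eq : η' * (4 + 2 * Cθ) = η1 := by rw [hη'def]; field_simp
  obtain ⟨K, hK1, hK⟩ := hτ η' hη'
  refine ⟨K, hK1, fun ε hε => ?_⟩
  obtain ⟨θ, hθ⟩ := hcut K hK1
  obtain ⟨δ1, hδ1, hO⟩ := hK (ε / 4) (by positivity)
  obtain ⟨δ2, hδ2, hcutp⟩ := hθ (ε / (2 * η1)) (by positivity)
  refine ⟨min (min δ1 δ2) (min (min 1 ρ0) (min (ε / 4) (η1 / 2))), ?_, ?_⟩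
  · have := hM.h0
    positivity
  set δ := min (min δ1 δ2) (min (min 1 ρ0) (min (ε / 4) (η1 / 2))) with hδdef
  have d1 : δ ≤ δ1 := (min_le_left _ _).trans (min_le_left _ _)
  have d2 : δ ≤ δ2 := (min_le_left _ _).trans (min_le_right _ _)
  have d3 : δ ≤ 1 := (min_le_right _ _).trans ((min_le_left _ _).trans (min_le_left _ _))
  have d4 : δ ≤ ρ0 := (min_le_right _ _).trans ((min_le_left _ _).trans (min_le_right _ _))
  have d5 : δ ≤ ε / 4 := (min_le_right _ _).trans ((min_le_right _ _).trans (min_le_left _ _))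
  have d6 : δ ≤ η1 / 2 := (min_le_right _ _).trans ((min_le_right _ _).trans (min_le_right _ _))
  intro a1 ρ Y X0 ha1 hρ hS
  obtain ⟨xO, hxO⟩ := hO a1 ρ Y X0 (ha1.trans d1) (hρ.trans d1) (G10_mono hS d1)
  refine ⟨fun q => X0 q + (1 - θ q) • (xO q - X0 q), fun p hp => ?_⟩
  have hp2 : p ∈ Ud δ2 δ2 := G10_sub (ha1.trans d2) (hρ.trans d2) hp
  have hp0 : p ∈ Ud 1 ρ0 := G10_sub (ha1.trans d3) (hρ.trans d4) hp
  obtain ⟨t1, t2, t3, t4, t5, t6⟩ := hcutp p hp2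
  have hd0 : 0 ≤ dm p := by
    obtain ⟨x, y⟩ := p
    obtain ⟨t, rfl⟩ := G4_surj hN y
    obtain ⟨C, hC⟩ := hM.d2 x t hp0
    rw [hC]; exact norm_nonneg _
  have hX0d := hS.S4 p hp
  rcases lt_or_ge (km p) (2 * K) with hk | hk
  · have hev : (fun q => X0 q + (1 - θ q) • (xO q - X0 q)) =ᶠ[𝓝 p] X0 := by
      have e1 : ∀ᶠ q in 𝓝 p, km q < 2 * K := (hM.ck p hp0).eventually_lt continuousAt_const hk
      have e2 : ∀ᶠ q in 𝓝 p, q ∈ Ud δ2 δ2 := (isOpen_Ud δ2 δ2).mem_nhds hp2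
      filter_upwards [e1, e2] with q hq1 hq2
      have := (hcutp q hq2).2.2.2.1 hq1.le
      rw [this, sub_self, zero_smul, add_zero]
    refine ⟨(hS.cX p hp).congr_of_eventuallyEq hev, ?_, ?_, ?_⟩
    · have h0 := hev.eq_of_nhds
      simp only at h0 ⊢
      rw [h0, sub_self, norm_zero]; positivity
    · intro v w
      rw [hev.fderiv_eq]
      refine (hX0d v w).trans ?_
      have hv := norm_nonneg v
      have hw := norm_nonneg w
      nlinarith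
    · intro hk3
      exfalso
      linarith
  · have hkK : K < km p := by linarith
    obtain ⟨o1, o2, o3, o4, o5⟩ := hxO p hp hkK
    have hne1 : (1 : WithTop ℕ∞) ≠ 0 := one_ne_zero
    have hη'1 : η' ≤ η1 := by nlinarith
    refine ⟨?_, ?_, ?_, ?_⟩
    · exact (hS.cX p hp).add ((contDiffAt_const.sub t1).smul (o4.sub (hS.cX p hp)))
    · show ‖X0 p + (1 - θ p) • (xO p - X0 p) - X0 p‖ ≤ η1 * dm p
      rw [add_sub_cancel_left, norm_smul, Real.norm_eq_abs, abs_of_nonneg (by linarith)]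
      calc (1 - θ p) * ‖xO p - X0 p‖ ≤ 1 * (η' * dm p) := by
            apply mul_le_mul (by linarith) o2 (norm_nonneg _) zero_le_one
        _ ≤ η1 * dm p := by rw [one_mul]; exact mul_le_mul_of_nonneg_right hη'1 hd0
    · intro v w
      rw [G10_deriv (t1.differentiableAt hne1) ((hS.cX p hp).differentiableAt hne1)
        (o4.differentiableAt hne1) v w]
      have hv := norm_nonneg v
      have hw := norm_nonneg w
      have n1 : ‖θ p • (fderiv ℝ X0 p (v, w) - v)‖ ≤ δ * (‖v‖ + ‖w‖) := by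
        rw [norm_smul, Real.norm_eq_abs, abs_of_nonneg t2]
        calc θ p * ‖fderiv ℝ X0 p (v, w) - v‖ ≤ 1 * (δ * (‖v‖ + ‖w‖)) := by
              apply mul_le_mul t3 (hX0d v w) (norm_nonneg _) zero_le_one
          _ = _ := one_mul _
      have n2 : ‖(1 - θ p) • (fderiv ℝ xO p (v, w) - v)‖ ≤ η' * ‖v‖ + ε / 4 * ‖w‖ := by
        rw [norm_smul, Real.norm_eq_abs, abs_of_nonneg (by linarith)]
        calc (1 - θ p) * ‖fderiv ℝ xO p (v, w) - v‖ ≤ 1 * (η' * ‖v‖ + ε / 4 * ‖w‖) := by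
              apply mul_le_mul (by linarith) (o5 v w) (norm_nonneg _) zero_le_one
          _ = _ := one_mul _
      have n3 : ‖fderiv ℝ θ p (v, w) • (xO p - X0 p)‖ ≤
          η' * (Cθ * (‖v‖ + ε / (2 * η1) * ‖w‖)) := by
        rw [norm_smul, Real.norm_eq_abs]
        calc |fderiv ℝ θ p (v, w)| * ‖xO p - X0 p‖ ≤ |fderiv ℝ θ p (v, w)| * (η' * dm p) :=
              mul_le_mul_of_nonneg_left o2 (abs_nonneg _)
          _ = η' * (|fderiv ℝ θ p (v, w)| * dm p) := by ring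
          _ ≤ _ := mul_le_mul_of_nonneg_left (t6 v w) hη'.le
      have n4 : η' * Cθ ≤ η1 / 2 := by nlinarith
      have n5 : η' * (1 + Cθ) ≤ η1 / 2 := by nlinarith
      have n6 : η' * (Cθ * (‖v‖ + ε / (2 * η1) * ‖w‖)) ≤ η' * Cθ * ‖v‖ + ε / 4 * ‖w‖ := by
        have e1 : η' * Cθ * (ε / (2 * η1)) ≤ η1 / 2 * (ε / (2 * η1)) :=
          mul_le_mul_of_nonneg_right n4 (by positivity)
        have e2 : η1 / 2 * (ε / (2 * η1)) = ε / 4 := by field_simp; ring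
        rw [e2] at e1
        have e3 := mul_le_mul_of_nonneg_right e1 hw
        calc _ = η' * Cθ * ‖v‖ + η' * Cθ * (ε / (2 * η1)) * ‖w‖ := by ring
          _ ≤ _ := by linarith
      have m1 := mul_le_mul_of_nonneg_right d6 hv
      have m2 := mul_le_mul_of_nonneg_right d5 hw
      have m3 := mul_le_mul_of_nonneg_right n5 hv
      calc _ ≤ ‖θ p • (fderiv ℝ X0 p (v, w) - v)‖ + ‖(1 - θ p) • (fderiv ℝ xO p (v, w) - v)‖
            + ‖fderiv ℝ θ p (v, w) • (xO p - X0 p)‖ :=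
              (norm_sub_le _ _).trans (add_le_add_left (norm_add_le _ _) _)
        _ ≤ δ * (‖v‖ + ‖w‖) + (η' * ‖v‖ + ε / 4 * ‖w‖) + (η' * Cθ * ‖v‖ + ε / 4 * ‖w‖) := by
              linarith
        _ ≤ η1 * ‖v‖ + ε * ‖w‖ := by nlinarith
    · intro hk3
      have hθ0 := t5 hk3
      have e1 : X0 p + (1 - θ p) • (xO p - X0 p) = xO p := by
        rw [hθ0, sub_zero, one_smul]; ring
      simp only
      rw [e1]
      exact ⟨o1, o3⟩

end H24.LS
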