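import Pool.Agent.H24.LS.G0
import Pool.Agent.H24.LS.F1
import Pool.Agent.H24.LS.G7

/-!
# G11: solution for `y'` in zone I (pointwise)

Notation: `s = ‖t‖^(b C)`, `V = v C t`, `E(σ) = cE e m b γ C σ t`.  For every `R ≥ 1`: `E(R s) ≤ C_R ‖V‖` (`cE_scale`, `E(s) ≤ 2^n E(0)`
because `s ≤ ‖γ_C - γ_{C'}‖` for `C' ≠ C` and small `t`, `bal`).
* `F`: `Clu.F1`: `‖dx F‖ ≤ C ‖V‖` on the segment from `γ_C` to `x`; `Clu.F3`: `‖dy F (x,t^N) - V‖ ≤ ε ‖V‖`.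
* `G` at `(X', y')` with `‖X' - Γ_C‖ ≤ 3 K s`, `‖y' - η_C‖ ≤ R' s`: it is `Adm C2` (`C2 = C2(K,R')`): for `C' ≠ C`
  `‖y' - η_{C'}‖ ≤ R' s + L' ‖γ_C - γ_{C'}‖` and `‖X' - Γ_{C'}‖ ≥ ‖Γ_C - Γ_{C'}‖ - 3 K s ≥ ‖γ_C - γ_{C'}‖/4` (`Γpair`, `sep`).  So
  `‖dx G‖ ≤ C(K,R') ‖V‖` (`G1`) and `‖dy G - V‖ ≤ ε ‖V‖` (`G3`).
* `e1 = F (x,t^N) - G (X1,Y)`: `‖F (x,t^N) - F (γ_C,t^N)‖ ≤ K s C ‖V‖`; `G (X1,Y) - G (Γ_C,η_C)` along `(Γ_C,η_C) → (X1,η_C) → (X1,Y)`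
  (`‖Y - η_C‖ ≤ C1 (1 + K) s`): so `‖e1‖ ≤ C3 ‖V‖ s`, `C3 = C3(K, C1)`.
* `newton1` for `g = G (X1, ·)`, `z0 = Y`, `a = V` (`≠ 0`: `bal` and positivity, or `vord`), `r = R s`, `R = 4 C3 + 1`; solution with
  `‖y' - Y‖ ≤ 2 C3 s ≤ (R/2) s`.  If `Y` itself is a solution then it is the unique one.
-/

open Filter Topology Metric Asymptotics

namespace H24.LS

private theorem G11_ev {P : ℂ → Prop} (h : ∀ᶠ t in 𝓝[≠] (0 : ℂ), P t) :
    ∃ δ > (0 : ℝ), ∀ t : ℂ, 0 < ‖t‖ → ‖t‖ < δ → P t := by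
  rw [eventually_nhdsWithin_iff, Metric.eventually_nhds_iff] at h
  obtain ⟨δ, hδ, hP⟩ := h
  refine ⟨δ, hδ, fun t h1 h2 => hP (by simpa using h2) ?_⟩
  exact norm_pos_iff.1 h1

private theorem G11_ev' {P : ℂ → Prop} (h : ∃ δ > (0 : ℝ), ∀ t : ℂ, 0 < ‖t‖ → ‖t‖ < δ → P t) :
    ∀ᶠ t in 𝓝[≠] (0 : ℂ), P t := by
  obtain ⟨δ, hδ, hP⟩ := h
  rw [eventually_nhdsWithin_iff, Metric.eventually_nhds_iff]
  exact ⟨δ, hδ, fun t h1 h2 => hP t (norm_pos_iff.2 h2) (by simpa using h1)⟩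

/-- powers -/
private theorem G11_pow {N : ℕ} {b : ℝ} (hb : (N : ℝ) < b) (κ : ℝ) (hκ : 0 < κ) :
    ∀ᶠ t in 𝓝[≠] (0 : ℂ), ‖t‖ ^ b ≤ κ * ‖t‖ ^ N := by
  have hto : Tendsto (fun t : ℂ => ‖t‖ ^ (b - N)) (𝓝[≠] 0) (𝓝 0) := by
    have hc : ContinuousAt (fun t : ℂ => ‖t‖ ^ (b - N)) 0 :=
      continuous_norm.continuousAt.rpow_const (Or.inr (by linarith))
    have h0 : ‖(0 : ℂ)‖ ^ (b - N) = 0 := by
      rw [norm_zero]
      exact Real.zero_rpow (by linarith)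
    have := hc.tendsto
    rw [h0] at this
    exact this.mono_left nhdsWithin_le_nhds
  filter_upwards [hto.eventually (gt_mem_nhds hκ), self_mem_nhdsWithin] with t h1 h2
  have hpos : 0 < ‖t‖ := norm_pos_iff.2 h2
  have h3 : ‖t‖ ^ b = ‖t‖ ^ (b - N) * ‖t‖ ^ N := by
    rw [← Real.rpow_natCast, ← Real.rpow_add hpos]; congr 1; ring
  rw [h3]
  exact mul_le_mul_of_nonneg_right h1.le (by positivity)

private theorem G11_npow (N : ℕ) (hN : 1 ≤ N) (κ : ℝ) (hκ : 0 < κ) :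
    ∀ᶠ t in 𝓝[≠] (0 : ℂ), ‖t‖ ^ N ≤ κ := by
  have hto : Tendsto (fun t : ℂ => ‖t‖ ^ N) (𝓝 0) (𝓝 0) := by
    have hc : Continuous (fun t : ℂ => ‖t‖ ^ N) := by fun_prop
    have := hc.tendsto 0
    simpa [zero_pow (show N ≠ 0 by omega)] using this
  exact ((hto.eventually (gt_mem_nhds hκ)).mono fun t ht => ht.le).filter_mono nhdsWithin_le_nhds

private theorem G11_sm {f : ℂ → ℂ} {N : ℕ} (h : f =o[𝓝[≠] 0] (fun t : ℂ => t ^ N)) (κ : ℝ)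
    (hκ : 0 < κ) : ∀ᶠ t in 𝓝[≠] (0 : ℂ), ‖f t‖ ≤ κ * ‖t‖ ^ N := by
  filter_upwards [isLittleO_iff.1 h hκ] with t ht
  rwa [norm_pow] at ht

/-- the size of `cE` near the centre -/
private theorem G11_E {F : ℂ × ℂ → ℂ} {k n N : ℕ} {u : ℂ} {c : ℕ} {m : Fin c → ℕ}
    {b : Fin c → ℝ} {g v : Fin c → ℂ → ℂ} {a : Fin c → ℂ} {D : Fin c → ℕ}
    (h : Clu F k n N u c m b g v a D) :
    ∃ c2 > (0 : ℝ), ∀ᶠ t in 𝓝[≠] (0 : ℂ), ∀ C, 0 < ‖v C t‖ ∧ ∀ R0 : ℝ, 1 ≤ R0 → ∀ σ : ℝ,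
      0 ≤ σ → σ ≤ R0 * ‖t‖ ^ (b C) →
      cE (N * (k - 1 - n)) m b g C σ t ≤ (2 * R0) ^ n * c2 * ‖v C t‖ := by
  obtain ⟨c1, hc1, c2, hc2, hbal⟩ := h.bal
  have hsep : ∀ᶠ t in 𝓝[≠] (0 : ℂ), ∀ C C', C ≠ C' → ‖t‖ ^ (b C) ≤ ‖g C t - g C' t‖ := by
    rw [eventually_all]; intro C
    rw [eventually_all]; intro C'
    by_cases hCC : C = C'
    · exact Eventually.of_forall fun t hh => absurd hCC hh
    · filter_upwards [isLittleO_iff.1 (h.sep C C' hCC) one_pos] with t ht _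
      rwa [Real.norm_of_nonneg (by positivity), one_mul] at ht
  refine ⟨c2, hc2, ?_⟩
  filter_upwards [hbal, hsep, self_mem_nhdsWithin] with t h1 h2 h3 C
  have hpos : 0 < ‖t‖ := norm_pos_iff.2 h3
  set e := N * (k - 1 - n) with he
  have hS : ∀ C', 0 < ‖t‖ ^ (b C') := fun C' => by positivity
  have hE0 : 0 < cE e m b g C 0 t := by
    unfold cE
    refine mul_pos (by positivity) (Finset.prod_pos fun C' _ => ?_)
    have := hS C'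
    have := norm_nonneg (g C t - g C' t)
    positivity
  have hE1 := (h1 C).2
  have hV : 0 < ‖v C t‖ := by
    by_contra hcon
    have h4 : ‖v C t‖ = 0 := le_antisymm (not_lt.1 hcon) (norm_nonneg _)
    rw [h4, mul_zero] at hE1
    linarith
  refine ⟨hV, fun R0 hR0 σ hσ0 hσ => ?_⟩
  have hEs : cE e m b g C (‖t‖ ^ (b C)) t ≤ 2 ^ n * cE e m b g C 0 t := by
    unfold cE
    have h5 : ∏ C', (‖t‖ ^ (b C) + ‖t‖ ^ (b C') + ‖g C t - g C' t‖) ^ m C' ≤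
        ∏ C', (2 * (0 + ‖t‖ ^ (b C') + ‖g C t - g C' t‖)) ^ m C' := by
      refine Finset.prod_le_prod (fun C' _ => by positivity) (fun C' _ => ?_)
      refine pow_le_pow_left₀ (by positivity) ?_ _
      by_cases hCC : C = C'
      · subst hCC
        rw [sub_self, norm_zero]
        linarith
      · have := h2 C C' hCC
        have := hS C'
        linarith
    have h6 : ∏ C', (2 * (0 + ‖t‖ ^ (b C') + ‖g C t - g C' t‖)) ^ m C' =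
        2 ^ n * ∏ C', (0 + ‖t‖ ^ (b C') + ‖g C t - g C' t‖) ^ m C' := by
      simp_rw [mul_pow]
      rw [Finset.prod_mul_distrib, Finset.prod_pow_eq_pow_sum, h.hmn]
    rw [h6] at h5
    calc ‖t‖ ^ e * ∏ C', (‖t‖ ^ (b C) + ‖t‖ ^ (b C') + ‖g C t - g C' t‖) ^ m C'
        ≤ ‖t‖ ^ e * (2 ^ n * ∏ C', (0 + ‖t‖ ^ (b C') + ‖g C t - g C' t‖) ^ m C') :=
          mul_le_mul_of_nonneg_left h5 (by positivity)
      _ = _ := by ring
  have h7 : cE e m b g C σ t ≤ cE e m b g C (R0 * ‖t‖ ^ (b C)) t := cE_mono _ _ _ _ _ _ _ _ hσ0 hσ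
  have h8 := cE_scale e m b g C t R0 (‖t‖ ^ (b C)) hR0 (hS C).le
  rw [h.hmn] at h8
  have hR : 0 < R0 ^ n := by positivity
  calc cE e m b g C σ t ≤ R0 ^ n * cE e m b g C (‖t‖ ^ (b C)) t := h7.trans h8
    _ ≤ R0 ^ n * (2 ^ n * (c2 * ‖v C t‖)) := by
        refine mul_le_mul_of_nonneg_left (hEs.trans ?_) hR.le
        exact mul_le_mul_of_nonneg_left hE1 (by positivity)
    _ = (2 * R0) ^ n * c2 * ‖v C t‖ := by rw [mul_pow]; ring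

/-- analytic germs are differentiable near `0` -/
private theorem G11_an {F : ℂ × ℂ → ℂ} (h : AnalyticAt ℂ F 0) :
    ∃ δ > (0 : ℝ), ∀ x y : ℂ, ‖x‖ < δ → ‖y‖ < δ → DifferentiableAt ℂ F (x, y) := by
  have h1 := h.eventually_analyticAt
  rw [Metric.eventually_nhds_iff] at h1
  obtain ⟨δ, hδ, hP⟩ := h1
  refine ⟨δ, hδ, fun x y hx hy => (hP ?_).differentiableAt⟩
  rw [dist_zero_right, Prod.norm_def]
  exact max_lt hx hy

private theorem G11_dx {F : ℂ × ℂ → ℂ} {x y : ℂ} (h : DifferentiableAt ℂ F (x, y)) :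
    HasDerivAt (fun z => F (z, y)) (dx F (x, y)) x := by
  have h1 : HasDerivAt (fun z : ℂ => (z, y)) ((1 : ℂ), (0 : ℂ)) x :=
    (hasDerivAt_id x).prodMk (hasDerivAt_const x y)
  exact h.hasFDerivAt.comp_hasDerivAt x h1

private theorem G11_dy {F : ℂ × ℂ → ℂ} {x y : ℂ} (h : DifferentiableAt ℂ F (x, y)) :
    HasDerivAt (fun z => F (x, z)) (dy F (x, y)) y := by
  have h1 : HasDerivAt (fun z : ℂ => (x, z)) ((0 : ℂ), (1 : ℂ)) y :=
    (hasDerivAt_const y x).prodMk (hasDerivAt_id y)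
  exact h.hasFDerivAt.comp_hasDerivAt y h1

/-- `F` near a centre -/
private theorem G11_F {F : ℂ × ℂ → ℂ} {k n N : ℕ} {u : ℂ} {c : ℕ} {m : Fin c → ℕ}
    {b : Fin c → ℝ} {g v : Fin c → ℂ → ℂ} {a : Fin c → ℂ} {D : Fin c → ℕ}
    (h : Clu F k n N u c m b g v a D) (K : ℝ) (hK : 1 ≤ K) :
    ∃ M > (0 : ℝ), ∀ ε > (0 : ℝ), ∀ᶠ t in 𝓝[≠] (0 : ℂ), ∀ C, ∀ x : ℂ,
      ‖x - g C t‖ ≤ K * ‖t‖ ^ (b C) → DifferentiableAt ℂ F (x, t ^ N) ∧
      ‖dx F (x, t ^ N)‖ ≤ M * ‖v C t‖ ∧ ‖dy F (x, t ^ N) - v C t‖ ≤ ε * ‖v C t‖ := by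
  obtain ⟨C0, hC0, δ1, hδ1, hF1⟩ := h.F1
  obtain ⟨c2, hc2, hE⟩ := G11_E h
  obtain ⟨δ0, hδ0, han⟩ := G11_an h.an
  refine ⟨C0 * ((2 * K) ^ n * c2), by positivity, fun ε hε => ?_⟩
  obtain ⟨δ2, hδ2, hF3⟩ := h.F3 (ε / (1 + (2 * K) ^ n * c2)) (by positivity)
  set κ : ℝ := min δ1 (min δ2 1) / (4 * K) with hκ
  have hκ0 : 0 < κ := by positivity
  have hgs : ∀ᶠ t in 𝓝[≠] (0 : ℂ), ∀ C, ‖g C t‖ ≤ κ * ‖t‖ ^ N := by
    rw [eventually_all]; exact fun C => G11_sm (h.gsm C) κ hκ0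
  have hbs : ∀ᶠ t in 𝓝[≠] (0 : ℂ), ∀ C, ‖t‖ ^ (b C) ≤ κ * ‖t‖ ^ N := by
    rw [eventually_all]; exact fun C => G11_pow (h.hb C) κ hκ0
  have hts : ∀ᶠ t in 𝓝[≠] (0 : ℂ), ‖t‖ < min δ1 δ2 := by
    have : ∀ᶠ t in 𝓝 (0 : ℂ), ‖t‖ < min δ1 δ2 := by
      filter_upwards [Metric.ball_mem_nhds (0 : ℂ) (lt_min hδ1 hδ2)] with t ht
      simpa using ht
    exact this.filter_mono nhdsWithin_le_nhds
  filter_upwards [hE, hgs, hbs, hts, G11_npow N h.hN (δ0 / 2) (by positivity),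
    self_mem_nhdsWithin] with t h1 h2 h3 h4 h5 h6 C x hx
  have hpos : 0 < ‖t‖ := norm_pos_iff.2 h6
  have htN : 0 < ‖t‖ ^ N := by positivity
  have hxn : ‖x‖ ≤ min δ1 (min δ2 1) / 2 * ‖t‖ ^ N := by
    have e1 : ‖x‖ ≤ ‖g C t‖ + ‖x - g C t‖ := by
      have : x = g C t + (x - g C t) := by ring
      calc ‖x‖ = ‖g C t + (x - g C t)‖ := by rw [← this]
        _ ≤ _ := norm_add_le _ _
    have e2 : K * ‖t‖ ^ (b C) ≤ K * (κ * ‖t‖ ^ N) :=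
      mul_le_mul_of_nonneg_left (h3 C) (by linarith)
    have e3 : ‖g C t‖ ≤ K * (κ * ‖t‖ ^ N) := by
      refine (h2 C).trans ?_
      have : 0 ≤ κ * ‖t‖ ^ N := by positivity
      nlinarith
    have e4 : K * (κ * ‖t‖ ^ N) = min δ1 (min δ2 1) / 4 * ‖t‖ ^ N := by
      rw [hκ]; field_simp
    rw [e4] at e2 e3
    calc ‖x‖ ≤ min δ1 (min δ2 1) / 4 * ‖t‖ ^ N + min δ1 (min δ2 1) / 4 * ‖t‖ ^ N := by
          linarith
      _ = _ := by ring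
  have hm0 : 0 < min δ1 (min δ2 1) := by positivity
  have hxd : ∀ δ : ℝ, min δ1 (min δ2 1) ≤ δ → ‖x‖ < δ * ‖t‖ ^ N := by
    intro δ hδ
    have : min δ1 (min δ2 1) / 2 * ‖t‖ ^ N < δ * ‖t‖ ^ N :=
      mul_lt_mul_of_pos_right (by linarith) htN
    linarith
  have hx1 := hxd δ1 (min_le_left _ _)
  have hx2 := hxd δ2 ((min_le_right _ _).trans (min_le_left _ _))
  have hx3 := hxd 1 ((min_le_right _ _).trans (min_le_right _ _))
  have hEx := (h1 C).2 K hK ‖x - g C t‖ (norm_nonneg _) hx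
  have hV := (h1 C).1
  refine ⟨han x (t ^ N) (by linarith) (by rw [norm_pow]; linarith), ?_, ?_⟩
  · refine (hF1 x t hpos (lt_of_lt_of_le h4 (min_le_left _ _)) hx1 C).trans ?_
    calc C0 * cE (N * (k - 1 - n)) m b g C ‖x - g C t‖ t
        ≤ C0 * ((2 * K) ^ n * c2 * ‖v C t‖) := mul_le_mul_of_nonneg_left hEx hC0.le
      _ = _ := by ring
  · refine (hF3 x t hpos (lt_of_lt_of_le h4 (min_le_right _ _)) hx2 C).trans ?_
    calc ε / (1 + (2 * K) ^ n * c2) * (‖v C t‖ + cE (N * (k - 1 - n)) m b g C ‖x - g C t‖ t)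
        ≤ ε / (1 + (2 * K) ^ n * c2) * (‖v C t‖ + (2 * K) ^ n * c2 * ‖v C t‖) :=
          mul_le_mul_of_nonneg_left (by linarith) (by positivity)
      _ = ε * ‖v C t‖ := by field_simp

/-- admissible points -/
private theorem G11_adm {F G : ℂ × ℂ → ℂ} {k n N : ℕ} {u : ℂ} {c : ℕ} {m : Fin c → ℕ}
    {b : Fin c → ℝ} {γ v Γ η : Fin c → ℂ → ℂ} {a : Fin c → ℂ} {D : Fin c → ℕ}
    (h : CFa F G k n N u c m b γ v Γ η a D) (K R' : ℝ) (hK : 1 ≤ K) (hR' : 0 ≤ R') :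
    ∃ C2 > (0 : ℝ), ∀ᶠ t in 𝓝[≠] (0 : ℂ), ∀ C, ∀ X y : ℂ,
      ‖X - Γ C t‖ ≤ 3 * K * ‖t‖ ^ (b C) → ‖y - η C t‖ ≤ R' * ‖t‖ ^ (b C) →
      Adm C2 b Γ η t (X, y) := by
  have hL : ∃ L > (0 : ℝ), ∀ᶠ t in 𝓝[≠] (0 : ℂ), ∀ C C',
      ‖η C t - η C' t‖ ≤ L * ‖γ C t - γ C' t‖ := by
    have h1 : ∀ C C', ∃ L > (0 : ℝ), ∀ᶠ t in 𝓝[≠] (0 : ℂ),
        ‖η C t - η C' t‖ ≤ L * ‖γ C t - γ C' t‖ := fun C C' => by
      obtain ⟨L, hL, hLb⟩ := (h.ηpair C C').exists_pos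
      exact ⟨L, hL, hLb.bound⟩
    choose L hL1 hL2 using h1
    refine ⟨1 + ∑ C, ∑ C', L C C', ?_, ?_⟩
    · have : 0 ≤ ∑ C, ∑ C', L C C' :=
        Finset.sum_nonneg fun C _ => Finset.sum_nonneg fun C' _ => (hL1 C C').le
      linarith
    · rw [eventually_all]; intro C
      rw [eventually_all]; intro C'
      filter_upwards [hL2 C C'] with t ht
      refine ht.trans (mul_le_mul_of_nonneg_right ?_ (norm_nonneg _))
      have e1 : L C C' ≤ ∑ C', L C C' :=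
        Finset.single_le_sum (f := fun C' => L C C') (fun C' _ => (hL1 C C').le)
          (Finset.mem_univ C')
      have e2 : ∑ C', L C C' ≤ ∑ C, ∑ C', L C C' :=
        Finset.single_le_sum (f := fun C => ∑ C', L C C')
          (fun C _ => Finset.sum_nonneg fun C' _ => (hL1 C C').le) (Finset.mem_univ C)
      linarith
  obtain ⟨L, hL0, hL⟩ := hL
  have hsep : ∀ᶠ t in 𝓝[≠] (0 : ℂ), ∀ C C', C ≠ C' →
      ‖t‖ ^ (b C) ≤ 1 / (12 * K) * ‖γ C t - γ C' t‖ := by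
    rw [eventually_all]; intro C
    rw [eventually_all]; intro C'
    by_cases hCC : C = C'
    · exact Eventually.of_forall fun t hh => absurd hCC hh
    · filter_upwards [isLittleO_iff.1 (h.clu.sep C C' hCC)
        (show (0 : ℝ) < 1 / (12 * K) by positivity)] with t ht _
      rwa [Real.norm_of_nonneg (by positivity)] at ht
  have hΓ : ∀ᶠ t in 𝓝[≠] (0 : ℂ), ∀ C C',
      ‖(Γ C t - Γ C' t) - (γ C t - γ C' t)‖ ≤ 1 / 4 * ‖γ C t - γ C' t‖ := by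
    rw [eventually_all]; intro C
    rw [eventually_all]; intro C'
    exact isLittleO_iff.1 (h.Γpair C C') (by norm_num)
  refine ⟨2 * (R' + L), by positivity, ?_⟩
  filter_upwards [hL, hsep, hΓ, self_mem_nhdsWithin] with t h1 h2 h3 h4 C X y hX hy C'
  have hpos : 0 < ‖t‖ := norm_pos_iff.2 h4
  have hS : ∀ C, 0 < ‖t‖ ^ (b C) := fun C => by positivity
  show ‖y - η C' t‖ ≤ 2 * (R' + L) * (‖t‖ ^ (b C') + ‖X - Γ C' t‖)
  by_cases hCC : C = C'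
  · subst hCC
    have e1 := norm_nonneg (X - Γ C t)
    have e2 := hS C
    have e3 : 0 ≤ L * (‖t‖ ^ (b C) + ‖X - Γ C t‖) := by positivity
    have e4 : 0 ≤ R' * ‖X - Γ C t‖ := by positivity
    have e5 : 0 ≤ R' * ‖t‖ ^ (b C) := by positivity
    nlinarith
  · set d := ‖γ C t - γ C' t‖ with hd
    have hd0 : 0 ≤ d := norm_nonneg _
    have e1 := h2 C C' hCC
    rw [one_div, inv_mul_eq_div, le_div_iff₀ (by positivity)] at e1
    have e2 : ‖y - η C' t‖ ≤ R' * ‖t‖ ^ (b C) + L * d := by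
      have : y - η C' t = (y - η C t) + (η C t - η C' t) := by ring
      rw [this]
      exact (norm_add_le _ _).trans (add_le_add hy (h1 C C'))
    have e3 : 3 / 4 * d ≤ ‖Γ C t - Γ C' t‖ := by
      have e4 := h3 C C'
      have e5 : d ≤ ‖Γ C t - Γ C' t‖ + ‖(Γ C t - Γ C' t) - (γ C t - γ C' t)‖ := by
        have : γ C t - γ C' t = (Γ C t - Γ C' t) - ((Γ C t - Γ C' t) - (γ C t - γ C' t)) := by
          ring
        calc d = ‖(Γ C t - Γ C' t) - ((Γ C t - Γ C' t) - (γ C t - γ C' t))‖ := by rw [← this]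
          _ ≤ _ := norm_sub_le _ _
      linarith
    have e6 : ‖Γ C t - Γ C' t‖ ≤ ‖X - Γ C' t‖ + ‖X - Γ C t‖ := by
      have : Γ C t - Γ C' t = (X - Γ C' t) - (X - Γ C t) := by ring
      rw [this]
      exact norm_sub_le _ _
    have e7 : d / 2 ≤ ‖X - Γ C' t‖ := by
      have : 3 * K * ‖t‖ ^ (b C) ≤ d / 4 := by nlinarith
      linarith
    have e8 : ‖t‖ ^ (b C) ≤ d := by
      have := hS C
      nlinarith
    have e9 : R' * ‖t‖ ^ (b C) ≤ R' * d := mul_le_mul_of_nonneg_left e8 hR'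
    have e10 : 0 ≤ (R' + L) * ‖t‖ ^ (b C') := by have := hS C'; positivity
    have e11 : (R' + L) * (d / 2) ≤ (R' + L) * ‖X - Γ C' t‖ :=
      mul_le_mul_of_nonneg_left e7 (by positivity)
    nlinarith

/-- `G` near a centre -/
private theorem G11_G {F G : ℂ × ℂ → ℂ} {k n N : ℕ} {u : ℂ} {c : ℕ} {m : Fin c → ℕ}
    {b : Fin c → ℝ} {γ v Γ η : Fin c → ℂ → ℂ} {a : Fin c → ℂ} {D : Fin c → ℕ}
    (h : CFa F G k n N u c m b γ v Γ η a D) (K R' : ℝ) (hK : 1 ≤ K) (hR' : 0 ≤ R') :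
    ∃ M > (0 : ℝ), ∀ ε > (0 : ℝ), ∀ᶠ t in 𝓝[≠] (0 : ℂ), ∀ C, ∀ X y : ℂ,
      ‖X - Γ C t‖ ≤ 3 * K * ‖t‖ ^ (b C) → ‖y - η C t‖ ≤ R' * ‖t‖ ^ (b C) →
      DifferentiableAt ℂ G (X, y) ∧ ‖dx G (X, y)‖ ≤ M * ‖v C t‖ ∧
      ‖dy G (X, y) - v C t‖ ≤ ε * ‖v C t‖ := by
  obtain ⟨C2, hC2, hadm⟩ := G11_adm h K R' hK hR'
  obtain ⟨C0, hC0, δ1, hδ1, hG1⟩ := h.G1 C2 hC2
  obtain ⟨c2, hc2, hE⟩ := G11_E h.clu
  obtain ⟨δ0, hδ0, han⟩ := G11_an h.anG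
  have hK3 : 1 ≤ 3 * K := by linarith
  refine ⟨C0 * ((2 * (3 * K)) ^ n * c2), by positivity, fun ε hε => ?_⟩
  obtain ⟨δ2, hδ2, hG3⟩ := h.G3 C2 hC2 (ε / (1 + (2 * (3 * K)) ^ n * c2)) (by positivity)
  set κ : ℝ := min δ1 (min δ2 1) / (4 * (3 * K)) with hκ
  have hκ0 : 0 < κ := by positivity
  have hgs : ∀ᶠ t in 𝓝[≠] (0 : ℂ), ∀ C, ‖Γ C t‖ ≤ κ * ‖t‖ ^ N := by
    rw [eventually_all]; exact fun C => G11_sm (h.Γsm C) κ hκ0
  have hηs : ∀ᶠ t in 𝓝[≠] (0 : ℂ), ∀ C, ‖η C t - t ^ N‖ ≤ 1 * ‖t‖ ^ N := by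
    rw [eventually_all]; exact fun C => G11_sm (h.ηsm C) 1 one_pos
  have hbs : ∀ᶠ t in 𝓝[≠] (0 : ℂ), ∀ C, ‖t‖ ^ (b C) ≤ κ * ‖t‖ ^ N := by
    rw [eventually_all]; exact fun C => G11_pow (h.clu.hb C) κ hκ0
  have hbs2 : ∀ᶠ t in 𝓝[≠] (0 : ℂ), ∀ C, ‖t‖ ^ (b C) ≤ 1 / (R' + 1) * ‖t‖ ^ N := by
    rw [eventually_all]; exact fun C => G11_pow (h.clu.hb C) _ (by positivity)
  have hts : ∀ᶠ t in 𝓝[≠] (0 : ℂ), ‖t‖ < min δ1 δ2 := by
    have : ∀ᶠ t in 𝓝 (0 : ℂ), ‖t‖ < min δ1 δ2 := by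
      filter_upwards [Metric.ball_mem_nhds (0 : ℂ) (lt_min hδ1 hδ2)] with t ht
      simpa using ht
    exact this.filter_mono nhdsWithin_le_nhds
  filter_upwards [hE, hgs, hbs, hts, G11_npow N h.clu.hN (δ0 / 4) (by positivity),
    self_mem_nhdsWithin, hηs, hbs2, hadm] with t h1 h2 h3 h4 h5 h6 h7 h8 h9 C x y hx hy
  have hpos : 0 < ‖t‖ := norm_pos_iff.2 h6
  have htN : 0 < ‖t‖ ^ N := by positivity
  have hS : 0 < ‖t‖ ^ (b C) := by positivity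
  have hxn : ‖x‖ ≤ min δ1 (min δ2 1) / 2 * ‖t‖ ^ N := by
    have e1 : ‖x‖ ≤ ‖Γ C t‖ + ‖x - Γ C t‖ := by
      have : x = Γ C t + (x - Γ C t) := by ring
      calc ‖x‖ = ‖Γ C t + (x - Γ C t)‖ := by rw [← this]
        _ ≤ _ := norm_add_le _ _
    have e2 : (3 * K) * ‖t‖ ^ (b C) ≤ (3 * K) * (κ * ‖t‖ ^ N) :=
      mul_le_mul_of_nonneg_left (h3 C) (by linarith)
    have e3 : ‖Γ C t‖ ≤ (3 * K) * (κ * ‖t‖ ^ N) := by
      refine (h2 C).trans ?_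
      have : 0 ≤ κ * ‖t‖ ^ N := by positivity
      nlinarith
    have e4 : (3 * K) * (κ * ‖t‖ ^ N) = min δ1 (min δ2 1) / 4 * ‖t‖ ^ N := by
      rw [hκ]; field_simp
    rw [e4] at e2 e3
    calc ‖x‖ ≤ min δ1 (min δ2 1) / 4 * ‖t‖ ^ N + min δ1 (min δ2 1) / 4 * ‖t‖ ^ N := by
          linarith
      _ = _ := by ring
  have hm0 : 0 < min δ1 (min δ2 1) := by positivity
  have hxd : ∀ δ : ℝ, min δ1 (min δ2 1) ≤ δ → ‖x‖ < δ * ‖t‖ ^ N := by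
    intro δ hδ
    have : min δ1 (min δ2 1) / 2 * ‖t‖ ^ N < δ * ‖t‖ ^ N :=
      mul_lt_mul_of_pos_right (by linarith) htN
    linarith
  have hx1 := hxd δ1 (min_le_left _ _)
  have hx2 := hxd δ2 ((min_le_right _ _).trans (min_le_left _ _))
  have hx3 := hxd 1 ((min_le_right _ _).trans (min_le_right _ _))
  have hyn : ‖y‖ ≤ 3 * ‖t‖ ^ N := by
    have e1 : ‖y‖ ≤ ‖t ^ N‖ + ‖η C t - t ^ N‖ + ‖y - η C t‖ := by
      have : y = t ^ N + (η C t - t ^ N) + (y - η C t) := by ring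
      calc ‖y‖ = ‖t ^ N + (η C t - t ^ N) + (y - η C t)‖ := by rw [← this]
        _ ≤ _ := norm_add₃_le
    have e2 : R' * ‖t‖ ^ (b C) ≤ ‖t‖ ^ N := by
      have e3 := h8 C
      rw [one_div, inv_mul_eq_div, le_div_iff₀ (by positivity)] at e3
      nlinarith
    have e4 := h7 C
    rw [norm_pow] at e1
    linarith
  have hEx := (h1 C).2 (3 * K) hK3 ‖x - Γ C t‖ (norm_nonneg _) hx
  have hV := (h1 C).1
  have hA := h9 C x y hx hy
  refine ⟨han x y (by linarith) (by linarith), ?_, ?_⟩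
  · refine (hG1 t (x, y) hpos (lt_of_lt_of_le h4 (min_le_left _ _)) hx1 hA C).trans ?_
    calc C0 * cE (N * (k - 1 - n)) m b γ C ‖x - Γ C t‖ t
        ≤ C0 * ((2 * (3 * K)) ^ n * c2 * ‖v C t‖) := mul_le_mul_of_nonneg_left hEx hC0.le
      _ = _ := by ring
  · refine (hG3 t (x, y) hpos (lt_of_lt_of_le h4 (min_le_right _ _)) hx2 hA C).trans ?_
    calc ε / (1 + (2 * (3 * K)) ^ n * c2) *
          (‖v C t‖ + cE (N * (k - 1 - n)) m b γ C ‖x - Γ C t‖ t)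
        ≤ ε / (1 + (2 * (3 * K)) ^ n * c2) * (‖v C t‖ + (2 * (3 * K)) ^ n * c2 * ‖v C t‖) :=
          mul_le_mul_of_nonneg_left (by linarith) (by positivity)
      _ = ε * ‖v C t‖ := by field_simp

theorem zoneI_point {F G : ℂ × ℂ → ℂ} {k n N : ℕ} {u : ℂ} {c : ℕ} {m : Fin c → ℕ} {b : Fin c → ℝ}
    {γ v Γ η : Fin c → ℂ → ℂ} {a : Fin c → ℂ} {D : Fin c → ℕ}
    (h : CFa F G k n N u c m b γ v Γ η a D) :
    ∀ C1 > (0 : ℝ), ∀ K : ℝ, 1 ≤ K → ∃ R > (0 : ℝ), ∃ CK > (0 : ℝ), ∀ ε > (0 : ℝ), ∃ δ > (0 : ℝ),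
      ∀ (x t X1 Y : ℂ) (C : Fin c), 0 < ‖t‖ → ‖t‖ < δ → ‖x‖ < δ * ‖t‖ ^ N →
      ‖x - γ C t‖ ≤ K * ‖t‖ ^ (b C) → ‖X1 - Γ C t‖ ≤ 3 * K * ‖t‖ ^ (b C) →
      (∀ C', ‖Y - η C' t‖ ≤ C1 * (‖t‖ ^ (b C') + ‖x - γ C' t‖)) →
      ∃ y', G (X1, y') = F (x, t ^ N) ∧ ‖y' - Y‖ ≤ R / 2 * ‖t‖ ^ (b C) ∧
        (∀ y'', ‖y'' - Y‖ < R * ‖t‖ ^ (b C) → G (X1, y'') = F (x, t ^ N) → y'' = y') ∧
        dy G (X1, y') ≠ 0 ∧ ‖dx F (x, t ^ N) / dy G (X1, y')‖ ≤ CK ∧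
        ‖dx G (X1, y') / dy G (X1, y')‖ ≤ CK ∧ ‖dy F (x, t ^ N) / dy G (X1, y') - 1‖ ≤ ε := by
  intro C1 hC1 K hK
  have hR0 : 0 ≤ C1 * (1 + K) := by positivity
  obtain ⟨MF, hMF, hF⟩ := G11_F h.clu K hK
  obtain ⟨MG0, hMG0, hG0⟩ := G11_G h K (C1 * (1 + K)) hK hR0
  set C3 : ℝ := MF * K + MG0 * (3 * K) + 2 * (C1 * (1 + K)) with hC3
  have hC30 : 0 < C3 := by positivity
  set R : ℝ := 4 * C3 + 1 with hR
  have hRp : 0 < R := by positivity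
  obtain ⟨MG, hMG, hG⟩ := G11_G h K (R + C1 * (1 + K)) hK (by positivity)
  refine ⟨R, hRp, 2 * MF + 2 * MG, by positivity, fun ε hε => ?_⟩
  set ε2 : ℝ := min (1 / 2) (ε / 4) with hε2
  have hε20 : 0 < ε2 := by positivity
  have hval : ∀ᶠ t in 𝓝[≠] (0 : ℂ), ∀ C, F (γ C t, t ^ N) = G (Γ C t, η C t) := by
    rw [eventually_all]
    exact fun C => (h.val C).filter_mono nhdsWithin_le_nhds
  obtain ⟨c2, hc2, hE⟩ := G11_E h.clu
  obtain ⟨δ, hδ, hall⟩ := G11_ev ((hF ε2 hε20).and ((hG0 (1 / 2) (by norm_num)).and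
    ((hG ε2 hε20).and (hval.and hE))))
  refine ⟨δ, hδ, ?_⟩
  intro x t X1 Y C ht0 htδ _ hx hX hY
  obtain ⟨hF', hG0', hG', hv', hE'⟩ := hall t ht0 htδ
  have hFC := hF' C
  have hG0C := hG0' C
  have hGC := hG' C
  have hvC := hv' C
  set s : ℝ := ‖t‖ ^ (b C) with hs
  have hs0 : 0 < s := by positivity
  set V : ℂ := v C t with hV
  have hV0 : 0 < ‖V‖ := (hE' C).1
  have hVne : V ≠ 0 := norm_pos_iff.1 hV0
  have hYC : ‖Y - η C t‖ ≤ C1 * (1 + K) * s := by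
    refine (hY C).trans ?_
    calc C1 * (s + ‖x - γ C t‖) ≤ C1 * (s + K * s) :=
          mul_le_mul_of_nonneg_left (by linarith) hC1.le
      _ = _ := by ring
  -- e1
  have hA : ‖F (x, t ^ N) - F (γ C t, t ^ N)‖ ≤ MF * ‖V‖ * (K * s) := by
    have hcv : Convex ℝ (closedBall (γ C t) (K * s)) := convex_closedBall _ _
    have h1 := hcv.norm_image_sub_le_of_norm_deriv_le (𝕜 := ℂ) (f := fun z => F (z, t ^ N))
      (C := MF * ‖V‖) (x := γ C t) (y := x)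
      (fun z hz => (G11_dx (hFC z (by simpa [dist_eq_norm] using hz)).1).differentiableAt)
      (fun z hz => by
        have h2 := hFC z (by simpa [dist_eq_norm] using hz)
        rw [(G11_dx h2.1).deriv]
        exact h2.2.1)
      (mem_closedBall_self (by positivity)) (by simpa [dist_eq_norm] using hx)
    refine h1.trans ?_
    exact mul_le_mul_of_nonneg_left hx (by positivity)
  have hB : ‖G (X1, η C t) - G (Γ C t, η C t)‖ ≤ MG0 * ‖V‖ * (3 * K * s) := by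
    have hcv : Convex ℝ (closedBall (Γ C t) (3 * K * s)) := convex_closedBall _ _
    have hη : ‖η C t - η C t‖ ≤ C1 * (1 + K) * s := by
      rw [sub_self, norm_zero]; positivity
    have h1 := hcv.norm_image_sub_le_of_norm_deriv_le (𝕜 := ℂ) (f := fun z => G (z, η C t))
      (C := MG0 * ‖V‖) (x := Γ C t) (y := X1)
      (fun z hz => (G11_dx (hG0C z (η C t) (by simpa [dist_eq_norm] using hz)
        hη).1).differentiableAt)
      (fun z hz => by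
        have h2 := hG0C z (η C t) (by simpa [dist_eq_norm] using hz) hη
        rw [(G11_dx h2.1).deriv]
        exact h2.2.1)
      (mem_closedBall_self (by positivity)) (by simpa [dist_eq_norm] using hX)
    refine h1.trans ?_
    exact mul_le_mul_of_nonneg_left hX (by positivity)
  have hCc : ‖G (X1, Y) - G (X1, η C t)‖ ≤ 2 * ‖V‖ * (C1 * (1 + K) * s) := by
    have hcv : Convex ℝ (closedBall (η C t) (C1 * (1 + K) * s)) := convex_closedBall _ _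
    have h1 := hcv.norm_image_sub_le_of_norm_deriv_le (𝕜 := ℂ) (f := fun z => G (X1, z))
      (C := 2 * ‖V‖) (x := η C t) (y := Y)
      (fun z hz => (G11_dy (hG0C X1 z hX (by simpa [dist_eq_norm] using hz)).1).differentiableAt)
      (fun z hz => by
        have h2 := hG0C X1 z hX (by simpa [dist_eq_norm] using hz)
        rw [(G11_dy h2.1).deriv]
        have h3 : ‖dy G (X1, z)‖ ≤ ‖V‖ + ‖dy G (X1, z) - V‖ := by
          have : dy G (X1, z) = V + (dy G (X1, z) - V) := by ring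
          calc ‖dy G (X1, z)‖ = ‖V + (dy G (X1, z) - V)‖ := by rw [← this]
            _ ≤ _ := norm_add_le _ _
        have h4 := h2.2.2
        linarith)
      (mem_closedBall_self (by positivity)) (by simpa [dist_eq_norm] using hYC)
    refine h1.trans ?_
    exact mul_le_mul_of_nonneg_left hYC (by positivity)
  have he1 : ‖G (X1, Y) - F (x, t ^ N)‖ ≤ C3 * ‖V‖ * s := by
    have e0 : G (X1, Y) - F (x, t ^ N) = (G (X1, Y) - G (X1, η C t)) +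
        (G (X1, η C t) - G (Γ C t, η C t)) + -(F (x, t ^ N) - F (γ C t, t ^ N)) := by
      rw [hvC]; ring
    rw [e0]
    refine norm_add₃_le.trans ?_
    rw [norm_neg]
    calc _ ≤ 2 * ‖V‖ * (C1 * (1 + K) * s) + MG0 * ‖V‖ * (3 * K * s) + MF * ‖V‖ * (K * s) := by
          linarith
      _ = C3 * ‖V‖ * s := by rw [hC3]; ring
  -- Newton
  have hball : ∀ z ∈ ball Y (R * s), ‖z - η C t‖ ≤ (R + C1 * (1 + K)) * s := by
    intro z hz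
    have h1 : ‖z - Y‖ < R * s := by simpa [dist_eq_norm] using hz
    have h2 : z - η C t = (z - Y) + (Y - η C t) := by ring
    rw [h2]
    refine (norm_add_le _ _).trans ?_
    linarith
  obtain ⟨y', hy1, hy2, hy3⟩ := newton1 (fun z => G (X1, z)) Y (R * s) V (F (x, t ^ N))
    (by positivity) hVne
    (fun z hz => by
      have h2 := hGC X1 z hX (hball z hz)
      refine ⟨(G11_dy h2.1).differentiableAt, ?_⟩
      rw [(G11_dy h2.1).deriv]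
      refine h2.2.2.trans ?_
      have : ε2 ≤ 1 / 2 := min_le_left _ _
      nlinarith)
    (by
      refine he1.trans ?_
      have : 0 < ‖V‖ * s := by positivity
      rw [hR]
      nlinarith)
  have hy1' : ‖y' - Y‖ ≤ R / 2 * s := by
    refine hy1.trans ?_
    rw [div_le_iff₀ hV0]
    have : 0 < ‖V‖ * s := by positivity
    have h1 : 2 * ‖G (X1, Y) - F (x, t ^ N)‖ ≤ 2 * (C3 * ‖V‖ * s) := by linarith
    refine h1.trans ?_
    rw [hR]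
    nlinarith
  have hyb : y' ∈ ball Y (R * s) := by
    rw [mem_ball, dist_eq_norm]
    have : 0 < R * s := by positivity
    linarith
  have hyG := hGC X1 y' hX (hball y' hyb)
  have hyF := hFC x hx
  have hε2a : ε2 ≤ 1 / 2 := min_le_left _ _
  have hε2b : ε2 ≤ ε / 4 := min_le_right _ _
  have hlow : ‖V‖ / 2 ≤ ‖dy G (X1, y')‖ := by
    have h3 : ‖V‖ ≤ ‖dy G (X1, y')‖ + ‖dy G (X1, y') - V‖ := by
      have : V = dy G (X1, y') - (dy G (X1, y') - V) := by ring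
      calc ‖V‖ = ‖dy G (X1, y') - (dy G (X1, y') - V)‖ := by rw [← this]
        _ ≤ _ := norm_sub_le _ _
    have h4 := hyG.2.2
    nlinarith
  have hGp : 0 < ‖dy G (X1, y')‖ := by linarith
  have hGne : dy G (X1, y') ≠ 0 := norm_pos_iff.1 hGp
  refine ⟨y', hy2, hy1', ?_, hGne, ?_, ?_, ?_⟩
  · intro y'' h1 h2
    exact hy3 y'' (by rw [mem_ball, dist_eq_norm]; exact h1) h2
  · rw [norm_div, div_le_iff₀ hGp]
    have h5 := hyF.2.1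
    have h6 : 0 ≤ MG * ‖dy G (X1, y')‖ := by positivity
    have h7 : MF * (‖V‖ / 2) ≤ MF * ‖dy G (X1, y')‖ := mul_le_mul_of_nonneg_left hlow hMF.le
    nlinarith
  · rw [norm_div, div_le_iff₀ hGp]
    have h5 := hyG.2.1
    have h6 : 0 ≤ MF * ‖dy G (X1, y')‖ := by positivity
    have h7 : MG * (‖V‖ / 2) ≤ MG * ‖dy G (X1, y')‖ := mul_le_mul_of_nonneg_left hlow hMG.le
    nlinarith
  · have h8 : dy F (x, t ^ N) / dy G (X1, y') - 1 =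
        (dy F (x, t ^ N) - dy G (X1, y')) / dy G (X1, y') := by
      field_simp
    rw [h8, norm_div, div_le_iff₀ hGp]
    have h9 : ‖dy F (x, t ^ N) - dy G (X1, y')‖ ≤ 2 * ε2 * ‖V‖ := by
      have : dy F (x, t ^ N) - dy G (X1, y') =
          (dy F (x, t ^ N) - V) - (dy G (X1, y') - V) := by ring
      rw [this]
      refine (norm_sub_le _ _).trans ?_
      have h10 := hyF.2.2
      have h11 := hyG.2.2
      linarith
    calc ‖dy F (x, t ^ N) - dy G (X1, y')‖ ≤ 2 * ε2 * ‖V‖ := h9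
      _ ≤ 2 * (ε / 4) * ‖V‖ := by nlinarith
      _ = ε * (‖V‖ / 2) := by ring
      _ ≤ ε * ‖dy G (X1, y')‖ := mul_le_mul_of_nonneg_left hlow hε.le

end H24.LS
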