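import Pool.Agent.H24.LS.G0
import Pool.Agent.H24.LS.G1
import Pool.Agent.H24.LS.G7
import Pool.Agent.H24.LS.G11

/-!
# G12: solution for `y'` in zone I as a `C^1` function

For `p = (x,y) ∈ Ud a1 ρ` with `km p < K` there are `t`, `t^N = y`, and `C` with `‖x - γ C t‖ = km p ‖t‖^(b C) ≤ K ‖t‖^(b C)` (`k2`).
`dm p ≤ ‖x - γ C t‖`, `SDat.S2` give `‖X1 p - Γ C t‖ ≤ dm p + ‖x - γ_C‖ + δ(..) ≤ 3 K ‖t‖^(b C)`; apply `zoneI_point`; `Y2 p := y'`.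
Independence of the choice of `(t, C)`: for small `t` and fixed `t` the cluster `C` with `‖x - γ_C t‖ ≤ K ‖t‖^(b C)` is
unique (`sep`); for another root `ζ t`: `γ_{C'}(ζ t) = γ_{σ C'}(t)`, `b (σ C') = b C'` (`CFa.inv`), so `C = σ C'` and the radii
`R ‖t‖^(b C)` agree; uniqueness in the ball.
`C^1` at `p0 = (x0, y0)`: let `t0, C0` be a choice for `p0` with `‖x0 - γ_{C0} t0‖ < K ‖t0‖^(b C0)` (strict since `km p0 < K`), `r` a
holomorphic branch of the root near `y0`, `r y0 = t0`.  `solve_C1` on the open set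
`U = {p near p0 | ‖p.1 - γ_{C0}(r p.2)‖ < K ‖r p.2‖^(b C0), p ∈ Ud a1 ρ, km p < K}`,
`S = {(p,z) | p ∈ U, ‖z - Y p‖ < R ‖r p.2‖^(b C0)}`, `H (p,z) = G (X1 p, z) - F p`.
Derivative: `dx G DX1(v,w) + dy G DY2(v,w) = dx F v + dy F w`, so
`DY2 - w = (dx F/dy G) v + (dy F/dy G - 1) w - (dx G/dy G) DX1(v,w)`, norm
`≤ CK0 ‖v‖ + ε'‖w‖ + CK0 (2‖v‖ + δ‖w‖)`: take `CK = 3 CK0`, `δ ≤ ε/(2 CK0)`.
`‖Y2 p - Y p‖ ≤ R ‖t‖^(b C) ≤ ε ‖t‖^N` for small `t` since `b C > N`.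
-/

open Filter Topology Metric Asymptotics

namespace H24.LS

theorem G12_root (N : ℕ) (hN : 1 ≤ N) (t0 : ℂ) (ht : t0 ≠ 0) :
    ∃ r : ℂ → ℂ, r (t0 ^ N) = t0 ∧ (∀ y, r y ^ N = y) ∧
      ∀ᶠ y in 𝓝 (t0 ^ N), ContinuousAt r y := by
  have hN0 : N ≠ 0 := by omega
  have htN : t0 ^ N ≠ 0 := pow_ne_zero _ ht
  refine ⟨fun y => t0 * (y / t0 ^ N) ^ ((N : ℂ)⁻¹), ?_, ?_, ?_⟩
  · simp only
    rw [div_self htN, Complex.one_cpow, mul_one]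
  · intro y
    simp only
    rw [mul_pow, Complex.cpow_nat_inv_pow _ hN0]
    field_simp
  · have hc : ∀ y : ℂ, ContinuousAt (fun y : ℂ => y / t0 ^ N) y := fun y =>
      continuousAt_id.div_const _
    have h2 : ∀ᶠ y in 𝓝 (t0 ^ N), y / t0 ^ N ∈ Complex.slitPlane := by
      refine (hc (t0 ^ N)).eventually ?_
      show ∀ᶠ y : ℂ in 𝓝 (t0 ^ N / t0 ^ N), y ∈ Complex.slitPlane
      rw [div_self htN]
      exact Complex.isOpen_slitPlane.mem_nhds Complex.one_mem_slitPlane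
    filter_upwards [h2] with y hy
    exact continuousAt_const.mul
      (ContinuousAt.comp (f := fun y : ℂ => y / t0 ^ N) (g := fun z : ℂ => z ^ ((N : ℂ)⁻¹))
        (continuousAt_cpow_const hy) (hc y))

theorem G12_an {F : ℂ × ℂ → ℂ} (h : AnalyticAt ℂ F 0) :
    ∃ r > (0 : ℝ), ∀ p : ℂ × ℂ, ‖p‖ < r → AnalyticAt ℂ F p := by
  obtain ⟨r, hr, hP⟩ := Metric.eventually_nhds_iff.1 h.eventually_analyticAt
  exact ⟨r, hr, fun p hp => hP (by rwa [dist_zero_right])⟩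

theorem G12_rpow {N : ℕ} {β : ℝ} (hb : (N : ℝ) < β) {κ : ℝ} (hκ : 0 < κ) :
    ∀ᶠ t in 𝓝[≠] (0 : ℂ), ‖t‖ ^ β ≤ κ * ‖t‖ ^ N := by
  have hpos : 0 < β - N := by linarith
  have h1 : Tendsto (fun t : ℂ => ‖t‖ ^ (β - N)) (𝓝 0) (𝓝 0) := by
    have h2 : ContinuousAt (fun t : ℂ => ‖t‖ ^ (β - N)) 0 :=
      continuous_norm.continuousAt.rpow_const (Or.inr hpos.le)
    have h3 := h2.tendsto
    rwa [norm_zero, Real.zero_rpow hpos.ne'] at h3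
  have h4 : ∀ᶠ t in 𝓝 (0 : ℂ), ‖t‖ ^ (β - N) < κ := h1.eventually_lt_const hκ
  filter_upwards [nhdsWithin_le_nhds h4, self_mem_nhdsWithin] with t t1 t2
  have t3 : 0 < ‖t‖ := norm_pos_iff.2 t2
  have h5 : ‖t‖ ^ β = ‖t‖ ^ (β - N) * ‖t‖ ^ N := by
    rw [← Real.rpow_natCast, ← Real.rpow_add t3]
    congr 1
    ring
  rw [h5]
  exact mul_le_mul_of_nonneg_right t1.le (by positivity)

theorem G12_small {F G : ℂ × ℂ → ℂ} {k n N : ℕ} {u : ℂ} {c : ℕ} {m : Fin c → ℕ} {b : Fin c → ℝ}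
    {γ v Γ η : Fin c → ℂ → ℂ} {a : Fin c → ℂ} {D : Fin c → ℕ}
    (h : CFa F G k n N u c m b γ v Γ η a D) (κ r : ℝ) (hκ : 0 < κ) (hr : 0 < r) :
    ∃ rs > (0 : ℝ), ∀ t : ℂ, 0 < ‖t‖ → ‖t‖ < rs → ‖t‖ ^ N ≤ 1 ∧ ∀ C, ContinuousAt (γ C) t ∧
      ‖Γ C t‖ < r ∧ ‖η C t‖ < r ∧ ‖t‖ ^ (b C) ≤ κ * ‖t‖ ^ N := by
  have hN := h.clu.hN
  have htN : Tendsto (fun t : ℂ => t ^ N) (𝓝[≠] 0) (𝓝 0) := by
    have h1 : Tendsto (fun t : ℂ => t ^ N) (𝓝 0) (𝓝 (0 ^ N)) := (continuous_pow N).tendsto 0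
    rw [zero_pow (by omega)] at h1
    exact h1.mono_left nhdsWithin_le_nhds
  have hev : ∀ᶠ t in 𝓝[≠] (0 : ℂ), ‖t‖ ^ N ≤ 1 ∧ ∀ C, ContinuousAt (γ C) t ∧
      ‖Γ C t‖ < r ∧ ‖η C t‖ < r ∧ ‖t‖ ^ (b C) ≤ κ * ‖t‖ ^ N := by
    refine Filter.Eventually.and ?_ ?_
    · have h1 : ∀ᶠ t in 𝓝[≠] (0 : ℂ), ‖t ^ N‖ < 1 := by
        have h2 := htN.norm
        rw [norm_zero] at h2
        exact h2.eventually_lt_const one_pos
      filter_upwards [h1] with t ht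
      rw [norm_pow] at ht
      exact ht.le
    · rw [eventually_all]
      intro C
      have h1 : Tendsto (Γ C) (𝓝[≠] 0) (𝓝 0) := (h.Γsm C).trans_tendsto htN
      have h2 : Tendsto (fun t => η C t - t ^ N + t ^ N) (𝓝[≠] 0) (𝓝 (0 + 0)) :=
        ((h.ηsm C).trans_tendsto htN).add htN
      rw [add_zero] at h2
      have h1' := h1.norm
      have h2' := h2.norm
      rw [norm_zero] at h1' h2'
      have h3 : ∀ᶠ t in 𝓝 (0 : ℂ), ContinuousAt (γ C) t := by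
        filter_upwards [(h.clu.gan C).eventually_analyticAt] with t ht
        exact ht.continuousAt
      filter_upwards [h1'.eventually_lt_const hr, h2'.eventually_lt_const hr,
        nhdsWithin_le_nhds h3, G12_rpow (h.clu.hb C) hκ] with t t1 t2 t3 t4
      rw [sub_add_cancel] at t2
      exact ⟨t3, t1, t2, t4⟩
  rw [eventually_nhdsWithin_iff, Metric.eventually_nhds_iff] at hev
  obtain ⟨δ, hδ, hP⟩ := hev
  exact ⟨δ, hδ, fun t h1 h2 => hP (by simpa using h2) (norm_pos_iff.1 h1)⟩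

/-- derivative of a holomorphic function of two variables over `ℝ` -/
theorem G12_fd {F : ℂ × ℂ → ℂ} {p : ℂ × ℂ} (hF : DifferentiableAt ℂ F p) (v w : ℂ) :
    fderiv ℝ F p (v, w) = dx F p * v + dy F p * w := by
  have h1 := fderiv_comp2 F (fun q : ℂ × ℂ => q.1) (fun q : ℂ × ℂ => q.2) p hF
    differentiableAt_fst differentiableAt_snd (v, w)
  have h2 := h1.2
  have h3 : (fun q : ℂ × ℂ => F (q.1, q.2)) = F := rfl
  rw [h3, fderiv_fst, fderiv_snd] at h2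
  exact h2

theorem zoneI_sol {F G : ℂ × ℂ → ℂ} {k n N : ℕ} {u : ℂ} {c : ℕ} {m : Fin c → ℕ} {b : Fin c → ℝ}
    {γ v Γ η : Fin c → ℂ → ℂ} {a : Fin c → ℂ} {D : Fin c → ℕ}
    (h : CFa F G k n N u c m b γ v Γ η a D)
    {dm km : ℂ × ℂ → ℝ} {ρ0 : ℝ} (hM : Mins N b γ dm km ρ0) :
    ∀ C1 > (0 : ℝ), ∀ K : ℝ, 1 ≤ K → ∃ CK > (0 : ℝ), ∀ ε > (0 : ℝ), ∃ δ > (0 : ℝ),
      ∀ (a1 ρ : ℝ) (Y X0 X1 : ℂ × ℂ → ℂ), a1 ≤ δ → ρ ≤ δ → SDat N b γ Γ η Y X0 C1 δ a1 ρ →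
      (∀ p ∈ Ud a1 ρ, ContDiffAt ℝ 1 X1 p ∧ ‖X1 p - X0 p‖ ≤ dm p ∧
        ∀ v w : ℂ, ‖fderiv ℝ X1 p (v, w) - v‖ ≤ ‖v‖ + δ * ‖w‖) →
      ∃ Y2 : ℂ × ℂ → ℂ, ∀ p ∈ Ud a1 ρ, km p < K →
        ContDiffAt ℝ 1 Y2 p ∧ G (X1 p, Y2 p) = F p ∧ (G (X1 p, Y p) = F p → Y2 p = Y p) ∧
        ‖Y2 p - Y p‖ ≤ ε * ‖p.2‖ ∧
        ∀ v w : ℂ, ‖fderiv ℝ Y2 p (v, w) - w‖ ≤ CK * ‖v‖ + ε * ‖w‖ := by
  intro C1 hC1 K hK
  obtain ⟨R, hR, CK0, hCK0, hz⟩ := zoneI_point h C1 hC1 K hK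
  refine ⟨3 * CK0, by positivity, fun ε hε => ?_⟩
  obtain ⟨δ', hδ', hz⟩ := hz (ε / 2) (by positivity)
  have hN := h.clu.hN
  obtain ⟨rF, hrF, hFan⟩ := G12_an h.clu.an
  obtain ⟨rG, hrG, hGan⟩ := G12_an h.anG
  have hK0 : 0 < K := by linarith
  obtain ⟨κ, hκ, hκ1, hκ2⟩ : ∃ κ > (0 : ℝ), κ * (3 * K + R / 2 + C1 * (1 + K)) ≤ rG / 4 ∧
      R / 2 * κ ≤ ε := by
    have hA : 0 < 3 * K + R / 2 + C1 * (1 + K) := by positivity
    refine ⟨min (rG / 4 / (3 * K + R / 2 + C1 * (1 + K))) (ε / (R / 2)), by positivity, ?_, ?_⟩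
    · calc _ ≤ rG / 4 / (3 * K + R / 2 + C1 * (1 + K)) * (3 * K + R / 2 + C1 * (1 + K)) :=
          mul_le_mul_of_nonneg_right (min_le_left _ _) hA.le
        _ = rG / 4 := by field_simp
    · calc _ ≤ R / 2 * (ε / (R / 2)) := mul_le_mul_of_nonneg_left (min_le_right _ _) (by positivity)
        _ = ε := by field_simp
  obtain ⟨rs, hrs, hsm⟩ := G12_small h κ (rG / 4) hκ (by positivity)
  obtain ⟨δ, hδ, d1, d2, d3, d4, d5, d6, d7⟩ : ∃ δ > (0 : ℝ), δ ≤ δ' ^ N ∧ δ ≤ δ' ∧ δ ≤ rs ^ N ∧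
      δ ≤ ρ0 ∧ δ ≤ 1 / 2 ∧ δ ≤ rF ∧ δ ≤ ε / (2 * CK0) := by
    have := hM.h0
    refine ⟨min (min (δ' ^ N) δ') (min (rs ^ N) (min (min ρ0 (1 / 2)) (min rF (ε / (2 * CK0))))),
      by positivity, ?_, ?_, ?_, ?_, ?_, ?_, ?_⟩
    · exact (min_le_left _ _).trans (min_le_left _ _)
    · exact (min_le_left _ _).trans (min_le_right _ _)
    · exact (min_le_right _ _).trans (min_le_left _ _)
    · exact (min_le_right _ _).trans ((min_le_right _ _).trans ((min_le_left _ _).trans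
        (min_le_left _ _)))
    · exact (min_le_right _ _).trans ((min_le_right _ _).trans ((min_le_left _ _).trans
        (min_le_right _ _)))
    · exact (min_le_right _ _).trans ((min_le_right _ _).trans ((min_le_right _ _).trans
        (min_le_left _ _)))
    · exact (min_le_right _ _).trans ((min_le_right _ _).trans ((min_le_right _ _).trans
        (min_le_right _ _)))
  refine ⟨δ, hδ, fun a1 ρ Y X0 X1 ha1 hρ hS hX => ?_⟩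
  -- the points of the domain
  have hUd : ∀ p ∈ Ud a1 ρ, p ∈ Ud 1 ρ0 := by
    rintro p ⟨h1, h2, h3⟩
    refine ⟨h1, by linarith, ?_⟩
    nlinarith
  have hpF : ∀ p ∈ Ud a1 ρ, ‖p‖ < rF := by
    rintro p ⟨h1, h2, h3⟩
    rw [Prod.norm_def]
    refine max_lt ?_ (by linarith)
    nlinarith
  have ht0 : ∀ p ∈ Ud a1 ρ, ∀ t : ℂ, t ^ N = p.2 → 0 < ‖t‖ ∧ ‖t‖ < δ' ∧ ‖t‖ < rs := by
    rintro p ⟨h1, h2, h3⟩ t ht
    have h4 : ‖t‖ ^ N = ‖p.2‖ := by rw [← norm_pow, ht]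
    refine ⟨?_, ?_, ?_⟩
    · rw [norm_pos_iff]
      rintro rfl
      rw [norm_zero, zero_pow (by omega)] at h4
      linarith
    · refine lt_of_pow_lt_pow_left₀ N hδ'.le ?_
      rw [h4]
      linarith
    · refine lt_of_pow_lt_pow_left₀ N hrs.le ?_
      rw [h4]
      linarith
  -- estimates for a valid choice
  have hval : ∀ p ∈ Ud a1 ρ, ∀ (t : ℂ) (C : Fin c), t ^ N = p.2 →
      ‖p.1 - γ C t‖ ≤ K * ‖t‖ ^ (b C) → ‖X1 p - Γ C t‖ ≤ 3 * K * ‖t‖ ^ (b C) ∧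
      (∀ C', ‖Y p - η C' t‖ ≤ C1 * (‖t‖ ^ (b C') + ‖p.1 - γ C' t‖)) := by
    intro p hp t C ht hC
    have hpt : (p.1, t ^ N) = p := by rw [ht]
    have hp1 : (p.1, t ^ N) ∈ Ud a1 ρ := by rw [hpt]; exact hp
    have hp2 : (p.1, t ^ N) ∈ Ud 1 ρ0 := hUd _ hp1
    have e1 := hS.S1 p.1 t hp1
    have e2 := hS.S2 p.1 t hp1 C
    have e3 := hM.d1 p.1 t hp2 C
    have e4 := (hX p hp).2.1
    rw [hpt] at e1 e2 e3
    refine ⟨?_, e1⟩
    have hs : 0 ≤ ‖t‖ ^ (b C) := Real.rpow_nonneg (norm_nonneg _) _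
    have e5 : X1 p - Γ C t = (X1 p - X0 p) + (X0 p - Γ C t - (p.1 - γ C t)) + (p.1 - γ C t) := by
      ring
    have e6 : ‖X1 p - Γ C t‖ ≤ ‖X1 p - X0 p‖ + ‖X0 p - Γ C t - (p.1 - γ C t)‖ + ‖p.1 - γ C t‖ := by
      rw [e5]
      exact norm_add₃_le
    have e7 : δ * (‖t‖ ^ (b C) + ‖p.1 - γ C t‖) ≤ K * ‖t‖ ^ (b C) := by
      calc δ * (‖t‖ ^ (b C) + ‖p.1 - γ C t‖) ≤ 1 / 2 * (‖t‖ ^ (b C) + K * ‖t‖ ^ (b C)) := by
            gcongr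
        _ ≤ K * ‖t‖ ^ (b C) := by nlinarith
    linarith
  -- solutions for all valid choices
  have hmain : ∀ p : ℂ × ℂ, ∃ y2 : ℂ, p ∈ Ud a1 ρ → km p < K → ∀ (t : ℂ) (C : Fin c), t ^ N = p.2 →
      ‖p.1 - γ C t‖ ≤ K * ‖t‖ ^ (b C) →
      G (X1 p, y2) = F p ∧ ‖y2 - Y p‖ ≤ R / 2 * ‖t‖ ^ (b C) ∧
        (∀ y'', ‖y'' - Y p‖ < R * ‖t‖ ^ (b C) → G (X1 p, y'') = F p → y'' = y2) ∧
        dy G (X1 p, y2) ≠ 0 ∧ ‖dx F p / dy G (X1 p, y2)‖ ≤ CK0 ∧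
        ‖dx G (X1 p, y2) / dy G (X1 p, y2)‖ ≤ CK0 ∧
        ‖dy F p / dy G (X1 p, y2) - 1‖ ≤ ε / 2 := by
    intro p
    by_cases hp : p ∈ Ud a1 ρ
    swap
    · exact ⟨0, fun h1 => absurd h1 hp⟩
    by_cases hk : km p < K
    swap
    · exact ⟨0, fun _ h1 => absurd h1 hk⟩
    have hpt : ∀ (t : ℂ) (C : Fin c), t ^ N = p.2 → ‖p.1 - γ C t‖ ≤ K * ‖t‖ ^ (b C) →
        ∃ y2 : ℂ, G (X1 p, y2) = F p ∧ ‖y2 - Y p‖ ≤ R / 2 * ‖t‖ ^ (b C) ∧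
        (∀ y'', ‖y'' - Y p‖ < R * ‖t‖ ^ (b C) → G (X1 p, y'') = F p → y'' = y2) ∧
        dy G (X1 p, y2) ≠ 0 ∧ ‖dx F p / dy G (X1 p, y2)‖ ≤ CK0 ∧
        ‖dx G (X1 p, y2) / dy G (X1 p, y2)‖ ≤ CK0 ∧
        ‖dy F p / dy G (X1 p, y2) - 1‖ ≤ ε / 2 := by
      intro t C ht hC
      obtain ⟨h1, h2, h3⟩ := ht0 p hp t ht
      obtain ⟨h4, h5⟩ := hval p hp t C ht hC
      have h6 : ‖t‖ ^ N = ‖p.2‖ := by rw [← norm_pow, ht]
      have h7 := hz p.1 t (X1 p) (Y p) C h1 h2 (by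
        rw [h6]
        have := hp.2.2
        have h8 : a1 * ‖p.2‖ ≤ δ' * ‖p.2‖ :=
          mul_le_mul_of_nonneg_right (ha1.trans d2) (norm_nonneg _)
        linarith) hC h4 h5
      have h9 : (p.1, t ^ N) = p := by rw [ht]
      rw [h9] at h7
      exact h7
    obtain ⟨t0, ht0'⟩ := IsAlgClosed.exists_pow_nat_eq p.2 (n := N) (by omega)
    have hp1 : (p.1, t0 ^ N) = p := by rw [ht0']
    obtain ⟨C0, hC0⟩ := hM.k2 p.1 t0 (by rw [hp1]; exact hUd p hp)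
    rw [hp1] at hC0
    have hC0' : ‖p.1 - γ C0 t0‖ ≤ K * ‖t0‖ ^ (b C0) := by
      rw [← hC0]
      exact mul_le_mul_of_nonneg_right hk.le (Real.rpow_nonneg (norm_nonneg _) _)
    obtain ⟨y2, hy1, hy2, hy3, hy4⟩ := hpt t0 C0 ht0' hC0'
    refine ⟨y2, fun _ _ t C ht hC => ?_⟩
    obtain ⟨y3, hz1, hz2, hz3, hz4⟩ := hpt t C ht hC
    have heq : y3 = y2 := by
      have p1 : 0 < ‖t‖ ^ (b C) := Real.rpow_pos_of_pos (ht0 p hp t ht).1 _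
      have p2 : 0 < ‖t0‖ ^ (b C0) := Real.rpow_pos_of_pos (ht0 p hp t0 ht0').1 _
      rcases le_total (‖t‖ ^ (b C)) (‖t0‖ ^ (b C0)) with hle | hle
      · exact hy3 y3 (by nlinarith) hz1
      · exact (hz3 y2 (by nlinarith) hy1).symm
    subst heq
    exact ⟨hz1, hz2, hz3, hz4⟩
  choose Y2 hY2 using hmain
  -- a strict choice at every point
  have hstrict : ∀ p ∈ Ud a1 ρ, km p < K → ∃ (t : ℂ) (C : Fin c), t ^ N = p.2 ∧
      ‖p.1 - γ C t‖ < K * ‖t‖ ^ (b C) := by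
    intro p hp hk
    obtain ⟨t0, ht0'⟩ := IsAlgClosed.exists_pow_nat_eq p.2 (n := N) (by omega)
    have hp1 : (p.1, t0 ^ N) = p := by rw [ht0']
    obtain ⟨C0, hC0⟩ := hM.k2 p.1 t0 (by rw [hp1]; exact hUd p hp)
    rw [hp1] at hC0
    refine ⟨t0, C0, ht0', ?_⟩
    rw [← hC0]
    exact mul_lt_mul_of_pos_right hk (Real.rpow_pos_of_pos (ht0 p hp t0 ht0').1 _)
  -- analyticity of `G` at the solution
  have hGp : ∀ p ∈ Ud a1 ρ, km p < K → AnalyticAt ℂ G (X1 p, Y2 p) := by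
    intro p hp hk
    obtain ⟨t, C, ht, hC⟩ := hstrict p hp hk
    obtain ⟨h1, h2, h3⟩ := ht0 p hp t ht
    obtain ⟨h4, h5⟩ := hval p hp t C ht hC.le
    obtain ⟨h6, h7⟩ := hsm t h1 h3
    obtain ⟨-, h8, h9, h10⟩ := h7 C
    obtain ⟨-, h11, -⟩ := hY2 p hp hk t C ht hC.le
    have hs : 0 < ‖t‖ ^ (b C) := Real.rpow_pos_of_pos h1 _
    have hs1 : ‖t‖ ^ (b C) ≤ κ := h10.trans (by nlinarith)
    have h12 : ‖t‖ ^ (b C) * (3 * K + R / 2 + C1 * (1 + K)) ≤ rG / 4 :=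
      (mul_le_mul_of_nonneg_right hs1 (by positivity)).trans hκ1
    apply hGan
    rw [Prod.norm_def]
    refine max_lt ?_ ?_
    · simp only
      have e1 : ‖X1 p‖ ≤ ‖X1 p - Γ C t‖ + ‖Γ C t‖ := by
        have := norm_add_le (X1 p - Γ C t) (Γ C t)
        rwa [sub_add_cancel] at this
      have e2 : 0 ≤ ‖t‖ ^ (b C) * (R / 2 + C1 * (1 + K)) := by positivity
      nlinarith
    · simp only
      have e1 : ‖Y2 p‖ ≤ ‖Y2 p - Y p‖ + ‖Y p - η C t‖ + ‖η C t‖ := by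
        have e3 : Y2 p = (Y2 p - Y p) + (Y p - η C t) + η C t := by ring
        calc ‖Y2 p‖ = ‖(Y2 p - Y p) + (Y p - η C t) + η C t‖ := by rw [← e3]
          _ ≤ _ := norm_add₃_le
      have e4 : ‖Y p - η C t‖ ≤ C1 * (‖t‖ ^ (b C) + K * ‖t‖ ^ (b C)) :=
        (h5 C).trans (by gcongr)
      have e2 : 0 ≤ ‖t‖ ^ (b C) * (3 * K) := by positivity
      nlinarith
  refine ⟨Y2, fun p hp hk => ?_⟩
  obtain ⟨t0, C0, ht0', hC0⟩ := hstrict p hp hk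
  obtain ⟨t1, t2, t3⟩ := ht0 p hp t0 ht0'
  obtain ⟨y1, y2, y3, y4, y5, y6, y7⟩ := hY2 p hp hk t0 C0 ht0' hC0.le
  -- `Y2` is `C^1`
  have hC1' : ContDiffAt ℝ 1 Y2 p := by
    obtain ⟨r, hr0, hrN, hrc⟩ := G12_root N hN t0 (norm_pos_iff.1 t1)
    rw [ht0'] at hr0 hrc
    have hrc0 : ContinuousAt r p.2 := hrc.self_of_nhds
    have hrc1 : ∀ᶠ q in 𝓝 p, ContinuousAt r q.2 := continuousAt_snd.eventually hrc
    -- the good points near `p`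
    have hγc : ContinuousAt (fun q : ℂ × ℂ => γ C0 (r q.2)) p := by
      have h1 : ContinuousAt (γ C0) (r p.2) := by
        rw [hr0]
        exact ((hsm t0 t1 t3).2 C0).1
      have h2 : ContinuousAt (fun q : ℂ × ℂ => r q.2) p :=
        ContinuousAt.comp (f := fun q : ℂ × ℂ => q.2) (g := r) hrc0 continuousAt_snd
      exact ContinuousAt.comp (f := fun q : ℂ × ℂ => r q.2) (g := γ C0) h1 h2
    have hcond : ∀ᶠ q in 𝓝 p, q ∈ Ud a1 ρ ∧ km q < K ∧ ContinuousAt r q.2 ∧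
        ‖q.1 - γ C0 (r q.2)‖ < K * ‖r q.2‖ ^ (b C0) := by
      refine Filter.Eventually.and ((isOpen_Ud a1 ρ).mem_nhds hp)
        (((hM.ck p (hUd p hp)).eventually_lt_const hk).and (hrc1.and ?_))
      have h2 : ContinuousAt (fun q : ℂ × ℂ => r q.2) p :=
        ContinuousAt.comp (f := fun q : ℂ × ℂ => q.2) (g := r) hrc0 continuousAt_snd
      have h3 : ContinuousAt (fun q : ℂ × ℂ => ‖q.1 - γ C0 (r q.2)‖) p :=
        (continuousAt_fst.sub hγc).norm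
      have h4 : ContinuousAt (fun q : ℂ × ℂ => K * ‖r q.2‖ ^ (b C0)) p := by
        refine continuousAt_const.mul (h2.norm.rpow_const (Or.inl ?_))
        rw [hr0]
        exact t1.ne'
      refine h3.eventually_lt h4 ?_
      rw [hr0]
      exact hC0
    obtain ⟨U, hU1, hU2, hU3⟩ := _root_.eventually_nhds_iff.1 hcond
    have hrad : ∀ q ∈ U, 0 < ‖r q.2‖ ^ (b C0) := fun q hq =>
      Real.rpow_pos_of_pos (ht0 q (hU1 q hq).1 _ (hrN q.2)).1 _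
    refine solve_C1 U hU2 {q : (ℂ × ℂ) × ℂ | q.1 ∈ U ∧ ‖q.2 - Y q.1‖ < R * ‖r q.1.2‖ ^ (b C0)}
      ?_ (fun q => G (X1 q.1, q.2) - F q.1) Y2 ?_ ?_ ?_ ?_ p hU3
    · rw [isOpen_iff_eventually]
      rintro ⟨q, z⟩ ⟨hq, hqz⟩
      simp only at hq hqz
      obtain ⟨k1, k2, k3, k4⟩ := hU1 q hq
      have c1 : ContinuousAt (fun w : (ℂ × ℂ) × ℂ => ‖w.2 - Y w.1‖) (q, z) := by
        have h1 : ContinuousAt Y q := (hS.cY q k1).continuousAt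
        have h2 : ContinuousAt (fun w : (ℂ × ℂ) × ℂ => Y w.1) (q, z) :=
          ContinuousAt.comp (f := fun w : (ℂ × ℂ) × ℂ => w.1) (g := Y) h1 continuousAt_fst
        exact (continuousAt_snd.sub h2).norm
      have c2 : ContinuousAt (fun w : (ℂ × ℂ) × ℂ => R * ‖r w.1.2‖ ^ (b C0)) (q, z) := by
        have h1 : ContinuousAt (fun w : (ℂ × ℂ) × ℂ => w.1.2) (q, z) :=
          (continuous_snd.comp continuous_fst).continuousAt
        have h2 : ContinuousAt (fun w : (ℂ × ℂ) × ℂ => r w.1.2) (q, z) :=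
          ContinuousAt.comp (f := fun w : (ℂ × ℂ) × ℂ => w.1.2) (g := r) k3 h1
        refine continuousAt_const.mul (h2.norm.rpow_const (Or.inl ?_))
        exact (ht0 q k1 _ (hrN q.2)).1.ne'
      have c3 : ∀ᶠ w : (ℂ × ℂ) × ℂ in 𝓝 (q, z), w.1 ∈ U :=
        (continuousAt_fst (p := (q, z))).eventually (hU2.mem_nhds hq)
      filter_upwards [c3, c1.eventually_lt c2 hqz] with w w1 w2
      exact ⟨w1, w2⟩
    · intro q hq
      obtain ⟨k1, k2, k3, k4⟩ := hU1 q hq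
      obtain ⟨z1, z2, -⟩ := hY2 q k1 k2 (r q.2) C0 (hrN q.2) k4.le
      refine ⟨⟨hq, ?_⟩, ?_⟩
      · simp only
        have := hrad q hq
        nlinarith
      · simp only
        rw [z1, sub_self]
    · rintro q hq w ⟨-, hw⟩ hw0
      obtain ⟨k1, k2, k3, k4⟩ := hU1 q hq
      obtain ⟨-, -, z3, -⟩ := hY2 q k1 k2 (r q.2) C0 (hrN q.2) k4.le
      exact z3 w hw (sub_eq_zero.1 hw0)
    · intro q hq
      obtain ⟨k1, k2, k3, k4⟩ := hU1 q hq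
      have g1 : ContDiffAt ℝ 1 G (X1 q, Y2 q) := ((hGp q k1 k2).contDiffAt).restrict_scalars ℝ
      have g2 : ContDiffAt ℝ 1 F q := ((hFan q (hpF q k1)).contDiffAt).restrict_scalars ℝ
      have g3 : ContDiffAt ℝ 1 (fun w : (ℂ × ℂ) × ℂ => (X1 w.1, w.2)) (q, Y2 q) :=
        ContDiffAt.prodMk (ContDiffAt.comp (q, Y2 q) (g := X1) (f := fun w : (ℂ × ℂ) × ℂ => w.1)
          (hX q k1).1 contDiffAt_fst) contDiffAt_snd
      have g4 : ContDiffAt ℝ 1 (fun w : (ℂ × ℂ) × ℂ => G (X1 w.1, w.2)) (q, Y2 q) :=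
        ContDiffAt.comp (q, Y2 q) (g := G) (f := fun w : (ℂ × ℂ) × ℂ => (X1 w.1, w.2)) g1 g3
      have g5 : ContDiffAt ℝ 1 (fun w : (ℂ × ℂ) × ℂ => F w.1) (q, Y2 q) :=
        ContDiffAt.comp (q, Y2 q) (g := F) (f := fun w : (ℂ × ℂ) × ℂ => w.1) g2 contDiffAt_fst
      exact g4.sub g5
    · intro q hq
      obtain ⟨k1, k2, k3, k4⟩ := hU1 q hq
      obtain ⟨-, -, -, z4, -⟩ := hY2 q k1 k2 (r q.2) C0 (hrN q.2) k4.le
      refine ⟨dy G (X1 q, Y2 q), z4, fun w => ?_⟩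
      have hX1d : HasFDerivAt X1 (fderiv ℝ X1 q) q :=
        ((hX q k1).1.differentiableAt one_ne_zero).hasFDerivAt
      have hXd : HasFDerivAt (fun w : (ℂ × ℂ) × ℂ => X1 w.1)
          ((fderiv ℝ X1 q).comp (ContinuousLinearMap.fst ℝ (ℂ × ℂ) ℂ)) (q, Y2 q) :=
        HasFDerivAt.comp (q, Y2 q) (g := X1) (f := fun w : (ℂ × ℂ) × ℂ => w.1) hX1d hasFDerivAt_fst
      have hFd : HasFDerivAt (fun w : (ℂ × ℂ) × ℂ => F w.1)
          ((fderiv ℝ F q).comp (ContinuousLinearMap.fst ℝ (ℂ × ℂ) ℂ)) (q, Y2 q) := by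
        have h1 : HasFDerivAt F (fderiv ℝ F q) q :=
          ((hFan q (hpF q k1)).differentiableAt.restrictScalars ℝ).hasFDerivAt
        exact HasFDerivAt.comp (q, Y2 q) (g := F) (f := fun w : (ℂ × ℂ) × ℂ => w.1) h1
          hasFDerivAt_fst
      obtain ⟨f1, f2⟩ := fderiv_comp2 G (fun w : (ℂ × ℂ) × ℂ => X1 w.1)
        (fun w : (ℂ × ℂ) × ℂ => w.2) (q, Y2 q) (hGp q k1 k2).differentiableAt
        hXd.differentiableAt differentiableAt_snd (0, w)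
      rw [hXd.fderiv, fderiv_snd] at f2
      have f3 : fderiv ℝ (fun w : (ℂ × ℂ) × ℂ => G (X1 w.1, w.2) - F w.1) (q, Y2 q) =
          fderiv ℝ (fun w : (ℂ × ℂ) × ℂ => G (X1 w.1, w.2)) (q, Y2 q) -
            (fderiv ℝ F q).comp (ContinuousLinearMap.fst ℝ (ℂ × ℂ) ℂ) :=
        (f1.hasFDerivAt.sub hFd).fderiv
      rw [f3, sub_apply, f2]
      simp
  refine ⟨hC1', y1, fun hY => ?_, ?_, fun v w => ?_⟩
  · symm
    apply y3 _ _ hY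
    rw [sub_self, norm_zero]
    have : 0 < ‖t0‖ ^ (b C0) := Real.rpow_pos_of_pos t1 _
    positivity
  · obtain ⟨-, -, -, h10⟩ := (hsm t0 t1 t3).2 C0
    have h6 : ‖t0‖ ^ N = ‖p.2‖ := by rw [← norm_pow, ht0']
    rw [← h6]
    calc ‖Y2 p - Y p‖ ≤ R / 2 * ‖t0‖ ^ (b C0) := y2
      _ ≤ R / 2 * (κ * ‖t0‖ ^ N) := by gcongr
      _ = R / 2 * κ * ‖t0‖ ^ N := by ring
      _ ≤ ε * ‖t0‖ ^ N := by gcongr
  · -- the derivative
    have hev : ∀ᶠ q in 𝓝 p, G (X1 q, Y2 q) = F q := by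
      filter_upwards [(isOpen_Ud a1 ρ).mem_nhds hp,
        (hM.ck p (hUd p hp)).eventually_lt_const hk] with q q1 q2
      obtain ⟨t, C, ht, hC⟩ := hstrict q q1 q2
      exact (hY2 q q1 q2 t C ht hC.le).1
    have hXd := (hX p hp).1.differentiableAt one_ne_zero
    have hYd := hC1'.differentiableAt one_ne_zero
    obtain ⟨-, f2⟩ := fderiv_comp2 G X1 Y2 p (hGp p hp hk).differentiableAt hXd hYd (v, w)
    have f3 : fderiv ℝ (fun q => G (X1 q, Y2 q)) p = fderiv ℝ F p := Filter.EventuallyEq.fderiv_eq hev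
    rw [f3, G12_fd (hFan p (hpF p hp)).differentiableAt] at f2
    set A := fderiv ℝ X1 p (v, w) with hA
    set B := fderiv ℝ Y2 p (v, w) with hB
    set g1 := dx G (X1 p, Y2 p)
    set g2 := dy G (X1 p, Y2 p)
    have e1 : B - w = dx F p / g2 * v + (dy F p / g2 - 1) * w - g1 / g2 * A := by
      field_simp
      linear_combination -f2
    have e2 : ‖A‖ ≤ 2 * ‖v‖ + δ * ‖w‖ := by
      have h1 := (hX p hp).2.2 v w
      have h2 : ‖A‖ ≤ ‖A - v‖ + ‖v‖ := by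
        have := norm_add_le (A - v) v
        rwa [sub_add_cancel] at this
      linarith
    have e3 : ‖B - w‖ ≤ CK0 * ‖v‖ + ε / 2 * ‖w‖ + CK0 * (2 * ‖v‖ + δ * ‖w‖) := by
      rw [e1]
      refine (norm_sub_le _ _).trans (add_le_add ((norm_add_le _ _).trans
        (add_le_add ?_ ?_)) ?_)
      · rw [norm_mul]
        gcongr
      · rw [norm_mul]
        gcongr
      · rw [norm_mul]
        gcongr
    have e4 : CK0 * δ ≤ ε / 2 := by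
      calc CK0 * δ ≤ CK0 * (ε / (2 * CK0)) := by gcongr
        _ = ε / 2 := by field_simp
    have e5 : CK0 * δ * ‖w‖ ≤ ε / 2 * ‖w‖ := mul_le_mul_of_nonneg_right e4 (norm_nonneg _)
    nlinarith

end H24.LS
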