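import Pool.Agent.H24.LS.G0
import Pool.Agent.H24.LS.G10
import Pool.Agent.H24.LS.G12

/-!
# G13: the solution theorem in a chart

`τ` from `X1_exists`; `η1 = min (1/4) (τ/2)`; `K` from `X1_exists`; `CK` from `zoneI_sol` with `5 K` in place of `K`; final `CK` is
`max CK (max C1 (5 K))`.  `h1 = X1`; `h2 p = if km p < 4 K then Y2 p else Y p`.
* at `p` with `km p < 4K`: `h2 = Y2` near `p` (`km` continuous).  At `p` with `km p ≥ 4K`: near `p` we have `km > 3K`, hence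
  `G (X1, Y) = F`, hence (where `km < 5K`) `Y2 = Y`; so `h2 = Y` near `p`.
* `F p = G (h1 p, h2 p)`: `km < 4K`: `zoneI_sol`; else `X1_exists`.
* closeness: `‖X1 - p.1‖ ≤ ‖X1 - X0‖ + ‖X0 - p.1‖`, `‖X1 - X0‖ ≤ dm p ≤ ‖x - γ_C‖ ≤ 2 a1 ‖y‖`-like,
  `‖X0 - x‖ ≤ ‖Γ_C‖ + ‖γ_C‖ + δ(..) ≤ ε‖y‖` (`c ≥ 1`).  `‖Y - y‖ ≤ ‖Y - η_C‖ + ‖η_C - t^N‖ ≤ C1 (s_C + 2 a1 ‖y‖) + ε'‖y‖`.
-/

open Filter Topology Metric Asymptotics

namespace H24.LS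

theorem G13_mono {c N : ℕ} {b : Fin c → ℝ} {γ Γ η : Fin c → ℂ → ℂ} {Y X0 : ℂ × ℂ → ℂ}
    {C1 ε ε' a ρ : ℝ} (h : SDat N b γ Γ η Y X0 C1 ε a ρ) (hε : ε ≤ ε') :
    SDat N b γ Γ η Y X0 C1 ε' a ρ where
  ha := h.ha
  hρ := h.hρ
  cY := h.cY
  cX := h.cX
  S1 := h.S1
  S2 := fun x t hp C => (h.S2 x t hp C).trans (by
    refine mul_le_mul_of_nonneg_right hε ?_
    have := Real.rpow_nonneg (norm_nonneg t) (b C)
    positivity)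
  S3 := fun p hp v w => (h.S3 p hp v w).trans (by
    have := mul_le_mul_of_nonneg_right hε (norm_nonneg w)
    linarith)
  S4 := fun p hp v w => (h.S4 p hp v w).trans
    (mul_le_mul_of_nonneg_right hε (by positivity))

theorem solve {F G : ℂ × ℂ → ℂ} {k n N : ℕ} {u : ℂ} {c : ℕ} {m : Fin c → ℕ} {b : Fin c → ℝ}
    {γ v Γ η : Fin c → ℂ → ℂ} {a : Fin c → ℂ} {D : Fin c → ℕ}
    (h : CFa F G k n N u c m b γ v Γ η a D) (hc : 1 ≤ c)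
    {dm km : ℂ × ℂ → ℝ} {ρ0 : ℝ} (hM : Mins N b γ dm km ρ0) :
    ∀ C1 > (0 : ℝ), ∃ τ > (0 : ℝ), ∃ CK > (0 : ℝ), ∀ ε > (0 : ℝ), ∃ δ > (0 : ℝ),
      ∀ (a1 ρ : ℝ) (Y X0 : ℂ × ℂ → ℂ), a1 ≤ δ → ρ ≤ δ → SDat N b γ Γ η Y X0 C1 δ a1 ρ →
      ∃ h1 h2 : ℂ × ℂ → ℂ, ∀ p ∈ Ud a1 ρ,
        ContDiffAt ℝ 1 h1 p ∧ ContDiffAt ℝ 1 h2 p ∧ F p = G (h1 p, h2 p) ∧
        (∀ v w : ℂ, ‖fderiv ℝ h1 p (v, w) - v‖ ≤ 1 / 4 * ‖v‖ + ε * ‖w‖) ∧
        (∀ v w : ℂ, ‖fderiv ℝ h2 p (v, w) - w‖ ≤ CK * ‖v‖ + ε * ‖w‖) ∧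
        ‖h1 p - p.1‖ ≤ ε * ‖p.2‖ ∧ ‖h2 p - p.2‖ ≤ ε * ‖p.2‖ ∧
        (CK ≤ km p → h2 p = Y p ∧
          ∀ z, ‖z - X0 p‖ < τ * dm p → G (z, Y p) = F p → z = h1 p) := by
  classical
  intro C1 hC1
  have hN := h.clu.hN
  obtain ⟨τ, hτ, hX⟩ := X1_exists h hc hM C1 hC1
  obtain ⟨K, hK, hX⟩ := hX (1 / 4) (by norm_num)
  obtain ⟨CK0, hCK0, hI⟩ := zoneI_sol h hM C1 hC1 (5 * K) (by linarith)
  refine ⟨τ, hτ, max CK0 (max C1 (5 * K)), by positivity, ?_⟩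
  intro ε hε
  obtain ⟨δI, hδI, hI⟩ := hI (ε / 2) (by positivity)
  obtain ⟨δX, hδX, hX⟩ := hX (min ε δI) (by positivity)
  obtain ⟨κ, hκ, hκ1, hκε, hκC⟩ : ∃ κ > (0 : ℝ), κ ≤ 1 ∧ 8 * κ ≤ ε ∧
      (3 * C1 + 1) * κ ≤ ε / 2 := by
    refine ⟨min (min 1 (ε / 8)) (ε / 2 / (3 * C1 + 1)), by positivity, ?_, ?_, ?_⟩
    · exact (min_le_left _ _).trans (min_le_left _ _)
    · have : min (min 1 (ε / 8)) (ε / 2 / (3 * C1 + 1)) ≤ ε / 8 :=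
        (min_le_left _ _).trans (min_le_right _ _)
      linarith
    · calc (3 * C1 + 1) * min (min 1 (ε / 8)) (ε / 2 / (3 * C1 + 1)) ≤
          (3 * C1 + 1) * (ε / 2 / (3 * C1 + 1)) :=
            mul_le_mul_of_nonneg_left (min_le_right _ _) (by positivity)
        _ = ε / 2 := by field_simp
  obtain ⟨r0, hr0, hsm⟩ := G8_ev (P := fun t => ∀ C, ‖γ C t‖ ≤ κ * ‖t‖ ^ N ∧
      ‖Γ C t‖ ≤ κ * ‖t‖ ^ N ∧ ‖η C t - t ^ N‖ ≤ κ * ‖t‖ ^ N ∧ ‖t‖ ^ (b C) ≤ κ * ‖t‖ ^ N) (by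
    rw [eventually_all]
    intro C
    filter_upwards [(h.clu.gsm C).def hκ, (h.Γsm C).def hκ, (h.ηsm C).def hκ,
      G12_rpow (h.clu.hb C) hκ] with t h1 h2 h3 h4
    rw [norm_pow] at h1 h2 h3
    exact ⟨h1, h2, h3, h4⟩)
  have hρ0 := hM.h0
  obtain ⟨δ, hδ, s1, s2, s3, s4, s5, s6, s7⟩ : ∃ δ > (0 : ℝ), δ ≤ δI ∧ δ ≤ δX ∧ δ ≤ ρ0 ∧
      δ ≤ 1 ∧ δ ≤ κ ∧ δ ≤ r0 ^ N ∧ δ ≤ ε := by
    refine ⟨min (min (min δI δX) (min ρ0 1)) (min κ (min (r0 ^ N) ε)), by positivity,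
      ?_, ?_, ?_, ?_, ?_, ?_, ?_⟩ <;> simp
  refine ⟨δ, hδ, ?_⟩
  intro a1 ρ Y X0 ha1 hρ hS
  obtain ⟨X1, hX1⟩ := hX a1 ρ Y X0 (ha1.trans s2) (hρ.trans s2) (G13_mono hS s2)
  have hUd : ∀ p ∈ Ud a1 ρ, p ∈ Ud 1 ρ0 := by
    rintro p ⟨h1, h2, h3⟩
    refine ⟨h1, by linarith, ?_⟩
    have := mul_le_mul_of_nonneg_right (ha1.trans s4) (norm_nonneg p.2)
    linarith
  -- a root of the second component
  have hroot : ∀ p ∈ Ud a1 ρ, ∃ t : ℂ, 0 < ‖t‖ ∧ ‖t‖ < r0 ∧ ‖t‖ ^ N = ‖p.2‖ ∧ (p.1, t ^ N) = p := by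
    intro p hp
    obtain ⟨t, ht⟩ := IsAlgClosed.exists_pow_nat_eq p.2 (n := N) (by omega)
    have h1 : ‖t‖ ^ N = ‖p.2‖ := by rw [← norm_pow, ht]
    refine ⟨t, ?_, ?_, h1, by rw [ht]⟩
    · rw [norm_pos_iff]
      rintro rfl
      rw [norm_zero, zero_pow (by omega)] at h1
      have := hp.1
      linarith
    · refine lt_of_pow_lt_pow_left₀ N hr0.le ?_
      rw [h1]
      have := hp.2.1
      linarith
  have hdm : ∀ p ∈ Ud a1 ρ, 0 ≤ dm p := by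
    intro p hp
    obtain ⟨t, _, _, _, ht⟩ := hroot p hp
    obtain ⟨C, hC⟩ := hM.d2 p.1 t (by rw [ht]; exact hUd p hp)
    rw [ht] at hC
    rw [hC]
    exact norm_nonneg _
  obtain ⟨Y2, hY2⟩ := hI a1 ρ Y X0 X1 (ha1.trans s1) (hρ.trans s1) (G13_mono hS s1) (by
    intro p hp
    obtain ⟨e1, e2, e3, _⟩ := hX1 p hp
    refine ⟨e1, ?_, fun v w => ?_⟩
    · have := hdm p hp
      linarith
    · refine (e3 v w).trans ?_
      have h1 := norm_nonneg v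
      have h2 := mul_le_mul_of_nonneg_right (min_le_right ε δI) (norm_nonneg w)
      linarith)
  refine ⟨X1, fun p => if km p < 4 * K then Y2 p else Y p, ?_⟩
  intro p hp
  obtain ⟨x1, x2, x3, x4⟩ := hX1 p hp
  have hkc := hM.ck p (hUd p hp)
  -- near the point
  have hloc : (km p < 4 * K ∧ (fun p => if km p < 4 * K then Y2 p else Y p) =ᶠ[𝓝 p] Y2) ∨
      (4 * K ≤ km p ∧ (fun p => if km p < 4 * K then Y2 p else Y p) =ᶠ[𝓝 p] Y) := by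
    rcases lt_or_ge (km p) (4 * K) with hk | hk
    · left
      refine ⟨hk, ?_⟩
      filter_upwards [hkc.eventually (gt_mem_nhds hk)] with q hq
      rw [if_pos hq]
    · right
      refine ⟨hk, ?_⟩
      have h1 : 3 * K < km p := by linarith
      filter_upwards [hkc.eventually (lt_mem_nhds h1), (isOpen_Ud a1 ρ).mem_nhds hp] with q hq hqU
      split_ifs with hq4
      · exact (hY2 q hqU (by linarith)).2.2.1 ((hX1 q hqU).2.2.2 hq.le).1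
      · rfl
  -- estimates of the distance
  obtain ⟨t, ht0, htr, htN, htp⟩ := hroot p hp
  obtain ⟨g1, g2, g3, g4⟩ := hsm t ht0 htr ⟨0, hc⟩
  rw [htN] at g1 g2 g3 g4
  have hp2 : 0 ≤ ‖p.2‖ := norm_nonneg _
  have hx : ‖p.1‖ ≤ κ * ‖p.2‖ := by
    have h1 := hp.2.2.le
    have h2 := mul_le_mul_of_nonneg_right (ha1.trans s5) hp2
    linarith
  have hxg : ‖p.1 - γ ⟨0, hc⟩ t‖ ≤ 2 * κ * ‖p.2‖ := (norm_sub_le _ _).trans (by linarith)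
  have S1 := hS.S1 p.1 t (by rw [htp]; exact hp) ⟨0, hc⟩
  have S2 := hS.S2 p.1 t (by rw [htp]; exact hp) ⟨0, hc⟩
  rw [htp] at S1 S2
  have hYp : ‖Y p - p.2‖ ≤ ε / 2 * ‖p.2‖ := by
    have h1 : t ^ N = p.2 := congrArg Prod.snd htp
    have h2 : Y p - p.2 = (Y p - η ⟨0, hc⟩ t) + (η ⟨0, hc⟩ t - t ^ N) := by rw [h1]; ring
    rw [h2]
    refine (norm_add_le _ _).trans ?_
    have h3 : C1 * (‖t‖ ^ (b ⟨0, hc⟩) + ‖p.1 - γ ⟨0, hc⟩ t‖) ≤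
        C1 * (κ * ‖p.2‖ + 2 * κ * ‖p.2‖) :=
      mul_le_mul_of_nonneg_left (add_le_add g4 hxg) hC1.le
    have h4 := mul_le_mul_of_nonneg_right hκC hp2
    linarith
  have hX0p : ‖X1 p - p.1‖ ≤ ε * ‖p.2‖ := by
    have h1 : X1 p - p.1 = (X1 p - X0 p) + (X0 p - Γ ⟨0, hc⟩ t - (p.1 - γ ⟨0, hc⟩ t)) +
        (Γ ⟨0, hc⟩ t - γ ⟨0, hc⟩ t) := by ring
    rw [h1]
    have h2 : ‖X1 p - X0 p‖ ≤ 1 / 4 * (2 * κ * ‖p.2‖) := by
      refine x2.trans (mul_le_mul_of_nonneg_left ?_ (by norm_num))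
      have h3 := hM.d1 p.1 t (by rw [htp]; exact hUd p hp) ⟨0, hc⟩
      rw [htp] at h3
      exact h3.trans hxg
    have h3 : δ * (‖t‖ ^ (b ⟨0, hc⟩) + ‖p.1 - γ ⟨0, hc⟩ t‖) ≤
        1 * (κ * ‖p.2‖ + 2 * κ * ‖p.2‖) := by
      refine mul_le_mul s4 (add_le_add g4 hxg) ?_ zero_le_one
      have := Real.rpow_nonneg (norm_nonneg t) (b ⟨0, hc⟩)
      positivity
    have h4 := norm_sub_le (Γ ⟨0, hc⟩ t) (γ ⟨0, hc⟩ t)
    have h5 : 8 * κ * ‖p.2‖ ≤ ε * ‖p.2‖ := mul_le_mul_of_nonneg_right hκε hp2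
    have h6 : 0 ≤ κ * ‖p.2‖ := by positivity
    refine norm_add₃_le.trans ?_
    linarith
  refine ⟨x1, ?_, ?_, ?_, ?_, hX0p, ?_, ?_⟩
  · rcases hloc with ⟨hk, he⟩ | ⟨hk, he⟩
    · exact ((hY2 p hp (by linarith)).1).congr_of_eventuallyEq he
    · exact (hS.cY p hp).congr_of_eventuallyEq he
  · simp only
    split_ifs with hk
    · exact (hY2 p hp (by linarith)).2.1.symm
    · exact ((x4 (by linarith [not_lt.1 hk])).1).symm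
  · intro v w
    refine (x3 v w).trans ?_
    have := mul_le_mul_of_nonneg_right (min_le_left ε δI) (norm_nonneg w)
    linarith
  · intro v w
    have hv := norm_nonneg v
    have hw := norm_nonneg w
    rcases hloc with ⟨hk, he⟩ | ⟨hk, he⟩
    · rw [he.fderiv_eq]
      refine ((hY2 p hp (by linarith)).2.2.2.2 v w).trans ?_
      have h1 := mul_le_mul_of_nonneg_right (le_max_left CK0 (max C1 (5 * K))) hv
      have h2 : 0 ≤ ε * ‖w‖ := by positivity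
      linarith
    · rw [he.fderiv_eq]
      refine (hS.S3 p hp v w).trans ?_
      have h1 := mul_le_mul_of_nonneg_right
        ((le_max_left C1 (5 * K)).trans (le_max_right CK0 (max C1 (5 * K)))) hv
      have h2 := mul_le_mul_of_nonneg_right s7 hw
      linarith
  · simp only
    split_ifs with hk
    · have h1 := (hY2 p hp (by linarith)).2.2.2.1
      have h2 : Y2 p - p.2 = (Y2 p - Y p) + (Y p - p.2) := by ring
      rw [h2]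
      refine (norm_add_le _ _).trans ?_
      linarith
    · have : 0 ≤ ε * ‖p.2‖ := by positivity
      linarith
  · intro hCK
    have h5K : 5 * K ≤ km p := ((le_max_right _ _).trans (le_max_right _ _)).trans hCK
    have hn : ¬ km p < 4 * K := by
      rw [not_lt]
      linarith
    refine ⟨if_neg hn, (x4 (by linarith)).2⟩

end H24.LS
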