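import Pool.Agent.H24.LS.G0

/-!
# G2: Shepard weights

`shw q C z = (q C z)⁻¹^2 / Σ_{C'} (q C' z)⁻¹^2` for positive functions `q C` (squares of distances `ρ_C`).
* `shw_rho`: `χ_{C'} ρ_{C'} ≤ ρ_C`: `χ_{C'} ρ_{C'} = ρ_{C'}^{-3}/Σ ρ^{-4}`; if `ρ_{C'} ≤ ρ_C` use `χ ≤ 1`; otherwise
  `Σ ρ^{-4} ≥ ρ_C^{-4}` gives `χ_{C'} ρ_{C'} ≤ ρ_C^4/ρ_{C'}^3 ≤ ρ_C`.
* `shw_deriv`: with `f_C = (q C)^{-2}`: `Df_C = -2 f_C Dq_C/q_C`,
  `Dχ_C = Df_C/Σ - f_C ΣDf/(Σ)^2 = -2 χ_C Dq_C/q_C + 2 χ_C Σ_{C'} χ_{C'} Dq_{C'}/q_{C'}`.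
-/

open Filter Topology Metric Asymptotics

namespace H24.LS

noncomputable def shw {E : Type*} {c : ℕ} (q : Fin c → E → ℝ) (C : Fin c) (z : E) : ℝ :=
  (q C z)⁻¹ ^ 2 / ∑ C', (q C' z)⁻¹ ^ 2

theorem G2_pos {E : Type*} {c : ℕ} (q : Fin c → E → ℝ) (z : E)
    (hq : ∀ C, 0 < q C z) (C : Fin c) : 0 < (q C z)⁻¹ ^ 2 ∧
      (q C z)⁻¹ ^ 2 ≤ ∑ C', (q C' z)⁻¹ ^ 2 ∧ 0 < ∑ C', (q C' z)⁻¹ ^ 2 := by
  have h1 : 0 < (q C z)⁻¹ ^ 2 := pow_pos (inv_pos.2 (hq C)) 2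
  have h2 : (q C z)⁻¹ ^ 2 ≤ ∑ C', (q C' z)⁻¹ ^ 2 :=
    Finset.single_le_sum (f := fun C' => (q C' z)⁻¹ ^ 2) (fun C' _ => by positivity)
      (Finset.mem_univ C)
  exact ⟨h1, h2, h1.trans_le h2⟩

theorem shw_nonneg {E : Type*} {c : ℕ} (q : Fin c → E → ℝ) (C : Fin c) (z : E) :
    0 ≤ shw q C z := by
  unfold shw
  exact div_nonneg (by positivity) (Finset.sum_nonneg fun _ _ => by positivity)

theorem shw_sum {E : Type*} {c : ℕ} (hc : 1 ≤ c) (q : Fin c → E → ℝ) (z : E)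
    (hq : ∀ C, 0 < q C z) : ∑ C, shw q C z = 1 := by
  unfold shw
  rw [← Finset.sum_div]
  exact div_self (G2_pos q z hq ⟨0, hc⟩).2.2.ne'

theorem shw_rho {E : Type*} {c : ℕ} (q : Fin c → E → ℝ) (z : E)
    (hq : ∀ C, 0 < q C z) (C C' : Fin c) :
    shw q C' z * Real.sqrt (q C' z) ≤ Real.sqrt (q C z) := by
  obtain ⟨a1, a2, a3⟩ := G2_pos q z hq C
  obtain ⟨b1, b2, -⟩ := G2_pos q z hq C'
  have hs : 0 < Real.sqrt (q C z) := Real.sqrt_pos.2 (hq C)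
  have ht : 0 < Real.sqrt (q C' z) := Real.sqrt_pos.2 (hq C')
  have es : q C z = Real.sqrt (q C z) ^ 2 := (Real.sq_sqrt (hq C).le).symm
  have et : q C' z = Real.sqrt (q C' z) ^ 2 := (Real.sq_sqrt (hq C').le).symm
  rcases le_total (Real.sqrt (q C' z)) (Real.sqrt (q C z)) with h | h
  · have h1 : shw q C' z ≤ 1 := by
      unfold shw
      exact div_le_one_of_le₀ b2 a3.le
    calc shw q C' z * Real.sqrt (q C' z) ≤ 1 * Real.sqrt (q C' z) :=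
          mul_le_mul_of_nonneg_right h1 ht.le
      _ ≤ _ := by rw [one_mul]; exact h
  · have h1 : shw q C' z ≤ (q C' z)⁻¹ ^ 2 / (q C z)⁻¹ ^ 2 := by
      unfold shw
      exact div_le_div_of_nonneg_left b1.le a1 a2
    refine (mul_le_mul_of_nonneg_right h1 ht.le).trans ?_
    rw [es, et, Real.sqrt_sq hs.le, Real.sqrt_sq ht.le]
    generalize Real.sqrt (q C z) = s at *
    generalize Real.sqrt (q C' z) = t at *
    have e : (t ^ 2)⁻¹ ^ 2 / (s ^ 2)⁻¹ ^ 2 * t = s * (s ^ 3 / t ^ 3) := by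
      field_simp
    rw [e]
    have h3 : s ^ 3 / t ^ 3 ≤ 1 := by
      rw [div_le_one (by positivity)]
      exact pow_le_pow_left₀ hs.le h 3
    nlinarith

theorem shw_contDiff {E : Type*} [NormedAddCommGroup E] [NormedSpace ℝ E] {c : ℕ}
    (q : Fin c → E → ℝ) (z : E) (hq : ∀ C, 0 < q C z) (hd : ∀ C, ContDiffAt ℝ 1 (q C) z)
    (C : Fin c) : ContDiffAt ℝ 1 (shw q C) z := by
  have h1 : ∀ C, ContDiffAt ℝ 1 (fun z => (q C z)⁻¹ ^ 2) z := fun C =>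
    ((hd C).inv (hq C).ne').pow 2
  have h2 : ContDiffAt ℝ 1 (fun z => ∑ C', (q C' z)⁻¹ ^ 2) z :=
    ContDiffAt.sum (fun C' _ => h1 C')
  exact (h1 C).div h2 (G2_pos q z hq C).2.2.ne'

theorem shw_deriv {E : Type*} [NormedAddCommGroup E] [NormedSpace ℝ E] {c : ℕ}
    (q : Fin c → E → ℝ) (z : E) (hq : ∀ C, 0 < q C z) (hd : ∀ C, ContDiffAt ℝ 1 (q C) z)
    (C : Fin c) (u : E) :
    |fderiv ℝ (shw q C) z u| ≤ 2 * shw q C z * (|fderiv ℝ (q C) z u| / q C z +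
      ∑ C', shw q C' z * (|fderiv ℝ (q C') z u| / q C' z)) := by
  set l : ℝ → E := fun τ => z + τ • u with hl
  have hl0 : l 0 = z := by simp [hl]
  have hld : HasDerivAt l u 0 := by
    have h := ((hasDerivAt_id (0 : ℝ)).smul_const u).const_add z
    simpa [hl] using h
  have hdiff : ∀ g : E → ℝ, ContDiffAt ℝ 1 g z → HasDerivAt (fun τ => g (l τ)) (fderiv ℝ g z u) 0 := by
    intro g hg
    have h1 : HasFDerivAt g (fderiv ℝ g z) (l 0) := by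
      rw [hl0]
      exact (hg.differentiableAt (by norm_num)).hasFDerivAt
    exact h1.comp_hasDerivAt (0 : ℝ) hld
  set d : Fin c → ℝ := fun C => fderiv ℝ (q C) z u with hdd
  have hf : ∀ C, HasDerivAt (fun τ => (q C (l τ))⁻¹ ^ 2)
      (-2 * ((q C z)⁻¹ ^ 2 * (d C / q C z))) 0 := by
    intro C
    have h1 := (((hdiff (q C) (hd C)).fun_inv (by rw [hl0]; exact (hq C).ne')).fun_pow 2)
    rw [hl0] at h1
    refine h1.congr_deriv ?_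
    have := (hq C).ne'
    simp only [hdd]
    rw [show (2 - 1 : ℕ) = 1 from rfl, pow_one]
    push_cast
    field_simp
  have hS : HasDerivAt (fun τ => ∑ C', (q C' (l τ))⁻¹ ^ 2)
      (∑ C', -2 * ((q C' z)⁻¹ ^ 2 * (d C' / q C' z))) 0 :=
    HasDerivAt.fun_sum (fun C' _ => hf C')
  obtain ⟨a1, a2, a3⟩ := G2_pos q z hq C
  have hφ := (hf C).fun_div hS (by rw [hl0]; exact a3.ne')
  have hφ2 := hdiff (shw q C) (shw_contDiff q z hq hd C)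
  have e := hφ2.unique hφ
  rw [e, hl0]
  set S := ∑ C', (q C' z)⁻¹ ^ 2 with hSd
  have e2 : (-2 * ((q C z)⁻¹ ^ 2 * (d C / q C z)) * S -
      (q C z)⁻¹ ^ 2 * ∑ C', -2 * ((q C' z)⁻¹ ^ 2 * (d C' / q C' z))) / S ^ 2 =
      2 * ((q C z)⁻¹ ^ 2 / S) * (-(d C / q C z) +
        ∑ C', ((q C' z)⁻¹ ^ 2 / S) * (d C' / q C' z)) := by
    rw [← Finset.mul_sum]
    have e3 : ∑ C', ((q C' z)⁻¹ ^ 2 / S) * (d C' / q C' z) =
        (∑ C', (q C' z)⁻¹ ^ 2 * (d C' / q C' z)) / S := by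
      rw [Finset.sum_div]
      refine Finset.sum_congr rfl fun C' _ => ?_
      ring
    rw [e3]
    have := a3.ne'
    generalize (∑ C', (q C' z)⁻¹ ^ 2 * (d C' / q C' z)) = T
    generalize (q C z)⁻¹ ^ 2 = A
    generalize d C / q C z = D
    field_simp
    ring
  rw [e2]
  have hsh : ∀ C', shw q C' z = (q C' z)⁻¹ ^ 2 / S := fun C' => rfl
  simp only [← hsh]
  rw [abs_mul, abs_of_nonneg (mul_nonneg (by norm_num) (shw_nonneg q C z))]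
  refine mul_le_mul_of_nonneg_left ?_ (mul_nonneg (by norm_num) (shw_nonneg q C z))
  refine (abs_add_le _ _).trans (add_le_add ?_ ?_)
  · rw [abs_neg, abs_div, abs_of_pos (hq C)]
  · refine (Finset.abs_sum_le_sum_abs _ _).trans (Finset.sum_le_sum fun C' _ => ?_)
    rw [abs_mul, abs_of_nonneg (shw_nonneg q C' z), abs_div, abs_of_pos (hq C')]

end H24.LS
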