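import Pool.Agent.H24.LS.G0
import Pool.Agent.H24.LS.G1
import Pool.Agent.H24.LS.G2
import Pool.Agent.H24.LS.V0

/-!
# G3: the first approximation exists

Upstairs (functions of `(x,t)`, `0 < ‖t‖` small): `q_C(x,t) = ‖x - γ_C t‖^2 + (‖t‖^(b C))^2`, `ρ_C = √q_C`,
`s_C = ‖t‖^(b C)`, `χ_C = shw q C`,
`Yu (x,t) = Σ_C χ_C η_C t`, `Xu (x,t) = x + Σ_C χ_C (Γ_C t - γ_C t)`.
`Clu.inv`/`CFa.inv`: `q_{σC}(x,t) = q_C(x, ζ t)` etc., so `Yu (x, ζ t) = Yu (x,t)` (reindex the sums by `σ`, `‖ζ‖ = 1`); take a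
common small radius for the finitely many `ζ`.  `descend` gives `Y, X0`.
Estimates (`max(s_C, ‖x - γ_C‖) ≤ ρ_C ≤ s_C + ‖x - γ_C‖`, `‖γ_C - γ_C'‖ ≤ ρ_C + ρ_C'`; `L'` = constant of `ηpair`):
(S1) `‖Y - η_C‖ ≤ Σ χ_{C'} ‖η_{C'} - η_C‖ ≤ L' Σ χ_{C'} (ρ_C + ρ_{C'}) ≤ L' (1 + c) ρ_C` (`shw_rho`).
(S2) `X0 - Γ_C - (x - γ_C) = Σ χ_{C'} ((Γ_{C'} - γ_{C'}) - (Γ_C - γ_C))`, same with `ε` (`Γpair`).
(S3) Fix the point and let `C0` minimise `ρ`.  `Y = η_{C0} + Σ χ_C (η_C - η_{C0})` (`Σ χ = 1` near the point):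
  `DY (v,w) = Σ χ_C η_C'(t) w/(N t^(N-1)) + Σ Dχ_C(v,w) (η_C - η_{C0})` (`descend` formula).
  `η_C'(t)/(N t^(N-1)) → 1` (`ηsm`, `deriv_littleO`), `γ_C'(t)/t^(N-1) → 0`, `Γ_C'(t)/t^(N-1) → 0`.
  `|Dq_C(v,w)| ≤ 2 ‖x - γ_C‖ (‖v‖ + ε‖w‖) + 2 s_C (b C/N)(s_C/‖t‖^N) ‖w‖ ≤ 2 ρ_C (‖v‖ + 2ε ‖w‖)` (`b C > N`).
  `shw_deriv`: `|Dχ_C| ≤ 4 χ_C (1/ρ_C + Σ χ_{C'}/ρ_{C'}) (‖v‖ + 2ε‖w‖) ≤ 8 χ_C (1/ρ_{C0}) (‖v‖ + 2ε‖w‖)`,
  `‖η_C - η_{C0}‖ ≤ L' (ρ_C + ρ_{C0})` and `χ_C (ρ_C + ρ_{C0}) ≤ 2 ρ_{C0}`: total `≤ 16 c L' (‖v‖ + 2ε‖w‖)`.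
(S4) same with `Γ - γ` in place of `η`: every term has a factor `ε`.
The constant `C1` does not depend on `ε`.
-/
open Filter Topology Metric Asymptotics

namespace H24.LS

/-- the squared distances -/
noncomputable def G3_q {c : ℕ} (b : Fin c → ℝ) (γ : Fin c → ℂ → ℂ) (C : Fin c) (z : ℂ × ℂ) : ℝ :=
  ‖z.1 - γ C z.2‖ ^ 2 + (‖z.2‖ ^ (b C)) ^ 2

/-- the weighted mean of the functions `f C` -/
noncomputable def G3_mean {c : ℕ} (b : Fin c → ℝ) (γ f : Fin c → ℂ → ℂ) (z : ℂ × ℂ) : ℂ :=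
  ∑ C, shw (G3_q b γ) C z • f C z.2

theorem G3_q_pos {c : ℕ} (b : Fin c → ℝ) (γ : Fin c → ℂ → ℂ) (C : Fin c) {z : ℂ × ℂ}
    (hz : z.2 ≠ 0) : 0 < G3_q b γ C z := by
  have h1 : 0 < ‖z.2‖ := norm_pos_iff.2 hz
  have h2 : 0 < ‖z.2‖ ^ (b C) := Real.rpow_pos_of_pos h1 _
  unfold G3_q
  positivity

theorem G3_sqrt_ge1 {c : ℕ} (b : Fin c → ℝ) (γ : Fin c → ℂ → ℂ) (C : Fin c) (z : ℂ × ℂ) :
    ‖z.1 - γ C z.2‖ ≤ Real.sqrt (G3_q b γ C z) := by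
  apply Real.le_sqrt_of_sq_le
  unfold G3_q
  nlinarith [sq_nonneg (‖z.2‖ ^ (b C))]

theorem G3_sqrt_ge2 {c : ℕ} (b : Fin c → ℝ) (γ : Fin c → ℂ → ℂ) (C : Fin c) (z : ℂ × ℂ) :
    ‖z.2‖ ^ (b C) ≤ Real.sqrt (G3_q b γ C z) := by
  apply Real.le_sqrt_of_sq_le
  unfold G3_q
  nlinarith [sq_nonneg ‖z.1 - γ C z.2‖]

theorem G3_sqrt_le {c : ℕ} (b : Fin c → ℝ) (γ : Fin c → ℂ → ℂ) (C : Fin c) (z : ℂ × ℂ) :
    Real.sqrt (G3_q b γ C z) ≤ ‖z.2‖ ^ (b C) + ‖z.1 - γ C z.2‖ := by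
  have h1 : 0 ≤ ‖z.2‖ ^ (b C) := by positivity
  have h2 : 0 ≤ ‖z.1 - γ C z.2‖ := norm_nonneg _
  rw [Real.sqrt_le_left (by positivity)]
  unfold G3_q
  nlinarith

theorem G3_q_contDiff {c : ℕ} (b : Fin c → ℝ) (γ : Fin c → ℂ → ℂ) (C : Fin c) {x t : ℂ}
    (ht : t ≠ 0) (hγ : AnalyticAt ℂ (γ C) t) : ContDiffAt ℝ 1 (G3_q b γ C) (x, t) := by
  have h1 : ContDiffAt ℝ 1 (fun z : ℂ × ℂ => z.1 - γ C z.2) (x, t) := by
    have h2 : ContDiffAt ℝ 1 (γ C) t := (hγ.contDiffAt (n := 1)).restrict_scalars ℝ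
    have h3 : ContDiffAt ℝ 1 (fun z : ℂ × ℂ => γ C z.2) (x, t) :=
      ContDiffAt.comp (g := γ C) (f := fun z : ℂ × ℂ => z.2) (x, t) h2 contDiffAt_snd
    exact contDiffAt_fst.sub h3
  have h4 : ContDiffAt ℝ 1 (fun z : ℂ × ℂ => ‖z.2‖ ^ (b C)) (x, t) := by
    have h5 : ContDiffAt ℝ 1 (fun z : ℂ × ℂ => ‖z.2‖) (x, t) := contDiffAt_snd.norm ℝ ht
    exact h5.rpow_const_of_ne (norm_ne_zero_iff.2 ht)
  exact (h1.norm_sq ℝ).add (h4.pow 2)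

/-- bound for the derivative of the squared distance -/
theorem G3_q_deriv {c : ℕ} (b : Fin c → ℝ) (γ : Fin c → ℂ → ℂ) (C : Fin c) {x t : ℂ}
    (ht : t ≠ 0) (hb : 1 < b C) (hγ : AnalyticAt ℂ (γ C) t) {μ : ℝ} 
    (hγ' : ‖deriv (γ C) t‖ ≤ μ) (hs : b C * ‖t‖ ^ (b C - 1) ≤ μ) (v w : ℂ) :
    |fderiv ℝ (G3_q b γ C) (x, t) (v, w)| ≤
      2 * Real.sqrt (G3_q b γ C (x, t)) * (‖v‖ + 2 * μ * ‖w‖) := by
  have htn : 0 < ‖t‖ := norm_pos_iff.2 ht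
  have hμ : 0 ≤ μ := (norm_nonneg _).trans hγ'
  have h1 : HasFDerivAt (γ C) ((deriv (γ C) t) • (1 : ℂ →L[ℝ] ℂ)) t := by
    have := hγ.differentiableAt.hasDerivAt.hasFDerivAt.restrictScalars ℝ
    refine this.congr_fderiv ?_
    ext u <;> simp [mul_comm]
  have h2 : HasFDerivAt (fun z : ℂ × ℂ => z.1 - γ C z.2)
      (ContinuousLinearMap.fst ℝ ℂ ℂ - ((deriv (γ C) t) • (1 : ℂ →L[ℝ] ℂ)).comp
        (ContinuousLinearMap.snd ℝ ℂ ℂ)) (x, t) :=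
    hasFDerivAt_fst.sub (HasFDerivAt.comp (g := γ C) (f := fun z : ℂ × ℂ => z.2) (x, t) h1
      hasFDerivAt_snd)
  have h3 := h2.norm_sq
  have h4 : HasFDerivAt (fun z : ℂ × ℂ => ‖z.2‖ ^ (b C))
      (((b C * ‖t‖ ^ (b C - 2)) • innerSL ℝ t).comp (ContinuousLinearMap.snd ℝ ℂ ℂ)) (x, t) :=
    HasFDerivAt.comp (g := fun s : ℂ => ‖s‖ ^ (b C)) (f := fun z : ℂ × ℂ => z.2) (x, t)
      (hasFDerivAt_norm_rpow t hb) hasFDerivAt_snd
  have h5 := h3.add (h4.pow 2)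
  have h6 : fderiv ℝ (G3_q b γ C) (x, t) (v, w) =
      2 * inner ℝ (x - γ C t) (v - deriv (γ C) t * w) +
        2 * ‖t‖ ^ (b C) * (b C * ‖t‖ ^ (b C - 2) * inner ℝ t w) := by
    have h7 : HasFDerivAt (G3_q b γ C) _ (x, t) := h5
    rw [h7.fderiv]
    simp only [_root_.add_apply, _root_.smul_apply,
      ContinuousLinearMap.comp_apply, _root_.sub_apply, ContinuousLinearMap.coe_fst',
      ContinuousLinearMap.coe_snd', innerSL_apply_apply, one_apply_eq_self, smul_eq_mul,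
      nsmul_eq_mul]
    norm_num
  rw [h6]
  have e1 : |inner ℝ (x - γ C t) (v - deriv (γ C) t * w)| ≤
      Real.sqrt (G3_q b γ C (x, t)) * (‖v‖ + μ * ‖w‖) := by
    refine (abs_real_inner_le_norm _ _).trans ?_
    refine mul_le_mul (G3_sqrt_ge1 b γ C (x, t)) ?_ (norm_nonneg _) (Real.sqrt_nonneg _)
    refine (norm_sub_le _ _).trans ?_
    rw [norm_mul]
    have := mul_le_mul_of_nonneg_right hγ' (norm_nonneg w)
    linarith
  have e2 : |b C * ‖t‖ ^ (b C - 2) * inner ℝ t w| ≤ μ * ‖w‖ := by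
    have hbp : 0 < b C := by linarith
    have h8 : 0 ≤ b C * ‖t‖ ^ (b C - 2) := by positivity
    rw [abs_mul, abs_of_nonneg h8]
    calc b C * ‖t‖ ^ (b C - 2) * |inner ℝ t w| ≤ b C * ‖t‖ ^ (b C - 2) * (‖t‖ * ‖w‖) :=
          mul_le_mul_of_nonneg_left (abs_real_inner_le_norm _ _) h8
      _ = b C * (‖t‖ ^ (b C - 2) * ‖t‖) * ‖w‖ := by ring
      _ = b C * ‖t‖ ^ (b C - 1) * ‖w‖ := by
          have : ‖t‖ ^ (b C - 2) * ‖t‖ = ‖t‖ ^ (b C - 1) := by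
            rw [← Real.rpow_add_one htn.ne']
            congr 1
            ring
          rw [this]
      _ ≤ μ * ‖w‖ := mul_le_mul_of_nonneg_right hs (norm_nonneg _)
  have e3 : |‖t‖ ^ (b C) * (b C * ‖t‖ ^ (b C - 2) * inner ℝ t w)| ≤
      Real.sqrt (G3_q b γ C (x, t)) * (μ * ‖w‖) := by
    rw [abs_mul]
    refine mul_le_mul ?_ e2 (abs_nonneg _) (Real.sqrt_nonneg _)
    rw [abs_of_nonneg (by positivity)]
    exact G3_sqrt_ge2 b γ C (x, t)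
  calc |2 * inner ℝ (x - γ C t) (v - deriv (γ C) t * w) +
        2 * ‖t‖ ^ (b C) * (b C * ‖t‖ ^ (b C - 2) * inner ℝ t w)|
      ≤ |2 * inner ℝ (x - γ C t) (v - deriv (γ C) t * w)| +
        |2 * ‖t‖ ^ (b C) * (b C * ‖t‖ ^ (b C - 2) * inner ℝ t w)| := abs_add_le _ _
    _ = 2 * |inner ℝ (x - γ C t) (v - deriv (γ C) t * w)| +
        2 * |‖t‖ ^ (b C) * (b C * ‖t‖ ^ (b C - 2) * inner ℝ t w)| := by
        rw [abs_mul, mul_assoc 2 (‖t‖ ^ (b C)), abs_mul 2 (‖t‖ ^ (b C) * _), abs_of_pos (by norm_num : (0:ℝ) < 2)]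
    _ ≤ 2 * (Real.sqrt (G3_q b γ C (x, t)) * (‖v‖ + μ * ‖w‖)) +
        2 * (Real.sqrt (G3_q b γ C (x, t)) * (μ * ‖w‖)) := by linarith
    _ = _ := by ring

/-- the derivatives of the weights sum up to zero -/
theorem G3_sum_deriv {c : ℕ} (hc : 1 ≤ c) (b : Fin c → ℝ) (γ : Fin c → ℂ → ℂ) {x t : ℂ}
    (ht : t ≠ 0) (hγ : ∀ C, AnalyticAt ℂ (γ C) t) (u : ℂ × ℂ) :
    ∑ C, fderiv ℝ (shw (G3_q b γ) C) (x, t) u = 0 := by
  have hd : ∀ C, DifferentiableAt ℝ (shw (G3_q b γ) C) (x, t) := fun C =>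
    (shw_contDiff (G3_q b γ) (x, t) (fun C => G3_q_pos b γ C ht)
      (fun C => G3_q_contDiff b γ C ht (hγ C)) C).differentiableAt (by norm_num)
  have h1 : HasFDerivAt (fun z => ∑ C, shw (G3_q b γ) C z)
      (∑ C, fderiv ℝ (shw (G3_q b γ) C) (x, t)) (x, t) :=
    HasFDerivAt.fun_sum fun C _ => (hd C).hasFDerivAt
  have h2 : (fun z => ∑ C, shw (G3_q b γ) C z) =ᶠ[𝓝 (x, t)] fun _ => (1 : ℝ) := by
    have h3 : ∀ᶠ z : ℂ × ℂ in 𝓝 (x, t), z.2 ≠ 0 := continuousAt_snd.eventually_ne ht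
    filter_upwards [h3] with z hz
    exact shw_sum hc _ z fun C => G3_q_pos b γ C hz
  have h4 : HasFDerivAt (fun z => ∑ C, shw (G3_q b γ) C z) (0 : ℂ × ℂ →L[ℝ] ℝ) (x, t) :=
    (hasFDerivAt_const (1 : ℝ) (x, t)).congr_of_eventuallyEq h2
  have h5 := h1.unique h4
  rw [← _root_.sum_apply, h5]
  rfl

theorem G3_mean_contDiff {c : ℕ} (b : Fin c → ℝ) (γ f : Fin c → ℂ → ℂ) {x t : ℂ}
    (ht : t ≠ 0) (hγ : ∀ C, AnalyticAt ℂ (γ C) t) (hf : ∀ C, AnalyticAt ℂ (f C) t) :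
    ContDiffAt ℝ 1 (G3_mean b γ f) (x, t) := by
  refine ContDiffAt.sum fun C _ => ?_
  have h1 := shw_contDiff (G3_q b γ) (x, t) (fun C => G3_q_pos b γ C ht)
    (fun C => G3_q_contDiff b γ C ht (hγ C)) C
  have h2 : ContDiffAt ℝ 1 (f C) t := ((hf C).contDiffAt (n := 1)).restrict_scalars ℝ
  have h3 : ContDiffAt ℝ 1 (fun z : ℂ × ℂ => f C z.2) (x, t) :=
    ContDiffAt.comp (g := f C) (f := fun z : ℂ × ℂ => z.2) (x, t) h2 contDiffAt_snd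
  exact h1.smul h3

/-- weights times distances -/
theorem G3_weight {c : ℕ} (hc : 1 ≤ c) (b : Fin c → ℝ) (γ : Fin c → ℂ → ℂ) {x t : ℂ}
    (ht : t ≠ 0) (C C' : Fin c) :
    shw (G3_q b γ) C' (x, t) * (‖γ C' t - γ C t‖) ≤ 2 * Real.sqrt (G3_q b γ C (x, t)) := by
  have hq : ∀ C, 0 < G3_q b γ C (x, t) := fun C => G3_q_pos b γ C ht
  have h1 := shw_rho (G3_q b γ) (x, t) hq C C'
  have h0 := shw_nonneg (G3_q b γ) C' (x, t)
  have h2 : shw (G3_q b γ) C' (x, t) ≤ 1 := by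
    rw [← shw_sum hc (G3_q b γ) (x, t) hq]
    exact Finset.single_le_sum (fun i _ => shw_nonneg (G3_q b γ) i (x, t)) (Finset.mem_univ C')
  have h3 : ‖γ C' t - γ C t‖ ≤ Real.sqrt (G3_q b γ C' (x, t)) + Real.sqrt (G3_q b γ C (x, t)) := by
    have e1 := G3_sqrt_ge1 b γ C (x, t)
    have e2 := G3_sqrt_ge1 b γ C' (x, t)
    have e3 : γ C' t - γ C t = (x - γ C t) - (x - γ C' t) := by ring
    rw [e3]
    refine (norm_sub_le _ _).trans ?_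
    simp only at e1 e2
    linarith
  have h4 : 0 ≤ Real.sqrt (G3_q b γ C (x, t)) := Real.sqrt_nonneg _
  calc shw (G3_q b γ) C' (x, t) * (‖γ C' t - γ C t‖)
      ≤ shw (G3_q b γ) C' (x, t) * (Real.sqrt (G3_q b γ C' (x, t)) + Real.sqrt (G3_q b γ C (x, t))) :=
        mul_le_mul_of_nonneg_left h3 h0
    _ = shw (G3_q b γ) C' (x, t) * Real.sqrt (G3_q b γ C' (x, t)) +
        shw (G3_q b γ) C' (x, t) * Real.sqrt (G3_q b γ C (x, t)) := by ring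
    _ ≤ Real.sqrt (G3_q b γ C (x, t)) + 1 * Real.sqrt (G3_q b γ C (x, t)) :=
        add_le_add h1 (mul_le_mul_of_nonneg_right h2 h4)
    _ = _ := by ring

/-- value estimate -/
theorem G3_mean_value {c : ℕ} (hc : 1 ≤ c) (b : Fin c → ℝ) (γ f : Fin c → ℂ → ℂ) {x t : ℂ}
    (ht : t ≠ 0) {K : ℝ} (hK0 : 0 ≤ K) (hK : ∀ C C', ‖f C t - f C' t‖ ≤ K * ‖γ C t - γ C' t‖)
    (C : Fin c) :
    ‖G3_mean b γ f (x, t) - f C t‖ ≤ 2 * c * K * (‖t‖ ^ (b C) + ‖x - γ C t‖) := by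
  have hq : ∀ C, 0 < G3_q b γ C (x, t) := fun C => G3_q_pos b γ C ht
  have h1 : G3_mean b γ f (x, t) - f C t = ∑ C', shw (G3_q b γ) C' (x, t) • (f C' t - f C t) := by
    simp only [smul_sub]
    rw [Finset.sum_sub_distrib, ← Finset.sum_smul, shw_sum hc _ _ hq, one_smul]
    rfl
  rw [h1]
  have h2 : ∀ C' ∈ (Finset.univ : Finset (Fin c)), ‖shw (G3_q b γ) C' (x, t) • (f C' t - f C t)‖ ≤
      2 * K * (‖t‖ ^ (b C) + ‖x - γ C t‖) := by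
    intro C' _
    rw [norm_smul, Real.norm_eq_abs, abs_of_nonneg (shw_nonneg _ _ _)]
    have e1 := G3_weight hc b γ ht (x := x) C C'
    have e2 := G3_sqrt_le b γ C (x, t)
    simp only at e2
    calc shw (G3_q b γ) C' (x, t) * ‖f C' t - f C t‖
        ≤ shw (G3_q b γ) C' (x, t) * (K * ‖γ C' t - γ C t‖) :=
          mul_le_mul_of_nonneg_left (hK C' C) (shw_nonneg _ _ _)
      _ = K * (shw (G3_q b γ) C' (x, t) * ‖γ C' t - γ C t‖) := by ring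
      _ ≤ K * (2 * (‖t‖ ^ (b C) + ‖x - γ C t‖)) :=
          mul_le_mul_of_nonneg_left (e1.trans (by linarith)) hK0
      _ = _ := by ring
  refine (norm_sum_le _ _).trans ((Finset.sum_le_sum h2).trans ?_)
  rw [Finset.sum_const, Finset.card_univ, Fintype.card_fin, nsmul_eq_mul]
  apply le_of_eq
  ring

/-- derivative estimate -/
theorem G3_mean_deriv {c : ℕ} (hc : 1 ≤ c) (b : Fin c → ℝ) (γ f : Fin c → ℂ → ℂ) {x t : ℂ}
    (ht : t ≠ 0) (hγ : ∀ C, AnalyticAt ℂ (γ C) t) (hf : ∀ C, AnalyticAt ℂ (f C) t)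
    {K κ μ : ℝ} (hK0 : 0 ≤ K) (hK : ∀ C C', ‖f C t - f C' t‖ ≤ K * ‖γ C t - γ C' t‖)
    {e : ℂ} (he : ∀ C, ‖deriv (f C) t - e‖ ≤ κ) (hb : ∀ C, 1 < b C)
    (hγ' : ∀ C, ‖deriv (γ C) t‖ ≤ μ) (hs : ∀ C, b C * ‖t‖ ^ (b C - 1) ≤ μ) (v w : ℂ) :
    ‖fderiv ℝ (G3_mean b γ f) (x, t) (v, w) - e * w‖ ≤
      κ * ‖w‖ + 16 * c * K * (‖v‖ + 2 * μ * ‖w‖) := by
  have hq : ∀ C, 0 < G3_q b γ C (x, t) := fun C => G3_q_pos b γ C ht
  have hqd : ∀ C, ContDiffAt ℝ 1 (G3_q b γ C) (x, t) := fun C => G3_q_contDiff b γ C ht (hγ C)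
  have hd : ∀ C, DifferentiableAt ℝ (shw (G3_q b γ) C) (x, t) := fun C =>
    (shw_contDiff _ _ hq hqd C).differentiableAt (by norm_num)
  -- the nearest centre
  have : Nonempty (Fin c) := ⟨⟨0, hc⟩⟩
  obtain ⟨C0, hC0⟩ := Finite.exists_min fun C => Real.sqrt (G3_q b γ C (x, t))
  set R : ℝ := Real.sqrt (G3_q b γ C0 (x, t)) with hR
  have hRpos : 0 < R := Real.sqrt_pos.2 (hq C0)
  set ω : ℝ := ‖v‖ + 2 * μ * ‖w‖ with hω
  have hμ : 0 ≤ μ := (norm_nonneg _).trans (hγ' C0)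
  have hω0 : 0 ≤ ω := by positivity
  -- the derivative
  have hfd : fderiv ℝ (G3_mean b γ f) (x, t) (v, w) =
      ∑ C, (shw (G3_q b γ) C (x, t) • (deriv (f C) t * w) +
        fderiv ℝ (shw (G3_q b γ) C) (x, t) (v, w) • f C t) := by
    have h2 : ∀ C, HasFDerivAt (fun z : ℂ × ℂ => f C z.2)
        (((deriv (f C) t) • (1 : ℂ →L[ℝ] ℂ)).comp (ContinuousLinearMap.snd ℝ ℂ ℂ)) (x, t) := by
      intro C
      have h1 : HasFDerivAt (f C) ((deriv (f C) t) • (1 : ℂ →L[ℝ] ℂ)) t := by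
        have := (hf C).differentiableAt.hasDerivAt.hasFDerivAt.restrictScalars ℝ
        refine this.congr_fderiv ?_
        ext u <;> simp [mul_comm]
      exact HasFDerivAt.comp (g := f C) (f := fun z : ℂ × ℂ => z.2) (x, t) h1 hasFDerivAt_snd
    have h3 : HasFDerivAt (G3_mean b γ f) (∑ C, (shw (G3_q b γ) C (x, t) •
        (((deriv (f C) t) • (1 : ℂ →L[ℝ] ℂ)).comp (ContinuousLinearMap.snd ℝ ℂ ℂ)) +
        (fderiv ℝ (shw (G3_q b γ) C) (x, t)).smulRight (f C t))) (x, t) :=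
      HasFDerivAt.fun_sum fun C _ => (hd C).hasFDerivAt.smul (h2 C)
    rw [h3.fderiv, _root_.sum_apply]
    refine Finset.sum_congr rfl fun C _ => ?_
    simp
  have hsplit : fderiv ℝ (G3_mean b γ f) (x, t) (v, w) - e * w =
      ∑ C, shw (G3_q b γ) C (x, t) • ((deriv (f C) t - e) * w) +
      ∑ C, fderiv ℝ (shw (G3_q b γ) C) (x, t) (v, w) • (f C t - f C0 t) := by
    have h1 : ∑ C, fderiv ℝ (shw (G3_q b γ) C) (x, t) (v, w) • (f C t - f C0 t) =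
        ∑ C, fderiv ℝ (shw (G3_q b γ) C) (x, t) (v, w) • f C t := by
      simp only [smul_sub]
      rw [Finset.sum_sub_distrib, ← Finset.sum_smul, G3_sum_deriv hc b γ ht hγ, zero_smul, sub_zero]
    have h2 : ∑ C, shw (G3_q b γ) C (x, t) • ((deriv (f C) t - e) * w) =
        ∑ C, shw (G3_q b γ) C (x, t) • (deriv (f C) t * w) - e * w := by
      simp only [sub_mul, smul_sub]
      rw [Finset.sum_sub_distrib, ← Finset.sum_smul, shw_sum hc _ _ hq, one_smul]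
    rw [h1, h2, hfd, Finset.sum_add_distrib]
    ring
  rw [hsplit]
  have hfirst : ‖∑ C, shw (G3_q b γ) C (x, t) • ((deriv (f C) t - e) * w)‖ ≤ κ * ‖w‖ := by
    calc ‖∑ C, shw (G3_q b γ) C (x, t) • ((deriv (f C) t - e) * w)‖
        ≤ ∑ C, shw (G3_q b γ) C (x, t) * (κ * ‖w‖) := by
          refine (norm_sum_le _ _).trans (Finset.sum_le_sum fun C _ => ?_)
          rw [norm_smul, Real.norm_eq_abs, abs_of_nonneg (shw_nonneg _ _ _), norm_mul]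
          exact mul_le_mul_of_nonneg_left (mul_le_mul_of_nonneg_right (he C) (norm_nonneg _))
            (shw_nonneg _ _ _)
      _ = κ * ‖w‖ := by rw [← Finset.sum_mul, shw_sum hc _ _ hq, one_mul]
  -- the derivative of the weights
  have hqr : ∀ C, |fderiv ℝ (G3_q b γ C) (x, t) (v, w)| / G3_q b γ C (x, t) ≤ 2 * ω / R := by
    intro C
    have h1 := G3_q_deriv b γ C ht (hb C) (hγ C) (hγ' C) (hs C) (x := x) v w
    have h2 : 0 < Real.sqrt (G3_q b γ C (x, t)) := Real.sqrt_pos.2 (hq C)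
    have h3 : R ≤ Real.sqrt (G3_q b γ C (x, t)) := hC0 C
    have h4 : Real.sqrt (G3_q b γ C (x, t)) * Real.sqrt (G3_q b γ C (x, t)) = G3_q b γ C (x, t) :=
      Real.mul_self_sqrt (hq C).le
    rw [div_le_div_iff₀ (hq C) hRpos]
    calc |fderiv ℝ (G3_q b γ C) (x, t) (v, w)| * R
        ≤ (2 * Real.sqrt (G3_q b γ C (x, t)) * ω) * Real.sqrt (G3_q b γ C (x, t)) :=
          mul_le_mul h1 h3 hRpos.le (by positivity)
      _ = 2 * ω * (Real.sqrt (G3_q b γ C (x, t)) * Real.sqrt (G3_q b γ C (x, t))) := by ring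
      _ = 2 * ω * G3_q b γ C (x, t) := by rw [h4]
  have hχ : ∀ C, |fderiv ℝ (shw (G3_q b γ) C) (x, t) (v, w)| ≤
      8 * ω / R * shw (G3_q b γ) C (x, t) := by
    intro C
    have h1 := shw_deriv (G3_q b γ) (x, t) hq hqd C (v, w)
    have h2 : ∑ C', shw (G3_q b γ) C' (x, t) *
        (|fderiv ℝ (G3_q b γ C') (x, t) (v, w)| / G3_q b γ C' (x, t)) ≤ 2 * ω / R := by
      calc ∑ C', shw (G3_q b γ) C' (x, t) *
            (|fderiv ℝ (G3_q b γ C') (x, t) (v, w)| / G3_q b γ C' (x, t))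
          ≤ ∑ C', shw (G3_q b γ) C' (x, t) * (2 * ω / R) :=
            Finset.sum_le_sum fun C' _ => mul_le_mul_of_nonneg_left (hqr C') (shw_nonneg _ _ _)
        _ = 2 * ω / R := by rw [← Finset.sum_mul, shw_sum hc _ _ hq, one_mul]
    have h3 := hqr C
    have h4 := shw_nonneg (G3_q b γ) C (x, t)
    calc |fderiv ℝ (shw (G3_q b γ) C) (x, t) (v, w)|
        ≤ 2 * shw (G3_q b γ) C (x, t) * (2 * ω / R + 2 * ω / R) :=
          h1.trans (mul_le_mul_of_nonneg_left (add_le_add h3 h2) (by positivity))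
      _ = _ := by ring
  have hsecond : ‖∑ C, fderiv ℝ (shw (G3_q b γ) C) (x, t) (v, w) • (f C t - f C0 t)‖ ≤
      16 * c * K * ω := by
    have h1 : ∀ C ∈ (Finset.univ : Finset (Fin c)),
        ‖fderiv ℝ (shw (G3_q b γ) C) (x, t) (v, w) • (f C t - f C0 t)‖ ≤ 16 * K * ω := by
      intro C _
      rw [norm_smul, Real.norm_eq_abs]
      have e1 := G3_weight hc b γ ht (x := x) C0 C
      have e0 := shw_nonneg (G3_q b γ) C (x, t)
      calc |fderiv ℝ (shw (G3_q b γ) C) (x, t) (v, w)| * ‖f C t - f C0 t‖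
          ≤ (8 * ω / R * shw (G3_q b γ) C (x, t)) * (K * ‖γ C t - γ C0 t‖) :=
            mul_le_mul (hχ C) (hK C C0) (norm_nonneg _) (by positivity)
        _ = 8 * ω / R * K * (shw (G3_q b γ) C (x, t) * ‖γ C t - γ C0 t‖) := by ring
        _ ≤ 8 * ω / R * K * (2 * R) := mul_le_mul_of_nonneg_left e1 (by positivity)
        _ = 16 * K * ω := by field_simp; ring
    refine (norm_sum_le _ _).trans ((Finset.sum_le_sum h1).trans ?_)
    rw [Finset.sum_const, Finset.card_univ, Fintype.card_fin, nsmul_eq_mul]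
    apply le_of_eq
    ring
  exact (norm_add_le _ _).trans (add_le_add hfirst hsecond)

/-- facts on a fixed small punctured disc -/
theorem G3_pack {F G : ℂ × ℂ → ℂ} {k n N : ℕ} {u : ℂ} {c : ℕ} {m : Fin c → ℕ} {b : Fin c → ℝ}
    {γ v Γ η : Fin c → ℂ → ℂ} {a : Fin c → ℂ} {D : Fin c → ℕ}
    (h : CFa F G k n N u c m b γ v Γ η a D) :
    ∃ L : ℝ, 1 ≤ L ∧ ∃ r > (0 : ℝ),
      (∀ t : ℂ, 0 < ‖t‖ → ‖t‖ < r →
        (∀ C, AnalyticAt ℂ (γ C) t ∧ AnalyticAt ℂ (Γ C) t ∧ AnalyticAt ℂ (η C) t) ∧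
        (∀ C C', ‖η C t - η C' t‖ ≤ L * ‖γ C t - γ C' t‖)) ∧
      (∀ ζ : ℂ, ζ ^ N = 1 → ∃ τ : Equiv.Perm (Fin c), ∀ C, b (τ C) = b C ∧
        ∀ t : ℂ, 0 < ‖t‖ → ‖t‖ < r →
          γ (τ C) t = γ C (ζ * t) ∧ Γ (τ C) t = Γ C (ζ * t) ∧ η (τ C) t = η C (ζ * t)) := by
  -- constants of ηpair
  have h1 : ∀ C C', ∃ L : ℝ, ∀ᶠ t in 𝓝[≠] (0 : ℂ), ‖η C t - η C' t‖ ≤ L * ‖γ C t - γ C' t‖ :=
    fun C C' => (h.ηpair C C').bound
  choose L0 hL0 using h1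
  set L : ℝ := 1 + ∑ C, ∑ C', |L0 C C'| with hL
  have hLge : 1 ≤ L := by
    have : 0 ≤ ∑ C, ∑ C', |L0 C C'| := Finset.sum_nonneg fun C _ => Finset.sum_nonneg fun C' _ =>
      abs_nonneg _
    linarith
  have hLle : ∀ C C', L0 C C' ≤ L := by
    intro C C'
    have e1 : |L0 C C'| ≤ ∑ C', |L0 C C'| :=
      Finset.single_le_sum (f := fun C' => |L0 C C'|) (fun i _ => abs_nonneg _) (Finset.mem_univ C')
    have e2 : ∑ C', |L0 C C'| ≤ ∑ C, ∑ C', |L0 C C'| :=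
      Finset.single_le_sum (f := fun C => ∑ C', |L0 C C'|)
        (fun i _ => Finset.sum_nonneg fun C' _ => abs_nonneg _) (Finset.mem_univ C)
    have e3 := le_abs_self (L0 C C')
    linarith
  -- roots of unity
  have h2 : ∀ ζ : ℂ, ∃ τ : Equiv.Perm (Fin c), ζ ^ N = 1 → ∀ C, b (τ C) = b C ∧
      ∀ᶠ t in 𝓝[≠] (0 : ℂ),
        γ (τ C) t = γ C (ζ * t) ∧ Γ (τ C) t = Γ C (ζ * t) ∧ η (τ C) t = η C (ζ * t) := by
    intro ζ
    by_cases hζ : ζ ^ N = 1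
    · obtain ⟨τ, hτ⟩ := h.inv ζ hζ
      exact ⟨τ, fun _ C => ⟨(hτ C).2.1, (hτ C).2.2.filter_mono nhdsWithin_le_nhds⟩⟩
    · exact ⟨1, fun h => absurd h hζ⟩
  choose τ hτ using h2
  have hfin : {ζ : ℂ | ζ ^ N = 1}.Finite := by
    have hN := h.clu.hN
    have : {ζ : ℂ | ζ ^ N = 1} ⊆ ((Polynomial.nthRoots N (1 : ℂ)).toFinset : Set ℂ) := by
      intro ζ hζ
      simp only [Finset.mem_coe, Multiset.mem_toFinset]
      exact (Polynomial.mem_nthRoots (by omega)).2 hζ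
    exact Set.Finite.subset (Finset.finite_toSet _) this
  have hEv : ∀ᶠ t in 𝓝[≠] (0 : ℂ),
      ((∀ C, AnalyticAt ℂ (γ C) t ∧ AnalyticAt ℂ (Γ C) t ∧ AnalyticAt ℂ (η C) t) ∧
        (∀ C C', ‖η C t - η C' t‖ ≤ L * ‖γ C t - γ C' t‖)) ∧
      (∀ ζ ∈ {ζ : ℂ | ζ ^ N = 1}, ∀ C,
          γ (τ ζ C) t = γ C (ζ * t) ∧ Γ (τ ζ C) t = Γ C (ζ * t) ∧ η (τ ζ C) t = η C (ζ * t)) := by
    refine Filter.Eventually.and (Filter.Eventually.and ?_ ?_) ?_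
    · rw [Filter.eventually_all]
      intro C
      exact ((h.clu.gan C).eventually_analyticAt.and
        ((h.Γan C).eventually_analyticAt.and (h.ηan C).eventually_analyticAt)).filter_mono
        nhdsWithin_le_nhds
    · rw [Filter.eventually_all]
      intro C
      rw [Filter.eventually_all]
      intro C'
      filter_upwards [hL0 C C'] with t ht
      exact ht.trans (mul_le_mul_of_nonneg_right (hLle C C') (norm_nonneg _))
    · rw [Filter.eventually_all_finite hfin]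
      intro ζ hζ
      rw [Filter.eventually_all]
      intro C
      exact (hτ ζ hζ C).2
  rw [eventually_nhdsWithin_iff, Metric.eventually_nhds_iff] at hEv
  obtain ⟨r, hr, hr'⟩ := hEv
  have key : ∀ t : ℂ, 0 < ‖t‖ → ‖t‖ < r → _ := fun t h0 h1 =>
    hr' (y := t) (by simpa [dist_zero_right] using h1) (by simpa using h0)
  refine ⟨L, hLge, r, hr, fun t h0 h1 => (key t h0 h1).1, fun ζ hζ => ⟨τ ζ, fun C => ⟨(hτ ζ hζ C).1,
    fun t h0 h1 => (key t h0 h1).2 ζ hζ C⟩⟩⟩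

theorem G3_div {N : ℕ} (hN : 1 ≤ N) {φ : ℂ → ℂ} (hφ : (fun t => t * φ t) =o[𝓝[≠] 0] (fun t : ℂ => t ^ N))
    {ε : ℝ} (hε : 0 < ε) : ∀ᶠ t in 𝓝[≠] (0 : ℂ), ‖φ t‖ ≤ ε * ‖t‖ ^ (N - 1) := by
  have h1 := hφ.def hε
  filter_upwards [h1, self_mem_nhdsWithin] with t ht ht0
  have h2 : 0 < ‖t‖ := norm_pos_iff.2 ht0
  rw [norm_mul, norm_pow] at ht
  have h3 : ‖t‖ ^ N = ‖t‖ * ‖t‖ ^ (N - 1) := by
    rw [← pow_succ', Nat.sub_add_cancel hN]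
  rw [h3] at ht
  have h4 : ‖t‖ * ‖φ t‖ ≤ ‖t‖ * (ε * ‖t‖ ^ (N - 1)) := by linarith
  exact le_of_mul_le_mul_left h4 h2

/-- facts with small constants -/
theorem G3_eps {F G : ℂ × ℂ → ℂ} {k n N : ℕ} {u : ℂ} {c : ℕ} {m : Fin c → ℕ} {b : Fin c → ℝ}
    {γ v Γ η : Fin c → ℂ → ℂ} {a : Fin c → ℂ} {D : Fin c → ℕ}
    (h : CFa F G k n N u c m b γ v Γ η a D) {ε : ℝ} (hε : 0 < ε) :
    ∃ δ > (0 : ℝ), ∀ t : ℂ, 0 < ‖t‖ → ‖t‖ < δ →
      (∀ C C', ‖(Γ C t - Γ C' t) - (γ C t - γ C' t)‖ ≤ ε * ‖γ C t - γ C' t‖) ∧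
      (∀ C, ‖deriv (η C) t - N * t ^ (N - 1)‖ ≤ ε * ‖t‖ ^ (N - 1) ∧
        ‖deriv (γ C) t‖ ≤ ε * ‖t‖ ^ (N - 1) ∧ ‖deriv (Γ C) t‖ ≤ ε * ‖t‖ ^ (N - 1) ∧
        b C * ‖t‖ ^ (b C - 1) ≤ ε * ‖t‖ ^ (N - 1)) := by
  have hN := h.clu.hN
  have hpow : AnalyticAt ℂ (fun t : ℂ => t ^ N) 0 := analyticAt_id.pow N
  have hEv : ∀ᶠ t in 𝓝[≠] (0 : ℂ),
      (∀ C C', ‖(Γ C t - Γ C' t) - (γ C t - γ C' t)‖ ≤ ε * ‖γ C t - γ C' t‖) ∧
      (∀ C, ‖deriv (η C) t - N * t ^ (N - 1)‖ ≤ ε * ‖t‖ ^ (N - 1) ∧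
        ‖deriv (γ C) t‖ ≤ ε * ‖t‖ ^ (N - 1) ∧ ‖deriv (Γ C) t‖ ≤ ε * ‖t‖ ^ (N - 1) ∧
        b C * ‖t‖ ^ (b C - 1) ≤ ε * ‖t‖ ^ (N - 1)) := by
    refine Filter.Eventually.and ?_ ?_
    · rw [Filter.eventually_all]
      intro C
      rw [Filter.eventually_all]
      intro C'
      exact (h.Γpair C C').def hε
    · rw [Filter.eventually_all]
      intro C
      have e1 := G3_div hN (deriv_littleO _ _ ((h.ηan C).sub hpow) hpow (h.ηsm C)) hε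
      have e2 := G3_div hN (deriv_littleO _ _ (h.clu.gan C) hpow (h.clu.gsm C)) hε
      have e3 := G3_div hN (deriv_littleO _ _ (h.Γan C) hpow (h.Γsm C)) hε
      have e4 : ∀ᶠ t in 𝓝[≠] (0 : ℂ), b C * ‖t‖ ^ (b C - N) ≤ ε := by
        have h1 : Tendsto (fun t : ℂ => b C * ‖t‖ ^ (b C - N)) (𝓝[≠] (0 : ℂ)) (𝓝 (b C * 0)) := by
          apply Tendsto.const_mul
          have h2 : 0 < b C - N := by linarith [h.clu.hb C]
          have h3 : Tendsto (fun t : ℂ => ‖t‖ ^ (b C - N)) (𝓝 (0 : ℂ)) (𝓝 (‖(0:ℂ)‖ ^ (b C - N))) :=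
            (continuous_norm.continuousAt.rpow_const (Or.inr h2.le)).tendsto
          rw [norm_zero, Real.zero_rpow h2.ne'] at h3
          exact h3.mono_left nhdsWithin_le_nhds
        rw [mul_zero] at h1
        exact (h1.eventually (gt_mem_nhds hε)).mono fun t ht => ht.le
      have e5 : ∀ᶠ t in 𝓝[≠] (0 : ℂ), AnalyticAt ℂ (η C) t :=
        (h.ηan C).eventually_analyticAt.filter_mono nhdsWithin_le_nhds
      filter_upwards [e1, e2, e3, e4, e5, self_mem_nhdsWithin] with t f1 f2 f3 f4 f5 f6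
      have f7 : 0 < ‖t‖ := norm_pos_iff.2 f6
      refine ⟨?_, f2, f3, ?_⟩
      · have h1 : deriv (η C - fun t : ℂ => t ^ N) t = deriv (η C) t - N * t ^ (N - 1) := by
          rw [deriv_sub f5.differentiableAt (differentiableAt_pow N)]
          simp
        rw [← h1]
        exact f1
      · have h1 : ‖t‖ ^ (b C - 1) = ‖t‖ ^ (b C - N) * ‖t‖ ^ (N - 1) := by
          rw [← Real.rpow_natCast ‖t‖ (N - 1), ← Real.rpow_add f7]
          congr 1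
          push_cast [Nat.cast_sub hN]
          ring
        rw [h1, ← mul_assoc]
        exact mul_le_mul_of_nonneg_right f4 (by positivity)
  rw [eventually_nhdsWithin_iff, Metric.eventually_nhds_iff] at hEv
  obtain ⟨r, hr, hr'⟩ := hEv
  exact ⟨r, hr, fun t h0 h1 => hr' (y := t) (by simpa [dist_zero_right] using h1) (by simpa using h0)⟩

/-- invariance of the means -/
theorem G3_mean_inv {c : ℕ} {b : Fin c → ℝ} {γ f : Fin c → ℂ → ℂ} {τ : Equiv.Perm (Fin c)}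
    {ζ x t : ℂ} (hζ : ‖ζ‖ = 1) (h : ∀ C, b (τ C) = b C ∧ γ (τ C) t = γ C (ζ * t) ∧
      f (τ C) t = f C (ζ * t)) : G3_mean b γ f (x, ζ * t) = G3_mean b γ f (x, t) := by
  have hq : ∀ C, G3_q b γ C (x, ζ * t) = G3_q b γ (τ C) (x, t) := by
    intro C
    obtain ⟨h1, h2, -⟩ := h C
    unfold G3_q
    simp only
    rw [h1, h2, norm_mul, hζ, one_mul]
  have hs : ∑ C', (G3_q b γ C' (x, ζ * t))⁻¹ ^ 2 = ∑ C', (G3_q b γ C' (x, t))⁻¹ ^ 2 := by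
    rw [← Equiv.sum_comp τ fun C' => (G3_q b γ C' (x, t))⁻¹ ^ 2]
    exact Finset.sum_congr rfl fun C _ => by rw [hq]
  unfold G3_mean
  rw [← Equiv.sum_comp τ fun C => shw (G3_q b γ) C (x, t) • f C (x, t).2]
  refine Finset.sum_congr rfl fun C _ => ?_
  simp only
  rw [(h C).2.2]
  unfold shw
  rw [hs, hq]

theorem shep_exists {F G : ℂ × ℂ → ℂ} {k n N : ℕ} {u : ℂ} {c : ℕ} {m : Fin c → ℕ} {b : Fin c → ℝ}
    {γ v Γ η : Fin c → ℂ → ℂ} {a : Fin c → ℂ} {D : Fin c → ℕ}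
    (h : CFa F G k n N u c m b γ v Γ η a D) (hc : 1 ≤ c) :
    ∃ (Y X0 : ℂ × ℂ → ℂ) (C1 : ℝ), 0 < C1 ∧ ∀ ε > (0 : ℝ), ∃ ρ > (0 : ℝ),
      SDat N b γ Γ η Y X0 C1 ε 1 ρ := by
  have hN := h.clu.hN
  have hN1 : (1 : ℝ) ≤ N := by exact_mod_cast hN
  have hN0 : (N : ℂ) ≠ 0 := by
    have : N ≠ 0 := by omega
    exact_mod_cast this
  have hc1 : (1 : ℝ) ≤ c := by exact_mod_cast hc
  have hb : ∀ C, 1 < b C := fun C => lt_of_le_of_lt hN1 (h.clu.hb C)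
  obtain ⟨L, hL, r, hr, hfix, hinv⟩ := G3_pack h
  have hζn : ∀ ζ : ℂ, ζ ^ N = 1 → ‖ζ‖ = 1 := fun ζ hζ =>
    Complex.norm_eq_one_of_pow_eq_one hζ (by omega)
  set g : Fin c → ℂ → ℂ := fun C s => Γ C s - γ C s with hg
  obtain ⟨Y, hY⟩ := descend N hN r (G3_mean b γ η) (by
    intro ζ hζ x t h0 h1
    obtain ⟨τ, hτ⟩ := hinv ζ hζ
    exact G3_mean_inv (hζn ζ hζ) (τ := τ) fun C => ⟨(hτ C).1, ((hτ C).2 t h0 h1).1,
      ((hτ C).2 t h0 h1).2.2⟩)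
  obtain ⟨X, hX⟩ := descend N hN r (fun z => z.1 + G3_mean b γ g z) (by
    intro ζ hζ x t h0 h1
    obtain ⟨τ, hτ⟩ := hinv ζ hζ
    simp only
    rw [G3_mean_inv (hζn ζ hζ) (τ := τ) fun C => ⟨(hτ C).1, ((hτ C).2 t h0 h1).1, ?_⟩]
    simp only [hg]
    rw [((hτ C).2 t h0 h1).1, ((hτ C).2 t h0 h1).2.1])
  refine ⟨Y, X, 16 * c * L, by positivity, fun ε hε => ?_⟩
  set ε' : ℝ := min 1 (ε / (40 * c * L)) with hε'
  have hcL : 0 < 40 * c * L := by positivity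
  have hε'0 : 0 < ε' := lt_min one_pos (div_pos hε hcL)
  have hε'1 : ε' ≤ 1 := min_le_left _ _
  have hε'2 : 40 * c * L * ε' ≤ ε := by
    have : ε' ≤ ε / (40 * c * L) := min_le_right _ _
    rw [le_div_iff₀ hcL] at this
    linarith
  obtain ⟨δ0, hδ0, hsmall0⟩ := G3_eps h hε'0
  set δ : ℝ := min r δ0 with hδ
  have hδpos : 0 < δ := lt_min hr hδ0
  have hsmall : ∀ t : ℂ, 0 < ‖t‖ → ‖t‖ < δ → _ := fun t h0 h1 =>
    hsmall0 t h0 (h1.trans_le (min_le_right _ _))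
  have hrr : ∀ t : ℂ, ‖t‖ < δ → ‖t‖ < r := fun t h1 => h1.trans_le (min_le_left _ _)
  -- points of the cone upstairs
  have hup : ∀ x t : ℂ, (x, t ^ N) ∈ Ud 1 (δ ^ N) → 0 < ‖t‖ ∧ ‖t‖ < δ := by
    rintro x t ⟨h1, h2, -⟩
    simp only [norm_pow] at h1 h2
    refine ⟨?_, lt_of_pow_lt_pow_left₀ N hδpos.le h2⟩
    rcases (norm_nonneg t).eq_or_lt with h3 | h3
    · rw [← h3, zero_pow (by omega)] at h1
      exact absurd h1 (lt_irrefl _)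
    · exact h3
  have hroot : ∀ p ∈ Ud 1 (δ ^ N), ∃ t : ℂ, p = (p.1, t ^ N) ∧ 0 < ‖t‖ ∧ ‖t‖ < δ := by
    intro p hp
    obtain ⟨t, ht⟩ := IsAlgClosed.exists_pow_nat_eq p.2 (by omega : 0 < N)
    have h1 : p = (p.1, t ^ N) := by rw [ht]
    exact ⟨t, h1, hup p.1 t (by rw [← h1]; exact hp)⟩
  have han : ∀ t : ℂ, 0 < ‖t‖ → ‖t‖ < δ → ∀ C, AnalyticAt ℂ (γ C) t ∧ AnalyticAt ℂ (η C) t ∧
      AnalyticAt ℂ (g C) t := fun t h0 h1 C =>
    ⟨((hfix t h0 (hrr t h1)).1 C).1, ((hfix t h0 (hrr t h1)).1 C).2.2,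
      ((hfix t h0 (hrr t h1)).1 C).2.1.sub ((hfix t h0 (hrr t h1)).1 C).1⟩
  have hcdY : ∀ x t : ℂ, 0 < ‖t‖ → ‖t‖ < δ → ContDiffAt ℝ 1 (G3_mean b γ η) (x, t) :=
    fun x t h0 h1 => G3_mean_contDiff b γ η (norm_pos_iff.1 h0) (fun C => (han t h0 h1 C).1)
      fun C => (han t h0 h1 C).2.1
  have hcdg : ∀ x t : ℂ, 0 < ‖t‖ → ‖t‖ < δ → ContDiffAt ℝ 1 (G3_mean b γ g) (x, t) :=
    fun x t h0 h1 => G3_mean_contDiff b γ g (norm_pos_iff.1 h0) (fun C => (han t h0 h1 C).1)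
      fun C => (han t h0 h1 C).2.2
  have hcdX : ∀ x t : ℂ, 0 < ‖t‖ → ‖t‖ < δ →
      ContDiffAt ℝ 1 (fun z : ℂ × ℂ => z.1 + G3_mean b γ g z) (x, t) :=
    fun x t h0 h1 => contDiffAt_fst.add (hcdg x t h0 h1)
  -- the scaling in the second variable
  have hscale : ∀ t w : ℂ, 0 < ‖t‖ → (N * t ^ (N - 1)) * (w / (N * t ^ (N - 1))) = w := by
    intro t w h0
    have h1 : t ≠ 0 := norm_pos_iff.1 h0
    have h2 : (N : ℂ) * t ^ (N - 1) ≠ 0 := mul_ne_zero hN0 (pow_ne_zero _ h1)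
    field_simp
  have hscale2 : ∀ t w : ℂ, 0 < ‖t‖ → ‖t‖ ^ (N - 1) * ‖w / (N * t ^ (N - 1))‖ ≤ ‖w‖ := by
    intro t w h0
    have h1 : ‖w‖ = N * (‖t‖ ^ (N - 1) * ‖w / (N * t ^ (N - 1))‖) := by
      conv_lhs => rw [← hscale t w h0]
      rw [norm_mul, norm_mul, norm_pow, Complex.norm_natCast]
      ring
    rw [h1]
    have h2 : 0 ≤ ‖t‖ ^ (N - 1) * ‖w / (N * t ^ (N - 1))‖ := by positivity
    nlinarith
  refine ⟨δ ^ N, by positivity, one_pos, by positivity, ?_, ?_, ?_, ?_, ?_, ?_⟩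
  · intro p hp
    obtain ⟨t, h1, h2, h3⟩ := hroot p hp
    rw [h1]
    exact ((hY p.1 t h2 (hrr t h3)).2.2 (hcdY p.1 t h2 h3)).1
  · intro p hp
    obtain ⟨t, h1, h2, h3⟩ := hroot p hp
    rw [h1]
    exact ((hX p.1 t h2 (hrr t h3)).2.2 (hcdX p.1 t h2 h3)).1
  · -- S1
    intro x t hxt C
    obtain ⟨h2, h3⟩ := hup x t hxt
    rw [(hY x t h2 (hrr t h3)).1]
    have h4 := G3_mean_value hc b γ η (norm_pos_iff.1 h2) (x := x) (by linarith : (0:ℝ) ≤ L)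
      (hfix t h2 (hrr t h3)).2 C
    refine h4.trans (mul_le_mul_of_nonneg_right ?_ (by positivity))
    have : 0 < c * L := by positivity
    nlinarith
  · -- S2
    intro x t hxt C
    obtain ⟨h2, h3⟩ := hup x t hxt
    rw [(hX x t h2 (hrr t h3)).1]
    have h4 := G3_mean_value hc b γ g (norm_pos_iff.1 h2) (x := x) hε'0.le (by
      intro C C'
      have := (hsmall t h2 h3).1 C C'
      simp only [hg]
      have e : Γ C t - γ C t - (Γ C' t - γ C' t) = (Γ C t - Γ C' t) - (γ C t - γ C' t) := by ring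
      rw [e]
      exact this) C
    have e2 : x + G3_mean b γ g (x, t) - Γ C t - (x - γ C t) = G3_mean b γ g (x, t) - g C t := by
      simp only [hg]
      ring
    simp only
    rw [e2]
    refine h4.trans (mul_le_mul_of_nonneg_right ?_ (by positivity))
    have e3 : 2 * c * ε' ≤ 40 * c * L * ε' := by
      have : 0 < c * ε' := by positivity
      nlinarith
    linarith
  · -- S3
    intro p hp v' w
    obtain ⟨t, h1, h2, h3⟩ := hroot p hp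
    obtain ⟨s1, s2⟩ := hsmall t h2 h3
    rw [h1, ((hY p.1 t h2 (hrr t h3)).2.2 (hcdY p.1 t h2 h3)).2]
    have h4 := G3_mean_deriv hc b γ η (norm_pos_iff.1 h2) (x := p.1)
      (fun C => (han t h2 h3 C).1) (fun C => (han t h2 h3 C).2.1)
      (by linarith : (0:ℝ) ≤ L) (hfix t h2 (hrr t h3)).2 (e := N * t ^ (N - 1))
      (κ := ε' * ‖t‖ ^ (N - 1)) (μ := ε' * ‖t‖ ^ (N - 1)) (fun C => (s2 C).1) hb
      (fun C => (s2 C).2.1) (fun C => (s2 C).2.2.2) v' (w / (N * t ^ (N - 1)))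
    rw [hscale t w h2] at h4
    refine h4.trans ?_
    have h5 := hscale2 t w h2
    set W : ℝ := ‖t‖ ^ (N - 1) * ‖w / (N * t ^ (N - 1))‖ with hW
    have h6 : ε' * ‖t‖ ^ (N - 1) * ‖w / (N * t ^ (N - 1))‖ +
        16 * c * L * (‖v'‖ + 2 * (ε' * ‖t‖ ^ (N - 1)) * ‖w / (N * t ^ (N - 1))‖) =
        16 * c * L * ‖v'‖ + (1 + 32 * c * L) * ε' * W := by
      rw [hW]
      ring
    rw [h6]
    have h7 : (1 + 32 * c * L) * ε' ≤ ε := by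
      have h8 : 1 ≤ c * L := by nlinarith
      nlinarith
    have h9 : (1 + 32 * c * L) * ε' * W ≤ ε * ‖w‖ :=
      mul_le_mul h7 h5 (by positivity) hε.le
    linarith
  · -- S4
    intro p hp v' w
    obtain ⟨t, h1, h2, h3⟩ := hroot p hp
    obtain ⟨s1, s2⟩ := hsmall t h2 h3
    rw [h1, ((hX p.1 t h2 (hrr t h3)).2.2 (hcdX p.1 t h2 h3)).2]
    have h4 := G3_mean_deriv hc b γ g (norm_pos_iff.1 h2) (x := p.1)
      (fun C => (han t h2 h3 C).1) (fun C => (han t h2 h3 C).2.2)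
      hε'0.le (by
        intro C C'
        have := s1 C C'
        simp only [hg]
        have e : Γ C t - γ C t - (Γ C' t - γ C' t) = (Γ C t - Γ C' t) - (γ C t - γ C' t) := by ring
        rw [e]
        exact this) (e := 0)
      (κ := 2 * (ε' * ‖t‖ ^ (N - 1))) (μ := ε' * ‖t‖ ^ (N - 1)) (by
        intro C
        rw [sub_zero]
        have e1 : deriv (g C) t = deriv (Γ C) t - deriv (γ C) t :=
          deriv_sub ((hfix t h2 (hrr t h3)).1 C).2.1.differentiableAt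
            ((hfix t h2 (hrr t h3)).1 C).1.differentiableAt
        rw [e1]
        refine (norm_sub_le _ _).trans ?_
        have := (s2 C).2.1
        have := (s2 C).2.2.1
        linarith) hb
      (fun C => (s2 C).2.1) (fun C => (s2 C).2.2.2) v' (w / (N * t ^ (N - 1)))
    rw [zero_mul, sub_zero] at h4
    have hder : fderiv ℝ (fun z : ℂ × ℂ => z.1 + G3_mean b γ g z) (p.1, t) (v', w / (N * t ^ (N - 1)))
        - v' = fderiv ℝ (G3_mean b γ g) (p.1, t) (v', w / (N * t ^ (N - 1))) := by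
      rw [fderiv_fun_add differentiableAt_fst ((hcdg p.1 t h2 h3).differentiableAt (by norm_num)),
        fderiv_fst]
      simp
    rw [hder]
    refine h4.trans ?_
    have h5 := hscale2 t w h2
    set W : ℝ := ‖t‖ ^ (N - 1) * ‖w / (N * t ^ (N - 1))‖ with hW
    have h6 : 2 * (ε' * ‖t‖ ^ (N - 1)) * ‖w / (N * t ^ (N - 1))‖ +
        16 * c * ε' * (‖v'‖ + 2 * (ε' * ‖t‖ ^ (N - 1)) * ‖w / (N * t ^ (N - 1))‖) =
        16 * c * ε' * ‖v'‖ + (2 + 32 * c * ε') * ε' * W := by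
      rw [hW]
      ring
    rw [h6]
    have h8 : 1 ≤ c * L := by nlinarith
    have h7 : (2 + 32 * c * ε') * ε' ≤ ε := by
      have e1 : (2 + 32 * c * ε') ≤ 40 * c * L := by nlinarith
      have := mul_le_mul_of_nonneg_right e1 hε'0.le
      linarith
    have h9 : (2 + 32 * c * ε') * ε' * W ≤ ε * ‖w‖ :=
      mul_le_mul h7 h5 (by positivity) hε.le
    have h10 : 16 * c * ε' ≤ ε := by
      have e1 : 16 * (c : ℝ) ≤ 40 * c * L := by nlinarith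
      have := mul_le_mul_of_nonneg_right e1 hε'0.le
      linarith
    have h11 : 16 * c * ε' * ‖v'‖ ≤ ε * ‖v'‖ := mul_le_mul_of_nonneg_right h10 (norm_nonneg _)
    linarith

end H24.LS
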