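import Pool.Agent.H24.LS.Base

/-!
# P0: chart data

A *chart* of a germ `F` in two variables is a tangent line, put at `x = 0` (by a linear change of
coordinates): `F = c x^(n+1) y^(k-1-n) + ...` near the line.  The `n` polar arcs near the line are the
zeros `x = γ_l(t)`, `y = t^N`, of `dx F`.
-/

open Filter Topology Metric Asymptotics

namespace H24.LS

/-- chart of `F` of order `k` at a tangent line `x = 0` of multiplicity `n + 1`; `γ` are the polar arcs -/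
structure PCh (F : ℂ × ℂ → ℂ) (k n N : ℕ) (u : ℂ) (γ : Fin n → ℂ → ℂ) : Prop where
  an : AnalyticAt ℂ F 0
  hk : n + 1 ≤ k
  hN : 1 ≤ N
  hu : u ≠ 0
  γan : ∀ l, AnalyticAt ℂ (γ l) 0
  γsm : ∀ l, (γ l) =o[𝓝[≠] 0] (fun t : ℂ => t ^ N)
  fac : ∀ ε > (0 : ℝ), ∃ δ > (0 : ℝ), ∀ x t : ℂ, 0 < ‖t‖ → ‖t‖ < δ → ‖x‖ < δ * ‖t‖ ^ N →
    ‖dx F (x, t ^ N) - u * t ^ (N * (k - 1 - n)) * ∏ l, (x - γ l t)‖ ≤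
      ε * (‖t‖ ^ (N * (k - 1 - n)) * ∏ l, ‖x - γ l t‖)
  van : ∀ ε > (0 : ℝ), ∃ δ > (0 : ℝ), ∀ x y : ℂ, 0 < ‖y‖ → ‖y‖ < δ → ‖x‖ < δ * ‖y‖ →
    ‖F (x, y)‖ ≤ ε * ‖y‖ ^ k
  bdF : ∃ C > (0 : ℝ), ∃ δ > (0 : ℝ), ∀ p : ℂ × ℂ, ‖p‖ < δ → ‖fderiv ℂ F p‖ ≤ C * ‖p‖ ^ (k - 1)

/-- isolated critical point -/
def Iso (F : ℂ × ℂ → ℂ) : Prop := ∀ᶠ p in 𝓝[≠] (0 : ℂ × ℂ), fderiv ℂ F p ≠ 0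

/-- expected size of `dx F` at distance `σ` from `x1` in the slice `y = t^N` -/
noncomputable def Ehat {n : ℕ} (e : ℕ) (γ : Fin n → ℂ → ℂ) (x1 : ℂ) (σ : ℝ) (t : ℂ) : ℝ :=
  ‖t‖ ^ e * ∏ l, (σ + ‖x1 - γ l t‖)

/-- arcs grouped in clusters `cl`, of size `‖t‖^(b C)` (real exponent) -/
structure PreClu (F : ℂ × ℂ → ℂ) (k n N : ℕ) (γ : Fin n → ℂ → ℂ) (c : ℕ) (cl : Fin n → Fin c)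
    (b : Fin c → ℝ) : Prop where
  surj : Function.Surjective cl
  hb : ∀ C, (N : ℝ) < b C
  same : ∀ l l', cl l = cl l' →
    (fun t => γ l t - γ l' t) =O[𝓝[≠] 0] (fun t : ℂ => ‖t‖ ^ (b (cl l)))
  diff : ∀ l l', cl l ≠ cl l' →
    (fun t : ℂ => ‖t‖ ^ (b (cl l))) =o[𝓝[≠] 0] (fun t => γ l t - γ l' t)
  /-- exact order of the critical values along the arcs -/
  ord : ∀ l, ∃ (D : ℕ) (a : ℂ), N * k < D ∧ a ≠ 0 ∧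
    Tendsto (fun t : ℂ => F (γ l t, t ^ N) / t ^ D) (𝓝[≠] 0) (𝓝 a) ∧
    Tendsto (fun t : ℂ => dy F (γ l t, t ^ N) * t ^ N / t ^ D) (𝓝[≠] 0) (𝓝 (a * D / N))
  bal : ∀ l, ∃ c1 > (0 : ℝ), ∃ c2 > (0 : ℝ), ∀ᶠ t in 𝓝[≠] (0 : ℂ),
    c1 * ‖dy F (γ l t, t ^ N)‖ ≤ Ehat (N * (k - 1 - n)) γ (γ l t) (‖t‖ ^ (b (cl l))) t ∧
    Ehat (N * (k - 1 - n)) γ (γ l t) (‖t‖ ^ (b (cl l))) t ≤ c2 * ‖dy F (γ l t, t ^ N)‖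

/-- cluster version of `Ehat`: centres `g`, multiplicities `m`, sizes `‖t‖^(b C)` -/
noncomputable def cE {c : ℕ} (e : ℕ) (m : Fin c → ℕ) (b : Fin c → ℝ) (g : Fin c → ℂ → ℂ)
    (C : Fin c) (σ : ℝ) (t : ℂ) : ℝ :=
  ‖t‖ ^ e * ∏ C', (σ + ‖t‖ ^ (b C') + ‖g C t - g C' t‖) ^ m C'

/-- cluster data of one germ: centres `g`, multiplicities `m`, slopes `v = dV/dy`, `V(t) = F(g t, t^N)` -/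
structure Clu (F : ℂ × ℂ → ℂ) (k n N : ℕ) (u : ℂ) (c : ℕ) (m : Fin c → ℕ)
    (b : Fin c → ℝ) (g v : Fin c → ℂ → ℂ) (a : Fin c → ℂ) (D : Fin c → ℕ) : Prop where
  an : AnalyticAt ℂ F 0
  hk : n + 1 ≤ k
  hN : 1 ≤ N
  hu : u ≠ 0
  hm : ∀ C, 1 ≤ m C
  hmn : ∑ C, m C = n
  hb : ∀ C, (N : ℝ) < b C
  gan : ∀ C, AnalyticAt ℂ (g C) 0
  gsm : ∀ C, (g C) =o[𝓝[≠] 0] (fun t : ℂ => t ^ N)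
  sep : ∀ C C', C ≠ C' → (fun t : ℂ => ‖t‖ ^ (b C)) =o[𝓝[≠] 0] (fun t => g C t - g C' t)
  hv : ∀ C t, v C t = deriv (fun s => F (g C s, s ^ N)) t / (N * t ^ (N - 1))
  hD : ∀ C, N * k < D C
  ha : ∀ C, a C ≠ 0
  Vord : ∀ C, Tendsto (fun t : ℂ => F (g C t, t ^ N) / t ^ (D C)) (𝓝[≠] 0) (𝓝 (a C))
  vord : ∀ C, Tendsto (fun t : ℂ => v C t * t ^ N / t ^ (D C)) (𝓝[≠] 0) (𝓝 (a C * D C / N))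
  bal : ∃ c1 > (0 : ℝ), ∃ c2 > (0 : ℝ), ∀ᶠ t in 𝓝[≠] (0 : ℂ), ∀ C,
    c1 * ‖v C t‖ ≤ cE (N * (k - 1 - n)) m b g C 0 t ∧
    cE (N * (k - 1 - n)) m b g C 0 t ≤ c2 * ‖v C t‖
  F1 : ∃ C0 > (0 : ℝ), ∃ δ > (0 : ℝ), ∀ x t : ℂ, 0 < ‖t‖ → ‖t‖ < δ → ‖x‖ < δ * ‖t‖ ^ N → ∀ C,
    ‖dx F (x, t ^ N)‖ ≤ C0 * cE (N * (k - 1 - n)) m b g C ‖x - g C t‖ t
  F2 : ∀ ε > (0 : ℝ), ∃ K > (0 : ℝ), ∃ δ > (0 : ℝ), ∀ x t : ℂ, 0 < ‖t‖ → ‖t‖ < δ →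
    ‖x‖ < δ * ‖t‖ ^ N → (∀ C, K * ‖t‖ ^ (b C) ≤ ‖x - g C t‖) →
    ‖dx F (x, t ^ N) - u * t ^ (N * (k - 1 - n)) * ∏ C, (x - g C t) ^ m C‖ ≤
      ε * (‖t‖ ^ (N * (k - 1 - n)) * ∏ C, ‖x - g C t‖ ^ m C)
  F3 : ∀ ε > (0 : ℝ), ∃ δ > (0 : ℝ), ∀ x t : ℂ, 0 < ‖t‖ → ‖t‖ < δ → ‖x‖ < δ * ‖t‖ ^ N → ∀ C,
    ‖dy F (x, t ^ N) - v C t‖ ≤ ε * (‖v C t‖ + cE (N * (k - 1 - n)) m b g C ‖x - g C t‖ t)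
  small : 3 ≤ k → ∀ ε > (0 : ℝ), ∃ δ > (0 : ℝ), ∀ t : ℂ, 0 < ‖t‖ → ‖t‖ < δ →
    ∀ C (σ : ℝ), ‖t‖ ^ (b C) ≤ σ → σ ≤ ‖t‖ ^ N → cE (N * (k - 1 - n)) m b g C σ t ≤ ε * σ
  inv : ∀ ζ : ℂ, ζ ^ N = 1 → ∃ τ : Equiv.Perm (Fin c), ∀ C, m (τ C) = m C ∧ b (τ C) = b C ∧
    ∀ᶠ t in 𝓝 (0 : ℂ), g (τ C) t = g C (ζ * t)

/-- admissible points of the target: `‖y' - η_C‖ ≤ C1 (s_C + ‖x' - Γ_C‖)` for all clusters -/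
def Adm {c : ℕ} (C1 : ℝ) (b : Fin c → ℝ) (Γ η : Fin c → ℂ → ℂ) (t : ℂ) (q : ℂ × ℂ) : Prop :=
  ∀ C, ‖q.2 - η C t‖ ≤ C1 * (‖t‖ ^ (b C) + ‖q.1 - Γ C t‖)

/-- matched chart facts for a pair `F, G`, normalised so that the matching map is close to
`(x, y) ↦ (x, y)`: the centre `(γ_C(t), t^N)` of a cluster of `F` corresponds to the centre
`(Γ_C(t), η_C(t))` of a cluster of `G` with the same critical value. -/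
structure CFa (F G : ℂ × ℂ → ℂ) (k n N : ℕ) (u : ℂ) (c : ℕ) (m : Fin c → ℕ) (b : Fin c → ℝ)
    (γ v Γ η : Fin c → ℂ → ℂ) (a : Fin c → ℂ) (D : Fin c → ℕ) : Prop where
  clu : Clu F k n N u c m b γ v a D
  anG : AnalyticAt ℂ G 0
  Γan : ∀ C, AnalyticAt ℂ (Γ C) 0
  ηan : ∀ C, AnalyticAt ℂ (η C) 0
  Γsm : ∀ C, (Γ C) =o[𝓝[≠] 0] (fun t : ℂ => t ^ N)
  ηsm : ∀ C, (fun t => η C t - t ^ N) =o[𝓝[≠] 0] (fun t : ℂ => t ^ N)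
  ηpair : ∀ C C', (fun t => η C t - η C' t) =O[𝓝[≠] 0] (fun t => γ C t - γ C' t)
  Γpair : ∀ C C', (fun t => (Γ C t - Γ C' t) - (γ C t - γ C' t)) =o[𝓝[≠] 0]
    (fun t => γ C t - γ C' t)
  val : ∀ C, ∀ᶠ t in 𝓝 (0 : ℂ), F (γ C t, t ^ N) = G (Γ C t, η C t)
  G1 : ∀ C1 > (0 : ℝ), ∃ C0 > (0 : ℝ), ∃ δ > (0 : ℝ), ∀ (t : ℂ) (q : ℂ × ℂ), 0 < ‖t‖ → ‖t‖ < δ →
    ‖q.1‖ < δ * ‖t‖ ^ N → Adm C1 b Γ η t q → ∀ C,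
    ‖dx G q‖ ≤ C0 * cE (N * (k - 1 - n)) m b γ C ‖q.1 - Γ C t‖ t
  G2 : ∀ C1 > (0 : ℝ), ∀ ε > (0 : ℝ), ∃ K > (0 : ℝ), ∃ δ > (0 : ℝ), ∀ (t : ℂ) (q : ℂ × ℂ),
    0 < ‖t‖ → ‖t‖ < δ → ‖q.1‖ < δ * ‖t‖ ^ N → Adm C1 b Γ η t q →
    (∀ C, K * ‖t‖ ^ (b C) ≤ ‖q.1 - Γ C t‖) →
    ‖dx G q - u * t ^ (N * (k - 1 - n)) * ∏ C, (q.1 - Γ C t) ^ m C‖ ≤
      ε * (‖t‖ ^ (N * (k - 1 - n)) * ∏ C, ‖q.1 - Γ C t‖ ^ m C)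
  G3 : ∀ C1 > (0 : ℝ), ∀ ε > (0 : ℝ), ∃ δ > (0 : ℝ), ∀ (t : ℂ) (q : ℂ × ℂ), 0 < ‖t‖ → ‖t‖ < δ →
    ‖q.1‖ < δ * ‖t‖ ^ N → Adm C1 b Γ η t q → ∀ C,
    ‖dy G q - v C t‖ ≤ ε * (‖v C t‖ + cE (N * (k - 1 - n)) m b γ C ‖q.1 - Γ C t‖ t)
  inv : ∀ ζ : ℂ, ζ ^ N = 1 → ∃ τ : Equiv.Perm (Fin c), ∀ C, m (τ C) = m C ∧ b (τ C) = b C ∧
    ∀ᶠ t in 𝓝 (0 : ℂ), γ (τ C) t = γ C (ζ * t) ∧ Γ (τ C) t = Γ C (ζ * t) ∧ η (τ C) t = η C (ζ * t)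

end H24.LS
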