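import Pool.Agent.H24.LS.P0
import Pool.Agent.H24.LS.B0
import Pool.Agent.H24.LS.C1
import Pool.Agent.H24.LS.C2
import Pool.Agent.H24.LS.C7

/-!
# P3: existence of charts

Let `F(x,y) = f(x + X_j y, y)`, `k = Σ κ`, `n = κ_j - 1`, `u = κ_j c ∏_{i≠j} (X_j - X_i)^{κ_i}`.
`dx F (x,y) = dx f (x + X_j y, y)`.

Proof.  `ψ0(Z,y) = dx F (y Z, y)` is analytic at `(0,0)` and `‖ψ0‖ ≤ C ‖y‖^(k-1)` near `(0,0)`
(`NForm.fd`, `form_bound`: `‖fderiv f p‖ ≤ C ‖p‖^(k-1)`), so `hol_div`: `ψ0 = y^(k-1) ψ`, `ψ` `Hol` at `(0,0)`.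
`ψ(Z,0) = lim_{y → 0} dx F (yZ,y)/y^(k-1) = ∂_Z [c ∏_i (Z + X_j - X_i)^{κ_i}]` (by `NForm.fd`) `=: p'(Z)`,
`p(Z) = Z^{κ_j} q(Z)`, `p'(Z) = Z^n w(Z)` with `w(Z) = κ_j q(Z) + Z q'(Z)`, `w(0) = κ_j q(0) = u ≠ 0`.
`puiseux` (C7) gives `N, χ_l, u'` with the estimate; `t = 0` shows `‖Z^n w(Z) - u' Z^n‖ ≤ ε ‖Z‖^n` near
`0`, so `u' = w(0) = u`.  Put `γ_l t = t^N χ_l(t)` (`χ_l(0) = 0`, so `γ_l = o(t^N)`).  `fac`: for `x = t^N Z`,
`dx F (x,t^N) = t^{N(k-1)} ψ(Z,t^N)`, `∏ (x - γ_l) = t^{Nn} ∏ (Z - χ_l)`, multiply the estimate by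
`‖t‖^{N(k-1)} = ‖t‖^{N(k-1-n)} ‖t‖^{Nn}`.
`van`: `‖F(x,y)‖ ≤ ‖form‖ + C ‖p‖^(k+1)` and the form contains the factor `x^{κ_j}`, `κ_j ≥ 1`.
`bdF`: chain rule and the bound for `fderiv f`.
-/

open Filter Topology Metric Asymptotics

namespace H24.LS

private theorem P3_dx {G : ℂ × ℂ → ℂ} {x y : ℂ} (h : DifferentiableAt ℂ G (x, y)) :
    HasDerivAt (fun z => G (z, y)) (dx G (x, y)) x := by
  have h2 : HasDerivAt (fun z : ℂ => (z, y)) ((1 : ℂ), (0 : ℂ)) x :=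
    (hasDerivAt_id x).prodMk (hasDerivAt_const x y)
  exact h.hasFDerivAt.comp_hasDerivAt x h2

private theorem P3_form_diff {r : ℕ} (κ : Fin r → ℕ) (c : ℂ) (X : Fin r → ℂ) :
    Differentiable ℂ (form κ c X) := by
  unfold form
  fun_prop

private theorem P3_form_hom {r : ℕ} (κ : Fin r → ℕ) (c : ℂ) (X : Fin r → ℂ) (y z : ℂ) :
    form κ c X (y * z, y) = y ^ (∑ i, κ i) * form κ c X (z, 1) := by
  unfold form
  have h1 : ∀ i, (y * z - X i * y) ^ κ i = y ^ κ i * (z - X i * 1) ^ κ i := by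
    intro i
    rw [← mul_pow]; congr 1; ring
  simp only [h1]
  rw [Finset.prod_mul_distrib, Finset.prod_pow_eq_pow_sum]
  ring

private noncomputable def P3_q {r : ℕ} (κ : Fin r → ℕ) (c : ℂ) (X : Fin r → ℂ) (j : Fin r) (z : ℂ) : ℂ :=
  c * ∏ i ∈ Finset.univ.erase j, (z - X i) ^ κ i

private theorem P3_q_cd {r : ℕ} (κ : Fin r → ℕ) (c : ℂ) (X : Fin r → ℂ) (j : Fin r) :
    ContDiff ℂ 1 (P3_q κ c X j) := by
  unfold P3_q
  fun_prop

private theorem P3_form_q {r : ℕ} (κ : Fin r → ℕ) (c : ℂ) (X : Fin r → ℂ) (j : Fin r)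
    (hj : X j = 0) (z : ℂ) : form κ c X (z, 1) = z ^ κ j * P3_q κ c X j z := by
  unfold form P3_q
  rw [← Finset.mul_prod_erase Finset.univ _ (Finset.mem_univ j)]
  simp only [hj, mul_one, sub_zero]
  ring

private theorem P3_dxform {r : ℕ} (κ : Fin r → ℕ) (c : ℂ) (X : Fin r → ℂ) (j : Fin r)
    (hj : X j = 0) (hκj : 1 ≤ κ j) {y : ℂ} (hy : y ≠ 0) (z : ℂ) :
    dx (form κ c X) (y * z, y) = y ^ (∑ i, κ i - 1) *
      (z ^ (κ j - 1) * (κ j * P3_q κ c X j z + z * deriv (P3_q κ c X j) z)) := by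
  have h1 := P3_dx (P3_form_diff κ c X (y * z, y))
  have hq : HasDerivAt (P3_q κ c X j) (deriv (P3_q κ c X j) z) z :=
    ((P3_q_cd κ c X j).differentiable one_ne_zero z).hasDerivAt
  have h2 : HasDerivAt (fun z => z ^ κ j * P3_q κ c X j z)
      ((κ j : ℂ) * z ^ (κ j - 1) * P3_q κ c X j z + z ^ κ j * deriv (P3_q κ c X j) z) z :=
    (hasDerivAt_pow (κ j) z).mul hq
  have h3 : HasDerivAt (fun x : ℂ => y * x) y z := by
    simpa using (hasDerivAt_id z).const_mul y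
  have h4 : HasDerivAt (fun x => form κ c X (y * x, y)) (dx (form κ c X) (y * z, y) * y) z :=
    h1.comp z h3
  have h5 : (fun x => form κ c X (y * x, y)) =
      fun x => y ^ (∑ i, κ i) * (x ^ κ j * P3_q κ c X j x) := by
    funext x
    rw [P3_form_hom, P3_form_q κ c X j hj]
  rw [h5] at h4
  have h6 := h4.unique (h2.const_mul (y ^ (∑ i, κ i)))
  have hk : 1 ≤ ∑ i, κ i := hκj.trans (Finset.single_le_sum (fun i _ => Nat.zero_le _) (Finset.mem_univ j))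
  obtain ⟨K, hK⟩ : ∃ K, ∑ i, κ i = K + 1 := ⟨_, (Nat.sub_add_cancel hk).symm⟩
  obtain ⟨m, hm⟩ : ∃ m, κ j = m + 1 := ⟨_, (Nat.sub_add_cancel hκj).symm⟩
  rw [hK] at h6 ⊢
  rw [hm] at h6 ⊢
  simp only [Nat.add_sub_cancel] at h6 ⊢
  apply mul_right_cancel₀ hy
  rw [h6, pow_succ, pow_succ]
  ring

/-- bound for the derivative of a germ in normal form -/
private theorem P3_bd {r : ℕ} {κ : Fin r → ℕ} {c : ℂ} {X : Fin r → ℂ} {F : ℂ × ℂ → ℂ}
    (hF : NForm κ c X F) : ∃ C > (0 : ℝ), ∃ δ > (0 : ℝ), ∀ p : ℂ × ℂ, ‖p‖ < δ →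
      ‖fderiv ℂ F p‖ ≤ C * ‖p‖ ^ (∑ i, κ i - 1) := by
  obtain ⟨C1, hC1, δ1, hδ1, h1⟩ := hF.fd
  obtain ⟨C2, hC2, h2⟩ := form_bound κ hF.hr hF.hκ c X
  refine ⟨C1 + C2, by positivity, min δ1 1, by positivity, fun p hp => ?_⟩
  have hp1 := h1 p (hp.trans_le (min_le_left _ _))
  have hp2 := (h2 p).2
  have hp3 : ‖p‖ ≤ 1 := (hp.trans_le (min_le_right _ _)).le
  have h3 : ‖p‖ ^ (∑ i, κ i) ≤ ‖p‖ ^ (∑ i, κ i - 1) :=
    pow_le_pow_of_le_one (norm_nonneg _) hp3 (Nat.sub_le _ _)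
  calc ‖fderiv ℂ F p‖ = ‖(fderiv ℂ F p - fderiv ℂ (form κ c X) p) + fderiv ℂ (form κ c X) p‖ := by
        rw [sub_add_cancel]
    _ ≤ C1 * ‖p‖ ^ (∑ i, κ i) + C2 * ‖p‖ ^ (∑ i, κ i - 1) := (norm_add_le _ _).trans (by linarith)
    _ ≤ (C1 + C2) * ‖p‖ ^ (∑ i, κ i - 1) := by nlinarith

private theorem P3_norm {Z y : ℂ} (hZ : ‖Z‖ ≤ 1) : ‖((y * Z, y) : ℂ × ℂ)‖ ≤ ‖y‖ := by
  rw [Prod.norm_def]
  refine max_le ?_ le_rfl
  rw [norm_mul]
  nlinarith [norm_nonneg y, norm_nonneg Z]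

/-- the chart at a tangent line `x = 0` -/
private theorem P3_main {r : ℕ} (κ : Fin r → ℕ) (c : ℂ) (X : Fin r → ℂ) (F : ℂ × ℂ → ℂ)
    (hF : NForm κ c X F) (j : Fin r) (hj : X j = 0) :
    ∃ (N : ℕ) (γ : Fin (κ j - 1) → ℂ → ℂ),
      PCh F (∑ i, κ i) (κ j - 1) N (κ j * P3_q κ c X j 0) γ := by
  have hκj : 1 ≤ κ j := hF.hκ j
  have hk : κ j ≤ ∑ i, κ i := Finset.single_le_sum (fun i _ => Nat.zero_le _) (Finset.mem_univ j)
  set k := ∑ i, κ i with hkdef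
  set n := κ j - 1 with hn
  set q := P3_q κ c X j with hq
  obtain ⟨Cb, hCb, δb, hδb, hbd⟩ := P3_bd hF
  obtain ⟨C1, hC1, δ1, hδ1, hfd⟩ := hF.fd
  have hq0 : q 0 ≠ 0 := by
    rw [hq]
    unfold P3_q
    refine mul_ne_zero hF.hc (Finset.prod_ne_zero_iff.2 fun i hi => pow_ne_zero _ ?_)
    rw [zero_sub, neg_ne_zero]
    intro h0
    exact (Finset.ne_of_mem_erase hi) (hF.hX (h0.trans hj.symm))
  have hu : (κ j : ℂ) * q 0 ≠ 0 :=
    mul_ne_zero (by exact_mod_cast (by omega : κ j ≠ 0)) hq0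
  -- the function `ψ0`
  set ψ0 : ℂ × ℂ → ℂ := fun p => dx F (p.2 * p.1, p.2) with hψ0
  have hdxF : AnalyticAt ℂ (dx F) 0 := by
    have h1 : AnalyticAt ℂ (fderiv ℂ F) 0 := hF.an.fderiv
    have h2 : AnalyticAt ℂ (fun L : (ℂ × ℂ) →L[ℂ] ℂ => L ((1 : ℂ), (0 : ℂ))) (fderiv ℂ F 0) :=
      (ContinuousLinearMap.apply ℂ ℂ ((1 : ℂ), (0 : ℂ))).analyticAt _
    exact h2.comp h1
  have hψ0an : AnalyticAt ℂ ψ0 (0, 0) := by
    have h1 : AnalyticAt ℂ (fun p : ℂ × ℂ => (p.2 * p.1, p.2)) ((0 : ℂ), (0 : ℂ)) :=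
      (analyticAt_snd.mul analyticAt_fst).prod analyticAt_snd
    exact AnalyticAt.comp_of_eq (g := dx F) (f := fun p : ℂ × ℂ => (p.2 * p.1, p.2)) hdxF h1
      (by simp)
  have hψ0b : ∀ᶠ p in 𝓝 ((0, 0) : ℂ × ℂ), ‖ψ0 p‖ ≤ Cb * ‖p.2‖ ^ (k - 1) := by
    have hmem : ball ((0, 0) : ℂ × ℂ) (min δb 1) ∈ 𝓝 ((0, 0) : ℂ × ℂ) :=
      ball_mem_nhds _ (by positivity)
    filter_upwards [hmem] with p hp
    have hp' : ‖p‖ < min δb 1 := by
      have := mem_ball.1 hp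
      rwa [Prod.mk_zero_zero, dist_zero_right] at this
    have hp1 : ‖p.1‖ ≤ 1 := ((norm_fst_le p).trans_lt (hp'.trans_le (min_le_right _ _))).le
    have hp2 : ‖p.2‖ < δb := (norm_snd_le p).trans_lt (hp'.trans_le (min_le_left _ _))
    have h1 := P3_norm (y := p.2) hp1
    have h2 := hbd (p.2 * p.1, p.2) (h1.trans_lt hp2)
    have h3 : ‖((1 : ℂ), (0 : ℂ))‖ = 1 := by simp [Prod.norm_def]
    calc ‖ψ0 p‖ ≤ ‖fderiv ℂ F (p.2 * p.1, p.2)‖ * ‖((1 : ℂ), (0 : ℂ))‖ :=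
          ContinuousLinearMap.le_opNorm _ _
      _ ≤ (Cb * ‖((p.2 * p.1, p.2) : ℂ × ℂ)‖ ^ (k - 1)) * 1 := by rw [h3]; gcongr
      _ ≤ Cb * ‖p.2‖ ^ (k - 1) := by
        rw [mul_one]; gcongr
  obtain ⟨ψ, hψ, hψeq⟩ := hol_div (Hol.of_analyticAt hψ0an) (k - 1) Cb hψ0b
  obtain ⟨ρ, hρ, hρeq⟩ := Metric.eventually_nhds_iff.1 hψeq
  obtain ⟨ρ', hρ', hρd⟩ := Metric.eventually_nhds_iff.1 hψ
  set w : ℂ → ℂ := fun Z => κ j * q Z + Z * deriv q Z with hw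
  have hwc : Continuous w := by
    have h1 : Continuous q := (P3_q_cd κ c X j).continuous
    have h2 : Continuous (deriv q) := (P3_q_cd κ c X j).continuous_deriv le_rfl
    fun_prop
  have hw0 : w 0 = κ j * q 0 := by simp [hw]
  have hslice : ∀ᶠ Z in 𝓝 (0 : ℂ), ψ (Z, 0) = (Z - 0) ^ n * w Z := by
    have hmem : ball (0 : ℂ) (min (min ρ ρ') 1) ∈ 𝓝 (0 : ℂ) := ball_mem_nhds _ (by positivity)
    filter_upwards [hmem] with Z hZ
    have hZ' : ‖Z‖ < min (min ρ ρ') 1 := by simpa using hZ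
    have hZρ : ‖Z‖ < ρ := hZ'.trans_le ((min_le_left _ _).trans (min_le_left _ _))
    have hZρ' : ‖Z‖ < ρ' := hZ'.trans_le ((min_le_left _ _).trans (min_le_right _ _))
    have hZ1 : ‖Z‖ ≤ 1 := (hZ'.trans_le (min_le_right _ _)).le
    rw [sub_zero]
    have hcont : ContinuousAt (fun y : ℂ => ψ (Z, y)) 0 := by
      have h1 : ContinuousAt ψ (Z, 0) := by
        refine (hρd ?_).continuousAt
        rw [Prod.mk_zero_zero, dist_zero_right, Prod.norm_def]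
        simpa using hZρ'
      exact h1.comp (f := fun y : ℂ => (Z, y)) (by fun_prop)
    have hlim1 : Tendsto (fun y : ℂ => ψ (Z, y)) (𝓝[≠] 0) (𝓝 (ψ (Z, 0))) :=
      hcont.tendsto.mono_left nhdsWithin_le_nhds
    have hlim2 : Tendsto (fun y : ℂ => ψ (Z, y)) (𝓝[≠] 0) (𝓝 (Z ^ n * w Z)) := by
      rw [tendsto_iff_norm_sub_tendsto_zero]
      have h0 : Tendsto (fun y : ℂ => C1 * ‖y‖) (𝓝[≠] 0) (𝓝 0) := by
        have : Continuous fun y : ℂ => C1 * ‖y‖ := by fun_prop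
        have h2 := this.tendsto (0 : ℂ)
        simp only [norm_zero, mul_zero] at h2
        exact h2.mono_left nhdsWithin_le_nhds
      refine squeeze_zero' (Eventually.of_forall fun _ => norm_nonneg _) ?_ h0
      have hmem2 : ball (0 : ℂ) (min ρ δ1) ∈ 𝓝[≠] (0 : ℂ) :=
        mem_nhdsWithin_of_mem_nhds (ball_mem_nhds _ (by positivity))
      filter_upwards [hmem2, self_mem_nhdsWithin] with y hy hy0
      have hy0' : y ≠ 0 := hy0
      have hy' : ‖y‖ < min ρ δ1 := by simpa using hy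
      have e1 : ψ0 (Z, y) = y ^ (k - 1) * ψ (Z, y) := by
        refine hρeq ?_
        rw [dist_eq_norm, Prod.norm_def]
        simpa using ⟨hZρ, hy'.trans_le (min_le_left _ _)⟩
      have e2 : dx (form κ c X) (y * Z, y) = y ^ (k - 1) * (Z ^ n * w Z) :=
        P3_dxform κ c X j hj hκj hy0' Z
      have e3 : ‖ψ0 (Z, y) - dx (form κ c X) (y * Z, y)‖ ≤ C1 * ‖y‖ ^ k := by
        have h1 := P3_norm (y := y) hZ1
        have h2 := hfd (y * Z, y) (h1.trans_lt (hy'.trans_le (min_le_right _ _)))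
        have h3 : ‖((1 : ℂ), (0 : ℂ))‖ = 1 := by simp [Prod.norm_def]
        calc ‖ψ0 (Z, y) - dx (form κ c X) (y * Z, y)‖
            = ‖(fderiv ℂ F (y * Z, y) - fderiv ℂ (form κ c X) (y * Z, y)) ((1 : ℂ), (0 : ℂ))‖ := rfl
          _ ≤ ‖fderiv ℂ F (y * Z, y) - fderiv ℂ (form κ c X) (y * Z, y)‖ * ‖((1 : ℂ), (0 : ℂ))‖ :=
              ContinuousLinearMap.le_opNorm _ _
          _ ≤ (C1 * ‖((y * Z, y) : ℂ × ℂ)‖ ^ k) * 1 := by rw [h3]; gcongr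
          _ ≤ C1 * ‖y‖ ^ k := by rw [mul_one]; gcongr
      rw [e1, e2, ← mul_sub, norm_mul, norm_pow] at e3
      have hyp : 0 < ‖y‖ ^ (k - 1) := pow_pos (norm_pos_iff.2 hy0') _
      have e4 : ‖y‖ ^ k = ‖y‖ ^ (k - 1) * ‖y‖ := by
        rw [← pow_succ]; congr 1; omega
      rw [e4] at e3
      refine le_of_mul_le_mul_left ?_ hyp
      linarith
    exact tendsto_nhds_unique hlim1 hlim2
  obtain ⟨N, χ, u', hN, hu', hχ, hest⟩ := puiseux n ψ 0 w hψ hwc.continuousAt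
    (by rw [hw0]; exact hu) hslice
  -- identify `u'`
  have huu : u' = κ j * q 0 := by
    rw [← hw0]
    have hN0 : N ≠ 0 := by omega
    by_contra hne
    have hpos : 0 < ‖w 0 - u'‖ := norm_pos_iff.2 (sub_ne_zero.2 (Ne.symm hne))
    obtain ⟨δ, hδ, hδe⟩ := hest (‖w 0 - u'‖ / 2) (by positivity)
    obtain ⟨ρ2, hρ2, hρ2e⟩ := Metric.eventually_nhds_iff.1 hslice
    have hlim : Tendsto (fun Z : ℂ => ‖w Z - u'‖) (𝓝[≠] 0) (𝓝 ‖w 0 - u'‖) :=
      ((hwc.sub continuous_const).norm.tendsto 0).mono_left nhdsWithin_le_nhds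
    have hle : ‖w 0 - u'‖ ≤ ‖w 0 - u'‖ / 2 := by
      refine le_of_tendsto hlim ?_
      have hmem2 : ball (0 : ℂ) (min ρ2 δ) ∈ 𝓝[≠] (0 : ℂ) :=
        mem_nhdsWithin_of_mem_nhds (ball_mem_nhds _ (by positivity))
      filter_upwards [hmem2, self_mem_nhdsWithin] with Z hZ hZ0
      have hZ0' : Z ≠ 0 := hZ0
      have hZ' : ‖Z‖ < min ρ2 δ := by simpa using hZ
      have h1 := hδe Z 0 (by simpa using hZ'.trans_le (min_le_right _ _)) (by simpa using hδ)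
      have h2 := hρ2e (y := Z) (by simpa using hZ'.trans_le (min_le_left _ _))
      rw [zero_pow hN0, h2] at h1
      simp only [sub_zero, (hχ _).2, Finset.prod_const, Finset.card_univ, Fintype.card_fin] at h1
      have h3 : Z ^ n * w Z - u' * Z ^ n = Z ^ n * (w Z - u') := by ring
      rw [h3, norm_mul, norm_pow] at h1
      have h4 : 0 < ‖Z‖ ^ n := pow_pos (norm_pos_iff.2 hZ0') _
      refine le_of_mul_le_mul_left ?_ h4
      linarith
    linarith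
  refine ⟨N, fun l t => t ^ N * χ l t, ?_⟩
  have hfdF := hF.bd
  refine ⟨hF.an, by omega, hN, hu, ?_, ?_, ?_, ?_, ?_⟩
  · intro l
    exact (analyticAt_id.pow N).mul (hχ l).1
  · intro l
    have h1 : Tendsto (χ l) (𝓝[≠] 0) (𝓝 0) := by
      have := (hχ l).1.continuousAt.tendsto
      rw [(hχ l).2] at this
      exact this.mono_left nhdsWithin_le_nhds
    have h2 : (χ l) =o[𝓝[≠] 0] (fun _ : ℂ => (1 : ℂ)) := (isLittleO_one_iff ℂ).2 h1
    have h3 := (isBigO_refl (fun t : ℂ => t ^ N) (𝓝[≠] 0)).mul_isLittleO h2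
    simpa using h3
  · intro ε hε
    obtain ⟨δ, hδ, hδe⟩ := hest ε hε
    refine ⟨min δ (min ρ 1), by positivity, ?_⟩
    intro x t ht0 ht hx
    have htne : t ≠ 0 := norm_pos_iff.1 ht0
    have htN : t ^ N ≠ 0 := pow_ne_zero _ htne
    have hx1 : ‖x‖ < δ * ‖t‖ ^ N := hx.trans_le (by gcongr; exact min_le_left _ _)
    have hx2 : ‖x‖ < ρ * ‖t‖ ^ N :=
      hx.trans_le (by gcongr; exact (min_le_right _ _).trans (min_le_left _ _))
    set Z := x / t ^ N with hZ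
    have hxZ : x = t ^ N * Z := by rw [hZ]; field_simp
    have hZδ : ‖Z‖ < δ := by
      rw [hZ, norm_div, norm_pow, div_lt_iff₀ (by positivity)]; exact hx1
    have hZρ : ‖Z‖ < ρ := by
      rw [hZ, norm_div, norm_pow, div_lt_iff₀ (by positivity)]; exact hx2
    have ht1 : ‖t‖ ≤ 1 := (ht.trans_le ((min_le_right _ _).trans (min_le_right _ _))).le
    have htρ : ‖t ^ N‖ < ρ := by
      rw [norm_pow]
      calc ‖t‖ ^ N ≤ ‖t‖ ^ 1 := pow_le_pow_of_le_one (norm_nonneg _) ht1 hN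
        _ = ‖t‖ := pow_one _
        _ < ρ := ht.trans_le ((min_le_right _ _).trans (min_le_left _ _))
    have htδ : ‖t‖ < δ := ht.trans_le (min_le_left _ _)
    have e1 : dx F (x, t ^ N) = (t ^ N) ^ (k - 1) * ψ (Z, t ^ N) := by
      have h1 := hρeq (y := (Z, t ^ N)) (by
        rw [dist_eq_norm, Prod.norm_def]
        simpa using ⟨hZρ, by simpa using htρ⟩)
      rw [hxZ]
      exact h1
    have e2 := hδe Z t (by simpa using hZδ) htδ
    have e3 : ∏ l, (x - t ^ N * χ l t) = (t ^ N) ^ n * ∏ l, (Z - χ l t) := by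
      have h1 : ∀ l, x - t ^ N * χ l t = t ^ N * (Z - χ l t) := by
        intro l; rw [hxZ]; ring
      simp only [h1]
      rw [Finset.prod_mul_distrib, Finset.prod_const, Finset.card_univ, Fintype.card_fin]
    have e4 : ∏ l, ‖x - t ^ N * χ l t‖ = (‖t‖ ^ N) ^ n * ∏ l, ‖Z - χ l t‖ := by
      rw [← norm_prod, e3, norm_mul, norm_pow, norm_pow, norm_prod]
    have e5 : k - 1 = (k - 1 - n) + n := by omega
    show ‖dx F (x, t ^ N) - κ j * q 0 * t ^ (N * (k - 1 - n)) * ∏ l, (x - t ^ N * χ l t)‖ ≤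
      ε * (‖t‖ ^ (N * (k - 1 - n)) * ∏ l, ‖x - t ^ N * χ l t‖)
    rw [e1, e3, e4, ← huu]
    have e6 : (t ^ N) ^ (k - 1) * ψ (Z, t ^ N) - u' * t ^ (N * (k - 1 - n)) *
        ((t ^ N) ^ n * ∏ l, (Z - χ l t)) =
        (t ^ N) ^ (k - 1) * (ψ (Z, t ^ N) - u' * ∏ l, (Z - χ l t)) := by
      have h1 : (t ^ N) ^ (k - 1) = t ^ (N * (k - 1 - n)) * (t ^ N) ^ n := by
        rw [pow_mul t N, ← pow_add, ← e5]
      rw [h1]; ring
    have e7 : ε * (‖t‖ ^ (N * (k - 1 - n)) * ((‖t‖ ^ N) ^ n * ∏ l, ‖Z - χ l t‖)) =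
        (‖t‖ ^ N) ^ (k - 1) * (ε * ∏ l, ‖Z - χ l t‖) := by
      have h1 : (‖t‖ ^ N) ^ (k - 1) = ‖t‖ ^ (N * (k - 1 - n)) * (‖t‖ ^ N) ^ n := by
        rw [pow_mul ‖t‖ N, ← pow_add, ← e5]
      rw [h1]; ring
    rw [e6, e7, norm_mul, norm_pow, norm_pow]
    exact mul_le_mul_of_nonneg_left e2 (by positivity)
  · intro ε hε
    obtain ⟨C, hC, δ0, hδ0, hb⟩ := hfdF
    -- the polynomial `form (Z, 1)` is small near `0`
    have hpc : Continuous fun Z : ℂ => form κ c X (Z, 1) :=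
      (P3_form_diff κ c X).continuous.comp (by fun_prop)
    have hp0 : form κ c X (0, 1) = 0 := by
      rw [P3_form_q κ c X j hj, zero_pow (by omega), zero_mul]
    obtain ⟨δ2, hδ2, hδ2e⟩ := Metric.continuousAt_iff.1 hpc.continuousAt (ε / 2) (by positivity)
    refine ⟨min (min δ0 1) (min δ2 (ε / (2 * C))), by positivity, ?_⟩
    intro x y hy0 hy hx
    have hyne : y ≠ 0 := norm_pos_iff.1 hy0
    set δ := min (min δ0 1) (min δ2 (ε / (2 * C))) with hδ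
    have hδ1' : δ ≤ 1 := (min_le_left _ _).trans (min_le_right _ _)
    set Z := x / y with hZ
    have hxZ : x = y * Z := by rw [hZ]; field_simp
    have hZδ : ‖Z‖ < δ := by
      rw [hZ, norm_div, div_lt_iff₀ hy0]; exact hx
    have h1 := P3_norm (y := y) (hZδ.le.trans hδ1')
    have h2 := hb (y * Z, y) (h1.trans_lt (hy.trans_le ((min_le_left _ _).trans (min_le_left _ _))))
    have h3 : ‖form κ c X (Z, 1)‖ < ε / 2 := by
      have := hδ2e (x := Z) (by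
        rw [dist_zero_right]
        exact hZδ.trans_le ((min_le_right _ _).trans (min_le_left _ _)))
      rwa [hp0, dist_zero_right] at this
    have h4 : ‖form κ c X (y * Z, y)‖ ≤ ‖y‖ ^ k * (ε / 2) := by
      rw [P3_form_hom, norm_mul, norm_pow]
      exact mul_le_mul_of_nonneg_left h3.le (by positivity)
    have h5 : C * ‖((y * Z, y) : ℂ × ℂ)‖ ^ (k + 1) ≤ ‖y‖ ^ k * (ε / 2) := by
      have h6 : ‖((y * Z, y) : ℂ × ℂ)‖ ^ (k + 1) ≤ ‖y‖ ^ (k + 1) := by gcongr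
      have h7 : ‖y‖ ≤ ε / (2 * C) := (hy.trans_le ((min_le_right _ _).trans (min_le_right _ _))).le
      calc C * ‖((y * Z, y) : ℂ × ℂ)‖ ^ (k + 1) ≤ C * (‖y‖ ^ k * (ε / (2 * C))) := by
            rw [pow_succ ‖y‖] at h6
            gcongr
            exact h6.trans (by gcongr)
        _ = ‖y‖ ^ k * (ε / 2) := by field_simp
    rw [hxZ]
    calc ‖F (y * Z, y)‖ = ‖(F (y * Z, y) - form κ c X (y * Z, y)) + form κ c X (y * Z, y)‖ := by
          rw [sub_add_cancel]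
      _ ≤ ‖y‖ ^ k * (ε / 2) + ‖y‖ ^ k * (ε / 2) :=
          (norm_add_le _ _).trans (add_le_add (h2.trans h5) h4)
      _ = ε * ‖y‖ ^ k := by ring
  · exact ⟨Cb, hCb, δb, hδb, hbd⟩

theorem pchart_exists {r : ℕ} (κ : Fin r → ℕ) (c : ℂ) (X : Fin r → ℂ) (f : ℂ × ℂ → ℂ)
    (hf : NForm κ c X f) (j : Fin r) :
    ∃ (N : ℕ) (γ : Fin (κ j - 1) → ℂ → ℂ),
      PCh (fun p => f (p.1 + X j * p.2, p.2)) (∑ i, κ i) (κ j - 1) N
        (κ j * c * ∏ i ∈ Finset.univ.erase j, (X j - X i) ^ κ i) γ := by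
  have hF : NForm κ c (fun i => X i - X j) (fun p => f (p.1 + X j * p.2, p.2)) := by
    refine ⟨?_, hf.hr, hf.hc, ?_, hf.hκ, ?_⟩
    · have h1 : AnalyticAt ℂ (fun p : ℂ × ℂ => (p.1 + X j * p.2, p.2)) 0 :=
        (analyticAt_fst.add (analyticAt_const.mul analyticAt_snd)).prod analyticAt_snd
      exact AnalyticAt.comp_of_eq (g := f) (f := fun p : ℂ × ℂ => (p.1 + X j * p.2, p.2)) hf.an h1
        (by simp)
    · intro a b hab
      exact hf.hX (by simpa using hab)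
    · obtain ⟨C, hC, δ, hδ, hb⟩ := hf.bd
      refine ⟨C * (1 + ‖X j‖) ^ (∑ i, κ i + 1), by positivity, δ / (1 + ‖X j‖), by positivity, ?_⟩
      intro p hp
      have h1 : ‖((p.1 + X j * p.2, p.2) : ℂ × ℂ)‖ ≤ (1 + ‖X j‖) * ‖p‖ := by
        rw [Prod.norm_def]
        have h2 := norm_fst_le p
        have h3 := norm_snd_le p
        have h4 := norm_nonneg (X j)
        refine max_le ?_ ?_
        · calc ‖p.1 + X j * p.2‖ ≤ ‖p.1‖ + ‖X j‖ * ‖p.2‖ := by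
                refine (norm_add_le _ _).trans ?_
                rw [norm_mul]
            _ ≤ (1 + ‖X j‖) * ‖p‖ := by nlinarith
        · show ‖p.2‖ ≤ _
          nlinarith [norm_nonneg p]
      have h2 := hb (p.1 + X j * p.2, p.2) (h1.trans_lt (by
        rw [lt_div_iff₀ (by positivity)] at hp; linarith))
      have h3 : form κ c (fun i => X i - X j) p = form κ c X (p.1 + X j * p.2, p.2) := by
        unfold form
        congr 1
        refine Finset.prod_congr rfl fun i _ => ?_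
        congr 1
        ring
      rw [h3]
      refine h2.trans ?_
      rw [mul_assoc, ← mul_pow]
      gcongr
  obtain ⟨N, γ, h⟩ := P3_main κ c (fun i => X i - X j) _ hF j (by simp)
  refine ⟨N, γ, ?_⟩
  have e : (κ j : ℂ) * P3_q κ c (fun i => X i - X j) j 0 =
      κ j * c * ∏ i ∈ Finset.univ.erase j, (X j - X i) ^ κ i := by
    unfold P3_q
    rw [mul_assoc]
    congr 2
    refine Finset.prod_congr rfl fun i _ => ?_
    congr 1
    ring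
  rw [← e]
  exact h

end H24.LS
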