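import Pool.Agent.H24.LS.P0
import Pool.Agent.H24.LS.B0
import Pool.Agent.H24.LS.F0

/-!
# R0: block R (root level matching): definitions, symmetry, shears

Notation: line `j` of `f` is `x = X_j y`; in the chart coordinates of this line the point `(x, y)` stands for
`(x + X_j y, y)`; in the target (line `x = X' y`) the chart coordinates of `q` are `(q.1 - X' q.2, q.2)`.
-/

open Filter Topology Metric

namespace H24.LS

/-- in the chart coordinates at the lines `x = X y`, `x = X' y`, the map `A` sends thin cones to thin cones -/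
def ConeTo (A : ℂ × ℂ → ℂ × ℂ) (X X' : ℂ) : Prop :=
  ∀ ε > (0 : ℝ), ∃ δ > (0 : ℝ), ∀ x y : ℂ, ‖y‖ < δ → ‖x‖ ≤ δ * ‖y‖ →
    ‖(A (x + X * y, y)).1 - X' * (A (x + X * y, y)).2‖ ≤ ε * ‖(A (x + X * y, y)).2‖

/-- first root limit of `match_main`, in the chart coordinates -/
def Root1 (A : ℂ × ℂ → ℂ × ℂ) (X X' α : ℂ) : Prop :=
  ∀ ε > (0 : ℝ), ∃ δ1 > (0 : ℝ), ∀ δ2 > (0 : ℝ), ∃ δ3 > (0 : ℝ), ∀ x y : ℂ,
    0 < ‖y‖ → ‖y‖ < δ3 → δ2 * ‖y‖ ≤ ‖x‖ → ‖x‖ ≤ δ1 * ‖y‖ →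
    ‖(A (x + X * y, y)).1 - X' * (A (x + X * y, y)).2 - α * x‖ ≤ ε * ‖x‖

/-- second root limit of `match_main`, in the chart coordinates -/
def Root2 (A : ℂ × ℂ → ℂ × ℂ) (X ω : ℂ) : Prop :=
  ∀ ε > (0 : ℝ), ∃ δ > (0 : ℝ), ∀ x y : ℂ, ‖y‖ < δ → ‖x‖ ≤ δ * ‖y‖ →
    ‖(A (x + X * y, y)).2 - ω * y‖ ≤ ε * ‖y‖

/-- bound for the derivative -/
def BdF (f : ℂ × ℂ → ℂ) (k : ℕ) : Prop :=
  ∃ C > (0 : ℝ), ∃ δ > (0 : ℝ), ∀ p : ℂ × ℂ, ‖p‖ < δ → ‖fderiv ℂ f p‖ ≤ C * ‖p‖ ^ (k - 1)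

/-- the linear map `(x, y) ↦ (x + a y, y)` -/
noncomputable def shear (a : ℂ) : (ℂ × ℂ) ≃L[ℂ] (ℂ × ℂ) :=
  LinearEquiv.toContinuousLinearEquiv
    { toFun := fun p => (p.1 + a * p.2, p.2)
      invFun := fun p => (p.1 - a * p.2, p.2)
      map_add' := fun p q => by
        ext
        · simp only [Prod.fst_add, Prod.snd_add]
          ring
        · simp
      map_smul' := fun s p => by
        ext
        · simp only [Prod.smul_fst, Prod.smul_snd, smul_eq_mul, RingHom.id_apply]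
          ring
        · simp
      left_inv := fun p => by
        ext
        · show p.1 + a * p.2 - a * p.2 = p.1
          ring
        · rfl
      right_inv := fun p => by
        ext
        · show p.1 - a * p.2 + a * p.2 = p.1
          ring
        · rfl }

theorem shear_apply (a : ℂ) (p : ℂ × ℂ) : shear a p = (p.1 + a * p.2, p.2) := rfl

theorem shear_symm_apply (a : ℂ) (p : ℂ × ℂ) : (shear a).symm p = (p.1 - a * p.2, p.2) := rfl

theorem coarse_symm {E E' : Type*} [NormedAddCommGroup E] [NormedSpace ℂ E]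
    [NormedAddCommGroup E'] [NormedSpace ℂ E'] {f : E → ℂ} {g : E' → ℂ} {A : E → E'} {B : E' → E}
    {L ρ : ℝ} (h : Coarse f g A B L ρ) : Coarse g f B A L ρ where
  hL := h.hL
  hρ := h.hρ
  A0 := h.B0
  B0 := h.A0
  lipA := h.lipB
  lipB := h.lipA
  fA := h.gB
  gB := h.fA
  dA := h.dB
  dB := h.dA
  BA := h.AB
  AB := h.BA

end H24.LS
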