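import Pool.Agent.H24.LS.R0

/-!
# R0b: lower bounds

* `bdF_of_nform`: `NForm.fd`, `form_bound` (as `P3_bd` in P3).
* `low_main`: as `mat_lower`, `mat_size` in F0 (there the same facts are proved for the structure `Mat`):
  by `small_second` (used for `g` and for `f`) with `ε = 1/(2 L^2)`:
  `‖∇g q‖ ≤ ‖∇g (A (B q))‖ + ‖∇g q - ∇g (A (B q))‖ ≤ L ‖∇f (B q)‖ + ε ‖A (B q) - q‖ ≤ L ‖∇f (B q)‖ + ε L ‖∇g q‖`, so
  `‖∇g q‖ ≤ 2L ‖∇f (B q)‖`, the same for `f`.  `‖A p‖ ≤ L ‖p‖` (`lipA`, `A0`).  `‖p‖ ≤ ‖B (A p)‖ + L ‖∇f p‖ ≤ L ‖A p‖ + L C ‖p‖^(k-1)`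
  and `L C ‖p‖^(k-1) ≤ ‖p‖/2` for small `p` (`k ≥ 3`); so `‖p‖ ≤ 2L ‖A p‖`.
-/

open Filter Topology Metric

namespace H24.LS

theorem bdF_of_nform {r : ℕ} {κ : Fin r → ℕ} {c : ℂ} {X : Fin r → ℂ} {f : ℂ × ℂ → ℂ}
    (hf : NForm κ c X f) : BdF f (∑ j, κ j) := by
  obtain ⟨C1, hC1, δ1, hδ1, h1⟩ := hf.fd
  obtain ⟨C2, hC2, h2⟩ := form_bound κ hf.hr hf.hκ c X
  refine ⟨C1 + C2, by positivity, min δ1 1, by positivity, fun p hp => ?_⟩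
  have hp1 := h1 p (hp.trans_le (min_le_left _ _))
  have hp2 := (h2 p).2
  have hp3 : ‖p‖ ≤ 1 := (hp.trans_le (min_le_right _ _)).le
  have h3 : ‖p‖ ^ (∑ i, κ i) ≤ ‖p‖ ^ (∑ i, κ i - 1) :=
    pow_le_pow_of_le_one (norm_nonneg _) hp3 (Nat.sub_le _ _)
  calc ‖fderiv ℂ f p‖ = ‖(fderiv ℂ f p - fderiv ℂ (form κ c X) p) + fderiv ℂ (form κ c X) p‖ := by
        rw [sub_add_cancel]
    _ ≤ C1 * ‖p‖ ^ (∑ i, κ i) + C2 * ‖p‖ ^ (∑ i, κ i - 1) := (norm_add_le _ _).trans (by linarith)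
    _ ≤ (C1 + C2) * ‖p‖ ^ (∑ i, κ i - 1) := by nlinarith

private theorem R0b_half {f g : ℂ × ℂ → ℂ} (hg : AnalyticAt ℂ g 0) {k' : ℕ}
    (hk' : 3 ≤ k') (bg : BdF g k') {A B : ℂ × ℂ → ℂ × ℂ} {L ρ : ℝ}
    (h : Coarse f g A B L ρ) :
    ∃ δ > (0 : ℝ), ∀ q : ℂ × ℂ, ‖q‖ < δ → ‖fderiv ℂ g q‖ ≤ 2 * L * ‖fderiv ℂ f (B q)‖ := by
  have hL := h.hL
  have hρ := h.hρ
  have hL0 : 0 < L := by linarith
  obtain ⟨δ1, hδ1, hG2⟩ := small_second g hg k' hk' bg (1 / (2 * L)) (by positivity)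
  have hzero : (0 : ℂ × ℂ) ∈ ball (0 : ℂ × ℂ) ρ := mem_ball_self hρ
  have hA : ∀ p ∈ ball (0 : ℂ × ℂ) ρ, ‖A p‖ ≤ L * ‖p‖ := by
    intro p hp
    have := h.lipA p hp 0 hzero
    rwa [h.A0, sub_zero, sub_zero] at this
  have hB : ∀ p ∈ ball (0 : ℂ × ℂ) ρ, ‖B p‖ ≤ L * ‖p‖ := by
    intro p hp
    have := h.lipB p hp 0 hzero
    rwa [h.B0, sub_zero, sub_zero] at this
  set d : ℝ := min ρ δ1 with hd
  have hd0 : 0 < d := lt_min hρ hδ1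
  have hgen : ∀ q : ℂ × ℂ, ‖q‖ < d / L ^ 2 → ‖q‖ < d ∧ L * ‖q‖ < d ∧ L * (L * ‖q‖) < d := by
    intro q hq
    rw [lt_div_iff₀ (by positivity)] at hq
    have hn := norm_nonneg q
    have h1 : ‖q‖ ≤ L * ‖q‖ := by nlinarith
    have h2 : L * ‖q‖ ≤ L * (L * ‖q‖) := by nlinarith
    have h3 : L * (L * ‖q‖) = ‖q‖ * L ^ 2 := by ring
    refine ⟨by linarith, by linarith, by linarith⟩
  refine ⟨d / L ^ 2, by positivity, ?_⟩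
  intro q hq
  obtain ⟨e1, e2, e3⟩ := hgen q hq
  have hqρ : q ∈ ball (0 : ℂ × ℂ) ρ := by
    rw [mem_ball_zero_iff]; exact lt_of_lt_of_le e1 (min_le_left _ _)
  have hBq := hB q hqρ
  have hBρ : B q ∈ ball (0 : ℂ × ℂ) ρ := by
    rw [mem_ball_zero_iff]
    exact lt_of_le_of_lt hBq (lt_of_lt_of_le e2 (min_le_left _ _))
  have hABq := hA (B q) hBρ
  have hABn : ‖A (B q)‖ < d :=
    lt_of_le_of_lt (hABq.trans (mul_le_mul_of_nonneg_left hBq hL0.le)) e3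
  have hs := hG2 q (A (B q)) (lt_of_lt_of_le e1 (min_le_right _ _))
    (lt_of_lt_of_le hABn (min_le_right _ _))
  have hAB := h.AB q hqρ
  have hdA := h.dA (B q) hBρ
  rw [norm_sub_rev q (A (B q))] at hs
  have h1 : ‖fderiv ℂ g q‖ ≤ ‖fderiv ℂ g (A (B q))‖ + ‖fderiv ℂ g q - fderiv ℂ g (A (B q))‖ := by
    have : fderiv ℂ g q = fderiv ℂ g (A (B q)) + (fderiv ℂ g q - fderiv ℂ g (A (B q))) := by abel
    calc ‖fderiv ℂ g q‖ = ‖fderiv ℂ g (A (B q)) + (fderiv ℂ g q - fderiv ℂ g (A (B q)))‖ := by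
          rw [← this]
      _ ≤ _ := norm_add_le _ _
  have h2 : 1 / (2 * L) * ‖A (B q) - q‖ ≤ 1 / 2 * ‖fderiv ℂ g q‖ := by
    calc 1 / (2 * L) * ‖A (B q) - q‖ ≤ 1 / (2 * L) * (L * ‖fderiv ℂ g q‖) :=
          mul_le_mul_of_nonneg_left hAB (by positivity)
      _ = 1 / 2 * ‖fderiv ℂ g q‖ := by field_simp
  linarith

private theorem R0b_size {f g : ℂ × ℂ → ℂ} {k : ℕ} (hk : 3 ≤ k) (bf : BdF f k)
    {A B : ℂ × ℂ → ℂ × ℂ} {L ρ : ℝ} (h : Coarse f g A B L ρ) :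
    ∃ δ > (0 : ℝ), ∀ p : ℂ × ℂ, ‖p‖ < δ → ‖p‖ ≤ 2 * L * ‖A p‖ ∧ ‖A p‖ ≤ L * ‖p‖ := by
  have hL := h.hL
  have hρ := h.hρ
  have hL0 : 0 < L := by linarith
  obtain ⟨C0, hC0, δ0, hδ0, hbd⟩ := bf
  have hzero : (0 : ℂ × ℂ) ∈ ball (0 : ℂ × ℂ) ρ := mem_ball_self hρ
  refine ⟨min (min δ0 (ρ / L)) (min 1 (1 / (2 * L * C0))), by positivity, ?_⟩
  intro p hp
  have hd1 : ‖p‖ < δ0 := lt_of_lt_of_le hp ((min_le_left _ _).trans (min_le_left _ _))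
  have hd3 : ‖p‖ < ρ / L := lt_of_lt_of_le hp ((min_le_left _ _).trans (min_le_right _ _))
  have hd4 : ‖p‖ < 1 := lt_of_lt_of_le hp ((min_le_right _ _).trans (min_le_left _ _))
  have hd5 : ‖p‖ < 1 / (2 * L * C0) := lt_of_lt_of_le hp ((min_le_right _ _).trans (min_le_right _ _))
  have hpd : L * ‖p‖ < ρ := by
    rw [lt_div_iff₀ hL0] at hd3
    linarith
  have hpρ : p ∈ ball (0 : ℂ × ℂ) ρ := by
    rw [mem_ball_zero_iff]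
    have := norm_nonneg p
    nlinarith
  have hAp : ‖A p‖ ≤ L * ‖p‖ := by
    have := h.lipA p hpρ 0 hzero
    rwa [h.A0, sub_zero, sub_zero] at this
  have hApρ : A p ∈ ball (0 : ℂ × ℂ) ρ := by
    rw [mem_ball_zero_iff]; exact lt_of_le_of_lt hAp hpd
  have hBAp : ‖B (A p)‖ ≤ L * ‖A p‖ := by
    have := h.lipB (A p) hApρ 0 hzero
    rwa [h.B0, sub_zero, sub_zero] at this
  have hBA := h.BA p hpρ
  have hF : ‖fderiv ℂ f p‖ ≤ C0 * ‖p‖ ^ (k - 1) := hbd p hd1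
  have hpk : ‖p‖ ^ (k - 1) ≤ ‖p‖ ^ 2 :=
    pow_le_pow_of_le_one (norm_nonneg _) hd4.le (by omega)
  have hsmall : L * (C0 * ‖p‖ ^ (k - 1)) ≤ 1 / 2 * ‖p‖ := by
    have h1 : ‖p‖ ≤ 1 / (2 * L * C0) := hd5.le
    rw [le_div_iff₀ (by positivity)] at h1
    calc L * (C0 * ‖p‖ ^ (k - 1)) ≤ L * (C0 * ‖p‖ ^ 2) := by
          refine mul_le_mul_of_nonneg_left ?_ hL0.le
          exact mul_le_mul_of_nonneg_left hpk hC0.le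
      _ = 1 / 2 * (‖p‖ * (2 * L * C0)) * ‖p‖ := by ring
      _ ≤ 1 / 2 * 1 * ‖p‖ := by
          refine mul_le_mul_of_nonneg_right ?_ (norm_nonneg _)
          exact mul_le_mul_of_nonneg_left h1 (by norm_num)
      _ = 1 / 2 * ‖p‖ := by ring
  refine ⟨?_, hAp⟩
  have h1 : ‖p‖ ≤ ‖B (A p)‖ + ‖B (A p) - p‖ := by
    have : p = B (A p) - (B (A p) - p) := by abel
    calc ‖p‖ = ‖B (A p) - (B (A p) - p)‖ := by rw [← this]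
      _ ≤ _ := norm_sub_le _ _
  have h2 : ‖B (A p) - p‖ ≤ L * (C0 * ‖p‖ ^ (k - 1)) :=
    hBA.trans (mul_le_mul_of_nonneg_left hF hL0.le)
  linarith

theorem low_main {f g : ℂ × ℂ → ℂ} (hf : AnalyticAt ℂ f 0) (hg : AnalyticAt ℂ g 0) {k k' : ℕ}
    (hk : 3 ≤ k) (hk' : 3 ≤ k') (bf : BdF f k) (bg : BdF g k') {A B : ℂ × ℂ → ℂ × ℂ} {L ρ : ℝ}
    (h : Coarse f g A B L ρ) :
    ∃ δ > (0 : ℝ), (∀ q : ℂ × ℂ, ‖q‖ < δ → ‖fderiv ℂ g q‖ ≤ 2 * L * ‖fderiv ℂ f (B q)‖) ∧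
      (∀ p : ℂ × ℂ, ‖p‖ < δ → ‖fderiv ℂ f p‖ ≤ 2 * L * ‖fderiv ℂ g (A p)‖) ∧
      (∀ p : ℂ × ℂ, ‖p‖ < δ → ‖p‖ ≤ 2 * L * ‖A p‖ ∧ ‖A p‖ ≤ L * ‖p‖) ∧
      ∀ q : ℂ × ℂ, ‖q‖ < δ → ‖q‖ ≤ 2 * L * ‖B q‖ ∧ ‖B q‖ ≤ L * ‖q‖ := by
  obtain ⟨d1, hd1, h1⟩ := R0b_half hg hk' bg h
  obtain ⟨d2, hd2, h2⟩ := R0b_half hf hk bf (coarse_symm h)
  obtain ⟨d3, hd3, h3⟩ := R0b_size hk bf h
  obtain ⟨d4, hd4, h4⟩ := R0b_size hk' bg (coarse_symm h)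
  refine ⟨min (min d1 d2) (min d3 d4), by positivity, ?_, ?_, ?_, ?_⟩
  · exact fun q hq => h1 q (lt_of_lt_of_le hq ((min_le_left _ _).trans (min_le_left _ _)))
  · exact fun q hq => h2 q (lt_of_lt_of_le hq ((min_le_left _ _).trans (min_le_right _ _)))
  · exact fun q hq => h3 q (lt_of_lt_of_le hq ((min_le_right _ _).trans (min_le_left _ _)))
  · exact fun q hq => h4 q (lt_of_lt_of_le hq ((min_le_right _ _).trans (min_le_right _ _)))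

end H24.LS
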