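import Pool.Agent.H24.LS.R0

/-!
# R1: homogeneous forms

`P = form κ c X`, `k = Σ κ`.
* `form_hom`: `P (a • p) = a^k P p`; `fderiv P (a • p) = a^(k-1) • fderiv P p` for `a ≠ 0` (differentiate
  `P (a • p) = a^k P p` in `p`: `a • fderiv P (a • p) = a^k • fderiv P p`; or by homogeneity of the quotient definition).
* `form_euler`: `fderiv P p p = k * P p` (derivative of `t ↦ P ((1 + t) • p) = (1+t)^k P p` at `t = 0`).
* `form_grad_ne`: if `p ≠ 0` and `p.1 ≠ X j * p.2` for all `j` with `2 ≤ κ j` then `fderiv P p ≠ 0`.  Proof: if it is `0` then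
  `P p = 0` (Euler; `k ≥ 1` as `r > 0`), so `p.1 = X j * p.2` for some `j`, and `κ j = 1`; `p.2 ≠ 0` (else `p = 0`).  The derivative of
  `P` at `p` in the direction `(1,0)` is `c ∏_{i ≠ j} (p.1 - X i p.2)^{κ i}` (product rule: `P = (p.1 - X j p.2) * R p`, the factor vanishes
  at `p`), and `p.1 - X i p.2 = (X j - X i) p.2 ≠ 0`.
-/

open Filter Topology Metric

namespace H24.LS

theorem R1_diff {r : ℕ} (κ : Fin r → ℕ) (c : ℂ) (X : Fin r → ℂ) :
    Differentiable ℂ (form κ c X) := by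
  unfold form
  fun_prop

theorem form_hom {r : ℕ} (κ : Fin r → ℕ) (c : ℂ) (X : Fin r → ℂ) (a : ℂ) (p : ℂ × ℂ) :
    form κ c X (a • p) = a ^ (∑ j, κ j) * form κ c X p := by
  unfold form
  have h1 : ∀ j, ((a • p).1 - X j * (a • p).2) ^ κ j = a ^ κ j * (p.1 - X j * p.2) ^ κ j := by
    intro j
    rw [← mul_pow]
    congr 1
    simp only [Prod.smul_fst, Prod.smul_snd, smul_eq_mul]
    ring
  rw [Finset.prod_congr rfl fun j _ => h1 j, Finset.prod_mul_distrib, Finset.prod_pow_eq_pow_sum]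
  ring

theorem form_fderiv_hom {r : ℕ} (κ : Fin r → ℕ) (hk : 1 ≤ ∑ j, κ j) (c : ℂ) (X : Fin r → ℂ)
    (a : ℂ) (ha : a ≠ 0) (p : ℂ × ℂ) :
    fderiv ℂ (form κ c X) (a • p) = a ^ (∑ j, κ j - 1) • fderiv ℂ (form κ c X) p := by
  have hd := R1_diff κ c X
  have hs : HasFDerivAt (fun q : ℂ × ℂ => a • q) (a • ContinuousLinearMap.id ℂ (ℂ × ℂ)) p :=
    (hasFDerivAt_id p).const_smul a
  have h1 : HasFDerivAt (fun q => form κ c X (a • q))
      ((fderiv ℂ (form κ c X) (a • p)).comp (a • ContinuousLinearMap.id ℂ (ℂ × ℂ))) p :=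
    (hd (a • p)).hasFDerivAt.comp p hs
  have h2 : HasFDerivAt (fun q => form κ c X (a • q))
      (a ^ (∑ j, κ j) • fderiv ℂ (form κ c X) p) p := by
    have h3 := (hd p).hasFDerivAt.const_mul (a ^ (∑ j, κ j))
    refine h3.congr_of_eventuallyEq (Eventually.of_forall fun q => ?_)
    exact form_hom κ c X a q
  have h3 := h1.unique h2
  apply ContinuousLinearMap.ext
  intro w
  have h4 := congrArg (fun L : (ℂ × ℂ) →L[ℂ] ℂ => L w) h3
  simp only [ContinuousLinearMap.comp_apply, smul_apply,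
    ContinuousLinearMap.id_apply, map_smul, smul_eq_mul] at h4
  have h5 : a ^ (∑ j, κ j) = a * a ^ (∑ j, κ j - 1) := by
    rw [← pow_succ']
    congr 1
    omega
  rw [h5, mul_assoc] at h4
  simpa using mul_left_cancel₀ ha h4

theorem form_euler {r : ℕ} (κ : Fin r → ℕ) (c : ℂ) (X : Fin r → ℂ) (p : ℂ × ℂ) :
    fderiv ℂ (form κ c X) p p = (∑ j, κ j : ℕ) * form κ c X p := by
  have hd := R1_diff κ c X
  have hl : HasDerivAt (fun t : ℂ => t • p) p 1 := by
    simpa using (hasDerivAt_id (1 : ℂ)).smul_const p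
  have h1 : HasDerivAt (fun t : ℂ => form κ c X (t • p)) (fderiv ℂ (form κ c X) p p) 1 := by
    have h0 : HasFDerivAt (form κ c X) (fderiv ℂ (form κ c X) p) ((1 : ℂ) • p) := by
      rw [one_smul]
      exact (hd p).hasFDerivAt
    exact h0.comp_hasDerivAt (1 : ℂ) hl
  have h2 : HasDerivAt (fun t : ℂ => form κ c X (t • p))
      ((∑ j, κ j : ℕ) * form κ c X p) 1 := by
    have h3 := (hasDerivAt_pow (∑ j, κ j) (1 : ℂ)).mul_const (form κ c X p)
    rw [one_pow, mul_one] at h3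
    refine h3.congr_of_eventuallyEq (Eventually.of_forall fun t => ?_)
    exact form_hom κ c X t p
  exact h1.unique h2

theorem form_grad_ne {r : ℕ} (κ : Fin r → ℕ) (hr : 0 < r) (hκ : ∀ j, 1 ≤ κ j) (c : ℂ) (hc : c ≠ 0)
    (X : Fin r → ℂ) (hX : Function.Injective X) (p : ℂ × ℂ) (hp : p ≠ 0)
    (hpj : ∀ j, 2 ≤ κ j → p.1 ≠ X j * p.2) : fderiv ℂ (form κ c X) p ≠ 0 := by
  intro h0
  have hk : 1 ≤ ∑ j, κ j :=
    (hκ ⟨0, hr⟩).trans (Finset.single_le_sum (f := κ) (fun _ _ => Nat.zero_le _)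
      (Finset.mem_univ _))
  have h1 := form_euler κ c X p
  rw [h0] at h1
  have h2 : form κ c X p = 0 := by
    have h3 : ((∑ j, κ j : ℕ) : ℂ) ≠ 0 := by
      have : (∑ j, κ j) ≠ 0 := by omega
      exact_mod_cast this
    rcases mul_eq_zero.1 h1.symm with h | h
    · exact absurd h h3
    · exact h
  unfold form at h2
  rcases mul_eq_zero.1 h2 with h | h
  · exact hc h
  obtain ⟨j, -, hj⟩ := Finset.prod_eq_zero_iff.1 h
  have hj1 : p.1 - X j * p.2 = 0 := (pow_eq_zero_iff'.1 hj).1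
  have hκj : κ j = 1 := by
    by_contra hne
    exact hpj j (by have := hκ j; omega) (sub_eq_zero.1 hj1)
  have hp2 : p.2 ≠ 0 := by
    intro h2
    apply hp
    rw [h2, mul_zero, sub_zero] at hj1
    exact Prod.ext hj1 h2
  -- the cofactor
  set Rf : ℂ × ℂ → ℂ := fun q => c * ∏ i ∈ Finset.univ.erase j, (q.1 - X i * q.2) ^ κ i with hR
  have hRd : Differentiable ℂ Rf := by
    rw [hR]
    fun_prop
  have hfac : ∀ q : ℂ × ℂ, form κ c X q = (q.1 - X j * q.2) * Rf q := by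
    intro q
    unfold form
    rw [← Finset.mul_prod_erase Finset.univ _ (Finset.mem_univ j), hκj, pow_one]
    simp only [hR]
    ring
  have hL : HasFDerivAt (fun q : ℂ × ℂ => q.1 - X j * q.2)
      (ContinuousLinearMap.fst ℂ ℂ ℂ - X j • ContinuousLinearMap.snd ℂ ℂ ℂ) p :=
    hasFDerivAt_fst.sub (hasFDerivAt_snd.const_mul (X j))
  have hder := hL.mul (hRd p).hasFDerivAt
  have hder2 : HasFDerivAt (form κ c X)
      ((p.1 - X j * p.2) • fderiv ℂ Rf p +
        Rf p • (ContinuousLinearMap.fst ℂ ℂ ℂ - X j • ContinuousLinearMap.snd ℂ ℂ ℂ)) p :=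
    hder.congr_of_eventuallyEq (Eventually.of_forall hfac)
  have h3 := hder2.fderiv
  rw [h0] at h3
  have h4 := congrArg (fun L : (ℂ × ℂ) →L[ℂ] ℂ => L (1, 0)) h3
  simp [hj1] at h4
  have h5 : Rf p = 0 := h4.symm
  simp only [hR] at h5
  rcases mul_eq_zero.1 h5 with h | h
  · exact hc h
  obtain ⟨i, hi, hi0⟩ := Finset.prod_eq_zero_iff.1 h
  have hi1 : p.1 - X i * p.2 = 0 := (pow_eq_zero_iff'.1 hi0).1
  have h6 : (X j - X i) * p.2 = 0 := by linear_combination hi1 - hj1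
  rcases mul_eq_zero.1 h6 with h | h
  · exact (Finset.ne_of_mem_erase hi) (hX (sub_eq_zero.1 h).symm)
  · exact hp2 h

end H24.LS
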