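import Pool.Agent.H24.LS.R0b
import Pool.Agent.H24.LS.R1

/-!
# R2a: lower bound of the gradient off the multiple lines, upper bound near them

`P = form κ c X`, `k = Σ κ`.
* `grad_low`: on the compact set `{‖p‖ = 1, η ≤ ‖p.1 - X j p.2‖ for all j with 2 ≤ κ j}` the continuous function
  `‖fderiv P p‖` is positive, so `≥ c0 > 0` (if the set is empty take `c0 = 1`); by `form_hom`, `‖fderiv P p‖ ≥ c0 ‖p‖^(k-1)` on the cone
  (`p = ‖p‖ • (p/‖p‖)`).  By `NForm.fd`: `‖fderiv f p‖ ≥ c0 ‖p‖^(k-1) - C ‖p‖^k ≥ (c0/2) ‖p‖^(k-1)` for `‖p‖ < min δ (c0/(2C))`.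
* `grad_up`: for a multiple line, `fderiv P (X j, 1) = 0` (each term of the product rule contains the factor `(p.1 - X j p.2)^(κ j - 1)` or
  `(p.1 - X j p.2)^(κ j)`; or write `P p = (p.1 - X j p.2)^2 * R p`).  By `form_hom` with `a = y`:
  `‖fderiv P (x + X j y, y)‖ = ‖y‖^(k-1) ‖fderiv P (x/y + X j, 1)‖`, small by continuity if `‖x/y‖ ≤ δ`; `NForm.fd`:
  `C ‖p‖^k ≤ C (2 + ‖X j‖)^k ‖y‖ ‖y‖^(k-1)`.  (`y = 0` gives `x = 0`, `p = 0`, and `fderiv f 0 = 0` by `bdF_of_nform`, `k ≥ 2`.)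
-/

open Filter Topology Metric

namespace H24.LS

theorem R2a_cd {r : ℕ} (κ : Fin r → ℕ) (c : ℂ) (X : Fin r → ℂ) : ContDiff ℂ 1 (form κ c X) := by
  unfold form
  exact contDiff_const.mul (contDiff_prod fun j _ =>
    (contDiff_fst.sub (contDiff_const.mul contDiff_snd)).pow _)

theorem R2a_cont {r : ℕ} (κ : Fin r → ℕ) (c : ℂ) (X : Fin r → ℂ) :
    Continuous (fderiv ℂ (form κ c X)) := (R2a_cd κ c X).continuous_fderiv (by norm_num)

theorem R2a_low {r : ℕ} {κ : Fin r → ℕ} {c : ℂ} {X : Fin r → ℂ} (hr : 0 < r) (hc : c ≠ 0)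
    (hX : Function.Injective X) (hκ : ∀ j, 1 ≤ κ j) (hk : 3 ≤ ∑ j, κ j) (η : ℝ) (hη : 0 < η) :
    ∃ c0 > (0 : ℝ), ∀ p : ℂ × ℂ, (∀ j, 2 ≤ κ j → η * ‖p‖ ≤ ‖p.1 - X j * p.2‖) →
      c0 * ‖p‖ ^ (∑ j, κ j - 1) ≤ ‖fderiv ℂ (form κ c X) p‖ := by
  set K : Set (ℂ × ℂ) := {p | ‖p‖ = 1 ∧ ∀ j, 2 ≤ κ j → η ≤ ‖p.1 - X j * p.2‖} with hK
  have hKc : IsCompact K := by
    have h1 : K = sphere (0 : ℂ × ℂ) 1 ∩ ⋂ j, {p | 2 ≤ κ j → η ≤ ‖p.1 - X j * p.2‖} := by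
      ext p
      simp [hK]
    rw [h1]
    apply (isCompact_sphere _ _).inter_right
    apply isClosed_iInter
    intro j
    by_cases hj : 2 ≤ κ j
    · simp only [hj, forall_true_left]
      exact isClosed_le continuous_const (by fun_prop)
    · simp [hj]
  have hpos : ∀ p ∈ K, 0 < ‖fderiv ℂ (form κ c X) p‖ := by
    rintro p ⟨h1, h2⟩
    rw [norm_pos_iff]
    refine form_grad_ne κ hr hκ c hc X hX p ?_ ?_
    · rintro rfl
      rw [norm_zero] at h1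
      exact zero_ne_one h1
    · intro j hj h3
      have h4 := h2 j hj
      rw [h3, sub_self, norm_zero] at h4
      linarith
  have hex : ∃ c0 > (0 : ℝ), ∀ p ∈ K, c0 ≤ ‖fderiv ℂ (form κ c X) p‖ := by
    rcases K.eq_empty_or_nonempty with he | hne
    · exact ⟨1, one_pos, fun p hp => by rw [he] at hp; exact absurd hp (Set.notMem_empty _)⟩
    · obtain ⟨p0, hp0, hmin⟩ := hKc.exists_isMinOn hne
        ((R2a_cont κ c X).norm.continuousOn)
      exact ⟨_, hpos p0 hp0, fun p hp => hmin hp⟩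
  obtain ⟨c0, hc0, hlow⟩ := hex
  refine ⟨c0, hc0, fun p hp => ?_⟩
  by_cases h0 : p = 0
  · subst h0
    rw [norm_zero, zero_pow (by omega), mul_zero]
    exact norm_nonneg _
  have hp0 : 0 < ‖p‖ := norm_pos_iff.2 h0
  have hpc : ((‖p‖ : ℝ) : ℂ) ≠ 0 := by exact_mod_cast hp0.ne'
  set q : ℂ × ℂ := ((‖p‖ : ℝ) : ℂ)⁻¹ • p with hq
  have hpq : p = ((‖p‖ : ℝ) : ℂ) • q := by
    rw [hq, smul_smul, mul_inv_cancel₀ hpc, one_smul]
  have hqK : q ∈ K := by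
    refine ⟨?_, fun j hj => ?_⟩
    · rw [hq, norm_smul, norm_inv, Complex.norm_real, norm_norm, inv_mul_cancel₀ hp0.ne']
    · have h1 : q.1 - X j * q.2 = ((‖p‖ : ℝ) : ℂ)⁻¹ * (p.1 - X j * p.2) := by
        rw [hq]
        simp only [Prod.smul_fst, Prod.smul_snd, smul_eq_mul]
        ring
      rw [h1, norm_mul, norm_inv, Complex.norm_real, norm_norm]
      have h2 := hp j hj
      rw [← div_eq_inv_mul, le_div_iff₀ hp0]
      exact h2
  have h1 : fderiv ℂ (form κ c X) p = ((‖p‖ : ℝ) : ℂ) ^ (∑ j, κ j - 1) •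
      fderiv ℂ (form κ c X) q := by
    have h2 := form_fderiv_hom κ (by omega) c X _ hpc q
    rw [← hpq] at h2
    exact h2
  rw [h1, norm_smul, norm_pow, Complex.norm_real, norm_norm, mul_comm]
  exact mul_le_mul_of_nonneg_left (hlow q hqK) (by positivity)

theorem grad_low {r : ℕ} {κ : Fin r → ℕ} {c : ℂ} {X : Fin r → ℂ} {f : ℂ × ℂ → ℂ}
    (hf : NForm κ c X f) (hk : 3 ≤ ∑ j, κ j) : ∀ η > (0 : ℝ), ∃ c1 > (0 : ℝ), ∃ δ > (0 : ℝ), ∀ p : ℂ × ℂ, ‖p‖ < δ →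
      (∀ j, 2 ≤ κ j → η * ‖p‖ ≤ ‖p.1 - X j * p.2‖) →
      c1 * ‖p‖ ^ (∑ j, κ j - 1) ≤ ‖fderiv ℂ f p‖ := by
  intro η hη
  obtain ⟨c0, hc0, hlow⟩ := R2a_low hf.hr hf.hc hf.hX hf.hκ hk η hη
  obtain ⟨C, hC, δ, hδ, hfd⟩ := hf.fd
  refine ⟨c0 / 2, by positivity, min δ (c0 / (2 * C)), by positivity, fun p hp hcone => ?_⟩
  have h1 := hlow p hcone
  have h2 := hfd p (hp.trans_le (min_le_left _ _))
  have h3 : ‖p‖ < c0 / (2 * C) := hp.trans_le (min_le_right _ _)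
  have h4 : C * ‖p‖ ≤ c0 / 2 := by
    rw [lt_div_iff₀ (by positivity)] at h3
    linarith
  have h5 : C * ‖p‖ ^ (∑ j, κ j) ≤ c0 / 2 * ‖p‖ ^ (∑ j, κ j - 1) := by
    have h6 : ‖p‖ ^ (∑ j, κ j) = ‖p‖ * ‖p‖ ^ (∑ j, κ j - 1) := by
      rw [← pow_succ']
      congr 1
      omega
    rw [h6, ← mul_assoc]
    exact mul_le_mul_of_nonneg_right h4 (by positivity)
  have h7 : ‖fderiv ℂ (form κ c X) p‖ ≤ ‖fderiv ℂ f p‖ +
      ‖fderiv ℂ f p - fderiv ℂ (form κ c X) p‖ := by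
    have h8 : fderiv ℂ (form κ c X) p = fderiv ℂ f p -
      (fderiv ℂ f p - fderiv ℂ (form κ c X) p) := by abel
    calc ‖fderiv ℂ (form κ c X) p‖ = ‖fderiv ℂ f p -
          (fderiv ℂ f p - fderiv ℂ (form κ c X) p)‖ := by rw [← h8]
      _ ≤ _ := norm_sub_le _ _
  linarith

theorem R2a_zero {r : ℕ} (κ : Fin r → ℕ) (c : ℂ) (X : Fin r → ℂ) (j : Fin r) (hj : 2 ≤ κ j) :
    fderiv ℂ (form κ c X) (X j, 1) = 0 := by
  set U : ℂ × ℂ → ℂ := fun p => p.1 - X j * p.2 with hU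
  set R : ℂ × ℂ → ℂ := fun p => c * (U p ^ (κ j - 2) *
    ∏ i ∈ Finset.univ.erase j, (p.1 - X i * p.2) ^ κ i) with hR
  have hf : form κ c X = fun p => (U p * U p) * R p := by
    funext p
    rw [form, ← Finset.mul_prod_erase Finset.univ _ (Finset.mem_univ j)]
    have h1 : (p.1 - X j * p.2) ^ κ j = U p * U p * U p ^ (κ j - 2) := by
      rw [hU]
      show (p.1 - X j * p.2) ^ κ j = (p.1 - X j * p.2) * (p.1 - X j * p.2) *
        (p.1 - X j * p.2) ^ (κ j - 2)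
      rw [← pow_two, ← pow_add]
      congr 1
      omega
    rw [h1, hR]
    ring
  have hUd : DifferentiableAt ℂ U (X j, 1) := by
    rw [hU]; fun_prop
  have hRd : DifferentiableAt ℂ R (X j, 1) := by
    have h1 : ContDiff ℂ 1 R := by
      rw [hR, hU]
      exact contDiff_const.mul (((contDiff_fst.sub (contDiff_const.mul contDiff_snd)).pow _).mul
        (contDiff_prod fun i _ => (contDiff_fst.sub (contDiff_const.mul contDiff_snd)).pow _))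
    exact (h1.differentiable (by norm_num)) _
  have hU0 : U (X j, 1) = 0 := by
    rw [hU]
    show X j - X j * 1 = 0
    ring
  have h1 := (hUd.hasFDerivAt.mul hUd.hasFDerivAt).mul hRd.hasFDerivAt
  have hf' : form κ c X = U * U * R := hf
  rw [hf', h1.fderiv]
  refine ContinuousLinearMap.ext fun v => ?_
  show (U (X j, 1) * U (X j, 1)) * fderiv ℂ R (X j, 1) v +
      R (X j, 1) * (U (X j, 1) * fderiv ℂ U (X j, 1) v + U (X j, 1) * fderiv ℂ U (X j, 1) v) = 0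
  rw [hU0]
  ring

theorem grad_up {r : ℕ} {κ : Fin r → ℕ} {c : ℂ} {X : Fin r → ℂ} {f : ℂ × ℂ → ℂ}
    (hf : NForm κ c X f) (j : Fin r) (hj : 2 ≤ κ j) :
    ∀ ε > (0 : ℝ), ∃ δ > (0 : ℝ), ∀ x y : ℂ, ‖y‖ < δ → ‖x‖ ≤ δ * ‖y‖ →
      ‖fderiv ℂ f (x + X j * y, y)‖ ≤ ε * ‖y‖ ^ (∑ j, κ j - 1) := by
  intro ε hε
  have hk : 2 ≤ ∑ j, κ j := hj.trans (Finset.single_le_sum (f := κ) (fun i _ => Nat.zero_le _)
    (Finset.mem_univ j))
  obtain ⟨C, hC, δ0, hδ0, hfd⟩ := hf.fd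
  obtain ⟨C1, hC1, δ1, hδ1, hbd⟩ := bdF_of_nform hf
  have hcont : Continuous (fun z : ℂ => fderiv ℂ (form κ c X) (z + X j, 1)) :=
    (R2a_cont κ c X).comp (by fun_prop)
  have h0 : fderiv ℂ (form κ c X) ((0 : ℂ) + X j, 1) = 0 := by
    rw [zero_add]; exact R2a_zero κ c X j hj
  obtain ⟨δ2, hδ2, hsm⟩ := Metric.continuousAt_iff.1 (hcont.continuousAt (x := 0)) (ε / 2)
    (by positivity)
  set M : ℝ := 2 + ‖X j‖ with hM
  have hMpos : 0 < M := by positivity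
  set k := ∑ j, κ j with hkdef
  refine ⟨min (min 1 (δ2 / 2)) (min (δ0 / M) (ε / (2 * C * M ^ k))), by positivity,
    fun x y hy hx => ?_⟩
  set D := min (min 1 (δ2 / 2)) (min (δ0 / M) (ε / (2 * C * M ^ k))) with hD
  have hD1 : D ≤ 1 := (min_le_left _ _).trans (min_le_left _ _)
  have hD2 : D ≤ δ2 / 2 := (min_le_left _ _).trans (min_le_right _ _)
  have hD3 : D ≤ δ0 / M := (min_le_right _ _).trans (min_le_left _ _)
  have hD4 : D ≤ ε / (2 * C * M ^ k) := (min_le_right _ _).trans (min_le_right _ _)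
  by_cases hy0 : y = 0
  · subst hy0
    rw [norm_zero, mul_zero] at hx
    have hx0 : x = 0 := norm_le_zero_iff.1 hx
    subst hx0
    have h1 := hbd (0 + X j * 0, 0) (by simpa using hδ1)
    have h2 : ‖((0 : ℂ) + X j * 0, (0 : ℂ))‖ = 0 := by simp
    rw [h2, zero_pow (by omega)] at h1
    have h3 : ‖fderiv ℂ f (0 + X j * 0, 0)‖ ≤ 0 := h1.trans (mul_zero _).le
    exact h3.trans (by positivity)
  have hyp : 0 < ‖y‖ := norm_pos_iff.2 hy0
  have hz : ‖x / y‖ < δ2 := by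
    rw [norm_div, div_lt_iff₀ hyp]
    calc ‖x‖ ≤ D * ‖y‖ := hx
      _ ≤ δ2 / 2 * ‖y‖ := mul_le_mul_of_nonneg_right hD2 hyp.le
      _ < δ2 * ‖y‖ := mul_lt_mul_of_pos_right (by linarith) hyp
  have h1 := hsm (x := x / y) (by rw [dist_zero_right]; exact hz)
  rw [h0, dist_zero_right] at h1
  have h2 : ((x + X j * y, y) : ℂ × ℂ) = y • ((x / y + X j, 1) : ℂ × ℂ) := by
    ext
    · simp only [Prod.smul_mk, smul_eq_mul]
      field_simp
    · simp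
  have h3 : ‖fderiv ℂ (form κ c X) (x + X j * y, y)‖ ≤ ε / 2 * ‖y‖ ^ (k - 1) := by
    rw [h2, form_fderiv_hom κ (by omega) c X y hy0, norm_smul, norm_pow, mul_comm]
    exact mul_le_mul_of_nonneg_right h1.le (by positivity)
  have h4 : ‖((x + X j * y, y) : ℂ × ℂ)‖ ≤ M * ‖y‖ := by
    rw [Prod.norm_mk]
    apply max_le
    · calc ‖x + X j * y‖ ≤ ‖x‖ + ‖X j * y‖ := norm_add_le _ _
        _ ≤ D * ‖y‖ + ‖X j‖ * ‖y‖ := by rw [norm_mul]; linarith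
        _ ≤ 1 * ‖y‖ + ‖X j‖ * ‖y‖ := by
          linarith [mul_le_mul_of_nonneg_right hD1 hyp.le]
        _ ≤ M * ‖y‖ := by rw [hM]; nlinarith
    · have : 1 ≤ M := by rw [hM]; linarith [norm_nonneg (X j)]
      nlinarith
  have h5 : ‖((x + X j * y, y) : ℂ × ℂ)‖ < δ0 := by
    refine h4.trans_lt ?_
    have h6 : ‖y‖ < δ0 / M := hy.trans_le hD3
    rw [lt_div_iff₀ hMpos] at h6
    linarith
  have h6 := hfd _ h5
  have h7 : C * ‖((x + X j * y, y) : ℂ × ℂ)‖ ^ k ≤ ε / 2 * ‖y‖ ^ (k - 1) := by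
    calc C * ‖((x + X j * y, y) : ℂ × ℂ)‖ ^ k ≤ C * (M * ‖y‖) ^ k :=
          mul_le_mul_of_nonneg_left (pow_le_pow_left₀ (norm_nonneg _) h4 _) hC.le
      _ = (C * M ^ k * ‖y‖) * ‖y‖ ^ (k - 1) := by
          have h8 : ‖y‖ ^ k = ‖y‖ * ‖y‖ ^ (k - 1) := by
            rw [← pow_succ']
            congr 1
            omega
          rw [mul_pow, h8]
          ring
      _ ≤ ε / 2 * ‖y‖ ^ (k - 1) := by
          apply mul_le_mul_of_nonneg_right _ (by positivity)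
          have h9 : ‖y‖ < ε / (2 * C * M ^ k) := hy.trans_le hD4
          rw [lt_div_iff₀ (by positivity)] at h9
          linarith
  calc ‖fderiv ℂ f (x + X j * y, y)‖
      = ‖fderiv ℂ (form κ c X) (x + X j * y, y) +
        (fderiv ℂ f (x + X j * y, y) - fderiv ℂ (form κ c X) (x + X j * y, y))‖ := by
        congr 1; abel
    _ ≤ _ := norm_add_le _ _
    _ ≤ ε / 2 * ‖y‖ ^ (k - 1) + ε / 2 * ‖y‖ ^ (k - 1) := add_le_add h3 (h6.trans h7)
    _ = ε * ‖y‖ ^ (k - 1) := by ring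

end H24.LS
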