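import Pool.Agent.H24.LS.R2a

/-!
# R2b: equality of the multiplicities

* `mult_eq`: choose `z0` outside the finite set of the `X j`; `p = (z0 y, y)` satisfies the hypothesis of `grad_low` for a suitable `η`
  (`η = min_j ‖z0 - X j‖ / (1 + ‖z0‖)`), so `c1 ‖p‖^(k-1) ≤ ‖fderiv f p‖ ≤ 2L ‖fderiv g (A p)‖ ≤ 2L C ‖A p‖^(k'-1) ≤ C'' ‖p‖^(k'-1)`
  (`low_main`, `bdF_of_nform`) as `y → 0`, hence `k' ≤ k`.  By `coarse_symm` also `k ≤ k'`.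
-/

open Filter Topology Metric

namespace H24.LS

theorem R2b_le {r r' : ℕ} {κ : Fin r → ℕ} {κ' : Fin r' → ℕ} {c c' : ℂ} {X : Fin r → ℂ}
    {X' : Fin r' → ℂ} {f g : ℂ × ℂ → ℂ} (hf : NForm κ c X f) (hg : NForm κ' c' X' g)
    (hk : 3 ≤ ∑ j, κ j) (hk' : 3 ≤ ∑ j, κ' j) {A B : ℂ × ℂ → ℂ × ℂ} {L ρ : ℝ}
    (hco : Coarse f g A B L ρ) : ∑ j, κ' j ≤ ∑ j, κ j := by
  by_contra hlt
  push Not at hlt
  obtain ⟨k, hkk⟩ : ∃ k, k = ∑ j, κ j := ⟨_, rfl⟩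
  obtain ⟨k', hkk'⟩ : ∃ k', k' = ∑ j, κ' j := ⟨_, rfl⟩
  -- a direction off the lines
  obtain ⟨z0, hz0⟩ := (Set.finite_range X).infinite_compl.nonempty
  obtain ⟨ε, hε, hball⟩ := Metric.isOpen_iff.1 (Set.finite_range X).isClosed.isOpen_compl z0 hz0
  have hdist : ∀ j, ε ≤ ‖z0 - X j‖ := by
    intro j
    by_contra h
    push Not at h
    have h1 : X j ∈ ball z0 ε := by
      rw [mem_ball, dist_eq_norm, norm_sub_rev]; exact h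
    exact hball h1 (Set.mem_range_self j)
  obtain ⟨n, hn⟩ : ∃ n, n = ‖((z0, 1) : ℂ × ℂ)‖ := ⟨_, rfl⟩
  have hn0 : 0 < n := by
    rw [hn, norm_pos_iff]
    intro h
    have := congrArg Prod.snd h
    simp at this
  obtain ⟨c1, hc1, δ1, hδ1, h1⟩ := grad_low hf hk (ε / n) (div_pos hε hn0)
  obtain ⟨C, hC, δ2, hδ2, h2⟩ := bdF_of_nform hg
  obtain ⟨δ3, hδ3, -, h3, h4, -⟩ := low_main hf.an hg.an hk hk' (bdF_of_nform hf)
    (bdF_of_nform hg) hco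
  rw [← hkk] at h1 hlt
  rw [← hkk'] at h2 hlt
  have hL : 0 < L := by linarith [hco.hL]
  obtain ⟨D, hD⟩ : ∃ D, D = 2 * L * (C * L ^ (k' - 1)) := ⟨_, rfl⟩
  have hD0 : 0 < D := by rw [hD]; positivity
  obtain ⟨s, hs0, hs⟩ : ∃ s : ℝ, 0 < s ∧ s < min (min δ1 δ3) (min (δ2 / L) (min 1 (c1 / D))) := by
    have : 0 < min (min δ1 δ3) (min (δ2 / L) (min 1 (c1 / D))) := by
      refine lt_min (lt_min hδ1 hδ3) (lt_min (div_pos hδ2 hL) (lt_min one_pos (div_pos hc1 hD0)))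
    exact ⟨_, half_pos this, half_lt_self this⟩
  simp only [lt_min_iff] at hs
  obtain ⟨⟨s1, s3⟩, s2, s4, s5⟩ := hs
  rw [lt_div_iff₀ hL] at s2
  rw [lt_div_iff₀ hD0] at s5
  obtain ⟨p, hp⟩ : ∃ p : ℂ × ℂ, p = ((s / n : ℝ) : ℂ) • ((z0, 1) : ℂ × ℂ) := ⟨_, rfl⟩
  have hsn : 0 < s / n := div_pos hs0 hn0
  have hpn : ‖p‖ = s := by
    rw [hp, norm_smul, ← hn, Complex.norm_real, Real.norm_of_nonneg hsn.le]
    field_simp
  have hpj : ∀ j, 2 ≤ κ j → ε / n * ‖p‖ ≤ ‖p.1 - X j * p.2‖ := by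
    intro j _
    have e1 : p.1 - X j * p.2 = ((s / n : ℝ) : ℂ) * (z0 - X j) := by
      rw [hp]
      simp only [Prod.smul_fst, Prod.smul_snd, smul_eq_mul]
      ring
    rw [e1, norm_mul, Complex.norm_real, Real.norm_of_nonneg hsn.le, hpn]
    calc ε / n * s = s / n * ε := by ring
      _ ≤ s / n * ‖z0 - X j‖ := mul_le_mul_of_nonneg_left (hdist j) hsn.le
  have t1 := h1 p (by rw [hpn]; exact s1) hpj
  have t2 := h3 p (by rw [hpn]; exact s3)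
  have t3 := (h4 p (by rw [hpn]; exact s3)).2
  have t4 := h2 (A p) (by rw [hpn] at t3; linarith)
  rw [hpn] at t1 t3
  have t5 : ‖A p‖ ^ (k' - 1) ≤ L ^ (k' - 1) * s ^ (k' - 1) := by
    rw [← mul_pow]
    exact pow_le_pow_left₀ (norm_nonneg _) t3 _
  have t6 : c1 * s ^ (k - 1) ≤ D * s ^ (k' - 1) := by
    calc c1 * s ^ (k - 1) ≤ 2 * L * ‖fderiv ℂ g (A p)‖ := t1.trans t2
      _ ≤ 2 * L * (C * (L ^ (k' - 1) * s ^ (k' - 1))) :=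
        mul_le_mul_of_nonneg_left (t4.trans (mul_le_mul_of_nonneg_left t5 hC.le)) (by positivity)
      _ = D * s ^ (k' - 1) := by rw [hD]; ring
  have t7 : s ^ (k' - 1) ≤ s ^ (k - 1) * s := by
    rw [← pow_succ]
    exact pow_le_pow_of_le_one hs0.le s4.le (by omega)
  have t8 : c1 * s ^ (k - 1) ≤ (s * D) * s ^ (k - 1) := by
    calc c1 * s ^ (k - 1) ≤ D * s ^ (k' - 1) := t6
      _ ≤ D * (s ^ (k - 1) * s) := mul_le_mul_of_nonneg_left t7 hD0.le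
      _ = (s * D) * s ^ (k - 1) := by ring
  have t9 := le_of_mul_le_mul_right t8 (pow_pos hs0 _)
  linarith

theorem mult_eq {r r' : ℕ} {κ : Fin r → ℕ} {κ' : Fin r' → ℕ} {c c' : ℂ} {X : Fin r → ℂ}
    {X' : Fin r' → ℂ} {f g : ℂ × ℂ → ℂ} (hf : NForm κ c X f) (hg : NForm κ' c' X' g)
    (hk : 3 ≤ ∑ j, κ j) (hk' : 3 ≤ ∑ j, κ' j) {A B : ℂ × ℂ → ℂ × ℂ} {L ρ : ℝ}
    (hco : Coarse f g A B L ρ) : ∑ j, κ' j = ∑ j, κ j :=
  le_antisymm (R2b_le hf hg hk hk' hco) (R2b_le hg hf hk' hk (coarse_symm hco))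

end H24.LS
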