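import Pool.Agent.H24.LS.R2b

/-!
# R3b: uniqueness of the corresponding line

Proof of `line_unique`: let `p = (X_j y, y)`, `y → 0`; `q = A p`, `y' = q.2`, `x' = q.1 - X'_{j'} y'`, so `q = (x' + X'_{j'} y', y')`,
`‖y'‖ ≤ L ‖p‖ → 0`, `‖x'‖ ≤ ε ‖y'‖` (first hypothesis).  Second hypothesis: `‖(B q).1 - X_{j''} (B q).2‖ ≤ ε ‖(B q).2‖ ≤ ε L^2 ‖p‖`.
`‖B q - p‖ ≤ L ‖∇f p‖ ≤ L C ‖p‖^(k-1) ≤ L C ‖p‖^2`.  So `‖(X_j - X_{j''}) y‖ = ‖p.1 - X_{j''} p.2‖ ≤ ε L^2 ‖p‖ + (1 + ‖X_{j''}‖) L C ‖p‖^2` and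
`‖p‖ ≤ (1 + ‖X_j‖) ‖y‖`; divide by `‖y‖`, `y → 0`, `ε → 0`: `X_j = X_{j''}`, so `j = j''`.
-/

open Filter Topology Metric

namespace H24.LS

theorem R3b_ev (c b : ℝ) (hb : 0 < b) : ∀ᶠ t in 𝓝[>] (0 : ℝ), c * t < b := by
  have h1 : Tendsto (fun t : ℝ => c * t) (𝓝[>] (0 : ℝ)) (𝓝 (c * 0)) :=
    ((continuous_const.mul continuous_id).tendsto (0 : ℝ)).mono_left nhdsWithin_le_nhds
  rw [mul_zero] at h1
  exact h1.eventually (gt_mem_nhds hb)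

theorem line_unique {r r' : ℕ} {κ : Fin r → ℕ} {κ' : Fin r' → ℕ} {c c' : ℂ} {X : Fin r → ℂ}
    {X' : Fin r' → ℂ} {f g : ℂ × ℂ → ℂ} (hf : NForm κ c X f) (hg : NForm κ' c' X' g)
    (hk : 3 ≤ ∑ j, κ j) (hk' : 3 ≤ ∑ j, κ' j) {A B : ℂ × ℂ → ℂ × ℂ} {L ρ : ℝ}
    (hco : Coarse f g A B L ρ) (j j'' : Fin r) (j' : Fin r') (h1 : ConeTo A (X j) (X' j'))
    (h2 : ConeTo B (X' j') (X j'')) : j'' = j := by
  by_contra hne
  obtain ⟨C, hC, δ0, hδ0, hbd⟩ := bdF_of_nform hf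
  have hL : 0 < L := lt_of_lt_of_le one_pos hco.hL
  set D : ℝ := ‖X j - X j''‖ with hD
  have hD0 : 0 < D := by
    rw [hD, norm_pos_iff, sub_ne_zero]
    exact fun h => hne (hf.hX h).symm
  set M : ℝ := 1 + ‖X j‖ with hM
  have hM0 : 0 < M := by positivity
  set ε : ℝ := D / (4 * L ^ 2 * M) with hε
  have hε0 : 0 < ε := by positivity
  obtain ⟨δ2, hδ2, h2'⟩ := h2 ε hε0
  obtain ⟨δ1, hδ1, h1'⟩ := h1 δ2 hδ2
  set K : ℝ := (1 + ‖X j''‖) * L * C * M ^ 2 with hK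
  obtain ⟨t, ht0, ht⟩ := (((self_mem_nhdsWithin : Set.Ioi (0 : ℝ) ∈ 𝓝[>] (0 : ℝ))) |>
    fun h => (Filter.Eventually.and (show ∀ᶠ t in 𝓝[>] (0 : ℝ), 0 < t from h)
      ((R3b_ev 1 δ1 hδ1).and ((R3b_ev M ρ hco.hρ).and ((R3b_ev (L * M) ρ hco.hρ).and
        ((R3b_ev M δ0 hδ0).and ((R3b_ev M 1 one_pos).and ((R3b_ev (L * M) δ2 hδ2).and
          (R3b_ev K (D / 4) (by positivity)))))))))).exists
  obtain ⟨ht1, ht2, ht3, ht4, ht5, ht6, ht7⟩ := ht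
  rw [one_mul] at ht1
  have hty : ‖(t : ℂ)‖ = t := by
    rw [Complex.norm_real, Real.norm_eq_abs, abs_of_pos ht0]
  set p : ℂ × ℂ := (X j * t, (t : ℂ)) with hp
  have hpM : ‖p‖ ≤ M * t := by
    rw [hp, Prod.norm_def, max_le_iff]
    constructor
    · rw [norm_mul, hty, hM]
      nlinarith [norm_nonneg (X j)]
    · rw [hty, hM]
      nlinarith [norm_nonneg (X j)]
  have hpρ : p ∈ ball (0 : ℂ × ℂ) ρ := by
    rw [mem_ball, dist_zero_right]; linarith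
  have h0ρ : (0 : ℂ × ℂ) ∈ ball (0 : ℂ × ℂ) ρ := mem_ball_self hco.hρ
  have hApn : ‖A p‖ ≤ L * ‖p‖ := by
    have := hco.lipA p hpρ 0 h0ρ
    rwa [hco.A0, sub_zero, sub_zero] at this
  have hApn' : ‖A p‖ ≤ L * M * t := by
    calc ‖A p‖ ≤ L * ‖p‖ := hApn
      _ ≤ L * (M * t) := mul_le_mul_of_nonneg_left hpM hL.le
      _ = L * M * t := by ring
  have hAρ : A p ∈ ball (0 : ℂ × ℂ) ρ := by
    rw [mem_ball, dist_zero_right]; linarith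
  have hBn : ‖B (A p)‖ ≤ L * ‖A p‖ := by
    have := hco.lipB (A p) hAρ 0 h0ρ
    rwa [hco.B0, sub_zero, sub_zero] at this
  -- first cone
  have e1 : ‖(A p).1 - X' j' * (A p).2‖ ≤ δ2 * ‖(A p).2‖ := by
    have := h1' 0 (t : ℂ) (by rw [hty]; exact ht1) (by simp; positivity)
    simpa only [zero_add] using this
  have hA2 : ‖(A p).2‖ ≤ ‖A p‖ := norm_snd_le (A p)
  have e2 := h2' ((A p).1 - X' j' * (A p).2) (A p).2 (by linarith) e1
  have e3 : ((A p).1 - X' j' * (A p).2 + X' j' * (A p).2, (A p).2) = A p := by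
    rw [sub_add_cancel]
  rw [e3] at e2
  have e4 : ‖(B (A p)).2‖ ≤ L * (L * (M * t)) := by
    calc ‖(B (A p)).2‖ ≤ ‖B (A p)‖ := norm_snd_le _
      _ ≤ L * ‖A p‖ := hBn
      _ ≤ L * (L * (M * t)) := by
        apply mul_le_mul_of_nonneg_left _ hL.le
        linarith
  have e5 : ‖(B (A p)).1 - X j'' * (B (A p)).2‖ ≤ D / 4 * t := by
    calc ‖(B (A p)).1 - X j'' * (B (A p)).2‖ ≤ ε * ‖(B (A p)).2‖ := e2
      _ ≤ ε * (L * (L * (M * t))) := mul_le_mul_of_nonneg_left e4 hε0.le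
      _ = D / 4 * t := by
        rw [hε]
        field_simp
  have e6 : ‖B (A p) - p‖ ≤ L * C * (M * t) ^ 2 := by
    have h3 := hco.BA p hpρ
    have h4 := hbd p (by linarith)
    have h5 : ‖p‖ ^ (∑ j, κ j - 1) ≤ ‖p‖ ^ 2 := by
      apply pow_le_pow_of_le_one (norm_nonneg _) (by linarith)
      omega
    have h6 : ‖p‖ ^ 2 ≤ (M * t) ^ 2 := pow_le_pow_left₀ (norm_nonneg _) hpM 2
    calc ‖B (A p) - p‖ ≤ L * ‖fderiv ℂ f p‖ := h3
      _ ≤ L * (C * (M * t) ^ 2) := by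
        apply mul_le_mul_of_nonneg_left _ hL.le
        exact h4.trans (mul_le_mul_of_nonneg_left (h5.trans h6) hC.le)
      _ = L * C * (M * t) ^ 2 := by ring
  have e7 : ‖(B (A p)).1 - p.1‖ ≤ L * C * (M * t) ^ 2 := by
    have := norm_fst_le (B (A p) - p)
    exact this.trans e6
  have e8 : ‖(B (A p)).2 - p.2‖ ≤ L * C * (M * t) ^ 2 := by
    have := norm_snd_le (B (A p) - p)
    exact this.trans e6
  have e9 : (X j - X j'') * t = ((B (A p)).1 - X j'' * (B (A p)).2) - ((B (A p)).1 - p.1) +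
      X j'' * ((B (A p)).2 - p.2) := by
    rw [hp]
    ring
  have e10 : D * t ≤ D / 4 * t + L * C * (M * t) ^ 2 + ‖X j''‖ * (L * C * (M * t) ^ 2) := by
    calc D * t = ‖(X j - X j'') * t‖ := by rw [norm_mul, hty]
      _ ≤ ‖(B (A p)).1 - X j'' * (B (A p)).2‖ + ‖(B (A p)).1 - p.1‖ +
          ‖X j'' * ((B (A p)).2 - p.2)‖ := by
        rw [e9]
        exact (norm_add_le _ _).trans (add_le_add (norm_sub_le _ _) le_rfl)
      _ ≤ _ := by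
        apply add_le_add (add_le_add e5 e7)
        rw [norm_mul]
        exact mul_le_mul_of_nonneg_left e8 (norm_nonneg _)
  have e11 : L * C * (M * t) ^ 2 + ‖X j''‖ * (L * C * (M * t) ^ 2) = K * t * t := by
    rw [hK]
    ring
  have e12 : K * t * t ≤ D / 4 * t := mul_le_mul_of_nonneg_right ht7.le ht0.le
  nlinarith [mul_pos hD0 ht0]

end H24.LS
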