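import Pool.Agent.H24.LS.R3a
import Pool.Agent.H24.LS.R3b

/-!
# R3: the multiple lines correspond

Proof of `lines_bij`: choose `σ j` by `line_exists`, `τ j'` by `line_exists` for `coarse_symm`; `line_unique` (and its symmetric version) shows
`τ (σ j) = j`, `σ (τ j') = j'`.
-/

open Filter Topology Metric

namespace H24.LS

theorem lines_bij {r r' : ℕ} {κ : Fin r → ℕ} {κ' : Fin r' → ℕ} {c c' : ℂ} {X : Fin r → ℂ}
    {X' : Fin r' → ℂ} {f g : ℂ × ℂ → ℂ} (hf : NForm κ c X f) (hg : NForm κ' c' X' g)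
    (hk : 3 ≤ ∑ j, κ j) (hk' : 3 ≤ ∑ j, κ' j) {A B : ℂ × ℂ → ℂ × ℂ} {L ρ : ℝ}
    (hco : Coarse f g A B L ρ) :
    ∃ σ : {j : Fin r // 2 ≤ κ j} ≃ {j : Fin r' // 2 ≤ κ' j},
      ∀ j, ConeTo A (X j.1) (X' (σ j).1) := by
  choose s hs1 hs2 using fun j : {j : Fin r // 2 ≤ κ j} =>
    line_exists hf hg hk hk' hco j.1 j.2
  choose t ht1 ht2 using fun j : {j : Fin r' // 2 ≤ κ' j} =>
    line_exists hg hf hk' hk (coarse_symm hco) j.1 j.2
  refine ⟨⟨fun j => ⟨s j, hs1 j⟩, fun j => ⟨t j, ht1 j⟩, fun j => ?_, fun j => ?_⟩, fun j => hs2 j⟩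
  · apply Subtype.ext
    exact line_unique hf hg hk hk' hco j.1 _ _ (hs2 j) (ht2 ⟨s j, hs1 j⟩)
  · apply Subtype.ext
    exact line_unique hg hf hk' hk (coarse_symm hco) j.1 _ _ (ht2 j) (hs2 ⟨t j, ht1 j⟩)

end H24.LS
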