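import Pool.Agent.H24.LS.R2b

/-!
# R3a: a multiple line of `f` goes to a multiple line of `g`

`k = Σ κ`, `k' = Σ κ' = k` (`mult_eq`).  Proof of `line_exists` (`j` multiple).
(1) Let `η0 > 0` be so small that the sets `U_i = {q ≠ 0 : ‖q.1 - X'_i q.2‖ < η0 ‖q‖}` (`i` a multiple line of `g`) are pairwise disjoint and
    `η0 ≤ 1/2` (if `q` is in `U_i` and `U_i'` then `‖(X'_i - X'_i') q.2‖ < 2 η0 ‖q‖`, and `‖q‖ ≤ 2 (1 + ‖X'_i‖) ‖q.2‖`, see (4)).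
(2) For every `η ∈ (0, η0]` there is `δ` such that for `0 < ‖y‖ < δ`, `‖x‖ ≤ δ ‖y‖`, `p = (x + X_j y, y)`: there is a multiple line `i` of `g`
    with `‖(A p).1 - X'_i (A p).2‖ < η ‖A p‖`.  Otherwise `grad_low` for `g` and `η` gives
    `c1 ‖A p‖^(k-1) ≤ ‖∇g (A p)‖ ≤ L ‖∇f p‖ ≤ L ε' ‖y‖^(k-1) ≤ L ε' (2L ‖A p‖)^(k-1)` (`dA`, `grad_up` for `f`, `‖y‖ ≤ ‖p‖ ≤ 2L ‖A p‖` by
    `low_main`), a contradiction for `ε'` small (`A p ≠ 0` as `p ≠ 0`).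
(3) For `η = η0` let `δ0` be the corresponding `δ` (also `δ0 ≤ 1` and `(2 + ‖X_j‖) δ0 < ρ`, so that `A` is continuous there).  The set
    `S = {(x + X_j y, y) : 0 < ‖y‖ < δ0, ‖x‖ ≤ δ0 ‖y‖}` is connected: it is the image of the connected set
    `{(z, y) : ‖z‖ ≤ δ0, 0 < ‖y‖ < δ0}` (product of a convex set and a punctured disc; `isConnected_compl_singleton_of_one_lt_rank` style results,
    or image of `(0, δ0) × circle`, or of `exp`: `y = exp w`, `re w < log δ0`, convex) under `(z, y) ↦ (z y + X_j y, y)`.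
    So `A '' S` is connected, contained in the union of the open disjoint sets `U_i`, hence in one of them: this defines `j'`
    (`IsPreconnected.subset_left_of_subset_union` or a locally constant function).  For `η < η0` the `i` in (2) must be `j'`
    (for points of `S`, by disjointness), so `‖(A p).1 - X'_{j'} (A p).2‖ < η ‖A p‖` on a smaller cone.
(4) If `η ≤ 1/2` and `‖q.1 - X' q.2‖ ≤ η ‖q‖` then `‖q.1‖ ≤ ‖X'‖ ‖q.2‖ + η ‖q‖`, `‖q‖ = max ‖q.1‖ ‖q.2‖ ≤ (1 + ‖X'‖) ‖q.2‖ + ‖q‖/2`, so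
    `‖q‖ ≤ 2 (1 + ‖X'‖) ‖q.2‖` and `‖q.1 - X' q.2‖ ≤ 2 η (1 + ‖X'‖) ‖q.2‖`.  This gives `ConeTo`.  (For `y = 0`: `x = 0`, `A 0 = 0`.)
-/

open Filter Topology Metric

namespace H24.LS

theorem R3a_size {q : ℂ × ℂ} {X' : ℂ} {η : ℝ} (hη : η ≤ 1 / 2)
    (h : ‖q.1 - X' * q.2‖ ≤ η * ‖q‖) : ‖q‖ ≤ 2 * (1 + ‖X'‖) * ‖q.2‖ := by
  have h1 : ‖q.1‖ ≤ ‖X'‖ * ‖q.2‖ + η * ‖q‖ := by
    calc ‖q.1‖ = ‖X' * q.2 + (q.1 - X' * q.2)‖ := by ring_nf
      _ ≤ ‖X' * q.2‖ + ‖q.1 - X' * q.2‖ := norm_add_le _ _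
      _ ≤ _ := by rw [norm_mul]; linarith
  have h2 : η * ‖q‖ ≤ 1 / 2 * ‖q‖ := mul_le_mul_of_nonneg_right hη (norm_nonneg _)
  have hX := mul_nonneg (norm_nonneg X') (norm_nonneg q.2)
  have h3 : ‖q‖ ≤ (1 + ‖X'‖) * ‖q.2‖ + 1 / 2 * ‖q‖ := by
    have hq := norm_nonneg q
    have h4 : ‖q‖ = max ‖q.1‖ ‖q.2‖ := Prod.norm_def _
    nth_rewrite 1 [h4]
    apply max_le
    · have := norm_nonneg q.2
      nlinarith
    · nlinarith
  linarith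

theorem R3a_disj {r' : ℕ} {X' : Fin r' → ℂ} (hX : Function.Injective X') :
    ∃ η0 > (0 : ℝ), η0 ≤ 1 / 2 ∧ ∀ i i' : Fin r', ∀ q : ℂ × ℂ,
      ‖q.1 - X' i * q.2‖ < η0 * ‖q‖ → ‖q.1 - X' i' * q.2‖ < η0 * ‖q‖ → i = i' := by
  have hev : ∀ᶠ η in 𝓝[>] (0 : ℝ), ∀ x : Fin r' × Fin r', ∀ q : ℂ × ℂ, 
      ‖q.1 - X' x.1 * q.2‖ < η * ‖q‖ → ‖q.1 - X' x.2 * q.2‖ < η * ‖q‖ → x.1 = x.2 := by
    rw [eventually_all]
    rintro ⟨i, i'⟩
    by_cases hii : i = i'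
    · exact Eventually.of_forall fun η q _ _ => hii
    · have hd : 0 < ‖X' i - X' i'‖ := norm_pos_iff.mpr (sub_ne_zero.mpr fun h => hii (hX h))
      have hc : 0 < min (1 / 2) (‖X' i - X' i'‖ / (4 * (1 + ‖X' i‖))) := by positivity
      filter_upwards [Ioo_mem_nhdsGT hc] with η hη q h1 h2
      exfalso
      have hη0 := hη.1
      have hη1 : η ≤ 1 / 2 := hη.2.le.trans (min_le_left _ _)
      have hη2 : η < ‖X' i - X' i'‖ / (4 * (1 + ‖X' i‖)) := hη.2.trans_le (min_le_right _ _)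
      rw [lt_div_iff₀ (by positivity)] at hη2
      have h3 := R3a_size hη1 h1.le
      have h4 : ‖(X' i - X' i') * q.2‖ < 2 * η * ‖q‖ := by
        calc ‖(X' i - X' i') * q.2‖ = ‖(q.1 - X' i' * q.2) - (q.1 - X' i * q.2)‖ := by ring_nf
          _ ≤ ‖q.1 - X' i' * q.2‖ + ‖q.1 - X' i * q.2‖ := norm_sub_le _ _
          _ < _ := by linarith
      rw [norm_mul] at h4
      have h5 : 2 * η * ‖q‖ ≤ 2 * η * (2 * (1 + ‖X' i‖) * ‖q.2‖) :=
        mul_le_mul_of_nonneg_left h3 (by positivity)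
      have h6 : ‖X' i - X' i'‖ * ‖q.2‖ < (η * (4 * (1 + ‖X' i‖))) * ‖q.2‖ := by
        calc _ < 2 * η * ‖q‖ := h4
          _ ≤ _ := h5
          _ = _ := by ring
      have h7 := lt_of_mul_lt_mul_right h6 (norm_nonneg _)
      linarith
  obtain ⟨η0, h1, h2⟩ := (hev.and (Ioc_mem_nhdsGT (show (0 : ℝ) < 1 / 2 by norm_num))).exists
  exact ⟨η0, h2.1, h2.2, fun i i' q => h1 (i, i') q⟩

theorem R3a_norm {x y Z : ℂ} {δ : ℝ} (hδ : δ ≤ 1) (h : ‖x‖ ≤ δ * ‖y‖) :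
    ‖(x + Z * y, y)‖ ≤ (1 + ‖Z‖) * ‖y‖ := by
  have hy := norm_nonneg y
  have hZ := mul_nonneg (norm_nonneg Z) hy
  rw [Prod.norm_def]
  apply max_le
  · calc ‖x + Z * y‖ ≤ ‖x‖ + ‖Z * y‖ := norm_add_le _ _
      _ ≤ (1 + ‖Z‖) * ‖y‖ := by rw [norm_mul]; nlinarith
  · show ‖y‖ ≤ _
    nlinarith

theorem R3a_near {r r' : ℕ} {κ : Fin r → ℕ} {κ' : Fin r' → ℕ} {c c' : ℂ} {X : Fin r → ℂ}
    {X' : Fin r' → ℂ} {f g : ℂ × ℂ → ℂ} (hf : NForm κ c X f) (hg : NForm κ' c' X' g)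
    (hk : 3 ≤ ∑ j, κ j) (hk' : 3 ≤ ∑ j, κ' j) {A B : ℂ × ℂ → ℂ × ℂ} {L ρ : ℝ}
    (hco : Coarse f g A B L ρ) (j : Fin r) (hj : 2 ≤ κ j) {η : ℝ} (hη : 0 < η) :
    ∃ δ > (0 : ℝ), ∀ x y : ℂ, 0 < ‖y‖ → ‖y‖ < δ → ‖x‖ ≤ δ * ‖y‖ →
      ∃ i, 2 ≤ κ' i ∧ ‖(A (x + X j * y, y)).1 - X' i * (A (x + X j * y, y)).2‖ <
        η * ‖A (x + X j * y, y)‖ := by
  have hL := hco.hL
  have hL0 : 0 < L := by linarith
  have hkk := mult_eq hf hg hk hk' hco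
  obtain ⟨c1, hc1, δ1, hδ1, hlow⟩ := grad_low hg hk' η hη
  rw [hkk] at hlow
  have hε : 0 < c1 / (2 * (L * (2 * L) ^ (∑ j, κ j - 1))) := by positivity
  obtain ⟨δ2, hδ2, hup⟩ := grad_up hf j hj _ hε
  obtain ⟨δl, hδl, -, -, hl, -⟩ := low_main hf.an hg.an hk hk' (bdF_of_nform hf)
    (bdF_of_nform hg) hco
  have hM : 0 < 1 + ‖X j‖ := by positivity
  refine ⟨min (min δ2 1) (min (min (δl / (1 + ‖X j‖)) (ρ / (1 + ‖X j‖)))
    (δ1 / (L * (1 + ‖X j‖)))), ?_, ?_⟩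
  · have := hco.hρ
    positivity
  intro x y hy0 hy hx
  set δ := min (min δ2 1) (min (min (δl / (1 + ‖X j‖)) (ρ / (1 + ‖X j‖)))
    (δ1 / (L * (1 + ‖X j‖)))) with hδ
  have e1 : δ ≤ δ2 := (min_le_left _ _).trans (min_le_left _ _)
  have e2 : δ ≤ 1 := (min_le_left _ _).trans (min_le_right _ _)
  have e3 : δ ≤ δl / (1 + ‖X j‖) :=
    (min_le_right _ _).trans ((min_le_left _ _).trans (min_le_left _ _))
  have e4 : δ ≤ ρ / (1 + ‖X j‖) :=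
    (min_le_right _ _).trans ((min_le_left _ _).trans (min_le_right _ _))
  have e5 : δ ≤ δ1 / (L * (1 + ‖X j‖)) := (min_le_right _ _).trans (min_le_right _ _)
  set p : ℂ × ℂ := (x + X j * y, y) with hp
  have hpn : ‖p‖ ≤ (1 + ‖X j‖) * ‖y‖ := R3a_norm e2 hx
  have hpl : ‖p‖ < δl := by
    have := hy.trans_le e3
    rw [lt_div_iff₀ hM] at this
    linarith
  have hpρ : ‖p‖ < ρ := by
    have := hy.trans_le e4
    rw [lt_div_iff₀ hM] at this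
    linarith
  obtain ⟨l1, l2⟩ := hl p hpl
  have hAp : ‖A p‖ < δ1 := by
    have := hy.trans_le e5
    rw [lt_div_iff₀ (by positivity)] at this
    calc ‖A p‖ ≤ L * ‖p‖ := l2
      _ ≤ L * ((1 + ‖X j‖) * ‖y‖) := mul_le_mul_of_nonneg_left hpn hL0.le
      _ < δ1 := by linarith
  by_contra hcon
  push Not at hcon
  have h1 := hlow (A p) hAp hcon
  have h2 := hco.dA p (by rwa [mem_ball_zero_iff])
  have h3 := hup x y (hy.trans_le e1) (hx.trans (mul_le_mul_of_nonneg_right e1 hy0.le))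
  have hyp : ‖y‖ ≤ ‖p‖ := by rw [hp, Prod.norm_def]; exact le_max_right _ _
  have h4 : ‖y‖ ^ (∑ j, κ j - 1) ≤ (2 * L) ^ (∑ j, κ j - 1) * ‖A p‖ ^ (∑ j, κ j - 1) := by
    rw [← mul_pow]
    exact pow_le_pow_left₀ (norm_nonneg _) (hyp.trans l1) _
  have hAp0 : 0 < ‖A p‖ := by
    by_contra h0
    have h5 : ‖A p‖ = 0 := le_antisymm (not_lt.mp h0) (norm_nonneg _)
    rw [h5, mul_zero] at l1
    linarith
  have hpow : 0 < ‖A p‖ ^ (∑ j, κ j - 1) := pow_pos hAp0 _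
  have h5 : c1 * ‖A p‖ ^ (∑ j, κ j - 1) ≤ c1 / 2 * ‖A p‖ ^ (∑ j, κ j - 1) := by
    calc c1 * ‖A p‖ ^ (∑ j, κ j - 1) ≤ ‖fderiv ℂ g (A p)‖ := h1
      _ ≤ L * ‖fderiv ℂ f p‖ := h2
      _ ≤ L * (c1 / (2 * (L * (2 * L) ^ (∑ j, κ j - 1))) * ‖y‖ ^ (∑ j, κ j - 1)) :=
          mul_le_mul_of_nonneg_left h3 hL0.le
      _ ≤ L * (c1 / (2 * (L * (2 * L) ^ (∑ j, κ j - 1))) *
          ((2 * L) ^ (∑ j, κ j - 1) * ‖A p‖ ^ (∑ j, κ j - 1))) := by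
          apply mul_le_mul_of_nonneg_left _ hL0.le
          exact mul_le_mul_of_nonneg_left h4 hε.le
      _ = c1 / 2 * ‖A p‖ ^ (∑ j, κ j - 1) := by
          have : (2 * L) ^ (∑ j, κ j - 1) ≠ 0 := by positivity
          field_simp
  nlinarith

theorem line_exists {r r' : ℕ} {κ : Fin r → ℕ} {κ' : Fin r' → ℕ} {c c' : ℂ} {X : Fin r → ℂ}
    {X' : Fin r' → ℂ} {f g : ℂ × ℂ → ℂ} (hf : NForm κ c X f) (hg : NForm κ' c' X' g)
    (hk : 3 ≤ ∑ j, κ j) (hk' : 3 ≤ ∑ j, κ' j) {A B : ℂ × ℂ → ℂ × ℂ} {L ρ : ℝ}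
    (hco : Coarse f g A B L ρ) (j : Fin r) (hj : 2 ≤ κ j) :
    ∃ j' : Fin r', 2 ≤ κ' j' ∧ ConeTo A (X j) (X' j') := by
  obtain ⟨η0, hη0, hη1, hdis⟩ := R3a_disj hg.hX
  obtain ⟨δ', hδ', hnear⟩ := R3a_near hf hg hk hk' hco j hj hη0
  have hM : 0 < 1 + ‖X j‖ := by positivity
  have hρ := hco.hρ
  set δ0 := min (min δ' 1) (ρ / (1 + ‖X j‖)) with hδ0
  have hδ0p : 0 < δ0 := by positivity
  have d1 : δ0 ≤ δ' := (min_le_left _ _).trans (min_le_left _ _)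
  have d2 : δ0 ≤ 1 := (min_le_left _ _).trans (min_le_right _ _)
  have d3 : δ0 ≤ ρ / (1 + ‖X j‖) := min_le_right _ _
  -- the connected parameter set
  set C : Set (ℂ × ℂ) := closedBall (0 : ℂ) δ0 ×ˢ {w : ℂ | w.re < Real.log δ0} with hC
  have hCc : IsPreconnected C := by
    refine Convex.isPreconnected ((convex_closedBall _ _).prod ?_)
    exact convex_halfSpace_re_lt _
  set Φ : ℂ × ℂ → ℂ × ℂ := fun q => (q.1 * Complex.exp q.2 + X j * Complex.exp q.2,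
    Complex.exp q.2) with hΦ
  have hexp : ∀ q ∈ C, 0 < ‖Complex.exp q.2‖ ∧ ‖Complex.exp q.2‖ < δ0 ∧
      ‖q.1 * Complex.exp q.2‖ ≤ δ0 * ‖Complex.exp q.2‖ := by
    rintro q ⟨h1, h2⟩
    rw [mem_closedBall_zero_iff] at h1
    refine ⟨norm_pos_iff.mpr (Complex.exp_ne_zero _), ?_, ?_⟩
    · rw [Complex.norm_exp]
      exact (Real.lt_log_iff_exp_lt hδ0p).mp h2
    · rw [norm_mul]
      exact mul_le_mul_of_nonneg_right h1 (norm_nonneg _)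
  have hball : ∀ x y : ℂ, ‖y‖ < δ0 → ‖x‖ ≤ δ0 * ‖y‖ → (x + X j * y, y) ∈ ball (0 : ℂ × ℂ) ρ := by
    intro x y hy hx
    rw [mem_ball_zero_iff]
    have h1 := R3a_norm (Z := X j) d2 hx
    have h2 := hy.trans_le d3
    rw [lt_div_iff₀ hM] at h2
    linarith
  have hAc : ContinuousOn A (ball (0 : ℂ × ℂ) ρ) := by
    have hl : LipschitzOnWith (Real.toNNReal L) A (ball 0 ρ) := by
      apply LipschitzOnWith.of_dist_le_mul
      intro x hx y hy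
      rw [dist_eq_norm, dist_eq_norm, Real.coe_toNNReal _ (by linarith [hco.hL])]
      exact hco.lipA x hx y hy
    exact hl.continuousOn
  have hΦc : Continuous Φ := by
    rw [hΦ]
    fun_prop
  have hΦm : Set.MapsTo Φ C (ball (0 : ℂ × ℂ) ρ) := by
    intro q hq
    obtain ⟨-, h2, h3⟩ := hexp q hq
    exact hball _ _ h2 h3
  have hcomp : ContinuousOn (A ∘ Φ) C := hAc.comp hΦc.continuousOn hΦm
  have himg : IsPreconnected ((A ∘ Φ) '' C) := hCc.image _ hcomp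
  set U : Fin r' → Set (ℂ × ℂ) := fun i => {q | ‖q.1 - X' i * q.2‖ < η0 * ‖q‖} with hU
  have hUo : ∀ i, IsOpen (U i) := fun i => by
    apply isOpen_lt <;> fun_prop
  have hnearC : ∀ q ∈ C, ∃ i, 2 ≤ κ' i ∧ A (Φ q) ∈ U i := by
    intro q hq
    obtain ⟨h1, h2, h3⟩ := hexp q hq
    exact hnear _ _ h1 (h2.trans_le d1) (h3.trans (mul_le_mul_of_nonneg_right d1 h1.le))
  -- a base point
  have hbase : ((0 : ℂ), ((Real.log δ0 - 1 : ℝ) : ℂ)) ∈ C := by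
    refine ⟨by simpa using hδ0p.le, ?_⟩
    show ((Real.log δ0 - 1 : ℝ) : ℂ).re < Real.log δ0
    rw [Complex.ofReal_re]
    linarith
  obtain ⟨i0, hi0, hbU⟩ := hnearC _ hbase
  have hall : (A ∘ Φ) '' C ⊆ U i0 := by
    refine IsPreconnected.subset_left_of_subset_union (hUo i0)
      (isOpen_iUnion fun i : {i // i ≠ i0} => hUo i.1) ?_ ?_ ?_ himg
    · rw [Set.disjoint_left]
      intro q h1 h2
      obtain ⟨i, hi⟩ := Set.mem_iUnion.mp h2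
      exact i.2 (hdis i.1 i0 q hi h1)
    · rintro _ ⟨q, hq, rfl⟩
      obtain ⟨i, -, hi⟩ := hnearC q hq
      by_cases h : i = i0
      · left; rw [← h]; exact hi
      · right; exact Set.mem_iUnion.mpr ⟨⟨i, h⟩, hi⟩
    · exact ⟨_, ⟨_, hbase, rfl⟩, hbU⟩
  have hS : ∀ x y : ℂ, 0 < ‖y‖ → ‖y‖ < δ0 → ‖x‖ ≤ δ0 * ‖y‖ → A (x + X j * y, y) ∈ U i0 := by
    intro x y hy0 hy hx
    have hyne : y ≠ 0 := norm_pos_iff.mp hy0
    have hq : (x / y, Complex.log y) ∈ C := by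
      refine ⟨?_, ?_⟩
      · rw [mem_closedBall_zero_iff, norm_div, div_le_iff₀ hy0]
        exact hx
      · show (Complex.log y).re < Real.log δ0
        rw [Complex.log_re]
        exact Real.log_lt_log hy0 hy
    have h1 := hall ⟨_, hq, rfl⟩
    have h2 : Φ (x / y, Complex.log y) = (x + X j * y, y) := by
      simp only [hΦ]
      rw [Complex.exp_log hyne, div_mul_cancel₀ _ hyne]
    rwa [Function.comp_apply, h2] at h1
  refine ⟨i0, hi0, ?_⟩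
  intro ε hε
  have hM' : 0 < 2 * (1 + ‖X' i0‖) := by positivity
  have hη : 0 < min η0 (ε / (2 * (1 + ‖X' i0‖))) := by positivity
  obtain ⟨δη, hδη, hn⟩ := R3a_near hf hg hk hk' hco j hj hη
  refine ⟨min δη δ0, by positivity, ?_⟩
  intro x y hy hx
  rcases eq_or_lt_of_le (norm_nonneg y) with hy0 | hy0
  · have hy00 : y = 0 := norm_eq_zero.mp hy0.symm
    subst hy00
    have hx0 : x = 0 := by
      rw [norm_zero, mul_zero] at hx
      exact norm_le_zero_iff.mp hx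
    subst hx0
    have : A ((0 : ℂ) + X j * 0, 0) = 0 := by
      have h1 : (((0 : ℂ) + X j * 0, (0 : ℂ)) : ℂ × ℂ) = 0 := by simp
      rw [h1]; exact hco.A0
    rw [this]
    simp
  · obtain ⟨i, hi, hclose⟩ := hn x y hy0 (hy.trans_le (min_le_left _ _))
      (hx.trans (mul_le_mul_of_nonneg_right (min_le_left _ _) hy0.le))
    have h2 := hS x y hy0 (hy.trans_le (min_le_right _ _))
      (hx.trans (mul_le_mul_of_nonneg_right (min_le_right _ _) hy0.le))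
    have h3 : ‖(A (x + X j * y, y)).1 - X' i * (A (x + X j * y, y)).2‖ <
        η0 * ‖A (x + X j * y, y)‖ :=
      hclose.trans_le (mul_le_mul_of_nonneg_right (min_le_left _ _) (norm_nonneg _))
    have h4 : i = i0 := hdis i i0 _ h3 h2
    subst h4
    have h5 := R3a_size hη1 h3.le
    calc ‖(A (x + X j * y, y)).1 - X' i * (A (x + X j * y, y)).2‖
        ≤ min η0 (ε / (2 * (1 + ‖X' i‖))) * ‖A (x + X j * y, y)‖ := hclose.le
      _ ≤ ε / (2 * (1 + ‖X' i‖)) * ‖A (x + X j * y, y)‖ :=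
          mul_le_mul_of_nonneg_right (min_le_right _ _) (norm_nonneg _)
      _ ≤ ε / (2 * (1 + ‖X' i‖)) * (2 * (1 + ‖X' i‖) * ‖(A (x + X j * y, y)).2‖) :=
          mul_le_mul_of_nonneg_left h5 (by positivity)
      _ = ε * ‖(A (x + X j * y, y)).2‖ := by field_simp

end H24.LS
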