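import Pool.Agent.H24.LS.R0a
import Pool.Agent.H24.LS.P2
import Pool.Agent.H24.LS.P3
import Pool.Agent.H24.LS.D2
import Pool.Agent.H24.LS.D7
import Pool.Agent.H24.LS.F17

/-!
# R5: matched charts at corresponding multiple lines

Proof.  `F = fun p => f (p.1 + X j * p.2, p.2) = f ∘ shear (X j)`, `G` the same for `g`, `j'` (both definitional: `shear_apply`).
`pchart_exists` for `f, j`: `N1, γ1`; for `g, j'`: `N2, γ2`.  `pch_pow`: both with `N = N1 * N2` (`N1 * N2 = N2 * N1`, use `mul_comm ▸`).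
`preclu_exists` (with `iso_equiv`) and `clu_of_preclu` for `F`: `Clu F k n N u cc m b γ v a D`, `n = κ j - 1`.
`coarse_equiv` with `l = shear (X j)`, `l' = shear (X' j')` gives `Coarse F G A1 B1 L' ρ'`,
`A1 p = ((A (p.1 + X j p.2, p.2)).1 - X' j' * (A (..)).2, (A (..)).2)` (`shear_symm_apply`).
`Mat F G k n (κ' j' - 1) N u u' ...` : `hC`, `hG` (rewrite `Σ κ' = Σ κ`), `hco`, `hk`, `hn : 1 ≤ κ j - 1`, `isoG` (`iso_equiv`), `bdF` (`PCh.bdF`),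
`cone` = `hcone` rewritten in the chart coordinates.
`match_main` gives `κ' j' - 1 = κ j - 1` (so `κ' j' = κ j` because `κ' j' ≥ 1`, `κ j ≥ 2`), and `α, ω, Γ, η`; `n + 1 = κ j`,
`k - 1 - n = k - κ j`; the limits are `Root1`, `Root2` (unfold).
-/

open Filter Topology Metric

namespace H24.LS

theorem chart_match {r r' : ℕ} {κ : Fin r → ℕ} {κ' : Fin r' → ℕ} {c c' : ℂ} {X : Fin r → ℂ}
    {X' : Fin r' → ℂ} {f g : ℂ × ℂ → ℂ} (hf : NForm κ c X f) (hg : NForm κ' c' X' g)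
    (isoF : Iso f) (isoG : Iso g) (hk : 3 ≤ ∑ j, κ j) (hkk : ∑ j, κ' j = ∑ j, κ j)
    {A B : ℂ × ℂ → ℂ × ℂ} {L ρ : ℝ} (hco : Coarse f g A B L ρ) (j : Fin r) (j' : Fin r')
    (hj : 2 ≤ κ j) (hcone : ConeTo A (X j) (X' j')) :
    κ' j' = κ j ∧ ∃ α ω : ℂ, α ≠ 0 ∧ ω ≠ 0 ∧
      α ^ κ j * ω ^ (∑ i, κ i - κ j) *
        (κ' j' * c' * ∏ i ∈ Finset.univ.erase j', (X' j' - X' i) ^ κ' i) =
        κ j * c * ∏ i ∈ Finset.univ.erase j, (X j - X i) ^ κ i ∧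
      Root1 A (X j) (X' j') α ∧ Root2 A (X j) ω ∧
      ∃ (N : ℕ) (u : ℂ) (cc : ℕ) (m : Fin cc → ℕ) (b : Fin cc → ℝ) (γ v Γ η : Fin cc → ℂ → ℂ)
        (a : Fin cc → ℂ) (D : Fin cc → ℕ),
        CFa (fun p => f (p.1 + X j * p.2, p.2)) (Gn (fun p => g (p.1 + X' j' * p.2, p.2)) α ω)
          (∑ i, κ i) (κ j - 1) N u cc m b γ v Γ η a D := by
  obtain ⟨N1, γ1, hP1⟩ := pchart_exists κ c X f hf j
  obtain ⟨N2, γ2, hP2⟩ := pchart_exists κ' c' X' g hg j'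
  have hP1' := pch_pow hP1 N2 hP2.hN
  have hP2' := pch_pow hP2 N1 hP1.hN
  rw [mul_comm N2 N1, hkk] at hP2'
  have hisoF : Iso (fun p => f (p.1 + X j * p.2, p.2)) := iso_equiv isoF (shear (X j))
  have hisoG : Iso (fun p => g (p.1 + X' j' * p.2, p.2)) := iso_equiv isoG (shear (X' j'))
  obtain ⟨cc, cl, b, hpre⟩ := preclu_exists hP1' hisoF
  obtain ⟨a, D, hclu⟩ := clu_of_preclu hP1' hpre
  obtain ⟨L', ρ', hco'⟩ := coarse_equiv hco (shear (X j)) (shear (X' j'))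
  have hMat := Mat.mk hclu hP2' hco' hk (by omega) hisoG hP1.bdF hcone
  obtain ⟨hn, α, ω, Γ, η, hα, hω, hrel, hr1, hr2, hC⟩ := match_main hMat
  have hκ'1 := hg.hκ j'
  have hκκ : κ' j' = κ j := by omega
  refine ⟨hκκ, α, ω, hα, hω, ?_, hr1, hr2, _, _, _, _, _, _, _, _, _, _, _, hC⟩
  have h1 : κ j - 1 + 1 = κ j := by omega
  have h2 : ∑ i, κ i - 1 - (κ j - 1) = ∑ i, κ i - κ j := by omega
  rw [h1, h2] at hrel
  exact hrel

end H24.LS
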