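import Pool.Agent.H24.LS.R0

/-!
# R6: simple lines; reordering

* `extend_equiv`: `Σ_j κ j = Σ_{multiple} κ + #simple` (simple means `κ j = 1`), the same for `κ'`; the sums over the multiple ones agree
  (`Equiv.sum_comp`), so the numbers of simple lines agree; choose any bijection between the simple ones and combine
  (`Equiv.sumCompl`, `Equiv.sumCongr`; or `Equiv.subtypeCongr`).
* `form_reorder`: `∏` over `Fin r` of `(p.1 - X' (e j) p.2)^(κ' (e j))` (`Equiv.prod_comp`, `hke`).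
* `nform_reorder`: all fields (`bd`: `form_reorder` and `Σ κ = Σ κ'` by `Equiv.sum_comp`).
* `prod_erase_reorder`: `∏ i ∈ univ.erase (e j), (X' (e j) - X' i)^κ' i = ∏ i ∈ univ.erase j, (X' (e j) - X' (e i))^κ i`
  (`Finset.prod_bij` or `Finset.prod_map`/`Finset.prod_image` along `e`).
-/

open Filter Topology Metric

namespace H24.LS

theorem extend_equiv {r r' : ℕ} (κ : Fin r → ℕ) (κ' : Fin r' → ℕ) (hκ : ∀ j, 1 ≤ κ j)
    (hκ' : ∀ j, 1 ≤ κ' j) (hs : ∑ j, κ' j = ∑ j, κ j)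
    (σ : {j : Fin r // 2 ≤ κ j} ≃ {j : Fin r' // 2 ≤ κ' j}) (hσ : ∀ j, κ' (σ j).1 = κ j.1) :
    ∃ e : Fin r ≃ Fin r', (∀ j : {j : Fin r // 2 ≤ κ j}, e j.1 = (σ j).1) ∧
      ∀ j, κ' (e j) = κ j := by
  classical
  have h1 : ∀ {s : ℕ} (c : Fin s → ℕ), (∀ j, 1 ≤ c j) →
      ∑ j, c j = ∑ j : {j : Fin s // 2 ≤ c j}, c j.1 +
        Fintype.card {j : Fin s // ¬ 2 ≤ c j} := by
    intro s c hc
    rw [← Fintype.sum_subtype_add_sum_subtype (fun j => 2 ≤ c j) c]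
    congr 1
    have : ∀ j : {j : Fin s // ¬ 2 ≤ c j}, c j.1 = 1 := fun j => by
      have h1 := hc j.1
      have h2 := j.2
      omega
    rw [Finset.sum_congr rfl (fun j _ => this j)]
    simp
  have h2 : ∑ j : {j : Fin r' // 2 ≤ κ' j}, κ' j.1 = ∑ j : {j : Fin r // 2 ≤ κ j}, κ j.1 := by
    rw [← Equiv.sum_comp σ]
    exact Finset.sum_congr rfl fun j _ => hσ j
  have h3 : Fintype.card {j : Fin r // ¬ 2 ≤ κ j} = Fintype.card {j : Fin r' // ¬ 2 ≤ κ' j} := by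
    have h4 := h1 κ hκ
    have h5 := h1 κ' hκ'
    omega
  let τ : {j : Fin r // ¬ 2 ≤ κ j} ≃ {j : Fin r' // ¬ 2 ≤ κ' j} := Fintype.equivOfCardEq h3
  let e : Fin r ≃ Fin r' := (Equiv.sumCompl (fun j : Fin r => 2 ≤ κ j)).symm.trans
    ((Equiv.sumCongr σ τ).trans (Equiv.sumCompl (fun j : Fin r' => 2 ≤ κ' j)))
  have he1 : ∀ j : {j : Fin r // 2 ≤ κ j}, e j.1 = (σ j).1 := by
    intro j
    have : (Equiv.sumCompl (fun j : Fin r => 2 ≤ κ j)).symm j.1 = Sum.inl j :=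
      Equiv.sumCompl_symm_apply_of_pos (p := fun j : Fin r => 2 ≤ κ j) j.2
    show (Equiv.sumCompl (fun j : Fin r' => 2 ≤ κ' j)) ((Equiv.sumCongr σ τ)
      ((Equiv.sumCompl (fun j : Fin r => 2 ≤ κ j)).symm j.1)) = (σ j).1
    rw [this]
    rfl
  have he2 : ∀ j : {j : Fin r // ¬ 2 ≤ κ j}, e j.1 = (τ j).1 := by
    intro j
    have : (Equiv.sumCompl (fun j : Fin r => 2 ≤ κ j)).symm j.1 = Sum.inr j :=
      Equiv.sumCompl_symm_apply_of_neg (p := fun j : Fin r => 2 ≤ κ j) j.2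
    show (Equiv.sumCompl (fun j : Fin r' => 2 ≤ κ' j)) ((Equiv.sumCongr σ τ)
      ((Equiv.sumCompl (fun j : Fin r => 2 ≤ κ j)).symm j.1)) = (τ j).1
    rw [this]
    rfl
  refine ⟨e, he1, fun j => ?_⟩
  by_cases hj : 2 ≤ κ j
  · rw [he1 ⟨j, hj⟩]
    exact hσ ⟨j, hj⟩
  · rw [he2 ⟨j, hj⟩]
    have h4 := (τ ⟨j, hj⟩).2
    have h5 := hκ' (τ ⟨j, hj⟩).1
    have h6 := hκ j
    omega

theorem form_reorder {r r' : ℕ} {κ : Fin r → ℕ} {κ' : Fin r' → ℕ} (e : Fin r ≃ Fin r')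
    (he : ∀ j, κ' (e j) = κ j) (c' : ℂ) (X' : Fin r' → ℂ) (p : ℂ × ℂ) :
    form κ c' (fun j => X' (e j)) p = form κ' c' X' p := by
  unfold form
  congr 1
  rw [← Equiv.prod_comp e]
  exact Finset.prod_congr rfl fun j _ => by rw [he j]

theorem nform_reorder {r r' : ℕ} {κ : Fin r → ℕ} {κ' : Fin r' → ℕ} {c' : ℂ} {X' : Fin r' → ℂ}
    {g : ℂ × ℂ → ℂ} (hg : NForm κ' c' X' g) (e : Fin r ≃ Fin r') (he : ∀ j, κ' (e j) = κ j) :
    NForm κ c' (fun j => X' (e j)) g := by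
  have hs : ∑ j, κ j = ∑ j, κ' j := by
    rw [← Equiv.sum_comp e]
    exact Finset.sum_congr rfl fun j _ => (he j).symm
  refine ⟨hg.an, ?_, hg.hc, fun a b hab => e.injective (hg.hX hab), fun j => ?_, ?_⟩
  · have h1 : Fintype.card (Fin r) = Fintype.card (Fin r') := Fintype.card_congr e
    simp only [Fintype.card_fin] at h1
    rw [h1]
    exact hg.hr
  · rw [← he j]
    exact hg.hκ _
  · obtain ⟨C, hC, δ, hδ, h⟩ := hg.bd
    refine ⟨C, hC, δ, hδ, fun p hp => ?_⟩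
    rw [form_reorder e he, hs]
    exact h p hp

theorem prod_erase_reorder {r r' : ℕ} {κ : Fin r → ℕ} {κ' : Fin r' → ℕ} (e : Fin r ≃ Fin r')
    (he : ∀ j, κ' (e j) = κ j) (X' : Fin r' → ℂ) (j : Fin r) :
    ∏ i ∈ Finset.univ.erase (e j), (X' (e j) - X' i) ^ κ' i =
      ∏ i ∈ Finset.univ.erase j, (X' (e j) - X' (e i)) ^ κ i := by
  symm
  refine Finset.prod_bij (fun i _ => e i) ?_ ?_ ?_ ?_
  · intro i hi
    simp only [Finset.mem_erase, Finset.mem_univ, and_true, ne_eq, EmbeddingLike.apply_eq_iff_eq]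
    exact (Finset.mem_erase.1 hi).1
  · intro a _ b _ h
    exact e.injective h
  · intro b hb
    refine ⟨e.symm b, ?_, by simp⟩
    simp only [Finset.mem_erase, Finset.mem_univ, and_true, ne_eq]
    intro h
    exact (Finset.mem_erase.1 hb).1 (by rw [← h]; simp)
  · intro i _
    rw [he i]

end H24.LS
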