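import Pool.Agent.H24.LS.R0

/-!
# R7: the ratio of the reduced forms (definitions)
-/

open Filter Topology Metric

namespace H24.LS

/-- ratio of the reduced forms along `A` -/
noncomputable def Rq {r : ℕ} (κ0 : Fin r → ℕ) (X X' : Fin r → ℂ) (A : ℂ × ℂ → ℂ × ℂ) (p : ℂ × ℂ) : ℂ :=
  form κ0 1 X' (A p) / form κ0 1 X p

/-- the number attached to a line `i` with root limits `α`, `ω` -/
noncomputable def rnum {r : ℕ} (κ0 : Fin r → ℕ) (X X' : Fin r → ℂ) (i : Fin r) (α ω : ℂ) : ℂ :=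
  α ^ κ0 i * ω ^ (∑ l, κ0 l - κ0 i) * (∏ l ∈ Finset.univ.erase i, (X' i - X' l) ^ κ0 l) /
    ∏ l ∈ Finset.univ.erase i, (X i - X l) ^ κ0 l

end H24.LS
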