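import Pool.Agent.H24.LS.R7

/-!
# R7a: root stability

* `root_const`.  Let `T` be the set of the `d` distinct `d`-th roots of `w` (`w ≠ 0`), `X^d - w = ∏_{ρ ∈ T} (X - ρ)`
  (`Polynomial.X_pow_sub_C...`, `IsAlgClosed.splits`; the multiset of roots has `d` elements; distinctness is not needed for the product).
  Let `ε' ≤ ε/2` be such that different elements of `T` have distance `> 2 ε'`; `η = (ε'/2)^d`.  If `‖x^d - w‖ ≤ η` then `‖x - ρ‖ < ε'` for
  some `ρ ∈ T` (else the product is `≥ ε'^d > η`).  The sets `{z ∈ K : ‖R z - ρ‖ < ε'}`, `ρ ∈ T`, are disjoint, relatively open and cover `K`, so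
  one of them is all of `K` (`K` preconnected); so `‖R z1 - R z2‖ < 2 ε' ≤ ε`.  (Alternative: the function `z ↦` the nearest root is locally
  constant on `K`: `IsPreconnected.constant` type lemma.)
-/

open Filter Topology Metric

namespace H24.LS

theorem R7a_sep (T : Finset ℂ) : ∃ δ > (0 : ℝ), ∀ ρ ∈ T, ∀ ρ' ∈ T, ρ ≠ ρ' → δ ≤ dist ρ ρ' := by
  classical
  by_cases h : T.offDiag.Nonempty
  · refine ⟨T.offDiag.inf' h (fun p => dist p.1 p.2), ?_, ?_⟩
    · rw [gt_iff_lt, Finset.lt_inf'_iff]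
      intro p hp
      exact dist_pos.2 (Finset.mem_offDiag.1 hp).2.2
    · intro ρ hρ ρ' hρ' hne
      exact Finset.inf'_le (fun p : ℂ × ℂ => dist p.1 p.2)
        (Finset.mem_offDiag.2 ⟨hρ, hρ', hne⟩ : (ρ, ρ') ∈ T.offDiag)
  · refine ⟨1, one_pos, ?_⟩
    intro ρ hρ ρ' hρ' hne
    exact absurd ⟨(ρ, ρ'), Finset.mem_offDiag.2 ⟨hρ, hρ', hne⟩⟩ h

theorem root_const {d : ℕ} (hd : 0 < d) (w : ℂ) (hw : w ≠ 0) :
    ∀ ε > (0 : ℝ), ∃ η > (0 : ℝ), ∀ (K : Set ℂ) (R : ℂ → ℂ), IsPreconnected K → ContinuousOn R K →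
      (∀ z ∈ K, ‖R z ^ d - w‖ ≤ η) → ∀ z1 ∈ K, ∀ z2 ∈ K, ‖R z1 - R z2‖ ≤ ε := by
  classical
  intro ε hε
  obtain ⟨r, hr⟩ := IsAlgClosed.exists_pow_nat_eq w hd
  set T : Finset ℂ := (Polynomial.nthRootsFinset d (1 : ℂ)).image (fun ζ => ζ * r) with hT
  obtain ⟨δ, hδ, hsep⟩ := R7a_sep T
  set e : ℝ := min (ε / 2) (δ / 2) with he
  have he0 : 0 < e := lt_min (by linarith) (by linarith)
  have he1 : e ≤ ε / 2 := min_le_left _ _
  have he2 : e ≤ δ / 2 := min_le_right _ _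
  refine ⟨e ^ d / 2, by positivity, ?_⟩
  intro K R hK hR hη z1 hz1 z2 hz2
  have hcov : ∀ z ∈ K, ∃ ρ ∈ T, ‖R z - ρ‖ < e := by
    intro z hz
    by_contra hc
    push Not at hc
    have hprim := Complex.isPrimitiveRoot_exp d hd.ne'
    have h1 := hprim.pow_sub_pow_eq_prod_sub_mul (R z) r hd
    rw [hr] at h1
    have h2 : e ^ d ≤ ‖R z ^ d - w‖ := by
      rw [h1, norm_prod]
      calc e ^ d = ∏ _ζ ∈ Polynomial.nthRootsFinset d (1 : ℂ), e := by
            rw [Finset.prod_const, hprim.card_nthRootsFinset]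
        _ ≤ _ := Finset.prod_le_prod (fun _ _ => he0.le) (fun ζ hζ =>
            hc (ζ * r) (Finset.mem_image_of_mem _ hζ))
    have h3 := hη z hz
    have h4 : 0 < e ^ d := by positivity
    linarith
  obtain ⟨ρ, hρ, hρ1⟩ := hcov z1 hz1
  have hS : IsPreconnected (R '' K) := hK.image R hR
  have hsub : R '' K ⊆ ball ρ e := by
    refine hS.subset_left_of_subset_union (u := ball ρ e)
      (v := ⋃ ρ' ∈ T.erase ρ, ball ρ' e) isOpen_ball
      (isOpen_biUnion fun _ _ => isOpen_ball) ?_ ?_ ?_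
    · rw [Set.disjoint_left]
      intro x hx hx'
      obtain ⟨ρ', hρ', hx2⟩ := Set.mem_iUnion₂.1 hx'
      have h1 := hsep ρ hρ ρ' (Finset.mem_of_mem_erase hρ') (Finset.ne_of_mem_erase hρ').symm
      have h2 : dist x ρ < e := hx
      have h3 : dist x ρ' < e := hx2
      have h4 := dist_triangle_left ρ ρ' x
      linarith
    · rintro _ ⟨z, hz, rfl⟩
      obtain ⟨ρ', hρ', h1⟩ := hcov z hz
      by_cases h2 : ρ' = ρ
      · left
        rw [mem_ball, dist_eq_norm, ← h2]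
        exact h1
      · right
        refine Set.mem_iUnion₂.2 ⟨ρ', Finset.mem_erase.2 ⟨h2, hρ'⟩, ?_⟩
        rw [mem_ball, dist_eq_norm]
        exact h1
    · exact ⟨R z1, ⟨z1, hz1, rfl⟩, by rw [mem_ball, dist_eq_norm]; exact hρ1⟩
  have h2 : dist (R z2) ρ < e := hsub ⟨z2, hz2, rfl⟩
  rw [dist_eq_norm] at h2
  have h3 : R z1 - R z2 = (R z1 - ρ) - (R z2 - ρ) := by ring
  rw [h3]
  have h4 := norm_sub_le (R z1 - ρ) (R z2 - ρ)
  linarith

end H24.LS
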