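import Pool.Agent.H24.LS.R7

/-!
# R7b: the ratio near a multiple line

* `ratio_near`.  Let `p = ((X i + s) y, y) = (x + X i y, y)` with `x = s y`, `a = (A p).1 - X'_i (A p).2`, `b = (A p).2`.  Then
  `(A p).1 - X'_l (A p).2 = a + (X'_i - X'_l) b` and `p.1 - X_l p.2 = x + (X_i - X_l) y`, so (product over `l = i` and `l ≠ i`)
  `Rq = (a/x)^(κ0 i) ∏_{l≠i} ((a/y + (X'_i - X'_l) (b/y)) / (s + X_i - X_l))^(κ0 l) = Ψ(a/x, a/y, b/y, s)` with
  `Ψ(A1, a1, b1, s) = A1^(κ0 i) ∏_{l≠i} ((a1 + (X'_i - X'_l) b1)/(s + (X_i - X_l)))^(κ0 l)`, continuous at `(α, 0, ω, 0)` with value the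
  constant in the statement.  Let `ε1 ≤ 1` be the radius for `ε` from this continuity (sup norm of the four variables).  `Root1` with `ε1` gives `δ1`;
  `Root2` with `ε1` gives `δ`; the final `δ1` is the minimum of `δ1`, `δ`, `ε1/(‖α‖ + 2)`.  For `s` with `0 < ‖s‖ ≤ δ1`
  take `δ2 = ‖s‖` in `Root1` : `‖a - α x‖ ≤ ε1 ‖x‖` i.e. `‖a/x - α‖ ≤ ε1`; `‖b/y - ω‖ ≤ ε1`; `‖a/y‖ = ‖a/x‖ ‖s‖ ≤ (‖α‖ + 1) ‖s‖ < ε1`; `‖s‖ ≤ ε1`.
  (Take care of strict/non strict inequalities, e.g. use `ε1/2`.)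
-/

open Filter Topology Metric

namespace H24.LS

/-- the ratio as a function of the four limits -/
noncomputable def R7b_P {r : ℕ} (κ0 : Fin r → ℕ) (X X' : Fin r → ℂ) (i : Fin r)
    (z : ℂ × ℂ × ℂ × ℂ) : ℂ :=
  z.1 ^ κ0 i * ∏ l ∈ Finset.univ.erase i,
    ((z.2.1 + (X' i - X' l) * z.2.2.1) / (z.2.2.2 + (X i - X l))) ^ κ0 l

theorem R7b_cont {r : ℕ} (κ0 : Fin r → ℕ) {X X' : Fin r → ℂ} (hX : Function.Injective X)
    (i : Fin r) (α ω : ℂ) : ContinuousAt (R7b_P κ0 X X' i) (α, 0, ω, 0) := by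
  unfold R7b_P
  refine ContinuousAt.mul (continuousAt_fst.pow _) ?_
  refine tendsto_finsetProd _ fun l hl => ?_
  have hne : X i - X l ≠ 0 := by
    rw [sub_ne_zero]
    exact fun h => (Finset.mem_erase.1 hl).1 (hX h).symm
  have h1 : ContinuousAt (fun z : ℂ × ℂ × ℂ × ℂ =>
      ((z.2.1 + (X' i - X' l) * z.2.2.1) / (z.2.2.2 + (X i - X l))) ^ κ0 l) (α, 0, ω, 0) := by
    refine ContinuousAt.pow (ContinuousAt.div ?_ ?_ ?_) _
    · fun_prop
    · fun_prop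
    · simpa using hne
  exact h1

theorem R7b_val {r : ℕ} (κ0 : Fin r → ℕ) (X X' : Fin r → ℂ) (i : Fin r) (α ω : ℂ) :
    R7b_P κ0 X X' i (α, 0, ω, 0) = rnum κ0 X X' i α ω := by
  unfold R7b_P rnum
  simp only [zero_add]
  have h1 : ∑ l, κ0 l - κ0 i = ∑ l ∈ Finset.univ.erase i, κ0 l := by
    rw [← Finset.add_sum_erase Finset.univ κ0 (Finset.mem_univ i), Nat.add_sub_cancel_left]
  rw [h1, ← Finset.prod_pow_eq_pow_sum, mul_assoc, ← Finset.prod_mul_distrib, mul_div_assoc,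
    ← Finset.prod_div_distrib]
  congr 1
  refine Finset.prod_congr rfl fun l _ => ?_
  rw [div_pow, mul_pow]
  ring

theorem R7b_eq {r : ℕ} (κ0 : Fin r → ℕ) (X X' : Fin r → ℂ) (A : ℂ × ℂ → ℂ × ℂ) (i : Fin r)
    (s y : ℂ) (hy : y ≠ 0) :
    Rq κ0 X X' A ((X i + s) * y, y) = R7b_P κ0 X X' i
      (((A (s * y + X i * y, y)).1 - X' i * (A (s * y + X i * y, y)).2) / (s * y),
        ((A (s * y + X i * y, y)).1 - X' i * (A (s * y + X i * y, y)).2) / y,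
        (A (s * y + X i * y, y)).2 / y, s) := by
  have e : (X i + s) * y = s * y + X i * y := by ring
  unfold Rq form R7b_P
  rw [e]
  set q := A (s * y + X i * y, y) with hq
  simp only [one_mul]
  rw [← Finset.prod_div_distrib, ← Finset.mul_prod_erase Finset.univ _ (Finset.mem_univ i)]
  congr 1
  · rw [← div_pow]
    congr 2
    ring
  · refine Finset.prod_congr rfl fun l _ => ?_
    rw [← div_pow]
    congr 1
    have h1 : s * y + X i * y - X l * y = (s + (X i - X l)) * y := by ring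
    rw [h1]
    by_cases h2 : s + (X i - X l) = 0
    · rw [h2]
      simp
    · field_simp
      ring

theorem ratio_near {r : ℕ} (κ0 : Fin r → ℕ) {X X' : Fin r → ℂ} (hX : Function.Injective X)
    {A : ℂ × ℂ → ℂ × ℂ} (i : Fin r) (hκi : 1 ≤ κ0 i) {α ω : ℂ} (h1 : Root1 A (X i) (X' i) α)
    (h2 : Root2 A (X i) ω) :
    ∀ ε > (0 : ℝ), ∃ δ1 > (0 : ℝ), ∀ s : ℂ, 0 < ‖s‖ → ‖s‖ ≤ δ1 → ∃ δ3 > (0 : ℝ), ∀ y : ℂ,
      0 < ‖y‖ → ‖y‖ < δ3 → ‖Rq κ0 X X' A ((X i + s) * y, y) - rnum κ0 X X' i α ω‖ ≤ ε := by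
  intro ε hε
  have hc := R7b_cont κ0 (X' := X') hX i α ω
  rw [Metric.continuousAt_iff] at hc
  obtain ⟨ε1, hε1, hcb⟩ := hc ε hε
  set e : ℝ := min (ε1 / 2) 1 with he
  have he0 : 0 < e := by positivity
  have he1 : e ≤ 1 := min_le_right _ _
  have he2 : e < ε1 := (min_le_left _ _).trans_lt (by linarith)
  obtain ⟨δ1, hδ1, hr1⟩ := h1 e he0
  obtain ⟨δ, hδ, hr2⟩ := h2 e he0
  refine ⟨min (min δ1 δ) (e / (‖α‖ + 1)), by positivity, ?_⟩
  intro s hs0 hs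
  have hs1 : ‖s‖ ≤ δ1 := hs.trans ((min_le_left _ _).trans (min_le_left _ _))
  have hs2 : ‖s‖ ≤ δ := hs.trans ((min_le_left _ _).trans (min_le_right _ _))
  have hs3 : ‖s‖ ≤ e / (‖α‖ + 1) := hs.trans (min_le_right _ _)
  rw [le_div_iff₀ (by positivity)] at hs3
  obtain ⟨δ3, hδ3, hr3⟩ := hr1 ‖s‖ hs0
  refine ⟨min δ3 δ, by positivity, ?_⟩
  intro y hy0 hy
  have hyne : y ≠ 0 := norm_pos_iff.1 hy0
  have hsne : s ≠ 0 := norm_pos_iff.1 hs0
  have hx : ‖s * y‖ = ‖s‖ * ‖y‖ := norm_mul _ _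
  have k1 := hr3 (s * y) y hy0 (hy.trans_le (min_le_left _ _)) (by rw [hx])
    (by rw [hx]; exact mul_le_mul_of_nonneg_right hs1 hy0.le)
  have k2 := hr2 (s * y) y (hy.trans_le (min_le_right _ _))
    (by rw [hx]; exact mul_le_mul_of_nonneg_right hs2 hy0.le)
  rw [R7b_eq κ0 X X' A i s y hyne, ← R7b_val, ← dist_eq_norm]
  refine (hcb ?_).le
  set q := A (s * y + X i * y, y) with hq
  have hsy : 0 < ‖s * y‖ := by rw [hx]; positivity
  have b1 : ‖(q.1 - X' i * q.2) / (s * y) - α‖ ≤ e := by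
    have e1 : (q.1 - X' i * q.2) / (s * y) - α = (q.1 - X' i * q.2 - α * (s * y)) / (s * y) := by
      field_simp
    rw [e1, norm_div, div_le_iff₀ hsy]
    exact k1
  have b3 : ‖q.2 / y - ω‖ ≤ e := by
    have e1 : q.2 / y - ω = (q.2 - ω * y) / y := by
      field_simp
    rw [e1, norm_div, div_le_iff₀ hy0]
    exact k2
  have b2 : ‖(q.1 - X' i * q.2) / y‖ ≤ e := by
    have e1 : (q.1 - X' i * q.2) / y = (q.1 - X' i * q.2) / (s * y) * s := by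
      field_simp
    rw [e1, norm_mul]
    have e2 : ‖(q.1 - X' i * q.2) / (s * y)‖ ≤ ‖α‖ + 1 := by
      have e3 := norm_sub_norm_le ((q.1 - X' i * q.2) / (s * y)) α
      linarith
    calc _ ≤ (‖α‖ + 1) * ‖s‖ := mul_le_mul_of_nonneg_right e2 hs0.le
      _ = ‖s‖ * (‖α‖ + 1) := mul_comm _ _
      _ ≤ e := hs3
  have b4 : ‖s‖ ≤ e := by
    have := norm_nonneg α
    nlinarith
  rw [Prod.dist_eq, Prod.dist_eq, Prod.dist_eq]
  refine max_lt ?_ (max_lt ?_ (max_lt ?_ ?_))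
  · rw [dist_eq_norm]
    exact b1.trans_lt he2
  · rw [dist_zero_right]
    exact b2.trans_lt he2
  · rw [dist_eq_norm]
    exact b3.trans_lt he2
  · rw [dist_zero_right]
    exact b4.trans_lt he2

end H24.LS
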