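import Pool.Agent.H24.LS.R7
import Pool.Agent.H24.LS.R0b
import Pool.Agent.H24.LS.R1

/-!
# R7c: the ratio raised to the power `d` tends to `c / c'` off the lines

`P = form κ c X = c q^d`, `q = form κ0 1 X` (`κ = d κ0`), `P' = form κ c' X' = c' q'^d`, `k = Σ κ = d k0`.

* `ratio_pow`.  Let `‖z‖ ≤ M` on `K`, `M ≥ 1`; `p = (z y, y)`, `‖y‖ ≤ ‖p‖ ≤ M ‖y‖`.  `‖q (z, 1)‖ ≥ cK > 0` on `K` (compact, continuous, nonzero:
  the factors are `z - X_j`), `q p = y^k0 q(z,1)` (`form_hom`), so `‖q p‖^d ≥ cK^d ‖y‖^k`.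
  `‖c' q'(A p)^d - c q(p)^d‖ ≤ ‖P'(A p) - g (A p)‖ + ‖g (A p) - f p‖ + ‖f p - P p‖ ≤ C ‖A p‖^(k+1) + L ‖∇f p‖^2 + C ‖p‖^(k+1)
   ≤ C'' ‖y‖^(k+1)` (`NForm.bd`, `Coarse.fA`, `bdF_of_nform`: `‖∇f p‖^2 ≤ C^2 ‖p‖^(2k-2) ≤ C^2 ‖p‖^(k+1)` as `k ≥ 3` and `‖p‖ ≤ 1`;
  `‖A p‖ ≤ L ‖p‖`).  Divide by `c' q(p)^d`: `‖Rq^d - c/c'‖ ≤ C'' ‖y‖ / (‖c'‖ cK^d)`.
-/

open Filter Topology Metric

namespace H24.LS

theorem R7c_pow {r : ℕ} {κ κ0 : Fin r → ℕ} {d : ℕ} (hκ0 : ∀ j, κ j = d * κ0 j) (c : ℂ)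
    (X : Fin r → ℂ) (p : ℂ × ℂ) : form κ c X p = c * form κ0 1 X p ^ d := by
  unfold form
  rw [one_mul, ← Finset.prod_pow]
  congr 1
  refine Finset.prod_congr rfl fun j _ => ?_
  rw [hκ0 j, ← pow_mul, mul_comm d]

theorem R7c_cont {r : ℕ} (κ0 : Fin r → ℕ) (X : Fin r → ℂ) :
    Continuous (fun z : ℂ => form κ0 1 X (z, 1)) := by
  unfold form
  fun_prop

theorem ratio_pow {r : ℕ} {κ κ0 : Fin r → ℕ} {d : ℕ} (hd : 0 < d) (hκ0 : ∀ j, κ j = d * κ0 j)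
    {c c' : ℂ} {X X' : Fin r → ℂ} {f g : ℂ × ℂ → ℂ} (hf : NForm κ c X f) (hg : NForm κ c' X' g)
    (hk : 3 ≤ ∑ j, κ j) {A B : ℂ × ℂ → ℂ × ℂ} {L ρ : ℝ} (hco : Coarse f g A B L ρ)
    (K : Set ℂ) (hK : IsCompact K) (hKX : ∀ z ∈ K, ∀ j, z ≠ X j) :
    ∀ η > (0 : ℝ), ∃ δ > (0 : ℝ), ∀ z ∈ K, ∀ y : ℂ, 0 < ‖y‖ → ‖y‖ < δ →
      ‖Rq κ0 X X' A (z * y, y) ^ d - c / c'‖ ≤ η := by
  intro η hη
  set k := ∑ j, κ j with hkdef
  set k0 := ∑ j, κ0 j with hk0def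
  have hkk : k = k0 * d := by
    rw [hkdef, hk0def, Finset.sum_mul]
    exact Finset.sum_congr rfl fun j _ => by rw [hκ0 j, mul_comm]
  -- lower bound on `K`
  obtain ⟨cK, hcK, hcK'⟩ : ∃ cK > (0:ℝ), ∀ z ∈ K, cK ≤ ‖form κ0 1 X (z, 1)‖ := by
    obtain ⟨a, ha, ha'⟩ := hK.exists_forall_le' (f := fun z : ℂ => ‖form κ0 1 X (z, 1)‖)
      (R7c_cont κ0 X).norm.continuousOn (a := 0) (by
        intro z hz
        rw [norm_pos_iff]
        unfold form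
        rw [one_mul, Finset.prod_ne_zero_iff]
        intro j _
        refine pow_ne_zero _ ?_
        rw [mul_one]
        exact sub_ne_zero.2 (hKX z hz j))
    exact ⟨a, ha, ha'⟩
  obtain ⟨M0, hM0⟩ := hK.isBounded.exists_norm_le
  set M := max M0 1 with hM
  have hM1 : 1 ≤ M := le_max_right _ _
  have hMz : ∀ z ∈ K, ‖z‖ ≤ M := fun z hz => (hM0 z hz).trans (le_max_left _ _)
  obtain ⟨Cf, hCf, δf, hδf, bf⟩ := hf.bd
  obtain ⟨Cg, hCg, δg, hδg, bg⟩ := hg.bd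
  obtain ⟨Cd, hCd, δd, hδd, bd⟩ := bdF_of_nform hf
  have hL := hco.hL
  have hL0 : 0 < L := by linarith
  have hc' : 0 < ‖c'‖ := norm_pos_iff.2 hg.hc
  set C1 := Cg * L ^ (k + 1) + L * Cd ^ 2 + Cf with hC1
  have hC1p : 0 < C1 := by positivity
  set C2 := C1 * M ^ (k + 1) with hC2
  have hC2p : 0 < C2 := by positivity
  set δ0 := min (min δf δd) (min (min ρ 1) (δg / L)) with hδ0
  have hδ0p : 0 < δ0 := lt_min (lt_min hδf hδd) (lt_min (lt_min hco.hρ one_pos) (by positivity))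
  refine ⟨min (δ0 / M) (η * (‖c'‖ * cK ^ d) / C2), lt_min (by positivity) (by positivity), ?_⟩
  intro z hz y hy0 hy
  have hy1 : ‖y‖ < δ0 / M := hy.trans_le (min_le_left _ _)
  have hy2 : ‖y‖ < η * (‖c'‖ * cK ^ d) / C2 := hy.trans_le (min_le_right _ _)
  have hp : ((z * y, y) : ℂ × ℂ) = y • (z, 1) := by
    ext
    · simp [mul_comm]
    · simp
  have hpn : ‖((z * y, y) : ℂ × ℂ)‖ ≤ M * ‖y‖ := by
    rw [Prod.norm_def]
    refine max_le ?_ ?_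
    · rw [norm_mul]
      exact mul_le_mul_of_nonneg_right (hMz z hz) (norm_nonneg _)
    · exact le_mul_of_one_le_left (norm_nonneg _) hM1
  have hpδ : ‖((z * y, y) : ℂ × ℂ)‖ < δ0 := by
    refine hpn.trans_lt ?_
    rw [lt_div_iff₀ (by linarith)] at hy1
    linarith
  set p : ℂ × ℂ := (z * y, y) with hpdef
  have hpf : ‖p‖ < δf := hpδ.trans_le ((min_le_left _ _).trans (min_le_left _ _))
  have hpd : ‖p‖ < δd := hpδ.trans_le ((min_le_left _ _).trans (min_le_right _ _))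
  have hpρ : ‖p‖ < ρ := hpδ.trans_le ((min_le_right _ _).trans ((min_le_left _ _).trans
    (min_le_left _ _)))
  have hp1 : ‖p‖ < 1 := hpδ.trans_le ((min_le_right _ _).trans ((min_le_left _ _).trans
    (min_le_right _ _)))
  have hpg : ‖p‖ < δg / L := hpδ.trans_le ((min_le_right _ _).trans (min_le_right _ _))
  have hpn0 : 0 ≤ ‖p‖ := norm_nonneg _
  -- estimates
  have hAp : ‖A p‖ ≤ L * ‖p‖ := by
    have h1 := hco.lipA p (mem_ball_zero_iff.2 hpρ) 0 (mem_ball_self hco.hρ)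
    rwa [hco.A0, sub_zero, sub_zero] at h1
  have hApδ : ‖A p‖ < δg := by
    refine hAp.trans_lt ?_
    rw [lt_div_iff₀ hL0] at hpg
    linarith
  have e1 : ‖g (A p) - form κ c' X' (A p)‖ ≤ Cg * L ^ (k + 1) * ‖p‖ ^ (k + 1) := by
    refine (bg (A p) hApδ).trans ?_
    rw [mul_assoc, ← mul_pow]
    exact mul_le_mul_of_nonneg_left (pow_le_pow_left₀ (norm_nonneg _) hAp _) hCg.le
  have e2 : ‖f p - g (A p)‖ ≤ L * Cd ^ 2 * ‖p‖ ^ (k + 1) := by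
    refine (hco.fA p (mem_ball_zero_iff.2 hpρ)).trans ?_
    rw [mul_assoc]
    refine mul_le_mul_of_nonneg_left ?_ hL0.le
    have h1 := bd p hpd
    have h2 : ‖fderiv ℂ f p‖ ^ 2 ≤ (Cd * ‖p‖ ^ (k - 1)) ^ 2 :=
      pow_le_pow_left₀ (norm_nonneg _) h1 2
    refine h2.trans ?_
    rw [mul_pow, ← pow_mul]
    refine mul_le_mul_of_nonneg_left ?_ (by positivity)
    exact pow_le_pow_of_le_one hpn0 hp1.le (by omega)
  have e3 : ‖f p - form κ c X p‖ ≤ Cf * ‖p‖ ^ (k + 1) := bf p hpf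
  have e4 : ‖form κ c' X' (A p) - form κ c X p‖ ≤ C1 * ‖p‖ ^ (k + 1) := by
    have h1 : form κ c' X' (A p) - form κ c X p =
        -(g (A p) - form κ c' X' (A p)) + (-(f p - g (A p)) + (f p - form κ c X p)) := by ring
    rw [h1]
    refine (norm_add_le _ _).trans ?_
    have h2 := norm_add_le (-(f p - g (A p))) (f p - form κ c X p)
    rw [norm_neg] at h2 ⊢
    rw [hC1]
    linarith
  have e5 : ‖form κ c' X' (A p) - form κ c X p‖ ≤ C2 * ‖y‖ ^ (k + 1) := by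
    refine e4.trans ?_
    rw [hC2, mul_assoc, ← mul_pow]
    exact mul_le_mul_of_nonneg_left (pow_le_pow_left₀ hpn0 hpn _) hC1p.le
  -- the denominator
  have hq : cK ^ d * ‖y‖ ^ k ≤ ‖form κ0 1 X p‖ ^ d := by
    rw [hp, form_hom, norm_mul, norm_pow, mul_pow, ← pow_mul, ← hk0def, ← hkk, mul_comm]
    exact mul_le_mul_of_nonneg_left (pow_le_pow_left₀ hcK.le (hcK' z hz) _) (by positivity)
  have hqpos : 0 < ‖form κ0 1 X p‖ ^ d := lt_of_lt_of_le (by positivity) hq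
  have hqne : form κ0 1 X p ^ d ≠ 0 := by
    rw [← norm_pos_iff, norm_pow]
    exact hqpos
  have hfrm : Rq κ0 X X' A p ^ d - c / c' =
      (form κ c' X' (A p) - form κ c X p) / (c' * form κ0 1 X p ^ d) := by
    unfold Rq
    rw [R7c_pow hκ0 c', R7c_pow hκ0 c, div_pow]
    have := hg.hc
    field_simp
  rw [hfrm, norm_div, norm_mul, norm_pow, div_le_iff₀ (by positivity)]
  refine e5.trans ?_
  have h3 : η * (‖c'‖ * (cK ^ d * ‖y‖ ^ k)) ≤ η * (‖c'‖ * ‖form κ0 1 X p‖ ^ d) := by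
    gcongr
  refine le_trans ?_ h3
  rw [lt_div_iff₀ hC2p] at hy2
  have h4 : C2 * ‖y‖ ^ (k + 1) = (‖y‖ * C2) * ‖y‖ ^ k := by ring
  have h5 : η * (‖c'‖ * (cK ^ d * ‖y‖ ^ k)) = (η * (‖c'‖ * cK ^ d)) * ‖y‖ ^ k := by ring
  rw [h4, h5]
  exact mul_le_mul_of_nonneg_right hy2.le (by positivity)

end H24.LS
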