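import Pool.Agent.H24.LS.R7a
import Pool.Agent.H24.LS.R7b
import Pool.Agent.H24.LS.R7c

/-!
# R7d: the numbers of two multiple lines are equal

* `ratio_eq`.  It suffices: `‖rnum i - rnum j‖ ≤ 3 ε` for every `ε > 0`.  `ratio_near` for `i` and `j` with `ε`: `δ1, δ1'`.  Choose `s` with
  `0 < ‖s‖ ≤ δ1`, `X i + s ∉ range X` (`‖s‖` smaller than all `‖X l - X i‖`, `l ≠ i`), `s'` similarly for `j`.  By
  `Set.Countable.isPathConnected_compl_of_one_lt_rank` (as in T9, `T9_const`) there is a path in `(range X)ᶜ` from `X i + s` to `X j + s'`; let `K` be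
  its image (compact, preconnected).  `root_const` (for `w = c/c' ≠ 0`) with `ε` gives `η`; `ratio_pow` with `K, η` gives `δ`; `ratio_near` gives
  `δ3, δ3'`.  Take `y ≠ 0` with `‖y‖ < min δ δ3 δ3' (ρ/(M+1)) ...`.  `R z = Rq κ0 X X' A (z y, y)` is continuous on `K`
  (`A` is continuous on `ball 0 ρ` by `lipA`, the denominator is not `0`).  So `‖R (X i + s) - R (X j + s')‖ ≤ ε`.
-/

open Filter Topology Metric

namespace H24.LS

theorem R7d_off {r : ℕ} (X : Fin r → ℂ) (j : Fin r) {δ : ℝ} (hδ : 0 < δ) :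
    ∃ s : ℂ, 0 < ‖s‖ ∧ ‖s‖ ≤ δ ∧ X j + s ∉ Set.range X := by
  have hinj : ∀ᶠ s in 𝓝[≠] (0 : ℂ), X j + s ∉ Set.range X := by
    have h1 : (Set.range X \ {X j})ᶜ ∈ 𝓝 (X j) :=
      ((Set.finite_range X).sdiff).isClosed.isOpen_compl.mem_nhds (by simp)
    have h2 : Tendsto (fun s : ℂ => X j + s) (𝓝[≠] 0) (𝓝 (X j)) := by
      have : Tendsto (fun s : ℂ => X j + s) (𝓝 0) (𝓝 (X j + 0)) :=
        (continuous_const.add continuous_id).tendsto 0
      rw [add_zero] at this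
      exact this.mono_left nhdsWithin_le_nhds
    filter_upwards [h2 h1, self_mem_nhdsWithin] with s hs hs0 hs1
    refine hs ⟨hs1, fun h3 => hs0 ?_⟩
    simpa using h3
  have h1 : ∀ᶠ s in 𝓝[≠] (0 : ℂ), s ∈ ball (0 : ℂ) δ :=
    nhdsWithin_le_nhds (ball_mem_nhds _ hδ)
  have h2 : ∀ᶠ s in 𝓝[≠] (0 : ℂ), s ∈ ({0}ᶜ : Set ℂ) := self_mem_nhdsWithin
  obtain ⟨s, hs1, hs2, hs3⟩ := (hinj.and (h1.and h2)).exists
  exact ⟨s, norm_pos_iff.2 hs3, (mem_ball_zero_iff.1 hs2).le, hs1⟩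

theorem R7d_cont {r : ℕ} {κ0 : Fin r → ℕ} {X X' : Fin r → ℂ} {A : ℂ × ℂ → ℂ × ℂ} {L ρ : ℝ}
    (hL : 0 ≤ L)
    (hlip : ∀ p ∈ ball (0 : ℂ × ℂ) ρ, ∀ q ∈ ball (0 : ℂ × ℂ) ρ, ‖A p - A q‖ ≤ L * ‖p - q‖)
    (K : Set ℂ) (hKX : ∀ z ∈ K, ∀ j, z ≠ X j) {y : ℂ} (hy : y ≠ 0)
    (hmem : ∀ z ∈ K, ((z * y, y) : ℂ × ℂ) ∈ ball (0 : ℂ × ℂ) ρ) :
    ContinuousOn (fun z => Rq κ0 X X' A (z * y, y)) K := by
  have hA : ContinuousOn A (ball (0 : ℂ × ℂ) ρ) := by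
    have h1 : LipschitzOnWith (Real.toNNReal L) A (ball (0 : ℂ × ℂ) ρ) := by
      refine LipschitzOnWith.of_dist_le_mul fun p hp q hq => ?_
      rw [dist_eq_norm, dist_eq_norm, Real.coe_toNNReal _ hL]
      exact hlip p hp q hq
    exact h1.continuousOn
  have hcq : ∀ (X : Fin r → ℂ), Continuous (form κ0 1 X) := by
    intro X
    unfold form
    fun_prop
  have hin : Continuous fun z : ℂ => ((z * y, y) : ℂ × ℂ) := by fun_prop
  unfold Rq
  refine ContinuousOn.div ?_ ?_ ?_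
  · exact (hcq X').comp_continuousOn (hA.comp hin.continuousOn hmem)
  · exact ((hcq X).comp hin).continuousOn
  · intro z hz
    unfold form
    rw [one_mul]
    refine Finset.prod_ne_zero_iff.2 fun j _ => pow_ne_zero _ ?_
    show z * y - X j * y ≠ 0
    rw [← sub_mul]
    exact mul_ne_zero (sub_ne_zero.2 (hKX z hz j)) hy

theorem ratio_eq {r : ℕ} {κ κ0 : Fin r → ℕ} {d : ℕ} (hd : 0 < d) (hκ0 : ∀ j, κ j = d * κ0 j)
    {c c' : ℂ} {X X' : Fin r → ℂ} {f g : ℂ × ℂ → ℂ} (hf : NForm κ c X f) (hg : NForm κ c' X' g)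
    (hk : 3 ≤ ∑ j, κ j) {A B : ℂ × ℂ → ℂ × ℂ} {L ρ : ℝ} (hco : Coarse f g A B L ρ)
    (i j : Fin r) {α ω α' ω' : ℂ} (h1 : Root1 A (X i) (X' i) α) (h2 : Root2 A (X i) ω)
    (h1' : Root1 A (X j) (X' j) α') (h2' : Root2 A (X j) ω') :
    rnum κ0 X X' i α ω = rnum κ0 X X' j α' ω' := by
  have hκ1 : ∀ l, 1 ≤ κ0 l := by
    intro l
    have h3 := hf.hκ l
    rw [hκ0 l] at h3
    rcases Nat.eq_zero_or_pos (κ0 l) with h | h
    · rw [h, mul_zero] at h3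
      omega
    · exact h
  have key : ∀ ε > (0 : ℝ), ‖rnum κ0 X X' i α ω - rnum κ0 X X' j α' ω'‖ ≤ 3 * ε := by
    intro ε hε
    obtain ⟨δ1, hδ1, hn⟩ := ratio_near κ0 (X' := X') hf.hX i (hκ1 i) h1 h2 ε hε
    obtain ⟨δ1', hδ1', hn'⟩ := ratio_near κ0 (X' := X') hf.hX j (hκ1 j) h1' h2' ε hε
    obtain ⟨s, hs0, hs1, hs⟩ := R7d_off X i hδ1
    obtain ⟨s', hs0', hs1', hs'⟩ := R7d_off X j hδ1'
    obtain ⟨δ3, hδ3, hnn⟩ := hn s hs0 hs1
    obtain ⟨δ3', hδ3', hnn'⟩ := hn' s' hs0' hs1'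
    have hconn : IsPathConnected (Set.range X)ᶜ :=
      (Set.finite_range X).countable.isPathConnected_compl_of_one_lt_rank (by
        rw [Complex.rank_real_complex]; norm_num)
    have hj : JoinedIn (Set.range X)ᶜ (X i + s) (X j + s') := hconn.joinedIn _ hs _ hs'
    obtain ⟨γ, hγ⟩ : ∃ γ : Path (X i + s) (X j + s'), ∀ t, γ t ∈ (Set.range X)ᶜ :=
      ⟨hj.somePath, hj.somePath_mem⟩
    have hK : IsCompact (Set.range γ) := isCompact_range γ.continuous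
    have hKc : IsPreconnected (Set.range γ) := isPreconnected_range γ.continuous
    have hKX : ∀ z ∈ Set.range γ, ∀ l, z ≠ X l := by
      rintro z ⟨t, rfl⟩ l h
      exact hγ t ⟨l, h.symm⟩
    obtain ⟨η, hη, hroot⟩ := root_const hd (c / c') (div_ne_zero hf.hc hg.hc) ε hε
    obtain ⟨δ, hδ, hpow⟩ := ratio_pow hd hκ0 hf hg hk hco (Set.range γ) hK hKX η hη
    obtain ⟨M, hM⟩ := hK.exists_bound_of_continuousOn (f := fun z : ℂ => z) continuousOn_id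
    obtain ⟨M', hM'⟩ : ∃ M' : ℝ, M' = max M 1 := ⟨_, rfl⟩
    have hM1 : 1 ≤ M' := by rw [hM']; exact le_max_right _ _
    have hMM : M ≤ M' := by rw [hM']; exact le_max_left _ _
    have hρ := hco.hρ
    obtain ⟨t, ht⟩ : ∃ t : ℝ, t = min (min δ δ3) (min δ3' (ρ / M')) / 2 := ⟨_, rfl⟩
    have hm0 : 0 < min (min δ δ3) (min δ3' (ρ / M')) :=
      lt_min (lt_min hδ hδ3) (lt_min hδ3' (by positivity))
    have ht0 : 0 < t := by rw [ht]; linarith
    have htm : t < min (min δ δ3) (min δ3' (ρ / M')) := by rw [ht]; linarith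
    have ht1 : t < δ := htm.trans_le ((min_le_left _ _).trans (min_le_left _ _))
    have ht2 : t < δ3 := htm.trans_le ((min_le_left _ _).trans (min_le_right _ _))
    have ht3 : t < δ3' := htm.trans_le ((min_le_right _ _).trans (min_le_left _ _))
    have ht4 : t < ρ / M' := htm.trans_le ((min_le_right _ _).trans (min_le_right _ _))
    rw [lt_div_iff₀ (by linarith)] at ht4
    have hyn : ‖(t : ℂ)‖ = t := by rw [Complex.norm_real, Real.norm_of_nonneg ht0.le]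
    have hy0 : 0 < ‖(t : ℂ)‖ := by rw [hyn]; exact ht0
    have hyne : (t : ℂ) ≠ 0 := norm_pos_iff.1 hy0
    have hmem : ∀ z ∈ Set.range γ, ((z * (t : ℂ), (t : ℂ)) : ℂ × ℂ) ∈ ball (0 : ℂ × ℂ) ρ := by
      intro z hz
      rw [mem_ball_zero_iff, Prod.norm_def]
      refine max_lt ?_ ?_
      · show ‖z * (t : ℂ)‖ < ρ
        rw [norm_mul, hyn]
        have h3 : ‖z‖ ≤ M' := (hM z hz).trans hMM
        nlinarith
      · show ‖(t : ℂ)‖ < ρ
        rw [hyn]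
        nlinarith
    have hcont := R7d_cont (κ0 := κ0) (X' := X') (by linarith [hco.hL]) hco.lipA (Set.range γ) hKX
      hyne hmem
    have h3 := hroot (Set.range γ) _ hKc hcont
      (fun z hz => hpow z hz (t : ℂ) hy0 (by rw [hyn]; exact ht1))
      (X i + s) ⟨0, γ.source⟩ (X j + s') ⟨1, γ.target⟩
    have h4 := hnn (t : ℂ) hy0 (by rw [hyn]; exact ht2)
    have h5 := hnn' (t : ℂ) hy0 (by rw [hyn]; exact ht3)
    obtain ⟨R1, hR1⟩ : ∃ R1, R1 = Rq κ0 X X' A ((X i + s) * (t : ℂ), (t : ℂ)) := ⟨_, rfl⟩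
    obtain ⟨R2, hR2⟩ : ∃ R2, R2 = Rq κ0 X X' A ((X j + s') * (t : ℂ), (t : ℂ)) := ⟨_, rfl⟩
    rw [← hR1, ← hR2] at h3
    rw [← hR1] at h4
    rw [← hR2] at h5
    have e1 : rnum κ0 X X' i α ω - rnum κ0 X X' j α' ω'
        = -(R1 - rnum κ0 X X' i α ω) + (R1 - R2) + (R2 - rnum κ0 X X' j α' ω') := by ring
    rw [e1]
    have h6 := norm_add_le (-(R1 - rnum κ0 X X' i α ω) + (R1 - R2)) (R2 - rnum κ0 X X' j α' ω')
    have h7 := norm_add_le (-(R1 - rnum κ0 X X' i α ω)) (R1 - R2)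
    rw [norm_neg] at h7
    linarith
  by_contra hne
  have h3 : 0 < ‖rnum κ0 X X' i α ω - rnum κ0 X X' j α' ω'‖ := norm_pos_iff.2 (sub_ne_zero.2 hne)
  have h4 := key (‖rnum κ0 X X' i α ω - rnum κ0 X X' j α' ω'‖ / 6) (by linarith)
  linarith

end H24.LS
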