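import Pool.Agent.H24.LS.R7

/-!
# R7e: the number of a multiple line is a `d`-th root of `c / c'`

* `rnum_pow`: `κ j = d κ0 j`, so dividing the relation by `κ j` (`≠ 0`) and using `∏ (..)^(d κ0 i) = (∏ (..)^κ0 i)^d`,
  `k - κ j = d (k0 - κ0 j)`: `c' (α^κ0 j ω^(k0 - κ0 j) ∏')^d = c (∏)^d`.
-/

open Filter Topology Metric

namespace H24.LS

theorem rnum_pow {r : ℕ} {κ κ0 : Fin r → ℕ} {d : ℕ} (hd : 0 < d) (hκ0 : ∀ j, κ j = d * κ0 j)
    {c c' : ℂ} (hc' : c' ≠ 0) {X X' : Fin r → ℂ} (hX : Function.Injective X) (j : Fin r)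
    (hj : 1 ≤ κ j) {α ω : ℂ}
    (hrel : α ^ κ j * ω ^ (∑ i, κ i - κ j) *
        (κ j * c' * ∏ i ∈ Finset.univ.erase j, (X' j - X' i) ^ κ i) =
        κ j * c * ∏ i ∈ Finset.univ.erase j, (X j - X i) ^ κ i) :
    rnum κ0 X X' j α ω ^ d = c / c' := by
  have hk : (κ j : ℂ) ≠ 0 := by
    have : κ j ≠ 0 := by omega
    exact_mod_cast this
  have hP : ∏ l ∈ Finset.univ.erase j, (X j - X l) ^ κ0 l ≠ 0 := by
    refine Finset.prod_ne_zero_iff.2 fun l hl => pow_ne_zero _ ?_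
    rw [sub_ne_zero]
    intro h
    exact Finset.ne_of_mem_erase hl (hX h.symm)
  have h1 : ∀ Y : Fin r → ℂ, ∏ i ∈ Finset.univ.erase j, (Y j - Y i) ^ κ i =
      (∏ i ∈ Finset.univ.erase j, (Y j - Y i) ^ κ0 i) ^ d := by
    intro Y
    rw [← Finset.prod_pow]
    refine Finset.prod_congr rfl fun i _ => ?_
    rw [hκ0 i, mul_comm d, pow_mul]
  have h2 : ∑ i, κ i - κ j = (∑ i, κ0 i - κ0 j) * d := by
    rw [hκ0 j, Finset.sum_congr rfl fun i _ => hκ0 i, ← Finset.mul_sum, ← Nat.mul_sub, mul_comm]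
  have h3 : α ^ κ j = (α ^ κ0 j) ^ d := by rw [hκ0 j, mul_comm d, pow_mul]
  rw [h1 X, h1 X', h2, pow_mul, h3] at hrel
  unfold rnum
  rw [div_pow, div_eq_div_iff (pow_ne_zero _ hP) hc', mul_pow, mul_pow]
  have h4 : (κ j : ℂ) * ((α ^ κ0 j) ^ d * (ω ^ (∑ i, κ0 i - κ0 j)) ^ d *
      (∏ i ∈ Finset.univ.erase j, (X' j - X' i) ^ κ0 i) ^ d * c') =
      (κ j : ℂ) * (c * (∏ i ∈ Finset.univ.erase j, (X j - X i) ^ κ0 i) ^ d) := by
    linear_combination hrel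
  exact mul_left_cancel₀ hk h4

end H24.LS
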