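import Pool.Agent.H24.LS.Base

/-!
# T1: composition, inversion and scaling of marked equivalences of binary forms

* `mor_comp`: compose `φ' ∘ φ`, `ψ ∘ ψ'`.  Near line `j`: with `X = x/y`, `x̂ = x - X_j y`, the point
  `(x', y') = φ (x,y) = (u (X'_j y + β_j x̂), u y)` has `x' - X'_j y' = u β_j x̂`, `y' = u y ≠ 0`
  (`u(X) ≠ 0` near `X_j`, shrink `δ`), `x'/y' = X'_j + β_j (X - X_j)`; so
  `φ' (x',y') = (u'(x'/y') u (X''_j y + β'_j β_j x̂), u'(x'/y') u y)`; the new `u''` is
  `u''(X) = u(X) u'(X'_j + β_j (X - X_j))`, differentiable on a small ball, value `ω_j ω'_j`.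
  Smoothness: `φ p ≠ 0` for `p ≠ 0` (`φ` is injective and `φ 0 = 0`).
* `mor_inv`: exchange `φ, ψ`.  Near line `j`: given `(x',y')`, `y' ≠ 0`, `‖x' - X'_j y'‖ < δ' ‖y'‖`, put
  `X = X_j + β_j⁻¹ (x'/y' - X'_j)`, `y = y'/u(X)`, `x = X y`; then `φ (x,y) = (x',y')`, so
  `ψ (x',y') = (x,y) = (u(X)⁻¹ (X_j y' + β_j⁻¹ (x' - X'_j y')), u(X)⁻¹ y')`.
* `mor_scal`: `φ p = lam • p`.
-/

open Filter Topology Metric

namespace H24.LS

/-- a smaller radius on which the unit does not vanish -/
theorem T1_shrink {u : ℂ → ℂ} {a : ℂ} {δ M : ℝ} (hδ : 0 < δ)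
    (hu : DifferentiableOn ℂ u (ball a δ)) (h0 : u a ≠ 0) (hM : 0 < M) :
    ∃ δ1 > 0, δ1 ≤ δ ∧ δ1 ≤ M ∧ ∀ z ∈ ball a δ1, u z ≠ 0 := by
  have hc : ContinuousAt u a :=
    (hu.differentiableAt (ball_mem_nhds a hδ)).continuousAt
  obtain ⟨e, he, hs⟩ := Metric.eventually_nhds_iff_ball.mp (hc.eventually_ne h0)
  refine ⟨min (min δ M) e, lt_min (lt_min hδ hM) he, ?_, ?_, ?_⟩
  · exact (min_le_left _ _).trans (min_le_left _ _)
  · exact (min_le_left _ _).trans (min_le_right _ _)
  · intro z hz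
    exact hs z (ball_subset_ball (min_le_right _ _) hz)

theorem T1_ne {r : ℕ} {κ : Fin r → ℕ} {c c' : ℂ} {X X' β ω : Fin r → ℂ}
    {φ ψ : ℂ × ℂ → ℂ × ℂ} (h : IsMor κ c c' X X' β ω φ ψ) {p : ℂ × ℂ} (hp : p ≠ 0) :
    φ p ≠ 0 := by
  intro h0
  apply hp
  have h1 := h.left p
  rw [h0] at h1
  have h2 := h.hom' 0 0
  rw [zero_smul, zero_smul] at h2
  rw [← h1, h2]

theorem T1_symm {r : ℕ} {κ : Fin r → ℕ} {c c' : ℂ} {X X' β ω : Fin r → ℂ}
    {φ ψ : ℂ × ℂ → ℂ × ℂ} (h : IsMor κ c c' X X' β ω φ ψ) :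
    IsMor κ c' c X' X (fun j => (β j)⁻¹) (fun j => (ω j)⁻¹) ψ φ where
  hom := h.hom'
  hom' := h.hom
  left := h.right
  right := h.left
  smooth := h.smooth'
  smooth' := h.smooth
  eqf := by
    intro p
    rw [h.eqf (ψ p), h.right p]
  hβ := fun j => inv_ne_zero (h.hβ j)
  hω := fun j => inv_ne_zero (h.hω j)
  near := by
    intro j
    obtain ⟨δ, hδ, u, hu, huj, hφ⟩ := h.near j
    have hβ := h.hβ j
    have hβn : 0 < ‖β j‖ := norm_pos_iff.mpr hβ
    obtain ⟨δ1, hδ1, h1δ, -, hne⟩ := T1_shrink hδ hu (by rw [huj]; exact h.hω j) one_pos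
    refine ⟨δ1 * ‖β j‖, mul_pos hδ1 hβn, fun Z => (u (X j + (β j)⁻¹ * (Z - X' j)))⁻¹,
      ?_, ?_, ?_⟩
    · have hmap : ∀ Z ∈ ball (X' j) (δ1 * ‖β j‖),
          X j + (β j)⁻¹ * (Z - X' j) ∈ ball (X j) δ1 := by
        intro Z hZ
        rw [mem_ball, dist_eq_norm] at hZ ⊢
        rw [add_sub_cancel_left, norm_mul, norm_inv, inv_mul_lt_iff₀ hβn, mul_comm]
        exact hZ
      apply DifferentiableOn.inv
      · apply DifferentiableOn.comp (t := ball (X j) δ1) (g := u)
        · exact hu.mono (ball_subset_ball h1δ)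
        · fun_prop
        · exact hmap
      · intro Z hZ
        exact hne _ (hmap Z hZ)
    · simp [huj]
    · intro x y hy hxy
      have hyn : 0 < ‖y‖ := norm_pos_iff.mpr hy
      set Z := X j + (β j)⁻¹ * (x / y - X' j) with hZ
      have hZb : Z ∈ ball (X j) δ1 := by
        rw [mem_ball, dist_eq_norm, hZ, add_sub_cancel_left, norm_mul, norm_inv,
          inv_mul_lt_iff₀ hβn]
        have e1 : x / y - X' j = (x - X' j * y) / y := by field_simp
        rw [e1, norm_div, div_lt_iff₀ hyn]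
        calc ‖x - X' j * y‖ < δ1 * ‖β j‖ * ‖y‖ := hxy
          _ = ‖β j‖ * δ1 * ‖y‖ := by ring
      have huZ : u Z ≠ 0 := hne Z hZb
      set t := y / u Z with ht
      have ht0 : t ≠ 0 := div_ne_zero hy huZ
      have htn : 0 < ‖t‖ := norm_pos_iff.mpr ht0
      have hk : φ (Z * t, t) = (x, y) := by
        have h2 : ‖Z * t - X j * t‖ < δ * ‖t‖ := by
          rw [← sub_mul, norm_mul]
          apply mul_lt_mul_of_pos_right _ htn
          rw [mem_ball, dist_eq_norm] at hZb
          exact hZb.trans_le h1δ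
        rw [hφ (Z * t) t ht0 h2]
        have e2 : Z * t / t = Z := by field_simp
        rw [e2]
        have e3 : β j * (Z - X j) = x / y - X' j := by
          rw [hZ, add_sub_cancel_left, ← mul_assoc, mul_inv_cancel₀ hβ, one_mul]
        have e4 : u Z * t = y := by rw [ht]; field_simp
        have e5 : u Z * (X' j * t + β j * (Z * t - X j * t)) = x := by
          calc u Z * (X' j * t + β j * (Z * t - X j * t))
              = (X' j + β j * (Z - X j)) * (u Z * t) := by ring
            _ = x := by rw [e3, e4]; field_simp; ring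
        rw [e5, e4]
      have hk2 : ψ (x, y) = (Z * t, t) := by rw [← hk, h.left]
      rw [hk2]
      have e6 : t = (u Z)⁻¹ * y := by rw [ht]; field_simp
      refine Prod.ext ?_ ?_
      · simp only
        have e7 : Z * y = X j * y + (β j)⁻¹ * (x - X' j * y) := by
          rw [hZ]; field_simp
        calc Z * t = (u Z)⁻¹ * (Z * y) := by rw [e6]; ring
          _ = _ := by rw [e7]
      · exact e6

theorem mor_comp {r : ℕ} {κ : Fin r → ℕ} {c c' c'' : ℂ} {X X' X'' β ω β' ω' : Fin r → ℂ}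
    (h : Mor κ c c' X X' β ω) (h' : Mor κ c' c'' X' X'' β' ω') :
    Mor κ c c'' X X'' (fun j => β j * β' j) (fun j => ω j * ω' j) := by
  obtain ⟨φ, ψ, h⟩ := h
  obtain ⟨φ', ψ', h'⟩ := h'
  refine ⟨φ' ∘ φ, ψ ∘ ψ', ?_⟩
  exact
  { hom := by
      intro a p
      simp only [Function.comp_apply]
      rw [h.hom, h'.hom]
    hom' := by
      intro a p
      simp only [Function.comp_apply]
      rw [h'.hom', h.hom']
    left := by
      intro p
      simp only [Function.comp_apply]
      rw [h'.left, h.left]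
    right := by
      intro p
      simp only [Function.comp_apply]
      rw [h.right, h'.right]
    smooth := fun p hp => (h'.smooth (φ p) (T1_ne h hp)).comp p (h.smooth p hp)
    smooth' := fun p hp => (h.smooth' (ψ' p) (T1_ne (T1_symm h') hp)).comp p (h'.smooth' p hp)
    eqf := by
      intro p
      rw [h.eqf, h'.eqf]; rfl
    hβ := fun j => mul_ne_zero (h.hβ j) (h'.hβ j)
    hω := fun j => mul_ne_zero (h.hω j) (h'.hω j)
    near := by
      intro j
      obtain ⟨δ, hδ, u, hu, huj, hφ⟩ := h.near j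
      obtain ⟨δ', hδ', u', hu', huj', hφ'⟩ := h'.near j
      have hβ := h.hβ j
      have hβn : 0 < ‖β j‖ := norm_pos_iff.mpr hβ
      obtain ⟨δ1, hδ1, h1δ, h1M, hne⟩ := T1_shrink (M := δ' / ‖β j‖) hδ hu
        (by rw [huj]; exact h.hω j) (div_pos hδ' hβn)
      have hβδ : ‖β j‖ * δ1 ≤ δ' := by
        rw [le_div_iff₀ hβn] at h1M
        linarith [mul_comm ‖β j‖ δ1]
      refine ⟨δ1, hδ1, fun Z => u Z * u' (X' j + β j * (Z - X j)), ?_, ?_, ?_⟩
      · apply DifferentiableOn.mul
        · exact hu.mono (ball_subset_ball h1δ)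
        · apply DifferentiableOn.comp (t := ball (X' j) δ') (g := u')
          · exact hu'
          · fun_prop
          · intro Z hZ
            rw [mem_ball, dist_eq_norm] at hZ ⊢
            rw [add_sub_cancel_left, norm_mul]
            exact (mul_lt_mul_of_pos_left hZ hβn).trans_le hβδ
      · simp [huj, huj']
      · intro x y hy hxy
        have hyn : 0 < ‖y‖ := norm_pos_iff.mpr hy
        have hxy1 : ‖x - X j * y‖ < δ * ‖y‖ :=
          hxy.trans_le (mul_le_mul_of_nonneg_right h1δ hyn.le)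
        have hZb : x / y ∈ ball (X j) δ1 := by
          rw [mem_ball, dist_eq_norm]
          have e1 : x / y - X j = (x - X j * y) / y := by field_simp
          rw [e1, norm_div, div_lt_iff₀ hyn]
          exact hxy
        have huZ : u (x / y) ≠ 0 := hne _ hZb
        have hun : 0 < ‖u (x / y)‖ := norm_pos_iff.mpr huZ
        simp only [Function.comp_apply]
        rw [hφ x y hy hxy1]
        set U := u (x / y) with hU
        have hy' : U * y ≠ 0 := mul_ne_zero huZ hy
        have hlt : ‖U * (X' j * y + β j * (x - X j * y)) - X' j * (U * y)‖ < δ' * ‖U * y‖ := by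
          have e2 : U * (X' j * y + β j * (x - X j * y)) - X' j * (U * y)
              = U * (β j * (x - X j * y)) := by ring
          rw [e2, norm_mul, norm_mul, norm_mul]
          calc ‖U‖ * (‖β j‖ * ‖x - X j * y‖) < ‖U‖ * (‖β j‖ * (δ1 * ‖y‖)) :=
                mul_lt_mul_of_pos_left (mul_lt_mul_of_pos_left hxy hβn) hun
            _ = (‖β j‖ * δ1) * (‖U‖ * ‖y‖) := by ring
            _ ≤ δ' * (‖U‖ * ‖y‖) := mul_le_mul_of_nonneg_right hβδ (by positivity)
        rw [hφ' _ _ hy' hlt]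
        have e3 : U * (X' j * y + β j * (x - X j * y)) / (U * y)
            = X' j + β j * (x / y - X j) := by
          rw [mul_div_mul_left _ _ huZ]
          field_simp
        rw [e3]
        refine Prod.ext ?_ ?_
        · simp only; ring
        · simp only; ring }

theorem mor_inv {r : ℕ} {κ : Fin r → ℕ} {c c' : ℂ} {X X' β ω : Fin r → ℂ}
    (h : Mor κ c c' X X' β ω) :
    Mor κ c' c X' X (fun j => (β j)⁻¹) (fun j => (ω j)⁻¹) := by
  obtain ⟨φ, ψ, h⟩ := h
  exact ⟨ψ, φ, T1_symm h⟩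

theorem mor_scal {r : ℕ} (κ : Fin r → ℕ) (c : ℂ) (X : Fin r → ℂ) (lam : ℂ) (hl : lam ≠ 0) :
    Mor κ c (c / lam ^ (∑ j, κ j)) X X (fun _ => 1) (fun _ => lam) := by
  refine ⟨fun p => lam • p, fun p => lam⁻¹ • p, ?_⟩
  exact
  { hom := fun a p => smul_comm _ _ _
    hom' := fun a p => smul_comm _ _ _
    left := fun p => by rw [smul_smul, inv_mul_cancel₀ hl, one_smul]
    right := fun p => by rw [smul_smul, mul_inv_cancel₀ hl, one_smul]
    smooth := fun p _ => by
      have : ContDiff ℝ 1 (fun p : ℂ × ℂ => lam • p) := by fun_prop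
      exact this.contDiffAt
    smooth' := fun p _ => by
      have : ContDiff ℝ 1 (fun p : ℂ × ℂ => lam⁻¹ • p) := by fun_prop
      exact this.contDiffAt
    eqf := by
      intro p
      unfold form
      simp only [Prod.smul_fst, Prod.smul_snd, smul_eq_mul]
      have : ∀ j, (lam * p.1 - X j * (lam * p.2)) ^ κ j
          = lam ^ κ j * (p.1 - X j * p.2) ^ κ j := by
        intro j
        rw [← mul_pow]; congr 1; ring
      simp_rw [this]
      rw [Finset.prod_mul_distrib, Finset.prod_pow_eq_pow_sum]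
      have hl' : lam ^ (∑ j, κ j) ≠ 0 := pow_ne_zero _ hl
      rw [← mul_assoc, div_mul_cancel₀ _ hl']
    hβ := fun _ => one_ne_zero
    hω := fun _ => hl
    near := by
      intro j
      refine ⟨1, one_pos, fun _ => lam, by fun_prop, rfl, ?_⟩
      intro x y _ _
      refine Prod.ext ?_ ?_
      · simp only [Prod.smul_mk, smul_eq_mul]; ring
      · simp only [Prod.smul_mk, smul_eq_mul] }

end H24.LS
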