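import Pool.Agent.H24.LS.Base

/-!
# T2: a marked equivalence from a planar diffeomorphism and a root function

Given a `C^1` diffeomorphism `h` of `ℂ` (identity near infinity, affine near the `X_j`) and a
nowhere zero `C^1` function `u` with `c ∏ (z - X_j)^{κ_j} = c' u(z)^k ∏ (h z - X'_j)^{κ_j}`, define
`φ (x, y) = (u(x/y) * (y * h(x/y)), u(x/y) * y)` for `y ≠ 0` and `φ (x, 0) = (U 0 * x, 0)`.

Inverse: `ψ (x', y') = (X y, y)` with `X = hinv (x'/y')`, `y = y' / u X` for `y' ≠ 0`, and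
`ψ (x', 0) = (x' / U 0, 0)`.
* homogeneity: clear (case `a = 0` separately: all values are `0`; note `φ (0,0) = (0,0)`).
* smoothness of `φ` at `(x,y)`, `y ≠ 0`: composition of `C^1` functions.  At `(x,0)`, `x ≠ 0`: in the
  neighbourhood `{‖y‖ R0 < ‖x‖}` we have `φ (x,y) = U (y/x) • (x, y)` for ALL such `(x,y)`
  (for `y ≠ 0`: `‖x/y‖ > R0`, `h (x/y) = x/y`, `u (x/y) = U ((x/y)⁻¹)`), and `U` is holomorphic.
* smoothness of `ψ`: same, with `hinv z = z` for large `z`, and near `y' = 0`: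
  `ψ (x',y') = (U (y'/x'))⁻¹ • (x',y')`; `U ≠ 0` on the ball since `U (z⁻¹) = u z ≠ 0` and `U 0 ≠ 0`.
* `eqf`: for `y ≠ 0` multiply the hypothesis `heq` at `z = x/y` by `y^k`; for `y = 0` let
  `z → ∞` in `heq` (or by continuity of both sides in `y`): `c x^k = c' (U 0)^k x^k`.
* `near`: directly, with the same `u`, `δ` (for `y ≠ 0`, `‖x - X_j y‖ < δ ‖y‖` iff
  `x/y ∈ ball (X_j) δ`).
-/

open Filter Topology Metric

namespace H24.LS

namespace T2aux

/-- the map `φ` -/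
noncomputable def phi (h u U : ℂ → ℂ) (p : ℂ × ℂ) : ℂ × ℂ :=
  if p.2 = 0 then (U 0 * p.1, 0) else (u (p.1 / p.2) * (p.2 * h (p.1 / p.2)), u (p.1 / p.2) * p.2)

/-- the map `ψ` -/
noncomputable def psi (hinv u U : ℂ → ℂ) (p : ℂ × ℂ) : ℂ × ℂ :=
  if p.2 = 0 then (p.1 / U 0, 0)
  else (hinv (p.1 / p.2) * (p.2 / u (hinv (p.1 / p.2))), p.2 / u (hinv (p.1 / p.2)))

lemma cd_div {f g : ℂ × ℂ → ℂ} {p : ℂ × ℂ} (hf : ContDiffAt ℝ 1 f p) (hg : ContDiffAt ℝ 1 g p)
    (h0 : g p ≠ 0) : ContDiffAt ℝ 1 (fun q => f q / g q) p := by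
  have h1 : ContDiffAt ℝ 1 (fun q => (g q)⁻¹) p := hg.inv h0
  simpa [div_eq_mul_inv] using hf.mul h1

lemma cd_fst {p : ℂ × ℂ} : ContDiffAt ℝ 1 (fun q : ℂ × ℂ => q.1) p := contDiffAt_fst
lemma cd_snd {p : ℂ × ℂ} : ContDiffAt ℝ 1 (fun q : ℂ × ℂ => q.2) p := contDiffAt_snd

lemma quot_mem {R0 : ℝ} (hR0 : 0 < R0) {a b : ℂ} (h : ‖b‖ * R0 < ‖a‖) :
    b / a ∈ ball (0 : ℂ) R0⁻¹ := by
  have ha : 0 < ‖a‖ := lt_of_le_of_lt (by positivity) h
  rw [mem_ball_zero_iff, norm_div, div_lt_iff₀ ha, ← div_eq_inv_mul, lt_div_iff₀ hR0]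
  exact h

lemma big_quot {R0 : ℝ} {a b : ℂ} (hb : b ≠ 0) (h : ‖b‖ * R0 < ‖a‖) :
    R0 < ‖a / b‖ := by
  have hb' : 0 < ‖b‖ := norm_pos_iff.mpr hb
  rw [norm_div, lt_div_iff₀ hb']
  linarith [mul_comm ‖b‖ R0]

lemma open_cone (R0 : ℝ) : IsOpen {p : ℂ × ℂ | ‖p.2‖ * R0 < ‖p.1‖} :=
  isOpen_lt (by fun_prop) (by fun_prop)

lemma cd_U {U : ℂ → ℂ} {R0 : ℝ} (hU : DifferentiableOn ℂ U (ball 0 R0⁻¹)) {w : ℂ}
    (hw : w ∈ ball (0 : ℂ) R0⁻¹) : ContDiffAt ℝ 1 U w := by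
  have h1 : AnalyticAt ℂ U w := hU.analyticAt (isOpen_ball.mem_nhds hw)
  have h2 : ContDiffAt ℂ 1 U w := h1.contDiffAt
  exact h2.restrict_scalars ℝ

lemma phi_cone {h u U : ℂ → ℂ} {R0 : ℝ} (hfar : ∀ z, R0 ≤ ‖z‖ → h z = z)
    (hUu : ∀ z, R0 < ‖z‖ → u z = U z⁻¹) {p : ℂ × ℂ} (hp : ‖p.2‖ * R0 < ‖p.1‖) :
    phi h u U p = (U (p.2 / p.1) * p.1, U (p.2 / p.1) * p.2) := by
  unfold phi
  by_cases h2 : p.2 = 0
  · simp [h2]
  · rw [if_neg h2]
    have hb := big_quot h2 hp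
    rw [hfar _ hb.le, hUu _ hb, inv_div, mul_div_cancel₀ _ h2]

lemma psi_cone {hinv u U : ℂ → ℂ} {R0 : ℝ} (hfar' : ∀ z, R0 ≤ ‖z‖ → hinv z = z)
    (hUu : ∀ z, R0 < ‖z‖ → u z = U z⁻¹) {p : ℂ × ℂ} (hp : ‖p.2‖ * R0 < ‖p.1‖) :
    psi hinv u U p = ((U (p.2 / p.1))⁻¹ * p.1, (U (p.2 / p.1))⁻¹ * p.2) := by
  unfold psi
  by_cases h2 : p.2 = 0
  · simp [h2, div_eq_inv_mul]
  · rw [if_neg h2]
    have hb := big_quot h2 hp
    rw [hfar' _ hb.le, hUu _ hb, inv_div]
    ext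
    · simp only
      field_simp
    · simp only
      rw [div_eq_inv_mul]

end T2aux

open T2aux in
theorem mor_of_planar {r : ℕ} (κ : Fin r → ℕ) (c c' : ℂ) (X X' β ω : Fin r → ℂ)
    (h hinv u U : ℂ → ℂ) (R0 : ℝ) (hR0 : 0 < R0)
    (hh : ContDiff ℝ 1 h) (hhi : ContDiff ℝ 1 hinv)
    (left : ∀ z, hinv (h z) = z) (right : ∀ z, h (hinv z) = z)
    (hu : ContDiff ℝ 1 u) (hu0 : ∀ z, u z ≠ 0)
    (hfar : ∀ z, R0 ≤ ‖z‖ → h z = z)
    (hU : DifferentiableOn ℂ U (ball 0 R0⁻¹)) (hU0 : U 0 ≠ 0)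
    (hUu : ∀ z, R0 < ‖z‖ → u z = U z⁻¹)
    (heq : ∀ z, c * ∏ j, (z - X j) ^ κ j = c' * u z ^ (∑ j, κ j) * ∏ j, (h z - X' j) ^ κ j)
    (hnear : ∀ j, ∃ δ > 0, DifferentiableOn ℂ u (ball (X j) δ) ∧ u (X j) = ω j ∧
      ∀ z ∈ ball (X j) δ, h z = X' j + β j * (z - X j))
    (hβ : ∀ j, β j ≠ 0) (hω : ∀ j, ω j ≠ 0) :
    Mor κ c c' X X' β ω := by
  have hfar' : ∀ z, R0 ≤ ‖z‖ → hinv z = z := fun z hz => by
    have := left z
    rwa [hfar z hz] at this
  have hbase : c = c' * U 0 ^ (∑ j, κ j) := by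
    have hF : ContinuousAt (fun w : ℂ => c * ∏ j, (1 - X j * w) ^ κ j) 0 := by fun_prop
    have hUc : ContinuousAt U 0 :=
      (hU.differentiableAt (isOpen_ball.mem_nhds (mem_ball_self (by positivity)))).continuousAt
    have hG : ContinuousAt
        (fun w : ℂ => c' * U w ^ (∑ j, κ j) * ∏ j, (1 - X' j * w) ^ κ j) 0 := by fun_prop
    have hEq : (fun w : ℂ => c * ∏ j, (1 - X j * w) ^ κ j) =ᶠ[𝓝[≠] (0 : ℂ)]
        (fun w : ℂ => c' * U w ^ (∑ j, κ j) * ∏ j, (1 - X' j * w) ^ κ j) := by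
      have hmem : ball (0 : ℂ) R0⁻¹ ∈ 𝓝[≠] (0 : ℂ) :=
        mem_nhdsWithin_of_mem_nhds (ball_mem_nhds _ (by positivity))
      filter_upwards [hmem, self_mem_nhdsWithin] with w hw hw0
      have hw0' : w ≠ 0 := hw0
      have hwn : 0 < ‖w‖ := norm_pos_iff.mpr hw0'
      have hbig : R0 < ‖w⁻¹‖ := by
        rw [norm_inv]
        rw [mem_ball_zero_iff] at hw
        exact (lt_inv_comm₀ hR0 hwn).mpr hw
      have h1 := heq w⁻¹
      rw [hUu _ hbig, hfar _ hbig.le, inv_inv] at h1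
      have e1 : ∀ Y : Fin r → ℂ, ∏ j, (1 - Y j * w) ^ κ j =
          w ^ (∑ j, κ j) * ∏ j, (w⁻¹ - Y j) ^ κ j := by
        intro Y
        rw [← Finset.prod_pow_eq_pow_sum, ← Finset.prod_mul_distrib]
        refine Finset.prod_congr rfl fun j _ => ?_
        rw [← mul_pow]
        congr 1
        rw [mul_sub, mul_inv_cancel₀ hw0', mul_comm (Y j)]
      rw [e1 X, e1 X']
      calc c * (w ^ (∑ j, κ j) * ∏ j, (w⁻¹ - X j) ^ κ j)
          = w ^ (∑ j, κ j) * (c * ∏ j, (w⁻¹ - X j) ^ κ j) := by ring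
        _ = w ^ (∑ j, κ j) * (c' * U w ^ (∑ j, κ j) * ∏ j, (w⁻¹ - X' j) ^ κ j) := by rw [h1]
        _ = c' * U w ^ (∑ j, κ j) * (w ^ (∑ j, κ j) * ∏ j, (w⁻¹ - X' j) ^ κ j) := by ring
    have t1 : Tendsto (fun w : ℂ => c * ∏ j, (1 - X j * w) ^ κ j) (𝓝[≠] 0)
        (𝓝 (c * ∏ j, (1 - X j * (0 : ℂ)) ^ κ j)) := hF.tendsto.mono_left nhdsWithin_le_nhds
    have t2 : Tendsto (fun w : ℂ => c' * U w ^ (∑ j, κ j) * ∏ j, (1 - X' j * w) ^ κ j) (𝓝[≠] 0)
        (𝓝 (c' * U 0 ^ (∑ j, κ j) * ∏ j, (1 - X' j * (0 : ℂ)) ^ κ j)) :=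
      hG.tendsto.mono_left nhdsWithin_le_nhds
    have := tendsto_nhds_unique (t1.congr' hEq) t2
    simpa using this
  refine ⟨phi h u U, psi hinv u U, ?_⟩
  refine ⟨?_, ?_, ?_, ?_, ?_, ?_, ?_, hβ, hω, ?_⟩
  · -- homogeneity of phi
    intro a p
    obtain ⟨x, y⟩ := p
    by_cases ha : a = 0
    · subst ha
      simp [phi]
    · by_cases hy : y = 0
      · subst hy
        simp [phi]
        ring
      · have hay : a * y ≠ 0 := mul_ne_zero ha hy
        simp only [phi, Prod.smul_mk, smul_eq_mul, if_neg hay, if_neg hy]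
        rw [mul_div_mul_left _ _ ha]
        ext
        · simp only; ring
        · simp only; ring
  · -- homogeneity of psi
    intro a p
    obtain ⟨x, y⟩ := p
    by_cases ha : a = 0
    · subst ha
      simp [psi]
    · by_cases hy : y = 0
      · subst hy
        simp [psi]
        ring
      · have hay : a * y ≠ 0 := mul_ne_zero ha hy
        simp only [psi, Prod.smul_mk, smul_eq_mul, if_neg hay, if_neg hy]
        rw [mul_div_mul_left _ _ ha]
        ext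
        · simp only; ring
        · simp only; ring
  · -- left inverse
    intro p
    obtain ⟨x, y⟩ := p
    by_cases hy : y = 0
    · subst hy
      simp [phi, psi, hU0]
    · have huz := hu0 (x / y)
      have h2 : u (x / y) * y ≠ 0 := mul_ne_zero huz hy
      have e1 : u (x / y) * (y * h (x / y)) / (u (x / y) * y) = h (x / y) := by
        field_simp
      simp only [phi, if_neg hy, psi, if_neg h2, e1, left]
      ext
      · simp only; field_simp
      · simp only; field_simp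
  · -- right inverse
    intro p
    obtain ⟨x, y⟩ := p
    by_cases hy : y = 0
    · subst hy
      simp [phi, psi, hU0, mul_div_cancel₀]
    · have huz := hu0 (hinv (x / y))
      have h2 : y / u (hinv (x / y)) ≠ 0 := div_ne_zero hy huz
      have e1 : hinv (x / y) * (y / u (hinv (x / y))) / (y / u (hinv (x / y))) = hinv (x / y) := by
        field_simp
      simp only [phi, psi, if_neg hy, if_neg h2, e1, right]
      ext
      · simp only; field_simp
      · simp only; field_simp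
  · -- smoothness of phi
    intro p hp
    by_cases h2 : p.2 = 0
    · have h1 : p.1 ≠ 0 := fun h1 => hp (Prod.ext h1 h2)
      have hcone : p ∈ {q : ℂ × ℂ | ‖q.2‖ * R0 < ‖q.1‖} := by
        simp only [Set.mem_ofPred_eq, h2, norm_zero, zero_mul]
        exact norm_pos_iff.mpr h1
      have hev : phi h u U =ᶠ[𝓝 p]
          fun q => (U (q.2 / q.1) * q.1, U (q.2 / q.1) * q.2) := by
        filter_upwards [(open_cone R0).mem_nhds hcone] with q hq
        exact phi_cone hfar hUu hq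
      refine ContDiffAt.congr_of_eventuallyEq ?_ hev
      have hq : ContDiffAt ℝ 1 (fun q : ℂ × ℂ => q.2 / q.1) p := cd_div cd_snd cd_fst h1
      have hUq : ContDiffAt ℝ 1 (fun q : ℂ × ℂ => U (q.2 / q.1)) p :=
        ContDiffAt.comp p (cd_U hU (quot_mem hR0 hcone)) hq
      exact (hUq.mul cd_fst).prodMk (hUq.mul cd_snd)
    · have hev : phi h u U =ᶠ[𝓝 p]
          fun q => (u (q.1 / q.2) * (q.2 * h (q.1 / q.2)), u (q.1 / q.2) * q.2) := by
        have hne : ∀ᶠ q : ℂ × ℂ in 𝓝 p, q.2 ≠ 0 :=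
          continuousAt_snd.eventually_ne h2
        filter_upwards [hne] with q hq
        simp [phi, hq]
      refine ContDiffAt.congr_of_eventuallyEq ?_ hev
      have hq : ContDiffAt ℝ 1 (fun q : ℂ × ℂ => q.1 / q.2) p := cd_div cd_fst cd_snd h2
      have huq : ContDiffAt ℝ 1 (fun q : ℂ × ℂ => u (q.1 / q.2)) p :=
        ContDiffAt.comp p hu.contDiffAt hq
      have hhq : ContDiffAt ℝ 1 (fun q : ℂ × ℂ => h (q.1 / q.2)) p :=
        ContDiffAt.comp p hh.contDiffAt hq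
      exact (huq.mul (cd_snd.mul hhq)).prodMk (huq.mul cd_snd)
  · -- smoothness of psi
    intro p hp
    by_cases h2 : p.2 = 0
    · have h1 : p.1 ≠ 0 := fun h1 => hp (Prod.ext h1 h2)
      have hcone : p ∈ {q : ℂ × ℂ | ‖q.2‖ * R0 < ‖q.1‖} := by
        simp only [Set.mem_ofPred_eq, h2, norm_zero, zero_mul]
        exact norm_pos_iff.mpr h1
      have hev : psi hinv u U =ᶠ[𝓝 p]
          fun q => ((U (q.2 / q.1))⁻¹ * q.1, (U (q.2 / q.1))⁻¹ * q.2) := by
        filter_upwards [(open_cone R0).mem_nhds hcone] with q hq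
        exact psi_cone hfar' hUu hq
      refine ContDiffAt.congr_of_eventuallyEq ?_ hev
      have hq : ContDiffAt ℝ 1 (fun q : ℂ × ℂ => q.2 / q.1) p := cd_div cd_snd cd_fst h1
      have hUq : ContDiffAt ℝ 1 (fun q : ℂ × ℂ => U (q.2 / q.1)) p :=
        ContDiffAt.comp p (cd_U hU (quot_mem hR0 hcone)) hq
      have hUi : ContDiffAt ℝ 1 (fun q : ℂ × ℂ => (U (q.2 / q.1))⁻¹) p := by
        refine hUq.inv ?_
        simpa [h2] using hU0
      exact (hUi.mul cd_fst).prodMk (hUi.mul cd_snd)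
    · have hev : psi hinv u U =ᶠ[𝓝 p]
          fun q => (hinv (q.1 / q.2) * (q.2 / u (hinv (q.1 / q.2))),
            q.2 / u (hinv (q.1 / q.2))) := by
        have hne : ∀ᶠ q : ℂ × ℂ in 𝓝 p, q.2 ≠ 0 :=
          continuousAt_snd.eventually_ne h2
        filter_upwards [hne] with q hq
        simp [psi, hq]
      refine ContDiffAt.congr_of_eventuallyEq ?_ hev
      have hq : ContDiffAt ℝ 1 (fun q : ℂ × ℂ => q.1 / q.2) p := cd_div cd_fst cd_snd h2
      have hiq : ContDiffAt ℝ 1 (fun q : ℂ × ℂ => hinv (q.1 / q.2)) p :=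
        ContDiffAt.comp p hhi.contDiffAt hq
      have huq : ContDiffAt ℝ 1 (fun q : ℂ × ℂ => u (hinv (q.1 / q.2))) p :=
        ContDiffAt.comp p hu.contDiffAt hiq
      have hdq : ContDiffAt ℝ 1 (fun q : ℂ × ℂ => q.2 / u (hinv (q.1 / q.2))) p :=
        cd_div cd_snd huq (hu0 _)
      exact (hiq.mul hdq).prodMk hdq
  · -- the equation
    intro p
    obtain ⟨x, y⟩ := p
    by_cases hy : y = 0
    · subst hy
      simp only [form, phi, if_pos, mul_zero, sub_zero]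
      have e1 : ∏ j, (U 0 * x) ^ κ j = U 0 ^ (∑ j, κ j) * ∏ j, x ^ κ j := by
        rw [← Finset.prod_pow_eq_pow_sum, ← Finset.prod_mul_distrib]
        exact Finset.prod_congr rfl fun j _ => mul_pow _ _ _
      rw [e1, ← mul_assoc, ← hbase]
    · simp only [form, phi, if_neg hy]
      have e1 : ∏ j, (x - X j * y) ^ κ j = y ^ (∑ j, κ j) * ∏ j, (x / y - X j) ^ κ j := by
        rw [← Finset.prod_pow_eq_pow_sum, ← Finset.prod_mul_distrib]
        refine Finset.prod_congr rfl fun j _ => ?_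
        rw [← mul_pow]
        congr 1
        field_simp
      have e2 : ∏ j, (u (x / y) * (y * h (x / y)) - X' j * (u (x / y) * y)) ^ κ j =
          (u (x / y) * y) ^ (∑ j, κ j) * ∏ j, (h (x / y) - X' j) ^ κ j := by
        rw [← Finset.prod_pow_eq_pow_sum, ← Finset.prod_mul_distrib]
        refine Finset.prod_congr rfl fun j _ => ?_
        rw [← mul_pow]
        congr 1
        ring
      rw [e1, e2]
      calc c * (y ^ (∑ j, κ j) * ∏ j, (x / y - X j) ^ κ j)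
          = y ^ (∑ j, κ j) * (c * ∏ j, (x / y - X j) ^ κ j) := by ring
        _ = y ^ (∑ j, κ j) *
            (c' * u (x / y) ^ (∑ j, κ j) * ∏ j, (h (x / y) - X' j) ^ κ j) := by rw [heq]
        _ = c' * ((u (x / y) * y) ^ (∑ j, κ j) * ∏ j, (h (x / y) - X' j) ^ κ j) := by
            rw [mul_pow]; ring
  · -- near the lines
    intro j
    obtain ⟨δ, hδ, hd, huX, hhz⟩ := hnear j
    refine ⟨δ, hδ, u, hd, huX, ?_⟩
    intro x y hy hxy
    have hy' : 0 < ‖y‖ := norm_pos_iff.mpr hy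
    have hz : x / y ∈ ball (X j) δ := by
      rw [mem_ball, dist_eq_norm]
      have : x / y - X j = (x - X j * y) / y := by field_simp
      rw [this, norm_div, div_lt_iff₀ hy']
      exact hxy
    simp only [phi, if_neg hy]
    rw [hhz _ hz]
    ext
    · simp only
      field_simp
    · rfl

end H24.LS
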