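import Pool.Agent.H24.LS.Base

/-!
# T3: planar bump diffeomorphisms

`h z = z + θ(‖z - z0‖^2/ρ^2) (τ + (exp a - 1)(z - z0))` with a smooth cutoff `θ = 1` on `(-∞, 4]`,
`θ = 0` on `[9, ∞)` (e.g. `Real.smoothTransition (9 - t) / 5`-type composition:
`θ t = Real.smoothTransition ((9 - t)/5)`).
`g := h - id` is smooth with compact support in `closedBall z0 (3ρ)`, and `g` and its (real)
derivative are bounded by `C (‖τ‖ + ‖exp a - 1‖)` with `C = C(ρ)`.  For small `a, τ` the map `g` is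
`1/2`-Lipschitz, so `h = id + g` is a bijection of `ℂ`
(`ApproximatesLinearOn ... univ` `toHomeomorph`, or Banach fixed point for `z ↦ w - g z`), `C^1`
with invertible derivative `1 + g'`, so the inverse is `C^1` (`OpenPartialHomeomorph.contDiffAt_symm`
or the inverse function theorem `ContDiffAt.to_localInverse`).
-/

open Filter Topology Metric

namespace H24.LS

/-- the identity plus a `C^1` contraction is a diffeomorphism -/
private theorem T3_diffeo (g : ℂ → ℂ) (hg : ContDiff ℝ 1 g)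
    (hL : ∀ x y, ‖g x - g y‖ ≤ 1 / 2 * ‖x - y‖) :
    ∃ hinv : ℂ → ℂ, ContDiff ℝ 1 hinv ∧ (∀ z, hinv (z + g z) = z) ∧
      ∀ z, hinv z + g (hinv z) = z := by
  have hh : ContDiff ℝ 1 (fun z => z + g z) := contDiff_id.add hg
  have happ : ApproximatesLinearOn (fun z => z + g z)
      ((ContinuousLinearEquiv.refl ℝ ℂ : ℂ ≃L[ℝ] ℂ) : ℂ →L[ℝ] ℂ) Set.univ (1 / 2 : NNReal) := by
    intro x _ y _
    have e1 : (x + g x) - (y + g y) - ((ContinuousLinearEquiv.refl ℝ ℂ : ℂ ≃L[ℝ] ℂ) : ℂ →L[ℝ] ℂ)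
        (x - y) = g x - g y := by
      simp only [ContinuousLinearEquiv.coe_coe, ContinuousLinearEquiv.refl_apply]
      ring
    rw [e1]
    have := hL x y
    norm_num at this ⊢
    linarith
  have hN : ‖(((ContinuousLinearEquiv.refl ℝ ℂ).symm : ℂ ≃L[ℝ] ℂ) : ℂ →L[ℝ] ℂ)‖₊ ≤ 1 := by
    rw [← NNReal.coe_le_coe, coe_nnnorm, NNReal.coe_one]
    apply ContinuousLinearMap.opNorm_le_bound _ zero_le_one
    intro x
    simp
  have hc : Subsingleton ℂ ∨ (1 / 2 : NNReal) <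
      ‖(((ContinuousLinearEquiv.refl ℝ ℂ).symm : ℂ ≃L[ℝ] ℂ) : ℂ →L[ℝ] ℂ)‖₊⁻¹ := by
    right
    have hpos : 0 < ‖(((ContinuousLinearEquiv.refl ℝ ℂ).symm : ℂ ≃L[ℝ] ℂ) : ℂ →L[ℝ] ℂ)‖₊ := by
      rw [pos_iff_ne_zero]
      intro h0
      rw [nnnorm_eq_zero] at h0
      have := congrArg (fun T : ℂ →L[ℝ] ℂ => T 1) h0
      simp at this
    calc (1 / 2 : NNReal) < 1 := by
          rw [← NNReal.coe_lt_coe]
          norm_num
      _ ≤ _ := (one_le_inv₀ hpos).mpr hN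
  let Φ := happ.toHomeomorph (fun z => z + g z) hc
  have hΦ : ∀ z, Φ z = z + g z := fun z => rfl
  have hfd : ∀ a, ‖-(fderiv ℝ g a)‖ < 1 := by
    intro a
    have hlip : LipschitzWith (1 / 2 : NNReal) g := by
      apply LipschitzWith.of_dist_le_mul
      intro x y
      rw [dist_eq_norm, dist_eq_norm]
      have := hL x y
      norm_num at this ⊢
      linarith
    have h1 := norm_fderiv_le_of_lipschitz ℝ (x₀ := a) hlip
    rw [norm_neg]
    refine h1.trans_lt ?_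
    norm_num
  have hder : ∀ a, HasFDerivAt Φ
      ((ContinuousLinearEquiv.ofUnit (Units.oneSub (-(fderiv ℝ g a)) (hfd a)) : ℂ ≃L[ℝ] ℂ) :
        ℂ →L[ℝ] ℂ) a := by
    intro a
    have h1 : HasFDerivAt (fun z => z + g z) (ContinuousLinearMap.id ℝ ℂ + fderiv ℝ g a) a :=
      (hasFDerivAt_id a).add (hg.differentiable one_ne_zero a).hasFDerivAt
    have h2 : ((ContinuousLinearEquiv.ofUnit (Units.oneSub (-(fderiv ℝ g a)) (hfd a)) :
        ℂ ≃L[ℝ] ℂ) : ℂ →L[ℝ] ℂ) = ContinuousLinearMap.id ℝ ℂ + fderiv ℝ g a := by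
      ext1 x
      show (1 - -(fderiv ℝ g a)) x = _
      simp
    rw [h2]
    exact h1
  refine ⟨Φ.symm, Φ.contDiff_symm hder hh, ?_, ?_⟩
  · intro z
    have := Φ.symm_apply_apply z
    rwa [hΦ] at this
  · intro z
    have := Φ.apply_symm_apply z
    rwa [hΦ] at this

theorem planar_bump (z0 : ℂ) (ρ : ℝ) (hρ : 0 < ρ) (η : ℝ) (hη : 0 < η) :
    ∃ ε > (0 : ℝ), ∀ a τ : ℂ, ‖a‖ < ε → ‖τ‖ < ε →
      ∃ h hinv : ℂ → ℂ, ContDiff ℝ 1 h ∧ ContDiff ℝ 1 hinv ∧
        (∀ z, hinv (h z) = z) ∧ (∀ z, h (hinv z) = z) ∧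
        (∀ z, ‖z - z0‖ ≤ 2 * ρ → h z = z0 + τ + Complex.exp a * (z - z0)) ∧
        (∀ z, 3 * ρ ≤ ‖z - z0‖ → h z = z) ∧ ∀ z, ‖h z - z‖ ≤ η := by
  let θ : ContDiffBump z0 := ⟨2 * ρ, 3 * ρ, by positivity, by linarith⟩
  have hθ1 : ∀ z, ‖z - z0‖ ≤ 2 * ρ → θ z = 1 := fun z hz =>
    θ.one_of_mem_closedBall (by rw [mem_closedBall, dist_eq_norm]; exact hz)
  have hθ0 : ∀ z, 3 * ρ ≤ ‖z - z0‖ → θ z = 0 := fun z hz =>
    θ.zero_of_le_dist (by rw [dist_eq_norm]; exact hz)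
  let G1 : ℂ → ℂ := fun z => ((θ z : ℝ) : ℂ)
  let G2 : ℂ → ℂ := fun z => ((θ z : ℝ) : ℂ) * (z - z0)
  have hG1 : ContDiff ℝ 1 G1 := Complex.ofRealCLM.contDiff.comp (θ.contDiff (n := 1))
  have hG2 : ContDiff ℝ 1 G2 := hG1.mul (contDiff_id.sub contDiff_const)
  have hs1 : HasCompactSupport G1 := θ.hasCompactSupport.comp_left (g := fun x : ℝ => (x : ℂ)) rfl
  have hs2 : HasCompactSupport G2 := hs1.mul_right
  obtain ⟨L1, hL1⟩ := ContDiff.lipschitzWith_of_hasCompactSupport hs1 hG1 one_ne_zero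
  obtain ⟨L2, hL2⟩ := ContDiff.lipschitzWith_of_hasCompactSupport hs2 hG2 one_ne_zero
  obtain ⟨B1, hB1⟩ := hG1.continuous.bounded_above_of_compact_support hs1
  obtain ⟨B2, hB2⟩ := hG2.continuous.bounded_above_of_compact_support hs2
  have hB1' : 0 ≤ B1 := (norm_nonneg _).trans (hB1 0)
  have hB2' : 0 ≤ B2 := (norm_nonneg _).trans (hB2 0)
  set κ : ℝ := min (1 / (4 * (L1 + L2 + 1))) (η / (2 * (B1 + B2 + 1))) with hκ
  have hκ0 : 0 < κ := by
    have := L1.coe_nonneg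
    have := L2.coe_nonneg
    exact lt_min (by positivity) (by positivity)
  obtain ⟨ε1, hε1, hexp⟩ : ∃ ε1 > (0 : ℝ), ∀ a : ℂ, ‖a‖ < ε1 → ‖Complex.exp a - 1‖ < κ := by
    have h1 : Tendsto (fun a : ℂ => Complex.exp a) (𝓝 0) (𝓝 1) := by
      have := Complex.continuous_exp.tendsto 0
      rwa [Complex.exp_zero] at this
    obtain ⟨ε1, h2, h3⟩ := Metric.eventually_nhds_iff.mp ((Metric.tendsto_nhds.mp h1) κ hκ0)
    refine ⟨ε1, h2, fun a ha => ?_⟩
    have := h3 (y := a) (by rwa [dist_zero_right])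
    rwa [dist_eq_norm] at this
  refine ⟨min ε1 κ, lt_min hε1 hκ0, ?_⟩
  intro a τ ha hτ
  have ha' : ‖Complex.exp a - 1‖ ≤ κ := (hexp a (ha.trans_le (min_le_left _ _))).le
  have hτ' : ‖τ‖ ≤ κ := (hτ.trans_le (min_le_right _ _)).le
  let g : ℂ → ℂ := fun z => G1 z * τ + G2 z * (Complex.exp a - 1)
  have hg : ContDiff ℝ 1 g := (hG1.mul contDiff_const).add (hG2.mul contDiff_const)
  have hgL : ∀ x y, ‖g x - g y‖ ≤ 1 / 2 * ‖x - y‖ := by
    intro x y
    have h1 := hL1.dist_le_mul x y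
    have h2 := hL2.dist_le_mul x y
    rw [dist_eq_norm, dist_eq_norm] at h1 h2
    have e1 : g x - g y = (G1 x - G1 y) * τ + (G2 x - G2 y) * (Complex.exp a - 1) := by
      simp only [g]
      ring
    rw [e1]
    have hn := norm_nonneg (x - y)
    have hl1 := L1.coe_nonneg
    have hl2 := L2.coe_nonneg
    calc ‖(G1 x - G1 y) * τ + (G2 x - G2 y) * (Complex.exp a - 1)‖
        ≤ ‖G1 x - G1 y‖ * ‖τ‖ + ‖G2 x - G2 y‖ * ‖Complex.exp a - 1‖ := by
          refine (norm_add_le _ _).trans ?_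
          rw [norm_mul, norm_mul]
      _ ≤ (L1 * ‖x - y‖) * κ + (L2 * ‖x - y‖) * κ := by gcongr
      _ = (L1 + L2) * κ * ‖x - y‖ := by ring
      _ ≤ (L1 + L2) * (1 / (4 * (L1 + L2 + 1))) * ‖x - y‖ := by
          gcongr
          exact min_le_left _ _
      _ ≤ 1 / 2 * ‖x - y‖ := by
          gcongr
          rw [mul_one_div, div_le_iff₀ (by positivity)]
          linarith
  have hgB : ∀ z, ‖g z‖ ≤ η := by
    intro z
    calc ‖G1 z * τ + G2 z * (Complex.exp a - 1)‖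
        ≤ ‖G1 z‖ * ‖τ‖ + ‖G2 z‖ * ‖Complex.exp a - 1‖ := by
          refine (norm_add_le _ _).trans ?_
          rw [norm_mul, norm_mul]
      _ ≤ B1 * κ + B2 * κ := by
          have := hB1 z
          have := hB2 z
          gcongr
      _ = (B1 + B2) * κ := by ring
      _ ≤ (B1 + B2) * (η / (2 * (B1 + B2 + 1))) := by
          gcongr
          exact min_le_right _ _
      _ ≤ η := by
          rw [mul_div_assoc', div_le_iff₀ (by positivity)]
          nlinarith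
  obtain ⟨hinv, hi1, hi2, hi3⟩ := T3_diffeo g hg hgL
  refine ⟨fun z => z + g z, hinv, contDiff_id.add hg, hi1, hi2, hi3, ?_, ?_, ?_⟩
  · intro z hz
    have h1 : G1 z = 1 := by
      show ((θ z : ℝ) : ℂ) = 1
      rw [hθ1 z hz, Complex.ofReal_one]
    have h2 : G2 z = z - z0 := by
      show G1 z * (z - z0) = _
      rw [h1, one_mul]
    show z + (G1 z * τ + G2 z * (Complex.exp a - 1)) = _
    rw [h1, h2]
    ring
  · intro z hz
    have h1 : G1 z = 0 := by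
      show ((θ z : ℝ) : ℂ) = 0
      rw [hθ0 z hz, Complex.ofReal_zero]
    have h2 : G2 z = 0 := by
      show G1 z * (z - z0) = _
      rw [h1, zero_mul]
    show z + (G1 z * τ + G2 z * (Complex.exp a - 1)) = _
    rw [h1, h2]
    ring
  · intro z
    have e1 : z + g z - z = g z := by ring
    show ‖z + g z - z‖ ≤ η
    rw [e1]
    exact hgB z

end H24.LS
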