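import Pool.Agent.H24.LS.Base
import Pool.Agent.H24.LS.T2
import Pool.Agent.H24.LS.T3

/-!
# T4: the elementary move

The points with index in `Z` lie in `ball z0 ρ`, all others outside `ball z0 (4ρ)`.  Apply to the
points of `Z` the affine map `z ↦ z0 + τ + exp a (z - z0)` (small `a, τ`).

NOTE (helper35): the hypothesis `hX` was added (without it the statement is false: for `X i = X j`,
`i ≠ j` in `Z`, the term of `ω` is `log (0/0) = 0` instead of `a`).

Proof.  Take `h` from `planar_bump` (with small `η`).  Put `X'_i` as in the statement,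
`L_i(z) = Complex.log ((h z - X'_i)/(z - X_i))` for `z ≠ X_i` and
`L_i(X_i) = a` if `i ∈ Z`, `0` if not; `u(z) = exp (-(1/k) Σ_i κ_i L_i(z))`, `k = Σ κ_i ≥ 1`
(if `r = 0` everything is trivial; then `k = 0`, use the identity map: note `1/0 = 0` so `u = 1`).
* For `i ∈ Z`, `‖z - z0‖ ≤ 2ρ`: `h z - X'_i = exp a (z - X_i)`, the ratio is `exp a`, `log = a` (small `a`).
  For `i ∈ Z`, `‖z - z0‖ ≥ 2ρ`: `‖z - X_i‖ ≥ ρ`, and `‖h z - X'_i - (z - X_i)‖ ≤ η + ‖τ‖ + ‖exp a - 1‖ ρ`
  is `≤ ρ/2`, so the ratio is within `1/2` of `1`: `log` is smooth there.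
* For `i ∉ Z`: `h z = z` unless `‖z - z0‖ < 3ρ`, where `‖z - X_i‖ ≥ ρ` and the ratio is again within
  `1/2` of `1`; near `X_i` the ratio is `1`.
* So `u` is `C^1`, nowhere `0`, and `u^k ∏ (h z - X'_i)^{κ_i} = ∏ (z - X_i)^{κ_i}` for every `z`
  (for `z = X_i` both sides vanish if `κ_i ≥ 1`; if `κ_i = 0` fine, the factor is absent).
* Far away (`‖z‖ ≥ R0 := ‖z0‖ + 3ρ + ∑ ‖X_i‖ + ∑ ‖X'_i‖ + 1`, times 2): `h z = z`,
  `u z = U(1/z)`, `U(ζ) = exp (-(1/k) Σ κ_i log ((1 - X'_i ζ)/(1 - X_i ζ)))`, `U 0 = 1`.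
* near `X_j`: `j ∈ Z`: `h` is affine with slope `exp a`; `u` is holomorphic there (the logs of
  holomorphic functions near `1`), and `u (X_j) = ω_j` as in the statement
  (`(h X_j - X'_i)/(X_j - X_i) = (X'_j - X'_i)/(X_j - X_i)`).  `j ∉ Z`: `h = id` near `X_j`.
Apply `mor_of_planar`.
-/

open Filter Topology Metric

namespace H24.LS

private theorem T4_slit {q : ℂ} (hq : ‖q - 1‖ < 1) : q ∈ Complex.slitPlane := by
  have h := Complex.mem_slitPlane_of_norm_lt_one hq
  rwa [add_sub_cancel] at h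

private theorem T4_log {H : ℂ → ℂ} {s : Set ℂ} (hH : DifferentiableOn ℂ H s) (x x' : ℂ)
    (hne : ∀ z ∈ s, z ≠ x) (hsl : ∀ z ∈ s, (H z - x') / (z - x) ∈ Complex.slitPlane) :
    DifferentiableOn ℂ (fun z => Complex.log ((H z - x') / (z - x))) s := by
  refine DifferentiableOn.clog ?_ hsl
  exact (hH.sub_const x').div (differentiableOn_id.sub_const x)
    fun z hz => sub_ne_zero.2 (hne z hz)

theorem mor_elem {r : ℕ} (κ : Fin r → ℕ) (hκ : ∀ j, 1 ≤ κ j) (c : ℂ) (X : Fin r → ℂ)
    (hX : Function.Injective X) (Z : Finset (Fin r)) (z0 : ℂ) (ρ : ℝ) (hρ : 0 < ρ)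
    (hZ : ∀ j ∈ Z, ‖X j - z0‖ < ρ) (hZ' : ∀ j, j ∉ Z → 4 * ρ < ‖X j - z0‖) :
    ∃ ε > (0 : ℝ), ∀ a τ : ℂ, ‖a‖ < ε → ‖τ‖ < ε → ∀ X' : Fin r → ℂ,
      (∀ j ∈ Z, X' j = z0 + τ + Complex.exp a * (X j - z0)) → (∀ j, j ∉ Z → X' j = X j) →
      Mor κ c c X X' (fun j => if j ∈ Z then Complex.exp a else 1)
        (fun j => Complex.exp (-(1 / (∑ i, κ i : ℂ)) * ∑ i, (κ i : ℂ) *
          (if i = j then (if j ∈ Z then a else 0)
            else Complex.log ((X' j - X' i) / (X j - X i))))) := by
  classical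
  obtain ⟨ε₁, hε₁, hbump⟩ := planar_bump z0 ρ hρ (ρ / 4) (by positivity)
  refine ⟨min ε₁ (min (ρ / 8) (1 / 16)), lt_min hε₁ (lt_min (by positivity) (by norm_num)), ?_⟩
  intro a τ ha hτ X' hXZ hXn
  have ha1 : ‖a‖ < ε₁ := lt_of_lt_of_le ha (min_le_left _ _)
  have hτ1 : ‖τ‖ < ε₁ := lt_of_lt_of_le hτ (min_le_left _ _)
  have ha2 : ‖a‖ < 1 / 16 := lt_of_lt_of_le ha ((min_le_right _ _).trans (min_le_right _ _))
  have hτ2 : ‖τ‖ < ρ / 8 := lt_of_lt_of_le hτ ((min_le_right _ _).trans (min_le_left _ _))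
  obtain ⟨h, hinv, hh, hhi, left, right, haff, hout, hclose⟩ := hbump a τ ha1 hτ1
  have he : ‖Complex.exp a - 1‖ ≤ 1 / 8 := by
    have := Complex.norm_exp_sub_one_le (x := a) (by linarith)
    linarith
  have hloge : Complex.log (Complex.exp a) = a := by
    have h1 := Complex.abs_im_le_norm a
    have h2 := abs_le.1 h1
    have h3 := Real.pi_gt_three
    exact Complex.log_exp (by linarith) (by linarith)
  have hdist : ∀ i, ‖X' i - X i‖ ≤ ρ / 4 := by
    intro i
    by_cases hi : i ∈ Z
    · have h1 : X' i - X i = τ + (Complex.exp a - 1) * (X i - z0) := by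
        rw [hXZ i hi]; ring
      rw [h1]
      have h2 : ‖(Complex.exp a - 1) * (X i - z0)‖ ≤ 1 / 8 * ρ := by
        rw [norm_mul]
        exact mul_le_mul he (hZ i hi).le (norm_nonneg _) (by norm_num)
      have h3 := norm_add_le τ ((Complex.exp a - 1) * (X i - z0))
      linarith
    · rw [hXn i hi, sub_self, norm_zero]
      positivity
  have hA : ∀ i z, ρ ≤ ‖z - X i‖ → z ≠ X i ∧ ‖(h z - X' i) / (z - X i) - 1‖ ≤ 1 / 2 := by
    intro i z hz
    have hpos : 0 < ‖z - X i‖ := lt_of_lt_of_le hρ hz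
    have hne : z - X i ≠ 0 := norm_pos_iff.1 hpos
    refine ⟨sub_ne_zero.1 hne, ?_⟩
    have h1 : (h z - X' i) / (z - X i) - 1 = ((h z - z) - (X' i - X i)) / (z - X i) := by
      field_simp
      ring
    rw [h1, norm_div, div_le_iff₀ hpos]
    have h2 := norm_sub_le (h z - z) (X' i - X i)
    have h3 := hclose z
    have h4 := hdist i
    linarith
  set q : Fin r → ℂ → ℂ := fun i z => (h z - X' i) / (z - X i) with hq
  set L : Fin r → ℂ → ℂ := fun i z => if i ∈ Z then (if ‖z - z0‖ < 2 * ρ then a else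
    Complex.log (q i z)) else (if ‖z - z0‖ < 3 * ρ then Complex.log (q i z) else 0) with hL
  have haffZ : ∀ i ∈ Z, ∀ z, ‖z - z0‖ ≤ 2 * ρ → h z - X' i = Complex.exp a * (z - X i) := by
    intro i hi z hz
    rw [haff z hz, hXZ i hi]
    ring
  have hLZ1 : ∀ i ∈ Z, ∀ z, ‖z - z0‖ < 2 * ρ → L i z = a := by
    intro i hi z hz
    simp only [hL, if_pos hi, if_pos hz]
  have hLZ2 : ∀ i ∈ Z, ∀ z, 3 * ρ / 2 < ‖z - z0‖ →
      L i z = Complex.log (q i z) ∧ q i z ∈ Complex.slitPlane ∧ z ≠ X i := by
    intro i hi z hz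
    have hne : z ≠ X i := by
      rintro rfl
      have := hZ i hi
      linarith
    rcases lt_or_ge (‖z - z0‖) (2 * ρ) with h2 | h2
    · have h3 : q i z = Complex.exp a := by
        simp only [hq]
        rw [haffZ i hi z h2.le, mul_div_cancel_right₀ _ (sub_ne_zero.2 hne)]
      refine ⟨?_, ?_, hne⟩
      · rw [hLZ1 i hi z h2, h3, hloge]
      · rw [h3]
        exact T4_slit (lt_of_le_of_lt he (by norm_num))
    · have h3 : ρ ≤ ‖z - X i‖ := by
        have h4 : ‖z - z0‖ ≤ ‖z - X i‖ + ‖X i - z0‖ := by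
          have := norm_add_le (z - X i) (X i - z0)
          rwa [sub_add_sub_cancel] at this
        have := hZ i hi
        linarith
      refine ⟨?_, T4_slit (lt_of_le_of_lt (hA i z h3).2 (by norm_num)), hne⟩
      simp only [hL, if_pos hi, if_neg (not_lt.2 h2)]
  have hLn1 : ∀ i, i ∉ Z → ∀ z, 3 * ρ ≤ ‖z - z0‖ → L i z = 0 := by
    intro i hi z hz
    simp only [hL, if_neg hi, if_neg (not_lt.2 hz)]
  have hLn2 : ∀ i, i ∉ Z → ∀ z, ‖z - z0‖ < 4 * ρ →
      L i z = Complex.log (q i z) ∧ q i z ∈ Complex.slitPlane ∧ z ≠ X i := by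
    intro i hi z hz
    have hne : z ≠ X i := by
      rintro rfl
      have := hZ' i hi
      linarith
    rcases lt_or_ge (‖z - z0‖) (3 * ρ) with h2 | h2
    · have h3 : ρ ≤ ‖z - X i‖ := by
        have h4 : ‖X i - z0‖ ≤ ‖z - X i‖ + ‖z - z0‖ := by
          have := norm_add_le (X i - z) (z - z0)
          rw [sub_add_sub_cancel, norm_sub_rev (X i) z] at this
          exact this
        have := hZ' i hi
        linarith
      refine ⟨?_, T4_slit (lt_of_le_of_lt (hA i z h3).2 (by norm_num)), hne⟩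
      simp only [hL, if_neg hi, if_pos h2]
    · have h3 : q i z = 1 := by
        simp only [hq]
        rw [hout z h2, hXn i hi, div_self (sub_ne_zero.2 hne)]
      refine ⟨?_, ?_, hne⟩
      · rw [hLn1 i hi z h2, h3, Complex.log_one]
      · rw [h3]
        exact Complex.one_mem_slitPlane
  have hexp : ∀ i z, Complex.exp (L i z) * (z - X i) = h z - X' i := by
    intro i z
    have hlog : L i z = Complex.log (q i z) ∧ q i z ∈ Complex.slitPlane ∧ z ≠ X i →
        Complex.exp (L i z) * (z - X i) = h z - X' i := by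
      rintro ⟨h1, h2, h3⟩
      rw [h1, Complex.exp_log (Complex.slitPlane_ne_zero h2)]
      exact div_mul_cancel₀ _ (sub_ne_zero.2 h3)
    by_cases hi : i ∈ Z
    · rcases lt_or_ge (‖z - z0‖) (2 * ρ) with h2 | h2
      · rw [hLZ1 i hi z h2, haffZ i hi z h2.le]
      · exact hlog (hLZ2 i hi z (by linarith))
    · rcases lt_or_ge (‖z - z0‖) (3 * ρ) with h2 | h2
      · exact hlog (hLn2 i hi z (by linarith))
      · rw [hLn1 i hi z h2, Complex.exp_zero, one_mul, hout z h2, hXn i hi]
  -- smoothness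
  have hcn : Continuous fun z : ℂ => ‖z - z0‖ := by fun_prop
  have hqs : ∀ i z, q i z ∈ Complex.slitPlane → z ≠ X i →
      ContDiffAt ℝ 1 (fun z => Complex.log (q i z)) z := by
    intro i z h1 h2
    have h3 : ContDiffAt ℝ 1 (q i) z := by
      simp only [hq, div_eq_mul_inv]
      exact (hh.contDiffAt.sub contDiffAt_const).mul
        ((contDiffAt_id.sub contDiffAt_const).inv (sub_ne_zero.2 h2))
    exact ((Complex.contDiffAt_log h1 (n := 1)).restrict_scalars ℝ).comp z h3
  have hLs : ∀ i z, ContDiffAt ℝ 1 (L i) z := by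
    intro i z
    by_cases hi : i ∈ Z
    · rcases lt_or_ge (‖z - z0‖) (2 * ρ) with h2 | h2
      · have h3 : L i =ᶠ[𝓝 z] fun _ => a := by
          filter_upwards [(isOpen_lt hcn continuous_const).mem_nhds h2] with w hw
          exact hLZ1 i hi w hw
        exact contDiffAt_const.congr_of_eventuallyEq h3
      · have h2' : 3 * ρ / 2 < ‖z - z0‖ := by linarith
        have h3 : L i =ᶠ[𝓝 z] fun w => Complex.log (q i w) := by
          filter_upwards [(isOpen_lt continuous_const hcn).mem_nhds h2'] with w hw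
          exact (hLZ2 i hi w hw).1
        have h4 := hLZ2 i hi z h2'
        exact (hqs i z h4.2.1 h4.2.2).congr_of_eventuallyEq h3
    · rcases lt_or_ge (‖z - z0‖) (4 * ρ) with h2 | h2
      · have h3 : L i =ᶠ[𝓝 z] fun w => Complex.log (q i w) := by
          filter_upwards [(isOpen_lt hcn continuous_const).mem_nhds h2] with w hw
          exact (hLn2 i hi w hw).1
        have h4 := hLn2 i hi z h2
        exact (hqs i z h4.2.1 h4.2.2).congr_of_eventuallyEq h3
      · have h2' : 3 * ρ < ‖z - z0‖ := by linarith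
        have h3 : L i =ᶠ[𝓝 z] fun _ => 0 := by
          filter_upwards [(isOpen_lt continuous_const hcn).mem_nhds h2'] with w hw
          exact hLn1 i hi w (le_of_lt hw)
        exact contDiffAt_const.congr_of_eventuallyEq h3
  set u : ℂ → ℂ := fun z => Complex.exp (-(1 / (∑ i, κ i : ℂ)) * ∑ i, (κ i : ℂ) * L i z) with hu
  set U : ℂ → ℂ := fun ζ => Complex.exp (-(1 / (∑ i, κ i : ℂ)) * ∑ i, (κ i : ℂ) *
    Complex.log ((1 - X' i * ζ) / (1 - X i * ζ))) with hU
  set R0 : ℝ := 1 + ‖z0‖ + 3 * ρ + 4 * ∑ i, ‖X i‖ + 4 * ∑ i, ‖X' i‖ with hR0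
  have hsX : ∀ i, ‖X i‖ ≤ ∑ i, ‖X i‖ := fun i =>
    Finset.single_le_sum (f := fun i => ‖X i‖) (fun _ _ => norm_nonneg _) (Finset.mem_univ i)
  have hsX' : ∀ i, ‖X' i‖ ≤ ∑ i, ‖X' i‖ := fun i =>
    Finset.single_le_sum (f := fun i => ‖X' i‖) (fun _ _ => norm_nonneg _) (Finset.mem_univ i)
  have hs0 : 0 ≤ ∑ i, ‖X i‖ := Finset.sum_nonneg fun _ _ => norm_nonneg _
  have hs0' : 0 ≤ ∑ i, ‖X' i‖ := Finset.sum_nonneg fun _ _ => norm_nonneg _
  have hz00 := norm_nonneg z0
  have hR0p : 0 < R0 := by rw [hR0]; linarith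
  have hRX : ∀ i, 4 * ‖X i‖ ≤ R0 := fun i => by
    have := hsX i; rw [hR0]; linarith
  have hRX' : ∀ i, 4 * ‖X' i‖ ≤ R0 := fun i => by
    have := hsX' i; rw [hR0]; linarith
  have hfar3 : ∀ z, R0 ≤ ‖z‖ → 3 * ρ ≤ ‖z - z0‖ := by
    intro z hz
    have h1 : ‖z‖ ≤ ‖z - z0‖ + ‖z0‖ := by
      have := norm_add_le (z - z0) z0
      rwa [sub_add_cancel] at this
    rw [hR0] at hz
    linarith
  have hUball : ∀ i, ∀ ζ ∈ ball (0 : ℂ) R0⁻¹, 1 - X i * ζ ≠ 0 ∧
      (1 - X' i * ζ) / (1 - X i * ζ) ∈ Complex.slitPlane := by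
    intro i ζ hζ
    rw [mem_ball_zero_iff] at hζ
    have h1 : ‖X i * ζ‖ ≤ 1 / 4 := by
      rw [norm_mul]
      calc ‖X i‖ * ‖ζ‖ ≤ (R0 / 4) * R0⁻¹ :=
            mul_le_mul (by linarith [hRX i]) hζ.le (norm_nonneg _) (by positivity)
        _ = 1 / 4 := by field_simp
    have h2 : ‖X' i * ζ‖ ≤ 1 / 4 := by
      rw [norm_mul]
      calc ‖X' i‖ * ‖ζ‖ ≤ (R0 / 4) * R0⁻¹ :=
            mul_le_mul (by linarith [hRX' i]) hζ.le (norm_nonneg _) (by positivity)
        _ = 1 / 4 := by field_simp
    have h3 : 3 / 4 ≤ ‖1 - X i * ζ‖ := by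
      have := norm_sub_norm_le (1 : ℂ) (X i * ζ)
      rw [norm_one] at this
      linarith
    have h4 : 1 - X i * ζ ≠ 0 := norm_pos_iff.1 (by linarith)
    refine ⟨h4, T4_slit ?_⟩
    have h5 : (1 - X' i * ζ) / (1 - X i * ζ) - 1 = (X i * ζ - X' i * ζ) / (1 - X i * ζ) := by
      rw [div_sub_one h4]
      congr 1
      ring
    rw [h5, norm_div, div_lt_one (by linarith)]
    have h6 := norm_sub_le (X i * ζ) (X' i * ζ)
    linarith
  refine mor_of_planar κ c c X X' _ _ h hinv u U R0 hR0p hh hhi left right ?_ ?_ ?_ ?_ ?_ ?_ ?_ ?_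
    ?_ ?_
  · -- smoothness of `u`
    rw [contDiff_iff_contDiffAt]
    intro z
    refine ContDiffAt.cexp (contDiffAt_const.mul (ContDiffAt.sum fun i _ => ?_))
    exact contDiffAt_const.mul (hLs i z)
  · exact fun z => Complex.exp_ne_zero _
  · exact fun z hz => hout z (hfar3 z hz)
  · -- holomorphy of `U`
    refine DifferentiableOn.cexp ((differentiableOn_const _).mul
      (DifferentiableOn.fun_sum fun i _ => (differentiableOn_const _).mul ?_))
    refine DifferentiableOn.clog ?_ (fun ζ hζ => (hUball i ζ hζ).2)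
    refine DifferentiableOn.div ?_ ?_ (fun ζ hζ => (hUball i ζ hζ).1)
    · exact (differentiableOn_const _).sub ((differentiableOn_const _).mul differentiableOn_id)
    · exact (differentiableOn_const _).sub ((differentiableOn_const _).mul differentiableOn_id)
  · exact Complex.exp_ne_zero _
  · -- far away
    intro z hz
    have h3 := hfar3 z hz.le
    have hz0 : z ≠ 0 := by
      rintro rfl
      rw [norm_zero] at hz
      linarith
    simp only [hu, hU]
    congr 2
    refine Finset.sum_congr rfl fun i _ => ?_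
    congr 1
    have hne : z ≠ X i := by
      rintro rfl
      have := hRX i
      have := norm_nonneg (X i)
      linarith
    have h4 : (1 - X' i * z⁻¹) / (1 - X i * z⁻¹) = (z - X' i) / (z - X i) := by
      have h5 : z - X i ≠ 0 := sub_ne_zero.2 hne
      have h6 : 1 - X i * z⁻¹ = (z - X i) * z⁻¹ := by field_simp
      have h7 : 1 - X' i * z⁻¹ = (z - X' i) * z⁻¹ := by field_simp
      rw [h6, h7, mul_div_mul_right _ _ (inv_ne_zero hz0)]
    rw [h4]
    by_cases hi : i ∈ Z
    · rw [(hLZ2 i hi z (by linarith)).1]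
      simp only [hq]
      rw [hout z h3]
    · rw [hLn1 i hi z h3, hXn i hi, div_self (sub_ne_zero.2 hne), Complex.log_one]
  · -- the equation
    intro z
    have h1 : ∏ i, (h z - X' i) ^ κ i = Complex.exp (∑ i, (κ i : ℂ) * L i z) *
        ∏ i, (z - X i) ^ κ i := by
      rw [Complex.exp_sum, ← Finset.prod_mul_distrib]
      refine Finset.prod_congr rfl fun i _ => ?_
      rw [← hexp i z, mul_pow, Complex.exp_nat_mul]
    have h2 : u z ^ (∑ j, κ j) * Complex.exp (∑ i, (κ i : ℂ) * L i z) = 1 := by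
      simp only [hu]
      rw [← Complex.exp_nat_mul, ← Complex.exp_add]
      have h3 : (((∑ j, κ j : ℕ) : ℕ) : ℂ) = ∑ i, (κ i : ℂ) := by push_cast; rfl
      rcases Nat.eq_zero_or_pos (∑ j, κ j) with h0 | h0
      · have hemp : ∀ i : Fin r, False := by
          intro i
          have := Finset.sum_eq_zero_iff.1 h0 i (Finset.mem_univ i)
          have := hκ i
          omega
        have hsum : ∑ i, (κ i : ℂ) * L i z = 0 :=
          Finset.sum_eq_zero fun i _ => (hemp i).elim
        rw [hsum, mul_zero, mul_zero, add_zero, Complex.exp_zero]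
      · have h4 : (∑ i, (κ i : ℂ)) ≠ 0 := by
          rw [← h3]
          exact_mod_cast h0.ne'
        rw [h3]
        have h5 : (∑ i, (κ i : ℂ)) * (-(1 / ∑ i, (κ i : ℂ)) * ∑ i, (κ i : ℂ) * L i z) +
            ∑ i, (κ i : ℂ) * L i z = 0 := by
          field_simp
          ring
        rw [h5, Complex.exp_zero]
    rw [h1, mul_assoc, ← mul_assoc (u z ^ _), h2, one_mul]
  · -- near the points
    intro j
    refine ⟨ρ, hρ, ?_⟩
    by_cases hj : j ∈ Z
    · have hb : ∀ z ∈ ball (X j) ρ, ‖z - z0‖ < 2 * ρ := by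
        intro z hz
        rw [mem_ball, dist_eq_norm] at hz
        have h1 := norm_add_le (z - X j) (X j - z0)
        rw [sub_add_sub_cancel] at h1
        have := hZ j hj
        linarith
      refine ⟨?_, ?_, ?_⟩
      · refine DifferentiableOn.cexp ((differentiableOn_const _).mul
          (DifferentiableOn.fun_sum fun i _ => (differentiableOn_const _).mul ?_))
        by_cases hi : i ∈ Z
        · exact (differentiableOn_const a).congr fun z hz => hLZ1 i hi z (hb z hz)
        · have h1 : ∀ z ∈ ball (X j) ρ, L i z = Complex.log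
              ((z0 + τ + Complex.exp a * (z - z0) - X' i) / (z - X i)) := by
            intro z hz
            rw [(hLn2 i hi z (by linarith [hb z hz])).1]
            simp only [hq]
            rw [haff z (hb z hz).le]
          refine DifferentiableOn.congr (T4_log ?_ _ _ ?_ ?_) h1
          · fun_prop
          · exact fun z hz => (hLn2 i hi z (by linarith [hb z hz])).2.2
          · intro z hz
            have h2 := (hLn2 i hi z (by linarith [hb z hz])).2.1
            simp only [hq] at h2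
            rwa [haff z (hb z hz).le] at h2
      · simp only [hu]
        congr 2
        refine Finset.sum_congr rfl fun i _ => ?_
        congr 1
        have hbj := hb (X j) (mem_ball_self hρ)
        have hhj : h (X j) = X' j := by rw [haff _ hbj.le, hXZ j hj]
        by_cases hij : i = j
        · rw [if_pos hij, if_pos hj, hij, hLZ1 j hj _ hbj]
        · rw [if_neg hij]
          have hne : X j - X i ≠ 0 := sub_ne_zero.2 fun h' => hij (hX h').symm
          by_cases hi : i ∈ Z
          · rw [hLZ1 i hi _ hbj]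
            have h1 := haffZ i hi (X j) hbj.le
            rw [hhj] at h1
            rw [h1, mul_div_cancel_right₀ _ hne, hloge]
          · rw [(hLn2 i hi _ (by linarith)).1]
            simp only [hq]
            rw [hhj]
      · intro z hz
        rw [if_pos hj, haff z (hb z hz).le, hXZ j hj]
        ring
    · have hb : ∀ z ∈ ball (X j) ρ, 3 * ρ < ‖z - z0‖ := by
        intro z hz
        rw [mem_ball, dist_eq_norm] at hz
        have h1 := norm_add_le (X j - z) (z - z0)
        rw [sub_add_sub_cancel, norm_sub_rev (X j) z] at h1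
        have := hZ' j hj
        linarith
      refine ⟨?_, ?_, ?_⟩
      · refine DifferentiableOn.cexp ((differentiableOn_const _).mul
          (DifferentiableOn.fun_sum fun i _ => (differentiableOn_const _).mul ?_))
        by_cases hi : i ∈ Z
        · have h1 : ∀ z ∈ ball (X j) ρ, L i z = Complex.log ((z - X' i) / (z - X i)) := by
            intro z hz
            rw [(hLZ2 i hi z (by linarith [hb z hz])).1]
            simp only [hq]
            rw [hout z (hb z hz).le]
          refine DifferentiableOn.congr (T4_log (H := fun z => z) ?_ _ _ ?_ ?_) h1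
          · fun_prop
          · exact fun z hz => (hLZ2 i hi z (by linarith [hb z hz])).2.2
          · intro z hz
            have h2 := (hLZ2 i hi z (by linarith [hb z hz])).2.1
            simp only [hq] at h2
            rwa [hout z (hb z hz).le] at h2
        · exact (differentiableOn_const (0 : ℂ)).congr fun z hz => hLn1 i hi z (hb z hz).le
      · simp only [hu]
        congr 2
        refine Finset.sum_congr rfl fun i _ => ?_
        congr 1
        have hbj := hb (X j) (mem_ball_self hρ)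
        have hhj : h (X j) = X' j := by rw [hout _ hbj.le, hXn j hj]
        by_cases hij : i = j
        · rw [if_pos hij, if_neg hj, hij, hLn1 j hj _ hbj.le]
        · rw [if_neg hij]
          have hne : X j - X i ≠ 0 := sub_ne_zero.2 fun h' => hij (hX h').symm
          by_cases hi : i ∈ Z
          · rw [(hLZ2 i hi _ (by linarith)).1]
            simp only [hq]
            rw [hhj]
          · rw [hLn1 i hi _ hbj.le, hXn j hj, hXn i hi, div_self hne, Complex.log_one]
      · intro z hz
        rw [if_neg hj, hout z (hb z hz).le, hXn j hj]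
        ring
  · intro j
    by_cases hj : j ∈ Z
    · rw [if_pos hj]; exact Complex.exp_ne_zero _
    · rw [if_neg hj]; exact one_ne_zero
  · exact fun j => Complex.exp_ne_zero _

end H24.LS
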