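import Pool.Agent.H24.LS.Base
import Pool.Agent.H24.LS.T1
import Pool.Agent.H24.LS.T4

/-!
# T5: any configuration can be moved to any other one

Proof.  Step 1 (one point).  Fix `j` and the other points.  On `S = ℂ \ {X_i : i ≠ j}` (complement of
a finite set: path connected, `Set.Countable.isPathConnected_compl_of_one_lt_rank` with
`Complex.rank_real_complex`) consider `z ~ z'` iff
`∃ ω, Mor κ c c (Function.update X j z) (Function.update X j z') (fun _ => 1) ω`.
By `mor_comp`, `mor_inv` it is symmetric and transitive.  It holds locally: for `z ∈ S` choose `ρ` with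
`4ρ < ‖X_i - z‖` for `i ≠ j`; `mor_elem` with `Z = {j}`, `z0 = z`, `a = 0`, `τ = z' - z`.  Conclude with
`IsPreconnected.induction₂` (or `IsPreconnected.induction₂'`).
Step 2.  Choose an injective `Y : Fin r → ℂ` with all `Y_j` different from all `X_i` and all `X'_i`
(avoid a finite set).  Move `X_1` to `Y_1`, then `X_2` to `Y_2`, ... (each intermediate
configuration is injective), so `X ~ Y`; in the same way `X' ~ Y`; hence `X ~ X'`.
-/

open Filter Topology Metric

namespace H24.LS

/-- related by some marked equivalence with `β = 1` -/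
private def T5_rel {r : ℕ} (κ : Fin r → ℕ) (c : ℂ) (X X' : Fin r → ℂ) : Prop :=
  ∃ ω : Fin r → ℂ, Mor κ c c X X' (fun _ => 1) ω

private theorem T5_trans {r : ℕ} {κ : Fin r → ℕ} {c : ℂ} {X X' X'' : Fin r → ℂ}
    (h : T5_rel κ c X X') (h' : T5_rel κ c X' X'') : T5_rel κ c X X'' := by
  obtain ⟨ω, h⟩ := h
  obtain ⟨ω', h'⟩ := h'
  have h2 := mor_comp h h'
  simp only [mul_one] at h2
  exact ⟨_, h2⟩

private theorem T5_symm {r : ℕ} {κ : Fin r → ℕ} {c : ℂ} {X X' : Fin r → ℂ}
    (h : T5_rel κ c X X') : T5_rel κ c X' X := by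
  obtain ⟨ω, h⟩ := h
  have h2 := mor_inv h
  simp only [inv_one] at h2
  exact ⟨_, h2⟩

private theorem T5_refl {r : ℕ} (κ : Fin r → ℕ) (c : ℂ) (X : Fin r → ℂ) : T5_rel κ c X X := by
  have h := mor_scal κ c X 1 one_ne_zero
  rw [one_pow, div_one] at h
  exact ⟨_, h⟩

private theorem T5_inj {r : ℕ} {X : Fin r → ℂ} (hX : Function.Injective X) {j : Fin r} {z : ℂ}
    (hz : ∀ i, i ≠ j → X i ≠ z) : Function.Injective (Function.update X j z) := by
  intro i i' h
  by_cases hi : i = j
  · by_cases hi' : i' = j
    · rw [hi, hi']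
    · rw [hi, Function.update_self, Function.update_of_ne hi'] at h
      exact absurd h.symm (hz i' hi')
  · by_cases hi' : i' = j
    · rw [hi', Function.update_self, Function.update_of_ne hi] at h
      exact absurd h (hz i hi)
    · rw [Function.update_of_ne hi, Function.update_of_ne hi'] at h
      exact hX h

private theorem T5_loc {r : ℕ} (κ : Fin r → ℕ) (hκ : ∀ j, 1 ≤ κ j) (c : ℂ) {X : Fin r → ℂ}
    (hX : Function.Injective X) (j : Fin r) {z : ℂ} (hz : ∀ i, i ≠ j → X i ≠ z) :
    ∀ᶠ z' in 𝓝 z, T5_rel κ c (Function.update X j z) (Function.update X j z') := by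
  classical
  have hρ : ∃ ρ > (0 : ℝ), ∀ i, i ≠ j → 4 * ρ < ‖X i - z‖ := by
    have h1 : ∀ᶠ ρ : ℝ in 𝓝[>] 0, ∀ i, i ≠ j → 4 * ρ < ‖X i - z‖ := by
      rw [eventually_all]
      intro i
      by_cases hi : i = j
      · exact Filter.Eventually.of_forall fun ρ h => absurd hi h
      · have h2 : 4 * (0 : ℝ) < ‖X i - z‖ := by
          rw [mul_zero]
          exact norm_pos_iff.2 (sub_ne_zero.2 (hz i hi))
        have h3 : ∀ᶠ ρ : ℝ in 𝓝 0, 4 * ρ < ‖X i - z‖ :=
          (continuous_const.mul continuous_id).continuousAt.eventually_lt_const h2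
        exact (h3.filter_mono nhdsWithin_le_nhds).mono fun ρ h _ => h
    obtain ⟨ρ, h2, h3⟩ := (h1.and self_mem_nhdsWithin).exists
    exact ⟨ρ, h3, h2⟩
  obtain ⟨ρ, hρ0, hρ⟩ := hρ
  obtain ⟨ε, hε, hmor⟩ := mor_elem κ hκ c (Function.update X j z) (T5_inj hX hz) {j} z ρ hρ0
    (by
      intro i hi
      rw [Finset.mem_singleton] at hi
      rw [hi, Function.update_self, sub_self, norm_zero]
      exact hρ0)
    (by
      intro i hi
      rw [Finset.mem_singleton] at hi
      rw [Function.update_of_ne hi]
      exact hρ i hi)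
  filter_upwards [ball_mem_nhds z hε] with z' hz'
  rw [mem_ball, dist_eq_norm] at hz'
  have h1 := hmor 0 (z' - z) (by rwa [norm_zero]) hz' (Function.update X j z')
    (by
      intro i hi
      rw [Finset.mem_singleton] at hi
      rw [hi, Function.update_self, Function.update_self, sub_self, mul_zero, add_zero,
        add_sub_cancel])
    (by
      intro i hi
      rw [Finset.mem_singleton] at hi
      rw [Function.update_of_ne hi, Function.update_of_ne hi])
  simp only [Complex.exp_zero, ite_self] at h1
  exact ⟨_, h1⟩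

private theorem T5_one {r : ℕ} (κ : Fin r → ℕ) (hκ : ∀ j, 1 ≤ κ j) (c : ℂ) {X : Fin r → ℂ}
    (hX : Function.Injective X) (j : Fin r) {z z' : ℂ} (hz : ∀ i, i ≠ j → X i ≠ z)
    (hz' : ∀ i, i ≠ j → X i ≠ z') :
    T5_rel κ c (Function.update X j z) (Function.update X j z') := by
  set T : Set ℂ := {w | ∃ i, i ≠ j ∧ X i = w} with hT
  have hTf : T.Finite := by
    refine (Set.finite_range X).subset ?_
    rintro w ⟨i, -, hi⟩
    exact ⟨i, hi⟩
  have hrank : 1 < Module.rank ℝ ℂ := by
    rw [Complex.rank_real_complex]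
    exact Cardinal.one_lt_two
  have hconn : IsPreconnected Tᶜ :=
    (hTf.countable.isPathConnected_compl_of_one_lt_rank hrank).isConnected.isPreconnected
  have hmem : ∀ w, w ∈ Tᶜ ↔ ∀ i, i ≠ j → X i ≠ w := by
    intro w
    simp only [hT, Set.mem_compl_iff, Set.mem_ofPred_eq, not_exists, not_and]
  refine hconn.induction₂ (fun z z' => T5_rel κ c (Function.update X j z) (Function.update X j z'))
    ?_ ?_ ?_ ((hmem z).2 hz) ((hmem z').2 hz')
  · intro w hw
    exact (T5_loc κ hκ c hX j ((hmem w).1 hw)).filter_mono nhdsWithin_le_nhds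
  · intro x y z _ _ _ h1 h2
    exact T5_trans h1 h2
  · intro x y _ _ h1
    exact T5_symm h1

private theorem T5_far {r : ℕ} (κ : Fin r → ℕ) (hκ : ∀ j, 1 ≤ κ j) (c : ℂ) {X Y : Fin r → ℂ}
    (hX : Function.Injective X) (hY : Function.Injective Y) (hXY : ∀ i j, X i ≠ Y j) :
    T5_rel κ c X Y := by
  classical
  have key : ∀ A : Finset (Fin r), T5_rel κ c X (fun i => if i ∈ A then Y i else X i) := by
    intro A
    induction A using Finset.induction_on with
    | empty => simpa using T5_refl κ c X
    | insert j A hj ih =>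
      have hinj : Function.Injective (fun i => if i ∈ A then Y i else X i) := by
        intro i i' h
        simp only at h
        split_ifs at h with h1 h2 h2
        · exact hY h
        · exact absurd h.symm (hXY i' i)
        · exact absurd h (hXY i i')
        · exact hX h
      have h1 := T5_one κ hκ c hinj j (z := X j) (z' := Y j)
        (by
          intro i hi
          split_ifs with h
          · exact fun h' => hXY j i h'.symm
          · exact fun h' => hi (hX h'))
        (by
          intro i hi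
          split_ifs with h
          · exact fun h' => hi (hY h')
          · exact hXY i j)
      have h2 : Function.update (fun i => if i ∈ A then Y i else X i) j (X j) =
          fun i => if i ∈ A then Y i else X i := by
        have h3 : X j = (fun i => if i ∈ A then Y i else X i) j := by
          simp only [if_neg hj]
        conv_lhs => rw [h3]
        exact Function.update_eq_self j _
      have h4 : Function.update (fun i => if i ∈ A then Y i else X i) j (Y j) =
          fun i => if i ∈ insert j A then Y i else X i := by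
        funext i
        by_cases hi : i = j
        · subst hi
          rw [Function.update_self, if_pos (Finset.mem_insert_self _ _)]
        · rw [Function.update_of_ne hi]
          simp only [Finset.mem_insert, hi, false_or]
      rw [h2, h4] at h1
      exact T5_trans ih h1
  simpa using key Finset.univ

theorem mor_exists {r : ℕ} (κ : Fin r → ℕ) (hκ : ∀ j, 1 ≤ κ j) (c : ℂ) (X X' : Fin r → ℂ)
    (hX : Function.Injective X) (hX' : Function.Injective X') :
    ∃ ω : Fin r → ℂ, Mor κ c c X X' (fun _ => 1) ω := by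
  obtain ⟨M, hM⟩ := exists_nat_gt (∑ i, ‖X i‖ + ∑ i, ‖X' i‖)
  have hs0 : 0 ≤ ∑ i, ‖X i‖ := Finset.sum_nonneg fun _ _ => norm_nonneg _
  have hs0' : 0 ≤ ∑ i, ‖X' i‖ := Finset.sum_nonneg fun _ _ => norm_nonneg _
  have hsX : ∀ i, ‖X i‖ ≤ ∑ i, ‖X i‖ := fun i =>
    Finset.single_le_sum (f := fun i => ‖X i‖) (fun _ _ => norm_nonneg _) (Finset.mem_univ i)
  have hsX' : ∀ i, ‖X' i‖ ≤ ∑ i, ‖X' i‖ := fun i =>
    Finset.single_le_sum (f := fun i => ‖X' i‖) (fun _ _ => norm_nonneg _) (Finset.mem_univ i)
  set Y : Fin r → ℂ := fun i => ((M + i.val : ℕ) : ℂ) with hY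
  have hYi : Function.Injective Y := by
    intro i j h
    simp only [hY] at h
    have h1 : M + i.val = M + j.val := by exact_mod_cast h
    exact Fin.ext (by omega)
  have hYn : ∀ i, (M : ℝ) ≤ ‖Y i‖ := by
    intro i
    simp only [hY]
    rw [Complex.norm_natCast]
    push_cast
    have : (0 : ℝ) ≤ (i.val : ℝ) := Nat.cast_nonneg _
    linarith
  have h1 : T5_rel κ c X Y := T5_far κ hκ c hX hYi fun i j h => by
    have h2 := hYn j
    have h3 := hsX i
    rw [h] at h3
    linarith
  have h2 : T5_rel κ c X' Y := T5_far κ hκ c hX' hYi fun i j h => by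
    have h2 := hYn j
    have h3 := hsX' i
    rw [h] at h3
    linarith
  exact T5_trans h1 (T5_symm h2)

end H24.LS
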