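import Pool.Agent.H24.LS.Base
import Pool.Agent.H24.LS.T1
import Pool.Agent.H24.LS.T4

/-!
# T6: local twists

Proof.  By `mor_elem` with `Z = {j}`, `z0 = X_j`, `τ = 0` (then `X' = X`): for small `a` we get the
marking `β_j = exp a`, others `1`, and `ω_l = exp (-(1/k) Σ_i κ_i (...))`: for `l = j` the term `i = j`
gives `a`, the terms `i ≠ j` give `log 1 = 0`; for `l ≠ j` all terms are `log 1 = 0` or `0`.
So `ω_j = exp (-κ_j a/k)`, `ω_l = 1`.  For general `a` apply this with `a/M` (`M` large) and
compose `M` times (`mor_comp`, induction on the number of factors).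
-/

open Filter Topology Metric

namespace H24.LS

theorem T6_small {r : ℕ} (κ : Fin r → ℕ) (hκ : ∀ j, 1 ≤ κ j) (c : ℂ) (X : Fin r → ℂ)
    (hX : Function.Injective X) (j : Fin r) : ∃ ε > (0 : ℝ), ∀ a : ℂ, ‖a‖ < ε →
    Mor κ c c X X (fun i => if i = j then Complex.exp a else 1)
      (fun i => if i = j then Complex.exp (-((κ j : ℂ) * a / (∑ i, κ i : ℂ))) else 1) := by
  have hev : ∀ᶠ ρ in 𝓝[>] (0 : ℝ), ∀ i : Fin r, i ≠ j → 4 * ρ < ‖X i - X j‖ := by
    rw [Filter.eventually_all]
    intro i
    by_cases hi : i = j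
    · exact Eventually.of_forall fun ρ h => absurd hi h
    · have h1 : 0 < ‖X i - X j‖ := norm_pos_iff.2 (sub_ne_zero.2 (hX.ne hi))
      have h2 : Tendsto (fun ρ : ℝ => 4 * ρ) (𝓝[>] 0) (𝓝 0) := by
        have : Continuous fun ρ : ℝ => 4 * ρ := by fun_prop
        have := this.tendsto 0
        rw [mul_zero] at this
        exact this.mono_left nhdsWithin_le_nhds
      filter_upwards [h2.eventually (gt_mem_nhds h1)] with ρ hρ _
      exact hρ
  obtain ⟨ρ, hρ, hρ0⟩ := (hev.and self_mem_nhdsWithin).exists
  have hρ0' : 0 < ρ := hρ0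
  obtain ⟨ε, hε, h⟩ := mor_elem κ hκ c X hX {j} (X j) ρ hρ0'
    (by
      intro i hi
      rw [Finset.mem_singleton] at hi
      rw [hi, sub_self, norm_zero]
      exact hρ0')
    (by
      intro i hi
      rw [Finset.mem_singleton] at hi
      exact hρ i hi)
  refine ⟨ε, hε, fun a ha => ?_⟩
  have key := h a 0 ha (by simpa using hε) X
    (by
      intro i hi
      rw [Finset.mem_singleton] at hi
      rw [hi]
      ring) (fun i _ => rfl)
  convert key using 1
  · funext i
    simp only [Finset.mem_singleton]
  · funext l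
    have hsum : ∑ i, (κ i : ℂ) * (if i = l then (if l ∈ ({j} : Finset (Fin r)) then a else 0)
        else Complex.log ((X l - X i) / (X l - X i))) =
        (κ l : ℂ) * (if l = j then a else 0) := by
      rw [Finset.sum_eq_single l]
      · rw [if_pos rfl]
        simp only [Finset.mem_singleton]
      · intro i _ hi
        rw [if_neg hi, div_self (sub_ne_zero.2 fun h' => hi (hX h').symm), Complex.log_one,
          mul_zero]
      · intro h'
        exact absurd (Finset.mem_univ l) h'
    rw [hsum]
    by_cases hl : l = j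
    · rw [if_pos hl, if_pos hl, hl]
      congr 1
      ring
    · rw [if_neg hl, if_neg hl, mul_zero, mul_zero, Complex.exp_zero]

theorem mor_twist {r : ℕ} (κ : Fin r → ℕ) (hκ : ∀ j, 1 ≤ κ j) (c : ℂ) (X : Fin r → ℂ)
    (hX : Function.Injective X) (j : Fin r) (a : ℂ) :
    Mor κ c c X X (fun i => if i = j then Complex.exp a else 1)
      (fun i => if i = j then Complex.exp (-((κ j : ℂ) * a / (∑ i, κ i : ℂ))) else 1) := by
  obtain ⟨ε, hε, h⟩ := T6_small κ hκ c X hX j
  obtain ⟨M, hM⟩ := exists_nat_gt (‖a‖ / ε)
  have hM0 : (0 : ℝ) < M := lt_of_le_of_lt (by positivity) hM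
  have hMc : (M : ℂ) ≠ 0 := by
    have : (M : ℝ) ≠ 0 := hM0.ne'
    exact_mod_cast this
  have ha' : ‖a / M‖ < ε := by
    rw [norm_div, Complex.norm_natCast, div_lt_iff₀ hM0]
    rw [div_lt_iff₀ hε] at hM
    linarith
  have key : ∀ m : ℕ, Mor κ c c X X (fun i => if i = j then Complex.exp (m * (a / M)) else 1)
      (fun i => if i = j then
        Complex.exp (-((κ j : ℂ) * (m * (a / M)) / (∑ i, κ i : ℂ))) else 1) := by
    intro m
    induction m with
    | zero =>
      have := h 0 (by simpa using hε)
      simpa using this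
    | succ m ih =>
      have h1 := mor_comp ih (h (a / M) ha')
      convert h1 using 1
      · funext i
        by_cases hi : i = j
        · rw [if_pos hi, if_pos hi, if_pos hi, ← Complex.exp_add]
          congr 1
          push_cast
          ring
        · rw [if_neg hi, if_neg hi, if_neg hi, mul_one]
      · funext i
        by_cases hi : i = j
        · rw [if_pos hi, if_pos hi, if_pos hi, ← Complex.exp_add]
          congr 1
          push_cast
          ring
        · rw [if_neg hi, if_neg hi, if_neg hi, mul_one]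
  have h2 := key M
  have e : (M : ℂ) * (a / M) = a := by field_simp
  rwa [e] at h2

end H24.LS
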