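import Pool.Agent.H24.LS.Base
import Pool.Agent.H24.LS.T1
import Pool.Agent.H24.LS.T4

/-!
# T7: full twist around a disc containing the points of `Z`

Proof.  Let `M` be large, `a = 2 π i/M`, `X^{(s)}_l = z0 + exp(s a) (X_l - z0)` for `l ∈ Z`,
`X^{(s)}_l = X_l` otherwise, `s = 0..M`; `X^{(M)} = X^{(0)} = X`.  The configurations `X^{(s)}` all
satisfy the hypotheses (same distances to `z0`).  `mor_elem` gives an `ε` for each configuration
`X^{(s)}`; one needs an `ε` that works for all `s` simultaneously (`M` depends on `ε`!).  To get it: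
apply `mor_elem` to the configuration rotated by angle `t`, `X^t_l = z0 + exp(i t)(X_l - z0)`
(`l ∈ Z`), for every `t ∈ [0, 2π]`, and use compactness/connectedness instead of a uniform `ε`:
consider the relation on `[0, 2π]`: `s ~ t` iff
`Mor κ c c X^s X^t (β = exp(i(t-s)) on Z) (ω = explicit formula W(s,t))` with
`W_l(s,t) = exp (-(1/k) Σ_i κ_i λ_{il}(s,t))`, where `λ_{il}(s,t) = i (t-s)` if `i, l ∈ Z`, `0` if
`i, l ∉ Z`, and for `l ∈ Z, i ∉ Z` (resp. `i ∈ Z, l ∉ Z`)
`λ_{il}(s,t) = log (1 - (X^t_l - z0)/(X_i - z0)) - log (1 - (X^s_l - z0)/(X_i - z0))`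
(resp. with `i, l` exchanged); note that `‖(X_l - z0)/(X_i - z0)‖ < 1/4`, so these are logs of numbers
within `1/4` of `1` and for `s, t` close `log ((X^t_l - X_i)/(X^s_l - X_i))` equals this difference.
`W` is additive: `W(s,t) W(t,v) = W(s,v)`; so the relation is transitive and symmetric
(`mor_comp`, `mor_inv`) and it holds locally by `mor_elem`.  `[0, 2π]` is connected, hence `0 ~ 2π`,
and `X^0 = X^{2π} = X`, `β = exp(2π i) = 1`, the `λ_{il}(0,2π)` vanish unless `i, l ∈ Z`, where they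
are `2 π i`.
-/

open Filter Topology Metric

namespace H24.LS

/-- the rotated configuration -/
noncomputable def T7X {r : ℕ} (X : Fin r → ℂ) (Z : Finset (Fin r)) (z0 : ℂ) (t : ℝ) :
    Fin r → ℂ :=
  fun l => if l ∈ Z then z0 + Complex.exp (Complex.I * t) * (X l - z0) else X l

/-- the logarithmic potentials -/
noncomputable def T7L {r : ℕ} (X : Fin r → ℂ) (Z : Finset (Fin r)) (z0 : ℂ) (i l : Fin r)
    (t : ℝ) : ℂ :=
  if i ∈ Z then
    (if l ∈ Z then Complex.I * t
      else Complex.log (1 - Complex.exp (Complex.I * t) * ((X i - z0) / (X l - z0))))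
  else
    (if l ∈ Z then Complex.log (1 - Complex.exp (Complex.I * t) * ((X l - z0) / (X i - z0)))
      else 0)

/-- the marking -/
noncomputable def T7W {r : ℕ} (κ : Fin r → ℕ) (X : Fin r → ℂ) (Z : Finset (Fin r)) (z0 : ℂ)
    (t : ℝ) (l : Fin r) : ℂ :=
  Complex.exp (-(1 / (∑ i, κ i : ℂ)) * ∑ i, (κ i : ℂ) * T7L X Z z0 i l t)

theorem T7_norm_exp (t : ℝ) : ‖Complex.exp (Complex.I * t)‖ = 1 := by
  rw [mul_comm]
  exact Complex.norm_exp_ofReal_mul_I t

theorem T7_exp_ne (t : ℝ) : Complex.exp (Complex.I * t) ≠ 0 := Complex.exp_ne_zero _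

theorem T7_exp_sub (s t : ℝ) :
    Complex.exp (Complex.I * ((t - s : ℝ) : ℂ)) * Complex.exp (Complex.I * s) =
      Complex.exp (Complex.I * t) := by
  rw [← Complex.exp_add]
  congr 1
  push_cast
  ring

/-- logarithm of a quotient of numbers in the right half plane -/
theorem T7_log_div {u v : ℂ} (hu : 0 < u.re) (hv : 0 < v.re) :
    Complex.log (u / v) = Complex.log u - Complex.log v := by
  have hu0 : u ≠ 0 := by
    rintro rfl
    simp at hu
  have hv0 : v ≠ 0 := by
    rintro rfl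
    simp at hv
  have h1 := abs_lt.mp (Complex.abs_arg_lt_pi_div_two_iff.mpr (Or.inl hu))
  have h2 := abs_lt.mp (Complex.abs_arg_lt_pi_div_two_iff.mpr (Or.inl hv))
  have h3 : Complex.exp (Complex.log u - Complex.log v) = u / v := by
    rw [Complex.exp_sub, Complex.exp_log hu0, Complex.exp_log hv0]
  rw [← h3]
  apply Complex.log_exp
  · rw [Complex.sub_im, Complex.log_im, Complex.log_im]
    linarith
  · rw [Complex.sub_im, Complex.log_im, Complex.log_im]
    linarith

theorem T7_re_pos {w : ℂ} (hw : ‖w‖ < 1) : 0 < (1 - w).re := by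
  rw [Complex.sub_re, Complex.one_re]
  have := (Complex.abs_re_le_norm w)
  have := le_abs_self w.re
  linarith

section

variable {r : ℕ} {κ : Fin r → ℕ} {c : ℂ} {X : Fin r → ℂ} {Z : Finset (Fin r)} {z0 : ℂ} {ρ : ℝ}

theorem T7X_mem {l : Fin r} (hl : l ∈ Z) (t : ℝ) :
    T7X X Z z0 t l = z0 + Complex.exp (Complex.I * t) * (X l - z0) := by
  unfold T7X
  rw [if_pos hl]

theorem T7X_notMem {l : Fin r} (hl : l ∉ Z) (t : ℝ) : T7X X Z z0 t l = X l := by
  unfold T7X
  rw [if_neg hl]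

theorem T7X_norm_mem {l : Fin r} (hl : l ∈ Z) (t : ℝ) :
    ‖T7X X Z z0 t l - z0‖ = ‖X l - z0‖ := by
  rw [T7X_mem hl, add_sub_cancel_left, norm_mul, T7_norm_exp, one_mul]

theorem T7X_inj (hX : Function.Injective X) (hρ : 0 < ρ)
    (hZ : ∀ j ∈ Z, ‖X j - z0‖ < ρ) (hZ' : ∀ j, j ∉ Z → 4 * ρ < ‖X j - z0‖) (t : ℝ) :
    Function.Injective (T7X X Z z0 t) := by
  intro a b hab
  by_cases ha : a ∈ Z
  · by_cases hb : b ∈ Z
    · rw [T7X_mem ha, T7X_mem hb] at hab
      have h1 := mul_left_cancel₀ (T7_exp_ne t) (add_left_cancel hab)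
      exact hX (sub_left_inj.mp h1)
    · exfalso
      have h1 := T7X_norm_mem (X := X) (z0 := z0) ha t
      rw [hab, T7X_notMem hb] at h1
      have h2 := hZ a ha
      have h3 := hZ' b hb
      linarith
  · by_cases hb : b ∈ Z
    · exfalso
      have h1 := T7X_norm_mem (X := X) (z0 := z0) hb t
      rw [← hab, T7X_notMem ha] at h1
      have h2 := hZ b hb
      have h3 := hZ' a ha
      linarith
    · rw [T7X_notMem ha, T7X_notMem hb] at hab
      exact hX hab

/-- the quotient `q` has norm less than `1` -/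
theorem T7_q (hρ : 0 < ρ)
    (hZ : ∀ j ∈ Z, ‖X j - z0‖ < ρ) (hZ' : ∀ j, j ∉ Z → 4 * ρ < ‖X j - z0‖) {i l : Fin r}
    (hi : i ∈ Z) (hl : l ∉ Z) (t : ℝ) :
    ‖Complex.exp (Complex.I * t) * ((X i - z0) / (X l - z0))‖ < 1 := by
  rw [norm_mul, T7_norm_exp, one_mul, norm_div]
  have h1 := hZ i hi
  have h2 := hZ' l hl
  have h3 : 0 < ‖X l - z0‖ := by linarith
  rw [div_lt_one h3]
  linarith

theorem T7_ne (hρ : 0 < ρ) (hZ' : ∀ j, j ∉ Z → 4 * ρ < ‖X j - z0‖) {l : Fin r}
    (hl : l ∉ Z) : X l - z0 ≠ 0 := by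
  intro h
  have := hZ' l hl
  rw [h, norm_zero] at this
  linarith

/-- the ratio in the mixed case -/
theorem T7_ratio (hρ : 0 < ρ)
    (hZ : ∀ j ∈ Z, ‖X j - z0‖ < ρ) (hZ' : ∀ j, j ∉ Z → 4 * ρ < ‖X j - z0‖) {i l : Fin r}
    (hi : i ∈ Z) (hl : l ∉ Z) (s t : ℝ) :
    Complex.log ((T7X X Z z0 t i - X l) / (T7X X Z z0 s i - X l)) =
      Complex.log (1 - Complex.exp (Complex.I * t) * ((X i - z0) / (X l - z0)))
      - Complex.log (1 - Complex.exp (Complex.I * s) * ((X i - z0) / (X l - z0))) := by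
  have hne := T7_ne hρ hZ' hl
  rw [← T7_log_div (T7_re_pos (T7_q hρ hZ hZ' hi hl t)) (T7_re_pos (T7_q hρ hZ hZ' hi hl s))]
  congr 1
  have e : ∀ t : ℝ, T7X X Z z0 t i - X l =
      -(X l - z0) * (1 - Complex.exp (Complex.I * t) * ((X i - z0) / (X l - z0))) := by
    intro t
    rw [T7X_mem hi]
    field_simp
    ring
  rw [e t, e s, mul_div_mul_left _ _ (neg_ne_zero.mpr hne)]

/-- the relation -/
def T7R (κ : Fin r → ℕ) (c : ℂ) (X : Fin r → ℂ) (Z : Finset (Fin r)) (z0 : ℂ) (s t : ℝ) : Prop :=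
  Mor κ c c (T7X X Z z0 s) (T7X X Z z0 t)
    (fun l => if l ∈ Z then Complex.exp (Complex.I * ((t - s : ℝ) : ℂ)) else 1)
    (fun l => T7W κ X Z z0 t l / T7W κ X Z z0 s l)

theorem T7_congr {c' : ℂ} {X X' β ω β' ω' : Fin r → ℂ}
    (h : Mor κ c c' X X' β ω) (hβ : ∀ j, β' j = β j) (hω : ∀ j, ω' j = ω j) :
    Mor κ c c' X X' β' ω' := by
  have h1 : β' = β := funext hβ
  have h2 : ω' = ω := funext hω
  rw [h1, h2]
  exact h

theorem T7W_ne (t : ℝ) (l : Fin r) : T7W κ X Z z0 t l ≠ 0 := Complex.exp_ne_zero _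

theorem T7R_trans {s t v : ℝ} (h1 : T7R κ c X Z z0 s t) (h2 : T7R κ c X Z z0 t v) :
    T7R κ c X Z z0 s v := by
  refine T7_congr (mor_comp h1 h2) (fun j => ?_) (fun j => ?_)
  · by_cases hj : j ∈ Z
    · simp only [if_pos hj]
      rw [← Complex.exp_add]
      congr 1
      push_cast
      ring
    · simp only [if_neg hj, mul_one]
  · have a1 := T7W_ne (κ := κ) (X := X) (Z := Z) (z0 := z0) t j
    have a2 := T7W_ne (κ := κ) (X := X) (Z := Z) (z0 := z0) s j
    field_simp

theorem T7R_symm {s t : ℝ} (h1 : T7R κ c X Z z0 s t) : T7R κ c X Z z0 t s := by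
  refine T7_congr (mor_inv h1) (fun j => ?_) (fun j => ?_)
  · by_cases hj : j ∈ Z
    · simp only [if_pos hj]
      rw [← Complex.exp_neg]
      congr 1
      push_cast
      ring
    · simp only [if_neg hj, inv_one]
  · rw [inv_div]

theorem T7R_loc (hκ : ∀ j, 1 ≤ κ j) (hX : Function.Injective X) (hρ : 0 < ρ)
    (hZ : ∀ j ∈ Z, ‖X j - z0‖ < ρ) (hZ' : ∀ j, j ∉ Z → 4 * ρ < ‖X j - z0‖) (s : ℝ) :
    ∀ᶠ t in 𝓝 s, T7R κ c X Z z0 s t := by
  obtain ⟨ε, hε, hE⟩ := mor_elem κ hκ c (T7X X Z z0 s) (T7X_inj hX hρ hZ hZ' s) Z z0 ρ hρ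
    (fun j hj => by rw [T7X_norm_mem hj]; exact hZ j hj)
    (fun j hj => by rw [T7X_notMem hj]; exact hZ' j hj)
  have hε' : 0 < min ε 1 := lt_min hε one_pos
  filter_upwards [ball_mem_nhds s hε'] with t ht
  rw [mem_ball, Real.dist_eq] at ht
  have ht1 : |t - s| < ε := ht.trans_le (min_le_left _ _)
  have ht2 : |t - s| < 1 := ht.trans_le (min_le_right _ _)
  have hpi := Real.pi_gt_three
  have hlog : Complex.log (Complex.exp (Complex.I * ((t - s : ℝ) : ℂ))) =
      Complex.I * ((t - s : ℝ) : ℂ) := by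
    have h1 := abs_lt.mp ht2
    have him : (Complex.I * ((t - s : ℝ) : ℂ)).im = t - s := by
      rw [Complex.I_mul_im, Complex.ofReal_re]
    apply Complex.log_exp
    · rw [him]; linarith
    · rw [him]; linarith
  have h := hE (Complex.I * ((t - s : ℝ) : ℂ)) 0 (by
      rw [norm_mul, Complex.norm_I, one_mul, Complex.norm_real, Real.norm_eq_abs]
      exact ht1) (by rw [norm_zero]; exact hε) (T7X X Z z0 t)
    (fun j hj => by
      rw [T7X_mem hj, T7X_mem hj, add_zero, add_sub_cancel_left, ← mul_assoc, T7_exp_sub])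
    (fun j hj => by rw [T7X_notMem hj, T7X_notMem hj])
  refine T7_congr h (fun j => rfl) (fun j => ?_)
  unfold T7W
  rw [← Complex.exp_sub]
  congr 1
  rw [← mul_sub, ← Finset.sum_sub_distrib]
  congr 1
  refine Finset.sum_congr rfl fun i _ => ?_
  rw [← mul_sub]
  congr 1
  by_cases hj : j ∈ Z
  · by_cases hi : i ∈ Z
    · have e1 : T7L X Z z0 i j t - T7L X Z z0 i j s = Complex.I * ((t - s : ℝ) : ℂ) := by
        unfold T7L
        rw [if_pos hi, if_pos hj, if_pos hi, if_pos hj]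
        push_cast
        ring
      rw [e1]
      by_cases hij : i = j
      · rw [if_pos hij, if_pos hj]
      · rw [if_neg hij]
        have hne : X j - X i ≠ 0 := sub_ne_zero.mpr fun h => hij (hX h).symm
        have e2 : ∀ t : ℝ, T7X X Z z0 t j - T7X X Z z0 t i =
            Complex.exp (Complex.I * t) * (X j - X i) := by
          intro t
          rw [T7X_mem hj, T7X_mem hi]
          ring
        rw [e2 t, e2 s, mul_div_mul_right _ _ hne, ← Complex.exp_sub]
        have e3 : Complex.I * (t : ℂ) - Complex.I * s = Complex.I * ((t - s : ℝ) : ℂ) := by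
          push_cast
          ring
        rw [e3, hlog]
    · have hij : i ≠ j := fun h => hi (h ▸ hj)
      rw [if_neg hij]
      unfold T7L
      rw [if_neg hi, if_pos hj, if_neg hi, if_pos hj, T7X_notMem hi, T7X_notMem hi]
      exact (T7_ratio hρ hZ hZ' hj hi s t).symm
  · by_cases hi : i ∈ Z
    · have hij : i ≠ j := fun h => hj (h ▸ hi)
      rw [if_neg hij]
      unfold T7L
      rw [if_pos hi, if_neg hj, if_pos hi, if_neg hj, T7X_notMem hj, T7X_notMem hj]
      have := (T7_ratio hρ hZ hZ' hi hj s t).symm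
      rw [this]
      congr 1
      rw [← neg_sub (T7X X Z z0 t i), ← neg_sub (T7X X Z z0 s i), neg_div_neg_eq]
    · have e1 : T7L X Z z0 i j t - T7L X Z z0 i j s = 0 := by
        unfold T7L
        rw [if_neg hi, if_neg hj, if_neg hi, if_neg hj, sub_zero]
      rw [e1]
      by_cases hij : i = j
      · rw [if_pos hij, if_neg hj]
      · rw [if_neg hij, T7X_notMem hj, T7X_notMem hi, T7X_notMem hj, T7X_notMem hi,
          div_self (sub_ne_zero.mpr fun h => hij (hX h).symm), Complex.log_one]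

end

theorem mor_fulltwist {r : ℕ} (κ : Fin r → ℕ) (hκ : ∀ j, 1 ≤ κ j) (c : ℂ) (X : Fin r → ℂ)
    (hX : Function.Injective X)
    (Z : Finset (Fin r)) (z0 : ℂ) (ρ : ℝ) (hρ : 0 < ρ)
    (hZ : ∀ j ∈ Z, ‖X j - z0‖ < ρ) (hZ' : ∀ j, j ∉ Z → 4 * ρ < ‖X j - z0‖) :
    Mor κ c c X X (fun _ => 1)
      (fun j => if j ∈ Z then
        Complex.exp (-(2 * Real.pi * Complex.I * (∑ i ∈ Z, (κ i : ℂ)) / (∑ i, κ i : ℂ)))
        else 1) := by
  classical
  have hR : T7R κ c X Z z0 0 (2 * Real.pi) := by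
    refine IsPreconnected.induction₂ (s := Set.univ) isPreconnected_univ
      (T7R κ c X Z z0) (fun s _ => ?_) (fun _ _ _ _ _ _ h1 h2 => T7R_trans h1 h2)
      (fun _ _ _ _ h => T7R_symm h) (Set.mem_univ 0) (Set.mem_univ (2 * Real.pi))
    rw [nhdsWithin_univ]
    exact T7R_loc hκ hX hρ hZ hZ' s
  have hexp : Complex.exp (Complex.I * ((2 * Real.pi : ℝ) : ℂ)) = 1 := by
    have : Complex.I * ((2 * Real.pi : ℝ) : ℂ) = 2 * Real.pi * Complex.I := by
      push_cast
      ring
    rw [this, Complex.exp_two_pi_mul_I]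
  have hexp0 : Complex.exp (Complex.I * ((0 : ℝ) : ℂ)) = 1 := by simp
  have hX0 : T7X X Z z0 0 = X := by
    funext l
    unfold T7X
    rw [hexp0]
    split_ifs <;> ring
  have hX1 : T7X X Z z0 (2 * Real.pi) = X := by
    funext l
    unfold T7X
    rw [hexp]
    split_ifs <;> ring
  unfold T7R at hR
  rw [hX0, hX1] at hR
  refine T7_congr hR (fun j => ?_) (fun j => ?_)
  · rw [sub_zero, hexp, ite_self]
  · unfold T7W
    rw [← Complex.exp_sub, ← mul_sub, ← Finset.sum_sub_distrib]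
    by_cases hj : j ∈ Z
    · rw [if_pos hj]
      congr 1
      have e : ∀ i : Fin r, (κ i : ℂ) * T7L X Z z0 i j (2 * Real.pi) -
          (κ i : ℂ) * T7L X Z z0 i j 0 = if i ∈ Z then (κ i : ℂ) * (2 * Real.pi * Complex.I)
            else 0 := by
        intro i
        unfold T7L
        rw [hexp, hexp0]
        by_cases hi : i ∈ Z
        · simp only [if_pos hi, if_pos hj]
          push_cast
          ring
        · simp only [if_neg hi, if_pos hj, sub_self]
      simp only [e]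
      rw [← Finset.sum_filter, Finset.filter_mem_eq_inter, Finset.univ_inter, ← Finset.sum_mul]
      ring
    · rw [if_neg hj]
      have e : ∀ i : Fin r, (κ i : ℂ) * T7L X Z z0 i j (2 * Real.pi) -
          (κ i : ℂ) * T7L X Z z0 i j 0 = 0 := by
        intro i
        unfold T7L
        rw [hexp, hexp0]
        by_cases hi : i ∈ Z
        · simp only [if_pos hi, if_neg hj, sub_self]
        · simp only [if_neg hi, if_neg hj, sub_self]
      simp only [e, Finset.sum_const_zero, mul_zero, Complex.exp_zero]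

end H24.LS
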