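import Pool.Agent.H24.LS.Base
import Pool.Agent.H24.LS.T1
import Pool.Agent.H24.LS.T5
import Pool.Agent.H24.LS.T6
import Pool.Agent.H24.LS.T7

/-!
# T8: the braid generators and the realisation of all integral markings

* `mor_braid`: for `i ≠ j` the marking `ω_i = exp (-2πi κ_j/k)`, `ω_j = exp (-2πi κ_i/k)`, others `1`
  (and `β = 1`) is realised by a self-equivalence of `(c, X)`.
  Proof.  Choose an injective configuration `Y` with `Y_i = 0`, `Y_j = 1/2`, all others at distance
  `> 4` from `0` (`z0 = 0`, `ρ = 1`), e.g. `Y_l = 5 + l`.  `mor_exists`: `Mor κ c c X Y 1 ω0`.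
  Compose `X → Y` (marking `ω0`), the full twist of `Z = {i,j}` on `Y` (`mor_fulltwist`), and the
  inverse `Y → X` (marking `ω0⁻¹`): self-equivalence of `X` with marking
  `exp (-2πi (κ_i+κ_j)/k)` at `i, j`, `1` elsewhere.  Compose with `mor_twist` at `i` and at `j` with
  `a = -2πi` (`exp a = 1`): multiplies `ω_i` by `exp (2πi κ_i/k)` and `ω_j` by `exp (2πi κ_j/k)`.
* `mor_integral`: let `S` be a symmetric integer matrix.  The marking
  `ω_j = exp (-2πi (Σ_l S_{jl} κ_l)/k)` is realised.  Proof: the set of `ω` with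
  `Mor κ c c X X (fun _ => 1) ω` is closed under products and inverses (hence integer powers);
  the marking is the product over `i < j` of (`mor_braid i j`)^{S_ij} and over `j` of
  (`mor_twist j (2πi)`)^{S_jj}.
* `exists_symm`: for a primitive vector every integer vector is `S κ0` with `S` symmetric:
  with `Σ a_j κ0_j = 1` (Bezout: `Finset.univ.gcd κ0 = 1`, e.g. `Finset.gcd_eq_sum_mul`-type lemma or
  `Ideal.span` of integers), `S = n aᵀ + a nᵀ - (Σ κ0_i n_i) a aᵀ`.
-/

open Filter Topology Metric

namespace H24.LS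

theorem T8_one {r : ℕ} (κ : Fin r → ℕ) (c : ℂ) (X : Fin r → ℂ) :
    Mor κ c c X X (fun _ => 1) (fun _ => 1) := by
  have h := mor_scal κ c X 1 one_ne_zero
  rwa [one_pow, div_one] at h

theorem T8_congr {r : ℕ} {κ : Fin r → ℕ} {c c' : ℂ} {X X' β ω β' ω' : Fin r → ℂ}
    (h : Mor κ c c' X X' β ω) (hβ : ∀ j, β' j = β j) (hω : ∀ j, ω' j = ω j) :
    Mor κ c c' X X' β' ω' := by
  have h1 : β' = β := funext hβ
  have h2 : ω' = ω := funext hω
  rw [h1, h2]
  exact h

/-- the exponents `w` for which the marking `exp (-2πi w_j / k)` is realised -/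
noncomputable def T8A {r : ℕ} (κ : Fin r → ℕ) (c : ℂ) (X : Fin r → ℂ) :
    AddSubgroup (Fin r → ℂ) where
  carrier := {w | Mor κ c c X X (fun _ => 1)
    (fun j => Complex.exp (-(2 * Real.pi * Complex.I * w j / (∑ i, κ i : ℂ))))}
  zero_mem' := T8_congr (T8_one κ c X) (fun _ => rfl) (fun j => by simp)
  add_mem' := by
    intro a b ha hb
    refine T8_congr (mor_comp ha hb) (fun _ => by simp) (fun j => ?_)
    rw [← Complex.exp_add, Pi.add_apply]
    congr 1
    ring
  neg_mem' := by
    intro a ha
    refine T8_congr (mor_inv ha) (fun _ => by simp) (fun j => ?_)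
    rw [← Complex.exp_neg, Pi.neg_apply]
    congr 1
    ring

theorem T8_mem {r : ℕ} {κ : Fin r → ℕ} {c : ℂ} {X : Fin r → ℂ} {w : Fin r → ℂ} :
    w ∈ T8A κ c X ↔ Mor κ c c X X (fun _ => 1)
      (fun j => Complex.exp (-(2 * Real.pi * Complex.I * w j / (∑ i, κ i : ℂ)))) := Iff.rfl

theorem T8_twist_mem {r : ℕ} (κ : Fin r → ℕ) (hκ : ∀ j, 1 ≤ κ j) (c : ℂ) (X : Fin r → ℂ)
    (hX : Function.Injective X) (j : Fin r) :
    (Pi.single j (κ j : ℂ) : Fin r → ℂ) ∈ T8A κ c X := by
  rw [T8_mem]
  refine T8_congr (mor_twist κ hκ c X hX j (2 * Real.pi * Complex.I)) (fun l => ?_) (fun l => ?_)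
  · rw [Complex.exp_two_pi_mul_I, ite_self]
  · by_cases h : l = j
    · subst h
      rw [if_pos rfl, Pi.single_eq_same]
      congr 2
      ring
    · rw [if_neg h, Pi.single_eq_of_ne h]
      simp

theorem T8_full_mem {r : ℕ} (κ : Fin r → ℕ) (hκ : ∀ j, 1 ≤ κ j) (c : ℂ) (X : Fin r → ℂ)
    (hX : Function.Injective X) (i j : Fin r) (hij : i ≠ j) :
    (fun l => if l = i ∨ l = j then (κ i : ℂ) + κ j else 0 : Fin r → ℂ) ∈ T8A κ c X := by
  classical
  rw [T8_mem]
  set Y : Fin r → ℂ := fun l => if l = i then 0 else if l = j then 1 / 2 else (5 + (l : ℕ) : ℝ)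
    with hY
  have hYi : Y i = 0 := by simp [hY]
  have hYj : Y j = 1 / 2 := by simp [hY, hij.symm]
  have hYl : ∀ l, l ≠ i → l ≠ j → Y l = ((5 + (l : ℕ) : ℝ) : ℂ) := by
    intro l h1 h2
    simp only [hY, if_neg h1, if_neg h2]
  have hYn : ∀ l, l ≠ i → l ≠ j → 5 ≤ ‖Y l‖ := by
    intro l h1 h2
    rw [hYl l h1 h2, Complex.norm_real, Real.norm_eq_abs, abs_of_nonneg (by positivity)]
    have : (0 : ℝ) ≤ (l : ℕ) := by positivity
    linarith
  have hYinj : Function.Injective Y := by
    intro a b hab
    by_cases ha : a = i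
    · by_cases hb : b = i
      · rw [ha, hb]
      · exfalso
        by_cases hb' : b = j
        · rw [ha, hb', hYi, hYj] at hab
          norm_num at hab
        · have := hYn b hb hb'
          rw [← hab, ha, hYi, norm_zero] at this
          linarith
    · by_cases ha' : a = j
      · by_cases hb : b = i
        · exfalso
          rw [ha', hb, hYi, hYj] at hab
          norm_num at hab
        · by_cases hb' : b = j
          · rw [ha', hb']
          · exfalso
            have := hYn b hb hb'
            rw [← hab, ha', hYj] at this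
            norm_num at this
      · by_cases hb : b = i
        · exfalso
          have := hYn a ha ha'
          rw [hab, hb, hYi, norm_zero] at this
          linarith
        · by_cases hb' : b = j
          · exfalso
            have := hYn a ha ha'
            rw [hab, hb', hYj] at this
            norm_num at this
          · rw [hYl a ha ha', hYl b hb hb', Complex.ofReal_inj] at hab
            have h1 : ((a : ℕ) : ℝ) = ((b : ℕ) : ℝ) := by linarith
            exact Fin.ext (Nat.cast_injective h1)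
  obtain ⟨ω, hω⟩ := mor_exists κ hκ c X Y hX hYinj
  have h1 := mor_fulltwist κ hκ c Y hYinj {i, j} 0 1 one_pos (by
    intro l hl
    rw [Finset.mem_insert, Finset.mem_singleton] at hl
    rcases hl with rfl | rfl
    · rw [hYi]; simp
    · rw [hYj]; norm_num) (by
    intro l hl
    rw [Finset.mem_insert, Finset.mem_singleton, not_or] at hl
    have := hYn l hl.1 hl.2
    rw [sub_zero]
    linarith)
  have h2 := mor_comp (mor_comp hω h1) (mor_inv hω)
  have hωne : ∀ l, ω l ≠ 0 := by
    obtain ⟨φ, ψ, h⟩ := hω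
    exact h.hω
  refine T8_congr h2 (fun l => by simp) (fun l => ?_)
  simp only [Finset.mem_insert, Finset.mem_singleton]
  rw [Finset.sum_pair hij]
  by_cases hl : l = i ∨ l = j
  · rw [if_pos hl, if_pos hl]
    have := hωne l
    field_simp
  · rw [if_neg hl, if_neg hl]
    have := hωne l
    simp [this]

theorem T8_braid_mem {r : ℕ} (κ : Fin r → ℕ) (hκ : ∀ j, 1 ≤ κ j) (c : ℂ) (X : Fin r → ℂ)
    (hX : Function.Injective X) (i j : Fin r) (hij : i ≠ j) :
    (Pi.single i (κ j : ℂ) + Pi.single j (κ i : ℂ) : Fin r → ℂ) ∈ T8A κ c X := by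
  have h1 := T8_full_mem κ hκ c X hX i j hij
  have h2 := T8_twist_mem κ hκ c X hX i
  have h3 := T8_twist_mem κ hκ c X hX j
  have h4 := (T8A κ c X).sub_mem ((T8A κ c X).sub_mem h1 h2) h3
  convert h4 using 1
  funext l
  simp only [Pi.add_apply, Pi.sub_apply]
  by_cases hi : l = i
  · subst hi
    rw [Pi.single_eq_same, Pi.single_eq_same, Pi.single_eq_of_ne hij, Pi.single_eq_of_ne hij]
    simp
  · by_cases hj : l = j
    · subst hj
      rw [Pi.single_eq_same, Pi.single_eq_same, Pi.single_eq_of_ne hi, Pi.single_eq_of_ne hi]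
      simp
    · rw [Pi.single_eq_of_ne hi, Pi.single_eq_of_ne hi, Pi.single_eq_of_ne hj,
        Pi.single_eq_of_ne hj, if_neg (by tauto)]
      simp

theorem mor_braid {r : ℕ} (κ : Fin r → ℕ) (hκ : ∀ j, 1 ≤ κ j) (c : ℂ) (X : Fin r → ℂ)
    (hX : Function.Injective X) (i j : Fin r) (hij : i ≠ j) :
    Mor κ c c X X (fun _ => 1)
      (fun l => if l = i then Complex.exp (-(2 * Real.pi * Complex.I * (κ j : ℂ) / (∑ i, κ i : ℂ)))
        else if l = j then Complex.exp (-(2 * Real.pi * Complex.I * (κ i : ℂ) / (∑ i, κ i : ℂ)))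
        else 1) := by
  refine T8_congr (T8_mem.mp (T8_braid_mem κ hκ c X hX i j hij)) (fun _ => rfl) (fun l => ?_)
  simp only [Pi.add_apply]
  by_cases hi : l = i
  · subst hi
    rw [if_pos rfl, Pi.single_eq_same, Pi.single_eq_of_ne hij, add_zero]
  · by_cases hj : l = j
    · subst hj
      rw [if_neg hi, if_pos rfl, Pi.single_eq_same, Pi.single_eq_of_ne hi, zero_add]
    · rw [if_neg hi, if_neg hj, Pi.single_eq_of_ne hi, Pi.single_eq_of_ne hj]
      simp

theorem mor_integral {r : ℕ} (κ : Fin r → ℕ) (hκ : ∀ j, 1 ≤ κ j) (c : ℂ) (X : Fin r → ℂ)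
    (hX : Function.Injective X) (S : Fin r → Fin r → ℤ) (hS : ∀ i j, S i j = S j i) :
    Mor κ c c X X (fun _ => 1)
      (fun j => Complex.exp (-(2 * Real.pi * Complex.I * (∑ l, (S j l : ℂ) * (κ l : ℂ)) /
        (∑ i, κ i : ℂ)))) := by
  classical
  have key : (fun j => ∑ l, (S j l : ℂ) * (κ l : ℂ) : Fin r → ℂ) ∈ T8A κ c X := by
    have h1 : (∑ i, ∑ j, S i j • (if i < j then
        (Pi.single i (κ j : ℂ) + Pi.single j (κ i : ℂ) : Fin r → ℂ)
        else if i = j then Pi.single i (κ i : ℂ) else 0)) ∈ T8A κ c X := by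
      refine AddSubgroup.sum_mem _ fun i _ => AddSubgroup.sum_mem _ fun j _ =>
        AddSubgroup.zsmul_mem _ ?_ _
      by_cases hij : i < j
      · rw [if_pos hij]
        exact T8_braid_mem κ hκ c X hX i j hij.ne
      · rw [if_neg hij]
        by_cases hij' : i = j
        · rw [if_pos hij']
          exact T8_twist_mem κ hκ c X hX i
        · rw [if_neg hij']
          exact AddSubgroup.zero_mem _
    convert h1 using 1
    funext l
    rw [Finset.sum_apply]
    simp only [Finset.sum_apply, Pi.smul_apply]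
    simp only [zsmul_eq_mul]
    have h2 : ∀ i j : Fin r, ((S i j : ℂ) * (if i < j then
        (Pi.single i (κ j : ℂ) + Pi.single j (κ i : ℂ) : Fin r → ℂ)
        else if i = j then Pi.single i (κ i : ℂ) else 0) l) =
        (if l = i then (if l < j then (S l j : ℂ) * κ j else if l = j then (S l j : ℂ) * κ j
          else 0) else 0) +
        (if l = j then (if i < l then (S l i : ℂ) * κ i else 0) else 0) := by
      intro i j
      by_cases hij : i < j
      · rw [if_pos hij, Pi.add_apply]
        by_cases hi : l = i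
        · subst hi
          rw [Pi.single_eq_same, Pi.single_eq_of_ne hij.ne, if_pos rfl, if_pos hij,
            if_neg hij.ne]
          ring
        · by_cases hj : l = j
          · subst hj
            rw [Pi.single_eq_same, Pi.single_eq_of_ne hi, if_neg hi, if_pos rfl, if_pos hij,
              hS i l]
            ring
          · rw [Pi.single_eq_of_ne hi, Pi.single_eq_of_ne hj, if_neg hi, if_neg hj]
            ring
      · rw [if_neg hij]
        by_cases hij' : i = j
        · subst hij'
          rw [if_pos rfl]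
          by_cases hi : l = i
          · subst hi
            rw [Pi.single_eq_same, if_pos rfl, if_pos rfl, if_neg (lt_irrefl _)]
            simp
          · rw [Pi.single_eq_of_ne hi, if_neg hi, if_neg hi]
            simp
        · rw [if_neg hij', Pi.zero_apply, mul_zero]
          by_cases hi : l = i
          · subst hi
            rw [if_pos rfl, if_neg hij, if_neg hij', if_neg hij']
            simp
          · rw [if_neg hi]
            by_cases hj : l = j
            · subst hj
              rw [if_pos rfl, if_neg hij]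
              simp
            · rw [if_neg hj]
              simp
    simp only [h2, Finset.sum_add_distrib]
    have h3 : ∑ i : Fin r, ∑ j : Fin r, (if l = i then (if l < j then (S l j : ℂ) * κ j
        else if l = j then (S l j : ℂ) * κ j else 0) else 0) =
        ∑ j : Fin r, (if l < j then (S l j : ℂ) * κ j
        else if l = j then (S l j : ℂ) * κ j else 0) := by
      rw [Finset.sum_comm]
      refine Finset.sum_congr rfl fun j _ => ?_
      rw [Finset.sum_ite_eq]
      simp
    have h4 : ∑ i : Fin r, ∑ j : Fin r, (if l = j then (if i < l then (S l i : ℂ) * κ i else 0)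
        else 0) = ∑ i : Fin r, (if i < l then (S l i : ℂ) * κ i else 0) := by
      refine Finset.sum_congr rfl fun i _ => ?_
      rw [Finset.sum_ite_eq]
      simp
    rw [h3, h4, ← Finset.sum_add_distrib]
    refine Finset.sum_congr rfl fun j _ => ?_
    rcases lt_trichotomy l j with h | h | h
    · rw [if_pos h, if_neg (not_lt.mpr h.le), add_zero]
    · subst h
      rw [if_neg (lt_irrefl _), if_pos rfl, if_neg (lt_irrefl _), add_zero]
    · rw [if_neg (not_lt.mpr h.le), if_neg h.ne', if_pos h, zero_add]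
  exact key

theorem exists_symm {r : ℕ} (κ0 : Fin r → ℕ) (hg : Finset.univ.gcd κ0 = 1) (n : Fin r → ℤ) :
    ∃ S : Fin r → Fin r → ℤ, (∀ i j, S i j = S j i) ∧ ∀ j, ∑ l, S j l * (κ0 l : ℤ) = n j := by
  obtain ⟨g, hgs⟩ := Finset.gcd_eq_sum_mul (R := ℤ) Finset.univ (fun j => (κ0 j : ℤ))
  set d : ℤ := Finset.univ.gcd (fun j => (κ0 j : ℤ)) with hd
  have hd1 : d.natAbs = 1 := by
    have h1 : d.natAbs ∣ Finset.univ.gcd κ0 := by
      refine Finset.dvd_gcd fun j _ => ?_
      have : d ∣ (κ0 j : ℤ) := Finset.gcd_dvd (Finset.mem_univ j)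
      exact Int.natAbs_dvd_natAbs.mpr this
    rw [hg] at h1
    exact Nat.dvd_one.mp h1
  have hdd : d * d = 1 := by
    have := Int.natAbs_mul_self (a := d)
    rw [hd1] at this
    exact_mod_cast this.symm
  set a : Fin r → ℤ := fun j => g j * d with ha
  have hsum : ∑ l, a l * (κ0 l : ℤ) = 1 := by
    have : ∑ l, a l * (κ0 l : ℤ) = d * ∑ l, (κ0 l : ℤ) * g l := by
      rw [Finset.mul_sum]
      refine Finset.sum_congr rfl fun l _ => ?_
      simp only [ha]
      ring
    rw [this, ← hgs, hdd]
  refine ⟨fun j l => n j * a l + a j * n l - (∑ i, n i * (κ0 i : ℤ)) * (a j * a l),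
    fun i j => by ring, fun j => ?_⟩
  have h1 : ∀ l, (n j * a l + a j * n l - (∑ i, n i * (κ0 i : ℤ)) * (a j * a l)) * (κ0 l : ℤ) =
      n j * (a l * κ0 l) + a j * (n l * κ0 l) -
        ((∑ i, n i * (κ0 i : ℤ)) * a j) * (a l * κ0 l) := fun l => by ring
  simp only [h1, Finset.sum_add_distrib, Finset.sum_sub_distrib, ← Finset.mul_sum, hsum]
  ring

end H24.LS
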