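import Pool.Agent.H24.LS.Base
import Pool.Agent.H24.LS.T1
import Pool.Agent.H24.LS.T5
import Pool.Agent.H24.LS.T6
import Pool.Agent.H24.LS.T8

/-!
# T9: realisation of all admissible markings

`κ = d κ0` with `κ0` primitive, `k = Σ κ`, `k0 = Σ κ0`, `k = d k0`.

Proof.
(0) Reduction to `c' = c`: choose `lam` with `lam^k = c'/c` hmm: we look for `X → X'` from `c` to `c'`.
    By `mor_scal` with a number `lam0`, `lam0^k = c/c'` we have `Mor κ c c' X X 1 lam0`
    (`c / lam0^k = c'`).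
(1) `mor_exists`: `Mor κ c c X X' 1 ω1`, composed with `mor_scal` on `X'`: `Mor κ c c' X X' 1 ω2`,
    `ω2_j = ω1_j lam0`.
(2) Every marked equivalence satisfies (compare the two forms near line `j`):
    `c ∏_{i≠j} (X_j - X_i)^{κ_i} = c' ω_j^k β_j^{κ_j} ∏_{i≠j} (X'_j - X'_i)^{κ_i}`, and more precisely there
    is `ρ2` with `ρ2^d = c/c'` and for all `j`
    `(∏_{i≠j} (X'_j - X'_i)^{κ0_i}) ω2_j^{k0} β2_j^{κ0_j} = ρ2 ∏_{i≠j} (X_j - X_i)^{κ0_i}`:
    indeed with `q = form κ0 1 X`, `q' = form κ0 1 X'` we have `form κ c X = c q^d`, so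
    `(q' (φ p))^d = (c/c') q(p)^d`; the continuous function `q'(φ p)/q(p)` on the connected set
    `{q ≠ 0}` takes values in the finite set of `d`-th roots of `c/c'`, so it is a constant `ρ2`
    (connectedness of `{(x,y) : q(x,y) ≠ 0}`: it is the image of the connected set
    `ℂˣ × (ℂ \ {X_j})` under `(y, z) ↦ (z y, y)` together with the part `y = 0`, which is in the
    closure; or take path connectedness of the complement of a finite set in `ℂ` and only compare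
    the values at points `(z,1)`); then let `p = (X_j + s, 1)`, `s → 0`, and use `near`.
(3) Let `b_j = β_j` be the desired marking, `o_j = ω_j/ω2_j`.  By hypothesis and (2):
    `o_j^{k0} β_j^{κ0_j} = ρ/ρ2 =: ζ` for all `j`, `ζ^d = 1`.
(4) Choose `a_j` with `exp a_j = β_j`.  Compose with `mor_twist` (on `X'`) at `j` with `a_j` for all `j`:
    the marking becomes `β_j`, `ω2_j exp(-κ_j a_j/k)`.  Put `o'_j = o_j exp(κ_j a_j/k)`:
    `o'_j^{k0} = o_j^{k0} exp(κ_j a_j k0/k) = o_j^{k0} exp(κ0_j a_j) = ζ`.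
(5) Choose an integer `s` with `ζ = exp(2πi s/d)`, `lam = exp(2πi s/k)`: `lam^k = 1`,
    `lam^{k0} = ζ`.  Compose with `mor_scal` (`c'/lam^k = c'`).  Remaining: `o''_j = o'_j/lam`,
    `o''_j^{k0} = 1`, so `o''_j = exp(2πi n_j/k0) = exp(2πi d n_j/k)`, `n_j ∈ ℤ`.
(6) `exists_symm` with `-n`: `S κ0 = -n`, so `S κ = -d n`; `mor_integral` realises `o''`.
-/

open Filter Topology Metric

namespace H24.LS

private theorem T9_form {r : ℕ} (κ κ0 : Fin r → ℕ) (d : ℕ) (hκ0 : ∀ j, κ j = d * κ0 j) (c : ℂ)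
    (X : Fin r → ℂ) (p : ℂ × ℂ) : form κ c X p = c * (form κ0 1 X p) ^ d := by
  simp only [form, one_mul, ← Finset.prod_pow]
  congr 1
  refine Finset.prod_congr rfl fun j _ => ?_
  rw [hκ0 j, ← pow_mul, mul_comm d (κ0 j)]

private theorem T9_const {r : ℕ} (X : Fin r → ℂ) (g : ℂ → ℂ) (d : ℕ) (hd : 0 < d) (w : ℂ)
    (hg : ∀ z, z ∉ Set.range X → ContinuousAt g z) (hw : ∀ z, z ∉ Set.range X → g z ^ d = w) :
    ∃ ρ : ℂ, ρ ^ d = w ∧ ∀ z, z ∉ Set.range X → g z = ρ := by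
  have hfin : (Set.range X).Finite := Set.finite_range X
  have hconn : IsPathConnected (Set.range X)ᶜ :=
    hfin.countable.isPathConnected_compl_of_one_lt_rank (by
      rw [Complex.rank_real_complex]; norm_num)
  obtain ⟨z0, hz0⟩ := hconn.nonempty
  refine ⟨g z0, hw z0 hz0, fun z hz => ?_⟩
  have hT : {x : ℂ | x ^ d = w}.Finite := by
    have h1 : (Polynomial.X ^ d - Polynomial.C w : Polynomial ℂ) ≠ 0 :=
      Polynomial.X_pow_sub_C_ne_zero hd w
    refine (Polynomial.finite_setOfPred_isRoot h1).subset fun x hx => ?_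
    simp only [Set.mem_ofPred_eq] at hx
    simp [Polynomial.IsRoot, hx]
  exact hconn.isConnected.isPreconnected.constant_of_mapsTo hT.isDiscrete
    (fun z hz => (hg z hz).continuousWithinAt) (T := {x : ℂ | x ^ d = w})
    (fun z hz => hw z hz) hz hz0

private theorem T9_split {r : ℕ} (κ0 : Fin r → ℕ) (j : Fin r) (X : Fin r → ℂ) (a u : ℂ) (b : ℂ) :
    form κ0 1 X (u * (X j * a + b), u * a) =
      b ^ κ0 j * (u ^ (∑ i, κ0 i) * ∏ i ∈ Finset.univ.erase j, (X j * a - X i * a + b) ^ κ0 i) := by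
  simp only [form, one_mul]
  have h1 : ∀ i, (u * (X j * a + b) - X i * (u * a)) ^ κ0 i =
      u ^ κ0 i * (X j * a - X i * a + b) ^ κ0 i := by
    intro i
    rw [← mul_pow]
    congr 1
    ring
  simp only [h1]
  rw [Finset.prod_mul_distrib, Finset.prod_pow_eq_pow_sum,
    ← Finset.mul_prod_erase Finset.univ (fun i => (X j * a - X i * a + b) ^ κ0 i) (Finset.mem_univ j)]
  simp only [sub_self, zero_add]
  ring

/-- the invariant of a marked equivalence -/
theorem mor_invariant {r : ℕ} (κ κ0 : Fin r → ℕ) (d : ℕ) (hd : 0 < d) (hκ0 : ∀ j, κ j = d * κ0 j)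
    (hκ : ∀ j, 1 ≤ κ j) (c c' : ℂ) (hc : c ≠ 0) (hc' : c' ≠ 0) (X X' β ω : Fin r → ℂ)
    (hX : Function.Injective X) (hX' : Function.Injective X')
    (h : Mor κ c c' X X' β ω) :
    ∃ ρ : ℂ, ρ ^ d = c / c' ∧ ∀ j, (∏ i ∈ Finset.univ.erase j, (X' j - X' i) ^ κ0 i) *
      ω j ^ (∑ i, κ0 i) * β j ^ κ0 j = ρ * ∏ i ∈ Finset.univ.erase j, (X j - X i) ^ κ0 i := by
  obtain ⟨φ, ψ, H⟩ := h
  have hq : ∀ z, z ∉ Set.range X → form κ0 1 X (z, 1) ≠ 0 := by
    intro z hz
    simp only [form, one_mul, mul_one]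
    refine Finset.prod_ne_zero_iff.2 fun j _ => pow_ne_zero _ fun h0 => hz ⟨j, ?_⟩
    exact (sub_eq_zero.1 h0).symm
  have hcq : ∀ (X : Fin r → ℂ), Continuous (form κ0 1 X) := by
    intro X
    unfold form
    fun_prop
  have hφc : ∀ z : ℂ, ContinuousAt (fun z : ℂ => φ (z, 1)) z := by
    intro z
    have h1 : ContinuousAt φ (z, 1) := (H.smooth (z, 1) (by simp)).continuousAt
    exact ContinuousAt.comp (g := φ) (f := fun z : ℂ => ((z, 1) : ℂ × ℂ)) h1 (by fun_prop)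
  obtain ⟨ρ, hρ, hρ2⟩ := T9_const X (fun z => form κ0 1 X' (φ (z, 1)) / form κ0 1 X (z, 1)) d hd
    (c / c') (by
      intro z hz
      refine ContinuousAt.div ?_ ?_ (hq z hz)
      · exact ContinuousAt.comp (g := form κ0 1 X') (f := fun z : ℂ => φ (z, 1))
          (hcq X').continuousAt (hφc z)
      · exact ContinuousAt.comp (g := form κ0 1 X) (f := fun z : ℂ => ((z, 1) : ℂ × ℂ))
          (hcq X).continuousAt (by fun_prop))
    (by
      intro z hz
      have h1 := H.eqf (z, 1)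
      rw [T9_form κ κ0 d hκ0, T9_form κ κ0 d hκ0] at h1
      have h2 := hq z hz
      rw [div_pow, div_eq_div_iff (pow_ne_zero _ h2) hc', mul_comm, ← h1])
  refine ⟨ρ, hρ, fun j => ?_⟩
  obtain ⟨δ, hδ, u, hu, huj, hnear⟩ := H.near j
  have huc : ContinuousAt u (X j) :=
    (hu.differentiableAt (isOpen_ball.mem_nhds (mem_ball_self hδ))).continuousAt
  -- the two continuous functions of `s`
  have hL : ContinuousAt (fun s : ℂ => u (X j + s) ^ (∑ i, κ0 i) * β j ^ κ0 j *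
      ∏ i ∈ Finset.univ.erase j, (X' j - X' i + β j * s) ^ κ0 i) 0 := by
    have h1 : ContinuousAt (fun s : ℂ => u (X j + s)) 0 := by
      refine ContinuousAt.comp (g := u) (f := fun s : ℂ => X j + s) ?_ (by fun_prop)
      rw [add_zero]
      exact huc
    exact ((h1.pow _).mul continuousAt_const).mul (by fun_prop)
  have hR : ContinuousAt (fun s : ℂ => ρ *
      ∏ i ∈ Finset.univ.erase j, (X j - X i + s) ^ κ0 i) 0 := by
    fun_prop
  have hinj : ∀ᶠ s in 𝓝[≠] (0 : ℂ), X j + s ∉ Set.range X := by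
    have h1 : (Set.range X \ {X j})ᶜ ∈ 𝓝 (X j) :=
      ((Set.finite_range X).sdiff).isClosed.isOpen_compl.mem_nhds (by simp)
    have h2 : Tendsto (fun s : ℂ => X j + s) (𝓝[≠] 0) (𝓝 (X j)) := by
      have : Tendsto (fun s : ℂ => X j + s) (𝓝 0) (𝓝 (X j + 0)) :=
        (continuous_const.add continuous_id).tendsto 0
      rw [add_zero] at this
      exact this.mono_left nhdsWithin_le_nhds
    filter_upwards [h2 h1, self_mem_nhdsWithin] with s hs hs0 hs1
    refine hs ⟨hs1, fun h3 => hs0 ?_⟩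
    simpa using h3
  have heq : ∀ᶠ s in 𝓝[≠] (0 : ℂ), u (X j + s) ^ (∑ i, κ0 i) * β j ^ κ0 j *
      (∏ i ∈ Finset.univ.erase j, (X' j - X' i + β j * s) ^ κ0 i) =
      ρ * ∏ i ∈ Finset.univ.erase j, (X j - X i + s) ^ κ0 i := by
    have h1 : ∀ᶠ s in 𝓝[≠] (0 : ℂ), s ∈ ball (0 : ℂ) δ :=
      nhdsWithin_le_nhds (ball_mem_nhds _ hδ)
    filter_upwards [hinj, h1, self_mem_nhdsWithin] with s hs hs1 hs0
    have hs2 : s ≠ 0 := hs0
    have h3 := hρ2 (X j + s) hs
    have h4 := hq _ hs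
    rw [div_eq_iff h4] at h3
    have h5 := hnear (X j + s) 1 one_ne_zero (by simpa using hs1)
    have h6 : X j + s - X j * 1 = s := by ring
    rw [h6, div_one] at h5
    rw [h5, T9_split κ0 j X' 1 (u (X j + s)) (β j * s)] at h3
    have h7 := T9_split κ0 j X 1 1 s
    rw [one_pow, one_mul, one_mul, one_mul, mul_one] at h7
    rw [h7, mul_pow] at h3
    simp only [mul_one] at h3
    refine mul_left_cancel₀ (pow_ne_zero (κ0 j) hs2) ?_
    linear_combination h3
  have h1 := tendsto_nhds_unique ((hL.tendsto.mono_left nhdsWithin_le_nhds).congr' heq)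
    (hR.tendsto.mono_left nhdsWithin_le_nhds)
  simp only [add_zero, mul_zero, huj] at h1
  rw [← h1]
  ring

private theorem T9_twists {r : ℕ} (κ : Fin r → ℕ) (hκ : ∀ j, 1 ≤ κ j) (c : ℂ) (X : Fin r → ℂ)
    (hX : Function.Injective X) (a : Fin r → ℂ) (T : Finset (Fin r)) :
    Mor κ c c X X (fun i => if i ∈ T then Complex.exp (a i) else 1)
      (fun i => if i ∈ T then Complex.exp (-((κ i : ℂ) * a i / (∑ i, κ i : ℂ))) else 1) := by
  induction T using Finset.induction_on with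
  | empty =>
    have h := mor_scal κ c X 1 one_ne_zero
    rw [one_pow, div_one] at h
    simpa using h
  | insert j T hj ih =>
    have h := mor_comp ih (mor_twist κ hκ c X hX j (a j))
    convert h using 2 with i i
    · by_cases hij : i = j
      · subst hij
        simp [hj]
      · simp [hij]
    · by_cases hij : i = j
      · subst hij
        simp [hj]
      · simp [hij]

theorem mor_top {r : ℕ} (κ κ0 : Fin r → ℕ) (d : ℕ) (hd : 0 < d) (hκ0 : ∀ j, κ j = d * κ0 j)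
    (hg : Finset.univ.gcd κ0 = 1) (hκ : ∀ j, 1 ≤ κ j) (c c' : ℂ) (hc : c ≠ 0) (hc' : c' ≠ 0)
    (X X' β ω : Fin r → ℂ)
    (hX : Function.Injective X) (hX' : Function.Injective X')
    (hβ : ∀ j, β j ≠ 0) (hω : ∀ j, ω j ≠ 0) (ρ : ℂ) (hρ : ρ ^ d = c / c')
    (hR : ∀ j, (∏ i ∈ Finset.univ.erase j, (X' j - X' i) ^ κ0 i) *
      ω j ^ (∑ i, κ0 i) * β j ^ κ0 j = ρ * ∏ i ∈ Finset.univ.erase j, (X j - X i) ^ κ0 i) :
    Mor κ c c' X X' β ω := by
  have hr : Nonempty (Fin r) := by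
    by_contra h
    rw [not_nonempty_iff] at h
    rw [Finset.univ_eq_empty, Finset.gcd_empty] at hg
    exact zero_ne_one hg
  obtain ⟨j0⟩ := hr
  have hdC : (d : ℂ) ≠ 0 := Nat.cast_ne_zero.2 hd.ne'
  have hκ01 : ∀ j, 1 ≤ κ0 j := by
    intro j
    rcases Nat.eq_zero_or_pos (κ0 j) with h | h
    · have := hκ j
      rw [hκ0 j, h] at this
      omega
    · exact h
  have hk0 : 0 < ∑ i, κ0 i :=
    lt_of_lt_of_le (hκ01 j0) (Finset.single_le_sum (fun i _ => Nat.zero_le (κ0 i)) (Finset.mem_univ j0))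
  have hk : ∑ i, κ i = d * ∑ i, κ0 i := by
    rw [Finset.mul_sum]
    exact Finset.sum_congr rfl fun i _ => hκ0 i
  have hkpos : 0 < ∑ i, κ i := by
    rw [hk]
    exact Nat.mul_pos hd hk0
  have hk0C : ((∑ i, κ0 i : ℕ) : ℂ) ≠ 0 := Nat.cast_ne_zero.2 hk0.ne'
  have hkC : (∑ i, (κ i : ℂ)) = d * ((∑ i, κ0 i : ℕ) : ℂ) := by
    rw [← Nat.cast_sum, hk, Nat.cast_mul]
  -- step 1
  obtain ⟨lam0, hlam0⟩ := IsAlgClosed.exists_pow_nat_eq (c / c') hkpos
  have hlam0' : lam0 ≠ 0 := by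
    rintro rfl
    rw [zero_pow hkpos.ne'] at hlam0
    exact (div_ne_zero hc hc') hlam0.symm
  have m1 := mor_scal κ c X lam0 hlam0'
  rw [hlam0, div_div_cancel₀ hc] at m1
  obtain ⟨ω1, m2⟩ := mor_exists κ hκ c' X X' hX hX'
  have m3 := mor_comp m1 m2
  obtain ⟨φ3, ψ3, M3⟩ := id m3
  have hω2 := M3.hω
  -- step 2
  obtain ⟨ρ2, hρ2, hR2⟩ := mor_invariant κ κ0 d hd hκ0 hκ c c' hc hc' X X' _ _ hX hX' m3
  set ω2 : Fin r → ℂ := fun j => lam0 * ω1 j with hω2def
  have hρ20 : ρ2 ≠ 0 := by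
    rintro rfl
    rw [zero_pow hd.ne'] at hρ2
    exact (div_ne_zero hc hc') hρ2.symm
  have hP' : ∀ j, (∏ i ∈ Finset.univ.erase j, (X' j - X' i) ^ κ0 i) ≠ 0 := fun j =>
    Finset.prod_ne_zero_iff.2 fun i hi => pow_ne_zero _ (sub_ne_zero.2 fun h =>
      (Finset.ne_of_mem_erase hi) (hX' h).symm)
  have hP : ∀ j, (∏ i ∈ Finset.univ.erase j, (X j - X i) ^ κ0 i) ≠ 0 := fun j =>
    Finset.prod_ne_zero_iff.2 fun i hi => pow_ne_zero _ (sub_ne_zero.2 fun h =>
      (Finset.ne_of_mem_erase hi) (hX h).symm)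
  -- step 3
  set ζ : ℂ := ρ / ρ2 with hζ
  have hζd : ζ ^ d = 1 := by
    rw [hζ, div_pow, hρ, hρ2, div_self (div_ne_zero hc hc')]
  have hζ0 : ζ ≠ 0 := by
    intro h
    rw [h, zero_pow hd.ne'] at hζd
    exact zero_ne_one hζd
  have ho : ∀ j, ω j ^ (∑ i, κ0 i) * β j ^ κ0 j = ζ * ω2 j ^ (∑ i, κ0 i) := by
    intro j
    have h1 := hR j
    have h2 := hR2 j
    simp only [mul_one, one_pow] at h2
    have h3 : ρ = ζ * ρ2 := by rw [hζ, div_mul_cancel₀ _ hρ20]
    refine mul_left_cancel₀ (hP' j) ?_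
    rw [← mul_assoc, h1, h3]
    linear_combination (-ζ) * h2
  -- step 4
  have ha : ∀ j, ∃ a, Complex.exp a = β j := fun j => ⟨Complex.log (β j), Complex.exp_log (hβ j)⟩
  choose a ha using ha
  have m4 := T9_twists κ hκ c' X' hX' a Finset.univ
  simp only [Finset.mem_univ, if_true] at m4
  -- step 5
  obtain ⟨lam, hlam⟩ := IsAlgClosed.exists_pow_nat_eq ζ hk0
  have hlam' : lam ≠ 0 := by
    rintro rfl
    rw [zero_pow hk0.ne'] at hlam
    exact hζ0 hlam.symm
  have hlamk : lam ^ (∑ i, κ i) = 1 := by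
    rw [hk, mul_comm, pow_mul, hlam, hζd]
  have m5 := mor_scal κ c' X' lam hlam'
  rw [hlamk, div_one] at m5
  -- remaining marking
  set e : Fin r → ℂ := fun j => Complex.exp (-((κ j : ℂ) * a j / (∑ i, (κ i : ℂ)))) with he
  have he0 : ∀ j, e j ≠ 0 := fun j => Complex.exp_ne_zero _
  have hek : ∀ j, e j ^ (∑ i, κ0 i) * β j ^ κ0 j = 1 := by
    intro j
    rw [he]
    simp only
    rw [← ha j, ← Complex.exp_nat_mul, ← Complex.exp_nat_mul, ← Complex.exp_add, hkC, hκ0 j,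
      Complex.exp_eq_one_iff]
    refine ⟨0, ?_⟩
    push_cast at hk0C ⊢
    field_simp
    ring
  set o : Fin r → ℂ := fun j => ω j / (ω2 j * e j * lam) with hodef
  have ho0 : ∀ j, o j ≠ 0 := fun j =>
    div_ne_zero (hω j) (mul_ne_zero (mul_ne_zero (hω2 j) (he0 j)) hlam')
  have hok : ∀ j, o j ^ (∑ i, κ0 i) = 1 := by
    intro j
    rw [hodef]
    simp only
    rw [div_pow, mul_pow, mul_pow, hlam, div_eq_one_iff_eq (mul_ne_zero (mul_ne_zero
      (pow_ne_zero _ (hω2 j)) (pow_ne_zero _ (he0 j))) hζ0)]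
    have h1 := ho j
    have h2 := hek j
    have h3 : β j ^ κ0 j ≠ 0 := pow_ne_zero _ (hβ j)
    refine mul_right_cancel₀ h3 ?_
    rw [h1]
    linear_combination (-(ζ * ω2 j ^ (∑ i, κ0 i))) * h2
  have hn : ∀ j, ∃ n : ℤ, ((∑ i, κ0 i : ℕ) : ℂ) * Complex.log (o j) = n * (2 * Real.pi * Complex.I) := by
    intro j
    rw [← Complex.exp_eq_one_iff, Complex.exp_nat_mul, Complex.exp_log (ho0 j), hok j]
  choose n hn using hn
  obtain ⟨S, hS, hSn⟩ := exists_symm κ0 hg (fun j => -n j)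
  have m6 := mor_integral κ hκ c' X' hX' S hS
  have m6' : ∀ j, Complex.exp (-(2 * Real.pi * Complex.I * (∑ l, (S j l : ℂ) * (κ l : ℂ)) /
        (∑ i, κ i : ℂ))) = o j := by
    intro j
    have h1 : (∑ l, (S j l : ℂ) * (κ l : ℂ)) = d * (-(n j : ℂ)) := by
      have h2 := hSn j
      have h3 : ((∑ l, S j l * (κ0 l : ℤ) : ℤ) : ℂ) = ((-n j : ℤ) : ℂ) := by rw [h2]
      push_cast at h3
      rw [← h3, Finset.mul_sum]
      refine Finset.sum_congr rfl fun l _ => ?_
      rw [hκ0 l]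
      push_cast
      ring
    rw [h1, hkC]
    conv_rhs => rw [← Complex.exp_log (ho0 j)]
    congr 1
    have h4 := hn j
    push_cast at hk0C h4 ⊢
    field_simp
    linear_combination (-1 : ℂ) * h4
  have m7 := mor_comp (mor_comp (mor_comp m3 m4) m5) m6
  convert m7 using 2 with j j
  · simp [ha]
  · rw [m6' j, hodef, hω2def]
    simp only
    have h3 : lam0 * ω1 j * e j * lam ≠ 0 := mul_ne_zero (mul_ne_zero (hω2 j) (he0 j)) hlam'
    rw [mul_div_cancel₀ _ h3]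

end H24.LS
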