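import Pool.Agent.H24.LS.R3
import Pool.Agent.H24.LS.R5
import Pool.Agent.H24.LS.R6
import Pool.Agent.H24.LS.R7d
import Pool.Agent.H24.LS.R7e
import Pool.Agent.H24.LS.T9

/-!
# R8: root level matching (assembly; proved here)
-/

open Filter Topology Metric

namespace H24.LS

theorem R8_rel {r : ℕ} {κ0 : Fin r → ℕ} {X X' : Fin r → ℂ} (hX : Function.Injective X) (j : Fin r)
    {α ω ρ : ℂ} (hω : ω ≠ 0) (h : rnum κ0 X X' j α ω = ρ) :
    (∏ i ∈ Finset.univ.erase j, (X' j - X' i) ^ κ0 i) * ω ^ (∑ i, κ0 i) * (α / ω) ^ κ0 j =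
      ρ * ∏ i ∈ Finset.univ.erase j, (X j - X i) ^ κ0 i := by
  have hD : (∏ i ∈ Finset.univ.erase j, (X j - X i) ^ κ0 i) ≠ 0 := by
    refine Finset.prod_ne_zero_iff.2 fun i hi => pow_ne_zero _ ?_
    rw [sub_ne_zero]
    intro h0
    exact (Finset.ne_of_mem_erase hi) (hX h0).symm
  have hle : κ0 j ≤ ∑ i, κ0 i :=
    Finset.single_le_sum (fun i _ => Nat.zero_le (κ0 i)) (Finset.mem_univ j)
  obtain ⟨e, he⟩ := Nat.exists_eq_add_of_le hle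
  rw [← h]
  unfold rnum
  rw [div_mul_cancel₀ _ hD, he, Nat.add_sub_cancel_left, div_pow, pow_add]
  field_simp

theorem root_main {r r' : ℕ} {κ : Fin r → ℕ} {κ' : Fin r' → ℕ} {c c' : ℂ} {X : Fin r → ℂ}
    {X' : Fin r' → ℂ} {f g : ℂ × ℂ → ℂ} (hf : NForm κ c X f) (hg : NForm κ' c' X' g)
    (isoF : Iso f) (isoG : Iso g) (hk : 3 ≤ ∑ j, κ j) (hk' : 3 ≤ ∑ j, κ' j)
    {A B : ℂ × ℂ → ℂ × ℂ} {L ρ : ℝ} (hco : Coarse f g A B L ρ) :
    ∃ (X'' β ω : Fin r → ℂ), NForm κ c' X'' g ∧ Mor κ c c' X X'' β ω ∧ ∀ j, 2 ≤ κ j →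
      ∃ (N : ℕ) (u : ℂ) (cc : ℕ) (m : Fin cc → ℕ) (b : Fin cc → ℝ)
        (γ v Γ η : Fin cc → ℂ → ℂ) (a : Fin cc → ℂ) (D : Fin cc → ℕ),
        CFa (fun p => f (p.1 + X j * p.2, p.2))
          (Gn (fun p => g (p.1 + X'' j * p.2, p.2)) (β j * ω j) (ω j))
          (∑ i, κ i) (κ j - 1) N u cc m b γ v Γ η a D := by
  have hkk := mult_eq hf hg hk hk' hco
  obtain ⟨σ, hσ⟩ := lines_bij hf hg hk hk' hco
  have hcm := fun j : {j : Fin r // 2 ≤ κ j} =>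
    chart_match hf hg isoF isoG hk hkk hco j.1 (σ j).1 j.2 (hσ j)
  obtain ⟨e, he1, he⟩ := extend_equiv κ κ' hf.hκ hg.hκ hkk σ (fun j => (hcm j).1)
  have hg' : NForm κ c' (fun j => X' (e j)) g := nform_reorder hg e he
  obtain ⟨X'', hX''⟩ : ∃ X'' : Fin r → ℂ, X'' = fun j => X' (e j) := ⟨_, rfl⟩
  have hcm' : ∀ j, 2 ≤ κ j → ∃ α ω : ℂ, α ≠ 0 ∧ ω ≠ 0 ∧
      α ^ κ j * ω ^ (∑ i, κ i - κ j) *
        (κ j * c' * ∏ i ∈ Finset.univ.erase j, (X'' j - X'' i) ^ κ i) =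
        κ j * c * ∏ i ∈ Finset.univ.erase j, (X j - X i) ^ κ i ∧
      Root1 A (X j) (X'' j) α ∧ Root2 A (X j) ω ∧
      ∃ (N : ℕ) (u : ℂ) (cc : ℕ) (m : Fin cc → ℕ) (b : Fin cc → ℝ)
        (γ v Γ η : Fin cc → ℂ → ℂ) (a : Fin cc → ℂ) (D : Fin cc → ℕ),
        CFa (fun p => f (p.1 + X j * p.2, p.2)) (Gn (fun p => g (p.1 + X'' j * p.2, p.2)) α ω)
          (∑ i, κ i) (κ j - 1) N u cc m b γ v Γ η a D := by
    intro j hj
    obtain ⟨h1, α, ω, hα, hω, hrel, hr1, hr2, hC⟩ := hcm ⟨j, hj⟩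
    have hej : (σ ⟨j, hj⟩).1 = e j := (he1 ⟨j, hj⟩).symm
    have e2 : X'' j = X' (e j) := by rw [hX'']
    refine ⟨α, ω, hα, hω, ?_, ?_, hr2, ?_⟩
    · rw [hej] at hrel
      rw [prod_erase_reorder e he X' j, he j] at hrel
      rw [hX'']
      exact hrel
    · rw [e2, ← hej]
      exact hr1
    · rw [e2, ← hej]
      exact hC
  rw [← hX''] at hg'
  choose! α ω hα hω hrel hR1 hR2 hC using hcm'
  have hne : (Finset.univ : Finset (Fin r)).Nonempty := ⟨⟨0, hf.hr⟩, Finset.mem_univ _⟩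
  obtain ⟨κ0, hκ0', hgcd⟩ := Finset.extract_gcd κ hne
  obtain ⟨d, hd⟩ : ∃ d : ℕ, d = Finset.univ.gcd κ := ⟨_, rfl⟩
  have hκ0 : ∀ j, κ j = d * κ0 j := fun j => by rw [hd]; exact hκ0' j (Finset.mem_univ j)
  have hdpos : 0 < d := by
    rcases Nat.eq_zero_or_pos d with h | h
    · have h1 := hf.hκ ⟨0, hf.hr⟩
      rw [hκ0, h] at h1
      omega
    · exact h
  have hκ01 : ∀ j, 1 ≤ κ0 j := by
    intro j
    rcases Nat.eq_zero_or_pos (κ0 j) with h | h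
    · have h1 := hf.hκ j
      rw [hκ0, h] at h1
      omega
    · exact h
  have hcc : c / c' ≠ 0 := div_ne_zero hf.hc hg.hc
  obtain ⟨ρ1, hρ1, hρj⟩ : ∃ ρ1 : ℂ, ρ1 ^ d = c / c' ∧
      ∀ j, 2 ≤ κ j → rnum κ0 X X'' j (α j) (ω j) = ρ1 := by
    by_cases h : ∃ j0, 2 ≤ κ j0
    · obtain ⟨j0, hj0⟩ := h
      refine ⟨rnum κ0 X X'' j0 (α j0) (ω j0), ?_, ?_⟩
      · exact rnum_pow hdpos hκ0 hg.hc hf.hX j0 (hf.hκ j0) (hrel j0 hj0)
      · intro j hj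
        exact ratio_eq hdpos hκ0 hf hg' hk hco j j0 (hR1 j hj) (hR2 j hj) (hR1 j0 hj0) (hR2 j0 hj0)
    · obtain ⟨z, hz⟩ := IsAlgClosed.exists_pow_nat_eq (c / c') hdpos
      exact ⟨z, hz, fun j hj => absurd ⟨j, hj⟩ h⟩
  have hρ0 : ρ1 ≠ 0 := by
    rintro rfl
    rw [zero_pow hdpos.ne'] at hρ1
    exact hcc hρ1.symm
  have hD : ∀ (Y : Fin r → ℂ), Function.Injective Y → ∀ j,
      (∏ i ∈ Finset.univ.erase j, (Y j - Y i) ^ κ0 i) ≠ 0 := by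
    intro Y hY j
    refine Finset.prod_ne_zero_iff.2 fun i hi => pow_ne_zero _ ?_
    rw [sub_ne_zero]
    intro h0
    exact (Finset.ne_of_mem_erase hi) (hY h0).symm
  refine ⟨X'', fun j => if 2 ≤ κ j then α j / ω j else
    ρ1 * (∏ i ∈ Finset.univ.erase j, (X j - X i) ^ κ0 i) /
      ∏ i ∈ Finset.univ.erase j, (X'' j - X'' i) ^ κ0 i, fun j => if 2 ≤ κ j then ω j else 1,
    hg', ?_, ?_⟩
  · refine mor_top κ κ0 d hdpos hκ0 hgcd hf.hκ c c' hf.hc hg.hc X X'' _ _ hf.hX hg'.hX ?_ ?_ ρ1 hρ1 ?_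
    · intro j
      by_cases h : 2 ≤ κ j
      · simp only [if_pos h]
        exact div_ne_zero (hα j h) (hω j h)
      · simp only [if_neg h]
        exact div_ne_zero (mul_ne_zero hρ0 (hD X hf.hX j)) (hD X'' hg'.hX j)
    · intro j
      by_cases h : 2 ≤ κ j
      · simp only [if_pos h]
        exact hω j h
      · simp only [if_neg h]
        exact one_ne_zero
    · intro j
      by_cases h : 2 ≤ κ j
      · simp only [if_pos h]
        exact R8_rel hf.hX j (hω j h) (hρj j h)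
      · simp only [if_neg h]
        have h1 : κ j = 1 := by
          have := hf.hκ j
          omega
        have h2 : κ0 j = 1 := by
          have h3 := hκ0 j
          rw [h1] at h3
          exact Nat.eq_one_of_mul_eq_one_left h3.symm
        rw [h2, one_pow, pow_one, mul_one, mul_div_cancel₀ _ (hD X'' hg'.hX j)]
  · intro j hj
    have h1 := hC j hj
    simp only [if_pos hj]
    rw [div_mul_cancel₀ _ (hω j hj)]
    exact h1

end H24.LS
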