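import Pool.Agent.H24.LS.R0

/-!
# R9a: the principal part of an analytic germ

* `princ_part`.  Let `p` be the power series of `f` at `0` (`hf : HasFPowerSeriesAt f p 0`).  If `p n (fun _ => v) = 0` for all `n`, `v` then
  `f = 0` near `0` (`HasFPowerSeriesOnBall.hasSum`), excluded.  Let `k` be the least `n` such that `p n (fun _ => v) ≠ 0` for some `v`, `M = p k`.
  The partial sum of order `k + 1` at `y` is `M (fun _ => y)` (the lower terms vanish), and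
  `HasFPowerSeriesAt.isBigO_sub_partialSum_pow` (with `n = k + 1`) gives the estimate.
* `princ_order`.  `fderiv f` is analytic at `0`, so differentiable with derivative `0` at `0` and value `0`: `‖fderiv f p‖ ≤ ε ‖p‖` for
  `‖p‖ < δ`; mean value inequality on the ball (`Convex.norm_image_sub_le_of_norm_fderiv_le`): `‖f p‖ ≤ ε ‖p‖^2`.  Suppose `k ≤ 2`; with `M (fun _ => v) ≠ 0`
  and `p = t v`, `t > 0` small real: `t^k ‖M v..‖ ≤ ‖f (t v)‖ + C t^(k+1) ‖v‖^(k+1) ≤ ε t^2 ‖v‖^2 + C t^(k+1) ‖v‖^(k+1)`; divide by `t^k`: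
  `‖M v..‖ ≤ ε ‖v‖^2 + C t ‖v‖^(k+1)` (`t ≤ 1`); `t → 0`, `ε → 0`: contradiction.
-/

open Filter Topology Metric

namespace H24.LS

theorem princ_part {f : ℂ × ℂ → ℂ} (hf : AnalyticAt ℂ f 0)
    (hne : ¬ ∀ᶠ p in 𝓝 (0 : ℂ × ℂ), f p = 0) :
    ∃ (k : ℕ) (M : ContinuousMultilinearMap ℂ (fun _ : Fin k => ℂ × ℂ) ℂ),
      (∃ v, M (fun _ => v) ≠ 0) ∧ ∃ C > (0 : ℝ), ∃ δ > (0 : ℝ), ∀ p : ℂ × ℂ, ‖p‖ < δ →
        ‖f p - M (fun _ => p)‖ ≤ C * ‖p‖ ^ (k + 1) := by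
  classical
  obtain ⟨p, hp⟩ := hf
  have hex : ∃ n, ∃ v : ℂ × ℂ, p n (fun _ => v) ≠ 0 := by
    by_contra hcon
    push Not at hcon
    apply hne
    filter_upwards [hp.eventually_hasSum] with y hy
    rw [zero_add] at hy
    have h1 : (fun n => p n fun _ => y) = fun _ => (0 : ℂ) := funext fun n => hcon n y
    rw [h1] at hy
    exact hy.unique hasSum_zero
  refine ⟨Nat.find hex, p (Nat.find hex), Nat.find_spec hex, ?_⟩
  have hO := hp.isBigO_sub_partialSum_pow (Nat.find hex + 1)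
  have hps : ∀ y : ℂ × ℂ, p.partialSum (Nat.find hex + 1) y =
      p (Nat.find hex) (fun _ => y) := by
    intro y
    unfold FormalMultilinearSeries.partialSum
    rw [Finset.sum_range_succ, Finset.sum_eq_zero, zero_add]
    intro i hi
    have h1 := Nat.find_min hex (Finset.mem_range.1 hi)
    push Not at h1
    exact h1 y
  obtain ⟨C, hC, hb⟩ := hO.exists_pos
  rw [Asymptotics.isBigOWith_iff] at hb
  obtain ⟨δ, hδ, hball⟩ := Metric.eventually_nhds_iff.1 hb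
  refine ⟨C, hC, δ, hδ, fun y hy => ?_⟩
  have h1 := hball (y := y) (by rwa [dist_zero_right])
  rw [zero_add, hps, norm_pow, norm_norm] at h1
  exact h1

theorem R9a_small {f : ℂ × ℂ → ℂ} (hf : AnalyticAt ℂ f 0) (f0 : f 0 = 0)
    (f1 : fderiv ℂ f 0 = 0) (f2 : fderiv ℂ (fderiv ℂ f) 0 = 0) {ε : ℝ} (hε : 0 < ε) :
    ∀ᶠ p in 𝓝 (0 : ℂ × ℂ), ‖f p‖ ≤ ε * ‖p‖ ^ 2 := by
  have h1 : HasFDerivAt (fderiv ℂ f) (0 : ℂ × ℂ →L[ℂ] ℂ × ℂ →L[ℂ] ℂ) 0 := by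
    have h := hf.fderiv.differentiableAt.hasFDerivAt
    rwa [f2] at h
  have h2 : ∀ᶠ p in 𝓝 (0 : ℂ × ℂ), ‖fderiv ℂ f p‖ ≤ ε * ‖p‖ := by
    have h3 := h1.isLittleO
    have h4 := h3.def hε
    filter_upwards [h4] with p hp
    simpa [f1] using hp
  have h5 : ∀ᶠ p in 𝓝 (0 : ℂ × ℂ), DifferentiableAt ℂ f p :=
    hf.eventually_analyticAt.mono fun p hp => hp.differentiableAt
  obtain ⟨δ, hδ, hball⟩ := Metric.eventually_nhds_iff.1 (h2.and h5)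
  filter_upwards [Metric.ball_mem_nhds (0 : ℂ × ℂ) hδ] with p hp
  rw [mem_ball_zero_iff] at hp
  have h6 : ∀ x ∈ closedBall (0 : ℂ × ℂ) ‖p‖, dist x 0 < δ := by
    intro x hx
    exact lt_of_le_of_lt (mem_closedBall.1 hx) hp
  have h7 : ‖f p - f 0‖ ≤ (ε * ‖p‖) * ‖p - 0‖ := by
    refine Convex.norm_image_sub_le_of_norm_fderiv_le (𝕜 := ℂ) (s := closedBall (0 : ℂ × ℂ) ‖p‖)
      (fun x hx => (hball (h6 x hx)).2) (fun x hx => ?_) (convex_closedBall _ _)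
      (mem_closedBall_self (norm_nonneg _)) ?_
    · refine ((hball (h6 x hx)).1).trans ?_
      have h8 : ‖x‖ ≤ ‖p‖ := mem_closedBall_zero_iff.1 hx
      exact mul_le_mul_of_nonneg_left h8 hε.le
    · rw [mem_closedBall_zero_iff]
  rw [f0, sub_zero, sub_zero] at h7
  calc ‖f p‖ ≤ ε * ‖p‖ * ‖p‖ := h7
    _ = ε * ‖p‖ ^ 2 := by ring

theorem princ_order {f : ℂ × ℂ → ℂ} (hf : AnalyticAt ℂ f 0) (f0 : f 0 = 0)
    (f1 : fderiv ℂ f 0 = 0) (f2 : fderiv ℂ (fderiv ℂ f) 0 = 0) {k : ℕ}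
    (M : ContinuousMultilinearMap ℂ (fun _ : Fin k => ℂ × ℂ) ℂ) (hM : ∃ v, M (fun _ => v) ≠ 0)
    (hb : ∃ C > (0 : ℝ), ∃ δ > (0 : ℝ), ∀ p : ℂ × ℂ, ‖p‖ < δ →
        ‖f p - M (fun _ => p)‖ ≤ C * ‖p‖ ^ (k + 1)) : 3 ≤ k := by
  obtain ⟨v, hv⟩ := hM
  obtain ⟨C, hC, δ, hδ, hb⟩ := hb
  by_contra hk
  have hk2 : k ≤ 2 := by omega
  have ha : 0 < ‖M fun _ => v‖ := norm_pos_iff.2 hv
  have key : ∀ ε > (0 : ℝ), ‖M fun _ => v‖ ≤ ε * ‖v‖ ^ 2 := by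
    intro ε hε
    have hT : Tendsto (fun t : ℝ => ((t : ℂ) • v : ℂ × ℂ)) (𝓝[>] 0) (𝓝 0) := by
      have h1 : Continuous (fun t : ℝ => ((t : ℂ) • v : ℂ × ℂ)) := by fun_prop
      have h2 := h1.tendsto 0
      rw [Complex.ofReal_zero, zero_smul] at h2
      exact h2.mono_left nhdsWithin_le_nhds
    have hlim : Tendsto (fun t : ℝ => ε * ‖v‖ ^ 2 + C * t * ‖v‖ ^ (k + 1)) (𝓝[>] 0)
        (𝓝 (ε * ‖v‖ ^ 2)) := by
      have h1 : Continuous (fun t : ℝ => ε * ‖v‖ ^ 2 + C * t * ‖v‖ ^ (k + 1)) := by fun_prop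
      have h2 := h1.tendsto 0
      simp only [mul_zero, zero_mul, add_zero] at h2
      exact h2.mono_left nhdsWithin_le_nhds
    refine ge_of_tendsto hlim ?_
    have e1 := hT.eventually (R9a_small hf f0 f1 f2 hε)
    have e2 := hT.eventually (Metric.ball_mem_nhds (0 : ℂ × ℂ) hδ)
    have e3 : ∀ᶠ t in 𝓝[>] (0 : ℝ), t < 1 :=
      mem_nhdsWithin_of_mem_nhds (Iio_mem_nhds one_pos)
    filter_upwards [e1, e2, e3, self_mem_nhdsWithin] with t h1 h2 h3 h4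
    have h4 : 0 < t := h4
    rw [dist_zero_right] at h2
    have h5 := hb _ h2
    have h6 : (M fun _ => (t : ℂ) • v) = (t : ℂ) ^ k * M fun _ => v := by
      have h7 := M.map_smul_univ (fun _ => (t : ℂ)) (fun _ => v)
      rw [h7, Finset.prod_const, Finset.card_univ, Fintype.card_fin, smul_eq_mul]
    have h8 : ‖(t : ℂ) • v‖ = t * ‖v‖ := by
      rw [norm_smul, Complex.norm_real, Real.norm_of_nonneg h4.le]
    rw [h6, h8] at h5
    rw [h8] at h1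
    have h9 : ‖(t : ℂ) ^ k * M fun _ => v‖ = t ^ k * ‖M fun _ => v‖ := by
      rw [norm_mul, norm_pow, Complex.norm_real, Real.norm_of_nonneg h4.le]
    have h10 : t ^ k * ‖M fun _ => v‖ ≤ ε * (t * ‖v‖) ^ 2 + C * (t * ‖v‖) ^ (k + 1) := by
      rw [← h9]
      have h11 : (t : ℂ) ^ k * (M fun _ => v) =
          f ((t : ℂ) • v) - (f ((t : ℂ) • v) - (t : ℂ) ^ k * M fun _ => v) := by ring
      rw [h11]
      exact (norm_sub_le _ _).trans (add_le_add h1 h5)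
    have h12 : t ^ 2 ≤ t ^ k := pow_le_pow_of_le_one h4.le h3.le hk2
    have h13 : ε * (t * ‖v‖) ^ 2 ≤ t ^ k * (ε * ‖v‖ ^ 2) := by
      have h14 : ε * (t * ‖v‖) ^ 2 = t ^ 2 * (ε * ‖v‖ ^ 2) := by ring
      rw [h14]
      exact mul_le_mul_of_nonneg_right h12 (by positivity)
    have h15 : C * (t * ‖v‖) ^ (k + 1) = t ^ k * (C * t * ‖v‖ ^ (k + 1)) := by ring
    have h16 : t ^ k * ‖M fun _ => v‖ ≤ t ^ k * (ε * ‖v‖ ^ 2 + C * t * ‖v‖ ^ (k + 1)) := by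
      rw [mul_add]
      linarith
    exact le_of_mul_le_mul_left h16 (pow_pos h4 k)
  have h1 := key (‖M fun _ => v‖ / (2 * (‖v‖ ^ 2 + 1))) (by positivity)
  have h2 : ‖M fun _ => v‖ / (2 * (‖v‖ ^ 2 + 1)) * ‖v‖ ^ 2 < ‖M fun _ => v‖ := by
    rw [div_mul_eq_mul_div, div_lt_iff₀ (by positivity)]
    nlinarith [sq_nonneg ‖v‖]
  linarith

end H24.LS
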