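import Pool.Agent.H24.LS.Base

/-!
# T0: homogeneous maps that are C^1 off the origin are Lipschitz

Proof.  `φ 0 = 0` (take `a = 0`).  For real `s > 0`, `fderiv ℝ φ (s • p) = fderiv ℝ φ p`
(differentiate `φ (s p) = s φ p`), so `‖fderiv ℝ φ p‖ ≤ K` for all `p ≠ 0`, where `K` is the maximum
of the continuous function `‖fderiv ℝ φ‖` on the unit sphere (compact; continuity from `ContDiffAt ℝ 1`).
Also `‖φ p‖ ≤ K' ‖p‖`.  If the segment `[p,q]` avoids `0`, use the mean value inequality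
(`Convex.norm_image_sub_le_of_norm_hasFDerivWithin_le` on the segment).  If it contains `0`, then
`‖p - q‖ = ‖p‖ + ‖q‖` and `‖φ p - φ q‖ ≤ K' (‖p‖ + ‖q‖)`.
-/

open Filter Topology Metric

namespace H24.LS

theorem T0_fderiv (φ : ℂ × ℂ → ℂ × ℂ) (hom : ∀ (a : ℂ) (p : ℂ × ℂ), φ (a • p) = a • φ p)
    (p : ℂ × ℂ) (s : ℝ) (hsp : 0 < s) :
    fderiv ℝ φ ((s : ℂ) • p) = fderiv ℝ φ p := by
  have hc : ∀ x : ℂ × ℂ, (s : ℂ) • x = s • x := fun x => Complex.coe_smul s x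
  have h1 : (fun x => φ (s • x)) = fun x => s • φ x := by
    funext x
    rw [← hc, hom, hc]
  have h2 : fderiv ℝ (fun x => φ (s • x)) p = s • fderiv ℝ φ (s • p) := fderiv_comp_smul s
  have h3 : fderiv ℝ (fun x => s • φ x) p = s • fderiv ℝ φ p := by
    have := congrFun (fderiv_const_smul_field (𝕜 := ℝ) (f := φ) s) p
    exact this
  rw [h1, h3] at h2
  rw [hc]
  exact (smul_right_injective _ hsp.ne' h2).symm

theorem lip_of_hom (φ : ℂ × ℂ → ℂ × ℂ) (hom : ∀ (a : ℂ) (p : ℂ × ℂ), φ (a • p) = a • φ p)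
    (hs : ∀ p, p ≠ 0 → ContDiffAt ℝ 1 φ p) :
    ∃ K > (0 : ℝ), ∀ p q, ‖φ p - φ q‖ ≤ K * ‖p - q‖ := by
  have hne : ∀ p ∈ sphere (0 : ℂ × ℂ) 1, p ≠ 0 := by
    intro p hp h0
    rw [h0, mem_sphere, dist_self] at hp
    exact zero_ne_one hp
  have hφ0 : φ 0 = 0 := by
    have := hom 0 0
    simpa using this
  obtain ⟨K1, hK1⟩ := (isCompact_sphere (0 : ℂ × ℂ) 1).exists_bound_of_continuousOn
    (f := fderiv ℝ φ) (fun p hp =>
      ((hs p (hne p hp)).continuousAt_fderiv one_ne_zero).continuousWithinAt)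
  obtain ⟨K2, hK2⟩ := (isCompact_sphere (0 : ℂ × ℂ) 1).exists_bound_of_continuousOn
    (f := φ) (fun p hp => (hs p (hne p hp)).continuousAt.continuousWithinAt)
  have hunit : ∀ p : ℂ × ℂ, p ≠ 0 → ((‖p‖⁻¹ : ℝ) : ℂ) • p ∈ sphere (0 : ℂ × ℂ) 1 := by
    intro p hp
    have : 0 < ‖p‖ := norm_pos_iff.2 hp
    rw [mem_sphere, dist_zero_right, norm_smul, Complex.norm_real, Real.norm_eq_abs,
      abs_of_pos (inv_pos.2 this), inv_mul_cancel₀ this.ne']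
  have hd : ∀ p : ℂ × ℂ, p ≠ 0 → ‖fderiv ℝ φ p‖ ≤ K1 := by
    intro p hp
    rw [← T0_fderiv φ hom p (‖p‖⁻¹) (inv_pos.2 (norm_pos_iff.2 hp))]
    exact hK1 _ (hunit p hp)
  have hv : ∀ p : ℂ × ℂ, ‖φ p‖ ≤ |K2| * ‖p‖ := by
    intro p
    by_cases hp : p = 0
    · rw [hp, hφ0]; simp
    · have hpos : 0 < ‖p‖ := norm_pos_iff.2 hp
      have h1 := hK2 _ (hunit p hp)
      rw [hom, norm_smul, Complex.norm_real, Real.norm_eq_abs, abs_of_pos (inv_pos.2 hpos)] at h1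
      have h2 : ‖φ p‖ = ‖p‖ * (‖p‖⁻¹ * ‖φ p‖) := by
        rw [← mul_assoc, mul_inv_cancel₀ hpos.ne', one_mul]
      rw [h2, mul_comm |K2|]
      exact mul_le_mul_of_nonneg_left (h1.trans (le_abs_self _)) hpos.le
  refine ⟨|K1| + |K2| + 1, by positivity, fun p q => ?_⟩
  by_cases h0 : (0 : ℂ × ℂ) ∈ segment ℝ p q
  · have h1 := dist_add_dist_of_mem_segment h0
    rw [dist_zero_right, dist_zero_left, dist_eq_norm] at h1
    calc ‖φ p - φ q‖ ≤ ‖φ p‖ + ‖φ q‖ := norm_sub_le _ _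
      _ ≤ |K2| * ‖p‖ + |K2| * ‖q‖ := add_le_add (hv p) (hv q)
      _ = |K2| * ‖p - q‖ := by rw [← h1]; ring
      _ ≤ (|K1| + |K2| + 1) * ‖p - q‖ := by
          apply mul_le_mul_of_nonneg_right _ (norm_nonneg _)
          linarith [abs_nonneg K1]
  · have hx : ∀ x ∈ segment ℝ p q, x ≠ 0 := by
      intro x hx hx0
      exact h0 (hx0 ▸ hx)
    have h1 := (convex_segment p q).norm_image_sub_le_of_norm_fderiv_le (𝕜 := ℝ) (f := φ)
      (C := K1) (x := q) (y := p)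
      (fun x hx' => (hs x (hx x hx')).differentiableAt one_ne_zero)
      (fun x hx' => hd x (hx x hx')) (right_mem_segment ℝ p q) (left_mem_segment ℝ p q)
    refine h1.trans ?_
    apply mul_le_mul_of_nonneg_right _ (norm_nonneg _)
    linarith [le_abs_self K1, abs_nonneg K2]

/-- homogeneity of the derivative -/
theorem fderiv_hom (φ : ℂ × ℂ → ℂ × ℂ) (hom : ∀ (a : ℂ) (p : ℂ × ℂ), φ (a • p) = a • φ p)
    (p : ℂ × ℂ) (s : ℝ) (hsp : 0 < s) :
    fderiv ℝ φ ((s : ℂ) • p) = fderiv ℝ φ p :=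
  T0_fderiv φ hom p s hsp

end H24.LS
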