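import Pool.Agent.H24.LS.B0
import Pool.Agent.H24.LS.F14
import Pool.Agent.H24.LS.G0

/-!
# Z0: definitions for the gluing
-/

open Filter Topology Metric Asymptotics

namespace H24.LS

/-- chart at the line `x = Xj y` -/
def uch (Xj : ℂ) (p : ℂ × ℂ) : ℂ × ℂ := (p.1 + Xj * p.2, p.2)

/-- a map of the plane in the charts at the lines `x = Xj y` (source) and `x = Xj' y` (target), normalised by
`α, ω` -/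
noncomputable def hat (Xj Xj' α ω : ℂ) (H : ℂ × ℂ → ℂ × ℂ) (p : ℂ × ℂ) : ℂ × ℂ :=
  (((H (uch Xj p)).1 - Xj' * (H (uch Xj p)).2) / α, (H (uch Xj p)).2 / ω)

/-- `hR` solves `f = g ∘ hR` away from the multiple lines and is `C^1` close to `φ` -/
def ZR {r : ℕ} (κ : Fin r → ℕ) (X : Fin r → ℂ) (f g : ℂ × ℂ → ℂ) (φ : ℂ × ℂ → ℂ × ℂ) (a' : ℝ)
    (hR : ℂ × ℂ → ℂ × ℂ) : Prop :=
  ∀ ε > (0 : ℝ), ∃ ρ > (0 : ℝ), ∀ p : ℂ × ℂ, 0 < ‖p‖ → ‖p‖ < ρ →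
    (∀ j, 2 ≤ κ j → a' * ‖p.2‖ < ‖p.1 - X j * p.2‖) →
    f p = g (hR p) ∧ ‖hR p - φ p‖ ≤ ε * ‖p‖ ∧ ContDiffAt ℝ 1 hR p ∧
    ∀ w : ℂ × ℂ, ‖fderiv ℝ hR p w - fderiv ℝ φ p w‖ ≤ ε * ‖w‖

/-- the chart data at a multiple line -/
def ChartAt (f g : ℂ × ℂ → ℂ) (k n : ℕ) (Xj Xj' α ω : ℂ) : Prop :=
  ∃ (N : ℕ) (u : ℂ) (cc : ℕ) (m : Fin cc → ℕ) (b : Fin cc → ℝ) (γ v Γ η : Fin cc → ℂ → ℂ)
    (a : Fin cc → ℂ) (D : Fin cc → ℕ),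
    CFa (fun p => f (p.1 + Xj * p.2, p.2)) (Gn (fun p => g (p.1 + Xj' * p.2, p.2)) α ω)
      k n N u cc m b γ v Γ η a D

end H24.LS
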