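import Pool.Agent.H24.LS.B0
import Pool.Agent.H24.LS.T0
import Pool.Agent.H24.LS.Z0

/-!
# Z1: the gradient of the target form along `φ`, and a dual vector field

`gradf κ c' X' q = (∂_x form, ∂_y form)(q)`; `Wf p = conj (gradf (φ p))/(|∂_x|^2 + |∂_y|^2)`.
* `grad_ne`: if `q ≠ 0` is not on a multiple line (`κ_j ≥ 2`) of the form then the gradient is `≠ 0`: Euler
  `k form = x ∂_x + y ∂_y`; if the gradient vanishes then `form q = 0`, so `q.1 = X'_j q.2` for some `j` (`κ_j ≥ 1`), `κ_j = 1`,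
  then (`q.2 ≠ 0`) `∂_x form (q) = c' Π_{i≠j} (q.1 - X'_i q.2)^{κ_i} ≠ 0`.
* `phi_line`: if `φ p` is on the line `j` of `g` then `p` is on the line `j` of `f`: `q = φ p = (X'_j y', y')`; by `near` (at `x = X_j y`)
  `φ (X_j y, y) = ω_j (X'_j y, y)`; take `y = y'/ω_j`: `φ (X_j y, y) = q = φ p`, injectivity (`left`).  `y' = 0` means `q = 0`, `p = 0`.
* `Wf_bound`: on the compact set `{‖p‖ = 1, a'‖p.2‖ ≤ ‖p.1 - X_j p.2‖ for multiple j}` the gradient at `φ p` is `≠ 0`; homogeneity: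
  `gradf (s q) = s^(k-1) gradf q`, `φ (s p) = s φ p`.  `Wf` is `C^1` near such points, `Wf (s p) = s^{-(k-1)} Wf p` for
  real `s > 0`, so `‖Wf p‖ ≤ C ‖p‖^{-(k-1)}`, `‖fderiv ℝ Wf p‖ ≤ C ‖p‖^{-k}` (stated multiplied out), by compactness (the derivative
  is continuous on the cone; use an open neighbourhood with `a'/2`).
-/

open Filter Topology Metric Asymptotics

namespace H24.LS

noncomputable def gradf {r : ℕ} (κ : Fin r → ℕ) (c : ℂ) (X : Fin r → ℂ) (q : ℂ × ℂ) : ℂ × ℂ :=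
  (dx (form κ c X) q, dy (form κ c X) q)

noncomputable def Wf {r : ℕ} (κ : Fin r → ℕ) (c : ℂ) (X : Fin r → ℂ) (φ : ℂ × ℂ → ℂ × ℂ)
    (p : ℂ × ℂ) : ℂ × ℂ :=
  ((starRingEnd ℂ) (gradf κ c X (φ p)).1 /
      ((‖(gradf κ c X (φ p)).1‖ ^ 2 + ‖(gradf κ c X (φ p)).2‖ ^ 2 : ℝ) : ℂ),
    (starRingEnd ℂ) (gradf κ c X (φ p)).2 /
      ((‖(gradf κ c X (φ p)).1‖ ^ 2 + ‖(gradf κ c X (φ p)).2‖ ^ 2 : ℝ) : ℂ))

private theorem Z1_form_an {r : ℕ} (κ : Fin r → ℕ) (c : ℂ) (X : Fin r → ℂ) :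
    ContDiff ℂ 2 (form κ c X) := by
  have h : ContDiff ℂ 2 (fun p : ℂ × ℂ => c * ∏ j, (p.1 - X j * p.2) ^ κ j) := by
    refine contDiff_const.mul (contDiff_prod fun j _ => ?_)
    exact (contDiff_fst.sub (contDiff_const.mul contDiff_snd)).pow (κ j)
  exact h

private theorem Z1_form_diff {r : ℕ} (κ : Fin r → ℕ) (c : ℂ) (X : Fin r → ℂ) (p : ℂ × ℂ) :
    DifferentiableAt ℂ (form κ c X) p :=
  (Z1_form_an κ c X).contDiffAt.differentiableAt (by norm_num)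

private theorem Z1_form_hom {r : ℕ} (κ : Fin r → ℕ) (c : ℂ) (X : Fin r → ℂ) (s : ℂ) (p : ℂ × ℂ) :
    form κ c X (s • p) = s ^ (∑ j, κ j) * form κ c X p := by
  unfold form
  have h1 : ∀ j, ((s • p).1 - X j * (s • p).2) ^ κ j = s ^ κ j * (p.1 - X j * p.2) ^ κ j := by
    intro j
    rw [← mul_pow, Prod.smul_fst, Prod.smul_snd, smul_eq_mul, smul_eq_mul]
    ring
  rw [Finset.prod_congr rfl fun j _ => h1 j, Finset.prod_mul_distrib, Finset.prod_pow_eq_pow_sum]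
  ring

private theorem Z1_fderiv_hom {r : ℕ} (κ : Fin r → ℕ) (hr : 0 < r) (hκ : ∀ j, 1 ≤ κ j) (c : ℂ)
    (X : Fin r → ℂ) (s : ℂ) (hs : s ≠ 0) (p : ℂ × ℂ) :
    fderiv ℂ (form κ c X) (s • p) = s ^ (∑ j, κ j - 1) • fderiv ℂ (form κ c X) p := by
  have hd : 1 ≤ ∑ j, κ j := by
    have h1 := Finset.single_le_sum (f := κ) (fun i _ => Nat.zero_le _) (Finset.mem_univ (⟨0, hr⟩ : Fin r))
    exact (hκ ⟨0, hr⟩).trans h1
  obtain ⟨m, hm⟩ : ∃ m, ∑ j, κ j = m + 1 := ⟨∑ j, κ j - 1, by omega⟩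
  have h1 : (fun x => form κ c X (s • x)) = fun x => s ^ (∑ j, κ j) • form κ c X x := by
    funext x
    rw [Z1_form_hom, smul_eq_mul]
  have h2 : fderiv ℂ (fun x => form κ c X (s • x)) p = s • fderiv ℂ (form κ c X) (s • p) :=
    fderiv_comp_smul s
  have h3 : fderiv ℂ (fun x => s ^ (∑ j, κ j) • form κ c X x) p =
      s ^ (∑ j, κ j) • fderiv ℂ (form κ c X) p :=
    congrFun (fderiv_const_smul_field (𝕜 := ℂ) (f := form κ c X) (s ^ (∑ j, κ j))) p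
  rw [h1, h3, hm, pow_succ', mul_smul] at h2
  rw [hm, Nat.add_sub_cancel]
  exact (smul_right_injective _ hs h2).symm

private theorem Z1_grad_hom {r : ℕ} (κ : Fin r → ℕ) (hr : 0 < r) (hκ : ∀ j, 1 ≤ κ j) (c : ℂ)
    (X : Fin r → ℂ) (s : ℂ) (hs : s ≠ 0) (p : ℂ × ℂ) :
    gradf κ c X (s • p) = s ^ (∑ j, κ j - 1) • gradf κ c X p := by
  unfold gradf dx dy
  rw [Z1_fderiv_hom κ hr hκ c X s hs p]
  rfl

private theorem Z1_apply {r : ℕ} (κ : Fin r → ℕ) (c : ℂ) (X : Fin r → ℂ) (q v : ℂ × ℂ) :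
    fderiv ℂ (form κ c X) q v = (gradf κ c X q).1 * v.1 + (gradf κ c X q).2 * v.2 := by
  have h1 : v = v.1 • ((1 : ℂ), (0 : ℂ)) + v.2 • ((0 : ℂ), (1 : ℂ)) := by
    ext <;> simp
  conv_lhs => rw [h1]
  rw [map_add, map_smul, map_smul]
  unfold gradf dx dy
  simp only [smul_eq_mul]
  ring

private theorem Z1_ray {E : Type*} [NormedAddCommGroup E] [NormedSpace ℂ E] {h : E → ℂ} {q : E}
    (hd : DifferentiableAt ℂ h q) : HasDerivAt (fun s : ℂ => h (s • q)) (fderiv ℂ h q q) 1 := by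
  have h1 : HasDerivAt (fun s : ℂ => s • q) q 1 := by
    simpa using (hasDerivAt_id (1 : ℂ)).smul_const q
  have h2 : HasFDerivAt h (fderiv ℂ h q) ((1 : ℂ) • q) := by
    rw [one_smul]
    exact hd.hasFDerivAt
  exact h2.comp_hasDerivAt 1 h1

private theorem Z1_euler {r : ℕ} (κ : Fin r → ℕ) (c : ℂ) (X : Fin r → ℂ) (q : ℂ × ℂ) :
    fderiv ℂ (form κ c X) q q = (∑ j, κ j : ℕ) * form κ c X q := by
  have h3 : HasDerivAt (fun s : ℂ => form κ c X (s • q)) (fderiv ℂ (form κ c X) q q) 1 :=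
    Z1_ray (Z1_form_diff κ c X q)
  have h4 : HasDerivAt (fun s : ℂ => s ^ (∑ j, κ j) * form κ c X q)
      ((((∑ j, κ j : ℕ) : ℂ) * 1 ^ (∑ j, κ j - 1)) * form κ c X q) 1 :=
    (hasDerivAt_pow (∑ j, κ j) (1 : ℂ)).mul_const _
  have h5 : (fun s : ℂ => form κ c X (s • q)) = fun s : ℂ => s ^ (∑ j, κ j) * form κ c X q := by
    funext s
    exact Z1_form_hom κ c X s q
  rw [h5] at h3
  rw [h3.unique h4, one_pow, mul_one]

private theorem Z1_simple {r : ℕ} (κ : Fin r → ℕ) (c : ℂ) (X : Fin r → ℂ) (q : ℂ × ℂ) (j : Fin r)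
    (hj : κ j = 1) (hq : q.1 = X j * q.2) :
    (gradf κ c X q).1 = c * ∏ i ∈ Finset.univ.erase j, (q.1 - X i * q.2) ^ κ i := by
  have h1 : ∀ p : ℂ × ℂ, form κ c X p =
      (p.1 - X j * p.2) * (c * ∏ i ∈ Finset.univ.erase j, (p.1 - X i * p.2) ^ κ i) := by
    intro p
    unfold form
    rw [← Finset.mul_prod_erase Finset.univ _ (Finset.mem_univ j), hj, pow_one]
    ring
  have h2 : HasDerivAt (fun x : ℂ => (x, q.2)) ((1 : ℂ), (0 : ℂ)) q.1 :=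
    (hasDerivAt_id q.1).prodMk (hasDerivAt_const q.1 q.2)
  have h3 : HasDerivAt (fun x : ℂ => form κ c X (x, q.2)) (fderiv ℂ (form κ c X) q (1, 0)) q.1 := by
    have h4 : HasFDerivAt (form κ c X) (fderiv ℂ (form κ c X) q) (q.1, q.2) :=
      (Z1_form_diff κ c X q).hasFDerivAt
    exact h4.comp_hasDerivAt q.1 h2
  have h5 : DifferentiableAt ℂ
      (fun x : ℂ => c * ∏ i ∈ Finset.univ.erase j, (x - X i * q.2) ^ κ i) q.1 := by
    fun_prop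
  have h6 : HasDerivAt (fun x : ℂ => x - X j * q.2) 1 q.1 := (hasDerivAt_id q.1).sub_const _
  have h7 := h6.mul h5.hasDerivAt
  have h8 : (fun x : ℂ => form κ c X (x, q.2)) =
      (fun x : ℂ => x - X j * q.2) * fun x : ℂ => c * ∏ i ∈ Finset.univ.erase j, (x - X i * q.2) ^ κ i := by
    funext x
    exact h1 _
  rw [h8] at h3
  have h9 := h3.unique h7
  unfold gradf dx
  simp only
  rw [h9, hq, sub_self, zero_mul, add_zero, one_mul]

theorem grad_ne {r : ℕ} (κ : Fin r → ℕ) (hr : 0 < r) (hκ : ∀ j, 1 ≤ κ j) (c : ℂ) (hc : c ≠ 0)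
    (X : Fin r → ℂ) (hX : Function.Injective X) (q : ℂ × ℂ) (hq : q ≠ 0)
    (h : ∀ j, 2 ≤ κ j → q.1 ≠ X j * q.2) : gradf κ c X q ≠ 0 := by
  intro h0
  have hd : 1 ≤ ∑ j, κ j := by
    have h1 := Finset.single_le_sum (f := κ) (fun i _ => Nat.zero_le _) (Finset.mem_univ (⟨0, hr⟩ : Fin r))
    exact (hκ ⟨0, hr⟩).trans h1
  have h1 := Z1_euler κ c X q
  rw [Z1_apply, h0] at h1
  simp only [Prod.fst_zero, Prod.snd_zero, zero_mul, add_zero] at h1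
  have h2 : form κ c X q = 0 := by
    rcases mul_eq_zero.1 h1.symm with h3 | h3
    · exfalso
      have : (∑ j, κ j : ℕ) = 0 := by exact_mod_cast h3
      omega
    · exact h3
  unfold form at h2
  have h3 : ∏ j, (q.1 - X j * q.2) ^ κ j = 0 := (mul_eq_zero.1 h2).resolve_left hc
  obtain ⟨j, _, hj⟩ := Finset.prod_eq_zero_iff.1 h3
  have hj1 : q.1 = X j * q.2 := sub_eq_zero.1 (pow_eq_zero_iff (by have := hκ j; omega) |>.1 hj)
  have hκj : κ j = 1 := by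
    by_contra hne
    have := hκ j
    exact h j (by omega) hj1
  have h4 := Z1_simple κ c X q j hκj hj1
  rw [h0] at h4
  have h5 : ∏ i ∈ Finset.univ.erase j, (q.1 - X i * q.2) ^ κ i = 0 :=
    (mul_eq_zero.1 h4.symm).resolve_left hc
  obtain ⟨i, hi, hi0⟩ := Finset.prod_eq_zero_iff.1 h5
  have hij : i ≠ j := (Finset.mem_erase.1 hi).1
  have hi1 : q.1 = X i * q.2 := sub_eq_zero.1 (pow_eq_zero_iff (by have := hκ i; omega) |>.1 hi0)
  have h6 : (X i - X j) * q.2 = 0 := by rw [sub_mul, ← hi1, ← hj1, sub_self]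
  have h7 : q.2 = 0 := (mul_eq_zero.1 h6).resolve_left (sub_ne_zero.2 fun h => hij (hX h))
  apply hq
  ext
  · rw [hj1, h7]; simp
  · exact h7

theorem phi_line {r : ℕ} {κ : Fin r → ℕ} {c c' : ℂ} {X X' β ω : Fin r → ℂ}
    {φ ψ : ℂ × ℂ → ℂ × ℂ} (hM : IsMor κ c c' X X' β ω φ ψ) (j : Fin r) (p : ℂ × ℂ)
    (h : (φ p).1 = X' j * (φ p).2) : p.1 = X j * p.2 := by
  have hψ0 : ψ 0 = 0 := by simpa using hM.hom' 0 0
  by_cases hy : (φ p).2 = 0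
  · have h1 : φ p = 0 := by
      ext
      · rw [h, hy]; simp
      · exact hy
    have h2 : p = 0 := by rw [← hM.left p, h1, hψ0]
    rw [h2]; simp
  · obtain ⟨δ, hδ, u, _, hu, hn⟩ := hM.near j
    have hω := hM.hω j
    have hy2 : (φ p).2 / ω j ≠ 0 := div_ne_zero hy hω
    have h3 := hn (X j * ((φ p).2 / ω j)) ((φ p).2 / ω j) hy2 (by
      rw [sub_self, norm_zero]
      exact mul_pos hδ (norm_pos_iff.2 hy2))
    rw [mul_div_cancel_right₀ _ hy2, hu, sub_self, mul_zero, add_zero] at h3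
    have h4 : φ (X j * ((φ p).2 / ω j), (φ p).2 / ω j) = φ p := by
      rw [h3]
      ext
      · rw [h]; simp only; field_simp
      · simp only; field_simp
    have h5 : (X j * ((φ p).2 / ω j), (φ p).2 / ω j) = p := by
      rw [← hM.left (X j * ((φ p).2 / ω j), (φ p).2 / ω j), h4, hM.left]
    rw [← h5]

private theorem Z1_cone {r : ℕ} {κ : Fin r → ℕ} (hr : 0 < r) (hκ : ∀ j, 1 ≤ κ j) {c c' : ℂ}
    (hc' : c' ≠ 0) {X X' β ω : Fin r → ℂ} (hX' : Function.Injective X')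
    {φ ψ : ℂ × ℂ → ℂ × ℂ} (hM : IsMor κ c c' X X' β ω φ ψ) (a' : ℝ) (ha' : 0 < a') {p : ℂ × ℂ}
    (hp : p ≠ 0) (h : ∀ j, 2 ≤ κ j → a' * ‖p.2‖ ≤ ‖p.1 - X j * p.2‖) :
    gradf κ c' X' (φ p) ≠ 0 := by
  have hψ0 : ψ 0 = 0 := by simpa using hM.hom' 0 0
  have hφ : φ p ≠ 0 := by
    intro h0
    apply hp
    rw [← hM.left p, h0, hψ0]
  refine grad_ne κ hr hκ c' hc' X' hX' (φ p) hφ fun j hj h1 => ?_
  have h2 := phi_line hM j p h1
  have h3 := h j hj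
  rw [h2, sub_self, norm_zero] at h3
  have h4 : ‖p.2‖ = 0 := by
    have := norm_nonneg p.2
    by_contra hne
    have h5 : 0 < ‖p.2‖ := lt_of_le_of_ne this (Ne.symm hne)
    have := mul_pos ha' h5
    linarith
  have h5 : p.2 = 0 := norm_eq_zero.1 h4
  apply hp
  ext
  · rw [h2, h5]; simp
  · exact h5

private theorem Z1_N {z : ℂ × ℂ} (hz : z ≠ 0) : 0 < ‖z.1‖ ^ 2 + ‖z.2‖ ^ 2 := by
  by_cases h1 : z.1 = 0
  · have h2 : z.2 ≠ 0 := fun h2 => hz (Prod.ext h1 h2)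
    have := norm_pos_iff.2 h2
    positivity
  · have := norm_pos_iff.2 h1
    positivity

private theorem Z1_eq {r : ℕ} (κ : Fin r → ℕ) (c : ℂ) (X : Fin r → ℂ) (φ : ℂ × ℂ → ℂ × ℂ) :
    Wf κ c X φ = fun p => ((‖(gradf κ c X (φ p)).1‖ ^ 2 + ‖(gradf κ c X (φ p)).2‖ ^ 2)⁻¹ : ℝ) •
      ((starRingEnd ℂ) (gradf κ c X (φ p)).1, (starRingEnd ℂ) (gradf κ c X (φ p)).2) := by
  funext p
  unfold Wf
  ext
  · simp only [Prod.smul_fst, Complex.real_smul, Complex.ofReal_inv]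
    rw [div_eq_inv_mul]
  · simp only [Prod.smul_snd, Complex.real_smul, Complex.ofReal_inv]
    rw [div_eq_inv_mul]

private theorem Z1_smooth {r : ℕ} (κ : Fin r → ℕ) (c : ℂ) (X : Fin r → ℂ) {φ : ℂ × ℂ → ℂ × ℂ}
    {p : ℂ × ℂ} (hφ : ContDiffAt ℝ 1 φ p) (hg : gradf κ c X (φ p) ≠ 0) :
    ContDiffAt ℝ 1 (Wf κ c X φ) p := by
  rw [Z1_eq]
  have h1 : ContDiff ℂ 1 (fderiv ℂ (form κ c X)) := (Z1_form_an κ c X).fderiv_right (by norm_num)
  have h2 : ContDiff ℝ 1 (fun q => fderiv ℂ (form κ c X) q (1, 0)) :=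
    (h1.clm_apply contDiff_const).restrict_scalars ℝ
  have h3 : ContDiff ℝ 1 (fun q => fderiv ℂ (form κ c X) q (0, 1)) :=
    (h1.clm_apply contDiff_const).restrict_scalars ℝ
  have h4 : ContDiffAt ℝ 1 (fun q => (gradf κ c X (φ q)).1) p := h2.contDiffAt.comp p hφ
  have h5 : ContDiffAt ℝ 1 (fun q => (gradf κ c X (φ q)).2) p := h3.contDiffAt.comp p hφ
  have h6 : ContDiffAt ℝ 1
      (fun q => ‖(gradf κ c X (φ q)).1‖ ^ 2 + ‖(gradf κ c X (φ q)).2‖ ^ 2) p :=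
    (h4.norm_sq ℝ).add (h5.norm_sq ℝ)
  have h7 : ContDiff ℝ 1 (fun z : ℂ => (starRingEnd ℂ) z) := Complex.conjCLE.contDiff
  have h8 : ContDiffAt ℝ 1 (fun q => (starRingEnd ℂ) (gradf κ c X (φ q)).1) p :=
    h7.contDiffAt.comp p h4
  have h9 : ContDiffAt ℝ 1 (fun q => (starRingEnd ℂ) (gradf κ c X (φ q)).2) p :=
    h7.contDiffAt.comp p h5
  exact (h6.inv (Z1_N hg).ne').smul (h8.prodMk h9)

private theorem Z1_Wf_hom {r : ℕ} {κ : Fin r → ℕ} (hr : 0 < r) (hκ : ∀ j, 1 ≤ κ j) {c c' : ℂ}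
    {X X' β ω : Fin r → ℂ} {φ ψ : ℂ × ℂ → ℂ × ℂ} (hM : IsMor κ c c' X X' β ω φ ψ) {s : ℝ}
    (hs : 0 < s) (p : ℂ × ℂ) :
    s ^ (∑ j, κ j - 1) • Wf κ c' X' φ (s • p) = Wf κ c' X' φ p := by
  have hs' : (s : ℂ) ≠ 0 := by exact_mod_cast hs.ne'
  have h1 : φ (s • p) = (s : ℂ) • φ p := by rw [← hM.hom, Complex.coe_smul]
  have h2 : gradf κ c' X' (φ (s • p)) = s ^ (∑ j, κ j - 1) • gradf κ c' X' (φ p) := by
    rw [h1, Z1_grad_hom κ hr hκ c' X' s hs', ← Complex.ofReal_pow, Complex.coe_smul]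
  rw [Z1_eq]
  simp only
  rw [h2]
  set t : ℝ := s ^ (∑ j, κ j - 1) with ht
  have ht0 : 0 < t := by positivity
  set g := gradf κ c' X' (φ p) with hg
  simp only [Prod.smul_fst, Prod.smul_snd, norm_smul, Real.norm_eq_abs, abs_of_pos ht0]
  have h3 : (starRingEnd ℂ) (t • g.1) = t • (starRingEnd ℂ) g.1 := by
    rw [Complex.real_smul, map_mul, Complex.conj_ofReal, ← Complex.real_smul]
  have h4 : (starRingEnd ℂ) (t • g.2) = t • (starRingEnd ℂ) g.2 := by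
    rw [Complex.real_smul, map_mul, Complex.conj_ofReal, ← Complex.real_smul]
  rw [h3, h4, ← Prod.smul_mk, smul_smul, smul_smul]
  congr 1
  rw [mul_pow, mul_pow, ← mul_add, mul_inv]
  field_simp

theorem Wf_bound {r : ℕ} {κ : Fin r → ℕ} (hr : 0 < r) (hκ : ∀ j, 1 ≤ κ j) {c c' : ℂ}
    (hc' : c' ≠ 0) {X X' β ω : Fin r → ℂ} (hX' : Function.Injective X')
    {φ ψ : ℂ × ℂ → ℂ × ℂ} (hM : IsMor κ c c' X X' β ω φ ψ) (a' : ℝ) (ha' : 0 < a') :
    ∃ C > (0 : ℝ), ∀ p : ℂ × ℂ, 0 < ‖p‖ →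
      (∀ j, 2 ≤ κ j → a' * ‖p.2‖ ≤ ‖p.1 - X j * p.2‖) →
      fderiv ℂ (form κ c' X') (φ p) (Wf κ c' X' φ p) = 1 ∧
      ContDiffAt ℝ 1 (Wf κ c' X' φ) p ∧
      ‖Wf κ c' X' φ p‖ * ‖p‖ ^ (∑ j, κ j - 1) ≤ C ∧
      ‖fderiv ℝ (Wf κ c' X' φ) p‖ * ‖p‖ ^ (∑ j, κ j) ≤ C := by
  have hd : 1 ≤ ∑ j, κ j := by
    have h1 := Finset.single_le_sum (f := κ) (fun i _ => Nat.zero_le _) (Finset.mem_univ (⟨0, hr⟩ : Fin r))
    exact (hκ ⟨0, hr⟩).trans h1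
  set S : Set (ℂ × ℂ) := sphere 0 1 ∩ {p | ∀ j, 2 ≤ κ j → a' * ‖p.2‖ ≤ ‖p.1 - X j * p.2‖} with hS
  have hScl : IsClosed {p : ℂ × ℂ | ∀ j, 2 ≤ κ j → a' * ‖p.2‖ ≤ ‖p.1 - X j * p.2‖} := by
    simp only [Set.ofPred_forall]
    refine isClosed_iInter fun j => isClosed_iInter fun _ => ?_
    exact isClosed_le (by fun_prop) (by fun_prop)
  have hSc : IsCompact S := (isCompact_sphere (0 : ℂ × ℂ) 1).inter_right hScl
  have hne : ∀ p ∈ sphere (0 : ℂ × ℂ) 1, p ≠ 0 := by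
    intro p hp h0
    rw [h0, mem_sphere, dist_self] at hp
    exact zero_ne_one hp
  have hsm : ∀ p : ℂ × ℂ, p ≠ 0 → (∀ j, 2 ≤ κ j → a' * ‖p.2‖ ≤ ‖p.1 - X j * p.2‖) →
      ContDiffAt ℝ 1 (Wf κ c' X' φ) p := fun p hp h =>
    Z1_smooth κ c' X' (hM.smooth p hp) (Z1_cone hr hκ hc' hX' hM a' ha' hp h)
  obtain ⟨C1, hC1⟩ := hSc.exists_bound_of_continuousOn (f := Wf κ c' X' φ) (fun p hp =>
    (hsm p (hne p hp.1) hp.2).continuousAt.continuousWithinAt)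
  obtain ⟨C2, hC2⟩ := hSc.exists_bound_of_continuousOn (f := fderiv ℝ (Wf κ c' X' φ)) (fun p hp =>
    ((hsm p (hne p hp.1) hp.2).continuousAt_fderiv one_ne_zero).continuousWithinAt)
  refine ⟨|C1| + |C2| + 1, by positivity, fun p hp h => ?_⟩
  have hp0 : p ≠ 0 := norm_pos_iff.1 hp
  have hg := Z1_cone hr hκ hc' hX' hM a' ha' hp0 h
  refine ⟨?_, hsm p hp0 h, ?_, ?_⟩
  · rw [Z1_apply]
    unfold Wf
    have hN := Z1_N hg
    set g := gradf κ c' X' (φ p)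
    have hN' : ((‖g.1‖ ^ 2 + ‖g.2‖ ^ 2 : ℝ) : ℂ) ≠ 0 := by exact_mod_cast hN.ne'
    simp only
    rw [← mul_div_assoc, ← mul_div_assoc, ← add_div, div_eq_one_iff_eq hN', Complex.mul_conj,
      Complex.mul_conj, Complex.normSq_eq_norm_sq, Complex.normSq_eq_norm_sq]
    push_cast
    rfl
  all_goals
    set s : ℝ := ‖p‖ with hs
    set q : ℂ × ℂ := s⁻¹ • p with hq
    have hqS : q ∈ S := by
      refine ⟨?_, fun j hj => ?_⟩
      · rw [mem_sphere, dist_zero_right, hq, norm_smul, Real.norm_eq_abs,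
          abs_of_pos (inv_pos.2 hp), ← hs, inv_mul_cancel₀ hp.ne']
      · have h1 := h j hj
        have h2 : q.1 - X j * q.2 = s⁻¹ • (p.1 - X j * p.2) := by
          rw [hq, Prod.smul_fst, Prod.smul_snd, Complex.real_smul, Complex.real_smul,
            Complex.real_smul]
          ring
        have h3 : ‖q.2‖ = s⁻¹ * ‖p.2‖ := by
          rw [hq, Prod.smul_snd, norm_smul, Real.norm_eq_abs, abs_of_pos (inv_pos.2 hp)]
        rw [h2, h3, norm_smul, Real.norm_eq_abs, abs_of_pos (inv_pos.2 hp)]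
        have h4 := mul_le_mul_of_nonneg_left h1 (inv_pos.2 hp).le
        linarith
    have hpq : p = s • q := by rw [hq, smul_smul, mul_inv_cancel₀ hp.ne', one_smul]
  · have h1 := Z1_Wf_hom (c := c) hr hκ hM hp q
    rw [← hpq] at h1
    have h2 : ‖Wf κ c' X' φ p‖ * s ^ (∑ j, κ j - 1) = ‖Wf κ c' X' φ q‖ := by
      rw [← h1, norm_smul, Real.norm_eq_abs, abs_of_pos (by positivity), mul_comm]
    rw [h2]
    have h3 := hC1 q hqS
    linarith [le_abs_self C1, abs_nonneg C2]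
  · have h1 : (fun x => s ^ (∑ j, κ j - 1) • Wf κ c' X' φ (s • x)) = Wf κ c' X' φ := by
      funext x
      exact Z1_Wf_hom hr hκ hM hp x
    have h2 : fderiv ℝ (fun x => Wf κ c' X' φ (s • x)) q = s • fderiv ℝ (Wf κ c' X' φ) (s • q) :=
      fderiv_comp_smul s
    have h3 : fderiv ℝ (fun x => s ^ (∑ j, κ j - 1) • Wf κ c' X' φ (s • x)) q =
        s ^ (∑ j, κ j - 1) • fderiv ℝ (fun x => Wf κ c' X' φ (s • x)) q :=
      congrFun (fderiv_const_smul_field (𝕜 := ℝ) (f := fun x => Wf κ c' X' φ (s • x))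
        (s ^ (∑ j, κ j - 1))) q
    rw [h1, h2, ← hpq, smul_smul, ← pow_succ, Nat.sub_add_cancel hd] at h3
    have h4 : ‖fderiv ℝ (Wf κ c' X' φ) p‖ * s ^ (∑ j, κ j) = ‖fderiv ℝ (Wf κ c' X' φ) q‖ := by
      rw [h3, norm_smul, Real.norm_eq_abs, abs_of_pos (by positivity), mul_comm]
    rw [h4]
    have h5 := hC2 q hqS
    linarith [le_abs_self C2, abs_nonneg C1]

end H24.LS
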