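import Pool.Agent.H24.LS.B0
import Pool.Agent.H24.LS.T0
import Pool.Agent.H24.LS.G7
import Pool.Agent.H24.LS.Z0
import Pool.Agent.H24.LS.Z1

/-!
# Z2: solution away from the multiple lines

`k = Σ κ ≥ 3`.  `f_k = form κ c X`, `g_k = form κ c' X'`, `f_k = g_k ∘ φ` (`eqf`), `W = Wf κ c' X' φ`.
`H (p, s) = g (φ p + s • W p) - f p`, `s ∈ ℂ`, on `U = {0 < ‖p‖ < ρ, a'‖p.2‖ < ‖p.1 - X_j p.2‖ for multiple j}` (open).
Constants `C`: `‖φ p‖ ≤ C‖p‖`, `‖fderiv ℝ φ p‖ ≤ C` (`T0`), `Wf_bound`, `NForm.bd, fd` for `f` and `g`, `form_bound`, and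
`‖fderiv g_k q - fderiv g_k q'‖ ≤ C (‖q‖ + ‖q'‖)^(k-2) ‖q - q'‖` (polynomial; homogeneous).
For `‖s‖ ≤ c1 ‖p‖^k` (`c1` small): `‖s W‖ ≤ c1 C ‖p‖`; `∂_s H = fderiv g (φ + sW) W`, and
`‖∂_s H - 1‖ = ‖[fderiv g (φ+sW) - fderiv g_k (φ+sW)] W + [fderiv g_k (φ + sW) - fderiv g_k φ] W‖ ≤ C'‖p‖ + C' c1 ≤ 1/2`.
`‖H (p,0)‖ = ‖(g - g_k)(φ p) - (f - f_k)(p)‖ ≤ C' ‖p‖^(k+1) ≤ c1 ‖p‖^k/4`.
`newton1` (`a = 1`, `r = c1‖p‖^k`): `s(p)`, `‖s p‖ ≤ C''‖p‖^(k+1)`, unique in the ball.  `solve_C1` with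
`S = {(p,s) | p ∈ U, ‖s‖ < c1‖p‖^k}`: `s` is `C^1`.  `hR p = φ p + s p • W p` (outside `U` anything).
`‖hR p - φ p‖ ≤ C‖p‖^2`.  Derivative: `∂_s H Ds(w) = -D_p H(w)` with (real derivative of `f_k = g_k ∘ φ`)
`D_p H(w) = [fderiv g (φ+sW) - fderiv g_k φ](Dφ w) + s fderiv g (φ+sW)(DW w) - [fderiv f p - fderiv f_k p](w)`,
`‖..‖ ≤ C‖p‖^k ‖w‖`.  So `‖Ds w‖ ≤ C‖p‖^k‖w‖`, `‖D(sW) w‖ ≤ ‖Ds w‖‖W‖ + ‖s‖‖DW w‖ ≤ C‖p‖‖w‖`.
-/

open Filter Topology Metric Asymptotics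

namespace H24.LS

theorem Z2_form_an {r : ℕ} (κ : Fin r → ℕ) (c : ℂ) (X : Fin r → ℂ) (p : ℂ × ℂ) :
    AnalyticAt ℂ (form κ c X) p := by
  have h : AnalyticAt ℂ (fun p : ℂ × ℂ => c * ∏ j, (p.1 - X j * p.2) ^ κ j) p := by
    apply AnalyticAt.mul analyticAt_const
    apply Finset.analyticAt_fun_prod
    intro j _
    exact (analyticAt_fst.sub (analyticAt_const.mul analyticAt_snd)).pow (κ j)
  exact h

theorem Z2_core {E F : Type*} [NormedAddCommGroup E] [NormedSpace ℂ E] [NormedAddCommGroup F]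
    [NormedSpace ℂ F] {h : E → F} {m : ℕ} {C : ℝ} (hC : 0 ≤ C) {p : E} (hp : p ≠ 0)
    (hd : ∀ q : E, DifferentiableAt ℂ h q)
    (hb : ∀ q : E, ‖h q‖ ≤ C * ‖q‖ ^ (m + 1)) :
    ‖fderiv ℂ h p‖ ≤ C * 2 ^ (m + 1) * ‖p‖ ^ m := by
  have hp0 : 0 < ‖p‖ := norm_pos_iff.2 hp
  apply ContinuousLinearMap.opNorm_le_bound _ (by positivity)
  intro v
  by_cases hv : v = 0
  · simp [hv]
  have hv0 : 0 < ‖v‖ := norm_pos_iff.2 hv
  set R : ℝ := ‖p‖ / ‖v‖ with hR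
  have hR0 : 0 < R := by positivity
  have hn : ∀ s : ℂ, ‖s‖ ≤ R → ‖p + s • v‖ ≤ 2 * ‖p‖ := by
    intro s hs
    calc ‖p + s • v‖ ≤ ‖p‖ + ‖s‖ * ‖v‖ := (norm_add_le _ _).trans (by rw [norm_smul])
      _ ≤ ‖p‖ + R * ‖v‖ := by
        have := mul_le_mul_of_nonneg_right hs hv0.le
        linarith
      _ = 2 * ‖p‖ := by rw [hR]; field_simp; ring
  have hder : ∀ s : ℂ, HasDerivAt (fun s : ℂ => p + s • v) v s := by
    intro s
    have := ((hasDerivAt_id s).smul_const v).const_add p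
    rw [one_smul] at this
    exact this
  have h1 : HasDerivAt (fun s : ℂ => h (p + s • v)) (fderiv ℂ h p v) 0 := by
    have h2 : HasFDerivAt h (fderiv ℂ h p) (p + (0 : ℂ) • v) := by
      rw [zero_smul, add_zero]
      exact (hd p).hasFDerivAt
    exact h2.comp_hasDerivAt 0 (hder 0)
  have h3 := Complex.norm_deriv_le_of_forall_mem_sphere_norm_le (c := (0 : ℂ)) (R := R)
    (C := C * (2 * ‖p‖) ^ (m + 1)) (f := fun s : ℂ => h (p + s • v)) hR0 (by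
      apply DifferentiableOn.diffContOnCl
      rw [closure_ball _ hR0.ne']
      intro s hs
      exact ((hd _).comp s (hder s).differentiableAt).differentiableWithinAt)
    (fun s hs => by
      have hs' : ‖s‖ ≤ R := by
        have : ‖s‖ = R := by simpa using hs
        exact this.le
      refine (hb _).trans (mul_le_mul_of_nonneg_left ?_ hC)
      exact pow_le_pow_left₀ (norm_nonneg _) (hn s hs') _)
  rw [h1.deriv] at h3
  refine h3.trans (le_of_eq ?_)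
  rw [hR, mul_pow, pow_succ ‖p‖ m]
  field_simp

theorem Z2_lip {r : ℕ} (κ : Fin r → ℕ) (hr : 0 < r) (hκ : ∀ j, 1 ≤ κ j) (c : ℂ) (X : Fin r → ℂ)
    (m : ℕ) (hm : ∑ j, κ j = m + 3) :
    ∃ C > (0 : ℝ), ∀ q q' : ℂ × ℂ, ‖fderiv ℂ (form κ c X) q - fderiv ℂ (form κ c X) q'‖ ≤
      C * (‖q‖ + ‖q'‖) ^ (m + 1) * ‖q - q'‖ := by
  obtain ⟨C, hC, hb⟩ := form_bound κ hr hκ c X
  rw [hm] at hb
  have hb2 : ∀ q, ‖fderiv ℂ (form κ c X) q‖ ≤ C * ‖q‖ ^ (m + 1 + 1) := fun q => (hb q).2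
  have hd : ∀ q, DifferentiableAt ℂ (fderiv ℂ (form κ c X)) q := fun q =>
    (Z2_form_an κ c X q).fderiv.differentiableAt
  have hD : ∀ q, ‖fderiv ℂ (fderiv ℂ (form κ c X)) q‖ ≤ C * 2 ^ (m + 1 + 1) * ‖q‖ ^ (m + 1) := by
    intro q
    by_cases hq : q = 0
    · have h1 : (fderiv ℂ (form κ c X)) =O[𝓝 (0 : ℂ × ℂ)] fun x => ‖x - 0‖ ^ (m + 1 + 1) := by
        apply Asymptotics.IsBigO.of_bound C
        filter_upwards with x
        rw [sub_zero, Real.norm_eq_abs, abs_of_nonneg (by positivity)]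
        exact hb2 x
      have h2 : HasFDerivAt (fderiv ℂ (form κ c X)) (0 : ℂ × ℂ →L[ℂ] (ℂ × ℂ →L[ℂ] ℂ)) 0 :=
        h1.hasFDerivAt (by omega)
      rw [hq, h2.fderiv]
      have e : ‖(0 : ℂ × ℂ →L[ℂ] (ℂ × ℂ →L[ℂ] ℂ))‖ = 0 := ContinuousLinearMap.opNorm_zero
      rw [e]
      positivity
    · exact Z2_core hC.le hq hd hb2
  refine ⟨C * 2 ^ (m + 1 + 1), by positivity, fun q q' => ?_⟩
  have hmv := (convex_closedBall (0 : ℂ × ℂ) (‖q‖ + ‖q'‖)).norm_image_sub_le_of_norm_fderiv_le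
    (𝕜 := ℂ) (f := fderiv ℂ (form κ c X)) (C := C * 2 ^ (m + 1 + 1) * (‖q‖ + ‖q'‖) ^ (m + 1))
    (x := q') (y := q) (fun x _ => hd x) (fun x hx => (hD x).trans (by
      rw [mem_closedBall, dist_zero_right] at hx
      exact mul_le_mul_of_nonneg_left (pow_le_pow_left₀ (norm_nonneg _) hx _) (by positivity)))
    (by rw [mem_closedBall, dist_zero_right]; linarith [norm_nonneg q])
    (by rw [mem_closedBall, dist_zero_right]; linarith [norm_nonneg q'])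
  exact hmv

/-- constants -/
structure Z2K (m : ℕ) (f fk g gk : ℂ × ℂ → ℂ) (φ W : ℂ × ℂ → ℂ × ℂ) (Ω : Set (ℂ × ℂ))
    (C δ : ℝ) : Prop where
  hC : 1 ≤ C
  hδ : 0 < δ
  fan : ∀ p : ℂ × ℂ, ‖p‖ < δ → AnalyticAt ℂ f p
  gan : ∀ p : ℂ × ℂ, ‖p‖ < δ → AnalyticAt ℂ g p
  fkd : ∀ p : ℂ × ℂ, DifferentiableAt ℂ fk p
  gkd : ∀ p : ℂ × ℂ, DifferentiableAt ℂ gk p
  fb : ∀ p : ℂ × ℂ, ‖p‖ < δ → ‖f p - fk p‖ ≤ C * ‖p‖ ^ (m + 4)
  fdb : ∀ p : ℂ × ℂ, ‖p‖ < δ → ‖fderiv ℂ f p - fderiv ℂ fk p‖ ≤ C * ‖p‖ ^ (m + 3)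
  gb : ∀ p : ℂ × ℂ, ‖p‖ < δ → ‖g p - gk p‖ ≤ C * ‖p‖ ^ (m + 4)
  gdb : ∀ p : ℂ × ℂ, ‖p‖ < δ → ‖fderiv ℂ g p - fderiv ℂ gk p‖ ≤ C * ‖p‖ ^ (m + 3)
  gl : ∀ q q' : ℂ × ℂ, ‖fderiv ℂ gk q - fderiv ℂ gk q'‖ ≤
    C * (‖q‖ + ‖q'‖) ^ (m + 1) * ‖q - q'‖
  g3 : ∀ q : ℂ × ℂ, ‖fderiv ℂ gk q‖ ≤ C * ‖q‖ ^ (m + 2)
  eq : ∀ p : ℂ × ℂ, fk p = gk (φ p)
  φb : ∀ p : ℂ × ℂ, ‖φ p‖ ≤ C * ‖p‖
  φs : ∀ p : ℂ × ℂ, p ≠ 0 → ContDiffAt ℝ 1 φ p
  φd : ∀ p : ℂ × ℂ, p ≠ 0 → ‖fderiv ℝ φ p‖ ≤ C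
  Ωo : IsOpen Ω
  Ω0 : ∀ p ∈ Ω, p ≠ 0
  W1 : ∀ p ∈ Ω, fderiv ℂ gk (φ p) (W p) = 1
  Ws : ∀ p ∈ Ω, ContDiffAt ℝ 1 W p
  Wb : ∀ p ∈ Ω, ‖W p‖ * ‖p‖ ^ (m + 2) ≤ C
  Wd : ∀ p ∈ Ω, ‖fderiv ℝ W p‖ * ‖p‖ ^ (m + 3) ≤ C

namespace Z2K

variable {m : ℕ} {f fk g gk : ℂ × ℂ → ℂ} {φ W : ℂ × ℂ → ℂ × ℂ} {Ω : Set (ℂ × ℂ)} {C δ : ℝ}

/-- size of `s W` -/
theorem sW (h : Z2K m f fk g gk φ W Ω C δ) {p : ℂ × ℂ} (hp : p ∈ Ω) {s : ℂ} {σ : ℝ} 
    (hσ : 0 ≤ σ) (hs : ‖s‖ ≤ σ * ‖p‖ ^ (m + 3)) : ‖s • W p‖ ≤ σ * C * ‖p‖ := by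
  have h1 := h.Wb p hp
  rw [norm_smul]
  calc ‖s‖ * ‖W p‖ ≤ (σ * ‖p‖ ^ (m + 3)) * ‖W p‖ := mul_le_mul_of_nonneg_right hs (norm_nonneg _)
    _ = σ * ‖p‖ * (‖W p‖ * ‖p‖ ^ (m + 2)) := by ring
    _ ≤ σ * ‖p‖ * C := mul_le_mul_of_nonneg_left h1 (by positivity)
    _ = _ := by ring

/-- the point `q = φ p + s W` -/
theorem q_bound (h : Z2K m f fk g gk φ W Ω C δ) {p : ℂ × ℂ} (hp : p ∈ Ω) {s : ℂ} {σ : ℝ}
    (hσ : 0 ≤ σ) (hσ1 : σ ≤ 1) (hs : ‖s‖ ≤ σ * ‖p‖ ^ (m + 3)) :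
    ‖φ p + s • W p‖ ≤ 2 * C * ‖p‖ := by
  have h1 := h.sW hp hσ hs
  have h2 := h.φb p
  have h3 : σ * C * ‖p‖ ≤ C * ‖p‖ := by
    have : 0 ≤ C * ‖p‖ := mul_nonneg (by linarith [h.hC]) (norm_nonneg _)
    nlinarith
  have := norm_add_le (φ p) (s • W p)
  linarith

theorem deriv1 (h : Z2K m f fk g gk φ W Ω C δ) {p : ℂ × ℂ} (hp : p ∈ Ω)
    (hpδ : 2 * C * ‖p‖ < δ) {s : ℂ} {σ : ℝ}
    (hσ : 0 ≤ σ) (hσ1 : σ ≤ 1) (hs : ‖s‖ ≤ σ * ‖p‖ ^ (m + 3)) :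
    ‖fderiv ℂ g (φ p + s • W p) (W p) - 1‖ ≤ (4 * C) ^ (m + 6) * (‖p‖ + σ) := by
  have hC := h.hC
  have hC0 : 0 < C := by linarith
  set q := φ p + s • W p with hq
  have hqb : ‖q‖ ≤ 2 * C * ‖p‖ := h.q_bound hp hσ hσ1 hs
  have hqδ : ‖q‖ < δ := lt_of_le_of_lt hqb hpδ
  have hWb := h.Wb p hp
  have e1 : fderiv ℂ g q (W p) - 1 = (fderiv ℂ g q - fderiv ℂ gk q) (W p) +
      (fderiv ℂ gk q - fderiv ℂ gk (φ p)) (W p) := by
    have := h.W1 p hp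
    simp only [_root_.sub_apply]
    rw [this]
    ring
  have e2 : ‖(fderiv ℂ g q - fderiv ℂ gk q) (W p)‖ ≤ (4 * C) ^ (m + 6) * ‖p‖ := by
    calc ‖(fderiv ℂ g q - fderiv ℂ gk q) (W p)‖ ≤ ‖fderiv ℂ g q - fderiv ℂ gk q‖ * ‖W p‖ :=
          ContinuousLinearMap.le_opNorm _ _
      _ ≤ (C * ‖q‖ ^ (m + 3)) * ‖W p‖ := mul_le_mul_of_nonneg_right (h.gdb q hqδ) (norm_nonneg _)
      _ ≤ (C * (2 * C * ‖p‖) ^ (m + 3)) * ‖W p‖ := by
          apply mul_le_mul_of_nonneg_right _ (norm_nonneg _)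
          exact mul_le_mul_of_nonneg_left (pow_le_pow_left₀ (norm_nonneg _) hqb _) hC0.le
      _ = (C * (2 * C) ^ (m + 3) * ‖p‖) * (‖W p‖ * ‖p‖ ^ (m + 2)) := by ring
      _ ≤ (C * (2 * C) ^ (m + 3) * ‖p‖) * C := mul_le_mul_of_nonneg_left hWb (by positivity)
      _ = (C * C * (2 * C) ^ (m + 3)) * ‖p‖ := by ring
      _ ≤ (4 * C) ^ (m + 6) * ‖p‖ := by
          apply mul_le_mul_of_nonneg_right _ (norm_nonneg _)
          have f1 : (2 * C) ^ (m + 3) ≤ (4 * C) ^ (m + 3) :=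
            pow_le_pow_left₀ (by positivity) (by linarith) _
          have f2 : C * C ≤ (4 * C) ^ 3 := by nlinarith [mul_pos hC0 hC0, mul_pos (mul_pos hC0 hC0) hC0]
          calc C * C * (2 * C) ^ (m + 3) ≤ (4 * C) ^ 3 * (4 * C) ^ (m + 3) :=
                mul_le_mul f2 f1 (by positivity) (by positivity)
            _ = (4 * C) ^ (m + 6) := by ring
  have e3 : ‖(fderiv ℂ gk q - fderiv ℂ gk (φ p)) (W p)‖ ≤ (4 * C) ^ (m + 6) * σ := by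
    have f0 : q - φ p = s • W p := by rw [hq]; abel
    have f1 := h.sW hp hσ hs
    have f2 : ‖q‖ + ‖φ p‖ ≤ 4 * C * ‖p‖ := by
      have := h.φb p
      have : 0 ≤ C * ‖p‖ := by positivity
      linarith
    have f3 := norm_nonneg (W p)
    calc ‖(fderiv ℂ gk q - fderiv ℂ gk (φ p)) (W p)‖
        ≤ ‖fderiv ℂ gk q - fderiv ℂ gk (φ p)‖ * ‖W p‖ := ContinuousLinearMap.le_opNorm _ _
      _ ≤ (C * (‖q‖ + ‖φ p‖) ^ (m + 1) * ‖q - φ p‖) * ‖W p‖ :=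
          mul_le_mul_of_nonneg_right (h.gl _ _) (norm_nonneg _)
      _ ≤ (C * (4 * C * ‖p‖) ^ (m + 1) * (σ * C * ‖p‖)) * ‖W p‖ := by
          apply mul_le_mul_of_nonneg_right _ (norm_nonneg _)
          rw [f0]
          apply mul_le_mul _ f1 (norm_nonneg _) (by positivity)
          exact mul_le_mul_of_nonneg_left (pow_le_pow_left₀ (by positivity) f2 _) hC0.le
      _ = (C * (4 * C) ^ (m + 1) * C * σ) * (‖W p‖ * ‖p‖ ^ (m + 2)) := by ring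
      _ ≤ (C * (4 * C) ^ (m + 1) * C * σ) * C := mul_le_mul_of_nonneg_left hWb (by positivity)
      _ = (C ^ 3 * (4 * C) ^ (m + 1)) * σ := by ring
      _ ≤ (4 * C) ^ (m + 6) * σ := by
          apply mul_le_mul_of_nonneg_right _ hσ
          have f4 : C ^ 3 ≤ (4 * C) ^ 3 := pow_le_pow_left₀ hC0.le (by linarith) _
          have f5 : (4 * C) ^ (m + 1) ≤ (4 * C) ^ (m + 3) :=
            pow_le_pow_right₀ (by linarith) (by omega)
          calc C ^ 3 * (4 * C) ^ (m + 1) ≤ (4 * C) ^ 3 * (4 * C) ^ (m + 3) :=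
                mul_le_mul f4 f5 (by positivity) (by positivity)
            _ = (4 * C) ^ (m + 6) := by ring
  rw [e1]
  refine (norm_add_le _ _).trans ?_
  rw [mul_add]
  exact add_le_add e2 e3

theorem value0 (h : Z2K m f fk g gk φ W Ω C δ) {p : ℂ × ℂ} (hpδ : 2 * C * ‖p‖ < δ) :
    ‖g (φ p) - f p‖ ≤ (4 * C) ^ (m + 6) * ‖p‖ ^ (m + 4) := by
  have hC := h.hC
  have hC0 : 0 < C := by linarith
  have hn := norm_nonneg p
  have h1 : ‖φ p‖ < δ := by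
    have := h.φb p
    have : 0 ≤ C * ‖p‖ := by positivity
    linarith
  have h2 : ‖p‖ < δ := by nlinarith
  have h3 : g (φ p) - f p = (g (φ p) - gk (φ p)) - (f p - fk p) := by
    rw [h.eq p]
    ring
  rw [h3]
  calc ‖(g (φ p) - gk (φ p)) - (f p - fk p)‖ ≤ ‖g (φ p) - gk (φ p)‖ + ‖f p - fk p‖ := norm_sub_le _ _
    _ ≤ C * ‖φ p‖ ^ (m + 4) + C * ‖p‖ ^ (m + 4) := add_le_add (h.gb _ h1) (h.fb _ h2)
    _ ≤ C * (C * ‖p‖) ^ (m + 4) + C * ‖p‖ ^ (m + 4) := by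
        have := mul_le_mul_of_nonneg_left (pow_le_pow_left₀ (norm_nonneg _) (h.φb p) (m + 4)) hC0.le
        linarith
    _ = (C * C ^ (m + 4) + C) * ‖p‖ ^ (m + 4) := by ring
    _ ≤ (4 * C) ^ (m + 6) * ‖p‖ ^ (m + 4) := by
        apply mul_le_mul_of_nonneg_right _ (by positivity)
        have f1 : C ^ (m + 5) ≤ C ^ (m + 6) := pow_le_pow_right₀ hC (by omega)
        have f2 : C ≤ C ^ (m + 6) := by
          calc C = C ^ 1 := (pow_one C).symm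
            _ ≤ C ^ (m + 6) := pow_le_pow_right₀ hC (by omega)
        have f3 : 2 * C ^ (m + 6) ≤ (4 * C) ^ (m + 6) := by
          rw [mul_pow]
          apply mul_le_mul_of_nonneg_right _ (by positivity)
          calc (2 : ℝ) ≤ 4 ^ 1 := by norm_num
            _ ≤ 4 ^ (m + 6) := pow_le_pow_right₀ (by norm_num) (by omega)
        have f4 : C * C ^ (m + 4) = C ^ (m + 5) := by ring
        rw [f4]
        linarith

/-- the main abstract statement -/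
theorem solve (h : Z2K m f fk g gk φ W Ω C δ) :
    ∃ (hR : ℂ × ℂ → ℂ × ℂ), ∃ B > (0 : ℝ), ∃ ρ > (0 : ℝ), ∀ p ∈ Ω, ‖p‖ < ρ →
      f p = g (hR p) ∧ ‖hR p - φ p‖ ≤ B * ‖p‖ * ‖p‖ ∧ ContDiffAt ℝ 1 hR p ∧
      ∀ w : ℂ × ℂ, ‖fderiv ℝ hR p w - fderiv ℝ φ p w‖ ≤ B * ‖p‖ * ‖w‖ := by
  have hC := h.hC
  have hδ := h.hδ
  have hC0 : 0 < C := by linarith
  set b : ℝ := (4 * C) ^ (m + 6) with hb
  have hb1 : 1 ≤ b := one_le_pow₀ (by linarith)
  have hb0 : 0 < b := by linarith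
  set σ : ℝ := 1 / (4 * b) with hσ
  have hσ0 : 0 < σ := by positivity
  have hσb : b * σ = 1 / 4 := by rw [hσ]; field_simp
  have hσ1 : σ ≤ 1 := by nlinarith
  set ρ : ℝ := min (σ / (8 * b)) (min (δ / (2 * C)) (1 / (2 * C))) with hρ
  have hρ0 : 0 < ρ := lt_min (by positivity) (lt_min (by positivity) (by positivity))
  have hρ1 : ∀ n : ℝ, n < ρ → b * n < σ / 8 ∧ 2 * C * n < δ ∧ 2 * C * n < 1 := by
    intro n hn
    have a1 : n < σ / (8 * b) := hn.trans_le (min_le_left _ _)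
    have a2 : n < δ / (2 * C) := hn.trans_le ((min_le_right _ _).trans (min_le_left _ _))
    have a3 : n < 1 / (2 * C) := hn.trans_le ((min_le_right _ _).trans (min_le_right _ _))
    rw [lt_div_iff₀ (by positivity)] at a1 a2 a3
    exact ⟨by linarith, by linarith, by linarith⟩
  set U : Set (ℂ × ℂ) := Ω ∩ {p | ‖p‖ < ρ} with hU
  have hUo : IsOpen U := h.Ωo.inter (isOpen_lt continuous_norm continuous_const)
  -- facts at a point
  have hpt : ∀ p ∈ U, 0 < ‖p‖ ∧ b * ‖p‖ < σ / 8 ∧ 2 * C * ‖p‖ < δ ∧ 2 * C * ‖p‖ < 1 := by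
    intro p hp
    exact ⟨norm_pos_iff.2 (h.Ω0 p hp.1), hρ1 _ hp.2⟩
  -- the point q
  have hq : ∀ p ∈ U, ∀ s : ℂ, ‖s‖ ≤ σ * ‖p‖ ^ (m + 3) → ‖φ p + s • W p‖ < δ ∧
      ‖φ p + s • W p‖ ≤ 2 * C * ‖p‖ ∧ ‖fderiv ℂ g (φ p + s • W p) (W p) - 1‖ ≤ 1 / 2 := by
    intro p hp s hs
    obtain ⟨p1, p2, p3, p4⟩ := hpt p hp
    have a1 := h.q_bound hp.1 hσ0.le hσ1 hs
    have a2 := h.deriv1 hp.1 p3 hσ0.le hσ1 hs
    refine ⟨lt_of_le_of_lt a1 p3, a1, a2.trans ?_⟩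
    rw [← hb, mul_add]
    linarith
  -- the one variable equation
  have hsol : ∀ p, ∃ s : ℂ, p ∈ U → (‖s‖ ≤ 2 * b * ‖p‖ ^ (m + 4) ∧ g (φ p + s • W p) = f p ∧
      ∀ s' : ℂ, ‖s'‖ < σ * ‖p‖ ^ (m + 3) → g (φ p + s' • W p) = f p → s' = s) := by
    intro p
    by_cases hp : p ∈ U
    · obtain ⟨p1, p2, p3, p4⟩ := hpt p hp
      have hr : 0 < σ * ‖p‖ ^ (m + 3) := by positivity
      have hder : ∀ s : ℂ, ‖s‖ ≤ σ * ‖p‖ ^ (m + 3) →
          HasDerivAt (fun s => g (φ p + s • W p)) (fderiv ℂ g (φ p + s • W p) (W p)) s := by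
        intro s hs
        have b1 : HasDerivAt (fun s : ℂ => φ p + s • W p) (W p) s := by
          have := ((hasDerivAt_id s).smul_const (W p)).const_add (φ p)
          rw [one_smul] at this
          exact this
        exact (h.gan _ (hq p hp s hs).1).differentiableAt.hasFDerivAt.comp_hasDerivAt s b1
      have hv := h.value0 p3
      obtain ⟨s, c1, c2, c3⟩ := newton1 (fun s => g (φ p + s • W p)) 0 (σ * ‖p‖ ^ (m + 3)) 1 (f p) hr
        one_ne_zero (by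
          intro s hs
          rw [mem_ball, dist_zero_right] at hs
          refine ⟨(hder s hs.le).differentiableAt, ?_⟩
          rw [(hder s hs.le).deriv, norm_one]
          exact (hq p hp s hs.le).2.2) (by
          simp only [zero_smul, add_zero, norm_one, one_mul]
          refine hv.trans ?_
          rw [← hb]
          calc b * ‖p‖ ^ (m + 4) = (b * ‖p‖) * ‖p‖ ^ (m + 3) := by ring
            _ ≤ (σ / 8) * ‖p‖ ^ (m + 3) := mul_le_mul_of_nonneg_right p2.le (by positivity)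
            _ ≤ σ * ‖p‖ ^ (m + 3) / 4 := by linarith)
      refine ⟨s, fun _ => ⟨?_, c2, fun s' d1 d2 => c3 s' ?_ d2⟩⟩
      · simp only [zero_smul, add_zero, norm_one, div_one, sub_zero] at c1
        refine c1.trans ?_
        have := mul_le_mul_of_nonneg_left hv (by norm_num : (0:ℝ) ≤ 2)
        rw [← hb] at this
        linarith
      · rw [mem_ball, dist_zero_right]
        exact d1
    · exact ⟨0, fun hp' => absurd hp' hp⟩
  choose s hs using hsol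
  have hslt : ∀ p ∈ U, ‖s p‖ < σ * ‖p‖ ^ (m + 3) := by
    intro p hp
    obtain ⟨p1, p2, p3, p4⟩ := hpt p hp
    calc ‖s p‖ ≤ 2 * b * ‖p‖ ^ (m + 4) := (hs p hp).1
      _ = 2 * (b * ‖p‖) * ‖p‖ ^ (m + 3) := by ring
      _ < σ * ‖p‖ ^ (m + 3) := mul_lt_mul_of_pos_right (by linarith) (by positivity)
  -- smoothness of `s`
  have hgC : ∀ p ∈ U, ContDiffAt ℝ 1 g (φ p + s p • W p) := fun p hp =>
    ((h.gan _ (hq p hp (s p) (hslt p hp).le).1).contDiffAt (n := 1)).restrict_scalars ℝ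
  have hpδ : ∀ p ∈ U, ‖p‖ < δ := by
    intro p hp
    obtain ⟨p1, p2, p3, p4⟩ := hpt p hp
    nlinarith
  have hfC : ∀ p ∈ U, ContDiffAt ℝ 1 f p := fun p hp =>
    ((h.fan _ (hpδ p hp)).contDiffAt (n := 1)).restrict_scalars ℝ
  have hsC : ∀ p ∈ U, ContDiffAt ℝ 1 s p := by
    have hcn : Continuous (fun x : (ℂ × ℂ) × ℂ => σ * ‖x.1‖ ^ (m + 3)) :=
      continuous_const.mul ((continuous_norm.comp continuous_fst).pow _)
    refine solve_C1 U hUo {x : (ℂ × ℂ) × ℂ | x.1 ∈ U ∧ ‖x.2‖ < σ * ‖x.1‖ ^ (m + 3)}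
      ((hUo.preimage continuous_fst).inter (isOpen_lt (continuous_norm.comp continuous_snd) hcn))
      (fun x => g (φ x.1 + x.2 • W x.1) - f x.1) s ?_ ?_ ?_ ?_
    · intro p hp
      exact ⟨⟨hp, hslt p hp⟩, sub_eq_zero.2 (hs p hp).2.1⟩
    · intro p hp w hw hw'
      exact (hs p hp).2.2 w hw.2 (sub_eq_zero.1 hw')
    · intro p hp
      have d1 : ContDiffAt ℝ 1 (fun x : (ℂ × ℂ) × ℂ => φ x.1) (p, s p) :=
        ContDiffAt.comp (g := φ) (f := fun x : (ℂ × ℂ) × ℂ => x.1) (p, s p) (h.φs p (h.Ω0 p hp.1))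
          contDiffAt_fst
      have d2 : ContDiffAt ℝ 1 (fun x : (ℂ × ℂ) × ℂ => W x.1) (p, s p) :=
        ContDiffAt.comp (g := W) (f := fun x : (ℂ × ℂ) × ℂ => x.1) (p, s p) (h.Ws p hp.1)
          contDiffAt_fst
      have d3 : ContDiffAt ℝ 1 (fun x : (ℂ × ℂ) × ℂ => f x.1) (p, s p) :=
        ContDiffAt.comp (g := f) (f := fun x : (ℂ × ℂ) × ℂ => x.1) (p, s p) (hfC p hp)
          contDiffAt_fst
      have d4 : ContDiffAt ℝ 1 (fun x : (ℂ × ℂ) × ℂ => φ x.1 + x.2 • W x.1) (p, s p) :=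
        d1.add (contDiffAt_snd.smul d2)
      have d5 : ContDiffAt ℝ 1 (fun x : (ℂ × ℂ) × ℂ => g (φ x.1 + x.2 • W x.1)) (p, s p) :=
        ContDiffAt.comp (g := g) (f := fun x : (ℂ × ℂ) × ℂ => φ x.1 + x.2 • W x.1) (p, s p)
          (hgC p hp) d4
      exact d5.sub d3
    · intro p hp
      refine ⟨fderiv ℂ g (φ p + s p • W p) (W p), ?_, ?_⟩
      · have d1 := (hq p hp (s p) (hslt p hp).le).2.2
        intro d2
        rw [d2, zero_sub, norm_neg, norm_one] at d1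
        norm_num at d1
      · intro w
        have d1 : DifferentiableAt ℝ φ p := (h.φs p (h.Ω0 p hp.1)).differentiableAt (by norm_num)
        have d2 : DifferentiableAt ℝ W p := (h.Ws p hp.1).differentiableAt (by norm_num)
        have d3 : DifferentiableAt ℝ f p := (hfC p hp).differentiableAt (by norm_num)
        have f1 : HasFDerivAt (fun x : (ℂ × ℂ) × ℂ => φ x.1)
            ((fderiv ℝ φ p).comp (ContinuousLinearMap.fst ℝ (ℂ × ℂ) ℂ)) (p, s p) :=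
          HasFDerivAt.comp (g := φ) (f := fun x : (ℂ × ℂ) × ℂ => x.1) (p, s p) d1.hasFDerivAt
            hasFDerivAt_fst
        have f2 : HasFDerivAt (fun x : (ℂ × ℂ) × ℂ => W x.1)
            ((fderiv ℝ W p).comp (ContinuousLinearMap.fst ℝ (ℂ × ℂ) ℂ)) (p, s p) :=
          HasFDerivAt.comp (g := W) (f := fun x : (ℂ × ℂ) × ℂ => x.1) (p, s p) d2.hasFDerivAt
            hasFDerivAt_fst
        have f3 : HasFDerivAt (fun x : (ℂ × ℂ) × ℂ => f x.1)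
            ((fderiv ℝ f p).comp (ContinuousLinearMap.fst ℝ (ℂ × ℂ) ℂ)) (p, s p) :=
          HasFDerivAt.comp (g := f) (f := fun x : (ℂ × ℂ) × ℂ => x.1) (p, s p) d3.hasFDerivAt
            hasFDerivAt_fst
        have f4 : HasFDerivAt (fun x : (ℂ × ℂ) × ℂ => x.2) (ContinuousLinearMap.snd ℝ (ℂ × ℂ) ℂ)
            (p, s p) := hasFDerivAt_snd
        have f5 := f1.add (f4.smul f2)
        have f6 : HasFDerivAt g ((fderiv ℂ g (φ p + s p • W p)).restrictScalars ℝ)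
            (φ p + s p • W p) :=
          ((h.gan _ (hq p hp (s p) (hslt p hp).le).1).differentiableAt.hasFDerivAt).restrictScalars ℝ
        have f7 := HasFDerivAt.comp (g := g) (f := fun x : (ℂ × ℂ) × ℂ => φ x.1 + x.2 • W x.1) (p, s p) f6 f5
        have f8 := f7.sub f3
        have f9 : HasFDerivAt (fun x : (ℂ × ℂ) × ℂ => g (φ x.1 + x.2 • W x.1) - f x.1) _ (p, s p) := f8
        rw [f9.fderiv]
        simp [mul_comm]
  -- the derivative of `s`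
  set b' : ℝ := C + 2 * b * C ^ 3 * (4 * C) ^ (m + 1) + C ^ 2 * (2 * C) ^ (m + 3) +
    4 * b * C ^ 2 * (2 * C) ^ (m + 2) with hb'
  have hb'0 : 0 < b' := by positivity
  have hDs : ∀ p ∈ U, ∀ w : ℂ × ℂ, ‖fderiv ℝ s p w‖ ≤ 2 * b' * ‖p‖ ^ (m + 3) * ‖w‖ := by
    intro p hp w
    obtain ⟨p1, p2, p3, p4⟩ := hpt p hp
    obtain ⟨q1, q2, q3⟩ := hq p hp (s p) (hslt p hp).le
    have hs1 := (hs p hp).1
    set q : ℂ × ℂ := φ p + s p • W p with hqd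
    have d1 : DifferentiableAt ℝ φ p := (h.φs p (h.Ω0 p hp.1)).differentiableAt (by norm_num)
    have d2 : DifferentiableAt ℝ W p := (h.Ws p hp.1).differentiableAt (by norm_num)
    have d3 : DifferentiableAt ℝ s p := (hsC p hp).differentiableAt (by norm_num)
    have f5 := d1.hasFDerivAt.add (d3.hasFDerivAt.smul d2.hasFDerivAt)
    have f6 : HasFDerivAt g ((fderiv ℂ g q).restrictScalars ℝ) q :=
      ((h.gan _ q1).differentiableAt.hasFDerivAt).restrictScalars ℝ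
    have f7 := HasFDerivAt.comp (g := g) (f := fun x : ℂ × ℂ => φ x + s x • W x) p f6 f5
    have f8 : HasFDerivAt f ((fderiv ℂ f p).restrictScalars ℝ) p :=
      ((h.fan _ (hpδ p hp)).differentiableAt.hasFDerivAt).restrictScalars ℝ
    have f9 : (g ∘ fun x : ℂ × ℂ => φ x + s x • W x) =ᶠ[𝓝 p] f := by
      filter_upwards [hUo.mem_nhds hp] with x hx
      exact (hs x hx).2.1
    have f10 := (f8.congr_of_eventuallyEq f9).unique f7
    have f11 := DFunLike.congr_fun f10 w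
    have f12 : fderiv ℂ f p w = fderiv ℂ g q (fderiv ℝ φ p w + ((s p) • fderiv ℝ W p w +
        (fderiv ℝ s p w) • W p)) := f11
    -- the forms
    have g1 : HasFDerivAt gk ((fderiv ℂ gk (φ p)).restrictScalars ℝ) (φ p) :=
      ((h.gkd _).hasFDerivAt).restrictScalars ℝ
    have g2 := HasFDerivAt.comp (g := gk) (f := φ) p g1 d1.hasFDerivAt
    have g3 : HasFDerivAt fk ((fderiv ℂ fk p).restrictScalars ℝ) p :=
      ((h.fkd _).hasFDerivAt).restrictScalars ℝ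
    have g4 : (gk ∘ φ) = fk := by
      funext x
      exact (h.eq x).symm
    rw [g4] at g2
    have g5 := DFunLike.congr_fun (g3.unique g2) w
    have g6 : fderiv ℂ fk p w = fderiv ℂ gk (φ p) (fderiv ℝ φ p w) := g5
    have key : fderiv ℝ s p w * fderiv ℂ g q (W p) =
        (fderiv ℂ f p - fderiv ℂ fk p) w +
        (fderiv ℂ gk (φ p) - fderiv ℂ gk q) (fderiv ℝ φ p w) +
        -((fderiv ℂ g q - fderiv ℂ gk q) (fderiv ℝ φ p w)) -
        s p * fderiv ℂ g q (fderiv ℝ W p w) := by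
      simp only [_root_.sub_apply]
      rw [f12, g6]
      rw [map_add, map_add, map_smul, map_smul, smul_eq_mul, smul_eq_mul]
      ring
    have hφd := h.φd p (h.Ω0 p hp.1)
    have hφw : ‖fderiv ℝ φ p w‖ ≤ C * ‖w‖ :=
      (ContinuousLinearMap.le_opNorm _ _).trans (mul_le_mul_of_nonneg_right hφd (norm_nonneg _))
    have hWw : ‖fderiv ℝ W p w‖ ≤ ‖fderiv ℝ W p‖ * ‖w‖ := ContinuousLinearMap.le_opNorm _ _
    have hWd := h.Wd p hp.1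
    have hw0 := norm_nonneg w
    have t1 : ‖(fderiv ℂ f p - fderiv ℂ fk p) w‖ ≤ C * ‖p‖ ^ (m + 3) * ‖w‖ :=
      (ContinuousLinearMap.le_opNorm _ _).trans
        (mul_le_mul_of_nonneg_right (h.fdb p (hpδ p hp)) hw0)
    have hsW : ‖s p • W p‖ ≤ (2 * b * ‖p‖) * C * ‖p‖ := by
      apply h.sW hp.1 (by positivity)
      calc ‖s p‖ ≤ 2 * b * ‖p‖ ^ (m + 4) := hs1
        _ = 2 * b * ‖p‖ * ‖p‖ ^ (m + 3) := by ring
    have t2 : ‖(fderiv ℂ gk (φ p) - fderiv ℂ gk q) (fderiv ℝ φ p w)‖ ≤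
        2 * b * C ^ 3 * (4 * C) ^ (m + 1) * ‖p‖ ^ (m + 3) * ‖w‖ := by
      have u0 : φ p - q = -(s p • W p) := by rw [hqd]; abel
      have u2 : ‖φ p‖ + ‖q‖ ≤ 4 * C * ‖p‖ := by
        have := h.φb p
        have : 0 ≤ C * ‖p‖ := by positivity
        linarith
      calc ‖(fderiv ℂ gk (φ p) - fderiv ℂ gk q) (fderiv ℝ φ p w)‖
          ≤ ‖fderiv ℂ gk (φ p) - fderiv ℂ gk q‖ * ‖fderiv ℝ φ p w‖ :=
            ContinuousLinearMap.le_opNorm _ _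
        _ ≤ (C * (‖φ p‖ + ‖q‖) ^ (m + 1) * ‖φ p - q‖) * (C * ‖w‖) :=
            mul_le_mul (h.gl _ _) hφw (norm_nonneg _) (by positivity)
        _ ≤ (C * (4 * C * ‖p‖) ^ (m + 1) * ((2 * b * ‖p‖) * C * ‖p‖)) * (C * ‖w‖) := by
            apply mul_le_mul_of_nonneg_right _ (by positivity)
            rw [u0, norm_neg]
            apply mul_le_mul _ hsW (norm_nonneg _) (by positivity)
            exact mul_le_mul_of_nonneg_left (pow_le_pow_left₀ (by positivity) u2 _) hC0.le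
        _ = _ := by ring
    have t3 : ‖-((fderiv ℂ g q - fderiv ℂ gk q) (fderiv ℝ φ p w))‖ ≤
        C ^ 2 * (2 * C) ^ (m + 3) * ‖p‖ ^ (m + 3) * ‖w‖ := by
      rw [norm_neg]
      calc ‖(fderiv ℂ g q - fderiv ℂ gk q) (fderiv ℝ φ p w)‖
          ≤ ‖fderiv ℂ g q - fderiv ℂ gk q‖ * ‖fderiv ℝ φ p w‖ := ContinuousLinearMap.le_opNorm _ _
        _ ≤ (C * ‖q‖ ^ (m + 3)) * (C * ‖w‖) :=
            mul_le_mul (h.gdb q q1) hφw (norm_nonneg _) (by positivity)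
        _ ≤ (C * (2 * C * ‖p‖) ^ (m + 3)) * (C * ‖w‖) := by
            apply mul_le_mul_of_nonneg_right _ (by positivity)
            exact mul_le_mul_of_nonneg_left (pow_le_pow_left₀ (norm_nonneg _) q2 _) hC0.le
        _ = _ := by ring
    have t4 : ‖s p * fderiv ℂ g q (fderiv ℝ W p w)‖ ≤
        4 * b * C ^ 2 * (2 * C) ^ (m + 2) * ‖p‖ ^ (m + 3) * ‖w‖ := by
      have u1 : ‖fderiv ℂ g q‖ ≤ 2 * C * (2 * C * ‖p‖) ^ (m + 2) := by
        have v1 : fderiv ℂ g q = fderiv ℂ gk q + (fderiv ℂ g q - fderiv ℂ gk q) := by abel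
        have v2 : ‖q‖ ^ (m + 3) ≤ ‖q‖ ^ (m + 2) := by
          apply pow_le_pow_of_le_one (norm_nonneg _) (by linarith) (by omega)
        calc ‖fderiv ℂ g q‖ ≤ ‖fderiv ℂ gk q‖ + ‖fderiv ℂ g q - fderiv ℂ gk q‖ := by
              conv_lhs => rw [v1]
              exact norm_add_le _ _
          _ ≤ C * ‖q‖ ^ (m + 2) + C * ‖q‖ ^ (m + 3) := add_le_add (h.g3 q) (h.gdb q q1)
          _ ≤ C * ‖q‖ ^ (m + 2) + C * ‖q‖ ^ (m + 2) := by
              have := mul_le_mul_of_nonneg_left v2 hC0.le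
              linarith
          _ = 2 * C * ‖q‖ ^ (m + 2) := by ring
          _ ≤ 2 * C * (2 * C * ‖p‖) ^ (m + 2) :=
              mul_le_mul_of_nonneg_left (pow_le_pow_left₀ (norm_nonneg _) q2 _) (by positivity)
      rw [norm_mul]
      calc ‖s p‖ * ‖fderiv ℂ g q (fderiv ℝ W p w)‖
          ≤ (2 * b * ‖p‖ ^ (m + 4)) * ((2 * C * (2 * C * ‖p‖) ^ (m + 2)) *
              (‖fderiv ℝ W p‖ * ‖w‖)) := by
            apply mul_le_mul hs1 _ (norm_nonneg _) (by positivity)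
            exact (ContinuousLinearMap.le_opNorm _ _).trans
              (mul_le_mul u1 hWw (norm_nonneg _) (by positivity))
        _ = (2 * b * (2 * C * (2 * C) ^ (m + 2)) * ‖p‖ ^ (m + 3) * ‖w‖) *
              (‖fderiv ℝ W p‖ * ‖p‖ ^ (m + 3)) := by ring
        _ ≤ (2 * b * (2 * C * (2 * C) ^ (m + 2)) * ‖p‖ ^ (m + 3) * ‖w‖) * C :=
            mul_le_mul_of_nonneg_left hWd (by positivity)
        _ = _ := by ring
    have t5 : ‖fderiv ℝ s p w * fderiv ℂ g q (W p)‖ ≤ b' * ‖p‖ ^ (m + 3) * ‖w‖ := by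
      rw [key]
      refine (norm_sub_le _ _).trans ?_
      have r1 := norm_add_le ((fderiv ℂ f p - fderiv ℂ fk p) w +
        (fderiv ℂ gk (φ p) - fderiv ℂ gk q) (fderiv ℝ φ p w))
        (-((fderiv ℂ g q - fderiv ℂ gk q) (fderiv ℝ φ p w)))
      have r2 := norm_add_le ((fderiv ℂ f p - fderiv ℂ fk p) w)
        ((fderiv ℂ gk (φ p) - fderiv ℂ gk q) (fderiv ℝ φ p w))
      have r3 : b' * ‖p‖ ^ (m + 3) * ‖w‖ = C * ‖p‖ ^ (m + 3) * ‖w‖ +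
          2 * b * C ^ 3 * (4 * C) ^ (m + 1) * ‖p‖ ^ (m + 3) * ‖w‖ +
          C ^ 2 * (2 * C) ^ (m + 3) * ‖p‖ ^ (m + 3) * ‖w‖ +
          4 * b * C ^ 2 * (2 * C) ^ (m + 2) * ‖p‖ ^ (m + 3) * ‖w‖ := by rw [hb']; ring
      linarith
    have t6 : 1 / 2 ≤ ‖fderiv ℂ g q (W p)‖ := by
      have r1 : (1 : ℂ) = fderiv ℂ g q (W p) - (fderiv ℂ g q (W p) - 1) := by ring
      have r2 : (1 : ℝ) ≤ ‖fderiv ℂ g q (W p)‖ + ‖fderiv ℂ g q (W p) - 1‖ := by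
        calc (1 : ℝ) = ‖(1 : ℂ)‖ := by simp
          _ = ‖fderiv ℂ g q (W p) - (fderiv ℂ g q (W p) - 1)‖ := by rw [← r1]
          _ ≤ _ := norm_sub_le _ _
      linarith
    rw [norm_mul] at t5
    have t7 := mul_le_mul_of_nonneg_left t6 (norm_nonneg (fderiv ℝ s p w))
    linarith
  -- the solution
  refine ⟨fun p => φ p + s p • W p, 2 * b' * C + 2 * b * C, by positivity, ρ, hρ0, ?_⟩
  intro p hpΩ hpρ
  have hp : p ∈ U := ⟨hpΩ, hpρ⟩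
  obtain ⟨p1, p2, p3, p4⟩ := hpt p hp
  have hsW : ‖s p • W p‖ ≤ (2 * b * ‖p‖) * C * ‖p‖ := by
    apply h.sW hp.1 (by positivity)
    calc ‖s p‖ ≤ 2 * b * ‖p‖ ^ (m + 4) := (hs p hp).1
      _ = 2 * b * ‖p‖ * ‖p‖ ^ (m + 3) := by ring
  refine ⟨(hs p hp).2.1.symm, ?_, (h.φs p (h.Ω0 p hp.1)).add ((hsC p hp).smul (h.Ws p hp.1)), ?_⟩
  · have e1 : φ p + s p • W p - φ p = s p • W p := by abel
    rw [e1]
    refine hsW.trans ?_
    have : 0 ≤ 2 * b' * C * ‖p‖ * ‖p‖ := by positivity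
    linarith
  · intro w
    have d1 : DifferentiableAt ℝ φ p := (h.φs p (h.Ω0 p hp.1)).differentiableAt (by norm_num)
    have d2 : DifferentiableAt ℝ W p := (h.Ws p hp.1).differentiableAt (by norm_num)
    have d3 : DifferentiableAt ℝ s p := (hsC p hp).differentiableAt (by norm_num)
    have f5 := d1.hasFDerivAt.add (d3.hasFDerivAt.smul d2.hasFDerivAt)
    have f6 : HasFDerivAt (fun p => φ p + s p • W p) _ p := f5
    have f7 : fderiv ℝ (fun p => φ p + s p • W p) p w - fderiv ℝ φ p w =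
        s p • fderiv ℝ W p w + (fderiv ℝ s p w) • W p := by
      rw [f6.fderiv]
      simp
    rw [f7]
    have hw0 := norm_nonneg w
    have hWd := h.Wd p hp.1
    have hWb := h.Wb p hp.1
    have e1 : ‖s p • fderiv ℝ W p w‖ ≤ 2 * b * C * ‖p‖ * ‖w‖ := by
      rw [norm_smul]
      calc ‖s p‖ * ‖fderiv ℝ W p w‖ ≤ (2 * b * ‖p‖ ^ (m + 4)) * (‖fderiv ℝ W p‖ * ‖w‖) :=
            mul_le_mul (hs p hp).1 (ContinuousLinearMap.le_opNorm _ _) (norm_nonneg _)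
              (by positivity)
        _ = (2 * b * ‖p‖ * ‖w‖) * (‖fderiv ℝ W p‖ * ‖p‖ ^ (m + 3)) := by ring
        _ ≤ (2 * b * ‖p‖ * ‖w‖) * C := mul_le_mul_of_nonneg_left hWd (by positivity)
        _ = _ := by ring
    have e2 : ‖(fderiv ℝ s p w) • W p‖ ≤ 2 * b' * C * ‖p‖ * ‖w‖ := by
      rw [norm_smul]
      calc ‖fderiv ℝ s p w‖ * ‖W p‖ ≤ (2 * b' * ‖p‖ ^ (m + 3) * ‖w‖) * ‖W p‖ :=
            mul_le_mul_of_nonneg_right (hDs p hp w) (norm_nonneg _)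
        _ = (2 * b' * ‖p‖ * ‖w‖) * (‖W p‖ * ‖p‖ ^ (m + 2)) := by ring
        _ ≤ (2 * b' * ‖p‖ * ‖w‖) * C := mul_le_mul_of_nonneg_left hWb (by positivity)
        _ = _ := by ring
    refine (norm_add_le _ _).trans ?_
    have e3 : (2 * b' * C + 2 * b * C) * ‖p‖ * ‖w‖ = 2 * b * C * ‖p‖ * ‖w‖ +
        2 * b' * C * ‖p‖ * ‖w‖ := by ring
    rw [e3]
    exact add_le_add e1 e2

end Z2K

theorem zoneR {r : ℕ} {κ : Fin r → ℕ} {c c' : ℂ} {X X' β ω : Fin r → ℂ}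
    {f g : ℂ × ℂ → ℂ} (hf : NForm κ c X f) (hg : NForm κ c' X' g) (hk : 3 ≤ ∑ j, κ j)
    {φ ψ : ℂ × ℂ → ℂ × ℂ} (hM : IsMor κ c c' X X' β ω φ ψ) (a' : ℝ) (ha' : 0 < a') :
    ∃ hR : ℂ × ℂ → ℂ × ℂ, ZR κ X f g φ a' hR := by
  obtain ⟨m, hm⟩ : ∃ m, ∑ j, κ j = m + 3 := ⟨∑ j, κ j - 3, by omega⟩
  obtain ⟨Cf, hCf, δf, hδf, hfb⟩ := hf.bd
  obtain ⟨Cf', hCf', δf', hδf', hfd⟩ := hf.fd
  obtain ⟨Cg, hCg, δg, hδg, hgb⟩ := hg.bd
  obtain ⟨Cg', hCg', δg', hδg', hgd⟩ := hg.fd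
  obtain ⟨C2, hC2, hgl⟩ := Z2_lip κ hg.hr hg.hκ c' X' m hm
  obtain ⟨C3, hC3, hg3⟩ := form_bound κ hg.hr hg.hκ c' X'
  obtain ⟨K, hK, hlip⟩ := lip_of_hom φ hM.hom hM.smooth
  obtain ⟨CW, hCW, hW⟩ := Wf_bound hg.hr hg.hκ hg.hc hg.hX hM a' ha'
  obtain ⟨δ1, hδ1, hfan⟩ := Metric.eventually_nhds_iff.1 hf.an.eventually_analyticAt
  obtain ⟨δ2, hδ2, hgan⟩ := Metric.eventually_nhds_iff.1 hg.an.eventually_analyticAt
  rw [hm] at hfb hfd hgb hgd hg3 hW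
  set C : ℝ := 1 + Cf + Cf' + Cg + Cg' + C2 + C3 + K + CW with hC
  set δ : ℝ := min δf (min δf' (min δg (min δg' (min δ1 δ2)))) with hδ
  have hδ0 : 0 < δ := by
    simp only [hδ, lt_min_iff]
    exact ⟨hδf, hδf', hδg, hδg', hδ1, hδ2⟩
  have hδl : ∀ n : ℝ, n < δ → n < δf ∧ n < δf' ∧ n < δg ∧ n < δg' ∧ n < δ1 ∧ n < δ2 := by
    intro n hn
    simp only [hδ, lt_min_iff] at hn
    exact hn
  set Ω : Set (ℂ × ℂ) := {p | p ≠ 0 ∧ ∀ j, 2 ≤ κ j → a' * ‖p.2‖ < ‖p.1 - X j * p.2‖} with hΩ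
  have hΩo : IsOpen Ω := by
    have h1 : Ω = {p : ℂ × ℂ | p ≠ 0} ∩
        ⋂ j : Fin r, {p : ℂ × ℂ | 2 ≤ κ j → a' * ‖p.2‖ < ‖p.1 - X j * p.2‖} := by
      ext p
      simp [hΩ, Set.mem_iInter]
    rw [h1]
    refine isOpen_ne.inter (isOpen_iInter_of_finite fun j => ?_)
    by_cases hj : 2 ≤ κ j
    · have h2 : {p : ℂ × ℂ | 2 ≤ κ j → a' * ‖p.2‖ < ‖p.1 - X j * p.2‖} =
          {p : ℂ × ℂ | a' * ‖p.2‖ < ‖p.1 - X j * p.2‖} := by
        ext p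
        simp [hj]
      rw [h2]
      exact isOpen_lt (continuous_const.mul continuous_snd.norm)
        (continuous_fst.sub (continuous_const.mul continuous_snd)).norm
    · have h2 : {p : ℂ × ℂ | 2 ≤ κ j → a' * ‖p.2‖ < ‖p.1 - X j * p.2‖} = Set.univ := by
        ext p
        simp [hj]
      rw [h2]
      exact isOpen_univ
  have hφ0 : φ 0 = 0 := by
    have := hM.hom 0 0
    simpa using this
  have hle : ∀ (x y n : ℝ), 0 ≤ n → x ≤ y → x * n ≤ y * n := fun x y n h0 h1 =>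
    mul_le_mul_of_nonneg_right h1 h0
  have hWp : ∀ p ∈ Ω, _ := fun p hp => hW p (norm_pos_iff.2 hp.1) fun j hj => (hp.2 j hj).le
  have hKk : Z2K m f (form κ c X) g (form κ c' X') φ (Wf κ c' X' φ) Ω C δ := by
    refine ⟨by linarith, hδ0, ?_, ?_, fun p => (Z2_form_an κ c X p).differentiableAt,
      fun p => (Z2_form_an κ c' X' p).differentiableAt, ?_, ?_, ?_, ?_, ?_, ?_, hM.eqf, ?_,
      hM.smooth, ?_, hΩo, fun p hp => hp.1, fun p hp => (hWp p hp).1, fun p hp => (hWp p hp).2.1,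
      ?_, ?_⟩
    · intro p hp
      exact hfan (by rw [dist_zero_right]; exact (hδl _ hp).2.2.2.2.1)
    · intro p hp
      exact hgan (by rw [dist_zero_right]; exact (hδl _ hp).2.2.2.2.2)
    · intro p hp
      exact (hfb p (hδl _ hp).1).trans (hle _ _ _ (by positivity) (by linarith))
    · intro p hp
      exact (hfd p (hδl _ hp).2.1).trans (hle _ _ _ (by positivity) (by linarith))
    · intro p hp
      exact (hgb p (hδl _ hp).2.2.1).trans (hle _ _ _ (by positivity) (by linarith))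
    · intro p hp
      exact (hgd p (hδl _ hp).2.2.2.1).trans (hle _ _ _ (by positivity) (by linarith))
    · intro q q'
      refine (hgl q q').trans ?_
      rw [mul_assoc, mul_assoc]
      exact hle _ _ _ (by positivity) (by linarith)
    · intro q
      exact (hg3 q).2.trans (hle _ _ _ (by positivity) (by linarith))
    · intro p
      have := hlip p 0
      rw [hφ0, sub_zero, sub_zero] at this
      exact this.trans (hle _ _ _ (by positivity) (by linarith))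
    · intro p hp
      have h1 : ‖fderiv ℝ φ p‖ ≤ K := by
        apply norm_fderiv_le_of_lip' (𝕜 := ℝ) hK.le
        filter_upwards with q
        exact hlip q p
      linarith
    · intro p hp
      have := (hWp p hp).2.2.1
      have e : m + 3 - 1 = m + 2 := by omega
      rw [e] at this
      linarith
    · intro p hp
      have := (hWp p hp).2.2.2
      linarith
  obtain ⟨hR, B, hB, ρ, hρ, hsol⟩ := hKk.solve
  refine ⟨hR, fun ε hε => ⟨min ρ (ε / B), lt_min hρ (by positivity), ?_⟩⟩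
  intro p hp hpρ hcone
  have hpΩ : p ∈ Ω := ⟨norm_pos_iff.1 hp, hcone⟩
  obtain ⟨h1, h2, h3, h4⟩ := hsol p hpΩ (hpρ.trans_le (min_le_left _ _))
  have h5 : B * ‖p‖ ≤ ε := by
    have := hpρ.trans_le (min_le_right _ _)
    rw [lt_div_iff₀ hB] at this
    linarith
  exact ⟨h1, h2.trans (mul_le_mul_of_nonneg_right h5 hp.le), h3, fun w =>
    (h4 w).trans (mul_le_mul_of_nonneg_right h5 (norm_nonneg _))⟩

end H24.LS
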