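import Pool.Agent.H24.LS.Z0

/-!
# Z3: the map `φ` in the chart of a line

By `near`, `hat (X j) (X' j) (β j * ω j) (ω j) φ (x,y) = (ũ x, ũ y)`, `ũ = u(X_j + x/y)/ω_j`, for `0 < ‖y‖`, `‖x‖ < δ‖y‖`
(an open set, so derivatives can be computed from this formula), `ũ = 1` at `x = 0`, `u` holomorphic on the ball:
on a smaller ball `‖ũ - 1‖ ≤ C ‖x/y‖`, `‖u'‖ ≤ C`.
`D(ũ x)(v,w) - v = (ũ - 1) v + ũ' (x/y) v - ũ' (x/y)^2 w`, `D(ũ y)(v,w) - w = (ũ - 1) w + ũ' v - ũ' (x/y) w`.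
-/

open Filter Topology Metric Asymptotics

namespace H24.LS

/-- the source chart as a real linear map -/
noncomputable def Z3_A (Xj : ℂ) : ℂ × ℂ →L[ℝ] ℂ × ℂ :=
  ((ContinuousLinearMap.fst ℂ ℂ ℂ + Xj • ContinuousLinearMap.snd ℂ ℂ ℂ).prod
    (ContinuousLinearMap.snd ℂ ℂ ℂ)).restrictScalars ℝ

/-- the target chart as a real linear map -/
noncomputable def Z3_B (Xj' α ω : ℂ) : ℂ × ℂ →L[ℝ] ℂ × ℂ :=
  ((α⁻¹ • (ContinuousLinearMap.fst ℂ ℂ ℂ - Xj' • ContinuousLinearMap.snd ℂ ℂ ℂ)).prod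
    (ω⁻¹ • ContinuousLinearMap.snd ℂ ℂ ℂ)).restrictScalars ℝ

theorem Z3_A_apply (Xj : ℂ) (p : ℂ × ℂ) : Z3_A Xj p = uch Xj p := by
  simp [Z3_A, uch]

theorem Z3_B_apply (Xj' α ω : ℂ) (p : ℂ × ℂ) :
    Z3_B Xj' α ω p = ((p.1 - Xj' * p.2) / α, p.2 / ω) := by
  simp [Z3_B, div_eq_inv_mul]

theorem Z3_hat (Xj Xj' α ω : ℂ) (H : ℂ × ℂ → ℂ × ℂ) :
    hat Xj Xj' α ω H = fun p => Z3_B Xj' α ω (H (Z3_A Xj p)) := by
  funext p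
  rw [Z3_A_apply, Z3_B_apply]
  rfl

theorem Z3_cd (Xj Xj' α ω : ℂ) {H : ℂ × ℂ → ℂ × ℂ} {p : ℂ × ℂ}
    (h : ContDiffAt ℝ 1 H (uch Xj p)) : ContDiffAt ℝ 1 (hat Xj Xj' α ω H) p := by
  rw [Z3_hat]
  rw [← Z3_A_apply] at h
  exact (Z3_B Xj' α ω).contDiff.contDiffAt.comp p (h.comp p (Z3_A Xj).contDiff.contDiffAt)

theorem Z3_fd (Xj Xj' α ω : ℂ) {H : ℂ × ℂ → ℂ × ℂ} {p : ℂ × ℂ}
    (h : DifferentiableAt ℝ H (uch Xj p)) (w : ℂ × ℂ) :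
    fderiv ℝ (hat Xj Xj' α ω H) p w
      = Z3_B Xj' α ω (fderiv ℝ H (uch Xj p) (Z3_A Xj w)) := by
  rw [Z3_hat]
  have h' : HasFDerivAt H (fderiv ℝ H (uch Xj p)) (Z3_A Xj p) := by
    rw [Z3_A_apply]; exact h.hasFDerivAt
  have h1 := (Z3_B Xj' α ω).hasFDerivAt.comp p (h'.comp p (Z3_A Xj).hasFDerivAt)
  have h2 : HasFDerivAt (fun p => Z3_B Xj' α ω (H (Z3_A Xj p)))
      ((Z3_B Xj' α ω).comp ((fderiv ℝ H (uch Xj p)).comp (Z3_A Xj))) p := h1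
  rw [h2.fderiv]
  rfl

/-- a holomorphic function near its value at the centre -/
theorem Z3_holo {U : ℂ → ℂ} {δ₀ : ℝ} (hδ₀ : 0 < δ₀) (hU : DifferentiableOn ℂ U (ball 0 δ₀))
    (h0 : U 0 = 1) : ∃ C : ℝ, 0 ≤ C ∧ ∃ δ > (0 : ℝ), δ ≤ 1 ∧ δ ≤ δ₀ ∧ ∀ s : ℂ, ‖s‖ < δ →
      HasDerivAt U (deriv U s) s ∧ ‖U s - 1‖ ≤ C * ‖s‖ ∧ ‖deriv U s‖ ≤ C := by
  have hc : ContinuousAt (deriv U) 0 := by
    have h1 : DifferentiableOn ℂ (deriv U) (ball 0 δ₀) := hU.deriv isOpen_ball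
    exact (h1.differentiableAt (isOpen_ball.mem_nhds (mem_ball_self hδ₀))).continuousAt
  have hev : ∀ᶠ s in 𝓝 (0:ℂ), ‖deriv U s‖ < ‖deriv U 0‖ + 1 :=
    hc.norm.eventually (gt_mem_nhds (lt_add_one _))
  obtain ⟨δ₁, hδ₁, hb⟩ := Metric.eventually_nhds_iff_ball.1 hev
  set δ : ℝ := min (min δ₁ δ₀) 1 with hδ
  have hδpos : 0 < δ := lt_min (lt_min hδ₁ hδ₀) one_pos
  have e1 : δ ≤ δ₁ := (min_le_left _ _).trans (min_le_left _ _)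
  have e2 : δ ≤ δ₀ := (min_le_left _ _).trans (min_le_right _ _)
  have e3 : δ ≤ 1 := min_le_right _ _
  have hd : ∀ s ∈ ball (0:ℂ) δ, HasDerivAt U (deriv U s) s := fun s hs =>
    (hU.differentiableAt (isOpen_ball.mem_nhds (ball_subset_ball e2 hs))).hasDerivAt
  have hbd : ∀ s ∈ ball (0:ℂ) δ, ‖deriv U s‖ ≤ ‖deriv U 0‖ + 1 := fun s hs =>
    (hb s (ball_subset_ball e1 hs)).le
  refine ⟨‖deriv U 0‖ + 1, by positivity, δ, hδpos, e3, e2, fun s hs => ?_⟩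
  have hsb : s ∈ ball (0:ℂ) δ := by rw [mem_ball_zero_iff]; exact hs
  refine ⟨hd s hsb, ?_, hbd s hsb⟩
  have h2 := (convex_ball (0:ℂ) δ).norm_image_sub_le_of_norm_hasDerivWithin_le
    (fun x hx => (hd x hx).hasDerivWithinAt) hbd (mem_ball_self hδpos) hsb
  rw [h0, sub_zero] at h2
  exact h2

/-- the model map `(x, y) ↦ (U (x / y) x, U (x / y) y)` -/
theorem Z3_model {U : ℂ → ℂ} {x y : ℂ} (hy : y ≠ 0) {U' : ℂ} (hU : HasDerivAt U U' (x / y)) :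
    ∃ L : ℂ × ℂ →L[ℝ] ℂ × ℂ, HasFDerivAt (𝕜 := ℝ)
      (fun p : ℂ × ℂ => (U (p.1 / p.2) * p.1, U (p.1 / p.2) * p.2)) L (x, y) ∧
      ∀ v w : ℂ, (L (v, w)).1 = U (x / y) * v + U' * (x / y) * v - U' * (x / y) ^ 2 * w ∧
        (L (v, w)).2 = U (x / y) * w + U' * v - U' * (x / y) * w := by
  have h1 : HasFDerivAt (𝕜 := ℂ) (fun p : ℂ × ℂ => p.1) (ContinuousLinearMap.fst ℂ ℂ ℂ) (x, y) :=
    hasFDerivAt_fst
  have h2 : HasFDerivAt (𝕜 := ℂ) (fun p : ℂ × ℂ => p.2) (ContinuousLinearMap.snd ℂ ℂ ℂ) (x, y) :=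
    hasFDerivAt_snd
  have hi : HasDerivAt (fun z : ℂ => z⁻¹) (-(y ^ 2)⁻¹) y := hasDerivAt_inv hy
  have h3 : HasFDerivAt (𝕜 := ℂ) (fun p : ℂ × ℂ => p.2⁻¹)
      ((-(y ^ 2)⁻¹) • ContinuousLinearMap.snd ℂ ℂ ℂ) (x, y) :=
    HasDerivAt.comp_hasFDerivAt (x, y) (h₂ := fun z : ℂ => z⁻¹) hi h2
  have h4 : HasFDerivAt (𝕜 := ℂ) (fun p : ℂ × ℂ => p.1 / p.2)
      (x • ((-(y ^ 2)⁻¹) • ContinuousLinearMap.snd ℂ ℂ ℂ) + y⁻¹ • ContinuousLinearMap.fst ℂ ℂ ℂ)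
      (x, y) := by
    have h34 := h1.mul h3
    have h35 : ((fun p : ℂ × ℂ => p.1) * fun p : ℂ × ℂ => p.2⁻¹) = fun p : ℂ × ℂ => p.1 / p.2 := by
      funext p
      simp [div_eq_mul_inv]
    rw [h35] at h34
    exact h34
  have h5 : HasFDerivAt (𝕜 := ℂ) (fun p : ℂ × ℂ => U (p.1 / p.2))
      (U' • (x • ((-(y ^ 2)⁻¹) • ContinuousLinearMap.snd ℂ ℂ ℂ)
        + y⁻¹ • ContinuousLinearMap.fst ℂ ℂ ℂ)) (x, y) :=
    HasDerivAt.comp_hasFDerivAt (x, y) (h₂ := U) hU h4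
  have h6 := (h5.mul h1).prodMk (h5.mul h2)
  refine ⟨_, h6.restrictScalars ℝ, fun v w => ?_⟩
  constructor
  · simp
    field_simp
    ring
  · simp
    field_simp
    ring

theorem phi_chart {r : ℕ} {κ : Fin r → ℕ} {c c' : ℂ} {X X' β ω : Fin r → ℂ}
    {φ ψ : ℂ × ℂ → ℂ × ℂ} (hM : IsMor κ c c' X X' β ω φ ψ) (j : Fin r) :
    ∃ C : ℝ, 1 ≤ C ∧ ∃ δ > (0 : ℝ), ∀ p : ℂ × ℂ, 0 < ‖p.2‖ → ‖p.1‖ < δ * ‖p.2‖ →
      ‖(hat (X j) (X' j) (β j * ω j) (ω j) φ p).1 - p.1‖ * ‖p.2‖ ≤ C * ‖p.1‖ ^ 2 ∧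
      ‖(hat (X j) (X' j) (β j * ω j) (ω j) φ p).2 - p.2‖ ≤ C * ‖p.1‖ ∧
      ContDiffAt ℝ 1 (hat (X j) (X' j) (β j * ω j) (ω j) φ) p ∧
      ∀ v w : ℂ,
        ‖(fderiv ℝ (hat (X j) (X' j) (β j * ω j) (ω j) φ) p (v, w)).1 - v‖ * ‖p.2‖ ≤
          C * (‖p.1‖ * ‖v‖ + ‖p.1‖ * ‖w‖) ∧
        ‖(fderiv ℝ (hat (X j) (X' j) (β j * ω j) (ω j) φ) p (v, w)).2 - w‖ * ‖p.2‖ ≤
          C * (‖p.2‖ * ‖v‖ + ‖p.1‖ * ‖w‖) := by
  obtain ⟨δ₀, hδ₀, u, hu, huX, hφ⟩ := hM.near j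
  have hω := hM.hω j
  have hβ := hM.hβ j
  set U : ℂ → ℂ := fun s => u (X j + s) / ω j with hUdef
  have hUd : DifferentiableOn ℂ U (ball 0 δ₀) := by
    have h1 : DifferentiableOn ℂ (fun s : ℂ => u (X j + s)) (ball 0 δ₀) := by
      apply hu.comp (g := u) (f := fun s : ℂ => X j + s)
      · exact ((differentiable_const _).add differentiable_id).differentiableOn
      · intro s hs
        rw [mem_ball_zero_iff] at hs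
        rw [mem_ball, dist_eq_norm, add_sub_cancel_left]
        exact hs
    exact h1.div_const _
  have hU0 : U 0 = 1 := by
    simp only [hUdef, add_zero, huX]
    exact div_self hω
  obtain ⟨C₀, hC₀, δ, hδ, hδ1, hδ2, hUb⟩ := Z3_holo hδ₀ hUd hU0
  -- the formula
  have hform : ∀ p : ℂ × ℂ, 0 < ‖p.2‖ → ‖p.1‖ < δ * ‖p.2‖ →
      hat (X j) (X' j) (β j * ω j) (ω j) φ p = (U (p.1 / p.2) * p.1, U (p.1 / p.2) * p.2) := by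
    intro p hp2 hp1
    have hy : p.2 ≠ 0 := norm_pos_iff.1 hp2
    have h1 : ‖p.1 + X j * p.2 - X j * p.2‖ < δ₀ * ‖p.2‖ := by
      rw [add_sub_cancel_right]
      exact hp1.trans_le (mul_le_mul_of_nonneg_right hδ2 hp2.le)
    have h2 := hφ (p.1 + X j * p.2) p.2 hy h1
    have h3 : (p.1 + X j * p.2) / p.2 = X j + p.1 / p.2 := by field_simp; ring
    have h4 : X' j * p.2 + β j * (p.1 + X j * p.2 - X j * p.2) = X' j * p.2 + β j * p.1 := by ring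
    rw [h3, h4] at h2
    unfold hat uch
    rw [h2]
    simp only [hUdef]
    apply Prod.ext
    · simp only
      field_simp
      ring
    · simp only
      ring
  refine ⟨2 * C₀ + 1, by linarith, δ, hδ, fun p hp2 hp1 => ?_⟩
  obtain ⟨x, y⟩ := p
  simp only at hp1 hp2
  have hy : y ≠ 0 := norm_pos_iff.1 hp2
  set s : ℂ := x / y with hs
  have hsn : ‖s‖ * ‖y‖ = ‖x‖ := by
    rw [hs, norm_div]; field_simp
  have hsδ : ‖s‖ < δ := by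
    rw [hs, norm_div, div_lt_iff₀ hp2]; exact hp1
  have hs1 : ‖s‖ ≤ 1 := hsδ.le.trans hδ1
  obtain ⟨hd, hb1, hb2⟩ := hUb s hsδ
  have hx0 : 0 ≤ ‖x‖ := norm_nonneg x
  have hsn0 : 0 ≤ ‖s‖ := norm_nonneg s
  have hval := hform (x, y) hp2 hp1
  simp only at hval
  rw [← hs] at hval
  have hb1y : ‖U s - 1‖ * ‖y‖ ≤ C₀ * ‖x‖ := by
    calc ‖U s - 1‖ * ‖y‖ ≤ C₀ * ‖s‖ * ‖y‖ := mul_le_mul_of_nonneg_right hb1 hp2.le
      _ = C₀ * ‖x‖ := by rw [mul_assoc, hsn]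
  refine ⟨?_, ?_, ?_, ?_⟩
  · rw [hval]
    simp only
    have h1 : U s * x - x = (U s - 1) * x := by ring
    rw [h1, norm_mul]
    have h2 : ‖U s - 1‖ * ‖x‖ * ‖y‖ = (‖U s - 1‖ * ‖y‖) * ‖x‖ := by ring
    rw [h2]
    calc (‖U s - 1‖ * ‖y‖) * ‖x‖ ≤ (C₀ * ‖x‖) * ‖x‖ := mul_le_mul_of_nonneg_right hb1y hx0
      _ ≤ (2 * C₀ + 1) * ‖x‖ ^ 2 := by nlinarith [sq_nonneg ‖x‖, mul_nonneg hC₀ (sq_nonneg ‖x‖)]
  · rw [hval]
    simp only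
    have h1 : U s * y - y = (U s - 1) * y := by ring
    rw [h1, norm_mul]
    nlinarith [mul_nonneg hC₀ hx0]
  · apply Z3_cd
    apply hM.smooth
    intro h0
    exact hy (congrArg Prod.snd h0)
  · intro v w
    obtain ⟨L, hL, hLv⟩ := Z3_model (x := x) (y := y) hy hd
    have hev : hat (X j) (X' j) (β j * ω j) (ω j) φ =ᶠ[𝓝 (x, y)]
        fun p : ℂ × ℂ => (U (p.1 / p.2) * p.1, U (p.1 / p.2) * p.2) := by
      have ho : {p : ℂ × ℂ | 0 < ‖p.2‖ ∧ ‖p.1‖ < δ * ‖p.2‖} ∈ 𝓝 (x, y) := by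
        have ho' : IsOpen {p : ℂ × ℂ | 0 < ‖p.2‖ ∧ ‖p.1‖ < δ * ‖p.2‖} :=
          (isOpen_lt continuous_const (continuous_norm.comp continuous_snd)).inter
          (isOpen_lt (continuous_norm.comp continuous_fst)
            (continuous_const.mul (continuous_norm.comp continuous_snd)))
        exact ho'.mem_nhds ⟨hp2, hp1⟩
      filter_upwards [ho] with p hp
      exact hform p hp.1 hp.2
    rw [hev.fderiv_eq, hL.fderiv]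
    obtain ⟨e1, e2⟩ := hLv v w
    rw [← hs] at e1 e2
    rw [e1, e2]
    simp only
    have hv0 := norm_nonneg v
    have hw0 := norm_nonneg w
    constructor
    · have h1 : U s * v + deriv U s * s * v - deriv U s * s ^ 2 * w - v
          = (U s - 1) * v + deriv U s * s * v - deriv U s * s ^ 2 * w := by ring
      have h2 : ‖(U s - 1) * v + deriv U s * s * v - deriv U s * s ^ 2 * w‖
          ≤ ‖U s - 1‖ * ‖v‖ + ‖deriv U s‖ * ‖s‖ * ‖v‖ + ‖deriv U s‖ * ‖s‖ ^ 2 * ‖w‖ := by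
        refine (norm_sub_le _ _).trans (add_le_add ((norm_add_le _ _).trans (le_of_eq ?_))
          (le_of_eq ?_))
        · rw [norm_mul, norm_mul, norm_mul]
        · rw [norm_mul, norm_mul, norm_pow]
      rw [h1]
      calc _ ≤ (‖U s - 1‖ * ‖v‖ + ‖deriv U s‖ * ‖s‖ * ‖v‖ + ‖deriv U s‖ * ‖s‖ ^ 2 * ‖w‖) * ‖y‖ :=
            mul_le_mul_of_nonneg_right h2 hp2.le
        _ = (‖U s - 1‖ * ‖y‖) * ‖v‖ + ‖deriv U s‖ * (‖s‖ * ‖y‖) * ‖v‖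
              + ‖deriv U s‖ * (‖s‖ * ‖y‖) * (‖s‖ * ‖w‖) := by ring
        _ ≤ (C₀ * ‖x‖) * ‖v‖ + C₀ * ‖x‖ * ‖v‖ + C₀ * ‖x‖ * (1 * ‖w‖) := by
            rw [hsn]
            gcongr
        _ ≤ (2 * C₀ + 1) * (‖x‖ * ‖v‖ + ‖x‖ * ‖w‖) := by
            have g1 : 0 ≤ ‖x‖ * ‖v‖ := mul_nonneg hx0 hv0
            have g2 : 0 ≤ ‖x‖ * ‖w‖ := mul_nonneg hx0 hw0
            have g3 : 0 ≤ C₀ * (‖x‖ * ‖w‖) := mul_nonneg hC₀ g2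
            nlinarith
    · have h1 : U s * w + deriv U s * v - deriv U s * s * w - w
          = (U s - 1) * w + deriv U s * v - deriv U s * s * w := by ring
      have h2 : ‖(U s - 1) * w + deriv U s * v - deriv U s * s * w‖
          ≤ ‖U s - 1‖ * ‖w‖ + ‖deriv U s‖ * ‖v‖ + ‖deriv U s‖ * ‖s‖ * ‖w‖ := by
        refine (norm_sub_le _ _).trans (add_le_add ((norm_add_le _ _).trans (le_of_eq ?_))
          (le_of_eq ?_))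
        · rw [norm_mul, norm_mul]
        · rw [norm_mul, norm_mul]
      rw [h1]
      calc _ ≤ (‖U s - 1‖ * ‖w‖ + ‖deriv U s‖ * ‖v‖ + ‖deriv U s‖ * ‖s‖ * ‖w‖) * ‖y‖ :=
            mul_le_mul_of_nonneg_right h2 hp2.le
        _ = (‖U s - 1‖ * ‖y‖) * ‖w‖ + ‖deriv U s‖ * (‖y‖ * ‖v‖)
              + ‖deriv U s‖ * ((‖s‖ * ‖y‖) * ‖w‖) := by ring
        _ ≤ (C₀ * ‖x‖) * ‖w‖ + C₀ * (‖y‖ * ‖v‖) + C₀ * (‖x‖ * ‖w‖) := by
            rw [hsn]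
            gcongr
        _ ≤ (2 * C₀ + 1) * (‖y‖ * ‖v‖ + ‖x‖ * ‖w‖) := by
            have g1 : 0 ≤ ‖y‖ * ‖v‖ := mul_nonneg hp2.le hv0
            have g2 : 0 ≤ ‖x‖ * ‖w‖ := mul_nonneg hx0 hw0
            have g3 : 0 ≤ C₀ * (‖y‖ * ‖v‖) := mul_nonneg hC₀ g1
            nlinarith

/-- the chart of a map which is `C^1` close to `φ` is close to the chart of `φ` -/
theorem hat_close (Xj Xj' α ω : ℂ) (hα : α ≠ 0) (hω : ω ≠ 0) :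
    ∃ C : ℝ, 1 ≤ C ∧ ∀ (H φ : ℂ × ℂ → ℂ × ℂ) (p : ℂ × ℂ),
      ‖hat Xj Xj' α ω H p - hat Xj Xj' α ω φ p‖ ≤ C * ‖H (uch Xj p) - φ (uch Xj p)‖ ∧
      (ContDiffAt ℝ 1 H (uch Xj p) → ContDiffAt ℝ 1 (hat Xj Xj' α ω H) p) ∧
      ∀ ε : ℝ, 0 ≤ ε → DifferentiableAt ℝ H (uch Xj p) → DifferentiableAt ℝ φ (uch Xj p) →
        (∀ w : ℂ × ℂ, ‖fderiv ℝ H (uch Xj p) w - fderiv ℝ φ (uch Xj p) w‖ ≤ ε * ‖w‖) →
        ∀ w : ℂ × ℂ, ‖fderiv ℝ (hat Xj Xj' α ω H) p w - fderiv ℝ (hat Xj Xj' α ω φ) p w‖ ≤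
          C * ε * ‖w‖ := by
  set b : ℝ := ‖Z3_B Xj' α ω‖ with hb
  set a : ℝ := ‖Z3_A Xj‖ with ha
  have hb0 : 0 ≤ b := norm_nonneg _
  have ha0 : 0 ≤ a := norm_nonneg _
  have hab : 0 ≤ b * a := mul_nonneg hb0 ha0
  refine ⟨1 + b + b * a, by linarith, fun H φ p => ⟨?_, Z3_cd Xj Xj' α ω, ?_⟩⟩
  · rw [Z3_hat, Z3_hat]
    simp only
    rw [← map_sub, Z3_A_apply]
    calc _ ≤ b * ‖H (uch Xj p) - φ (uch Xj p)‖ := ContinuousLinearMap.le_opNorm _ _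
      _ ≤ (1 + b + b * a) * ‖H (uch Xj p) - φ (uch Xj p)‖ :=
          mul_le_mul_of_nonneg_right (by linarith) (norm_nonneg _)
  · intro ε hε hH hφ hclose w
    rw [Z3_fd Xj Xj' α ω hH, Z3_fd Xj Xj' α ω hφ, ← map_sub]
    calc _ ≤ b * ‖fderiv ℝ H (uch Xj p) (Z3_A Xj w) - fderiv ℝ φ (uch Xj p) (Z3_A Xj w)‖ :=
          ContinuousLinearMap.le_opNorm _ _
      _ ≤ b * (ε * ‖Z3_A Xj w‖) := mul_le_mul_of_nonneg_left (hclose _) hb0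
      _ ≤ b * (ε * (a * ‖w‖)) := by
          gcongr
          exact ContinuousLinearMap.le_opNorm _ _
      _ = b * a * (ε * ‖w‖) := by ring
      _ ≤ (1 + b + b * a) * (ε * ‖w‖) :=
          mul_le_mul_of_nonneg_right (by linarith) (mul_nonneg hε (norm_nonneg _))
      _ = (1 + b + b * a) * ε * ‖w‖ := by ring

end H24.LS
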