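import Pool.Agent.H24.LS.Z0
import Pool.Agent.H24.LS.Z3
import Pool.Agent.H24.LS.G0
import Pool.Agent.H24.LS.G4

/-!
# Z4: the second component glued between the chart and the outer region

Notation: `hh = hat (X j) (X' j) (β j * ω j) (ω j)`, `φh = hh φ`, `Rh = hh hR`.  Constants: `Cφ` (`phi_chart`), `Ch` (`hat_close`).
Cutoff `χ(p) = θ0(‖p.1‖^2/(a0‖p.2‖)^2)`, `θ0` smooth, `= 1` on `(-∞, 1/4]`, `= 0` on `[9/16, ∞)`, values in `[0,1]`, `|θ0'| ≤ M0`.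
`Yg = χ Y + (1 - χ) (Rh ·).2` (as a function `ℂ × ℂ → ℂ`).  On `Ud a0 ρ` with `‖p.1‖ > a0/4 ‖p.2‖`: `uch (X j) p` satisfies the condition
of `ZR κ X f g φ (a0/4)`: for the line `j` clear, for another multiple line `i`:
`‖p.1 + X_j y - X_i y‖ ≥ (‖X_j - X_i‖ - a0)‖y‖ > (a0/4)‖y‖` if `a0 ≤ min ‖X_j - X_i‖/2`.  (`‖uch p‖ ≤ (1 + ‖X_j‖ + a0)‖p.2‖ < ρ'`.)
So `Rh` is `C^1` there, `‖Rh - φh‖ ≤ C' ε'‖y‖`, `‖DRh - Dφh‖ ≤ C' ε'` (`hat_close`), `ε'` as small as we want (choose `ρ1`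
depending on `a0`), e.g. `C' ε' ≤ min (a0/4) (δ/8)`.
`C^1`: where `‖p.1‖ < (a0/2)‖p.2‖`: `Yg = Y` near `p`; elsewhere all functions are `C^1`.
(S1) where `χ ≠ 1`: `‖x‖ ≥ (a0/2)‖y‖`: `‖Rh.2 - η_C‖ ≤ ‖Rh.2 - φh.2‖ + ‖φh.2 - y‖ + ‖y - η_C‖ ≤ (a0/4)‖y‖ + Cφ ‖x‖ + (a0/4)‖y‖ ≤ (Cφ + 1)‖x‖` (`ηsm`:
  `‖η_C - t^N‖ ≤ (a0/4) ‖t‖^N` for small `t`) and `‖x‖ ≤ 2 ‖x - γ_C‖` (`‖γ_C‖ ≤ (a0/4)‖y‖`).  So `C1 ≥ 2 (Cφ + 1)`.
(S3) `DYg(v,w) - w = χ (DY - w) + (1-χ)(DRh.2 - w) + Dχ(v,w) (Y - Rh.2)`.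
  `|Dχ(v,w)| ≤ M0 (2‖x‖‖v‖/(a0‖y‖)^2 + 2 ‖x‖^2 ‖w‖/(a0^2 ‖y‖^3)) ≤ 2 M0 (‖v‖/(a0‖y‖) + ‖w‖/‖y‖)` (`‖x‖ ≤ a0 ‖y‖`), supported in
  `(a0/2)‖y‖ ≤ ‖x‖`; `‖Y - Rh.2‖ ≤ ‖Y - η_C‖ + ‖η_C - Rh.2‖ ≤ (C1s 2·2 + Cφ + 1) a0 ‖y‖ =: C'' a0‖y‖` (`s_C ≤ ‖x - γ_C‖`).
  So the last term is `≤ 2 M0 C'' (‖v‖ + a0 ‖w‖)`.  `‖DRh.2 - w‖ ≤ Cφ (‖v‖ + a0‖w‖) + (δ/8)(‖v‖ + ‖w‖)`.
  The coefficient of `‖v‖` is bounded by a constant independent of `a0, δ` (for `δ ≤ 1` w.l.o.g.), that of `‖w‖` by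
  `C''' a0 + δ/2 ≤ δ` for `a0 ≤ A = A(δ)`.
(S2), (S4), `cX`: from the given `SDat` for `ε = δ` (restrict to the smaller domain; `a0 ≤ 1`).
-/

open Filter Topology Metric Asymptotics

namespace H24.LS

/-- the squared relative distance to the line `x = 0` -/
noncomputable def Z4_q (a0 : ℝ) : ℂ × ℂ → ℝ := G4_q (a0 / 4) 1 (fun _ => 0)

/-- the cutoff -/
noncomputable def Z4_chi (a0 : ℝ) (p : ℂ × ℂ) : ℝ := G4_st (Z4_q a0 p)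

theorem Z4_q_mul {a0 : ℝ} (ha : 0 < a0) {p : ℂ × ℂ} (hp : 0 < ‖p.2‖) :
    Z4_q a0 p * (a0 / 4 * ‖p.2‖) ^ 2 = ‖p.1‖ ^ 2 := by
  have h := G4_q_mul (K := a0 / 4) (b := 1) (fun _ => 0) p.1 (t := p.2) (by positivity) hp
  rw [Real.rpow_one, sub_zero] at h
  exact h

theorem Z4_chi_cd {a0 : ℝ} {p : ℂ × ℂ} (hp : 0 < ‖p.2‖) :
    ContDiffAt ℝ 1 (Z4_q a0) p ∧ ContDiffAt ℝ 1 (Z4_chi a0) p := by
  have h : ContDiffAt ℝ 1 (Z4_q a0) p :=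
    G4_q_contDiff (K := a0 / 4) (b := 1) (γ := fun _ => 0) p.1 (t := p.2) analyticAt_const hp
  exact ⟨h, (G4_st_contDiff.contDiffAt).comp p h⟩

theorem Z4_chi_one {a0 : ℝ} (ha : 0 < a0) {p : ℂ × ℂ} (hp : 0 < ‖p.2‖)
    (h : ‖p.1‖ ≤ a0 / 2 * ‖p.2‖) : Z4_chi a0 p = 1 := by
  apply G4_st_one
  have h1 := Z4_q_mul ha hp
  have h2 : 0 < (a0 / 4 * ‖p.2‖) ^ 2 := by positivity
  have h3 : ‖p.1‖ ^ 2 ≤ (a0 / 2 * ‖p.2‖) ^ 2 := pow_le_pow_left₀ (norm_nonneg _) h 2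
  rw [← h1] at h3
  have h4 : Z4_q a0 p * (a0 / 4 * ‖p.2‖) ^ 2 ≤ 4 * (a0 / 4 * ‖p.2‖) ^ 2 := by
    refine h3.trans (le_of_eq ?_)
    ring
  exact le_of_mul_le_mul_right h4 h2

theorem Z4_chi_zero {a0 : ℝ} (ha : 0 < a0) {p : ℂ × ℂ} (hp : 0 < ‖p.2‖)
    (h : 3 / 4 * a0 * ‖p.2‖ ≤ ‖p.1‖) : Z4_chi a0 p = 0 := by
  apply G4_st_zero
  have h1 := Z4_q_mul ha hp
  have h2 : 0 < (a0 / 4 * ‖p.2‖) ^ 2 := by positivity
  have h3 : (3 / 4 * a0 * ‖p.2‖) ^ 2 ≤ ‖p.1‖ ^ 2 := pow_le_pow_left₀ (by positivity) h 2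
  rw [← h1] at h3
  have h4 : 9 * (a0 / 4 * ‖p.2‖) ^ 2 ≤ Z4_q a0 p * (a0 / 4 * ‖p.2‖) ^ 2 := by
    refine le_trans (le_of_eq ?_) h3
    ring
  exact le_of_mul_le_mul_right h4 h2

theorem Z4_chi_mem (a0 : ℝ) (p : ℂ × ℂ) : 0 ≤ Z4_chi a0 p ∧ Z4_chi a0 p ≤ 1 :=
  ⟨Real.smoothTransition.nonneg _, Real.smoothTransition.le_one _⟩

theorem Z4_chi_fderiv : ∃ M : ℝ, 0 < M ∧ ∀ a0 : ℝ, 0 < a0 → ∀ p : ℂ × ℂ, 0 < ‖p.2‖ →
    a0 / 2 * ‖p.2‖ ≤ ‖p.1‖ → ‖p.1‖ ≤ a0 * ‖p.2‖ → ∀ v w : ℂ,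
      |fderiv ℝ (Z4_chi a0) p (v, w)| * (a0 * ‖p.2‖) ≤ M * (‖v‖ + a0 * ‖w‖) := by
  obtain ⟨M, hM, H⟩ := G4_st_deriv
  refine ⟨36 * M, by positivity, ?_⟩
  rintro a0 ha ⟨x, y⟩ hp h1 h2 v w
  simp only at hp h1 h2
  obtain ⟨hc, _⟩ := Z4_chi_cd (a0 := a0) (p := (x, y)) hp
  have hst : DifferentiableAt ℝ G4_st (Z4_q a0 (x, y)) :=
    (G4_st_contDiff.differentiable one_ne_zero).differentiableAt
  have hd : HasFDerivAt (Z4_chi a0)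
      (deriv G4_st (Z4_q a0 (x, y)) • fderiv ℝ (Z4_q a0) (x, y)) (x, y) :=
    hst.hasDerivAt.comp_hasFDerivAt (x, y) (hc.differentiableAt one_ne_zero).hasFDerivAt
  rw [hd.fderiv]
  simp only [smul_apply, smul_eq_mul]
  obtain ⟨hb, hne⟩ := H (Z4_q a0 (x, y))
  by_cases h0 : deriv G4_st (Z4_q a0 (x, y)) = 0
  · rw [h0, zero_mul, abs_zero, zero_mul]
    positivity
  · have hq9 : Z4_q a0 (x, y) ≤ 9 := hne h0
    have hq0 : 0 ≤ Z4_q a0 (x, y) := G4_q_nonneg _ _ _ _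
    have h3 := G4_q_fderiv (K := a0 / 4) (b := 1) zero_le_one (γ := fun _ => 0) x (t := y)
      analyticAt_const hp (d := a0 / 2 * ‖y‖) (by positivity) (by rw [sub_zero]; exact h1) v w
    have h3' : |fderiv ℝ (Z4_q a0) (x, y) (v, w)| * (a0 / 2 * ‖y‖) ≤
        2 * Z4_q a0 (x, y) * ‖v‖ + 2 * Z4_q a0 (x, y) * ‖x‖ * (‖w‖ / ‖y‖) := by
      refine h3.trans (le_of_eq ?_)
      show 2 * Z4_q a0 (x, y) * (‖v‖ + ‖deriv (fun _ : ℂ => (0:ℂ)) y‖ * ‖w‖)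
        + 2 * 1 * Z4_q a0 (x, y) * ‖x - 0‖ * (‖w‖ / ‖y‖) = _
      rw [deriv_const, norm_zero, sub_zero]
      ring
    have h4 : ‖x‖ * (‖w‖ / ‖y‖) ≤ a0 * ‖w‖ := by
      rw [mul_div_assoc', div_le_iff₀ hp]
      calc ‖x‖ * ‖w‖ ≤ (a0 * ‖y‖) * ‖w‖ := mul_le_mul_of_nonneg_right h2 (norm_nonneg _)
        _ = _ := by ring
    have h5 : |fderiv ℝ (Z4_q a0) (x, y) (v, w)| * (a0 / 2 * ‖y‖) ≤ 18 * (‖v‖ + a0 * ‖w‖) := by
      refine h3'.trans ?_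
      have e1 : Z4_q a0 (x, y) * ‖v‖ ≤ 9 * ‖v‖ := mul_le_mul_of_nonneg_right hq9 (norm_nonneg _)
      have e2 : Z4_q a0 (x, y) * (‖x‖ * (‖w‖ / ‖y‖)) ≤ 9 * (a0 * ‖w‖) :=
        mul_le_mul hq9 h4 (by positivity) (by norm_num)
      linarith
    rw [abs_mul]
    calc |deriv G4_st (Z4_q a0 (x, y))| * |fderiv ℝ (Z4_q a0) (x, y) (v, w)| * (a0 * ‖y‖)
        = |deriv G4_st (Z4_q a0 (x, y))| *
          (2 * (|fderiv ℝ (Z4_q a0) (x, y) (v, w)| * (a0 / 2 * ‖y‖))) := by ring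
      _ ≤ M * (2 * (18 * (‖v‖ + a0 * ‖w‖))) :=
          mul_le_mul hb (by linarith) (by positivity) hM.le
      _ = _ := by ring

/-- the glued function has a good derivative -/
theorem Z4_prod {Y R2 : ℂ × ℂ → ℂ} {χ : ℂ × ℂ → ℝ} {p : ℂ × ℂ} (hχ : DifferentiableAt ℝ χ p)
    (hY : DifferentiableAt ℝ Y p) (hR : DifferentiableAt ℝ R2 p) (h0 : 0 ≤ χ p) (h1 : χ p ≤ 1)
    {v w : ℂ} {A B D : ℝ} (hA : ‖fderiv ℝ Y p (v, w) - w‖ ≤ A)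
    (hB : ‖fderiv ℝ R2 p (v, w) - w‖ ≤ B)
    (hD : |fderiv ℝ χ p (v, w)| * ‖Y p - R2 p‖ ≤ D) :
    ‖fderiv ℝ (fun p => χ p • Y p + (1 - χ p) • R2 p) p (v, w) - w‖ ≤ A + B + D := by
  have e1 := hχ.hasFDerivAt.smul hY.hasFDerivAt
  have e2 := (hχ.hasFDerivAt.const_sub 1).smul hR.hasFDerivAt
  have e3 : HasFDerivAt (fun p => χ p • Y p + (1 - χ p) • R2 p) _ p := e1.add e2
  rw [e3.fderiv]
  have e4 : (χ p • fderiv ℝ Y p + (fderiv ℝ χ p).smulRight (Y p) +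
      ((1 - χ p) • fderiv ℝ R2 p + (-fderiv ℝ χ p).smulRight (R2 p))) (v, w) - w =
      χ p • (fderiv ℝ Y p (v, w) - w) + (1 - χ p) • (fderiv ℝ R2 p (v, w) - w) +
        (fderiv ℝ χ p (v, w)) • (Y p - R2 p) := by
    simp only [add_apply, smul_apply, ContinuousLinearMap.smulRight_apply, neg_apply]
    module
  rw [e4]
  have hA0 : 0 ≤ A := (norm_nonneg _).trans hA
  have hB0 : 0 ≤ B := (norm_nonneg _).trans hB
  have n1 : ‖χ p • (fderiv ℝ Y p (v, w) - w)‖ ≤ A := by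
    rw [norm_smul, Real.norm_of_nonneg h0]
    calc χ p * ‖fderiv ℝ Y p (v, w) - w‖ ≤ 1 * A := mul_le_mul h1 hA (norm_nonneg _) zero_le_one
      _ = A := one_mul A
  have n2 : ‖(1 - χ p) • (fderiv ℝ R2 p (v, w) - w)‖ ≤ B := by
    rw [norm_smul, Real.norm_of_nonneg (by linarith)]
    calc (1 - χ p) * ‖fderiv ℝ R2 p (v, w) - w‖ ≤ 1 * B :=
          mul_le_mul (by linarith) hB (norm_nonneg _) zero_le_one
      _ = B := one_mul B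
  have n3 : ‖(fderiv ℝ χ p (v, w)) • (Y p - R2 p)‖ ≤ D := by
    rw [norm_smul, Real.norm_eq_abs]
    exact hD
  exact (norm_add₃_le).trans (add_le_add (add_le_add n1 n2) n3)

/-- the map `hR` in the chart -/
theorem Z4_R {r : ℕ} {κ : Fin r → ℕ} {c c' : ℂ} {X X' β ω : Fin r → ℂ}
    {f g : ℂ × ℂ → ℂ} {φ ψ : ℂ × ℂ → ℂ × ℂ} (hM : IsMor κ c c' X X' β ω φ ψ)
    (hX : Function.Injective X) (j : Fin r) :
    ∃ Cφ : ℝ, 1 ≤ Cφ ∧ ∃ A0 : ℝ, 0 < A0 ∧ A0 ≤ 1 ∧ ∀ a0 : ℝ, 0 < a0 → a0 ≤ A0 →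
      ∀ hR : ℂ × ℂ → ℂ × ℂ, ZR κ X f g φ (a0 / 4) hR → ∀ ε > (0 : ℝ), ∃ ρ > (0 : ℝ),
      ∀ p : ℂ × ℂ, 0 < ‖p.2‖ → ‖p.2‖ < ρ → ‖p.1‖ < a0 * ‖p.2‖ → a0 / 4 * ‖p.2‖ < ‖p.1‖ →
        ContDiffAt ℝ 1 (hat (X j) (X' j) (β j * ω j) (ω j) hR) p ∧
        ‖(hat (X j) (X' j) (β j * ω j) (ω j) hR p).2 - p.2‖ ≤ Cφ * ‖p.1‖ + ε * ‖p.2‖ ∧
        ∀ v w : ℂ, ‖(fderiv ℝ (hat (X j) (X' j) (β j * ω j) (ω j) hR) p (v, w)).2 - w‖ ≤
          Cφ * (‖v‖ + a0 * ‖w‖) + ε * (‖v‖ + ‖w‖) := by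
  obtain ⟨Cφ, hCφ, δφ, hδφ, Hφ⟩ := phi_chart hM j
  obtain ⟨Ch, hCh, Hh⟩ := hat_close (X j) (X' j) (β j * ω j) (ω j)
    (mul_ne_zero (hM.hβ j) (hM.hω j)) (hM.hω j)
  -- distance of `X j` to the other points
  have hm : ∃ m : ℝ, 0 < m ∧ ∀ i, i ≠ j → m ≤ ‖X j - X i‖ := by
    by_cases hne : (Finset.univ.erase j : Finset (Fin r)).Nonempty
    · refine ⟨(Finset.univ.erase j).inf' hne fun i => ‖X j - X i‖, ?_, fun i hi => ?_⟩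
      · rw [Finset.lt_inf'_iff]
        intro i hi
        rw [norm_pos_iff, sub_ne_zero]
        intro h
        exact (Finset.ne_of_mem_erase hi) (hX h).symm
      · exact Finset.inf'_le _ (Finset.mem_erase.2 ⟨hi, Finset.mem_univ i⟩)
    · refine ⟨1, one_pos, fun i hi => ?_⟩
      exact absurd ⟨i, Finset.mem_erase.2 ⟨hi, Finset.mem_univ i⟩⟩ hne
  obtain ⟨m, hm0, hm⟩ := hm
  refine ⟨Cφ, hCφ, min (min 1 δφ) (m / 2), by positivity,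
    (min_le_left _ _).trans (min_le_left _ _), ?_⟩
  intro a0 ha0 haA hR hZ ε hε
  have ha1 : a0 ≤ 1 := haA.trans ((min_le_left _ _).trans (min_le_left _ _))
  have haδ : a0 ≤ δφ := haA.trans ((min_le_left _ _).trans (min_le_right _ _))
  have ham : a0 ≤ m / 2 := haA.trans (min_le_right _ _)
  set L : ℝ := 2 + ‖X j‖ with hL
  have hL0 : 0 < L := by positivity
  have hCh0 : 0 < Ch := by linarith
  set ε' : ℝ := ε / (Ch * L) with hε'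
  have hε'0 : 0 < ε' := by positivity
  obtain ⟨ρ, hρ, H⟩ := hZ ε' hε'0
  refine ⟨ρ / L, by positivity, ?_⟩
  rintro p hp1 hp2 hp3 hp4
  set q := uch (X j) p with hq
  have hq2 : q.2 = p.2 := rfl
  have hq1 : q.1 = p.1 + X j * p.2 := rfl
  have hq0 : 0 < ‖q‖ := lt_of_lt_of_le hp1 (by rw [← hq2]; exact norm_snd_le q)
  have hqL : ‖q‖ ≤ L * ‖p.2‖ := by
    rw [Prod.norm_def, hq2, hq1]
    refine max_le ?_ ?_
    · refine (norm_add_le _ _).trans ?_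
      rw [norm_mul, hL]
      have : ‖p.1‖ ≤ 1 * ‖p.2‖ := hp3.le.trans (mul_le_mul_of_nonneg_right ha1 (norm_nonneg _))
      nlinarith [norm_nonneg p.2]
    · rw [hL]
      nlinarith [norm_nonneg p.2, norm_nonneg (X j), mul_nonneg (norm_nonneg (X j)) (norm_nonneg p.2)]
  have hqρ : ‖q‖ < ρ := by
    refine hqL.trans_lt ?_
    rw [lt_div_iff₀ hL0] at hp2
    linarith
  have hlines : ∀ i, 2 ≤ κ i → a0 / 4 * ‖q.2‖ < ‖q.1 - X i * q.2‖ := by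
    intro i _
    rw [hq1, hq2]
    by_cases hij : i = j
    · subst hij
      rw [add_sub_cancel_right]
      exact hp4
    · have e1 : p.1 + X j * p.2 - X i * p.2 = (X j - X i) * p.2 - (-p.1) := by ring
      rw [e1]
      have e2 := norm_sub_norm_le ((X j - X i) * p.2) (-p.1)
      rw [norm_neg, norm_mul] at e2
      have e3 : m * ‖p.2‖ ≤ ‖X j - X i‖ * ‖p.2‖ :=
        mul_le_mul_of_nonneg_right (hm i hij) (norm_nonneg _)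
      have e4 : 2 * a0 * ‖p.2‖ ≤ m * ‖p.2‖ := mul_le_mul_of_nonneg_right (by linarith) hp1.le
      have e5 : 0 < a0 * ‖p.2‖ := by positivity
      linarith
  obtain ⟨_, h2, h3, h4⟩ := H q hq0 hqρ hlines
  obtain ⟨b1, b2, b3⟩ := Hh hR φ p
  have hqne : q ≠ 0 := norm_pos_iff.1 hq0
  have hp3' : ‖p.1‖ < δφ * ‖p.2‖ :=
    hp3.trans_le (mul_le_mul_of_nonneg_right haδ (norm_nonneg _))
  obtain ⟨_, c2, _, c4⟩ := Hφ p hp1 hp3'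
  have hChε : Ch * ε' ≤ ε := by
    rw [hε']
    have : Ch * (ε / (Ch * L)) = ε / L := by field_simp
    rw [this]
    exact div_le_self hε.le (by rw [hL]; linarith [norm_nonneg (X j)])
  refine ⟨b2 h3, ?_, fun v w => ?_⟩
  · have e1 : ‖(hat (X j) (X' j) (β j * ω j) (ω j) hR p).2 -
        (hat (X j) (X' j) (β j * ω j) (ω j) φ p).2‖ ≤ ε * ‖p.2‖ := by
      refine (norm_snd_le (hat (X j) (X' j) (β j * ω j) (ω j) hR p -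
        hat (X j) (X' j) (β j * ω j) (ω j) φ p)).trans (b1.trans ?_)
      calc Ch * ‖hR (uch (X j) p) - φ (uch (X j) p)‖ ≤ Ch * (ε' * (L * ‖p.2‖)) := by
            refine mul_le_mul_of_nonneg_left (h2.trans ?_) hCh0.le
            exact mul_le_mul_of_nonneg_left hqL hε'0.le
        _ = ε * ‖p.2‖ := by rw [hε']; field_simp
    have e2 := norm_sub_le_norm_sub_add_norm_sub (hat (X j) (X' j) (β j * ω j) (ω j) hR p).2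
      (hat (X j) (X' j) (β j * ω j) (ω j) φ p).2 p.2
    linarith
  · have d1 := b3 ε' hε'0.le (h3.differentiableAt one_ne_zero)
      ((hM.smooth q hqne).differentiableAt one_ne_zero) h4 (v, w)
    have d2 := (c4 v w).2
    have e1 : ‖(fderiv ℝ (hat (X j) (X' j) (β j * ω j) (ω j) hR) p (v, w)).2 -
        (fderiv ℝ (hat (X j) (X' j) (β j * ω j) (ω j) φ) p (v, w)).2‖ ≤ ε * (‖v‖ + ‖w‖) := by
      refine (norm_snd_le (fderiv ℝ (hat (X j) (X' j) (β j * ω j) (ω j) hR) p (v, w) -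
        fderiv ℝ (hat (X j) (X' j) (β j * ω j) (ω j) φ) p (v, w))).trans (d1.trans ?_)
      have e3 : ‖((v, w) : ℂ × ℂ)‖ ≤ ‖v‖ + ‖w‖ := by
        rw [Prod.norm_def]
        exact max_le (by linarith [norm_nonneg w]) (by linarith [norm_nonneg v])
      exact mul_le_mul hChε e3 (norm_nonneg _) hε.le
    have e2 : ‖(fderiv ℝ (hat (X j) (X' j) (β j * ω j) (ω j) φ) p (v, w)).2 - w‖ ≤
        Cφ * (‖v‖ + a0 * ‖w‖) := by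
      refine le_of_mul_le_mul_right (d2.trans ?_) hp1
      have e3 : ‖p.1‖ * ‖w‖ ≤ a0 * ‖p.2‖ * ‖w‖ := mul_le_mul_of_nonneg_right hp3.le (norm_nonneg _)
      have e4 : ‖p.2‖ * ‖v‖ + ‖p.1‖ * ‖w‖ ≤ (‖v‖ + a0 * ‖w‖) * ‖p.2‖ := by linarith
      calc Cφ * (‖p.2‖ * ‖v‖ + ‖p.1‖ * ‖w‖) ≤ Cφ * ((‖v‖ + a0 * ‖w‖) * ‖p.2‖) :=
            mul_le_mul_of_nonneg_left e4 (by linarith)
        _ = _ := by ring
    have e3 := norm_sub_le_norm_sub_add_norm_sub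
      (fderiv ℝ (hat (X j) (X' j) (β j * ω j) (ω j) hR) p (v, w)).2
      (fderiv ℝ (hat (X j) (X' j) (β j * ω j) (ω j) φ) p (v, w)).2 w
    linarith

/-- sizes for small `t` -/
theorem Z4_small {F G : ℂ × ℂ → ℂ} {k n N : ℕ} {u : ℂ} {cc : ℕ} {m : Fin cc → ℕ}
    {b : Fin cc → ℝ} {γ v Γ η : Fin cc → ℂ → ℂ} {a : Fin cc → ℂ} {D : Fin cc → ℕ}
    (h : CFa F G k n N u cc m b γ v Γ η a D) {ε : ℝ} (hε : 0 < ε) :
    ∃ r > (0 : ℝ), ∀ t : ℂ, 0 < ‖t‖ → ‖t‖ < r → ∀ C, ‖γ C t‖ ≤ ε * ‖t ^ N‖ ∧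
      ‖η C t - t ^ N‖ ≤ ε * ‖t ^ N‖ ∧ ‖t‖ ^ (b C) ≤ ε * ‖t ^ N‖ := by
  have hN := h.clu.hN
  have h1 : ∀ᶠ t in 𝓝[≠] (0 : ℂ), ∀ C, ‖γ C t‖ ≤ ε * ‖t ^ N‖ ∧
      ‖η C t - t ^ N‖ ≤ ε * ‖t ^ N‖ ∧ ‖t‖ ^ (b C) ≤ ε * ‖t ^ N‖ := by
    rw [Filter.eventually_all]
    intro C
    refine ((h.clu.gsm C).def hε).and (((h.ηsm C).def hε).and ?_)
    obtain ⟨r, hr, hr'⟩ := G4_eps hN (h.clu.gan C) (h.clu.gsm C) (h.clu.hb C) 1 hε
    rw [eventually_nhdsWithin_iff, Metric.eventually_nhds_iff]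
    refine ⟨r, hr, fun {t} ht ht0 => ?_⟩
    rw [dist_zero_right] at ht
    have ht0' : 0 < ‖t‖ := norm_pos_iff.2 ht0
    have h2 := (hr' t ht0' ht).2
    have hb : (N : ℝ) < b C := h.clu.hb C
    have hN' : (1 : ℝ) ≤ N := by exact_mod_cast hN
    have hq : 0 ≤ ‖t‖ ^ (b C) / ‖t‖ ^ N := by positivity
    have h3 : ‖t‖ ^ (b C) / ‖t‖ ^ N ≤ ε := by nlinarith
    rw [norm_pow]
    rwa [div_le_iff₀ (pow_pos ht0' N)] at h3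
  rw [eventually_nhdsWithin_iff, Metric.eventually_nhds_iff] at h1
  obtain ⟨r, hr, hr'⟩ := h1
  exact ⟨r, hr, fun t h0 h1 =>
    hr' (y := t) (by simpa [dist_zero_right] using h1) (by simpa using h0)⟩

theorem glued_sdat {r : ℕ} {κ : Fin r → ℕ} {c c' : ℂ} {X X' β ω : Fin r → ℂ}
    {f g : ℂ × ℂ → ℂ} {φ ψ : ℂ × ℂ → ℂ × ℂ} (hM : IsMor κ c c' X X' β ω φ ψ)
    (hX : Function.Injective X) (j : Fin r)
    {F G : ℂ × ℂ → ℂ} {k n N : ℕ} {u : ℂ} {cc : ℕ} {m : Fin cc → ℕ} {b : Fin cc → ℝ}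
    {γ v Γ η : Fin cc → ℂ → ℂ} {a : Fin cc → ℂ} {D : Fin cc → ℕ}
    (h : CFa F G k n N u cc m b γ v Γ η a D) (hcc : 1 ≤ cc)
    {Y X0 : ℂ × ℂ → ℂ} {C1s : ℝ} (hC1s : 0 < C1s)
    (hS : ∀ ε > (0 : ℝ), ∃ ρ > (0 : ℝ), SDat N b γ Γ η Y X0 C1s ε 1 ρ) :
    ∃ C1 > (0 : ℝ), ∀ δ > (0 : ℝ), ∃ A > (0 : ℝ), ∀ a0 : ℝ, 0 < a0 → a0 ≤ A →
      ∀ hR : ℂ × ℂ → ℂ × ℂ, ZR κ X f g φ (a0 / 4) hR →
      ∃ ρ1 > (0 : ℝ), ∃ Yg : ℂ × ℂ → ℂ,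
        (∀ ρ : ℝ, 0 < ρ → ρ ≤ ρ1 → SDat N b γ Γ η Yg X0 C1 δ a0 ρ) ∧
        ∀ p ∈ Ud a0 ρ1, 3 / 4 * a0 * ‖p.2‖ ≤ ‖p.1‖ →
          Yg p = (hat (X j) (X' j) (β j * ω j) (ω j) hR p).2 := by
  obtain ⟨Cφ, hCφ, A0, hA0, hA01, HR⟩ := Z4_R (f := f) (g := g) hM hX j
  obtain ⟨M, hM0, Hχ⟩ := Z4_chi_fderiv
  set C2 : ℝ := 2 * C1s + Cφ + 1 with hC2
  have hC20 : 0 < C2 := by positivity
  refine ⟨C1s + 2 * (Cφ + 1) + Cφ + 1 + M * C2, by positivity, fun δ hδ => ?_⟩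
  set C1 : ℝ := C1s + 2 * (Cφ + 1) + Cφ + 1 + M * C2 with hC1
  have hMC : 0 < Cφ + M * C2 := by positivity
  refine ⟨min A0 (δ / (4 * (Cφ + M * C2))), by positivity, fun a0 ha0 haA hR hZ => ?_⟩
  have ha0A : a0 ≤ A0 := haA.trans (min_le_left _ _)
  have ha01 : a0 ≤ 1 := ha0A.trans hA01
  have haδ : (Cφ + M * C2) * a0 ≤ δ / 4 := by
    have h1 : a0 ≤ δ / (4 * (Cφ + M * C2)) := haA.trans (min_le_right _ _)
    rw [le_div_iff₀ (by positivity)] at h1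
    linarith
  set ε' : ℝ := min 1 (min (δ / 4) (a0 / 4)) with hε'
  have hε'0 : 0 < ε' := by positivity
  have hε'1 : ε' ≤ 1 := min_le_left _ _
  have hε'δ : ε' ≤ δ / 4 := (min_le_right _ _).trans (min_le_left _ _)
  have hε'a : ε' ≤ a0 / 4 := (min_le_right _ _).trans (min_le_right _ _)
  obtain ⟨ρZ, hρZ, HZ⟩ := HR a0 ha0 ha0A hR hZ ε' hε'0
  obtain ⟨ρS, hρS, S⟩ := hS (δ / 4) (by positivity)
  obtain ⟨r0, hr0, Hr⟩ := Z4_small h (ε := a0 / 4) (by positivity)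
  have hN := h.clu.hN
  set R : ℂ × ℂ → ℂ × ℂ := hat (X j) (X' j) (β j * ω j) (ω j) hR with hRdef
  set Yg : ℂ × ℂ → ℂ := fun p => Z4_chi a0 p • Y p + (1 - Z4_chi a0 p) • (R p).2 with hYg
  refine ⟨min (min ρZ ρS) (r0 ^ N), by positivity, Yg, ?_, ?_⟩
  swap
  · intro p hp hx
    have h1 := Z4_chi_zero ha0 hp.1 hx
    simp only [hYg]
    rw [h1, zero_smul, sub_zero, one_smul, zero_add]
  intro ρ hρ hρ1
  have hρZ' : ρ ≤ ρZ := hρ1.trans ((min_le_left _ _).trans (min_le_left _ _))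
  have hρS' : ρ ≤ ρS := hρ1.trans ((min_le_left _ _).trans (min_le_right _ _))
  have hρr : ρ ≤ r0 ^ N := hρ1.trans (min_le_right _ _)
  have hsub : ∀ p ∈ Ud a0 ρ, p ∈ Ud 1 ρS := by
    rintro p ⟨h1, h2, h3⟩
    exact ⟨h1, h2.trans_le hρS', h3.trans_le (mul_le_mul_of_nonneg_right ha01 (norm_nonneg _))⟩
  -- near the centre
  have hnear : ∀ p ∈ Ud a0 ρ, ‖p.1‖ < a0 / 2 * ‖p.2‖ → Yg =ᶠ[𝓝 p] Y := by
    intro p hp hx
    have ho : IsOpen {p : ℂ × ℂ | 0 < ‖p.2‖ ∧ ‖p.1‖ < a0 / 2 * ‖p.2‖} :=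
      (isOpen_lt continuous_const (continuous_norm.comp continuous_snd)).inter
        (isOpen_lt (continuous_norm.comp continuous_fst)
          (continuous_const.mul (continuous_norm.comp continuous_snd)))
    filter_upwards [ho.mem_nhds ⟨hp.1, hx⟩] with q hq
    simp only [hYg]
    rw [Z4_chi_one ha0 hq.1 hq.2.le, one_smul, sub_self, zero_smul, add_zero]
  -- away from the centre
  have hfar : ∀ p ∈ Ud a0 ρ, ¬ ‖p.1‖ < a0 / 2 * ‖p.2‖ →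
      ContDiffAt ℝ 1 R p ∧ ‖(R p).2 - p.2‖ ≤ Cφ * ‖p.1‖ + ε' * ‖p.2‖ ∧
        ∀ v w : ℂ, ‖(fderiv ℝ R p (v, w)).2 - w‖ ≤ Cφ * (‖v‖ + a0 * ‖w‖) + ε' * (‖v‖ + ‖w‖) := by
    intro p hp hx
    refine HZ p hp.1 (hp.2.1.trans_le hρZ') hp.2.2 ?_
    have h1 := hp.1
    have h2 : 0 < a0 * ‖p.2‖ := by positivity
    linarith
  -- the small quantities
  have hsm : ∀ x t : ℂ, (x, t ^ N) ∈ Ud a0 ρ → 0 < ‖t‖ ∧ ‖t‖ < r0 := by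
    intro x t hp
    exact ⟨G4_pos hN hp.1, G4_small hN hr0.le (hp.2.1.trans_le hρr)⟩
  -- the second component of `R` compared with `η`
  have hReta : ∀ x t : ℂ, (x, t ^ N) ∈ Ud a0 ρ → ¬ ‖x‖ < a0 / 2 * ‖t ^ N‖ → ∀ C,
      ‖(R (x, t ^ N)).2 - η C t‖ ≤ (Cφ + 1) * ‖x‖ := by
    intro x t hp hx C
    obtain ⟨ht0, htr⟩ := hsm x t hp
    obtain ⟨_, h2, _⟩ := Hr t ht0 htr C
    have h3 := (hfar _ hp hx).2.1
    simp only at h3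
    have h4 := norm_sub_le_norm_sub_add_norm_sub (R (x, t ^ N)).2 (t ^ N) (η C t)
    rw [norm_sub_rev (t ^ N)] at h4
    have h5 : ε' * ‖t ^ N‖ ≤ a0 / 4 * ‖t ^ N‖ := mul_le_mul_of_nonneg_right hε'a (norm_nonneg _)
    push Not at hx
    linarith
  have hYR : ∀ p ∈ Ud a0 ρ, ¬ ‖p.1‖ < a0 / 2 * ‖p.2‖ → ‖Y p - (R p).2‖ ≤ C2 * (a0 * ‖p.2‖) := by
    rintro ⟨x, y⟩ hp hx
    obtain ⟨t, rfl⟩ := G4_surj hN y
    have C : Fin cc := ⟨0, hcc⟩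
    obtain ⟨ht0, htr⟩ := hsm x t hp
    obtain ⟨g1, g2, g3⟩ := Hr t ht0 htr C
    have h1 := S.S1 x t (hsub _ hp) C
    have h2 := hReta x t hp hx C
    have h3 := norm_sub_le_norm_sub_add_norm_sub (Y (x, t ^ N)) (η C t) (R (x, t ^ N)).2
    rw [norm_sub_rev (η C t)] at h3
    have h4 : ‖x - γ C t‖ ≤ ‖x‖ + a0 / 4 * ‖t ^ N‖ := (norm_sub_le _ _).trans (by linarith)
    have h5 : ‖x‖ ≤ a0 * ‖t ^ N‖ := hp.2.2.le
    have h6 : C1s * (‖t‖ ^ b C + ‖x - γ C t‖) ≤ C1s * (2 * (a0 * ‖t ^ N‖)) := by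
      apply mul_le_mul_of_nonneg_left _ hC1s.le
      have : 0 ≤ a0 * ‖t ^ N‖ := by positivity
      linarith
    have h7 : (Cφ + 1) * ‖x‖ ≤ (Cφ + 1) * (a0 * ‖t ^ N‖) :=
      mul_le_mul_of_nonneg_left h5 (by linarith)
    show ‖Y (x, t ^ N) - (R (x, t ^ N)).2‖ ≤ C2 * (a0 * ‖t ^ N‖)
    rw [hC2]
    linarith
  have hC1a : C1s ≤ C1 := by
    rw [hC1]
    have : 0 < M * C2 := by positivity
    linarith
  refine ⟨ha0, hρ, ?_, fun p hp => S.cX p (hsub p hp), ?_, ?_, ?_, ?_⟩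
  · -- smoothness
    intro p hp
    by_cases hx : ‖p.1‖ < a0 / 2 * ‖p.2‖
    · exact (S.cY p (hsub p hp)).congr_of_eventuallyEq (hnear p hp hx)
    · have h1 := (Z4_chi_cd (a0 := a0) hp.1).2
      have h2 := (hfar p hp hx).1
      have h3 : ContDiffAt ℝ 1 (fun p => (R p).2) p := h2.snd
      exact (h1.smul (S.cY p (hsub p hp))).add ((contDiffAt_const.sub h1).smul h3)
  · -- S1
    intro x t hp C
    have hb0 : 0 ≤ ‖t‖ ^ b C := by positivity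
    have h1 := S.S1 x t (hsub _ hp) C
    by_cases hx : ‖x‖ < a0 / 2 * ‖t ^ N‖
    · have h2 : Yg (x, t ^ N) = Y (x, t ^ N) := (hnear _ hp hx).self_of_nhds
      rw [h2]
      refine h1.trans (mul_le_mul_of_nonneg_right hC1a (by positivity))
    · obtain ⟨ht0, htr⟩ := hsm x t hp
      obtain ⟨g1, g2, g3⟩ := Hr t ht0 htr C
      have h2 := hReta x t hp hx C
      have h3 : ‖x‖ ≤ 2 * ‖x - γ C t‖ := by
        have h4 := norm_sub_norm_le x (γ C t)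
        push Not at hx
        linarith
      obtain ⟨c0, c1⟩ := Z4_chi_mem a0 (x, t ^ N)
      have e1 : Yg (x, t ^ N) - η C t = Z4_chi a0 (x, t ^ N) • (Y (x, t ^ N) - η C t) +
          (1 - Z4_chi a0 (x, t ^ N)) • ((R (x, t ^ N)).2 - η C t) := by
        simp only [hYg]
        module
      rw [e1]
      refine (norm_add_le _ _).trans ?_
      rw [norm_smul, norm_smul, Real.norm_of_nonneg c0, Real.norm_of_nonneg (by linarith)]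
      have e2 : Z4_chi a0 (x, t ^ N) * ‖Y (x, t ^ N) - η C t‖ ≤
          1 * (C1s * (‖t‖ ^ b C + ‖x - γ C t‖)) := mul_le_mul c1 h1 (norm_nonneg _) zero_le_one
      have e3 : (1 - Z4_chi a0 (x, t ^ N)) * ‖(R (x, t ^ N)).2 - η C t‖ ≤
          1 * ((Cφ + 1) * (2 * ‖x - γ C t‖)) :=
        mul_le_mul (by linarith)
          (h2.trans (mul_le_mul_of_nonneg_left h3 (by linarith))) (norm_nonneg _) zero_le_one
      have e4 : (C1s + 2 * (Cφ + 1)) * (‖t‖ ^ b C + ‖x - γ C t‖) ≤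
          C1 * (‖t‖ ^ b C + ‖x - γ C t‖) := by
        apply mul_le_mul_of_nonneg_right _ (by positivity)
        rw [hC1]
        have : 0 < M * C2 := by positivity
        linarith
      have e5 : 0 ≤ (Cφ + 1) * ‖t‖ ^ b C := by positivity
      linarith
  · -- S2
    intro x t hp C
    refine (S.S2 x t (hsub _ hp) C).trans ?_
    have : 0 ≤ ‖t‖ ^ b C := by positivity
    exact mul_le_mul_of_nonneg_right (by linarith) (by positivity)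
  · -- S3
    intro p hp v w
    have h1 := S.S3 p (hsub p hp) v w
    by_cases hx : ‖p.1‖ < a0 / 2 * ‖p.2‖
    · rw [(hnear p hp hx).fderiv_eq]
      refine h1.trans ?_
      have e1 : C1s * ‖v‖ ≤ C1 * ‖v‖ := mul_le_mul_of_nonneg_right hC1a (norm_nonneg _)
      have e2 : δ / 4 * ‖w‖ ≤ δ * ‖w‖ := mul_le_mul_of_nonneg_right (by linarith) (norm_nonneg _)
      linarith
    · obtain ⟨r1, r2, r3⟩ := hfar p hp hx
      have hRd : DifferentiableAt ℝ R p := r1.differentiableAt one_ne_zero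
      have hR2 : HasFDerivAt (fun p => (R p).2)
          ((ContinuousLinearMap.snd ℝ ℂ ℂ).comp (fderiv ℝ R p)) p := hRd.hasFDerivAt.snd
      have hB : ‖fderiv ℝ (fun p => (R p).2) p (v, w) - w‖ ≤
          Cφ * (‖v‖ + a0 * ‖w‖) + ε' * (‖v‖ + ‖w‖) := by
        rw [hR2.fderiv]
        exact r3 v w
      obtain ⟨c0, c1⟩ := Z4_chi_mem a0 p
      have hχ := Hχ a0 ha0 p hp.1 (not_lt.1 hx) hp.2.2.le v w
      have hD : |fderiv ℝ (Z4_chi a0) p (v, w)| * ‖Y p - (R p).2‖ ≤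
          C2 * (M * (‖v‖ + a0 * ‖w‖)) := by
        calc |fderiv ℝ (Z4_chi a0) p (v, w)| * ‖Y p - (R p).2‖
            ≤ |fderiv ℝ (Z4_chi a0) p (v, w)| * (C2 * (a0 * ‖p.2‖)) :=
              mul_le_mul_of_nonneg_left (hYR p hp hx) (abs_nonneg _)
          _ = C2 * (|fderiv ℝ (Z4_chi a0) p (v, w)| * (a0 * ‖p.2‖)) := by ring
          _ ≤ _ := mul_le_mul_of_nonneg_left hχ hC20.le
      have key := Z4_prod ((Z4_chi_cd (a0 := a0) hp.1).2.differentiableAt one_ne_zero)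
        ((S.cY p (hsub p hp)).differentiableAt one_ne_zero) hR2.differentiableAt c0 c1 h1 hB hD
      refine key.trans ?_
      have n1 := norm_nonneg v
      have n2 := norm_nonneg w
      have e1 : (Cφ + M * C2) * a0 * ‖w‖ ≤ δ / 4 * ‖w‖ := mul_le_mul_of_nonneg_right haδ n2
      have e2 : ε' * ‖w‖ ≤ δ / 4 * ‖w‖ := mul_le_mul_of_nonneg_right hε'δ n2
      have e3 : ε' * ‖v‖ ≤ 1 * ‖v‖ := mul_le_mul_of_nonneg_right hε'1 n1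
      have e4 : 0 ≤ (2 * (Cφ + 1)) * ‖v‖ := by positivity
      have e5 : 0 ≤ δ * ‖w‖ := by positivity
      rw [hC1]
      nlinarith [e1, e2, e3, e4, e5]
  · -- S4
    intro p hp v w
    refine (S.S4 p (hsub p hp) v w).trans ?_
    exact mul_le_mul_of_nonneg_right (by linarith) (by positivity)

end H24.LS
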