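import Pool.Agent.H24.LS.Z0
import Pool.Agent.H24.LS.Z3
import Pool.Agent.H24.LS.Z4
import Pool.Agent.H24.LS.G3
import Pool.Agent.H24.LS.G4
import Pool.Agent.H24.LS.G13

/-!
# Z5: the solution in a chart, equal to `hR` near the boundary of the chart

`F = fun p => f (p.1 + X j * p.2, p.2)`, `G = Gn (fun p => g (p.1 + X' j * p.2, p.2)) (β j * ω j) (ω j)`; note
`F p = f (uch (X j) p)` and, for every map `H`, `G (hat .. H p) = g (H (uch (X j) p))` (`β, ω ≠ 0`).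
`n = κ j - 1 ≥ 1` gives `cc ≥ 1` (`Clu.hmn`).  `shep_exists`, `mins_exist`; `C1` from `glued_sdat`; `τ, CK0` from `solve` with this `C1`.
`CK = max CK0 1`.  Given `ε` (w.l.o.g. `≤ 1`) take `δ` from `solve` (for `min ε ..`), `A` from `glued_sdat` for this `δ`, `A ≤ δ`, `A ≤ 1`,
and `A Cφ ≤ τ/8`.  Given `a0, hR`: `Yg`, `ρ1` small; apply `solve` on `Ud a0 ρ1`: `h1, h2`.
Last claim: `p ∈ Ud a0 ρ1`, `‖x‖ ≥ (3/4) a0 ‖y‖`.  `‖γ_C‖ ≤ (a0/4)‖y‖` and `CK0 ‖t‖^(b C) ≤ (a0/4)‖y‖` for small `t` (`b C > N`), so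
`‖x - γ_C‖ ≥ ‖x‖/2 ≥ CK0 ‖t‖^(b C)`, hence `CK0 ≤ km p` (`k2`) and `dm p ≥ ‖x‖/2`.  So `h2 p = Yg p = (Rh p).2`, and `z = (Rh p).1` satisfies
`G (z, Yg p) = G (Rh p) = g (hR (uch p)) = f (uch p) = F p` (`ZR`) and
`‖z - X0 p‖ ≤ ‖Rh - φh‖ + ‖φh.1 - x‖ + ‖x - X0 p‖ ≤ ε'‖y‖ + Cφ a0 ‖x‖ + ε'‖y‖ < τ ‖x‖/2 ≤ τ dm p`
(`S2`, `Γsm`, `gsm`: `‖X0 - x‖ ≤ ‖Γ_C‖ + ‖γ_C‖ + δ'(s_C + ‖x - γ_C‖)`, with `SDat` of `shep_exists` for a small `ε'` depending on `a0`).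
So `z = h1 p`.
-/

open Filter Topology Metric Asymptotics

namespace H24.LS


private theorem Z5_Gn {g : ℂ × ℂ → ℂ} {Xj Xj' α ω : ℂ} (hα : α ≠ 0) (hω : ω ≠ 0)
    (H : ℂ × ℂ → ℂ × ℂ) (p : ℂ × ℂ) :
    Gn (fun p => g (p.1 + Xj' * p.2, p.2)) α ω (hat Xj Xj' α ω H p) = g (H (uch Xj p)) := by
  unfold Gn hat
  simp only
  have h1 : α * (((H (uch Xj p)).1 - Xj' * (H (uch Xj p)).2) / α) +
      Xj' * (ω * ((H (uch Xj p)).2 / ω)) = (H (uch Xj p)).1 := by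
    field_simp
    ring
  have h2 : ω * ((H (uch Xj p)).2 / ω) = (H (uch Xj p)).2 := by
    field_simp
  rw [h1, h2]

private theorem Z5_sep {r : ℕ} {X : Fin r → ℂ} (hX : Function.Injective X) (j : Fin r) :
    ∃ d > (0 : ℝ), ∀ i, i ≠ j → d ≤ ‖X j - X i‖ := by
  obtain ⟨ε, hε, h⟩ := Pi.exists_forall_pos_add_lt (ι := Fin r) (α := ℝ) (x := fun _ => 0)
    (y := fun i => if i = j then 1 else ‖X j - X i‖) (by
      intro i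
      by_cases hi : i = j
      · rw [if_pos hi]
        norm_num
      · rw [if_neg hi]
        rw [norm_pos_iff, sub_ne_zero]
        exact fun h => hi (hX h).symm)
  refine ⟨ε, hε, fun i hi => ?_⟩
  have := h i
  simp only [if_neg hi] at this
  linarith

/-- the condition of `ZR` at a point of the chart -/
private theorem Z5_cond {r : ℕ} {X : Fin r → ℂ} {j : Fin r} {d a0 : ℝ}
    (hd : ∀ i, i ≠ j → d ≤ ‖X j - X i‖) (ha0 : 0 < a0) (had : 2 * a0 ≤ d) {p : ℂ × ℂ}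
    (hp0 : 0 < ‖p.2‖) (hp : ‖p.1‖ < a0 * ‖p.2‖) (hp2 : 3 / 4 * a0 * ‖p.2‖ ≤ ‖p.1‖) (i : Fin r) :
    a0 / 4 * ‖(uch (X j) p).2‖ < ‖(uch (X j) p).1 - X i * (uch (X j) p).2‖ := by
  have hpos : 0 < a0 * ‖p.2‖ := by positivity
  unfold uch
  simp only
  by_cases hi : i = j
  · subst hi
    have h1 : p.1 + X i * p.2 - X i * p.2 = p.1 := by ring
    rw [h1]
    linarith
  · have h1 : p.1 + X j * p.2 - X i * p.2 = (X j - X i) * p.2 + p.1 := by ring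
    rw [h1]
    have h2 : ‖(X j - X i) * p.2‖ - ‖p.1‖ ≤ ‖(X j - X i) * p.2 + p.1‖ := norm_sub_le_norm_add _ _
    rw [norm_mul] at h2
    have h3 := mul_le_mul_of_nonneg_right (had.trans (hd i hi)) hp0.le
    linarith

private theorem Z5_uch (Xj : ℂ) {p : ℂ × ℂ} (hp : ‖p.1‖ ≤ ‖p.2‖) :
    ‖p.2‖ ≤ ‖uch Xj p‖ ∧ ‖uch Xj p‖ ≤ (1 + ‖Xj‖) * ‖p.2‖ := by
  refine ⟨norm_snd_le (uch Xj p), ?_⟩
  rw [Prod.norm_def]
  refine max_le ?_ ?_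
  · refine (norm_add_le _ _).trans ?_
    rw [norm_mul]
    linarith
  · show ‖p.2‖ ≤ _
    have h1 := mul_nonneg (norm_nonneg Xj) (norm_nonneg p.2)
    linarith

theorem chart_glued {r : ℕ} {κ : Fin r → ℕ} {c c' : ℂ} {X X' β ω : Fin r → ℂ}
    {f g : ℂ × ℂ → ℂ} {φ ψ : ℂ × ℂ → ℂ × ℂ} (hM : IsMor κ c c' X X' β ω φ ψ)
    (hX : Function.Injective X) (j : Fin r) (hj : 2 ≤ κ j) (k : ℕ)
    (hch : ChartAt f g k (κ j - 1) (X j) (X' j) (β j * ω j) (ω j)) :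
    ∃ CK : ℝ, 1 ≤ CK ∧ ∀ ε > (0 : ℝ), ∃ A > (0 : ℝ), ∀ a0 : ℝ, 0 < a0 → a0 ≤ A →
      ∀ hR : ℂ × ℂ → ℂ × ℂ, ZR κ X f g φ (a0 / 4) hR →
      ∃ ρ1 > (0 : ℝ), ∃ h1 h2 : ℂ × ℂ → ℂ, ∀ p ∈ Ud a0 ρ1,
        ContDiffAt ℝ 1 h1 p ∧ ContDiffAt ℝ 1 h2 p ∧
        f (p.1 + X j * p.2, p.2) =
          Gn (fun p => g (p.1 + X' j * p.2, p.2)) (β j * ω j) (ω j) (h1 p, h2 p) ∧
        (∀ v w : ℂ, ‖fderiv ℝ h1 p (v, w) - v‖ ≤ 1 / 4 * ‖v‖ + ε * ‖w‖) ∧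
        (∀ v w : ℂ, ‖fderiv ℝ h2 p (v, w) - w‖ ≤ CK * ‖v‖ + ε * ‖w‖) ∧
        ‖h1 p - p.1‖ ≤ ε * ‖p.2‖ ∧ ‖h2 p - p.2‖ ≤ ε * ‖p.2‖ ∧
        (3 / 4 * a0 * ‖p.2‖ ≤ ‖p.1‖ →
          (h1 p, h2 p) = hat (X j) (X' j) (β j * ω j) (ω j) hR p) := by
  classical
  have hω := hM.hω j
  have hα : β j * ω j ≠ 0 := mul_ne_zero (hM.hβ j) hω
  obtain ⟨N, u, cc, m, b, γ, v, Γ, η, a, D, h⟩ := hch
  have hN := h.clu.hN
  have hcc : 1 ≤ cc := by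
    rcases Nat.eq_zero_or_pos cc with h0 | h0
    · subst h0
      have h1 := h.clu.hmn
      simp only [Finset.univ_eq_empty, Finset.sum_empty] at h1
      omega
    · exact h0
  obtain ⟨Y, X0, C1s, hC1s, hS⟩ := shep_exists h hcc
  obtain ⟨dm, km, ρ0, hMi⟩ := mins_exist h hcc
  have hρ0 := hMi.h0
  obtain ⟨C1, hC1, hglue⟩ := glued_sdat (f := f) (g := g) hM hX j h hcc hC1s hS
  obtain ⟨τ, hτ, CK0, hCK0, hsol⟩ := solve h hcc hMi C1 hC1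
  obtain ⟨Cφ, hCφ, δφ, hδφ, hφ⟩ := phi_chart hM j
  obtain ⟨Ch, hCh, hhat⟩ := hat_close (X j) (X' j) (β j * ω j) (ω j) hα hω
  obtain ⟨d, hd, hsep⟩ := Z5_sep hX j
  refine ⟨max CK0 1, le_max_right _ _, ?_⟩
  intro ε hε
  obtain ⟨δ, hδ, hsol⟩ := hsol ε hε
  obtain ⟨Ag, hAg, hglue⟩ := hglue δ hδ
  obtain ⟨A, hA, A1, A2, A3, A4, A5, A6⟩ : ∃ A > (0 : ℝ), A ≤ Ag ∧ A ≤ δ ∧ A ≤ 1 ∧
      A * Cφ ≤ τ / 8 ∧ A ≤ δφ ∧ 2 * A ≤ d := by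
    refine ⟨min (min (min Ag δ) (min 1 (τ / 8 / Cφ))) (min δφ (d / 2)), by positivity,
      ?_, ?_, ?_, ?_, ?_, ?_⟩
    · simp
    · simp
    · simp
    · have h1 : min (min (min Ag δ) (min 1 (τ / 8 / Cφ))) (min δφ (d / 2)) ≤ τ / 8 / Cφ :=
        ((min_le_left _ _).trans (min_le_right _ _)).trans (min_le_right _ _)
      rw [le_div_iff₀ (by positivity)] at h1
      exact h1
    · simp
    · have h1 : min (min (min Ag δ) (min 1 (τ / 8 / Cφ))) (min δφ (d / 2)) ≤ d / 2 :=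
        (min_le_right _ _).trans (min_le_right _ _)
      linarith
  refine ⟨A, hA, ?_⟩
  intro a0 ha0 ha0A hR hZR
  obtain ⟨ρg, hρg, Yg, hY1, hY2⟩ := hglue a0 ha0 (ha0A.trans A1) hR hZR
  -- small constants depending on `a0`
  obtain ⟨μ, hμ, hμ1, hμ2, hμ3, hμ4⟩ : ∃ μ > (0 : ℝ), μ ≤ 1 ∧ μ ≤ a0 / 4 ∧
      CK0 * μ ≤ a0 / 4 ∧ 5 * μ ≤ τ * a0 / 16 := by
    refine ⟨min (min 1 (a0 / 4)) (min (a0 / 4 / CK0) (τ * a0 / 80)), by positivity,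
      ?_, ?_, ?_, ?_⟩
    · simp
    · simp
    · have h1 : min (min 1 (a0 / 4)) (min (a0 / 4 / CK0) (τ * a0 / 80)) ≤ a0 / 4 / CK0 :=
        (min_le_right _ _).trans (min_le_left _ _)
      rw [le_div_iff₀ (by positivity)] at h1
      linarith
    · have h1 : min (min 1 (a0 / 4)) (min (a0 / 4 / CK0) (τ * a0 / 80)) ≤ τ * a0 / 80 :=
        (min_le_right _ _).trans (min_le_right _ _)
      linarith
  obtain ⟨ε1, hε1, hε1'⟩ : ∃ ε1 > (0 : ℝ), Ch * (ε1 * (1 + ‖X j‖)) ≤ τ * a0 / 16 := by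
    refine ⟨τ * a0 / 16 / (Ch * (1 + ‖X j‖)), by positivity, ?_⟩
    apply le_of_eq
    field_simp
  obtain ⟨ρZ, hρZ, hZ⟩ := hZR ε1 hε1
  obtain ⟨ρs, hρs, hSs⟩ := hS μ hμ
  obtain ⟨r0, hr0, hsm⟩ := G8_ev (P := fun t => ∀ C, ‖γ C t‖ ≤ μ * ‖t‖ ^ N ∧
      ‖Γ C t‖ ≤ μ * ‖t‖ ^ N ∧ ‖t‖ ^ (b C) ≤ μ * ‖t‖ ^ N) (by
    rw [eventually_all]
    intro C
    filter_upwards [(h.clu.gsm C).def hμ, (h.Γsm C).def hμ,
      G12_rpow (h.clu.hb C) hμ] with t h1 h2 h4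
    rw [norm_pow] at h1 h2
    exact ⟨h1, h2, h4⟩)
  obtain ⟨ρ1, hρ1, s1, s2, s3, s4, s5, s6⟩ : ∃ ρ1 > (0 : ℝ), ρ1 ≤ ρg ∧ ρ1 ≤ δ ∧ ρ1 ≤ ρ0 ∧
      ρ1 ≤ ρs ∧ ρ1 ≤ r0 ^ N ∧ (1 + ‖X j‖) * ρ1 ≤ ρZ := by
    refine ⟨min (min (min ρg δ) (min ρ0 ρs)) (min (r0 ^ N) (ρZ / (1 + ‖X j‖))), by positivity,
      ?_, ?_, ?_, ?_, ?_, ?_⟩
    · simp
    · simp
    · simp
    · simp
    · simp
    · have h1 : min (min (min ρg δ) (min ρ0 ρs)) (min (r0 ^ N) (ρZ / (1 + ‖X j‖))) ≤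
        ρZ / (1 + ‖X j‖) := (min_le_right _ _).trans (min_le_right _ _)
      rw [le_div_iff₀ (by positivity)] at h1
      linarith
  obtain ⟨h1, h2, hh⟩ := hsol a0 ρ1 Yg X0 (ha0A.trans A2) s2 (hY1 ρ1 hρ1 s1)
  refine ⟨ρ1, hρ1, h1, h2, ?_⟩
  intro p hp
  obtain ⟨e1, e2, e3, e4, e5, e6, e7, e8⟩ := hh p hp
  refine ⟨e1, e2, e3, e4, fun v w => (e5 v w).trans ?_, e6, e7, ?_⟩
  · have := mul_le_mul_of_nonneg_right (le_max_left CK0 1) (norm_nonneg v)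
    linarith
  intro hx
  obtain ⟨hp0, hpρ, hpa⟩ := hp
  have ha01 : a0 ≤ 1 := ha0A.trans A3
  have hpx : ‖p.1‖ ≤ ‖p.2‖ := by
    have := mul_le_mul_of_nonneg_right ha01 hp0.le
    linarith
  have hay : 0 < a0 * ‖p.2‖ := by positivity
  have hxpos : 0 < ‖p.1‖ := by linarith
  obtain ⟨t, ht⟩ := IsAlgClosed.exists_pow_nat_eq p.2 (n := N) (by omega)
  have htN : ‖t‖ ^ N = ‖p.2‖ := by rw [← norm_pow, ht]
  have ht0 : 0 < ‖t‖ := by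
    rw [norm_pos_iff]
    rintro rfl
    rw [norm_zero, zero_pow (by omega)] at htN
    linarith
  have htr : ‖t‖ < r0 := by
    refine lt_of_pow_lt_pow_left₀ N hr0.le ?_
    rw [htN]
    linarith
  have hpt : (p.1, t ^ N) = p := by rw [ht]
  have hU1 : (p.1, t ^ N) ∈ Ud 1 ρ0 := by
    rw [hpt]
    refine ⟨hp0, by linarith, ?_⟩
    have := mul_le_mul_of_nonneg_right ha01 hp0.le
    linarith
  have hU2 : (p.1, t ^ N) ∈ Ud 1 ρs := by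
    rw [hpt]
    refine ⟨hp0, by linarith, ?_⟩
    have := mul_le_mul_of_nonneg_right ha01 hp0.le
    linarith
  have hsm' := hsm t ht0 htr
  rw [htN] at hsm'
  have hμy := mul_le_mul_of_nonneg_right hμ2 hp0.le
  have hgap : ∀ C, ‖p.1‖ / 2 ≤ ‖p.1 - γ C t‖ := by
    intro C
    have h3 := norm_sub_norm_le p.1 (γ C t)
    have h4 := (hsm' C).1
    linarith
  have hkm : CK0 ≤ km p := by
    obtain ⟨C, hC⟩ := hMi.k2 p.1 t hU1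
    rw [hpt] at hC
    have h3 : 0 < ‖t‖ ^ (b C) := Real.rpow_pos_of_pos ht0 _
    have h4 : CK0 * ‖t‖ ^ (b C) ≤ km p * ‖t‖ ^ (b C) := by
      rw [hC]
      have h5 := mul_le_mul_of_nonneg_left (hsm' C).2.2 hCK0.le
      have h6 := mul_le_mul_of_nonneg_right hμ3 hp0.le
      have h7 := hgap C
      linarith
    exact le_of_mul_le_mul_right h4 h3
  have hdm : ‖p.1‖ / 2 ≤ dm p := by
    obtain ⟨C, hC⟩ := hMi.d2 p.1 t hU1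
    rw [hpt] at hC
    rw [hC]
    exact hgap C
  obtain ⟨f1, f2⟩ := e8 hkm
  have hYR := hY2 p ⟨hp0, by linarith, hpa⟩ hx
  -- the point `Rh p`
  obtain ⟨u1, u2⟩ := Z5_uch (X j) hpx
  obtain ⟨z1, z2, _, _⟩ := hZ (uch (X j) p) (by linarith) (by
      have h3 : (1 + ‖X j‖) * ‖p.2‖ < (1 + ‖X j‖) * ρ1 :=
        mul_lt_mul_of_pos_left hpρ (by positivity)
      linarith)
    (fun i _ => Z5_cond hsep ha0 (by linarith) hp0 hpa hx i)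
  have hz : (hat (X j) (X' j) (β j * ω j) (ω j) hR p).1 = h1 p := by
    refine f2 _ ?_ ?_
    · have q1 := (hhat hR φ p).1
      have q2 : ‖(hat (X j) (X' j) (β j * ω j) (ω j) hR p).1 -
          (hat (X j) (X' j) (β j * ω j) (ω j) φ p).1‖ ≤ τ * a0 / 16 * ‖p.2‖ := by
        refine (norm_fst_le (hat (X j) (X' j) (β j * ω j) (ω j) hR p -
          hat (X j) (X' j) (β j * ω j) (ω j) φ p)).trans (q1.trans ?_)
        calc Ch * ‖hR (uch (X j) p) - φ (uch (X j) p)‖ ≤ Ch * (ε1 * ((1 + ‖X j‖) * ‖p.2‖)) :=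
              mul_le_mul_of_nonneg_left (z2.trans (mul_le_mul_of_nonneg_left u2 hε1.le))
                (by linarith)
          _ = Ch * (ε1 * (1 + ‖X j‖)) * ‖p.2‖ := by ring
          _ ≤ τ * a0 / 16 * ‖p.2‖ := mul_le_mul_of_nonneg_right hε1' hp0.le
      have q3 : ‖(hat (X j) (X' j) (β j * ω j) (ω j) φ p).1 - p.1‖ ≤ τ / 8 * ‖p.1‖ := by
        have q4 := (hφ p hp0 (hpa.trans_le
          (mul_le_mul_of_nonneg_right (ha0A.trans A5) hp0.le))).1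
        refine le_of_mul_le_mul_right (q4.trans ?_) hp0
        calc Cφ * ‖p.1‖ ^ 2 = Cφ * ‖p.1‖ * ‖p.1‖ := by ring
          _ ≤ Cφ * ‖p.1‖ * (a0 * ‖p.2‖) :=
            mul_le_mul_of_nonneg_left hpa.le (by positivity)
          _ = a0 * Cφ * (‖p.1‖ * ‖p.2‖) := by ring
          _ ≤ τ / 8 * (‖p.1‖ * ‖p.2‖) := by
            refine mul_le_mul_of_nonneg_right ?_ (by positivity)
            exact (mul_le_mul_of_nonneg_right ha0A (by linarith)).trans A4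
          _ = τ / 8 * ‖p.1‖ * ‖p.2‖ := by ring
      have q5 : ‖p.1 - X0 p‖ ≤ τ * a0 / 16 * ‖p.2‖ := by
        have q6 := hSs.S2 p.1 t hU2 ⟨0, hcc⟩
        rw [hpt] at q6
        obtain ⟨g1, g2, g3⟩ := hsm' ⟨0, hcc⟩
        have q7 : p.1 - X0 p = -(X0 p - Γ ⟨0, hcc⟩ t - (p.1 - γ ⟨0, hcc⟩ t)) +
          γ ⟨0, hcc⟩ t + -(Γ ⟨0, hcc⟩ t) := by ring
        rw [q7]
        refine norm_add₃_le.trans ?_
        rw [norm_neg, norm_neg]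
        have q8 : ‖p.1 - γ ⟨0, hcc⟩ t‖ ≤ 2 * ‖p.2‖ := by
          refine (norm_sub_le _ _).trans ?_
          have := mul_le_mul_of_nonneg_right hμ1 hp0.le
          linarith
        have q9 : ‖t‖ ^ (b ⟨0, hcc⟩) ≤ ‖p.2‖ := by
          have := mul_le_mul_of_nonneg_right hμ1 hp0.le
          linarith
        have q10 : μ * (‖t‖ ^ (b ⟨0, hcc⟩) + ‖p.1 - γ ⟨0, hcc⟩ t‖) ≤ μ * (3 * ‖p.2‖) :=
          mul_le_mul_of_nonneg_left (by linarith) hμ.le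
        have q11 := mul_le_mul_of_nonneg_right hμ4 hp0.le
        linarith
      have q12 : (hat (X j) (X' j) (β j * ω j) (ω j) hR p).1 - X0 p =
          ((hat (X j) (X' j) (β j * ω j) (ω j) hR p).1 -
            (hat (X j) (X' j) (β j * ω j) (ω j) φ p).1) +
          ((hat (X j) (X' j) (β j * ω j) (ω j) φ p).1 - p.1) + (p.1 - X0 p) := by ring
      rw [q12]
      refine lt_of_le_of_lt norm_add₃_le ?_
      have q13 : τ * (‖p.1‖ / 2) ≤ τ * dm p := mul_le_mul_of_nonneg_left hdm hτ.le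
      have q14 : τ * (3 / 4 * a0 * ‖p.2‖) ≤ τ * ‖p.1‖ := mul_le_mul_of_nonneg_left hx hτ.le
      have q15 : 0 < τ * ‖p.1‖ := by positivity
      linarith
    · have q1 : ((hat (X j) (X' j) (β j * ω j) (ω j) hR p).1, Yg p) =
        hat (X j) (X' j) (β j * ω j) (ω j) hR p := by rw [hYR]
      rw [q1, Z5_Gn hα hω, ← z1]
      rfl
  rw [← hz, f1, hYR]

end H24.LS
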