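import Pool.Agent.H24.LS.Z0
import Pool.Agent.H24.LS.Z2
import Pool.Agent.H24.LS.Z3
import Pool.Agent.H24.LS.Z5

/-!
# Z6: the global map

Choose for every multiple line `j` the constant `CK_j` of `chart_glued`, `CK = max` (and `≥ 1`, `≥` the constant `Ch` below).
Given `ε`: let `ε1 = ε/C` with `C` depending on the charts; `A` = minimum of the `A_j` (for `ε1`), of `1`, of a third of the minimal
`‖X_i - X_j‖` (`i ≠ j`), and such that `A C ≤ ε/2`.  Given `a0`: `hR` from `zoneR` with `a' = a0/4`; `h^j = (h1, h2)` from `chart_glued`.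
Define `H p` as follows: if there is a multiple `j` with `‖p.1 - X_j p.2‖ < a0 ‖p.2‖` (then it is unique: two such lines would give
`‖X_i - X_j‖‖p.2‖ < 2 a0 ‖p.2‖`), then with `q = h^j (p.1 - X_j p.2, p.2)`,
`H p = (β_j ω_j q.1 + X'_j ω_j q.2, ω_j q.2)`; otherwise `H p = hR p`.  Put `H 0 = 0`.
* In the open cone `j`: `hat (X j) (X' j) (β j * ω j) (ω j) H = h^j` on `Ud a0 ρ`; `H` is `C^1` there; `f = g ∘ H`.
* On `W = {p ≠ 0 | (3/4) a0 ‖p.2‖ ≤ ‖p.1 - X_j p.2‖ for all multiple j}`: `H = hR` (in the cone `j` by the last item of `chart_glued`: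
  `hat .. H p' = hat .. hR p'` implies `H = hR` at `uch p'`).  For a point of `W` that is not in an open cone we need `H = hR` in a
  NEIGHBOURHOOD: points near `p` satisfy `‖..‖ > (3/4) a0 ‖..‖` for all multiple `j` (if `p.2 ≠ 0` because
  `‖p.1 - X_j p.2‖ ≥ a0‖p.2‖ > (3/4) a0‖p.2‖`; if `p.2 = 0` because `‖p.1‖ > 0`), so they are in `W`.  So `H` is `C^1` at every small
  `p ≠ 0`.
* (G2): for `p ∈ W`: in a neighbourhood of `p` (if the inequality is strict for all `j`) `H = hR`, so the derivative bound is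
  that of `ZR`; on the boundary of `W` by continuity of the derivatives (`ContDiffAt ℝ 1` gives continuity of `fderiv ℝ H`
  and `fderiv ℝ φ` at `p`; approximate `p = (x,y)` by points `(x^ + X_j y, y)`, `x^ = (1+s) (p.1 - X_j p.2)`); to avoid this the
  statement below uses the STRICT inequality `3/4 a0 ‖p.2‖ < ...`.
* closeness: in `W`: `ZR`; in the cone `j`: `‖h^j - p'‖ ≤ ε1‖p.2‖`, `‖φh - p'‖ ≤ Cφ a0 ‖p.2‖` (`phi_chart`) and
  `‖H - φ‖ ≤ C ‖h^j - φh‖` (linear).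
-/

open Filter Topology Metric Asymptotics

namespace H24.LS

theorem Z6_min {ι : Type*} [Finite ι] (P : ι → Prop) (a : ι → ℝ) (ha : ∀ i, P i → 0 < a i) :
    ∃ A > (0 : ℝ), ∀ i, P i → A ≤ a i := by
  have h : ∀ᶠ x in 𝓝[>] (0 : ℝ), ∀ i, P i → x ≤ a i := by
    rw [eventually_all]
    intro i
    by_cases hi : P i
    · filter_upwards [nhdsWithin_le_nhds (Iio_mem_nhds (ha i hi))] with x hx _ using le_of_lt hx
    · exact Eventually.of_forall fun x h => absurd h hi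
  obtain ⟨A, hA, hA'⟩ := (h.and self_mem_nhdsWithin).exists
  exact ⟨A, hA', hA⟩

theorem Z6_line {r : ℕ} {κ : Fin r → ℕ} {c c' : ℂ} {X X' β ω : Fin r → ℂ}
    {f g : ℂ × ℂ → ℂ} {φ ψ : ℂ × ℂ → ℂ × ℂ} (hM : IsMor κ c c' X X' β ω φ ψ)
    (hX : Function.Injective X) (j : Fin r) (hj : 2 ≤ κ j) (k : ℕ)
    (hch : ChartAt f g k (κ j - 1) (X j) (X' j) (β j * ω j) (ω j)) :
    ∃ CK : ℝ, 1 ≤ CK ∧ ∀ ε > (0 : ℝ), ∃ A > (0 : ℝ), ∀ a0 : ℝ, 0 < a0 → a0 ≤ A →
      ∀ hR : ℂ × ℂ → ℂ × ℂ, ZR κ X f g φ (a0 / 4) hR →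
      ∃ ρ1 > (0 : ℝ), ∃ Hj : ℂ × ℂ → ℂ × ℂ,
        (∀ p : ℂ × ℂ, 0 < ‖p.2‖ → ‖p.2‖ < ρ1 → ‖p.1 - X j * p.2‖ < a0 * ‖p.2‖ →
          ContDiffAt ℝ 1 Hj p ∧ f p = g (Hj p) ∧ ‖Hj p - φ p‖ ≤ ε * ‖p‖ ∧
          (3 / 4 * a0 * ‖p.2‖ ≤ ‖p.1 - X j * p.2‖ → Hj p = hR p)) ∧
        ∀ p ∈ Ud a0 ρ1,
          DifferentiableAt ℝ (hat (X j) (X' j) (β j * ω j) (ω j) Hj) p ∧
          ∀ v w : ℂ,
            ‖(fderiv ℝ (hat (X j) (X' j) (β j * ω j) (ω j) Hj) p (v, w)).1 - v‖ ≤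
              1 / 4 * ‖v‖ + ε * ‖w‖ ∧
            ‖(fderiv ℝ (hat (X j) (X' j) (β j * ω j) (ω j) Hj) p (v, w)).2 - w‖ ≤
              CK * ‖v‖ + ε * ‖w‖ := by
  obtain ⟨CK, hCK, hglue⟩ := chart_glued hM hX j hj k hch
  obtain ⟨Cφ, hCφ, δφ, hδφ, hphi⟩ := phi_chart hM j
  have hω := hM.hω j
  have hα : β j * ω j ≠ 0 := mul_ne_zero (hM.hβ j) hω
  set α : ℂ := β j * ω j with hαdef
  refine ⟨CK, hCK, fun ε hε => ?_⟩
  set C : ℝ := ‖α‖ + ‖X' j‖ * ‖ω j‖ + ‖ω j‖ with hC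
  have hα0 : 0 < ‖α‖ := norm_pos_iff.2 hα
  have hC0 : 0 < C := by positivity
  have hCφ0 : 0 < Cφ := by linarith
  obtain ⟨A1, hA1, hgl⟩ := hglue (min ε (ε / (2 * C))) (lt_min hε (by positivity))
  refine ⟨min (min A1 1) (min δφ (ε / (2 * C * Cφ))),
    lt_min (lt_min hA1 one_pos) (lt_min hδφ (by positivity)), ?_⟩
  intro a0 ha0 haA hR hZR
  have haA1 : a0 ≤ A1 := haA.trans ((min_le_left _ _).trans (min_le_left _ _))
  have ha1 : a0 ≤ 1 := haA.trans ((min_le_left _ _).trans (min_le_right _ _))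
  have haδ : a0 ≤ δφ := haA.trans ((min_le_right _ _).trans (min_le_left _ _))
  have haε : a0 ≤ ε / (2 * C * Cφ) := haA.trans ((min_le_right _ _).trans (min_le_right _ _))
  obtain ⟨ρ1, hρ1, h1, h2, hh⟩ := hgl a0 ha0 haA1 hR hZR
  set ε1 : ℝ := min ε (ε / (2 * C)) with hε1
  have hε1ε : ε1 ≤ ε := min_le_left _ _
  have hε1C : ε1 ≤ ε / (2 * C) := min_le_right _ _
  set Hj : ℂ × ℂ → ℂ × ℂ := fun p =>
    (α * h1 (p.1 - X j * p.2, p.2) + X' j * (ω j * h2 (p.1 - X j * p.2, p.2)),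
      ω j * h2 (p.1 - X j * p.2, p.2)) with hHj
  have hhat : hat (X j) (X' j) α (ω j) Hj = fun p => (h1 p, h2 p) := by
    funext p
    have e : ((uch (X j) p).1 - X j * (uch (X j) p).2, (uch (X j) p).2) = p := by
      unfold uch
      ext
      · simp
      · simp
    simp only [hat, hHj, e]
    ext
    · simp only
      rw [add_sub_cancel_right, mul_div_cancel_left₀ _ hα]
    · simp only
      rw [mul_div_cancel_left₀ _ hω]
  refine ⟨ρ1, hρ1, Hj, ?_, ?_⟩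
  · intro p hp0 hpρ hpa
    have hp' : (p.1 - X j * p.2, p.2) ∈ Ud a0 ρ1 := ⟨hp0, hpρ, hpa⟩
    obtain ⟨c1, c2, hfg, -, -, hb1, hb2, hbd⟩ := hh _ hp'
    have huch : uch (X j) (p.1 - X j * p.2, p.2) = p := by
      unfold uch
      ext
      · simp
      · simp
    refine ⟨?_, ?_, ?_, ?_⟩
    · have hin : ContDiffAt ℝ 1 (fun p : ℂ × ℂ => (p.1 - X j * p.2, p.2)) p := by fun_prop
      have d1 : ContDiffAt ℝ 1 (fun p : ℂ × ℂ => h1 (p.1 - X j * p.2, p.2)) p :=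
        ContDiffAt.comp (g := h1) p c1 hin
      have d2 : ContDiffAt ℝ 1 (fun p : ℂ × ℂ => h2 (p.1 - X j * p.2, p.2)) p :=
        ContDiffAt.comp (g := h2) p c2 hin
      exact ((contDiffAt_const.mul d1).add (contDiffAt_const.mul (contDiffAt_const.mul d2))).prodMk
        (contDiffAt_const.mul d2)
    · have e : (p.1 - X j * p.2 + X j * p.2, p.2) = p := by
        ext
        · simp
        · simp
      simp only [Gn] at hfg
      rw [e] at hfg
      rw [hfg]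
    · obtain ⟨q1b, q2b, -, -⟩ := hphi (p.1 - X j * p.2, p.2) hp0 (hpa.trans_le
        (mul_le_mul_of_nonneg_right haδ hp0.le))
      simp only at q1b q2b hb1 hb2
      set q := hat (X j) (X' j) α (ω j) φ (p.1 - X j * p.2, p.2) with hq
      have e2 : (φ p).2 = ω j * q.2 := by
        rw [hq]
        simp only [hat, huch]
        rw [mul_div_cancel₀ _ hω]
      have e1 : (φ p).1 = α * q.1 + X' j * (ω j * q.2) := by
        rw [← e2, hq]
        simp only [hat, huch]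
        rw [mul_div_cancel₀ _ hα]
        ring
      have hx2 : ‖p.1 - X j * p.2‖ ^ 2 ≤ (a0 * ‖p.2‖) * (a0 * ‖p.2‖) := by
        rw [sq]
        exact mul_le_mul hpa.le hpa.le (norm_nonneg _) (by positivity)
      have hq1 : ‖q.1 - (p.1 - X j * p.2)‖ ≤ Cφ * a0 * ‖p.2‖ := by
        have h3 : ‖q.1 - (p.1 - X j * p.2)‖ * ‖p.2‖ ≤ Cφ * a0 * ‖p.2‖ * ‖p.2‖ := by
          have h4 : Cφ * ((a0 * ‖p.2‖) * (a0 * ‖p.2‖)) ≤ Cφ * a0 * ‖p.2‖ * ‖p.2‖ := by
            have h5 : a0 * (Cφ * a0 * ‖p.2‖ * ‖p.2‖) ≤ 1 * (Cφ * a0 * ‖p.2‖ * ‖p.2‖) :=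
              mul_le_mul_of_nonneg_right ha1 (by positivity)
            linarith
          have h5 := mul_le_mul_of_nonneg_left hx2 hCφ0.le
          linarith
        exact le_of_mul_le_mul_right h3 hp0
      have hq2 : ‖q.2 - p.2‖ ≤ Cφ * a0 * ‖p.2‖ := by
        have h5 := mul_le_mul_of_nonneg_left hpa.le hCφ0.le
        linarith
      set E : ℝ := (ε1 + Cφ * a0) * ‖p.2‖ with hE
      have hd1 : ‖h1 (p.1 - X j * p.2, p.2) - q.1‖ ≤ E := by
        have h3 : h1 (p.1 - X j * p.2, p.2) - q.1 =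
            (h1 (p.1 - X j * p.2, p.2) - (p.1 - X j * p.2)) - (q.1 - (p.1 - X j * p.2)) := by ring
        rw [h3]
        have h4 := norm_sub_le (h1 (p.1 - X j * p.2, p.2) - (p.1 - X j * p.2))
          (q.1 - (p.1 - X j * p.2))
        linarith
      have hd2 : ‖h2 (p.1 - X j * p.2, p.2) - q.2‖ ≤ E := by
        have h3 : h2 (p.1 - X j * p.2, p.2) - q.2 =
            (h2 (p.1 - X j * p.2, p.2) - p.2) - (q.2 - p.2) := by ring
        rw [h3]
        have h4 := norm_sub_le (h2 (p.1 - X j * p.2, p.2) - p.2) (q.2 - p.2)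
        linarith
      have hE0 : 0 ≤ E := (norm_nonneg _).trans hd1
      have hCE : C * E ≤ ε * ‖p‖ := by
        have h3 : C * (ε1 + Cφ * a0) ≤ ε := by
          rw [le_div_iff₀ (by positivity)] at hε1C haε
          linarith
        have h4 : C * E = C * (ε1 + Cφ * a0) * ‖p.2‖ := by rw [hE]; ring
        rw [h4]
        exact mul_le_mul h3 (norm_snd_le p) (norm_nonneg _) hε.le
      refine le_trans ?_ hCE
      rw [Prod.norm_def]
      apply max_le
      · rw [Prod.fst_sub, e1]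
        have h3 : (Hj p).1 - (α * q.1 + X' j * (ω j * q.2)) =
            α * (h1 (p.1 - X j * p.2, p.2) - q.1) +
              X' j * (ω j * (h2 (p.1 - X j * p.2, p.2) - q.2)) := by
          simp only [hHj]
          ring
        rw [h3]
        refine (norm_add_le _ _).trans ?_
        rw [norm_mul α, norm_mul (X' j), norm_mul (ω j)]
        have h4 := mul_le_mul_of_nonneg_left hd1 (norm_nonneg α)
        have h5 := mul_le_mul_of_nonneg_left (mul_le_mul_of_nonneg_left hd2 (norm_nonneg (ω j)))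
          (norm_nonneg (X' j))
        have h6 : 0 ≤ ‖ω j‖ * E := by positivity
        have h7 : C * E = ‖α‖ * E + ‖X' j‖ * (‖ω j‖ * E) + ‖ω j‖ * E := by rw [hC]; ring
        linarith
      · rw [Prod.snd_sub, e2]
        have h3 : (Hj p).2 - ω j * q.2 = ω j * (h2 (p.1 - X j * p.2, p.2) - q.2) := by
          simp only [hHj]
          ring
        rw [h3, norm_mul]
        have h4 := mul_le_mul_of_nonneg_left hd2 (norm_nonneg (ω j))
        have h6 : 0 ≤ ‖α‖ * E + ‖X' j‖ * (‖ω j‖ * E) := by positivity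
        have h7 : C * E = ‖α‖ * E + ‖X' j‖ * (‖ω j‖ * E) + ‖ω j‖ * E := by rw [hC]; ring
        linarith
    · intro hpb
      have h3 := hbd hpb
      have e1 : h1 (p.1 - X j * p.2, p.2) = ((hR p).1 - X' j * (hR p).2) / α := by
        have := congrArg Prod.fst h3
        simpa only [hat, huch] using this
      have e2 : h2 (p.1 - X j * p.2, p.2) = (hR p).2 / ω j := by
        have := congrArg Prod.snd h3
        simpa only [hat, huch] using this
      simp only [hHj, e1, e2]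
      ext
      · simp only
        rw [mul_div_cancel₀ _ hα, mul_div_cancel₀ _ hω]
        ring
      · simp only
        rw [mul_div_cancel₀ _ hω]
  · intro p hp
    obtain ⟨c1, c2, -, hD1, hD2, -⟩ := hh _ hp
    have k1 := (c1.differentiableAt one_ne_zero).hasFDerivAt
    have k2 := (c2.differentiableAt one_ne_zero).hasFDerivAt
    have k3 : HasFDerivAt (hat (X j) (X' j) α (ω j) Hj) ((fderiv ℝ h1 p).prod (fderiv ℝ h2 p)) p := by
      rw [hhat]
      exact k1.prodMk k2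
    refine ⟨k3.differentiableAt, fun v w => ?_⟩
    rw [k3.fderiv]
    have hw := mul_le_mul_of_nonneg_right hε1ε (norm_nonneg w)
    constructor
    · have := hD1 v w
      simp only [ContinuousLinearMap.prod_apply]
      linarith
    · have := hD2 v w
      simp only [ContinuousLinearMap.prod_apply]
      linarith

theorem global_map {r : ℕ} {κ : Fin r → ℕ} {c c' : ℂ} {X X' β ω : Fin r → ℂ}
    {f g : ℂ × ℂ → ℂ} (hf : NForm κ c X f) (hg : NForm κ c' X' g) (hk : 3 ≤ ∑ j, κ j)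
    {φ ψ : ℂ × ℂ → ℂ × ℂ} (hM : IsMor κ c c' X X' β ω φ ψ)
    (hch : ∀ j, 2 ≤ κ j →
      ChartAt f g (∑ i, κ i) (κ j - 1) (X j) (X' j) (β j * ω j) (ω j)) :
    ∃ CK : ℝ, 1 ≤ CK ∧ ∀ ε > (0 : ℝ), ∃ A > (0 : ℝ), ∀ a0 : ℝ, 0 < a0 → a0 ≤ A →
      ∃ ρ > (0 : ℝ), ∃ H : ℂ × ℂ → ℂ × ℂ, H 0 = 0 ∧
        (∀ p : ℂ × ℂ, 0 < ‖p‖ → ‖p‖ < ρ →
          ContDiffAt ℝ 1 H p ∧ f p = g (H p) ∧ ‖H p - φ p‖ ≤ ε * ‖p‖ ∧
          ((∀ j, 2 ≤ κ j → 3 / 4 * a0 * ‖p.2‖ < ‖p.1 - X j * p.2‖) →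
            ∀ w : ℂ × ℂ, ‖fderiv ℝ H p w - fderiv ℝ φ p w‖ ≤ ε * ‖w‖)) ∧
        ∀ j, 2 ≤ κ j → ∀ p ∈ Ud a0 ρ,
          DifferentiableAt ℝ (hat (X j) (X' j) (β j * ω j) (ω j) H) p ∧
          ∀ v w : ℂ,
            ‖(fderiv ℝ (hat (X j) (X' j) (β j * ω j) (ω j) H) p (v, w)).1 - v‖ ≤
              1 / 4 * ‖v‖ + ε * ‖w‖ ∧
            ‖(fderiv ℝ (hat (X j) (X' j) (β j * ω j) (ω j) H) p (v, w)).2 - w‖ ≤
              CK * ‖v‖ + ε * ‖w‖ := by
  classical
  have key := fun (j : Fin r) (hj : 2 ≤ κ j) => Z6_line hM hf.hX j hj (∑ i, κ i) (hch j hj)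
  choose! CKf hCKf hline using key
  refine ⟨1 + ∑ j, |CKf j|, by
    have : 0 ≤ ∑ j, |CKf j| := Finset.sum_nonneg fun j _ => abs_nonneg _
    linarith, fun ε hε => ?_⟩
  have hline' := fun (j : Fin r) (hj : 2 ≤ κ j) => hline j hj ε hε
  choose! Af hAf hl using hline'
  obtain ⟨A1, hA1, hA1'⟩ := Z6_min (fun j : Fin r => 2 ≤ κ j) Af hAf
  obtain ⟨A2, hA2, hA2'⟩ := Z6_min (fun ij : Fin r × Fin r => ij.1 ≠ ij.2)
    (fun ij => ‖X ij.1 - X ij.2‖ / 2) (fun ij h => by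
      have : 0 < ‖X ij.1 - X ij.2‖ := norm_pos_iff.2 (sub_ne_zero.2 fun h' => h (hf.hX h'))
      positivity)
  refine ⟨min A1 A2, lt_min hA1 hA2, fun a0 ha0 haA => ?_⟩
  have haA1 : a0 ≤ A1 := haA.trans (min_le_left _ _)
  have haA2 : a0 ≤ A2 := haA.trans (min_le_right _ _)
  obtain ⟨hR, hZR⟩ := zoneR hf hg hk hM (a0 / 4) (by positivity)
  have hl' := fun (j : Fin r) (hj : 2 ≤ κ j) =>
    hl j hj a0 ha0 (haA1.trans (hA1' j hj)) hR hZR
  choose! ρf hρf Hf hHf hHf' using hl'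
  obtain ⟨ρ2, hρ2, hρ2'⟩ := Z6_min (fun j : Fin r => 2 ≤ κ j) ρf hρf
  obtain ⟨ρ3, hρ3, hρ3'⟩ := hZR ε hε
  -- the cones
  set cone : Fin r → Set (ℂ × ℂ) := fun j => {p | 0 < ‖p.2‖ ∧ ‖p.1 - X j * p.2‖ < a0 * ‖p.2‖}
    with hcone
  have hcopen : ∀ j, IsOpen (cone j) := by
    intro j
    have h1 : IsOpen {p : ℂ × ℂ | 0 < ‖p.2‖} :=
      isOpen_lt continuous_const (continuous_norm.comp continuous_snd)
    have h2 : IsOpen {p : ℂ × ℂ | ‖p.1 - X j * p.2‖ < a0 * ‖p.2‖} :=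
      isOpen_lt (continuous_norm.comp (continuous_fst.sub (continuous_const.mul continuous_snd)))
        (continuous_const.mul (continuous_norm.comp continuous_snd))
    exact h1.inter h2
  have huniq : ∀ i j p, p ∈ cone i → p ∈ cone j → i = j := by
    intro i j p hi hj
    by_contra hij
    have h1 := hA2' (i, j) hij
    simp only at h1
    have h2 : (X i - X j) * p.2 = (p.1 - X j * p.2) - (p.1 - X i * p.2) := by ring
    have h3 : ‖X i - X j‖ * ‖p.2‖ < 2 * a0 * ‖p.2‖ := by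
      rw [← norm_mul, h2]
      have h4 := norm_sub_le (p.1 - X j * p.2) (p.1 - X i * p.2)
      linarith [hi.2, hj.2]
    have h4 := lt_of_mul_lt_mul_right h3 hi.1.le
    linarith
  set H : ℂ × ℂ → ℂ × ℂ := fun p =>
    if h : ∃ j, 2 ≤ κ j ∧ p ∈ cone j then Hf h.choose p else if p = 0 then 0 else hR p with hH
  have hHcone : ∀ j, 2 ≤ κ j → ∀ p ∈ cone j, H p = Hf j p := by
    intro j hj p hp
    have h : ∃ j, 2 ≤ κ j ∧ p ∈ cone j := ⟨j, hj, hp⟩
    have e : h.choose = j := huniq _ _ p h.choose_spec.2 hp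
    simp only [hH]
    rw [dif_pos h, e]
  have h0cone : ∀ j, (0 : ℂ × ℂ) ∉ cone j := by
    intro j h
    have := h.1
    simp at this
  have hH0 : H 0 = 0 := by
    have h : ¬ ∃ j, 2 ≤ κ j ∧ (0 : ℂ × ℂ) ∈ cone j := by
      rintro ⟨j, -, h⟩
      exact h0cone j h
    change (if h : ∃ j, 2 ≤ κ j ∧ (0 : ℂ × ℂ) ∈ cone j then Hf h.choose 0
      else if (0 : ℂ × ℂ) = 0 then 0 else hR 0) = 0
    rw [dif_neg h, if_pos rfl]
  set ρ : ℝ := min ρ2 ρ3 with hρ
  have hρ0 : 0 < ρ := lt_min hρ2 hρ3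
  -- the set where `H = hR`
  set W : Set (ℂ × ℂ) := {p | (0 < ‖p‖ ∧ ‖p‖ < ρ) ∧
    ∀ j, 2 ≤ κ j → 3 / 4 * a0 * ‖p.2‖ < ‖p.1 - X j * p.2‖} with hW
  have hWopen : IsOpen W := by
    have h1 : IsOpen {p : ℂ × ℂ | 0 < ‖p‖ ∧ ‖p‖ < ρ} :=
      (isOpen_lt continuous_const continuous_norm).inter
        (isOpen_lt continuous_norm continuous_const)
    have h2 : IsOpen {p : ℂ × ℂ | ∀ j, 2 ≤ κ j → 3 / 4 * a0 * ‖p.2‖ < ‖p.1 - X j * p.2‖} := by
      have e : {p : ℂ × ℂ | ∀ j, 2 ≤ κ j → 3 / 4 * a0 * ‖p.2‖ < ‖p.1 - X j * p.2‖} =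
          ⋂ j, {p : ℂ × ℂ | 2 ≤ κ j → 3 / 4 * a0 * ‖p.2‖ < ‖p.1 - X j * p.2‖} := by
        ext p
        simp
      rw [e]
      apply isOpen_iInter_of_finite
      intro j
      by_cases hj : 2 ≤ κ j
      · have e' : {p : ℂ × ℂ | 2 ≤ κ j → 3 / 4 * a0 * ‖p.2‖ < ‖p.1 - X j * p.2‖} =
            {p : ℂ × ℂ | 3 / 4 * a0 * ‖p.2‖ < ‖p.1 - X j * p.2‖} := by
          ext p
          simp [hj]
        rw [e']
        exact isOpen_lt (continuous_const.mul (continuous_norm.comp continuous_snd))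
          (continuous_norm.comp (continuous_fst.sub (continuous_const.mul continuous_snd)))
      · have e' : {p : ℂ × ℂ | 2 ≤ κ j → 3 / 4 * a0 * ‖p.2‖ < ‖p.1 - X j * p.2‖} =
            Set.univ := by
          ext p
          simp [hj]
        rw [e']
        exact isOpen_univ
    exact h1.inter h2
  have hsm : ∀ j, 2 ≤ κ j → ∀ p : ℂ × ℂ, ‖p‖ < ρ → ‖p.2‖ < ρf j := by
    intro j hj p hp
    exact (norm_snd_le p).trans_lt (hp.trans_le ((min_le_left _ _).trans (hρ2' j hj)))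
  have hHW : ∀ p ∈ W, H p = hR p := by
    intro p hp
    by_cases h : ∃ j, 2 ≤ κ j ∧ p ∈ cone j
    · obtain ⟨j, hj, hpj⟩ := h
      rw [hHcone j hj p hpj]
      exact (hHf j hj p hpj.1 (hsm j hj p hp.1.2) hpj.2).2.2.2 (hp.2 j hj).le
    · simp only [hH]
      rw [dif_neg h, if_neg (norm_pos_iff.1 hp.1.1)]
  refine ⟨ρ, hρ0, H, hH0, ?_, ?_⟩
  · intro p hp0 hpρ
    by_cases hpW : ∀ j, 2 ≤ κ j → 3 / 4 * a0 * ‖p.2‖ < ‖p.1 - X j * p.2‖
    · have hpW' : p ∈ W := ⟨⟨hp0, hpρ⟩, hpW⟩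
      have hev : H =ᶠ[𝓝 p] hR := by
        filter_upwards [hWopen.mem_nhds hpW'] with q hq using hHW q hq
      obtain ⟨z1, z2, z3, z4⟩ := hρ3' p hp0 (hpρ.trans_le (min_le_right _ _)) (fun j hj => by
        have h1 := hpW j hj
        have h2 : 0 ≤ a0 * ‖p.2‖ := by positivity
        linarith)
      refine ⟨z3.congr_of_eventuallyEq hev, ?_, ?_, fun _ w => ?_⟩
      · rw [hHW p hpW']; exact z1
      · rw [hHW p hpW']; exact z2
      · rw [hev.fderiv_eq]; exact z4 w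
    · have hpW2 := hpW
      push Not at hpW2
      obtain ⟨j, hj, hpj⟩ := hpW2
      have hp2 : 0 < ‖p.2‖ := by
        by_contra h
        have h1 : p.2 = 0 := norm_le_zero_iff.1 (not_lt.1 h)
        rw [h1, norm_zero, mul_zero, mul_zero, sub_zero] at hpj
        have h2 : p.1 = 0 := norm_le_zero_iff.1 hpj
        have h3 : p = 0 := Prod.ext h2 h1
        rw [h3, norm_zero] at hp0
        exact lt_irrefl _ hp0
      have hpc : p ∈ cone j := by
        refine ⟨hp2, ?_⟩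
        have : 0 < a0 * ‖p.2‖ := by positivity
        linarith
      have hev : H =ᶠ[𝓝 p] Hf j := by
        filter_upwards [(hcopen j).mem_nhds hpc] with q hq using hHcone j hj q hq
      obtain ⟨z1, z2, z3, -⟩ := hHf j hj p hpc.1 (hsm j hj p hpρ) hpc.2
      refine ⟨z1.congr_of_eventuallyEq hev, ?_, ?_, fun h => absurd h hpW⟩
      · rw [hHcone j hj p hpc]; exact z2
      · rw [hHcone j hj p hpc]; exact z3
  · intro j hj p hp
    have hpU : p ∈ Ud a0 (ρf j) :=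
      ⟨hp.1, hp.2.1.trans_le ((min_le_left _ _).trans (hρ2' j hj)), hp.2.2⟩
    obtain ⟨z1, z2⟩ := hHf' j hj p hpU
    have hev : hat (X j) (X' j) (β j * ω j) (ω j) H =ᶠ[𝓝 p]
        hat (X j) (X' j) (β j * ω j) (ω j) (Hf j) := by
      filter_upwards [(isOpen_Ud a0 ρ).mem_nhds hp] with q hq
      have hqc : uch (X j) q ∈ cone j := by
        refine ⟨hq.1, ?_⟩
        have : (uch (X j) q).1 - X j * (uch (X j) q).2 = q.1 := by
          unfold uch
          simp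
        rw [this]
        exact hq.2.2
      unfold hat
      rw [hHcone j hj _ hqc]
    refine ⟨z1.congr_of_eventuallyEq hev, fun v w => ?_⟩
    rw [hev.fderiv_eq]
    refine ⟨(z2 v w).1, (z2 v w).2.trans ?_⟩
    have h1 : CKf j ≤ 1 + ∑ j, |CKf j| := by
      have h2 := Finset.single_le_sum (f := fun j => |CKf j|) (fun i _ => abs_nonneg _)
        (Finset.mem_univ j)
      have h3 := le_abs_self (CKf j)
      linarith
    have h4 := mul_le_mul_of_nonneg_right h1 (norm_nonneg v)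
    linarith

end H24.LS
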