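import Pool.Agent.H24.LS.Z0
import Pool.Agent.H24.LS.T0
import Pool.Agent.H24.LS.Z3
import Pool.Agent.H24.LS.Z6

/-!
# Z7: the global map is bi-Lipschitz

* `seg_bilip`: `Δ_i = H_i p - H_i q`, `(x,y) = p - q`.  Mean value inequality on the segment for `H_1 - pr_1` and `H_2 - pr_2`:
  `‖Δ_1 - x‖ ≤ (1/3)‖x‖ + e‖y‖`, `‖Δ_2 - y‖ ≤ M‖x‖ + e‖y‖`.  So `‖x‖ ≤ (3/2)(‖Δ_1‖ + e‖y‖)`,
  `‖y‖ ≤ ‖Δ_2‖ + M‖x‖ + e‖y‖ ≤ ‖Δ_2‖ + (3/2) M ‖Δ_1‖ + ((3/2) M + 1) e ‖y‖`, and `((3/2)M + 1) e ≤ 1/2` gives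
  `‖y‖ ≤ (2 + 3M)‖Δ‖`, `‖x‖ ≤ (3/2)‖Δ‖ + (3/2) e (2 + 3M)‖Δ‖ ≤ 3‖Δ‖`.  Upper bound: `‖Δ‖ ≤ (2 + M)‖p - q‖`.
* `bilip`.  Constants: `Lφ`, `cφ` (`lip_of_hom` for `φ` and `ψ`: `cφ‖p-q‖ ≤ ‖φ p - φ q‖ ≤ Lφ‖p-q‖`), `Cφ, δφ` (`phi_chart`), `Ch`
  (`hat_close`) for every multiple line, `CK` from `global_map`, `M = max CK (Cφ + 1) + 1`, `e0 = 1/(4 M + 4)`, `X* = max ‖X_j‖`.
  Choose `ε' ≤ min(1, δφ/8)` with `16 Cφ ε' ≤ min (1/12) (e0/2)`; `ε1 = ε'/(16 (2 + X*)^2)`;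
  `ε ≤ min(cφ ε1/4, cφ/2, e0/4, 1/24)/Ch`-like; `A` from `global_map`; `a0 ≤ min A (ε'/(4 (2 + X*)))`; `ρ` from `global_map`.
  Let `p, q ∈ ball 0 (ρ/2)`-like, `‖q‖ ≤ ‖p‖`, `p ≠ 0`.
  (i) `‖p - q‖ ≥ ε1‖p‖` (includes `q = 0`): `|‖H p - H q‖ - ‖φ p - φ q‖| ≤ 2 ε‖p‖ ≤ (2ε/ε1)‖p - q‖ ≤ (cφ/2)‖p - q‖`.
  Otherwise every `z ∈ [p,q]` has `‖z - p‖ ≤ ε1‖p‖`, `z ≠ 0`.
  (ii) there is a multiple `j` with `‖p.1 - X_j p.2‖ ≤ ε'‖p.2‖`: `‖p‖ ≤ (2 + X*)‖p.2‖`, so for `z ∈ [p,q]`: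
   `‖z.1 - X_j z.2‖ ≤ 2ε'‖z.2‖`, `z.2 ≠ 0`.  In the chart `j` (`p' = (p.1 - X_j p.2, p.2)` etc.; segment maps to segment) the map
   `Hh = hat .. H` satisfies the hypotheses of `seg_bilip` with `M`, `e = e0`: where `‖z'.1‖ < a0‖z'.2‖` by `global_map`; where
   `‖z'.1‖ ≥ a0‖z'.2‖`: then the strict inequality with `3/4 a0` holds for ALL multiple lines (`i ≠ j`: far away), so
   `‖DHh - Dφh‖ ≤ Ch ε` and `phi_chart`: `‖Dφh.1(v,w) - v‖ ≤ 2 Cφ ε' (‖v‖+‖w‖)`, `‖Dφh.2(v,w) - w‖ ≤ Cφ‖v‖ + 2 Cφ ε'‖w‖`.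
   Transfer back: `‖p' - q'‖ ≍ ‖p - q‖`, `‖Hh p' - Hh q'‖ ≍ ‖H p - H q‖` (linear isomorphisms).
  (iii) `‖p.1 - X_j p.2‖ > ε'‖p.2‖` for all multiple `j`: then `‖p.1 - X_j p.2‖ ≥ (ε'/(2 + X*))‖p‖` and for `z ∈ [p,q]`
   `‖z.1 - X_j z.2‖ ≥ (ε'/(2(2 + X*)))‖p‖ > (3/4) a0 ‖z.2‖`.  So `‖D(H - φ)‖ ≤ ε` on the segment:
   `|‖H p - H q‖ - ‖φ p - φ q‖| ≤ ε‖p - q‖ ≤ (cφ/2)‖p-q‖`.
-/

open Filter Topology Metric Asymptotics

namespace H24.LS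

theorem Z7_bound {ι : Type*} [Fintype ι] (f : ι → ℝ) : ∃ M : ℝ, 1 ≤ M ∧ ∀ j, f j ≤ M := by
  classical
  have h0 : 0 ≤ ∑ j, |f j| := Finset.sum_nonneg fun j _ => abs_nonneg _
  refine ⟨1 + ∑ j, |f j|, by linarith, fun j => ?_⟩
  have h1 := Finset.single_le_sum (f := fun j => |f j|) (fun i _ => abs_nonneg _)
    (Finset.mem_univ j)
  have h2 := le_abs_self (f j)
  linarith

theorem Z7_min {ι : Type*} [Finite ι] (f : ι → ℝ) (hf : ∀ j, 0 < f j) :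
    ∃ δ > (0 : ℝ), ∀ j, δ ≤ f j := by
  rcases isEmpty_or_nonempty ι with he | he
  · exact ⟨1, one_pos, fun j => (he.false j).elim⟩
  · obtain ⟨j0, hj0⟩ := Finite.exists_min f
    exact ⟨f j0, hf j0, hj0⟩

theorem Z7_sep {r : ℕ} {X : Fin r → ℂ} (hX : Function.Injective X) :
    ∃ σ > (0 : ℝ), ∀ i j, i ≠ j → σ ≤ ‖X i - X j‖ := by
  classical
  obtain ⟨σ, hσ, h⟩ := Z7_min (fun q : Fin r × Fin r => if q.1 = q.2 then 1 else ‖X q.1 - X q.2‖)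
    (fun q => by
      split_ifs with h
      · exact one_pos
      · exact norm_pos_iff.2 (sub_ne_zero.2 fun h' => h (hX h')))
  refine ⟨σ, hσ, fun i j hij => ?_⟩
  have := h (i, j)
  simp only [if_neg hij] at this
  exact this

/-- mean value inequality in a fixed direction -/
theorem Z7_mvt {E : Type*} [NormedAddCommGroup E] [NormedSpace ℝ E] (K : ℂ × ℂ → E)
    (p q : ℂ × ℂ) (C : ℝ)
    (hd : ∀ z ∈ segment ℝ p q, DifferentiableAt ℝ K z ∧ ‖fderiv ℝ K z (p - q)‖ ≤ C) :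
    ‖K p - K q‖ ≤ C := by
  have hz : ∀ s ∈ Set.Icc (0 : ℝ) 1, q + s • (p - q) ∈ segment ℝ p q := by
    intro s hs
    rw [segment_symm, segment_eq_image']
    exact ⟨s, hs, rfl⟩
  have h1 := norm_image_sub_le_of_norm_deriv_le_segment_01' (f := fun s : ℝ => K (q + s • (p - q)))
    (f' := fun s : ℝ => fderiv ℝ K (q + s • (p - q)) (p - q)) (C := C)
    (fun s hs => by
      have h2 := (hd _ (hz s hs)).1.hasFDerivAt
      have h3 : HasDerivAt (fun s : ℝ => q + s • (p - q)) (p - q) s := by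
        have := ((hasDerivAt_id s).smul_const (p - q)).const_add q
        rwa [one_smul] at this
      exact (h2.comp_hasDerivAt s h3).hasDerivWithinAt)
    (fun s hs => (hd _ (hz s ⟨hs.1, hs.2.le⟩)).2)
  simpa using h1

theorem seg_bilip (M e : ℝ) (hM : 0 ≤ M) (he : 0 ≤ e) (hMe : (3 / 2 * M + 1) * e ≤ 1 / 2)
    (H : ℂ × ℂ → ℂ × ℂ) (p q : ℂ × ℂ)
    (hd : ∀ z ∈ segment ℝ p q, DifferentiableAt ℝ H z ∧ ∀ v w : ℂ,
      ‖(fderiv ℝ H z (v, w)).1 - v‖ ≤ 1 / 3 * ‖v‖ + e * ‖w‖ ∧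
      ‖(fderiv ℝ H z (v, w)).2 - w‖ ≤ M * ‖v‖ + e * ‖w‖) :
    ‖p - q‖ ≤ (3 + 3 * M) * ‖H p - H q‖ ∧ ‖H p - H q‖ ≤ (2 + M) * ‖p - q‖ := by
  have he2 : e ≤ 1 / 2 := by
    have : 0 ≤ 3 / 2 * M * e := by positivity
    linarith
  have h1 : ‖((H p).1 - p.1) - ((H q).1 - q.1)‖ ≤ 1 / 3 * ‖p.1 - q.1‖ + e * ‖p.2 - q.2‖ := by
    refine Z7_mvt (fun z => (H z).1 - z.1) p q _ (fun z hz => ?_)
    obtain ⟨d1, d2⟩ := hd z hz
    have h3 : HasFDerivAt (fun z : ℂ × ℂ => (H z).1 - z.1)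
        (((ContinuousLinearMap.fst ℝ ℂ ℂ).comp (fderiv ℝ H z)) - ContinuousLinearMap.fst ℝ ℂ ℂ) z :=
      (d1.hasFDerivAt.fst).sub hasFDerivAt_fst
    refine ⟨h3.differentiableAt, ?_⟩
    rw [h3.fderiv]
    exact (d2 (p.1 - q.1) (p.2 - q.2)).1
  have h2 : ‖((H p).2 - p.2) - ((H q).2 - q.2)‖ ≤ M * ‖p.1 - q.1‖ + e * ‖p.2 - q.2‖ := by
    refine Z7_mvt (fun z => (H z).2 - z.2) p q _ (fun z hz => ?_)
    obtain ⟨d1, d2⟩ := hd z hz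
    have h3 : HasFDerivAt (fun z : ℂ × ℂ => (H z).2 - z.2)
        (((ContinuousLinearMap.snd ℝ ℂ ℂ).comp (fderiv ℝ H z)) - ContinuousLinearMap.snd ℝ ℂ ℂ) z :=
      (d1.hasFDerivAt.snd).sub hasFDerivAt_snd
    refine ⟨h3.differentiableAt, ?_⟩
    rw [h3.fderiv]
    exact (d2 (p.1 - q.1) (p.2 - q.2)).2
  obtain ⟨Δ, hΔ⟩ : ∃ Δ : ℝ, Δ = ‖H p - H q‖ := ⟨_, rfl⟩
  obtain ⟨x, hx⟩ : ∃ x : ℝ, x = ‖p.1 - q.1‖ := ⟨_, rfl⟩
  obtain ⟨y, hy⟩ : ∃ y : ℝ, y = ‖p.2 - q.2‖ := ⟨_, rfl⟩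
  have hx0 : 0 ≤ x := by rw [hx]; exact norm_nonneg _
  have hy0 : 0 ≤ y := by rw [hy]; exact norm_nonneg _
  have hΔ0 : 0 ≤ Δ := by rw [hΔ]; exact norm_nonneg _
  have hΔ1 : ‖(H p).1 - (H q).1‖ ≤ Δ := by rw [hΔ]; exact norm_fst_le (H p - H q)
  have hΔ2 : ‖(H p).2 - (H q).2‖ ≤ Δ := by rw [hΔ]; exact norm_snd_le (H p - H q)
  have hpq : ‖p - q‖ = max x y := by rw [hx, hy]; rfl
  rw [← hx, ← hy] at h1 h2
  have e1 : ‖p.1 - q.1‖ ≤ ‖(H p).1 - (H q).1‖ + ‖((H p).1 - p.1) - ((H q).1 - q.1)‖ := by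
    have : p.1 - q.1 = ((H p).1 - (H q).1) - (((H p).1 - p.1) - ((H q).1 - q.1)) := by ring
    calc ‖p.1 - q.1‖ = ‖((H p).1 - (H q).1) - (((H p).1 - p.1) - ((H q).1 - q.1))‖ := by
          rw [← this]
      _ ≤ _ := norm_sub_le _ _
  have e2 : ‖p.2 - q.2‖ ≤ ‖(H p).2 - (H q).2‖ + ‖((H p).2 - p.2) - ((H q).2 - q.2)‖ := by
    have : p.2 - q.2 = ((H p).2 - (H q).2) - (((H p).2 - p.2) - ((H q).2 - q.2)) := by ring
    calc ‖p.2 - q.2‖ = ‖((H p).2 - (H q).2) - (((H p).2 - p.2) - ((H q).2 - q.2))‖ := by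
          rw [← this]
      _ ≤ _ := norm_sub_le _ _
  have e3 : ‖(H p).1 - (H q).1‖ ≤ ‖p.1 - q.1‖ + ‖((H p).1 - p.1) - ((H q).1 - q.1)‖ := by
    have : (H p).1 - (H q).1 = (p.1 - q.1) + (((H p).1 - p.1) - ((H q).1 - q.1)) := by ring
    calc ‖(H p).1 - (H q).1‖ = ‖(p.1 - q.1) + (((H p).1 - p.1) - ((H q).1 - q.1))‖ := by
          rw [← this]
      _ ≤ _ := norm_add_le _ _
  have e4 : ‖(H p).2 - (H q).2‖ ≤ ‖p.2 - q.2‖ + ‖((H p).2 - p.2) - ((H q).2 - q.2)‖ := by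
    have : (H p).2 - (H q).2 = (p.2 - q.2) + (((H p).2 - p.2) - ((H q).2 - q.2)) := by ring
    calc ‖(H p).2 - (H q).2‖ = ‖(p.2 - q.2) + (((H p).2 - p.2) - ((H q).2 - q.2))‖ := by
          rw [← this]
      _ ≤ _ := norm_add_le _ _
  rw [← hx] at e1 e3
  rw [← hy] at e2 e4
  have a1 : 2 / 3 * x ≤ Δ + e * y := by linarith
  have a2 : y ≤ Δ + M * x + e * y := by linarith
  have a3 : M * (2 / 3 * x) ≤ M * (Δ + e * y) := mul_le_mul_of_nonneg_left a1 hM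
  have a4 : y ≤ (2 + 3 * M) * Δ := by
    have : (3 / 2 * M + 1) * e * y ≤ 1 / 2 * y := mul_le_mul_of_nonneg_right hMe hy0
    linarith
  have a5 : e * y ≤ Δ := by
    have b1 : e * y ≤ e * ((2 + 3 * M) * Δ) := mul_le_mul_of_nonneg_left a4 he
    have b2 : (3 / 2 * M + 1) * e * Δ ≤ 1 / 2 * Δ := mul_le_mul_of_nonneg_right hMe hΔ0
    linarith
  have a6 : 0 ≤ M * Δ := by positivity
  have hmx : x ≤ max x y := le_max_left _ _
  have hmy : y ≤ max x y := le_max_right _ _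
  have hm0 : 0 ≤ max x y := hx0.trans hmx
  refine ⟨?_, ?_⟩
  · rw [hpq, ← hΔ]
    refine max_le ?_ ?_ <;> linarith
  · rw [hpq, Prod.norm_def]
    have b1 : e * y ≤ 1 / 2 * max x y := mul_le_mul he2 hmy hy0 (by norm_num)
    have b2 : M * x ≤ M * max x y := mul_le_mul_of_nonneg_left hmx hM
    have b3 : 0 ≤ M * max x y := by positivity
    refine max_le ?_ ?_
    · show ‖(H p).1 - (H q).1‖ ≤ _
      linarith
    · show ‖(H p).2 - (H q).2‖ ≤ _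
      linarith

/-- derivative bounds for a map close to `φ` in a chart -/
theorem Z7_B (A B : (ℂ × ℂ) →L[ℝ] (ℂ × ℂ)) (z : ℂ × ℂ) (C Cε ε' e0 M : ℝ) (hC : 1 ≤ C)
    (hCε : 0 ≤ Cε)
    (hz2 : 0 < ‖z.2‖) (hz1 : ‖z.1‖ ≤ 2 * ε' * ‖z.2‖)
    (hB : ∀ v w : ℂ, ‖(B (v, w)).1 - v‖ * ‖z.2‖ ≤ C * (‖z.1‖ * ‖v‖ + ‖z.1‖ * ‖w‖) ∧
      ‖(B (v, w)).2 - w‖ * ‖z.2‖ ≤ C * (‖z.2‖ * ‖v‖ + ‖z.1‖ * ‖w‖))
    (hAB : ∀ w, ‖A w - B w‖ ≤ Cε * ‖w‖)
    (k1 : 2 * C * ε' ≤ 1 / 24) (k2 : 2 * C * ε' ≤ e0 / 2) (k3 : Cε ≤ 1 / 24) (k4 : Cε ≤ e0 / 2)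
    (k5 : C + 1 ≤ M) (v w : ℂ) :
    ‖(A (v, w)).1 - v‖ ≤ 1 / 3 * ‖v‖ + e0 * ‖w‖ ∧
    ‖(A (v, w)).2 - w‖ ≤ M * ‖v‖ + e0 * ‖w‖ := by
  have hv := norm_nonneg v
  have hw := norm_nonneg w
  have hn : ‖A (v, w) - B (v, w)‖ ≤ Cε * ‖v‖ + Cε * ‖w‖ := by
    refine (hAB (v, w)).trans ?_
    rw [← mul_add]
    refine mul_le_mul_of_nonneg_left ?_ hCε
    rw [Prod.norm_def]
    refine max_le ?_ ?_
    · show ‖v‖ ≤ _
      linarith
    · show ‖w‖ ≤ _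
      linarith
  obtain ⟨b1, b2⟩ := hB v w
  have c1 : ‖(B (v, w)).1 - v‖ ≤ 2 * C * ε' * ‖v‖ + 2 * C * ε' * ‖w‖ := by
    refine le_of_mul_le_mul_right ?_ hz2
    refine b1.trans ?_
    have h1 : C * (‖z.1‖ * (‖v‖ + ‖w‖)) ≤ C * (2 * ε' * ‖z.2‖ * (‖v‖ + ‖w‖)) :=
      mul_le_mul_of_nonneg_left (mul_le_mul_of_nonneg_right hz1 (by positivity)) (by linarith)
    linarith
  have c2 : ‖(B (v, w)).2 - w‖ ≤ C * ‖v‖ + 2 * C * ε' * ‖w‖ := by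
    refine le_of_mul_le_mul_right ?_ hz2
    refine b2.trans ?_
    have h1 : C * (‖z.1‖ * ‖w‖) ≤ C * (2 * ε' * ‖z.2‖ * ‖w‖) :=
      mul_le_mul_of_nonneg_left (mul_le_mul_of_nonneg_right hz1 hw) (by linarith)
    linarith
  have d1 : Cε * ‖v‖ ≤ 1 / 24 * ‖v‖ := mul_le_mul_of_nonneg_right k3 hv
  have d2 : Cε * ‖w‖ ≤ e0 / 2 * ‖w‖ := mul_le_mul_of_nonneg_right k4 hw
  have d3 : 2 * C * ε' * ‖v‖ ≤ 1 / 24 * ‖v‖ := mul_le_mul_of_nonneg_right k1 hv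
  have d4 : 2 * C * ε' * ‖w‖ ≤ e0 / 2 * ‖w‖ := mul_le_mul_of_nonneg_right k2 hw
  have d5 : (C + 1) * ‖v‖ ≤ M * ‖v‖ := mul_le_mul_of_nonneg_right k5 hv
  constructor
  · have f1 : (A (v, w)).1 - v = (A (v, w) - B (v, w)).1 + ((B (v, w)).1 - v) := by
      show _ = ((A (v, w)).1 - (B (v, w)).1) + ((B (v, w)).1 - v)
      ring
    rw [f1]
    have f2 := norm_fst_le (A (v, w) - B (v, w))
    refine (norm_add_le _ _).trans ?_
    linarith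
  · have f1 : (A (v, w)).2 - w = (A (v, w) - B (v, w)).2 + ((B (v, w)).2 - w) := by
      show _ = ((A (v, w)).2 - (B (v, w)).2) + ((B (v, w)).2 - w)
      ring
    rw [f1]
    have f2 := norm_snd_le (A (v, w) - B (v, w))
    refine (norm_add_le _ _).trans ?_
    linarith

/-- comparison with `φ` -/
theorem Z7_cmp {E : Type*} [NormedAddCommGroup E] (a b : E) (d Lφ Lψ : ℝ)
    (hLψ : 0 < Lψ) (hlow : d ≤ Lψ * ‖b‖) (hup : ‖b‖ ≤ Lφ * d) (h : ‖a - b‖ ≤ 1 / (2 * Lψ) * d) :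
    d ≤ 2 * Lψ * ‖a‖ ∧ ‖a‖ ≤ (Lφ + 1 / (2 * Lψ)) * d := by
  have h1 : ‖b‖ ≤ ‖a‖ + ‖a - b‖ := by
    have := norm_sub_le a (a - b)
    simpa using this
  have h2 : ‖a‖ ≤ ‖b‖ + ‖a - b‖ := by
    have := norm_add_le b (a - b)
    simpa using this
  constructor
  · have h3 : Lψ * ‖b‖ ≤ Lψ * (‖a‖ + 1 / (2 * Lψ) * d) :=
      mul_le_mul_of_nonneg_left (by linarith) hLψ.le
    have h4 : Lψ * (1 / (2 * Lψ) * d) = d / 2 := by field_simp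
    linarith
  · linarith

/-- the linear change of coordinates in the target -/
theorem Z7_hat (Xj Xj' α ω : ℂ) (hα : α ≠ 0) (hω : ω ≠ 0) (H : ℂ × ℂ → ℂ × ℂ) (p q : ℂ × ℂ) :
    ‖hat Xj Xj' α ω H p - hat Xj Xj' α ω H q‖ ≤
      ((1 + ‖Xj'‖) / ‖α‖ + 1 / ‖ω‖) * ‖H (uch Xj p) - H (uch Xj q)‖ ∧
    ‖H (uch Xj p) - H (uch Xj q)‖ ≤
      (‖α‖ + ‖Xj'‖ * ‖ω‖ + ‖ω‖) * ‖hat Xj Xj' α ω H p - hat Xj Xj' α ω H q‖ := by
  have hα' : 0 < ‖α‖ := norm_pos_iff.2 hα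
  have hω' : 0 < ‖ω‖ := norm_pos_iff.2 hω
  obtain ⟨d, hd⟩ : ∃ d : ℂ × ℂ, d = H (uch Xj p) - H (uch Xj q) := ⟨_, rfl⟩
  have hdiff : hat Xj Xj' α ω H p - hat Xj Xj' α ω H q = ((d.1 - Xj' * d.2) / α, d.2 / ω) := by
    rw [hd]
    unfold hat
    apply Prod.ext
    · show ((H (uch Xj p)).1 - Xj' * (H (uch Xj p)).2) / α -
        ((H (uch Xj q)).1 - Xj' * (H (uch Xj q)).2) / α =
        (((H (uch Xj p)).1 - (H (uch Xj q)).1) - Xj' * ((H (uch Xj p)).2 - (H (uch Xj q)).2)) / α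
      ring
    · show (H (uch Xj p)).2 / ω - (H (uch Xj q)).2 / ω =
        ((H (uch Xj p)).2 - (H (uch Xj q)).2) / ω
      ring
  rw [hdiff, ← hd]
  have h1 := norm_fst_le d
  have h2 := norm_snd_le d
  have h0 := norm_nonneg d
  constructor
  · rw [Prod.norm_def]
    refine max_le ?_ ?_
    · show ‖(d.1 - Xj' * d.2) / α‖ ≤ _
      rw [norm_div]
      have h3 : ‖d.1 - Xj' * d.2‖ ≤ (1 + ‖Xj'‖) * ‖d‖ := by
        refine (norm_sub_le _ _).trans ?_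
        rw [norm_mul]
        have := mul_le_mul_of_nonneg_left h2 (norm_nonneg Xj')
        linarith
      have h4 : ‖d.1 - Xj' * d.2‖ / ‖α‖ ≤ (1 + ‖Xj'‖) * ‖d‖ / ‖α‖ :=
        div_le_div_of_nonneg_right h3 hα'.le
      have h5 : 0 ≤ 1 / ‖ω‖ * ‖d‖ := by positivity
      have h6 : (1 + ‖Xj'‖) * ‖d‖ / ‖α‖ = (1 + ‖Xj'‖) / ‖α‖ * ‖d‖ := by ring
      linarith
    · show ‖d.2 / ω‖ ≤ _
      rw [norm_div]
      have h4 : ‖d.2‖ / ‖ω‖ ≤ ‖d‖ / ‖ω‖ := div_le_div_of_nonneg_right h2 hω'.le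
      have h5 : 0 ≤ (1 + ‖Xj'‖) / ‖α‖ * ‖d‖ := by positivity
      have h6 : ‖d‖ / ‖ω‖ = 1 / ‖ω‖ * ‖d‖ := by ring
      linarith
  · obtain ⟨e, he⟩ : ∃ e : ℂ × ℂ, e = ((d.1 - Xj' * d.2) / α, d.2 / ω) := ⟨_, rfl⟩
    rw [← he]
    have g1 := norm_fst_le e
    have g2 := norm_snd_le e
    have g0 := norm_nonneg e
    have i2 : d.2 = ω * e.2 := by
      rw [he]
      show d.2 = ω * (d.2 / ω)
      field_simp
    have i1 : d.1 = α * e.1 + Xj' * (ω * e.2) := by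
      rw [← i2, he]
      show d.1 = α * ((d.1 - Xj' * d.2) / α) + Xj' * d.2
      field_simp
      ring
    have j1 : ‖α‖ * ‖e.1‖ ≤ ‖α‖ * ‖e‖ := mul_le_mul_of_nonneg_left g1 hα'.le
    have j2 : ‖ω‖ * ‖e.2‖ ≤ ‖ω‖ * ‖e‖ := mul_le_mul_of_nonneg_left g2 hω'.le
    have j3 : ‖Xj'‖ * (‖ω‖ * ‖e.2‖) ≤ ‖Xj'‖ * (‖ω‖ * ‖e‖) :=
      mul_le_mul_of_nonneg_left j2 (norm_nonneg _)
    have j4 : 0 ≤ ‖α‖ * ‖e‖ := by positivity
    have j5 : 0 ≤ ‖ω‖ * ‖e‖ := by positivity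
    have j6 : 0 ≤ ‖Xj'‖ * (‖ω‖ * ‖e‖) := by positivity
    rw [Prod.norm_def d]
    refine max_le ?_ ?_
    · rw [i1]
      refine (norm_add_le _ _).trans ?_
      rw [norm_mul, norm_mul, norm_mul]
      linarith
    · rw [i2, norm_mul]
      linarith

theorem Z7_seg (Xj : ℂ) (p q z : ℂ × ℂ) (hz : z ∈ segment ℝ p q) :
    uch Xj z ∈ segment ℝ (uch Xj p) (uch Xj q) := by
  obtain ⟨a, b, ha, hb, hab, rfl⟩ := hz
  refine ⟨a, b, ha, hb, hab, ?_⟩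
  unfold uch
  apply Prod.ext
  · show a • (p.1 + Xj * p.2) + b • (q.1 + Xj * q.2) =
      (a • p.1 + b • q.1) + Xj * (a • p.2 + b • q.2)
    simp only [Complex.real_smul]
    ring
  · rfl

theorem Z7_lin (Xj : ℂ) (XB : ℝ) (hX : ‖Xj‖ ≤ XB) (d : ℂ × ℂ) :
    ‖d.1 - Xj * d.2‖ ≤ (1 + XB) * ‖d‖ := by
  refine (norm_sub_le _ _).trans ?_
  rw [norm_mul]
  have h1 := norm_fst_le d
  have h2 := norm_snd_le d
  have h3 : ‖Xj‖ * ‖d.2‖ ≤ XB * ‖d‖ := mul_le_mul hX h2 (norm_nonneg _)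
    ((norm_nonneg _).trans hX)
  linarith

/-- distances in the chart -/
theorem Z7_chart (Xj : ℂ) (XB : ℝ) (hX : ‖Xj‖ ≤ XB) (p q : ℂ × ℂ) :
    ‖((p.1 - Xj * p.2, p.2) : ℂ × ℂ) - (q.1 - Xj * q.2, q.2)‖ ≤ (1 + XB) * ‖p - q‖ ∧
    ‖p - q‖ ≤ (1 + XB) * ‖((p.1 - Xj * p.2, p.2) : ℂ × ℂ) - (q.1 - Xj * q.2, q.2)‖ := by
  have hXB : 0 ≤ XB := (norm_nonneg _).trans hX
  constructor
  · have h1 := Z7_lin Xj XB hX (p - q)
    have h2 := norm_snd_le (p - q)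
    have h3 : 0 ≤ XB * ‖p - q‖ := by positivity
    rw [Prod.norm_def (((p.1 - Xj * p.2, p.2) : ℂ × ℂ) - (q.1 - Xj * q.2, q.2))]
    refine max_le ?_ ?_
    · show ‖(p.1 - Xj * p.2) - (q.1 - Xj * q.2)‖ ≤ _
      have : (p.1 - Xj * p.2) - (q.1 - Xj * q.2) = (p - q).1 - Xj * (p - q).2 := by
        show _ = (p.1 - q.1) - Xj * (p.2 - q.2)
        ring
      rw [this]
      exact h1
    · show ‖(p - q).2‖ ≤ _
      linarith
  · obtain ⟨e, he⟩ : ∃ e : ℂ × ℂ, e = ((p.1 - Xj * p.2, p.2) : ℂ × ℂ) - (q.1 - Xj * q.2, q.2) :=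
      ⟨_, rfl⟩
    rw [← he]
    have h1 := Z7_lin (-Xj) XB (by rwa [norm_neg]) e
    have h2 := norm_snd_le e
    have h3 : 0 ≤ XB * ‖e‖ := by positivity
    rw [Prod.norm_def (p - q)]
    refine max_le ?_ ?_
    · have : (p - q).1 = e.1 - (-Xj) * e.2 := by
        rw [he]
        show p.1 - q.1 = ((p.1 - Xj * p.2) - (q.1 - Xj * q.2)) - (-Xj) * (p.2 - q.2)
        ring
      rw [this]
      exact h1
    · have : (p - q).2 = e.2 := by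
        rw [he]
        rfl
      rw [this]
      linarith

theorem Z7_zero {r : ℕ} {κ : Fin r → ℕ} {c : ℂ} {X : Fin r → ℂ} {f : ℂ × ℂ → ℂ}
    (hf : NForm κ c X f) : f 0 = 0 := by
  obtain ⟨C, _, δ, hδ, h⟩ := hf.bd
  have h1 := h 0 (by rwa [norm_zero])
  rw [norm_zero, zero_pow (by omega), mul_zero] at h1
  have h2 : form κ c X 0 = 0 := by
    unfold form
    have h3 : (∏ j : Fin r, ((0 : ℂ × ℂ).1 - X j * (0 : ℂ × ℂ).2) ^ κ j) = 0 := by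
      refine Finset.prod_eq_zero (Finset.mem_univ ⟨0, hf.hr⟩) ?_
      rw [Prod.fst_zero, Prod.snd_zero, mul_zero, sub_zero]
      exact zero_pow (by have := hf.hκ ⟨0, hf.hr⟩; omega)
    rw [h3, mul_zero]
  rw [h2, sub_zero] at h1
  exact norm_le_zero_iff.1 h1

/-- the cone around a multiple line -/
theorem Z7_cone {r : ℕ} {κ : Fin r → ℕ} {X : Fin r → ℂ} {Xj' α ω : ℂ} {j : Fin r}
    {φ H : ℂ × ℂ → ℂ × ℂ} (hα : α ≠ 0) (hω : ω ≠ 0)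
    {Cφ δφ Ch ε ε' e0 M CK a0 ρ σ XB : ℝ}
    (hphi : ∀ p : ℂ × ℂ, 0 < ‖p.2‖ → ‖p.1‖ < δφ * ‖p.2‖ → ∀ v w : ℂ,
        ‖(fderiv ℝ (hat (X j) Xj' α ω φ) p (v, w)).1 - v‖ * ‖p.2‖ ≤
          Cφ * (‖p.1‖ * ‖v‖ + ‖p.1‖ * ‖w‖) ∧
        ‖(fderiv ℝ (hat (X j) Xj' α ω φ) p (v, w)).2 - w‖ * ‖p.2‖ ≤
          Cφ * (‖p.2‖ * ‖v‖ + ‖p.1‖ * ‖w‖))
    (hhat : ∀ p : ℂ × ℂ, ContDiffAt ℝ 1 H (uch (X j) p) →
      DifferentiableAt ℝ φ (uch (X j) p) →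
      (∀ w : ℂ × ℂ, ‖fderiv ℝ H (uch (X j) p) w - fderiv ℝ φ (uch (X j) p) w‖ ≤ ε * ‖w‖) →
      DifferentiableAt ℝ (hat (X j) Xj' α ω H) p ∧
      ∀ w : ℂ × ℂ, ‖fderiv ℝ (hat (X j) Xj' α ω H) p w - fderiv ℝ (hat (X j) Xj' α ω φ) p w‖ ≤
          Ch * ε * ‖w‖)
    (hφs : ∀ p, p ≠ 0 → DifferentiableAt ℝ φ p)
    (hH : ∀ p : ℂ × ℂ, 0 < ‖p‖ → ‖p‖ < ρ → ContDiffAt ℝ 1 H p ∧
      ((∀ i, 2 ≤ κ i → 3 / 4 * a0 * ‖p.2‖ < ‖p.1 - X i * p.2‖) →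
            ∀ w : ℂ × ℂ, ‖fderiv ℝ H p w - fderiv ℝ φ p w‖ ≤ ε * ‖w‖))
    (hHc : ∀ p ∈ Ud a0 ρ, DifferentiableAt ℝ (hat (X j) Xj' α ω H) p ∧
          ∀ v w : ℂ,
            ‖(fderiv ℝ (hat (X j) Xj' α ω H) p (v, w)).1 - v‖ ≤ 1 / 4 * ‖v‖ + ε * ‖w‖ ∧
            ‖(fderiv ℝ (hat (X j) Xj' α ω H) p (v, w)).2 - w‖ ≤ CK * ‖v‖ + ε * ‖w‖)
    (hσ : ∀ i, i ≠ j → σ ≤ ‖X i - X j‖) (hσ0 : 0 < σ)
    (hX : ‖X j‖ ≤ XB) (hC : 1 ≤ Cφ) (hCh : 0 ≤ Ch) (hε : 0 ≤ ε) (hε' : 0 < ε') (ha0 : 0 < a0)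
    (he0 : 0 ≤ e0) (hM : 0 ≤ M)
    (k0 : (3 / 2 * M + 1) * e0 ≤ 1 / 2) (k1 : 2 * Cφ * ε' ≤ 1 / 24) (k2 : 2 * Cφ * ε' ≤ e0 / 2)
    (k3 : Ch * ε ≤ 1 / 24) (k4 : Ch * ε ≤ e0 / 2) (k5 : Cφ + 1 ≤ M) (k6 : CK ≤ M) (k7 : ε ≤ e0)
    (k8 : 4 * ε' ≤ δφ) (k9 : 4 * ε' ≤ σ) (k10 : 2 * a0 ≤ σ)
    (p q : ℂ × ℂ)
    (hz : ∀ z ∈ segment ℝ p q, 0 < ‖z.2‖ ∧ ‖z‖ < ρ ∧ ‖z.1 - X j * z.2‖ ≤ 2 * ε' * ‖z.2‖) :
    ‖p - q‖ ≤ (1 + XB) * ((3 + 3 * M) * (((1 + ‖Xj'‖) / ‖α‖ + 1 / ‖ω‖) * ‖H p - H q‖)) ∧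
    ‖H p - H q‖ ≤ (‖α‖ + ‖Xj'‖ * ‖ω‖ + ‖ω‖) * ((2 + M) * ((1 + XB) * ‖p - q‖)) := by
  have hXB : 0 ≤ XB := (norm_nonneg _).trans hX
  obtain ⟨p', hp'⟩ : ∃ p' : ℂ × ℂ, p' = (p.1 - X j * p.2, p.2) := ⟨_, rfl⟩
  obtain ⟨q', hq'⟩ : ∃ q' : ℂ × ℂ, q' = (q.1 - X j * q.2, q.2) := ⟨_, rfl⟩
  have hpp : uch (X j) p' = p := by
    rw [hp']
    unfold uch
    simp
  have hqq : uch (X j) q' = q := by
    rw [hq']
    unfold uch
    simp
  have hseg := seg_bilip M e0 hM he0 k0 (hat (X j) Xj' α ω H) p' q' (by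
    intro z' hz'
    have h1 := Z7_seg (X j) p' q' z' hz'
    rw [hpp, hqq] at h1
    obtain ⟨h2, h3, h4⟩ := hz _ h1
    obtain ⟨z, hzz⟩ : ∃ z, z = uch (X j) z' := ⟨_, rfl⟩
    rw [← hzz] at h2 h3 h4
    have e2 : z.2 = z'.2 := by rw [hzz]; rfl
    have e1 : z.1 - X j * z.2 = z'.1 := by
      rw [hzz]
      show z'.1 + X j * z'.2 - X j * z'.2 = z'.1
      ring
    rw [e1, e2] at h4
    have h2' : 0 < ‖z'.2‖ := by rw [← e2]; exact h2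
    by_cases hc : ‖z'.1‖ < a0 * ‖z'.2‖
    · have h5 : ‖z'.2‖ < ρ := by
        rw [← e2]
        exact (norm_snd_le z).trans_lt h3
      obtain ⟨f1, f2⟩ := hHc z' ⟨h2', h5, hc⟩
      refine ⟨f1, fun v w => ?_⟩
      have hv := norm_nonneg v
      have hw := norm_nonneg w
      have f3 := mul_le_mul_of_nonneg_right k7 hw
      have f4 := mul_le_mul_of_nonneg_right k6 hv
      obtain ⟨f5, f6⟩ := f2 v w
      constructor <;> linarith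
    · rw [not_lt] at hc
      have hz0 : 0 < ‖z‖ := h2.trans_le (norm_snd_le z)
      obtain ⟨f1, f2⟩ := hH z hz0 h3
      have f3 : ∀ i, 2 ≤ κ i → 3 / 4 * a0 * ‖z.2‖ < ‖z.1 - X i * z.2‖ := by
        intro i _
        have g0 : 0 < a0 * ‖z.2‖ := by positivity
        by_cases hij : i = j
        · rw [hij, e1]
          rw [← e2] at hc
          linarith
        · have g1 := hσ i hij
          have g2 : ‖X i - X j‖ * ‖z.2‖ ≤ ‖z.1 - X i * z.2‖ + ‖z.1 - X j * z.2‖ := by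
            have g3 : (X i - X j) * z.2 = (z.1 - X j * z.2) - (z.1 - X i * z.2) := by ring
            rw [← norm_mul, g3]
            refine (norm_sub_le _ _).trans ?_
            linarith
          rw [e1] at g2
          rw [← e2] at h4
          have g4 := mul_le_mul_of_nonneg_right g1 h2.le
          have g5 := mul_le_mul_of_nonneg_right k9 h2.le
          have g6 := mul_le_mul_of_nonneg_right k10 h2.le
          have g7 : 0 < σ * ‖z.2‖ := by positivity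
          linarith
      have f4 := f2 f3
      rw [hzz] at f1 f4
      have hzne : uch (X j) z' ≠ 0 := by
        rw [← hzz]
        exact norm_pos_iff.1 hz0
      obtain ⟨f5, f6⟩ := hhat z' f1 (hφs _ hzne) f4
      refine ⟨f5, fun v w => ?_⟩
      have f7 : ‖z'.1‖ < δφ * ‖z'.2‖ := by
        have g5 := mul_le_mul_of_nonneg_right k8 h2'.le
        have g6 : 0 < ε' * ‖z'.2‖ := by positivity
        linarith
      exact Z7_B _ _ z' Cφ (Ch * ε) ε' e0 M hC (by positivity) h2' h4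
        (hphi z' h2' f7) f6 k1 k2 k3 k4 k5 v w)
  obtain ⟨s1, s2⟩ := hseg
  obtain ⟨t1, t2⟩ := Z7_hat (X j) Xj' α ω hα hω H p' q'
  rw [hpp, hqq] at t1 t2
  obtain ⟨c1, c2⟩ := Z7_chart (X j) XB hX p q
  rw [← hp', ← hq'] at c1 c2
  constructor
  · refine c2.trans (mul_le_mul_of_nonneg_left ?_ (by positivity))
    exact s1.trans (mul_le_mul_of_nonneg_left t1 (by positivity))
  · refine t2.trans (mul_le_mul_of_nonneg_left ?_ (by positivity))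
    exact s2.trans (mul_le_mul_of_nonneg_left c1 (by positivity))

theorem bilip {r : ℕ} {κ : Fin r → ℕ} {c c' : ℂ} {X X' β ω : Fin r → ℂ}
    {f g : ℂ × ℂ → ℂ} (hf : NForm κ c X f) (hg : NForm κ c' X' g) (hk : 3 ≤ ∑ j, κ j)
    {φ ψ : ℂ × ℂ → ℂ × ℂ} (hM : IsMor κ c c' X X' β ω φ ψ)
    (hch : ∀ j, 2 ≤ κ j →
      ChartAt f g (∑ i, κ i) (κ j - 1) (X j) (X' j) (β j * ω j) (ω j)) :
    ∃ ρ > (0 : ℝ), ∃ κ0 > (0 : ℝ), ∃ L0 > (0 : ℝ), ∃ H : ℂ × ℂ → ℂ × ℂ, H 0 = 0 ∧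
      (∀ p : ℂ × ℂ, 0 < ‖p‖ → ‖p‖ < ρ → ContDiffAt ℝ 1 H p) ∧
      (∀ p ∈ ball (0 : ℂ × ℂ) ρ, f p = g (H p)) ∧
      ∀ p ∈ ball (0 : ℂ × ℂ) ρ, ∀ q ∈ ball (0 : ℂ × ℂ) ρ,
        κ0 * ‖p - q‖ ≤ ‖H p - H q‖ ∧ ‖H p - H q‖ ≤ L0 * ‖p - q‖ := by
  classical
  obtain ⟨Lφ, hLφ, hφL⟩ := lip_of_hom φ hM.hom hM.smooth
  obtain ⟨Lψ, hLψ, hψL⟩ := lip_of_hom ψ hM.hom' hM.smooth'
  have hφlow : ∀ p q, ‖p - q‖ ≤ Lψ * ‖φ p - φ q‖ := by
    intro p q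
    have := hψL (φ p) (φ q)
    rwa [hM.left, hM.left] at this
  have hφ0 : φ 0 = 0 := by
    have := hM.hom 0 0
    simpa using this
  choose Cφ' hCφ' δφ' hδφ' hphi using phi_chart hM
  choose Ch' hCh' hhat using fun j => hat_close (X j) (X' j) (β j * ω j) (ω j)
    (mul_ne_zero (hM.hβ j) (hM.hω j)) (hM.hω j)
  obtain ⟨CK, hCK, hgl⟩ := global_map hf hg hk hM hch
  obtain ⟨Cφ, hCφ, hCφj⟩ := Z7_bound Cφ'
  obtain ⟨Ch, hCh, hChj⟩ := Z7_bound Ch'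
  obtain ⟨δφ, hδφ, hδφj⟩ := Z7_min δφ' hδφ'
  obtain ⟨XB, hXB, hXBj⟩ := Z7_bound fun j => ‖X j‖
  obtain ⟨σ, hσ, hσj⟩ := Z7_sep hf.hX
  obtain ⟨B1, hB1, hB1j⟩ := Z7_bound fun j => (1 + ‖X' j‖) / ‖β j * ω j‖ + 1 / ‖ω j‖
  obtain ⟨B2, hB2, hB2j⟩ := Z7_bound fun j => ‖β j * ω j‖ + ‖X' j‖ * ‖ω j‖ + ‖ω j‖
  obtain ⟨M, hMdef⟩ : ∃ M : ℝ, M = CK + Cφ + 1 := ⟨_, rfl⟩
  have hM0 : 0 < M := by linarith
  obtain ⟨e0, he0def⟩ : ∃ e0 : ℝ, e0 = 1 / (4 * M + 4) := ⟨_, rfl⟩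
  have he0 : 0 < e0 := by rw [he0def]; positivity
  have k0 : (3 / 2 * M + 1) * e0 ≤ 1 / 2 := by
    rw [he0def, mul_one_div, div_le_iff₀ (by positivity)]
    linarith
  obtain ⟨ε', hε', k8, k1, k2, hε'1, k9⟩ : ∃ ε' > (0 : ℝ), 4 * ε' ≤ δφ ∧ 2 * Cφ * ε' ≤ 1 / 24 ∧
      2 * Cφ * ε' ≤ e0 / 2 ∧ ε' ≤ 1 ∧ 4 * ε' ≤ σ := by
    have hC0 : 0 < 2 * Cφ := by linarith
    refine ⟨min (min (δφ / 4) (σ / 4)) (min 1 (min (1 / 24 / (2 * Cφ)) (e0 / 2 / (2 * Cφ)))),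
      by positivity, ?_, ?_, ?_, ?_, ?_⟩
    · have : min (min (δφ / 4) (σ / 4)) (min 1 (min (1 / 24 / (2 * Cφ)) (e0 / 2 / (2 * Cφ)))) ≤
        δφ / 4 := (min_le_left _ _).trans (min_le_left _ _)
      linarith
    · have : min (min (δφ / 4) (σ / 4)) (min 1 (min (1 / 24 / (2 * Cφ)) (e0 / 2 / (2 * Cφ)))) ≤
        1 / 24 / (2 * Cφ) :=
        (min_le_right _ _).trans ((min_le_right _ _).trans (min_le_left _ _))
      rw [le_div_iff₀ hC0] at this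
      linarith
    · have : min (min (δφ / 4) (σ / 4)) (min 1 (min (1 / 24 / (2 * Cφ)) (e0 / 2 / (2 * Cφ)))) ≤
        e0 / 2 / (2 * Cφ) :=
        (min_le_right _ _).trans ((min_le_right _ _).trans (min_le_right _ _))
      rw [le_div_iff₀ hC0] at this
      linarith
    · exact (min_le_right _ _).trans (min_le_left _ _)
    · have : min (min (δφ / 4) (σ / 4)) (min 1 (min (1 / 24 / (2 * Cφ)) (e0 / 2 / (2 * Cφ)))) ≤
        σ / 4 := (min_le_left _ _).trans (min_le_right _ _)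
      linarith
  obtain ⟨S, hS⟩ : ∃ S : ℝ, S = XB + 2 := ⟨_, rfl⟩
  have hS0 : 0 < S := by linarith
  obtain ⟨ε1, hε1def⟩ : ∃ ε1 : ℝ, ε1 = ε' / (16 * S ^ 2) := ⟨_, rfl⟩
  have hε1 : 0 < ε1 := by rw [hε1def]; positivity
  have hε1S : S * (S * ε1) = ε' / 16 := by
    rw [hε1def]
    field_simp
  obtain ⟨ε, hε, k3, k4, k7, k11, k12⟩ : ∃ ε > (0 : ℝ), Ch * ε ≤ 1 / 24 ∧ Ch * ε ≤ e0 / 2 ∧
      ε ≤ e0 ∧ 2 * ε ≤ 1 / (2 * Lψ) * ε1 ∧ ε ≤ 1 / (2 * Lψ) := by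
    have hC0 : 0 < Ch := by linarith
    refine ⟨min (min (1 / 24 / Ch) (e0 / 2 / Ch)) (min e0 (min (1 / (2 * Lψ) * ε1 / 2)
      (1 / (2 * Lψ)))), by positivity, ?_, ?_, ?_, ?_, ?_⟩
    · have : min (min (1 / 24 / Ch) (e0 / 2 / Ch)) (min e0 (min (1 / (2 * Lψ) * ε1 / 2)
        (1 / (2 * Lψ)))) ≤ 1 / 24 / Ch := (min_le_left _ _).trans (min_le_left _ _)
      rw [le_div_iff₀ hC0] at this
      linarith
    · have : min (min (1 / 24 / Ch) (e0 / 2 / Ch)) (min e0 (min (1 / (2 * Lψ) * ε1 / 2)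
        (1 / (2 * Lψ)))) ≤ e0 / 2 / Ch := (min_le_left _ _).trans (min_le_right _ _)
      rw [le_div_iff₀ hC0] at this
      linarith
    · exact (min_le_right _ _).trans (min_le_left _ _)
    · have : min (min (1 / 24 / Ch) (e0 / 2 / Ch)) (min e0 (min (1 / (2 * Lψ) * ε1 / 2)
        (1 / (2 * Lψ)))) ≤ 1 / (2 * Lψ) * ε1 / 2 :=
        (min_le_right _ _).trans ((min_le_right _ _).trans (min_le_left _ _))
      linarith
    · exact (min_le_right _ _).trans ((min_le_right _ _).trans (min_le_right _ _))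
  obtain ⟨A, hA, hgl⟩ := hgl ε hε
  obtain ⟨a0, ha0, ha0A, ha0S, k10⟩ : ∃ a0 > (0 : ℝ), a0 ≤ A ∧ 4 * S * a0 ≤ ε' ∧ 2 * a0 ≤ σ := by
    refine ⟨min A (min (ε' / (4 * S)) (σ / 2)), by positivity, min_le_left _ _, ?_, ?_⟩
    · have : min A (min (ε' / (4 * S)) (σ / 2)) ≤ ε' / (4 * S) :=
        (min_le_right _ _).trans (min_le_left _ _)
      rw [le_div_iff₀ (by positivity)] at this
      linarith
    · have : min A (min (ε' / (4 * S)) (σ / 2)) ≤ σ / 2 :=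
        (min_le_right _ _).trans (min_le_right _ _)
      linarith
  obtain ⟨ρ, hρ, H, H0, hH, hHc⟩ := hgl a0 ha0 ha0A
  obtain ⟨K1, hK1⟩ : ∃ K1 : ℝ, K1 = (1 + XB) * ((3 + 3 * M) * B1) := ⟨_, rfl⟩
  obtain ⟨K2, hK2⟩ : ∃ K2 : ℝ, K2 = B2 * ((2 + M) * (1 + XB)) := ⟨_, rfl⟩
  have hK10 : 0 < K1 := by rw [hK1]; positivity
  have hK20 : 0 < K2 := by rw [hK2]; positivity
  have key : ∀ p ∈ ball (0 : ℂ × ℂ) ρ, ∀ q ∈ ball (0 : ℂ × ℂ) ρ, ‖q‖ ≤ ‖p‖ →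
      ‖p - q‖ ≤ (2 * Lψ + K1) * ‖H p - H q‖ ∧
      ‖H p - H q‖ ≤ (Lφ + 1 / (2 * Lψ) + K2) * ‖p - q‖ := by
    intro p hp q hq hqp
    have hd0 := norm_nonneg (p - q)
    have hHd0 := norm_nonneg (H p - H q)
    -- comparison with `φ`
    have hcmp : ‖(H p - H q) - (φ p - φ q)‖ ≤ 1 / (2 * Lψ) * ‖p - q‖ →
        ‖p - q‖ ≤ (2 * Lψ + K1) * ‖H p - H q‖ ∧
        ‖H p - H q‖ ≤ (Lφ + 1 / (2 * Lψ) + K2) * ‖p - q‖ := by
      intro hc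
      obtain ⟨c1, c2⟩ := Z7_cmp (H p - H q) (φ p - φ q) ‖p - q‖ Lφ Lψ hLψ (hφlow p q) (hφL p q) hc
      have c3 : 0 ≤ K1 * ‖H p - H q‖ := by positivity
      have c4 : 0 ≤ K2 * ‖p - q‖ := by positivity
      constructor <;> linarith
    by_cases hp0 : p = 0
    · have hq0 : q = 0 := by
        rw [hp0, norm_zero] at hqp
        exact norm_le_zero_iff.1 hqp
      rw [hp0, hq0]
      simp
    have hpn : 0 < ‖p‖ := norm_pos_iff.2 hp0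
    have hpρ : ‖p‖ < ρ := by rwa [mem_ball_zero_iff] at hp
    have hqρ : ‖q‖ < ρ := by rwa [mem_ball_zero_iff] at hq
    by_cases hi : ε1 * ‖p‖ ≤ ‖p - q‖
    · apply hcmp
      have h1 : ‖H p - φ p‖ ≤ ε * ‖p‖ := (hH p hpn hpρ).2.2.1
      have h2 : ‖H q - φ q‖ ≤ ε * ‖p‖ := by
        by_cases hq0 : q = 0
        · rw [hq0, H0, hφ0, sub_zero, norm_zero]
          positivity
        · refine ((hH q (norm_pos_iff.2 hq0) hqρ).2.2.1).trans ?_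
          exact mul_le_mul_of_nonneg_left hqp hε.le
      have h3 : (H p - H q) - (φ p - φ q) = (H p - φ p) - (H q - φ q) := by abel
      rw [h3]
      refine (norm_sub_le _ _).trans ?_
      have h4 : 2 * ε * ‖p‖ ≤ 1 / (2 * Lψ) * ε1 * ‖p‖ := mul_le_mul_of_nonneg_right k11 hpn.le
      have h5 : 1 / (2 * Lψ) * (ε1 * ‖p‖) ≤ 1 / (2 * Lψ) * ‖p - q‖ :=
        mul_le_mul_of_nonneg_left hi (by positivity)
      linarith
    rw [not_le] at hi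
    -- the segment
    have hzp : ∀ z ∈ segment ℝ p q, ‖z - p‖ ≤ ε1 * ‖p‖ := by
      intro z hz
      have h1 := norm_sub_le_of_mem_segment hz
      rw [norm_sub_rev q p] at h1
      linarith
    have hzρ : ∀ z ∈ segment ℝ p q, ‖z‖ < ρ := by
      intro z hz
      have := (convex_ball (0 : ℂ × ℂ) ρ).segment_subset hp hq hz
      rwa [mem_ball_zero_iff] at this
    have hSS : S * ε1 * 32 ≤ 1 := by
      have h1 : S * (S * ε1) ≤ 1 / 16 := by rw [hε1S]; linarith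
      have h2 : 0 < S * ε1 := by positivity
      have h3 : 2 * (S * ε1) ≤ S * (S * ε1) := mul_le_mul_of_nonneg_right (by linarith) h2.le
      linarith
    by_cases hii : ∃ j, 2 ≤ κ j ∧ ‖p.1 - X j * p.2‖ ≤ ε' * ‖p.2‖
    · obtain ⟨j, hκj, hj⟩ := hii
      have hp2n := norm_nonneg p.2
      have hps : ‖p‖ ≤ S * ‖p.2‖ := by
        rw [Prod.norm_def]
        have h1 : ‖p.1‖ ≤ ‖p.1 - X j * p.2‖ + ‖X j * p.2‖ := by
          have := norm_add_le (p.1 - X j * p.2) (X j * p.2)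
          rwa [sub_add_cancel] at this
        rw [norm_mul] at h1
        have h2 := mul_le_mul_of_nonneg_right (hXBj j) hp2n
        have h3 := mul_le_mul_of_nonneg_right hε'1 hp2n
        have h4 : 0 ≤ XB * ‖p.2‖ := by positivity
        refine max_le ?_ ?_
        · rw [hS]
          linarith
        · rw [hS]
          linarith
      have hp2 : 0 < ‖p.2‖ := by
        by_contra hcon
        have h1 : ‖p.2‖ = 0 := le_antisymm (not_lt.1 hcon) hp2n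
        rw [h1, mul_zero] at hps
        linarith
      have hε1p : ε1 * ‖p‖ ≤ S * ε1 * ‖p.2‖ := by
        have := mul_le_mul_of_nonneg_left hps hε1.le
        linarith
      have hsp2 : S * ε1 * ‖p.2‖ * 32 ≤ ‖p.2‖ := by
        have := mul_le_mul_of_nonneg_right hSS hp2.le
        linarith
      obtain ⟨r1, r2⟩ := Z7_cone (κ := κ) (X := X) (Xj' := X' j) (α := β j * ω j) (ω := ω j)
        (j := j) (φ := φ) (H := H) (mul_ne_zero (hM.hβ j) (hM.hω j)) (hM.hω j)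
        (Cφ := Cφ) (δφ := δφ) (Ch := Ch) (ε := ε) (ε' := ε') (e0 := e0) (M := M) (CK := CK)
        (a0 := a0) (ρ := ρ) (σ := σ) (XB := XB)
        (by
          intro z hz2 hz1 v w
          have h1 : ‖z.1‖ < δφ' j * ‖z.2‖ :=
            hz1.trans_le (mul_le_mul_of_nonneg_right (hδφj j) hz2.le)
          obtain ⟨_, _, _, h2⟩ := hphi j z hz2 h1
          obtain ⟨h3, h4⟩ := h2 v w
          have h5 : 0 ≤ ‖z.1‖ * ‖v‖ + ‖z.1‖ * ‖w‖ := by positivity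
          have h6 : 0 ≤ ‖z.2‖ * ‖v‖ + ‖z.1‖ * ‖w‖ := by positivity
          exact ⟨h3.trans (mul_le_mul_of_nonneg_right (hCφj j) h5),
            h4.trans (mul_le_mul_of_nonneg_right (hCφj j) h6)⟩)
        (by
          intro z h1 h2 h3
          obtain ⟨_, g1, g2⟩ := hhat j H φ z
          refine ⟨(g1 h1).differentiableAt one_ne_zero, fun w => ?_⟩
          refine (g2 ε hε.le (h1.differentiableAt one_ne_zero) h2 h3 w).trans ?_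
          have h4 : Ch' j * (ε * ‖w‖) ≤ Ch * (ε * ‖w‖) :=
            mul_le_mul_of_nonneg_right (hChj j) (by positivity)
          linarith)
        (fun p hp => (hM.smooth p hp).differentiableAt one_ne_zero)
        (fun p h1 h2 => ⟨(hH p h1 h2).1, (hH p h1 h2).2.2.2⟩)
        (hHc j hκj) (fun i hi => hσj i j hi) hσ (hXBj j) hCφ (by linarith) hε.le hε' ha0 he0.le
        hM0.le k0 k1 k2 k3 k4 (by linarith) (by linarith) k7 k8 k9 k10 p q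
        (by
          intro z hz
          have g1 := hzp z hz
          have g2 : ‖p.2‖ - ‖z.2‖ ≤ ‖z - p‖ := by
            have := norm_snd_le (z - p)
            have h2 := norm_sub_norm_le p.2 z.2
            rw [norm_sub_rev] at h2
            exact h2.trans this
          have g3 : ‖z.1 - X j * z.2‖ ≤ ‖p.1 - X j * p.2‖ + (1 + XB) * ‖z - p‖ := by
            have h1 := Z7_lin (X j) XB (hXBj j) (z - p)
            have h2 : z.1 - X j * z.2 = (p.1 - X j * p.2) + ((z - p).1 - X j * (z - p).2) := by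
              show _ = (p.1 - X j * p.2) + ((z.1 - p.1) - X j * (z.2 - p.2))
              ring
            rw [h2]
            exact (norm_add_le _ _).trans (by linarith)
          have g4 : (1 + XB) * ‖z - p‖ ≤ S * (ε1 * ‖p‖) :=
            mul_le_mul (by linarith) g1 (norm_nonneg _) hS0.le
          have g5 : S * (ε1 * ‖p‖) ≤ ε' / 16 * ‖p.2‖ := by
            have := mul_le_mul_of_nonneg_left hε1p hS0.le
            have h2 : S * (S * ε1 * ‖p.2‖) = ε' / 16 * ‖p.2‖ := by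
              rw [← hε1S]
              ring
            linarith
          have g6 : 31 / 32 * ‖p.2‖ ≤ ‖z.2‖ := by linarith
          have g7 : ε' * (31 / 32 * ‖p.2‖) ≤ ε' * ‖z.2‖ := mul_le_mul_of_nonneg_left g6 hε'.le
          have g8 : 0 < ε' * ‖p.2‖ := by positivity
          refine ⟨by linarith, hzρ z hz, ?_⟩
          linarith)
      constructor
      · refine r1.trans ?_
        have h1 : ((1 + ‖X' j‖) / ‖β j * ω j‖ + 1 / ‖ω j‖) * ‖H p - H q‖ ≤ B1 * ‖H p - H q‖ :=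
          mul_le_mul_of_nonneg_right (hB1j j) hHd0
        have h2 : (1 + XB) * ((3 + 3 * M) * (((1 + ‖X' j‖) / ‖β j * ω j‖ + 1 / ‖ω j‖) *
            ‖H p - H q‖)) ≤ (1 + XB) * ((3 + 3 * M) * (B1 * ‖H p - H q‖)) :=
          mul_le_mul_of_nonneg_left (mul_le_mul_of_nonneg_left h1 (by positivity)) (by positivity)
        refine h2.trans ?_
        have h3 : (1 + XB) * ((3 + 3 * M) * (B1 * ‖H p - H q‖)) = K1 * ‖H p - H q‖ := by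
          rw [hK1]; ring
        rw [h3]
        have h4 : 0 ≤ 2 * Lψ * ‖H p - H q‖ := by positivity
        linarith
      · refine r2.trans ?_
        have h1 : 0 ≤ (2 + M) * ((1 + XB) * ‖p - q‖) := by positivity
        refine (mul_le_mul_of_nonneg_right (hB2j j) h1).trans ?_
        have h3 : B2 * ((2 + M) * ((1 + XB) * ‖p - q‖)) = K2 * ‖p - q‖ := by
          rw [hK2]; ring
        rw [h3]
        have h4 : 0 ≤ Lφ * ‖p - q‖ := by positivity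
        have h5 : 0 ≤ 1 / (2 * Lψ) * ‖p - q‖ := by positivity
        linarith
    · apply hcmp
      push Not at hii
      have h3 : (H p - H q) - (φ p - φ q) = (H p - φ p) - (H q - φ q) := by abel
      rw [h3]
      have hmv := Z7_mvt (fun z => H z - φ z) p q (ε * ‖p - q‖) (by
        intro z hz
        have g1 := hzp z hz
        have g0 : ε1 * 32 ≤ 1 := by
          have : ε1 * 32 ≤ S * ε1 * 32 := by
            have : 1 * (ε1 * 32) ≤ S * (ε1 * 32) :=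
              mul_le_mul_of_nonneg_right (by linarith) (by positivity)
            linarith
          linarith
        have g0' : ε1 * ‖p‖ * 32 ≤ ‖p‖ := by
          have := mul_le_mul_of_nonneg_right g0 hpn.le
          linarith
        have hz0 : 0 < ‖z‖ := by
          have := norm_sub_norm_le p z
          rw [norm_sub_rev] at this
          linarith
        have hz2 : ‖z.2‖ ≤ 2 * ‖p‖ := by
          have h1 := norm_snd_le z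
          have h2 := norm_sub_norm_le z p
          linarith
        obtain ⟨f1, _, _, f2⟩ := hH z hz0 (hzρ z hz)
        have f3 := f2 (by
          intro j hκj
          have hj := hii j hκj
          have hp2n := norm_nonneg p.2
          obtain ⟨d, hd⟩ : ∃ d : ℝ, d = ‖p.1 - X j * p.2‖ := ⟨_, rfl⟩
          rw [← hd] at hj
          have hd0 : 0 ≤ d := by rw [hd]; exact norm_nonneg _
          have e1 : ε' * ‖p‖ ≤ S * d := by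
            have h1 : ‖p.1‖ ≤ d + XB * ‖p.2‖ := by
              have h4 := norm_add_le (p.1 - X j * p.2) (X j * p.2)
              rw [sub_add_cancel, norm_mul, ← hd] at h4
              have h2 := mul_le_mul_of_nonneg_right (hXBj j) hp2n
              linarith
            have h2 : ε' * ‖p.1‖ ≤ ε' * (d + XB * ‖p.2‖) := mul_le_mul_of_nonneg_left h1 hε'.le
            have h4 : ε' * d ≤ 1 * d := mul_le_mul_of_nonneg_right hε'1 hd0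
            have h5 : XB * (ε' * ‖p.2‖) ≤ XB * d := mul_le_mul_of_nonneg_left hj.le (by linarith)
            have h6 : 0 ≤ XB * d := by positivity
            rw [Prod.norm_def]
            rcases max_cases ‖p.1‖ ‖p.2‖ with ⟨h7, _⟩ | ⟨h7, _⟩
            · rw [h7, hS]
              linarith
            · rw [h7, hS]
              linarith
          have e2 : d ≤ ‖z.1 - X j * z.2‖ + (1 + XB) * ‖z - p‖ := by
            have h1 := Z7_lin (X j) XB (hXBj j) (z - p)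
            have h2 : p.1 - X j * p.2 = (z.1 - X j * z.2) - ((z - p).1 - X j * (z - p).2) := by
              show _ = (z.1 - X j * z.2) - ((z.1 - p.1) - X j * (z.2 - p.2))
              ring
            rw [hd, h2]
            exact (norm_sub_le _ _).trans (by linarith)
          have e3 : (1 + XB) * ‖z - p‖ ≤ S * (ε1 * ‖p‖) :=
            mul_le_mul (by linarith) g1 (norm_nonneg _) hS0.le
          have e4 : S * d ≤ S * (‖z.1 - X j * z.2‖ + S * (ε1 * ‖p‖)) :=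
            mul_le_mul_of_nonneg_left (by linarith) hS0.le
          have e5 : S * (S * (ε1 * ‖p‖)) = ε' / 16 * ‖p‖ := by
            rw [← hε1S]
            ring
          have e6 : 4 * S * a0 * ‖z.2‖ ≤ ε' * (2 * ‖p‖) :=
            mul_le_mul ha0S hz2 (norm_nonneg _) hε'.le
          have e7 : 0 < ε' * ‖p‖ := by positivity
          have e8 : S * (3 / 4 * a0 * ‖z.2‖) < S * ‖z.1 - X j * z.2‖ := by linarith
          exact lt_of_mul_lt_mul_left e8 hS0.le)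
        have f4 : DifferentiableAt ℝ φ z :=
          (hM.smooth z (norm_pos_iff.1 hz0)).differentiableAt one_ne_zero
        have f5 : DifferentiableAt ℝ H z := f1.differentiableAt one_ne_zero
        refine ⟨f5.sub f4, ?_⟩
        have f6 : fderiv ℝ (fun z => H z - φ z) z = fderiv ℝ H z - fderiv ℝ φ z :=
          (f5.hasFDerivAt.sub f4.hasFDerivAt).fderiv
        rw [f6]
        exact f3 (p - q))
      refine hmv.trans ?_
      exact mul_le_mul_of_nonneg_right k12 hd0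
  refine ⟨ρ, hρ, 1 / (2 * Lψ + K1), by positivity, Lφ + 1 / (2 * Lψ) + K2, by positivity, H, H0,
    fun p h1 h2 => (hH p h1 h2).1, ?_, ?_⟩
  · intro p hp
    rw [mem_ball_zero_iff] at hp
    by_cases hp0 : p = 0
    · rw [hp0, H0, Z7_zero hf, Z7_zero hg]
    · exact (hH p (norm_pos_iff.2 hp0) hp).2.1
  · intro p hp q hq
    have hfin : ∀ p q : ℂ × ℂ, ‖p - q‖ ≤ (2 * Lψ + K1) * ‖H p - H q‖ →
        1 / (2 * Lψ + K1) * ‖p - q‖ ≤ ‖H p - H q‖ := by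
      intro p q h
      rw [one_div, inv_mul_le_iff₀ (by positivity)]
      exact h
    rcases le_total ‖q‖ ‖p‖ with hc | hc
    · obtain ⟨h1, h2⟩ := key p hp q hq hc
      exact ⟨hfin p q h1, h2⟩
    · obtain ⟨h1, h2⟩ := key q hq p hp hc
      have h3 := hfin q p h1
      rw [norm_sub_rev q p, norm_sub_rev (H q) (H p)] at h2 h3
      exact ⟨h3, h2⟩

end H24.LS
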